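import Pool.Agent.Lib_MP_5027f4_cont.Defs

/-!
PIECE [CpCoeff] (MP_5027f4_mp, T1).  Coefficients of the characteristic polynomial.
-/

open Set Filter Topology Metric Polynomial
open scoped ComplexConjugate ContDiff

namespace Pool.Agent.MP_5027f4_cont

/-- a polynomial expression in functions of class `C^ω` is of class `C^ω` -/
theorem CpCoeff_mvPoly {E : Type*} [NormedAddCommGroup E] [NormedSpace ℝ E] {ι : Type*}
    (x : ι → E → ℝ) (hx : ∀ i, ContDiff ℝ ω (x i)) (p : MvPolynomial ι ℝ) :
    ContDiff ℝ ω (fun A : E => MvPolynomial.eval (fun i => x i A) p) := by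
  induction p using MvPolynomial.induction_on with
  | C a =>
    simp only [MvPolynomial.eval_C]
    exact contDiff_const
  | add p q hp hq =>
    simp only [map_add]
    exact hp.add hq
  | mul_X p i hp =>
    simp only [map_mul, MvPolynomial.eval_X]
    exact hp.mul (hx i)

/-- The coefficients of the characteristic polynomial are polynomial functions of the map. -/
theorem contDiff_cp_coeff {E : Type*} [NormedAddCommGroup E] [NormedSpace ℝ E]
    [FiniteDimensional ℝ E] (i : ℕ) : ContDiff ℝ ω (fun A : E →L[ℝ] E => (cp A).coeff i) := by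
  classical
  set b := Module.finBasis ℝ E with hb
  have key : ∀ A : E →L[ℝ] E, (cp A).coeff i =
      MvPolynomial.eval (fun p : Fin (Module.finrank ℝ E) × Fin (Module.finrank ℝ E) =>
        LinearMap.toMatrix b b (A : E →ₗ[ℝ] E) p.1 p.2)
        ((Matrix.charpoly.univ ℝ (Fin (Module.finrank ℝ E))).coeff i) := by
    intro A
    unfold cp
    rw [← LinearMap.charpoly_toMatrix (A : E →ₗ[ℝ] E) b]
    have h := Matrix.charpoly.univ_coeff_eval₂Hom (n := Fin (Module.finrank ℝ E)) (RingHom.id ℝ)
      (fun p => LinearMap.toMatrix b b (A : E →ₗ[ℝ] E) p.1 p.2) i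
    exact h.symm
  simp only [key]
  apply CpCoeff_mvPoly
  intro p
  -- the entries are continuous linear
  have : (fun A : E →L[ℝ] E => LinearMap.toMatrix b b (A : E →ₗ[ℝ] E) p.1 p.2) =
      fun A : E →L[ℝ] E => (LinearMap.toContinuousLinearMap
        ((b.coord p.1) ∘ₗ (LinearMap.applyₗ (b p.2)) ∘ₗ
          (ContinuousLinearMap.coeLM ℝ : (E →L[ℝ] E) →ₗ[ℝ] (E →ₗ[ℝ] E)))) A := by
    funext A
    rw [LinearMap.toMatrix_apply]
    rfl
  rw [this]
  exact ContinuousLinearMap.contDiff _

/-- degree -/
theorem cp_natDegree {E : Type*} [NormedAddCommGroup E] [NormedSpace ℝ E]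
    [FiniteDimensional ℝ E] (A : E →L[ℝ] E) : (cp A).natDegree = Module.finrank ℝ E := by
  unfold cp
  exact LinearMap.charpoly_natDegree _

end Pool.Agent.MP_5027f4_cont
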