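import Pool.Agent.Lib_MP_5027f4_cont.LocalThm
import Pool.Agent.Lib_MP_5027f4_cont.CpCoeff

/-!
# Accumulating fixed points belong to a family (assembly of the abstract part)
-/

open Set Filter Topology Metric Polynomial Asymptotics
open scoped ComplexConjugate ContDiff

namespace Pool.Agent.MP_5027f4_cont

variable {E : Type*} [NormedAddCommGroup E] [NormedSpace ℝ E] [FiniteDimensional ℝ E]
  {om : E →L[ℝ] E →L[ℝ] ℝ} {x₀ : E} {G : (ℝ × ℝ) × E → E} {μ : E → ℝ × ℝ} {Φ : E → E}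

/-- **Accumulation.** If fixed points on the level `h₀` with momenta `cn n → c₀`, `cn n ≠ c₀` and a
given characteristic polynomial accumulate at the fixed point `x₀`, there are such fixed points for
all momenta near `c₀`. -/
theorem acc_family (hdim : Module.finrank ℝ E = 8) (halt : ∀ x, om x x = 0)
    (hnd : ∀ x, (∀ y, om x y = 0) → x = 0) (hA : LocAct om x₀ G μ) (hΦ : AnalyticAt ℝ Φ x₀)
    (hΦ0 : Φ x₀ = x₀) (hcomm : ∀ᶠ p : (ℝ × ℝ) × E in 𝓝 (0, x₀), Φ (G p) = G (p.1, Φ p.2))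
    (hmu : ∀ᶠ y in 𝓝 x₀, μ (Φ y) = μ y)
    {q : ℝ[X]} (hq : cp (fderiv ℝ Φ x₀) = (X - 1) ^ 4 * q) (hq1 : q.eval 1 ≠ 0) {cn : ℕ → ℝ}
    (hcn : Tendsto cn atTop (𝓝 (μ x₀).2)) (hne : ∀ n, cn n ≠ (μ x₀).2)
    (hacc : ∀ 𝒱 ∈ 𝓝 x₀, ∃ᶠ n in atTop, ∃ y ∈ 𝒱, Φ y = y ∧ μ y = ((μ x₀).1, cn n) ∧
      cp (fderiv ℝ Φ y) = (X - 1) ^ 4 * q) :
    ∀ 𝒱 ∈ 𝓝 x₀, ∀ᶠ c in 𝓝 (μ x₀).2, ∃ y ∈ 𝒱, Φ y = y ∧ μ y = ((μ x₀).1, c) ∧
      cp (fderiv ℝ Φ y) = (X - 1) ^ 4 * q := by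
  obtain ⟨Θ, Ξ, hC⟩ := exists_chart hdim halt hnd hA
  obtain ⟨b, P, hR⟩ := exists_ret hC hΦ hΦ0 hcomm hmu
  have hcpb := cp_base hC hR hΦ hΦ0 hq
  have h1 : (cp (dz P (μ x₀, 0))).eval 1 ≠ 0 := by
    rw [hcpb]
    exact hq1
  obtain ⟨zs, hzs, hz0, hfix, huniq⟩ := exists_fix hR.anP hR.P0 h1
  set h₀ := (μ x₀).1 with hh₀
  set c₀ := (μ x₀).2 with hc₀
  have hk : Tendsto (fun c : ℝ => (h₀, c)) (𝓝 c₀) (𝓝 (μ x₀)) := by
    have : ContinuousAt (fun c : ℝ => (h₀, c)) c₀ := by fun_prop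
    simpa using this.tendsto
  -- the values along the sequence
  have hfreq : ∃ᶠ n in atTop, b ((h₀, cn n), zs (h₀, cn n)) = 0 ∧
      cp (dz P ((h₀, cn n), zs (h₀, cn n))) = q := by
    have hΞc : Tendsto Ξ (𝓝 x₀) (𝓝 (0, μ x₀, 0)) := by
      have := hC.anX.continuousAt.tendsto
      rwa [hC.baseX] at this
    have hτc : Tendsto (fun p : (ℝ × ℝ) × (ℝ × ℝ) × (ℂ × ℂ) =>
        (((p.1 + b p.2, p.2.1, P p.2)) : (ℝ × ℝ) × (ℝ × ℝ) × (ℂ × ℂ)))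
        (𝓝 (0, μ x₀, 0)) (𝓝 (0, μ x₀, 0)) := by
      have hb2 : ContinuousAt (fun p : (ℝ × ℝ) × (ℝ × ℝ) × (ℂ × ℂ) => b p.2)
          (0, μ x₀, 0) := hR.anb.continuousAt.comp (x := ((0, μ x₀, 0) :
            (ℝ × ℝ) × (ℝ × ℝ) × (ℂ × ℂ))) (f := Prod.snd) continuousAt_snd
      have hP2 : ContinuousAt (fun p : (ℝ × ℝ) × (ℝ × ℝ) × (ℂ × ℂ) => P p.2)
          (0, μ x₀, 0) := hR.anP.continuousAt.comp (x := ((0, μ x₀, 0) :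
            (ℝ × ℝ) × (ℝ × ℝ) × (ℂ × ℂ))) (f := Prod.snd) continuousAt_snd
      have h2 : ContinuousAt (fun p : (ℝ × ℝ) × (ℝ × ℝ) × (ℂ × ℂ) =>
          (((p.1 + b p.2, p.2.1, P p.2)) : (ℝ × ℝ) × (ℝ × ℝ) × (ℂ × ℂ))) (0, μ x₀, 0) :=
        (continuousAt_fst.add hb2).prodMk ((continuousAt_fst.comp continuousAt_snd).prodMk hP2)
      have h3 := h2.tendsto
      simp only [hR.b0, hR.P0, add_zero] at h3
      exact h3
    have hsnd : Tendsto (fun p : (ℝ × ℝ) × (ℝ × ℝ) × (ℂ × ℂ) => p.2) (𝓝 (0, μ x₀, 0))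
        (𝓝 (μ x₀, 0)) := continuousAt_snd.tendsto
    have hev : ∀ᶠ y in 𝓝 x₀, Θ (Ξ y) = y ∧ μ (Θ (Ξ y)) = (Ξ y).2.1 ∧
        Φ (Θ (Ξ y)) = Θ ((Ξ y).1 + b (Ξ y).2, (Ξ y).2.1, P (Ξ y).2) ∧
        Ξ (Θ (Ξ y)) = Ξ y ∧
        Ξ (Θ ((Ξ y).1 + b (Ξ y).2, (Ξ y).2.1, P (Ξ y).2)) =
          ((Ξ y).1 + b (Ξ y).2, (Ξ y).2.1, P (Ξ y).2) ∧
        (P (Ξ y).2 = (Ξ y).2.2 → (Ξ y).2.2 = zs (Ξ y).2.1) ∧
        (b (Ξ y).2 = 0 → P (Ξ y).2 = (Ξ y).2.2 →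
          cp (fderiv ℝ Φ (Θ (Ξ y))) = (X - 1) ^ 4 * cp (dz P (Ξ y).2)) := by
      filter_upwards [hC.right, hΞc.eventually hC.mom, hΞc.eventually hR.eq,
        hΞc.eventually hC.left, (hτc.comp hΞc).eventually hC.left,
        (hsnd.comp hΞc).eventually huniq, hΞc.eventually (cp_ret hC hR hΦ hΦ0)]
        with y a1 a2 a3 a4 a5 a6 a7
      exact ⟨a1, a2, a3, a4, a5, a6, a7⟩
    refine (hacc _ hev).mono ?_
    rintro n ⟨y, ⟨a1, a2, a3, a4, a5, a6, a7⟩, hΦy, hμy, hcy⟩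
    have hk1 : (Ξ y).2.1 = (h₀, cn n) := by rw [← a2, a1, hμy]
    have h2 : Θ ((Ξ y).1 + b (Ξ y).2, (Ξ y).2.1, P (Ξ y).2) = Θ (Ξ y) := by
      rw [← a3, a1, hΦy]
    have h3 : ((Ξ y).1 + b (Ξ y).2, (Ξ y).2.1, P (Ξ y).2) = Ξ y := by
      rw [← a5, h2, a4]
    have hb0 : b (Ξ y).2 = 0 := by
      have := congrArg Prod.fst h3
      simpa using this
    have hP0 : P (Ξ y).2 = (Ξ y).2.2 := congrArg (fun p => p.2.2) h3
    have hz : (Ξ y).2 = ((h₀, cn n), zs (h₀, cn n)) := by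
      refine Prod.ext hk1 ?_
      rw [a6 hP0, hk1]
    have h4 := a7 hb0 hP0
    rw [a1, hcy] at h4
    rw [← hz]
    exact ⟨hb0, (cancel_pow h4).symm⟩
  -- analyticity in `c`
  have hzan : AnalyticAt ℝ (fun c => zs (h₀, c)) c₀ := by
    have : AnalyticAt ℝ (fun c : ℝ => ((h₀, c) : ℝ × ℝ)) c₀ := analyticAt_const.prod analyticAt_id
    exact AnalyticAt.comp (g := zs) (f := fun c : ℝ => ((h₀, c) : ℝ × ℝ)) (x := c₀) hzs this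
  have hcurve : AnalyticAt ℝ (fun c => (((h₀, c), zs (h₀, c)) : (ℝ × ℝ) × (ℂ × ℂ))) c₀ :=
    (analyticAt_const.prod analyticAt_id).prod hzan
  have hbase : (((h₀, c₀), zs (h₀, c₀)) : (ℝ × ℝ) × (ℂ × ℂ)) = (μ x₀, 0) := by
    have : ((h₀, c₀) : ℝ × ℝ) = μ x₀ := rfl
    rw [this, hz0]
  have hban : AnalyticAt ℝ (fun c => b ((h₀, c), zs (h₀, c))) c₀ := by
    have h2 : AnalyticAt ℝ b ((h₀, c₀), zs (h₀, c₀)) := by
      rw [hbase]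
      exact hR.anb
    exact AnalyticAt.comp (g := b)
      (f := fun c => (((h₀, c), zs (h₀, c)) : (ℝ × ℝ) × (ℂ × ℂ))) (x := c₀) h2 hcurve
  have hAan : AnalyticAt ℝ (fun c => dz P ((h₀, c), zs (h₀, c))) c₀ := by
    have h2 : AnalyticAt ℝ (fderiv ℝ P) ((h₀, c₀), zs (h₀, c₀)) := by
      rw [hbase]
      exact hR.anP.fderiv
    have h3 : AnalyticAt ℝ (fun c => fderiv ℝ P ((h₀, c), zs (h₀, c))) c₀ :=
      AnalyticAt.comp (g := fderiv ℝ P)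
        (f := fun c => (((h₀, c), zs (h₀, c)) : (ℝ × ℝ) × (ℂ × ℂ))) (x := c₀) h2 hcurve
    have h4 : AnalyticAt ℝ (fun B : ((ℝ × ℝ) × (ℂ × ℂ)) →L[ℝ] (ℂ × ℂ) =>
        B.comp (ContinuousLinearMap.inr ℝ (ℝ × ℝ) (ℂ × ℂ)))
        (fderiv ℝ P ((h₀, c₀), zs (h₀, c₀))) :=
      (((ContinuousLinearMap.compL ℝ (ℂ × ℂ) ((ℝ × ℝ) × (ℂ × ℂ)) (ℂ × ℂ)).flip
        (ContinuousLinearMap.inr ℝ (ℝ × ℝ) (ℂ × ℂ))).analyticAt _)
    exact AnalyticAt.comp (g := fun B : ((ℝ × ℝ) × (ℂ × ℂ)) →L[ℝ] (ℂ × ℂ) =>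
        B.comp (ContinuousLinearMap.inr ℝ (ℝ × ℝ) (ℂ × ℂ)))
        (f := fun c => fderiv ℝ P ((h₀, c), zs (h₀, c))) (x := c₀) h4 h3
  -- identity theorem
  have hid : ∀ {f : ℝ → ℝ} {v : ℝ}, AnalyticAt ℝ f c₀ → (∃ᶠ n in atTop, f (cn n) = v) →
      ∀ᶠ c in 𝓝 c₀, f c = v := by
    intro f v hf hfr
    refine (hf.frequently_eq_iff_eventually_eq analyticAt_const).1 ?_
    intro hnot
    have hcn' : Tendsto cn atTop (𝓝[≠] c₀) :=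
      tendsto_nhdsWithin_iff.2 ⟨hcn, Eventually.of_forall hne⟩
    exact hfr (hcn'.eventually hnot)
  have hb1 : ∀ᶠ c in 𝓝 c₀, (b ((h₀, c), zs (h₀, c))).1 = 0 :=
    hid (((ContinuousLinearMap.fst ℝ ℝ ℝ).analyticAt _).comp hban)
      (hfreq.mono fun n hn => by
        simp only [Function.comp_apply, hn.1]
        rfl)
  have hb2 : ∀ᶠ c in 𝓝 c₀, (b ((h₀, c), zs (h₀, c))).2 = 0 :=
    hid (((ContinuousLinearMap.snd ℝ ℝ ℝ).analyticAt _).comp hban)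
      (hfreq.mono fun n hn => by
        simp only [Function.comp_apply, hn.1]
        rfl)
  have hcoef : ∀ i : ℕ, ∀ᶠ c in 𝓝 c₀,
      (cp (dz P ((h₀, c), zs (h₀, c)))).coeff i = q.coeff i := by
    intro i
    refine hid ?_ (hfreq.mono fun n hn => by rw [hn.2])
    have h2 : AnalyticAt ℝ (fun A : (ℂ × ℂ) →L[ℝ] (ℂ × ℂ) => (cp A).coeff i)
        (dz P ((h₀, c₀), zs (h₀, c₀))) := by
      have := (contDiff_cp_coeff (E := ℂ × ℂ) i).contDiffAt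
        (x := dz P ((h₀, c₀), zs (h₀, c₀)))
      exact this.analyticAt
    exact AnalyticAt.comp (g := fun A : (ℂ × ℂ) →L[ℝ] (ℂ × ℂ) => (cp A).coeff i)
      (f := fun c => dz P ((h₀, c), zs (h₀, c))) (x := c₀) h2 hAan
  have hcp : ∀ᶠ c in 𝓝 c₀, cp (dz P ((h₀, c), zs (h₀, c))) = q := by
    have hall : ∀ᶠ c in 𝓝 c₀, ∀ i ∈ Finset.range 5,
        (cp (dz P ((h₀, c), zs (h₀, c)))).coeff i = q.coeff i :=
      (Finset.eventually_all (Finset.range 5)).2 fun i _ => hcoef i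
    filter_upwards [hall] with c hc
    have hdeg : ∀ A : (ℂ × ℂ) →L[ℝ] (ℂ × ℂ), (cp A).natDegree = 4 := by
      intro A
      rw [cp_natDegree]
      simp
    have hqd : q.natDegree = 4 := by
      rw [← hcpb]
      exact hdeg _
    ext i
    by_cases hi : i < 5
    · exact hc i (Finset.mem_range.2 hi)
    · rw [coeff_eq_zero_of_natDegree_lt (by rw [hdeg]; omega),
        coeff_eq_zero_of_natDegree_lt (by rw [hqd]; omega)]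
  refine fixed_of_coord hC hR hΦ hΦ0 hzs.continuousAt hz0 hfix ?_ hcp
  filter_upwards [hb1, hb2] with c a1 a2
  exact Prod.ext a1 a2

end Pool.Agent.MP_5027f4_cont
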