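import Pool.Agent.Lib_MP_5027f4_cont.Defs

/-!
# Regularized three-body problem: more definitions and elementary algebraic relations

With `f k = ff X k`, `a k = al X k`, `β = bet X` (`CU = Im β / 4`, `DU = Re β / 4`):
`f 0 ^ 2 = f 1 ^ 2 + f 2 ^ 2` and
(R0) `conj (f 0) * a 1 + conj (f 1) * a 0 = conj (f 2) * β`,
(R1) `conj (f 0) * a 2 - conj (f 2) * a 0 = conj (f 1) * β`,
(R2) `conj (f 1) * a 2 + conj (f 2) * a 1 = conj (f 0) * β`,
(R3) `conj (f 0) * a 0 + conj (f 1) * a 1 = conj (f 2) * a 2`.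
-/

open Set Filter Topology Metric
open scoped ComplexConjugate ContDiff
open Pool.Agent.MP_5027f4_mp

namespace Pool.Agent.MP_5027f4_cont

/-- `conj ζ P + conj η R` -/
noncomputable def bet (X : Up) : ℂ := conj X.1 * X.2.2.1 + conj X.2.1 * X.2.2.2

/-- `rho` times the velocities -/
noncomputable def vv (m : Fin 3 → ℝ) (X : Up) : Fin 3 → ℂ :=
  ![-(((nn X 0 / m 0 : ℝ) : ℂ) * (ff X 1 * ff X 2) * al X 0) / 4,
    -(((nn X 1 / m 1 : ℝ) : ℂ) * (ff X 0 * ff X 2) * al X 1) / 4,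
    (((nn X 2 / m 2 : ℝ) : ℂ) * (ff X 0 * ff X 1) * al X 2) / 4]

/-- symplectic form of the extended phase space `(X, h, t)` -/
noncomputable def oY (ξ η : Up × ℝ × ℝ) : ℝ := oU ξ.1 η.1 + (ξ.2.1 * η.2.2 - ξ.2.2 * η.2.1)

theorem ff_sq (X : Up) : ff X 0 ^ 2 = ff X 1 ^ 2 + ff X 2 ^ 2 := by
  simp only [ff, Matrix.cons_val_zero, Matrix.cons_val_one, Matrix.cons_val]
  ring

theorem R0 (X : Up) : conj (ff X 0) * al X 1 + conj (ff X 1) * al X 0 = conj (ff X 2) * bet X := by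
  simp only [ff, al, bet, Matrix.cons_val_zero, Matrix.cons_val_one, Matrix.cons_val, map_add,
    map_sub, map_mul, map_pow, map_ofNat]
  ring

theorem R1 (X : Up) : conj (ff X 0) * al X 2 - conj (ff X 2) * al X 0 = conj (ff X 1) * bet X := by
  simp only [ff, al, bet, Matrix.cons_val_zero, Matrix.cons_val_one, Matrix.cons_val, map_add,
    map_sub, map_mul, map_pow, map_ofNat]
  ring

theorem R2 (X : Up) : conj (ff X 1) * al X 2 + conj (ff X 2) * al X 1 = conj (ff X 0) * bet X := by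
  simp only [ff, al, bet, Matrix.cons_val_zero, Matrix.cons_val_one, Matrix.cons_val, map_add,
    map_sub, map_mul, map_pow, map_ofNat]
  ring

theorem R3 (X : Up) : conj (ff X 0) * al X 0 + conj (ff X 1) * al X 1 =
    conj (ff X 2) * al X 2 := by
  simp only [ff, al, Matrix.cons_val_zero, Matrix.cons_val_one, Matrix.cons_val, map_add,
    map_sub, map_mul, map_pow, map_ofNat]
  ring

theorem nn_coe (X : Up) (k : Fin 3) : (nn X k : ℂ) = conj (ff X k) * ff X k := by
  rw [nn, Complex.normSq_eq_conj_mul_self]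

theorem CU_eq (X : Up) : CU X = (bet X).im / 4 := rfl

theorem DU_eq (X : Up) : DU X = (bet X).re / 4 := rfl

theorem nn_nonneg (X : Up) (k : Fin 3) : 0 ≤ nn X k := Complex.normSq_nonneg _

theorem rho_nonneg (X : Up) : 0 ≤ rho X :=
  mul_nonneg (mul_nonneg (nn_nonneg X 0) (nn_nonneg X 1)) (nn_nonneg X 2)

theorem nn_pos_iff (X : Up) (k : Fin 3) : 0 < nn X k ↔ ff X k ≠ 0 := Complex.normSq_pos

theorem rho_pos_iff (X : Up) : 0 < rho X ↔ Nonc X := by
  constructor
  · intro h k hk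
    have : nn X k = 0 := by rw [nn, hk, map_zero]
    fin_cases k <;> simp_all [rho]
  · intro h
    exact mul_pos (mul_pos ((nn_pos_iff X 0).2 (h 0)) ((nn_pos_iff X 1).2 (h 1)))
      ((nn_pos_iff X 2).2 (h 2))

theorem zz_sum (X : Up) : zz X 0 + zz X 1 + zz X 2 = 0 := by
  have := ff_sq X
  simp only [zz, Matrix.cons_val_zero, Matrix.cons_val_one, Matrix.cons_val]
  rw [this]
  ring

end Pool.Agent.MP_5027f4_cont
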