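import Pool.Agent.Lib_MP_5027f4_cont.CSm

/-!
PIECE [CEnA] (MP_5027f4_mp, T1).  Positions, distances, center of mass.
-/

open Set Filter Topology Metric
open scoped ComplexConjugate ContDiff
open Pool.Agent.MP_5027f4_mp

namespace Pool.Agent.MP_5027f4_cont

variable {m : Fin 3 → ℝ} {X : Up}

theorem cena_MM (hM : MM m ≠ 0) : (MM m : ℂ) ≠ 0 := by exact_mod_cast hM

theorem qq_sub_10 (hM : MM m ≠ 0) (X : Up) : qq m X 1 - qq m X 0 = zz X 2 := by
  have h := zz_sum X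
  have h1 : zz X 2 = -(zz X 0) - zz X 1 := by linear_combination h
  have hM' := cena_MM hM
  have e1 : qq m X 1 = (m 0 * zz X 2 - m 2 * zz X 0) / MM m := rfl
  have e0 : qq m X 0 = (m 2 * zz X 1 - m 1 * zz X 2) / MM m := rfl
  rw [e1, e0, ← sub_div, div_eq_iff hM', h1]
  simp only [MM]
  push_cast
  ring

theorem qq_sub_21 (hM : MM m ≠ 0) (X : Up) : qq m X 2 - qq m X 1 = zz X 0 := by
  have h := zz_sum X
  have h1 : zz X 2 = -(zz X 0) - zz X 1 := by linear_combination h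
  have hM' := cena_MM hM
  have e1 : qq m X 1 = (m 0 * zz X 2 - m 2 * zz X 0) / MM m := rfl
  have e2 : qq m X 2 = (m 1 * zz X 0 - m 0 * zz X 1) / MM m := rfl
  rw [e1, e2, ← sub_div, div_eq_iff hM', h1]
  simp only [MM]
  push_cast
  ring

theorem qq_sub_02 (hM : MM m ≠ 0) (X : Up) : qq m X 0 - qq m X 2 = zz X 1 := by
  have h1 := qq_sub_10 hM X
  have h2 := qq_sub_21 hM X
  have h := zz_sum X
  linear_combination -h1 - h2 - h

theorem norm_zz (X : Up) (k : Fin 3) : ‖zz X k‖ = nn X k := by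
  have h : ∀ z : ℂ, ‖z ^ 2‖ = Complex.normSq z := fun z => by
    rw [norm_pow, Complex.normSq_eq_norm_sq]
  fin_cases k
  · exact h (ff X 0)
  · change ‖-(ff X 1 ^ 2)‖ = _
    rw [norm_neg, h]
    rfl
  · change ‖-(ff X 2 ^ 2)‖ = _
    rw [norm_neg, h]
    rfl

theorem sum_qq (X : Up) : ∑ a, m a • qq m X a = 0 := by
  have e0 : qq m X 0 = (m 2 * zz X 1 - m 1 * zz X 2) / MM m := rfl
  have e1 : qq m X 1 = (m 0 * zz X 2 - m 2 * zz X 0) / MM m := rfl
  have e2 : qq m X 2 = (m 1 * zz X 0 - m 0 * zz X 1) / MM m := rfl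
  rw [Fin.sum_univ_three, e0, e1, e2]
  simp only [Complex.real_smul]
  ring

/-- by `R3` -/
theorem sum_pp (hX : Nonc X) : ∑ a, pp X a = 0 := by
  have h0 : conj (ff X 0) ≠ 0 := by simpa using hX 0
  have h1 : conj (ff X 1) ≠ 0 := by simpa using hX 1
  have h2 : conj (ff X 2) ≠ 0 := by simpa using hX 2
  have r := R3 X
  have e0 : pp X 0 = -(al X 0 / (4 * conj (ff X 1 * ff X 2))) := rfl
  have e1 : pp X 1 = -(al X 1 / (4 * conj (ff X 0 * ff X 2))) := rfl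
  have e2 : pp X 2 = al X 2 / (4 * conj (ff X 0 * ff X 1)) := rfl
  rw [Fin.sum_univ_three, e0, e1, e2]
  simp only [map_mul]
  field_simp
  linear_combination -r

theorem pj_mem (hm : ∀ a, m a ≠ 0) (hX : Nonc X) : pj m X ∈ comSub m := by
  rw [mem_comSub]
  refine ⟨sum_qq X, ?_⟩
  rw [← sum_pp hX]
  refine Finset.sum_congr rfl fun a _ => ?_
  change m a • (pp X a / m a) = pp X a
  have : (m a : ℂ) ≠ 0 := by exact_mod_cast hm a
  rw [Complex.real_smul]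
  field_simp

theorem cena_zz_ne (hX : Nonc X) (k : Fin 3) : zz X k ≠ 0 := by
  rw [← norm_ne_zero_iff, norm_zz]
  exact ((nn_pos_iff X k).2 (hX k)).ne'

theorem pj_noColl (hM : MM m ≠ 0) (hX : Nonc X) : pj m X ∈ noColl := by
  have h10 : qq m X 1 - qq m X 0 ≠ 0 := by rw [qq_sub_10 hM]; exact cena_zz_ne hX 2
  have h21 : qq m X 2 - qq m X 1 ≠ 0 := by rw [qq_sub_21 hM]; exact cena_zz_ne hX 0
  have h02 : qq m X 0 - qq m X 2 ≠ 0 := by rw [qq_sub_02 hM]; exact cena_zz_ne hX 1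
  intro a b hab
  change qq m X a ≠ qq m X b
  fin_cases a <;> fin_cases b
  · exact absurd rfl hab
  · exact (sub_ne_zero.1 h10).symm
  · exact sub_ne_zero.1 h02
  · exact sub_ne_zero.1 h10
  · exact absurd rfl hab
  · exact (sub_ne_zero.1 h21).symm
  · exact (sub_ne_zero.1 h02).symm
  · exact sub_ne_zero.1 h21
  · exact absurd rfl hab

theorem pE_coe (hm : ∀ a, m a ≠ 0) (hX : Nonc X) : ((pE m X : comSub m) : Ph) = pj m X := by
  have h := prE_coe m ⟨pj m X, pj_mem hm hX⟩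
  exact congrArg Subtype.val h

theorem pE_noColl (hM : MM m ≠ 0) (hm : ∀ a, m a ≠ 0) (hX : Nonc X) : pE m X ∈ noColl₀ m := by
  change ((pE m X : comSub m) : Ph) ∈ noColl
  rw [pE_coe hm hX]
  exact pj_noColl hM hX

/-- `rho` times the velocities -/
theorem vv_eq (hX : Nonc X) (k : Fin 3) : vv m X k = (rho X : ℂ) * (pj m X).2 k := by
  have h0 : conj (ff X 0) ≠ 0 := by simpa using hX 0
  have h1 : conj (ff X 1) ≠ 0 := by simpa using hX 1
  have h2 : conj (ff X 2) ≠ 0 := by simpa using hX 2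
  have hr : (rho X : ℂ) = (conj (ff X 0) * ff X 0) * (conj (ff X 1) * ff X 1) *
      (conj (ff X 2) * ff X 2) := by
    rw [rho, Complex.ofReal_mul, Complex.ofReal_mul, nn_coe, nn_coe, nn_coe]
  have hp : (pj m X).2 k = pp X k / m k := rfl
  rw [hp, hr]
  fin_cases k
  · change -(((nn X 0 / m 0 : ℝ) : ℂ) * (ff X 1 * ff X 2) * al X 0) / 4 =
      _ * (-(al X 0 / (4 * conj (ff X 1 * ff X 2))) / (m 0 : ℂ))
    rw [Complex.ofReal_div, nn_coe, map_mul, div_eq_mul_inv _ (m 0 : ℂ), div_eq_mul_inv _ (m 0 : ℂ)]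
    generalize ((m 0 : ℂ))⁻¹ = w
    field_simp
  · change -(((nn X 1 / m 1 : ℝ) : ℂ) * (ff X 0 * ff X 2) * al X 1) / 4 =
      _ * (-(al X 1 / (4 * conj (ff X 0 * ff X 2))) / (m 1 : ℂ))
    rw [Complex.ofReal_div, nn_coe, map_mul, div_eq_mul_inv _ (m 1 : ℂ), div_eq_mul_inv _ (m 1 : ℂ)]
    generalize ((m 1 : ℂ))⁻¹ = w
    field_simp
  · change (((nn X 2 / m 2 : ℝ) : ℂ) * (ff X 0 * ff X 1) * al X 2) / 4 =
      _ * ((al X 2 / (4 * conj (ff X 0 * ff X 1))) / (m 2 : ℂ))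
    rw [Complex.ofReal_div, nn_coe, map_mul, div_eq_mul_inv _ (m 2 : ℂ), div_eq_mul_inv _ (m 2 : ℂ)]
    generalize ((m 2 : ℂ))⁻¹ = w
    field_simp

/-- by `R3` (`nₖ = conj fₖ * fₖ`) -/
theorem sum_vv (hm : ∀ a, m a ≠ 0) (X : Up) : ∑ a, (m a : ℂ) * vv m X a = 0 := by
  have hm' : ∀ a, (m a : ℂ) ≠ 0 := fun a => by exact_mod_cast hm a
  have m0 := hm' 0
  have m1 := hm' 1
  have m2 := hm' 2
  have r := R3 X
  have e0 : vv m X 0 = -(((nn X 0 / m 0 : ℝ) : ℂ) * (ff X 1 * ff X 2) * al X 0) / 4 := rfl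
  have e1 : vv m X 1 = -(((nn X 1 / m 1 : ℝ) : ℂ) * (ff X 0 * ff X 2) * al X 1) / 4 := rfl
  have e2 : vv m X 2 = (((nn X 2 / m 2 : ℝ) : ℂ) * (ff X 0 * ff X 1) * al X 2) / 4 := rfl
  rw [Fin.sum_univ_three, e0, e1, e2, Complex.ofReal_div, Complex.ofReal_div, Complex.ofReal_div,
    nn_coe, nn_coe, nn_coe]
  field_simp
  linear_combination -(ff X 0 * ff X 1 * ff X 2) * r

/-- `|vvₖ|² mₖ = rho nₖ |aₖ|² / (16 mₖ)` -/
theorem norm_vv (hm : ∀ a, m a ≠ 0) (X : Up) (k : Fin 3) :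
    m k * Complex.normSq (vv m X k) =
      rho X * (nn X k * Complex.normSq (al X k) / (16 * m k)) := by
  have h4 : Complex.normSq 4 = 16 := by
    have : (4 : ℂ) = ((4 : ℝ) : ℂ) := by norm_num
    rw [this, Complex.normSq_ofReal]
    norm_num
  have m0 := hm 0
  have m1 := hm 1
  have m2 := hm 2
  fin_cases k
  · change m 0 * Complex.normSq (-(((nn X 0 / m 0 : ℝ) : ℂ) * (ff X 1 * ff X 2) * al X 0) / 4) =
      rho X * (nn X 0 * Complex.normSq (al X 0) / (16 * m 0))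
    rw [map_div₀, Complex.normSq_neg, map_mul, map_mul, map_mul, Complex.normSq_ofReal, h4]
    change m 0 * (nn X 0 / m 0 * (nn X 0 / m 0) * (nn X 1 * nn X 2) * _ / 16) = _
    rw [rho]
    field_simp
  · change m 1 * Complex.normSq (-(((nn X 1 / m 1 : ℝ) : ℂ) * (ff X 0 * ff X 2) * al X 1) / 4) =
      rho X * (nn X 1 * Complex.normSq (al X 1) / (16 * m 1))
    rw [map_div₀, Complex.normSq_neg, map_mul, map_mul, map_mul, Complex.normSq_ofReal, h4]
    change m 1 * (nn X 1 / m 1 * (nn X 1 / m 1) * (nn X 0 * nn X 2) * _ / 16) = _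
    rw [rho]
    field_simp
  · change m 2 * Complex.normSq ((((nn X 2 / m 2 : ℝ) : ℂ) * (ff X 0 * ff X 1) * al X 2) / 4) =
      rho X * (nn X 2 * Complex.normSq (al X 2) / (16 * m 2))
    rw [map_div₀, map_mul, map_mul, map_mul, Complex.normSq_ofReal, h4]
    change m 2 * (nn X 2 / m 2 * (nn X 2 / m 2) * (nn X 0 * nn X 1) * _ / 16) = _
    rw [rho]
    field_simp

end Pool.Agent.MP_5027f4_cont
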