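import Pool.Agent.Lib_MP_5027f4_cont.CEnA

/-!
PIECE [CEnB] (MP_5027f4_mp, T1).  Energy, angular momentum, moment of inertia, Sundman inequality.
-/

open Set Filter Topology Metric
open scoped ComplexConjugate ContDiff
open Pool.Agent.MP_5027f4_mp

namespace Pool.Agent.MP_5027f4_cont

variable {m : Fin 3 → ℝ} {X : Up}

theorem CEnB_kin (hm : ∀ a, m a ≠ 0) (hX : Nonc X) (k : Fin 3) :
    rho X * (m k * ‖(pj m X).2 k‖ ^ 2) = nn X k * Complex.normSq (al X k) / (16 * m k) := by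
  have h1 := norm_vv hm X k
  rw [vv_eq hX k, map_mul, Complex.normSq_ofReal] at h1
  have hr : rho X ≠ 0 := ((rho_pos_iff X).2 hX).ne'
  have h2 : rho X * (rho X * (m k * Complex.normSq ((pj m X).2 k))) =
      rho X * (nn X k * Complex.normSq (al X k) / (16 * m k)) := by
    rw [← h1]; ring
  rw [← Complex.normSq_eq_norm_sq]
  exact mul_left_cancel₀ hr h2

theorem CEnB_zz (X : Up) (k : Fin 3) : Complex.normSq (zz X k) = nn X k ^ 2 := by
  rw [Complex.normSq_eq_norm_sq, norm_zz]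

theorem CEnB_IU_nonneg (hm : ∀ a, 0 < m a) (X : Up) : 0 ≤ IU m X := by
  have h0 := hm 0
  have h1 := hm 1
  have h2 := hm 2
  unfold IU MM
  positivity

theorem CEnB_term_nonneg (hm : ∀ a, 0 < m a) (X : Up) (k : Fin 3) :
    0 ≤ nn X k * Complex.normSq (al X k) / m k :=
  div_nonneg (mul_nonneg (nn_nonneg X k) (Complex.normSq_nonneg _)) (hm k).le

theorem CEnB_KK_nonneg (hm : ∀ a, 0 < m a) (X : Up) : 0 ≤ KK m X := by
  have h0 := CEnB_term_nonneg hm X 0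
  have h1 := CEnB_term_nonneg hm X 1
  have h2 := CEnB_term_nonneg hm X 2
  unfold KK
  positivity

theorem CEnB_cs {m0 m1 m2 a0 a1 a2 b0 b1 b2 : ℝ} (h0 : 0 ≤ m0) (h1 : 0 ≤ m1) (h2 : 0 ≤ m2) :
    (m0 * (a0 * b0) + m1 * (a1 * b1) + m2 * (a2 * b2)) ^ 2 ≤
      (m0 * a0 ^ 2 + m1 * a1 ^ 2 + m2 * a2 ^ 2) * (m0 * b0 ^ 2 + m1 * b1 ^ 2 + m2 * b2 ^ 2) := by
  have e1 : 0 ≤ m0 * m1 * (a0 * b1 - a1 * b0) ^ 2 := by positivity
  have e2 : 0 ≤ m0 * m2 * (a0 * b2 - a2 * b0) ^ 2 := by positivity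
  have e3 : 0 ≤ m1 * m2 * (a1 * b2 - a2 * b1) ^ 2 := by positivity
  nlinarith [e1, e2, e3]

/-- Proof: kinetic part `Σ |pₖ|²/(2 mₖ) = KK / rho`, potential part `WW / rho`
(`‖qq i - qq j‖ = nn k`), see `energy_eq`. -/
theorem energy_pj (hM : MM m ≠ 0) (hm : ∀ a, m a ≠ 0) (hX : Nonc X) (h : ℝ) :
    rho X * (energy m (pj m X) - h) = Gam m h X := by
  have hr : rho X ≠ 0 := ((rho_pos_iff X).2 hX).ne'
  have n0 : nn X 0 ≠ 0 := ((nn_pos_iff X 0).2 (hX 0)).ne'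
  have n1 : nn X 1 ≠ 0 := ((nn_pos_iff X 1).2 (hX 1)).ne'
  have n2 : nn X 2 ≠ 0 := ((nn_pos_iff X 2).2 (hX 2)).ne'
  have d10 : ‖(pj m X).1 1 - (pj m X).1 0‖ = nn X 2 := by
    change ‖qq m X 1 - qq m X 0‖ = nn X 2
    rw [qq_sub_10 hM, norm_zz]
  have d21 : ‖(pj m X).1 2 - (pj m X).1 1‖ = nn X 0 := by
    change ‖qq m X 2 - qq m X 1‖ = nn X 0
    rw [qq_sub_21 hM, norm_zz]
  have d20 : ‖(pj m X).1 2 - (pj m X).1 0‖ = nn X 1 := by
    change ‖qq m X 2 - qq m X 0‖ = nn X 1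
    rw [norm_sub_rev, qq_sub_02 hM, norm_zz]
  have k0 := CEnB_kin hm hX 0
  have k1 := CEnB_kin hm hX 1
  have k2 := CEnB_kin hm hX 2
  have hpot : rho X * (m 0 * m 1 * (nn X 2)⁻¹ + m 0 * m 2 * (nn X 1)⁻¹ + m 1 * m 2 * (nn X 0)⁻¹) =
      WW m X := by
    unfold rho WW
    field_simp
    ring
  have m0 := hm 0
  have m1 := hm 1
  have m2 := hm 2
  have hkin : rho X * ((m 0 * ‖(pj m X).2 0‖ ^ 2 + m 1 * ‖(pj m X).2 1‖ ^ 2 +
      m 2 * ‖(pj m X).2 2‖ ^ 2) / 2) = KK m X := by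
    have : rho X * ((m 0 * ‖(pj m X).2 0‖ ^ 2 + m 1 * ‖(pj m X).2 1‖ ^ 2 +
      m 2 * ‖(pj m X).2 2‖ ^ 2) / 2) = (rho X * (m 0 * ‖(pj m X).2 0‖ ^ 2) +
        rho X * (m 1 * ‖(pj m X).2 1‖ ^ 2) + rho X * (m 2 * ‖(pj m X).2 2‖ ^ 2)) / 2 := by ring
    rw [this, k0, k1, k2]
    unfold KK
    field_simp
    ring
  rw [energy_eq, d10, d21, d20]
  unfold Gam
  rw [← hkin, ← hpot]
  ring


/-- Lagrange identity `Σ mₖ |qₖ|² = Σ_{i<j} mᵢ mⱼ |qᵢ - qⱼ|² / M` (center of mass at `0`) -/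
theorem inertia_qq (hM : MM m ≠ 0) (X : Up) :
    ∑ a, m a * Complex.normSq (qq m X a) = IU m X := by
  have hz : zz X 0 = -(zz X 1) - zz X 2 := by
    have := zz_sum X
    linear_combination this
  have e0 := CEnB_zz X 0
  have e1 := CEnB_zz X 1
  have e2 := CEnB_zz X 2
  unfold IU
  rw [← e0, ← e1, ← e2, Fin.sum_univ_three, hz]
  simp only [qq, Matrix.cons_val_zero, Matrix.cons_val_one, Matrix.cons_val]
  rw [hz]
  simp only [map_div₀, Complex.normSq_ofReal]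
  simp only [Complex.normSq_apply, Complex.sub_re, Complex.sub_im, Complex.neg_re, Complex.neg_im,
    Complex.re_ofReal_mul, Complex.im_ofReal_mul]
  unfold MM at hM ⊢
  field_simp
  ring


/-- Proof: as `Σ mₖ vvₖ = 0`, `Σ mₖ conj qₖ vvₖ = m₁ vv₁ conj z₂ - m₂ vv₂ conj z₁`
(`q₁ = q₀ + z₂`, `q₂ = q₀ - z₁`), `= (f₀ f₁ f₂ / 4) ..`, insert `vv` and `zz`:
`= n₁ f₀ f₂ a₁ conj f₂ ² / 4 + n₂ f₀ f₁ a₂ conj f₁ ² / 4
 = (n₁ n₂ f₀ / 4) (conj f₂ a₁ + conj f₁ a₂)`, and `R2`. -/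
theorem sum_conj_qq_vv (hM : MM m ≠ 0) (hm : ∀ a, m a ≠ 0) (X : Up) :
    ∑ a, (m a : ℂ) * (conj (qq m X a) * vv m X a) = (rho X : ℂ) * bet X / 4 := by
  have hs := sum_vv hm X
  rw [Fin.sum_univ_three] at hs ⊢
  have q1 : qq m X 1 = qq m X 0 + zz X 2 := by rw [← qq_sub_10 hM X]; ring
  have q2 : qq m X 2 = qq m X 0 - zz X 1 := by rw [← qq_sub_02 hM X]; ring
  have key : (m 0 : ℂ) * (conj (qq m X 0) * vv m X 0) + (m 1 : ℂ) * (conj (qq m X 1) * vv m X 1) +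
      (m 2 : ℂ) * (conj (qq m X 2) * vv m X 2) =
      (m 1 : ℂ) * (conj (zz X 2) * vv m X 1) - (m 2 : ℂ) * (conj (zz X 1) * vv m X 2) := by
    rw [q1, q2, map_add, map_sub]
    linear_combination conj (qq m X 0) * hs
  rw [key]
  have hm1 : (m 1 : ℂ) ≠ 0 := by exact_mod_cast hm 1
  have hm2 : (m 2 : ℂ) ≠ 0 := by exact_mod_cast hm 2
  have r2 := R2 X
  have n0 := nn_coe X 0
  have n1 := nn_coe X 1
  have n2 := nn_coe X 2
  have v1 : (m 1 : ℂ) * vv m X 1 = -((nn X 1 : ℂ) * (ff X 0 * ff X 2) * al X 1) / 4 := by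
    simp only [vv, Matrix.cons_val_one, Matrix.cons_val_zero, Matrix.cons_val]
    push_cast
    field_simp
  have v2 : (m 2 : ℂ) * vv m X 2 = ((nn X 2 : ℂ) * (ff X 0 * ff X 1) * al X 2) / 4 := by
    simp only [vv, Matrix.cons_val]
    push_cast
    field_simp
  have z1 : zz X 1 = -(ff X 1 ^ 2) := by
    simp only [zz, Matrix.cons_val_one, Matrix.cons_val_zero]
  have z2 : zz X 2 = -(ff X 2 ^ 2) := by
    simp only [zz, Matrix.cons_val]
  have e : (m 1 : ℂ) * (conj (zz X 2) * vv m X 1) - (m 2 : ℂ) * (conj (zz X 1) * vv m X 2) =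
      conj (zz X 2) * ((m 1 : ℂ) * vv m X 1) - conj (zz X 1) * ((m 2 : ℂ) * vv m X 2) := by ring
  rw [e, v1, v2, z1, z2]
  unfold rho
  push_cast
  rw [map_neg, map_neg, map_pow, map_pow, n0, n1, n2]
  linear_combination (conj (ff X 1) * ff X 1 * (conj (ff X 2) * ff X 2) * ff X 0 / 4) * r2


/-- from `sum_conj_qq_vv` and `vv_eq` (divide by `rho`) -/
theorem amom_pj (hM : MM m ≠ 0) (hm : ∀ a, m a ≠ 0) (hX : Nonc X) :
    amom m (pj m X) = CU X := by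
  have h1 := sum_conj_qq_vv hM hm X
  have hr : rho X ≠ 0 := ((rho_pos_iff X).2 hX).ne'
  have h2 : ((rho X * amom m (pj m X) : ℝ)) = rho X * CU X := by
    have h3 := congrArg Complex.im h1
    have h4 : ((rho X : ℂ) * bet X / 4).im = rho X * CU X := by
      rw [CU_eq]
      have : ((rho X : ℂ) * bet X / 4) = ((rho X / 4 : ℝ) : ℂ) * bet X := by
        push_cast; ring
      rw [this, Complex.im_ofReal_mul]
      ring
    rw [h4] at h3
    rw [← h3, Complex.im_sum]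
    unfold amom
    rw [Finset.mul_sum]
    refine Finset.sum_congr rfl fun a _ => ?_
    rw [vv_eq hX a]
    change rho X * (m a * (conj (qq m X a) * (pj m X).2 a).im) = _
    have : (m a : ℂ) * (conj (qq m X a) * ((rho X : ℂ) * (pj m X).2 a)) =
        ((m a * rho X : ℝ) : ℂ) * (conj (qq m X a) * (pj m X).2 a) := by
      push_cast; ring
    rw [this, Complex.im_ofReal_mul]
    ring
  exact mul_left_cancel₀ hr h2


theorem muE_pE (hM : MM m ≠ 0) (hm : ∀ a, m a ≠ 0) (hX : Nonc X) (h : ℝ) :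
    rho X * ((muE m (pE m X)).1 - h) = Gam m h X ∧ (muE m (pE m X)).2 = CU X := by
  unfold muE
  rw [pE_coe hm hX]
  exact ⟨energy_pj hM hm hX h, amom_pj hM hm hX⟩


theorem Gam_eq_zero_iff (hM : MM m ≠ 0) (hm : ∀ a, m a ≠ 0) (hX : Nonc X) (h : ℝ) :
    Gam m h X = 0 ↔ (muE m (pE m X)).1 = h := by
  have hr : rho X ≠ 0 := ((rho_pos_iff X).2 hX).ne'
  rw [← (muE_pE hM hm hX h).1, mul_eq_zero, sub_eq_zero]
  exact ⟨fun a => a.resolve_left hr, Or.inr⟩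


/-- Proof.  Cauchy-Schwarz for `Σ mₖ conj qₖ vvₖ = rho β / 4`:
`rho² |β|²/16 ≤ (Σ mₖ |qₖ|²) (Σ mₖ |vvₖ|²) = IU * (2 rho KK)` (`inertia_qq`, `norm_vv`);
divide by `rho` (trivial if `rho = 0`); `|β|²/16 = DU² + CU²`. -/
theorem sundman (hm : ∀ a, 0 < m a) (X : Up) :
    rho X * (DU X ^ 2 + CU X ^ 2) ≤ 2 * IU m X * KK m X := by
  have hM : MM m ≠ 0 := by
    have h0 := hm 0
    have h1 := hm 1
    have h2 := hm 2
    unfold MM
    positivity
  have hm' : ∀ a, m a ≠ 0 := fun a => (hm a).ne'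
  have hI := CEnB_IU_nonneg hm X
  have hK := CEnB_KK_nonneg hm X
  rcases (rho_nonneg X).eq_or_lt with h0 | h0
  · rw [← h0, zero_mul]
    positivity
  · have h1 := sum_conj_qq_vv hM hm' X
    have hin := inertia_qq hM X
    have hv : m 0 * Complex.normSq (vv m X 0) + m 1 * Complex.normSq (vv m X 1) +
        m 2 * Complex.normSq (vv m X 2) = 2 * rho X * KK m X := by
      rw [norm_vv hm' X 0, norm_vv hm' X 1, norm_vv hm' X 2]
      have a0 := hm' 0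
      have a1 := hm' 1
      have a2 := hm' 2
      unfold KK
      field_simp
      ring
    rw [Fin.sum_univ_three] at h1 hin
    have h2 : ‖(rho X : ℂ) * bet X / 4‖ ≤ m 0 * (‖qq m X 0‖ * ‖vv m X 0‖) +
        m 1 * (‖qq m X 1‖ * ‖vv m X 1‖) + m 2 * (‖qq m X 2‖ * ‖vv m X 2‖) := by
      rw [← h1]
      refine (norm_add₃_le).trans (le_of_eq ?_)
      simp only [norm_mul, Complex.norm_real, RCLike.norm_conj, Real.norm_eq_abs,
        abs_of_pos (hm 0), abs_of_pos (hm 1), abs_of_pos (hm 2)]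
    have h3 : ‖(rho X : ℂ) * bet X / 4‖ ^ 2 = rho X ^ 2 * (DU X ^ 2 + CU X ^ 2) := by
      rw [← Complex.normSq_eq_norm_sq, CU_eq, DU_eq]
      have : ((rho X : ℂ) * bet X / 4) = ((rho X / 4 : ℝ) : ℂ) * bet X := by
        push_cast; ring
      rw [this, map_mul, Complex.normSq_ofReal, Complex.normSq_apply]
      ring
    have h4 := pow_le_pow_left₀ (norm_nonneg _) h2 2
    have h5 := h4.trans (CEnB_cs (hm 0).le (hm 1).le (hm 2).le)
    rw [h3] at h5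
    simp only [← Complex.normSq_eq_norm_sq] at h5
    rw [hin, hv] at h5
    have h6 : rho X * (rho X * (DU X ^ 2 + CU X ^ 2)) ≤ rho X * (2 * IU m X * KK m X) := by
      calc _ = rho X ^ 2 * (DU X ^ 2 + CU X ^ 2) := by ring
        _ ≤ _ := h5
        _ = _ := by ring
    exact le_of_mul_le_mul_left h6 h0


/-- Proof: `norm_vv` and the definition of `KK`; `|qₖ'| = |vvₖ|`. -/
theorem norm_vv_le (hm : ∀ a, 0 < m a) (X : Up) (k : Fin 3) :
    m k * Complex.normSq (vv m X k) ≤ 2 * rho X * KK m X := by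
  have hm' : ∀ a, m a ≠ 0 := fun a => (hm a).ne'
  rw [norm_vv hm' X k]
  have t0 := CEnB_term_nonneg hm X 0
  have t1 := CEnB_term_nonneg hm X 1
  have t2 := CEnB_term_nonneg hm X 2
  have hr := rho_nonneg X
  have e : nn X k * Complex.normSq (al X k) / (16 * m k) =
      (nn X k * Complex.normSq (al X k) / m k) / 16 := by
    rw [mul_comm (16 : ℝ), div_div]
  have h : nn X k * Complex.normSq (al X k) / (16 * m k) ≤ 2 * KK m X := by
    rw [e]
    unfold KK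
    fin_cases k
    · simp only [Fin.zero_eta]; linarith
    · simp only [Fin.mk_one]; linarith
    · simp only [Fin.reduceFinMk]; linarith
  calc rho X * (nn X k * Complex.normSq (al X k) / (16 * m k)) ≤ rho X * (2 * KK m X) :=
        mul_le_mul_of_nonneg_left h hr
    _ = 2 * rho X * KK m X := by ring


end Pool.Agent.MP_5027f4_cont
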