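import Pool.Agent.Lib_MP_5027f4_cont.CSymA

/-!
PIECE [CFib] (MP_5027f4_mp, T1).  The fibres of the projection are orbits of the symmetries.
-/

open Set Filter Topology Metric
open scoped ComplexConjugate ContDiff
open Pool.Agent.MP_5027f4_mp

namespace Pool.Agent.MP_5027f4_cont

variable {m : Fin 3 → ℝ}

theorem CFib_ff0 (X : Up) : ff X 0 = X.1 ^ 2 + X.2.1 ^ 2 := rfl

theorem CFib_ff1 (X : Up) : ff X 1 = X.1 ^ 2 - X.2.1 ^ 2 := rfl

theorem CFib_ff2 (X : Up) : ff X 2 = 2 * X.1 * X.2.1 := rfl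

theorem CFib_al0 (X : Up) : al X 0 = conj X.2.1 * X.2.2.1 - conj X.1 * X.2.2.2 := rfl

theorem CFib_al1 (X : Up) : al X 1 = conj X.2.1 * X.2.2.1 + conj X.1 * X.2.2.2 := rfl

theorem CFib_pp0 (X : Up) : pp X 0 = -(al X 0 / (4 * conj (ff X 1 * ff X 2))) := rfl

theorem CFib_pp1 (X : Up) : pp X 1 = -(al X 1 / (4 * conj (ff X 0 * ff X 2))) := rfl

theorem CFib_zz0 (X : Up) : zz X 0 = ff X 0 ^ 2 := rfl

theorem CFib_zz1 (X : Up) : zz X 1 = -(ff X 1 ^ 2) := rfl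

theorem CFib_zz2 (X : Up) : zz X 2 = -(ff X 2 ^ 2) := rfl

theorem CFib_z0 {X : Up} (hX : Nonc X) : X.1 ≠ 0 := by
  intro h
  apply hX 2
  rw [CFib_ff2, h]
  ring

theorem CFib_e0 {X : Up} (hX : Nonc X) : X.2.1 ≠ 0 := by
  intro h
  apply hX 2
  rw [CFib_ff2, h]
  ring

theorem CFib_den {X : Up} (hX : Nonc X) (i j : Fin 3) : 4 * conj (ff X i * ff X j) ≠ 0 := by
  refine mul_ne_zero (by norm_num) ?_
  rw [Ne, map_eq_zero]
  exact mul_ne_zero (hX i) (hX j)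

theorem CFib_al0' {X : Up} (hX : Nonc X) : al X 0 = -(4 * conj (ff X 1 * ff X 2)) * pp X 0 := by
  rw [CFib_pp0, neg_mul_neg, mul_div_cancel₀ _ (CFib_den hX 1 2)]

theorem CFib_al1' {X : Up} (hX : Nonc X) : al X 1 = -(4 * conj (ff X 0 * ff X 2)) * pp X 1 := by
  rw [CFib_pp1, neg_mul_neg, mul_div_cancel₀ _ (CFib_den hX 0 2)]

theorem CFib_det {X Y : Up} (hX : Nonc X) (h1 : X.1 = Y.1) (h2 : X.2.1 = Y.2.1)
    (p0 : pp X 0 = pp Y 0) (p1 : pp X 1 = pp Y 1) : X = Y := by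
  have hf : ff X = ff Y := by
    unfold ff
    rw [h1, h2]
  have hY : Nonc Y := fun k => by
    rw [← hf]
    exact hX k
  have a0 : al X 0 = al Y 0 := by
    rw [CFib_al0' hX, CFib_al0' hY, hf, p0]
  have a1 : al X 1 = al Y 1 := by
    rw [CFib_al1' hX, CFib_al1' hY, hf, p1]
  rw [CFib_al0, CFib_al0, h1, h2] at a0
  rw [CFib_al1, CFib_al1, h1, h2] at a1
  have z0 : conj Y.1 ≠ 0 := (map_ne_zero _).2 (CFib_z0 hY)
  have e0 : conj Y.2.1 ≠ 0 := (map_ne_zero _).2 (CFib_e0 hY)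
  have hP : X.2.2.1 = Y.2.2.1 := by
    apply mul_left_cancel₀ e0
    linear_combination (a0 + a1) / 2
  have hR : X.2.2.2 = Y.2.2.2 := by
    apply mul_left_cancel₀ z0
    linear_combination (a1 - a0) / 2
  exact Prod.ext h1 (Prod.ext h2 (Prod.ext hP hR))

theorem CFib_sq {a b w : ℂ} (h : a ^ 2 = w ^ 2 * b ^ 2) : ∃ v, (v = w ∨ v = -w) ∧ a = v * b := by
  have h' : a ^ 2 = (w * b) ^ 2 := by rw [h]; ring
  rcases sq_eq_sq_iff_eq_or_eq_neg.1 h' with h1 | h1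
  · exact ⟨w, Or.inl rfl, h1⟩
  · exact ⟨-w, Or.inr rfl, by rw [h1]; ring⟩

theorem CFib_fin {X Y : Up} (hY : Nonc Y) {u κ κ₁ κ₂ : ℂ} {b : Bool} (hk : κ ^ 4 = u)
    (hκ : ‖κ‖ = 1) (h1 : κ₁ = κ ∨ κ₁ = -κ) (h2 : κ₂ = κ ∨ κ₂ = -κ)
    (hz : Y.1 = (sym κ₁ κ₂ b X).1) (he : Y.2.1 = (sym κ₁ κ₂ b X).2.1)
    (hp : ∀ k, pp Y k = u * pp X k) :
    ∃ κ₁ κ₂ b, SymOK u κ₁ κ₂ ∧ Y = sym κ₁ κ₂ b X := by
  have hOK : SymOK u κ₁ κ₂ := by
    refine ⟨?_, ?_, ?_⟩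
    · rcases h1 with rfl | rfl
      · exact hκ
      · rw [norm_neg]; exact hκ
    · rcases h1 with rfl | rfl <;> rcases h2 with rfl | rfl <;> ring
    · rcases h1 with rfl | rfl
      · exact hk
      · rw [← hk]; ring
  refine ⟨κ₁, κ₂, b, hOK, CFib_det hY hz he ?_ ?_⟩
  · rw [pp_sym hOK, hp]
  · rw [pp_sym hOK, hp]

theorem CFib_normle {a F : ℝ} (hF : 0 ≤ F) (ha : 0 ≤ a) (h : a ^ 2 ≤ F) : a ≤ 1 + F := by
  by_contra hc
  push Not at hc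
  nlinarith

/-- Transitivity.

Proof.  The positions and momenta of `Y` are `u` times those of `X`; `zz Y k = u zz X k`, i.e.
`(ff Y k)² = u (ff X k)²`.  Let `κ ^ 4 = u`, `‖κ‖ = 1`; `ff Y k = ± κ² ff X k`.  Replacing `κ` by
`I κ` we may assume `ff Y 0 = κ² ff X 0`.  Case `ff Y 1 = κ² ff X 1`: adding and subtracting,
`ζ_Y² = κ² ζ_X²`, `η_Y² = κ² η_X²`, so `ζ_Y = κ₁ ζ_X`, `η_Y = κ₂ η_X`, `κ₁, κ₂ ∈ {κ, -κ}`.  Case
`ff Y 1 = - κ² ff X 1`: `ζ_Y² = κ² η_X²`, `η_Y² = κ² ζ_X²`, so the same with the exchange.  Let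
`Y' = sym κ₁ κ₂ b X`: it has the same `ζ, η` as `Y`, and `pp Y' k = u pp X k = pp Y k`; hence
`al Y' k = al Y k` (`ff ≠ 0`), and `al 0, al 1` determine `conj η P` and `conj ζ R`, hence `P` and `R`
(`ζ, η ≠ 0` because `ff 2 = 2 ζ η ≠ 0`). -/
theorem exists_sym_of_pE (hM : MM m ≠ 0) (hm : ∀ a, m a ≠ 0) {X Y : Up} (hX : Nonc X)
    (hY : Nonc Y) {u : ℂ} (hu : ‖u‖ = 1) (h : pE m Y = u • pE m X) :
    ∃ κ₁ κ₂ b, SymOK u κ₁ κ₂ ∧ Y = sym κ₁ κ₂ b X := by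
  have hpj : pj m Y = u • pj m X := by
    rw [← pE_coe hm hX, ← pE_coe hm hY, h]
    rfl
  have hq : ∀ k, qq m Y k = u * qq m X k := fun k => congrFun (congrArg Prod.fst hpj) k
  have hp : ∀ k, pp Y k = u * pp X k := by
    intro k
    have h1 : pp Y k / m k = u * (pp X k / m k) := congrFun (congrArg Prod.snd hpj) k
    have h2 : (m k : ℂ) ≠ 0 := by exact_mod_cast hm k
    field_simp at h1
    exact h1
  have z0 : ff Y 0 ^ 2 = u * ff X 0 ^ 2 := by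
    have a := qq_sub_21 hM X
    have b := qq_sub_21 hM Y
    rw [CFib_zz0] at a b
    rw [← a, ← b, hq, hq]
    ring
  have z1 : ff Y 1 ^ 2 = u * ff X 1 ^ 2 := by
    have a := qq_sub_02 hM X
    have b := qq_sub_02 hM Y
    rw [CFib_zz1] at a b
    rw [hq, hq] at b
    linear_combination b - u * a
  obtain ⟨κ, hκ, hκ4, h0⟩ : ∃ κ : ℂ, ‖κ‖ = 1 ∧ κ ^ 4 = u ∧ ff Y 0 = κ ^ 2 * ff X 0 := by
    obtain ⟨κ, hκ⟩ := IsAlgClosed.exists_pow_nat_eq u (n := 4) (by norm_num)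
    have hn : ‖κ‖ = 1 := by
      have : ‖κ‖ ^ 4 = 1 := by rw [← norm_pow, hκ, hu]
      exact (pow_eq_one_iff_of_nonneg (norm_nonneg _) (by norm_num)).1 this
    have h1 : ff Y 0 ^ 2 = (κ ^ 2) ^ 2 * ff X 0 ^ 2 := by
      rw [z0, ← hκ]; ring
    obtain ⟨v, hv | hv, h2⟩ := CFib_sq h1
    · exact ⟨κ, hn, hκ, by rw [h2, hv]⟩
    · refine ⟨Complex.I * κ, by rw [norm_mul, Complex.norm_I, hn, one_mul], ?_, ?_⟩
      · rw [mul_pow, Complex.I_pow_four, one_mul, hκ]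
      · rw [h2, hv, mul_pow, Complex.I_sq]
        ring
  have h1 : ff Y 1 ^ 2 = (κ ^ 2) ^ 2 * ff X 1 ^ 2 := by
    rw [z1, ← hκ4]; ring
  rw [CFib_ff0, CFib_ff0] at h0
  obtain ⟨v, hv | hv, h2⟩ := CFib_sq h1
  · rw [CFib_ff1, CFib_ff1, hv] at h2
    have e1 : Y.1 ^ 2 = κ ^ 2 * X.1 ^ 2 := by linear_combination (h0 + h2) / 2
    have e2 : Y.2.1 ^ 2 = κ ^ 2 * X.2.1 ^ 2 := by linear_combination (h0 - h2) / 2
    obtain ⟨κ₁, k1, f1⟩ := CFib_sq e1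
    obtain ⟨κ₂, k2, f2⟩ := CFib_sq e2
    exact CFib_fin hY hκ4 hκ k1 k2 (b := false) f1 f2 hp
  · rw [CFib_ff1, CFib_ff1, hv] at h2
    have e1 : Y.1 ^ 2 = κ ^ 2 * X.2.1 ^ 2 := by linear_combination (h0 + h2) / 2
    have e2 : Y.2.1 ^ 2 = κ ^ 2 * X.1 ^ 2 := by linear_combination (h0 - h2) / 2
    obtain ⟨κ₁, k1, f1⟩ := CFib_sq e1
    obtain ⟨κ₂, k2, f2⟩ := CFib_sq e2
    exact CFib_fin hY hκ4 hκ k1 k2 (b := true) f1 f2 hp


/-- Surjectivity.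

Proof.  `y = (q, v)`.  Choose `f₀² = q₂ - q₁`, `f₁² = -(q₀ - q₂)`, `ζ² = (f₀ + f₁)/2`,
`η² = (f₀ - f₁)/2`; then `(2 ζ η)² = f₀² - f₁² = -(q₁ - q₀)`.  All `f ≠ 0`.  Choose `P, R` with
`conj η P = (a₀ + a₁)/2`, `conj ζ R = (a₁ - a₀)/2`, `a₀ = - 4 conj (f₁ f₂) m₀ v₀`,
`a₁ = - 4 conj (f₀ f₂) m₁ v₁`; then `pp X 0 = m₀ v₀`, `pp X 1 = m₁ v₁`, and `pp X 2 = m₂ v₂` because
both sums vanish (`sum_pp`).  The positions: `qq` is determined by the differences and the center of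
mass. -/
theorem exists_lift (hM : MM m ≠ 0) (hm : ∀ a, m a ≠ 0) {y : comSub m} (hy : y ∈ noColl₀ m) :
    ∃ X, Nonc X ∧ pE m X = y := by
  obtain ⟨hq, hv⟩ := mem_comSub.1 y.2
  set q : Fin 3 → ℂ := (y : Ph).1 with hqd
  set v : Fin 3 → ℂ := (y : Ph).2 with hvd
  have hnc : ∀ a b, a ≠ b → q a ≠ q b := hy
  rw [Fin.sum_univ_three] at hq hv
  simp only [Complex.real_smul] at hq hv
  obtain ⟨f0, hf0⟩ := IsAlgClosed.exists_pow_nat_eq (q 2 - q 1) (n := 2) (by norm_num)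
  obtain ⟨f1, hf1⟩ := IsAlgClosed.exists_pow_nat_eq (q 2 - q 0) (n := 2) (by norm_num)
  obtain ⟨ζ, hζ⟩ := IsAlgClosed.exists_pow_nat_eq ((f0 + f1) / 2) (n := 2) (by norm_num)
  obtain ⟨η, hη⟩ := IsAlgClosed.exists_pow_nat_eq ((f0 - f1) / 2) (n := 2) (by norm_num)
  have hf2 : (2 * ζ * η) ^ 2 = q 0 - q 1 := by
    have : (2 * ζ * η) ^ 2 = 4 * ζ ^ 2 * η ^ 2 := by ring
    rw [this, hζ, hη]
    linear_combination hf0 - hf1
  have f0ne : f0 ≠ 0 := by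
    rintro rfl
    exact hnc 2 1 (by decide) (by linear_combination -hf0)
  have f1ne : f1 ≠ 0 := by
    rintro rfl
    exact hnc 2 0 (by decide) (by linear_combination -hf1)
  have f2ne : 2 * ζ * η ≠ 0 := by
    intro h0
    rw [h0] at hf2
    exact hnc 0 1 (by decide) (by linear_combination -hf2)
  have ζne : conj ζ ≠ 0 := (map_ne_zero _).2 (by rintro rfl; exact f2ne (by ring))
  have ηne : conj η ≠ 0 := (map_ne_zero _).2 (by rintro rfl; exact f2ne (by ring))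
  set a0 : ℂ := -(4 * conj (f1 * (2 * ζ * η))) * (m 0 * v 0) with ha0
  set a1 : ℂ := -(4 * conj (f0 * (2 * ζ * η))) * (m 1 * v 1) with ha1
  set X : Up := (ζ, η, (a0 + a1) / 2 / conj η, (a1 - a0) / 2 / conj ζ) with hXd
  have F0 : ff X 0 = f0 := by
    rw [CFib_ff0]
    change ζ ^ 2 + η ^ 2 = f0
    rw [hζ, hη]; ring
  have F1 : ff X 1 = f1 := by
    rw [CFib_ff1]
    change ζ ^ 2 - η ^ 2 = f1
    rw [hζ, hη]; ring
  have F2 : ff X 2 = 2 * ζ * η := by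
    rw [CFib_ff2]
  have hX : Nonc X := by
    intro k
    fin_cases k
    · change ff X 0 ≠ 0
      rw [F0]; exact f0ne
    · change ff X 1 ≠ 0
      rw [F1]; exact f1ne
    · change ff X 2 ≠ 0
      rw [F2]; exact f2ne
  have A0 : al X 0 = a0 := by
    rw [CFib_al0]
    change conj η * ((a0 + a1) / 2 / conj η) - conj ζ * ((a1 - a0) / 2 / conj ζ) = a0
    rw [mul_div_cancel₀ _ ηne, mul_div_cancel₀ _ ζne]
    ring
  have A1 : al X 1 = a1 := by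
    rw [CFib_al1]
    change conj η * ((a0 + a1) / 2 / conj η) + conj ζ * ((a1 - a0) / 2 / conj ζ) = a1
    rw [mul_div_cancel₀ _ ηne, mul_div_cancel₀ _ ζne]
    ring
  have P0 : pp X 0 = m 0 * v 0 := by
    have d := CFib_den hX 1 2
    rw [CFib_pp0, A0, ha0, ← F2, ← F1, neg_mul, neg_div, neg_neg, mul_div_cancel_left₀ _ d]
  have P1 : pp X 1 = m 1 * v 1 := by
    have d := CFib_den hX 0 2
    rw [CFib_pp1, A1, ha1, ← F2, ← F0, neg_mul, neg_div, neg_neg, mul_div_cancel_left₀ _ d]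
  have P2 : pp X 2 = m 2 * v 2 := by
    have := sum_pp hX
    rw [Fin.sum_univ_three, P0, P1] at this
    linear_combination this - hv
  have Z0 : zz X 0 = q 2 - q 1 := by rw [CFib_zz0, F0, hf0]
  have Z1 : zz X 1 = q 0 - q 2 := by rw [CFib_zz1, F1, hf1]; ring
  have Z2 : zz X 2 = q 1 - q 0 := by rw [CFib_zz2, F2, hf2]; ring
  have hMc : (MM m : ℂ) ≠ 0 := by exact_mod_cast hM
  have hMe : (MM m : ℂ) = m 0 + m 1 + m 2 := by unfold MM; push_cast; ring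
  have m0 : (m 0 : ℂ) ≠ 0 := by exact_mod_cast hm 0
  have m1 : (m 1 : ℂ) ≠ 0 := by exact_mod_cast hm 1
  have m2 : (m 2 : ℂ) ≠ 0 := by exact_mod_cast hm 2
  refine ⟨X, hX, Subtype.ext ?_⟩
  rw [pE_coe hm hX]
  refine Prod.ext (funext fun k => ?_) (funext fun k => ?_)
  · change qq m X k = q k
    fin_cases k
    · change (m 2 * zz X 1 - m 1 * zz X 2) / (MM m : ℂ) = q 0
      rw [div_eq_iff hMc, Z1, Z2, hMe]
      linear_combination -hq
    · change (m 0 * zz X 2 - m 2 * zz X 0) / (MM m : ℂ) = q 1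
      rw [div_eq_iff hMc, Z2, Z0, hMe]
      linear_combination -hq
    · change (m 1 * zz X 0 - m 0 * zz X 1) / (MM m : ℂ) = q 2
      rw [div_eq_iff hMc, Z0, Z1, hMe]
      linear_combination -hq
  · change pp X k / m k = v k
    fin_cases k
    · change pp X 0 / m 0 = v 0
      rw [P0, mul_div_cancel_left₀ _ m0]
    · change pp X 1 / m 1 = v 1
      rw [P1, mul_div_cancel_left₀ _ m1]
    · change pp X 2 / m 2 = v 2
      rw [P2, mul_div_cancel_left₀ _ m2]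


/-- Bounds in the fibres.

Proof.  `|ζ|² ≤ (|f₀| + |f₁|)/2`, `|fₖ|² = nₖ = ‖qᵢ - qⱼ‖ ≤ 2 R`, the same for `η`; `4 |ζ|² |η|² = n₂ ≥ r`
bounds `|ζ|`, `|η|` from below; `|aₖ| = 4 |fᵢ fⱼ| |pₖ|`, `|P| = |a₀ + a₁| / (2 |η|)`,
`|R| = |a₁ - a₀| / (2 |ζ|)`. -/
theorem exists_bound_fibre (hM : MM m ≠ 0) (hm : ∀ a, m a ≠ 0) (R : ℝ) {r : ℝ} (hr : 0 < r) :
    ∃ B : ℝ, ∀ X, Nonc X → ‖pj m X‖ ≤ R → (∀ k, r ≤ nn X k) → ‖X‖ ≤ B := by
  set F : ℝ := 1 + 2 * |R| with hF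
  have hF1 : 1 ≤ F := by
    have := abs_nonneg R
    rw [hF]; linarith
  have hF0 : 0 < F := by linarith
  set δ : ℝ := √(r / (4 * F)) with hδ
  have hδ0 : 0 < δ := Real.sqrt_pos.2 (by positivity)
  have hδ2 : δ ^ 2 = r / (4 * F) := Real.sq_sqrt (by positivity)
  set A : ℝ := 4 * (F * F) * (|m 0| * |R|) + 4 * (F * F) * (|m 1| * |R|) with hA
  have hA0 : 0 ≤ A := by positivity
  refine ⟨1 + F + A / (2 * δ), fun X hX hR hn => ?_⟩
  have hR0 : 0 ≤ R := (norm_nonneg _).trans hR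
  have hRabs : |R| = R := abs_of_nonneg hR0
  have hq : ∀ k, ‖qq m X k‖ ≤ R := fun k =>
    ((norm_le_pi_norm (pj m X).1 k).trans (norm_fst_le _)).trans hR
  have hv : ∀ k, ‖pp X k / m k‖ ≤ R := fun k =>
    ((norm_le_pi_norm (pj m X).2 k).trans (norm_snd_le _)).trans hR
  have hn2 : ∀ k, nn X k ≤ 2 * |R| := by
    intro k
    rw [hRabs, ← norm_zz]
    fin_cases k
    · change ‖zz X 0‖ ≤ _
      rw [← qq_sub_21 hM]
      exact (norm_sub_le _ _).trans (by linarith [hq 2, hq 1])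
    · change ‖zz X 1‖ ≤ _
      rw [← qq_sub_02 hM]
      exact (norm_sub_le _ _).trans (by linarith [hq 0, hq 2])
    · change ‖zz X 2‖ ≤ _
      rw [← qq_sub_10 hM]
      exact (norm_sub_le _ _).trans (by linarith [hq 1, hq 0])
  have hf : ∀ k, ‖ff X k‖ ≤ F := by
    intro k
    refine CFib_normle (by positivity) (norm_nonneg _) ?_
    rw [← Complex.normSq_eq_norm_sq]
    exact hn2 k
  have hz2 : ‖X.1‖ ^ 2 ≤ F := by
    have h1 : X.1 ^ 2 = (ff X 0 + ff X 1) / 2 := by rw [CFib_ff0, CFib_ff1]; ring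
    rw [← norm_pow, h1, norm_div, Complex.norm_ofNat]
    have := norm_add_le (ff X 0) (ff X 1)
    have a := hf 0
    have b := hf 1
    linarith
  have he2 : ‖X.2.1‖ ^ 2 ≤ F := by
    have h1 : X.2.1 ^ 2 = (ff X 0 - ff X 1) / 2 := by rw [CFib_ff0, CFib_ff1]; ring
    rw [← norm_pow, h1, norm_div, Complex.norm_ofNat]
    have := norm_sub_le (ff X 0) (ff X 1)
    have a := hf 0
    have b := hf 1
    linarith
  have hprod : r ≤ 4 * ‖X.1‖ ^ 2 * ‖X.2.1‖ ^ 2 := by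
    refine (hn 2).trans (le_of_eq ?_)
    rw [nn, Complex.normSq_eq_norm_sq, CFib_ff2, norm_mul, norm_mul, Complex.norm_ofNat]
    ring
  have hzl : δ ≤ ‖X.1‖ := by
    refine le_of_sq_le_sq ?_ (norm_nonneg _)
    rw [hδ2, div_le_iff₀ (by positivity)]
    nlinarith [sq_nonneg ‖X.1‖]
  have hel : δ ≤ ‖X.2.1‖ := by
    refine le_of_sq_le_sq ?_ (norm_nonneg _)
    rw [hδ2, div_le_iff₀ (by positivity)]
    nlinarith [sq_nonneg ‖X.2.1‖]
  have hpp : ∀ k, ‖pp X k‖ ≤ |m k| * |R| := by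
    intro k
    have h2 : (m k : ℂ) ≠ 0 := by exact_mod_cast hm k
    have h1 : pp X k = m k * (pp X k / m k) := by field_simp
    rw [h1, norm_mul, Complex.norm_real, Real.norm_eq_abs, hRabs]
    exact mul_le_mul_of_nonneg_left (hv k) (abs_nonneg _)
  have hal0 : ‖al X 0‖ ≤ 4 * (F * F) * (|m 0| * |R|) := by
    rw [CFib_al0' hX, norm_mul, norm_neg, norm_mul, RCLike.norm_conj, norm_mul, Complex.norm_ofNat]
    have := mul_le_mul (hf 1) (hf 2) (norm_nonneg _) hF0.le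
    exact mul_le_mul (mul_le_mul_of_nonneg_left this (by norm_num)) (hpp 0) (norm_nonneg _)
      (by positivity)
  have hal1 : ‖al X 1‖ ≤ 4 * (F * F) * (|m 1| * |R|) := by
    rw [CFib_al1' hX, norm_mul, norm_neg, norm_mul, RCLike.norm_conj, norm_mul, Complex.norm_ofNat]
    have := mul_le_mul (hf 0) (hf 2) (norm_nonneg _) hF0.le
    exact mul_le_mul (mul_le_mul_of_nonneg_left this (by norm_num)) (hpp 1) (norm_nonneg _)
      (by positivity)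
  have hP : ‖X.2.2.1‖ ≤ A / (2 * δ) := by
    rw [le_div_iff₀ (by positivity)]
    have h1 : 2 * (conj X.2.1 * X.2.2.1) = al X 0 + al X 1 := by
      rw [CFib_al0, CFib_al1]; ring
    have h2 := congrArg norm h1
    rw [norm_mul, norm_mul, RCLike.norm_conj, Complex.norm_ofNat] at h2
    have h3 := norm_add_le (al X 0) (al X 1)
    have h4 : δ * ‖X.2.2.1‖ ≤ ‖X.2.1‖ * ‖X.2.2.1‖ :=
      mul_le_mul_of_nonneg_right hel (norm_nonneg _)
    rw [hA]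
    nlinarith
  have hRR : ‖X.2.2.2‖ ≤ A / (2 * δ) := by
    rw [le_div_iff₀ (by positivity)]
    have h1 : 2 * (conj X.1 * X.2.2.2) = al X 1 - al X 0 := by
      rw [CFib_al0, CFib_al1]; ring
    have h2 := congrArg norm h1
    rw [norm_mul, norm_mul, RCLike.norm_conj, Complex.norm_ofNat] at h2
    have h3 := norm_sub_le (al X 1) (al X 0)
    have h4 : δ * ‖X.2.2.2‖ ≤ ‖X.1‖ * ‖X.2.2.2‖ :=
      mul_le_mul_of_nonneg_right hzl (norm_nonneg _)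
    rw [hA]
    nlinarith
  have hz := CFib_normle hF0.le (norm_nonneg _) hz2
  have he := CFib_normle hF0.le (norm_nonneg _) he2
  have hAd : 0 ≤ A / (2 * δ) := by positivity
  refine norm_prod_le_iff.2 ⟨by linarith, norm_prod_le_iff.2 ⟨by linarith,
    norm_prod_le_iff.2 ⟨by linarith, by linarith⟩⟩⟩


end Pool.Agent.MP_5027f4_cont
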