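import Pool.Agent.Lib_MP_5027f4_cont.CSm

/-!
PIECE [CGam] (MP_5027f4_mp, T1).  The regularized field is Hamiltonian.
-/

open Set Filter Topology Metric
open scoped ComplexConjugate ContDiff
open Pool.Agent.MP_5027f4_mp

namespace Pool.Agent.MP_5027f4_cont

variable {m : Fin 3 → ℝ} {s : ℝ} {c : ℝ → Up}

/-- The algebraic identity behind `hasDerivAt_Gam`. -/
theorem alg_Gam (ζ η P R ζ' η' P' R' f0 f1 f2 a0 a1 a2 : ℂ) (g0 g1 g2 w0 w1 w2 : ℝ) :
    g0 * (2 * (conj f0 * (2 * ζ * ζ' + 2 * η * η')).re) +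
      g1 * (2 * (conj f1 * (2 * ζ * ζ' - 2 * η * η')).re) +
      g2 * (2 * (conj f2 * (2 * ζ' * η + 2 * ζ * η')).re) +
      (w0 * (conj a0 * (conj η' * P + conj η * P' - (conj ζ' * R + conj ζ * R'))).re +
      w1 * (conj a1 * (conj η' * P + conj η * P' + (conj ζ' * R + conj ζ * R'))).re +
      w2 * (conj a2 * (conj ζ' * P + conj ζ * P' - (conj η' * R + conj η * R'))).re) / 16 =
    (conj ((w0 * η * a0 + w1 * η * a1 + w2 * ζ * a2) / 16) * P' +
      conj ((-(w0 * ζ * a0) + w1 * ζ * a1 - w2 * η * a2) / 16) * R' -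
      conj (-(4 * (g0 : ℂ) * conj ζ * f0 + 4 * (g1 : ℂ) * conj ζ * f1 + 4 * (g2 : ℂ) * conj η * f2 +
        (-(w0 * conj a0 * R) + w1 * conj a1 * R + w2 * conj a2 * P) / 16)) * ζ' -
      conj (-(4 * (g0 : ℂ) * conj η * f0 - 4 * (g1 : ℂ) * conj η * f1 + 4 * (g2 : ℂ) * conj ζ * f2 +
        (w0 * conj a0 * P + w1 * conj a1 * P - w2 * conj a2 * R) / 16)) * η').re := by
  have h16 : ∀ z : ℂ, z / 16 = ((1 / 16 : ℝ) : ℂ) * z := by
    intro z; push_cast; ring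
  have h4 : (4 : ℂ) = ((4 : ℝ) : ℂ) := by norm_num
  have h2 : (2 : ℂ) = ((2 : ℝ) : ℂ) := by norm_num
  rw [h16, h16, h16, h16, h4, h2]
  simp only [Complex.mul_re, Complex.mul_im, Complex.add_re, Complex.add_im, Complex.sub_re,
    Complex.sub_im, Complex.neg_re, Complex.neg_im, Complex.conj_re, Complex.conj_im,
    Complex.ofReal_re, Complex.ofReal_im]
  ring

theorem hasDerivAt_normSqC {f : ℝ → ℂ} {f' : ℂ} (hf : HasDerivAt f f' s) :
    HasDerivAt (fun s => Complex.normSq (f s)) (2 * (conj (f s) * f').re) s := by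
  have hre : HasDerivAt (fun s => (f s).re) f'.re s :=
    Complex.reCLM.hasFDerivAt.comp_hasDerivAt s hf
  have him : HasDerivAt (fun s => (f s).im) f'.im s :=
    Complex.imCLM.hasFDerivAt.comp_hasDerivAt s hf
  have h := (hre.mul hre).add (him.mul him)
  refine HasDerivAt.congr_deriv h ?_
  simp only [Complex.mul_re, Complex.conj_re, Complex.conj_im]
  ring

/-- Proof.  With `nₖ' = 2 Re (conj fₖ fₖ')`, `f₀' = 2 (ζ ζ' + η η')`, `f₁' = 2 (ζ ζ' - η η')`,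
`f₂' = 2 (ζ' η + ζ η')`, `(|aₖ|²)' = 2 Re (conj aₖ aₖ')`:
`Γ' = Σ gₖ nₖ' + Σ nₖ/(32 mₖ) (|aₖ|²)' - rho h'`, which is `oU (VF) c' - rho h'` after collecting the
coefficients of `ζ', η', P', R'` (real parts; expand in real and imaginary parts and `ring`, or
keep `gₖ`, `fₖ`, `aₖ`, `wₖ = nₖ / mₖ` as atoms and use `Complex.ext_iff`). -/
theorem hasDerivAt_Gam {c' : Up} {hh : ℝ → ℝ} {h' : ℝ} (hc : HasDerivAt c c' s)
    (hh' : HasDerivAt hh h' s) :
    HasDerivAt (fun s => Gam m (hh s) (c s)) (oU (VF m (hh s) (c s)) c' - rho (c s) * h') s := by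
  have z := hd1 hc
  have e := hd2 hc
  have p := hd3 hc
  have r := hd4 hc
  have z' := hasDerivAt_conj z
  have e' := hasDerivAt_conj e
  have F0 : HasDerivAt (fun s => ff (c s) 0) (2 * (c s).1 * c'.1 + 2 * (c s).2.1 * c'.2.1) s :=
    ((z.pow 2).add (e.pow 2)).congr_deriv (by push_cast; ring)
  have F1 : HasDerivAt (fun s => ff (c s) 1) (2 * (c s).1 * c'.1 - 2 * (c s).2.1 * c'.2.1) s :=
    ((z.pow 2).sub (e.pow 2)).congr_deriv (by push_cast; ring)
  have F2 : HasDerivAt (fun s => ff (c s) 2) (2 * c'.1 * (c s).2.1 + 2 * (c s).1 * c'.2.1) s :=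
    ((z.const_mul 2).mul e).congr_deriv (by ring)
  have A0 : HasDerivAt (fun s => al (c s) 0) (conj c'.2.1 * (c s).2.2.1 + conj (c s).2.1 * c'.2.2.1 -
      (conj c'.1 * (c s).2.2.2 + conj (c s).1 * c'.2.2.2)) s := (e'.mul p).sub (z'.mul r)
  have A1 : HasDerivAt (fun s => al (c s) 1) (conj c'.2.1 * (c s).2.2.1 + conj (c s).2.1 * c'.2.2.1 +
      (conj c'.1 * (c s).2.2.2 + conj (c s).1 * c'.2.2.2)) s := (e'.mul p).add (z'.mul r)
  have A2 : HasDerivAt (fun s => al (c s) 2) (conj c'.1 * (c s).2.2.1 + conj (c s).1 * c'.2.2.1 -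
      (conj c'.2.1 * (c s).2.2.2 + conj (c s).2.1 * c'.2.2.2)) s := (z'.mul p).sub (e'.mul r)
  have N0 : HasDerivAt (fun s => nn (c s) 0) _ s := hasDerivAt_normSqC F0
  have N1 : HasDerivAt (fun s => nn (c s) 1) _ s := hasDerivAt_normSqC F1
  have N2 : HasDerivAt (fun s => nn (c s) 2) _ s := hasDerivAt_normSqC F2
  have B0 := hasDerivAt_normSqC A0
  have B1 := hasDerivAt_normSqC A1
  have B2 := hasDerivAt_normSqC A2
  have HK : HasDerivAt (fun s => KK m (c s)) _ s :=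
    ((((N0.mul B0).div_const (m 0)).add ((N1.mul B1).div_const (m 1))).add
      ((N2.mul B2).div_const (m 2))).div_const 32
  have HW : HasDerivAt (fun s => WW m (c s)) _ s :=
    (((N1.mul N2).const_mul (m 1 * m 2)).add ((N2.mul N0).const_mul (m 2 * m 0))).add
      ((N0.mul N1).const_mul (m 0 * m 1))
  have HR : HasDerivAt (fun s => rho (c s)) _ s := (N0.mul N1).mul N2
  have HG : HasDerivAt (fun s => Gam m (hh s) (c s)) _ s := (HK.sub HW).sub (hh'.mul HR)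
  refine HG.congr_deriv ?_
  have key := alg_Gam (c s).1 (c s).2.1 (c s).2.2.1 (c s).2.2.2 c'.1 c'.2.1 c'.2.2.1 c'.2.2.2
    (ff (c s) 0) (ff (c s) 1) (ff (c s) 2) (al (c s) 0) (al (c s) 1) (al (c s) 2)
    (g0 m (hh s) (c s)) (g1 m (hh s) (c s)) (g2 m (hh s) (c s)) (nn (c s) 0 / m 0)
    (nn (c s) 1 / m 1) (nn (c s) 2 / m 2)
  have hoU : oU (VF m (hh s) (c s)) c' = _ := key.symm
  rw [hoU]
  simp only [g0, g1, g2, rho, Pi.mul_apply]
  ring

theorem oU_self (ξ : Up) : oU ξ ξ = 0 := by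
  simp only [oU, Complex.sub_re, Complex.add_re, Complex.mul_re, Complex.conj_re, Complex.conj_im]
  ring

theorem oU_nondeg {ξ : Up} (h : ∀ η, oU ξ η = 0) : ξ = 0 := by
  have h1 := h (0, 0, ξ.1, 0)
  have h2 := h (0, 0, 0, ξ.2.1)
  have h3 := h (ξ.2.2.1, 0, 0, 0)
  have h4 := h (0, ξ.2.2.2, 0, 0)
  simp only [oU, Complex.mul_re, Complex.conj_re, Complex.conj_im, Complex.neg_re,
    mul_zero, sub_zero, add_zero, zero_sub, zero_add] at h1 h2 h3 h4
  have key : ∀ z : ℂ, z.re * z.re - -z.im * z.im = 0 → z = 0 := by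
    intro z hz
    have h0 : Complex.normSq z = 0 := by
      rw [Complex.normSq_apply]; linarith
    exact Complex.normSq_eq_zero.1 h0
  have e1 := key _ h1
  have e2 := key _ h2
  have e3 := key ξ.2.2.1 (by linarith)
  have e4 := key ξ.2.2.2 (by linarith)
  exact Prod.ext e1 (Prod.ext e2 (Prod.ext e3 e4))

theorem hasDerivAt_Gam_sol {h : ℝ} (hc : HasDerivAt c (VF m h (c s)) s) :
    HasDerivAt (fun s => Gam m h (c s)) 0 s := by
  have := hasDerivAt_Gam (m := m) hc (hasDerivAt_const s h)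
  rw [oU_self, mul_zero, sub_zero] at this
  exact this

/-- `oY` as a continuous bilinear form (for instance through `LinearMap.mk₂` and finite
dimension). -/
theorem exists_oY : ∃ Ω : (Up × ℝ × ℝ) →L[ℝ] (Up × ℝ × ℝ) →L[ℝ] ℝ,
    (∀ ξ η, Ω ξ η = oY ξ η) ∧ ∀ ξ, Ω ξ ξ = 0 := by
  let B : (Up × ℝ × ℝ) →ₗ[ℝ] (Up × ℝ × ℝ) →ₗ[ℝ] ℝ := LinearMap.mk₂ ℝ oY
    (fun a b c => by
      simp only [oY, oU, Prod.fst_add, Prod.snd_add, Complex.sub_re, Complex.add_re, Complex.add_im,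
        Complex.mul_re, Complex.conj_re, Complex.conj_im]
      ring)
    (fun r a c => by
      simp only [oY, oU, Prod.smul_fst, Prod.smul_snd, Complex.sub_re, Complex.add_re,
        Complex.mul_re, Complex.conj_re, Complex.conj_im, Complex.smul_re, Complex.smul_im,
        smul_eq_mul]
      ring)
    (fun a b c => by
      simp only [oY, oU, Prod.fst_add, Prod.snd_add, Complex.sub_re, Complex.add_re, Complex.add_im,
        Complex.mul_re, Complex.conj_re, Complex.conj_im]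
      ring)
    (fun r a c => by
      simp only [oY, oU, Prod.smul_fst, Prod.smul_snd, Complex.sub_re, Complex.add_re,
        Complex.mul_re, Complex.conj_re, Complex.conj_im, Complex.smul_re, Complex.smul_im,
        smul_eq_mul]
      ring)
  refine ⟨LinearMap.toContinuousLinearMap
    ((LinearMap.toContinuousLinearMap : ((Up × ℝ × ℝ) →ₗ[ℝ] ℝ) ≃ₗ[ℝ] _).toLinearMap ∘ₗ B),
    fun ξ η => rfl, fun ξ => ?_⟩
  change oY ξ ξ = 0
  rw [oY, oU_self]
  ring

/-- The extended field is Hamiltonian for `Γ (X, h, t) = Gam m h X`.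
Proof: `hasDerivAt_Gam` along the line `r ↦ Y + r • ξ`. -/
theorem oY_VV (Y ξ : Up × ℝ × ℝ) :
    oY (VV m Y) ξ = fderiv ℝ (fun Y : Up × ℝ × ℝ => Gam m Y.2.1 Y.1) Y ξ := by
  have hdiff : DifferentiableAt ℝ (fun Y : Up × ℝ × ℝ => Gam m Y.2.1 Y.1) Y := by
    have h1 : Differentiable ℝ (fun p : Up × ℝ => Gam m p.2 p.1) :=
      (contDiff_Gam m).differentiable (by simp)
    have h2 : Differentiable ℝ (fun Y : Up × ℝ × ℝ => ((Y.1, Y.2.1) : Up × ℝ)) := by fun_prop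
    exact (h1.comp h2) Y
  have hl : HasDerivAt (fun r : ℝ => Y + r • ξ) ξ 0 := by
    have := ((hasDerivAt_id (0 : ℝ)).smul_const ξ).const_add Y
    rwa [one_smul] at this
  have h0 : Y + (0 : ℝ) • ξ = Y := by rw [zero_smul, add_zero]
  have h1 : HasDerivAt (fun r : ℝ => Gam m (Y + r • ξ).2.1 (Y + r • ξ).1)
      (fderiv ℝ (fun Y : Up × ℝ × ℝ => Gam m Y.2.1 Y.1) Y ξ) 0 := by
    have hf : HasFDerivAt (fun Y : Up × ℝ × ℝ => Gam m Y.2.1 Y.1)
        (fderiv ℝ (fun Y : Up × ℝ × ℝ => Gam m Y.2.1 Y.1) Y) (Y + (0 : ℝ) • ξ) := by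
      rw [h0]
      exact hdiff.hasFDerivAt
    exact hf.comp_hasDerivAt (0 : ℝ) hl
  have hX : HasDerivAt (fun r : ℝ => (Y + r • ξ).1) ξ.1 0 :=
    (ContinuousLinearMap.fst ℝ Up (ℝ × ℝ)).hasFDerivAt.comp_hasDerivAt (0 : ℝ) hl
  have hr : HasDerivAt (fun r : ℝ => (Y + r • ξ).2) ξ.2 0 :=
    (ContinuousLinearMap.snd ℝ Up (ℝ × ℝ)).hasFDerivAt.comp_hasDerivAt (0 : ℝ) hl
  have hh : HasDerivAt (fun r : ℝ => (Y + r • ξ).2.1) ξ.2.1 0 :=
    (ContinuousLinearMap.fst ℝ ℝ ℝ).hasFDerivAt.comp_hasDerivAt (0 : ℝ) hr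
  have h2 := hasDerivAt_Gam (m := m) hX hh
  have h3 := h1.unique h2
  rw [h3, h0]
  simp only [oY, VV, zero_mul, zero_sub]
  ring

end Pool.Agent.MP_5027f4_cont
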