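import Pool.Agent.Lib_MP_5027f4_cont.CSys

/-!
PIECE [CInv] (MP_5027f4_mp, T1).  Derivatives of the invariants along the regularized flow.
-/

open Set Filter Topology Metric
open scoped ComplexConjugate ContDiff
open Pool.Agent.MP_5027f4_mp

namespace Pool.Agent.MP_5027f4_cont

variable {m : Fin 3 → ℝ} {h s : ℝ} {c : ℝ → Up}

theorem hasDerivAt_nn (hc : HasDerivAt c (VF m h (c s)) s) (k : Fin 3) :
    HasDerivAt (fun s => nn (c s) k) (2 * (conj (ff (c s) k) * df m (c s) k).re) s := by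
  have h1 := hasDerivAt_ff hc k
  have h2 := (hasDerivAt_conj h1).mul h1
  have h3 := Complex.reCLM.hasFDerivAt.comp_hasDerivAt s h2
  have h4 : (fun s => nn (c s) k) = Complex.reCLM ∘ ((fun s => conj (ff (c s) k)) * fun s => ff (c s) k) := by
    funext t
    simp only [Function.comp, Pi.mul_apply, Complex.reCLM_apply, nn]
    rw [← Complex.normSq_eq_conj_mul_self]
    simp
  rw [h4]
  refine HasDerivAt.congr_deriv h3 ?_
  simp only [Complex.reCLM_apply, Complex.add_re, Complex.mul_re, Complex.conj_re, Complex.conj_im]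
  ring

theorem hasDerivAt_CU (hc : HasDerivAt c (VF m h (c s)) s) :
    HasDerivAt (fun s => CU (c s)) 0 s := by
  have h1 := hasDerivAt_bet hc
  have h3 := (Complex.imCLM.hasFDerivAt.comp_hasDerivAt s h1).div_const 4
  refine HasDerivAt.congr_deriv h3 ?_
  simp only [Complex.imCLM_apply, Complex.ofReal_im, zero_div]

/-- Proof: `hasDerivAt_bet` and
`Σ gₖ nₖ = KK - 2 WW - 3 h rho` (from the definitions), so
`DU' = - Σ gₖ nₖ = - Gam + WW + 2 h rho`. -/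
theorem hasDerivAt_DU (hc : HasDerivAt c (VF m h (c s)) s) :
    HasDerivAt (fun s => DU (c s))
      (-Gam m h (c s) + WW m (c s) + 2 * h * rho (c s)) s := by
  have h1 := hasDerivAt_bet hc
  have h3 := (Complex.reCLM.hasFDerivAt.comp_hasDerivAt s h1).div_const 4
  refine HasDerivAt.congr_deriv h3 ?_
  simp only [Complex.reCLM_apply, Complex.ofReal_re, Gam, KK, WW, rho, g0, g1, g2]
  ring

/-- Proof.  With `fₖ = ff`, `aₖ = al`, `nₖ = nn`:
`IU' = (2/M) (m₁m₂ n₀n₀' + m₂m₀ n₁n₁' + m₀m₁ n₂n₂')`, and by `hasDerivAt_nn`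
`= (1/(2M)) [m₂ n₀n₁ Re (f₂ (conj f₀ a₁ + conj f₁ a₀)) + m₁ n₀n₂ Re (f₁ (conj f₀ a₂ - conj f₂ a₀))
+ m₀ n₁n₂ Re (f₀ (conj f₁ a₂ + conj f₂ a₁))] = (1/(2M)) (m₀+m₁+m₂) n₀n₁n₂ Re β`
by `R0`, `R1`, `R2`; `DU = Re β / 4`. -/
theorem hasDerivAt_IU (hM : MM m ≠ 0) (hm : ∀ a, m a ≠ 0)
    (hc : HasDerivAt c (VF m h (c s)) s) :
    HasDerivAt (fun s => IU m (c s)) (2 * rho (c s) * DU (c s)) s := by
  have n0 := hasDerivAt_nn hc 0
  have n1 := hasDerivAt_nn hc 1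
  have n2 := hasDerivAt_nn hc 2
  have h1 := (((n0.pow 2).const_mul (m 1 * m 2)).add ((n1.pow 2).const_mul (m 2 * m 0))).add
    ((n2.pow 2).const_mul (m 0 * m 1))
  have h2 := h1.div_const (MM m)
  refine HasDerivAt.congr_deriv h2 ?_
  have hm0 := hm 0
  have hm1 := hm 1
  have hm2 := hm 2
  have r0 : (ff (c s) 2 * (conj (ff (c s) 0) * al (c s) 1 + conj (ff (c s) 1) * al (c s) 0)).re =
      nn (c s) 2 * (bet (c s)).re := by
    rw [R0, ← mul_assoc, mul_comm (ff (c s) 2) (conj (ff (c s) 2)), ← nn_coe,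
      Complex.re_ofReal_mul]
  have r1 : (ff (c s) 1 * (conj (ff (c s) 0) * al (c s) 2 - conj (ff (c s) 2) * al (c s) 0)).re =
      nn (c s) 1 * (bet (c s)).re := by
    rw [R1, ← mul_assoc, mul_comm (ff (c s) 1) (conj (ff (c s) 1)), ← nn_coe,
      Complex.re_ofReal_mul]
  have r2 : (ff (c s) 0 * (conj (ff (c s) 1) * al (c s) 2 + conj (ff (c s) 2) * al (c s) 1)).re =
      nn (c s) 0 * (bet (c s)).re := by
    rw [R2, ← mul_assoc, mul_comm (ff (c s) 0) (conj (ff (c s) 0)), ← nn_coe,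
      Complex.re_ofReal_mul]
  have e0 : (conj (ff (c s) 0) * df m (c s) 0).re =
      (nn (c s) 1 / m 1 / 8) * (ff (c s) 2 * (conj (ff (c s) 0) * al (c s) 1)).re +
      (nn (c s) 2 / m 2 / 8) * (ff (c s) 1 * (conj (ff (c s) 0) * al (c s) 2)).re := by
    rw [← Complex.re_ofReal_mul, ← Complex.re_ofReal_mul, ← Complex.add_re]
    congr 1
    simp only [df, Matrix.cons_val_zero]
    push_cast
    ring
  have e1 : (conj (ff (c s) 1) * df m (c s) 1).re =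
      (nn (c s) 0 / m 0 / 8) * (ff (c s) 2 * (conj (ff (c s) 1) * al (c s) 0)).re +
      (nn (c s) 2 / m 2 / 8) * (ff (c s) 0 * (conj (ff (c s) 1) * al (c s) 2)).re := by
    rw [← Complex.re_ofReal_mul, ← Complex.re_ofReal_mul, ← Complex.add_re]
    congr 1
    simp only [df, Matrix.cons_val_one, Matrix.cons_val_zero]
    push_cast
    ring
  have e2 : (conj (ff (c s) 2) * df m (c s) 2).re =
      (nn (c s) 1 / m 1 / 8) * (ff (c s) 0 * (conj (ff (c s) 2) * al (c s) 1)).re -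
      (nn (c s) 0 / m 0 / 8) * (ff (c s) 1 * (conj (ff (c s) 2) * al (c s) 0)).re := by
    rw [← Complex.re_ofReal_mul, ← Complex.re_ofReal_mul, ← Complex.sub_re]
    congr 1
    simp only [df, Matrix.cons_val]
    push_cast
    ring
  rw [e0, e1, e2, DU_eq]
  rw [mul_add, Complex.add_re] at r0 r2
  rw [mul_sub, Complex.sub_re] at r1
  simp only [rho]
  rw [div_eq_iff hM]
  simp only [MM]
  generalize (ff (c s) 2 * (conj (ff (c s) 0) * al (c s) 1)).re = x1 at r0 ⊢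
  generalize (ff (c s) 2 * (conj (ff (c s) 1) * al (c s) 0)).re = x2 at r0 ⊢
  generalize (ff (c s) 1 * (conj (ff (c s) 0) * al (c s) 2)).re = x3 at r1 ⊢
  generalize (ff (c s) 1 * (conj (ff (c s) 2) * al (c s) 0)).re = x4 at r1 ⊢
  generalize (ff (c s) 0 * (conj (ff (c s) 1) * al (c s) 2)).re = x5 at r2 ⊢
  generalize (ff (c s) 0 * (conj (ff (c s) 2) * al (c s) 1)).re = x6 at r2 ⊢
  field_simp
  linear_combination 8 * (nn (c s) 0 * m 2 * nn (c s) 1) * r0 +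
    8 * (nn (c s) 0 * m 1 * nn (c s) 2) * r1 + 8 * (nn (c s) 1 * nn (c s) 2 * m 0) * r2

/-- Proof.  `z₀' = 2 f₀ f₀'`, `z₁' = -2 f₁ f₁'`, `z₂' = -2 f₂ f₂'` with `hasDerivAt_ff`; e.g.
`z₀' = f₀ (w₁ f₂ a₁ + w₂ f₁ a₂) / 4 = vv 2 - vv 1`; `q₀ = (m₂ z₁ - m₁ z₂)/M`, and
`Σ mₖ vvₖ = 0` (`R3`: `Σ mₖ vvₖ = (f₀f₁f₂/4) (- conj f₀ a₀ - conj f₁ a₁ + conj f₂ a₂)` as
`nₖ = conj fₖ fₖ`). -/
theorem hasDerivAt_qq (hM : MM m ≠ 0) (hm : ∀ a, m a ≠ 0)
    (hc : HasDerivAt c (VF m h (c s)) s) (k : Fin 3) :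
    HasDerivAt (fun s => qq m (c s) k) (vv m (c s) k) s := by
  have hm0 : (m 0 : ℂ) ≠ 0 := Complex.ofReal_ne_zero.2 (hm 0)
  have hm1 : (m 1 : ℂ) ≠ 0 := Complex.ofReal_ne_zero.2 (hm 1)
  have hm2 : (m 2 : ℂ) ≠ 0 := Complex.ofReal_ne_zero.2 (hm 2)
  have hM' : (m 0 : ℂ) + m 1 + m 2 ≠ 0 := by
    have := Complex.ofReal_ne_zero.2 hM
    simpa [MM] using this
  have z0 := (hasDerivAt_ff hc 0).pow 2
  have z1 := ((hasDerivAt_ff hc 1).pow 2).neg
  have z2 := ((hasDerivAt_ff hc 2).pow 2).neg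
  have r3 := R3 (c s)
  fin_cases k
  · have h1 := ((z1.const_mul (m 2 : ℂ)).sub (z2.const_mul (m 1 : ℂ))).div_const (MM m : ℂ)
    refine HasDerivAt.congr_deriv h1 ?_
    simp only [vv, df, MM, Matrix.cons_val_zero, Matrix.cons_val_one, Matrix.cons_val,
      Fin.zero_eta, Nat.cast_ofNat, Nat.add_one_sub_one, pow_one]
    push_cast
    rw [nn_coe, nn_coe, nn_coe]
    field_simp
    linear_combination 8 * ff (c s) 0 * ff (c s) 1 * ff (c s) 2 * (m 0 : ℂ) * r3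
  · have h1 := ((z2.const_mul (m 0 : ℂ)).sub (z0.const_mul (m 2 : ℂ))).div_const (MM m : ℂ)
    refine HasDerivAt.congr_deriv h1 ?_
    simp only [vv, df, MM, Matrix.cons_val_zero, Matrix.cons_val_one, Matrix.cons_val,
      Fin.mk_one, Nat.cast_ofNat, Nat.add_one_sub_one, pow_one]
    push_cast
    rw [nn_coe, nn_coe, nn_coe]
    field_simp
    linear_combination 8 * ff (c s) 0 * ff (c s) 1 * ff (c s) 2 * (m 1 : ℂ) * r3
  · have h1 := ((z0.const_mul (m 1 : ℂ)).sub (z1.const_mul (m 0 : ℂ))).div_const (MM m : ℂ)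
    refine HasDerivAt.congr_deriv h1 ?_
    simp only [vv, df, MM, Matrix.cons_val_zero, Matrix.cons_val_one, Matrix.cons_val,
      Fin.reduceFinMk, Nat.cast_ofNat, Nat.add_one_sub_one, pow_one]
    push_cast
    rw [nn_coe, nn_coe, nn_coe]
    field_simp
    linear_combination 8 * ff (c s) 0 * ff (c s) 1 * ff (c s) 2 * (m 2 : ℂ) * r3

end Pool.Agent.MP_5027f4_cont
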