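import Pool.Agent.Lib_MP_5027f4_cont.CEnA

/-!
PIECE [CLio] (MP_5027f4_mp, T1).  The projection is symplectic.
-/

open Set Filter Topology Metric
open scoped ComplexConjugate ContDiff
open Pool.Agent.MP_5027f4_mp

namespace Pool.Agent.MP_5027f4_cont

variable {m : Fin 3 → ℝ} {X : Up}

theorem CLio_line (X ξ : Up) : HasDerivAt (fun s : ℝ => X + s • ξ) ξ 0 := by
  simpa using ((hasDerivAt_id (0 : ℝ)).smul_const ξ).const_add X

theorem CLio_ff {c : ℝ → Up} {ξ : Up} {s : ℝ} (hc : HasDerivAt c ξ s) (k : Fin 3) :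
    HasDerivAt (fun s => ff (c s) k) ((![2 * (c s).1 * ξ.1 + 2 * (c s).2.1 * ξ.2.1,
      2 * (c s).1 * ξ.1 - 2 * (c s).2.1 * ξ.2.1,
      2 * ((c s).1 * ξ.2.1 + (c s).2.1 * ξ.1)] : Fin 3 → ℂ) k) s := by
  have z := hd1 hc
  have e := hd2 hc
  fin_cases k
  · have := (z.pow 2).add (e.pow 2)
    refine HasDerivAt.congr_deriv this ?_
    simp
  · have := (z.pow 2).sub (e.pow 2)
    refine HasDerivAt.congr_deriv this ?_
    simp
  · have := (z.const_mul 2).mul e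
    refine HasDerivAt.congr_deriv this ?_
    simp
    ring

theorem CLio_pair {c : ℝ → Ph} {v : Ph} {s : ℝ} (hc : HasDerivAt c v s) (a : Fin 3) :
    HasDerivAt (fun s => (c s).1 a) (v.1 a) s ∧ HasDerivAt (fun s => (c s).2 a) (v.2 a) s := by
  have h1 : HasDerivAt (fun s => (c s).1) v.1 s :=
    (ContinuousLinearMap.fst ℝ (Fin 3 → ℂ) (Fin 3 → ℂ)).hasFDerivAt.comp_hasDerivAt s hc
  have h2 : HasDerivAt (fun s => (c s).2) v.2 s :=
    (ContinuousLinearMap.snd ℝ (Fin 3 → ℂ) (Fin 3 → ℂ)).hasFDerivAt.comp_hasDerivAt s hc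
  exact ⟨hasDerivAt_pi.mp h1 a, hasDerivAt_pi.mp h2 a⟩

theorem CLio_pj (hX : Nonc X) {c : ℝ → Up} {ξ : Up} {s : ℝ} (hc : HasDerivAt c ξ s)
    (hcX : c s = X) : HasDerivAt (fun s => pj m (c s)) (fderiv ℝ (pj m) X ξ) s := by
  have h1 : HasFDerivAt (pj m) (fderiv ℝ (pj m) X) (c s) := by
    rw [hcX]
    exact (analyticAt_pj m hX).differentiableAt.hasFDerivAt
  exact h1.comp_hasDerivAt s hc

/-- `Σ conj pₖ dqₖ = conj P dζ + conj R dη`.

Proof.  As `Σ pₖ = 0`, `Σ conj pₖ dqₖ = conj p₁ dz₂ - conj p₂ dz₁`; `dz₂ = -2 f₂ df₂`,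
`dz₁ = -2 f₁ df₁`, `conj p₁ = - conj a₁/(4 f₀ f₂)`, `conj p₂ = conj a₂/(4 f₀ f₁)`, so it equals
`(1/(2 f₀)) (conj a₁ df₂ + conj a₂ df₁)`, `df₂ = 2 (η dζ + ζ dη)`, `df₁ = 2 (ζ dζ - η dη)`:
`(1/f₀) ((conj a₁ η + conj a₂ ζ) dζ + (conj a₁ ζ - conj a₂ η) dη) = conj P dζ + conj R dη`. -/
theorem oneForm (hM : MM m ≠ 0) (hm : ∀ a, m a ≠ 0) (hX : Nonc X) (ξ : Up) :
    ∑ a, (m a : ℂ) * (conj ((pj m X).2 a) * (fderiv ℝ (pj m) X ξ).1 a) =
      conj X.2.2.1 * ξ.1 + conj X.2.2.2 * ξ.2.1 := by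
  have hc := CLio_line X ξ
  have hc0 : X + (0 : ℝ) • ξ = X := by simp
  have hpj := CLio_pj (m := m) hX hc hc0
  set v := fderiv ℝ (pj m) X ξ with hv
  have hf0 := CLio_ff hc 0
  have hf1 := CLio_ff hc 1
  have hf2 := CLio_ff hc 2
  rw [hc0] at hf0 hf1 hf2
  simp only [Matrix.cons_val_zero, Matrix.cons_val_one, Matrix.cons_val] at hf0 hf1 hf2
  set F0 : ℂ := 2 * X.1 * ξ.1 + 2 * X.2.1 * ξ.2.1 with hF0
  set F1 : ℂ := 2 * X.1 * ξ.1 - 2 * X.2.1 * ξ.2.1 with hF1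
  set F2 : ℂ := 2 * (X.1 * ξ.2.1 + X.2.1 * ξ.1) with hF2
  have hz1 : HasDerivAt (fun s : ℝ => ff (X + s • ξ) 1 ^ 2) (2 * ff X 1 * F1) 0 := by
    refine HasDerivAt.congr_deriv (hf1.pow 2) ?_
    rw [hc0]
    simp
  have hz2 : HasDerivAt (fun s : ℝ => -(ff (X + s • ξ) 2 ^ 2)) (-(2 * ff X 2 * F2)) 0 := by
    refine HasDerivAt.congr_deriv (hf2.pow 2).neg ?_
    rw [hc0]
    simp
  -- differences of the velocities
  have d1 : v.1 1 - v.1 0 = -(2 * ff X 2 * F2) := by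
    have h1 := ((CLio_pair hpj 1).1).sub ((CLio_pair hpj 0).1)
    have h2 : (fun s : ℝ => (pj m (X + s • ξ)).1 1 - (pj m (X + s • ξ)).1 0) =
        fun s : ℝ => -(ff (X + s • ξ) 2 ^ 2) := by
      funext s
      have := qq_sub_10 hM (X + s • ξ)
      simpa [pj, zz] using this
    rw [← h2] at hz2
    exact h1.unique hz2
  have d2 : v.1 2 - v.1 0 = 2 * ff X 1 * F1 := by
    have h1 := ((CLio_pair hpj 2).1).sub ((CLio_pair hpj 0).1)
    have h2 : (fun s : ℝ => (pj m (X + s • ξ)).1 2 - (pj m (X + s • ξ)).1 0) =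
        fun s : ℝ => ff (X + s • ξ) 1 ^ 2 := by
      funext s
      have h4 := qq_sub_02 hM (X + s • ξ)
      have h5 : (pj m (X + s • ξ)).1 2 - (pj m (X + s • ξ)).1 0 =
          -(qq m (X + s • ξ) 0 - qq m (X + s • ξ) 2) := by
        simp [pj]
      rw [h5, h4]
      simp [zz]
    rw [← h2] at hz1
    exact h1.unique hz1
  have hsum := sum_pp hX
  rw [Fin.sum_univ_three] at hsum
  have hterm : ∀ a, (m a : ℂ) * (conj ((pj m X).2 a) * v.1 a) = conj (pp X a) * v.1 a := by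
    intro a
    have hma : (m a : ℂ) ≠ 0 := by exact_mod_cast hm a
    simp only [pj, map_div₀, Complex.conj_ofReal]
    field_simp
  simp only [hterm]
  rw [Fin.sum_univ_three]
  have hcs : conj (pp X 0) = -conj (pp X 1) - conj (pp X 2) := by
    have := congrArg conj hsum
    simp only [map_add, map_zero] at this
    linear_combination this
  have h0 : ff X 0 ≠ 0 := hX 0
  have h1 : ff X 1 ≠ 0 := hX 1
  have h2 : ff X 2 ≠ 0 := hX 2
  have e4 : (starRingEnd ℂ) 4 = 4 := map_ofNat _ 4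
  have e1 : conj (pp X 1) = -(conj (al X 1) / (4 * (ff X 0 * ff X 2))) := by
    simp [pp, e4]
  have e2 : conj (pp X 2) = conj (al X 2) / (4 * (ff X 0 * ff X 1)) := by
    simp [pp, e4]
  have hgoal : conj (pp X 0) * v.1 0 + conj (pp X 1) * v.1 1 + conj (pp X 2) * v.1 2 =
      conj (pp X 1) * (v.1 1 - v.1 0) + conj (pp X 2) * (v.1 2 - v.1 0) := by
    rw [hcs]
    ring
  rw [hgoal, d1, d2, e1, e2]
  have h3 : -(conj (al X 1) / (4 * (ff X 0 * ff X 2))) * -(2 * ff X 2 * F2) +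
      conj (al X 2) / (4 * (ff X 0 * ff X 1)) * (2 * ff X 1 * F1) =
      (conj (al X 1) * F2 + conj (al X 2) * F1) / (2 * ff X 0) := by
    field_simp
    ring
  rw [h3, div_eq_iff (mul_ne_zero two_ne_zero h0), hF1, hF2]
  simp only [ff, al, Matrix.cons_val_zero, Matrix.cons_val_one, Matrix.cons_val, map_add,
    map_sub, map_mul, Complex.conj_conj]
  ring

/-- Proof.  Differentiate `oneForm` (which holds on the open set `Nonc`) in the direction `η`:
`Σ mₐ conj (D(pj).2 η) (D(pj).1 ξ) + Σ mₐ conj ((pj X).2 a) D²(pj).1 (ξ, η)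
 = conj η.P ξ.ζ + conj η.R ξ.η`; subtract the same with `ξ, η` exchanged (the second derivative of
the analytic map `pj` is symmetric) and take real parts. -/
theorem pj_symp (hM : MM m ≠ 0) (hm : ∀ a, m a ≠ 0) (hX : Nonc X) (ξ η : Up) :
    oP m (fderiv ℝ (pj m) X ξ) (fderiv ℝ (pj m) X η) = oU ξ η := by
  have hD : DifferentiableAt ℝ (fderiv ℝ (pj m)) X :=
    ((analyticAt_pj m hX).fderiv).differentiableAt
  have hsymm : ∀ v w, fderiv ℝ (fderiv ℝ (pj m)) X v w = fderiv ℝ (fderiv ℝ (pj m)) X w v := by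
    have h1 : IsSymmSndFDerivAt ℝ (pj m) X := by
      refine ContDiffAt.isSymmSndFDerivAt (n := ω) (analyticAt_pj m hX).contDiffAt ?_
      simp
    exact fun v w => h1 v w
  have key : ∀ ξ η : Up, ∑ a, (m a : ℂ) *
      (conj ((fderiv ℝ (pj m) X η).2 a) * (fderiv ℝ (pj m) X ξ).1 a +
        conj ((pj m X).2 a) * (fderiv ℝ (fderiv ℝ (pj m)) X η ξ).1 a) =
      conj η.2.2.1 * ξ.1 + conj η.2.2.2 * ξ.2.1 := by
    intro ξ η
    have hc := CLio_line X η
    have hc0 : X + (0 : ℝ) • η = X := by simp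
    have hpj := CLio_pj (m := m) hX hc hc0
    have hDc : HasDerivAt (fun s : ℝ => fderiv ℝ (pj m) (X + s • η) ξ)
        (fderiv ℝ (fderiv ℝ (pj m)) X η ξ) 0 := by
      have h1 : HasFDerivAt (fderiv ℝ (pj m)) (fderiv ℝ (fderiv ℝ (pj m)) X)
          ((fun s : ℝ => X + s • η) 0) := by
        simp only [zero_smul, add_zero]
        exact hD.hasFDerivAt
      have h2 : HasDerivAt (fun s : ℝ => fderiv ℝ (pj m) (X + s • η))
          (fderiv ℝ (fderiv ℝ (pj m)) X η) 0 := h1.comp_hasDerivAt 0 hc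
      simpa using h2.clm_apply (hasDerivAt_const (0 : ℝ) ξ)
    have hL : HasDerivAt (fun s : ℝ => ∑ a, (m a : ℂ) * (conj ((pj m (X + s • η)).2 a) *
        (fderiv ℝ (pj m) (X + s • η) ξ).1 a)) (∑ a, (m a : ℂ) *
      (conj ((fderiv ℝ (pj m) X η).2 a) * (fderiv ℝ (pj m) X ξ).1 a +
        conj ((pj m X).2 a) * (fderiv ℝ (fderiv ℝ (pj m)) X η ξ).1 a)) 0 := by
      have h1 : ∀ a ∈ (Finset.univ : Finset (Fin 3)), HasDerivAt (fun s : ℝ =>
          (m a : ℂ) * (conj ((pj m (X + s • η)).2 a) *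
          (fderiv ℝ (pj m) (X + s • η) ξ).1 a)) ((m a : ℂ) *
          (conj ((fderiv ℝ (pj m) X η).2 a) * (fderiv ℝ (pj m) X ξ).1 a +
          conj ((pj m X).2 a) * (fderiv ℝ (fderiv ℝ (pj m)) X η ξ).1 a)) 0 := by
        intro a _
        have h2 := hasDerivAt_conj (CLio_pair hpj a).2
        have h3 := (CLio_pair hDc a).1
        have h4 := (h2.mul h3).const_mul (m a : ℂ)
        simpa using h4
      exact HasDerivAt.fun_sum h1
    have hR : HasDerivAt (fun s : ℝ => conj (X + s • η).2.2.1 * ξ.1 +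
        conj (X + s • η).2.2.2 * ξ.2.1) (conj η.2.2.1 * ξ.1 + conj η.2.2.2 * ξ.2.1) 0 := by
      have h1 := (hasDerivAt_conj (hd3 hc)).mul_const ξ.1
      have h2 := (hasDerivAt_conj (hd4 hc)).mul_const ξ.2.1
      exact h1.add h2
    have hev : (fun s : ℝ => ∑ a, (m a : ℂ) * (conj ((pj m (X + s • η)).2 a) *
        (fderiv ℝ (pj m) (X + s • η) ξ).1 a)) =ᶠ[𝓝 0] (fun s : ℝ =>
        conj (X + s • η).2.2.1 * ξ.1 + conj (X + s • η).2.2.2 * ξ.2.1) := by
      have h1 : ∀ᶠ s : ℝ in 𝓝 0, X + s • η ∈ {X : Up | Nonc X} := by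
        apply hc.continuousAt.eventually_mem
        apply isOpen_Nonc.mem_nhds
        simpa using hX
      filter_upwards [h1] with s hs
      exact oneForm hM hm hs ξ
    exact hL.unique (hR.congr_of_eventuallyEq hev)
  have k1 := key ξ η
  have k2 := key η ξ
  have hs := hsymm η ξ
  rw [hs] at k1
  have k3 := congrArg Complex.re k1
  have k4 := congrArg Complex.re k2
  simp only [Fin.sum_univ_three, oP, oU] at k3 k4 ⊢
  simp only [Complex.add_re, Complex.mul_re, Complex.conj_re, Complex.conj_im, Complex.add_im,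
    Complex.mul_im, Complex.ofReal_re, Complex.ofReal_im, Complex.sub_re] at k3 k4 ⊢
  linarith

/-- Proof: `pE m = prE m ∘ pj m`, and `pj m = coe ∘ pE m` near `X` (`pE_coe` on the open set
`Nonc`), so `(fderiv ℝ (pE m) X ξ : Ph) = fderiv ℝ (pj m) X ξ`. -/
theorem coe_fderiv_pE (hm : ∀ a, m a ≠ 0) (hX : Nonc X) (ξ : Up) :
    ((fderiv ℝ (pE m) X ξ : comSub m) : Ph) = fderiv ℝ (pj m) X ξ := by
  have h1 : HasFDerivAt (pE m) (fderiv ℝ (pE m) X) X :=
    (analyticAt_pE m hX).differentiableAt.hasFDerivAt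
  set L : comSub m →L[ℝ] Ph := ((comSub m).subtypeL).restrictScalars ℝ with hL
  have h2 : HasFDerivAt (fun X => L (pE m X)) (L.comp (fderiv ℝ (pE m) X)) X :=
    L.hasFDerivAt.comp X h1
  have h3 : (fun X => L (pE m X)) =ᶠ[𝓝 X] pj m := by
    have h4 : ∀ᶠ Y in 𝓝 X, Y ∈ {X : Up | Nonc X} := isOpen_Nonc.mem_nhds hX
    filter_upwards [h4] with Y hY
    exact pE_coe hm hY
  have h5 : HasFDerivAt (pj m) (L.comp (fderiv ℝ (pE m) X)) X := h2.congr_of_eventuallyEq h3.symm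
  rw [h5.fderiv]
  rfl

theorem pE_symp (hM : MM m ≠ 0) (hm : ∀ a, m a ≠ 0) (hX : Nonc X) (ξ η : Up) :
    oP m (fderiv ℝ (pE m) X ξ : comSub m) (fderiv ℝ (pE m) X η : comSub m) = oU ξ η := by
  rw [coe_fderiv_pE hm hX, coe_fderiv_pE hm hX]
  exact pj_symp hM hm hX ξ η

end Pool.Agent.MP_5027f4_cont
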