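import Pool.Agent.Lib_MP_5027f4_cont.CSys

/-!
PIECE [COut] (MP_5027f4_mp, T1).  Derivative of the momentum of a body which is not in collision.
-/

open Set Filter Topology Metric
open scoped ComplexConjugate ContDiff
open Pool.Agent.MP_5027f4_mp

namespace Pool.Agent.MP_5027f4_cont

variable {m : Fin 3 → ℝ} {h s : ℝ} {c : ℝ → Up}

theorem COut_q10 (hM : MM m ≠ 0) (X : Up) : qq m X 1 - qq m X 0 = -(ff X 2 ^ 2) := by
  have hM' : ((MM m : ℝ) : ℂ) ≠ 0 := by exact_mod_cast hM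
  have hz := zz_sum X
  have e : zz X 2 = -(ff X 2 ^ 2) := by simp [zz]
  rw [← e]
  have h1 : ((MM m : ℝ) : ℂ) = m 0 + m 1 + m 2 := by simp [MM]
  simp only [qq, Matrix.cons_val_zero, Matrix.cons_val_one, Matrix.cons_val]
  rw [div_sub_div_same, div_eq_iff hM', h1]
  linear_combination (-(m 2 : ℂ)) * hz

theorem COut_q20 (hM : MM m ≠ 0) (X : Up) : qq m X 2 - qq m X 0 = ff X 1 ^ 2 := by
  have hM' : ((MM m : ℝ) : ℂ) ≠ 0 := by exact_mod_cast hM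
  have hz := zz_sum X
  have e : -zz X 1 = ff X 1 ^ 2 := by simp [zz]
  rw [← e]
  have h1 : ((MM m : ℝ) : ℂ) = m 0 + m 1 + m 2 := by simp [MM]
  simp only [qq, Matrix.cons_val_zero, Matrix.cons_val_one, Matrix.cons_val]
  rw [div_sub_div_same, div_eq_iff hM', h1]
  linear_combination (m 1 : ℂ) * hz

theorem COut_q21 (hM : MM m ≠ 0) (X : Up) : qq m X 2 - qq m X 1 = ff X 0 ^ 2 := by
  have hM' : ((MM m : ℝ) : ℂ) ≠ 0 := by exact_mod_cast hM
  have hz := zz_sum X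
  have e : zz X 0 = ff X 0 ^ 2 := by simp [zz]
  rw [← e]
  have h1 : ((MM m : ℝ) : ℂ) = m 0 + m 1 + m 2 := by simp [MM]
  simp only [qq, Matrix.cons_val_zero, Matrix.cons_val_one, Matrix.cons_val]
  rw [div_sub_div_same, div_eq_iff hM', h1]
  linear_combination (-(m 0 : ℂ)) * hz

theorem COut_norm (X : Up) (k : Fin 3) : ‖ff X k ^ 2‖ = nn X k := by
  rw [norm_pow, nn, Complex.normSq_eq_norm_sq]

theorem COut_cancel (X : Up) (k : Fin 3) (hk : ff X k ≠ 0) :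
    ff X k ^ 2 / (nn X k : ℂ) ^ 3 = 1 / ((nn X k : ℂ) * conj (ff X k) ^ 2) := by
  have h1 : conj (ff X k) ≠ 0 := (map_ne_zero _).mpr hk
  rw [nn_coe]
  field_simp

/-- Auxiliary formulas for the force: with `fₖ = ff X k`, `nₖ = nn X k` (when `fᵢ ≠ 0`, `i ≠ k`)
`rho m₀ acc₀ = - m₀m₁ n₀n₁ / conj f₂ ² + m₂m₀ n₀n₂ / conj f₁ ²`,
`rho m₁ acc₁ = m₀m₁ n₀n₁ / conj f₂ ² + m₁m₂ n₁n₂ / conj f₀ ²`,
`rho m₂ acc₂ = - m₂m₀ n₀n₂ / conj f₁ ² - m₁m₂ n₁n₂ / conj f₀ ²`.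
Proof: `acc` is the sum of `m_b (q_b - q_k) / ‖q_b - q_k‖³`, the differences of `qq` are `± zz`
(as `zz_sum`), `zz = ± f²`, `‖zz i‖ = nn i`, `f²/n³ = 1/(n conj f²)`. -/
theorem rho_acc_zero (hM : MM m ≠ 0) (X : Up) (h1 : ff X 1 ≠ 0) (h2 : ff X 2 ≠ 0) :
    ((rho X * m 0 : ℝ) : ℂ) * acc m (qq m X) 0 =
      -((m 0 * m 1 * (nn X 0 * nn X 1) : ℝ) : ℂ) / conj (ff X 2) ^ 2 +
        ((m 2 * m 0 * (nn X 0 * nn X 2) : ℝ) : ℂ) / conj (ff X 1) ^ 2 := by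
  have he : (Finset.univ : Finset (Fin 3)).erase 0 = {1, 2} := by decide
  have hs : (1 : Fin 3) ∉ ({2} : Finset (Fin 3)) := by decide
  have n1 : (nn X 1 : ℂ) ≠ 0 := by
    exact_mod_cast ((nn_pos_iff X 1).mpr h1).ne'
  have n2 : (nn X 2 : ℂ) ≠ 0 := by
    exact_mod_cast ((nn_pos_iff X 2).mpr h2).ne'
  have c1 : conj (ff X 1) ≠ 0 := (map_ne_zero _).mpr h1
  have c2 : conj (ff X 2) ≠ 0 := (map_ne_zero _).mpr h2
  rw [acc, he, Finset.sum_insert hs, Finset.sum_singleton, COut_q10 hM, COut_q20 hM, norm_neg,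
    COut_norm, COut_norm, Complex.real_smul, Complex.real_smul]
  have e1 := COut_cancel X 1 h1
  have e2 := COut_cancel X 2 h2
  rw [rho]
  push_cast
  have r1 : (m 1 : ℂ) / (nn X 2 : ℂ) ^ 3 * -(ff X 2 ^ 2) =
      -((m 1 : ℂ) * (1 / ((nn X 2 : ℂ) * conj (ff X 2) ^ 2))) := by
    rw [← e2]
    ring
  have r2 : (m 2 : ℂ) / (nn X 1 : ℂ) ^ 3 * ff X 1 ^ 2 =
      (m 2 : ℂ) * (1 / ((nn X 1 : ℂ) * conj (ff X 1) ^ 2)) := by
    rw [← e1]
    ring
  rw [r1, r2]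
  field_simp
  try ring

theorem rho_acc_one (hM : MM m ≠ 0) (X : Up) (h0 : ff X 0 ≠ 0) (h2 : ff X 2 ≠ 0) :
    ((rho X * m 1 : ℝ) : ℂ) * acc m (qq m X) 1 =
      ((m 0 * m 1 * (nn X 0 * nn X 1) : ℝ) : ℂ) / conj (ff X 2) ^ 2 +
        ((m 1 * m 2 * (nn X 1 * nn X 2) : ℝ) : ℂ) / conj (ff X 0) ^ 2 := by
  have he : (Finset.univ : Finset (Fin 3)).erase 1 = {0, 2} := by decide
  have hs : (0 : Fin 3) ∉ ({2} : Finset (Fin 3)) := by decide
  have n0 : (nn X 0 : ℂ) ≠ 0 := by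
    exact_mod_cast ((nn_pos_iff X 0).mpr h0).ne'
  have n2 : (nn X 2 : ℂ) ≠ 0 := by
    exact_mod_cast ((nn_pos_iff X 2).mpr h2).ne'
  have c0 : conj (ff X 0) ≠ 0 := (map_ne_zero _).mpr h0
  have c2 : conj (ff X 2) ≠ 0 := (map_ne_zero _).mpr h2
  have q01 : qq m X 0 - qq m X 1 = ff X 2 ^ 2 := by
    rw [← neg_sub, COut_q10 hM, neg_neg]
  rw [acc, he, Finset.sum_insert hs, Finset.sum_singleton, q01, COut_q21 hM,
    COut_norm, COut_norm, Complex.real_smul, Complex.real_smul]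
  have e0 := COut_cancel X 0 h0
  have e2 := COut_cancel X 2 h2
  rw [rho]
  push_cast
  have r1 : (m 0 : ℂ) / (nn X 2 : ℂ) ^ 3 * ff X 2 ^ 2 =
      (m 0 : ℂ) * (1 / ((nn X 2 : ℂ) * conj (ff X 2) ^ 2)) := by
    rw [← e2]
    ring
  have r2 : (m 2 : ℂ) / (nn X 0 : ℂ) ^ 3 * ff X 0 ^ 2 =
      (m 2 : ℂ) * (1 / ((nn X 0 : ℂ) * conj (ff X 0) ^ 2)) := by
    rw [← e0]
    ring
  rw [r1, r2]
  field_simp
  try ring

theorem rho_acc_two (hM : MM m ≠ 0) (X : Up) (h0 : ff X 0 ≠ 0) (h1 : ff X 1 ≠ 0) :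
    ((rho X * m 2 : ℝ) : ℂ) * acc m (qq m X) 2 =
      -((m 2 * m 0 * (nn X 0 * nn X 2) : ℝ) : ℂ) / conj (ff X 1) ^ 2 -
        ((m 1 * m 2 * (nn X 1 * nn X 2) : ℝ) : ℂ) / conj (ff X 0) ^ 2 := by
  have he : (Finset.univ : Finset (Fin 3)).erase 2 = {0, 1} := by decide
  have hs : (0 : Fin 3) ∉ ({1} : Finset (Fin 3)) := by decide
  have n0 : (nn X 0 : ℂ) ≠ 0 := by
    exact_mod_cast ((nn_pos_iff X 0).mpr h0).ne'
  have n1 : (nn X 1 : ℂ) ≠ 0 := by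
    exact_mod_cast ((nn_pos_iff X 1).mpr h1).ne'
  have c0 : conj (ff X 0) ≠ 0 := (map_ne_zero _).mpr h0
  have c1 : conj (ff X 1) ≠ 0 := (map_ne_zero _).mpr h1
  have q02 : qq m X 0 - qq m X 2 = -(ff X 1 ^ 2) := by
    rw [← neg_sub, COut_q20 hM]
  have q12 : qq m X 1 - qq m X 2 = -(ff X 0 ^ 2) := by
    rw [← neg_sub, COut_q21 hM]
  rw [acc, he, Finset.sum_insert hs, Finset.sum_singleton, q02, q12, norm_neg, norm_neg,
    COut_norm, COut_norm, Complex.real_smul, Complex.real_smul]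
  have e0 := COut_cancel X 0 h0
  have e1 := COut_cancel X 1 h1
  rw [rho]
  push_cast
  have r1 : (m 0 : ℂ) / (nn X 1 : ℂ) ^ 3 * -(ff X 1 ^ 2) =
      -((m 0 : ℂ) * (1 / ((nn X 1 : ℂ) * conj (ff X 1) ^ 2))) := by
    rw [← e1]
    ring
  have r2 : (m 1 : ℂ) / (nn X 0 : ℂ) ^ 3 * -(ff X 0 ^ 2) =
      -((m 1 : ℂ) * (1 / ((nn X 0 : ℂ) * conj (ff X 0) ^ 2))) := by
    rw [← e0]
    ring
  rw [r1, r2]
  field_simp
  try ring

/-- the energy relation with atoms -/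
theorem COut_energy (X : Up) (hG : Gam m h X = 0) :
    ((conj (ff X 0) * ff X 0) * (conj (al X 0) * al X 0) / m 0 +
      (conj (ff X 1) * ff X 1) * (conj (al X 1) * al X 1) / m 1 +
      (conj (ff X 2) * ff X 2) * (conj (al X 2) * al X 2) / m 2) / 32 =
    (m 1 : ℂ) * m 2 * ((conj (ff X 1) * ff X 1) * (conj (ff X 2) * ff X 2)) +
      m 2 * m 0 * ((conj (ff X 2) * ff X 2) * (conj (ff X 0) * ff X 0)) +
      m 0 * m 1 * ((conj (ff X 0) * ff X 0) * (conj (ff X 1) * ff X 1)) +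
      h * ((conj (ff X 0) * ff X 0) * (conj (ff X 1) * ff X 1) * (conj (ff X 2) * ff X 2)) := by
  have h1 : KK m X = WW m X + h * rho X := by
    have := hG
    rw [Gam] at this
    linarith
  have h2 : ((KK m X : ℝ) : ℂ) = ((WW m X + h * rho X : ℝ) : ℂ) := by rw [h1]
  rw [KK, WW, rho] at h2
  push_cast at h2
  simp only [nn_coe, Complex.normSq_eq_conj_mul_self] at h2
  rw [h2]

/-- derivative of a conjugate -/
theorem COut_conj {u : ℝ → ℂ} {u' : ℂ} (hu : HasDerivAt u u' s) :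
    HasDerivAt (fun s => conj (u s)) (conj u') s := hasDerivAt_conj hu

/-- Proof for `k = 0` (the others are analogous).  Write `F = conj f`, `A = conj a`,
`w = n / m`.  `p₀ = - a₀ / (4 F₁ F₂)`, so
`-4 F₁ F₂ p₀' = a₀' - a₀ (F₁'/F₁ + F₂'/F₂)`, `F₁' = (w₀ F₂ A₀ + w₂ F₀ A₂)/8`,
`F₂' = (w₁ F₀ A₁ - w₀ F₁ A₀)/8`, `a₀' = -4 (g₁ f₁ F₂ - g₂ f₂ F₁) + (w₁ A₁ a₂ - w₂ A₂ a₁)/8`.
The terms with `w₁ A₁`: `(w₁ A₁/8) (a₂ - a₀ F₀/F₂) = w₁ |a₁|² F₁ / (8 F₂)` by `R3`; with `w₂ A₂`: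
`-(w₂ A₂/8) (a₁ + a₀ F₀/F₁) = - w₂ |a₂|² F₂ / (8 F₁)`; with `w₀`:
`- w₀ |a₀|² (F₂² - F₁²) / (8 F₁ F₂)`.  Insert `gₖ`; with `nₖ = fₖ Fₖ` the `|aₖ|²` terms add up to
`(F₁² - F₂²)/(F₁ F₂) * (Σ wₖ |aₖ|²)/8 = 4 KK (F₁² - F₂²)/(F₁ F₂)`; replace `KK` by `WW + h rho`
(`Gam = 0`); the remaining terms give
`-4 F₁ F₂ p₀' = (4/(F₁ F₂)) (m₀m₁ n₀n₁ F₁² - m₂m₀ n₀n₂ F₂²)`. -/
theorem hasDerivAt_pp (hM : MM m ≠ 0) (hm : ∀ a, m a ≠ 0)
    (hc : HasDerivAt c (VF m h (c s)) s) (hG : Gam m h (c s) = 0) (k : Fin 3)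
    (hf : ∀ i, i ≠ k → ff (c s) i ≠ 0) :
    HasDerivAt (fun s => pp (c s) k)
      (((rho (c s) * m k : ℝ) : ℂ) * acc m (qq m (c s)) k) s := by
  have hE := COut_energy (c s) hG
  have hR := R3 (c s)
  have d0 := COut_conj (hasDerivAt_ff hc 0)
  have d1 := COut_conj (hasDerivAt_ff hc 1)
  have d2 := COut_conj (hasDerivAt_ff hc 2)
  have m0 : (m 0 : ℂ) ≠ 0 := by exact_mod_cast hm 0
  have m1 : (m 1 : ℂ) ≠ 0 := by exact_mod_cast hm 1
  have m2 : (m 2 : ℂ) ≠ 0 := by exact_mod_cast hm 2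
  fin_cases k
  · have h1 : ff (c s) 1 ≠ 0 := hf 1 (by decide)
    have h2 : ff (c s) 2 ≠ 0 := hf 2 (by decide)
    have c1 : conj (ff (c s) 1) ≠ 0 := (map_ne_zero _).mpr h1
    have c2 : conj (ff (c s) 2) ≠ 0 := (map_ne_zero _).mpr h2
    have hd := ((hasDerivAt_al hc 0).div ((d1.mul d2).const_mul (4 : ℂ))
      (mul_ne_zero (by norm_num) (mul_ne_zero c1 c2))).neg
    have hfun : (fun s => pp (c s) 0) = fun s =>
        -(al (c s) 0 / (4 * (conj (ff (c s) 1) * conj (ff (c s) 2)))) := by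
      funext s
      simp [pp]
    change HasDerivAt (fun s => pp (c s) 0) (((rho (c s) * m 0 : ℝ) : ℂ) * acc m (qq m (c s)) 0) s
    rw [hfun]
    refine HasDerivAt.congr_deriv hd ?_
    rw [rho_acc_zero hM _ h1 h2]
    have key : da m h (c s) 0 * (conj (ff (c s) 1) * conj (ff (c s) 2)) -
        al (c s) 0 * (conj (df m (c s) 1) * conj (ff (c s) 2) +
          conj (ff (c s) 1) * conj (df m (c s) 2)) =
        4 * (m 0 * m 1 * (nn (c s) 0 * nn (c s) 1) * conj (ff (c s) 1) ^ 2 -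
          m 2 * m 0 * (nn (c s) 0 * nn (c s) 2) * conj (ff (c s) 2) ^ 2) := by
      simp only [da, df, g1, g2, Matrix.cons_val_zero, Matrix.cons_val_one, Matrix.cons_val]
      push_cast
      simp only [map_div₀, map_add, map_sub, map_mul, Complex.conj_ofReal, map_ofNat,
        Complex.conj_conj, nn_coe, Complex.normSq_eq_conj_mul_self]
      linear_combination (-(conj (ff (c s) 1) * ff (c s) 1 / m 1 * conj (al (c s) 1) *
        conj (ff (c s) 1) + conj (ff (c s) 2) * ff (c s) 2 / m 2 * conj (al (c s) 2) *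
        conj (ff (c s) 2)) / 8) * hR + (4 * (conj (ff (c s) 1) ^ 2 - conj (ff (c s) 2) ^ 2)) * hE
    simp only [Pi.mul_apply]
    push_cast
    field_simp
    linear_combination (-1 : ℂ) * key
  · have h0 : ff (c s) 0 ≠ 0 := hf 0 (by decide)
    have h2 : ff (c s) 2 ≠ 0 := hf 2 (by decide)
    have c0 : conj (ff (c s) 0) ≠ 0 := (map_ne_zero _).mpr h0
    have c2 : conj (ff (c s) 2) ≠ 0 := (map_ne_zero _).mpr h2
    have hd := ((hasDerivAt_al hc 1).div ((d0.mul d2).const_mul (4 : ℂ))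
      (mul_ne_zero (by norm_num) (mul_ne_zero c0 c2))).neg
    have hfun : (fun s => pp (c s) 1) = fun s =>
        -(al (c s) 1 / (4 * (conj (ff (c s) 0) * conj (ff (c s) 2)))) := by
      funext s
      simp [pp]
    change HasDerivAt (fun s => pp (c s) 1) (((rho (c s) * m 1 : ℝ) : ℂ) * acc m (qq m (c s)) 1) s
    rw [hfun]
    refine HasDerivAt.congr_deriv hd ?_
    rw [rho_acc_one hM _ h0 h2]
    have key : da m h (c s) 1 * (conj (ff (c s) 0) * conj (ff (c s) 2)) -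
        al (c s) 1 * (conj (df m (c s) 0) * conj (ff (c s) 2) +
          conj (ff (c s) 0) * conj (df m (c s) 2)) =
        -4 * (m 0 * m 1 * (nn (c s) 0 * nn (c s) 1) * conj (ff (c s) 0) ^ 2 +
          m 1 * m 2 * (nn (c s) 1 * nn (c s) 2) * conj (ff (c s) 2) ^ 2) := by
      simp only [da, df, g0, g2, Matrix.cons_val_zero, Matrix.cons_val_one, Matrix.cons_val]
      push_cast
      simp only [map_div₀, map_add, map_sub, map_mul, Complex.conj_ofReal, map_ofNat,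
        Complex.conj_conj, nn_coe, Complex.normSq_eq_conj_mul_self]
      linear_combination ((conj (ff (c s) 0) * ff (c s) 0 / m 0 * conj (al (c s) 0) *
        conj (ff (c s) 0) - conj (ff (c s) 2) * ff (c s) 2 / m 2 * conj (al (c s) 2) *
        conj (ff (c s) 2)) / 8) * hR + (-4 * (conj (ff (c s) 0) ^ 2 + conj (ff (c s) 2) ^ 2)) * hE
    simp only [Pi.mul_apply]
    push_cast
    field_simp
    linear_combination (-1 : ℂ) * key
  · have h0 : ff (c s) 0 ≠ 0 := hf 0 (by decide)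
    have h1 : ff (c s) 1 ≠ 0 := hf 1 (by decide)
    have c0 : conj (ff (c s) 0) ≠ 0 := (map_ne_zero _).mpr h0
    have c1 : conj (ff (c s) 1) ≠ 0 := (map_ne_zero _).mpr h1
    have hd := (hasDerivAt_al hc 2).div ((d0.mul d1).const_mul (4 : ℂ))
      (mul_ne_zero (by norm_num) (mul_ne_zero c0 c1))
    have hfun : (fun s => pp (c s) 2) = fun s =>
        al (c s) 2 / (4 * (conj (ff (c s) 0) * conj (ff (c s) 1))) := by
      funext s
      simp [pp]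
    change HasDerivAt (fun s => pp (c s) 2) (((rho (c s) * m 2 : ℝ) : ℂ) * acc m (qq m (c s)) 2) s
    rw [hfun]
    refine HasDerivAt.congr_deriv hd ?_
    rw [rho_acc_two hM _ h0 h1]
    have key : da m h (c s) 2 * (conj (ff (c s) 0) * conj (ff (c s) 1)) -
        al (c s) 2 * (conj (df m (c s) 0) * conj (ff (c s) 1) +
          conj (ff (c s) 0) * conj (df m (c s) 1)) =
        -4 * (m 2 * m 0 * (nn (c s) 0 * nn (c s) 2) * conj (ff (c s) 0) ^ 2 +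
          m 1 * m 2 * (nn (c s) 1 * nn (c s) 2) * conj (ff (c s) 1) ^ 2) := by
      simp only [da, df, g0, g1, Matrix.cons_val_zero, Matrix.cons_val_one, Matrix.cons_val]
      push_cast
      simp only [map_div₀, map_add, map_sub, map_mul, Complex.conj_ofReal, map_ofNat,
        Complex.conj_conj, nn_coe, Complex.normSq_eq_conj_mul_self]
      linear_combination ((conj (ff (c s) 0) * ff (c s) 0 / m 0 * conj (al (c s) 0) *
        conj (ff (c s) 0) + conj (ff (c s) 1) * ff (c s) 1 / m 1 * conj (al (c s) 1) *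
        conj (ff (c s) 1)) / 8) * hR + (-4 * (conj (ff (c s) 0) ^ 2 + conj (ff (c s) 1) ^ 2)) * hE
    simp only [Pi.mul_apply]
    push_cast
    field_simp
    linear_combination (1 : ℂ) * key

end Pool.Agent.MP_5027f4_cont
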