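import Pool.Agent.Lib_MP_5027f4_cont.CGam

/-!
PIECE [ComE] (MP_5027f4_mp, T1).  The center-of-mass space and its symplectic form.
-/

open Set Filter Topology Metric
open scoped ComplexConjugate ContDiff
open Pool.Agent.MP_5027f4_mp

namespace Pool.Agent.MP_5027f4_cont

variable {m : Fin 3 → ℝ}

/-- the complex moment map, whose kernel is the center-of-mass space -/
noncomputable def comMap (m : Fin 3 → ℝ) : Ph →ₗ[ℂ] ℂ × ℂ where
  toFun x := (∑ a, (m a : ℂ) * x.1 a, ∑ a, (m a : ℂ) * x.2 a)
  map_add' x y := by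
    simp only [Prod.fst_add, Prod.snd_add, Pi.add_apply, mul_add, Finset.sum_add_distrib,
      Prod.mk_add_mk]
  map_smul' c x := by
    simp only [Prod.smul_fst, Prod.smul_snd, Pi.smul_apply, smul_eq_mul, RingHom.id_apply,
      Prod.smul_mk, Finset.mul_sum]
    congr 1 <;> exact Finset.sum_congr rfl fun a _ => by ring

theorem ker_comMap : LinearMap.ker (comMap m) = comSub m := by
  ext p
  rw [LinearMap.mem_ker, mem_comSub]
  simp only [comMap, LinearMap.coe_mk, AddHom.coe_mk, Prod.mk_eq_zero, Complex.real_smul]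

theorem range_comMap (hm : ∀ a, 0 < m a) : LinearMap.range (comMap m) = ⊤ := by
  rw [LinearMap.range_eq_top]
  intro w
  have h0 : (m 0 : ℂ) ≠ 0 := by
    exact_mod_cast (hm 0).ne'
  refine ⟨(Pi.single 0 (w.1 / m 0), Pi.single 0 (w.2 / m 0)), ?_⟩
  simp only [comMap, LinearMap.coe_mk, AddHom.coe_mk, Fin.sum_univ_three]
  ext <;> simp [mul_div_cancel₀, h0]

/-- Proof: `comSub m` is the kernel of a surjective complex linear map `Ph → ℂ²` (`m 0 ≠ 0`),
`finrank ℂ Ph = 6`, `finrank ℝ = 2 * finrank ℂ` (`finrank_real_of_complex`). -/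
theorem finrank_comSub (hm : ∀ a, 0 < m a) : Module.finrank ℝ (comSub m) = 8 := by
  have h1 := LinearMap.finrank_range_add_finrank_ker (comMap m)
  rw [range_comMap hm, ker_comMap, finrank_top] at h1
  have h2 : Module.finrank ℂ (ℂ × ℂ) = 2 := by simp
  have h3 : Module.finrank ℂ Ph = 6 := by
    simp [Module.finrank_prod]
  rw [h2, h3] at h1
  have h4 := Module.finrank_mul_finrank ℝ ℂ (comSub m)
  rw [Complex.finrank_real_complex] at h4
  omega

theorem finrank_Up : Module.finrank ℝ Up = 8 := by
  simp [Up, Module.finrank_prod, Complex.finrank_real_complex]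

/-- the symplectic form of the center-of-mass space (finite dimension: every bilinear map is
continuous) -/
theorem exists_omE (m : Fin 3 → ℝ) : ∃ om : comSub m →L[ℝ] comSub m →L[ℝ] ℝ,
    ∀ x y : comSub m, om x y = oP m x y := by
  let B : comSub m →ₗ[ℝ] comSub m →ₗ[ℝ] ℝ := LinearMap.mk₂ ℝ (fun x y => oP m x y)
    (fun x x' y => by
      simp only [oP, Fin.sum_univ_three, Submodule.coe_add, Prod.fst_add, Prod.snd_add,
        Pi.add_apply, Complex.sub_re, Complex.mul_re, Complex.add_re, Complex.add_im,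
        Complex.conj_re, Complex.conj_im]
      ring)
    (fun c x y => by
      simp only [oP, Fin.sum_univ_three, Submodule.coe_smul_of_tower, Prod.smul_fst,
        Prod.smul_snd, Pi.smul_apply, Complex.smul_re, Complex.smul_im, smul_eq_mul,
        Complex.sub_re, Complex.mul_re, Complex.conj_re, Complex.conj_im]
      ring)
    (fun x y y' => by
      simp only [oP, Fin.sum_univ_three, Submodule.coe_add, Prod.fst_add, Prod.snd_add,
        Pi.add_apply, Complex.sub_re, Complex.mul_re, Complex.add_re, Complex.add_im,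
        Complex.conj_re, Complex.conj_im]
      ring)
    (fun c x y => by
      simp only [oP, Fin.sum_univ_three, Submodule.coe_smul_of_tower, Prod.smul_fst,
        Prod.smul_snd, Pi.smul_apply, Complex.smul_re, Complex.smul_im, smul_eq_mul,
        Complex.sub_re, Complex.mul_re, Complex.conj_re, Complex.conj_im]
      ring)
  refine ⟨B.toContinuousBilinearMap, fun x y => ?_⟩
  rw [LinearMap.toContinuousBilinearMap_apply]
  rfl

/-- the symplectic form of the center-of-mass space -/
noncomputable def omE (m : Fin 3 → ℝ) : comSub m →L[ℝ] comSub m →L[ℝ] ℝ :=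
  Classical.choose (exists_omE m)

theorem omE_apply (x y : comSub m) : omE m x y = oP m x y := Classical.choose_spec (exists_omE m) x y

theorem omE_self (x : comSub m) : omE m x x = 0 := by
  rw [omE_apply, oP]
  refine Finset.sum_eq_zero fun a _ => ?_
  rw [Complex.sub_re, Complex.mul_re, Complex.mul_re, Complex.conj_re, Complex.conj_re,
    Complex.conj_im, Complex.conj_im]
  ring

/-- Proof: test with `y = (0, x.1)` and `y = (- x.2, 0)` (both in `comSub m`):
`oP x (0, x.1) = Σ mₐ |x.1 a|²`, `oP x (-x.2, 0) = Σ mₐ |x.2 a|²`. -/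
theorem omE_nondeg (hm : ∀ a, 0 < m a) (x : comSub m) (h : ∀ y, omE m x y = 0) : x = 0 := by
  obtain ⟨p, hp⟩ := x
  have hp' := mem_comSub.1 hp
  have key : ∀ z : Fin 3 → ℂ, ∑ a, m a * Complex.normSq (z a) = 0 → z = 0 := by
    intro z hz
    have h1 := (Finset.sum_eq_zero_iff_of_nonneg (fun a _ =>
      mul_nonneg (hm a).le (Complex.normSq_nonneg (z a)))).1 hz
    funext a
    have h2 := h1 a (Finset.mem_univ a)
    exact Complex.normSq_eq_zero.1 ((mul_eq_zero.1 h2).resolve_left (hm a).ne')
  have e1 : p.1 = 0 := by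
    have hy : ((0, p.1) : Ph) ∈ comSub m := mem_comSub.2 ⟨by simp, hp'.1⟩
    have h1 := h ⟨(0, p.1), hy⟩
    rw [omE_apply, oP] at h1
    apply key
    rw [← h1]
    refine Finset.sum_congr rfl fun a _ => ?_
    simp only [Pi.zero_apply, mul_zero, sub_zero, Complex.mul_re, Complex.conj_re,
      Complex.conj_im, Complex.normSq_apply]
    ring
  have e2 : p.2 = 0 := by
    have hy : ((-p.2, 0) : Ph) ∈ comSub m := mem_comSub.2 ⟨by
      have := hp'.2
      simp only [Pi.neg_apply, smul_neg, Finset.sum_neg_distrib, this, neg_zero], by simp⟩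
    have h1 := h ⟨(-p.2, 0), hy⟩
    rw [omE_apply, oP] at h1
    apply key
    rw [← h1]
    refine Finset.sum_congr rfl fun a _ => ?_
    simp only [Pi.zero_apply, Pi.neg_apply, mul_zero, zero_sub, Complex.neg_re, Complex.mul_re,
      Complex.neg_im, Complex.conj_re, Complex.conj_im, Complex.normSq_apply]
    ring
  exact Subtype.ext (Prod.ext e1 e2)

theorem hasFDerivAt_muE {y : comSub m} (hy : y ∈ noColl₀ m) :
    HasFDerivAt (muE m) (((fderiv ℝ (energy m) (y : Ph)).comp (incl m)).prod
      ((fderiv ℝ (amom m) (y : Ph)).comp (incl m))) y := by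
  have h1 : HasFDerivAt (energy m) (fderiv ℝ (energy m) (y : Ph)) (incl m y) :=
    ((contDiffAt_energy hy).differentiableAt (by norm_num)).hasFDerivAt
  have h2 : HasFDerivAt (amom m) (fderiv ℝ (amom m) (y : Ph)) (incl m y) :=
    (contDiff_amom.differentiable (by norm_num) (y : Ph)).hasFDerivAt
  exact (h1.comp y (incl m).hasFDerivAt).prodMk (h2.comp y (incl m).hasFDerivAt)

/-- Proof: `fderiv_energy` (`⟪z, w⟫ = Re (conj z w)`), composed with the inclusion `incl m`. -/
theorem omE_fld {y : comSub m} (hy : y ∈ noColl₀ m) (ξ : comSub m) :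
    omE m (fld₀ m y) ξ = (fderiv ℝ (muE m) y ξ).1 := by
  rw [(hasFDerivAt_muE hy).fderiv, omE_apply, oP]
  change _ = fderiv ℝ (energy m) (y : Ph) (ξ : Ph)
  rw [fderiv_energy hy]
  refine Finset.sum_congr rfl fun a _ => ?_
  congr 1
  change (conj ((y : Ph).2 a) * (ξ : Ph).2 a - conj (acc m (y : Ph).1 a) * (ξ : Ph).1 a).re = _
  simp only [inner_eq, Complex.sub_re, Complex.mul_re, Complex.conj_re, Complex.conj_im]
  ring

/-- Proof: `fderiv_amom`. -/
theorem omE_rot {y : comSub m} (hy : y ∈ noColl₀ m) (ξ : comSub m) :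
    omE m (Complex.I • y) ξ = (fderiv ℝ (muE m) y ξ).2 := by
  rw [(hasFDerivAt_muE hy).fderiv, omE_apply, oP]
  change _ = fderiv ℝ (amom m) (y : Ph) (ξ : Ph)
  rw [fderiv_amom]
  refine Finset.sum_congr rfl fun a _ => ?_
  congr 1
  change (conj (Complex.I * (y : Ph).1 a) * (ξ : Ph).2 a -
    conj (Complex.I * (y : Ph).2 a) * (ξ : Ph).1 a).re = _
  simp only [map_mul, Complex.conj_I, Complex.sub_re, Complex.mul_re, Complex.mul_im,
    Complex.neg_re, Complex.neg_im, Complex.I_re, Complex.I_im, Complex.conj_re, Complex.conj_im,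
    Complex.add_im]
  ring

theorem omE_smul {u : ℂ} (hu : ‖u‖ = 1) (x y : comSub m) :
    omE m (u • x) (u • y) = omE m x y := by
  rw [omE_apply, omE_apply, oP, oP]
  have hu2 : u.re * u.re + u.im * u.im = 1 := by
    rw [← Complex.normSq_apply, Complex.normSq_eq_norm_sq, hu, one_pow]
  refine Finset.sum_congr rfl fun a _ => ?_
  congr 1
  change (conj (u * (x : Ph).1 a) * (u * (y : Ph).2 a) -
    conj (u * (x : Ph).2 a) * (u * (y : Ph).1 a)).re = _
  simp only [Complex.sub_re, Complex.mul_re, Complex.mul_im, map_mul, Complex.conj_re,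
    Complex.conj_im]
  linear_combination ((((x : Ph).1 a).re * ((y : Ph).2 a).re + ((x : Ph).1 a).im * ((y : Ph).2 a).im) -
    (((x : Ph).2 a).re * ((y : Ph).1 a).re + ((x : Ph).2 a).im * ((y : Ph).1 a).im)) * hu2

end Pool.Agent.MP_5027f4_cont
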