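import Pool.Agent.Lib_MP_5027f4_cont.CLio
import Pool.Agent.Lib_MP_5027f4_cont.ComE

/-!
PIECE [CSec] (MP_5027f4_mp, T1).  Local analytic inverse of the projection.
-/

open Set Filter Topology Metric
open scoped ComplexConjugate ContDiff
open Pool.Agent.MP_5027f4_mp

namespace Pool.Agent.MP_5027f4_cont

variable {m : Fin 3 → ℝ}

/-- The derivative of the projection is an isomorphism. -/
theorem exists_equiv_fderiv (hm : ∀ a, 0 < m a) {X₀ : Up} (h₀ : Nonc X₀) :
    ∃ A : Up ≃L[ℝ] comSub m, (A : Up →L[ℝ] comSub m) = fderiv ℝ (pE m) X₀ := by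
  have hM : MM m ≠ 0 := by
    have h0 := hm 0
    have h1 := hm 1
    have h2 := hm 2
    unfold MM
    positivity
  have hm' : ∀ a, m a ≠ 0 := fun a => (hm a).ne'
  set A : Up →L[ℝ] comSub m := fderiv ℝ (pE m) X₀ with hA
  have hinj : Function.Injective (A : Up →ₗ[ℝ] comSub m) := by
    rw [← LinearMap.ker_eq_bot, LinearMap.ker_eq_bot']
    intro ξ hξ
    refine oU_nondeg fun η => ?_
    rw [← pE_symp hM hm' h₀ ξ η]
    have h1 : fderiv ℝ (pE m) X₀ ξ = 0 := hξ
    rw [h1]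
    simp [oP]
  have hdim : Module.finrank ℝ Up = Module.finrank ℝ (comSub m) := by
    rw [finrank_Up, finrank_comSub hm]
  refine ⟨(LinearEquiv.ofInjectiveOfFinrankEq _ hinj hdim).toContinuousLinearEquiv, ?_⟩
  refine ContinuousLinearMap.ext fun x => ?_
  have := congrArg (fun L : Up →ₗ[ℝ] comSub m => L x)
    (LinearEquiv.coe_ofInjectiveOfFinrankEq (A : Up →ₗ[ℝ] comSub m) hinj hdim)
  exact this

/-- Proof.  `pE m` is analytic at `X₀` (`analyticAt_pE`) and its derivative is injective: if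
`D(pE) ξ = 0` then `oU ξ η = 0` for all `η` by `pE_symp`, so `ξ = 0` (`oU_nondeg`).  Both spaces have
dimension 8, so it is an isomorphism; analytic inverse function theorem
(`ContDiffAt.toOpenPartialHomeomorph`, `ContDiffAt.to_localInverse` with `n = ω`). -/
theorem exists_section (hm : ∀ a, 0 < m a) {X₀ : Up} (h₀ : Nonc X₀) :
    ∃ σ : comSub m → Up, AnalyticAt ℝ σ (pE m X₀) ∧ σ (pE m X₀) = X₀ ∧
      (∀ᶠ y in 𝓝 (pE m X₀), Nonc (σ y) ∧ pE m (σ y) = y) ∧ ∀ᶠ X in 𝓝 X₀, σ (pE m X) = X := by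
  obtain ⟨A, hA⟩ := exists_equiv_fderiv hm h₀
  have hom : (ω : WithTop ℕ∞) ≠ 0 := by simp
  have han : AnalyticAt ℝ (pE m) X₀ := analyticAt_pE m h₀
  have hcd : ContDiffAt ℝ ω (pE m) X₀ := han.contDiffAt
  have hd : HasFDerivAt (pE m) (A : Up →L[ℝ] comSub m) X₀ := by
    rw [hA]
    exact han.differentiableAt.hasFDerivAt
  have hs : HasStrictFDerivAt (pE m) (A : Up →L[ℝ] comSub m) X₀ := hcd.hasStrictFDerivAt' hd hom
  have hσ : ContDiffAt ℝ ω (hcd.localInverse hd hom) (pE m X₀) := hcd.to_localInverse hd hom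
  have h1 : hcd.localInverse hd hom (pE m X₀) = X₀ := hcd.localInverse_apply_image hd hom
  refine ⟨hcd.localInverse hd hom, ?_, h1, ?_, ?_⟩
  · exact hσ.analyticAt
  · refine Filter.Eventually.and ?_ hs.eventually_right_inverse
    have hc : ContinuousAt (hcd.localInverse hd hom) (pE m X₀) := hσ.continuousAt
    have hn : {X : Up | Nonc X} ∈ 𝓝 (hcd.localInverse hd hom (pE m X₀)) := by
      rw [h1]
      exact isOpen_Nonc.mem_nhds h₀
    exact hc.eventually hn
  · exact hs.eventually_left_inverse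

/-- local injectivity -/
theorem pE_inj (hm : ∀ a, 0 < m a) {X₀ : Up} (h₀ : Nonc X₀) :
    ∃ 𝒩 ∈ 𝓝 X₀, ∀ X ∈ 𝒩, ∀ Y ∈ 𝒩, pE m X = pE m Y → X = Y := by
  obtain ⟨σ, _, _, _, h4⟩ := exists_section hm h₀
  refine ⟨{X | σ (pE m X) = X}, h4, fun X hX Y hY h => ?_⟩
  have e1 : σ (pE m X) = X := hX
  have e2 : σ (pE m Y) = Y := hY
  rw [← e1, h, e2]

end Pool.Agent.MP_5027f4_cont
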