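import Pool.Agent.Lib_MP_5027f4_cont.CSys

/-!
PIECE [CSm] (MP_5027f4_mp, T1).  Smoothness of the basic functions.
-/

open Set Filter Topology Metric
open scoped ComplexConjugate ContDiff
open Pool.Agent.MP_5027f4_mp

namespace Pool.Agent.MP_5027f4_cont

private theorem csm_conj {E : Type*} [NormedAddCommGroup E] [NormedSpace ℝ E] {f : E → ℂ}
    (hf : ContDiff ℝ ω f) : ContDiff ℝ ω (fun x => conj (f x)) :=
  (Complex.conjCLE : ℂ ≃L[ℝ] ℂ).contDiff.comp hf

private theorem csm_ofReal {E : Type*} [NormedAddCommGroup E] [NormedSpace ℝ E] {f : E → ℝ}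
    (hf : ContDiff ℝ ω f) : ContDiff ℝ ω (fun x => (f x : ℂ)) :=
  Complex.ofRealCLM.contDiff.comp hf

private theorem csm_re {E : Type*} [NormedAddCommGroup E] [NormedSpace ℝ E] {f : E → ℂ}
    (hf : ContDiff ℝ ω f) : ContDiff ℝ ω (fun x => (f x).re) :=
  Complex.reCLM.contDiff.comp hf

private theorem csm_im {E : Type*} [NormedAddCommGroup E] [NormedSpace ℝ E] {f : E → ℂ}
    (hf : ContDiff ℝ ω f) : ContDiff ℝ ω (fun x => (f x).im) :=
  Complex.imCLM.contDiff.comp hf

private theorem csm_normSq {E : Type*} [NormedAddCommGroup E] [NormedSpace ℝ E] {f : E → ℂ}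
    (hf : ContDiff ℝ ω f) : ContDiff ℝ ω (fun x => Complex.normSq (f x)) := by
  simp only [Complex.normSq_apply]
  exact ((csm_re hf).mul (csm_re hf)).add ((csm_im hf).mul (csm_im hf))

private theorem csm_1 : ContDiff ℝ ω (fun X : Up => X.1) := contDiff_fst
private theorem csm_2 : ContDiff ℝ ω (fun X : Up => X.2.1) := contDiff_fst.comp contDiff_snd
private theorem csm_3 : ContDiff ℝ ω (fun X : Up => X.2.2.1) :=
  contDiff_fst.comp (contDiff_snd.comp contDiff_snd)
private theorem csm_4 : ContDiff ℝ ω (fun X : Up => X.2.2.2) :=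
  contDiff_snd.comp (contDiff_snd.comp contDiff_snd)

theorem contDiff_ff (k : Fin 3) : ContDiff ℝ ω (fun X : Up => ff X k) := by
  fin_cases k
  · exact (csm_1.pow 2).add (csm_2.pow 2)
  · exact (csm_1.pow 2).sub (csm_2.pow 2)
  · exact (contDiff_const.mul csm_1).mul csm_2

theorem contDiff_al (k : Fin 3) : ContDiff ℝ ω (fun X : Up => al X k) := by
  fin_cases k
  · exact ((csm_conj csm_2).mul csm_3).sub ((csm_conj csm_1).mul csm_4)
  · exact ((csm_conj csm_2).mul csm_3).add ((csm_conj csm_1).mul csm_4)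
  · exact ((csm_conj csm_1).mul csm_3).sub ((csm_conj csm_2).mul csm_4)

theorem contDiff_bet : ContDiff ℝ ω bet :=
  ((csm_conj csm_1).mul csm_3).add ((csm_conj csm_2).mul csm_4)

theorem contDiff_nn (k : Fin 3) : ContDiff ℝ ω (fun X : Up => nn X k) :=
  csm_normSq (contDiff_ff k)

theorem contDiff_rho : ContDiff ℝ ω rho :=
  ((contDiff_nn 0).mul (contDiff_nn 1)).mul (contDiff_nn 2)

theorem contDiff_WW (m : Fin 3 → ℝ) : ContDiff ℝ ω (WW m) :=
  ((contDiff_const.mul ((contDiff_nn 1).mul (contDiff_nn 2))).add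
    (contDiff_const.mul ((contDiff_nn 2).mul (contDiff_nn 0)))).add
    (contDiff_const.mul ((contDiff_nn 0).mul (contDiff_nn 1)))

theorem contDiff_KK (m : Fin 3 → ℝ) : ContDiff ℝ ω (KK m) :=
  (((((contDiff_nn 0).mul (csm_normSq (contDiff_al 0))).div_const _).add
    (((contDiff_nn 1).mul (csm_normSq (contDiff_al 1))).div_const _)).add
    (((contDiff_nn 2).mul (csm_normSq (contDiff_al 2))).div_const _)).div_const _

theorem contDiff_Gam (m : Fin 3 → ℝ) : ContDiff ℝ ω (fun p : Up × ℝ => Gam m p.2 p.1) :=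
  (((contDiff_KK m).comp contDiff_fst).sub ((contDiff_WW m).comp contDiff_fst)).sub
    (contDiff_snd.mul (contDiff_rho.comp contDiff_fst))

theorem contDiff_CU : ContDiff ℝ ω CU := (csm_im contDiff_bet).div_const _

theorem contDiff_DU : ContDiff ℝ ω DU := (csm_re contDiff_bet).div_const _

theorem contDiff_IU (m : Fin 3 → ℝ) : ContDiff ℝ ω (IU m) :=
  (((contDiff_const.mul ((contDiff_nn 0).pow 2)).add
    (contDiff_const.mul ((contDiff_nn 1).pow 2))).add
    (contDiff_const.mul ((contDiff_nn 2).pow 2))).div_const _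

private theorem csm_zz (k : Fin 3) : ContDiff ℝ ω (fun X : Up => zz X k) := by
  fin_cases k
  · exact (contDiff_ff 0).pow 2
  · exact ((contDiff_ff 1).pow 2).neg
  · exact ((contDiff_ff 2).pow 2).neg

theorem contDiff_qq (m : Fin 3 → ℝ) : ContDiff ℝ ω (qq m) := by
  rw [contDiff_pi]
  intro k
  fin_cases k
  · exact ((contDiff_const.mul (csm_zz 1)).sub (contDiff_const.mul (csm_zz 2))).div_const _
  · exact ((contDiff_const.mul (csm_zz 2)).sub (contDiff_const.mul (csm_zz 0))).div_const _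
  · exact ((contDiff_const.mul (csm_zz 0)).sub (contDiff_const.mul (csm_zz 1))).div_const _

private theorem csm_w (m : Fin 3 → ℝ) (k : Fin 3) :
    ContDiff ℝ ω (fun X : Up => ((nn X k / m k : ℝ) : ℂ)) :=
  csm_ofReal ((contDiff_nn k).div_const _)

private theorem csm_g0 (m : Fin 3 → ℝ) :
    ContDiff ℝ ω (fun Y : Up × ℝ × ℝ => (g0 m Y.2.1 Y.1 : ℂ)) := by
  have hh : ContDiff ℝ ω (fun Y : Up × ℝ × ℝ => Y.2.1) := contDiff_fst.comp contDiff_snd
  exact csm_ofReal ((((((csm_normSq (contDiff_al 0)).div_const _).sub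
    (contDiff_const.mul (contDiff_nn 2))).sub
    (contDiff_const.mul (contDiff_nn 1))).comp contDiff_fst).sub
    (hh.mul (((contDiff_nn 1).mul (contDiff_nn 2)).comp contDiff_fst)))

private theorem csm_g1 (m : Fin 3 → ℝ) :
    ContDiff ℝ ω (fun Y : Up × ℝ × ℝ => (g1 m Y.2.1 Y.1 : ℂ)) := by
  have hh : ContDiff ℝ ω (fun Y : Up × ℝ × ℝ => Y.2.1) := contDiff_fst.comp contDiff_snd
  exact csm_ofReal ((((((csm_normSq (contDiff_al 1)).div_const _).sub
    (contDiff_const.mul (contDiff_nn 2))).sub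
    (contDiff_const.mul (contDiff_nn 0))).comp contDiff_fst).sub
    (hh.mul (((contDiff_nn 0).mul (contDiff_nn 2)).comp contDiff_fst)))

private theorem csm_g2 (m : Fin 3 → ℝ) :
    ContDiff ℝ ω (fun Y : Up × ℝ × ℝ => (g2 m Y.2.1 Y.1 : ℂ)) := by
  have hh : ContDiff ℝ ω (fun Y : Up × ℝ × ℝ => Y.2.1) := contDiff_fst.comp contDiff_snd
  exact csm_ofReal ((((((csm_normSq (contDiff_al 2)).div_const _).sub
    (contDiff_const.mul (contDiff_nn 1))).sub
    (contDiff_const.mul (contDiff_nn 0))).comp contDiff_fst).sub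
    (hh.mul (((contDiff_nn 0).mul (contDiff_nn 1)).comp contDiff_fst)))

private theorem csm_VF (m : Fin 3 → ℝ) :
    ContDiff ℝ ω (fun Y : Up × ℝ × ℝ => VF m Y.2.1 Y.1) := by
  have c4 : ContDiff ℝ ω (fun _ : Up × ℝ × ℝ => (4 : ℂ)) := contDiff_const
  have x1 := csm_1.comp (contDiff_fst (𝕜 := ℝ) (E := Up) (F := ℝ × ℝ) (n := ω))
  have x2 := csm_2.comp (contDiff_fst (𝕜 := ℝ) (E := Up) (F := ℝ × ℝ) (n := ω))
  have x3 := csm_3.comp (contDiff_fst (𝕜 := ℝ) (E := Up) (F := ℝ × ℝ) (n := ω))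
  have x4 := csm_4.comp (contDiff_fst (𝕜 := ℝ) (E := Up) (F := ℝ × ℝ) (n := ω))
  have y1 := csm_conj x1
  have y2 := csm_conj x2
  have w := fun k => (csm_w m k).comp (contDiff_fst (𝕜 := ℝ) (E := Up) (F := ℝ × ℝ) (n := ω))
  have a := fun k => (contDiff_al k).comp (contDiff_fst (𝕜 := ℝ) (E := Up) (F := ℝ × ℝ) (n := ω))
  have f := fun k => (contDiff_ff k).comp (contDiff_fst (𝕜 := ℝ) (E := Up) (F := ℝ × ℝ) (n := ω))
  have b := fun k => csm_conj (a k)
  refine ContDiff.prodMk ?_ (ContDiff.prodMk ?_ (ContDiff.prodMk ?_ ?_))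
  · exact (((((w 0).mul x2).mul (a 0)).add (((w 1).mul x2).mul (a 1))).add
      (((w 2).mul x1).mul (a 2))).div_const _
  · exact ((((((w 0).mul x1).mul (a 0)).neg).add (((w 1).mul x1).mul (a 1))).sub
      (((w 2).mul x2).mul (a 2))).div_const _
  · exact ((((((c4.mul (csm_g0 m)).mul y1).mul (f 0)).add
      (((c4.mul (csm_g1 m)).mul y1).mul (f 1))).add
      (((c4.mul (csm_g2 m)).mul y2).mul (f 2))).add
      ((((((w 0).mul (b 0)).mul x4).neg.add (((w 1).mul (b 1)).mul x4)).add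
        (((w 2).mul (b 2)).mul x3)).div_const _)).neg
  · exact ((((((c4.mul (csm_g0 m)).mul y2).mul (f 0)).sub
      (((c4.mul (csm_g1 m)).mul y2).mul (f 1))).add
      (((c4.mul (csm_g2 m)).mul y1).mul (f 2))).add
      ((((((w 0).mul (b 0)).mul x3).add (((w 1).mul (b 1)).mul x3)).sub
        (((w 2).mul (b 2)).mul x4)).div_const _)).neg

theorem contDiff_VV (m : Fin 3 → ℝ) : ContDiff ℝ ω (VV m) :=
  (csm_VF m).prodMk (contDiff_const.prodMk (contDiff_rho.comp contDiff_fst))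

theorem contDiff_VF (m : Fin 3 → ℝ) (h : ℝ) : ContDiff ℝ ω (VF m h) := by
  have h1 : ContDiff ℝ ω (fun X : Up => ((X, h, 0) : Up × ℝ × ℝ)) :=
    contDiff_id.prodMk contDiff_const
  have h2 := (csm_VF m).comp h1
  have h3 : (fun Y : Up × ℝ × ℝ => VF m Y.2.1 Y.1) ∘ (fun X : Up => ((X, h, 0) : Up × ℝ × ℝ)) =
      VF m h := by
    funext X
    simp only [Function.comp_apply]
  rw [h3] at h2
  exact h2

theorem isOpen_Nonc : IsOpen {X : Up | Nonc X} := by
  have : {X : Up | Nonc X} = ⋂ k : Fin 3, {X : Up | ff X k ≠ 0} := by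
    ext X
    simp [Nonc]
  rw [this]
  refine isOpen_iInter_of_finite fun k => ?_
  exact isOpen_ne_fun (contDiff_ff k).continuous continuous_const

private theorem csm_pp {X : Up} (hX : Nonc X) (k : Fin 3) :
    ContDiffAt ℝ ω (fun X : Up => pp X k) X := by
  have c4 : ContDiff ℝ ω (fun _ : Up => (4 : ℂ)) := contDiff_const
  have h4 : (4 : ℂ) ≠ 0 := by norm_num
  have hc : ∀ i j : Fin 3, (starRingEnd ℂ) (ff X i * ff X j) ≠ 0 := fun i j => by
    rw [Ne, map_eq_zero]
    exact mul_ne_zero (hX i) (hX j)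
  have key : ∀ i j l : Fin 3, ContDiffAt ℝ ω
      (fun X : Up => al X l / (4 * (starRingEnd ℂ) (ff X i * ff X j))) X := fun i j l => by
    have d1 : ContDiffAt ℝ ω (fun X : Up => al X l) X := (contDiff_al l).contDiffAt
    have d2 : ContDiffAt ℝ ω (fun X : Up => 4 * (starRingEnd ℂ) (ff X i * ff X j)) X :=
      (c4.mul (csm_conj ((contDiff_ff i).mul (contDiff_ff j)))).contDiffAt
    have d3 : (fun X : Up => 4 * (starRingEnd ℂ) (ff X i * ff X j)) X ≠ 0 :=
      mul_ne_zero h4 (hc i j)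
    have d4 := d1.mul (d2.inv d3)
    refine d4.congr_of_eventuallyEq (Filter.Eventually.of_forall fun Z => ?_)
    exact div_eq_mul_inv _ _
  fin_cases k
  · exact (key 1 2 0).neg
  · exact (key 0 2 1).neg
  · exact key 0 1 2

private theorem csm_pj (m : Fin 3 → ℝ) {X : Up} (hX : Nonc X) : ContDiffAt ℝ ω (pj m) X := by
  refine ContDiffAt.prodMk (contDiff_qq m).contDiffAt ?_
  rw [contDiffAt_pi]
  intro k
  exact (csm_pp hX k).div_const _

/-- analytic where there is no collision (quotients of analytic functions) -/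
theorem analyticAt_pj (m : Fin 3 → ℝ) {X : Up} (hX : Nonc X) : AnalyticAt ℝ (pj m) X :=
  (csm_pj m hX).analyticAt

theorem analyticAt_pE (m : Fin 3 → ℝ) {X : Up} (hX : Nonc X) : AnalyticAt ℝ (pE m) X :=
  (((prE m).contDiff (n := ω)).contDiffAt.comp X (csm_pj m hX)).analyticAt

private theorem csm_energy (m : Fin 3 → ℝ) {p : Ph} (hp : p ∈ noColl) :
    ContDiffAt ℝ ω (energy m) p := by
  have h : energy m = fun x : Ph =>
    (m 0 * ‖x.2 0‖ ^ 2 + m 1 * ‖x.2 1‖ ^ 2 + m 2 * ‖x.2 2‖ ^ 2) / 2 -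
      (m 0 * m 1 * ‖x.1 1 - x.1 0‖⁻¹ + m 0 * m 2 * ‖x.1 2 - x.1 0‖⁻¹ +
        m 1 * m 2 * ‖x.1 2 - x.1 1‖⁻¹) := funext fun x => energy_eq m x
  rw [h]
  have hv : ∀ a : Fin 3, ContDiffAt ℝ ω (fun x : Ph => ‖x.2 a‖ ^ 2) p := fun a => by
    have h1 : ContDiffAt ℝ ω (fun x : Ph => x.2 a) p := by fun_prop
    exact h1.norm_sq ℝ
  have hq : ∀ a b : Fin 3, a ≠ b → ContDiffAt ℝ ω (fun x : Ph => ‖x.1 a - x.1 b‖⁻¹) p :=
    fun a b hab => by
    have h1 : ContDiffAt ℝ ω (fun x : Ph => x.1 a - x.1 b) p := by fun_prop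
    have h0 : p.1 a - p.1 b ≠ 0 := sub_ne_zero.mpr (hp a b hab)
    exact (h1.norm ℂ h0).inv (norm_ne_zero_iff.mpr h0)
  have hv0 := hv 0
  have hv1 := hv 1
  have hv2 := hv 2
  have h10 := hq 1 0 (by decide)
  have h20 := hq 2 0 (by decide)
  have h21 := hq 2 1 (by decide)
  exact ((((contDiffAt_const.mul hv0).add (contDiffAt_const.mul hv1)).add
    (contDiffAt_const.mul hv2)).div_const 2).sub
    (((contDiffAt_const.mul h10).add (contDiffAt_const.mul h20)).add (contDiffAt_const.mul h21))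

/-- `‖q a - q b‖` is analytic where it does not vanish (`sqrt` of `normSq`) -/
theorem analyticAt_energy (m : Fin 3 → ℝ) {p : Ph} (hp : p ∈ noColl) :
    AnalyticAt ℝ (energy m) p :=
  (csm_energy m hp).analyticAt

private theorem csm_amom (m : Fin 3 → ℝ) : ContDiff ℝ ω (amom m) := by
  have h : ∀ a : Fin 3, ContDiff ℝ ω (fun x : Ph => m a * ((starRingEnd ℂ) (x.1 a) * x.2 a).im) := by
    intro a
    have h1 : ContDiff ℝ ω (fun x : Ph => x.1 a) := by fun_prop
    have h2 : ContDiff ℝ ω (fun x : Ph => x.2 a) := by fun_prop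
    exact contDiff_const.mul (csm_im ((csm_conj h1).mul h2))
  exact ContDiff.sum fun a _ => h a

theorem analyticAt_muE (m : Fin 3 → ℝ) {y : comSub m} (hy : y ∈ noColl₀ m) :
    AnalyticAt ℝ (muE m) y := by
  have hs : ContDiffAt ℝ ω (fun y : comSub m => (y : Ph)) y :=
    ((Submodule.subtypeL (comSub m)).restrictScalars ℝ).contDiff.contDiffAt
  have h1 : ContDiffAt ℝ ω (fun y : comSub m => energy m (y : Ph)) y :=
    ContDiffAt.comp y (csm_energy m hy) hs
  have h2' : ContDiffAt ℝ ω (amom m) (y : Ph) := (csm_amom m).contDiffAt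
  have h2 : ContDiffAt ℝ ω (fun y : comSub m => amom m (y : Ph)) y := h2'.comp y hs
  exact (h1.prodMk h2).analyticAt

end Pool.Agent.MP_5027f4_cont
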