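import Pool.Agent.Lib_MP_5027f4_cont.CEnB

/-!
PIECE [CSymA] (MP_5027f4_mp, T1).  Symmetries of the regularized problem: invariant functions.
-/

open Set Filter Topology Metric
open scoped ComplexConjugate ContDiff
open Pool.Agent.MP_5027f4_mp

namespace Pool.Agent.MP_5027f4_cont

variable {m : Fin 3 → ℝ} {u κ₁ κ₂ : ℂ} {b : Bool}

theorem symOK_one : SymOK 1 1 1 := by
  refine ⟨?_, ?_, ?_⟩ <;> simp

theorem symOK_cases (hu : SymOK u κ₁ κ₂) :
    (κ₂ = κ₁ ∨ κ₂ = -κ₁) ∧ conj κ₁ * κ₁ = 1 ∧ u = κ₁ ^ 4 := by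
  obtain ⟨h1, h2, h3⟩ := hu
  refine ⟨sq_eq_sq_iff_eq_or_eq_neg.1 h2, ?_, h3.symm⟩
  rw [← Complex.normSq_eq_conj_mul_self, Complex.normSq_eq_norm_sq, h1]
  norm_num

/-- the effect of the symmetries on `ff` and `al` -/
theorem sym_signs (b : Bool) (hu : SymOK u κ₁ κ₂) : ∃ s t : Fin 3 → ℂ,
    (∀ k, s k = 1 ∨ s k = -1) ∧ (∀ k, t k = 1 ∨ t k = -1) ∧
    (∀ X k, ff (sym κ₁ κ₂ b X) k = s k * κ₁ ^ 2 * ff X k) ∧
    (∀ X k, al (sym κ₁ κ₂ b X) k = t k * al X k) ∧
    t 0 = s 1 * s 2 ∧ t 1 = s 0 * s 2 ∧ t 2 = s 0 * s 1 := by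
  obtain ⟨h1, h2, h3⟩ := symOK_cases hu
  obtain ⟨ε, hε, hκ⟩ : ∃ ε : ℂ, (ε = 1 ∨ ε = -1) ∧ κ₂ = ε * κ₁ := by
    rcases h1 with h | h
    · exact ⟨1, Or.inl rfl, by rw [h, one_mul]⟩
    · exact ⟨-1, Or.inr rfl, by rw [h, neg_one_mul]⟩
  have hεc : conj ε = ε := by rcases hε with rfl | rfl <;> simp
  have hε2 : ε ^ 2 = 1 := by rcases hε with rfl | rfl <;> norm_num
  have hεn : -ε = 1 ∨ -ε = -1 := by rcases hε with rfl | rfl <;> norm_num
  cases b
  · refine ⟨![1, 1, ε], ![ε, ε, 1], ?_, ?_, ?_, ?_, ?_⟩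
    · intro k; fin_cases k
      · exact Or.inl rfl
      · exact Or.inl rfl
      · exact hε
    · intro k; fin_cases k
      · exact hε
      · exact hε
      · exact Or.inl rfl
    · intro X k
      fin_cases k
      · simp only [sym, ff, hκ, Bool.false_eq_true, if_false, Fin.zero_eta, Matrix.cons_val_zero]
        linear_combination (κ₁ ^ 2 * X.2.1 ^ 2) * hε2
      · simp only [sym, ff, hκ, Bool.false_eq_true, if_false, Fin.mk_one, Matrix.cons_val_one,
          Matrix.cons_val_zero]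
        linear_combination (-(κ₁ ^ 2 * X.2.1 ^ 2)) * hε2
      · simp only [sym, ff, hκ, Bool.false_eq_true, if_false, Fin.reduceFinMk, Matrix.cons_val]
        ring
    · intro X k
      fin_cases k
      · simp only [sym, al, hκ, Bool.false_eq_true, if_false, Fin.zero_eta, Matrix.cons_val_zero,
          map_mul, hεc]
        linear_combination (ε * (conj X.2.1 * X.2.2.1 - conj X.1 * X.2.2.2)) * h2
      · simp only [sym, al, hκ, Bool.false_eq_true, if_false, Fin.mk_one, Matrix.cons_val_one,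
          Matrix.cons_val_zero, map_mul, hεc]
        linear_combination (ε * (conj X.2.1 * X.2.2.1 + conj X.1 * X.2.2.2)) * h2
      · simp only [sym, al, hκ, Bool.false_eq_true, if_false, Fin.reduceFinMk, Matrix.cons_val,
          map_mul, hεc]
        linear_combination (conj X.1 * X.2.2.1 - ε ^ 2 * conj X.2.1 * X.2.2.2) * h2 -
          (conj X.2.1 * X.2.2.2) * hε2
    · simp only [Matrix.cons_val_zero, Matrix.cons_val_one, Matrix.cons_val]
      refine ⟨?_, ?_, ?_⟩ <;> ring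
  · refine ⟨![1, -1, ε], ![-ε, ε, -1], ?_, ?_, ?_, ?_, ?_⟩
    · intro k; fin_cases k
      · exact Or.inl rfl
      · exact Or.inr rfl
      · exact hε
    · intro k; fin_cases k
      · exact hεn
      · exact hε
      · exact Or.inr rfl
    · intro X k
      fin_cases k
      · simp only [sym, ff, hκ, if_true, Fin.zero_eta, Matrix.cons_val_zero]
        linear_combination (κ₁ ^ 2 * X.1 ^ 2) * hε2
      · simp only [sym, ff, hκ, if_true, Fin.mk_one, Matrix.cons_val_one,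
          Matrix.cons_val_zero]
        linear_combination (-(κ₁ ^ 2 * X.1 ^ 2)) * hε2
      · simp only [sym, ff, hκ, if_true, Fin.reduceFinMk, Matrix.cons_val]
        ring
    · intro X k
      fin_cases k
      · simp only [sym, al, hκ, if_true, Fin.zero_eta, Matrix.cons_val_zero,
          map_mul, hεc]
        linear_combination (ε * (conj X.1 * X.2.2.2 - conj X.2.1 * X.2.2.1)) * h2
      · simp only [sym, al, hκ, if_true, Fin.mk_one, Matrix.cons_val_one,
          Matrix.cons_val_zero, map_mul, hεc]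
        linear_combination (ε * (conj X.2.1 * X.2.2.1 + conj X.1 * X.2.2.2)) * h2
      · simp only [sym, al, hκ, if_true, Fin.reduceFinMk, Matrix.cons_val,
          map_mul, hεc]
        linear_combination (conj X.2.1 * X.2.2.2 - ε ^ 2 * conj X.1 * X.2.2.1) * h2 -
          (conj X.1 * X.2.2.1) * hε2
    · simp only [Matrix.cons_val_zero, Matrix.cons_val_one, Matrix.cons_val]
      refine ⟨?_, ?_, ?_⟩ <;> ring

theorem normSq_sign {s : ℂ} (h : s = 1 ∨ s = -1) : Complex.normSq s = 1 := by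
  rcases h with rfl | rfl <;> simp

theorem normSq_kap (hu : SymOK u κ₁ κ₂) : Complex.normSq κ₁ = 1 := by
  rw [Complex.normSq_eq_norm_sq, hu.1, one_pow]

theorem nn_sym (hu : SymOK u κ₁ κ₂) (X : Up) (k : Fin 3) : nn (sym κ₁ κ₂ b X) k = nn X k := by
  obtain ⟨s, t, hs, ht, hf, ha, -⟩ := sym_signs b hu
  rw [nn, nn, hf X k, map_mul, map_mul, map_pow, normSq_sign (hs k), normSq_kap hu]
  ring

theorem rho_sym (hu : SymOK u κ₁ κ₂) (X : Up) : rho (sym κ₁ κ₂ b X) = rho X := by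
  rw [rho, rho, nn_sym hu, nn_sym hu, nn_sym hu]

theorem WW_sym (hu : SymOK u κ₁ κ₂) (X : Up) : WW m (sym κ₁ κ₂ b X) = WW m X := by
  rw [WW, WW, nn_sym hu, nn_sym hu, nn_sym hu]

/-- `κ₂ = ± κ₁`, so every `al` is multiplied by a sign, or by a sign after the exchange -/
theorem normSq_al_sym (hu : SymOK u κ₁ κ₂) (X : Up) (k : Fin 3) :
    Complex.normSq (al (sym κ₁ κ₂ b X) k) = Complex.normSq (al X k) := by
  obtain ⟨s, t, hs, ht, hf, ha, -⟩ := sym_signs b hu
  rw [ha X k, map_mul, normSq_sign (ht k), one_mul]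

theorem KK_sym (hu : SymOK u κ₁ κ₂) (X : Up) : KK m (sym κ₁ κ₂ b X) = KK m X := by
  rw [KK, KK, nn_sym hu, nn_sym hu, nn_sym hu, normSq_al_sym hu, normSq_al_sym hu,
    normSq_al_sym hu]

theorem Gam_sym (hu : SymOK u κ₁ κ₂) (h : ℝ) (X : Up) :
    Gam m h (sym κ₁ κ₂ b X) = Gam m h X := by
  rw [Gam, Gam, KK_sym hu, WW_sym hu, rho_sym hu]

theorem bet_sym (hu : SymOK u κ₁ κ₂) (X : Up) : bet (sym κ₁ κ₂ b X) = bet X := by
  obtain ⟨h1, h2, h3⟩ := symOK_cases hu
  rcases h1 with rfl | rfl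
  · cases b
    · simp only [bet, sym, Bool.false_eq_true, if_false, map_mul]
      linear_combination (conj X.1 * X.2.2.1 + conj X.2.1 * X.2.2.2) * h2
    · simp only [bet, sym, if_true, map_mul]
      linear_combination (conj X.1 * X.2.2.1 + conj X.2.1 * X.2.2.2) * h2
  · cases b
    · simp only [bet, sym, Bool.false_eq_true, if_false, map_mul, map_neg]
      linear_combination (conj X.1 * X.2.2.1 + conj X.2.1 * X.2.2.2) * h2
    · simp only [bet, sym, if_true, map_mul, map_neg]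
      linear_combination (conj X.1 * X.2.2.1 + conj X.2.1 * X.2.2.2) * h2

theorem CU_sym (hu : SymOK u κ₁ κ₂) (X : Up) : CU (sym κ₁ κ₂ b X) = CU X := by
  rw [CU_eq, CU_eq, bet_sym hu]

theorem DU_sym (hu : SymOK u κ₁ κ₂) (X : Up) : DU (sym κ₁ κ₂ b X) = DU X := by
  rw [DU_eq, DU_eq, bet_sym hu]

theorem IU_sym (hu : SymOK u κ₁ κ₂) (X : Up) : IU m (sym κ₁ κ₂ b X) = IU m X := by
  rw [IU, IU, nn_sym hu, nn_sym hu, nn_sym hu]

theorem zz_sym (hu : SymOK u κ₁ κ₂) (X : Up) (k : Fin 3) :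
    zz (sym κ₁ κ₂ b X) k = u * zz X k := by
  obtain ⟨s, t, hs, ht, hf, ha, -⟩ := sym_signs b hu
  obtain ⟨-, -, h3⟩ := symOK_cases hu
  have key : ∀ j, ff (sym κ₁ κ₂ b X) j ^ 2 = u * ff X j ^ 2 := by
    intro j
    have hs2 : s j ^ 2 = 1 := by rcases hs j with h | h <;> rw [h] <;> norm_num
    rw [hf X j, h3]
    linear_combination (κ₁ ^ 4 * ff X j ^ 2) * hs2
  fin_cases k
  · simp only [zz, Fin.zero_eta, Matrix.cons_val_zero]
    rw [key]
  · simp only [zz, Fin.mk_one, Matrix.cons_val_one, Matrix.cons_val_zero]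
    rw [key]
    ring
  · simp only [zz, Fin.reduceFinMk, Matrix.cons_val]
    rw [key]
    ring

/-- `zz` is multiplied by `κ₁ ^ 4 = u` -/
theorem qq_sym (hu : SymOK u κ₁ κ₂) (X : Up) (k : Fin 3) :
    qq m (sym κ₁ κ₂ b X) k = u * qq m X k := by
  fin_cases k
  · simp only [qq, Fin.zero_eta, Matrix.cons_val_zero, zz_sym hu]
    ring
  · simp only [qq, Fin.mk_one, Matrix.cons_val_one, Matrix.cons_val_zero, zz_sym hu]
    ring
  · simp only [qq, Fin.reduceFinMk, Matrix.cons_val, zz_sym hu]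
    ring

/-- Proof.  `κ₂ = ε κ₁`, `ε = ± 1`.  Without exchange: `f₀, f₁, f₂` are multiplied by
`κ₁², κ₁², ε κ₁²` and `a₀, a₁, a₂` by `ε, ε, 1`.  With exchange: `f` by `κ₁², -κ₁², ε κ₁²`, `a` by
`-ε, ε, -1`.  `1 / conj (κ₁ ^ 4) = κ₁ ^ 4 = u`. -/
theorem pp_sym (hu : SymOK u κ₁ κ₂) (X : Up) (k : Fin 3) :
    pp (sym κ₁ κ₂ b X) k = u * pp X k := by
  obtain ⟨s, t, hs, ht, hf, ha, h0, h1, h2⟩ := sym_signs b hu
  obtain ⟨-, hk, h3⟩ := symOK_cases hu
  have hk0 : conj κ₁ ≠ 0 := fun h => by rw [h, zero_mul] at hk; exact zero_ne_one hk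
  have hu1 : u = (conj κ₁ ^ 4)⁻¹ := by
    rw [h3]
    refine eq_inv_of_mul_eq_one_left ?_
    rw [← mul_pow, mul_comm, hk, one_pow]
  have hsc : ∀ j, conj (s j) = s j := by
    intro j
    rcases hs j with h | h <;> rw [h] <;> simp
  have hs0 : ∀ j, s j ≠ 0 := by
    intro j
    rcases hs j with h | h <;> rw [h] <;> norm_num
  have key : ∀ (a : ℂ) (i j : Fin 3), s i * s j * a /
      (4 * conj (ff (sym κ₁ κ₂ b X) i * ff (sym κ₁ κ₂ b X) j)) =
      u * (a / (4 * conj (ff X i * ff X j))) := by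
    intro a i j
    rw [hf X i, hf X j, hu1]
    simp only [map_mul, map_pow, hsc]
    by_cases hz : conj (ff X i) * conj (ff X j) = 0
    · have e1 : 4 * (s i * conj κ₁ ^ 2 * conj (ff X i) * (s j * conj κ₁ ^ 2 * conj (ff X j))) = 0 := by
        linear_combination (4 * s i * s j * conj κ₁ ^ 4) * hz
      rw [e1, hz]
      simp
    · have hi : conj (ff X i) ≠ 0 := left_ne_zero_of_mul hz
      have hj : conj (ff X j) ≠ 0 := right_ne_zero_of_mul hz
      have hsi := hs0 i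
      have hsj := hs0 j
      field_simp
  fin_cases k
  · simp only [pp, Fin.zero_eta, Matrix.cons_val_zero, ha X 0, h0]
    rw [key]
    ring
  · simp only [pp, Fin.mk_one, Matrix.cons_val_one, Matrix.cons_val_zero, ha X 1, h1]
    rw [key]
    ring
  · simp only [pp, Fin.reduceFinMk, Matrix.cons_val, ha X 2, h2]
    rw [key]

theorem pj_sym (hu : SymOK u κ₁ κ₂) (X : Up) : pj m (sym κ₁ κ₂ b X) = u • pj m X := by
  refine Prod.ext ?_ ?_
  · funext k
    show qq m (sym κ₁ κ₂ b X) k = u * qq m X k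
    exact qq_sym hu X k
  · funext k
    show pp (sym κ₁ κ₂ b X) k / m k = u * (pp X k / m k)
    rw [pp_sym hu X k, mul_div_assoc]

theorem Nonc_sym (hu : SymOK u κ₁ κ₂) (X : Up) : Nonc (sym κ₁ κ₂ b X) ↔ Nonc X := by
  rw [← rho_pos_iff, ← rho_pos_iff, rho_sym hu]

theorem pE_sym (hm : ∀ a, m a ≠ 0) (hu : SymOK u κ₁ κ₂) {X : Up} (hX : Nonc X) :
    pE m (sym κ₁ κ₂ b X) = u • pE m X := by
  apply Subtype.ext
  rw [pE_coe hm ((Nonc_sym hu X).2 hX), pj_sym hu X]
  show u • pj m X = u • ((pE m X : comSub m) : Ph)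
  rw [pE_coe hm hX]

theorem norm_sym (hu : SymOK u κ₁ κ₂) (X : Up) : ‖sym κ₁ κ₂ b X‖ = ‖X‖ := by
  have hk1 : ‖κ₁‖ = 1 := hu.1
  have hk2 : ‖κ₂‖ = 1 := by
    rcases (symOK_cases hu).1 with h | h
    · rw [h, hk1]
    · rw [h, norm_neg, hk1]
  cases b
  · simp only [sym, Bool.false_eq_true, if_false, Prod.norm_def, norm_mul, hk1, hk2, one_mul]
  · simp only [sym, if_true, Prod.norm_def, norm_mul, hk1, hk2, one_mul]
    rw [max_left_comm, max_comm ‖X.2.2.2‖ ‖X.2.2.1‖]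

end Pool.Agent.MP_5027f4_cont
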