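import Pool.Agent.Lib_MP_5027f4_cont.CSymA

/-!
PIECE [CSymB] (MP_5027f4_mp, T1).  Symmetries of the regularized problem: equivariance of the field.
-/

set_option linter.unusedSimpArgs false

open Set Filter Topology Metric
open scoped ComplexConjugate ContDiff
open Pool.Agent.MP_5027f4_mp

namespace Pool.Agent.MP_5027f4_cont

variable {m : Fin 3 → ℝ} {u κ₁ κ₂ : ℂ} {b : Bool}

/-- `sym` as a linear map -/
noncomputable def csb_symLin (κ₁ κ₂ : ℂ) (b : Bool) : Up →ₗ[ℝ] Up where
  toFun := sym κ₁ κ₂ b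
  map_add' X Y := by
    cases b <;> simp only [sym, Prod.fst_add, Prod.snd_add, Prod.mk_add_mk, mul_add, if_true, if_false,
      Bool.false_eq_true]
  map_smul' r X := by
    cases b <;> simp only [sym, Prod.smul_fst, Prod.smul_snd, Prod.smul_mk, mul_smul_comm, if_true, if_false,
      Bool.false_eq_true, RingHom.id_apply]

/-- `sym` as a continuous linear map -/
theorem exists_symL (κ₁ κ₂ : ℂ) (b : Bool) : ∃ L : Up →L[ℝ] Up, ∀ X, L X = sym κ₁ κ₂ b X :=
  ⟨LinearMap.toContinuousLinearMap (csb_symLin κ₁ κ₂ b), fun _ => rfl⟩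

theorem csb_conj {κ : ℂ} (h : ‖κ‖ = 1) : conj κ * κ = 1 := by
  rw [← Complex.normSq_eq_conj_mul_self, Complex.normSq_eq_norm_sq, h]
  norm_num

theorem csb_g0 (hu : SymOK u κ₁ κ₂) (h : ℝ) (X : Up) : g0 m h (sym κ₁ κ₂ b X) = g0 m h X := by
  simp only [g0, nn_sym hu, normSq_al_sym hu]

theorem csb_g1 (hu : SymOK u κ₁ κ₂) (h : ℝ) (X : Up) : g1 m h (sym κ₁ κ₂ b X) = g1 m h X := by
  simp only [g1, nn_sym hu, normSq_al_sym hu]

theorem csb_g2 (hu : SymOK u κ₁ κ₂) (h : ℝ) (X : Up) : g2 m h (sym κ₁ κ₂ b X) = g2 m h X := by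
  simp only [g2, nn_sym hu, normSq_al_sym hu]

theorem csb_ff {κ : ℂ} (hu : SymOK u κ κ) (h : ℝ) (X : Up) :
    VF m h (sym κ κ false X) = sym κ κ false (VF m h X) := by
  have hc := csb_conj hu.1
  have f0 : ff (sym κ κ false X) 0 = κ ^ 2 * ff X 0 := by
    simp only [ff, sym, Matrix.cons_val_zero, Matrix.cons_val_one, Matrix.cons_val, if_false, Bool.false_eq_true]
    ring
  have f1 : ff (sym κ κ false X) 1 = κ ^ 2 * ff X 1 := by
    simp only [ff, sym, Matrix.cons_val_zero, Matrix.cons_val_one, Matrix.cons_val, if_false, Bool.false_eq_true]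
    ring
  have f2 : ff (sym κ κ false X) 2 = κ ^ 2 * ff X 2 := by
    simp only [ff, sym, Matrix.cons_val_zero, Matrix.cons_val_one, Matrix.cons_val, if_false, Bool.false_eq_true]
    ring
  have a0 : al (sym κ κ false X) 0 = al X 0 := by
    simp only [al, sym, Matrix.cons_val_zero, Matrix.cons_val_one, Matrix.cons_val, if_false, Bool.false_eq_true,
      map_mul]
    linear_combination (conj X.2.1 * X.2.2.1 - conj X.1 * X.2.2.2) * hc
  have a1 : al (sym κ κ false X) 1 = al X 1 := by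
    simp only [al, sym, Matrix.cons_val_zero, Matrix.cons_val_one, Matrix.cons_val, if_false, Bool.false_eq_true,
      map_mul]
    linear_combination (conj X.2.1 * X.2.2.1 + conj X.1 * X.2.2.2) * hc
  have a2 : al (sym κ κ false X) 2 = al X 2 := by
    simp only [al, sym, Matrix.cons_val_zero, Matrix.cons_val_one, Matrix.cons_val, if_false, Bool.false_eq_true,
      map_mul]
    linear_combination (conj X.1 * X.2.2.1 - conj X.2.1 * X.2.2.2) * hc
  simp only [VF, nn_sym hu, csb_g0 hu, csb_g1 hu, csb_g2 hu, f0, f1, f2, a0, a1, a2]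
  simp only [sym, if_false, Bool.false_eq_true, map_mul]
  refine Prod.ext ?_ (Prod.ext ?_ (Prod.ext ?_ ?_))
  · dsimp only
    ring
  · dsimp only
    ring
  · dsimp only
    linear_combination (-(4 * (g0 m h X : ℂ) * conj X.1 * ff X 0 + 4 * (g1 m h X : ℂ) * conj X.1 * ff X 1 +
      4 * (g2 m h X : ℂ) * conj X.2.1 * ff X 2)) * κ * hc
  · dsimp only
    linear_combination (-(4 * (g0 m h X : ℂ) * conj X.2.1 * ff X 0 - 4 * (g1 m h X : ℂ) * conj X.2.1 * ff X 1 +
      4 * (g2 m h X : ℂ) * conj X.1 * ff X 2)) * κ * hc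

theorem csb_nf {κ : ℂ} (hu : SymOK u κ (-κ)) (h : ℝ) (X : Up) :
    VF m h (sym κ (-κ) false X) = sym κ (-κ) false (VF m h X) := by
  have hc := csb_conj hu.1
  have f0 : ff (sym κ (-κ) false X) 0 = κ ^ 2 * ff X 0 := by
    simp only [ff, sym, Matrix.cons_val_zero, Matrix.cons_val_one, Matrix.cons_val, if_false, Bool.false_eq_true]
    ring
  have f1 : ff (sym κ (-κ) false X) 1 = κ ^ 2 * ff X 1 := by
    simp only [ff, sym, Matrix.cons_val_zero, Matrix.cons_val_one, Matrix.cons_val, if_false, Bool.false_eq_true]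
    ring
  have f2 : ff (sym κ (-κ) false X) 2 = -(κ ^ 2 * ff X 2) := by
    simp only [ff, sym, Matrix.cons_val_zero, Matrix.cons_val_one, Matrix.cons_val, if_false, Bool.false_eq_true]
    ring
  have a0 : al (sym κ (-κ) false X) 0 = -al X 0 := by
    simp only [al, sym, Matrix.cons_val_zero, Matrix.cons_val_one, Matrix.cons_val, if_false, Bool.false_eq_true,
      map_mul, map_neg]
    linear_combination (-(conj X.2.1 * X.2.2.1 - conj X.1 * X.2.2.2)) * hc
  have a1 : al (sym κ (-κ) false X) 1 = -al X 1 := by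
    simp only [al, sym, Matrix.cons_val_zero, Matrix.cons_val_one, Matrix.cons_val, if_false, Bool.false_eq_true,
      map_mul, map_neg]
    linear_combination (-(conj X.2.1 * X.2.2.1 + conj X.1 * X.2.2.2)) * hc
  have a2 : al (sym κ (-κ) false X) 2 = al X 2 := by
    simp only [al, sym, Matrix.cons_val_zero, Matrix.cons_val_one, Matrix.cons_val, if_false, Bool.false_eq_true,
      map_mul, map_neg]
    linear_combination (conj X.1 * X.2.2.1 - conj X.2.1 * X.2.2.2) * hc
  simp only [VF, nn_sym hu, csb_g0 hu, csb_g1 hu, csb_g2 hu, f0, f1, f2, a0, a1, a2]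
  simp only [sym, if_false, Bool.false_eq_true, map_mul, map_neg]
  refine Prod.ext ?_ (Prod.ext ?_ (Prod.ext ?_ ?_))
  · dsimp only
    ring
  · dsimp only
    ring
  · dsimp only
    linear_combination (-(4 * (g0 m h X : ℂ) * conj X.1 * ff X 0 + 4 * (g1 m h X : ℂ) * conj X.1 * ff X 1 +
      4 * (g2 m h X : ℂ) * conj X.2.1 * ff X 2)) * κ * hc
  · dsimp only
    linear_combination (4 * (g0 m h X : ℂ) * conj X.2.1 * ff X 0 - 4 * (g1 m h X : ℂ) * conj X.2.1 * ff X 1 +
      4 * (g2 m h X : ℂ) * conj X.1 * ff X 2) * κ * hc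

theorem csb_ft {κ : ℂ} (hu : SymOK u κ κ) (h : ℝ) (X : Up) :
    VF m h (sym κ κ true X) = sym κ κ true (VF m h X) := by
  have hc := csb_conj hu.1
  have f0 : ff (sym κ κ true X) 0 = κ ^ 2 * ff X 0 := by
    simp only [ff, sym, Matrix.cons_val_zero, Matrix.cons_val_one, Matrix.cons_val, if_true]
    ring
  have f1 : ff (sym κ κ true X) 1 = -(κ ^ 2 * ff X 1) := by
    simp only [ff, sym, Matrix.cons_val_zero, Matrix.cons_val_one, Matrix.cons_val, if_true]
    ring
  have f2 : ff (sym κ κ true X) 2 = κ ^ 2 * ff X 2 := by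
    simp only [ff, sym, Matrix.cons_val_zero, Matrix.cons_val_one, Matrix.cons_val, if_true]
    ring
  have a0 : al (sym κ κ true X) 0 = -al X 0 := by
    simp only [al, sym, Matrix.cons_val_zero, Matrix.cons_val_one, Matrix.cons_val, if_true,
      map_mul]
    linear_combination (-(conj X.2.1 * X.2.2.1 - conj X.1 * X.2.2.2)) * hc
  have a1 : al (sym κ κ true X) 1 = al X 1 := by
    simp only [al, sym, Matrix.cons_val_zero, Matrix.cons_val_one, Matrix.cons_val, if_true,
      map_mul]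
    linear_combination (conj X.2.1 * X.2.2.1 + conj X.1 * X.2.2.2) * hc
  have a2 : al (sym κ κ true X) 2 = -al X 2 := by
    simp only [al, sym, Matrix.cons_val_zero, Matrix.cons_val_one, Matrix.cons_val, if_true,
      map_mul]
    linear_combination (-(conj X.1 * X.2.2.1 - conj X.2.1 * X.2.2.2)) * hc
  simp only [VF, nn_sym hu, csb_g0 hu, csb_g1 hu, csb_g2 hu, f0, f1, f2, a0, a1, a2]
  simp only [sym, if_true, map_mul, map_neg]
  refine Prod.ext ?_ (Prod.ext ?_ (Prod.ext ?_ ?_))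
  · dsimp only
    ring
  · dsimp only
    ring
  · dsimp only
    linear_combination (-(4 * (g0 m h X : ℂ) * conj X.2.1 * ff X 0 - 4 * (g1 m h X : ℂ) * conj X.2.1 * ff X 1 +
      4 * (g2 m h X : ℂ) * conj X.1 * ff X 2)) * κ * hc
  · dsimp only
    linear_combination (-(4 * (g0 m h X : ℂ) * conj X.1 * ff X 0 + 4 * (g1 m h X : ℂ) * conj X.1 * ff X 1 +
      4 * (g2 m h X : ℂ) * conj X.2.1 * ff X 2)) * κ * hc

theorem csb_nt {κ : ℂ} (hu : SymOK u κ (-κ)) (h : ℝ) (X : Up) :
    VF m h (sym κ (-κ) true X) = sym κ (-κ) true (VF m h X) := by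
  have hc := csb_conj hu.1
  have f0 : ff (sym κ (-κ) true X) 0 = κ ^ 2 * ff X 0 := by
    simp only [ff, sym, Matrix.cons_val_zero, Matrix.cons_val_one, Matrix.cons_val, if_true]
    ring
  have f1 : ff (sym κ (-κ) true X) 1 = -(κ ^ 2 * ff X 1) := by
    simp only [ff, sym, Matrix.cons_val_zero, Matrix.cons_val_one, Matrix.cons_val, if_true]
    ring
  have f2 : ff (sym κ (-κ) true X) 2 = -(κ ^ 2 * ff X 2) := by
    simp only [ff, sym, Matrix.cons_val_zero, Matrix.cons_val_one, Matrix.cons_val, if_true]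
    ring
  have a0 : al (sym κ (-κ) true X) 0 = al X 0 := by
    simp only [al, sym, Matrix.cons_val_zero, Matrix.cons_val_one, Matrix.cons_val, if_true,
      map_mul, map_neg]
    linear_combination (conj X.2.1 * X.2.2.1 - conj X.1 * X.2.2.2) * hc
  have a1 : al (sym κ (-κ) true X) 1 = -al X 1 := by
    simp only [al, sym, Matrix.cons_val_zero, Matrix.cons_val_one, Matrix.cons_val, if_true,
      map_mul, map_neg]
    linear_combination (-(conj X.2.1 * X.2.2.1 + conj X.1 * X.2.2.2)) * hc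
  have a2 : al (sym κ (-κ) true X) 2 = -al X 2 := by
    simp only [al, sym, Matrix.cons_val_zero, Matrix.cons_val_one, Matrix.cons_val, if_true,
      map_mul, map_neg]
    linear_combination (-(conj X.1 * X.2.2.1 - conj X.2.1 * X.2.2.2)) * hc
  simp only [VF, nn_sym hu, csb_g0 hu, csb_g1 hu, csb_g2 hu, f0, f1, f2, a0, a1, a2]
  simp only [sym, if_true, map_mul, map_neg]
  refine Prod.ext ?_ (Prod.ext ?_ (Prod.ext ?_ ?_))
  · dsimp only
    ring
  · dsimp only
    ring
  · dsimp only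
    linear_combination (-(4 * (g0 m h X : ℂ) * conj X.2.1 * ff X 0 - 4 * (g1 m h X : ℂ) * conj X.2.1 * ff X 1 +
      4 * (g2 m h X : ℂ) * conj X.1 * ff X 2)) * κ * hc
  · dsimp only
    linear_combination (4 * (g0 m h X : ℂ) * conj X.1 * ff X 0 + 4 * (g1 m h X : ℂ) * conj X.1 * ff X 1 +
      4 * (g2 m h X : ℂ) * conj X.2.1 * ff X 2) * κ * hc

/-- Proof.  `κ₂ = ± κ₁`; insert the behaviour of `ff`, `al` (see `pp_sym`) and the invariance of
`nn`, `g0, g1, g2` in the definition of `VF`. -/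
theorem VF_sym (hu : SymOK u κ₁ κ₂) (h : ℝ) (X : Up) :
    VF m h (sym κ₁ κ₂ b X) = sym κ₁ κ₂ b (VF m h X) := by
  rcases sq_eq_sq_iff_eq_or_eq_neg.1 hu.2.1 with h1 | h1
  · rw [h1] at hu ⊢
    cases b
    · exact csb_ff hu h X
    · exact csb_ft hu h X
  · rw [h1] at hu ⊢
    cases b
    · exact csb_nf hu h X
    · exact csb_nt hu h X

theorem hasDerivAt_sym {c : ℝ → Up} {c' : Up} {s : ℝ} (hc : HasDerivAt c c' s) :
    HasDerivAt (fun s => sym κ₁ κ₂ b (c s)) (sym κ₁ κ₂ b c') s := by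
  obtain ⟨L, hL⟩ := exists_symL κ₁ κ₂ b
  have h1 : HasDerivAt (fun s => L (c s)) (L c') s := L.hasFDerivAt.comp_hasDerivAt s hc
  simpa only [hL] using h1

end Pool.Agent.MP_5027f4_cont
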