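import Pool.Agent.Lib_MP_5027f4_cont.CDefs

/-!
# The regularized equations of motion in the variables `ff`, `al`, `bet`
-/

open Set Filter Topology Metric
open scoped ComplexConjugate ContDiff
open Pool.Agent.MP_5027f4_mp

namespace Pool.Agent.MP_5027f4_cont

/-- derivatives of `ff` along the regularized flow -/
noncomputable def df (m : Fin 3 → ℝ) (X : Up) : Fin 3 → ℂ :=
  let w0 : ℂ := ((nn X 0 / m 0 : ℝ) : ℂ)
  let w1 : ℂ := ((nn X 1 / m 1 : ℝ) : ℂ)
  let w2 : ℂ := ((nn X 2 / m 2 : ℝ) : ℂ)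
  ![(w1 * ff X 2 * al X 1 + w2 * ff X 1 * al X 2) / 8,
    (w0 * ff X 2 * al X 0 + w2 * ff X 0 * al X 2) / 8,
    (w1 * ff X 0 * al X 1 - w0 * ff X 1 * al X 0) / 8]

/-- derivatives of `al` along the regularized flow -/
noncomputable def da (m : Fin 3 → ℝ) (h : ℝ) (X : Up) : Fin 3 → ℂ :=
  let w0 : ℂ := ((nn X 0 / m 0 : ℝ) : ℂ)
  let w1 : ℂ := ((nn X 1 / m 1 : ℝ) : ℂ)
  let w2 : ℂ := ((nn X 2 / m 2 : ℝ) : ℂ)
  ![-4 * ((g1 m h X : ℂ) * ff X 1 * conj (ff X 2) - (g2 m h X : ℂ) * ff X 2 * conj (ff X 1)) +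
      (w1 * conj (al X 1) * al X 2 - w2 * conj (al X 2) * al X 1) / 8,
    -4 * ((g0 m h X : ℂ) * ff X 0 * conj (ff X 2) + (g2 m h X : ℂ) * ff X 2 * conj (ff X 0)) -
      (w0 * conj (al X 0) * al X 2 + w2 * conj (al X 2) * al X 0) / 8,
    -4 * ((g0 m h X : ℂ) * ff X 0 * conj (ff X 1) + (g1 m h X : ℂ) * ff X 1 * conj (ff X 0)) +
      (w0 * conj (al X 0) * al X 1 + w1 * conj (al X 1) * al X 0) / 8]

variable {m : Fin 3 → ℝ} {h s : ℝ} {c : ℝ → Up}

theorem hd1 {c' : Up} (hc : HasDerivAt c c' s) : HasDerivAt (fun s => (c s).1) c'.1 s :=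
  (ContinuousLinearMap.fst ℝ ℂ (ℂ × ℂ × ℂ)).hasFDerivAt.comp_hasDerivAt s hc

theorem hdr {c' : Up} (hc : HasDerivAt c c' s) : HasDerivAt (fun s => (c s).2) c'.2 s :=
  (ContinuousLinearMap.snd ℝ ℂ (ℂ × ℂ × ℂ)).hasFDerivAt.comp_hasDerivAt s hc

theorem hdr' {c' : Up} (hc : HasDerivAt c c' s) : HasDerivAt (fun s => (c s).2.2) c'.2.2 s :=
  (ContinuousLinearMap.snd ℝ ℂ (ℂ × ℂ)).hasFDerivAt.comp_hasDerivAt s (hdr hc)

theorem hd2 {c' : Up} (hc : HasDerivAt c c' s) : HasDerivAt (fun s => (c s).2.1) c'.2.1 s :=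
  (ContinuousLinearMap.fst ℝ ℂ (ℂ × ℂ)).hasFDerivAt.comp_hasDerivAt s (hdr hc)

theorem hd3 {c' : Up} (hc : HasDerivAt c c' s) : HasDerivAt (fun s => (c s).2.2.1) c'.2.2.1 s :=
  (ContinuousLinearMap.fst ℝ ℂ ℂ).hasFDerivAt.comp_hasDerivAt s (hdr' hc)

theorem hd4 {c' : Up} (hc : HasDerivAt c c' s) : HasDerivAt (fun s => (c s).2.2.2) c'.2.2.2 s :=
  (ContinuousLinearMap.snd ℝ ℂ ℂ).hasFDerivAt.comp_hasDerivAt s (hdr' hc)

theorem hasDerivAt_ff (hc : HasDerivAt c (VF m h (c s)) s) (k : Fin 3) :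
    HasDerivAt (fun s => ff (c s) k) (df m (c s) k) s := by
  have z := hd1 hc
  have e := hd2 hc
  fin_cases k
  · have := (z.pow 2).add (e.pow 2)
    refine HasDerivAt.congr_deriv this ?_
    simp only [VF, df, ff, al, Matrix.cons_val_zero, Matrix.cons_val_one, Matrix.cons_val,
      Fin.zero_eta, Nat.cast_ofNat, Nat.add_one_sub_one, pow_one]
    ring
  · have := (z.pow 2).sub (e.pow 2)
    refine HasDerivAt.congr_deriv this ?_
    simp only [VF, df, ff, al, Matrix.cons_val_zero, Matrix.cons_val_one, Matrix.cons_val,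
      Fin.mk_one, Nat.cast_ofNat, Nat.add_one_sub_one, pow_one]
    ring
  · have := (z.const_mul 2).mul e
    refine HasDerivAt.congr_deriv this ?_
    simp only [VF, df, ff, al, Matrix.cons_val_zero, Matrix.cons_val_one, Matrix.cons_val,
      Fin.reduceFinMk]
    ring

theorem hasDerivAt_al (hc : HasDerivAt c (VF m h (c s)) s) (k : Fin 3) :
    HasDerivAt (fun s => al (c s) k) (da m h (c s) k) s := by
  have z := hd1 hc
  have e := hd2 hc
  have p := hd3 hc
  have r := hd4 hc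
  have z' := hasDerivAt_conj z
  have e' := hasDerivAt_conj e
  fin_cases k
  · have := (e'.mul p).sub (z'.mul r)
    refine HasDerivAt.congr_deriv this ?_
    simp only [VF, da, ff, al, Matrix.cons_val_zero, Matrix.cons_val_one, Matrix.cons_val,
      Fin.zero_eta, map_add, map_sub, map_mul, map_pow, map_div₀, map_ofNat, map_neg,
      Complex.conj_ofReal, Complex.conj_conj]
    ring
  · have := (e'.mul p).add (z'.mul r)
    refine HasDerivAt.congr_deriv this ?_
    simp only [VF, da, ff, al, Matrix.cons_val_zero, Matrix.cons_val_one, Matrix.cons_val,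
      Fin.mk_one, map_add, map_sub, map_mul, map_pow, map_div₀, map_ofNat, map_neg,
      Complex.conj_ofReal, Complex.conj_conj]
    ring
  · have := (z'.mul p).sub (e'.mul r)
    refine HasDerivAt.congr_deriv this ?_
    simp only [VF, da, ff, al, Matrix.cons_val_zero, Matrix.cons_val_one, Matrix.cons_val,
      Fin.reduceFinMk, map_add, map_sub, map_mul, map_pow, map_div₀, map_ofNat, map_neg,
      Complex.conj_ofReal, Complex.conj_conj]
    ring

theorem hasDerivAt_bet (hc : HasDerivAt c (VF m h (c s)) s) :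
    HasDerivAt (fun s => bet (c s)) (((-4 * (g0 m h (c s) * nn (c s) 0 + g1 m h (c s) * nn (c s) 1 +
      g2 m h (c s) * nn (c s) 2) : ℝ)) : ℂ) s := by
  have z := hd1 hc
  have e := hd2 hc
  have p := hd3 hc
  have r := hd4 hc
  have z' := hasDerivAt_conj z
  have e' := hasDerivAt_conj e
  have := (z'.mul p).add (e'.mul r)
  refine HasDerivAt.congr_deriv this ?_
  push_cast
  rw [nn_coe, nn_coe, nn_coe]
  simp only [VF, ff, al, Matrix.cons_val_zero, Matrix.cons_val_one, Matrix.cons_val,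
    map_add, map_sub, map_mul, map_pow, map_div₀, map_ofNat, map_neg,
    Complex.conj_ofReal, Complex.conj_conj]
  ring

end Pool.Agent.MP_5027f4_cont
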