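import Pool.Agent.Lib_MP_5027f4_cont.CInv
import Pool.Agent.Lib_MP_5027f4_cont.COut
import Pool.Agent.Lib_MP_5027f4_cont.CEnB

/-!
PIECE [CVel] (MP_5027f4_mp, T1).  The projection of the regularized flow is the classical flow.
-/

open Set Filter Topology Metric
open scoped ComplexConjugate ContDiff
open Pool.Agent.MP_5027f4_mp

namespace Pool.Agent.MP_5027f4_cont

variable {m : Fin 3 → ℝ} {h s : ℝ} {c : ℝ → Up}

/-- Proof: `hasDerivAt_qq`, `vv_eq` for the positions, `hasDerivAt_pp` for the velocities. -/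
theorem hasDerivAt_pj (hM : MM m ≠ 0) (hm : ∀ a, m a ≠ 0) (hc : HasDerivAt c (VF m h (c s)) s)
    (hG : Gam m h (c s) = 0) (hn : Nonc (c s)) :
    HasDerivAt (fun s => pj m (c s)) (rho (c s) • fld m (pj m (c s))) s := by
  have h1 : HasDerivAt (fun s => qq m (c s)) (vv m (c s)) s :=
    hasDerivAt_pi.2 fun k => hasDerivAt_qq hM hm hc k
  have h2 : HasDerivAt (fun s => fun k => pp (c s) k / (m k : ℂ))
      (fun k => (((rho (c s) * m k : ℝ) : ℂ) * acc m (qq m (c s)) k) / (m k : ℂ)) s :=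
    hasDerivAt_pi.2 fun k => (hasDerivAt_pp hM hm hc hG k fun i _ => hn i).div_const _
  refine HasDerivAt.congr_deriv (h1.prodMk h2) ?_
  refine Prod.ext ?_ ?_
  · funext k
    show vv m (c s) k = _
    rw [vv_eq (m := m) hn k]
    rfl
  · funext k
    have hk : (m k : ℂ) ≠ 0 := Complex.ofReal_ne_zero.2 (hm k)
    have h4 : (rho (c s) • fld m (pj m (c s))).2 k = ((rho (c s) : ℝ) : ℂ) * acc m (qq m (c s)) k := rfl
    rw [h4]
    show (((rho (c s) * m k : ℝ) : ℂ) * acc m (qq m (c s)) k) / (m k : ℂ) = _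
    rw [Complex.ofReal_mul]
    field_simp

/-- Proof: apply the continuous linear map `prE m`; `prE_coe`, `pE_coe`. -/
theorem hasDerivAt_pE (hM : MM m ≠ 0) (hm : ∀ a, m a ≠ 0) (hc : HasDerivAt c (VF m h (c s)) s)
    (hG : Gam m h (c s) = 0) (hn : Nonc (c s)) :
    HasDerivAt (fun s => pE m (c s)) (rho (c s) • fld₀ m (pE m (c s))) s := by
  have h1 := (prE m).hasFDerivAt.comp_hasDerivAt s (hasDerivAt_pj hM hm hc hG hn)
  refine HasDerivAt.congr_deriv h1 ?_
  rw [map_smul]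
  congr 1
  have h2 : fld m (pj m (c s)) = ((fld₀ m (pE m (c s)) : comSub m) : Ph) := by
    show _ = fld m ((pE m (c s) : comSub m) : Ph)
    rw [pE_coe hm hn]
  rw [h2, prE_coe]

end Pool.Agent.MP_5027f4_cont
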