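import Pool.Agent.Lib_MP_5027f4_cont.Defs

/-!
PIECE [CharBlk] (MP_5027f4_mp, T1).  Characteristic polynomial of a block triangular map.
-/

open Set Filter Topology Metric Polynomial Asymptotics
open scoped ComplexConjugate ContDiff

namespace Pool.Agent.MP_5027f4_cont

private theorem cb_upper {V W ι κ : Type*} [Fintype ι] [DecidableEq ι] [Fintype κ] [DecidableEq κ]
    [AddCommGroup V] [Module ℝ V] [AddCommGroup W]
    [Module ℝ W] [Module.Free ℝ V] [Module.Finite ℝ V] [Module.Free ℝ W] [Module.Finite ℝ W]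
    (b : Module.Basis ι ℝ V) (c : Module.Basis κ ℝ W)
    (A : V →ₗ[ℝ] V) (B : W →ₗ[ℝ] V) (C : V →ₗ[ℝ] W) (D : W →ₗ[ℝ] W) (M : (V × W) →ₗ[ℝ] (V × W))
    (hM : ∀ v w, M (v, w) = (A v + B w, C v + D w)) (h : B = 0 ∨ C = 0) :
    M.charpoly = A.charpoly * D.charpoly := by
  have h1 : LinearMap.toMatrix (b.prod c) (b.prod c) M =
      Matrix.fromBlocks (LinearMap.toMatrix b b A) (LinearMap.toMatrix c b B)
        (LinearMap.toMatrix b c C) (LinearMap.toMatrix c c D) := by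
    ext i j
    rcases i with i | i <;> rcases j with j | j
    · simp [LinearMap.toMatrix_apply, hM]
    · simp [LinearMap.toMatrix_apply, hM]
    · simp [LinearMap.toMatrix_apply, hM]
    · simp [LinearMap.toMatrix_apply, hM]
  rw [← LinearMap.charpoly_toMatrix M (b.prod c), h1, ← LinearMap.charpoly_toMatrix A b,
    ← LinearMap.charpoly_toMatrix D c]
  rcases h with h | h
  · rw [h, map_zero, Matrix.charpoly_fromBlocks_zero₁₂]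
  · rw [h, map_zero, Matrix.charpoly_fromBlocks_zero₂₁]

private theorem cb_id : (LinearMap.id : (ℝ × ℝ) →ₗ[ℝ] (ℝ × ℝ)).charpoly = (X - 1) ^ 2 := by
  rw [← LinearMap.charpoly_toMatrix _ (Module.Basis.finTwoProd ℝ), LinearMap.toMatrix_id,
    Matrix.charpoly_one, Fintype.card_fin]

/-- Characteristic polynomial of the block triangular map
`(g, k, z) ↦ (g + B (k, z), k, K k + A z)`.
Proof: in the basis adapted to the product the matrix is block triangular with diagonal blocks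
`1` (size 2), `1` (size 2), `A` (`Matrix.charpoly_fromBlocks_zero₁₂` twice, `Matrix.charpoly_one`
or a direct computation; see `LinearMap.charpoly_prodMap` for the use of bases). -/
theorem cp_block (B : ((ℝ × ℝ) × (ℂ × ℂ)) →L[ℝ] (ℝ × ℝ)) (K : (ℝ × ℝ) →L[ℝ] (ℂ × ℂ))
    (A : (ℂ × ℂ) →L[ℝ] (ℂ × ℂ))
    (M : ((ℝ × ℝ) × (ℝ × ℝ) × (ℂ × ℂ)) →L[ℝ] ((ℝ × ℝ) × (ℝ × ℝ) × (ℂ × ℂ)))
    (hM : ∀ δ, M δ = (δ.1 + B δ.2, δ.2.1, K δ.2.1 + A δ.2.2)) : cp M = (X - 1) ^ 4 * cp A := by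
  classical
  set N : ((ℝ × ℝ) × (ℂ × ℂ)) →ₗ[ℝ] ((ℝ × ℝ) × (ℂ × ℂ)) :=
    (LinearMap.fst ℝ (ℝ × ℝ) (ℂ × ℂ)).prod
      (((K : (ℝ × ℝ) →ₗ[ℝ] (ℂ × ℂ)).comp (LinearMap.fst ℝ (ℝ × ℝ) (ℂ × ℂ))) +
        ((A : (ℂ × ℂ) →ₗ[ℝ] (ℂ × ℂ)).comp (LinearMap.snd ℝ (ℝ × ℝ) (ℂ × ℂ)))) with hN
  have h1 : N.charpoly = (X - 1) ^ 2 * cp A := by
    rw [← cb_id]
    exact cb_upper (Module.finBasis ℝ (ℝ × ℝ)) (Module.finBasis ℝ (ℂ × ℂ)) LinearMap.id 0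
      (K : (ℝ × ℝ) →ₗ[ℝ] (ℂ × ℂ)) (A : (ℂ × ℂ) →ₗ[ℝ] (ℂ × ℂ)) N (fun v w => by simp [hN])
      (Or.inl rfl)
  have h2 : cp M = (X - 1) ^ 2 * N.charpoly := by
    rw [← cb_id]
    exact cb_upper (Module.finBasis ℝ (ℝ × ℝ)) (Module.finBasis ℝ ((ℝ × ℝ) × (ℂ × ℂ)))
      LinearMap.id (B : ((ℝ × ℝ) × (ℂ × ℂ)) →ₗ[ℝ] (ℝ × ℝ)) 0 N
      (M : ((ℝ × ℝ) × (ℝ × ℝ) × (ℂ × ℂ)) →ₗ[ℝ] ((ℝ × ℝ) × (ℝ × ℝ) × (ℂ × ℂ)))
      (fun v w => by simp [hN, hM]) (Or.inr rfl)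
  rw [h2, h1, ← mul_assoc, ← pow_add]

end Pool.Agent.MP_5027f4_cont
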