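import Pool.Agent.Lib_MP_5027f4_cont.CpCoeff

/-!
PIECE [CharConst] (MP_5027f4_mp, T1).  Isospectral deformations.
-/

open Set Filter Topology Metric Polynomial
open scoped ComplexConjugate ContDiff

namespace Pool.Agent.MP_5027f4_cont

/-- the characteristic polynomial is invariant under conjugation -/
theorem CharConst_conj (M P Q : (ℂ × ℂ) →L[ℝ] (ℂ × ℂ)) (h1 : P * Q = 1) (h2 : Q * P = 1) :
    cp (Q * M * P) = cp M := by
  have a1 : ((P : (ℂ × ℂ) →ₗ[ℝ] (ℂ × ℂ)).comp (Q : (ℂ × ℂ) →ₗ[ℝ] (ℂ × ℂ))) = LinearMap.id := by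
    apply LinearMap.ext
    intro x
    exact congrArg (fun B : (ℂ × ℂ) →L[ℝ] (ℂ × ℂ) => B x) h1
  have a2 : ((Q : (ℂ × ℂ) →ₗ[ℝ] (ℂ × ℂ)).comp (P : (ℂ × ℂ) →ₗ[ℝ] (ℂ × ℂ))) = LinearMap.id := by
    apply LinearMap.ext
    intro x
    exact congrArg (fun B : (ℂ × ℂ) →L[ℝ] (ℂ × ℂ) => B x) h2
  have h3 : ((Q * M * P : (ℂ × ℂ) →L[ℝ] (ℂ × ℂ)) : (ℂ × ℂ) →ₗ[ℝ] (ℂ × ℂ)) =
      (LinearEquiv.ofLinearMap (Q : (ℂ × ℂ) →ₗ[ℝ] (ℂ × ℂ)) (P : (ℂ × ℂ) →ₗ[ℝ] (ℂ × ℂ)) a2 a1).conj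
        (M : (ℂ × ℂ) →ₗ[ℝ] (ℂ × ℂ)) := by
    apply LinearMap.ext
    intro x
    rfl
  unfold cp
  rw [h3, LinearEquiv.charpoly_conj]

/-- an invariant function has vanishing derivative in the direction of a commutator -/
theorem CharConst_inv {g : ((ℂ × ℂ) →L[ℝ] (ℂ × ℂ)) → ℝ}
    (hg : ∀ M P Q : (ℂ × ℂ) →L[ℝ] (ℂ × ℂ), P * Q = 1 → Q * P = 1 → g (Q * M * P) = g M)
    (M H : (ℂ × ℂ) →L[ℝ] (ℂ × ℂ)) {g' : ((ℂ × ℂ) →L[ℝ] (ℂ × ℂ)) →L[ℝ] ℝ}
    (hd : HasFDerivAt g g' M) : g' (M * H - H * M) = 0 := by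
  have h1 := hasDerivAt_exp_smul_const (𝕂 := ℝ) (-H) (0 : ℝ)
  have h2 := hasDerivAt_exp_smul_const (𝕂 := ℝ) H (0 : ℝ)
  have h3 : HasDerivAt (fun u : ℝ => NormedSpace.exp (u • -H) * M * NormedSpace.exp (u • H))
      (NormedSpace.exp ((0 : ℝ) • -H) * -H * M * NormedSpace.exp ((0 : ℝ) • H) +
        NormedSpace.exp ((0 : ℝ) • -H) * M * (NormedSpace.exp ((0 : ℝ) • H) * H)) 0 :=
    (h1.mul_const M).mul h2
  have e1 : (0 : ℝ) • -H = 0 := zero_smul ℝ (-H)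
  have e2 : (0 : ℝ) • H = 0 := zero_smul ℝ H
  rw [e1, e2, NormedSpace.exp_zero, one_mul, one_mul, mul_one, one_mul] at h3
  have h4 : (fun u : ℝ => NormedSpace.exp (u • -H) * M * NormedSpace.exp (u • H)) 0 = M := by
    show NormedSpace.exp ((0 : ℝ) • -H) * M * NormedSpace.exp ((0 : ℝ) • H) = M
    rw [e1, e2, NormedSpace.exp_zero, one_mul, mul_one]
  have h5 : HasDerivAt (fun u : ℝ => g (NormedSpace.exp (u • -H) * M * NormedSpace.exp (u • H)))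
      (g' (-H * M + M * H)) 0 := by
    refine HasFDerivAt.comp_hasDerivAt (l := g) (0 : ℝ) ?_ h3
    show HasFDerivAt g g' ((fun u : ℝ => NormedSpace.exp (u • -H) * M * NormedSpace.exp (u • H)) 0)
    rw [h4]
    exact hd
  have h6 : (fun u : ℝ => g (NormedSpace.exp (u • -H) * M * NormedSpace.exp (u • H))) =
      fun _ => g M := by
    funext u
    let _ : NormedAlgebra ℚ ((ℂ × ℂ) →L[ℝ] (ℂ × ℂ)) :=
      NormedAlgebra.restrictScalars ℚ ℝ ((ℂ × ℂ) →L[ℝ] (ℂ × ℂ))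
    apply hg
    · rw [smul_neg, ← NormedSpace.exp_add_of_commute ((Commute.refl (u • H)).neg_right),
        add_neg_cancel, NormedSpace.exp_zero]
    · rw [smul_neg, ← NormedSpace.exp_add_of_commute ((Commute.refl (u • H)).neg_left),
        neg_add_cancel, NormedSpace.exp_zero]
  rw [h6] at h5
  have h7 := h5.unique (hasDerivAt_const (0 : ℝ) (g M))
  have h8 : M * H - H * M = -H * M + M * H := by
    have h9 : -H * M = -(H * M) := neg_mul H M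
    rw [h9]
    abel
  rw [h8]
  exact h7

/-- Proof.  Let the derivative property hold on `(c₀ - ε, c₀ + ε)`.  For real `x` put
`f c = (cp (A c)).eval x = det (x - A c)`.  Where `f c ≠ 0`, `B = x - A c` is invertible,
`f' (c) = - det B * trace (B⁻¹ A') ` (derivative of `det` at an invertible matrix, from
`Matrix.derivative_det_one_add_X_smul` or the product structure) and
`trace (B⁻¹ (A H - H A)) = trace (B⁻¹ A H) - trace (A B⁻¹ H) = 0` as `B⁻¹` commutes with `A`.  So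
`f` is differentiable with `f f' = 0`, i.e. `(f²)' = 0` (at points with `f c = 0` the derivative of
`f²` is `2 f f' = 0` too): `f²` is constant, and `f` is continuous, so `f` is constant.  The two
polynomials agree at all real `x`. -/
theorem cp_const {A : ℝ → (ℂ × ℂ) →L[ℝ] (ℂ × ℂ)} {c₀ : ℝ}
    (h : ∀ᶠ c in 𝓝 c₀, ∃ H : (ℂ × ℂ) →L[ℝ] (ℂ × ℂ),
      HasDerivAt A ((A c).comp H - H.comp (A c)) c) : ∀ᶠ c in 𝓝 c₀, cp (A c) = cp (A c₀) := by
  obtain ⟨ε, hε, hball⟩ := Metric.eventually_nhds_iff_ball.1 h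
  refine Metric.eventually_nhds_iff_ball.2 ⟨ε, hε, fun c hc => ?_⟩
  apply Polynomial.ext
  intro i
  have hd : ∀ x ∈ ball c₀ ε, HasDerivAt (fun c => (cp (A c)).coeff i) 0 x := by
    intro x hx
    obtain ⟨H, hH⟩ := hball x hx
    have h1 : DifferentiableAt ℝ
        (fun B : (ℂ × ℂ) →L[ℝ] (ℂ × ℂ) => (cp B).coeff i) (A x) :=
      (contDiff_cp_coeff (E := ℂ × ℂ) i).contDiffAt.differentiableAt (by simp)
    have h2 := h1.hasFDerivAt
    have h3 := HasFDerivAt.comp_hasDerivAt (l := fun B : (ℂ × ℂ) →L[ℝ] (ℂ × ℂ) => (cp B).coeff i)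
      x h2 hH
    have h4 := CharConst_inv (g := fun B : (ℂ × ℂ) →L[ℝ] (ℂ × ℂ) => (cp B).coeff i)
      (fun M P Q h1 h2 => by rw [CharConst_conj M P Q h1 h2]) (A x) H h2
    have h5 : (A x).comp H - H.comp (A x) = A x * H - H * A x := rfl
    rw [h5, h4] at h3
    exact h3
  refine IsOpen.is_const_of_fderiv_eq_zero (𝕜 := ℝ) isOpen_ball
    (convex_ball c₀ ε).isPreconnected
    (fun x hx => (hd x hx).differentiableAt.differentiableWithinAt) ?_ hc (mem_ball_self hε)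
  intro x hx
  have h1 := (hd x hx).hasFDerivAt.fderiv
  rw [h1]
  simp

end Pool.Agent.MP_5027f4_cont
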