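import Pool.Agent.Lib_MP_5027f4_cont.CharBlk

/-!
PIECE [CharRet] (MP_5027f4_mp, T1).  The characteristic polynomial of the return map.
-/

open Set Filter Topology Metric Polynomial Asymptotics
open scoped ComplexConjugate ContDiff

namespace Pool.Agent.MP_5027f4_cont

variable {E : Type*} [NormedAddCommGroup E] [NormedSpace ℝ E] [FiniteDimensional ℝ E]
  {om : E →L[ℝ] E →L[ℝ] ℝ} {x₀ : E} {G : (ℝ × ℝ) × E → E} {μ : E → ℝ × ℝ}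
  {Θ : (ℝ × ℝ) × (ℝ × ℝ) × (ℂ × ℂ) → E} {Ξ : E → (ℝ × ℝ) × (ℝ × ℝ) × (ℂ × ℂ)} {Φ : E → E}

/-- Proof.  Differentiate `Φ ∘ Θ = Θ ∘ τ`, `τ (g, k, z) = (g + b (k, z), k, P (k, z))` at `p`, a
fixed point of `τ`: `DΦ (Θ p) ∘ DΘ p = DΘ p ∘ Dτ p`.  `DΘ p` is invertible (derivatives of
`hC.left`, `hC.right`, valid on neighbourhoods), so `cp (DΦ (Θ p)) = cp (Dτ p)`
(`LinearEquiv.charpoly_conj`), and `cp_block`. -/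
theorem cp_ret {b : (ℝ × ℝ) × (ℂ × ℂ) → ℝ × ℝ} {P : (ℝ × ℝ) × (ℂ × ℂ) → ℂ × ℂ}
    (hC : DChart om x₀ G μ Θ Ξ) (hR : RetMap (μ x₀) Θ Φ b P) (hΦ : AnalyticAt ℝ Φ x₀)
    (hΦ0 : Φ x₀ = x₀) :
    ∀ᶠ p : (ℝ × ℝ) × (ℝ × ℝ) × (ℂ × ℂ) in 𝓝 (0, μ x₀, 0), b p.2 = 0 → P p.2 = p.2.2 →
      cp (fderiv ℝ Φ (Θ p)) = (X - 1) ^ 4 * cp (dz P p.2) := by
  set p₀ : (ℝ × ℝ) × (ℝ × ℝ) × (ℂ × ℂ) := (0, μ x₀, 0) with hp₀
  have hΘc : Tendsto Θ (𝓝 p₀) (𝓝 x₀) := by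
    have h1 := hC.an.continuousAt.tendsto
    rw [hC.base] at h1
    exact h1
  have hsnd : Tendsto (fun p : (ℝ × ℝ) × (ℝ × ℝ) × (ℂ × ℂ) => p.2) (𝓝 p₀) (𝓝 (μ x₀, 0)) :=
    continuous_snd.tendsto p₀
  have e1 : ∀ᶠ p in 𝓝 p₀, DifferentiableAt ℝ Θ p :=
    hC.an.eventually_analyticAt.mono fun p hp => hp.differentiableAt
  have e2 : ∀ᶠ p in 𝓝 p₀, DifferentiableAt ℝ Φ (Θ p) :=
    hΘc.eventually (hΦ.eventually_analyticAt.mono fun y hy => hy.differentiableAt)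
  have e3 : ∀ᶠ p in 𝓝 p₀, DifferentiableAt ℝ Ξ (Θ p) :=
    hΘc.eventually (hC.anX.eventually_analyticAt.mono fun y hy => hy.differentiableAt)
  have e4 : ∀ᶠ p in 𝓝 p₀, DifferentiableAt ℝ b p.2 :=
    hsnd.eventually (hR.anb.eventually_analyticAt.mono fun y hy => hy.differentiableAt)
  have e5 : ∀ᶠ p in 𝓝 p₀, DifferentiableAt ℝ P p.2 :=
    hsnd.eventually (hR.anP.eventually_analyticAt.mono fun y hy => hy.differentiableAt)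
  have e6 : ∀ᶠ p in 𝓝 p₀, ∀ᶠ q in 𝓝 p, Φ (Θ q) = Θ (q.1 + b q.2, q.2.1, P q.2) :=
    eventually_eventually_nhds.2 hR.eq
  have e7 : ∀ᶠ p in 𝓝 p₀, ∀ᶠ q in 𝓝 p, Ξ (Θ q) = q := eventually_eventually_nhds.2 hC.left
  have e8 : ∀ᶠ p in 𝓝 p₀, ∀ᶠ y in 𝓝 (Θ p), Θ (Ξ y) = y :=
    hΘc.eventually (eventually_eventually_nhds.2 hC.right)
  filter_upwards [e1, e2, e3, e4, e5, e6, e7, e8] with p d1 d2 d3 d4 d5 d6 d7 d8 hb hP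
  -- the map `τ`
  set τ : (ℝ × ℝ) × (ℝ × ℝ) × (ℂ × ℂ) → (ℝ × ℝ) × (ℝ × ℝ) × (ℂ × ℂ) :=
    fun q => (q.1 + b q.2, q.2.1, P q.2) with hτ
  have hτp : τ p = p := by
    simp only [hτ, hb, hP, add_zero]
  have hΞp : Ξ (Θ p) = p := d7.self_of_nhds
  have hfst : HasFDerivAt (fun q : (ℝ × ℝ) × (ℝ × ℝ) × (ℂ × ℂ) => q.1)
      (ContinuousLinearMap.fst ℝ (ℝ × ℝ) ((ℝ × ℝ) × (ℂ × ℂ))) p := hasFDerivAt_fst
  have hsn : HasFDerivAt (fun q : (ℝ × ℝ) × (ℝ × ℝ) × (ℂ × ℂ) => q.2)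
      (ContinuousLinearMap.snd ℝ (ℝ × ℝ) ((ℝ × ℝ) × (ℂ × ℂ))) p := hasFDerivAt_snd
  have hk : HasFDerivAt (fun q : (ℝ × ℝ) × (ℝ × ℝ) × (ℂ × ℂ) => q.2.1)
      ((ContinuousLinearMap.fst ℝ (ℝ × ℝ) (ℂ × ℂ)).comp
        (ContinuousLinearMap.snd ℝ (ℝ × ℝ) ((ℝ × ℝ) × (ℂ × ℂ)))) p :=
    (hasFDerivAt_fst (𝕜 := ℝ) (p := p.2)).comp p hsn
  have hbτ : HasFDerivAt (fun q : (ℝ × ℝ) × (ℝ × ℝ) × (ℂ × ℂ) => b q.2)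
      ((fderiv ℝ b p.2).comp (ContinuousLinearMap.snd ℝ (ℝ × ℝ) ((ℝ × ℝ) × (ℂ × ℂ)))) p :=
    HasFDerivAt.comp p d4.hasFDerivAt hsn
  have hPτ : HasFDerivAt (fun q : (ℝ × ℝ) × (ℝ × ℝ) × (ℂ × ℂ) => P q.2)
      ((fderiv ℝ P p.2).comp (ContinuousLinearMap.snd ℝ (ℝ × ℝ) ((ℝ × ℝ) × (ℂ × ℂ)))) p :=
    HasFDerivAt.comp p d5.hasFDerivAt hsn
  have hτd := (hfst.add hbτ).prodMk (hk.prodMk hPτ)
  set M := (ContinuousLinearMap.fst ℝ (ℝ × ℝ) ((ℝ × ℝ) × (ℂ × ℂ)) +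
      (fderiv ℝ b p.2).comp (ContinuousLinearMap.snd ℝ (ℝ × ℝ) ((ℝ × ℝ) × (ℂ × ℂ)))).prod
    (((ContinuousLinearMap.fst ℝ (ℝ × ℝ) (ℂ × ℂ)).comp
        (ContinuousLinearMap.snd ℝ (ℝ × ℝ) ((ℝ × ℝ) × (ℂ × ℂ)))).prod
      ((fderiv ℝ P p.2).comp (ContinuousLinearMap.snd ℝ (ℝ × ℝ) ((ℝ × ℝ) × (ℂ × ℂ))))) with hM
  have hτM : HasFDerivAt τ M p := hτd
  have hblock : cp M = (X - 1) ^ 4 * cp (dz P p.2) := by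
    refine cp_block (fderiv ℝ b p.2)
      ((fderiv ℝ P p.2).comp (ContinuousLinearMap.inl ℝ (ℝ × ℝ) (ℂ × ℂ))) (dz P p.2) M ?_
    intro δ
    have h1 : fderiv ℝ P p.2 δ.2 = fderiv ℝ P p.2 (δ.2.1, 0) + fderiv ℝ P p.2 (0, δ.2.2) := by
      rw [← map_add]
      simp
    simp only [hM, dz, ContinuousLinearMap.prod_apply, ContinuousLinearMap.add_apply,
      ContinuousLinearMap.comp_apply, ContinuousLinearMap.coe_fst', ContinuousLinearMap.coe_snd',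
      ContinuousLinearMap.inl_apply, ContinuousLinearMap.inr_apply]
    rw [h1]
  -- the two inverse relations
  have hΘd := d1.hasFDerivAt
  have hinv1 : (fderiv ℝ Ξ (Θ p)).comp (fderiv ℝ Θ p) = ContinuousLinearMap.id ℝ _ := by
    have h1 : HasFDerivAt (fun q => Ξ (Θ q)) ((fderiv ℝ Ξ (Θ p)).comp (fderiv ℝ Θ p)) p :=
      HasFDerivAt.comp p d3.hasFDerivAt hΘd
    have h2 : HasFDerivAt (fun q => Ξ (Θ q)) (ContinuousLinearMap.id ℝ _) p :=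
      (hasFDerivAt_id p).congr_of_eventuallyEq d7
    exact h1.unique h2
  have hinv2 : (fderiv ℝ Θ p).comp (fderiv ℝ Ξ (Θ p)) = ContinuousLinearMap.id ℝ _ := by
    have hΘd' : HasFDerivAt Θ (fderiv ℝ Θ p) (Ξ (Θ p)) := by rw [hΞp]; exact hΘd
    have h1 : HasFDerivAt (fun y => Θ (Ξ y)) ((fderiv ℝ Θ p).comp (fderiv ℝ Ξ (Θ p))) (Θ p) :=
      HasFDerivAt.comp (Θ p) hΘd' d3.hasFDerivAt
    have h2 : HasFDerivAt (fun y => Θ (Ξ y)) (ContinuousLinearMap.id ℝ _) (Θ p) :=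
      (hasFDerivAt_id (Θ p)).congr_of_eventuallyEq d8
    exact h1.unique h2
  have hconj : (fderiv ℝ Φ (Θ p)).comp (fderiv ℝ Θ p) = (fderiv ℝ Θ p).comp M := by
    have h1 : HasFDerivAt (fun q => Φ (Θ q)) ((fderiv ℝ Φ (Θ p)).comp (fderiv ℝ Θ p)) p :=
      HasFDerivAt.comp p d2.hasFDerivAt hΘd
    have hΘd' : HasFDerivAt Θ (fderiv ℝ Θ p) (τ p) := by rw [hτp]; exact hΘd
    have h2 : HasFDerivAt (fun q => Θ (τ q)) ((fderiv ℝ Θ p).comp M) p :=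
      HasFDerivAt.comp p hΘd' hτM
    have h3 : HasFDerivAt (fun q => Φ (Θ q)) ((fderiv ℝ Θ p).comp M) p :=
      h2.congr_of_eventuallyEq d6
    exact h1.unique h3
  -- conjugation
  let e : ((ℝ × ℝ) × (ℝ × ℝ) × (ℂ × ℂ)) ≃ₗ[ℝ] E :=
    LinearEquiv.ofLinear (fderiv ℝ Θ p : ((ℝ × ℝ) × (ℝ × ℝ) × (ℂ × ℂ)) →ₗ[ℝ] E)
      (fderiv ℝ Ξ (Θ p) : E →ₗ[ℝ] ((ℝ × ℝ) × (ℝ × ℝ) × (ℂ × ℂ)))
      (by
        ext y
        exact congrArg (fun L : E →L[ℝ] E => L y) hinv2)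
      (by
        refine LinearMap.ext fun δ => ?_
        exact congrArg (fun L : ((ℝ × ℝ) × (ℝ × ℝ) × (ℂ × ℂ)) →L[ℝ]
          ((ℝ × ℝ) × (ℝ × ℝ) × (ℂ × ℂ)) => L δ) hinv1)
  have hcj : e.conj (M : ((ℝ × ℝ) × (ℝ × ℝ) × (ℂ × ℂ)) →ₗ[ℝ] _) =
      (fderiv ℝ Φ (Θ p) : E →ₗ[ℝ] E) := by
    refine LinearMap.ext fun y => ?_
    rw [LinearEquiv.conj_apply_apply]
    have h1 : e.symm y = fderiv ℝ Ξ (Θ p) y := rfl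
    have h2 : ∀ δ, e δ = fderiv ℝ Θ p δ := fun δ => rfl
    rw [h2, h1]
    have h3 := congrArg (fun L : ((ℝ × ℝ) × (ℝ × ℝ) × (ℂ × ℂ)) →L[ℝ] E =>
      L (fderiv ℝ Ξ (Θ p) y)) hconj
    have h4 := congrArg (fun L : E →L[ℝ] E => L y) hinv2
    simp only [ContinuousLinearMap.comp_apply, ContinuousLinearMap.id_apply] at h3 h4
    rw [h4] at h3
    exact h3.symm
  rw [← hblock]
  unfold cp
  rw [← hcj, LinearEquiv.charpoly_conj]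

end Pool.Agent.MP_5027f4_cont
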