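import Pool.Agent.Lib_MP_5027f4_cont.LinDarb

/-!
PIECE [ChartA] (MP_5027f4_mp, T1).  Solving for the momentum values on the affine slice.
-/

open Set Filter Topology Metric Polynomial
open scoped ComplexConjugate ContDiff

namespace Pool.Agent.MP_5027f4_cont

variable {E : Type*} [NormedAddCommGroup E] [NormedSpace ℝ E] [FiniteDimensional ℝ E]
  {om : E →L[ℝ] E →L[ℝ] ℝ} {x₀ : E} {G : (ℝ × ℝ) × E → E} {μ : E → ℝ × ℝ}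

/-- The differential of the momentum map in the linear Darboux coordinates.
Proof: by `h.ham` at `y = x₀` (`Eventually.self_of_nhds`) and `hL`, `hL0`:
`dot g (Dμ (L δ)) = om (L (g, 0, 0)) (L δ) = Om (g, 0, 0) δ = dot g δ.2.1` for all `g`. -/
theorem fderiv_mu_L (h : LocAct om x₀ G μ) (L : ((ℝ × ℝ) × (ℝ × ℝ) × (ℂ × ℂ)) ≃L[ℝ] E)
    (hL0 : ∀ g, L (g, 0, 0) = fderiv ℝ G (0, x₀) (g, 0))
    (hL : ∀ δ δ', om (L δ) (L δ') = Om δ δ') (δ : (ℝ × ℝ) × (ℝ × ℝ) × (ℂ × ℂ)) :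
    fderiv ℝ μ x₀ (L δ) = δ.2.1 := by
  have h1 := h.ham.self_of_nhds
  have h2 : ∀ g : ℝ × ℝ, dot g (fderiv ℝ μ x₀ (L δ)) = dot g δ.2.1 := by
    intro g
    rw [← h1 g (L δ), ← hL0, hL]
    simp [Om, os, dot]
  have h3 := h2 (1, 0)
  have h4 := h2 (0, 1)
  simp only [dot, one_mul, zero_mul, add_zero, zero_add] at h3 h4
  exact Prod.ext h3 h4

/-- Proof.  `κ (v, z) = (μ (x₀ + L (0, v, z)), z)` is analytic at `0` with derivative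
`(v, z) ↦ (v, z)` (`fderiv_mu_L`), so it has an analytic local inverse
(`ContDiffAt.to_localInverse` with `n = ω`, `contDiffAt_omega_iff_analyticAt`, or
`ContDiffAt.implicitFunction` applied to `(k, z), v ↦ μ (x₀ + L (0, v, z)) - k`); `v` is its
first component. -/
theorem exists_kappa (h : LocAct om x₀ G μ) (L : ((ℝ × ℝ) × (ℝ × ℝ) × (ℂ × ℂ)) ≃L[ℝ] E)
    (hL0 : ∀ g, L (g, 0, 0) = fderiv ℝ G (0, x₀) (g, 0))
    (hL : ∀ δ δ', om (L δ) (L δ') = Om δ δ') :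
    ∃ v : (ℝ × ℝ) × (ℂ × ℂ) → ℝ × ℝ, AnalyticAt ℝ v (μ x₀, 0) ∧ v (μ x₀, 0) = 0 ∧
      (∀ᶠ q : (ℝ × ℝ) × (ℂ × ℂ) in 𝓝 (μ x₀, 0), μ (x₀ + L (0, v q, q.2)) = q.1) ∧
      (∀ᶠ w : (ℝ × ℝ) × (ℂ × ℂ) in 𝓝 0, v (μ (x₀ + L (0, w.1, w.2)), w.2) = w.1) ∧
      ∀ δ : (ℝ × ℝ) × (ℂ × ℂ), fderiv ℝ v (μ x₀, 0) δ = δ.1 := by
  let ι : (ℝ × ℝ) × (ℂ × ℂ) →L[ℝ] E :=
    (L : ((ℝ × ℝ) × (ℝ × ℝ) × (ℂ × ℂ)) →L[ℝ] E).comp
      (ContinuousLinearMap.inr ℝ (ℝ × ℝ) ((ℝ × ℝ) × (ℂ × ℂ)))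
  have hι : ∀ w : (ℝ × ℝ) × (ℂ × ℂ), ι w = L (0, w.1, w.2) := fun w => rfl
  let A : (ℝ × ℝ) × (ℂ × ℂ) → E := fun w => x₀ + ι w
  let κ : (ℝ × ℝ) × (ℂ × ℂ) → (ℝ × ℝ) × (ℂ × ℂ) := fun w => (μ (A w), w.2)
  have hA0 : A 0 = x₀ := by
    change x₀ + ι 0 = x₀
    rw [map_zero, add_zero]
  have hAan : AnalyticAt ℝ A 0 := analyticAt_const.add (ι.analyticAt 0)
  have hAd : HasFDerivAt A ι 0 := ι.hasFDerivAt.const_add x₀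
  have hκ0 : κ 0 = (μ x₀, 0) := by
    change (μ (A 0), ((0 : (ℝ × ℝ) × (ℂ × ℂ))).2) = (μ x₀, 0)
    rw [hA0]
    rfl
  have hκan : AnalyticAt ℝ κ 0 := by
    refine AnalyticAt.prod ?_ analyticAt_snd
    have : AnalyticAt ℝ μ (A 0) := by
      rw [hA0]
      exact h.anm
    exact this.comp hAan
  have hκd : HasFDerivAt κ
      ((ContinuousLinearEquiv.refl ℝ ((ℝ × ℝ) × (ℂ × ℂ)) :
        ((ℝ × ℝ) × (ℂ × ℂ)) ≃L[ℝ] ((ℝ × ℝ) × (ℂ × ℂ))) :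
        ((ℝ × ℝ) × (ℂ × ℂ)) →L[ℝ] ((ℝ × ℝ) × (ℂ × ℂ))) 0 := by
    have hμ : HasFDerivAt μ (fderiv ℝ μ x₀) (A 0) := by
      rw [hA0]
      exact h.anm.differentiableAt.hasFDerivAt
    have h1 : HasFDerivAt κ (((fderiv ℝ μ x₀).comp ι).prod
        (ContinuousLinearMap.snd ℝ (ℝ × ℝ) (ℂ × ℂ))) 0 :=
      (hμ.comp (0 : (ℝ × ℝ) × (ℂ × ℂ)) hAd).prodMk hasFDerivAt_snd
    have h2 : (((fderiv ℝ μ x₀).comp ι).prod
        (ContinuousLinearMap.snd ℝ (ℝ × ℝ) (ℂ × ℂ))) =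
        ((ContinuousLinearEquiv.refl ℝ ((ℝ × ℝ) × (ℂ × ℂ)) :
        ((ℝ × ℝ) × (ℂ × ℂ)) ≃L[ℝ] ((ℝ × ℝ) × (ℂ × ℂ))) :
        ((ℝ × ℝ) × (ℂ × ℂ)) →L[ℝ] ((ℝ × ℝ) × (ℂ × ℂ))) := by
      refine ContinuousLinearMap.ext (fun w => ?_)
      refine Prod.ext ?_ rfl
      change fderiv ℝ μ x₀ (ι w) = w.1
      rw [hι, fderiv_mu_L h L hL0 hL]
    rw [← h2]
    exact h1
  have hc : ContDiffAt ℝ ω κ 0 := hκan.contDiffAt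
  have hn : (ω : WithTop ℕ∞) ≠ 0 := by simp
  have hs := hc.hasStrictFDerivAt' hκd hn
  let inv := hc.localInverse hκd hn
  have hinv : inv = hs.localInverse κ _ 0 := rfl
  have hian : AnalyticAt ℝ inv (μ x₀, 0) := by
    have h1 := hc.to_localInverse hκd hn
    rw [hκ0] at h1
    exact h1.analyticAt
  have hright : ∀ᶠ q in 𝓝 ((μ x₀, 0) : (ℝ × ℝ) × (ℂ × ℂ)), κ (inv q) = q := by
    have h1 := hs.eventually_right_inverse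
    rw [hκ0] at h1
    exact h1
  have hleft : ∀ᶠ w in 𝓝 (0 : (ℝ × ℝ) × (ℂ × ℂ)), inv (κ w) = w := hs.eventually_left_inverse
  have hid : HasFDerivAt inv (((ContinuousLinearEquiv.refl ℝ ((ℝ × ℝ) × (ℂ × ℂ)) :
        ((ℝ × ℝ) × (ℂ × ℂ)) ≃L[ℝ] ((ℝ × ℝ) × (ℂ × ℂ))).symm :
        ((ℝ × ℝ) × (ℂ × ℂ)) ≃L[ℝ] ((ℝ × ℝ) × (ℂ × ℂ))) :
        ((ℝ × ℝ) × (ℂ × ℂ)) →L[ℝ] ((ℝ × ℝ) × (ℂ × ℂ))) (μ x₀, 0) := by
    have h1 := hs.to_localInverse.hasFDerivAt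
    rw [hκ0] at h1
    exact h1
  refine ⟨fun q => (inv q).1, ?_, ?_, ?_, ?_, ?_⟩
  · exact (ContinuousLinearMap.analyticAt (ContinuousLinearMap.fst ℝ (ℝ × ℝ) (ℂ × ℂ)) _).comp hian
  · have h1 := hc.localInverse_apply_image hκd hn
    rw [hκ0] at h1
    change (hc.localInverse hκd hn (μ x₀, 0)).1 = 0
    rw [h1]
    rfl
  · filter_upwards [hright] with q hq
    have h3 : (κ (inv q)).1 = q.1 := by rw [hq]
    have h2 : (κ (inv q)).2 = q.2 := by rw [hq]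
    change μ (x₀ + L (0, (inv q).1, (inv q).2)) = q.1 at h3
    change (inv q).2 = q.2 at h2
    rw [h2] at h3
    exact h3
  · filter_upwards [hleft] with w hw
    exact congrArg Prod.fst hw
  · intro δ
    have h1 : HasFDerivAt (fun q => (inv q).1)
        ((ContinuousLinearMap.fst ℝ (ℝ × ℝ) (ℂ × ℂ)).comp _) (μ x₀, 0) :=
      (ContinuousLinearMap.fst ℝ (ℝ × ℝ) (ℂ × ℂ)).hasFDerivAt.comp _ hid
    rw [h1.fderiv]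
    rfl

end Pool.Agent.MP_5027f4_cont
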