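import Pool.Agent.Lib_MP_5027f4_cont.ChartD

/-!
PIECE [ChartB] (MP_5027f4_mp, T1).  The Darboux chart of a free local action.
-/

open Set Filter Topology Metric Polynomial Asymptotics
open scoped ComplexConjugate ContDiff

namespace Pool.Agent.MP_5027f4_cont

variable {E : Type*} [NormedAddCommGroup E] [NormedSpace ℝ E] [FiniteDimensional ℝ E]
  {om : E →L[ℝ] E →L[ℝ] ℝ} {x₀ : E} {G : (ℝ × ℝ) × E → E} {μ : E → ℝ × ℝ}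

section chartB

omit [FiniteDimensional ℝ E]

/-- value of the action at the identity -/
theorem chartB_G0 (h : LocAct om x₀ G μ) : G (0, x₀) = x₀ := h.zero.self_of_nhds

/-- `DG (0, x₀) (0, ξ) = ξ` -/
theorem chartB_fderiv_G_inr (h : LocAct om x₀ G μ) (ξ : E) :
    fderiv ℝ G (0, x₀) (0, ξ) = ξ := by
  have hG : HasFDerivAt G (fderiv ℝ G (0, x₀)) (0, x₀) :=
    h.an.differentiableAt.hasFDerivAt
  have hin : HasFDerivAt (fun y : E => ((0 : ℝ × ℝ), y))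
      (ContinuousLinearMap.inr ℝ (ℝ × ℝ) E) x₀ :=
    (ContinuousLinearMap.inr ℝ (ℝ × ℝ) E).hasFDerivAt
  have h1 : HasFDerivAt (fun y : E => G (0, y))
      ((fderiv ℝ G (0, x₀)).comp (ContinuousLinearMap.inr ℝ (ℝ × ℝ) E)) x₀ :=
    HasFDerivAt.comp x₀ hG hin
  have h2 : HasFDerivAt (fun y : E => G (0, y)) (ContinuousLinearMap.id ℝ E) x₀ :=
    (hasFDerivAt_id x₀).congr_of_eventuallyEq h.zero
  have h3 := h1.unique h2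
  have h4 := congrArg (fun A : E →L[ℝ] E => A ξ) h3
  simpa using h4

/-- `Dμ (DG (0, x₀) (g, 0)) = 0` -/
theorem chartB_mu_X (h : LocAct om x₀ G μ) (g : ℝ × ℝ) :
    fderiv ℝ μ x₀ (fderiv ℝ G (0, x₀) (g, 0)) = 0 := by
  have hG : HasFDerivAt G (fderiv ℝ G (0, x₀)) (0, x₀) :=
    h.an.differentiableAt.hasFDerivAt
  have hμ : HasFDerivAt μ (fderiv ℝ μ x₀) (G (0, x₀)) := by
    rw [chartB_G0 h]; exact h.anm.differentiableAt.hasFDerivAt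
  have hμ' : HasFDerivAt μ (fderiv ℝ μ x₀) ((0 : ℝ × ℝ), x₀).2 :=
    h.anm.differentiableAt.hasFDerivAt
  have h1 : HasFDerivAt (fun p : (ℝ × ℝ) × E => μ (G p))
      ((fderiv ℝ μ x₀).comp (fderiv ℝ G (0, x₀))) (0, x₀) := HasFDerivAt.comp _ hμ hG
  have h2 : HasFDerivAt (fun p : (ℝ × ℝ) × E => μ p.2)
      ((fderiv ℝ μ x₀).comp (ContinuousLinearMap.snd ℝ (ℝ × ℝ) E)) (0, x₀) :=
    HasFDerivAt.comp _ hμ' hasFDerivAt_snd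
  have h3 : HasFDerivAt (fun p : (ℝ × ℝ) × E => μ (G p))
      ((fderiv ℝ μ x₀).comp (ContinuousLinearMap.snd ℝ (ℝ × ℝ) E)) (0, x₀) :=
    h2.congr_of_eventuallyEq h.inv
  have h4 := congrArg (fun A : ((ℝ × ℝ) × E) →L[ℝ] (ℝ × ℝ) => A (g, 0)) (h1.unique h3)
  simpa using h4

/-- the chart -/
noncomputable def chartB_Th (G : (ℝ × ℝ) × E → E) (x₀ : E)
    (L : ((ℝ × ℝ) × (ℝ × ℝ) × (ℂ × ℂ)) ≃L[ℝ] E)
    (v : (ℝ × ℝ) × (ℂ × ℂ) → ℝ × ℝ) : (ℝ × ℝ) × (ℝ × ℝ) × (ℂ × ℂ) → E :=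
  fun p => G (p.1, x₀ + L (0, v p.2, p.2.2))

/-- the inner map of the chart -/
noncomputable def chartB_in (x₀ : E)
    (L : ((ℝ × ℝ) × (ℝ × ℝ) × (ℂ × ℂ)) ≃L[ℝ] E)
    (v : (ℝ × ℝ) × (ℂ × ℂ) → ℝ × ℝ) : (ℝ × ℝ) × (ℝ × ℝ) × (ℂ × ℂ) → (ℝ × ℝ) × E :=
  fun p => (p.1, x₀ + L (0, v p.2, p.2.2))

theorem chartB_in_base (L : ((ℝ × ℝ) × (ℝ × ℝ) × (ℂ × ℂ)) ≃L[ℝ] E)
    (v : (ℝ × ℝ) × (ℂ × ℂ) → ℝ × ℝ) (hv0 : v (μ x₀, 0) = 0) :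
    chartB_in x₀ L v (0, μ x₀, 0) = (0, x₀) := by
  have : ((0 : ℝ × ℝ), v (μ x₀, 0), (0 : ℂ × ℂ)) = 0 := by rw [hv0]; rfl
  simp only [chartB_in]
  rw [this, map_zero, add_zero]

theorem chartB_in_an (L : ((ℝ × ℝ) × (ℝ × ℝ) × (ℂ × ℂ)) ≃L[ℝ] E)
    (v : (ℝ × ℝ) × (ℂ × ℂ) → ℝ × ℝ) (hv : AnalyticAt ℝ v (μ x₀, 0)) :
    AnalyticAt ℝ (chartB_in x₀ L v) (0, μ x₀, 0) := by
  have hv' : AnalyticAt ℝ (fun p : (ℝ × ℝ) × (ℝ × ℝ) × (ℂ × ℂ) => v p.2) (0, μ x₀, 0) :=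
    AnalyticAt.fun_comp (f := fun p : (ℝ × ℝ) × (ℝ × ℝ) × (ℂ × ℂ) => p.2) hv analyticAt_snd
  have h2 : AnalyticAt ℝ (fun p : (ℝ × ℝ) × (ℝ × ℝ) × (ℂ × ℂ) => p.2.2) (0, μ x₀, 0) := by
    exact AnalyticAt.fun_comp (f := fun p : (ℝ × ℝ) × (ℝ × ℝ) × (ℂ × ℂ) => p.2)
      (g := fun q : (ℝ × ℝ) × (ℂ × ℂ) => q.2) analyticAt_snd analyticAt_snd
  have h3 : AnalyticAt ℝ (fun p : (ℝ × ℝ) × (ℝ × ℝ) × (ℂ × ℂ) =>
      (((0 : ℝ × ℝ), v p.2, p.2.2) : (ℝ × ℝ) × (ℝ × ℝ) × (ℂ × ℂ))) (0, μ x₀, 0) :=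
    analyticAt_const.prod (hv'.prod h2)
  have h4 : AnalyticAt ℝ (fun p : (ℝ × ℝ) × (ℝ × ℝ) × (ℂ × ℂ) => L (0, v p.2, p.2.2))
      (0, μ x₀, 0) := by
    have := (L : ((ℝ × ℝ) × (ℝ × ℝ) × (ℂ × ℂ)) →L[ℝ] E).analyticAt
      ((0 : ℝ × ℝ), v (μ x₀, 0), (0 : ℂ × ℂ))
    exact AnalyticAt.fun_comp (f := fun p : (ℝ × ℝ) × (ℝ × ℝ) × (ℂ × ℂ) =>
      (((0 : ℝ × ℝ), v p.2, p.2.2) : (ℝ × ℝ) × (ℝ × ℝ) × (ℂ × ℂ))) this h3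
  exact analyticAt_fst.prod (analyticAt_const.add h4)

theorem chartB_Th_an (h : LocAct om x₀ G μ) (L : ((ℝ × ℝ) × (ℝ × ℝ) × (ℂ × ℂ)) ≃L[ℝ] E)
    (v : (ℝ × ℝ) × (ℂ × ℂ) → ℝ × ℝ) (hv : AnalyticAt ℝ v (μ x₀, 0)) (hv0 : v (μ x₀, 0) = 0) :
    AnalyticAt ℝ (chartB_Th G x₀ L v) (0, μ x₀, 0) := by
  have h1 : AnalyticAt ℝ G (chartB_in x₀ L v (0, μ x₀, 0)) := by
    rw [chartB_in_base L v hv0]; exact h.an
  exact AnalyticAt.fun_comp (f := chartB_in x₀ L v) h1 (chartB_in_an L v hv)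

theorem chartB_Th_base (h : LocAct om x₀ G μ) (L : ((ℝ × ℝ) × (ℝ × ℝ) × (ℂ × ℂ)) ≃L[ℝ] E)
    (v : (ℝ × ℝ) × (ℂ × ℂ) → ℝ × ℝ) (hv0 : v (μ x₀, 0) = 0) :
    chartB_Th G x₀ L v (0, μ x₀, 0) = x₀ := by
  have : chartB_Th G x₀ L v (0, μ x₀, 0) = G (chartB_in x₀ L v (0, μ x₀, 0)) := rfl
  rw [this, chartB_in_base L v hv0, chartB_G0 h]

theorem chartB_Th_deriv (h : LocAct om x₀ G μ) (L : ((ℝ × ℝ) × (ℝ × ℝ) × (ℂ × ℂ)) ≃L[ℝ] E)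
    (hL0 : ∀ g, L (g, 0, 0) = fderiv ℝ G (0, x₀) (g, 0))
    (v : (ℝ × ℝ) × (ℂ × ℂ) → ℝ × ℝ) (hv : AnalyticAt ℝ v (μ x₀, 0)) (hv0 : v (μ x₀, 0) = 0)
    (hv3 : ∀ δ : (ℝ × ℝ) × (ℂ × ℂ), fderiv ℝ v (μ x₀, 0) δ = δ.1) :
    HasFDerivAt (chartB_Th G x₀ L v)
      (L : ((ℝ × ℝ) × (ℝ × ℝ) × (ℂ × ℂ)) →L[ℝ] E) (0, μ x₀, 0) := by
  have hv' : HasFDerivAt (fun p : (ℝ × ℝ) × (ℝ × ℝ) × (ℂ × ℂ) => v p.2)
      ((fderiv ℝ v (μ x₀, 0)).comp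
        (ContinuousLinearMap.snd ℝ (ℝ × ℝ) ((ℝ × ℝ) × (ℂ × ℂ)))) (0, μ x₀, 0) := by
    have hvd : HasFDerivAt v (fderiv ℝ v (μ x₀, 0))
        ((0, μ x₀, 0) : (ℝ × ℝ) × (ℝ × ℝ) × (ℂ × ℂ)).2 := hv.differentiableAt.hasFDerivAt
    exact HasFDerivAt.comp _ hvd hasFDerivAt_snd
  have h2 : HasFDerivAt (fun p : (ℝ × ℝ) × (ℝ × ℝ) × (ℂ × ℂ) => p.2.2)
      ((ContinuousLinearMap.snd ℝ (ℝ × ℝ) (ℂ × ℂ)).comp
        (ContinuousLinearMap.snd ℝ (ℝ × ℝ) ((ℝ × ℝ) × (ℂ × ℂ)))) (0, μ x₀, 0) :=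
    HasFDerivAt.comp (g := fun q : (ℝ × ℝ) × (ℂ × ℂ) => q.2) _ hasFDerivAt_snd hasFDerivAt_snd
  have h0 : HasFDerivAt (fun _ : (ℝ × ℝ) × (ℝ × ℝ) × (ℂ × ℂ) => (0 : ℝ × ℝ))
      (0 : ((ℝ × ℝ) × (ℝ × ℝ) × (ℂ × ℂ)) →L[ℝ] (ℝ × ℝ)) (0, μ x₀, 0) :=
    hasFDerivAt_const _ _
  have h3 := h0.prodMk (hv'.prodMk h2)
  have h4 : HasFDerivAt (fun p : (ℝ × ℝ) × (ℝ × ℝ) × (ℂ × ℂ) => L (0, v p.2, p.2.2)) _
      (0, μ x₀, 0) := L.hasFDerivAt.comp _ h3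
  have h5 := (hasFDerivAt_fst (𝕜 := ℝ)
    (p := ((0, μ x₀, 0) : (ℝ × ℝ) × (ℝ × ℝ) × (ℂ × ℂ)))).prodMk (h4.const_add x₀)
  have hG : HasFDerivAt G (fderiv ℝ G (0, x₀)) (chartB_in x₀ L v (0, μ x₀, 0)) := by
    rw [chartB_in_base L v hv0]
    exact h.an.differentiableAt.hasFDerivAt
  have h6 : HasFDerivAt (chartB_Th G x₀ L v) _ (0, μ x₀, 0) :=
    HasFDerivAt.comp (f := chartB_in x₀ L v) _ hG h5
  refine h6.congr_fderiv ?_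
  refine ContinuousLinearMap.ext fun δ => ?_
  obtain ⟨a, b, c⟩ := δ
  have e1 : ((a, b, c) : (ℝ × ℝ) × (ℝ × ℝ) × (ℂ × ℂ)) = (a, 0, 0) + (0, b, c) := by simp
  have e2 : (((a, L (0, b, c)) : (ℝ × ℝ) × E)) = (a, 0) + (0, L (0, b, c)) := by simp
  have e3 : (L : ((ℝ × ℝ) × (ℝ × ℝ) × (ℂ × ℂ)) →L[ℝ] E) (a, b, c)
      = fderiv ℝ G (0, x₀) (a, L (0, b, c)) := by
    rw [e1]
    simp only [ContinuousLinearEquiv.coe_coe, map_add]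
    rw [hL0 a, e2, map_add, chartB_fderiv_G_inr h]
  rw [e3]
  simp [hv3]

end chartB

/-- Proof.  `X g = DG (0, x₀) (g, 0)` is linear, injective (`h.free`), isotropic
(`om (X g) (X g') = dot g (Dμ (X g')) = 0` by `h.ham` and the derivative of `h.inv`);
`exists_linDarboux` gives `L`, `exists_kappa` gives `v`.
`Θ p = G (p.1, x₀ + L (0, v p.2, p.2.2))`: analytic, value `x₀` at `(0, μ x₀, 0)`, derivative there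
`δ ↦ X δ.1 + L (0, δ.2.1, δ.2.2) = L δ` (as `DG (0, x₀) (0, ξ) = ξ` and `Dv δ = δ.1`), invertible:
`Ξ` = analytic local inverse.  `mom`: `h.inv` and the property of `v`.  `shift`: `h.add`.
`darb`: `darb_of_chart`. -/
theorem exists_chart (hdim : Module.finrank ℝ E = 8) (halt : ∀ x, om x x = 0)
    (hnd : ∀ x, (∀ y, om x y = 0) → x = 0) (h : LocAct om x₀ G μ) :
    ∃ Θ Ξ, DChart om x₀ G μ Θ Ξ := by
  set X : (ℝ × ℝ) →L[ℝ] E :=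
    (fderiv ℝ G (0, x₀)).comp (ContinuousLinearMap.inl ℝ (ℝ × ℝ) E) with hXdef
  have hXv : ∀ g, X g = fderiv ℝ G (0, x₀) (g, 0) := fun g => by simp [hXdef]
  have hX : Function.Injective X := by
    rw [injective_iff_map_eq_zero]
    intro g hg
    rw [hXv] at hg
    exact h.free g hg
  have hiso : ∀ g g', om (X g) (X g') = 0 := by
    intro g g'
    rw [hXv, hXv, h.ham.self_of_nhds, chartB_mu_X h]
    simp [dot]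
  obtain ⟨L, hL0', hL⟩ := exists_linDarboux om halt hnd hdim X hX hiso
  have hL0 : ∀ g, L (g, 0, 0) = fderiv ℝ G (0, x₀) (g, 0) := fun g => by rw [hL0', hXv]
  obtain ⟨v, hv, hv0, hv1, hv2, hv3⟩ := exists_kappa h L hL0 hL
  have hTan := chartB_Th_an h L v hv hv0
  have hTb := chartB_Th_base h L v hv0
  have hTd := chartB_Th_deriv h L hL0 v hv hv0 hv3
  have hTs : HasStrictFDerivAt (chartB_Th G x₀ L v)
      (L : ((ℝ × ℝ) × (ℝ × ℝ) × (ℂ × ℂ)) →L[ℝ] E) (0, μ x₀, 0) := by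
    have := hTan.hasStrictFDerivAt
    rwa [hTd.fderiv] at this
  have hXan : AnalyticAt ℝ (hTs.toOpenPartialHomeomorph (chartB_Th G x₀ L v)).symm x₀ := by
    have := (hTs.toOpenPartialHomeomorph (chartB_Th G x₀ L v)).analyticAt_symm' (i := L)
      hTs.mem_toOpenPartialHomeomorph_source (by simpa using hTan) (by simpa using hTd.fderiv)
    rw [HasStrictFDerivAt.toOpenPartialHomeomorph_coe, hTb] at this
    exact this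
  refine ⟨chartB_Th G x₀ L v, hTs.localInverse _ _ _, ?_⟩
  have hcont : Tendsto (chartB_in x₀ L v) (𝓝 (0, μ x₀, 0)) (𝓝 (0, x₀)) := by
    have := (chartB_in_an (μ := μ) (x₀ := x₀) L v hv).continuousAt.tendsto
    rwa [chartB_in_base L v hv0] at this
  refine ⟨hTan, ?_, hTb, ?_, hTs.eventually_left_inverse, ?_, ?_, ?_, ?_⟩
  · rw [HasStrictFDerivAt.localInverse_def]; exact hXan
  · have := hTs.localInverse_apply_image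
    rwa [hTb] at this
  · have := hTs.eventually_right_inverse
    rwa [hTb] at this
  · -- shift
    have hc : Tendsto (fun p : (ℝ × ℝ) × (ℝ × ℝ) × (ℝ × ℝ) × (ℂ × ℂ) =>
        ((p.1, chartB_in x₀ L v p.2) : (ℝ × ℝ) × (ℝ × ℝ) × E))
        (𝓝 (0, 0, μ x₀, 0)) (𝓝 (0, 0, x₀)) := by
      have e1 : Tendsto (fun p : (ℝ × ℝ) × (ℝ × ℝ) × (ℝ × ℝ) × (ℂ × ℂ) => p.1)
          (𝓝 (0, 0, μ x₀, 0)) (𝓝 0) := continuous_fst.tendsto' _ _ rfl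
      have e2 : Tendsto (fun p : (ℝ × ℝ) × (ℝ × ℝ) × (ℝ × ℝ) × (ℂ × ℂ) => p.2)
          (𝓝 (0, 0, μ x₀, 0)) (𝓝 (0, μ x₀, 0)) := continuous_snd.tendsto' _ _ rfl
      exact e1.prodMk_nhds (hcont.comp e2)
    have := hc.eventually h.add
    filter_upwards [this] with p hp
    exact hp.symm
  · -- mom
    have h1 := hcont.eventually h.inv
    have h2 : Tendsto (fun p : (ℝ × ℝ) × (ℝ × ℝ) × (ℂ × ℂ) => p.2)
        (𝓝 (0, μ x₀, 0)) (𝓝 (μ x₀, 0)) := continuous_snd.tendsto' _ _ rfl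
    filter_upwards [h1, h2.eventually hv1] with p hp1 hp2
    have : μ (chartB_Th G x₀ L v p) = μ (G (chartB_in x₀ L v p)) := rfl
    rw [this, hp1]
    exact hp2
  · exact darb_of_chart h halt L hL v hv hv0 hv1

end Pool.Agent.MP_5027f4_cont
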