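import Pool.Agent.Lib_MP_5027f4_cont.ChartA

/-!
PIECE [ChartD] (MP_5027f4_mp, T1).  Darboux property of the chart.
-/

open Set Filter Topology Metric Polynomial Asymptotics
open scoped ComplexConjugate ContDiff

namespace Pool.Agent.MP_5027f4_cont

variable {E : Type*} [NormedAddCommGroup E] [NormedSpace ℝ E] [FiniteDimensional ℝ E]
  {om : E →L[ℝ] E →L[ℝ] ℝ} {x₀ : E} {G : (ℝ × ℝ) × E → E} {μ : E → ℝ × ℝ}

omit [FiniteDimensional ℝ E] in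
/-- an alternating form is antisymmetric -/
theorem ChartD_skew (halt : ∀ x, om x x = 0) (x y : E) : om x y = -om y x := by
  have h := halt (x + y)
  simp only [map_add, add_apply, halt, zero_add, add_zero] at h
  linarith

omit [FiniteDimensional ℝ E] in
/-- the pointwise statement -/
theorem ChartD_pt (halt : ∀ x, om x x = 0)
    (L : ((ℝ × ℝ) × (ℝ × ℝ) × (ℂ × ℂ)) ≃L[ℝ] E)
    (hL : ∀ δ δ', om (L δ) (L δ') = Om δ δ')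
    (v : (ℝ × ℝ) × (ℂ × ℂ) → ℝ × ℝ) (W : (ℝ × ℝ) × (ℂ × ℂ) → E)
    (hW : W = fun q => x₀ + L (0, v q, q.2))
    (g : ℝ × ℝ) (q : (ℝ × ℝ) × (ℂ × ℂ))
    (e1 : AnalyticAt ℝ G (g, W q)) (e2 : AnalyticAt ℝ G (0, W q)) (e3 : AnalyticAt ℝ v q)
    (e4 : ∀ ξ η : E, om (fderiv ℝ G (g, W q) (0, ξ)) (fderiv ℝ G (g, W q) (0, η)) = om ξ η)
    (e5 : ∀ᶠ y in 𝓝 (W q), G (0, y) = y)
    (e6 : ∀ᶠ q' in 𝓝 q, μ (W q') = q'.1)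
    (e7 : ∀ (g : ℝ × ℝ) (ξ : E),
      om (fderiv ℝ G (0, W q) (g, 0)) ξ = dot g (fderiv ℝ μ (W q) ξ))
    (e8 : ∀ᶠ p : (ℝ × ℝ) × E in 𝓝 (0, W q), μ (G p) = μ p.2)
    (e9 : AnalyticAt ℝ μ (W q))
    (e10 : ∀ᶠ r : (ℝ × ℝ) × (ℝ × ℝ) × (ℂ × ℂ) in 𝓝 (0, q),
      G (g, G (r.1, W r.2)) = G (g + r.1, W r.2))
    (δ δ' : (ℝ × ℝ) × (ℝ × ℝ) × (ℂ × ℂ)) :
    om (fderiv ℝ (fun p : (ℝ × ℝ) × (ℝ × ℝ) × (ℂ × ℂ) => G (p.1, W p.2)) (g, q) δ)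
      (fderiv ℝ (fun p : (ℝ × ℝ) × (ℝ × ℝ) × (ℂ × ℂ) => G (p.1, W p.2)) (g, q) δ') =
      Om δ δ' := by
  -- the derivative of `W`
  obtain ⟨DW, hDW⟩ : ∃ DW : (ℝ × ℝ) × (ℂ × ℂ) →L[ℝ] E, DW = (L : _ →L[ℝ] E).comp
      ((0 : (ℝ × ℝ) × (ℂ × ℂ) →L[ℝ] (ℝ × ℝ)).prod
        ((fderiv ℝ v q).prod (ContinuousLinearMap.snd ℝ (ℝ × ℝ) (ℂ × ℂ)))) := ⟨_, rfl⟩
  have hv : HasFDerivAt v (fderiv ℝ v q) q := e3.differentiableAt.hasFDerivAt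
  have hWd : HasFDerivAt W DW q := by
    rw [hW, hDW]
    exact ((L : _ →L[ℝ] E).hasFDerivAt.comp q
      ((hasFDerivAt_const (0 : ℝ × ℝ) q).prodMk (hv.prodMk hasFDerivAt_snd))).const_add x₀
  have hDWa : ∀ κ, DW κ = L (0, fderiv ℝ v q κ, κ.2) := by
    intro κ
    rw [hDW]
    rfl
  have hin : ∀ a : ℝ × ℝ, HasFDerivAt
      (fun p : (ℝ × ℝ) × (ℝ × ℝ) × (ℂ × ℂ) => (p.1, W p.2))
      ((ContinuousLinearMap.fst ℝ (ℝ × ℝ) ((ℝ × ℝ) × (ℂ × ℂ))).prod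
        (DW.comp (ContinuousLinearMap.snd ℝ (ℝ × ℝ) ((ℝ × ℝ) × (ℂ × ℂ))))) (a, q) := by
    intro a
    exact hasFDerivAt_fst.prodMk (HasFDerivAt.comp (g := W) (a, q) hWd hasFDerivAt_snd)
  have hG0 : HasFDerivAt G (fderiv ℝ G (0, W q)) (0, W q) := e2.differentiableAt.hasFDerivAt
  have hGg : HasFDerivAt G (fderiv ℝ G (g, W q)) (g, W q) := e1.differentiableAt.hasFDerivAt
  obtain ⟨A0, hA0⟩ : ∃ A0, A0 = fderiv ℝ G (0, W q) := ⟨_, rfl⟩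
  obtain ⟨Ag, hAg⟩ : ∃ Ag, Ag = fderiv ℝ G (g, W q) := ⟨_, rfl⟩
  rw [← hA0] at hG0 e7
  rw [← hAg] at hGg e4
  have hT0 : HasFDerivAt (fun p : (ℝ × ℝ) × (ℝ × ℝ) × (ℂ × ℂ) => G (p.1, W p.2)) _ (0, q) :=
    HasFDerivAt.comp (g := G) (0, q) hG0 (hin 0)
  have hTg : HasFDerivAt (fun p : (ℝ × ℝ) × (ℝ × ℝ) × (ℂ × ℂ) => G (p.1, W p.2)) _ (g, q) :=
    HasFDerivAt.comp (g := G) (g, q) hGg (hin g)
  obtain ⟨D0, hD0⟩ : ∃ D0, D0 = A0.comp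
      ((ContinuousLinearMap.fst ℝ (ℝ × ℝ) ((ℝ × ℝ) × (ℂ × ℂ))).prod
        (DW.comp (ContinuousLinearMap.snd ℝ (ℝ × ℝ) ((ℝ × ℝ) × (ℂ × ℂ))))) := ⟨_, rfl⟩
  obtain ⟨Dg, hDg⟩ : ∃ Dg, Dg = Ag.comp
      ((ContinuousLinearMap.fst ℝ (ℝ × ℝ) ((ℝ × ℝ) × (ℂ × ℂ))).prod
        (DW.comp (ContinuousLinearMap.snd ℝ (ℝ × ℝ) ((ℝ × ℝ) × (ℂ × ℂ))))) := ⟨_, rfl⟩
  rw [← hD0] at hT0
  rw [← hDg] at hTg
  have hG0y : G (0, W q) = W q := e5.self_of_nhds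
  -- the shift
  have hsh : Dg = Ag.comp ((0 : (ℝ × ℝ) × (ℝ × ℝ) × (ℂ × ℂ) →L[ℝ] (ℝ × ℝ)).prod D0) := by
    have h1 : HasFDerivAt (fun r : (ℝ × ℝ) × (ℝ × ℝ) × (ℂ × ℂ) => G (g, G (r.1, W r.2)))
        (Ag.comp ((0 : (ℝ × ℝ) × (ℝ × ℝ) × (ℂ × ℂ) →L[ℝ] (ℝ × ℝ)).prod D0)) (0, q) := by
      have h2 : HasFDerivAt
          (fun r : (ℝ × ℝ) × (ℝ × ℝ) × (ℂ × ℂ) => (g, G (r.1, W r.2)))
          ((0 : (ℝ × ℝ) × (ℝ × ℝ) × (ℂ × ℂ) →L[ℝ] (ℝ × ℝ)).prod D0) (0, q) :=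
        (hasFDerivAt_const g (0, q)).prodMk hT0
      refine HasFDerivAt.comp (g := G) (0, q) ?_ h2
      show HasFDerivAt G Ag (g, G (0, W q))
      rw [hG0y]
      exact hGg
    have h3 : HasFDerivAt (fun r : (ℝ × ℝ) × (ℝ × ℝ) × (ℂ × ℂ) => G (g + r.1, W r.2))
        Dg (0, q) := by
      have h4 : HasFDerivAt (fun r : (ℝ × ℝ) × (ℝ × ℝ) × (ℂ × ℂ) => (g + r.1, r.2))
          ((ContinuousLinearMap.fst ℝ (ℝ × ℝ) ((ℝ × ℝ) × (ℂ × ℂ))).prod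
            (ContinuousLinearMap.snd ℝ (ℝ × ℝ) ((ℝ × ℝ) × (ℂ × ℂ)))) (0, q) :=
        (hasFDerivAt_fst.const_add g).prodMk hasFDerivAt_snd
      have h5 : HasFDerivAt (fun p : (ℝ × ℝ) × (ℝ × ℝ) × (ℂ × ℂ) => G (p.1, W p.2)) Dg
          ((fun r : (ℝ × ℝ) × (ℝ × ℝ) × (ℂ × ℂ) => (g + r.1, r.2)) (0, q)) := by
        show HasFDerivAt _ Dg (g + 0, q)
        rw [add_zero]
        exact hTg
      have h6 := HasFDerivAt.comp (0, q) h5 h4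
      have h7 : Dg.comp ((ContinuousLinearMap.fst ℝ (ℝ × ℝ) ((ℝ × ℝ) × (ℂ × ℂ))).prod
            (ContinuousLinearMap.snd ℝ (ℝ × ℝ) ((ℝ × ℝ) × (ℂ × ℂ)))) = Dg :=
        ContinuousLinearMap.ext fun x => rfl
      rw [h7] at h6
      exact h6
    exact (h3.congr_of_eventuallyEq e10).unique h1
  have hsh' : ∀ δ, Dg δ = Ag (0, D0 δ) := by
    intro δ
    rw [hsh]
    rfl
  -- derivative of `G (0, ·)`
  have hid : ∀ ξ, A0 (0, ξ) = ξ := by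
    have h1 : HasFDerivAt (fun y : E => G (0, y))
        (A0.comp (ContinuousLinearMap.inr ℝ (ℝ × ℝ) E)) (W q) :=
      HasFDerivAt.comp (g := G) (W q) hG0 (hasFDerivAt_prodMk_right (0 : ℝ × ℝ) (W q))
    have h2 : HasFDerivAt (fun y : E => G (0, y)) (ContinuousLinearMap.id ℝ E) (W q) :=
      (hasFDerivAt_id (W q)).congr_of_eventuallyEq e5
    have h3 := h1.unique h2
    intro ξ
    have h4 := congrArg (fun B => B ξ) h3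
    exact h4
  -- derivative of `μ (G (·, y))`
  have hmu : HasFDerivAt μ (fderiv ℝ μ (W q)) (W q) := e9.differentiableAt.hasFDerivAt
  obtain ⟨B, hB⟩ : ∃ B, B = fderiv ℝ μ (W q) := ⟨_, rfl⟩
  rw [← hB] at hmu e7
  have hXX : ∀ a, B (A0 (a, 0)) = 0 := by
    have h1 : HasFDerivAt (fun a : ℝ × ℝ => G (a, W q))
        (A0.comp (ContinuousLinearMap.inl ℝ (ℝ × ℝ) E)) 0 :=
      HasFDerivAt.comp (g := G) (0 : ℝ × ℝ) hG0 (hasFDerivAt_prodMk_left (0 : ℝ × ℝ) (W q))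
    have h2 : HasFDerivAt (fun a : ℝ × ℝ => μ (G (a, W q)))
        (B.comp (A0.comp (ContinuousLinearMap.inl ℝ (ℝ × ℝ) E))) 0 := by
      refine HasFDerivAt.comp (g := μ) (0 : ℝ × ℝ) ?_ h1
      show HasFDerivAt μ B (G (0, W q))
      rw [hG0y]
      exact hmu
    have h3 : ∀ᶠ a : ℝ × ℝ in 𝓝 0, μ (G (a, W q)) = μ (W q) := by
      have hc : Tendsto (fun a : ℝ × ℝ => ((a, W q) : (ℝ × ℝ) × E)) (𝓝 0) (𝓝 (0, W q)) :=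
        (Continuous.prodMk_left (W q)).tendsto 0
      exact hc.eventually e8
    have h4 : HasFDerivAt (fun a : ℝ × ℝ => μ (G (a, W q)))
        (0 : (ℝ × ℝ) →L[ℝ] (ℝ × ℝ)) 0 :=
      (hasFDerivAt_const (μ (W q)) (0 : ℝ × ℝ)).congr_of_eventuallyEq h3
    have h5 := h2.unique h4
    intro a
    have h6 := congrArg (fun B => B a) h5
    exact h6
  have hBW : ∀ κ, B (DW κ) = κ.1 := by
    have h1 : HasFDerivAt (fun q' => μ (W q')) (B.comp DW) q :=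
      HasFDerivAt.comp (g := μ) q hmu hWd
    have h2 : HasFDerivAt (fun q' => μ (W q'))
        (ContinuousLinearMap.fst ℝ (ℝ × ℝ) (ℂ × ℂ)) q :=
      hasFDerivAt_fst.congr_of_eventuallyEq e6
    have h3 := h1.unique h2
    intro κ
    have h4 := congrArg (fun B => B κ) h3
    exact h4
  have hD0a : ∀ δ, D0 δ = A0 (δ.1, 0) + DW δ.2 := by
    intro δ
    have h1 : D0 δ = A0 (δ.1, DW δ.2) := by rw [hD0]; rfl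
    have h2 : ((δ.1, DW δ.2) : (ℝ × ℝ) × E) = (δ.1, 0) + (0, DW δ.2) := by simp
    rw [h1, h2, map_add, hid]
  rw [hTg.fderiv, hsh' δ, hsh' δ', e4, hD0a δ, hD0a δ']
  simp only [map_add, add_apply]
  rw [ChartD_skew halt (DW δ.2) (A0 (δ'.1, 0)), e7, e7, e7, hXX, hBW, hBW, hDWa, hDWa, hL]
  simp only [Om, dot, Prod.fst_zero, Prod.snd_zero]
  ring

/-- Darboux property.  Here `Θ (g, k, z) = G (g, x₀ + L (0, v (k, z), z))`.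

Proof.  (1) At `g = 0`: put `y = Θ (0, k, z) = x₀ + L (0, v (k, z), z)` (by `h.zero`, near the base
point; `Θ (0, ·)` equals this locally, so the derivative in `(k, z)` is
`L (0, Dv (k', z'), z')`).  `DΘ (0, k, z) (g', k', z') = DG (0, y) (g', 0) + L (0, v', z')`,
`v' = Dv (k', z')` (chain rule and `DG (0, y) (0, ξ) = ξ`, derivative of `h.zero`).  Now
`om (X₁ + w₁) (X₂ + w₂) = om X₁ X₂ + om X₁ w₂ - om X₂ w₁ + om w₁ w₂` with `Xᵢ = DG (0, y) (gᵢ, 0)`,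
`wᵢ = L (0, vᵢ, zᵢ)`; `om Xᵢ wⱼ = dot gᵢ (Dμ y wⱼ)` (`h.ham`) and `Dμ y wⱼ = kⱼ` (derivative of
`μ (x₀ + L (0, v q, q.2)) = q.1`); `om X₁ X₂ = dot g₁ (Dμ y X₂) = 0` (derivative of
`μ (G (g, y)) = μ y` in `g`); `om w₁ w₂ = Om (0, v₁, z₁) (0, v₂, z₂) = os z₁ z₂`.
(2) In general, near the base point, `Θ (g + g', k, z) = G (g, Θ (g', k, z))` (`h.add`); the
derivative at `g' = 0` is `DΘ (g, k, z) δ = DG (g, Θ (0, k, z)) (0, DΘ (0, k, z) δ)`, and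
`DG (g, ·)` preserves `om` (`h.symp`). -/
theorem darb_of_chart (h : LocAct om x₀ G μ) (halt : ∀ x, om x x = 0)
    (L : ((ℝ × ℝ) × (ℝ × ℝ) × (ℂ × ℂ)) ≃L[ℝ] E)
    (hL : ∀ δ δ', om (L δ) (L δ') = Om δ δ')
    (v : (ℝ × ℝ) × (ℂ × ℂ) → ℝ × ℝ) (hv : AnalyticAt ℝ v (μ x₀, 0)) (hv0 : v (μ x₀, 0) = 0)
    (hv1 : ∀ᶠ q : (ℝ × ℝ) × (ℂ × ℂ) in 𝓝 (μ x₀, 0), μ (x₀ + L (0, v q, q.2)) = q.1) :
    ∀ᶠ p in 𝓝 ((0, μ x₀, 0) : (ℝ × ℝ) × (ℝ × ℝ) × (ℂ × ℂ)), ∀ δ δ',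
      om (fderiv ℝ (fun p : (ℝ × ℝ) × (ℝ × ℝ) × (ℂ × ℂ) =>
          G (p.1, x₀ + L (0, v p.2, p.2.2))) p δ)
        (fderiv ℝ (fun p : (ℝ × ℝ) × (ℝ × ℝ) × (ℂ × ℂ) =>
          G (p.1, x₀ + L (0, v p.2, p.2.2))) p δ') = Om δ δ' := by
  obtain ⟨W, hW⟩ : ∃ W : (ℝ × ℝ) × (ℂ × ℂ) → E, W = fun q => x₀ + L (0, v q, q.2) := ⟨_, rfl⟩
  have hW0 : W (μ x₀, 0) = x₀ := by
    rw [hW]
    show x₀ + L (0, v (μ x₀, 0), 0) = x₀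
    rw [hv0]
    have : ((0, 0, 0) : (ℝ × ℝ) × (ℝ × ℝ) × (ℂ × ℂ)) = 0 := rfl
    rw [this, map_zero, add_zero]
  have hWc : ∀ q, AnalyticAt ℝ v q → ContinuousAt W q := by
    intro q hq
    rw [hW]
    have h1 : ContinuousAt (fun q : (ℝ × ℝ) × (ℂ × ℂ) =>
        ((0, v q, q.2) : (ℝ × ℝ) × (ℝ × ℝ) × (ℂ × ℂ))) q :=
      continuousAt_const.prodMk (hq.continuousAt.prodMk continuousAt_snd)
    exact continuousAt_const.add (L.continuous.continuousAt.comp h1)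
  have hWt : Tendsto (fun p : (ℝ × ℝ) × (ℝ × ℝ) × (ℂ × ℂ) => W p.2) (𝓝 (0, μ x₀, 0))
      (𝓝 x₀) := by
    have h1 := hWc _ hv
    unfold ContinuousAt at h1
    rw [hW0] at h1
    exact h1.comp (continuous_snd.tendsto' _ _ rfl)
  have ht1 : Tendsto (fun p : (ℝ × ℝ) × (ℝ × ℝ) × (ℂ × ℂ) => ((p.1, W p.2) : (ℝ × ℝ) × E))
      (𝓝 (0, μ x₀, 0)) (𝓝 (0, x₀)) :=
    (continuous_fst.tendsto' _ _ rfl).prodMk_nhds hWt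
  have ht2 : Tendsto (fun p : (ℝ × ℝ) × (ℝ × ℝ) × (ℂ × ℂ) => ((0, W p.2) : (ℝ × ℝ) × E))
      (𝓝 (0, μ x₀, 0)) (𝓝 (0, x₀)) := tendsto_const_nhds.prodMk_nhds hWt
  have ht3 : Tendsto (fun p : (ℝ × ℝ) × (ℝ × ℝ) × (ℂ × ℂ) => p.2) (𝓝 (0, μ x₀, 0))
      (𝓝 (μ x₀, 0)) := continuous_snd.tendsto' _ _ rfl
  have ht4 : Tendsto (fun p : (ℝ × ℝ) × (ℝ × ℝ) × (ℂ × ℂ) =>
      ((p.1, 0, W p.2) : (ℝ × ℝ) × (ℝ × ℝ) × E)) (𝓝 (0, μ x₀, 0)) (𝓝 (0, 0, x₀)) :=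
    (continuous_fst.tendsto' _ _ rfl).prodMk_nhds (tendsto_const_nhds.prodMk_nhds hWt)
  filter_upwards [ht1.eventually h.an.eventually_analyticAt,
    ht2.eventually h.an.eventually_analyticAt, ht3.eventually hv.eventually_analyticAt,
    ht1.eventually h.symp, hWt.eventually h.zero.eventually_nhds,
    ht3.eventually hv1.eventually_nhds, hWt.eventually h.ham,
    ht2.eventually h.inv.eventually_nhds, hWt.eventually h.anm.eventually_analyticAt,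
    ht4.eventually h.add.eventually_nhds] with p e1 e2 e3 e4 e5 e6 e7 e8 e9 e10 δ δ'
  have e10' : ∀ᶠ r : (ℝ × ℝ) × (ℝ × ℝ) × (ℂ × ℂ) in 𝓝 (0, p.2),
      G (p.1, G (r.1, W r.2)) = G (p.1 + r.1, W r.2) := by
    have hc : Tendsto (fun r : (ℝ × ℝ) × (ℝ × ℝ) × (ℂ × ℂ) =>
        ((p.1, r.1, W r.2) : (ℝ × ℝ) × (ℝ × ℝ) × E)) (𝓝 (0, p.2)) (𝓝 (p.1, 0, W p.2)) := by
      refine tendsto_const_nhds.prodMk_nhds ((continuous_fst.tendsto' _ _ rfl).prodMk_nhds ?_)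
      exact (hWc _ e3).tendsto.comp (continuous_snd.tendsto' _ _ rfl)
    exact hc.eventually e10
  have e6' : ∀ᶠ q' in 𝓝 p.2, μ (W q') = q'.1 := by
    rw [hW]
    exact e6
  have key := ChartD_pt halt L hL v W hW p.1 p.2 e1 e2 e3 e4 e5 e6' e7 e8 e9 e10' δ δ'
  rw [hW] at key
  exact key

end Pool.Agent.MP_5027f4_cont
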