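import Pool.Agent.Lib_MP_5027f4_cont.CohW

/-!
PIECE [Coh] (MP_5027f4_mp, T1).  The cohomological equation on homogeneous polynomials.

Use `words_of_HG`, `HG_of_words` of `CohW.lean` (write `y = yy`); the solution found with complex
coefficients is replaced by its real part (`f` is real, `Ld` is real linear).
`y (Ld μ₁ μ₂ z) j = μ̂ j * y z j` with `μ̂ = ![μ₁, μ₂, conj μ₁, conj μ₂]`, so the word `w` is multiplied
by `∏ i, μ̂ (w i)`.  If this product `Λ w` is not `1`, `c w / (Λ w - 1)` solves the equation.  If it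
is `1`: as `conj μⱼ = μⱼ⁻¹`, `Λ w = μ₁ ^ (n₀ - n₂) * μ₂ ^ (n₁ - n₃)` with `nⱼ` the number of letters
`j`, and `|n₀ - n₂| + |n₁ - n₃| ≤ d ≤ 4`, so `NonRes` gives `n₀ = n₂`, `n₁ = n₃`: then `d` is even and
the word is `|z.1| ^ (2 n₀) |z.2| ^ (2 n₁)`.
-/

open Set Filter Topology Metric Polynomial
open scoped ComplexConjugate ContDiff

namespace Pool.Agent.MP_5027f4_cont

/-- the multipliers of the letters -/
noncomputable def cohM (μ₁ μ₂ : ℂ) : Fin 4 → ℂ := ![μ₁, μ₂, conj μ₁, conj μ₂]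

theorem coh_yy_Ld (μ₁ μ₂ : ℂ) (z : ℂ × ℂ) (j : Fin 4) :
    yy (Ld μ₁ μ₂ z) j = cohM μ₁ μ₂ j * yy z j := by
  rw [Ld_apply]
  fin_cases j
  · rfl
  · rfl
  · exact map_mul (starRingEnd ℂ) μ₁ z.1
  · exact map_mul (starRingEnd ℂ) μ₂ z.2

/-- number of letters `j` -/
def cohN {d : ℕ} (w : Fin d → Fin 4) (j : Fin 4) : ℕ := (Finset.univ.filter (fun i => w i = j)).card

theorem coh_prod {d : ℕ} (w : Fin d → Fin 4) (f : Fin 4 → ℂ) :
    ∏ i, f (w i) = f 0 ^ cohN w 0 * f 1 ^ cohN w 1 * f 2 ^ cohN w 2 * f 3 ^ cohN w 3 := by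
  rw [← Finset.prod_fiberwise' Finset.univ w f, Fin.prod_univ_four]
  simp only [Finset.prod_const]
  rfl

theorem coh_sum {d : ℕ} (w : Fin d → Fin 4) :
    cohN w 0 + cohN w 1 + cohN w 2 + cohN w 3 = d := by
  have h := Finset.card_eq_sum_card_fiberwise (f := w) (s := (Finset.univ : Finset (Fin d)))
    (t := (Finset.univ : Finset (Fin 4))) (fun _ _ => Finset.mem_coe.mpr (Finset.mem_univ _))
  rw [Finset.card_univ, Fintype.card_fin, Fin.sum_univ_four] at h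
  exact h.symm

theorem coh_bal {μ₁ μ₂ : ℂ} (h₁ : ‖μ₁‖ = 1) (h₂ : ‖μ₂‖ = 1) (hn : NonRes μ₁ μ₂) {d : ℕ}
    (hd : d ≤ 4) (w : Fin d → Fin 4) (hw : ∏ i, cohM μ₁ μ₂ (w i) = 1) :
    cohN w 0 = cohN w 2 ∧ cohN w 1 = cohN w 3 := by
  by_contra hcon
  have hμ₁ : μ₁ ≠ 0 := by
    rintro rfl
    rw [norm_zero] at h₁
    exact zero_ne_one h₁
  have hμ₂ : μ₂ ≠ 0 := by
    rintro rfl
    rw [norm_zero] at h₂
    exact zero_ne_one h₂
  have hc₁ : conj μ₁ = μ₁⁻¹ := (Complex.inv_eq_conj h₁).symm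
  have hc₂ : conj μ₂ = μ₂⁻¹ := (Complex.inv_eq_conj h₂).symm
  have hsum := coh_sum w
  refine hn ((cohN w 0 : ℤ) - cohN w 2) ((cohN w 1 : ℤ) - cohN w 3) ?_ ?_ ?_
  · rw [not_and_or] at hcon
    omega
  · have ha : |(cohN w 0 : ℤ) - cohN w 2| ≤ (cohN w 0 : ℤ) + cohN w 2 := by
      rw [abs_le]
      omega
    have hb : |(cohN w 1 : ℤ) - cohN w 3| ≤ (cohN w 1 : ℤ) + cohN w 3 := by
      rw [abs_le]
      omega
    omega
  · rw [coh_prod] at hw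
    have e0 : cohM μ₁ μ₂ 0 = μ₁ := rfl
    have e1 : cohM μ₁ μ₂ 1 = μ₂ := rfl
    have e2 : cohM μ₁ μ₂ 2 = μ₁⁻¹ := hc₁
    have e3 : cohM μ₁ μ₂ 3 = μ₂⁻¹ := hc₂
    rw [e0, e1, e2, e3] at hw
    rw [zpow_sub₀ hμ₁, zpow_sub₀ hμ₂, zpow_natCast, zpow_natCast, zpow_natCast, zpow_natCast,
      ← hw, div_eq_mul_inv, div_eq_mul_inv, ← inv_pow, ← inv_pow]
    ring

theorem coh_word {d : ℕ} (w : Fin d → Fin 4) (h0 : cohN w 0 = cohN w 2)
    (h1 : cohN w 1 = cohN w 3) (z : ℂ × ℂ) :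
    ∏ i, yy z (w i) =
      ((Complex.normSq z.1 ^ cohN w 0 * Complex.normSq z.2 ^ cohN w 1 : ℝ) : ℂ) := by
  rw [coh_prod, ← h0, ← h1]
  have e0 : yy z 0 = z.1 := rfl
  have e1 : yy z 1 = z.2 := rfl
  have e2 : yy z 2 = conj z.1 := rfl
  have e3 : yy z 3 = conj z.2 := rfl
  rw [e0, e1, e2, e3]
  push_cast
  rw [← Complex.mul_conj, ← Complex.mul_conj, mul_pow, mul_pow]
  ring

/-- the general solution -/
theorem coh_gen {μ₁ μ₂ : ℂ} {d : ℕ} {f : ℂ × ℂ → ℝ} (hf : HG d f) :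
    ∃ (C : ℂ × ℂ → ℝ) (c : (Fin d → Fin 4) → ℂ), HG d C ∧
      (∀ w, c w ≠ 0 → ∏ i, cohM μ₁ μ₂ (w i) = 1) ∧
      ∀ z, f z = C (Ld μ₁ μ₂ z) - C z + (∑ w, c w * ∏ i, yy z (w i)).re := by
  classical
  obtain ⟨c, hc⟩ := words_of_HG hf
  refine ⟨fun z => (∑ w, (if ∏ i, cohM μ₁ μ₂ (w i) = 1 then 0 else
      c w / (∏ i, cohM μ₁ μ₂ (w i) - 1)) * ∏ i, yy z (w i)).re,
    fun w => if ∏ i, cohM μ₁ μ₂ (w i) = 1 then c w else 0, HG_of_words _, ?_, ?_⟩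
  · intro w hw
    by_contra h
    simp only at hw
    rw [if_neg h] at hw
    exact hw rfl
  · intro z
    have h1 : f z = (∑ w, c w * ∏ i, yy z (w i)).re := by
      rw [← hc z, Complex.ofReal_re]
    rw [h1, ← Complex.sub_re, ← Complex.add_re]
    congr 1
    rw [← Finset.sum_sub_distrib, ← Finset.sum_add_distrib]
    refine Finset.sum_congr rfl ?_
    intro w _
    have h2 : ∏ i, yy (Ld μ₁ μ₂ z) (w i) = (∏ i, cohM μ₁ μ₂ (w i)) * ∏ i, yy z (w i) := by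
      rw [← Finset.prod_mul_distrib]
      exact Finset.prod_congr rfl (fun i _ => coh_yy_Ld μ₁ μ₂ z (w i))
    rw [h2]
    beta_reduce
    split_ifs with h3
    · ring
    · have h4 : (∏ i, cohM μ₁ μ₂ (w i)) - 1 ≠ 0 := sub_ne_zero.mpr h3
      field_simp
      ring

/-- degrees 1 and 3: always solvable -/
theorem coh_odd {μ₁ μ₂ : ℂ} (h₁ : ‖μ₁‖ = 1) (h₂ : ‖μ₂‖ = 1) (hn : NonRes μ₁ μ₂) {d : ℕ}
    (hd : d = 1 ∨ d = 3) {f : ℂ × ℂ → ℝ} (hf : HG d f) :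
    ∃ C : ℂ × ℂ → ℝ, HG d C ∧ ∀ z, C (Ld μ₁ μ₂ z) - C z = f z := by
  obtain ⟨C, c, hC, hc, hz⟩ := coh_gen (μ₁ := μ₁) (μ₂ := μ₂) hf
  have h0 : ∀ w, c w = 0 := by
    intro w
    by_contra h
    have h3 := coh_bal h₁ h₂ hn (by omega) w (hc w h)
    have h4 := coh_sum w
    omega
  refine ⟨C, hC, fun z => ?_⟩
  have h5 : (∑ w, c w * ∏ i, yy z (w i)) = 0 :=
    Finset.sum_eq_zero (fun w _ => by rw [h0 w, zero_mul])
  have h6 := hz z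
  rw [h5, Complex.zero_re, add_zero] at h6
  exact h6.symm

/-- degree 2 -/
theorem coh_two {μ₁ μ₂ : ℂ} (h₁ : ‖μ₁‖ = 1) (h₂ : ‖μ₂‖ = 1) (hn : NonRes μ₁ μ₂)
    {f : ℂ × ℂ → ℝ} (hf : HG 2 f) :
    ∃ (C : ℂ × ℂ → ℝ) (β₁ β₂ : ℝ), HG 2 C ∧ ∀ z, f z = C (Ld μ₁ μ₂ z) - C z +
      β₁ * Complex.normSq z.1 + β₂ * Complex.normSq z.2 := by
  classical
  obtain ⟨C, c, hC, hc, hz⟩ := coh_gen (μ₁ := μ₁) (μ₂ := μ₂) hf
  refine ⟨C, (∑ w, if cohN w 0 = 1 then c w else 0).re, (∑ w, if cohN w 0 = 1 then 0 else c w).re,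
    hC, fun z => ?_⟩
  rw [hz z, add_assoc]
  congr 1
  have h3 : ∀ (a : ℂ) (t : ℝ), a.re * t = (a * (t : ℂ)).re := by
    intro a t
    rw [Complex.re_mul_ofReal]
  rw [h3, h3, ← Complex.add_re, Finset.sum_mul, Finset.sum_mul, ← Finset.sum_add_distrib]
  congr 1
  refine Finset.sum_congr rfl ?_
  intro w _
  by_cases hw : c w = 0
  · rw [hw]
    split_ifs <;> ring
  · have hb := coh_bal h₁ h₂ hn (by omega) w (hc w hw)
    have hs := coh_sum w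
    rw [coh_word w hb.1 hb.2 z]
    split_ifs with h4
    · have h5 : cohN w 1 = 0 := by omega
      rw [h4, h5]
      push_cast
      ring
    · have h6 : cohN w 0 = 0 := by omega
      have h5 : cohN w 1 = 1 := by omega
      rw [h6, h5]
      push_cast
      ring

/-- degree 4 -/
theorem coh_four {μ₁ μ₂ : ℂ} (h₁ : ‖μ₁‖ = 1) (h₂ : ‖μ₂‖ = 1) (hn : NonRes μ₁ μ₂)
    {f : ℂ × ℂ → ℝ} (hf : HG 4 f) :
    ∃ C b : ℂ × ℂ → ℝ, HG 4 C ∧ HG 4 b ∧ (∀ z, f z = C (Ld μ₁ μ₂ z) - C z + b z) ∧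
      ∀ (s t : ℂ) z, ‖s‖ = 1 → ‖t‖ = 1 → b (s * z.1, t * z.2) = b z := by
  obtain ⟨C, c, hC, hc, hz⟩ := coh_gen (μ₁ := μ₁) (μ₂ := μ₂) hf
  refine ⟨C, fun z => (∑ w, c w * ∏ i, yy z (w i)).re, hC, HG_of_words c, hz, ?_⟩
  intro s t z hs ht
  have hs2 : Complex.normSq s = 1 := by
    rw [Complex.normSq_eq_norm_sq, hs, one_pow]
  have ht2 : Complex.normSq t = 1 := by
    rw [Complex.normSq_eq_norm_sq, ht, one_pow]
  simp only
  congr 1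
  refine Finset.sum_congr rfl ?_
  intro w _
  by_cases hw : c w = 0
  · rw [hw, zero_mul, zero_mul]
  · have hb := coh_bal h₁ h₂ hn le_rfl w (hc w hw)
    rw [coh_word w hb.1 hb.2, coh_word w hb.1 hb.2]
    simp only
    rw [Complex.normSq_mul, Complex.normSq_mul, hs2, ht2, one_mul, one_mul]

end Pool.Agent.MP_5027f4_cont
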