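import Pool.Agent.Lib_MP_5027f4_cont.HomApi

/-!
PIECE [CohW] (MP_5027f4_mp, T1).  Homogeneous polynomials as combinations of words in
`z₁, z₂, conj z₁, conj z₂`.
-/

open Set Filter Topology Metric Polynomial Asymptotics
open scoped ComplexConjugate ContDiff

namespace Pool.Agent.MP_5027f4_cont

/-- the letters -/
noncomputable def yy (z : ℂ × ℂ) : Fin 4 → ℂ := ![z.1, z.2, conj z.1, conj z.2]

/-- real coordinates -/
private noncomputable def cw_x (z : ℂ × ℂ) : Fin 4 → ℝ := ![z.1.re, z.1.im, z.2.re, z.2.im]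

/-- real basis -/
private noncomputable def cw_e : Fin 4 → ℂ × ℂ := ![(1, 0), (Complex.I, 0), (0, 1), (0, Complex.I)]

/-- change of coordinates -/
private noncomputable def cw_M : Fin 4 → Fin 4 → ℂ :=
  ![![1 / 2, 0, 1 / 2, 0], ![-Complex.I / 2, 0, Complex.I / 2, 0], ![0, 1 / 2, 0, 1 / 2],
    ![0, -Complex.I / 2, 0, Complex.I / 2]]

private theorem cw_sum (z : ℂ × ℂ) : z = ∑ k, cw_x z k • cw_e k := by
  simp only [Fin.sum_univ_four, cw_x, cw_e, Matrix.cons_val_zero, Matrix.cons_val_one,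
    Matrix.cons_val]
  ext <;> simp

private theorem cw_coord (z : ℂ × ℂ) (k : Fin 4) : (cw_x z k : ℂ) = ∑ j, cw_M k j * yy z j := by
  have h1 : (z.1.re : ℂ) = 1 / 2 * z.1 + 1 / 2 * conj z.1 := by
    apply Complex.ext <;> simp <;> ring
  have h2 : (z.1.im : ℂ) = -Complex.I / 2 * z.1 + Complex.I / 2 * conj z.1 := by
    apply Complex.ext <;> simp <;> ring
  have h3 : (z.2.re : ℂ) = 1 / 2 * z.2 + 1 / 2 * conj z.2 := by
    apply Complex.ext <;> simp <;> ring
  have h4 : (z.2.im : ℂ) = -Complex.I / 2 * z.2 + Complex.I / 2 * conj z.2 := by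
    apply Complex.ext <;> simp <;> ring
  fin_cases k
  · simp only [Fin.sum_univ_four, cw_x, cw_M, yy, Fin.zero_eta, Matrix.cons_val_zero,
      Matrix.cons_val_one, Matrix.cons_val]
    rw [h1]; ring
  · simp only [Fin.sum_univ_four, cw_x, cw_M, yy, Fin.mk_one, Matrix.cons_val_zero,
      Matrix.cons_val_one, Matrix.cons_val]
    rw [h2]; ring
  · simp only [Fin.sum_univ_four, cw_x, cw_M, yy, Fin.reduceFinMk, Matrix.cons_val_zero,
      Matrix.cons_val_one, Matrix.cons_val]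
    rw [h3]; ring
  · simp only [Fin.sum_univ_four, cw_x, cw_M, yy, Fin.reduceFinMk, Matrix.cons_val_zero,
      Matrix.cons_val_one, Matrix.cons_val]
    rw [h4]; ring

/-- Proof.  The four real coordinates `x₀ = z.1.re`, .. are real linear functions and
`(x_k z : ℂ) = Σ_j M k j * yy z j` for a fixed complex matrix `M`.  With the real basis
`e = ![(1,0), (I,0), (0,1), (0,I)]`, `z = Σ_k x_k(z) • e k`,
`T (z, …, z) = Σ_{u : Fin d → Fin 4} (∏ i, x_{u i}(z)) T (e ∘ u)` (`MultilinearMap.map_sum`,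
`map_smul_univ`), and `∏ i, Σ_j M (u i) j yy z j = Σ_w ∏ i, M (u i) (w i) yy z (w i)`
(`Finset.prod_univ_sum`). -/
theorem words_of_HG {d : ℕ} {f : ℂ × ℂ → ℝ} (hf : HG d f) :
    ∃ c : (Fin d → Fin 4) → ℂ, ∀ z, (f z : ℂ) = ∑ w, c w * ∏ i, yy z (w i) := by
  obtain ⟨T, hT⟩ := hf
  refine ⟨fun w => ∑ u : Fin d → Fin 4, (T (fun i => cw_e (u i)) : ℂ) * ∏ i, cw_M (u i) (w i),
    fun z => ?_⟩
  have h1 : f z = ∑ u : Fin d → Fin 4, (∏ i, cw_x z (u i)) * T (fun i => cw_e (u i)) := by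
    rw [hT]
    have h2 : (fun _ : Fin d => z) = fun _ : Fin d => ∑ k, cw_x z k • cw_e k := by
      funext i
      exact cw_sum z
    conv_lhs => rw [h2]
    rw [ContinuousMultilinearMap.map_sum]
    refine Finset.sum_congr rfl fun u _ => ?_
    rw [ContinuousMultilinearMap.map_smul_univ, smul_eq_mul]
  have h3 : ∀ u : Fin d → Fin 4, ((∏ i, cw_x z (u i) : ℝ) : ℂ) =
      ∑ w : Fin d → Fin 4, ∏ i, (cw_M (u i) (w i) * yy z (w i)) := by
    intro u
    push_cast
    rw [Finset.prod_congr rfl fun i _ => cw_coord z (u i), Finset.prod_univ_sum,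
      Fintype.piFinset_univ]
  rw [h1]
  push_cast
  have h4 : ∀ u : Fin d → Fin 4, (∏ i, (cw_x z (u i) : ℂ)) * (T (fun i => cw_e (u i)) : ℂ) =
      ∑ w : Fin d → Fin 4, (T (fun i => cw_e (u i)) : ℂ) * (∏ i, cw_M (u i) (w i)) *
        ∏ i, yy z (w i) := by
    intro u
    have h5 := h3 u
    push_cast at h5
    rw [h5, Finset.sum_mul]
    refine Finset.sum_congr rfl fun w _ => ?_
    rw [Finset.prod_mul_distrib]
    ring
  rw [Finset.sum_congr rfl fun u _ => h4 u, Finset.sum_comm]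
  refine Finset.sum_congr rfl fun w _ => ?_
  rw [Finset.sum_mul]

/-- the letters as linear maps -/
private noncomputable def cw_L : Fin 4 → (ℂ × ℂ) →L[ℝ] ℂ :=
  ![ContinuousLinearMap.fst ℝ ℂ ℂ, ContinuousLinearMap.snd ℝ ℂ ℂ,
    (Complex.conjCLE : ℂ →L[ℝ] ℂ).comp (ContinuousLinearMap.fst ℝ ℂ ℂ),
    (Complex.conjCLE : ℂ →L[ℝ] ℂ).comp (ContinuousLinearMap.snd ℝ ℂ ℂ)]

private theorem cw_L_apply (z : ℂ × ℂ) (j : Fin 4) : cw_L j z = yy z j := by
  fin_cases j
  · rfl
  · rfl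
  · rfl
  · rfl

/-- Proof.  `v ↦ Re (Σ_w c w * ∏ i, yy (v i) (w i))` is real multilinear and continuous
(`ContinuousMultilinearMap.mkPiAlgebra` composed with the real linear maps `yy · j`, sums, and
`Complex.reCLM`). -/
theorem HG_of_words {d : ℕ} (c : (Fin d → Fin 4) → ℂ) :
    HG d (fun z => (∑ w, c w * ∏ i, yy z (w i)).re) := by
  refine ⟨∑ w : Fin d → Fin 4,
    (Complex.reCLM.comp (ContinuousLinearMap.mul ℝ ℂ (c w))).compContinuousMultilinearMap
      ((ContinuousMultilinearMap.mkPiAlgebra ℝ (Fin d) ℂ).compContinuousLinearMap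
        (fun i => cw_L (w i))), fun z => ?_⟩
  change (∑ w, c w * ∏ i, yy z (w i)).re = _
  rw [_root_.sum_apply, Complex.re_sum]
  refine Finset.sum_congr rfl fun w _ => ?_
  rw [ContinuousLinearMap.compContinuousMultilinearMap_coe]
  simp only [Function.comp_apply, ContinuousMultilinearMap.compContinuousLinearMap_apply,
    ContinuousMultilinearMap.mkPiAlgebra_apply, ContinuousLinearMap.comp_apply,
    ContinuousLinearMap.mul_apply', Complex.reCLM_apply, cw_L_apply]

end Pool.Agent.MP_5027f4_cont
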