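import Pool.Agent.Lib_MP_5027f4_cont.DTime

/-!
PIECE [DLMs] (MP_5027f4_mp, T1).  The time T map is symplectic.
-/

open Set Filter Topology Metric Polynomial
open scoped ComplexConjugate ContDiff
open Pool.Agent.MP_5027f4_mp

namespace Pool.Agent.MP_5027f4_cont

variable {m : Fin 3 → ℝ} {S₀ T₀ : ℝ} {X₀ X₁ : Up} {σ : comSub m → Up}
  {Ψ : ℝ × (Up × ℝ × ℝ) → Up × ℝ × ℝ} {sT : ℝ × comSub m → ℝ}

theorem Run.gam_eq {h S T : ℝ} {X X' : Up} (hr : Run m h S X T X') :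
    Gam m h X' = Gam m h X := by
  obtain ⟨c, hc, h0, h1, -⟩ := hr
  have := SolOn.gam_eq hc (s := S) right_mem_uIcc
  rw [h0, h1] at this
  exact this

theorem contDiff_swap_aux {F : ℝ → Up → ℝ} (hF : ContDiff ℝ ω (fun p : Up × ℝ => F p.2 p.1)) :
    ContDiff ℝ ω (fun Y : Up × ℝ × ℝ => F Y.2.1 Y.1) := by
  have h2 : ContDiff ℝ ω (fun Y : Up × ℝ × ℝ => ((Y.1, Y.2.1) : Up × ℝ)) :=
    contDiff_fst.prodMk (contDiff_fst.comp contDiff_snd)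
  exact hF.comp h2

theorem contDiff_GamY (m : Fin 3 → ℝ) : ContDiff ℝ ω (fun Y : Up × ℝ × ℝ => Gam m Y.2.1 Y.1) :=
  contDiff_swap_aux (F := Gam m) (contDiff_Gam m)

/-- the pointwise form -/
theorem symp_pointwise (hM : MM m ≠ 0) (hm : ∀ a, m a ≠ 0) {p : ℝ × comSub m}
    (hσ : DifferentiableAt ℝ σ p.2)
    (hsec : ∀ᶠ y in 𝓝 p.2, Nonc (σ y) ∧ pE m (σ y) = y)
    (hμ : DifferentiableAt ℝ (muE m) p.2)
    (hΨ : DifferentiableAt ℝ Ψ (sT p, (σ p.2, (muE m p.2).1, 0)))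
    (hrun : ∀ᶠ q : ℝ × (Up × ℝ × ℝ) in 𝓝 (sT p, (σ p.2, (muE m p.2).1, 0)), q.2.2.2 = 0 →
      Run m q.2.2.1 q.1 q.2.1 (Ψ q).2.2 (Ψ q).1 ∧ (Ψ q).2.1 = q.2.2.1)
    (hdΨ : fderiv ℝ Ψ (sT p, (σ p.2, (muE m p.2).1, 0)) (1, 0) =
      VV m (Ψ (sT p, (σ p.2, (muE m p.2).1, 0))))
    (hsymp : ∀ ξ η, oY (fderiv ℝ Ψ (sT p, (σ p.2, (muE m p.2).1, 0)) (0, ξ))
      (fderiv ℝ Ψ (sT p, (σ p.2, (muE m p.2).1, 0)) (0, η)) = oY ξ η)
    (hs : DifferentiableAt ℝ sT p)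
    (hleft : ∀ᶠ p' : ℝ × comSub m in 𝓝 p,
      (Ψ (sT p', (σ p'.2, (muE m p'.2).1, 0))).2.2 = p'.1)
    (hnc : Nonc (Ψ (sT p, (σ p.2, (muE m p.2).1, 0))).1) (ξ η : comSub m) :
    omE m (fderiv ℝ (fun p : ℝ × comSub m => pE m (Ψ (sT p, (σ p.2, (muE m p.2).1, 0))).1) p
        (0, ξ))
      (fderiv ℝ (fun p : ℝ × comSub m => pE m (Ψ (sT p, (σ p.2, (muE m p.2).1, 0))).1) p
        (0, η)) = omE m ξ η := by
  obtain ⟨Ω, hΩ, hΩ0⟩ := exists_oY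
  -- derivative of the energy
  obtain ⟨De, hDe⟩ : ∃ De : comSub m →L[ℝ] ℝ, HasFDerivAt (fun y => (muE m y).1) De p.2 :=
    ⟨_, hμ.hasFDerivAt.fst⟩
  set Dσ := fderiv ℝ σ p.2 with hDσ
  have hσ' : HasFDerivAt σ Dσ p.2 := hσ.hasFDerivAt
  -- derivative of `Y`
  have hY : HasFDerivAt (fun y : comSub m => ((σ y, (muE m y).1, 0) : Up × ℝ × ℝ))
      (Dσ.prod (De.prod (0 : comSub m →L[ℝ] ℝ))) p.2 :=
    hσ'.prodMk (hDe.prodMk (hasFDerivAt_const _ _))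
  have hY2 : HasFDerivAt (fun p : ℝ × comSub m => ((σ p.2, (muE m p.2).1, 0) : Up × ℝ × ℝ))
      ((Dσ.prod (De.prod (0 : comSub m →L[ℝ] ℝ))).comp
        (ContinuousLinearMap.snd ℝ ℝ (comSub m))) p :=
    hY.comp p hasFDerivAt_snd
  have hZ : HasFDerivAt (fun p : ℝ × comSub m =>
      ((sT p, (σ p.2, (muE m p.2).1, 0)) : ℝ × (Up × ℝ × ℝ)))
      ((fderiv ℝ sT p).prod ((Dσ.prod (De.prod (0 : comSub m →L[ℝ] ℝ))).comp
        (ContinuousLinearMap.snd ℝ ℝ (comSub m)))) p :=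
    hs.hasFDerivAt.prodMk hY2
  set Zp : ℝ × (Up × ℝ × ℝ) := (sT p, (σ p.2, (muE m p.2).1, 0)) with hZp
  set DΨ := fderiv ℝ Ψ Zp with hDΨ
  have hΨ' : HasFDerivAt Ψ DΨ Zp := hΨ.hasFDerivAt
  have hA : HasFDerivAt (fun p : ℝ × comSub m => Ψ (sT p, (σ p.2, (muE m p.2).1, 0)))
      (DΨ.comp ((fderiv ℝ sT p).prod ((Dσ.prod (De.prod (0 : comSub m →L[ℝ] ℝ))).comp
        (ContinuousLinearMap.snd ℝ ℝ (comSub m))))) p :=
    hΨ'.comp p hZ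
  set DA := DΨ.comp ((fderiv ℝ sT p).prod ((Dσ.prod (De.prod (0 : comSub m →L[ℝ] ℝ))).comp
        (ContinuousLinearMap.snd ℝ ℝ (comSub m)))) with hDA
  set u : comSub m → Up × ℝ × ℝ := fun ξ => DΨ (0, (Dσ ξ, De ξ, 0)) with hu
  have hDAv : ∀ ξ : comSub m, DA (0, ξ) = (fderiv ℝ sT p (0, ξ)) • VV m (Ψ Zp) + u ξ := by
    intro ξ
    have e1 : DA (0, ξ) = DΨ (fderiv ℝ sT p (0, ξ), (Dσ ξ, De ξ, 0)) := rfl
    have e2 : ((fderiv ℝ sT p (0, ξ), (Dσ ξ, De ξ, 0)) : ℝ × (Up × ℝ × ℝ)) =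
        (fderiv ℝ sT p (0, ξ)) • ((1, 0) : ℝ × (Up × ℝ × ℝ)) + (0, (Dσ ξ, De ξ, 0)) := by
      simp
    rw [e1, e2, map_add, map_smul, hdΨ]
  -- (1) conservation of `Γ̂`
  have hgam : ∀ η : comSub m, Ω (VV m (Ψ Zp)) (u η) = 0 := by
    intro η
    have hc1 : Continuous fun y : Up × ℝ × ℝ => ((sT p, y) : ℝ × (Up × ℝ × ℝ)) := by fun_prop
    have hcont : ContinuousAt (fun y : comSub m =>
        ((sT p, (σ y, (muE m y).1, 0)) : ℝ × (Up × ℝ × ℝ))) p.2 :=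
      hc1.continuousAt.comp (f := fun y : comSub m => ((σ y, (muE m y).1, 0) : Up × ℝ × ℝ))
        hY.continuousAt
    have hzero : (fun y : comSub m => Gam m (Ψ (sT p, (σ y, (muE m y).1, 0))).2.1
        (Ψ (sT p, (σ y, (muE m y).1, 0))).1) =ᶠ[𝓝 p.2] fun _ => (0 : ℝ) := by
      filter_upwards [hcont.eventually hrun, hsec] with y h1 h2
      obtain ⟨h3, h4⟩ := h1 rfl
      have h5 := h3.gam_eq
      rw [h4]
      rw [h5]
      refine (Gam_eq_zero_iff hM hm h2.1 _).2 ?_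
      rw [h2.2]
    have hG : HasFDerivAt (fun Y : Up × ℝ × ℝ => Gam m Y.2.1 Y.1)
        (fderiv ℝ (fun Y : Up × ℝ × ℝ => Gam m Y.2.1 Y.1) (Ψ Zp)) (Ψ Zp) :=
      ((contDiff_GamY m).differentiable (by simp) (Ψ Zp)).hasFDerivAt
    have hYS : HasFDerivAt (fun y : comSub m =>
        ((sT p, (σ y, (muE m y).1, 0)) : ℝ × (Up × ℝ × ℝ)))
        ((0 : comSub m →L[ℝ] ℝ).prod (Dσ.prod (De.prod (0 : comSub m →L[ℝ] ℝ)))) p.2 :=
      (hasFDerivAt_const _ _).prodMk hY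
    have hchain := hG.comp p.2 (hΨ'.comp p.2 hYS)
    have h6 := hchain.unique ((hasFDerivAt_const (0 : ℝ) p.2).congr_of_eventuallyEq hzero)
    have h7 := congrArg (fun L : comSub m →L[ℝ] ℝ => L η) h6
    have h8 : fderiv ℝ (fun Y : Up × ℝ × ℝ => Gam m Y.2.1 Y.1) (Ψ Zp) (u η) = 0 := h7
    rw [hΩ, oY_VV]
    exact h8
  have hanti : ∀ a b, Ω a b = - Ω b a := by
    intro a b
    have h1 := hΩ0 (a + b)
    simp only [map_add, add_apply, hΩ0] at h1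
    linarith
  -- (2)
  have h2 : ∀ ξ η : comSub m, oY (DA (0, ξ)) (DA (0, η)) = omE m ξ η := by
    intro ξ η
    have e1 : Ω (DA (0, ξ)) (DA (0, η)) = Ω (u ξ) (u η) := by
      rw [hDAv, hDAv]
      simp only [map_add, add_apply, map_smul, smul_apply, smul_eq_mul, hΩ0, hgam,
        hanti (u ξ) (VV m (Ψ Zp))]
      ring
    have e2 : oY (u ξ) (u η) = oU (Dσ ξ) (Dσ η) := by
      rw [hu]
      simp only
      rw [hsymp]
      simp [oY]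
    have hX := hsec.self_of_nhds
    have e3 : ∀ ξ : comSub m, fderiv ℝ (pE m) (σ p.2) (Dσ ξ) = ξ := by
      intro ξ
      have h3 : HasFDerivAt (pE m) (fderiv ℝ (pE m) (σ p.2)) (σ p.2) :=
        (analyticAt_pE m hX.1).differentiableAt.hasFDerivAt
      have h4 := h3.comp p.2 hσ'
      have h5 : (fun y => pE m (σ y)) =ᶠ[𝓝 p.2] fun y => y := hsec.mono fun y hy => hy.2
      have h6 := h4.unique ((hasFDerivAt_id p.2).congr_of_eventuallyEq h5)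
      exact congrArg (fun L : comSub m →L[ℝ] comSub m => L ξ) h6
    rw [← hΩ, e1, hΩ, e2, ← pE_symp hM hm hX.1, e3, e3, omE_apply]
  -- (3)
  have hX' : HasFDerivAt (fun p : ℝ × comSub m => (Ψ (sT p, (σ p.2, (muE m p.2).1, 0))).1)
      ((ContinuousLinearMap.fst ℝ Up (ℝ × ℝ)).comp DA) p := hA.fst
  have hA21 : ∀ ξ : comSub m, (DA (0, ξ)).2.1 = De ξ := by
    intro ξ
    have h3 : HasFDerivAt (fun p : ℝ × comSub m => (Ψ (sT p, (σ p.2, (muE m p.2).1, 0))).2.1)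
        ((ContinuousLinearMap.fst ℝ ℝ ℝ).comp ((ContinuousLinearMap.snd ℝ Up (ℝ × ℝ)).comp DA))
        p := hA.snd.fst
    have h4 : HasFDerivAt (fun p : ℝ × comSub m => (muE m p.2).1)
        (De.comp (ContinuousLinearMap.snd ℝ ℝ (comSub m))) p := hDe.comp p hasFDerivAt_snd
    have h5 : (fun p : ℝ × comSub m => (Ψ (sT p, (σ p.2, (muE m p.2).1, 0))).2.1) =ᶠ[𝓝 p]
        fun p => (muE m p.2).1 := by
      filter_upwards [hZ.continuousAt.eventually hrun] with p' h6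
      exact (h6 rfl).2
    have h6 := h3.unique (h4.congr_of_eventuallyEq h5)
    exact congrArg (fun L : (ℝ × comSub m) →L[ℝ] ℝ => L (0, ξ)) h6
  have hA22 : ∀ ξ : comSub m, (DA (0, ξ)).2.2 = 0 := by
    intro ξ
    have h3 : HasFDerivAt (fun p : ℝ × comSub m => (Ψ (sT p, (σ p.2, (muE m p.2).1, 0))).2.2)
        ((ContinuousLinearMap.snd ℝ ℝ ℝ).comp ((ContinuousLinearMap.snd ℝ Up (ℝ × ℝ)).comp DA))
        p := hA.snd.snd
    have h4 : HasFDerivAt (fun p : ℝ × comSub m => p.1)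
        (ContinuousLinearMap.fst ℝ ℝ (comSub m)) p := hasFDerivAt_fst
    have h6 := h3.unique (h4.congr_of_eventuallyEq hleft)
    exact congrArg (fun L : (ℝ × comSub m) →L[ℝ] ℝ => L (0, ξ)) h6
  have hΦ : HasFDerivAt (fun p : ℝ × comSub m =>
      pE m (Ψ (sT p, (σ p.2, (muE m p.2).1, 0))).1)
      ((fderiv ℝ (pE m) (Ψ Zp).1).comp ((ContinuousLinearMap.fst ℝ Up (ℝ × ℝ)).comp DA)) p := by
    have h3 : HasFDerivAt (pE m) (fderiv ℝ (pE m) (Ψ Zp).1) (Ψ Zp).1 :=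
      (analyticAt_pE m hnc).differentiableAt.hasFDerivAt
    exact h3.comp p hX'
  rw [hΦ.fderiv, omE_apply]
  have h7 : oP m (fderiv ℝ (pE m) (Ψ Zp).1 (DA (0, ξ)).1 : comSub m)
      (fderiv ℝ (pE m) (Ψ Zp).1 (DA (0, η)).1 : comSub m) = oU (DA (0, ξ)).1 (DA (0, η)).1 :=
    pE_symp hM hm hnc _ _
  have h8 : oY (DA (0, ξ)) (DA (0, η)) = oU (DA (0, ξ)).1 (DA (0, η)).1 := by
    rw [oY, hA21, hA21, hA22, hA22]
    ring
  rw [← h2 ξ η, h8]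
  exact h7

/-- Proof.  Fix `p = (T, y)` near the base point, `e (y) = (muE m y).1`, `Y (y) = (σ y, e y, 0)`,
`A (y) = Ψ (sT (T, y), Y y)`.  Chain rule: `DA ξ = DΨ (0, a_ξ) + s_ξ • VV m (A y)` with
`a_ξ = (Dσ ξ, De ξ, 0)`, `s_ξ = D sT (0, ξ)` (`dΨ`).
(1) `Γ̂ Z = Gam m Z.2.1 Z.1` is constant along runs: `Γ̂ (Ψ (S, Z)) = Γ̂ Z` if `Z.2.2 = 0` (`runΨ`,
`SolOn.gam_eq`), and `Γ̂ (Y y) = 0` (`Gam_eq_zero_iff`, `sec`).  So
`DΓ̂ (A y) (DΨ (0, a_η)) = DΓ̂ (Y y) a_η = 0` (`a_η` is the derivative of a curve `Y`), i.e.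
`oY (VV (A y)) (DΨ (0, a_η)) = 0` (`oY_VV`); also `oY (VV) (VV) = 0`.
(2) Hence `oY (DA ξ) (DA η) = oY (DΨ (0, a_ξ)) (DΨ (0, a_η)) = oY a_ξ a_η = oU (Dσ ξ) (Dσ η)
= omE ξ η` (`symp`, `pE_symp` at `σ y`, `D(pE) ∘ Dσ = id`).
(3) `A y = (X', e y, T)` for `y` near (`left`, `runΨ`), so `DA ξ = (DX' ξ, De ξ, 0)` and
`oY (DA ξ) (DA η) = oU (DX' ξ) (DX' η) = omE (D(pE ∘ X') ξ) (D(pE ∘ X') η)` (`pE_symp` at `X'`,
which is `Nonc` as it is near `X₁`). -/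
theorem symp_of_data (hm : ∀ a, 0 < m a) (hd : TimeData m T₀ S₀ X₀ X₁ σ Ψ sT) :
    ∀ᶠ p : ℝ × comSub m in 𝓝 (T₀, pE m X₀), ∀ ξ η : comSub m,
      omE m (fderiv ℝ (fun p : ℝ × comSub m => pE m (Ψ (sT p, (σ p.2, (muE m p.2).1, 0))).1) p
          (0, ξ))
        (fderiv ℝ (fun p : ℝ × comSub m => pE m (Ψ (sT p, (σ p.2, (muE m p.2).1, 0))).1) p
          (0, η)) = omE m ξ η := by
  have hm' : ∀ a, m a ≠ 0 := fun a => (hm a).ne'
  have hM : MM m ≠ 0 := by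
    have h0 := hm 0
    have h1 := hm 1
    have h2 := hm 2
    unfold MM
    positivity
  have hy0 : pE m X₀ ∈ noColl₀ m := pE_noColl hM hm' hd.nc0
  have hsnd : Tendsto (fun p : ℝ × comSub m => p.2) (𝓝 (T₀, pE m X₀)) (𝓝 (pE m X₀)) :=
    continuous_snd.tendsto _
  have hμ0 : AnalyticAt ℝ (muE m) (pE m X₀) := analyticAt_muE m hy0
  have hcσ : ContinuousAt (fun p : ℝ × comSub m => σ p.2) (T₀, pE m X₀) :=
    hd.anσ.continuousAt.comp (f := fun p : ℝ × comSub m => p.2) (x := (T₀, pE m X₀))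
      continuous_snd.continuousAt
  have hcμ : ContinuousAt (fun p : ℝ × comSub m => (muE m p.2).1) (T₀, pE m X₀) :=
    continuous_fst.continuousAt.comp (f := fun p : ℝ × comSub m => muE m p.2)
      (hμ0.continuousAt.comp (f := fun p : ℝ × comSub m => p.2) (x := (T₀, pE m X₀))
        continuous_snd.continuousAt)
  have hZc : ContinuousAt (fun p : ℝ × comSub m =>
      ((sT p, (σ p.2, (muE m p.2).1, 0)) : ℝ × (Up × ℝ × ℝ))) (T₀, pE m X₀) :=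
    hd.ans.continuousAt.prodMk (hcσ.prodMk (hcμ.prodMk continuousAt_const))
  have hZ0 : ((sT (T₀, pE m X₀), (σ (pE m X₀), (muE m (pE m X₀)).1, 0)) : ℝ × (Up × ℝ × ℝ)) =
      (S₀, (X₀, (muE m (pE m X₀)).1, 0)) := by rw [hd.s0, hd.σ0]
  have hZt : Tendsto (fun p : ℝ × comSub m =>
      ((sT p, (σ p.2, (muE m p.2).1, 0)) : ℝ × (Up × ℝ × ℝ))) (𝓝 (T₀, pE m X₀))
      (𝓝 (S₀, (X₀, (muE m (pE m X₀)).1, 0))) := by
    have := hZc.tendsto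
    rw [← hZ0]
    exact this
  have hAc : Tendsto (fun p : ℝ × comSub m => (Ψ (sT p, (σ p.2, (muE m p.2).1, 0))).1)
      (𝓝 (T₀, pE m X₀)) (𝓝 X₁) := by
    have h1 := (continuous_fst.tendsto (Ψ (S₀, (X₀, (muE m (pE m X₀)).1, 0)))).comp
      (hd.anΨ.continuousAt.tendsto.comp hZt)
    rw [hd.Ψ0] at h1
    exact h1
  have hnc : ∀ᶠ p : ℝ × comSub m in 𝓝 (T₀, pE m X₀),
      Nonc (Ψ (sT p, (σ p.2, (muE m p.2).1, 0))).1 :=
    hAc.eventually (isOpen_Nonc.mem_nhds hd.nc1)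
  filter_upwards [hsnd.eventually (hd.anσ.eventually_analyticAt),
    hsnd.eventually hd.sec.eventually_nhds, hsnd.eventually hμ0.eventually_analyticAt,
    hZt.eventually hd.anΨ.eventually_analyticAt, hZt.eventually hd.runΨ.eventually_nhds,
    hZt.eventually hd.dΨ, hZt.eventually hd.symp, hd.ans.eventually_analyticAt,
    hd.left.eventually_nhds, hnc] with p a1 a2 a3 a4 a5 a6 a7 a8 a9 a10
  exact symp_pointwise hM hm' a1.differentiableAt a2 a3.differentiableAt a4.differentiableAt a5 a6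
    a7 a8.differentiableAt a9 a10

end Pool.Agent.MP_5027f4_cont
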