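import Pool.Agent.Lib_MP_5027f4_cont.DLMa
import Pool.Agent.Lib_MP_5027f4_cont.DLMs

/-!
PIECE [DEq] (MP_5027f4_mp, T1).  Time T maps: existence, uniqueness, symplecticity, first integrals.
-/

open Set Filter Topology Metric Polynomial
open scoped ComplexConjugate ContDiff
open Pool.Agent.MP_5027f4_mp

namespace Pool.Agent.MP_5027f4_cont

variable {m : Fin 3 → ℝ} {S T : ℝ} {X₀ X₁ X₁' : Up} {Φ Φ' : ℝ × comSub m → comSub m}

theorem exists_LM (hm : ∀ a, 0 < m a) (hr : Run m (muE m (pE m X₀)).1 S X₀ T X₁)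
    (h0 : Nonc X₀) (h1 : Nonc X₁) : ∃ Φ, LM m T S X₀ X₁ Φ := by
  obtain ⟨σ, Ψ, sT, hd⟩ := exists_timeData hm hr h0 h1
  exact ⟨_, LM_of_data hm hd⟩

/-- the value at the base point (`run` at the base point, `Eventually.self_of_nhds`) -/
theorem LM.base (h : LM m T S X₀ X₁ Φ) : Φ (T, pE m X₀) = pE m X₁ :=
  (h.run.self_of_nhds T X₁ h.run0).symm

/-- the projection which forgets the end point is continuous -/
theorem deq_proj {P : ℝ × Up → Prop} {a : ℝ} {X Y : Up} (h : ∀ᶠ q in 𝓝 (a, X), P q) :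
    {q : ℝ × Up × Up | P (q.1, q.2.1)} ∈ 𝓝 ((a, X, Y) : ℝ × Up × Up) := by
  have hc : ContinuousAt (fun q : ℝ × Up × Up => (q.1, q.2.1)) (a, X, Y) := by
    fun_prop
  exact hc.eventually h

/-- two maps which satisfy `run` near the base point of a time `T` map agree there -/
theorem deq_agree {T' : ℝ} {X : Up} {S' : ℝ} {Φ'' : ℝ × comSub m → comSub m}
    (h : ∀ᶠ q : ℝ × Up in 𝓝 (S', X), ∀ T' X', Run m (muE m (pE m q.2)).1 q.1 q.2 T' X' →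
      pE m X' = Φ (T', pE m q.2))
    (h'' : LM m T' S' X X₁' Φ'') : Φ'' =ᶠ[𝓝 (T', pE m X)] Φ := by
  have h1 := h''.ex _ (deq_proj (Y := X₁') (h.and h''.run))
  filter_upwards [h1] with p hp
  obtain ⟨q, ⟨hq1, hq2⟩, hq3, hq4⟩ := hp
  rw [hq3] at hq1 hq2
  exact (hq2 _ _ hq4).symm.trans (hq1 _ _ hq4)

/-- Proof: `ex` of `h` gives for `p` near the base point a run close to the base run with
`pE m X' = Φ p` (`run` of `h`) and `pE m X' = Φ' p` (`run` of `h'`). -/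
theorem LM.eventuallyEq (h : LM m T S X₀ X₁ Φ) (h' : LM m T S X₀ X₁' Φ') :
    Φ =ᶠ[𝓝 (T, pE m X₀)] Φ' :=
  (deq_agree h.run h').symm

/-- Time `T` maps with nearby base runs are the same germ.  Proof: the property `run` of `h` holds
at all points near `q` too (`Filter.Eventually.eventually_nhds`); combine it with `ex` and `run` of
`h'`. -/
theorem LM.near (h : LM m T S X₀ X₁ Φ) : ∀ᶠ q : ℝ × Up in 𝓝 (S, X₀), ∀ T' X' Φ',
    LM m T' q.1 q.2 X' Φ' → Φ' =ᶠ[𝓝 (T', pE m q.2)] Φ := by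
  filter_upwards [h.run.eventually_nhds] with q hq T' X' Φ' h'
  exact deq_agree (S' := q.1) (X := q.2) hq h'

/-- the run property with all side conditions -/
theorem LM.exists_run (h : LM m T S X₀ X₁ Φ) {𝒩 : Set (ℝ × Up × Up)}
    (h𝒩 : 𝒩 ∈ 𝓝 ((S, X₀, X₁) : ℝ × Up × Up)) :
    ∀ᶠ p : ℝ × comSub m in 𝓝 (T, pE m X₀), ∃ q ∈ 𝒩, pE m q.2.1 = p.2 ∧
      Run m (muE m p.2).1 q.1 q.2.1 p.1 q.2.2 ∧ Nonc q.2.1 ∧ Nonc q.2.2 ∧ pE m q.2.2 = Φ p := by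
  have e1 : {q : ℝ × Up × Up | Nonc q.2.1} ∈ 𝓝 ((S, X₀, X₁) : ℝ × Up × Up) := by
    have hc : Continuous (fun q : ℝ × Up × Up => q.2.1) := by fun_prop
    exact (isOpen_Nonc.preimage hc).mem_nhds h.nc0
  have e2 : {q : ℝ × Up × Up | Nonc q.2.2} ∈ 𝓝 ((S, X₀, X₁) : ℝ × Up × Up) := by
    have hc : Continuous (fun q : ℝ × Up × Up => q.2.2) := by fun_prop
    exact (isOpen_Nonc.preimage hc).mem_nhds h.nc1
  have e3 := deq_proj (Y := X₁) h.run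
  have h1 := h.ex _ (inter_mem h𝒩 (inter_mem e1 (inter_mem e2 e3)))
  filter_upwards [h1] with p hp
  obtain ⟨q, ⟨hq0, hq1, hq2, hq3⟩, hq4, hq5⟩ := hp
  refine ⟨q, hq0, hq4, hq5, hq1, hq2, ?_⟩
  have hq3' : ∀ T' X', Run m (muE m (pE m q.2.1)).1 q.1 q.2.1 T' X' →
      pE m X' = Φ (T', pE m q.2.1) := hq3
  rw [hq4] at hq3'
  exact hq3' _ _ hq5

/-- Proof: `exists_timeData`, `LM_of_data`, `symp_of_data` and `LM.eventuallyEq`
(equal germs have equal derivatives near the base point: `Filter.EventuallyEq.fderiv`). -/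
theorem LM.symp (hm : ∀ a, 0 < m a) (h : LM m T S X₀ X₁ Φ) :
    ∀ᶠ p : ℝ × comSub m in 𝓝 (T, pE m X₀), ∀ ξ η : comSub m,
      omE m (fderiv ℝ Φ p (0, ξ)) (fderiv ℝ Φ p (0, η)) = omE m ξ η := by
  obtain ⟨σ, Ψ, sT, hd⟩ := exists_timeData hm h.run0 h.nc0 h.nc1
  have h1 := symp_of_data hm hd
  have h2 := (h.eventuallyEq (LM_of_data hm hd)).fderiv (𝕜 := ℝ)
  filter_upwards [h1, h2] with p hp hp2 ξ η
  rw [hp2]
  exact hp ξ η

/-- Proof: `LM.exists_run`, `Run.mu_eq`. -/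
theorem LM.mu (hm : ∀ a, 0 < m a) (h : LM m T S X₀ X₁ Φ) :
    ∀ᶠ p : ℝ × comSub m in 𝓝 (T, pE m X₀), muE m (Φ p) = muE m p.2 := by
  filter_upwards [h.exists_run univ_mem] with p hp
  obtain ⟨q, -, hq1, hq2, hq3, hq4, hq5⟩ := hp
  rw [← hq5, ← hq1]
  rw [← hq1] at hq2
  exact Run.mu_eq hm hq3 hq4 hq2

end Pool.Agent.MP_5027f4_cont
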