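import Pool.Agent.Lib_MP_5027f4_cont.DLift
import Pool.Agent.Lib_MP_5027f4_cont.DEq

/-!
PIECE [DCls] (MP_5027f4_mp, T1).  Near classical solutions the time T map is the classical flow.
-/

open Set Filter Topology Metric Polynomial
open scoped ComplexConjugate ContDiff
open Pool.Agent.MP_5027f4_mp

namespace Pool.Agent.MP_5027f4_cont

variable {m : Fin 3 → ℝ} {S T : ℝ} {X₀ X₁ : Up} {y : ℝ → Ph} {Φ : ℝ × comSub m → comSub m}

/-- local existence for a `C¹` field on an open set -/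
theorem dcls_local {E : Type*} [NormedAddCommGroup E] [NormedSpace ℝ E] [FiniteDimensional ℝ E]
    {F : E → E} {Ω : Set E} (hΩ : IsOpen Ω) (hF : ContDiffOn ℝ 1 F Ω) {p : E} (hp : p ∈ Ω) :
    ∃ ε > 0, ∃ z : ℝ → E, z 0 = p ∧ Solves F Ω (Icc 0 ε) z := by
  obtain ⟨G, L, B, V, hVo, hKV, hVΩ, hL, hB, hGF⟩ :=
    exists_lipschitz_cutoff hΩ hF (isCompact_singleton (x := p)) (singleton_subset_iff.2 hp)
  obtain ⟨z, hz0, hz⟩ := exists_sol_of_lipschitz hL hB p (zero_le_one' ℝ)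
  have hc : ContinuousWithinAt z (Icc 0 1) 0 :=
    (hz 0 ⟨le_rfl, zero_le_one⟩).continuousWithinAt
  have hV : V ∈ 𝓝 (z 0) := by
    rw [hz0]
    exact hVo.mem_nhds (hKV (mem_singleton p))
  have h1 := hc.preimage_mem_nhdsWithin hV
  rw [Metric.mem_nhdsWithin_iff] at h1
  obtain ⟨r, hr, h2⟩ := h1
  have h3 : ∀ t ∈ Icc 0 (min (r / 2) 1), z t ∈ V := by
    intro t ht
    refine h2 ⟨?_, ht.1, ht.2.trans (min_le_right _ _)⟩
    rw [Metric.mem_ball, Real.dist_eq, sub_zero, abs_of_nonneg ht.1]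
    have := ht.2.trans (min_le_left _ _)
    linarith
  refine ⟨min (r / 2) 1, lt_min (by positivity) one_pos, z, hz0, fun t ht => ?_⟩
  refine ⟨hVΩ (h3 t ht), ?_⟩
  rw [← hGF _ (h3 t ht)]
  exact (hz t ⟨ht.1, ht.2.trans (min_le_right _ _)⟩).mono
    (Icc_subset_Icc_right (min_le_right _ _))

theorem dcls_near {E : Type*} [PseudoMetricSpace E] (T : ℝ) (x : E) {δ : ℝ} (hδ : 0 < δ) :
    ∀ᶠ p : ℝ × E in 𝓝 (T, x), dist p.2 x < δ :=
  (continuous_snd.tendsto (T, x)).eventually (Metric.ball_mem_nhds x hδ)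

/-- Proof.  The solution `y` extends to `[0, T + ε]` (local existence for `fld₀ m` on `noColl₀ m`,
`Solves.concat`), and by `exists_near_forward` (for `fld₀ m`, `Solves.lift`, `Solves.coe`) every
`y'` near `pE m X₀` is the initial point of a classical solution `z` on `[0, T + ε]`.  For
`p = (T', y')` near `(T, pE m X₀)`, `LM.exists_run` gives a run `(S', X, X')` with `pE m X = y'`,
`pE m X' = Φ p`; `exists_lift_run` for `z` on `[0, T']` and `X` gives a collision free solution with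
the same time, and `run_time_unique` identifies its end point with `X'`; so `z T' = Φ p`. -/
theorem LM.classical (hm : ∀ a, 0 < m a) (hT : 0 < T)
    (hy : Solves (fld m) (frame m) (Icc 0 T) y) (hΦ : LM m T S X₀ X₁ Φ)
    (hX : ((pE m X₀ : comSub m) : Ph) = y 0) :
    ∀ᶠ p : ℝ × comSub m in 𝓝 (T, pE m X₀), ∃ z, Solves (fld m) (frame m) (Icc 0 p.1) z ∧
      z 0 = (p.2 : Ph) ∧ z p.1 = (Φ p : Ph) := by
  -- the solution in the subspace
  have hy0 : ∀ t ∈ Icc 0 T, ((prE m (y t) : comSub m) : Ph) = y t := fun t ht =>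
    congrArg Subtype.val (prE_coe m ⟨y t, (hy t ht).1.2⟩)
  have hYc : Solves (fld m) (frame m) (Icc 0 T) (fun t => ((prE m (y t) : comSub m) : Ph)) := by
    intro t ht
    refine ⟨?_, ?_⟩
    · beta_reduce
      rw [hy0 t ht]
      exact (hy t ht).1
    · beta_reduce
      rw [hy0 t ht]
      exact (hy t ht).2.congr hy0 (hy0 t ht)
  have hY : Solves (fld₀ m) (noColl₀ m) (Icc 0 T) (fun t => prE m (y t)) := Solves.lift hYc
  have hF : ContDiffOn ℝ 1 (fld₀ m) (noColl₀ m) := (contDiffOn_fld₀ m).of_le (by norm_num)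
  -- extension
  obtain ⟨ε, hε, w, hw0, hw⟩ := dcls_local (isOpen_noColl₀ m) hF (hY T ⟨hT.le, le_rfl⟩).1
  have hext := Solves.concat hT hε hY hw hw0
  obtain ⟨δ, hδ, hnear⟩ := exists_near_forward (isOpen_noColl₀ m) hF (by positivity) hext one_pos
  have hbase : (if (0 : ℝ) ≤ T then prE m (y 0) else w (0 - T)) = pE m X₀ := by
    rw [if_pos hT.le]
    apply Subtype.ext
    rw [hy0 0 ⟨le_rfl, hT.le⟩, hX]
  have e1 : ∀ᶠ p : ℝ × comSub m in 𝓝 (T, pE m X₀), 0 < p.1 :=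
    continuous_fst.continuousAt.eventually (lt_mem_nhds hT)
  have e2 : ∀ᶠ p : ℝ × comSub m in 𝓝 (T, pE m X₀), p.1 < T + ε :=
    continuous_fst.continuousAt.eventually (gt_mem_nhds (show T < T + ε by linarith))
  have e3 : ∀ᶠ p : ℝ × comSub m in 𝓝 (T, pE m X₀), dist p.2 (pE m X₀) < δ :=
    dcls_near T (pE m X₀) hδ
  filter_upwards [e1, e2, e3, hΦ.exists_run univ_mem] with p h1 h2 h3 h4
  obtain ⟨q, -, hq1, hq2, hq3, hq4, hq5⟩ := h4
  obtain ⟨z, hz0, hz, -⟩ := hnear p.2 (by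
    change dist p.2 (if (0 : ℝ) ≤ T then prE m (y 0) else w (0 - T)) < δ
    rw [hbase]
    exact h3)
  have hzc : Solves (fld m) (frame m) (Icc 0 p.1) (fun t => ((z t : comSub m) : Ph)) :=
    (hz.mono (Icc_subset_Icc_right h2.le)).coe
  have hz0' : ((pE m q.2.1 : comSub m) : Ph) = ((z 0 : comSub m) : Ph) := by rw [hq1, hz0]
  obtain ⟨S', hS', c, hc, hc0, hcn, hcz, hcT⟩ := exists_lift_run hm h1 hzc hq3 hz0'
  have hen : (muE m p.2).1 = energy m ((z 0 : comSub m) : Ph) := by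
    rw [hz0]
    rfl
  rw [hen, ← hc0] at hq2
  obtain ⟨-, hXS⟩ := run_time_unique hS' hc hcn hcT hq2
  refine ⟨fun t => ((z t : comSub m) : Ph), hzc, ?_, ?_⟩
  · change ((z 0 : comSub m) : Ph) = (p.2 : Ph)
    rw [hz0]
  · have h5 := hcz S' ⟨hS'.le, le_rfl⟩
    rw [hcT, ← hXS, hq5] at h5
    exact h5.symm

end Pool.Agent.MP_5027f4_cont
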