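import Pool.Agent.Lib_MP_5027f4_cont.DEq

/-!
PIECE [DComp] (MP_5027f4_mp, T1).  Composition and rotation of time T maps.
-/

open Set Filter Topology Metric Polynomial
open scoped ComplexConjugate ContDiff
open Pool.Agent.MP_5027f4_mp

namespace Pool.Agent.MP_5027f4_cont

variable {m : Fin 3 → ℝ} {S S' T T' : ℝ} {X₀ X₁ X₂ : Up} {Φ Φ' Φ'' : ℝ × comSub m → comSub m}

/-! ### Auxiliary lemmas -/

theorem dcp_muE_smul {w : ℂ} (hw : ‖w‖ = 1) (y : comSub m) : muE m (w • y) = muE m y := by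
  unfold muE
  have h1 : ((w • y : comSub m) : Ph) = w • (y : Ph) := rfl
  rw [h1, energy_rot hw, amom_rot' hw]

theorem dcp_norm {u κ₁ κ₂ : ℂ} (hu : SymOK u κ₁ κ₂) : ‖u‖ = 1 := by
  rw [← hu.2.2, norm_pow, hu.1, one_pow]

theorem dcp_norm2 {u κ₁ κ₂ : ℂ} (hu : SymOK u κ₁ κ₂) : ‖κ₂‖ = 1 := by
  have h1 : ‖κ₂‖ ^ 2 = 1 := by rw [← norm_pow, hu.2.1, norm_pow, hu.1, one_pow]
  exact (pow_eq_one_iff_of_nonneg (norm_nonneg _) two_ne_zero).1 h1

/-- the inverse symmetry -/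
theorem dcp_inv {u κ₁ κ₂ : ℂ} (hu : SymOK u κ₁ κ₂) (b : Bool) : ∃ κ₁' κ₂' : ℂ,
    SymOK u⁻¹ κ₁' κ₂' ∧ (∀ X, sym κ₁' κ₂' b (sym κ₁ κ₂ b X) = X) ∧
      ∀ X, sym κ₁ κ₂ b (sym κ₁' κ₂' b X) = X := by
  have hk1 : κ₁ ≠ 0 := by
    intro h0
    have := hu.1
    rw [h0, norm_zero] at this
    exact zero_ne_one this
  have hk2 : κ₂ ≠ 0 := by
    intro h0
    have := dcp_norm2 hu
    rw [h0, norm_zero] at this
    exact zero_ne_one this
  cases b
  · refine ⟨κ₁⁻¹, κ₂⁻¹, ⟨?_, ?_, ?_⟩, ?_, ?_⟩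
    · rw [norm_inv, hu.1, inv_one]
    · rw [inv_pow, inv_pow, hu.2.1]
    · rw [inv_pow, hu.2.2]
    · intro X
      simp only [sym, Bool.false_eq_true, if_false, inv_mul_cancel_left₀ hk1,
        inv_mul_cancel_left₀ hk2]
    · intro X
      simp only [sym, Bool.false_eq_true, if_false, mul_inv_cancel_left₀ hk1,
        mul_inv_cancel_left₀ hk2]
  · refine ⟨κ₂⁻¹, κ₁⁻¹, ⟨?_, ?_, ?_⟩, ?_, ?_⟩
    · rw [norm_inv, dcp_norm2 hu, inv_one]
    · rw [inv_pow, inv_pow, hu.2.1]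
    · have h4 : κ₂ ^ 4 = u := by
        have : κ₂ ^ 4 = (κ₂ ^ 2) ^ 2 := by ring
        rw [this, hu.2.1, ← hu.2.2]
        ring
      rw [inv_pow, h4]
    · intro X
      simp only [sym, if_true, inv_mul_cancel_left₀ hk1, inv_mul_cancel_left₀ hk2]
    · intro X
      simp only [sym, if_true, mul_inv_cancel_left₀ hk1, mul_inv_cancel_left₀ hk2]

theorem dcp_cont (κ₁ κ₂ : ℂ) (b : Bool) : Continuous (sym κ₁ κ₂ b) := by
  obtain ⟨L, hL⟩ := exists_symL κ₁ κ₂ b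
  have : (sym κ₁ κ₂ b) = L := by
    funext X
    exact (hL X).symm
  rw [this]
  exact L.continuous

theorem dcp_cont2 : Continuous (fun p : ℂ × Up => sym p.1 p.1 false p.2) := by
  have : (fun p : ℂ × Up => sym p.1 p.1 false p.2) =
      fun p : ℂ × Up => (p.1 * p.2.1, p.1 * p.2.2.1, p.1 * p.2.2.2.1, p.1 * p.2.2.2.2) := by
    funext p
    simp only [sym, Bool.false_eq_true, if_false]
  rw [this]
  fun_prop

/-- the end point of a run depends continuously on the data -/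
theorem dcp_end (hm : ∀ a, 0 < m a) (h0 : Nonc X₀) (hr : Run m (muE m (pE m X₀)).1 S X₀ T X₁)
    {𝒱 : Set Up} (h𝒱 : 𝒱 ∈ 𝓝 X₁) : ∀ᶠ q : ℝ × Up in 𝓝 (S, X₀), ∀ T' X',
      Run m (muE m (pE m q.2)).1 q.1 q.2 T' X' → X' ∈ 𝒱 := by
  obtain ⟨Ψ, hΨan, hΨ0, hΨr, -, -⟩ := exists_VVflow hr
  have hm' : ∀ a, m a ≠ 0 := fun a => (hm a).ne'
  have hM : MM m ≠ 0 := by
    have h1 := hm 0
    have h2 := hm 1
    have h3 := hm 2
    unfold MM
    positivity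
  have hc : ContinuousAt (fun q : ℝ × Up => ((q.1, (q.2, ((muE m (pE m q.2)).1, (0 : ℝ)))) :
      ℝ × (Up × ℝ × ℝ))) (S, X₀) := by
    have h1 : ContinuousAt (fun q : ℝ × Up => muE m (pE m q.2)) (S, X₀) := by
      have h2 : ContinuousAt (muE m) (pE m X₀) := (analyticAt_muE m (pE_noColl hM hm' h0)).continuousAt
      have h3 : ContinuousAt (pE m) X₀ := (analyticAt_pE m h0).continuousAt
      have h4 : ContinuousAt (fun X => muE m (pE m X)) X₀ := ContinuousAt.comp h2 h3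
      exact ContinuousAt.comp (f := fun q : ℝ × Up => q.2) (x := (S, X₀)) h4 continuousAt_snd
    exact continuousAt_fst.prodMk (continuousAt_snd.prodMk (h1.fst.prodMk continuousAt_const))
  have ht : Tendsto (fun q : ℝ × Up => ((q.1, (q.2, ((muE m (pE m q.2)).1, (0 : ℝ)))) :
      ℝ × (Up × ℝ × ℝ))) (𝓝 (S, X₀)) (𝓝 (S, (X₀, (muE m (pE m X₀)).1, 0))) := hc
  have hΨc : Tendsto (fun q : ℝ × Up => (Ψ (q.1, (q.2, ((muE m (pE m q.2)).1, (0 : ℝ))))).1)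
      (𝓝 (S, X₀)) (𝓝 X₁) := by
    have h5 : Tendsto Ψ (𝓝 (S, (X₀, (muE m (pE m X₀)).1, 0))) (𝓝 (X₁, (muE m (pE m X₀)).1, T)) := by
      have := hΨan.continuousAt
      unfold ContinuousAt at this
      rwa [hΨ0] at this
    exact (continuous_fst.tendsto _).comp (h5.comp ht)
  filter_upwards [ht.eventually hΨr, hΨc h𝒱] with q hq1 hq2 T' X' hX'
  have h6 := (hq1 rfl).1
  rw [← (h6.unique hX').2]
  exact hq2

/-- Proof.  For `p = ((t, t'), y)` near the base point, `LM.exists_run` for `h` gives a run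
`(S₁, X, X')` near `(S, X₀, X₁)` with `pE m X = y`, time `t`, `pE m X' = Φ (t, y)`; then
`LM.exists_run` for `h'` at `(t', Φ (t, y))` (continuity of `Φ`, `LM.base`) gives a run `(S₂, Z, Z')`
near `(S', X₁, X₂)` with `pE m Z = Φ (t, y) = pE m X'`, so `Z = X'` by `pE_inj` near `X₁`.
`Run.mu_eq` identifies the energies; `Run.trans` and the property `run` of `h''`. -/
theorem LM.comp (hm : ∀ a, 0 < m a) (h : LM m T S X₀ X₁ Φ) (h' : LM m T' S' X₁ X₂ Φ')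
    (h'' : LM m (T + T') (S + S') X₀ X₂ Φ'') :
    ∀ᶠ p : (ℝ × ℝ) × comSub m in 𝓝 ((T, T'), pE m X₀),
      Φ'' (p.1.1 + p.1.2, p.2) = Φ' (p.1.2, Φ (p.1.1, p.2)) := by
  obtain ⟨𝒩₁, h𝒩₁, hinj⟩ := pE_inj hm h.nc1
  have key : ∀ᶠ r : (ℝ × Up × Up) × (ℝ × Up × Up) in 𝓝 ((S, X₀, X₁), (S', X₁, X₂)),
      (∀ T₁ X', Run m (muE m (pE m r.1.2.1)).1 (r.1.1 + r.2.1) r.1.2.1 T₁ X' →
        pE m X' = Φ'' (T₁, pE m r.1.2.1)) ∧ r.1.2.2 ∈ 𝒩₁ ∧ r.2.2.1 ∈ 𝒩₁ := by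
    have c1 : Tendsto (fun r : (ℝ × Up × Up) × (ℝ × Up × Up) => (r.1.1 + r.2.1, r.1.2.1))
        (𝓝 ((S, X₀, X₁), (S', X₁, X₂))) (𝓝 (S + S', X₀)) := by
      have : Continuous (fun r : (ℝ × Up × Up) × (ℝ × Up × Up) => (r.1.1 + r.2.1, r.1.2.1)) := by
        fun_prop
      exact this.tendsto _
    have c2 : Tendsto (fun r : (ℝ × Up × Up) × (ℝ × Up × Up) => r.1.2.2)
        (𝓝 ((S, X₀, X₁), (S', X₁, X₂))) (𝓝 X₁) := by
      have : Continuous (fun r : (ℝ × Up × Up) × (ℝ × Up × Up) => r.1.2.2) := by fun_prop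
      exact this.tendsto _
    have c3 : Tendsto (fun r : (ℝ × Up × Up) × (ℝ × Up × Up) => r.2.2.1)
        (𝓝 ((S, X₀, X₁), (S', X₁, X₂))) (𝓝 X₁) := by
      have : Continuous (fun r : (ℝ × Up × Up) × (ℝ × Up × Up) => r.2.2.1) := by fun_prop
      exact this.tendsto _
    filter_upwards [c1.eventually h''.run, c2 h𝒩₁, c3 h𝒩₁] with r h1 h2 h3
    exact ⟨h1, h2, h3⟩
  rw [nhds_prod_eq, Filter.eventually_prod_iff] at key
  obtain ⟨pa, hpa, pb, hpb, hpab⟩ := key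
  have e1 := h.exists_run (𝒩 := {q | pa q}) hpa
  have e2 := h'.exists_run (𝒩 := {q | pb q}) hpb
  have t1 : Tendsto (fun p : (ℝ × ℝ) × comSub m => (p.1.1, p.2)) (𝓝 ((T, T'), pE m X₀))
      (𝓝 (T, pE m X₀)) := by
    have : Continuous (fun p : (ℝ × ℝ) × comSub m => (p.1.1, p.2)) := by fun_prop
    exact this.tendsto _
  have t2 : Tendsto (fun p : (ℝ × ℝ) × comSub m => (p.1.2, Φ (p.1.1, p.2)))
      (𝓝 ((T, T'), pE m X₀)) (𝓝 (T', pE m X₁)) := by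
    have h1 : Tendsto Φ (𝓝 (T, pE m X₀)) (𝓝 (pE m X₁)) := by
      have := h.an.continuousAt
      unfold ContinuousAt at this
      rwa [h.base] at this
    have h2 : Tendsto (fun p : (ℝ × ℝ) × comSub m => p.1.2) (𝓝 ((T, T'), pE m X₀)) (𝓝 T') := by
      have : Continuous (fun p : (ℝ × ℝ) × comSub m => p.1.2) := by fun_prop
      exact this.tendsto _
    exact h2.prodMk_nhds (h1.comp t1)
  filter_upwards [t1.eventually e1, t2.eventually e2] with p hp1 hp2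
  obtain ⟨q, hqa, hq1, hq2, hq3, hq4, hq5⟩ := hp1
  obtain ⟨q', hqb, hq1', hq2', hq3', hq4', hq5'⟩ := hp2
  obtain ⟨k1, k2, k3⟩ := hpab hqa hqb
  simp only at hq1 hq2 hq5 hq1' hq2' hq5' k1 k2 k3
  have hZ : q.2.2 = q'.2.1 := hinj _ k2 _ k3 (by rw [hq5, hq1'])
  have hmu : muE m (pE m q.2.2) = muE m (pE m q.2.1) := by
    refine Run.mu_eq (T := p.1.1) (S := q.1) hm hq3 hq4 ?_
    rw [hq1]
    exact hq2
  have r1 : Run m (muE m (pE m q.2.1)).1 q.1 q.2.1 p.1.1 q.2.2 := by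
    rw [hq1]
    exact hq2
  have r2 : Run m (muE m (pE m q.2.1)).1 q'.1 q.2.2 p.1.2 q'.2.2 := by
    rw [← hmu, hq5, hZ]
    exact hq2'
  have r3 := k1 _ _ (r1.trans r2)
  rw [← hq5', r3, hq1]

/-- existence of the composed map (`Run.trans`, `exists_LM`) -/
theorem LM.exists_comp (hm : ∀ a, 0 < m a) (h : LM m T S X₀ X₁ Φ) (h' : LM m T' S' X₁ X₂ Φ') :
    ∃ Φ'', LM m (T + T') (S + S') X₀ X₂ Φ'' := by
  have hmu := Run.mu_eq hm h.nc0 h.nc1 h.run0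
  have r2 : Run m (muE m (pE m X₀)).1 S' X₁ T' X₂ := by
    rw [← hmu]
    exact h'.run0
  exact exists_LM hm (h.run0.trans r2) h.nc0 h'.nc1

/-- Symmetric runs.  Proof: `Run.sym`, `pE_sym`, `sym` and its inverse
(`sym κ₁⁻¹ κ₂⁻¹ false`, or `sym κ₂⁻¹ κ₁⁻¹ true`) are continuous; `muE` is invariant
(`energy_rot`, `amom_rot'`). -/
theorem LM.symLM (hm : ∀ a, 0 < m a) {u κ₁ κ₂ : ℂ} {b : Bool} (hu : SymOK u κ₁ κ₂)
    (h : LM m T S X₀ X₁ Φ) :
    LM m T S (sym κ₁ κ₂ b X₀) (sym κ₁ κ₂ b X₁) (fun p => u • Φ (p.1, u⁻¹ • p.2)) := by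
  have hm' : ∀ a, m a ≠ 0 := fun a => (hm a).ne'
  have hun : ‖u‖ = 1 := dcp_norm hu
  have hun' : ‖u⁻¹‖ = 1 := by rw [norm_inv, hun, inv_one]
  have hu0 : u ≠ 0 := by
    intro h0
    rw [h0, norm_zero] at hun
    exact zero_ne_one hun
  obtain ⟨κ₁', κ₂', hu', hinv1, hinv2⟩ := dcp_inv hu b
  have hb0 : pE m (sym κ₁ κ₂ b X₀) = u • pE m X₀ := pE_sym hm' hu h.nc0
  have hb0' : u⁻¹ • pE m (sym κ₁ κ₂ b X₀) = pE m X₀ := by
    rw [hb0, inv_smul_smul₀ hu0]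
  -- the maps `p ↦ (p.1, u⁻¹ • p.2)` and `y ↦ u • y`
  have hsm : ∀ w : ℂ, Continuous (fun y : comSub m => w • y) := fun w => continuous_const_smul w
  have hsma : ∀ (w : ℂ) (y : comSub m), AnalyticAt ℝ (fun y : comSub m => w • y) y := by
    intro w y
    have h1 : (fun y : comSub m => w • y) =
        ((w • ContinuousLinearMap.id ℂ (comSub m)).restrictScalars ℝ : comSub m →L[ℝ] comSub m) := by
      funext y
      rfl
    rw [h1]
    exact ContinuousLinearMap.analyticAt _ y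
  have hpc : Continuous (fun p : ℝ × comSub m => (p.1, u⁻¹ • p.2)) :=
    continuous_fst.prodMk ((hsm u⁻¹).comp continuous_snd)
  have hpt : Tendsto (fun p : ℝ × comSub m => (p.1, u⁻¹ • p.2))
      (𝓝 (T, pE m (sym κ₁ κ₂ b X₀))) (𝓝 (T, pE m X₀)) := by
    have := hpc.tendsto (T, pE m (sym κ₁ κ₂ b X₀))
    simp only [hb0'] at this
    exact this
  refine ⟨(Nonc_sym hu X₀).2 h.nc0, (Nonc_sym hu X₁).2 h.nc1, ?_, ?_, ?_, ?_⟩
  · rw [hb0, dcp_muE_smul hun]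
    exact h.run0.sym hu
  · have h1 : AnalyticAt ℝ (fun p : ℝ × comSub m => (p.1, u⁻¹ • p.2))
        (T, pE m (sym κ₁ κ₂ b X₀)) :=
      analyticAt_fst.prod ((hsma u⁻¹ _).comp analyticAt_snd)
    have h3 : AnalyticAt ℝ (fun p : ℝ × comSub m => Φ (p.1, u⁻¹ • p.2))
        (T, pE m (sym κ₁ κ₂ b X₀)) := by
      refine AnalyticAt.fun_comp (g := Φ) (f := fun p : ℝ × comSub m => (p.1, u⁻¹ • p.2)) ?_ h1
      simp only [hb0']
      exact h.an
    exact AnalyticAt.fun_comp (g := fun y : comSub m => u • y)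
      (f := fun p : ℝ × comSub m => Φ (p.1, u⁻¹ • p.2)) (hsma u _) h3
  · have c1 : Tendsto (fun q : ℝ × Up => (q.1, sym κ₁' κ₂' b q.2)) (𝓝 (S, sym κ₁ κ₂ b X₀))
        (𝓝 (S, X₀)) := by
      have h1 : Continuous (fun q : ℝ × Up => (q.1, sym κ₁' κ₂' b q.2)) :=
        continuous_fst.prodMk ((dcp_cont κ₁' κ₂' b).comp continuous_snd)
      have := h1.tendsto (S, sym κ₁ κ₂ b X₀)
      simp only [hinv1] at this
      exact this
    have e3 := dcp_end hm h.nc0 h.run0 (isOpen_Nonc.mem_nhds h.nc1)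
    have e4 : ∀ᶠ q : ℝ × Up in 𝓝 (S, sym κ₁ κ₂ b X₀), Nonc q.2 :=
      (continuous_snd.tendsto (S, sym κ₁ κ₂ b X₀)).eventually
        (isOpen_Nonc.mem_nhds ((Nonc_sym hu X₀).2 h.nc0))
    filter_upwards [c1.eventually h.run, c1.eventually e3, e4] with q k1 k3 k4 T' X' hX'
    have hq : pE m (sym κ₁' κ₂' b q.2) = u⁻¹ • pE m q.2 := pE_sym hm' hu' k4
    have r1 : Run m (muE m (pE m (sym κ₁' κ₂' b q.2))).1 q.1 (sym κ₁' κ₂' b q.2) T'
        (sym κ₁' κ₂' b X') := by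
      rw [hq, dcp_muE_smul hun']
      exact hX'.sym hu'
    have k5 := k1 _ _ r1
    have k6 : Nonc (sym κ₁' κ₂' b X') := k3 _ _ r1
    have k7 : pE m (sym κ₁' κ₂' b X') = u⁻¹ • pE m X' := pE_sym hm' hu' ((Nonc_sym hu' X').1 k6)
    rw [k7, hq] at k5
    show pE m X' = u • Φ (T', u⁻¹ • pE m q.2)
    rw [← k5, smul_inv_smul₀ hu0]
  · intro 𝒩 h𝒩
    have c2 : Tendsto (fun q : ℝ × Up × Up => (q.1, sym κ₁ κ₂ b q.2.1, sym κ₁ κ₂ b q.2.2))
        (𝓝 (S, X₀, X₁)) (𝓝 (S, sym κ₁ κ₂ b X₀, sym κ₁ κ₂ b X₁)) := by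
      have h1 : Continuous (fun q : ℝ × Up × Up =>
          (q.1, sym κ₁ κ₂ b q.2.1, sym κ₁ κ₂ b q.2.2)) :=
        continuous_fst.prodMk (((dcp_cont κ₁ κ₂ b).comp (continuous_fst.comp continuous_snd)).prodMk
          ((dcp_cont κ₁ κ₂ b).comp (continuous_snd.comp continuous_snd)))
      exact h1.tendsto (S, X₀, X₁)
    have e1 := h.exists_run (c2 h𝒩)
    filter_upwards [hpt.eventually e1] with p hp
    obtain ⟨q, hq, k1, k2, k3, k4, k5⟩ := hp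
    refine ⟨(q.1, sym κ₁ κ₂ b q.2.1, sym κ₁ κ₂ b q.2.2), hq, ?_, ?_⟩
    · show pE m (sym κ₁ κ₂ b q.2.1) = p.2
      rw [pE_sym hm' hu k3, k1, smul_inv_smul₀ hu0]
    · show Run m (muE m p.2).1 q.1 (sym κ₁ κ₂ b q.2.1) p.1 (sym κ₁ κ₂ b q.2.2)
      rw [dcp_muE_smul hun'] at k2
      exact k2.sym hu

/-- Rotation equivariance.  Proof: for `θ` near `0` put `κ = exp (i θ / 4)`, `SymOK (exp (i θ)) κ κ`;
for `p = (t, y)` near the base point take a run from `LM.exists_run` and rotate it by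
`sym κ κ false` (close to the identity), `Run.sym`, `pE_sym`, and the property `run`. -/
theorem LM.rot (hm : ∀ a, 0 < m a) (h : LM m T S X₀ X₁ Φ) :
    ∀ᶠ p : ℝ × (ℝ × comSub m) in 𝓝 (0, (T, pE m X₀)),
      Φ (p.2.1, Complex.exp (p.1 * Complex.I) • p.2.2) =
        Complex.exp (p.1 * Complex.I) • Φ p.2 := by
  have hm' : ∀ a, m a ≠ 0 := fun a => (hm a).ne'
  have key : ∀ᶠ r : ℝ × (ℝ × Up × Up) in 𝓝 (0, (S, X₀, X₁)),
      (∀ T₁ X', Run m (muE m (pE m (sym (Complex.exp ((r.1 / 4 : ℝ) * Complex.I))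
          (Complex.exp ((r.1 / 4 : ℝ) * Complex.I)) false r.2.2.1))).1 r.2.1
          (sym (Complex.exp ((r.1 / 4 : ℝ) * Complex.I))
          (Complex.exp ((r.1 / 4 : ℝ) * Complex.I)) false r.2.2.1) T₁ X' →
        pE m X' = Φ (T₁, pE m (sym (Complex.exp ((r.1 / 4 : ℝ) * Complex.I))
          (Complex.exp ((r.1 / 4 : ℝ) * Complex.I)) false r.2.2.1))) := by
    have c1 : Tendsto (fun r : ℝ × (ℝ × Up × Up) => (r.2.1,
        sym (Complex.exp ((r.1 / 4 : ℝ) * Complex.I))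
          (Complex.exp ((r.1 / 4 : ℝ) * Complex.I)) false r.2.2.1))
        (𝓝 (0, (S, X₀, X₁))) (𝓝 (S, X₀)) := by
      have h1 : Continuous (fun r : ℝ × (ℝ × Up × Up) =>
          ((Complex.exp ((r.1 / 4 : ℝ) * Complex.I), r.2.2.1) : ℂ × Up)) := by
        fun_prop
      have h2 : Continuous (fun r : ℝ × (ℝ × Up × Up) => (r.2.1,
        sym (Complex.exp ((r.1 / 4 : ℝ) * Complex.I))
          (Complex.exp ((r.1 / 4 : ℝ) * Complex.I)) false r.2.2.1)) :=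
        (continuous_fst.comp continuous_snd).prodMk (dcp_cont2.comp h1)
      have h3 := h2.tendsto (0, (S, X₀, X₁))
      have h4 : sym (Complex.exp (((0 : ℝ) / 4 : ℝ) * Complex.I))
          (Complex.exp (((0 : ℝ) / 4 : ℝ) * Complex.I)) false X₀ = X₀ := by
        simp [sym]
      simp only [h4] at h3
      exact h3
    exact c1.eventually h.run
  rw [nhds_prod_eq, Filter.eventually_prod_iff] at key
  obtain ⟨pa, hpa, pb, hpb, hpab⟩ := key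
  have e1 := h.exists_run (𝒩 := {q | pb q}) hpb
  rw [nhds_prod_eq, Filter.eventually_prod_iff]
  refine ⟨pa, hpa, _, e1, ?_⟩
  intro θ hθ p hp
  obtain ⟨q, hqb, k1, k2, k3, k4, k5⟩ := hp
  have k6 := hpab hθ hqb
  simp only at k6 ⊢
  have hsym : SymOK (Complex.exp (θ * Complex.I)) (Complex.exp ((θ / 4 : ℝ) * Complex.I))
      (Complex.exp ((θ / 4 : ℝ) * Complex.I)) := by
    refine ⟨Complex.norm_exp_ofReal_mul_I _, rfl, ?_⟩
    rw [← Complex.exp_nat_mul]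
    congr 1
    push_cast
    ring
  have hun : ‖Complex.exp (θ * Complex.I)‖ = 1 := Complex.norm_exp_ofReal_mul_I _
  have k7 : pE m (sym (Complex.exp ((θ / 4 : ℝ) * Complex.I))
      (Complex.exp ((θ / 4 : ℝ) * Complex.I)) false q.2.1) = Complex.exp (θ * Complex.I) • p.2 := by
    rw [pE_sym hm' hsym k3, k1]
  have k8 := k6 p.1 (sym (Complex.exp ((θ / 4 : ℝ) * Complex.I))
      (Complex.exp ((θ / 4 : ℝ) * Complex.I)) false q.2.2) (by
    rw [k7, dcp_muE_smul hun]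
    exact k2.sym hsym)
  rw [k7, pE_sym hm' hsym k4, k5] at k8
  exact k8.symm

end Pool.Agent.MP_5027f4_cont
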