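import Pool.Agent.Lib_MP_5027f4_cont.SolA
import Pool.Agent.Lib_MP_5027f4_cont.CSymB
import Pool.Agent.Lib_MP_5027f4_cont.CInv
import Pool.Agent.Lib_MP_5027f4_cont.CGam
import Pool.Agent.Lib_MP_5027f4_cont.CVel

/-!
PIECE [DRun] (MP_5027f4_mp, T1).  Runs of the regularized flow.
-/

open Set Filter Topology Metric Polynomial
open scoped ComplexConjugate ContDiff
open Pool.Agent.MP_5027f4_mp

namespace Pool.Agent.MP_5027f4_cont

variable {m : Fin 3 → ℝ} {h S S' T T' : ℝ} {X₀ X₁ X₂ : Up}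

theorem DRun_c1 (m : Fin 3 → ℝ) (h : ℝ) : ContDiff ℝ 1 (VF m h) :=
  (contDiff_VF m h).of_le (by exact_mod_cast le_top)

theorem DRun_cont_rho : Continuous rho := contDiff_rho.continuous

theorem Run.zero (m : Fin 3 → ℝ) (h : ℝ) (X : Up) : Run m h 0 X 0 X := by
  obtain ⟨c, hc, h0⟩ := SolOn.exists_local (DRun_c1 m h) X
  exact ⟨c, hc, h0, h0, intervalIntegral.integral_same⟩

/-- `SolOn.unique`; the integrals of `rho` agree. -/
theorem Run.unique (hr : Run m h S X₀ T X₁) (hr' : Run m h S X₀ T' X₂) : T = T' ∧ X₁ = X₂ := by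
  obtain ⟨c, hc, h0, h1, h2⟩ := hr
  obtain ⟨c', hc', h0', h1', h2'⟩ := hr'
  have hu := SolOn.unique (DRun_c1 m h) hc hc' (h0.trans h0'.symm)
  refine ⟨?_, ?_⟩
  · rw [← h2, ← h2']
    exact intervalIntegral.integral_congr (fun s hs => congrArg rho (hu s hs))
  · rw [← h1, ← h1']
    exact hu S right_mem_uIcc

/-- `SolOn.trans`, `intervalIntegral.integral_add_adjacent_intervals` and a substitution. -/
theorem Run.trans (hr : Run m h S X₀ T X₁) (hr' : Run m h S' X₁ T' X₂) :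
    Run m h (S + S') X₀ (T + T') X₂ := by
  obtain ⟨c, hc, h0, h1, h2⟩ := hr
  obtain ⟨c', hc', h0', h1', h2'⟩ := hr'
  obtain ⟨e, he, e1, e2⟩ := SolOn.trans (DRun_c1 m h) hc hc' (h0'.trans h1.symm)
  have i1 : ContinuousOn (fun s => rho (e s)) (uIcc 0 S) :=
    (DRun_cont_rho.comp_continuousOn hc.continuousOn).congr (fun s hs => congrArg rho (e1 s hs))
  have hsh : ∀ s ∈ uIcc S (S + S'), s - S ∈ uIcc 0 S' := by
    intro s hs
    rw [mem_uIcc] at hs ⊢
    rcases hs with hs | hs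
    · left; constructor <;> linarith [hs.1, hs.2]
    · right; constructor <;> linarith [hs.1, hs.2]
  have i2 : ContinuousOn (fun s => rho (e s)) (uIcc S (S + S')) := by
    have h3 : ContinuousOn (fun s => rho (c' (s - S))) (uIcc S (S + S')) := by
      refine DRun_cont_rho.comp_continuousOn ?_
      exact hc'.continuousOn.comp (continuous_id.sub continuous_const).continuousOn hsh
    refine h3.congr (fun s hs => ?_)
    have h4 := e2 (s - S) (hsh s hs)
    rw [add_sub_cancel] at h4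
    exact congrArg rho h4
  refine ⟨e, he, ?_, ?_, ?_⟩
  · rw [e1 0 left_mem_uIcc, h0]
  · rw [e2 S' right_mem_uIcc, h1']
  · rw [← intervalIntegral.integral_add_adjacent_intervals i1.intervalIntegrable
      i2.intervalIntegrable]
    congr 1
    · rw [← h2]
      exact intervalIntegral.integral_congr (fun s hs => congrArg rho (e1 s hs))
    · rw [← h2']
      have h5 := intervalIntegral.integral_comp_add_left (a := 0) (b := S')
        (fun s => rho (e s)) S
      rw [add_zero] at h5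
      rw [← h5]
      exact intervalIntegral.integral_congr (fun s hs => congrArg rho (e2 s hs))

theorem Run.symm (hr : Run m h S X₀ T X₁) : Run m h (-S) X₁ (-T) X₀ := by
  obtain ⟨c, hc, h0, h1, h2⟩ := hr
  refine ⟨fun r => c (S + r), hc.symm, ?_, ?_, ?_⟩
  · simp only [add_zero, h1]
  · simp only [add_neg_cancel, h0]
  · have h5 := intervalIntegral.integral_comp_add_left (a := 0) (b := -S)
      (fun s => rho (c s)) S
    rw [add_zero, add_neg_cancel] at h5
    rw [h5, intervalIntegral.integral_symm, h2]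

/-- `VF_sym`, `hasDerivAt_sym`, `rho_sym` -/
theorem Run.sym {u κ₁ κ₂ : ℂ} {b : Bool} (hu : SymOK u κ₁ κ₂) (hr : Run m h S X₀ T X₁) :
    Run m h S (sym κ₁ κ₂ b X₀) T (sym κ₁ κ₂ b X₁) := by
  obtain ⟨c, ⟨a, b', ha, hb, haS, hSb, hc⟩, h0, h1, h2⟩ := hr
  refine ⟨fun s => MP_5027f4_cont.sym κ₁ κ₂ b (c s), ⟨a, b', ha, hb, haS, hSb, fun s hs => ?_⟩,
    ?_, ?_, ?_⟩
  · rw [VF_sym hu]
    exact hasDerivAt_sym (hc s hs)
  · simp only [h0]
  · simp only [h1]
  · rw [← h2]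
    exact intervalIntegral.integral_congr (fun s _ => rho_sym hu _)

theorem DRun_const {f : ℝ → ℝ} {a b : ℝ} (hf : ∀ s ∈ Ioo a b, HasDerivAt f 0 s) {s t : ℝ}
    (hs : s ∈ Ioo a b) (ht : t ∈ Ioo a b) : f s = f t :=
  isOpen_Ioo.is_const_of_deriv_eq_zero isPreconnected_Ioo
    (fun x hx => (hf x hx).differentiableAt.differentiableWithinAt)
    (fun x hx => (hf x hx).deriv) hs ht

/-- conservation laws on `uIcc 0 S` -/
theorem SolOn.gam_eq {c : ℝ → Up} (hc : SolOn (VF m h) S c) {s : ℝ} (hs : s ∈ uIcc 0 S) :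
    Gam m h (c s) = Gam m h (c 0) := by
  obtain ⟨a, b, ha, hb, haS, hSb, hc⟩ := hc
  exact DRun_const (f := fun s => Gam m h (c s)) (fun s hs => hasDerivAt_Gam_sol (hc s hs))
    (SolA_mem ha hb haS hSb hs) ⟨ha, hb⟩

theorem SolOn.cu_eq {c : ℝ → Up} (hc : SolOn (VF m h) S c) {s : ℝ} (hs : s ∈ uIcc 0 S) :
    CU (c s) = CU (c 0) := by
  obtain ⟨a, b, ha, hb, haS, hSb, hc⟩ := hc
  exact DRun_const (f := fun s => CU (c s)) (fun s hs => hasDerivAt_CU (hc s hs))
    (SolA_mem ha hb haS hSb hs) ⟨ha, hb⟩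

/-- Proof: `Gam_eq_zero_iff` at both ends, `muE_pE`. -/
theorem Run.mu_eq (hm : ∀ a, 0 < m a) (h0 : Nonc X₀) (h1 : Nonc X₁)
    (hr : Run m (muE m (pE m X₀)).1 S X₀ T X₁) : muE m (pE m X₁) = muE m (pE m X₀) := by
  have hm' : ∀ a, m a ≠ 0 := fun a => (hm a).ne'
  have hM : MM m ≠ 0 := by
    have := hm 0
    have := hm 1
    have := hm 2
    unfold MM
    positivity
  obtain ⟨c, hc, e0, e1, -⟩ := hr
  have g := hc.gam_eq (s := S) right_mem_uIcc
  have k := hc.cu_eq (s := S) right_mem_uIcc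
  rw [e0, e1] at g k
  have g0 := (Gam_eq_zero_iff hM hm' h0 (muE m (pE m X₀)).1).2 rfl
  rw [g0] at g
  have g1 := (Gam_eq_zero_iff hM hm' h1 (muE m (pE m X₀)).1).1 g
  refine Prod.ext g1 ?_
  rw [(muE_pE hM hm' h1 0).2, (muE_pE hM hm' h0 0).2, k]

/-- the same for a given solution with a bound -/
theorem DRun_solVV {c : ℝ → Up} (hc : SolOn (VF m h) S c) :
    SolOn (VV m) S (fun s => (c s, h, ∫ r in (0 : ℝ)..s, rho (c r))) := by
  obtain ⟨a, b, ha, hb, haS, hSb, hc⟩ := hc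
  refine ⟨a, b, ha, hb, haS, hSb, fun s hs => ?_⟩
  have hcont : ContinuousOn (fun r => rho (c r)) (Ioo a b) :=
    DRun_cont_rho.comp_continuousOn (fun r hr => (hc r hr).continuousAt.continuousWithinAt)
  have hsub : uIcc 0 s ⊆ Ioo a b := by
    intro r hr
    exact SolA_mem ha hb hs.1 hs.2 hr
  have h1 : HasDerivAt (fun s => ∫ r in (0 : ℝ)..s, rho (c r)) (rho (c s)) s :=
    intervalIntegral.integral_hasDerivAt_right (hcont.mono hsub).intervalIntegrable
      (hcont.stronglyMeasurableAtFilter isOpen_Ioo s hs)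
      (hcont.continuousAt (isOpen_Ioo.mem_nhds hs))
  exact (hc s hs).prodMk ((hasDerivAt_const s h).prodMk h1)

/-- runs are solutions of the extended field: `(c s, h, ∫ 0..s, rho)` (fundamental theorem of
calculus; `rho ∘ c` is continuous on the open interval) -/
theorem Run.solVV (hr : Run m h S X₀ T X₁) :
    ∃ Y : ℝ → Up × ℝ × ℝ, SolOn (VV m) S Y ∧ Y 0 = (X₀, h, 0) ∧ Y S = (X₁, h, T) := by
  obtain ⟨c, hc, e0, e1, e2⟩ := hr
  refine ⟨_, DRun_solVV hc, ?_, ?_⟩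
  · simp only [e0, intervalIntegral.integral_same]
  · simp only [e1, e2]

/-- the same for a given solution with a bound -/
theorem SolOn.solVV {c : ℝ → Up} (hc : SolOn (VF m h) S c) :
    SolOn (VV m) S (fun s => (c s, h, ∫ r in (0 : ℝ)..s, rho (c r))) :=
  DRun_solVV hc

theorem DRun_fst {F G : Type*} [NormedAddCommGroup F] [NormedSpace ℝ F] [NormedAddCommGroup G]
    [NormedSpace ℝ G] {f : ℝ → F × G} {f' : F × G} {s : ℝ} (hf : HasDerivAt f f' s) :
    HasDerivAt (fun s => (f s).1) f'.1 s :=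
  (ContinuousLinearMap.fst ℝ F G).hasFDerivAt.comp_hasDerivAt s hf

theorem DRun_snd {F G : Type*} [NormedAddCommGroup F] [NormedSpace ℝ F] [NormedAddCommGroup G]
    [NormedSpace ℝ G] {f : ℝ → F × G} {f' : F × G} {s : ℝ} (hf : HasDerivAt f f' s) :
    HasDerivAt (fun s => (f s).2) f'.2 s :=
  (ContinuousLinearMap.snd ℝ F G).hasFDerivAt.comp_hasDerivAt s hf

theorem DRun_VV_const {Y : ℝ → Up × ℝ × ℝ} {a b : ℝ}
    (hY : ∀ s ∈ Ioo a b, HasDerivAt Y (VV m (Y s)) s) (h0 : (0 : ℝ) ∈ Ioo a b) {s : ℝ}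
    (hs : s ∈ Ioo a b) : (Y s).2.1 = (Y 0).2.1 :=
  DRun_const (f := fun s => (Y s).2.1) (fun s hs => DRun_fst (DRun_snd (hY s hs))) hs h0

theorem SolOn.of_VV {Y : ℝ → Up × ℝ × ℝ} (hY : SolOn (VV m) S Y) :
    SolOn (VF m (Y 0).2.1) S (fun s => (Y s).1) := by
  obtain ⟨a, b, ha, hb, haS, hSb, hY⟩ := hY
  refine ⟨a, b, ha, hb, haS, hSb, fun s hs => ?_⟩
  have h1 := DRun_fst (hY s hs)
  rw [← DRun_VV_const hY ⟨ha, hb⟩ hs]
  exact h1

theorem Run.of_VV {Y : ℝ → Up × ℝ × ℝ} (hY : SolOn (VV m) S Y) (h0 : (Y 0).2.2 = 0) :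
    Run m (Y 0).2.1 S (Y 0).1 (Y S).2.2 (Y S).1 ∧ (Y S).2.1 = (Y 0).2.1 := by
  refine ⟨⟨fun s => (Y s).1, hY.of_VV, rfl, rfl, ?_⟩, ?_⟩
  · have hcont : ContinuousOn (fun s => rho (Y s).1) (uIcc 0 S) :=
      DRun_cont_rho.comp_continuousOn (continuous_fst.comp_continuousOn hY.continuousOn)
    have h1 := intervalIntegral.integral_eq_sub_of_hasDerivAt (a := 0) (b := S)
      (f := fun s => (Y s).2.2) (f' := fun s => rho (Y s).1)
      (fun s hs => DRun_snd (DRun_snd (hY.hasDerivAt hs))) hcont.intervalIntegrable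
    rw [h1, h0, sub_zero]
  · obtain ⟨a, b, ha, hb, haS, hSb, hY⟩ := hY
    exact DRun_VV_const hY ⟨ha, hb⟩ ⟨haS, hSb⟩

end Pool.Agent.MP_5027f4_cont
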