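import Pool.Agent.Lib_MP_5027f4_cont.Nem
import Pool.Agent.Lib_MP_5027f4_cont.CSm

/-!
PIECE [NemV] (MP_5027f4_mp, T1).  The extended regularized field has an analytic Nemytskii operator.
-/

open Set Filter Topology Metric
open scoped ComplexConjugate ContDiff
open Pool.Agent.MP_5027f4_mp

namespace Pool.Agent.MP_5027f4_cont

private theorem nemv_congr {E F : Type*} [NormedAddCommGroup E] [NormedSpace ℝ E]
    [NormedAddCommGroup F] [NormedSpace ℝ F] {f g : E → F} (hf : NemAn f) (h : ∀ x, f x = g x) :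
    NemAn g := by
  have : f = g := funext h
  rwa [this] at hf

private abbrev NV := Up × ℝ × ℝ

private theorem nemv_1 : NemAn (fun Y : NV => Y.1.1) :=
  NemAn.clm ((ContinuousLinearMap.fst ℝ ℂ (ℂ × ℂ × ℂ)).comp (ContinuousLinearMap.fst ℝ Up (ℝ × ℝ)))
private theorem nemv_2 : NemAn (fun Y : NV => Y.1.2.1) :=
  NemAn.clm (((ContinuousLinearMap.fst ℝ ℂ (ℂ × ℂ)).comp
    (ContinuousLinearMap.snd ℝ ℂ (ℂ × ℂ × ℂ))).comp (ContinuousLinearMap.fst ℝ Up (ℝ × ℝ)))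
private theorem nemv_3 : NemAn (fun Y : NV => Y.1.2.2.1) :=
  NemAn.clm (((ContinuousLinearMap.fst ℝ ℂ ℂ).comp ((ContinuousLinearMap.snd ℝ ℂ (ℂ × ℂ)).comp
    (ContinuousLinearMap.snd ℝ ℂ (ℂ × ℂ × ℂ)))).comp (ContinuousLinearMap.fst ℝ Up (ℝ × ℝ)))
private theorem nemv_4 : NemAn (fun Y : NV => Y.1.2.2.2) :=
  NemAn.clm (((ContinuousLinearMap.snd ℝ ℂ ℂ).comp ((ContinuousLinearMap.snd ℝ ℂ (ℂ × ℂ)).comp
    (ContinuousLinearMap.snd ℝ ℂ (ℂ × ℂ × ℂ)))).comp (ContinuousLinearMap.fst ℝ Up (ℝ × ℝ)))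
private theorem nemv_h : NemAn (fun Y : NV => Y.2.1) :=
  NemAn.clm ((ContinuousLinearMap.fst ℝ ℝ ℝ).comp (ContinuousLinearMap.snd ℝ Up (ℝ × ℝ)))

private theorem nemv_ff (k : Fin 3) : NemAn (fun Y : NV => ff Y.1 k) := by
  fin_cases k
  · exact (nemv_1.pow 2).add (nemv_2.pow 2)
  · exact (nemv_1.pow 2).sub (nemv_2.pow 2)
  · exact ((NemAn.const 2).mul nemv_1).mul nemv_2

private theorem nemv_al (k : Fin 3) : NemAn (fun Y : NV => al Y.1 k) := by
  fin_cases k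
  · exact (nemv_2.conj.mul nemv_3).sub (nemv_1.conj.mul nemv_4)
  · exact (nemv_2.conj.mul nemv_3).add (nemv_1.conj.mul nemv_4)
  · exact (nemv_1.conj.mul nemv_3).sub (nemv_2.conj.mul nemv_4)

private theorem nemv_normSq {f : NV → ℂ} (hf : NemAn f) :
    NemAn (fun Y => Complex.normSq (f Y)) := by
  refine nemv_congr (hf.conj.mul hf).re fun x => ?_
  rw [← Complex.normSq_eq_conj_mul_self, Complex.ofReal_re]

private theorem nemv_nn (k : Fin 3) : NemAn (fun Y : NV => nn Y.1 k) :=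
  nemv_normSq (nemv_ff k)

private theorem nemv_divr {f : NV → ℝ} (hf : NemAn f) (c : ℝ) : NemAn (fun Y => f Y / c) :=
  nemv_congr (hf.rmul (NemAn.const c⁻¹)) fun _ => (div_eq_mul_inv _ _).symm

private theorem nemv_div {f : NV → ℂ} (hf : NemAn f) (c : ℂ) : NemAn (fun Y => f Y / c) :=
  nemv_congr (hf.mul (NemAn.const c⁻¹)) fun _ => (div_eq_mul_inv _ _).symm

private theorem nemv_w (m : Fin 3 → ℝ) (k : Fin 3) :
    NemAn (fun Y : NV => ((nn Y.1 k / m k : ℝ) : ℂ)) :=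
  (nemv_divr (nemv_nn k) (m k)).ofReal

private theorem nemv_g0 (m : Fin 3 → ℝ) : NemAn (fun Y : NV => (g0 m Y.2.1 Y.1 : ℂ)) :=
  ((((nemv_divr (nemv_normSq (nemv_al 0)) (32 * m 0)).sub
    ((NemAn.const (m 2 * m 0)).rmul (nemv_nn 2))).sub
    ((NemAn.const (m 0 * m 1)).rmul (nemv_nn 1))).sub
    (nemv_h.rmul ((nemv_nn 1).rmul (nemv_nn 2)))).ofReal

private theorem nemv_g1 (m : Fin 3 → ℝ) : NemAn (fun Y : NV => (g1 m Y.2.1 Y.1 : ℂ)) :=
  ((((nemv_divr (nemv_normSq (nemv_al 1)) (32 * m 1)).sub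
    ((NemAn.const (m 1 * m 2)).rmul (nemv_nn 2))).sub
    ((NemAn.const (m 0 * m 1)).rmul (nemv_nn 0))).sub
    (nemv_h.rmul ((nemv_nn 0).rmul (nemv_nn 2)))).ofReal

private theorem nemv_g2 (m : Fin 3 → ℝ) : NemAn (fun Y : NV => (g2 m Y.2.1 Y.1 : ℂ)) :=
  ((((nemv_divr (nemv_normSq (nemv_al 2)) (32 * m 2)).sub
    ((NemAn.const (m 1 * m 2)).rmul (nemv_nn 1))).sub
    ((NemAn.const (m 2 * m 0)).rmul (nemv_nn 0))).sub
    (nemv_h.rmul ((nemv_nn 0).rmul (nemv_nn 1)))).ofReal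

private theorem nemv_VF (m : Fin 3 → ℝ) : NemAn (fun Y : NV => VF m Y.2.1 Y.1) := by
  have c4 : NemAn (fun _ : NV => (4 : ℂ)) := NemAn.const 4
  have x1 := nemv_1
  have x2 := nemv_2
  have x3 := nemv_3
  have x4 := nemv_4
  have y1 := x1.conj
  have y2 := x2.conj
  have w := nemv_w m
  have a := nemv_al
  have f := nemv_ff
  have b := fun k => (a k).conj
  refine NemAn.prodMk ?_ (NemAn.prodMk ?_ (NemAn.prodMk ?_ ?_))
  · exact nemv_div (((((w 0).mul x2).mul (a 0)).add (((w 1).mul x2).mul (a 1))).add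
      (((w 2).mul x1).mul (a 2))) 16
  · exact nemv_div ((((((w 0).mul x1).mul (a 0)).neg).add (((w 1).mul x1).mul (a 1))).sub
      (((w 2).mul x2).mul (a 2))) 16
  · exact ((((((c4.mul (nemv_g0 m)).mul y1).mul (f 0)).add
      (((c4.mul (nemv_g1 m)).mul y1).mul (f 1))).add
      (((c4.mul (nemv_g2 m)).mul y2).mul (f 2))).add
      (nemv_div (((((w 0).mul (b 0)).mul x4).neg.add (((w 1).mul (b 1)).mul x4)).add
        (((w 2).mul (b 2)).mul x3)) 16)).neg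
  · exact ((((((c4.mul (nemv_g0 m)).mul y2).mul (f 0)).sub
      (((c4.mul (nemv_g1 m)).mul y2).mul (f 1))).add
      (((c4.mul (nemv_g2 m)).mul y1).mul (f 2))).add
      (nemv_div (((((w 0).mul (b 0)).mul x3).add (((w 1).mul (b 1)).mul x3)).sub
        (((w 2).mul (b 2)).mul x4)) 16)).neg

/-- All components are polynomials in the components of `X`, their conjugates and `h`; use the
closure properties in `Nem.lean` (`(nn X k : ℂ) = conj (ff X k) * ff X k`). -/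
theorem nemAn_VV (m : Fin 3 → ℝ) : NemAn (VV m) :=
  (nemv_VF m).prodMk ((NemAn.const 0).prodMk
    (((nemv_nn 0).rmul (nemv_nn 1)).rmul (nemv_nn 2)))

end Pool.Agent.MP_5027f4_cont
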