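import Pool.Agent.Lib_MP_5027f4_cont.FlowC
import Pool.Agent.Lib_MP_5027f4_cont.NemV
import Pool.Agent.Lib_MP_5027f4_cont.DRun
import Pool.Agent.Lib_MP_5027f4_cont.ComE

/-!
PIECE [DFlow] (MP_5027f4_mp, T1).  The local flow of the extended regularized field.
-/

open Set Filter Topology Metric Polynomial
open scoped ComplexConjugate ContDiff
open Pool.Agent.MP_5027f4_mp

namespace Pool.Agent.MP_5027f4_cont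

variable {m : Fin 3 → ℝ} {h S₀ T₀ : ℝ} {X₀ X₁ : Up}

/-- Proof: `exists_hamFlow` for `VV m` (`nemAn_VV`, `contDiff_VV`, `exists_oY`, `oY_VV`,
`contDiff_Gam`) and the solution `Run.solVV`; translate with `Run.of_VV`. -/
theorem exists_VVflow (hr : Run m h S₀ X₀ T₀ X₁) :
    ∃ Ψ : ℝ × (Up × ℝ × ℝ) → Up × ℝ × ℝ, AnalyticAt ℝ Ψ (S₀, (X₀, h, 0)) ∧
      Ψ (S₀, (X₀, h, 0)) = (X₁, h, T₀) ∧
      (∀ᶠ p : ℝ × (Up × ℝ × ℝ) in 𝓝 (S₀, (X₀, h, 0)), p.2.2.2 = 0 →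
        Run m p.2.2.1 p.1 p.2.1 (Ψ p).2.2 (Ψ p).1 ∧ (Ψ p).2.1 = p.2.2.1) ∧
      (∀ᶠ p : ℝ × (Up × ℝ × ℝ) in 𝓝 (S₀, (X₀, h, 0)), fderiv ℝ Ψ p (1, 0) = VV m (Ψ p)) ∧
      ∀ᶠ p : ℝ × (Up × ℝ × ℝ) in 𝓝 (S₀, (X₀, h, 0)), ∀ ξ η,
        oY (fderiv ℝ Ψ p (0, ξ)) (fderiv ℝ Ψ p (0, η)) = oY ξ η := by
  obtain ⟨Ω, hΩ, halt⟩ := exists_oY
  obtain ⟨Y, hY, hY0, hY1⟩ := hr.solVV
  have hG : ContDiff ℝ 2 (fun Y : Up × ℝ × ℝ => Gam m Y.2.1 Y.1) := by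
    have h1 : ContDiff ℝ 2 (fun p : Up × ℝ => Gam m p.2 p.1) := (contDiff_Gam m).of_le (by exact_mod_cast le_top)
    have h2 : ContDiff ℝ 2 (fun Y : Up × ℝ × ℝ => ((Y.1, Y.2.1) : Up × ℝ)) :=
      contDiff_fst.prodMk (contDiff_fst.comp contDiff_snd)
    exact ContDiff.comp (g := fun p : Up × ℝ => Gam m p.2 p.1)
      (f := fun Y : Up × ℝ × ℝ => ((Y.1, Y.2.1) : Up × ℝ)) h1 h2
  obtain ⟨Ψ, h1, h2, h3, h4, h5⟩ := exists_hamFlow (nemAn_VV m)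
    ((contDiff_VV m).of_le (by exact_mod_cast le_top)) Ω halt _ hG
    (fun x ξ => by rw [hΩ, oY_VV]) hY
  rw [hY0] at h1 h2 h3 h4 h5
  rw [hY1] at h2
  refine ⟨Ψ, h1, h2, ?_, h4, ?_⟩
  · filter_upwards [h3] with p hp h0
    obtain ⟨c, hc, hc0, hc1⟩ := hp
    have h6 := Run.of_VV hc (by rw [hc0]; exact h0)
    rw [hc0, hc1] at h6
    exact h6
  · filter_upwards [h5] with p hp ξ η
    rw [← hΩ, ← hΩ]
    exact hp ξ η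

end Pool.Agent.MP_5027f4_cont
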