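import Pool.Agent.Lib_MP_5027f4_cont.DCls

/-!
PIECE [DJac] (MP_5027f4_mp, T1).  The derivative of the time T map is given by the Jacobi fields.
-/

open Set Filter Topology Metric Polynomial
open scoped ComplexConjugate ContDiff NNReal
open Pool.Agent.MP_5027f4_mp

namespace Pool.Agent.MP_5027f4_cont

variable {m : Fin 3 → ℝ} {S T : ℝ} {X₀ X₁ : Up} {y : ℝ → Ph} {Φ : ℝ × comSub m → comSub m}

/-- a solution in the frame as a solution in the subspace -/
theorem djac_lift {T : ℝ} {y : ℝ → Ph} (hy : Solves (fld m) (frame m) (Icc 0 T) y) :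
    (∀ t ∈ Icc 0 T, ((prE m (y t) : comSub m) : Ph) = y t) ∧
      Solves (fld₀ m) (noColl₀ m) (Icc 0 T) (fun t => prE m (y t)) := by
  have h1 : ∀ t ∈ Icc 0 T, ((prE m (y t) : comSub m) : Ph) = y t := by
    intro t ht
    have h2 : y t ∈ comSub m := mem_comSub.2 (hy t ht).1.2
    have h3 := prE_coe m ⟨y t, h2⟩
    exact congrArg (fun z : comSub m => (z : Ph)) h3
  refine ⟨h1, Solves.lift (m := m) (X := fun t => prE m (y t)) ?_⟩
  intro t ht
  refine ⟨?_, ?_⟩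
  · show ((prE m (y t) : comSub m) : Ph) ∈ frame m
    rw [h1 t ht]
    exact (hy t ht).1
  · show HasDerivWithinAt (fun t => ((prE m (y t) : comSub m) : Ph))
      (fld m ((prE m (y t) : comSub m) : Ph)) (Icc 0 T) t
    rw [h1 t ht]
    exact (hy t ht).2.congr h1 (h1 t ht)

/-- the linearized flow along a solution (general form) -/
theorem djac_flow {E : Type*} [NormedAddCommGroup E] [NormedSpace ℝ E] [FiniteDimensional ℝ E]
    {F : E → E} {Ω : Set E} (hΩ : IsOpen Ω) (hF : ContDiffOn ℝ 2 F Ω)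
    {x : ℝ → E} {T : ℝ} (hT : 0 ≤ T) (hx : Solves F Ω (Icc 0 T) x) :
    ∃ (A : ℝ → E →L[ℝ] E) (φ : E → E), A 0 = ContinuousLinearMap.id ℝ E ∧
      (∀ t ∈ Icc 0 T, HasDerivWithinAt A ((fderiv ℝ F (x t)).comp (A t)) (Icc 0 T) t) ∧
      HasFDerivAt φ (A T) (x 0) ∧
      ∀ᶠ p in 𝓝 (x 0), ∃ Y : ℝ → E, Solves F Ω (Icc 0 T) Y ∧ Y 0 = p ∧ Y T = φ p := by
  have hK : IsCompact (x '' Icc 0 T) := isCompact_Icc.image_of_continuousOn hx.continuousOn
  have hKΩ : x '' Icc 0 T ⊆ Ω := by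
    rintro _ ⟨t, ht, rfl⟩
    exact (hx t ht).1
  obtain ⟨G, V, hG, hGc, hVo, hKV, hVΩ, hGF⟩ := exists_cutoff hΩ hF hK hKΩ
  have hG1 : ContDiff ℝ 1 G := hG.of_le (by norm_num)
  obtain ⟨L, hL⟩ := hG1.lipschitzWith_of_hasCompactSupport hGc (by norm_num)
  obtain ⟨B₀, hB₀⟩ := hGc.exists_bound_of_continuous hG.continuous
  have hB : ∀ x, ‖G x‖ ≤ ((⟨max B₀ 0, le_max_right _ _⟩ : ℝ≥0) : ℝ) := fun x =>
    (hB₀ x).trans (le_max_left _ _)
  choose Y hY0 hY using fun p => exists_sol_of_lipschitz hL hB p hT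
  have hYs : ∀ p, Solves G univ (Icc 0 T) (Y p) := fun p t ht => ⟨mem_univ _, hY p t ht⟩
  have hxG : Solves G univ (Icc 0 T) x := fun t ht => ⟨mem_univ _, by
    rw [hGF _ (hKV ⟨t, ht, rfl⟩)]
    exact (hx t ht).2⟩
  have huniq : ∀ y : ℝ → E, Solves G univ (Icc 0 T) y → EqOn (Y (y 0)) y (Icc 0 T) := fun y hy =>
    (hYs (y 0)).eqOn_of_eq isOpen_univ hG1.contDiffOn hy (hY0 _)
  -- nearby solutions stay in `V`
  obtain ⟨r, hr, hrV⟩ := hK.exists_thickening_subset_open hVo hKV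
  obtain ⟨δ₁, hδ₁, hnear⟩ := exists_near_forward isOpen_univ hG1.contDiffOn hT hxG hr
  have hYV : ∀ p, dist p (x 0) < δ₁ → ∀ t ∈ Icc 0 T, Y p t ∈ V := by
    intro p hp t ht
    obtain ⟨y, hy0, hy, hyx⟩ := hnear p hp
    have h1 := huniq y hy ht
    rw [hy0] at h1
    rw [h1]
    exact hrV (mem_thickening_iff.mpr ⟨x t, ⟨t, ht, rfl⟩, hyx t ht⟩)
  have hYF : ∀ p, dist p (x 0) < δ₁ → Solves F Ω (Icc 0 T) (Y p) := by
    intro p hp t ht
    refine ⟨hVΩ (hYV p hp t ht), ?_⟩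
    rw [← hGF _ (hYV p hp t ht)]
    exact hY p t ht
  obtain ⟨A, hA0, hA⟩ := exists_fundamental hG hT hxG
  have hφd : HasStrictFDerivAt (fun p => Y p T) (A T) (x 0) := by
    rw [hasStrictFDerivAt_iff_isLittleO, Asymptotics.isLittleO_iff]
    intro c hc
    obtain ⟨δ, hδ, hst⟩ := flow_strict hG hGc hT hxG hA0 hA hc
    have h1 : ∀ᶠ z in 𝓝 (x 0, x 0), dist z.1 (x 0) < δ := by
      have : Tendsto (fun z : E × E => dist z.1 (x 0)) (𝓝 (x 0, x 0)) (𝓝 0) := by
        have : Continuous fun z : E × E => dist z.1 (x 0) := by fun_prop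
        simpa using this.tendsto (x 0, x 0)
      exact this.eventually (gt_mem_nhds hδ)
    have h2 : ∀ᶠ z in 𝓝 (x 0, x 0), dist z.2 (x 0) < δ := by
      have : Tendsto (fun z : E × E => dist z.2 (x 0)) (𝓝 (x 0, x 0)) (𝓝 0) := by
        have : Continuous fun z : E × E => dist z.2 (x 0) := by fun_prop
        simpa using this.tendsto (x 0, x 0)
      exact this.eventually (gt_mem_nhds hδ)
    filter_upwards [h1, h2] with z hz1 hz2
    have h3 := hst (Y z.1) (Y z.2) (hYs _) (hYs _) (by rwa [hY0]) (by rwa [hY0])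
    rwa [hY0, hY0] at h3
  refine ⟨A, fun p => Y p T, hA0, ?_, hφd.hasFDerivAt, ?_⟩
  · intro t ht
    have h3 : fderiv ℝ G (x t) = fderiv ℝ F (x t) := by
      apply Filter.EventuallyEq.fderiv_eq
      filter_upwards [hVo.mem_nhds (hKV ⟨t, ht, rfl⟩)] with z hz
      exact hGF z hz
    have h4 := hA t ht
    rw [h3] at h4
    exact h4
  · filter_upwards [ball_mem_nhds (x 0) hδ₁] with p hp
    exact ⟨Y p, hYF p hp, hY0 p, rfl⟩

/-- uniqueness for linear equations with continuous coefficients -/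
theorem djac_unique {E : Type*} [NormedAddCommGroup E] [NormedSpace ℝ E]
    [FiniteDimensional ℝ E] {T : ℝ} (hT : 0 ≤ T)
    {L : ℝ → E →L[ℝ] E} (hL : ContinuousOn L (Icc 0 T)) {J J' : ℝ → E}
    (hJ : ∀ t ∈ Icc 0 T, HasDerivWithinAt J (L t (J t)) (Icc 0 T) t)
    (hJ' : ∀ t ∈ Icc 0 T, HasDerivWithinAt J' (L t (J' t)) (Icc 0 T) t) (h0 : J 0 = J' 0) :
    J T = J' T := by
  obtain ⟨C, hC⟩ := (isCompact_Icc.exists_bound_of_continuousOn hL)
  have hC0 : ∀ t ∈ Icc 0 T, ‖L t‖ ≤ max C 0 := fun t ht => (hC t ht).trans (le_max_left _ _)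
  have hder : ∀ t ∈ Icc 0 T, HasDerivWithinAt (fun t => J t - J' t) (L t (J t) - L t (J' t))
      (Icc 0 T) t := fun t ht => (hJ t ht).sub (hJ' t ht)
  have hb := norm_le_gronwallBound_of_norm_deriv_right_le
    (f := fun t => J t - J' t) (δ := 0) (K := max C 0) (ε := 0) (a := 0) (b := T)
    (fun t ht => (hder t ht).continuousWithinAt)
    (fun t ht => hasDerivWithinAt_Ici_of_Icc ht (hder t (Ico_subset_Icc_self ht)))
    (by simp [h0]) (fun t ht => by
      rw [← map_sub, add_zero]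
      exact ((L t).le_opNorm _).trans
        (mul_le_mul_of_nonneg_right (hC0 t (Ico_subset_Icc_self ht)) (norm_nonneg _)))
    T ⟨hT, le_rfl⟩
  rw [gronwallBound_ε0_δ0] at hb
  exact sub_eq_zero.1 (norm_le_zero_iff.1 hb)

/-- Proof: the linear equation with continuous coefficients `J' = D(fld₀)(y t) J` has global
solutions; use `exists_cutoff` (for `fld₀ m`, `noColl₀ m`) and `exists_fundamental` of
`Lib_MP_5027f4_mp/Deriv.lean` as in the proof of `not_stable_of_nondegenerate`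
(`Lib_MP_5027f4_mp/Nondeg.lean`), `coe_fderiv_fld₀`. -/
theorem exists_jacobi (hT : 0 ≤ T) (hy : Solves (fld m) (frame m) (Icc 0 T) y)
    (v : comSub m) : ∃ J, IsJacobi m y T J ∧ J 0 = (v : Ph) := by
  obtain ⟨hX, hXs⟩ := djac_lift hy
  obtain ⟨A, φ, hA0, hA, -, -⟩ := djac_flow (isOpen_noColl₀ m) (contDiffOn_fld₀ m) hT hXs
  refine ⟨fun t => ((A t v : comSub m) : Ph), fun t ht => ⟨(A t v).2.1, (A t v).2.2, ?_⟩, ?_⟩
  · have h1 : HasDerivWithinAt (fun t => A t v) (fderiv ℝ (fld₀ m) (prE m (y t)) (A t v))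
        (Icc 0 T) t := by
      have := (hA t ht).clm_apply (hasDerivWithinAt_const t (Icc 0 T) v)
      simpa using this
    have h2 := (incl m).hasFDerivAt.comp_hasDerivWithinAt t h1
    refine h2.congr_deriv ?_
    have h3 := coe_fderiv_fld₀ (hXs t ht).1 (A t v)
    rw [hX t ht] at h3
    exact h3
  · show ((A 0 v : comSub m) : Ph) = v
    rw [hA0]
    rfl

/-- Proof.  By `LM.classical` at `p = (T, y')`, `Φ (T, y')` is the end point of the classical
solution from `y'`.  `exists_cutoff` replaces `fld₀ m` by a compactly supported `C²` field `G` near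
the image of `y`; by `flow_strict` the end point has at `y' = pE m X₀` the derivative `A T`, `A` the
fundamental solution (`exists_fundamental`); nearby solutions stay near `y` (`exists_near_forward`
and uniqueness).  `J t = A t (J 0)` by uniqueness for the linear equation. -/
theorem LM.jacobi (hm : ∀ a, 0 < m a) (hT : 0 < T)
    (hy : Solves (fld m) (frame m) (Icc 0 T) y) (hΦ : LM m T S X₀ X₁ Φ)
    (hX : ((pE m X₀ : comSub m) : Ph) = y 0) {J : ℝ → Ph} (hJ : IsJacobi m y T J)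
    (h0 : J 0 ∈ comSub m) :
    ((fderiv ℝ Φ (T, pE m X₀) (0, ⟨J 0, h0⟩) : comSub m) : Ph) = J T := by
  obtain ⟨hX', hXs⟩ := djac_lift hy
  have h0mem : (0 : ℝ) ∈ Icc 0 T := ⟨le_rfl, hT.le⟩
  have hTmem : T ∈ Icc 0 T := ⟨hT.le, le_rfl⟩
  have hbase : prE m (y 0) = pE m X₀ := by
    rw [← hX, prE_coe]
  obtain ⟨A, φ, hA0, hA, hφ, hev⟩ :=
    djac_flow (isOpen_noColl₀ m) (contDiffOn_fld₀ m) hT.le hXs
  rw [hbase] at hφ hev
  -- the time `T` map
  have hcl := LM.classical hm hT hy hΦ hX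
  have hcl' : ∀ᶠ p : comSub m in 𝓝 (pE m X₀), ∃ z, Solves (fld m) (frame m) (Icc 0 T) z ∧
      z 0 = (p : Ph) ∧ z T = (Φ (T, p) : Ph) := by
    have h1 : Tendsto (fun p : comSub m => ((T, p) : ℝ × comSub m)) (𝓝 (pE m X₀))
        (𝓝 (T, pE m X₀)) := by
      have h2 : Continuous fun p : comSub m => ((T, p) : ℝ × comSub m) := by fun_prop
      exact h2.tendsto _
    exact h1.eventually hcl
  have heq : (fun p => Φ (T, p)) =ᶠ[𝓝 (pE m X₀)] φ := by
    filter_upwards [hcl', hev] with p hp1 hp2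
    obtain ⟨z, hz, hz0, hzT⟩ := hp1
    obtain ⟨Y, hY, hY0, hYT⟩ := hp2
    obtain ⟨hz', hzs⟩ := djac_lift hz
    have h1 : prE m (z 0) = Y 0 := by
      rw [hz0, prE_coe, hY0]
    have h2 := hzs.eqOn_of_eq (isOpen_noColl₀ m)
      ((contDiffOn_fld₀ m).of_le (by norm_num)) hY h1 hTmem
    have h3 : prE m (z T) = Y T := h2
    rw [← hYT, ← h3, hzT, prE_coe]
  have hd1 : HasFDerivAt (fun p => Φ (T, p)) (A T) (pE m X₀) := hφ.congr_of_eventuallyEq heq
  have hd2 : HasFDerivAt (fun p => Φ (T, p)) ((fderiv ℝ Φ (T, pE m X₀)).comp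
      (ContinuousLinearMap.inr ℝ ℝ (comSub m))) (pE m X₀) := by
    have h1 : HasFDerivAt (fun p : comSub m => ((T, p) : ℝ × comSub m))
        (ContinuousLinearMap.inr ℝ ℝ (comSub m)) (pE m X₀) :=
      hasFDerivAt_prodMk_right T (pE m X₀)
    exact hΦ.an.differentiableAt.hasFDerivAt.comp (pE m X₀) h1
  have hd3 : (fderiv ℝ Φ (T, pE m X₀)) (0, ⟨J 0, h0⟩) = A T ⟨J 0, h0⟩ := by
    have h1 := hd2.unique hd1
    have h2 := congrArg (fun B : comSub m →L[ℝ] comSub m => B ⟨J 0, h0⟩) h1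
    exact h2
  rw [hd3]
  -- uniqueness for the linear equation
  have hJc : ∀ t ∈ Icc 0 T, ((prE m (J t) : comSub m) : Ph) = J t := by
    intro t ht
    have h2 : J t ∈ comSub m := mem_comSub.2 ⟨(hJ t ht).1, (hJ t ht).2.1⟩
    exact congrArg (fun z : comSub m => (z : Ph)) (prE_coe m ⟨J t, h2⟩)
  have hJd : ∀ t ∈ Icc 0 T, HasDerivWithinAt (fun t => prE m (J t))
      (fderiv ℝ (fld₀ m) (prE m (y t)) (prE m (J t))) (Icc 0 T) t := by
    intro t ht
    have h1 := (prE m).hasFDerivAt.comp_hasDerivWithinAt t (hJ t ht).2.2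
    refine h1.congr_deriv ?_
    have h3 := coe_fderiv_fld₀ (hXs t ht).1 (prE m (J t))
    rw [hX' t ht, hJc t ht] at h3
    have h4 : prE m (fderiv ℝ (fld m) (y t) (J t)) =
        fderiv ℝ (fld₀ m) (prE m (y t)) (prE m (J t)) := by
      rw [← h3, prE_coe]
    exact h4
  have hLc : ContinuousOn (fun t => fderiv ℝ (fld₀ m) (prE m (y t))) (Icc 0 T) := by
    have h1 : ContinuousOn (fderiv ℝ (fld₀ m)) (noColl₀ m) :=
      (contDiffOn_fld₀ m).continuousOn_fderiv_of_isOpen (isOpen_noColl₀ m) (by norm_num)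
    exact h1.comp hXs.continuousOn fun t ht => (hXs t ht).1
  have hAd : ∀ t ∈ Icc 0 T, HasDerivWithinAt (fun t => A t ⟨J 0, h0⟩)
      (fderiv ℝ (fld₀ m) (prE m (y t)) (A t ⟨J 0, h0⟩)) (Icc 0 T) t := by
    intro t ht
    have := (hA t ht).clm_apply (hasDerivWithinAt_const t (Icc 0 T) (⟨J 0, h0⟩ : comSub m))
    simpa using this
  have hfin := djac_unique hT.le hLc hAd hJd (by
    rw [hA0]
    apply Subtype.ext
    exact (hJc 0 h0mem).symm)
  rw [hfin]
  exact hJc T hTmem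

/-- The linearized return map is the monodromy.  Proof: `fderiv (ret Φ T u) v =
u⁻¹ • fderiv Φ (T, ·) (0, v) = u⁻¹ • J T = M v` with `J` from `exists_jacobi`. -/
theorem cp_monodromy (hm : ∀ a, 0 < m a) (hT : 0 < T)
    (hy : Solves (fld m) (frame m) (Icc 0 T) y) (hΦ : LM m T S X₀ X₁ Φ)
    (hX : ((pE m X₀ : comSub m) : Ph) = y 0) {u : ℂ} (hu : ‖u‖ = 1)
    {M : comSub m →ₗ[ℝ] comSub m} (hM : IsMon m y T u M) :
    cp (fderiv ℝ (ret Φ T u) (pE m X₀)) = M.charpoly := by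
  have hu0 : u ≠ 0 := by
    rw [← norm_ne_zero_iff, hu]
    exact one_ne_zero
  have hd2 : HasFDerivAt (fun p => Φ (T, p)) ((fderiv ℝ Φ (T, pE m X₀)).comp
      (ContinuousLinearMap.inr ℝ ℝ (comSub m))) (pE m X₀) := by
    have h1 : HasFDerivAt (fun p : comSub m => ((T, p) : ℝ × comSub m))
        (ContinuousLinearMap.inr ℝ ℝ (comSub m)) (pE m X₀) :=
      hasFDerivAt_prodMk_right T (pE m X₀)
    exact hΦ.an.differentiableAt.hasFDerivAt.comp (pE m X₀) h1
  have hd3 : HasFDerivAt (ret Φ T u) (u⁻¹ • ((fderiv ℝ Φ (T, pE m X₀)).comp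
      (ContinuousLinearMap.inr ℝ ℝ (comSub m)))) (pE m X₀) := hd2.const_smul u⁻¹
  have hd4 : ((fderiv ℝ (ret Φ T u) (pE m X₀) : comSub m →L[ℝ] comSub m) :
      comSub m →ₗ[ℝ] comSub m) = M := by
    rw [hd3.fderiv]
    apply LinearMap.ext
    intro v
    obtain ⟨J, hJ, hJ0⟩ := exists_jacobi hT.le hy v
    have h0 : J 0 ∈ comSub m := by
      rw [hJ0]
      exact v.2
    have h1 := LM.jacobi hm hT hy hΦ hX hJ h0
    have h2 := hM J h0 hJ
    have h3 : (⟨J 0, h0⟩ : comSub m) = v := Subtype.ext hJ0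
    rw [h3] at h1 h2
    apply Subtype.ext
    show u⁻¹ • ((fderiv ℝ Φ (T, pE m X₀) (0, v) : comSub m) : Ph) = (M v : Ph)
    rw [h1, h2, smul_smul, inv_mul_cancel₀ hu0, one_smul]
  unfold cp
  rw [hd4]

end Pool.Agent.MP_5027f4_cont
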