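import Pool.Agent.Lib_MP_5027f4_cont.DTime

/-!
PIECE [DLMa] (MP_5027f4_mp, T1).  The time T map.
-/

open Set Filter Topology Metric Polynomial
open scoped ComplexConjugate ContDiff
open Pool.Agent.MP_5027f4_mp

namespace Pool.Agent.MP_5027f4_cont

variable {m : Fin 3 → ℝ} {S₀ T₀ : ℝ} {X₀ X₁ : Up} {σ : comSub m → Up}
  {Ψ : ℝ × (Up × ℝ × ℝ) → Up × ℝ × ℝ} {sT : ℝ × comSub m → ℝ}

/-- Proof.  `an`: composition.  `run`: for `(S, X)` near `(S₀, X₀)` put `y = pE m X`; then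
`X = σ y` (`sec'`), the run is unique (`Run.unique`), so `X' = (Ψ (S, (σ y, h, 0))).1`,
`T' = (Ψ (S, (σ y, h, 0))).2.2`, and `sT (T', y) = S` by `right`.  `ex`: take
`q = (sT p, σ p.2, (Ψ (sT p, (σ p.2, (muE m p.2).1, 0))).1)`, continuous in `p`; `left`, `runΨ`. -/
theorem LM_of_data (hm : ∀ a, 0 < m a) (hd : TimeData m T₀ S₀ X₀ X₁ σ Ψ sT) :
    LM m T₀ S₀ X₀ X₁ (fun p => pE m (Ψ (sT p, (σ p.2, (muE m p.2).1, 0))).1) := by
  have hM : MM m ≠ 0 := by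
    have h0 := hm 0
    have h1 := hm 1
    have h2 := hm 2
    unfold MM
    positivity
  have hm0 : ∀ a, m a ≠ 0 := fun a => (hm a).ne'
  set y₀ : comSub m := pE m X₀ with hy₀
  have hmu : AnalyticAt ℝ (muE m) y₀ := analyticAt_muE m (pE_noColl hM hm0 hd.nc0)
  -- the inner map
  have hsnd : AnalyticAt ℝ (fun p : ℝ × comSub m => p.2) (T₀, y₀) := analyticAt_snd
  have hσp : AnalyticAt ℝ (fun p : ℝ × comSub m => σ p.2) (T₀, y₀) :=
    AnalyticAt.fun_comp (f := fun p : ℝ × comSub m => p.2) hd.anσ hsnd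
  have hmup : AnalyticAt ℝ (fun p : ℝ × comSub m => (muE m p.2).1) (T₀, y₀) :=
    AnalyticAt.fun_comp (g := Prod.fst) (f := fun p : ℝ × comSub m => muE m p.2) analyticAt_fst
      (AnalyticAt.fun_comp (f := fun p : ℝ × comSub m => p.2) hmu hsnd)
  have hin : AnalyticAt ℝ (fun p : ℝ × comSub m =>
      ((sT p, (σ p.2, (muE m p.2).1, 0)) : ℝ × (Up × ℝ × ℝ))) (T₀, y₀) :=
    hd.ans.prod (hσp.prod (hmup.prod analyticAt_const))
  have hin0 : ((sT (T₀, y₀), (σ y₀, (muE m y₀).1, 0)) : ℝ × (Up × ℝ × ℝ)) =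
      (S₀, (X₀, (muE m y₀).1, 0)) := by
    rw [hd.s0, hd.σ0]
  have hΨin : AnalyticAt ℝ (fun p : ℝ × comSub m => Ψ (sT p, (σ p.2, (muE m p.2).1, 0)))
      (T₀, y₀) := by
    refine AnalyticAt.fun_comp (g := Ψ) (f := fun p : ℝ × comSub m =>
      ((sT p, (σ p.2, (muE m p.2).1, 0)) : ℝ × (Up × ℝ × ℝ))) ?_ hin
    show AnalyticAt ℝ Ψ ((sT (T₀, y₀), (σ y₀, (muE m y₀).1, 0)) : ℝ × (Up × ℝ × ℝ))
    rw [hin0]
    exact hd.anΨ
  have hval : Ψ (sT (T₀, y₀), (σ y₀, (muE m y₀).1, 0)) = (X₁, (muE m y₀).1, T₀) := by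
    rw [hin0]
    exact hd.Ψ0
  have hΨ1 : AnalyticAt ℝ (fun p : ℝ × comSub m => (Ψ (sT p, (σ p.2, (muE m p.2).1, 0))).1)
      (T₀, y₀) :=
    AnalyticAt.fun_comp (g := Prod.fst)
      (f := fun p : ℝ × comSub m => Ψ (sT p, (σ p.2, (muE m p.2).1, 0))) analyticAt_fst hΨin
  refine ⟨hd.nc0, hd.nc1, hd.run0, ?_, ?_, ?_⟩
  · refine AnalyticAt.fun_comp (g := pE m) (f := fun p : ℝ × comSub m =>
      (Ψ (sT p, (σ p.2, (muE m p.2).1, 0))).1) ?_ hΨ1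
    show AnalyticAt ℝ (pE m) (Ψ (sT (T₀, y₀), (σ y₀, (muE m y₀).1, 0))).1
    rw [hval]
    exact analyticAt_pE m hd.nc1
  · -- uniqueness
    have hpE : ContinuousAt (fun q : ℝ × Up => pE m q.2) (S₀, X₀) :=
      ContinuousAt.comp (g := pE m) (f := fun q : ℝ × Up => q.2)
        (analyticAt_pE m hd.nc0).continuousAt continuousAt_snd
    have hmuq : ContinuousAt (fun q : ℝ × Up => (muE m (pE m q.2)).1) (S₀, X₀) :=
      ContinuousAt.fst (ContinuousAt.comp (g := muE m) (f := fun q : ℝ × Up => pE m q.2)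
        hmu.continuousAt hpE)
    have hq1 : Tendsto (fun q : ℝ × Up => (q.1, pE m q.2)) (𝓝 (S₀, X₀)) (𝓝 (S₀, y₀)) :=
      (continuousAt_fst.prodMk hpE : ContinuousAt (fun q : ℝ × Up => (q.1, pE m q.2)) (S₀, X₀))
    have hq2 : Tendsto (fun q : ℝ × Up => ((q.1, (q.2, (muE m (pE m q.2)).1, 0)) :
        ℝ × (Up × ℝ × ℝ))) (𝓝 (S₀, X₀)) (𝓝 (S₀, (X₀, (muE m y₀).1, 0))) :=
      (continuousAt_fst.prodMk (continuousAt_snd.prodMk (hmuq.prodMk continuousAt_const)) :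
        ContinuousAt (fun q : ℝ × Up => ((q.1, (q.2, (muE m (pE m q.2)).1, 0)) :
        ℝ × (Up × ℝ × ℝ))) (S₀, X₀))
    filter_upwards [hq1.eventually hd.right, hq2.eventually hd.runΨ,
      (continuousAt_snd (p := ((S₀, X₀) : ℝ × Up))).eventually hd.sec'] with q h1 h2 h3
    intro T' X' hrun
    obtain ⟨h4, -⟩ := h2 rfl
    obtain ⟨hT, hX⟩ := hrun.unique h4
    have h3' : σ (pE m q.2) = q.2 := h3
    simp only [h3'] at h1
    show pE m X' = pE m (Ψ (sT (T', pE m q.2), (σ (pE m q.2), (muE m (pE m q.2)).1, 0))).1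
    rw [h3', hX, hT, h1]
  · intro 𝒩 h𝒩
    have hc : Tendsto (fun p : ℝ × comSub m =>
        ((sT p, σ p.2, (Ψ (sT p, (σ p.2, (muE m p.2).1, 0))).1) : ℝ × Up × Up))
        (𝓝 (T₀, y₀)) (𝓝 (S₀, X₀, X₁)) := by
      have hc1 : ContinuousAt (fun p : ℝ × comSub m =>
          ((sT p, σ p.2, (Ψ (sT p, (σ p.2, (muE m p.2).1, 0))).1) : ℝ × Up × Up)) (T₀, y₀) :=
        hd.ans.continuousAt.prodMk (hσp.continuousAt.prodMk hΨ1.continuousAt)
      have hc2 : ((sT (T₀, y₀), σ y₀, (Ψ (sT (T₀, y₀), (σ y₀, (muE m y₀).1, 0))).1) :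
          ℝ × Up × Up) = (S₀, X₀, X₁) := by
        rw [hval, hd.s0, hd.σ0]
      rw [← hc2]
      exact hc1
    have hin' : Tendsto (fun p : ℝ × comSub m =>
        ((sT p, (σ p.2, (muE m p.2).1, 0)) : ℝ × (Up × ℝ × ℝ))) (𝓝 (T₀, y₀))
        (𝓝 (S₀, (X₀, (muE m y₀).1, 0))) := by
      rw [← hin0]
      exact hin.continuousAt
    filter_upwards [hc.eventually h𝒩, hin'.eventually hd.runΨ, hd.left,
      (continuousAt_snd (p := ((T₀, y₀) : ℝ × comSub m))).eventually hd.sec] with p h1 h2 h3 h4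
    obtain ⟨h5, -⟩ := h2 rfl
    refine ⟨_, h1, h4.2, ?_⟩
    rw [h3] at h5
    exact h5

end Pool.Agent.MP_5027f4_cont
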