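import Pool.Agent.Lib_MP_5027f4_cont.SolA

/-!
PIECE [FlowLim] (MP_5027f4_mp, T1).  Limits of bounded solutions, continuation.
-/

open Set Filter Topology Metric
open scoped ContDiff NNReal
open Pool.Agent.MP_5027f4_mp

namespace Pool.Agent.MP_5027f4_cont

theorem FlowLim_exists_sol {E : Type*} [NormedAddCommGroup E] [NormedSpace ℝ E] [CompleteSpace E]
    {G : E → E} {L B : ℝ≥0} (hL : LipschitzWith L G)
    (hB : ∀ x, ‖G x‖ ≤ B) (p : E) {T : ℝ} (hT : 0 < T) :
    ∃ y : ℝ → E, y 0 = p ∧ ∀ t ∈ Ioo (-T) T, HasDerivAt y (G (y t)) t := by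
  have h : IsPicardLindelof (fun _ => G) (⟨0, by linarith, hT.le⟩ : Icc (-T) T) p
      (B * ⟨T, hT.le⟩) 0 B L := by
    refine ⟨fun t _ => hL.lipschitzOnWith, fun x _ => continuousOn_const,
      fun t _ x _ => hB x, ?_⟩
    simp only [sub_zero, zero_sub, neg_neg, max_self, NNReal.coe_mul, NNReal.coe_zero]
    exact le_rfl
  obtain ⟨y, hy0, hy⟩ := h.exists_eq_forall_mem_Icc_hasDerivWithinAt₀
  exact ⟨y, hy0, fun t ht => (hy t (Ioo_subset_Icc_self ht)).hasDerivAt (Icc_mem_nhds ht.1 ht.2)⟩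

variable {E : Type*} [NormedAddCommGroup E] [NormedSpace ℝ E] [FiniteDimensional ℝ E] {f : E → E}

/-- Limits of bounded solutions.

Proof.  `exists_lipschitz_cutoff` of `Lib_MP_5027f4_mp/Flow.lean` (with `Ω = univ`,
`K = closedBall 0 B`) gives a bounded Lipschitz `G` with `G = f` on an open `V ⊇ closedBall 0 B`.
Let `S₁` be an upper bound of all `Sn n` plus one; `G` has a solution `y` with `y 0 = x` on
`[0, S₁]` (`exists_sol_of_lipschitz`), and solutions of `G` from `cn n 0`, which agree with `cn n` on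
`[0, Sn n]` (uniqueness), satisfy `dist ≤ dist (cn n 0) x * exp (L S₁)` from `y`
(`dist_le_of_trajectories_ODE`).  So for `s < S` (and by continuity `s = S`), `y s` is the limit of
`cn n s` (`s ≤ Sn n` for large `n`), so `‖y s‖ ≤ B`; `cn n (Sn n) → y S`.  On a slightly larger
interval `y` stays in `V`, and at negative times use a local solution (`SolOn.exists_local` and
gluing, or solve `G` on `[-1, S₁]` by shifting), so `SolOn f S c`. -/
theorem flow_lim (hf : ContDiff ℝ 1 f) {B S : ℝ} {Sn : ℕ → ℝ} {cn : ℕ → ℝ → E} {x : E}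
    (h0 : ∀ n, 0 ≤ Sn n) (hS : Tendsto Sn atTop (𝓝 S)) (hc : ∀ n, SolOn f (Sn n) (cn n))
    (hB : ∀ n, ∀ s ∈ Icc 0 (Sn n), ‖cn n s‖ ≤ B)
    (hx : Tendsto (fun n => cn n 0) atTop (𝓝 x)) :
    ∃ c, SolOn f S c ∧ c 0 = x ∧ Tendsto (fun n => cn n (Sn n)) atTop (𝓝 (c S)) ∧
      ∀ s ∈ Icc 0 S, ‖c s‖ ≤ B := by
  have : ProperSpace E := FiniteDimensional.proper ℝ E
  have : CompleteSpace E := FiniteDimensional.complete ℝ E
  have hS0 : 0 ≤ S := ge_of_tendsto' hS h0
  obtain ⟨G, L, M, V, hVo, hKV, -, hL, hM, hGf⟩ :=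
    exists_lipschitz_cutoff (F := f) (Ω := univ) (K := closedBall (0 : E) B) isOpen_univ
      hf.contDiffOn (isCompact_closedBall _ _) (subset_univ _)
  obtain ⟨S₁, hS₁⟩ := hS.bddAbove_range
  have hS₁' : ∀ n, Sn n ≤ S₁ := fun n => hS₁ ⟨n, rfl⟩
  have hSS₁ : S ≤ S₁ := le_of_tendsto' hS hS₁'
  have hT : 0 < S₁ + 1 := by linarith
  obtain ⟨y, hy0, hy⟩ := FlowLim_exists_sol hL hM x hT
  have hmem : ∀ s, 0 ≤ s → s ≤ S₁ → s ∈ Ioo (-(S₁ + 1)) (S₁ + 1) := by
    intro s h1 h2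
    exact ⟨by linarith, by linarith⟩
  -- the estimate
  have hest : ∀ n, ∀ s ∈ Icc 0 (Sn n), dist (cn n s) (y s) ≤
      dist (cn n 0) x * Real.exp (L * S₁) := by
    intro n s hs
    have hcd : ∀ t ∈ Icc 0 (Sn n), HasDerivAt (cn n) (G (cn n t)) t := by
      intro t ht
      rw [hGf _ (hKV (by rw [mem_closedBall_zero_iff]; exact hB n t ht))]
      exact (hc n).hasDerivAt (by rw [uIcc_of_le (h0 n)]; exact ht)
    have hyd : ∀ t ∈ Icc 0 (Sn n), HasDerivAt y (G (y t)) t := fun t ht =>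
      hy t (hmem t ht.1 (ht.2.trans (hS₁' n)))
    have h1 : dist (cn n s) (y s) ≤ dist (cn n 0) x * Real.exp (L * (s - 0)) := by
      refine dist_le_of_trajectories_ODE (v := fun _ => G) (fun _ => hL)
        (fun t ht => (hcd t ht).continuousAt.continuousWithinAt)
        (fun t ht => (hcd t (Ico_subset_Icc_self ht)).hasDerivWithinAt)
        (fun t ht => (hyd t ht).continuousAt.continuousWithinAt)
        (fun t ht => (hyd t (Ico_subset_Icc_self ht)).hasDerivWithinAt) ?_ s hs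
      rw [hy0]
    refine h1.trans (mul_le_mul_of_nonneg_left ?_ dist_nonneg)
    apply Real.exp_le_exp.mpr
    apply mul_le_mul_of_nonneg_left _ L.2
    linarith [hs.2, hS₁' n]
  have hlim0 : Tendsto (fun n => dist (cn n 0) x * Real.exp (L * S₁)) atTop (𝓝 0) := by
    have h1 : Tendsto (fun n => dist (cn n 0) x) atTop (𝓝 0) :=
      tendsto_iff_dist_tendsto_zero.mp hx
    simpa using h1.mul_const (Real.exp (L * S₁))
  have hlim : ∀ (sn : ℕ → ℝ) (s : ℝ), (∀ n, sn n ∈ Icc 0 (Sn n)) → Tendsto sn atTop (𝓝 s) →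
      0 ≤ s → s ≤ S₁ → Tendsto (fun n => cn n (sn n)) atTop (𝓝 (y s)) := by
    intro sn s hsn hs hs0 hs1
    have h1 : Tendsto (fun n => y (sn n)) atTop (𝓝 (y s)) :=
      ((hy s (hmem s hs0 hs1)).continuousAt.tendsto).comp hs
    have h2 : Tendsto (fun n => dist (y (sn n)) (cn n (sn n))) atTop (𝓝 0) := by
      refine squeeze_zero (fun n => dist_nonneg) (fun n => ?_) hlim0
      rw [dist_comm]
      exact hest n (sn n) (hsn n)
    exact (tendsto_iff_of_dist h2).mp h1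
  have hnorm : ∀ s ∈ Icc 0 S, ‖y s‖ ≤ B := by
    intro s hs
    have h1 : Tendsto (fun n => min s (Sn n)) atTop (𝓝 s) := by
      have h2 : Tendsto (fun n => min s (Sn n)) atTop (𝓝 (min s S)) := tendsto_const_nhds.min hS
      rwa [min_eq_left hs.2] at h2
    have h3 := hlim (fun n => min s (Sn n)) s
      (fun n => ⟨le_min hs.1 (h0 n), min_le_right _ _⟩) h1 hs.1 (hs.2.trans hSS₁)
    refine le_of_tendsto' h3.norm (fun n => ?_)
    exact hB n _ ⟨le_min hs.1 (h0 n), min_le_right _ _⟩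
  have hyV : ∀ s ∈ Icc 0 S, ∀ᶠ t in 𝓝 s, HasDerivAt y (f (y t)) t := by
    intro s hs
    have h1 : y s ∈ V := hKV (by rw [mem_closedBall_zero_iff]; exact hnorm s hs)
    have h2 := hmem s hs.1 (hs.2.trans hSS₁)
    filter_upwards [(hy s h2).continuousAt.eventually_mem (hVo.mem_nhds h1),
      Ioo_mem_nhds h2.1 h2.2] with t ht1 ht2
    rw [← hGf _ ht1]
    exact hy t ht2
  refine ⟨y, ?_, hy0, ?_, hnorm⟩
  · obtain ⟨ε₁, hε₁, h1⟩ := Metric.eventually_nhds_iff.mp (hyV 0 ⟨le_rfl, hS0⟩)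
    obtain ⟨ε₂, hε₂, h2⟩ := Metric.eventually_nhds_iff.mp (hyV S ⟨hS0, le_rfl⟩)
    refine ⟨-ε₁, S + ε₂, by linarith, by linarith, by linarith, by linarith, fun s hs => ?_⟩
    rcases lt_or_ge s 0 with h3 | h3
    · apply h1
      rw [Real.dist_eq, sub_zero, abs_of_neg h3]
      linarith [hs.1]
    · rcases le_or_gt s S with h4 | h4
      · exact (hyV s ⟨h3, h4⟩).self_of_nhds
      · apply h2
        rw [Real.dist_eq, abs_of_pos (by linarith)]
        linarith [hs.2]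
  · exact hlim Sn S (fun n => ⟨h0 n, le_rfl⟩) hS hS0 hSS₁

/-- Continuation of bounded solutions.

Proof.  Let `A` be the set of `s ∈ [0, S]` such that there is `c` with `SolOn f s c`, `c 0 = x`.
`0 ∈ A` (`SolOn.exists_local`).  `A` is closed under sequential limits by `flow_lim` (all these
solutions are bounded by `B` on `[0, s]`: apply `h` to `SolOn.restrict`), and open in `[0, S]` by
`SolOn.eventually`, and downward closed; so `A = [0, S]`
(`IsClosed.Icc_subset_of_forall_mem_nhdsWithin` or a supremum argument). -/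
theorem exists_sol_of_bound (hf : ContDiff ℝ 1 f) {B S : ℝ} (hS : 0 ≤ S) {x : E}
    (h : ∀ s, 0 ≤ s → s ≤ S → ∀ c, SolOn f s c → c 0 = x → ‖c s‖ ≤ B) :
    ∃ c, SolOn f S c ∧ c 0 = x := by
  have : CompleteSpace E := FiniteDimensional.complete ℝ E
  set A : Set ℝ := {s | ∃ c, SolOn f s c ∧ c 0 = x} with hA
  have hclosed : IsClosed (A ∩ Icc 0 S) := by
    apply IsSeqClosed.isClosed
    intro sn s hsn hs
    choose cn hcn hcn0 using fun n => (hsn n).1
    have hs0 : s ∈ Icc 0 S := isClosed_Icc.mem_of_tendsto hs (Eventually.of_forall fun n => (hsn n).2)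
    obtain ⟨c, hc, hc0, -⟩ := flow_lim hf (B := B) (fun n => (hsn n).2.1) hs hcn
      (fun n r hr => h r hr.1 (hr.2.trans (hsn n).2.2) (cn n)
        ((hcn n).restrict (by rw [uIcc_of_le (hsn n).2.1]; exact hr)) (hcn0 n))
      (x := x) (by simp only [hcn0]; exact tendsto_const_nhds)
    exact ⟨⟨c, hc, hc0⟩, hs0⟩
  have hsub : Icc 0 S ⊆ A := by
    apply hclosed.Icc_subset_of_forall_mem_nhdsWithin (SolOn.exists_local hf x)
    rintro s ⟨⟨c, hc, hc0⟩, -⟩
    apply mem_nhdsWithin_of_mem_nhds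
    filter_upwards [hc.eventually] with r hr
    exact ⟨c, hr, hc0⟩
  exact hsub ⟨hS, le_rfl⟩

end Pool.Agent.MP_5027f4_cont
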