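import Pool.Agent.Lib_MP_5027f4_cont.DRun
import Pool.Agent.Lib_MP_5027f4_cont.CFib
import Pool.Agent.Lib_MP_5027f4_cont.FlowLim
import Pool.Agent.Lib_MP_5027f4_cont.ComE

/-!
PIECE [DLift] (MP_5027f4_mp, T1).  Lifting classical solutions.
-/

open Set Filter Topology Metric Polynomial
open scoped ComplexConjugate ContDiff
open Pool.Agent.MP_5027f4_mp

namespace Pool.Agent.MP_5027f4_cont

variable {m : Fin 3 → ℝ} {S T : ℝ} {X₀ X₁ : Up} {y : ℝ → Ph}

/-- the three mutual distances of a phase point -/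
noncomputable def DLift_D (p : Ph) : Fin 3 → ℝ :=
  ![‖p.1 2 - p.1 1‖, ‖p.1 0 - p.1 2‖, ‖p.1 1 - p.1 0‖]

theorem DLift_nn (hM : MM m ≠ 0) (hm : ∀ a, m a ≠ 0) {X : Up} (hX : Nonc X) (k : Fin 3) :
    nn X k = DLift_D (pE m X : comSub m) k := by
  rw [pE_coe hm hX]
  fin_cases k
  · change nn X 0 = ‖qq m X 2 - qq m X 1‖
    rw [qq_sub_21 hM, norm_zz]
  · change nn X 1 = ‖qq m X 0 - qq m X 2‖
    rw [qq_sub_02 hM, norm_zz]
  · change nn X 2 = ‖qq m X 1 - qq m X 0‖
    rw [qq_sub_10 hM, norm_zz]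

theorem DLift_cont (k : Fin 3) : Continuous (fun p : Ph => DLift_D p k) := by
  fin_cases k
  · change Continuous (fun p : Ph => ‖p.1 2 - p.1 1‖)
    fun_prop
  · change Continuous (fun p : Ph => ‖p.1 0 - p.1 2‖)
    fun_prop
  · change Continuous (fun p : Ph => ‖p.1 1 - p.1 0‖)
    fun_prop

theorem DLift_pos {p : Ph} (hp : p ∈ noColl) (k : Fin 3) : 0 < DLift_D p k := by
  fin_cases k
  · change 0 < ‖p.1 2 - p.1 1‖
    exact norm_pos_iff.2 (sub_ne_zero.2 (hp 2 1 (by decide)))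
  · change 0 < ‖p.1 0 - p.1 2‖
    exact norm_pos_iff.2 (sub_ne_zero.2 (hp 0 2 (by decide)))
  · change 0 < ‖p.1 1 - p.1 0‖
    exact norm_pos_iff.2 (sub_ne_zero.2 (hp 1 0 (by decide)))

theorem DLift_MM (hm : ∀ a, 0 < m a) : MM m ≠ 0 := by
  have h0 := hm 0
  have h1 := hm 1
  have h2 := hm 2
  unfold MM
  linarith

theorem DLift_contVF (m : Fin 3 → ℝ) (h : ℝ) : ContDiff ℝ 1 (VF m h) :=
  (contDiff_VF m h).of_le le_top

theorem DLift_rho_cont : Continuous rho := contDiff_rho.continuous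

/-- the physical time along a solution -/
theorem DLift_time {h s : ℝ} {c : ℝ → Up} (hc : SolOn (VF m h) s c) {r : ℝ} (hr : r ∈ uIcc 0 s) :
    HasDerivAt (fun r => ∫ q in (0 : ℝ)..r, rho (c q)) (rho (c r)) r := by
  have h1 := hc.solVV.hasDerivAt hr
  have h2 : HasDerivAt (fun r : ℝ => ((c r, h, ∫ q in (0 : ℝ)..r, rho (c q)) : Up × ℝ × ℝ).2.2)
      ((VV m (c r, h, ∫ q in (0 : ℝ)..r, rho (c q))).2.2) r := h1.snd.snd
  exact h2

theorem DLift_rhoc {h s : ℝ} {c : ℝ → Up} (hc : SolOn (VF m h) s c) :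
    ContinuousOn (fun r => rho (c r)) (uIcc 0 s) :=
  DLift_rho_cont.comp_continuousOn hc.continuousOn

theorem DLift_int {h s : ℝ} {c : ℝ → Up} (hc : SolOn (VF m h) s c) {a b : ℝ} (ha : a ∈ uIcc 0 s)
    (hb : b ∈ uIcc 0 s) : IntervalIntegrable (fun r => rho (c r)) MeasureTheory.volume a b :=
  ((DLift_rhoc hc).mono (uIcc_subset_uIcc ha hb)).intervalIntegrable

theorem DLift_mono {h s : ℝ} {c : ℝ → Up} (hs : 0 ≤ s) (hc : SolOn (VF m h) s c) {a b : ℝ}
    (ha : 0 ≤ a) (hab : a ≤ b) (hb : b ≤ s) :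
    ∫ q in (0 : ℝ)..a, rho (c q) ≤ ∫ q in (0 : ℝ)..b, rho (c q) := by
  have hA : a ∈ uIcc 0 s := by rw [uIcc_of_le hs]; exact ⟨ha, hab.trans hb⟩
  have hB : b ∈ uIcc 0 s := by rw [uIcc_of_le hs]; exact ⟨ha.trans hab, hb⟩
  have h0 : (0 : ℝ) ∈ uIcc 0 s := left_mem_uIcc
  rw [← intervalIntegral.integral_add_adjacent_intervals (DLift_int hc h0 hA) (DLift_int hc hA hB)]
  have := intervalIntegral.integral_nonneg_of_forall (μ := MeasureTheory.volume) hab
    (fun q => rho_nonneg (c q))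
  linarith

/-- A regularized solution projects to the classical solution as long as its time is at most `T`.

Proof.  Let `t r = ∫ 0..r, rho (c ρ)`, nondecreasing, `0 ≤ t r ≤ T` on `[0, s]`.  The set of
`r ∈ [0, s]` such that `Nonc (c r')` and `pE m (c r') = y (t r')` for all `r' ≤ r` is closed: at a
limit point the mutual distances `nn (c r) k` are the distances of `y (t r)`, which are not zero.
It is open to the right: `Nonc` is open, and while `Nonc` holds both `pE m (c r)`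
(`hasDerivAt_pE`, `Gam = 0` by `SolOn.gam_eq`, `Gam_eq_zero_iff`) and `y (t r)` (chain rule for
`HasDerivWithinAt`) solve `z' = rho (c r) • fld₀ m z`, which is locally Lipschitz in `z`. -/
theorem proj_of_sol (hm : ∀ a, 0 < m a) (hy : Solves (fld m) (frame m) (Icc 0 T) y)
    (h₀ : Nonc X₀) (hX : ((pE m X₀ : comSub m) : Ph) = y 0) {c : ℝ → Up} {s : ℝ} (hs : 0 ≤ s)
    (hc : SolOn (VF m (energy m (y 0))) s c) (hc0 : c 0 = X₀)
    (ht : ∫ r in (0 : ℝ)..s, rho (c r) ≤ T) :
    Nonc (c s) ∧ ((pE m (c s) : comSub m) : Ph) = y (∫ r in (0 : ℝ)..s, rho (c r)) := by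
  have hM : MM m ≠ 0 := DLift_MM hm
  have hm' : ∀ a, m a ≠ 0 := fun a => (hm a).ne'
  set h : ℝ := energy m (y 0) with hh
  set t : ℝ → ℝ := fun r => ∫ q in (0 : ℝ)..r, rho (c q) with htd
  have hmem : ∀ r ∈ Icc 0 s, r ∈ uIcc 0 s := fun r hr => by rwa [uIcc_of_le hs]
  have ht0 : t 0 = 0 := intervalIntegral.integral_same
  have htd' : ∀ r ∈ Icc 0 s, HasDerivAt t (rho (c r)) r := fun r hr => DLift_time hc (hmem r hr)
  have htm : ∀ r ∈ Icc 0 s, t r ∈ Icc 0 T := by
    intro r hr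
    constructor
    · rw [← ht0]
      exact DLift_mono hs hc le_rfl hr.1 hr.2
    · exact (DLift_mono hs hc hr.1 hr.2 le_rfl).trans ht
  have htc : ContinuousOn t (Icc 0 s) := fun r hr => (htd' r hr).continuousAt.continuousWithinAt
  have hcc : ContinuousOn c (Icc 0 s) := by
    have := hc.continuousOn
    rwa [uIcc_of_le hs] at this
  have hyc : ContinuousOn y (Icc 0 T) := hy.continuousOn
  have hwc : ContinuousOn (fun r => y (t r)) (Icc 0 s) := hyc.comp htc htm
  have hG : ∀ r ∈ Icc 0 s, Gam m h (c r) = 0 := by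
    intro r hr
    rw [hc.gam_eq (hmem r hr), hc0, Gam_eq_zero_iff hM hm' h₀]
    change energy m ((pE m X₀ : comSub m) : Ph) = h
    rw [hX]
  -- the derivative of `y ∘ t`
  have hw : ∀ r ∈ Icc 0 s, HasDerivWithinAt (fun r => y (t r)) (rho (c r) • fld m (y (t r)))
      (Icc 0 s) r := by
    intro r hr
    exact (hy (t r) (htm r hr)).2.scomp r (htd' r hr).hasDerivWithinAt htm
  -- the derivative of the projection
  have hz : ∀ r ∈ Icc 0 s, Nonc (c r) → HasDerivAt (fun r => pj m (c r))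
      (rho (c r) • fld m (pj m (c r))) r := fun r hr hn =>
    hasDerivAt_pj hM hm' (hc.hasDerivAt (hmem r hr)) (hG r hr) hn
  set A : Set ℝ := {r | Nonc (c r) ∧ pj m (c r) = y (t r)} with hA
  have hclosed : IsClosed (A ∩ Icc 0 s) := by
    apply IsSeqClosed.isClosed
    intro rn r hrn hr
    have hrI : r ∈ Icc 0 s := isClosed_Icc.mem_of_tendsto hr (Eventually.of_forall fun n => (hrn n).2)
    have hrw : Tendsto rn atTop (𝓝[Icc 0 s] r) :=
      tendsto_nhdsWithin_iff.2 ⟨hr, Eventually.of_forall fun n => (hrn n).2⟩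
    have h1 : Tendsto (fun n => c (rn n)) atTop (𝓝 (c r)) := (hcc r hrI).tendsto.comp hrw
    have h2 : Tendsto (fun n => y (t (rn n))) atTop (𝓝 (y (t r))) := (hwc r hrI).tendsto.comp hrw
    have hnc : Nonc (c r) := by
      intro k
      rw [← nn_pos_iff]
      have h3 : Tendsto (fun n => nn (c (rn n)) k) atTop (𝓝 (nn (c r) k)) :=
        ((contDiff_nn k).continuous.tendsto (c r)).comp h1
      have h4 : Tendsto (fun n => DLift_D (y (t (rn n))) k) atTop (𝓝 (DLift_D (y (t r)) k)) :=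
        ((DLift_cont k).tendsto (y (t r))).comp h2
      have h5 : (fun n => nn (c (rn n)) k) = fun n => DLift_D (y (t (rn n))) k := by
        funext n
        rw [DLift_nn hM hm' (hrn n).1.1 k, pE_coe hm' (hrn n).1.1, (hrn n).1.2]
      rw [h5] at h3
      rw [tendsto_nhds_unique h3 h4]
      exact DLift_pos (frame_subset m (hy (t r) (htm r hrI)).1) k
    refine ⟨⟨hnc, ?_⟩, hrI⟩
    have h3 : Tendsto (fun n => pj m (c (rn n))) atTop (𝓝 (pj m (c r))) :=
      ((analyticAt_pj m hnc).continuousAt.tendsto).comp h1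
    have h5 : (fun n => pj m (c (rn n))) = fun n => y (t (rn n)) := by
      funext n
      exact (hrn n).1.2
    rw [h5] at h3
    exact tendsto_nhds_unique h3 h2
  have hsub : Icc 0 s ⊆ A := by
    apply hclosed.Icc_subset_of_forall_mem_nhdsWithin
    · refine ⟨by rw [hc0]; exact h₀, ?_⟩
      rw [hc0, ht0, ← pE_coe hm' h₀, hX]
    · rintro r₀ ⟨⟨hn, he⟩, hr₀⟩
      have hr₀' : r₀ ∈ Icc 0 s := Ico_subset_Icc_self hr₀
      set p : Ph := y (t r₀) with hp
      have hpn : p ∈ noColl := frame_subset m (hy (t r₀) (htm r₀ hr₀')).1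
      obtain ⟨K, U, hU, hK⟩ := ((contDiffOn_fld m).contDiffAt
        (isOpen_noColl.mem_nhds hpn)).exists_lipschitzOnWith
      have hcr : ContinuousAt c r₀ := (hc.hasDerivAt (hmem r₀ hr₀')).continuousAt
      have e1 : ∀ᶠ r in 𝓝 r₀, Nonc (c r) := hcr.eventually_mem (isOpen_Nonc.mem_nhds hn)
      have e2 : ∀ᶠ r in 𝓝 r₀, pj m (c r) ∈ U := by
        apply (hz r₀ hr₀' hn).continuousAt.eventually_mem
        rw [he]
        exact hU
      have e3 : ∀ᶠ r in 𝓝[>] r₀, y (t r) ∈ U := by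
        have h1 : ContinuousWithinAt (fun r => y (t r)) (Ioi r₀) r₀ :=
          (hwc r₀ hr₀').mono_of_mem_nhdsWithin (mem_of_superset (Ioc_mem_nhdsGT hr₀.2)
            fun r hr => ⟨hr₀.1.trans hr.1.le, hr.2⟩)
        exact h1.eventually_mem hU
      have e4 : ∀ᶠ r in 𝓝 r₀, ‖rho (c r)‖ < ‖rho (c r₀)‖ + 1 := by
        have h1 : ContinuousAt (fun r => ‖rho (c r)‖) r₀ :=
          (DLift_rho_cont.continuousAt.comp hcr).norm
        exact h1.eventually_lt continuousAt_const (by linarith)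
      have e5 : ∀ᶠ r in 𝓝[>] r₀, r ≤ s := mem_of_superset (Ioc_mem_nhdsGT hr₀.2) fun r hr => hr.2
      have e6 : ∀ᶠ r in 𝓝[>] r₀, Nonc (c r) ∧ pj m (c r) ∈ U ∧ y (t r) ∈ U ∧
          ‖rho (c r)‖ < ‖rho (c r₀)‖ + 1 ∧ r ≤ s := by
        filter_upwards [nhdsWithin_le_nhds e1, nhdsWithin_le_nhds e2, e3, nhdsWithin_le_nhds e4, e5]
          with r h1 h2 h3 h4 h5
        exact ⟨h1, h2, h3, h4, h5⟩
      obtain ⟨b, hb, hb'⟩ := (mem_nhdsGT_iff_exists_Ioc_subset).1 e6
      have hb0 : r₀ < b := hb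
      have hU0 : p ∈ U := mem_of_mem_nhds hU
      have hall : ∀ r ∈ Icc r₀ b, Nonc (c r) ∧ pj m (c r) ∈ U ∧ y (t r) ∈ U ∧
          ‖rho (c r)‖ < ‖rho (c r₀)‖ + 1 ∧ r ≤ s := by
        intro r hr
        rcases eq_or_lt_of_le hr.1 with h1 | h1
        · subst h1
          exact ⟨hn, by rw [he]; exact hU0, hU0, by linarith, hr₀.2.le⟩
        · exact hb' ⟨h1, hr.2⟩
      have hI : ∀ r ∈ Icc r₀ b, r ∈ Icc 0 s := fun r hr =>
        ⟨hr₀.1.trans hr.1, (hall r hr).2.2.2.2⟩
      have hbs : b ≤ s := (hall b ⟨hb0.le, le_rfl⟩).2.2.2.2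
      have key : EqOn (fun r => pj m (c r)) (fun r => y (t r)) (Icc r₀ b) := by
        refine ODE_solution_unique_of_mem_Icc_right (v := fun r x => rho (c r) • fld m x)
          (s := fun _ => U) (K := (‖rho (c r₀)‖₊ + 1) * K) ?_ ?_ ?_ ?_ ?_ ?_ ?_ ?_
        · intro r hr
          refine LipschitzOnWith.of_dist_le_mul fun x hx x' hx' => ?_
          rw [dist_smul₀]
          have h1 := hK.dist_le_mul x hx x' hx'
          have h2 := (hall r (Ico_subset_Icc_self hr)).2.2.2.1.le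
          calc ‖rho (c r)‖ * dist (fld m x) (fld m x') ≤ (‖rho (c r₀)‖ + 1) * (K * dist x x') :=
                mul_le_mul h2 h1 dist_nonneg (by positivity)
            _ = _ := by push_cast; ring
        · intro r hr
          exact (hz r (hI r hr) (hall r hr).1).continuousAt.continuousWithinAt
        · intro r hr
          have hr' := Ico_subset_Icc_self hr
          exact (hz r (hI r hr') (hall r hr').1).hasDerivWithinAt
        · intro r hr
          exact (hall r (Ico_subset_Icc_self hr)).2.1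
        · exact hwc.mono fun r hr => hI r hr
        · intro r hr
          exact hasDerivWithinAt_Ici_of_Icc ⟨hr₀.1.trans hr.1, hr.2.trans_le hbs⟩
            (hw r (hI r (Ico_subset_Icc_self hr)))
        · intro r hr
          exact (hall r (Ico_subset_Icc_self hr)).2.2.1
        · exact he
      refine mem_of_superset (Ioc_mem_nhdsGT hb0) fun r hr => ?_
      have hr' : r ∈ Icc r₀ b := Ioc_subset_Icc_self hr
      exact ⟨(hall r hr').1, key hr'⟩
  have hfin := hsub (show s ∈ Icc 0 s from ⟨hs, le_rfl⟩)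
  refine ⟨hfin.1, ?_⟩
  rw [pE_coe hm' hfin.1]
  exact hfin.2

/-- Proof.  The image of `y` is compact in `noColl`: `‖y t‖ ≤ R` and all distances are `≥ r > 0`.  By
`proj_of_sol`, as long as the time is at most `T`, `nn (c s) k ≥ r`, `rho (c s) ≥ r ^ 3` and
`‖c s‖ ≤ B` (`exists_bound_fibre`).  If no solution from `X₀` reached the time `T`, all solutions
from `X₀` would be bounded by `B`, so there is one on `[0, T / r ^ 3 + 1]` (`exists_sol_of_bound`),
whose time is `> T`.  So there is a solution with final time `≥ T`; by the intermediate value theorem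
it has time exactly `T` at some `S > 0`; restrict. -/
theorem exists_lift_run (hm : ∀ a, 0 < m a) (hT : 0 < T)
    (hy : Solves (fld m) (frame m) (Icc 0 T) y) (h₀ : Nonc X₀)
    (hX : ((pE m X₀ : comSub m) : Ph) = y 0) :
    ∃ S > 0, ∃ c, SolOn (VF m (energy m (y 0))) S c ∧ c 0 = X₀ ∧ (∀ s ∈ Icc 0 S, Nonc (c s)) ∧
      (∀ s ∈ Icc 0 S, ((pE m (c s) : comSub m) : Ph) = y (∫ r in (0 : ℝ)..s, rho (c r))) ∧
      ∫ s in (0 : ℝ)..S, rho (c s) = T := by
  have hM : MM m ≠ 0 := DLift_MM hm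
  have hm' : ∀ a, m a ≠ 0 := fun a => (hm a).ne'
  have hyc : ContinuousOn y (Icc 0 T) := hy.continuousOn
  have hne : (Icc 0 T).Nonempty := ⟨0, le_rfl, hT.le⟩
  obtain ⟨R, hR⟩ : ∃ R : ℝ, ∀ τ ∈ Icc 0 T, ‖y τ‖ ≤ R := isCompact_Icc.exists_bound_of_continuousOn hyc
  obtain ⟨r, hr, hrD⟩ : ∃ r : ℝ, 0 < r ∧ ∀ τ ∈ Icc 0 T, ∀ k, r ≤ DLift_D (y τ) k := by
    have h1 : ∀ k, ∃ r : ℝ, 0 < r ∧ ∀ τ ∈ Icc 0 T, r ≤ DLift_D (y τ) k := by
      intro k
      obtain ⟨τ₀, hτ₀, h2⟩ := isCompact_Icc.exists_isMinOn hne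
        ((DLift_cont k).comp_continuousOn hyc)
      exact ⟨DLift_D (y τ₀) k, DLift_pos (frame_subset m (hy τ₀ hτ₀).1) k, fun τ hτ => h2 hτ⟩
    choose rr h1 h2 using h1
    refine ⟨min (rr 0) (min (rr 1) (rr 2)), lt_min (h1 0) (lt_min (h1 1) (h1 2)), fun τ hτ k => ?_⟩
    fin_cases k
    · exact (min_le_left _ _).trans (h2 0 τ hτ)
    · exact ((min_le_right _ _).trans (min_le_left _ _)).trans (h2 1 τ hτ)
    · exact ((min_le_right _ _).trans (min_le_right _ _)).trans (h2 2 τ hτ)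
  obtain ⟨B, hB⟩ := exists_bound_fibre hM hm' R hr
  -- bounds along solutions
  have hbd : ∀ (s : ℝ) (c : ℝ → Up), 0 ≤ s → SolOn (VF m (energy m (y 0))) s c → c 0 = X₀ →
      ∫ q in (0 : ℝ)..s, rho (c q) ≤ T → ‖c s‖ ≤ B ∧ r ^ 3 ≤ rho (c s) := by
    intro s c hs hc hc0 hst
    obtain ⟨hn, he⟩ := proj_of_sol hm hy h₀ hX hs hc hc0 hst
    have hτ : ∫ q in (0 : ℝ)..s, rho (c q) ∈ Icc 0 T :=
      ⟨intervalIntegral.integral_nonneg_of_forall hs fun q => rho_nonneg (c q), hst⟩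
    have hk : ∀ k, r ≤ nn (c s) k := by
      intro k
      rw [DLift_nn hM hm' hn k, he]
      exact hrD _ hτ k
    refine ⟨hB _ hn ?_ hk, ?_⟩
    · rw [← pE_coe hm' hn, he]
      exact hR _ hτ
    · have h1 := mul_le_mul (hk 0) (hk 1) hr.le ((hr.le).trans (hk 0))
      have h2 := mul_le_mul h1 (hk 2) hr.le (mul_nonneg (nn_nonneg _ 0) (nn_nonneg _ 1))
      calc r ^ 3 = r * r * r := by ring
        _ ≤ _ := h2
  obtain ⟨s, c, hs, hc, hc0, hst⟩ : ∃ (s : ℝ) (c : ℝ → Up), 0 ≤ s ∧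
      SolOn (VF m (energy m (y 0))) s c ∧ c 0 = X₀ ∧ T ≤ ∫ q in (0 : ℝ)..s, rho (c q) := by
    by_contra hcon
    push Not at hcon
    have hS : 0 ≤ T / r ^ 3 + 1 := by positivity
    obtain ⟨c, hc, hc0⟩ := exists_sol_of_bound (DLift_contVF m (energy m (y 0))) (B := B) hS
      (x := X₀) (fun s hs _ c hc hc0 => (hbd s c hs hc hc0 (hcon s c hs hc hc0).le).1)
    have h1 := hcon _ c hS hc hc0
    have h2 : ∫ q in (0 : ℝ)..(T / r ^ 3 + 1), r ^ 3 ≤
        ∫ q in (0 : ℝ)..(T / r ^ 3 + 1), rho (c q) := by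
      refine intervalIntegral.integral_mono_on hS intervalIntegrable_const
        (DLift_int hc left_mem_uIcc right_mem_uIcc) fun q hq => ?_
      have hq' : SolOn (VF m (energy m (y 0))) q c :=
        hc.restrict (by rw [uIcc_of_le hS]; exact hq)
      exact (hbd q c hq.1 hq' hc0 (hcon q c hq.1 hq' hc0).le).2
    rw [intervalIntegral.integral_const, sub_zero, smul_eq_mul, add_mul,
      div_mul_cancel₀ _ (by positivity), one_mul] at h2
    have h3 : 0 < r ^ 3 := by positivity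
    linarith
  have hmem : ∀ q ∈ Icc 0 s, q ∈ uIcc 0 s := fun q hq => by rwa [uIcc_of_le hs]
  have htc : ContinuousOn (fun q => ∫ q' in (0 : ℝ)..q, rho (c q')) (Icc 0 s) := fun q hq =>
    (DLift_time hc (hmem q hq)).continuousAt.continuousWithinAt
  obtain ⟨S, hS, hST⟩ := intermediate_value_Icc hs htc
    (show T ∈ Icc (∫ q' in (0 : ℝ)..0, rho (c q')) (∫ q' in (0 : ℝ)..s, rho (c q')) by
      rw [intervalIntegral.integral_same]; exact ⟨hT.le, hst⟩)
  simp only at hST
  have hS0 : 0 < S := by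
    refine lt_of_le_of_ne hS.1 ?_
    rintro rfl
    rw [intervalIntegral.integral_same] at hST
    linarith
  have hcS : SolOn (VF m (energy m (y 0))) S c := hc.restrict (hmem S hS)
  have hall : ∀ q ∈ Icc 0 S, Nonc (c q) ∧
      ((pE m (c q) : comSub m) : Ph) = y (∫ r in (0 : ℝ)..q, rho (c r)) := by
    intro q hq
    refine proj_of_sol hm hy h₀ hX hq.1 (hcS.restrict (by rw [uIcc_of_le hS0.le]; exact hq)) hc0 ?_
    rw [← hST]
    exact DLift_mono hS0.le hcS hq.1 hq.2 le_rfl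
  exact ⟨S, hS0, c, hcS, hc0, fun q hq => (hall q hq).1, fun q hq => (hall q hq).2, hST⟩

/-- The fictitious time is determined by the physical time along collision free solutions.
Proof: `S' > 0` since the time is positive; on the smaller of the two intervals the solutions
agree, and the integral of `rho ≥ 0` is strictly increasing on `[0, S]`, with `rho (c S) > 0`. -/
theorem run_time_unique {h S' T : ℝ} {c : ℝ → Up} (hS : 0 < S) (hc : SolOn (VF m h) S c)
    (hn : ∀ s ∈ Icc 0 S, Nonc (c s)) (hT : ∫ s in (0 : ℝ)..S, rho (c s) = T)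
    (hr : Run m h S' (c 0) T X₁) : S' = S ∧ X₁ = c S := by
  obtain ⟨c', hc', h0, h1, hT'⟩ := hr
  have hI : Icc 0 S = uIcc 0 S := (uIcc_of_le hS.le).symm
  have hTpos : 0 < T := by
    rw [← hT]
    refine intervalIntegral.integral_pos hS (by rw [hI]; exact DLift_rhoc hc)
      (fun q _ => rho_nonneg _) ⟨0, ⟨le_rfl, hS.le⟩, (rho_pos_iff _).2 (hn 0 ⟨le_rfl, hS.le⟩)⟩
  have hS' : 0 < S' := by
    by_contra hle
    push Not at hle
    rw [intervalIntegral.integral_symm] at hT'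
    have := intervalIntegral.integral_nonneg_of_forall (μ := MeasureTheory.volume) hle
      (fun q => rho_nonneg (c' q))
    linarith
  have hI' : Icc 0 S' = uIcc 0 S' := (uIcc_of_le hS'.le).symm
  have hf := DLift_contVF m h
  rcases lt_trichotomy S' S with hlt | heq | hlt
  · exfalso
    have hmem : S' ∈ uIcc 0 S := by rw [← hI]; exact ⟨hS'.le, hlt.le⟩
    have hu := SolOn.unique hf hc' (hc.restrict hmem) h0
    have h2 : ∫ s in (0 : ℝ)..S', rho (c s) = T := by
      rw [← hT']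
      exact intervalIntegral.integral_congr fun q hq => by rw [hu q hq]
    have h3 := intervalIntegral.integral_add_adjacent_intervals
      (DLift_int hc left_mem_uIcc hmem) (DLift_int hc hmem right_mem_uIcc)
    have h4 : 0 < ∫ s in S'..S, rho (c s) := by
      refine intervalIntegral.integral_pos hlt ((DLift_rhoc hc).mono ?_)
        (fun q _ => rho_nonneg _) ⟨S, ⟨hlt.le, le_rfl⟩, (rho_pos_iff _).2 (hn S ⟨hS.le, le_rfl⟩)⟩
      rw [← hI]
      exact Icc_subset_Icc_left hS'.le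
    linarith
  · subst heq
    exact ⟨rfl, by rw [← h1]; exact SolOn.unique hf hc' hc h0 S' right_mem_uIcc⟩
  · exfalso
    have hmem : S ∈ uIcc 0 S' := by rw [← hI']; exact ⟨hS.le, hlt.le⟩
    have hu := SolOn.unique hf hc (hc'.restrict hmem) h0.symm
    have h2 : ∫ s in (0 : ℝ)..S, rho (c' s) = T := by
      rw [← hT]
      exact intervalIntegral.integral_congr fun q hq => by rw [hu q hq]
    have h3 := intervalIntegral.integral_add_adjacent_intervals
      (DLift_int hc' left_mem_uIcc hmem) (DLift_int hc' hmem right_mem_uIcc)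
    have h4 : 0 < ∫ s in S..S', rho (c' s) := by
      refine intervalIntegral.integral_pos hlt ((DLift_rhoc hc').mono ?_)
        (fun q _ => rho_nonneg _) ⟨S, ⟨le_rfl, hlt.le⟩, (rho_pos_iff _).2 ?_⟩
      · rw [← hI']
        exact Icc_subset_Icc_left hS.le
      · rw [← hu S right_mem_uIcc]
        exact hn S ⟨hS.le, le_rfl⟩
    linarith

end Pool.Agent.MP_5027f4_cont
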