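import Pool.Agent.Lib_MP_5027f4_cont.DComp

/-!
PIECE [DLoc] (MP_5027f4_mp, T1).  The local action of time shifts and rotations.
-/

open Set Filter Topology Metric Polynomial
open scoped ComplexConjugate ContDiff
open Pool.Agent.MP_5027f4_mp

namespace Pool.Agent.MP_5027f4_cont

variable {m : Fin 3 → ℝ} {S T : ℝ} {X₀ X₁ : Up} {Φ φ : ℝ × comSub m → comSub m}

/-- the local action `((t, θ), y) ↦ exp (i θ) • φ (t, y)` -/
noncomputable def Gact (φ : ℝ × comSub m → comSub m) : (ℝ × ℝ) × comSub m → comSub m :=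
  fun p => Complex.exp (p.1.2 * Complex.I) • φ (p.1.1, p.2)

theorem DLoc_MM (hm : ∀ a, 0 < m a) : MM m ≠ 0 := by
  have h0 := hm 0
  have h1 := hm 1
  have h2 := hm 2
  unfold MM
  positivity

/-- derivative of a run at its end -/
theorem DLoc_end (hm : ∀ a, 0 < m a) {c : ℝ → Up} {h S₁ : ℝ} (hc : SolOn (VF m h) S₁ c)
    (hn0 : Nonc (c 0)) (hE : (muE m (pE m (c 0))).1 = h) (hn1 : Nonc (c S₁)) :
    HasDerivAt (fun s => pE m (c s)) (rho (c S₁) • fld₀ m (pE m (c S₁))) S₁ := by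
  have hm' : ∀ a, m a ≠ 0 := fun a => (hm a).ne'
  refine hasDerivAt_pE (DLoc_MM hm) hm' (hc.hasDerivAt right_mem_uIcc) ?_ hn1
  rw [hc.gam_eq right_mem_uIcc]
  exact (Gam_eq_zero_iff (DLoc_MM hm) hm' hn0 h).2 hE

theorem DLoc_time {c : ℝ → Up} {h S₁ : ℝ} (hc : SolOn (VF m h) S₁ c) :
    HasDerivAt (fun s => ∫ r in (0 : ℝ)..s, rho (c r)) (rho (c S₁)) S₁ := by
  have h1 := hc.solVV.hasDerivAt (s := S₁) right_mem_uIcc
  exact ((ContinuousLinearMap.snd ℝ ℝ ℝ).comp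
    (ContinuousLinearMap.snd ℝ Up (ℝ × ℝ))).hasFDerivAt.comp_hasDerivAt S₁ h1

/-- Proof.  Let `p = (t, y)` near the base point and take a run `(S₁, X, X')` from
`LM.exists_run`; it comes from a solution `c` of `VF m h` with `Gam = 0`, and for `s` near `S₁`
`Φ (∫ 0..s, rho (c r), y) = pE m (c s)` (property `run` at `(s, X)`).  Differentiate at `s = S₁`
(`hasDerivAt_pE`, `Φ` is analytic at `p`): `rho X' • DΦ p (1, 0) = rho X' • fld₀ m (Φ p)`. -/
theorem LM.deriv_time (hm : ∀ a, 0 < m a) (h : LM m T S X₀ X₁ Φ) :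
    ∀ᶠ p : ℝ × comSub m in 𝓝 (T, pE m X₀), fderiv ℝ Φ p (1, 0) = fld₀ m (Φ p) := by
  have h𝒩 : {q : ℝ × Up × Up | ∀ᶠ q' : ℝ × Up in 𝓝 (q.1, q.2.1), ∀ T' X',
      Run m (muE m (pE m q'.2)).1 q'.1 q'.2 T' X' → pE m X' = Φ (T', pE m q'.2)} ∈
      𝓝 ((S, X₀, X₁) : ℝ × Up × Up) := by
    have hcont : Tendsto (fun q : ℝ × Up × Up => (q.1, q.2.1)) (𝓝 (S, X₀, X₁)) (𝓝 (S, X₀)) := by
      apply Continuous.tendsto (f := fun q : ℝ × Up × Up => (q.1, q.2.1)) (by fun_prop)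
    exact hcont.eventually h.run.eventually_nhds
  filter_upwards [h.exists_run h𝒩, h.an.eventually_analyticAt] with p hp hpa
  obtain ⟨⟨S₁, X, X'⟩, hq, hX, hrun, hn0, hn1, hX'⟩ := hp
  simp only at hX hrun hn0 hn1 hX'
  obtain ⟨c, hc, hc0, hc1, hcT⟩ := hrun
  have hev : ∀ᶠ s in 𝓝 S₁, pE m (c s) = Φ (∫ r in (0 : ℝ)..s, rho (c r), p.2) := by
    have h1 : Tendsto (fun s : ℝ => (s, X)) (𝓝 S₁) (𝓝 (S₁, X)) := by
      apply Continuous.tendsto (f := fun s : ℝ => (s, X)) (by fun_prop)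
    have h2 := h1.eventually hq
    filter_upwards [h2, hc.eventually] with s hs hcs
    have h3 := hs (∫ r in (0 : ℝ)..s, rho (c r)) (c s)
      ⟨c, by simpa only [hX] using hcs, hc0, rfl, rfl⟩
    simpa only [hX] using h3
  have hd1 : HasDerivAt (fun s => pE m (c s)) (rho (c S₁) • fld₀ m (pE m (c S₁))) S₁ :=
    DLoc_end hm hc (by rw [hc0]; exact hn0) (by rw [hc0, hX]) (by rw [hc1]; exact hn1)
  have hd2 : HasDerivAt (fun s => Φ (∫ r in (0 : ℝ)..s, rho (c r), p.2))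
      (fderiv ℝ Φ p (rho (c S₁), 0)) S₁ := by
    have h1 : HasDerivAt (fun s => (∫ r in (0 : ℝ)..s, rho (c r), p.2)) (rho (c S₁), 0) S₁ :=
      (DLoc_time hc).prodMk (hasDerivAt_const S₁ p.2)
    have h2 : HasFDerivAt Φ (fderiv ℝ Φ p) (∫ r in (0 : ℝ)..S₁, rho (c r), p.2) := by
      rw [hcT]
      exact hpa.differentiableAt.hasFDerivAt
    exact h2.comp_hasDerivAt S₁ h1
  have hd3 := (hd1.congr_of_eventuallyEq (f₁ := fun s => Φ (∫ r in (0 : ℝ)..s, rho (c r), p.2))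
    (hev.mono fun s hs => hs.symm)).unique hd2
  have hr : rho (c S₁) ≠ 0 := by
    rw [hc1]
    exact ((rho_pos_iff X').2 hn1).ne'
  have h4 : ((rho (c S₁), 0) : ℝ × comSub m) = rho (c S₁) • ((1, 0) : ℝ × comSub m) := by
    ext <;> simp
  rw [h4, map_smul, hc1, hX'] at hd3
  rw [hc1] at hr
  exact (smul_right_injective (comSub m) hr hd3).symm

theorem DLoc_zero (hm : ∀ a, 0 < m a) (h : LM m 0 0 X₀ X₀ φ) :
    ∀ᶠ y in 𝓝 (pE m X₀), φ (0, y) = y := by
  obtain ⟨σ, hσa, hσ0, hσ, _⟩ := exists_section hm h.nc0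
  have h1 : Tendsto (fun y => ((0 : ℝ), σ y)) (𝓝 (pE m X₀)) (𝓝 (0, X₀)) := by
    have := (tendsto_const_nhds (x := (0 : ℝ))).prodMk_nhds hσa.continuousAt
    rwa [hσ0] at this
  filter_upwards [h1.eventually h.run, hσ] with y hy hy2
  have h2 := hy 0 (σ y) (Run.zero m _ _)
  rw [hy2.2] at h2
  exact h2.symm

/-- the derivative of the action -/
theorem DLoc_fderiv {t θ : ℝ} {y : comSub m} (hφ : DifferentiableAt ℝ φ (t, y)) (a b : ℝ)
    (ξ : comSub m) : fderiv ℝ (Gact φ) ((t, θ), y) ((a, b), ξ) =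
      Complex.exp (θ * Complex.I) • fderiv ℝ φ (t, y) (a, ξ) +
        (b * (Complex.exp (θ * Complex.I) * Complex.I)) • φ (t, y) := by
  have h1 : HasDerivAt (fun x : ℝ => Complex.exp (x * Complex.I))
      (Complex.exp (θ * Complex.I) * Complex.I) θ := by
    have h2 : HasDerivAt (fun x : ℝ => (x : ℂ) * Complex.I) (1 * Complex.I) θ :=
      (Complex.ofRealCLM.hasDerivAt (x := θ)).mul_const Complex.I
    rw [one_mul] at h2
    exact h2.cexp
  have h3 : HasFDerivAt (fun p : (ℝ × ℝ) × comSub m => p.1.2)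
      ((ContinuousLinearMap.snd ℝ ℝ ℝ).comp (ContinuousLinearMap.fst ℝ (ℝ × ℝ) (comSub m)))
      ((t, θ), y) :=
    ((ContinuousLinearMap.snd ℝ ℝ ℝ).comp
      (ContinuousLinearMap.fst ℝ (ℝ × ℝ) (comSub m))).hasFDerivAt
  have h4 : HasFDerivAt (fun p : (ℝ × ℝ) × comSub m => Complex.exp (p.1.2 * Complex.I)) _
      ((t, θ), y) := HasFDerivAt.comp (g := fun x : ℝ => Complex.exp (x * Complex.I))
        ((t, θ), y) h1.hasFDerivAt h3
  have h5 : HasFDerivAt (fun p : (ℝ × ℝ) × comSub m => (p.1.1, p.2))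
      (((ContinuousLinearMap.fst ℝ ℝ ℝ).comp (ContinuousLinearMap.fst ℝ (ℝ × ℝ) (comSub m))).prod
        (ContinuousLinearMap.snd ℝ (ℝ × ℝ) (comSub m))) ((t, θ), y) :=
    (((ContinuousLinearMap.fst ℝ ℝ ℝ).comp (ContinuousLinearMap.fst ℝ (ℝ × ℝ) (comSub m))).prod
        (ContinuousLinearMap.snd ℝ (ℝ × ℝ) (comSub m))).hasFDerivAt
  have h6 : HasFDerivAt (fun p : (ℝ × ℝ) × comSub m => φ (p.1.1, p.2)) _ ((t, θ), y) :=
    (show HasFDerivAt φ (fderiv ℝ φ (t, y)) ((fun p : (ℝ × ℝ) × comSub m => (p.1.1, p.2))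
      ((t, θ), y)) from hφ.hasFDerivAt).comp ((t, θ), y) h5
  have h7 : HasFDerivAt (Gact φ) _ ((t, θ), y) := h4.smul h6
  rw [h7.fderiv]
  simp [mul_comm]

theorem DLoc_exp_norm (θ : ℝ) : ‖Complex.exp (θ * Complex.I)‖ = 1 := Complex.norm_exp_ofReal_mul_I θ

theorem DLoc_muE {u : ℂ} (hu : ‖u‖ = 1) (y : comSub m) : muE m (u • y) = muE m y := by
  unfold muE
  have h1 : ((u • y : comSub m) : Ph) = u • (y : Ph) := rfl
  rw [h1, energy_rot hu, amom_rot' hu]

/-- Proof.  `zero`: `Run.zero` and the property `run`.  `add`: `LM.comp` (three times `φ`) and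
`LM.rot`.  `inv`: `LM.mu`, `energy_rot`, `amom_rot'`.  `ham`: `DG (0, y) (g, 0) =
g.1 • fld₀ m y + g.2 • (I • y)` (`LM.deriv_time`, `zero`), `omE_fld`, `omE_rot`.  `symp`: `LM.symp`,
`omE_smul`.  `free`: if `g.1 • fld₀ m y₀ + g.2 • (I • y₀) = 0` then `g.1 = 0` by `hnr` (otherwise
`fld₀ m y₀ = ((- g.2 / g.1) * I) • y₀`), and then `g.2 = 0` because `y₀ ≠ 0` (`noColl`). -/
theorem locAct (hm : ∀ a, 0 < m a) (h : LM m 0 0 X₀ X₀ φ)
    (hnr : ¬ ∃ μ : ℝ, fld₀ m (pE m X₀) = ((μ : ℂ) * Complex.I) • pE m X₀) :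
    LocAct (omE m) (pE m X₀) (Gact φ) (muE m) := by
  have hm' : ∀ a, m a ≠ 0 := fun a => (hm a).ne'
  have hnc : pE m X₀ ∈ noColl₀ m := pE_noColl (DLoc_MM hm) hm' h.nc0
  have hbase : φ (0, pE m X₀) = pE m X₀ := h.base
  -- derivative of `G` at `(0, y)` in the direction of the group
  have hgrp : ∀ᶠ y in 𝓝 (pE m X₀), ∀ g : ℝ × ℝ,
      fderiv ℝ (Gact φ) (0, y) (g, 0) = g.1 • fld₀ m y + g.2 • (Complex.I • y) := by
    have h1 : Tendsto (fun y => ((0 : ℝ), y)) (𝓝 (pE m X₀)) (𝓝 (0, pE m X₀)) := by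
      apply Continuous.tendsto (f := fun y : comSub m => ((0 : ℝ), y)) (by fun_prop)
    filter_upwards [h1.eventually (h.deriv_time hm), DLoc_zero hm h,
      h1.eventually h.an.eventually_analyticAt] with y hy hy0 hya
    rintro ⟨a, b⟩
    have h2 := DLoc_fderiv (t := 0) (θ := 0) hya.differentiableAt a b (0 : comSub m)
    have h3 : ((0 : ℝ × ℝ), y) = (((0 : ℝ), (0 : ℝ)), y) := rfl
    rw [h3, h2]
    have h4 : ((a, 0) : ℝ × comSub m) = a • ((1, 0) : ℝ × comSub m) := by ext <;> simp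
    rw [h4, map_smul, hy, hy0]
    simp [mul_smul]
  have hG0 : Gact φ (0, pE m X₀) = pE m X₀ := by
    have : Gact φ (0, pE m X₀) = Complex.exp ((0 : ℝ) * Complex.I) • φ (0, pE m X₀) := rfl
    rw [this, hbase]; simp
  have hL : Tendsto (fun p : (ℝ × ℝ) × comSub m => (p.1.1, p.2)) (𝓝 (0, pE m X₀))
      (𝓝 (0, pE m X₀)) := by
    apply Continuous.tendsto' (f := fun p : (ℝ × ℝ) × comSub m => (p.1.1, p.2)) (by fun_prop)
    rfl
  refine ⟨?_, analyticAt_muE m hnc, ?_, ?_, ?_, ?_, ?_, ?_⟩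
  · -- analytic
    have h1 : AnalyticAt ℝ (fun p : (ℝ × ℝ) × comSub m => Complex.exp (p.1.2 * Complex.I))
        (0, pE m X₀) := by
      have h2 : AnalyticAt ℝ (fun p : (ℝ × ℝ) × comSub m => (p.1.2 : ℂ) * Complex.I)
          (0, pE m X₀) := by
        have h3 : AnalyticAt ℝ (fun p : (ℝ × ℝ) × comSub m => (p.1.2 : ℂ)) (0, pE m X₀) :=
          (Complex.ofRealCLM.comp ((ContinuousLinearMap.snd ℝ ℝ ℝ).comp
            (ContinuousLinearMap.fst ℝ (ℝ × ℝ) (comSub m)))).analyticAt _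
        exact h3.mul analyticAt_const
      have h4 : AnalyticAt ℝ Complex.exp (((0 : ℝ × ℝ).2 : ℂ) * Complex.I) :=
        analyticAt_cexp.restrictScalars
      exact h4.comp_of_eq h2 rfl
    have h5 : AnalyticAt ℝ (fun p : (ℝ × ℝ) × comSub m => φ (p.1.1, p.2)) (0, pE m X₀) := by
      have h6 : AnalyticAt ℝ (fun p : (ℝ × ℝ) × comSub m => (p.1.1, p.2)) (0, pE m X₀) :=
        (((ContinuousLinearMap.fst ℝ ℝ ℝ).comp
          (ContinuousLinearMap.fst ℝ (ℝ × ℝ) (comSub m))).prod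
        (ContinuousLinearMap.snd ℝ (ℝ × ℝ) (comSub m))).analyticAt _
      exact h.an.comp_of_eq h6 rfl
    exact h1.smul h5
  · -- zero
    filter_upwards [DLoc_zero hm h] with y hy
    have : Gact φ (0, y) = Complex.exp ((0 : ℝ) * Complex.I) • φ (0, y) := rfl
    rw [this, hy]; simp
  · -- add
    have hcomp := h.comp hm h (by simpa using h)
    have hrot := h.rot hm
    have t1 : Tendsto (fun p : (ℝ × ℝ) × (ℝ × ℝ) × comSub m => ((p.2.1.1, p.1.1), p.2.2))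
        (𝓝 (0, 0, pE m X₀)) (𝓝 ((0, 0), pE m X₀)) := by
      apply Continuous.tendsto' (f := fun p : (ℝ × ℝ) × (ℝ × ℝ) × comSub m =>
        ((p.2.1.1, p.1.1), p.2.2)) (by fun_prop)
      rfl
    have t2 : Tendsto (fun p : (ℝ × ℝ) × (ℝ × ℝ) × comSub m =>
        (p.2.1.2, (p.1.1, φ (p.2.1.1, p.2.2)))) (𝓝 (0, 0, pE m X₀))
        (𝓝 (0, (0, pE m X₀))) := by
      have s1 : Tendsto (fun p : (ℝ × ℝ) × (ℝ × ℝ) × comSub m => p.2.1.2)
          (𝓝 (0, 0, pE m X₀)) (𝓝 0) :=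
        Continuous.tendsto' (by fun_prop) _ _ rfl
      have s2 : Tendsto (fun p : (ℝ × ℝ) × (ℝ × ℝ) × comSub m => p.1.1)
          (𝓝 (0, 0, pE m X₀)) (𝓝 0) :=
        Continuous.tendsto' (by fun_prop) _ _ rfl
      have s3 : Tendsto (fun p : (ℝ × ℝ) × (ℝ × ℝ) × comSub m => (p.2.1.1, p.2.2))
          (𝓝 (0, 0, pE m X₀)) (𝓝 (0, pE m X₀)) :=
        Continuous.tendsto' (by fun_prop) _ _ rfl
      have s4 : Tendsto (fun p : (ℝ × ℝ) × (ℝ × ℝ) × comSub m => φ (p.2.1.1, p.2.2))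
          (𝓝 (0, 0, pE m X₀)) (𝓝 (pE m X₀)) := by
        have := h.an.continuousAt.tendsto.comp s3
        rwa [hbase] at this
      exact s1.prodMk_nhds (s2.prodMk_nhds s4)
    filter_upwards [t1.eventually hcomp, t2.eventually hrot] with p hp1 hp2
    obtain ⟨⟨t, θ⟩, ⟨t', θ'⟩, y⟩ := p
    simp only at hp1 hp2
    change Complex.exp (θ * Complex.I) • φ (t, Complex.exp (θ' * Complex.I) • φ (t', y)) =
      Complex.exp (((θ + θ' : ℝ) : ℂ) * Complex.I) • φ (t + t', y)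
    rw [hp2, ← hp1, smul_smul, ← Complex.exp_add, add_comm t' t]
    congr 2
    push_cast
    ring
  · -- inv
    filter_upwards [hL.eventually (h.mu hm)] with p hp
    obtain ⟨⟨t, θ⟩, y⟩ := p
    change muE m (Complex.exp (θ * Complex.I) • φ (t, y)) = muE m y
    rw [DLoc_muE (DLoc_exp_norm θ)]
    exact hp
  · -- ham
    filter_upwards [hgrp, (isOpen_noColl₀ m).mem_nhds hnc] with y hy hyn g ξ
    rw [hy, map_add, add_apply, map_smul, map_smul,
      smul_apply, smul_apply, omE_fld hyn, omE_rot hyn]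
    rfl
  · -- symp
    filter_upwards [hL.eventually (h.symp hm), hL.eventually h.an.eventually_analyticAt]
      with p hp hpa ξ η
    obtain ⟨⟨t, θ⟩, y⟩ := p
    simp only at hp hpa
    have e : ∀ ζ : comSub m, fderiv ℝ (Gact φ) ((t, θ), y) (0, ζ) =
        Complex.exp (θ * Complex.I) • fderiv ℝ φ (t, y) (0, ζ) := by
      intro ζ
      have := DLoc_fderiv (t := t) (θ := θ) hpa.differentiableAt 0 0 ζ
      have h3 : ((0 : ℝ × ℝ), ζ) = (((0 : ℝ), (0 : ℝ)), ζ) := rfl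
      rw [h3, this]
      simp
    rw [e, e, omE_smul (DLoc_exp_norm θ)]
    exact hp ξ η
  · -- free
    rintro ⟨a, b⟩ hg
    rw [hgrp.self_of_nhds (a, b)] at hg
    simp only at hg
    by_cases ha : a = 0
    · subst ha
      rw [zero_smul, zero_add] at hg
      by_cases hb : b = 0
      · rw [hb]; rfl
      · exfalso
        rcases smul_eq_zero.1 hg with h1 | h1
        · exact hb h1
        · rcases smul_eq_zero.1 h1 with h2 | h2
          · exact Complex.I_ne_zero h2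
          · have h3 : (pE m X₀ : Ph) = 0 := by rw [h2]; rfl
            have h4 := hnc
            change (pE m X₀ : Ph) ∈ noColl at h4
            rw [h3] at h4
            exact h4 0 1 (by decide) rfl
    · exfalso
      apply hnr
      refine ⟨-(b / a), ?_⟩
      have h1 : a • fld₀ m (pE m X₀) = -(b • (Complex.I • pE m X₀)) := eq_neg_of_add_eq_zero_left hg
      have h2 : fld₀ m (pE m X₀) = a⁻¹ • (a • fld₀ m (pE m X₀)) := by
        rw [smul_smul, inv_mul_cancel₀ ha, one_smul]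
      rw [h2, h1, smul_neg, smul_smul]
      have h3 : (((-(b / a) : ℝ) : ℂ) * Complex.I) • pE m X₀ =
          -(((b / a : ℝ) : ℂ) • (Complex.I • pE m X₀)) := by
        rw [smul_smul, ← neg_smul]; congr 1; push_cast; ring
      rw [h3]
      congr 1
      rw [show a⁻¹ * b = b / a by rw [div_eq_inv_mul]]
      exact (Complex.coe_smul _ _).symm

end Pool.Agent.MP_5027f4_cont
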