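import Pool.Agent.Lib_MP_5027f4_cont.DLoc
import Pool.Agent.Lib_MP_5027f4_cont.CFib

/-!
PIECE [DRet] (MP_5027f4_mp, T1).  The return map.
-/

open Set Filter Topology Metric Polynomial
open scoped ComplexConjugate ContDiff
open Pool.Agent.MP_5027f4_mp

namespace Pool.Agent.MP_5027f4_cont

variable {m : Fin 3 → ℝ} {S T : ℝ} {X₀ X₁ : Up} {Φ φ : ℝ × comSub m → comSub m} {u : ℂ}

theorem dret_ne (hu : ‖u‖ = 1) : u ≠ 0 := by
  rintro rfl
  rw [norm_zero] at hu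
  exact zero_ne_one hu

/-- multiplication by `u⁻¹` as a continuous real linear map -/
noncomputable def dret_L (m : Fin 3 → ℝ) (u : ℂ) : comSub m →L[ℝ] comSub m :=
  u⁻¹ • ContinuousLinearMap.id ℝ (comSub m)

theorem dret_L_apply (u : ℂ) (y : comSub m) : dret_L m u y = u⁻¹ • y := rfl

theorem dret_tendsto (T : ℝ) (y₀ : comSub m) :
    Tendsto (fun y : comSub m => ((T, y) : ℝ × comSub m)) (𝓝 y₀) (𝓝 (T, y₀)) :=
  (Continuous.prodMk_right T).tendsto y₀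

theorem dret_hasFDerivAt {y : comSub m} (h : DifferentiableAt ℝ Φ (T, y)) :
    HasFDerivAt (ret Φ T u) ((dret_L m u).comp
      ((fderiv ℝ Φ (T, y)).comp (ContinuousLinearMap.inr ℝ ℝ (comSub m)))) y := by
  have h1 : HasFDerivAt (fun y : comSub m => ((T, y) : ℝ × comSub m))
      (ContinuousLinearMap.inr ℝ ℝ (comSub m)) y := hasFDerivAt_prodMk_right T y
  exact (dret_L m u).hasFDerivAt.comp y (h.hasFDerivAt.comp y h1)

theorem ret_fix (hm : ∀ a, 0 < m a) (hΦ : LM m T S X₀ X₁ Φ) (hu : ‖u‖ = 1)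
    (hend : pE m X₁ = u • pE m X₀) :
    AnalyticAt ℝ (ret Φ T u) (pE m X₀) ∧ ret Φ T u (pE m X₀) = pE m X₀ := by
  constructor
  · have h1 : AnalyticAt ℝ (fun y : comSub m => ((T, y) : ℝ × comSub m)) (pE m X₀) :=
      analyticAt_const.prod analyticAt_id
    have h2 : AnalyticAt ℝ (fun y : comSub m => Φ (T, y)) (pE m X₀) :=
      AnalyticAt.fun_comp hΦ.an h1
    exact ((dret_L m u).analyticAt _).fun_comp h2
  · show u⁻¹ • Φ (T, pE m X₀) = pE m X₀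
    rw [hΦ.base, hend, smul_smul, inv_mul_cancel₀ (dret_ne hu), one_smul]

/-- Commutation with time shifts: two formulas for `Φ (T + t, y)`.

Proof.  (a) `Φ (T + t, y) = Φ (T, φ (t, y))`: `LM.comp` for `φ` (base run `X₀ → X₀`) and `Φ`.
(b) Let `X₁ = sym κ₁ κ₂ b X₀` with `SymOK u κ₁ κ₂` (`exists_sym_of_pE`).  By `LM.symLM` the map
`φ₁ (t, z) = u • φ (t, u⁻¹ • z)` is a time `0` map at `X₁`, and `LM.comp` for `Φ`, `φ₁` gives
`Φ (T + t, y) = φ₁ (t, Φ (T, y)) = u • φ (t, ret Φ T u y)`. -/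
theorem ret_shift (hm : ∀ a, 0 < m a) (hΦ : LM m T S X₀ X₁ Φ) (hφ : LM m 0 0 X₀ X₀ φ)
    (hu : ‖u‖ = 1) (hend : pE m X₁ = u • pE m X₀) :
    (∀ᶠ p : ℝ × comSub m in 𝓝 (0, pE m X₀), Φ (T + p.1, p.2) = Φ (T, φ p)) ∧
    ∀ᶠ p : ℝ × comSub m in 𝓝 (0, pE m X₀), Φ (T + p.1, p.2) = u • φ (p.1, ret Φ T u p.2) := by
  have hM : MM m ≠ 0 := by
    have h0 := hm 0
    have h1 := hm 1
    have h2 := hm 2
    rw [MM]
    positivity
  constructor
  · have h1 : LM m (0 + T) (0 + S) X₀ X₁ Φ := by rw [zero_add, zero_add]; exact hΦ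
    have h2 := LM.comp hm hφ hΦ h1
    have h3 : Tendsto (fun p : ℝ × comSub m => (((p.1, T), p.2) : (ℝ × ℝ) × comSub m))
        (𝓝 (0, pE m X₀)) (𝓝 ((0, T), pE m X₀)) := by
      have hc : Continuous (fun p : ℝ × comSub m => (((p.1, T), p.2) : (ℝ × ℝ) × comSub m)) := by
        fun_prop
      exact hc.tendsto (0, pE m X₀)
    filter_upwards [h3.eventually h2] with p hp
    have hp' : Φ (p.1 + T, p.2) = Φ (T, φ (p.1, p.2)) := hp
    rw [add_comm T p.1]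
    exact hp'
  · obtain ⟨κ₁, κ₂, b, hs, hX⟩ := exists_sym_of_pE hM (fun a => (hm a).ne') hΦ.nc0 hΦ.nc1 hu hend
    have h0 := LM.symLM hm (b := b) hs hφ
    rw [← hX] at h0
    have h1 : LM m (T + 0) (S + 0) X₀ X₁ Φ := by rw [add_zero, add_zero]; exact hΦ
    have h2 := LM.comp hm hΦ h0 h1
    have h3 : Tendsto (fun p : ℝ × comSub m => (((T, p.1), p.2) : (ℝ × ℝ) × comSub m))
        (𝓝 (0, pE m X₀)) (𝓝 ((T, 0), pE m X₀)) := by
      have hc : Continuous (fun p : ℝ × comSub m => (((T, p.1), p.2) : (ℝ × ℝ) × comSub m)) := by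
        fun_prop
      exact hc.tendsto (0, pE m X₀)
    filter_upwards [h3.eventually h2] with p hp
    exact hp

/-- Proof: `ret_shift` and `LM.rot`. -/
theorem ret_comm (hm : ∀ a, 0 < m a) (hΦ : LM m T S X₀ X₁ Φ) (hφ : LM m 0 0 X₀ X₀ φ)
    (hu : ‖u‖ = 1) (hend : pE m X₁ = u • pE m X₀) :
    ∀ᶠ p : (ℝ × ℝ) × comSub m in 𝓝 (0, pE m X₀),
      ret Φ T u (Gact φ p) = Gact φ (p.1, ret Φ T u p.2) := by
  obtain ⟨ha, hb⟩ := ret_shift hm hΦ hφ hu hend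
  have hr := LM.rot hm hΦ
  have hc1 : Continuous (fun p : (ℝ × ℝ) × comSub m => ((p.1.1, p.2) : ℝ × comSub m)) := by
    fun_prop
  have ht1 : Tendsto (fun p : (ℝ × ℝ) × comSub m => ((p.1.1, p.2) : ℝ × comSub m))
      (𝓝 (0, pE m X₀)) (𝓝 (0, pE m X₀)) := hc1.tendsto (0, pE m X₀)
  have hφc : Tendsto φ (𝓝 (0, pE m X₀)) (𝓝 (pE m X₀)) := by
    have h1 := hφ.an.continuousAt.tendsto
    rwa [hφ.base] at h1
  have ht2 : Tendsto (fun p : (ℝ × ℝ) × comSub m => ((p.1.2, (T, φ (p.1.1, p.2))) :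
      ℝ × (ℝ × comSub m))) (𝓝 (0, pE m X₀)) (𝓝 (0, (T, pE m X₀))) := by
    refine Tendsto.prodMk_nhds ?_ (Tendsto.prodMk_nhds tendsto_const_nhds (hφc.comp ht1))
    have hc2 : Continuous (fun p : (ℝ × ℝ) × comSub m => p.1.2) := by fun_prop
    exact hc2.tendsto (0, pE m X₀)
  filter_upwards [ht1.eventually ha, ht1.eventually hb, ht2.eventually hr] with p h1 h2 h3
  have h4 : Φ (T, Complex.exp (p.1.2 * Complex.I) • φ (p.1.1, p.2)) =
      Complex.exp (p.1.2 * Complex.I) • Φ (T, φ (p.1.1, p.2)) := h3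
  have h5 : Φ (T, φ (p.1.1, p.2)) = u • φ (p.1.1, ret Φ T u p.2) := by
    rw [← h1]
    exact h2
  show u⁻¹ • Φ (T, Complex.exp (p.1.2 * Complex.I) • φ (p.1.1, p.2)) =
    Complex.exp (p.1.2 * Complex.I) • φ (p.1.1, ret Φ T u p.2)
  rw [h4, h5, smul_smul, smul_smul]
  congr 1
  rw [mul_right_comm, inv_mul_cancel₀ (dret_ne hu), one_mul]

theorem ret_mu (hm : ∀ a, 0 < m a) (hΦ : LM m T S X₀ X₁ Φ) (hu : ‖u‖ = 1) :
    ∀ᶠ y in 𝓝 (pE m X₀), muE m (ret Φ T u y) = muE m y := by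
  have hu' : ‖u⁻¹‖ = 1 := by rw [norm_inv, hu, inv_one]
  filter_upwards [(dret_tendsto T (pE m X₀)).eventually (LM.mu hm hΦ)] with y hy
  rw [← hy]
  show (energy m (u⁻¹ • (Φ (T, y) : Ph)), amom m (u⁻¹ • (Φ (T, y) : Ph))) = muE m (Φ (T, y))
  rw [energy_rot hu', amom_rot' hu']
  rfl

theorem ret_symp_E (hm : ∀ a, 0 < m a) (hΦ : LM m T S X₀ X₁ Φ) (hu : ‖u‖ = 1) :
    ∀ᶠ y in 𝓝 (pE m X₀), ∀ ξ η : comSub m,
      omE m (fderiv ℝ (ret Φ T u) y ξ) (fderiv ℝ (ret Φ T u) y η) = omE m ξ η := by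
  have hu' : ‖u⁻¹‖ = 1 := by rw [norm_inv, hu, inv_one]
  filter_upwards [(dret_tendsto T (pE m X₀)).eventually (LM.symp hm hΦ),
    (dret_tendsto T (pE m X₀)).eventually hΦ.an.eventually_analyticAt] with y hy ha
  intro ξ η
  rw [(dret_hasFDerivAt (u := u) ha.differentiableAt).fderiv]
  show omE m (u⁻¹ • fderiv ℝ Φ (T, y) (0, ξ)) (u⁻¹ • fderiv ℝ Φ (T, y) (0, η)) = _
  rw [omE_smul hu']
  exact hy ξ η

/-- Fixed points near the base point of a time `T` map give relative periodic orbits.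

Proof.  For `y` near `y₀ = pE m X₀` take a run `(S', X, X')` near `(S, X₀, X₁)` with `pE m X = y`,
time `T`, `pE m X' = Φ (T, y)` (`LM.exists_run` at `p = (T, y)`), `S' > 0`; `exists_LM` gives `Φ'`
for it and `LM.near` says `Φ' = Φ` near `(T, y)`.  If `ret Φ T u y = y` then `pE m X' = u • y`. -/
theorem good_near (hm : ∀ a, 0 < m a) (hΦ : LM m T S X₀ X₁ Φ) (hS : 0 < S) (hu : ‖u‖ = 1) :
    ∃ 𝒱 ∈ 𝓝 (pE m X₀), ∀ y ∈ 𝒱, ret Φ T u y = y → ∀ (h c : ℝ) (χ : ℝ[X]), muE m y = (h, c) →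
      cp (fderiv ℝ (ret Φ T u) y) = χ → Good m h T u χ c := by
  have hA := LM.near hΦ
  have ht : Tendsto (fun q : ℝ × Up × Up => ((q.1, q.2.1) : ℝ × Up)) (𝓝 (S, X₀, X₁))
      (𝓝 (S, X₀)) := by
    have hc : Continuous (fun q : ℝ × Up × Up => ((q.1, q.2.1) : ℝ × Up)) := by fun_prop
    exact hc.tendsto (S, X₀, X₁)
  have ht2 : ∀ᶠ q : ℝ × Up × Up in 𝓝 (S, X₀, X₁), 0 < q.1 := by
    have hc : Continuous (fun q : ℝ × Up × Up => q.1) := by fun_prop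
    exact hc.continuousAt.eventually (lt_mem_nhds hS)
  have hN := LM.exists_run hΦ ((ht.eventually hA).and ht2)
  refine ⟨_, (dret_tendsto T (pE m X₀)).eventually hN, ?_⟩
  rintro y ⟨⟨S', X, X'⟩, ⟨hq1, hq2⟩, hX, hrun, hn0, hn1, hX'⟩ hfix h c χ hmu hcp
  simp only at hq1 hq2 hX hrun hn0 hn1 hX'
  subst hX
  obtain ⟨Φ', hΦ'⟩ := exists_LM hm hrun hn0 hn1
  have he : Φ' =ᶠ[𝓝 (T, pE m X)] Φ := hq1 T X' Φ' hΦ'
  have he2 : ret Φ' T u =ᶠ[𝓝 (pE m X)] ret Φ T u := by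
    filter_upwards [(dret_tendsto T (pE m X)).eventually he] with z hz
    show u⁻¹ • Φ' (T, z) = u⁻¹ • Φ (T, z)
    rw [hz]
  refine ⟨S', X, X', Φ', hq2, hΦ', hmu, ?_, ?_⟩
  · rw [hX']
    have h1 : u⁻¹ • Φ (T, pE m X) = pE m X := hfix
    rw [← h1, smul_smul, mul_inv_cancel₀ (dret_ne hu), one_smul, h1]
  · rw [he2.fderiv_eq]
    exact hcp

end Pool.Agent.MP_5027f4_cont
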