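import Pool.Agent.Lib_MP_5027f4_cont.DRet

/-!
PIECE [DShift] (MP_5027f4_mp, T1).  Change of the base point of a relative periodic orbit.
-/

open Set Filter Topology Metric Polynomial
open scoped ComplexConjugate ContDiff
open Pool.Agent.MP_5027f4_mp

namespace Pool.Agent.MP_5027f4_cont

variable {m : Fin 3 → ℝ} {S T : ℝ} {X₀ X₁ : Up} {Φ : ℝ × comSub m → comSub m} {u : ℂ}

theorem dsh_cp_comm {E : Type*} [NormedAddCommGroup E] [NormedSpace ℝ E] [FiniteDimensional ℝ E]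
    (A B : E →L[ℝ] E) : cp (A.comp B) = cp (B.comp A) := by
  let b := Module.finBasis ℝ E
  have h1 : ∀ A B : E →L[ℝ] E, cp (A.comp B) =
      (LinearMap.toMatrix b b (A : E →ₗ[ℝ] E) * LinearMap.toMatrix b b (B : E →ₗ[ℝ] E)).charpoly := by
    intro A B
    rw [cp, ← LinearMap.charpoly_toMatrix _ b, ← LinearMap.toMatrix_comp b b b]
    rfl
  rw [h1, h1, Matrix.charpoly_mul_comm]

theorem dsh_hasFDerivAt {Φ : ℝ × comSub m → comSub m} {t : ℝ} {y : comSub m}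
    (h : AnalyticAt ℝ Φ (t, y)) : DifferentiableAt ℝ (fun z => Φ (t, z)) y := by
  have h1 : DifferentiableAt ℝ Φ (t, y) := h.differentiableAt
  exact h1.comp y ((differentiableAt_const t).prodMk differentiableAt_id)

theorem dsh_norm {h : ℝ} {κ₁ κ₂ : ℂ} {b : Bool} (hk : SymOK u κ₁ κ₂) {c : ℝ → Up}
    (hc : SolOn (VF m h) S c) (hS : 0 < S) (h1 : c S = sym κ₁ κ₂ b (c 0)) {s : ℝ}
    (hs : s ∈ Icc 0 S) {c' : ℝ → Up} (hc' : SolOn (VF m h) S c') (h0 : c' 0 = c s) :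
    ∀ r ∈ Icc 0 S, ∃ r' ∈ Icc 0 S, ‖c' r‖ = ‖c r'‖ := by
  have hf : ContDiff ℝ 1 (VF m h) := (contDiff_VF m h).of_le le_top
  have hsu : s ∈ uIcc 0 S := by rwa [uIcc_of_le hS.le]
  have hB := hc.shift hsu
  have hA : SolOn (VF m h) s (fun r => sym κ₁ κ₂ b (c r)) := by
    obtain ⟨a, d, ha, hd, has, hsd, hh⟩ := hc.restrict hsu
    refine ⟨a, d, ha, hd, has, hsd, fun r hr => ?_⟩
    have h2 := hasDerivAt_sym (κ₁ := κ₁) (κ₂ := κ₂) (b := b) (hh r hr)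
    rw [← VF_sym hk] at h2
    exact h2
  have h2 : (fun r => sym κ₁ κ₂ b (c r)) 0 = (fun r => c (s + r)) (S - s) := by
    show sym κ₁ κ₂ b (c 0) = c (s + (S - s))
    rw [add_sub_cancel, h1]
  obtain ⟨c'', hc'', e1, e2⟩ := SolOn.trans hf hB hA h2
  rw [sub_add_cancel] at hc''
  have e3 : c'' 0 = c s := by
    have := e1 0 left_mem_uIcc
    simpa using this
  have e4 := SolOn.unique hf hc' hc'' (h0.trans e3.symm)
  intro r hr
  rw [e4 r (by rwa [uIcc_of_le hS.le])]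
  rcases le_total r (S - s) with h3 | h3
  · refine ⟨s + r, ⟨by linarith [hs.1, hr.1], by linarith⟩, ?_⟩
    rw [e1 r (by rw [uIcc_of_le (by linarith [hs.2])]; exact ⟨hr.1, h3⟩)]
  · refine ⟨r - (S - s), ⟨by linarith, by linarith [hr.2, hs.2]⟩, ?_⟩
    have h4 := e2 (r - (S - s)) (by
      rw [uIcc_of_le hs.1]; exact ⟨by linarith, by linarith [hr.2]⟩)
    rw [add_sub_cancel] at h4
    rw [h4]
    exact norm_sym hk _

/-- Proof.  `X₁ = sym κ₁ κ₂ b X₀` (`exists_sym_of_pE`), `Z₀ = c s`, `t = ∫ 0..s, rho`.  Runs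
`A : X₀ → Z₀` (`s`, `t`), `B : Z₀ → X₁` (`S - s`, `T - t`), `A' = sym A : X₁ → Z₁ = sym κ₁ κ₂ b Z₀`.
`exists_LM` gives `Φ_A`, `Φ_B`; `Φ_A' (t, z) = u • Φ_A (t, u⁻¹ • z)` (`LM.symLM`).  By `LM.comp`
`Φ (T, y) = Φ_B (T - t, Φ_A (t, y))` near `pE m X₀`, and for `Φ'` (from `LM.exists_comp` for `B`,
`A'`) `Φ' (T, z) = Φ_A' (t, Φ_B (T - t, z))` near `pE m Z₀`.  So with `α = Φ_A (t, ·)`,
`β = u⁻¹ • Φ_B (T - t, ·)`: `ret Φ T u = β ∘ α` and `ret Φ' T u = α ∘ β` as germs; the derivatives at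
the fixed points are `Dβ Dα` and `Dα Dβ` and have the same characteristic polynomial
(`Matrix.charpoly_mul_comm` through matrices, or `LinearMap.charpoly_mul_comm`).  The last claim:
by uniqueness `c'` is `c (s + ·)` on `[0, S - s]` and `sym κ₁ κ₂ b (c (· - (S - s)))` on `[S - s, S]`;
`norm_sym`. -/
theorem base_shift (hm : ∀ a, 0 < m a) (hu : ‖u‖ = 1) (hΦ : LM m T S X₀ X₁ Φ) (hS : 0 < S)
    (hend : pE m X₁ = u • pE m X₀) {c : ℝ → Up}
    (hc : SolOn (VF m (muE m (pE m X₀)).1) S c) (hc0 : c 0 = X₀) {s : ℝ} (hs : s ∈ Icc 0 S)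
    (hns : Nonc (c s)) :
    ∃ Z₁ Φ', LM m T S (c s) Z₁ Φ' ∧ pE m Z₁ = u • pE m (c s) ∧
      muE m (pE m (c s)) = muE m (pE m X₀) ∧
      cp (fderiv ℝ (ret Φ' T u) (pE m (c s))) = cp (fderiv ℝ (ret Φ T u) (pE m X₀)) ∧
      ∀ c', SolOn (VF m (muE m (pE m X₀)).1) S c' → c' 0 = c s →
        ∀ r ∈ Icc 0 S, ∃ r' ∈ Icc 0 S, ‖c' r‖ = ‖c r'‖ := by
  have hm' : ∀ a, m a ≠ 0 := fun a => (hm a).ne'
  have hM : MM m ≠ 0 := by
    have h0 := hm 0
    have h1 := hm 1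
    have h2 := hm 2
    unfold MM
    positivity
  have hu0 : u ≠ 0 := by
    rintro rfl
    simp at hu
  have hf : ContDiff ℝ 1 (VF m (muE m (pE m X₀)).1) := (contDiff_VF m _).of_le le_top
  have hsu : s ∈ uIcc 0 S := by rwa [uIcc_of_le hS.le]
  have hn0 := hΦ.nc0
  have hn1 := hΦ.nc1
  -- the end point
  have hcS : c S = X₁ := by
    obtain ⟨c₀, h1, h2, h3, -⟩ := hΦ.run0
    rw [← h3]
    exact SolOn.unique hf hc h1 (hc0.trans h2.symm) S right_mem_uIcc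
  obtain ⟨κ₁, κ₂, b, hk, hX₁⟩ := exists_sym_of_pE hM hm' hn0 hn1 hu hend
  -- the runs
  obtain ⟨t, ht⟩ : ∃ t, t = ∫ r in (0 : ℝ)..s, rho (c r) := ⟨_, rfl⟩
  have rA : Run m (muE m (pE m X₀)).1 s X₀ t (c s) := ⟨c, hc.restrict hsu, hc0, rfl, ht.symm⟩
  have hmuZ : muE m (pE m (c s)) = muE m (pE m X₀) := Run.mu_eq hm hn0 hns rA
  have hmu1 : muE m (pE m X₁) = muE m (pE m X₀) := Run.mu_eq hm hn0 hn1 hΦ.run0
  have rB : Run m (muE m (pE m (c s))).1 (S - s) (c s) (T - t) X₁ := by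
    have := rA.symm.trans hΦ.run0
    rw [hmuZ]
    convert this using 1 <;> ring
  obtain ⟨ΦA, hA⟩ := exists_LM hm rA hn0 hns
  obtain ⟨ΦB, hB⟩ := exists_LM hm rB hns hn1
  have hA' : LM m t s X₁ (sym κ₁ κ₂ b (c s)) (fun p => u • ΦA (p.1, u⁻¹ • p.2)) := by
    have := LM.symLM hm (b := b) hk hA
    rwa [← hX₁] at this
  obtain ⟨Φ', hΦ'⟩ := LM.exists_comp hm hB hA'
  have hΦc : LM m (t + (T - t)) (s + (S - s)) X₀ X₁ Φ := by
    rw [add_sub_cancel, add_sub_cancel]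
    exact hΦ
  have c1 := LM.comp hm hA hB hΦc
  have c2 := LM.comp hm hB hA' hΦ'
  rw [sub_add_cancel, sub_add_cancel] at hΦ'
  have hbA : ΦA (t, pE m X₀) = pE m (c s) := hA.base
  have hbB : ΦB (T - t, pE m (c s)) = pE m X₁ := hB.base
  -- germs
  have g1 : ret Φ T u =ᶠ[𝓝 (pE m X₀)] fun y => u⁻¹ • ΦB (T - t, ΦA (t, y)) := by
    have hcont : ContinuousAt (fun y : comSub m => (((t, T - t), y) : (ℝ × ℝ) × comSub m))
        (pE m X₀) := by fun_prop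
    filter_upwards [hcont.eventually c1] with y hy
    have hy' : Φ (t + (T - t), y) = ΦB (T - t, ΦA (t, y)) := hy
    rw [add_sub_cancel] at hy'
    rw [ret, hy']
  have g2 : ret Φ' T u =ᶠ[𝓝 (pE m (c s))] fun z => ΦA (t, u⁻¹ • ΦB (T - t, z)) := by
    have hcont : ContinuousAt (fun y : comSub m => (((T - t, t), y) : (ℝ × ℝ) × comSub m))
        (pE m (c s)) := by fun_prop
    filter_upwards [hcont.eventually c2] with y hy
    have hy' : Φ' ((T - t) + t, y) = u • ΦA (t, u⁻¹ • ΦB (T - t, y)) := hy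
    rw [sub_add_cancel] at hy'
    rw [ret, hy', smul_smul, inv_mul_cancel₀ hu0, one_smul]
  have hdA : DifferentiableAt ℝ (fun y => ΦA (t, y)) (pE m X₀) := dsh_hasFDerivAt hA.an
  have hdB : DifferentiableAt ℝ (fun z => u⁻¹ • ΦB (T - t, z)) (pE m (c s)) :=
    (dsh_hasFDerivAt hB.an).const_smul u⁻¹
  have hβ : u⁻¹ • ΦB (T - t, pE m (c s)) = pE m X₀ := by
    rw [hbB, hend, smul_smul, inv_mul_cancel₀ hu0, one_smul]
  have d1 : fderiv ℝ (ret Φ T u) (pE m X₀) =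
      (fderiv ℝ (fun z => u⁻¹ • ΦB (T - t, z)) (pE m (c s))).comp
        (fderiv ℝ (fun y => ΦA (t, y)) (pE m X₀)) := by
    rw [g1.fderiv_eq]
    have h1 : HasFDerivAt (fun z => u⁻¹ • ΦB (T - t, z))
        (fderiv ℝ (fun z => u⁻¹ • ΦB (T - t, z)) (pE m (c s))) ((fun y => ΦA (t, y)) (pE m X₀)) := by
      show HasFDerivAt _ _ (ΦA (t, pE m X₀))
      rw [hbA]
      exact hdB.hasFDerivAt
    exact (h1.comp (pE m X₀) hdA.hasFDerivAt).fderiv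
  have d2 : fderiv ℝ (ret Φ' T u) (pE m (c s)) =
      (fderiv ℝ (fun y => ΦA (t, y)) (pE m X₀)).comp
        (fderiv ℝ (fun z => u⁻¹ • ΦB (T - t, z)) (pE m (c s))) := by
    rw [g2.fderiv_eq]
    have h1 : HasFDerivAt (fun y => ΦA (t, y))
        (fderiv ℝ (fun y => ΦA (t, y)) (pE m X₀))
        ((fun z => u⁻¹ • ΦB (T - t, z)) (pE m (c s))) := by
      show HasFDerivAt _ _ (u⁻¹ • ΦB (T - t, pE m (c s)))
      rw [hβ]
      exact hdA.hasFDerivAt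
    exact (h1.comp (pE m (c s)) hdB.hasFDerivAt).fderiv
  refine ⟨sym κ₁ κ₂ b (c s), Φ', hΦ', pE_sym hm' hk hns, hmuZ, ?_, ?_⟩
  · rw [d1, d2]
    exact dsh_cp_comm _ _
  · intro c' hc' h0
    exact dsh_norm (κ₁ := κ₁) (κ₂ := κ₂) (b := b) hk hc hS (by rw [hcS, hc0, hX₁]) hs hc' h0

end Pool.Agent.MP_5027f4_cont
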