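import Pool.Agent.Lib_MP_5027f4_cont.DFlow
import Pool.Agent.Lib_MP_5027f4_cont.CSec

/-!
PIECE [DTime] (MP_5027f4_mp, T1).  Solving for the fictitious time.
-/

open Set Filter Topology Metric Polynomial
open scoped ComplexConjugate ContDiff
open Pool.Agent.MP_5027f4_mp

namespace Pool.Agent.MP_5027f4_cont

/-- The data of the construction of the time `T` map: `σ` is the local inverse of `pE m`, `Ψ` the
local flow of `VV m`, `sT (T, y)` the fictitious time needed for the physical time `T`. -/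
structure TimeData (m : Fin 3 → ℝ) (T₀ S₀ : ℝ) (X₀ X₁ : Up) (σ : comSub m → Up)
    (Ψ : ℝ × (Up × ℝ × ℝ) → Up × ℝ × ℝ) (sT : ℝ × comSub m → ℝ) : Prop where
  nc0 : Nonc X₀
  nc1 : Nonc X₁
  run0 : Run m (muE m (pE m X₀)).1 S₀ X₀ T₀ X₁
  anσ : AnalyticAt ℝ σ (pE m X₀)
  σ0 : σ (pE m X₀) = X₀
  sec : ∀ᶠ y in 𝓝 (pE m X₀), Nonc (σ y) ∧ pE m (σ y) = y
  sec' : ∀ᶠ X in 𝓝 X₀, σ (pE m X) = X
  anΨ : AnalyticAt ℝ Ψ (S₀, (X₀, (muE m (pE m X₀)).1, 0))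
  Ψ0 : Ψ (S₀, (X₀, (muE m (pE m X₀)).1, 0)) = (X₁, (muE m (pE m X₀)).1, T₀)
  runΨ : ∀ᶠ p : ℝ × (Up × ℝ × ℝ) in 𝓝 (S₀, (X₀, (muE m (pE m X₀)).1, 0)), p.2.2.2 = 0 →
    Run m p.2.2.1 p.1 p.2.1 (Ψ p).2.2 (Ψ p).1 ∧ (Ψ p).2.1 = p.2.2.1
  dΨ : ∀ᶠ p : ℝ × (Up × ℝ × ℝ) in 𝓝 (S₀, (X₀, (muE m (pE m X₀)).1, 0)),
    fderiv ℝ Ψ p (1, 0) = VV m (Ψ p)
  symp : ∀ᶠ p : ℝ × (Up × ℝ × ℝ) in 𝓝 (S₀, (X₀, (muE m (pE m X₀)).1, 0)), ∀ ξ η,
    oY (fderiv ℝ Ψ p (0, ξ)) (fderiv ℝ Ψ p (0, η)) = oY ξ η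
  ans : AnalyticAt ℝ sT (T₀, pE m X₀)
  s0 : sT (T₀, pE m X₀) = S₀
  left : ∀ᶠ p : ℝ × comSub m in 𝓝 (T₀, pE m X₀),
    (Ψ (sT p, (σ p.2, (muE m p.2).1, 0))).2.2 = p.1
  right : ∀ᶠ q : ℝ × comSub m in 𝓝 (S₀, pE m X₀),
    sT ((Ψ (q.1, (σ q.2, (muE m q.2).1, 0))).2.2, q.2) = q.1

/-- Proof.  `σ` from `exists_section`, `Ψ` from `exists_VVflow`.  The function
`F (T, y, S) = (Ψ (S, (σ y, (muE m y).1, 0))).2.2 - T` is analytic at `(T₀, pE m X₀, S₀)`, vanishes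
there, and its derivative in `S` is `(VV m (X₁, h, T₀)).2.2 = rho X₁ > 0` (`dΨ`, `rho_pos_iff`):
implicit function theorem (`ContDiffAt.implicitFunction`, `n = ω`, with local uniqueness for
`right`). -/
theorem exists_timeData {m : Fin 3 → ℝ} (hm : ∀ a, 0 < m a) {S₀ T₀ : ℝ} {X₀ X₁ : Up}
    (hr : Run m (muE m (pE m X₀)).1 S₀ X₀ T₀ X₁) (h0 : Nonc X₀) (h1 : Nonc X₁) :
    ∃ σ Ψ sT, TimeData m T₀ S₀ X₀ X₁ σ Ψ sT := by
  have hm' : ∀ a, m a ≠ 0 := fun a => (hm a).ne'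
  have hM : MM m ≠ 0 := by
    have h2 : 0 < MM m := add_pos (add_pos (hm 0) (hm 1)) (hm 2)
    exact h2.ne'
  obtain ⟨σ, σan, σ0, sec, sec'⟩ := exists_section hm h0
  obtain ⟨Ψ, Ψan, Ψ0, runΨ, dΨ, symp⟩ := exists_VVflow hr
  have hmu : AnalyticAt ℝ (muE m) (pE m X₀) := analyticAt_muE m (pE_noColl hM hm' h0)
  -- the inner map
  have hg : AnalyticAt ℝ (fun q : ℝ × comSub m =>
      ((q.1, (σ q.2, (muE m q.2).1, 0)) : ℝ × (Up × ℝ × ℝ))) (S₀, pE m X₀) := by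
    have e1 : AnalyticAt ℝ (fun q : ℝ × comSub m => σ q.2) (S₀, pE m X₀) :=
      AnalyticAt.fun_comp (f := fun q : ℝ × comSub m => q.2) (g := σ) σan analyticAt_snd
    have e2 : AnalyticAt ℝ (fun q : ℝ × comSub m => muE m q.2) (S₀, pE m X₀) :=
      AnalyticAt.fun_comp (f := fun q : ℝ × comSub m => q.2) (g := muE m) hmu analyticAt_snd
    exact analyticAt_fst.prod (e1.prod ((analyticAt_fst.fun_comp e2).prod analyticAt_const))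
  have hg0 : ((S₀, (σ (pE m X₀), (muE m (pE m X₀)).1, 0)) : ℝ × (Up × ℝ × ℝ)) =
      (S₀, (X₀, (muE m (pE m X₀)).1, 0)) := by rw [σ0]
  have hΨg : AnalyticAt ℝ (fun q : ℝ × comSub m =>
      (Ψ (q.1, (σ q.2, (muE m q.2).1, 0))).2.2) (S₀, pE m X₀) := by
    have e1 : AnalyticAt ℝ (fun q : ℝ × comSub m => Ψ (q.1, (σ q.2, (muE m q.2).1, 0)))
        (S₀, pE m X₀) := by
      refine AnalyticAt.fun_comp (g := Ψ) ?_ hg
      show AnalyticAt ℝ Ψ (S₀, (σ (pE m X₀), (muE m (pE m X₀)).1, 0))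
      rw [hg0]
      exact Ψan
    exact analyticAt_snd.fun_comp (analyticAt_snd.fun_comp e1)
  have hΨ0 : (Ψ (S₀, (σ (pE m X₀), (muE m (pE m X₀)).1, 0))).2.2 = T₀ := by
    rw [hg0, Ψ0]
  let F : (ℝ × comSub m) × ℝ → ℝ := fun v =>
    (Ψ (v.2, (σ v.1.2, (muE m v.1.2).1, 0))).2.2 - v.1.1
  have hF0 : F ((T₀, pE m X₀), S₀) = 0 := by
    show (Ψ (S₀, (σ (pE m X₀), (muE m (pE m X₀)).1, 0))).2.2 - T₀ = 0
    rw [hΨ0, sub_self]
  have anF : AnalyticAt ℝ F ((T₀, pE m X₀), S₀) := by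
    have e1 : AnalyticAt ℝ (fun v : (ℝ × comSub m) × ℝ => ((v.2, v.1.2) : ℝ × comSub m))
        ((T₀, pE m X₀), S₀) := analyticAt_snd.prod (analyticAt_snd.fun_comp analyticAt_fst)
    have e2 := AnalyticAt.fun_comp (f := fun v : (ℝ × comSub m) × ℝ => ((v.2, v.1.2) : ℝ × comSub m))
      (g := fun q : ℝ × comSub m => (Ψ (q.1, (σ q.2, (muE m q.2).1, 0))).2.2)
      (x := ((T₀, pE m X₀), S₀)) hΨg e1
    exact e2.sub (analyticAt_fst.fun_comp analyticAt_fst)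
  have cdf : ContDiffAt ℝ ω F ((T₀, pE m X₀), S₀) := anF.contDiffAt
  have pn : (ω : WithTop ℕ∞) ≠ 0 := by simp
  -- the derivative in the last variable
  have hrho : 0 < rho X₁ := (rho_pos_iff X₁).2 h1
  have hd1 : HasDerivAt (fun s : ℝ => F ((T₀, pE m X₀), s)) (rho X₁) S₀ := by
    have e1 : HasDerivAt (fun s : ℝ => ((s, (X₀, (muE m (pE m X₀)).1, 0)) : ℝ × (Up × ℝ × ℝ)))
        ((1 : ℝ), (0 : Up × ℝ × ℝ)) S₀ :=
      (hasDerivAt_id S₀).prodMk (hasDerivAt_const S₀ _)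
    have e2 := Ψan.differentiableAt.hasFDerivAt.comp_hasDerivAt (f := fun s : ℝ =>
      ((s, (X₀, (muE m (pE m X₀)).1, 0)) : ℝ × (Up × ℝ × ℝ))) S₀ e1
    rw [dΨ.self_of_nhds, Ψ0] at e2
    have e3 : HasDerivAt (fun s : ℝ => (Ψ (s, (X₀, (muE m (pE m X₀)).1, 0))).2.2)
        (VV m (X₁, (muE m (pE m X₀)).1, T₀)).2.2 S₀ := by
      have e4 := ((ContinuousLinearMap.snd ℝ ℝ ℝ).comp
        (ContinuousLinearMap.snd ℝ Up (ℝ × ℝ))).hasFDerivAt.comp_hasDerivAt S₀ e2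
      exact e4
    have e5 : (fun s : ℝ => F ((T₀, pE m X₀), s)) =
        fun s : ℝ => (Ψ (s, (X₀, (muE m (pE m X₀)).1, 0))).2.2 - T₀ := by
      funext s
      show (Ψ (s, (σ (pE m X₀), (muE m (pE m X₀)).1, 0))).2.2 - T₀ = _
      rw [σ0]
    rw [e5]
    exact e3.sub_const T₀
  have hd2 : HasDerivAt (fun s : ℝ => F ((T₀, pE m X₀), s))
      (fderiv ℝ F ((T₀, pE m X₀), S₀) (0, 1)) S₀ := by
    have e1 : HasDerivAt (fun s : ℝ => (((T₀, pE m X₀), s) : (ℝ × comSub m) × ℝ))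
        ((0 : ℝ × comSub m), (1 : ℝ)) S₀ :=
      (hasDerivAt_const S₀ _).prodMk (hasDerivAt_id S₀)
    exact anF.differentiableAt.hasFDerivAt.comp_hasDerivAt S₀ e1
  have hd3 : fderiv ℝ F ((T₀, pE m X₀), S₀) (0, 1) = rho X₁ := hd2.unique hd1
  have if₂ : (fderiv ℝ F ((T₀, pE m X₀), S₀) ∘L .inr ℝ (ℝ × comSub m) ℝ).IsInvertible := by
    refine ⟨ContinuousLinearEquiv.unitsEquivAut ℝ (Units.mk0 (rho X₁) hrho.ne'), ?_⟩
    ext
    show (1 : ℝ) * rho X₁ = fderiv ℝ F ((T₀, pE m X₀), S₀) (0, 1)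
    rw [hd3, one_mul]
  refine ⟨σ, Ψ, cdf.implicitFunction pn if₂, h0, h1, hr, σan, σ0, sec, sec', Ψan, Ψ0, runΨ, dΨ, symp,
    ?_, ?_, ?_, ?_⟩
  · exact (cdf.contDiffAt_implicitFunction pn if₂).analyticAt
  · exact cdf.implicitFunction_apply_self pn if₂
  · have e1 := cdf.eventually_apply_implicitFunction pn if₂
    rw [hF0] at e1
    filter_upwards [e1] with p hp
    exact sub_eq_zero.1 hp
  · have e1 := cdf.eventually_apply_eq_iff_implicitFunction pn if₂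
    rw [hF0] at e1
    have e2 : Tendsto (fun q : ℝ × comSub m =>
        ((((Ψ (q.1, (σ q.2, (muE m q.2).1, 0))).2.2, q.2), q.1) : (ℝ × comSub m) × ℝ))
        (𝓝 (S₀, pE m X₀)) (𝓝 ((T₀, pE m X₀), S₀)) := by
      have e3 : ContinuousAt (fun q : ℝ × comSub m =>
          ((((Ψ (q.1, (σ q.2, (muE m q.2).1, 0))).2.2, q.2), q.1) : (ℝ × comSub m) × ℝ))
          (S₀, pE m X₀) :=
        (hΨg.continuousAt.prodMk continuousAt_snd).prodMk continuousAt_fst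
      have e4 := e3.tendsto
      simp only [hΨ0] at e4
      exact e4
    filter_upwards [e2.eventually e1] with q hq
    exact hq.1 (sub_self _)

end Pool.Agent.MP_5027f4_cont
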