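import Pool.Agent.Lib_MP_5027f4_mp.Nondeg

/-!
# Continuation of nonresonant relative periodic orbits: definitions

`T1`: near a Lyapunov stable relative periodic orbit of the planar three-body problem without a
dominant mass every elliptic relative periodic orbit is resonant of order at most four.
See `Blueprint.md`.
-/

open Set Filter Topology Metric Polynomial
open scoped ComplexConjugate ContDiff
open Pool.Agent.MP_5027f4_mp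

namespace Pool.Agent.MP_5027f4_cont

/-! ## Abstract part -/

/-- scalar product on `ℝ²` -/
def dot (a b : ℝ × ℝ) : ℝ := a.1 * b.1 + a.2 * b.2

/-- the standard symplectic form on `ℂ²` -/
noncomputable def os (ξ η : ℂ × ℂ) : ℝ := (conj ξ.1 * η.1 + conj ξ.2 * η.2).im

/-- the standard symplectic form on `ℝ² × ℝ² × ℂ²` (group parameters, momenta, transversal) -/
noncomputable def Om (δ δ' : (ℝ × ℝ) × (ℝ × ℝ) × (ℂ × ℂ)) : ℝ :=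
  dot δ.1 δ'.2.1 - dot δ'.1 δ.2.1 + os δ.2.2 δ'.2.2

/-- characteristic polynomial of a continuous linear map -/
noncomputable def cp {E : Type*} [NormedAddCommGroup E] [NormedSpace ℝ E]
    [FiniteDimensional ℝ E] (A : E →L[ℝ] E) : ℝ[X] := LinearMap.charpoly (A : E →ₗ[ℝ] E)

/-- no resonance up to order four -/
def NonRes (l₁ l₂ : ℂ) : Prop :=
  ∀ a b : ℤ, (a ≠ 0 ∨ b ≠ 0) → |a| + |b| ≤ 4 → l₁ ^ a * l₂ ^ b ≠ 1

/-- the real polynomial `q` has the four roots `l₁, l₁⁻¹, l₂, l₂⁻¹` on the unit circle, without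
resonances up to order four -/
def Ell4 (q : ℝ[X]) : Prop :=
  ∃ l₁ l₂ : ℂ, ‖l₁‖ = 1 ∧ ‖l₂‖ = 1 ∧ NonRes l₁ l₂ ∧
    q.map (algebraMap ℝ ℂ) = (X - C l₁) * (X - C l₁⁻¹) * ((X - C l₂) * (X - C l₂⁻¹))

section

variable {E : Type*} [NormedAddCommGroup E] [NormedSpace ℝ E]

/-- A local symplectic action `G` of `ℝ²` near `x₀` with momentum map `μ`, free at `x₀`. -/
structure LocAct (om : E →L[ℝ] E →L[ℝ] ℝ) (x₀ : E) (G : (ℝ × ℝ) × E → E) (μ : E → ℝ × ℝ) :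
    Prop where
  an : AnalyticAt ℝ G (0, x₀)
  anm : AnalyticAt ℝ μ x₀
  zero : ∀ᶠ y in 𝓝 x₀, G (0, y) = y
  add : ∀ᶠ p : (ℝ × ℝ) × (ℝ × ℝ) × E in 𝓝 (0, 0, x₀),
    G (p.1, G (p.2.1, p.2.2)) = G (p.1 + p.2.1, p.2.2)
  inv : ∀ᶠ p : (ℝ × ℝ) × E in 𝓝 (0, x₀), μ (G p) = μ p.2
  ham : ∀ᶠ y in 𝓝 x₀, ∀ (g : ℝ × ℝ) (ξ : E),
    om (fderiv ℝ G (0, y) (g, 0)) ξ = dot g (fderiv ℝ μ y ξ)
  symp : ∀ᶠ p : (ℝ × ℝ) × E in 𝓝 (0, x₀), ∀ ξ η : E,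
    om (fderiv ℝ G p (0, ξ)) (fderiv ℝ G p (0, η)) = om ξ η
  free : ∀ g : ℝ × ℝ, fderiv ℝ G (0, x₀) (g, 0) = 0 → g = 0

/-- Darboux chart `Θ (g, k, z)` adapted to a local action, with local inverse `Ξ`. -/
structure DChart (om : E →L[ℝ] E →L[ℝ] ℝ) (x₀ : E) (G : (ℝ × ℝ) × E → E) (μ : E → ℝ × ℝ)
    (Θ : (ℝ × ℝ) × (ℝ × ℝ) × (ℂ × ℂ) → E) (Ξ : E → (ℝ × ℝ) × (ℝ × ℝ) × (ℂ × ℂ)) : Prop where
  an : AnalyticAt ℝ Θ (0, μ x₀, 0)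
  anX : AnalyticAt ℝ Ξ x₀
  base : Θ (0, μ x₀, 0) = x₀
  baseX : Ξ x₀ = (0, μ x₀, 0)
  left : ∀ᶠ p in 𝓝 ((0, μ x₀, 0) : (ℝ × ℝ) × (ℝ × ℝ) × (ℂ × ℂ)), Ξ (Θ p) = p
  right : ∀ᶠ y in 𝓝 x₀, Θ (Ξ y) = y
  shift : ∀ᶠ p : (ℝ × ℝ) × (ℝ × ℝ) × (ℝ × ℝ) × (ℂ × ℂ) in 𝓝 (0, 0, μ x₀, 0),
    Θ (p.1 + p.2.1, p.2.2) = G (p.1, Θ p.2)
  mom : ∀ᶠ p in 𝓝 ((0, μ x₀, 0) : (ℝ × ℝ) × (ℝ × ℝ) × (ℂ × ℂ)), μ (Θ p) = p.2.1
  darb : ∀ᶠ p in 𝓝 ((0, μ x₀, 0) : (ℝ × ℝ) × (ℝ × ℝ) × (ℂ × ℂ)), ∀ δ δ',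
    om (fderiv ℝ Θ p δ) (fderiv ℝ Θ p δ') = Om δ δ'

/-- In the chart `Θ` the map `Φ` is `(g, k, z) ↦ (g + b (k, z), k, P (k, z))`. -/
structure RetMap (k₀ : ℝ × ℝ) (Θ : (ℝ × ℝ) × (ℝ × ℝ) × (ℂ × ℂ) → E) (Φ : E → E)
    (b : (ℝ × ℝ) × (ℂ × ℂ) → ℝ × ℝ) (P : (ℝ × ℝ) × (ℂ × ℂ) → ℂ × ℂ) : Prop where
  anb : AnalyticAt ℝ b (k₀, 0)
  anP : AnalyticAt ℝ P (k₀, 0)
  b0 : b (k₀, 0) = 0
  P0 : P (k₀, 0) = 0
  eq : ∀ᶠ p : (ℝ × ℝ) × (ℝ × ℝ) × (ℂ × ℂ) in 𝓝 (0, k₀, 0),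
    Φ (Θ p) = Θ (p.1 + b p.2, p.2.1, P p.2)

/-- bounded drift: the total second component of the displacements along chains of returns which
stay near `x₀` is bounded -/
def BD (x₀ : E) (G : (ℝ × ℝ) × E → E) (Φ : E → E) : Prop :=
  ∃ r > 0, ∃ δ : ℝ, ∀ (n : ℕ) (y : ℕ → E) (g : ℕ → ℝ × ℝ), (∀ j ≤ n, ‖y j - x₀‖ < r) →
    (∀ j < n, ‖g j‖ < r ∧ Φ (y j) = G (g j, y (j + 1))) → |∑ j ∈ Finset.range n, (g j).2| ≤ δ

end

/-- bounded drift in coordinates -/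
def BDC (k₀ : ℝ × ℝ) (b : (ℝ × ℝ) × (ℂ × ℂ) → ℝ × ℝ) (P : (ℝ × ℝ) × (ℂ × ℂ) → ℂ × ℂ) : Prop :=
  ∃ r > 0, ∃ δ : ℝ, ∀ (k : ℝ × ℝ) (n : ℕ) (z : ℕ → ℂ × ℂ), ‖k - k₀‖ < r →
    (∀ j ≤ n, ‖z j‖ < r) → (∀ j < n, z (j + 1) = P (k, z j)) →
    |∑ j ∈ Finset.range n, (b (k, z j)).2| ≤ δ

/-- derivative of `P` in the direction of the second factor -/
noncomputable def dz {F : Type*} [NormedAddCommGroup F] [NormedSpace ℝ F]
    (P : F × (ℂ × ℂ) → ℂ × ℂ) (q : F × (ℂ × ℂ)) : (ℂ × ℂ) →L[ℝ] (ℂ × ℂ) :=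
  (fderiv ℝ P q).comp (ContinuousLinearMap.inr ℝ F (ℂ × ℂ))

/-! ## Polynomial vector fields -/

/-- `f` acts on continuous curves as an analytic map (Nemytskii operator). -/
def NemAn {E F : Type*} [NormedAddCommGroup E] [NormedSpace ℝ E] [NormedAddCommGroup F]
    [NormedSpace ℝ F] (f : E → F) : Prop :=
  ∃ N : C(unitInterval, E) → C(unitInterval, F), ContDiff ℝ ω N ∧ ∀ x t, N x t = f (x t)

/-- `c` solves `c' = f c` on an open interval containing `0` and `S`. -/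
def SolOn {E : Type*} [NormedAddCommGroup E] [NormedSpace ℝ E] (f : E → E) (S : ℝ) (c : ℝ → E) :
    Prop :=
  ∃ a b : ℝ, a < 0 ∧ 0 < b ∧ a < S ∧ S < b ∧ ∀ s ∈ Ioo a b, HasDerivAt c (f (c s)) s

/-! ## Regularized three-body problem -/

/-- regularizing variables `(ζ, η, P, R)` -/
abbrev Up := ℂ × ℂ × ℂ × ℂ

/-- `q₂ - q₁ = f₀²`, `q₀ - q₂ = - f₁²`, `q₁ - q₀ = - f₂²`, and `f₀² = f₁² + f₂²` -/
noncomputable def ff (X : Up) : Fin 3 → ℂ :=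
  ![X.1 ^ 2 + X.2.1 ^ 2, X.1 ^ 2 - X.2.1 ^ 2, 2 * X.1 * X.2.1]

/-- the numerators of the momenta -/
noncomputable def al (X : Up) : Fin 3 → ℂ :=
  ![conj X.2.1 * X.2.2.1 - conj X.1 * X.2.2.2, conj X.2.1 * X.2.2.1 + conj X.1 * X.2.2.2,
    conj X.1 * X.2.2.1 - conj X.2.1 * X.2.2.2]

/-- the mutual distances `nn X k = |ff X k|²` -/
noncomputable def nn (X : Up) (k : Fin 3) : ℝ := Complex.normSq (ff X k)

/-- the time change `dt/ds` -/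
noncomputable def rho (X : Up) : ℝ := nn X 0 * nn X 1 * nn X 2

/-- regularized potential (`rho` times the potential) -/
noncomputable def WW (m : Fin 3 → ℝ) (X : Up) : ℝ :=
  m 1 * m 2 * (nn X 1 * nn X 2) + m 2 * m 0 * (nn X 2 * nn X 0) + m 0 * m 1 * (nn X 0 * nn X 1)

/-- regularized kinetic energy -/
noncomputable def KK (m : Fin 3 → ℝ) (X : Up) : ℝ :=
  (nn X 0 * Complex.normSq (al X 0) / m 0 + nn X 1 * Complex.normSq (al X 1) / m 1 +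
    nn X 2 * Complex.normSq (al X 2) / m 2) / 32

/-- the regularized Hamiltonian at energy `h` -/
noncomputable def Gam (m : Fin 3 → ℝ) (h : ℝ) (X : Up) : ℝ := KK m X - WW m X - h * rho X

/-- no collision -/
def Nonc (X : Up) : Prop := ∀ k, ff X k ≠ 0

/-- `∂Γ/∂n_k` -/
noncomputable def g0 (m : Fin 3 → ℝ) (h : ℝ) (X : Up) : ℝ :=
  Complex.normSq (al X 0) / (32 * m 0) - m 2 * m 0 * nn X 2 - m 0 * m 1 * nn X 1 -
    h * (nn X 1 * nn X 2)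
noncomputable def g1 (m : Fin 3 → ℝ) (h : ℝ) (X : Up) : ℝ :=
  Complex.normSq (al X 1) / (32 * m 1) - m 1 * m 2 * nn X 2 - m 0 * m 1 * nn X 0 -
    h * (nn X 0 * nn X 2)
noncomputable def g2 (m : Fin 3 → ℝ) (h : ℝ) (X : Up) : ℝ :=
  Complex.normSq (al X 2) / (32 * m 2) - m 1 * m 2 * nn X 1 - m 2 * m 0 * nn X 0 -
    h * (nn X 0 * nn X 1)

/-- the Hamiltonian vector field of `Gam m h` -/
noncomputable def VF (m : Fin 3 → ℝ) (h : ℝ) (X : Up) : Up :=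
  let w0 : ℂ := ((nn X 0 / m 0 : ℝ) : ℂ)
  let w1 : ℂ := ((nn X 1 / m 1 : ℝ) : ℂ)
  let w2 : ℂ := ((nn X 2 / m 2 : ℝ) : ℂ)
  (((w0 * X.2.1 * al X 0 + w1 * X.2.1 * al X 1 + w2 * X.1 * al X 2) / 16),
   ((-(w0 * X.1 * al X 0) + w1 * X.1 * al X 1 - w2 * X.2.1 * al X 2) / 16),
   -(4 * (g0 m h X : ℂ) * conj X.1 * ff X 0 + 4 * (g1 m h X : ℂ) * conj X.1 * ff X 1 +
      4 * (g2 m h X : ℂ) * conj X.2.1 * ff X 2 +
      (-(w0 * conj (al X 0) * X.2.2.2) + w1 * conj (al X 1) * X.2.2.2 +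
        w2 * conj (al X 2) * X.2.2.1) / 16),
   -(4 * (g0 m h X : ℂ) * conj X.2.1 * ff X 0 - 4 * (g1 m h X : ℂ) * conj X.2.1 * ff X 1 +
      4 * (g2 m h X : ℂ) * conj X.1 * ff X 2 +
      (w0 * conj (al X 0) * X.2.2.1 + w1 * conj (al X 1) * X.2.2.1 -
        w2 * conj (al X 2) * X.2.2.2) / 16))

/-- total mass -/
def MM (m : Fin 3 → ℝ) : ℝ := m 0 + m 1 + m 2

/-- differences of positions: `zz X 0 = q₂ - q₁`, `zz X 1 = q₀ - q₂`, `zz X 2 = q₁ - q₀` -/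
noncomputable def zz (X : Up) : Fin 3 → ℂ := ![ff X 0 ^ 2, -(ff X 1 ^ 2), -(ff X 2 ^ 2)]

/-- positions -/
noncomputable def qq (m : Fin 3 → ℝ) (X : Up) : Fin 3 → ℂ :=
  ![(m 2 * zz X 1 - m 1 * zz X 2) / MM m, (m 0 * zz X 2 - m 2 * zz X 0) / MM m,
    (m 1 * zz X 0 - m 0 * zz X 1) / MM m]

/-- momenta -/
noncomputable def pp (X : Up) : Fin 3 → ℂ :=
  ![-(al X 0 / (4 * conj (ff X 1 * ff X 2))), -(al X 1 / (4 * conj (ff X 0 * ff X 2))),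
    al X 2 / (4 * conj (ff X 0 * ff X 1))]

/-- the projection to the phase space -/
noncomputable def pj (m : Fin 3 → ℝ) (X : Up) : Ph := (qq m X, fun k => pp X k / m k)

noncomputable instance (m : Fin 3 → ℝ) : FiniteDimensional ℝ (comSub m) :=
  Module.Finite.trans ℂ (comSub m)

/-- a continuous projection of the phase space onto the center-of-mass subspace -/
noncomputable def prE (m : Fin 3 → ℝ) : Ph →L[ℝ] comSub m := Classical.choose (exists_proj m)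

theorem prE_coe (m : Fin 3 → ℝ) (z : comSub m) : prE m (z : Ph) = z :=
  Classical.choose_spec (exists_proj m) z

/-- the projection to the center-of-mass phase space -/
noncomputable def pE (m : Fin 3 → ℝ) (X : Up) : comSub m := prE m (pj m X)

/-- energy and angular momentum -/
noncomputable def muE (m : Fin 3 → ℝ) (y : comSub m) : ℝ × ℝ :=
  (energy m (y : Ph), amom m (y : Ph))

/-- symplectic form of `Up` -/
noncomputable def oU (ξ η : Up) : ℝ :=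
  (conj ξ.1 * η.2.2.1 + conj ξ.2.1 * η.2.2.2 - conj ξ.2.2.1 * η.1 - conj ξ.2.2.2 * η.2.1).re

/-- symplectic form of the phase space -/
noncomputable def oP (m : Fin 3 → ℝ) (ξ η : Ph) : ℝ :=
  ∑ a, m a * (conj (ξ.1 a) * η.2 a - conj (ξ.2 a) * η.1 a).re

/-- the symmetries `(ζ, η, P, R) ↦ (κ₁ ζ, κ₂ η, κ₁ P, κ₂ R)`, composed with the exchange of
`ζ, η` and `P, R` when `b` is true -/
def sym (κ₁ κ₂ : ℂ) (b : Bool) (X : Up) : Up :=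
  if b then (κ₁ * X.2.1, κ₂ * X.1, κ₁ * X.2.2.2, κ₂ * X.2.2.1)
  else (κ₁ * X.1, κ₂ * X.2.1, κ₁ * X.2.2.1, κ₂ * X.2.2.2)

/-- admissible parameters of the symmetries acting as the rotation `u` -/
def SymOK (u κ₁ κ₂ : ℂ) : Prop := ‖κ₁‖ = 1 ∧ κ₂ ^ 2 = κ₁ ^ 2 ∧ κ₁ ^ 4 = u

/-- regularized angular momentum, dilation generator, moment of inertia -/
noncomputable def CU (X : Up) : ℝ := (conj X.1 * X.2.2.1 + conj X.2.1 * X.2.2.2).im / 4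
noncomputable def DU (X : Up) : ℝ := (conj X.1 * X.2.2.1 + conj X.2.1 * X.2.2.2).re / 4
noncomputable def IU (m : Fin 3 → ℝ) (X : Up) : ℝ :=
  (m 1 * m 2 * nn X 0 ^ 2 + m 2 * m 0 * nn X 1 ^ 2 + m 0 * m 1 * nn X 2 ^ 2) / MM m

/-- the extended vector field on `(X, h, t)` -/
noncomputable def VV (m : Fin 3 → ℝ) (Y : Up × ℝ × ℝ) : Up × ℝ × ℝ :=
  (VF m Y.2.1 Y.1, 0, rho Y.1)

/-- `Run m h S X₀ T X₁`: the regularized flow of energy `h` leads from `X₀` to `X₁` in the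
fictitious time `S` and in the physical time `T`. -/
def Run (m : Fin 3 → ℝ) (h S : ℝ) (X₀ : Up) (T : ℝ) (X₁ : Up) : Prop :=
  ∃ c : ℝ → Up, SolOn (VF m h) S c ∧ c 0 = X₀ ∧ c S = X₁ ∧ ∫ s in (0 : ℝ)..S, rho (c s) = T

/-- `Φ (T, y)` is the extended time `T` map near a run from `X₀` to `X₁`. -/
structure LM (m : Fin 3 → ℝ) (T₀ S₀ : ℝ) (X₀ X₁ : Up) (Φ : ℝ × comSub m → comSub m) : Prop where
  nc0 : Nonc X₀
  nc1 : Nonc X₁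
  run0 : Run m (muE m (pE m X₀)).1 S₀ X₀ T₀ X₁
  an : AnalyticAt ℝ Φ (T₀, pE m X₀)
  run : ∀ᶠ q : ℝ × Up in 𝓝 (S₀, X₀), ∀ T' X', Run m (muE m (pE m q.2)).1 q.1 q.2 T' X' →
    pE m X' = Φ (T', pE m q.2)
  ex : ∀ 𝒩 ∈ 𝓝 ((S₀, X₀, X₁) : ℝ × Up × Up), ∀ᶠ p : ℝ × comSub m in 𝓝 (T₀, pE m X₀),
    ∃ q ∈ 𝒩, pE m q.2.1 = p.2 ∧ Run m (muE m p.2).1 q.1 q.2.1 p.1 q.2.2

/-- the return map modulo the rotation `u` -/
noncomputable def ret {m : Fin 3 → ℝ} (Φ : ℝ × comSub m → comSub m) (T : ℝ) (u : ℂ)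
    (y : comSub m) : comSub m := u⁻¹ • Φ (T, y)

/-- There is an (extended) relative periodic orbit of energy `h`, period `T`, rotation `u`,
angular momentum `c`, whose return map has the characteristic polynomial `χ`. -/
def Good (m : Fin 3 → ℝ) (h T : ℝ) (u : ℂ) (χ : ℝ[X]) (c : ℝ) : Prop :=
  ∃ S X₀ X₁ Φ, 0 < S ∧ LM m T S X₀ X₁ Φ ∧ muE m (pE m X₀) = (h, c) ∧
    pE m X₁ = u • pE m X₀ ∧ cp (fderiv ℝ (ret Φ T u) (pE m X₀)) = χ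

/-- the linear monodromy of a relative periodic solution -/
def IsMon (m : Fin 3 → ℝ) (y : ℝ → Ph) (T : ℝ) (u : ℂ) (M : comSub m →ₗ[ℝ] comSub m) : Prop :=
  ∀ (J : ℝ → Ph) (h : J 0 ∈ comSub m), IsJacobi m y T J → J T = u • ((M ⟨J 0, h⟩ : comSub m) : Ph)

end Pool.Agent.MP_5027f4_cont
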