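import Pool.Agent.Lib_MP_5027f4_cont.Defs

/-!
PIECE [Escape] (MP_5027f4_mp, T1).  A nonzero averaged drift is unbounded.
-/

open Set Filter Topology Metric Polynomial Asymptotics
open scoped ComplexConjugate ContDiff

namespace Pool.Agent.MP_5027f4_cont

theorem Escape_small (A : ℝ) {B : ℝ} (hB : 0 < B) : ∀ᶠ ε in 𝓝[>] (0 : ℝ), A * ε < B := by
  have h : Tendsto (fun ε : ℝ => A * ε) (𝓝[>] 0) (𝓝 (A * 0)) :=
    (tendsto_id.const_mul A).mono_left nhdsWithin_le_nhds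
  rw [mul_zero] at h
  exact h.eventually (gt_mem_nhds hB)

theorem Escape_core {P : ℂ × ℂ → ℂ × ℂ} {a G J₁ J₂ : ℂ × ℂ → ℝ} {β₁ β₂ C r : ℝ} (hC : 1 ≤ C)
    (hPC : ∀ z, ‖z‖ < r → ‖P z‖ ≤ C * ‖z‖)
    (hJ : ∀ z, ‖z‖ < r →
      |J₁ z - Complex.normSq z.1| ≤ C * ‖z‖ ^ 3 ∧ |J₂ z - Complex.normSq z.2| ≤ C * ‖z‖ ^ 3 ∧
      |J₁ (P z) - J₁ z| ≤ C * ‖z‖ ^ 5 ∧ |J₂ (P z) - J₂ z| ≤ C * ‖z‖ ^ 5)
    (hG : ∀ z, ‖z‖ < r → |G z| ≤ C * ‖z‖ ∧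
      |G (P z) - G z - (a z - β₁ * Complex.normSq z.1 - β₂ * Complex.normSq z.2)| ≤
        C * ‖z‖ ^ 3) {δ : ℝ}
    (hbd : ∀ (n : ℕ) (z : ℕ → ℂ × ℂ), (∀ j ≤ n, ‖z j‖ < r) → (∀ j < n, z (j + 1) = P (z j)) →
      |∑ j ∈ Finset.range n, a (z j)| ≤ δ) {K ε s₁ s₂ D : ℝ} (hK : 0 < K) (hε : 0 < ε)
    (h1 : 2 * C * ε < r) (hD : D = 32 * C * K + 8 * C ^ 4 + C) (h2 : D * ε ≤ 3)
    (z₀ : ℂ × ℂ) (hz₀ : ‖z₀‖ ≤ ε) (hs₁ : Complex.normSq z₀.1 = s₁ * ε ^ 2)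
    (hs₂ : Complex.normSq z₀.2 = s₂ * ε ^ 2) (hs₁' : s₁ ≤ 1) (hs₂' : s₂ ≤ 1) :
    |β₁ * s₁ + β₂ * s₂| * (K - ε ^ 2) ≤
      δ + ε * (4 * C + K * ((|β₁| + |β₂|) * D + 8 * C)) := by
  have hC0 : 0 < C := by linarith
  have hε2 : 0 < ε ^ 2 := by positivity
  have hε3 : 0 < ε ^ 3 := by positivity
  have hr2 : 2 * ε < r := by nlinarith
  have hC4 : C ≤ C ^ 4 := by
    calc C = C ^ 1 := (pow_one C).symm
      _ ≤ C ^ 4 := pow_le_pow_right₀ hC (by norm_num)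
  set n := ⌊K / ε ^ 2⌋₊ with hn
  have hn1 : (n : ℝ) * ε ^ 2 ≤ K := by
    have := Nat.floor_le (div_nonneg hK.le hε2.le)
    rw [← hn] at this
    rwa [le_div_iff₀ hε2] at this
  have hn2 : K - ε ^ 2 < (n : ℝ) * ε ^ 2 := by
    have := Nat.lt_floor_add_one (K / ε ^ 2)
    rw [← hn] at this
    rw [div_lt_iff₀ hε2] at this
    linarith
  set z : ℕ → ℂ × ℂ := fun j => P^[j] z₀ with hz
  have hzs : ∀ j, z (j + 1) = P (z j) := fun j => Function.iterate_succ_apply' P j z₀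
  have hz0 : z 0 = z₀ := rfl
  -- bound of `normSq` from the bounds of `J`
  have hval : ∀ (J : ℂ × ℂ → ℝ) (N : ℂ × ℂ → ℝ) (w : ℂ × ℂ) (s : ℝ) (j : ℕ), j ≤ n →
      |J w - N w| ≤ 8 * C ^ 4 * ε ^ 3 → |J z₀ - N z₀| ≤ C * ε ^ 3 → N z₀ = s * ε ^ 2 →
      |J w - J z₀| ≤ j * (32 * C * ε ^ 5) → |N w - s * ε ^ 2| ≤ D * ε ^ 3 := by
    intro J N w s j hj e1 e2 e3 e4
    have e5 : (j : ℝ) * (32 * C * ε ^ 5) ≤ 32 * C * K * ε ^ 3 := by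
      have h3 : (j : ℝ) * ε ^ 2 ≤ K :=
        le_trans (mul_le_mul_of_nonneg_right (by exact_mod_cast hj) hε2.le) hn1
      calc (j : ℝ) * (32 * C * ε ^ 5) = (32 * C * ε ^ 3) * (j * ε ^ 2) := by ring
        _ ≤ (32 * C * ε ^ 3) * K := mul_le_mul_of_nonneg_left h3 (by positivity)
        _ = 32 * C * K * ε ^ 3 := by ring
    rw [← e3]
    have e6 : N w - N z₀ = (J w - J z₀) - (J w - N w) + (J z₀ - N z₀) := by ring
    rw [e6]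
    have e7 := abs_add_le ((J w - J z₀) - (J w - N w)) (J z₀ - N z₀)
    have e8 := abs_sub (J w - J z₀) (J w - N w)
    rw [hD]
    nlinarith
  have hsq : ∀ (w : ℂ) (s : ℝ), s ≤ 1 → |Complex.normSq w - s * ε ^ 2| ≤ D * ε ^ 3 →
      ‖w‖ ≤ 2 * ε := by
    intro w s hs hw
    have e1 : Complex.normSq w ≤ (2 * ε) ^ 2 := by
      have e2 := (abs_le.1 hw).2
      have e3 : D * ε ^ 3 ≤ 3 * ε ^ 2 := by
        calc D * ε ^ 3 = (D * ε) * ε ^ 2 := by ring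
          _ ≤ 3 * ε ^ 2 := mul_le_mul_of_nonneg_right h2 hε2.le
      nlinarith
    rw [Complex.normSq_eq_norm_sq] at e1
    exact le_of_sq_le_sq e1 (by positivity)
  have hz₀r : ‖z₀‖ < r := by linarith
  obtain ⟨q1, q2, -, -⟩ := hJ z₀ hz₀r
  have hz3 : C * ‖z₀‖ ^ 3 ≤ C * ε ^ 3 :=
    mul_le_mul_of_nonneg_left (pow_le_pow_left₀ (norm_nonneg _) hz₀ 3) hC0.le
  have hind : ∀ j, j ≤ n → ‖z j‖ ≤ 2 * ε ∧ |J₁ (z j) - J₁ z₀| ≤ j * (32 * C * ε ^ 5) ∧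
      |J₂ (z j) - J₂ z₀| ≤ j * (32 * C * ε ^ 5) := by
    intro j
    induction j with
    | zero =>
      intro _
      rw [hz0]
      refine ⟨by linarith, ?_, ?_⟩ <;> simp
    | succ j ih =>
      intro hj
      obtain ⟨i1, i2, i3⟩ := ih (by omega)
      have hw : ‖z j‖ < r := by linarith
      obtain ⟨-, -, j3, j4⟩ := hJ (z j) hw
      have hPw : ‖P (z j)‖ ≤ 2 * C * ε := by
        calc ‖P (z j)‖ ≤ C * ‖z j‖ := hPC _ hw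
          _ ≤ C * (2 * ε) := mul_le_mul_of_nonneg_left i1 hC0.le
          _ = 2 * C * ε := by ring
      obtain ⟨k1, k2, -, -⟩ := hJ (P (z j)) (by linarith)
      have hp5 : C * ‖z j‖ ^ 5 ≤ 32 * C * ε ^ 5 := by
        calc C * ‖z j‖ ^ 5 ≤ C * (2 * ε) ^ 5 :=
              mul_le_mul_of_nonneg_left (pow_le_pow_left₀ (norm_nonneg _) i1 5) hC0.le
          _ = 32 * C * ε ^ 5 := by ring
      have hp3 : C * ‖P (z j)‖ ^ 3 ≤ 8 * C ^ 4 * ε ^ 3 := by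
        calc C * ‖P (z j)‖ ^ 3 ≤ C * (2 * C * ε) ^ 3 :=
              mul_le_mul_of_nonneg_left (pow_le_pow_left₀ (norm_nonneg _) hPw 3) hC0.le
          _ = 8 * C ^ 4 * ε ^ 3 := by ring
      rw [hzs]
      have m1 : |J₁ (P (z j)) - J₁ z₀| ≤ ((j + 1 : ℕ) : ℝ) * (32 * C * ε ^ 5) := by
        have := abs_sub_le (J₁ (P (z j))) (J₁ (z j)) (J₁ z₀)
        push_cast
        linarith
      have m2 : |J₂ (P (z j)) - J₂ z₀| ≤ ((j + 1 : ℕ) : ℝ) * (32 * C * ε ^ 5) := by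
        have := abs_sub_le (J₂ (P (z j))) (J₂ (z j)) (J₂ z₀)
        push_cast
        linarith
      refine ⟨?_, m1, m2⟩
      have v1 := hval J₁ (fun w => Complex.normSq w.1) (P (z j)) s₁ (j + 1) hj (k1.trans hp3)
        (q1.trans hz3) hs₁ m1
      have v2 := hval J₂ (fun w => Complex.normSq w.2) (P (z j)) s₂ (j + 1) hj (k2.trans hp3)
        (q2.trans hz3) hs₂ m2
      rw [Prod.norm_def]
      exact max_le (hsq _ s₁ hs₁' v1) (hsq _ s₂ hs₂' v2)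
  have hall : ∀ j ≤ n, ‖z j‖ < r := fun j hj => lt_of_le_of_lt (hind j hj).1 hr2
  have hbd' := hbd n z hall (fun j _ => hzs j)
  have hterm : ∀ j ∈ Finset.range n,
      |a (z j) - (G (z (j + 1)) - G (z j)) - (β₁ * s₁ + β₂ * s₂) * ε ^ 2| ≤
        ((|β₁| + |β₂|) * D + 8 * C) * ε ^ 3 := by
    intro j hj
    have hj' : j ≤ n := (Finset.mem_range.1 hj).le
    obtain ⟨i1, i2, i3⟩ := hind j hj'
    have hw := hall j hj'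
    obtain ⟨k1, k2, -, -⟩ := hJ (z j) hw
    have hp3 : C * ‖z j‖ ^ 3 ≤ 8 * C * ε ^ 3 := by
      calc C * ‖z j‖ ^ 3 ≤ C * (2 * ε) ^ 3 :=
            mul_le_mul_of_nonneg_left (pow_le_pow_left₀ (norm_nonneg _) i1 3) hC0.le
        _ = 8 * C * ε ^ 3 := by ring
    have hp4 : 8 * C * ε ^ 3 ≤ 8 * C ^ 4 * ε ^ 3 := by nlinarith
    have v1 := hval J₁ (fun w => Complex.normSq w.1) (z j) s₁ j hj' ((k1.trans hp3).trans hp4)
      (q1.trans hz3) hs₁ i2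
    have v2 := hval J₂ (fun w => Complex.normSq w.2) (z j) s₂ j hj' ((k2.trans hp3).trans hp4)
      (q2.trans hz3) hs₂ i3
    have g1 := (hG (z j) hw).2
    rw [← hzs] at g1
    have e1 : a (z j) - (G (z (j + 1)) - G (z j)) - (β₁ * s₁ + β₂ * s₂) * ε ^ 2 =
        -(G (z (j + 1)) - G (z j) - (a (z j) - β₁ * Complex.normSq (z j).1 -
          β₂ * Complex.normSq (z j).2)) + (β₁ * (Complex.normSq (z j).1 - s₁ * ε ^ 2) +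
          β₂ * (Complex.normSq (z j).2 - s₂ * ε ^ 2)) := by ring
    rw [e1]
    refine (abs_add_le _ _).trans ?_
    rw [abs_neg]
    have e2 : |β₁ * (Complex.normSq (z j).1 - s₁ * ε ^ 2) +
        β₂ * (Complex.normSq (z j).2 - s₂ * ε ^ 2)| ≤ |β₁| * (D * ε ^ 3) + |β₂| * (D * ε ^ 3) := by
      refine (abs_add_le _ _).trans ?_
      rw [abs_mul, abs_mul]
      exact add_le_add (mul_le_mul_of_nonneg_left v1 (abs_nonneg _))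
        (mul_le_mul_of_nonneg_left v2 (abs_nonneg _))
    calc _ ≤ 8 * C * ε ^ 3 + (|β₁| * (D * ε ^ 3) + |β₂| * (D * ε ^ 3)) :=
          add_le_add (g1.trans hp3) e2
      _ = ((|β₁| + |β₂|) * D + 8 * C) * ε ^ 3 := by ring
  have hsum : |∑ j ∈ Finset.range n, a (z j) - (G (z n) - G z₀) -
      n * ((β₁ * s₁ + β₂ * s₂) * ε ^ 2)| ≤ n * (((|β₁| + |β₂|) * D + 8 * C) * ε ^ 3) := by
    have e1 : ∑ j ∈ Finset.range n, a (z j) - (G (z n) - G z₀) -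
        n * ((β₁ * s₁ + β₂ * s₂) * ε ^ 2) = ∑ j ∈ Finset.range n,
          (a (z j) - (G (z (j + 1)) - G (z j)) - (β₁ * s₁ + β₂ * s₂) * ε ^ 2) := by
      rw [Finset.sum_sub_distrib, Finset.sum_sub_distrib, Finset.sum_range_sub (fun j => G (z j))]
      simp [hz0]
    rw [e1]
    refine (Finset.abs_sum_le_sum_abs _ _).trans ?_
    refine (Finset.sum_le_sum hterm).trans ?_
    simp
  have hDn : 0 ≤ D := by rw [hD]; positivity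
  have hMn : (0 : ℝ) ≤ (|β₁| + |β₂|) * D + 8 * C := by positivity
  have hsum2 : (n : ℝ) * (((|β₁| + |β₂|) * D + 8 * C) * ε ^ 3) ≤
      ε * (K * ((|β₁| + |β₂|) * D + 8 * C)) := by
    calc (n : ℝ) * (((|β₁| + |β₂|) * D + 8 * C) * ε ^ 3) =
          (((|β₁| + |β₂|) * D + 8 * C) * ε) * (n * ε ^ 2) := by ring
      _ ≤ (((|β₁| + |β₂|) * D + 8 * C) * ε) * K :=
          mul_le_mul_of_nonneg_left hn1 (by positivity)
      _ = ε * (K * ((|β₁| + |β₂|) * D + 8 * C)) := by ring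
  have hGn : |G (z n)| ≤ 2 * C * ε := by
    calc |G (z n)| ≤ C * ‖z n‖ := (hG _ (hall n le_rfl)).1
      _ ≤ C * (2 * ε) := mul_le_mul_of_nonneg_left (hind n le_rfl).1 hC0.le
      _ = 2 * C * ε := by ring
  have hG0 : |G z₀| ≤ 2 * C * ε := by
    calc |G z₀| ≤ C * ‖z₀‖ := (hG _ hz₀r).1
      _ ≤ C * (2 * ε) := mul_le_mul_of_nonneg_left (by linarith) hC0.le
      _ = 2 * C * ε := by ring
  have hfin : |β₁ * s₁ + β₂ * s₂| * ((n : ℝ) * ε ^ 2) ≤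
      δ + ε * (4 * C + K * ((|β₁| + |β₂|) * D + 8 * C)) := by
    have e1 : |β₁ * s₁ + β₂ * s₂| * ((n : ℝ) * ε ^ 2) =
        |n * ((β₁ * s₁ + β₂ * s₂) * ε ^ 2)| := by
      rw [abs_mul, abs_mul, abs_of_nonneg (Nat.cast_nonneg n : (0 : ℝ) ≤ (n : ℝ)), abs_of_pos hε2]
      ring
    rw [e1]
    have e2 : (n : ℝ) * ((β₁ * s₁ + β₂ * s₂) * ε ^ 2) = (∑ j ∈ Finset.range n, a (z j)) -
        (G (z n) - G z₀) - ((∑ j ∈ Finset.range n, a (z j)) - (G (z n) - G z₀) -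
      n * ((β₁ * s₁ + β₂ * s₂) * ε ^ 2)) := by ring
    rw [e2]
    refine (abs_sub _ _).trans ?_
    have e3 := abs_sub (∑ j ∈ Finset.range n, a (z j)) (G (z n) - G z₀)
    have e4 := abs_sub (G (z n)) (G z₀)
    linarith
  refine le_trans (mul_le_mul_of_nonneg_left hn2.le (abs_nonneg _)) hfin

/-- Proof.  Increase `C ≥ 1`.  Let `K > 0`, `ε > 0` small, `z 0 = (ε, 0)` or `(0, ε)`,
`z (j + 1) = P (z j)`, `n ≤ K / ε²`.  Claim `‖z j‖ ≤ 2 ε` for `j ≤ n` (induction): if it holds up to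
`j`, then `|Jᵢ (z (j + 1)) - Jᵢ (z 0)| ≤ (j + 1) C (2ε)⁵ ≤ 64 C K ε³ + ..`, so
`| |z (j+1)ᵢ|² - |z 0ᵢ|² | ≤ D ε³` with `D = D(C, K)` — for this one needs `‖z (j+1)‖ < r` and an
a priori bound: `‖P z‖ ≤ C ‖z‖` near `0` (`hPC`) gives `‖z (j+1)‖ ≤ 2 C ε`, so use `(2 C ε)³` in the
bound of `J - normSq` — hence `‖z (j+1)‖ ≤ 2ε` for `ε` small.  (`‖z‖ = max |z.1| |z.2|`.)
Then `Σ_{j<n} a (z j) = G (z n) - G (z 0) + Σ (β₁ |z j.1|² + β₂ |z j.2|²) + O(n ε³)`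
`= n β₁ ε² + O(ε) + O(n D ε³)` for `z 0 = (ε, 0)` (and with `β₂` for `(0, ε)`); with
`n = ⌊K/ε²⌋`, `ε → 0` the limit is `K β₁`; choosing `K` with `K |β₁| > δ` contradicts `hbd`. -/
theorem escape {P : ℂ × ℂ → ℂ × ℂ} {a G J₁ J₂ : ℂ × ℂ → ℝ} {β₁ β₂ C r : ℝ} (hr : 0 < r)
    (hPC : ∀ z, ‖z‖ < r → ‖P z‖ ≤ C * ‖z‖)
    (hJ : ∀ z, ‖z‖ < r →
      |J₁ z - Complex.normSq z.1| ≤ C * ‖z‖ ^ 3 ∧ |J₂ z - Complex.normSq z.2| ≤ C * ‖z‖ ^ 3 ∧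
      |J₁ (P z) - J₁ z| ≤ C * ‖z‖ ^ 5 ∧ |J₂ (P z) - J₂ z| ≤ C * ‖z‖ ^ 5)
    (hG : ∀ z, ‖z‖ < r → |G z| ≤ C * ‖z‖ ∧
      |G (P z) - G z - (a z - β₁ * Complex.normSq z.1 - β₂ * Complex.normSq z.2)| ≤
        C * ‖z‖ ^ 3) {δ : ℝ}
    (hbd : ∀ (n : ℕ) (z : ℕ → ℂ × ℂ), (∀ j ≤ n, ‖z j‖ < r) → (∀ j < n, z (j + 1) = P (z j)) →
      |∑ j ∈ Finset.range n, a (z j)| ≤ δ) : β₁ = 0 ∧ β₂ = 0 := by
  -- increase `C`
  obtain ⟨C', hCC, hC1⟩ : ∃ C', C ≤ C' ∧ 1 ≤ C' := ⟨max C 1, le_max_left _ _, le_max_right _ _⟩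
  have hm : ∀ (k : ℕ) (z : ℂ × ℂ), C * ‖z‖ ^ k ≤ C' * ‖z‖ ^ k := fun k z =>
    mul_le_mul_of_nonneg_right hCC (by positivity)
  have hPC' : ∀ z, ‖z‖ < r → ‖P z‖ ≤ C' * ‖z‖ := fun z hz =>
    (hPC z hz).trans (mul_le_mul_of_nonneg_right hCC (norm_nonneg _))
  have hJ' : ∀ z, ‖z‖ < r →
      |J₁ z - Complex.normSq z.1| ≤ C' * ‖z‖ ^ 3 ∧ |J₂ z - Complex.normSq z.2| ≤ C' * ‖z‖ ^ 3 ∧
      |J₁ (P z) - J₁ z| ≤ C' * ‖z‖ ^ 5 ∧ |J₂ (P z) - J₂ z| ≤ C' * ‖z‖ ^ 5 := fun z hz =>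
    ⟨(hJ z hz).1.trans (hm 3 z), (hJ z hz).2.1.trans (hm 3 z), (hJ z hz).2.2.1.trans (hm 5 z),
      (hJ z hz).2.2.2.trans (hm 5 z)⟩
  have hG' : ∀ z, ‖z‖ < r → |G z| ≤ C' * ‖z‖ ∧
      |G (P z) - G z - (a z - β₁ * Complex.normSq z.1 - β₂ * Complex.normSq z.2)| ≤
        C' * ‖z‖ ^ 3 := fun z hz =>
    ⟨(hG z hz).1.trans (mul_le_mul_of_nonneg_right hCC (norm_nonneg _)),
      (hG z hz).2.trans (hm 3 z)⟩
  have hδ : 0 ≤ δ := by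
    have := hbd 0 (fun _ => 0) (fun j _ => by simpa using hr) (fun j hj => by omega)
    simpa using this
  -- a nonzero coefficient gives a contradiction
  have key : ∀ (s₁ s₂ : ℝ), s₁ ≤ 1 → s₂ ≤ 1 →
      (∀ ε : ℝ, 0 < ε → ∃ z₀ : ℂ × ℂ, ‖z₀‖ ≤ ε ∧ Complex.normSq z₀.1 = s₁ * ε ^ 2 ∧
        Complex.normSq z₀.2 = s₂ * ε ^ 2) → β₁ * s₁ + β₂ * s₂ = 0 := by
    intro s₁ s₂ hs₁ hs₂ hz
    by_contra hne
    have hb : 0 < |β₁ * s₁ + β₂ * s₂| := abs_pos.2 hne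
    set b := |β₁ * s₁ + β₂ * s₂| with hbdef
    obtain ⟨K, hK, hKb⟩ : ∃ K : ℝ, 0 < K ∧ b * K = δ + 2 :=
      ⟨(δ + 2) / b, by positivity, by field_simp⟩
    obtain ⟨D, hD⟩ : ∃ D, D = 32 * C' * K + 8 * C' ^ 4 + C' := ⟨_, rfl⟩
    obtain ⟨M, hM⟩ : ∃ M, M = 4 * C' + K * ((|β₁| + |β₂|) * D + 8 * C') := ⟨_, rfl⟩
    obtain ⟨ε, ⟨⟨⟨e1, e2⟩, e3⟩, e4⟩, hε⟩ := ((((Escape_small (2 * C') hr).and
      (Escape_small D (by norm_num : (0 : ℝ) < 3))).and (Escape_small 1 one_pos)).and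
      (Escape_small (b + M) one_pos)).and (self_mem_nhdsWithin (s := Ioi (0 : ℝ))) |>.exists
    have hε0 : 0 < ε := hε
    obtain ⟨z₀, hz1, hz2, hz3⟩ := hz ε hε0
    have h := Escape_core hC1 hPC' hJ' hG' hbd hK hε0 e1 hD e2.le z₀ hz1 hz2 hz3 hs₁ hs₂
    rw [← hM, ← hbdef, mul_sub, hKb] at h
    have e5 : b * ε ^ 2 ≤ b * ε := by
      apply mul_le_mul_of_nonneg_left _ hb.le
      nlinarith
    nlinarith
  constructor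
  · have := key 1 0 le_rfl zero_le_one (fun ε hε => ⟨((ε : ℂ), 0), by
      simp [Prod.norm_def, abs_of_pos hε, hε.le], by simp [Complex.normSq_ofReal, sq], by simp⟩)
    simpa using this
  · have := key 0 1 zero_le_one le_rfl (fun ε hε => ⟨(0, (ε : ℂ)), by
      simp [Prod.norm_def, abs_of_pos hε, hε.le], by simp, by simp [Complex.normSq_ofReal, sq]⟩)
    simpa using this

end Pool.Agent.MP_5027f4_cont
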