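import Pool.Agent.Lib_MP_5027f4_cont.Taylor
import Pool.Agent.Lib_MP_5027f4_cont.Coh

/-!
PIECE [GFun] (MP_5027f4_mp, T1).  Reduction of the drift to its average.
-/

open Set Filter Topology Metric Polynomial Asymptotics
open scoped ComplexConjugate ContDiff

namespace Pool.Agent.MP_5027f4_cont

theorem gfun_pow_isBigO : (fun z : ℂ × ℂ => ‖z‖ ^ 4) =O[𝓝 0] fun z => ‖z‖ ^ 3 := by
  refine IsBigO.of_bound 1 ?_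
  filter_upwards [Metric.closedBall_mem_nhds (0 : ℂ × ℂ) one_pos] with z hz
  rw [mem_closedBall_zero_iff] at hz
  rw [one_mul, norm_pow, norm_pow, norm_norm]
  exact pow_le_pow_of_le_one (norm_nonneg _) hz (by norm_num)

theorem gfun_HG_isBigO {F : Type*} [NormedAddCommGroup F] [NormedSpace ℝ F] {d : ℕ}
    {f : ℂ × ℂ → F} (h : HG d f) : f =O[𝓝 0] fun z => ‖z‖ ^ d := by
  obtain ⟨C, -, hC⟩ := h.bound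
  refine IsBigO.of_bound C (Eventually.of_forall fun z => ?_)
  rw [norm_pow, norm_norm]
  exact hC z

/-- Proof.  `a z = ℓ z + a₂ z + O(‖z‖³)`, `P z = Λ z + p₂ z + O(‖z‖³)` (`taylor3`, `a 0 = 0`).
`g₁ ∘ Λ - g₁ = ℓ` (`coh_odd`, `d = 1`, `HG.one`); `a z - (g₁ (P z) - g₁ z) = a₂ z - g₁ (p₂ z) + O(‖z‖³)`;
decompose the quadratic form `a₂ - g₁ ∘ p₂` by `coh_two`, `HG.two`. -/
theorem exists_G {P : ℂ × ℂ → ℂ × ℂ} {a : ℂ × ℂ → ℝ} {μ₁ μ₂ : ℂ} (hP : AnalyticAt ℝ P 0)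
    (hP0 : P 0 = 0) (hA : fderiv ℝ P 0 = Ld μ₁ μ₂) (h₁ : ‖μ₁‖ = 1) (h₂ : ‖μ₂‖ = 1)
    (hn : NonRes μ₁ μ₂) (ha : AnalyticAt ℝ a 0) (ha0 : a 0 = 0) :
    ∃ (g₁ : (ℂ × ℂ) →L[ℝ] ℝ) (g₂ : (ℂ × ℂ) →L[ℝ] (ℂ × ℂ) →L[ℝ] ℝ) (β₁ β₂ : ℝ),
      (fun z => a z - (g₁ (P z) - g₁ z) - (g₂ (Ld μ₁ μ₂ z) (Ld μ₁ μ₂ z) - g₂ z z) -
        β₁ * Complex.normSq z.1 - β₂ * Complex.normSq z.2) =O[𝓝 0] (fun z => ‖z‖ ^ 3) := by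
  obtain ⟨Q₂, Q₃, hQ₂, hQ₃, hPO, -⟩ := taylor3 hP
  obtain ⟨A₂, A₃, hA₂, hA₃, haO, -⟩ := taylor3 ha
  obtain ⟨C₁, hC₁, hC₁e⟩ := coh_odd h₁ h₂ hn (d := 1) (Or.inl rfl) (HG.of_clm (fderiv ℝ a 0))
  obtain ⟨g₁, hg₁⟩ := hC₁.one
  have hf2 : HG 2 (fun z => A₂ z + (-1 : ℝ) • g₁ (Q₂ z)) := hA₂.add ((hQ₂.comp_left g₁).const_smul _)
  obtain ⟨C₂, β₁, β₂, hC₂, hC₂e⟩ := coh_two h₁ h₂ hn hf2
  obtain ⟨g₂, hg₂⟩ := hC₂.two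
  refine ⟨g₁, g₂, β₁, β₂, ?_⟩
  have e : (fun z => a z - (g₁ (P z) - g₁ z) - (g₂ (Ld μ₁ μ₂ z) (Ld μ₁ μ₂ z) - g₂ z z) -
      β₁ * Complex.normSq z.1 - β₂ * Complex.normSq z.2) =
      fun z => (a z - (a 0 + fderiv ℝ a 0 z + A₂ z + A₃ z)) -
        g₁ (P z - (P 0 + fderiv ℝ P 0 z + Q₂ z + Q₃ z)) + (A₃ z - g₁ (Q₃ z)) := by
    funext z
    have h1 := hC₁e z
    have h2 := hC₂e z
    rw [hg₁, hg₁] at h1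
    rw [hg₂, hg₂] at h2
    simp only [smul_eq_mul] at h2
    rw [hP0, hA, ha0, map_sub, map_add, map_add, map_add, map_zero]
    linear_combination h2 - h1
  rw [e]
  refine ((haO.trans gfun_pow_isBigO).sub ?_).add ((gfun_HG_isBigO hA₃).sub ?_)
  · exact ((g₁.isBigO_comp _ _).trans hPO).trans gfun_pow_isBigO
  · exact (g₁.isBigO_comp _ _).trans (gfun_HG_isBigO hQ₃)

end Pool.Agent.MP_5027f4_cont
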