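import Pool.Agent.Lib_MP_5027f4_cont.ShearA

/-!
PIECE [Shear] (MP_5027f4_mp, T1).  Polynomial symplectic maps with a prescribed 2-jet.
-/

open Set Filter Topology Metric Polynomial Asymptotics
open scoped ComplexConjugate ContDiff

namespace Pool.Agent.MP_5027f4_cont

/-- sums of cubes -/
private def shearCub (χ : ℂ × ℂ → ℝ) : Prop :=
  ∃ l : List (ℝ × (ℂ × ℂ)), ∀ z, χ z = (l.map fun p => p.1 * os z p.2 ^ 3).sum

private theorem shearCub_zero : shearCub (fun _ => 0) := ⟨[], fun _ => rfl⟩

private theorem shearCub_add {χ χ' : ℂ × ℂ → ℝ} (h : shearCub χ) (h' : shearCub χ') :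
    shearCub (fun z => χ z + χ' z) := by
  obtain ⟨l, hl⟩ := h
  obtain ⟨l', hl'⟩ := h'
  refine ⟨l ++ l', fun z => ?_⟩
  rw [List.map_append, List.sum_append, ← hl, ← hl']

private theorem shearCub_one (a : ℝ) (v : ℂ × ℂ) : shearCub (fun z => a * os z v ^ 3) :=
  ⟨[(a, v)], fun z => by simp⟩

private theorem shearCub_sum {ι : Type*} (s : Finset ι) (f : ι → ℂ × ℂ → ℝ)
    (h : ∀ i, shearCub (f i)) : shearCub (fun z => ∑ i ∈ s, f i z) := by
  classical
  induction s using Finset.induction_on with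
  | empty => simpa using shearCub_zero
  | insert i s hi ih =>
    have h1 := shearCub_add (h i) ih
    have h2 : (fun z => ∑ i ∈ insert i s, f i z) = fun z => f i z + ∑ i ∈ s, f i z := by
      funext z
      rw [Finset.sum_insert hi]
    rw [h2]
    exact h1

private theorem shear_os_add (z u v : ℂ × ℂ) : os z (u + v) = os z u + os z v := by
  unfold os
  rw [← Complex.add_im]
  congr 1
  show conj z.1 * (u.1 + v.1) + conj z.2 * (u.2 + v.2) = _
  ring

private theorem shear_os_sub (z u v : ℂ × ℂ) : os z (u - v) = os z u - os z v := by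
  unfold os
  rw [← Complex.sub_im]
  congr 1
  show conj z.1 * (u.1 - v.1) + conj z.2 * (u.2 - v.2) = _
  ring

private theorem shearCub_prod (a : ℝ) (u v w : ℂ × ℂ) :
    shearCub (fun z => a * (os z u * os z v * os z w)) := by
  have h1 := shearCub_add (shearCub_add (shearCub_one (a / 24) (u + v + w))
    (shearCub_one (-(a / 24)) (u + v - w)))
    (shearCub_add (shearCub_one (-(a / 24)) (u - v + w)) (shearCub_one (-(a / 24)) (v - u + w)))
  have h2 : (fun z => a * (os z u * os z v * os z w)) = fun z =>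
      (a / 24 * os z (u + v + w) ^ 3 + -(a / 24) * os z (u + v - w) ^ 3) +
      (-(a / 24) * os z (u - v + w) ^ 3 + -(a / 24) * os z (v - u + w) ^ 3) := by
    funext z
    simp only [shear_os_add, shear_os_sub]
    ring
  rw [h2]
  exact h1

/-- the real basis -/
private noncomputable def shearE : Fin 4 → ℂ × ℂ :=
  ![((1 : ℂ), 0), (Complex.I, 0), (0, (1 : ℂ)), (0, Complex.I)]

/-- the dual vectors -/
private noncomputable def shearV : Fin 4 → ℂ × ℂ :=
  ![(Complex.I, 0), ((-1 : ℂ), 0), (0, Complex.I), (0, (-1 : ℂ))]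

private theorem shear_expand (z : ℂ × ℂ) : z = ∑ k : Fin 4, os z (shearV k) • shearE k := by
  rw [Fin.sum_univ_four]
  have h0 : os z (shearV 0) = z.1.re := by simp [os, shearV]
  have h1 : os z (shearV 1) = z.1.im := by simp [os, shearV]
  have h2 : os z (shearV 2) = z.2.re := by simp [os, shearV]
  have h3 : os z (shearV 3) = z.2.im := by simp [os, shearV]
  rw [h0, h1, h2, h3]
  ext <;> simp [shearE]

/-- Every cubic form is a finite sum of cubes `a * (os z v) ^ 3`.
Proof.  With the real basis `e = ![(1,0), (I,0), (0,1), (0,I)]` and the coordinates `x_k`,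
`T (z, z, z) = Σ_{u : Fin 3 → Fin 4} T (e ∘ u) x_{u 0} x_{u 1} x_{u 2}`; every real linear form is
`os · v` for some `v`;
`24 x y w = (x+y+w)³ - (x+y-w)³ - (x-y+w)³ - (-x+y+w)³`. -/
theorem cubic_eq_sum {χ : ℂ × ℂ → ℝ} (hχ : HG 3 χ) :
    ∃ l : List (ℝ × (ℂ × ℂ)), ∀ z, χ z = (l.map fun p => p.1 * os z p.2 ^ 3).sum := by
  obtain ⟨T, hT⟩ := hχ
  have h1 : χ = fun z => ∑ r : Fin 3 → Fin 4, (T fun i => shearE (r i)) *
      (os z (shearV (r 0)) * os z (shearV (r 1)) * os z (shearV (r 2))) := by
    funext z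
    have h2 : (fun _ : Fin 3 => z) =
        fun _ : Fin 3 => ∑ k : Fin 4, os z (shearV k) • shearE k := by
      funext i
      exact shear_expand z
    rw [hT, h2, ContinuousMultilinearMap.map_sum]
    refine Finset.sum_congr rfl fun r _ => ?_
    rw [ContinuousMultilinearMap.map_smul_univ, Fin.prod_univ_three, smul_eq_mul, mul_comm]
  have h3 : shearCub χ := by
    rw [h1]
    exact shearCub_sum _ _ fun r => shearCub_prod _ _ _ _
  exact h3

private theorem shear_os_diff (v : ℂ × ℂ) : Differentiable ℝ (fun z : ℂ × ℂ => os z v) := by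
  have h1 : (fun z : ℂ × ℂ => os z v) = fun z => Complex.imCLM
      (Complex.conjCLE (ContinuousLinearMap.fst ℝ ℂ ℂ z) * v.1 +
        Complex.conjCLE (ContinuousLinearMap.snd ℝ ℂ ℂ z) * v.2) := by
    funext z
    rfl
  rw [h1]
  fun_prop

/-- Proof: `cubic_eq_sum` and induction on the list with `shearGood_cube`, `ShearGood.add`,
`shearGood_zero`. -/
theorem exists_shear {χ : ℂ × ℂ → ℝ} (hχ : HG 3 χ) : ShearGood χ := by
  obtain ⟨l, hl⟩ := cubic_eq_sum hχ
  have key : ∀ l : List (ℝ × (ℂ × ℂ)),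
      Differentiable ℝ (fun z : ℂ × ℂ => (l.map fun p => p.1 * os z p.2 ^ 3).sum) ∧
      ShearGood (fun z => (l.map fun p => p.1 * os z p.2 ^ 3).sum) := by
    intro l
    induction l with
    | nil =>
      refine ⟨?_, ?_⟩
      · have h1 : (fun z : ℂ × ℂ => (([] : List (ℝ × (ℂ × ℂ))).map fun p => p.1 * os z p.2 ^ 3).sum) =
            fun _ => (0 : ℝ) := by
          funext z
          rfl
        rw [h1]
        exact differentiable_const _
      · exact shearGood_zero
    | cons p l ih =>
      have h1 : (fun z : ℂ × ℂ => ((p :: l).map fun p => p.1 * os z p.2 ^ 3).sum) =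
          fun z => p.1 * os z p.2 ^ 3 + (l.map fun p => p.1 * os z p.2 ^ 3).sum := by
        funext z
        rw [List.map_cons, List.sum_cons]
      have h2 : Differentiable ℝ (fun z : ℂ × ℂ => p.1 * os z p.2 ^ 3) :=
        ((shear_os_diff p.2).pow 3).const_mul p.1
      rw [h1]
      exact ⟨h2.add ih.1, ShearGood.add h2 ih.1 (shearGood_cube p.1 p.2) ih.2⟩
  have h1 : χ = fun z => (l.map fun p => p.1 * os z p.2 ^ 3).sum := funext hl
  rw [h1]
  exact (key l).2

end Pool.Agent.MP_5027f4_cont
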