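import Pool.Agent.Lib_MP_5027f4_cont.NFJa
import Pool.Agent.Lib_MP_5027f4_cont.Shear

/-!
PIECE [NFJ] (MP_5027f4_mp, T1).  Approximate invariants of a nonresonant symplectic map.
-/

open Set Filter Topology Metric Polynomial Asymptotics
open scoped ComplexConjugate ContDiff

namespace Pool.Agent.MP_5027f4_cont

theorem nfj_unit {μ : ℂ} (h : ‖μ‖ = 1) : conj μ * μ = 1 := by
  rw [mul_comm, Complex.mul_conj, Complex.normSq_eq_norm_sq, h]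
  norm_num

theorem nfj_os_Ld {μ₁ μ₂ : ℂ} (h₁ : ‖μ₁‖ = 1) (h₂ : ‖μ₂‖ = 1) (ξ η : ℂ × ℂ) :
    os (Ld μ₁ μ₂ ξ) (Ld μ₁ μ₂ η) = os ξ η := by
  unfold os
  rw [Ld_apply, Ld_apply]
  simp only [map_mul]
  congr 1
  linear_combination (conj ξ.1 * η.1) * nfj_unit h₁ + (conj ξ.2 * η.2) * nfj_unit h₂

theorem nfj_os_add (ξ η η' : ℂ × ℂ) : os ξ (η + η') = os ξ η + os ξ η' := by
  unfold os
  rw [← Complex.add_im]
  congr 1
  simp only [Prod.fst_add, Prod.snd_add]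
  ring

theorem nfj_os_sub (ξ η η' : ℂ × ℂ) : os ξ (η - η') = os ξ η - os ξ η' := by
  unfold os
  rw [← Complex.sub_im]
  congr 1
  simp only [Prod.fst_sub, Prod.snd_sub]
  ring

theorem nfj_os_nondeg {w : ℂ × ℂ} (h : ∀ η, os η w = 0) : w = 0 := by
  have h1 := h (-Complex.I * w.1, -Complex.I * w.2)
  unfold os at h1
  have e : conj (-Complex.I * w.1) * w.1 + conj (-Complex.I * w.2) * w.2 =
      ((Complex.normSq w.1 + Complex.normSq w.2 : ℝ) : ℂ) * Complex.I := by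
    rw [map_mul, map_mul, map_neg, Complex.conj_I]
    push_cast
    rw [← Complex.mul_conj, ← Complex.mul_conj]
    ring
  have h2 : (conj (-Complex.I * w.1) * w.1 + conj (-Complex.I * w.2) * w.2).im = 0 := h1
  rw [e, Complex.mul_I_im, Complex.ofReal_re] at h2
  have h3 := Complex.normSq_nonneg w.1
  have h4 := Complex.normSq_nonneg w.2
  have h5 : w.1 = 0 := Complex.normSq_eq_zero.1 (by linarith)
  have h6 : w.2 = 0 := Complex.normSq_eq_zero.1 (by linarith)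
  exact Prod.ext h5 h6

theorem nfj_inv {μ₁ μ₂ : ℂ} (h₁ : ‖μ₁‖ = 1) (h₂ : ‖μ₂‖ = 1) (z : ℂ × ℂ) :
    Ld (conj μ₁) (conj μ₂) (Ld μ₁ μ₂ z) = z := by
  rw [Ld_apply, Ld_apply]
  ext1
  · show conj μ₁ * (μ₁ * z.1) = z.1
    rw [← mul_assoc, nfj_unit h₁, one_mul]
  · show conj μ₂ * (μ₂ * z.2) = z.2
    rw [← mul_assoc, nfj_unit h₂, one_mul]

theorem nfj_inv' {μ₁ μ₂ : ℂ} (h₁ : ‖μ₁‖ = 1) (h₂ : ‖μ₂‖ = 1) (z : ℂ × ℂ) :
    Ld μ₁ μ₂ (Ld (conj μ₁) (conj μ₂) z) = z := by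
  rw [Ld_apply, Ld_apply]
  ext1
  · show μ₁ * (conj μ₁ * z.1) = z.1
    rw [← mul_assoc, mul_comm μ₁, nfj_unit h₁, one_mul]
  · show μ₂ * (conj μ₂ * z.2) = z.2
    rw [← mul_assoc, mul_comm μ₂, nfj_unit h₂, one_mul]

theorem nfj_pow {m n : ℕ} (h : n ≤ m) : (fun z : ℂ × ℂ => ‖z‖ ^ m) =O[𝓝 0] fun z => ‖z‖ ^ n := by
  refine IsBigO.of_bound 1 ?_
  filter_upwards [Metric.closedBall_mem_nhds (0 : ℂ × ℂ) one_pos] with z hz
  rw [mem_closedBall_zero_iff] at hz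
  rw [one_mul, norm_pow, norm_pow, norm_norm]
  exact pow_le_pow_of_le_one (norm_nonneg _) hz h

theorem nfj_HG {F : Type*} [NormedAddCommGroup F] [NormedSpace ℝ F] {d : ℕ}
    {f : ℂ × ℂ → F} (h : HG d f) : f =O[𝓝 0] fun z => ‖z‖ ^ d := by
  obtain ⟨C, -, hC⟩ := h.bound
  refine IsBigO.of_bound C (Eventually.of_forall fun z => ?_)
  rw [norm_pow, norm_norm]
  exact hC z

theorem nfj_HG_comp {F : Type*} [NormedAddCommGroup F] [NormedSpace ℝ F] {d : ℕ}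
    {f : ℂ × ℂ → F} (h : HG d f) {u : ℂ × ℂ → ℂ × ℂ} (hu : u =O[𝓝 0] fun z => ‖z‖) :
    (fun z => f (u z)) =O[𝓝 0] fun z => ‖z‖ ^ d := by
  obtain ⟨C, -, hC⟩ := h.bound
  have h1 : (fun z => f (u z)) =O[𝓝 0] fun z => ‖u z‖ ^ d := by
    refine IsBigO.of_bound C (Eventually.of_forall fun z => ?_)
    rw [norm_pow, norm_norm]
    exact hC _
  exact h1.trans (hu.norm_left.pow d)

/-- difference of the values of a quadratic map -/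
theorem nfj_two {F : Type*} [NormedAddCommGroup F] [NormedSpace ℝ F] {f : ℂ × ℂ → F}
    (h : HG 2 f) {u v : ℂ × ℂ → ℂ × ℂ} (hu : u =O[𝓝 0] fun z => ‖z‖)
    (hv : v =O[𝓝 0] fun z => ‖z‖) (huv : (fun z => u z - v z) =O[𝓝 0] fun z => ‖z‖ ^ 2) :
    (fun z => f (u z) - f (v z)) =O[𝓝 0] fun z => ‖z‖ ^ 3 := by
  obtain ⟨g, hg⟩ := h.two
  have key : ∀ a b : ℂ × ℂ → ℂ × ℂ, (fun z => g (a z) (b z)) =O[𝓝 0] fun z => ‖a z‖ * ‖b z‖ := by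
    intro a b
    refine IsBigO.of_bound ‖g‖ (Eventually.of_forall fun z => ?_)
    rw [norm_mul, norm_norm, norm_norm, ← mul_assoc]
    exact g.le_opNorm₂ _ _
  have e : (fun z => f (u z) - f (v z)) =
      fun z => g (u z) (u z - v z) + g (u z - v z) (v z) := by
    funext z
    rw [hg, hg, map_sub, map_sub, sub_apply]
    abel
  have e3 : (fun z : ℂ × ℂ => ‖z‖ ^ 3) = fun z => ‖z‖ * ‖z‖ ^ 2 := by
    funext z; ring
  have e3' : (fun z : ℂ × ℂ => ‖z‖ ^ 3) = fun z => ‖z‖ ^ 2 * ‖z‖ := by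
    funext z; ring
  rw [e]
  refine IsBigO.add ?_ ?_
  · rw [e3]
    exact (key _ _).trans (hu.norm_left.mul huv.norm_left)
  · rw [e3']
    exact (key _ _).trans (huv.norm_left.mul hv.norm_left)

/-- composition with a map which tends to `0` -/
theorem nfj_comp {F : Type*} [NormedAddCommGroup F] {f : ℂ × ℂ → F} {n : ℕ}
    (h : f =O[𝓝 0] fun z => ‖z‖ ^ n) {u : ℂ × ℂ → ℂ × ℂ} (hu : u =O[𝓝 0] fun z => ‖z‖) :
    (fun z => f (u z)) =O[𝓝 0] fun z => ‖z‖ ^ n := by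
  have ht : Tendsto u (𝓝 0) (𝓝 0) := by
    refine hu.trans_tendsto ?_
    have := (continuous_norm (E := ℂ × ℂ)).tendsto 0
    rwa [norm_zero] at this
  exact (h.comp_tendsto ht).trans (hu.norm_left.pow n)

theorem nfj_one {u : ℂ × ℂ → ℂ × ℂ} (h : (fun z => u z - z) =O[𝓝 0] fun z => ‖z‖ ^ 2) :
    u =O[𝓝 0] fun z => ‖z‖ := by
  have h1 : (fun z : ℂ × ℂ => ‖z‖ ^ 2) =O[𝓝 0] fun z => ‖z‖ := by
    have := nfj_pow (m := 2) (n := 1) (by norm_num)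
    simpa using this
  have h2 : (fun z : ℂ × ℂ => z) =O[𝓝 0] fun z => ‖z‖ := (isBigO_refl _ _).norm_right
  have e : u = fun z => (u z - z) + z := by funext z; abel
  rw [e]
  exact (h.trans h1).add h2

theorem nfj_fderiv_id {u : ℂ × ℂ → ℂ × ℂ} (h0 : u 0 = 0)
    (h : (fun z => u z - z) =O[𝓝 0] fun z => ‖z‖ ^ 2) :
    HasFDerivAt u (ContinuousLinearMap.id ℝ (ℂ × ℂ)) 0 := by
  rw [hasFDerivAt_iff_isLittleO_nhds_zero]
  have e : (fun h : ℂ × ℂ => u (0 + h) - u 0 - (ContinuousLinearMap.id ℝ (ℂ × ℂ)) h) =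
      fun z => u z - z := by
    funext z
    rw [zero_add, h0, sub_zero]
    rfl
  rw [e]
  refine h.trans_isLittleO ?_
  have h2 : (fun z : ℂ × ℂ => ‖z‖ ^ 2) =o[𝓝 0] fun z => z := by
    have h3 : (fun z : ℂ × ℂ => ‖z‖) =o[𝓝 0] fun _ => (1 : ℝ) := by
      rw [isLittleO_one_iff]
      have := (continuous_norm (E := ℂ × ℂ)).tendsto 0
      rwa [norm_zero] at this
    have h4 := h3.mul_isBigO (isBigO_refl (fun z : ℂ × ℂ => ‖z‖) (𝓝 0))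
    have h5 : (fun z : ℂ × ℂ => ‖z‖ ^ 2) =o[𝓝 0] fun z => ‖z‖ := by
      refine (h4.congr (fun z => ?_) (fun z => ?_))
      · ring
      · ring
    exact h5.of_norm_right
  exact h2

theorem nfj_normSq {u : ℂ × ℂ → ℂ} {v : ℂ × ℂ → ℂ} (hu : u =O[𝓝 0] fun z => ‖z‖)
    (hv : v =O[𝓝 0] fun z => ‖z‖) (huv : (fun z => u z - v z) =O[𝓝 0] fun z => ‖z‖ ^ 2) :
    (fun z => Complex.normSq (u z) - Complex.normSq (v z)) =O[𝓝 0] fun z => ‖z‖ ^ 3 := by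
  have e : (fun z => Complex.normSq (u z) - Complex.normSq (v z)) =
      fun z => (‖u z‖ - ‖v z‖) * (‖u z‖ + ‖v z‖) := by
    funext z
    rw [Complex.normSq_eq_norm_sq, Complex.normSq_eq_norm_sq]
    ring
  have e3 : (fun z : ℂ × ℂ => ‖z‖ ^ 3) = fun z => ‖z‖ ^ 2 * ‖z‖ := by
    funext z; ring
  rw [e, e3]
  refine IsBigO.mul ?_ (hu.norm_left.add hv.norm_left)
  refine (IsBigO.of_bound 1 (Eventually.of_forall fun z => ?_)).trans huv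
  rw [one_mul, Real.norm_eq_abs]
  exact abs_norm_sub_norm_le _ _

/-- General case.

Proof.  `P z = Λ z + Q₂ z + O(‖z‖³)` (`taylor3`), `Q = Λ⁻¹ Q₂` is Hamiltonian: with
`F z = os z (Q z) / 3`, `DF(z) η = os η (Q z)` (`ham2`, `ham_potential`).  Let `χ ∘ Λ - χ = F`
(`coh_odd`, `d = 3`) and `ψ, ψ'` from `exists_shear`, with quadratic part `Y`,
`os η (Y z) = Dχ(z) η`.  `P̃ = ψ' ∘ P ∘ ψ` is analytic, symplectic near `0`, `DP̃(0) = Λ`, and its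
quadratic part is `Q₂ + Λ Y - Y ∘ Λ`, which vanishes:
`os (Λ η) (Y (Λ z)) = Dχ(Λ z) (Λ η) = D(χ ∘ Λ)(z) η = D(χ + F)(z) η = os η (Y z + Q z)
= os (Λ η) (Λ (Y z) + Q₂ z)`.  `exists_J_of_no_quad` for `P̃` gives `J̃ᵢ`; put
`Jᵢ = J̃ᵢ ∘ ψ'`: `J₁ (P z) - J₁ z = J̃₁ (P̃ (ψ' z)) - J̃₁ (ψ' z)` and `ψ' z = z + O(‖z‖²)`. -/
theorem exists_J {P : ℂ × ℂ → ℂ × ℂ} {μ₁ μ₂ : ℂ} (hP : AnalyticAt ℝ P 0) (hP0 : P 0 = 0)
    (hA : fderiv ℝ P 0 = Ld μ₁ μ₂) (h₁ : ‖μ₁‖ = 1) (h₂ : ‖μ₂‖ = 1)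
    (hn : NonRes μ₁ μ₂)
    (hs : ∀ᶠ z in 𝓝 0, ∀ ξ η, os (fderiv ℝ P z ξ) (fderiv ℝ P z η) = os ξ η) :
    ∃ J₁ J₂ : ℂ × ℂ → ℝ, ∃ C r : ℝ, 0 < r ∧ ∀ z, ‖z‖ < r →
      |J₁ z - Complex.normSq z.1| ≤ C * ‖z‖ ^ 3 ∧ |J₂ z - Complex.normSq z.2| ≤ C * ‖z‖ ^ 3 ∧
      |J₁ (P z) - J₁ z| ≤ C * ‖z‖ ^ 5 ∧ |J₂ (P z) - J₂ z| ≤ C * ‖z‖ ^ 5 := by
  obtain ⟨Q₂, Q₃, hQ₂, hQ₃, hPO, hPD⟩ := taylor3 hP
  have hPD' : (fun z => fderiv ℝ P z - (Ld μ₁ μ₂ + fderiv ℝ Q₂ z)) =O[𝓝 0] fun z => ‖z‖ ^ 2 := by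
    obtain ⟨C, -, hC⟩ := hQ₃.fderiv_bound
    have h3 : (fun z => fderiv ℝ Q₃ z) =O[𝓝 0] fun z => ‖z‖ ^ 2 := by
      refine IsBigO.of_bound C (Eventually.of_forall fun z => ?_)
      rw [norm_pow, norm_norm]
      exact hC z
    refine ((hPD.trans (nfj_pow (by norm_num : 2 ≤ 3))).add h3).congr_left fun z => ?_
    rw [hA]
    abel
  have hham := ham2 hQ₂ hPD' (nfj_os_Ld h₁ h₂) hs
  -- the quadratic Hamiltonian part
  set Q : ℂ × ℂ → ℂ × ℂ := fun z => Ld (conj μ₁) (conj μ₂) (Q₂ z) with hQdef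
  have hQ : HG 2 Q := hQ₂.comp_left _
  have hos : ∀ a b, os (Ld (conj μ₁) (conj μ₂) a) b = os a (Ld μ₁ μ₂ b) := by
    intro a b
    rw [← nfj_os_Ld h₁ h₂ (Ld (conj μ₁) (conj μ₂) a) b, nfj_inv' h₁ h₂]
  have hos' : ∀ a b, os a (Ld (conj μ₁) (conj μ₂) b) = os (Ld μ₁ μ₂ a) b := by
    intro a b
    rw [← nfj_os_Ld h₁ h₂ a (Ld (conj μ₁) (conj μ₂) b), nfj_inv' h₁ h₂]
  have hfQ : ∀ z ξ, fderiv ℝ Q z ξ = Ld (conj μ₁) (conj μ₂) (fderiv ℝ Q₂ z ξ) := by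
    intro z ξ
    have h1 : HasFDerivAt Q ((Ld (conj μ₁) (conj μ₂)).comp (fderiv ℝ Q₂ z)) z :=
      (Ld (conj μ₁) (conj μ₂)).hasFDerivAt.comp z (hQ₂.analyticAt z).differentiableAt.hasFDerivAt
    rw [h1.fderiv]
    rfl
  have hpot := ham_potential hQ (fun z ξ η => by
    rw [hfQ, hfQ, hos, hos']
    exact hham z ξ η)
  set F : ℂ × ℂ → ℝ := fun z => (1 / (((2 : ℕ) : ℝ) + 1)) * os z (Q z) with hFdef
  have hF : HG 3 F := by
    have := (hQ.os_self).const_smul (1 / (((2 : ℕ) : ℝ) + 1))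
    simpa only [smul_eq_mul] using this
  obtain ⟨χ, hχ, hχe⟩ := coh_odd h₁ h₂ hn (d := 3) (Or.inr rfl) hF
  obtain ⟨ψ, ψ', hψa, hψa', hl, hr, hψs, Y, hY, hYe, hψO⟩ := exists_shear hχ
  have hY0 : Y 0 = 0 := by
    have := hY.smul_arg 0 0
    rw [zero_smul] at this
    simpa using this
  have hψ0 : ψ 0 = 0 := by
    have h1 := hψO.bound
    obtain ⟨c, hc⟩ := h1
    have h2 := hc.self_of_nhds
    rw [norm_zero, hY0] at h2
    simpa using h2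
  have hψ0' : ψ' 0 = 0 := by
    have := hl 0
    rwa [hψ0] at this
  have hY2 := nfj_HG hY
  have hψ2 : (fun z => ψ z - z) =O[𝓝 0] fun z => ‖z‖ ^ 2 :=
    ((hψO.trans (nfj_pow (by norm_num : 2 ≤ 3))).add hY2).congr_left fun z => by abel
  have hψ1 : ψ =O[𝓝 0] fun z => ‖z‖ := nfj_one hψ2
  have hψd := nfj_fderiv_id hψ0 hψ2
  have hψd' : HasFDerivAt ψ' (ContinuousLinearMap.id ℝ (ℂ × ℂ)) 0 := by
    have h1 : HasFDerivAt ψ' (fderiv ℝ ψ' 0) 0 :=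
      (hψa'.differentiable (by simp)).differentiableAt.hasFDerivAt
    have h2 : HasFDerivAt (fun z => ψ' (ψ z)) ((fderiv ℝ ψ' 0).comp
        (ContinuousLinearMap.id ℝ (ℂ × ℂ))) 0 := by
      have h1' : HasFDerivAt ψ' (fderiv ℝ ψ' 0) (ψ 0) := by rw [hψ0]; exact h1
      exact h1'.comp 0 hψd
    have h3 : HasFDerivAt (fun z => ψ' (ψ z)) (ContinuousLinearMap.id ℝ (ℂ × ℂ)) 0 := by
      have : (fun z => ψ' (ψ z)) = fun z => z := funext hl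
      rw [this]
      exact hasFDerivAt_id 0
    have h4 := h2.unique h3
    rw [ContinuousLinearMap.comp_id] at h4
    rwa [h4] at h1
  have hψ1' : ψ' =O[𝓝 0] fun z => ‖z‖ := by
    have h1 := hψd'.isBigO_sub
    refine (h1.congr_left fun z => ?_).trans ?_
    · rw [hψ0', sub_zero]
    · refine IsBigO.of_bound 1 (Eventually.of_forall fun z => ?_)
      rw [norm_norm, sub_zero, one_mul]
  -- `ψ' w = w - Y w + O(3)`
  have hinvO : (fun w => ψ' w - w + Y w) =O[𝓝 0] fun w => ‖w‖ ^ 3 := by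
    have h1 := nfj_comp hψO hψ1'
    have h2 : (fun w => w - ψ' w - Y (ψ' w)) =O[𝓝 0] fun w => ‖w‖ ^ 3 :=
      h1.congr_left fun w => by rw [hr]
    have h3 : (fun w => ψ' w - w) =O[𝓝 0] fun w => ‖w‖ ^ 2 := by
      have h4 := nfj_HG_comp hY hψ1'
      refine ((h2.trans (nfj_pow (by norm_num : 2 ≤ 3))).add h4).neg_left.congr_left fun w => ?_
      abel
    have hid : (fun w : ℂ × ℂ => w) =O[𝓝 0] fun w => ‖w‖ := (isBigO_refl _ _).norm_right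
    have h5 := nfj_two hY hψ1' hid h3
    refine (h2.add h5).neg_left.congr_left fun w => ?_
    abel
  have hψ2' : (fun w => ψ' w - w) =O[𝓝 0] fun w => ‖w‖ ^ 2 :=
    ((hinvO.trans (nfj_pow (by norm_num : 2 ≤ 3))).sub hY2).congr_left fun w => by abel
  -- the conjugated map
  set Pt : ℂ × ℂ → ℂ × ℂ := fun z => ψ' (P (ψ z)) with hPt
  have hPψa : AnalyticAt ℝ (fun z => P (ψ z)) 0 := by
    have h1 : AnalyticAt ℝ P (ψ 0) := by rw [hψ0]; exact hP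
    exact h1.comp (hψa.contDiffAt.analyticAt)
  have hPta : AnalyticAt ℝ Pt 0 := by
    have h1 : AnalyticAt ℝ ψ' (P (ψ 0)) := hψa'.contDiffAt.analyticAt
    exact AnalyticAt.comp (f := fun z => P (ψ z)) (g := ψ') h1 hPψa
  have hPd : HasFDerivAt P (Ld μ₁ μ₂) 0 := by
    rw [← hA]
    exact hP.differentiableAt.hasFDerivAt
  have hPψd : HasFDerivAt (fun z => P (ψ z)) (Ld μ₁ μ₂) 0 := by
    have h1 : HasFDerivAt P (Ld μ₁ μ₂) (ψ 0) := by rw [hψ0]; exact hPd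
    have h2 := h1.comp 0 hψd
    rwa [ContinuousLinearMap.comp_id] at h2
  have hPtA : fderiv ℝ Pt 0 = Ld μ₁ μ₂ := by
    have h1 : HasFDerivAt ψ' (ContinuousLinearMap.id ℝ (ℂ × ℂ)) (P (ψ 0)) := by
      rw [hψ0, hP0]; exact hψd'
    have h2 : HasFDerivAt Pt ((ContinuousLinearMap.id ℝ (ℂ × ℂ)).comp (Ld μ₁ μ₂)) 0 :=
      HasFDerivAt.comp (f := fun z => P (ψ z)) 0 h1 hPψd
    rw [ContinuousLinearMap.id_comp] at h2
    exact h2.fderiv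
  -- `ψ'` is symplectic
  have hψs' : ∀ w ξ η, os (fderiv ℝ ψ' w ξ) (fderiv ℝ ψ' w η) = os ξ η := by
    intro w ξ η
    have h1 : HasFDerivAt (fun w => ψ (ψ' w)) ((fderiv ℝ ψ (ψ' w)).comp (fderiv ℝ ψ' w)) w :=
      ((hψa.differentiable (by simp)).differentiableAt.hasFDerivAt).comp w
        ((hψa'.differentiable (by simp)).differentiableAt.hasFDerivAt)
    have h2 : HasFDerivAt (fun w => ψ (ψ' w)) (ContinuousLinearMap.id ℝ (ℂ × ℂ)) w := by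
      have : (fun w => ψ (ψ' w)) = fun w => w := funext hr
      rw [this]
      exact hasFDerivAt_id w
    have h3 := h1.unique h2
    have h4 : ∀ ζ, fderiv ℝ ψ (ψ' w) (fderiv ℝ ψ' w ζ) = ζ := by
      intro ζ
      have := congrArg (fun L : (ℂ × ℂ) →L[ℝ] (ℂ × ℂ) => L ζ) h3
      exact this
    rw [← hψs (ψ' w), h4, h4]
  have hcont : Tendsto ψ (𝓝 0) (𝓝 0) := by
    have := (hψa.continuous).tendsto 0
    rwa [hψ0] at this
  have hPts : ∀ᶠ z in 𝓝 0, ∀ ξ η, os (fderiv ℝ Pt z ξ) (fderiv ℝ Pt z η) = os ξ η := by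
    have h1 : ∀ᶠ z in 𝓝 0, ∀ ξ η, os (fderiv ℝ P (ψ z) ξ) (fderiv ℝ P (ψ z) η) = os ξ η :=
      hcont.eventually hs
    have h2 : ∀ᶠ z in 𝓝 0, DifferentiableAt ℝ P (ψ z) :=
      hcont.eventually (hP.eventually_analyticAt.mono fun z hz => hz.differentiableAt)
    filter_upwards [h1, h2] with z hz1 hz2 ξ η
    have h3 : HasFDerivAt (fun z => P (ψ z)) ((fderiv ℝ P (ψ z)).comp (fderiv ℝ ψ z)) z :=
      hz2.hasFDerivAt.comp z (hψa.differentiable (by simp)).differentiableAt.hasFDerivAt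
    have h4 : HasFDerivAt Pt ((fderiv ℝ ψ' (P (ψ z))).comp
        ((fderiv ℝ P (ψ z)).comp (fderiv ℝ ψ z))) z :=
      HasFDerivAt.comp (f := fun z => P (ψ z)) z
        ((hψa'.differentiable (by simp)).differentiableAt.hasFDerivAt) h3
    rw [h4.fderiv]
    show os (fderiv ℝ ψ' (P (ψ z)) (fderiv ℝ P (ψ z) (fderiv ℝ ψ z ξ)))
      (fderiv ℝ ψ' (P (ψ z)) (fderiv ℝ P (ψ z) (fderiv ℝ ψ z η))) = os ξ η
    rw [hψs', hz1, hψs]
  -- the algebraic identity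
  have hid2 : ∀ z, Y (Ld μ₁ μ₂ z) - Ld μ₁ μ₂ (Y z) - Q₂ z = 0 := by
    intro z
    apply nfj_os_nondeg
    intro η'
    obtain ⟨η, rfl⟩ : ∃ η, η' = Ld μ₁ μ₂ η := ⟨_, (nfj_inv' h₁ h₂ η').symm⟩
    have h1 : os (Ld μ₁ μ₂ η) (Y (Ld μ₁ μ₂ z)) = fderiv ℝ χ (Ld μ₁ μ₂ z) (Ld μ₁ μ₂ η) := hYe _ _
    have h2 : HasFDerivAt (fun z => χ (Ld μ₁ μ₂ z))
        ((fderiv ℝ χ (Ld μ₁ μ₂ z)).comp (Ld μ₁ μ₂)) z :=
      ((hχ.analyticAt _).differentiableAt.hasFDerivAt).comp z (Ld μ₁ μ₂).hasFDerivAt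
    have h3 : HasFDerivAt (fun z => χ z + F z) (fderiv ℝ χ z + fderiv ℝ F z) z :=
      ((hχ.analyticAt z).differentiableAt.hasFDerivAt).add
        ((hF.analyticAt z).differentiableAt.hasFDerivAt)
    have h4 : (fun z => χ (Ld μ₁ μ₂ z)) = fun z => χ z + F z := by
      funext w
      have := hχe w
      linarith
    rw [h4] at h2
    have h5 := congrArg (fun L : (ℂ × ℂ) →L[ℝ] ℝ => L η) (h2.unique h3)
    have h6 : fderiv ℝ χ (Ld μ₁ μ₂ z) (Ld μ₁ μ₂ η) = fderiv ℝ χ z η + fderiv ℝ F z η := h5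
    rw [nfj_os_sub, nfj_os_sub, h1, h6, nfj_os_Ld h₁ h₂, hYe, hpot z η]
    have h7 : os η (Q z) = os (Ld μ₁ μ₂ η) (Q₂ z) := hos' _ _
    rw [h7]
    ring
  -- no quadratic terms
  have hPψO : (fun z => P (ψ z) - Ld μ₁ μ₂ z - Ld μ₁ μ₂ (Y z) - Q₂ z) =O[𝓝 0]
      fun z => ‖z‖ ^ 3 := by
    have h1 : (fun z => P z - Ld μ₁ μ₂ z - Q₂ z) =O[𝓝 0] fun z => ‖z‖ ^ 3 := by
      refine ((hPO.trans (nfj_pow (by norm_num : 3 ≤ 4))).add (nfj_HG hQ₃)).congr_left fun z => ?_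
      rw [hP0, hA]
      abel
    have h2 := nfj_comp h1 hψ1
    have hid : (fun w : ℂ × ℂ => w) =O[𝓝 0] fun w => ‖w‖ := (isBigO_refl _ _).norm_right
    have h3 := nfj_two hQ₂ hψ1 hid hψ2
    have h4 : (fun z => Ld μ₁ μ₂ (ψ z - z - Y z)) =O[𝓝 0] fun z => ‖z‖ ^ 3 :=
      ((Ld μ₁ μ₂).isBigO_comp _ _).trans hψO
    refine ((h2.add h3).add h4).congr_left fun z => ?_
    rw [map_sub, map_sub]
    abel
  have hLd : (fun z => Ld μ₁ μ₂ z) =O[𝓝 0] fun z : ℂ × ℂ => ‖z‖ :=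
    ((Ld μ₁ μ₂).isBigO_id _).norm_right
  have hPψ2 : (fun z => P (ψ z) - Ld μ₁ μ₂ z) =O[𝓝 0] fun z => ‖z‖ ^ 2 := by
    have h1 : (fun z => Ld μ₁ μ₂ (Y z)) =O[𝓝 0] fun z => ‖z‖ ^ 2 :=
      ((Ld μ₁ μ₂).isBigO_comp _ _).trans hY2
    refine (((hPψO.trans (nfj_pow (by norm_num : 2 ≤ 3))).add h1).add (nfj_HG hQ₂)).congr_left
      fun z => ?_
    abel
  have hPψ1 : (fun z => P (ψ z)) =O[𝓝 0] fun z => ‖z‖ := by
    have h1 := hPψd.isBigO_sub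
    refine (h1.congr_left fun z => ?_).trans ?_
    · rw [hψ0, hP0, sub_zero]
    · refine IsBigO.of_bound 1 (Eventually.of_forall fun z => ?_)
      rw [norm_norm, sub_zero, one_mul]
  have hq : (fun z => Pt z - Ld μ₁ μ₂ z) =O[𝓝 0] fun z => ‖z‖ ^ 3 := by
    have h1 := nfj_comp hinvO hPψ1
    have h2 := nfj_two hY hPψ1 hLd hPψ2
    refine ((h1.sub h2).add hPψO).congr_left fun z => ?_
    have h3 := hid2 z
    have h4 : Y (Ld μ₁ μ₂ z) = Ld μ₁ μ₂ (Y z) + Q₂ z := by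
      rw [sub_sub, sub_eq_zero] at h3
      exact h3
    show ψ' (P (ψ z)) - P (ψ z) + Y (P (ψ z)) - (Y (P (ψ z)) - Y (Ld μ₁ μ₂ z)) +
      (P (ψ z) - Ld μ₁ μ₂ z - Ld μ₁ μ₂ (Y z) - Q₂ z) = ψ' (P (ψ z)) - Ld μ₁ μ₂ z
    rw [h4]
    abel
  obtain ⟨J₁, J₂, C, r, hr0, hJ⟩ := exists_J_of_no_quad hPta hPtA h₁ h₂ hn hPts hq
  -- constants
  have hid : (fun w : ℂ × ℂ => w) =O[𝓝 0] fun w => ‖w‖ := (isBigO_refl _ _).norm_right
  have hf1 : (fun w : ℂ × ℂ => w.1) =O[𝓝 0] fun w => ‖w‖ :=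
    IsBigO.of_bound 1 (Eventually.of_forall fun w => by
      rw [norm_norm, one_mul]; exact norm_fst_le w)
  have hf2 : (fun w : ℂ × ℂ => w.2) =O[𝓝 0] fun w => ‖w‖ :=
    IsBigO.of_bound 1 (Eventually.of_forall fun w => by
      rw [norm_norm, one_mul]; exact norm_snd_le w)
  have hn1 := nfj_normSq (u := fun w => (ψ' w).1) (v := fun w => w.1)
    ((IsBigO.of_bound 1 (Eventually.of_forall fun w => by
      rw [one_mul]; exact norm_fst_le _)).trans hψ1') hf1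
    ((IsBigO.of_bound 1 (Eventually.of_forall fun w => by
      rw [one_mul]; exact norm_fst_le (ψ' w - w))).trans hψ2')
  have hn2 := nfj_normSq (u := fun w => (ψ' w).2) (v := fun w => w.2)
    ((IsBigO.of_bound 1 (Eventually.of_forall fun w => by
      rw [one_mul]; exact norm_snd_le _)).trans hψ1') hf2
    ((IsBigO.of_bound 1 (Eventually.of_forall fun w => by
      rw [one_mul]; exact norm_snd_le (ψ' w - w))).trans hψ2')
  obtain ⟨K, hK⟩ := hψ1'.bound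
  obtain ⟨K₁, hK₁⟩ := hn1.bound
  obtain ⟨K₂, hK₂⟩ := hn2.bound
  have hall : ∀ᶠ w in 𝓝 (0 : ℂ × ℂ), ‖ψ' w‖ < r := by
    have h1 : Tendsto ψ' (𝓝 0) (𝓝 0) := by
      have := (hψa'.continuous).tendsto 0
      rwa [hψ0'] at this
    have h2 := h1.eventually (Metric.ball_mem_nhds (0 : ℂ × ℂ) hr0)
    filter_upwards [h2] with w hw
    have hw' : dist (ψ' w) 0 < r := hw
    rwa [dist_zero_right] at hw'
  obtain ⟨r', hr', hball⟩ := Metric.eventually_nhds_iff_ball.1 ((hK.and hK₁).and (hK₂.and hall))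
  refine ⟨fun z => J₁ (ψ' z), fun z => J₂ (ψ' z),
    |C| * |K| ^ 3 + |C| * |K| ^ 5 + |K₁| + |K₂|, r', hr', fun z hz => ?_⟩
  obtain ⟨⟨k1, k2⟩, k3, k4⟩ := hball z (by rwa [mem_ball_zero_iff])
  obtain ⟨j1, j2, j3, j4⟩ := hJ (ψ' z) k4
  have hzn := norm_nonneg z
  have hψn := norm_nonneg (ψ' z)
  rw [norm_norm] at k1
  have hbd : ‖ψ' z‖ ≤ |K| * ‖z‖ := k1.trans (mul_le_mul_of_nonneg_right (le_abs_self K) hzn)
  have hb : ∀ n : ℕ, C * ‖ψ' z‖ ^ n ≤ |C| * |K| ^ n * ‖z‖ ^ n := by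
    intro n
    have e1 : C * ‖ψ' z‖ ^ n ≤ |C| * ‖ψ' z‖ ^ n :=
      mul_le_mul_of_nonneg_right (le_abs_self C) (pow_nonneg hψn n)
    have e2 : ‖ψ' z‖ ^ n ≤ (|K| * ‖z‖) ^ n := pow_le_pow_left₀ hψn hbd n
    have e3 := mul_le_mul_of_nonneg_left e2 (abs_nonneg C)
    rw [mul_pow] at e3
    linarith
  have k2' : |Complex.normSq (ψ' z).1 - Complex.normSq z.1| ≤ |K₁| * ‖z‖ ^ 3 := by
    rw [Real.norm_eq_abs, norm_pow, norm_norm] at k2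
    exact k2.trans (mul_le_mul_of_nonneg_right (le_abs_self _) (pow_nonneg hzn 3))
  have k3' : |Complex.normSq (ψ' z).2 - Complex.normSq z.2| ≤ |K₂| * ‖z‖ ^ 3 := by
    rw [Real.norm_eq_abs, norm_pow, norm_norm] at k3
    exact k3.trans (mul_le_mul_of_nonneg_right (le_abs_self _) (pow_nonneg hzn 3))
  have hz3 := pow_nonneg hzn 3
  have hz5 := pow_nonneg hzn 5
  have p1 : 0 ≤ |C| * |K| ^ 3 := by positivity
  have p2 : 0 ≤ |C| * |K| ^ 5 := by positivity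
  have hPP : Pt (ψ' z) = ψ' (P z) := by
    show ψ' (P (ψ (ψ' z))) = ψ' (P z)
    rw [hr]
  rw [hPP] at j3 j4
  have m3 : ∀ x y : ℝ, 0 ≤ x → 0 ≤ y → 0 ≤ x * y := fun x y => mul_nonneg
  refine ⟨?_, ?_, ?_, ?_⟩
  · have t := abs_sub_le (J₁ (ψ' z)) (Complex.normSq (ψ' z).1) (Complex.normSq z.1)
    have := hb 3
    nlinarith [m3 _ _ p2 hz3, m3 _ _ (abs_nonneg K₂) hz3]
  · have t := abs_sub_le (J₂ (ψ' z)) (Complex.normSq (ψ' z).2) (Complex.normSq z.2)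
    have := hb 3
    nlinarith [m3 _ _ p2 hz3, m3 _ _ (abs_nonneg K₁) hz3]
  · have := hb 5
    nlinarith [m3 _ _ p1 hz5, m3 _ _ (abs_nonneg K₁) hz5, m3 _ _ (abs_nonneg K₂) hz5]
  · have := hb 5
    nlinarith [m3 _ _ p1 hz5, m3 _ _ (abs_nonneg K₁) hz5, m3 _ _ (abs_nonneg K₂) hz5]

end Pool.Agent.MP_5027f4_cont
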