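import Pool.Agent.Lib_MP_5027f4_cont.LinNF
import Pool.Agent.Lib_MP_5027f4_cont.NFJ
import Pool.Agent.Lib_MP_5027f4_cont.GFun
import Pool.Agent.Lib_MP_5027f4_cont.Escape

/-!
PIECE [Drift] (MP_5027f4_mp, T1).  Bounded drift near a nonresonant elliptic fixed point.
-/

open Set Filter Topology Metric Polynomial Asymptotics
open scoped ComplexConjugate ContDiff

namespace Pool.Agent.MP_5027f4_cont

/-- derivative of the conjugated map -/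
theorem Drift_hasFDerivAt {P : ℂ × ℂ → ℂ × ℂ} {z₀ : ℂ × ℂ} (L : (ℂ × ℂ) ≃L[ℝ] (ℂ × ℂ)) {ζ : ℂ × ℂ}
    (hP : AnalyticAt ℝ P (z₀ + L.symm ζ)) :
    HasFDerivAt (fun ζ => L (P (z₀ + L.symm ζ) - z₀))
      ((L : (ℂ × ℂ) →L[ℝ] (ℂ × ℂ)).comp ((fderiv ℝ P (z₀ + L.symm ζ)).comp
        (L.symm : (ℂ × ℂ) →L[ℝ] (ℂ × ℂ)))) ζ := by
  have h1 : HasFDerivAt (fun ζ : ℂ × ℂ => z₀ + L.symm ζ)
      (L.symm : (ℂ × ℂ) →L[ℝ] (ℂ × ℂ)) ζ := by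
    exact (L.symm.hasFDerivAt).const_add z₀
  have h2 : HasFDerivAt P (fderiv ℝ P (z₀ + L.symm ζ)) (z₀ + L.symm ζ) :=
    hP.differentiableAt.hasFDerivAt
  have h3 : HasFDerivAt (fun ζ : ℂ × ℂ => P (z₀ + L.symm ζ) - z₀)
      ((fderiv ℝ P (z₀ + L.symm ζ)).comp (L.symm : (ℂ × ℂ) →L[ℝ] (ℂ × ℂ))) ζ :=
    (h2.comp ζ h1).sub_const z₀
  exact (L.hasFDerivAt).comp ζ h3

/-- first order Taylor expansion -/
theorem Drift_taylor {f : ℂ × ℂ → ℂ × ℂ} (hf : AnalyticAt ℝ f 0) :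
    (fun z => f z - (f 0 + fderiv ℝ f 0 z)) =O[𝓝 0] (fun z => ‖z‖ ^ 2) := by
  obtain ⟨p, hp⟩ := hf
  have h1 := hp.isBigO_sub_partialSum_pow 2
  refine h1.congr (fun y => ?_) (fun y => rfl)
  have h2 : p.partialSum 2 y = f 0 + fderiv ℝ f 0 y := by
    rw [FormalMultilinearSeries.partialSum, Finset.sum_range_succ, Finset.sum_range_succ,
      Finset.sum_range_zero, zero_add, hp.fderiv_eq]
    congr 1
    exact hp.coeff_zero _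
  rw [h2, zero_add]

/-- the quadratic correction -/
theorem Drift_quad {f g : ℂ × ℂ → ℂ × ℂ} (B : (ℂ × ℂ) →L[ℝ] (ℂ × ℂ) →L[ℝ] ℝ)
    (hf : f =O[𝓝 0] (fun z => ‖z‖)) (hg : g =O[𝓝 0] (fun z => ‖z‖))
    (hfg : (fun z => f z - g z) =O[𝓝 0] (fun z => ‖z‖ ^ 2)) :
    (fun z => B (f z) (f z) - B (g z) (g z)) =O[𝓝 0] (fun z : ℂ × ℂ => ‖z‖ ^ 3) := by
  have hB : ∀ u v : ℂ × ℂ → ℂ × ℂ, (fun z => B (u z) (v z)) =O[𝓝 0]
      (fun z => ‖u z‖ * ‖v z‖) := by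
    intro u v
    refine IsBigO.of_bound ‖B‖ (Eventually.of_forall fun z => ?_)
    have := B.le_opNorm₂ (u z) (v z)
    rw [norm_mul, norm_norm, norm_norm, ← mul_assoc]
    exact this
  have h1 : (fun z => B (f z - g z) (f z)) =O[𝓝 0] (fun z : ℂ × ℂ => ‖z‖ ^ 3) := by
    refine (hB (fun z => f z - g z) f).trans ?_
    have := (hfg.norm_left).mul hf.norm_left
    refine this.congr_right (fun z => ?_)
    ring
  have h2 : (fun z => B (g z) (f z - g z)) =O[𝓝 0] (fun z : ℂ × ℂ => ‖z‖ ^ 3) := by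
    refine (hB g (fun z => f z - g z)).trans ?_
    have := (hg.norm_left).mul hfg.norm_left
    refine this.congr_right (fun z => ?_)
    ring
  refine (h1.add h2).congr_left (fun z => ?_)
  rw [map_sub, ContinuousLinearMap.sub_apply, map_sub]
  ring

/-- Proof.  `L, μ₁, μ₂` from `exists_linNF` for `A = fderiv ℝ P z₀` (symplectic:
`Eventually.self_of_nhds`).  `P̂ ζ = L (P (z₀ + L⁻¹ ζ) - z₀)`, `â ζ = a (z₀ + L⁻¹ ζ)`: analytic at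
`0`, `P̂ 0 = 0`, `DP̂(0) = Ld μ₁ μ₂`, symplectic near `0`.  `exists_J`, `exists_G`
(`Ĝ ζ = ĝ₁ ζ + ĝ₂ ζ ζ`; `Ĝ (P̂ ζ) - Ĝ ζ = ĝ₁ (P̂ ζ) - ĝ₁ ζ + ĝ₂ (Λζ) (Λζ) - ĝ₂ ζ ζ + O(‖ζ‖³)`), and
`escape` (choose `r`, `C` common; the sequences `ζ j = L (z j - z₀)` correspond; `‖L⁻¹‖`) give
`β₁ = β₂ = 0`.  Then `g₁ = ĝ₁ ∘ L`, `g₂ ξ η = ĝ₂ (L ξ) (L η)`; `Λ L ζ = L A ζ`; transport the
`O(‖ζ‖³)` along `ζ ↦ L ζ`. -/
theorem drift {P : ℂ × ℂ → ℂ × ℂ} {a : ℂ × ℂ → ℝ} {z₀ : ℂ × ℂ} (hP : AnalyticAt ℝ P z₀)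
    (ha : AnalyticAt ℝ a z₀) (hP0 : P z₀ = z₀) (ha0 : a z₀ = 0)
    (hs : ∀ᶠ z in 𝓝 z₀, ∀ ξ η, os (fderiv ℝ P z ξ) (fderiv ℝ P z η) = os ξ η)
    (hell : Ell4 (cp (fderiv ℝ P z₀)))
    (hbd : ∃ r > 0, ∃ δ : ℝ, ∀ (n : ℕ) (z : ℕ → ℂ × ℂ), (∀ j ≤ n, ‖z j - z₀‖ < r) →
      (∀ j < n, z (j + 1) = P (z j)) → |∑ j ∈ Finset.range n, a (z j)| ≤ δ) :
    ∃ (g₁ : (ℂ × ℂ) →L[ℝ] ℝ) (g₂ : (ℂ × ℂ) →L[ℝ] (ℂ × ℂ) →L[ℝ] ℝ),
      (fun ζ => a (z₀ + ζ) - (g₁ (P (z₀ + ζ) - z₀) - g₁ ζ) -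
        (g₂ (fderiv ℝ P z₀ ζ) (fderiv ℝ P z₀ ζ) - g₂ ζ ζ)) =O[𝓝 0] (fun ζ => ‖ζ‖ ^ 3) := by
  have hsA : ∀ ξ η, os (fderiv ℝ P z₀ ξ) (fderiv ℝ P z₀ η) = os ξ η := hs.self_of_nhds
  obtain ⟨L, μ₁, μ₂, hμ₁, hμ₂, hn, hsL, hLA⟩ := exists_linNF (fderiv ℝ P z₀) hsA hell
  have hsLs : ∀ ξ η, os (L.symm ξ) (L.symm η) = os ξ η := by
    intro ξ η
    rw [← hsL (L.symm ξ) (L.symm η), L.apply_symm_apply, L.apply_symm_apply]
  -- the chart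
  have hφan : AnalyticAt ℝ (fun ζ : ℂ × ℂ => z₀ + L.symm ζ) 0 :=
    analyticAt_const.add ((L.symm : (ℂ × ℂ) →L[ℝ] (ℂ × ℂ)).analyticAt 0)
  have hφ0 : z₀ + L.symm (0 : ℂ × ℂ) = z₀ := by rw [map_zero, add_zero]
  have hφt : Tendsto (fun ζ : ℂ × ℂ => z₀ + L.symm ζ) (𝓝 0) (𝓝 z₀) := by
    have := hφan.continuousAt.tendsto
    rwa [hφ0] at this
  obtain ⟨Ph', hPh⟩ : ∃ Ph' : ℂ × ℂ → ℂ × ℂ, Ph' = fun ζ => L (P (z₀ + L.symm ζ) - z₀) := ⟨_, rfl⟩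
  obtain ⟨ah, hah⟩ : ∃ ah : ℂ × ℂ → ℝ, ah = fun ζ => a (z₀ + L.symm ζ) := ⟨_, rfl⟩
  have hPan : AnalyticAt ℝ Ph' 0 := by
    rw [hPh]
    have h1 : AnalyticAt ℝ (fun ζ : ℂ × ℂ => P (z₀ + L.symm ζ)) 0 := by
      refine AnalyticAt.comp' ?_ hφan
      rw [hφ0]
      exact hP
    have h2 : AnalyticAt ℝ (fun ζ : ℂ × ℂ => P (z₀ + L.symm ζ) - z₀) 0 :=
      h1.sub analyticAt_const
    exact ((L : (ℂ × ℂ) →L[ℝ] (ℂ × ℂ)).analyticAt _).comp' h2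
  have haan : AnalyticAt ℝ ah 0 := by
    rw [hah]
    refine AnalyticAt.comp' ?_ hφan
    rw [hφ0]
    exact ha
  have hPh0 : Ph' 0 = 0 := by
    rw [hPh]
    simp only [map_zero, add_zero, hP0, sub_self]
  have hah0 : ah 0 = 0 := by
    rw [hah]
    simp only [map_zero, add_zero, ha0]
  have hder : ∀ᶠ ζ in 𝓝 (0 : ℂ × ℂ), ∀ ξ, fderiv ℝ Ph' ζ ξ =
      L (fderiv ℝ P (z₀ + L.symm ζ) (L.symm ξ)) := by
    have h1 := hφt.eventually hP.eventually_analyticAt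
    filter_upwards [h1] with ζ hζ ξ
    rw [hPh, (Drift_hasFDerivAt L hζ).fderiv]
    rfl
  have hA : fderiv ℝ Ph' 0 = Ld μ₁ μ₂ := by
    refine ContinuousLinearMap.ext fun ξ => ?_
    rw [hder.self_of_nhds ξ, hφ0, hLA, L.apply_symm_apply]
  have hsP : ∀ᶠ z in 𝓝 (0 : ℂ × ℂ), ∀ ξ η,
      os (fderiv ℝ Ph' z ξ) (fderiv ℝ Ph' z η) = os ξ η := by
    filter_upwards [hder, hφt.eventually hs] with ζ h1 h2 ξ η
    rw [h1, h1, hsL, h2, hsLs]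
  obtain ⟨J₁, J₂, C₁, r₁, hr₁, hJ⟩ := exists_J hPan hPh0 hA hμ₁ hμ₂ hn hsP
  obtain ⟨g₁, g₂, β₁, β₂, hG⟩ := exists_G hPan hPh0 hA hμ₁ hμ₂ hn haan hah0
  -- asymptotics
  have hT : (fun z => Ph' z - Ld μ₁ μ₂ z) =O[𝓝 0] (fun z => ‖z‖ ^ 2) := by
    have := Drift_taylor hPan
    rw [hPh0, hA] at this
    simpa using this
  have hLd : (fun z => Ld μ₁ μ₂ z) =O[𝓝 0] (fun z : ℂ × ℂ => ‖z‖) :=
    ((Ld μ₁ μ₂).isBigO_id _).norm_right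
  have hsq : (fun z : ℂ × ℂ => ‖z‖ ^ 2) =O[𝓝 0] (fun z : ℂ × ℂ => ‖z‖) := by
    refine IsBigO.of_bound 1 ?_
    have h1 : ∀ᶠ z : ℂ × ℂ in 𝓝 0, ‖z‖ < 1 := by
      have := ball_mem_nhds (0 : ℂ × ℂ) one_pos
      filter_upwards [this] with z hz
      simpa using hz
    filter_upwards [h1] with z hz
    rw [norm_pow, norm_norm, one_mul, pow_two]
    nlinarith [norm_nonneg z]
  have hPO : (fun z => Ph' z) =O[𝓝 0] (fun z : ℂ × ℂ => ‖z‖) := by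
    have := (hT.trans hsq).add hLd
    simpa using this
  have hQ := Drift_quad g₂ hPO hLd hT
  have hGm : (fun z => (g₁ (Ph' z) + g₂ (Ph' z) (Ph' z)) - (g₁ z + g₂ z z) -
      (ah z - β₁ * Complex.normSq z.1 - β₂ * Complex.normSq z.2)) =O[𝓝 0]
        (fun z : ℂ × ℂ => ‖z‖ ^ 3) := by
    refine (hQ.sub hG).congr_left (fun z => ?_)
    ring
  have hGb : (fun z => g₁ z + g₂ z z) =O[𝓝 0] (fun z : ℂ × ℂ => ‖z‖) := by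
    have h1 : (fun z => g₁ z) =O[𝓝 0] (fun z : ℂ × ℂ => ‖z‖) := (g₁.isBigO_id _).norm_right
    have h2 : (fun z => g₂ z z) =O[𝓝 0] (fun z : ℂ × ℂ => ‖z‖ ^ 2) := by
      refine IsBigO.of_bound ‖g₂‖ (Eventually.of_forall fun z => ?_)
      have := g₂.le_opNorm₂ z z
      rw [norm_pow, norm_norm, pow_two, ← mul_assoc]
      exact this
    exact h1.add (h2.trans hsq)
  -- common constants
  obtain ⟨c₁, hc₁, hb₁⟩ := hPO.exists_pos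
  obtain ⟨c₂, hc₂, hb₂⟩ := hGm.exists_pos
  obtain ⟨c₃, hc₃, hb₃⟩ := hGb.exists_pos
  obtain ⟨r₂, hr₂, hball⟩ := Metric.eventually_nhds_iff.1
    ((hb₁.bound.and hb₂.bound).and hb₃.bound)
  obtain ⟨r₀, hr₀, δ, hbd⟩ := hbd
  obtain ⟨l, hl⟩ : ∃ l, l = ‖(L.symm : (ℂ × ℂ) →L[ℝ] (ℂ × ℂ))‖ + 1 := ⟨_, rfl⟩
  have hlpos : 0 < l := by rw [hl]; positivity
  obtain ⟨C, hC⟩ : ∃ C, C = |C₁| + c₁ + c₂ + c₃ := ⟨_, rfl⟩
  obtain ⟨r, hr⟩ : ∃ r, r = min r₁ (min r₂ (r₀ / l)) := ⟨_, rfl⟩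
  have hrpos : 0 < r := by
    rw [hr]
    exact lt_min hr₁ (lt_min hr₂ (div_pos hr₀ hlpos))
  have hrr₁ : r ≤ r₁ := by rw [hr]; exact min_le_left _ _
  have hrr₂ : r ≤ r₂ := by rw [hr]; exact (min_le_right _ _).trans (min_le_left _ _)
  have hrr₀ : r ≤ r₀ / l := by rw [hr]; exact (min_le_right _ _).trans (min_le_right _ _)
  have hC₁ : C₁ ≤ C := by
    rw [hC]
    have := le_abs_self C₁
    linarith
  have hCa : 0 ≤ |C₁| := abs_nonneg C₁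
  have hβ : β₁ = 0 ∧ β₂ = 0 := by
    refine escape (P := Ph') (a := ah) (G := fun z => g₁ z + g₂ z z) (J₁ := J₁) (J₂ := J₂)
      (C := C) (r := r) (δ := δ) hrpos ?_ ?_ ?_ ?_
    · intro z hz
      have h1 := (hball (show dist z 0 < r₂ by rw [dist_zero_right]; linarith)).1.1
      rw [norm_norm] at h1
      refine h1.trans (mul_le_mul_of_nonneg_right ?_ (norm_nonneg z))
      rw [hC]; linarith
    · intro z hz
      obtain ⟨k1, k2, k3, k4⟩ := hJ z (hz.trans_le hrr₁)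
      have e3 : C₁ * ‖z‖ ^ 3 ≤ C * ‖z‖ ^ 3 :=
        mul_le_mul_of_nonneg_right hC₁ (by positivity)
      have e5 : C₁ * ‖z‖ ^ 5 ≤ C * ‖z‖ ^ 5 :=
        mul_le_mul_of_nonneg_right hC₁ (by positivity)
      exact ⟨k1.trans e3, k2.trans e3, k3.trans e5, k4.trans e5⟩
    · intro z hz
      have h1 := hball (show dist z 0 < r₂ by rw [dist_zero_right]; linarith)
      have h2 := h1.2
      have h3 := h1.1.2
      rw [Real.norm_eq_abs, norm_norm] at h2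
      rw [Real.norm_eq_abs, norm_pow, norm_norm] at h3
      constructor
      · refine h2.trans (mul_le_mul_of_nonneg_right ?_ (norm_nonneg z))
        rw [hC]; linarith
      · refine h3.trans (mul_le_mul_of_nonneg_right ?_ (by positivity))
        rw [hC]; linarith
    · intro n ζ hζ1 hζ2
      have h1 := hbd n (fun j => z₀ + L.symm (ζ j)) ?_ ?_
      · rw [hah]
        exact h1
      · intro j hj
        have h2 := hζ1 j hj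
        rw [add_sub_cancel_left]
        have h3 : ‖L.symm (ζ j)‖ ≤ l * ‖ζ j‖ := by
          have h4 := (L.symm : (ℂ × ℂ) →L[ℝ] (ℂ × ℂ)).le_opNorm (ζ j)
          have h5 : ‖(L.symm : (ℂ × ℂ) →L[ℝ] (ℂ × ℂ))‖ * ‖ζ j‖ ≤ l * ‖ζ j‖ :=
            mul_le_mul_of_nonneg_right (by rw [hl]; linarith) (norm_nonneg _)
          exact h4.trans h5
        have h6 : l * ‖ζ j‖ < l * (r₀ / l) :=
          mul_lt_mul_of_pos_left (h2.trans_le hrr₀) hlpos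
        have h7 : l * (r₀ / l) = r₀ := by field_simp
        linarith
      · intro j hj
        rw [hζ2 j hj, hPh]
        simp only [L.symm_apply_apply]
        abel
  obtain ⟨hβ₁, hβ₂⟩ := hβ
  refine ⟨g₁.comp (L : (ℂ × ℂ) →L[ℝ] (ℂ × ℂ)),
    g₂.bilinearComp (L : (ℂ × ℂ) →L[ℝ] (ℂ × ℂ)) (L : (ℂ × ℂ) →L[ℝ] (ℂ × ℂ)), ?_⟩
  have hLt : Tendsto (fun ζ : ℂ × ℂ => L ζ) (𝓝 0) (𝓝 0) := by
    have := L.continuous.tendsto 0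
    rwa [map_zero] at this
  have h1 := hG.comp_tendsto hLt
  have h2 : (fun ζ : ℂ × ℂ => ‖L ζ‖ ^ 3) =O[𝓝 0] (fun ζ : ℂ × ℂ => ‖ζ‖ ^ 3) := by
    have h3 : (fun ζ : ℂ × ℂ => ‖L ζ‖) =O[𝓝 0] (fun ζ : ℂ × ℂ => ‖ζ‖) :=
      (((L : (ℂ × ℂ) →L[ℝ] (ℂ × ℂ)).isBigO_id _).norm_left).norm_right
    exact h3.pow 3
  refine (h1.trans h2).congr_left (fun ζ => ?_)
  simp only [Function.comp_apply, hβ₁, hβ₂, hah, hPh, L.symm_apply_apply, ← hLA]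
  simp [ContinuousLinearMap.bilinearComp_apply]

end Pool.Agent.MP_5027f4_cont
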