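import Pool.Agent.Lib_MP_5027f4_cont.Defs

/-!
PIECE [EAbs] (MP_5027f4_mp, T1).  A calculus lemma: Sundman's function at its maximum.
-/

open Set Filter Topology Metric Polynomial
open scoped ComplexConjugate ContDiff
open Pool.Agent.MP_5027f4_mp

namespace Pool.Agent.MP_5027f4_cont

private theorem eabs_right {f : ℝ → ℝ} {f' a : ℝ} (h : HasDerivAt f f' a) (hf' : 0 < f') :
    ∀ᶠ t in 𝓝[>] a, f a < f t := by
  have h1 : Tendsto (slope f a) (𝓝[>] a) (𝓝 f') :=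
    (hasDerivAt_iff_tendsto_slope.1 h).mono_left
      (nhdsWithin_mono a fun t (ht : a < t) => ne_of_gt ht)
  filter_upwards [h1.eventually (lt_mem_nhds hf'), self_mem_nhdsWithin] with t h2 h3
  have h4 : (0 : ℝ) < t - a := sub_pos.mpr h3
  rw [slope_def_field] at h2
  have h5 := (div_pos_iff_of_pos_right h4).mp h2
  linarith

private theorem eabs_left {f : ℝ → ℝ} {f' a : ℝ} (h : HasDerivAt f f' a) (hf' : f' < 0) :
    ∀ᶠ t in 𝓝[<] a, f a < f t := by
  have h1 : Tendsto (slope f a) (𝓝[<] a) (𝓝 f') :=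
    (hasDerivAt_iff_tendsto_slope.1 h).mono_left
      (nhdsWithin_mono a fun t (ht : t < a) => ne_of_lt ht)
  filter_upwards [h1.eventually (gt_mem_nhds hf'), self_mem_nhdsWithin] with t h2 h3
  have h4 : t - a < 0 := sub_neg.mpr h3
  rw [slope_def_field, div_neg_iff] at h2
  rcases h2 with h2 | h2
  · linarith [h2.1]
  · linarith [h2.2]

/-- Proof.  `F = (D² + cc²)/√I + 4 e √I` has the derivative `F' = (D/√I) * Y`,
`Y = 2 K - ρ (D² + cc²)/I + 2 e ρ > 0` (by `hsun` the difference of the first two terms is `≥ 0`; if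
`ρ > 0` the last term is positive, if `ρ = 0` the first).  Let `F` attain its maximum over `[0, S]` at
`s'`.  If `s'` is an interior point, `F'(s') = 0`, so `D s' = 0`.  If `s'` is an end point, both end
points are maxima (`F S = F 0` by `hper`); `F'(0) ≤ 0 ≤ F'(S)` and `F'(S)` has the same sign as
`F'(0)` (as `D S = D 0` and `Y > 0`), so `D 0 = D S = 0`; replace `s'` by `0`.  In all cases
`D s' = 0` with `s' < S`, and if `D'(s') > 0` then `D > 0` and `F' > 0` just after `s'`, so `F` would be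
larger there.  So `D'(s') ≤ 0`, i.e. `W s' ≤ 2 e ρ s'`, hence `I s' ≥ w₁` and
`F s' = cc²/√(I s') + 4 e √(I s') ≤ cc²/√w₁ + 4 e √Λ`; `cc²/√(I s) ≤ F s ≤ F s'`. -/
theorem inertia_lower {S e cc w₁ Λ : ℝ} {I D K W ρ : ℝ → ℝ} (hS : 0 < S) (he : 0 < e)
    (hw : 0 < w₁) (hI : ∀ s ∈ Icc 0 S, HasDerivAt I (2 * ρ s * D s) s)
    (hD : ∀ s ∈ Icc 0 S, HasDerivAt D (W s - 2 * e * ρ s) s)
    (hW : ContinuousOn W (Icc 0 S)) (hρc : ContinuousOn ρ (Icc 0 S))
    (hK : ∀ s ∈ Icc 0 S, K s = W s - e * ρ s)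
    (hsun : ∀ s ∈ Icc 0 S, ρ s * (D s ^ 2 + cc ^ 2) ≤ 2 * I s * K s)
    (hIpos : ∀ s ∈ Icc 0 S, 0 < I s) (hρ : ∀ s ∈ Icc 0 S, 0 ≤ ρ s)
    (hKpos : ∀ s ∈ Icc 0 S, ρ s = 0 → 0 < K s)
    (hper : I S = I 0 ∧ D S = D 0 ∧ W S = W 0 ∧ ρ S = ρ 0)
    (hw1 : ∀ s ∈ Icc 0 S, W s ≤ 2 * e * ρ s → w₁ ≤ I s) (hΛ : ∀ s ∈ Icc 0 S, I s ≤ Λ) :
    ∀ s ∈ Icc 0 S, cc ^ 2 / √(I s) ≤ cc ^ 2 / √w₁ + 4 * e * √Λ := by
  set F : ℝ → ℝ := fun s => (D s ^ 2 + cc ^ 2) / √(I s) + 4 * e * √(I s) with hFdef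
  set Y : ℝ → ℝ := fun s => 2 * W s - ρ s * (D s ^ 2 + cc ^ 2) / I s with hYdef
  have hF : ∀ s ∈ Icc 0 S, HasDerivAt F (D s / √(I s) * Y s) s := by
    intro s hs
    have hIs := hIpos s hs
    have hsq : √(I s) ≠ 0 := (Real.sqrt_pos.mpr hIs).ne'
    have h1 : HasDerivAt (fun s => √(I s)) (2 * ρ s * D s / (2 * √(I s))) s :=
      (hI s hs).sqrt hIs.ne'
    have h2 : HasDerivAt (fun s => D s ^ 2 + cc ^ 2)
        (((2 : ℕ) : ℝ) * D s ^ (2 - 1) * (W s - 2 * e * ρ s)) s := ((hD s hs).pow 2).add_const _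
    have h3 := (h2.div h1 hsq).add (h1.const_mul (4 * e))
    refine HasDerivAt.congr_deriv h3 ?_
    have hsq2 : √(I s) ^ 2 = I s := Real.sq_sqrt hIs.le
    have hI2 : I s = √(I s) ^ 2 := hsq2.symm
    simp only [hYdef]
    rw [hI2]
    have hss : √(√(I s) ^ 2) = √(I s) := by rw [hsq2]
    rw [hss]
    field_simp
    push_cast
    ring
  have hY : ∀ s ∈ Icc 0 S, 0 < Y s := by
    intro s hs
    have hIs := hIpos s hs
    have h1 : ρ s * (D s ^ 2 + cc ^ 2) / I s ≤ 2 * K s := by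
      rw [div_le_iff₀ hIs]
      have := hsun s hs
      linarith
    have h2 := hK s hs
    simp only [hYdef]
    rcases (hρ s hs).eq_or_lt with h3 | h3
    · have h4 := hKpos s hs h3.symm
      rw [← h3] at h2 ⊢
      simp only [zero_mul, zero_div, sub_zero]
      linarith
    · have h4 : 0 < e * ρ s := mul_pos he h3
      linarith
  have hcont : ContinuousOn F (Icc 0 S) := fun s hs =>
    (hF s hs).continuousAt.continuousWithinAt
  have hFp : F S = F 0 := by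
    simp only [hFdef]
    rw [hper.1, hper.2.1]
  have hdp : D S / √(I S) * Y S = D 0 / √(I 0) * Y 0 := by
    simp only [hYdef]
    rw [hper.1, hper.2.1, hper.2.2.1, hper.2.2.2]
  have h0S : (0 : ℝ) ∈ Icc 0 S := ⟨le_rfl, hS.le⟩
  have hSS : S ∈ Icc (0 : ℝ) S := ⟨hS.le, le_rfl⟩
  have hDzero : ∀ s ∈ Icc 0 S, D s / √(I s) * Y s = 0 → D s = 0 := by
    intro s hs h
    rcases mul_eq_zero.mp h with h | h
    · rcases div_eq_zero_iff.mp h with h | h
      · exact h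
      · exact absurd h (Real.sqrt_pos.mpr (hIpos s hs)).ne'
    · exact absurd h (hY s hs).ne'
  -- a maximum point with `D = 0`
  obtain ⟨s', hs', hmax, hD0⟩ : ∃ s' ∈ Ico 0 S, (∀ s ∈ Icc 0 S, F s ≤ F s') ∧ D s' = 0 := by
    obtain ⟨s₀, hs₀, hm⟩ := isCompact_Icc.exists_isMaxOn ⟨0, h0S⟩ hcont
    have hm' : ∀ s ∈ Icc 0 S, F s ≤ F s₀ := fun s hs => hm hs
    by_cases hend : s₀ = 0 ∨ s₀ = S
    · have hm0 : ∀ s ∈ Icc 0 S, F s ≤ F 0 := by
        rcases hend with rfl | rfl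
        · exact hm'
        · intro s hs
          rw [← hFp]
          exact hm' s hs
      refine ⟨0, ⟨le_rfl, hS⟩, hm0, hDzero 0 h0S ?_⟩
      apply le_antisymm
      · by_contra hcon
        push Not at hcon
        have h1 := eabs_right (hF 0 h0S) hcon
        have h2 : ∀ᶠ t in 𝓝[>] (0 : ℝ), t ∈ Ioo 0 S := Ioo_mem_nhdsGT hS
        obtain ⟨t, ht1, ht2⟩ := (h1.and h2).exists
        exact absurd (hm0 t ⟨ht2.1.le, ht2.2.le⟩) (not_le.mpr ht1)
      · rw [← hdp]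
        by_contra hcon
        push Not at hcon
        have h1 := eabs_left (hF S hSS) hcon
        have h2 : ∀ᶠ t in 𝓝[<] S, t ∈ Ioo 0 S := Ioo_mem_nhdsLT hS
        obtain ⟨t, ht1, ht2⟩ := (h1.and h2).exists
        rw [hFp] at ht1
        exact absurd (hm0 t ⟨ht2.1.le, ht2.2.le⟩) (not_le.mpr ht1)
    · push Not at hend
      have hs1 : 0 < s₀ := lt_of_le_of_ne hs₀.1 hend.1.symm
      have hs2 : s₀ < S := lt_of_le_of_ne hs₀.2 hend.2
      refine ⟨s₀, ⟨hs₀.1, hs2⟩, hm', hDzero s₀ hs₀ ?_⟩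
      have hloc : IsLocalMax F s₀ := by
        filter_upwards [Icc_mem_nhds hs1 hs2] with t ht
        exact hm' t ht
      exact hloc.hasDerivAt_eq_zero (hF s₀ hs₀)
  have hs'c : s' ∈ Icc 0 S := ⟨hs'.1, hs'.2.le⟩
  have hder : W s' - 2 * e * ρ s' ≤ 0 := by
    by_contra hcon
    push Not at hcon
    have h1 := eabs_right (hD s' hs'c) hcon
    have h2 : ∀ᶠ t in 𝓝[>] s', t ∈ Ioo s' S := Ioo_mem_nhdsGT hs'.2
    obtain ⟨b, hb, hb'⟩ := (mem_nhdsGT_iff_exists_Ioo_subset (a := s')).mp (h1.and h2)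
    set t := (s' + b) / 2 with ht
    have hbpos : s' < b := hb
    have hst : s' < t := by rw [ht]; linarith
    have htb : t < b := by rw [ht]; linarith
    have htS : t < S := (hb' ⟨hst, htb⟩).2.2
    have hmono : StrictMonoOn F (Icc s' t) := by
      refine strictMonoOn_of_deriv_pos (convex_Icc _ _)
        (hcont.mono (Icc_subset_Icc hs'.1 htS.le)) fun r hr => ?_
      rw [interior_Icc] at hr
      have hr2 := hb' ⟨hr.1, hr.2.trans htb⟩
      have hrc : r ∈ Icc 0 S := ⟨hs'.1.trans hr.1.le, hr2.2.2.le⟩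
      rw [(hF r hrc).deriv]
      have hDr : 0 < D r := by rw [← hD0]; exact hr2.1
      exact mul_pos (div_pos hDr (Real.sqrt_pos.mpr (hIpos r hrc))) (hY r hrc)
    have h3 := hmono (left_mem_Icc.mpr hst.le) (right_mem_Icc.mpr hst.le) hst
    exact absurd (hmax t ⟨hs'.1.trans hst.le, htS.le⟩) (not_le.mpr h3)
  have hw1' : w₁ ≤ I s' := hw1 s' hs'c (by linarith)
  intro s hs
  have hsq : 0 < √(I s) := Real.sqrt_pos.mpr (hIpos s hs)
  have hsqw : 0 < √w₁ := Real.sqrt_pos.mpr hw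
  have hle1 : √w₁ ≤ √(I s') := Real.sqrt_le_sqrt hw1'
  have hle2 : √(I s') ≤ √Λ := Real.sqrt_le_sqrt (hΛ s' hs'c)
  calc cc ^ 2 / √(I s) ≤ F s := by
        simp only [hFdef]
        rw [add_div]
        have h1 : 0 ≤ D s ^ 2 / √(I s) := by positivity
        have h2 : 0 ≤ 4 * e * √(I s) := by positivity
        linarith
    _ ≤ F s' := hmax s hs
    _ = cc ^ 2 / √(I s') + 4 * e * √(I s') := by
        simp only [hFdef]
        rw [hD0]
        norm_num
    _ ≤ cc ^ 2 / √w₁ + 4 * e * √Λ := by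
        refine add_le_add ?_ ?_
        · exact div_le_div_of_nonneg_left (sq_nonneg _) hsqw hle1
        · exact mul_le_mul_of_nonneg_left hle2 (by positivity)

end Pool.Agent.MP_5027f4_cont
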