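import Pool.Agent.Lib_MP_5027f4_cont.Defs

/-!
# Relative periodic orbits of the regularized flow
-/

open Set Filter Topology Metric
open Pool.Agent.MP_5027f4_mp

namespace Pool.Agent.MP_5027f4_cont

/-- A relative periodic orbit of the regularized problem: energy `-e`, physical period `T`,
rotation `u`, fictitious period `S`. -/
structure Orb (m : Fin 3 → ℝ) (e T : ℝ) (u : ℂ) (S : ℝ) (c : ℝ → Up) (κ₁ κ₂ : ℂ) (b : Bool) :
    Prop where
  sol : SolOn (VF m (-e)) S c
  pos : 0 < S
  gam : Gam m (-e) (c 0) = 0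
  ok : SymOK u κ₁ κ₂
  per : c S = sym κ₁ κ₂ b (c 0)
  time : ∫ s in (0 : ℝ)..S, rho (c s) = T

end Pool.Agent.MP_5027f4_cont
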