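import Pool.Agent.Lib_MP_5027f4_cont.EOut

/-!
PIECE [EFin] (MP_5027f4_mp, T1).  A priori bounds for relative periodic orbits.
-/

open Set Filter Topology Metric Polynomial
open scoped ComplexConjugate ContDiff
open Pool.Agent.MP_5027f4_mp

namespace Pool.Agent.MP_5027f4_cont

theorem EFin_sq {a F : ℝ} (hF : 0 ≤ F) (h : a ^ 2 ≤ F) : a ≤ 1 + F := by
  by_contra hc
  push Not at hc
  nlinarith

theorem EFin_norm_ff {X : Up} {N : ℝ} (k : Fin 3) (h : nn X k ≤ N) : ‖ff X k‖ ≤ 1 + N := by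
  have h0 : ‖ff X k‖ ^ 2 = nn X k := by rw [nn, Complex.normSq_eq_norm_sq]
  exact EFin_sq ((nn_nonneg X k).trans h) (by rw [h0]; exact h)

theorem EFin_pp {X : Up} {N P : ℝ} {p a : ℂ} {i j : Fin 3} (hi : ff X i ≠ 0) (hj : ff X j ≠ 0)
    (hNi : nn X i ≤ N) (hNj : nn X j ≤ N) (hp : ‖p‖ = ‖a / (4 * conj (ff X i * ff X j))‖)
    (hP : ‖p‖ ≤ P) : ‖a‖ ≤ 4 * (1 + N) ^ 2 * |P| := by
  have h1 : ‖a‖ = 4 * (‖ff X i‖ * ‖ff X j‖) * ‖p‖ := by
    rw [hp, norm_div, norm_mul, RCLike.norm_conj, norm_mul, Complex.norm_ofNat]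
    have := norm_pos_iff.2 hi
    have := norm_pos_iff.2 hj
    field_simp
  have h2 := EFin_norm_ff i hNi
  have h3 := EFin_norm_ff j hNj
  have hN : 0 ≤ N := (nn_nonneg X i).trans hNi
  rw [h1]
  have h4 : ‖ff X i‖ * ‖ff X j‖ ≤ (1 + N) * (1 + N) :=
    mul_le_mul h2 h3 (norm_nonneg _) (by positivity)
  calc 4 * (‖ff X i‖ * ‖ff X j‖) * ‖p‖ ≤ 4 * ((1 + N) * (1 + N)) * |P| :=
        mul_le_mul (by linarith) (hP.trans (le_abs_self P)) (norm_nonneg _) (by positivity)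
    _ = _ := by ring

theorem EFin_kk {m : Fin 3 → ℝ} (hm : ∀ a, 0 < m a) (X : Up) (i : Fin 3) :
    nn X i * ‖al X i‖ ^ 2 ≤ 32 * m i * KK m X := by
  have h : ∀ k, 0 ≤ nn X k * Complex.normSq (al X k) / m k := fun k =>
    div_nonneg (mul_nonneg (nn_nonneg X k) (Complex.normSq_nonneg _)) (hm k).le
  have h0 := h 0
  have h1 := h 1
  have h2 := h 2
  have key : nn X i * Complex.normSq (al X i) / m i ≤ 32 * KK m X := by
    unfold KK
    fin_cases i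
    · change nn X 0 * Complex.normSq (al X 0) / m 0 ≤ _
      linarith
    · change nn X 1 * Complex.normSq (al X 1) / m 1 ≤ _
      linarith
    · change nn X 2 * Complex.normSq (al X 2) / m 2 ≤ _
      linarith
  rw [← Complex.normSq_eq_norm_sq]
  have := (div_le_iff₀ (hm i)).1 key
  linarith

theorem EFin_al {m : Fin 3 → ℝ} (hm : ∀ a, 0 < m a) {X : Up} {N r P W₀ : ℝ} (hr : 0 < r)
    (hN : ∀ k, nn X k ≤ N) (hW₀ : 0 ≤ W₀) (hK : KK m X ≤ W₀) (k : Fin 3)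
    (hk : ∀ i, i ≠ k → r ≤ nn X i) (hP : ‖pp X k‖ ≤ P) (i : Fin 3) :
    ‖al X i‖ ≤ (1 + 32 * (m 0 + m 1 + m 2) * W₀ / r) + 4 * (1 + N) ^ 2 * |P| := by
  have m0 := hm 0
  have m1 := hm 1
  have m2 := hm 2
  have hA : 0 ≤ 32 * (m 0 + m 1 + m 2) * W₀ / r := by positivity
  have hB : 0 ≤ 4 * (1 + N) ^ 2 * |P| := by positivity
  have hmi : m i ≤ m 0 + m 1 + m 2 := by
    fin_cases i
    · change m 0 ≤ _
      linarith
    · change m 1 ≤ _
      linarith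
    · change m 2 ≤ _
      linarith
  by_cases hik : i = k
  · have hf : ∀ j, j ≠ k → ff X j ≠ 0 := fun j hj => (nn_pos_iff X j).1 (hr.trans_le (hk j hj))
    suffices h : ‖al X k‖ ≤ 4 * (1 + N) ^ 2 * |P| by
      rw [hik]
      linarith
    fin_cases k
    · exact EFin_pp (hf 1 (by decide)) (hf 2 (by decide)) (hN 1) (hN 2) (norm_neg _) hP
    · exact EFin_pp (hf 0 (by decide)) (hf 2 (by decide)) (hN 0) (hN 2) (norm_neg _) hP
    · exact EFin_pp (hf 0 (by decide)) (hf 1 (by decide)) (hN 0) (hN 1) rfl hP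
  · have h1 := EFin_kk hm X i
    have h2 := hk i hik
    have h3 : ‖al X i‖ ^ 2 ≤ 32 * (m 0 + m 1 + m 2) * W₀ / r := by
      rw [le_div_iff₀ hr]
      calc ‖al X i‖ ^ 2 * r ≤ ‖al X i‖ ^ 2 * nn X i := by gcongr
        _ = nn X i * ‖al X i‖ ^ 2 := by ring
        _ ≤ 32 * m i * KK m X := h1
        _ ≤ 32 * m i * W₀ := mul_le_mul_of_nonneg_left hK (by linarith [hm i])
        _ ≤ 32 * (m 0 + m 1 + m 2) * W₀ := by gcongr
    have := EFin_sq hA h3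
    linarith

/-- Proof.  `inertia_bound` and `two_large` give `r` and for every `s` an index `k` with
`nn (c s) i ≥ r` for `i ≠ k`.  `nn (c s) i ≤ 2 Λ` (`norm_zz`, differences of `qq`), so
`KK ≤ WW` is bounded, and for `i ≠ k` `‖al i‖² ≤ 32 m i KK / nn i` is bounded; `‖al k‖ =
4 ‖ff i‖ ‖ff j‖ ‖pp k‖` is bounded by `outer_bound`; `exists_bound_of_al`.  With `period_bound`,
`exists_far`, `size_bounds` take the maximum of all constants (and of `1 / w`). -/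
theorem orbit_bounds {m : Fin 3 → ℝ} (hm : ∀ a, 0 < m a) {e T : ℝ} (he : 0 < e) (hT : 0 < T)
    {u : ℂ} (hu : ‖u‖ = 1) {cm : ℝ} (hcm : 0 < cm) : ∃ B > 0, ∀ S c κ₁ κ₂ b,
      Orb m e T u S c κ₁ κ₂ b → cm ≤ |CU (c 0)| → S ≤ B ∧ |CU (c 0)| ≤ B ∧
        (∀ s ∈ Icc 0 S, ‖c s‖ ≤ B) ∧ ∃ s ∈ Icc 0 S, 1 / B ≤ rho (c s) := by
  have m0 := hm 0
  have m1 := hm 1
  have m2 := hm 2
  have hM : MM m ≠ 0 := by unfold MM; linarith
  obtain ⟨ι, hι, h1⟩ := inertia_bound hm he hT hu hcm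
  obtain ⟨r, hr, h2⟩ := two_large hm hι
  obtain ⟨Λ, hΛ, h3⟩ := size_bounds hm he hT hu
  obtain ⟨P, h4⟩ := outer_bound hm he hT (u := u) hr
  obtain ⟨B₁, hB₁, h5⟩ := period_bound hm he hT hu hcm
  obtain ⟨w, hw, h6⟩ := exists_far hm (T := T) he (u := u)
  set N : ℝ := 2 * Λ with hNd
  have hN0 : 0 < N := by positivity
  set W₀ : ℝ := m 1 * m 2 * (N * N) + m 2 * m 0 * (N * N) + m 0 * m 1 * (N * N) with hW₀d
  have hW₀ : 0 ≤ W₀ := by positivity
  obtain ⟨B₂, h7⟩ := exists_bound_of_al hr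
    ((1 + 32 * (m 0 + m 1 + m 2) * W₀ / r) + 4 * (1 + N) ^ 2 * |P|) N
  refine ⟨B₁ + Λ + |B₂| + w⁻¹, by positivity, fun S c κ₁ κ₂ b hO hc => ⟨?_, ?_, ?_, ?_⟩⟩
  · have := h5 S c κ₁ κ₂ b hO hc
    have : 0 < w⁻¹ := by positivity
    have := abs_nonneg B₂
    linarith
  · have := (h3 S c κ₁ κ₂ b hO).2
    have : 0 < w⁻¹ := by positivity
    have := abs_nonneg B₂
    linarith
  · intro s hs
    obtain ⟨k, hk⟩ := h2 (c s) (h1 S c κ₁ κ₂ b hO hc s hs)
    have hq := ((h3 S c κ₁ κ₂ b hO).1 s hs).2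
    have hN : ∀ k, nn (c s) k ≤ N := by
      intro k
      rw [← norm_zz]
      fin_cases k
      · change ‖zz (c s) 0‖ ≤ _
        rw [← qq_sub_21 hM]
        exact (norm_sub_le _ _).trans (by linarith [hq 2, hq 1])
      · change ‖zz (c s) 1‖ ≤ _
        rw [← qq_sub_02 hM]
        exact (norm_sub_le _ _).trans (by linarith [hq 0, hq 2])
      · change ‖zz (c s) 2‖ ≤ _
        rw [← qq_sub_10 hM]
        exact (norm_sub_le _ _).trans (by linarith [hq 1, hq 0])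
    have hprod : ∀ i j, nn (c s) i * nn (c s) j ≤ N * N := fun i j =>
      mul_le_mul (hN i) (hN j) (nn_nonneg _ _) hN0.le
    have hK : KK m (c s) ≤ W₀ := by
      rw [hO.kk_eq hs]
      have a1 := mul_le_mul_of_nonneg_left (hprod 1 2) (mul_nonneg m1.le m2.le)
      have a2 := mul_le_mul_of_nonneg_left (hprod 2 0) (mul_nonneg m2.le m0.le)
      have a3 := mul_le_mul_of_nonneg_left (hprod 0 1) (mul_nonneg m0.le m1.le)
      have a4 := mul_nonneg he.le (rho_nonneg (c s))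
      unfold WW
      linarith
    have hex : ∃ i, r ≤ nn (c s) i := by
      fin_cases k
      · exact ⟨1, hk 1 (by decide)⟩
      · exact ⟨0, hk 0 (by decide)⟩
      · exact ⟨0, hk 0 (by decide)⟩
    have h8 := h7 (c s) hex hN (EFin_al hm hr hN hW₀ hK k hk (h4 S c κ₁ κ₂ b hO s hs k hk))
    have h9 := le_abs_self B₂
    have : 0 < w⁻¹ := by positivity
    linarith
  · have hne : CU (c 0) ≠ 0 := by
      intro h0
      rw [h0, abs_zero] at hc
      linarith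
    obtain ⟨s, hs, hws⟩ := h6 S c κ₁ κ₂ b hO hne
    refine ⟨s, hs, le_trans ?_ hws⟩
    have h0 : 0 < w⁻¹ := by positivity
    have h10 : w⁻¹ ≤ B₁ + Λ + |B₂| + w⁻¹ := by
      have := abs_nonneg B₂
      linarith
    rw [one_div]
    calc (B₁ + Λ + |B₂| + w⁻¹)⁻¹ ≤ (w⁻¹)⁻¹ := inv_anti₀ h0 h10
      _ = w := inv_inv w

end Pool.Agent.MP_5027f4_cont
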