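import Pool.Agent.Lib_MP_5027f4_cont.EDefs
import Pool.Agent.Lib_MP_5027f4_cont.DRun

/-!
PIECE [EInt] (MP_5027f4_mp, T1).  Integrals along relative periodic orbits.
-/

open Set Filter Topology Metric Polynomial
open scoped ComplexConjugate ContDiff
open Pool.Agent.MP_5027f4_mp

namespace Pool.Agent.MP_5027f4_cont

variable {m : Fin 3 → ℝ} {e T S : ℝ} {u κ₁ κ₂ : ℂ} {b : Bool} {c : ℝ → Up}

theorem EInt_mem {S s : ℝ} (hs : s ∈ Icc 0 S) : s ∈ uIcc 0 S := Icc_subset_uIcc hs

theorem Orb.gam_zero (h : Orb m e T u S c κ₁ κ₂ b) {s : ℝ} (hs : s ∈ Icc 0 S) :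
    Gam m (-e) (c s) = 0 := by
  rw [h.sol.gam_eq (EInt_mem hs), h.gam]

theorem Orb.kk_eq (h : Orb m e T u S c κ₁ κ₂ b) {s : ℝ} (hs : s ∈ Icc 0 S) :
    KK m (c s) = WW m (c s) - e * rho (c s) := by
  have h1 := h.gam_zero hs
  unfold Gam at h1
  linarith

theorem Orb.cu_eq (h : Orb m e T u S c κ₁ κ₂ b) {s : ℝ} (hs : s ∈ Icc 0 S) :
    CU (c s) = CU (c 0) := h.sol.cu_eq (EInt_mem hs)

theorem EInt_cont_rho (h : Orb m e T u S c κ₁ κ₂ b) : ContinuousOn (fun s => rho (c s)) (uIcc 0 S) :=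
  contDiff_rho.continuous.comp_continuousOn h.sol.continuousOn

theorem EInt_cont_WW (h : Orb m e T u S c κ₁ κ₂ b) :
    ContinuousOn (fun s => WW m (c s)) (uIcc 0 S) :=
  (contDiff_WW m).continuous.comp_continuousOn h.sol.continuousOn

theorem EInt_cont_KK (h : Orb m e T u S c κ₁ κ₂ b) :
    ContinuousOn (fun s => KK m (c s)) (uIcc 0 S) :=
  (contDiff_KK m).continuous.comp_continuousOn h.sol.continuousOn

/-- Proof.  `DU (c S) = DU (c 0)` (`DU_sym`) and `DU' = WW - 2 e rho` on `[0, S]`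
(`hasDerivAt_DU`, `Gam = 0`); integrate (`intervalIntegral.integral_eq_sub_of_hasDerivAt`). -/
theorem Orb.int_WW (h : Orb m e T u S c κ₁ κ₂ b) :
    ∫ s in (0 : ℝ)..S, WW m (c s) = 2 * e * T := by
  have h1 : ∀ s ∈ uIcc 0 S, HasDerivAt (fun s => DU (c s)) (WW m (c s) - 2 * e * rho (c s)) s := by
    intro s hs
    have h2 := hasDerivAt_DU (m := m) (h := -e) (h.sol.hasDerivAt hs)
    refine h2.congr_deriv ?_
    rw [uIcc_of_le h.pos.le] at hs
    rw [h.gam_zero hs]
    ring
  have i1 : IntervalIntegrable (fun s => WW m (c s)) MeasureTheory.volume 0 S :=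
    (EInt_cont_WW h).intervalIntegrable
  have i2 : IntervalIntegrable (fun s => 2 * e * rho (c s)) MeasureTheory.volume 0 S :=
    ((EInt_cont_rho h).const_smul (2 * e)).intervalIntegrable
  have h3 := intervalIntegral.integral_eq_sub_of_hasDerivAt h1 (i1.sub i2)
  rw [h.per, DU_sym h.ok, sub_self] at h3
  have h4 : ∫ s in (0 : ℝ)..S, (WW m (c s) - 2 * e * rho (c s)) =
      (∫ s in (0 : ℝ)..S, WW m (c s)) - ∫ s in (0 : ℝ)..S, 2 * e * rho (c s) :=
    intervalIntegral.integral_sub i1 i2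
  rw [h4, intervalIntegral.integral_const_mul, h.time] at h3
  linarith

theorem Orb.int_KK (h : Orb m e T u S c κ₁ κ₂ b) :
    ∫ s in (0 : ℝ)..S, KK m (c s) = e * T := by
  have i1 : IntervalIntegrable (fun s => WW m (c s)) MeasureTheory.volume 0 S :=
    (EInt_cont_WW h).intervalIntegrable
  have i2 : IntervalIntegrable (fun s => e * rho (c s)) MeasureTheory.volume 0 S :=
    ((EInt_cont_rho h).const_smul e).intervalIntegrable
  have h3 : ∫ s in (0 : ℝ)..S, KK m (c s) = ∫ s in (0 : ℝ)..S, (WW m (c s) - e * rho (c s)) := by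
    refine intervalIntegral.integral_congr fun s hs => ?_
    rw [uIcc_of_le h.pos.le] at hs
    exact h.kk_eq hs
  have h4 : ∫ s in (0 : ℝ)..S, (WW m (c s) - e * rho (c s)) =
      (∫ s in (0 : ℝ)..S, WW m (c s)) - ∫ s in (0 : ℝ)..S, e * rho (c s) :=
    intervalIntegral.integral_sub i1 i2
  rw [h3, h4, intervalIntegral.integral_const_mul, h.time, h.int_WW]
  ring

theorem EInt_KK_nonneg (hm : ∀ a, 0 < m a) (X : Up) : 0 ≤ KK m X := by
  have t0 : 0 ≤ nn X 0 * Complex.normSq (al X 0) / m 0 :=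
    div_nonneg (mul_nonneg (Complex.normSq_nonneg _) (Complex.normSq_nonneg _)) (hm 0).le
  have t1 : 0 ≤ nn X 1 * Complex.normSq (al X 1) / m 1 :=
    div_nonneg (mul_nonneg (Complex.normSq_nonneg _) (Complex.normSq_nonneg _)) (hm 1).le
  have t2 : 0 ≤ nn X 2 * Complex.normSq (al X 2) / m 2 :=
    div_nonneg (mul_nonneg (Complex.normSq_nonneg _) (Complex.normSq_nonneg _)) (hm 2).le
  unfold KK
  positivity

theorem EInt_rho_nonneg (X : Up) : 0 ≤ rho X := by
  unfold rho nn
  exact mul_nonneg (mul_nonneg (Complex.normSq_nonneg _) (Complex.normSq_nonneg _))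
    (Complex.normSq_nonneg _)

theorem EInt_cont_vv (m : Fin 3 → ℝ) (k : Fin 3) : Continuous (fun X : Up => vv m X k) := by
  have hn : ∀ j : Fin 3, Continuous (fun X : Up => ((nn X j / m j : ℝ) : ℂ)) := fun j =>
    Complex.continuous_ofReal.comp ((contDiff_nn j).continuous.div_const _)
  have hf : ∀ j : Fin 3, Continuous (fun X : Up => ff X j) := fun j => (contDiff_ff j).continuous
  have ha : ∀ j : Fin 3, Continuous (fun X : Up => al X j) := fun j => (contDiff_al j).continuous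
  fin_cases k
  · exact ((((hn 0).mul ((hf 1).mul (hf 2))).mul (ha 0)).neg).div_const 4
  · exact ((((hn 1).mul ((hf 0).mul (hf 2))).mul (ha 1)).neg).div_const 4
  · exact (((hn 2).mul ((hf 0).mul (hf 1))).mul (ha 2)).div_const 4

theorem EInt_opt {D R Q : ℝ} (hR : 0 ≤ R) (hQ : 0 ≤ Q)
    (h : ∀ l : ℝ, 0 < l → D ≤ (l * R + Q / l) / 2) : D ≤ √R * √Q := by
  by_cases hD : D ≤ 0
  · exact hD.trans (mul_nonneg (Real.sqrt_nonneg _) (Real.sqrt_nonneg _))
  · push Not at hD
    have h' : ∀ l : ℝ, 0 < l → 2 * l * D ≤ l ^ 2 * R + Q := by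
      intro l hl
      have h1 := h l hl
      have h2 : l * ((l * R + Q / l) / 2) = (l ^ 2 * R + Q) / 2 := by
        field_simp
      have h3 := mul_le_mul_of_nonneg_left h1 hl.le
      rw [h2] at h3
      linarith
    rcases hR.eq_or_lt with hR0 | hR0
    · exfalso
      have h1 := h' ((Q + 1) / (2 * D)) (by positivity)
      rw [← hR0, mul_zero, zero_add] at h1
      have h2 : 2 * ((Q + 1) / (2 * D)) * D = Q + 1 := by field_simp
      rw [h2] at h1
      linarith
    · have h1 := h' (D / R) (by positivity)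
      have h2 : 2 * (D / R) * D = 2 * (D ^ 2 / R) := by ring
      have h3 : (D / R) ^ 2 * R = D ^ 2 / R := by field_simp
      rw [h2, h3] at h1
      have h4 : D ^ 2 / R ≤ Q := by linarith
      rw [div_le_iff₀ hR0] at h4
      rw [← Real.sqrt_mul hR]
      apply Real.le_sqrt_of_sq_le
      linarith

/-- Proof.  `q' = vv` (`hasDerivAt_qq`), `‖vv‖ ≤ √rho * √(2 KK / m k)` (`norm_vv_le`), and
`∫ √rho √(2 KK / m k) ≤ (∫ rho) ^ (1/2) * (2/m k ∫ KK) ^ (1/2)` on `[s₁, s₂]` by Cauchy-Schwarz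
(or: for every `λ > 0`, `‖vv‖ ≤ (λ rho + 2 KK / (λ m k)) / 2`, integrate and optimize `λ`),
`∫ KK` over `[s₁, s₂]` is at most `e T`. -/
theorem Orb.qq_dist (hm : ∀ a, 0 < m a) (he : 0 < e) (h : Orb m e T u S c κ₁ κ₂ b) {s₁ s₂ : ℝ}
    (h1 : 0 ≤ s₁) (h12 : s₁ ≤ s₂) (h2 : s₂ ≤ S) (k : Fin 3) :
    ‖qq m (c s₂) k - qq m (c s₁) k‖ ≤
      √(∫ s in s₁..s₂, rho (c s)) * √(2 * e * T / m k) := by
  have hm' : ∀ a, m a ≠ 0 := fun a => (hm a).ne'
  have hM : MM m ≠ 0 := by
    have := hm 0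
    have := hm 1
    have := hm 2
    unfold MM
    positivity
  have hsub : uIcc s₁ s₂ ⊆ uIcc 0 S := by
    rw [uIcc_of_le h12, uIcc_of_le h.pos.le]
    exact Icc_subset_Icc h1 h2
  have iK0 : IntervalIntegrable (fun s => KK m (c s)) MeasureTheory.volume 0 S :=
    (EInt_cont_KK h).intervalIntegrable
  have iK : IntervalIntegrable (fun s => KK m (c s)) MeasureTheory.volume s₁ s₂ :=
    ((EInt_cont_KK h).mono hsub).intervalIntegrable
  have iR : IntervalIntegrable (fun s => rho (c s)) MeasureTheory.volume s₁ s₂ :=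
    ((EInt_cont_rho h).mono hsub).intervalIntegrable
  have hd : ∀ s ∈ uIcc s₁ s₂, HasDerivAt (fun s => qq m (c s) k) (vv m (c s) k) s :=
    fun s hs => hasDerivAt_qq hM hm' (h.sol.hasDerivAt (hsub hs)) k
  have hKle : ∫ s in s₁..s₂, KK m (c s) ≤ e * T := by
    rw [← h.int_KK]
    refine intervalIntegral.integral_mono_interval h1 h12 h2 ?_ iK0
    exact Eventually.of_forall fun s => EInt_KK_nonneg hm (c s)
  have hK0 : 0 ≤ ∫ s in s₁..s₂, KK m (c s) :=
    intervalIntegral.integral_nonneg h12 fun s _ => EInt_KK_nonneg hm (c s)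
  have hR0 : 0 ≤ ∫ s in s₁..s₂, rho (c s) :=
    intervalIntegral.integral_nonneg h12 fun s _ => EInt_rho_nonneg (c s)
  have hQ0 : 0 ≤ 2 * e * T / m k := by
    refine div_nonneg ?_ (hm k).le
    linarith
  refine EInt_opt hR0 hQ0 fun l hl => ?_
  -- pointwise bound
  have hpt : ∀ s, ‖vv m (c s) k‖ ≤ (l * rho (c s) + 2 / (m k * l) * KK m (c s)) / 2 := by
    intro s
    have a1 := norm_vv_le hm (c s) k
    rw [Complex.normSq_eq_norm_sq] at a1
    have a2 := EInt_rho_nonneg (c s)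
    have a3 := EInt_KK_nonneg hm (c s)
    have hk := hm k
    have a4 : ‖vv m (c s) k‖ ^ 2 ≤ (l * rho (c s)) * (2 / (m k * l) * KK m (c s)) := by
      have e1 : (l * rho (c s)) * (2 / (m k * l) * KK m (c s)) =
          (2 * rho (c s) * KK m (c s)) / m k := by
        field_simp
      rw [e1, le_div_iff₀ hk]
      linarith
    have a5 : 0 ≤ l * rho (c s) := by positivity
    have a6 : 0 ≤ 2 / (m k * l) * KK m (c s) := by positivity
    refine abs_le_of_sq_le_sq' ?_ (by positivity) |>.2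
    nlinarith [sq_nonneg (l * rho (c s) - 2 / (m k * l) * KK m (c s))]
  have hcq : ContinuousOn (fun s => vv m (c s) k) (uIcc s₁ s₂) :=
    (EInt_cont_vv m k).comp_continuousOn (h.sol.continuousOn.mono hsub)
  have hint := intervalIntegral.integral_eq_sub_of_hasDerivAt hd hcq.intervalIntegrable
  rw [← hint]
  refine (intervalIntegral.norm_integral_le_integral_norm h12).trans ?_
  have ib : IntervalIntegrable (fun s => (l * rho (c s) + 2 / (m k * l) * KK m (c s)) / 2)
      MeasureTheory.volume s₁ s₂ := ((iR.const_mul l).add (iK.const_mul _)).div_const 2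
  refine (intervalIntegral.integral_mono_on h12 hcq.norm.intervalIntegrable ib
    fun s _ => hpt s).trans ?_
  have e2 : ∫ s in s₁..s₂, (l * rho (c s) + 2 / (m k * l) * KK m (c s)) / 2 =
      (l * (∫ s in s₁..s₂, rho (c s)) + 2 / (m k * l) * ∫ s in s₁..s₂, KK m (c s)) / 2 := by
    rw [intervalIntegral.integral_div, intervalIntegral.integral_add (iR.const_mul l)
      (iK.const_mul _), intervalIntegral.integral_const_mul, intervalIntegral.integral_const_mul]
  rw [e2]
  have e3 : 2 * e * T / m k / l = 2 / (m k * l) * (e * T) := by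
    field_simp
  rw [e3]
  have hk := hm k
  have e4 : 2 / (m k * l) * ∫ s in s₁..s₂, KK m (c s) ≤ 2 / (m k * l) * (e * T) :=
    mul_le_mul_of_nonneg_left hKle (by positivity)
  linarith

/-- some pair is close: `WW ≥ e rho` because `KK ≥ 0` -/
theorem Orb.close_pair (hm : ∀ a, 0 < m a) (he : 0 < e) (h : Orb m e T u S c κ₁ κ₂ b) {s : ℝ}
    (hs : s ∈ Icc 0 S) : ∃ k, nn (c s) k ≤ (m 1 * m 2 + m 2 * m 0 + m 0 * m 1) / e := by
  by_contra hcon
  push Not at hcon
  have h0 := hcon 0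
  have h1 := hcon 1
  have h2 := hcon 2
  have m0 := hm 0
  have m1 := hm 1
  have m2 := hm 2
  have hW : e * rho (c s) ≤ WW m (c s) := by
    have := h.kk_eq hs
    have := EInt_KK_nonneg hm (c s)
    linarith
  set B := m 1 * m 2 + m 2 * m 0 + m 0 * m 1 with hB
  have hB0 : 0 < B := by positivity
  have hBe : 0 < B / e := by positivity
  rw [div_lt_iff₀ he] at h0 h1 h2
  have n0 : 0 < nn (c s) 0 := by
    by_contra hh
    push Not at hh
    nlinarith
  have n1 : 0 < nn (c s) 1 := by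
    by_contra hh
    push Not at hh
    nlinarith
  have n2 : 0 < nn (c s) 2 := by
    by_contra hh
    push Not at hh
    nlinarith
  unfold WW rho at hW
  set x := nn (c s) 0
  set y := nn (c s) 1
  set z := nn (c s) 2
  have c0 : (m 1 * m 2) * (y * z) * B < (m 1 * m 2) * (y * z) * (x * e) :=
    mul_lt_mul_of_pos_left h0 (by positivity)
  have c1 : (m 2 * m 0) * (z * x) * B < (m 2 * m 0) * (z * x) * (y * e) :=
    mul_lt_mul_of_pos_left h1 (by positivity)
  have c2 : (m 0 * m 1) * (x * y) * B < (m 0 * m 1) * (x * y) * (z * e) :=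
    mul_lt_mul_of_pos_left h2 (by positivity)
  have c3 : (m 1 * m 2 * (y * z) + m 2 * m 0 * (z * x) + m 0 * m 1 * (x * y)) * B <
      e * (x * y * z) * B := by
    calc _ = (m 1 * m 2) * (y * z) * B + (m 2 * m 0) * (z * x) * B + (m 0 * m 1) * (x * y) * B := by
          ring
      _ < (m 1 * m 2) * (y * z) * (x * e) + (m 2 * m 0) * (z * x) * (y * e) +
          (m 0 * m 1) * (x * y) * (z * e) := by linarith
      _ = e * (x * y * z) * B := by rw [hB]; ring
  have c4 := lt_of_mul_lt_mul_right c3 hB0.le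
  linarith

end Pool.Agent.MP_5027f4_cont
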