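import Pool.Agent.Lib_MP_5027f4_cont.CEnB

/-!
PIECE [EPnt] (MP_5027f4_mp, T1).  Pointwise inequalities for the mutual distances.
-/

open Set Filter Topology Metric Polynomial
open scoped ComplexConjugate ContDiff
open Pool.Agent.MP_5027f4_mp

namespace Pool.Agent.MP_5027f4_cont

variable {m : Fin 3 → ℝ}

theorem epnt_zz (X : Up) (i j k : Fin 3) (hij : i ≠ j) (hik : i ≠ k) (hjk : j ≠ k) :
    zz X i = -(zz X j + zz X k) := by
  have h := zz_sum X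
  fin_cases i <;> fin_cases j <;> fin_cases k <;>
    first
    | exact absurd rfl hij
    | exact absurd rfl hik
    | exact absurd rfl hjk
    | (simp only [Fin.zero_eta, Fin.mk_one, Fin.reduceFinMk]; linear_combination h)

/-- triangle inequalities: `ff 0 ^ 2 = ff 1 ^ 2 + ff 2 ^ 2` -/
theorem nn_triangle (X : Up) (i j k : Fin 3) (hij : i ≠ j) (hik : i ≠ k) (hjk : j ≠ k) :
    nn X i ≤ nn X j + nn X k := by
  rw [← norm_zz, ← norm_zz, ← norm_zz, epnt_zz X i j k hij hik hjk, norm_neg]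
  exact norm_add_le _ _

theorem epnt_third (X : Up) (i j : Fin 3) (hij : i ≠ j) (hi : ff X i = 0) (hj : ff X j = 0)
    (k : Fin 3) : ff X k = 0 := by
  by_cases h1 : k = i
  · rw [h1, hi]
  by_cases h2 : k = j
  · rw [h2, hj]
  have h3 := nn_triangle X k i j h1 h2 hij
  have h4 : nn X i = 0 := by rw [nn, hi, map_zero]
  have h5 : nn X j = 0 := by rw [nn, hj, map_zero]
  rw [h4, h5, add_zero] at h3
  have h6 : nn X k = 0 := le_antisymm h3 (nn_nonneg X k)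
  rw [nn, Complex.normSq_eq_zero] at h6
  exact h6

/-- If two of the `ff` vanish then `ζ = η = 0`. -/
theorem bet_zero_of_ff (X : Up) (i j : Fin 3) (hij : i ≠ j) (hi : ff X i = 0)
    (hj : ff X j = 0) : X.1 = 0 ∧ X.2.1 = 0 ∧ CU X = 0 := by
  have h0 : X.1 ^ 2 + X.2.1 ^ 2 = 0 := epnt_third X i j hij hi hj 0
  have h1 : X.1 ^ 2 - X.2.1 ^ 2 = 0 := epnt_third X i j hij hi hj 1
  have h2 : X.1 ^ 2 = 0 := by linear_combination (h0 + h1) / 2
  have h3 : X.2.1 ^ 2 = 0 := by linear_combination (h0 - h1) / 2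
  have h4 : X.1 = 0 := by simpa using h2
  have h5 : X.2.1 = 0 := by simpa using h3
  refine ⟨h4, h5, ?_⟩
  rw [CU, h4, h5]
  simp

theorem epnt_two (X : Up) (h : CU X ≠ 0) (i j : Fin 3) (hij : i ≠ j) : 0 < nn X i ∨ 0 < nn X j := by
  by_contra hcon
  push Not at hcon
  have h1 : nn X i = 0 := le_antisymm hcon.1 (nn_nonneg X i)
  have h2 : nn X j = 0 := le_antisymm hcon.2 (nn_nonneg X j)
  rw [nn, Complex.normSq_eq_zero] at h1 h2
  exact h (bet_zero_of_ff X i j hij h1 h2).2.2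

theorem epnt_MM (hm : ∀ a, 0 < m a) : 0 < MM m := by
  have h0 := hm 0
  have h1 := hm 1
  have h2 := hm 2
  unfold MM
  positivity

/-- nonzero angular momentum excludes triple collisions -/
theorem IU_pos (hm : ∀ a, 0 < m a) {X : Up} (h : CU X ≠ 0) : 0 < IU m X := by
  have h0 := hm 0
  have h1 := hm 1
  have h2 := hm 2
  have hM := epnt_MM hm
  have n0 := nn_nonneg X 0
  have n1 := nn_nonneg X 1
  have n2 := nn_nonneg X 2
  unfold IU
  rcases epnt_two X h 0 1 (by decide) with hn | hn <;> positivity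

theorem WW_pos (hm : ∀ a, 0 < m a) {X : Up} (h : CU X ≠ 0) : 0 < WW m X := by
  have h0 := hm 0
  have h1 := hm 1
  have h2 := hm 2
  have n0 := nn_nonneg X 0
  have n1 := nn_nonneg X 1
  have n2 := nn_nonneg X 2
  unfold WW
  rcases epnt_two X h 0 1 (by decide) with hn | hn
  · rcases epnt_two X h 1 2 (by decide) with hn' | hn' <;> positivity
  · rcases epnt_two X h 0 2 (by decide) with hn' | hn' <;> positivity

/-- Proof: `IU ≤ (m₁m₂ + m₂m₀ + m₀m₁) (max nn)² / M`; the largest `nn` is at least `2 r`, and by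
`nn_triangle` the second largest at least `r`. -/
theorem two_large (hm : ∀ a, 0 < m a) {ι : ℝ} (hι : 0 < ι) : ∃ r > 0, ∀ X, ι ≤ IU m X →
    ∃ k, ∀ i, i ≠ k → r ≤ nn X i := by
  have h0 := hm 0
  have h1 := hm 1
  have h2 := hm 2
  have hM := epnt_MM hm
  have hS : 0 < m 1 * m 2 + m 2 * m 0 + m 0 * m 1 := by positivity
  obtain ⟨q, hq, hq0⟩ : ∃ q : ℝ, q ^ 2 = ι * MM m / (m 1 * m 2 + m 2 * m 0 + m 0 * m 1) ∧ 0 < q :=
    ⟨Real.sqrt (ι * MM m / (m 1 * m 2 + m 2 * m 0 + m 0 * m 1)), Real.sq_sqrt (by positivity),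
      Real.sqrt_pos.2 (by positivity)⟩
  refine ⟨q / 2, by positivity, fun X hX => ?_⟩
  by_contra hcon
  push Not at hcon
  obtain ⟨i, _, hi⟩ := hcon 0
  obtain ⟨j, hj', hj⟩ := hcon i
  have hall : ∀ k, nn X k < q := by
    intro k
    by_cases e1 : k = i
    · rw [e1]; linarith
    by_cases e2 : k = j
    · rw [e2]; linarith
    have := nn_triangle X k i j e1 e2 (Ne.symm hj')
    linarith
  have hsq : ∀ k, nn X k ^ 2 < q ^ 2 := fun k =>
    pow_lt_pow_left₀ (hall k) (nn_nonneg X k) (by norm_num)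
  have s0 := hsq 0
  have s1 := hsq 1
  have s2 := hsq 2
  have hlt : IU m X < ι := by
    unfold IU
    rw [div_lt_iff₀ hM]
    have e : ι * MM m = (m 1 * m 2 + m 2 * m 0 + m 0 * m 1) * q ^ 2 := by
      rw [hq]
      field_simp
    rw [e]
    have a0 := mul_lt_mul_of_pos_left s0 (mul_pos h1 h2)
    have a1 := mul_lt_mul_of_pos_left s1 (mul_pos h2 h0)
    have a2 := mul_lt_mul_of_pos_left s2 (mul_pos h0 h1)
    linarith
  linarith

/-- Proof: if `WW ≤ 2 e rho` and `CU ≠ 0`, then `WW > 0` gives `rho > 0`, and dividing by `rho`: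
`mᵢ mⱼ / nₖ ≤ 2 e` for all `k`. -/
theorem far_of_WW_le (hm : ∀ a, 0 < m a) {e : ℝ} (he : 0 < e) : ∃ w > 0, ∀ X, CU X ≠ 0 →
    WW m X ≤ 2 * e * rho X → (∀ k, w ≤ nn X k) ∧ w ≤ IU m X ∧ w ≤ rho X := by
  have h0 := hm 0
  have h1 := hm 1
  have h2 := hm 2
  have hM := epnt_MM hm
  obtain ⟨μ, hμ, hμ0, hμ1, hμ2⟩ : ∃ μ : ℝ, 0 < μ ∧ μ ≤ m 1 * m 2 / (2 * e) ∧
      μ ≤ m 2 * m 0 / (2 * e) ∧ μ ≤ m 0 * m 1 / (2 * e) :=
    ⟨min (m 1 * m 2 / (2 * e)) (min (m 2 * m 0 / (2 * e)) (m 0 * m 1 / (2 * e))),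
      lt_min (by positivity) (lt_min (by positivity) (by positivity)), min_le_left _ _,
      (min_le_right _ _).trans (min_le_left _ _), (min_le_right _ _).trans (min_le_right _ _)⟩
  refine ⟨min μ (min ((m 1 * m 2 * μ ^ 2 + m 2 * m 0 * μ ^ 2 + m 0 * m 1 * μ ^ 2) / MM m)
    (μ * μ * μ)), lt_min hμ (lt_min (by positivity) (by positivity)), fun X hX hW => ?_⟩
  have hWp := WW_pos hm hX
  have n0 := nn_nonneg X 0
  have n1 := nn_nonneg X 1
  have n2 := nn_nonneg X 2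
  have hrho : 0 < rho X := by
    by_contra hcon
    have : rho X = 0 := le_antisymm (not_lt.1 hcon) (rho_nonneg X)
    rw [this] at hW
    linarith
  have hnc := (rho_pos_iff X).1 hrho
  have p0 : 0 < nn X 0 := (nn_pos_iff X 0).2 (hnc 0)
  have p1 : 0 < nn X 1 := (nn_pos_iff X 1).2 (hnc 1)
  have p2 : 0 < nn X 2 := (nn_pos_iff X 2).2 (hnc 2)
  have t0 : 0 < m 1 * m 2 * (nn X 1 * nn X 2) := by positivity
  have t1 : 0 < m 2 * m 0 * (nn X 2 * nn X 0) := by positivity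
  have t2 : 0 < m 0 * m 1 * (nn X 0 * nn X 1) := by positivity
  unfold WW rho at hW
  have k0 : μ ≤ nn X 0 := by
    refine hμ0.trans ?_
    rw [div_le_iff₀ (by positivity)]
    refine le_of_mul_le_mul_right ?_ (mul_pos p1 p2)
    calc m 1 * m 2 * (nn X 1 * nn X 2) ≤ 2 * e * (nn X 0 * nn X 1 * nn X 2) := by linarith
      _ = nn X 0 * (2 * e) * (nn X 1 * nn X 2) := by ring
  have k1 : μ ≤ nn X 1 := by
    refine hμ1.trans ?_
    rw [div_le_iff₀ (by positivity)]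
    refine le_of_mul_le_mul_right ?_ (mul_pos p2 p0)
    calc m 2 * m 0 * (nn X 2 * nn X 0) ≤ 2 * e * (nn X 0 * nn X 1 * nn X 2) := by linarith
      _ = nn X 1 * (2 * e) * (nn X 2 * nn X 0) := by ring
  have k2 : μ ≤ nn X 2 := by
    refine hμ2.trans ?_
    rw [div_le_iff₀ (by positivity)]
    refine le_of_mul_le_mul_right ?_ (mul_pos p0 p1)
    calc m 0 * m 1 * (nn X 0 * nn X 1) ≤ 2 * e * (nn X 0 * nn X 1 * nn X 2) := by linarith
      _ = nn X 2 * (2 * e) * (nn X 0 * nn X 1) := by ring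
  refine ⟨fun k => ?_, ?_, ?_⟩
  · refine (min_le_left _ _).trans ?_
    fin_cases k
    · exact k0
    · exact k1
    · exact k2
  · refine ((min_le_right _ _).trans (min_le_left _ _)).trans ?_
    unfold IU
    gcongr
  · refine ((min_le_right _ _).trans (min_le_right _ _)).trans ?_
    unfold rho
    gcongr

theorem epnt_mul_bound {A z0 : ℝ} (hz0 : 0 < z0) {a b p q u v w : ℂ} (hab : ‖b‖ ≤ ‖a‖)
    (ha : z0 ≤ ‖a‖) (h1 : 2 * conj a * q = u) (hu : ‖u‖ ≤ 2 * A)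
    (h2 : conj a * p = w + conj b * q * v) (hv : ‖v‖ = 1) (hw : ‖w‖ ≤ A) :
    ‖q‖ ≤ A / z0 ∧ ‖p‖ ≤ 2 * A / z0 := by
  have ha0 : 0 < ‖a‖ := lt_of_lt_of_le hz0 ha
  have e1 : ‖a‖ * ‖q‖ ≤ A := by
    have h3 : ‖2 * conj a * q‖ = 2 * (‖a‖ * ‖q‖) := by
      rw [norm_mul, norm_mul, RCLike.norm_conj]
      norm_num
      ring
    rw [h1] at h3
    linarith
  have hA : 0 ≤ A := le_trans (by positivity) e1
  have e2 : ‖q‖ ≤ A / z0 := by
    rw [le_div_iff₀ hz0]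
    calc ‖q‖ * z0 ≤ ‖q‖ * ‖a‖ := by gcongr
      _ = ‖a‖ * ‖q‖ := mul_comm _ _
      _ ≤ A := e1
  refine ⟨e2, ?_⟩
  have e3 : ‖a‖ * ‖p‖ ≤ 2 * A := by
    have h3 : ‖conj a * p‖ = ‖a‖ * ‖p‖ := by
      rw [norm_mul, RCLike.norm_conj]
    rw [← h3, h2]
    calc ‖w + conj b * q * v‖ ≤ ‖w‖ + ‖conj b * q * v‖ := norm_add_le _ _
      _ = ‖w‖ + ‖b‖ * ‖q‖ := by rw [norm_mul, norm_mul, RCLike.norm_conj, hv, mul_one]
      _ ≤ A + ‖a‖ * ‖q‖ := by gcongr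
      _ ≤ 2 * A := by linarith
  rw [le_div_iff₀ hz0]
  calc ‖p‖ * z0 ≤ ‖p‖ * ‖a‖ := by gcongr
    _ = ‖a‖ * ‖p‖ := mul_comm _ _
    _ ≤ 2 * A := e3

/-- Bound of the regularized variables.

Proof.  `al` is bounded by `A`, `nn` by `N`.  `2 ζ² = f₀ + f₁`, `2 η² = f₀ - f₁` bound `ζ, η`.
`(|ζ|² + |η|²)² ≥ nn k ≥ r` for some `k`, so the larger of `|ζ|, |η|` is at least a constant `z₀ > 0`.
`2 conj η P = a₀ + a₁`, `2 conj ζ R = a₁ - a₀`, `conj ζ P - conj η R = a₂`.  If `|ζ| ≥ |η|` then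
`|R| ≤ A / z₀` and `|ζ| |P| ≤ A + |η| |R| ≤ A + |ζ| |R| ≤ 2 A`; the other case is symmetric. -/
theorem exists_bound_of_al {r : ℝ} (hr : 0 < r) (A N : ℝ) : ∃ B : ℝ, ∀ X : Up,
    (∃ k, r ≤ nn X k) → (∀ k, nn X k ≤ N) → (∀ k, ‖al X k‖ ≤ A) → ‖X‖ ≤ B := by
  obtain ⟨z0, hz0, hz⟩ : ∃ z0 : ℝ, 0 < z0 ∧ (2 * z0 ^ 2) ^ 2 = r := by
    refine ⟨Real.sqrt (Real.sqrt r / 2), Real.sqrt_pos.2 (by positivity), ?_⟩
    rw [Real.sq_sqrt (by positivity), mul_div_cancel₀ _ (by norm_num : (2 : ℝ) ≠ 0),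
      Real.sq_sqrt hr.le]
  refine ⟨(Real.sqrt N + 1) + 2 * A / z0, fun X hX1 hX2 hX3 => ?_⟩
  have hA : 0 ≤ A := (norm_nonneg _).trans (hX3 0)
  have hf : ∀ k, ‖ff X k‖ ≤ Real.sqrt N := by
    intro k
    refine Real.le_sqrt_of_sq_le ?_
    have := hX2 k
    rwa [nn, Complex.normSq_eq_norm_sq] at this
  have f0 := hf 0
  have f1 := hf 1
  have hsqN := Real.sqrt_nonneg N
  have a0 := hX3 0
  have a1 := hX3 1
  have a2 := hX3 2
  have E0 : ff X 0 = X.1 ^ 2 + X.2.1 ^ 2 := rfl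
  have E1 : ff X 1 = X.1 ^ 2 - X.2.1 ^ 2 := rfl
  have E2 : ff X 2 = 2 * X.1 * X.2.1 := rfl
  have A0 : al X 0 = conj X.2.1 * X.2.2.1 - conj X.1 * X.2.2.2 := rfl
  have A1 : al X 1 = conj X.2.1 * X.2.2.1 + conj X.1 * X.2.2.2 := rfl
  have A2 : al X 2 = conj X.1 * X.2.2.1 - conj X.2.1 * X.2.2.2 := rfl
  -- bounds for `ζ`, `η`
  have z1 : ‖X.1‖ ^ 2 ≤ Real.sqrt N := by
    have h1 : (2 : ℂ) * X.1 ^ 2 = ff X 0 + ff X 1 := by rw [E0, E1]; ring
    have h2 : 2 * ‖X.1‖ ^ 2 = ‖ff X 0 + ff X 1‖ := by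
      rw [← h1, norm_mul, norm_pow]; norm_num
    have h3 := norm_add_le (ff X 0) (ff X 1)
    linarith
  have z2 : ‖X.2.1‖ ^ 2 ≤ Real.sqrt N := by
    have h1 : (2 : ℂ) * X.2.1 ^ 2 = ff X 0 - ff X 1 := by rw [E0, E1]; ring
    have h2 : 2 * ‖X.2.1‖ ^ 2 = ‖ff X 0 - ff X 1‖ := by
      rw [← h1, norm_mul, norm_pow]; norm_num
    have h3 := norm_sub_le (ff X 0) (ff X 1)
    linarith
  have w1 : ‖X.1‖ ≤ Real.sqrt N + 1 := by nlinarith [sq_nonneg (‖X.1‖ - 1)]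
  have w2 : ‖X.2.1‖ ≤ Real.sqrt N + 1 := by nlinarith [sq_nonneg (‖X.2.1‖ - 1)]
  -- lower bound
  have hlow : 2 * z0 ^ 2 ≤ ‖X.1‖ ^ 2 + ‖X.2.1‖ ^ 2 := by
    obtain ⟨k, hk⟩ := hX1
    have h1 : ‖ff X k‖ ≤ ‖X.1‖ ^ 2 + ‖X.2.1‖ ^ 2 := by
      fin_cases k
      · simp only [Fin.zero_eta]
        rw [E0]
        refine (norm_add_le _ _).trans ?_
        rw [norm_pow, norm_pow]
      · simp only [Fin.mk_one]
        rw [E1]
        refine (norm_sub_le _ _).trans ?_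
        rw [norm_pow, norm_pow]
      · simp only [Fin.reduceFinMk]
        rw [E2, norm_mul, norm_mul]
        have : ‖(2 : ℂ)‖ = 2 := by norm_num
        rw [this]
        nlinarith [sq_nonneg (‖X.1‖ - ‖X.2.1‖)]
    have h2 : (2 * z0 ^ 2) ^ 2 ≤ ‖ff X k‖ ^ 2 := by
      rw [hz]
      rwa [nn, Complex.normSq_eq_norm_sq] at hk
    have h3 : 2 * z0 ^ 2 ≤ ‖ff X k‖ := by
      refine le_of_sq_le_sq ?_ (norm_nonneg _)
      exact h2
    exact h3.trans h1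
  have hP : ‖X.2.2.1‖ ≤ 2 * A / z0 ∧ ‖X.2.2.2‖ ≤ 2 * A / z0 := by
    have hAz : A / z0 ≤ 2 * A / z0 := by
      gcongr
      linarith
    rcases le_total ‖X.2.1‖ ‖X.1‖ with hle | hle
    · have hz1 : z0 ≤ ‖X.1‖ := by
        refine le_of_sq_le_sq ?_ (norm_nonneg _)
        have := pow_le_pow_left₀ (norm_nonneg _) hle 2
        linarith
      have := epnt_mul_bound (A := A) hz0 (a := X.1) (b := X.2.1) (p := X.2.2.1) (q := X.2.2.2)
        (u := al X 1 - al X 0) (v := 1) (w := al X 2) hle hz1 (by rw [A0, A1]; ring)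
        ((norm_sub_le _ _).trans (by linarith)) (by rw [A2]; ring) norm_one a2
      exact ⟨this.2, this.1.trans hAz⟩
    · have hz1 : z0 ≤ ‖X.2.1‖ := by
        refine le_of_sq_le_sq ?_ (norm_nonneg _)
        have := pow_le_pow_left₀ (norm_nonneg _) hle 2
        linarith
      have := epnt_mul_bound (A := A) hz0 (a := X.2.1) (b := X.1) (p := X.2.2.2) (q := X.2.2.1)
        (u := al X 0 + al X 1) (v := 1) (w := -al X 2) hle hz1 (by rw [A0, A1]; ring)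
        ((norm_add_le _ _).trans (by linarith)) (by rw [A2]; ring) norm_one
        (by rw [norm_neg]; exact a2)
      exact ⟨this.1.trans hAz, this.2⟩
  have hAz0 : 0 ≤ 2 * A / z0 := by positivity
  rw [Prod.norm_def, Prod.norm_def, Prod.norm_def]
  refine max_le (by linarith) (max_le (by linarith) (max_le (by linarith [hP.1]) (by linarith [hP.2])))

end Pool.Agent.MP_5027f4_cont
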