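import Pool.Agent.Lib_MP_5027f4_cont.EMom
import Pool.Agent.Lib_MP_5027f4_cont.EAbs
import Pool.Agent.Lib_MP_5027f4_cont.EPnt

/-!
PIECE [ELow] (MP_5027f4_mp, T1).  Lower bound of the moment of inertia (no triple collision).
-/

open Set Filter Topology Metric Polynomial
open scoped ComplexConjugate ContDiff
open Pool.Agent.MP_5027f4_mp

namespace Pool.Agent.MP_5027f4_cont

private theorem ELow_continuousOn {m : Fin 3 → ℝ} {e T S : ℝ} {u κ₁ κ₂ : ℂ} {b : Bool}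
    {c : ℝ → Up} (h : Orb m e T u S c κ₁ κ₂ b) : ContinuousOn c (Icc 0 S) := by
  have h1 := h.sol.continuousOn
  rwa [uIcc_of_le h.pos.le] at h1

private theorem ELow_WW_cont {m : Fin 3 → ℝ} {e T S : ℝ} {u κ₁ κ₂ : ℂ} {b : Bool}
    {c : ℝ → Up} (h : Orb m e T u S c κ₁ κ₂ b) : ContinuousOn (fun s => WW m (c s)) (Icc 0 S) :=
  (contDiff_WW m).continuous.comp_continuousOn (ELow_continuousOn h)

private theorem ELow_rho_cont {m : Fin 3 → ℝ} {e T S : ℝ} {u κ₁ κ₂ : ℂ} {b : Bool}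
    {c : ℝ → Up} (h : Orb m e T u S c κ₁ κ₂ b) : ContinuousOn (fun s => rho (c s)) (Icc 0 S) :=
  contDiff_rho.continuous.comp_continuousOn (ELow_continuousOn h)

/-- Proof.  `Λ` from `size_bounds`, `w` from `far_of_WW_le`.  `inertia_lower` with `I = IU ∘ c`,
`D = DU ∘ c`, `K = KK ∘ c`, `W = WW ∘ c`, `ρ = rho ∘ c`, `cc = CU (c 0)` (`hasDerivAt_IU`,
`hasDerivAt_DU`, `Orb.kk_eq`, `sundman`, `IU_pos`, `WW_pos`, the invariance under `sym`), so
`cc²/√(IU) ≤ cc²/√w + 4 e √Λ`, `√(IU) ≥ 1 / (1/√w + 4 e √Λ / cc²) ≥ 1 / (1/√w + 4 e √Λ / cm²)`. -/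
theorem inertia_bound {m : Fin 3 → ℝ} (hm : ∀ a, 0 < m a) {e T : ℝ} (he : 0 < e) (hT : 0 < T)
    {u : ℂ} (hu : ‖u‖ = 1) {cm : ℝ} (hcm : 0 < cm) : ∃ ι > 0, ∀ S c κ₁ κ₂ b,
      Orb m e T u S c κ₁ κ₂ b → cm ≤ |CU (c 0)| → ∀ s ∈ Icc 0 S, ι ≤ IU m (c s) := by
  obtain ⟨Λ, hΛ, hsize⟩ := size_bounds hm he hT hu
  obtain ⟨w, hw, hfar⟩ := far_of_WW_le hm he
  have hsw : 0 < √w := Real.sqrt_pos.2 hw
  have hB : 0 < 1 / √w + 4 * e * √Λ / cm ^ 2 := by positivity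
  refine ⟨(1 / (1 / √w + 4 * e * √Λ / cm ^ 2)) ^ 2, by positivity, ?_⟩
  intro S c κ₁ κ₂ b h hc s hs
  have hcu0 : CU (c 0) ≠ 0 := by
    intro h0
    rw [h0, abs_zero] at hc
    linarith
  have hcu : ∀ s ∈ Icc 0 S, CU (c s) ≠ 0 := fun s hs => by rw [h.cu_eq hs]; exact hcu0
  have hM : MM m ≠ 0 := by
    have h0 := hm 0
    have h1 := hm 1
    have h2 := hm 2
    unfold MM
    positivity
  have hder : ∀ s ∈ Icc 0 S, HasDerivAt c (VF m (-e) (c s)) s := fun s hs =>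
    h.sol.hasDerivAt (by rw [uIcc_of_le h.pos.le]; exact hs)
  have key := inertia_lower (S := S) (e := e) (cc := CU (c 0)) (w₁ := w) (Λ := Λ)
    (I := fun s => IU m (c s)) (D := fun s => DU (c s)) (K := fun s => KK m (c s))
    (W := fun s => WW m (c s)) (ρ := fun s => rho (c s)) h.pos he hw
    (fun s hs => hasDerivAt_IU hM (fun a => (hm a).ne') (hder s hs))
    (fun s hs => by
      refine (hasDerivAt_DU (hder s hs)).congr_deriv ?_
      rw [h.gam_zero hs]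
      ring)
    (ELow_WW_cont h) (ELow_rho_cont h)
    (fun s hs => h.kk_eq hs)
    (fun s hs => by
      have h1 := sundman hm (c s)
      rwa [h.cu_eq hs] at h1)
    (fun s hs => IU_pos hm (hcu s hs)) (fun s hs => rho_nonneg _)
    (fun s hs h0 => by
      have h1 := WW_pos hm (hcu s hs)
      have h2 := h.kk_eq hs
      show 0 < KK m (c s)
      have h3 : rho (c s) = 0 := h0
      rw [h2, h3]
      linarith)
    ⟨by show IU m (c S) = _; rw [h.per, IU_sym h.ok],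
      by show DU (c S) = _; rw [h.per, DU_sym h.ok],
      by show WW m (c S) = _; rw [h.per, WW_sym h.ok],
      by show rho (c S) = _; rw [h.per, rho_sym h.ok]⟩
    (fun s hs h1 => (hfar (c s) (hcu s hs) h1).2.1)
    (fun s hs => ((hsize S c κ₁ κ₂ b h).1 s hs).1) s hs
  have hI : 0 < IU m (c s) := IU_pos hm (hcu s hs)
  have hsI : 0 < √(IU m (c s)) := Real.sqrt_pos.2 hI
  have hcc : 0 < CU (c 0) ^ 2 := by positivity
  have hcc2 : cm ^ 2 ≤ CU (c 0) ^ 2 := by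
    rw [← sq_abs (CU (c 0))]
    exact pow_le_pow_left₀ hcm.le hc 2
  have h1 : 1 / √(IU m (c s)) ≤ 1 / √w + 4 * e * √Λ / cm ^ 2 := by
    have h2 : 1 / √(IU m (c s)) ≤ 1 / √w + 4 * e * √Λ / CU (c 0) ^ 2 := by
      have h3 : CU (c 0) ^ 2 * (1 / √(IU m (c s))) ≤
          CU (c 0) ^ 2 * (1 / √w + 4 * e * √Λ / CU (c 0) ^ 2) := by
        have h4 : CU (c 0) ^ 2 * (1 / √w + 4 * e * √Λ / CU (c 0) ^ 2) =
            CU (c 0) ^ 2 / √w + 4 * e * √Λ := by
          field_simp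
        rw [h4, mul_one_div]
        exact key
      exact le_of_mul_le_mul_left h3 hcc
    refine h2.trans ?_
    have h5 : 4 * e * √Λ / CU (c 0) ^ 2 ≤ 4 * e * √Λ / cm ^ 2 := by
      apply div_le_div_of_nonneg_left
      · positivity
      · positivity
      · exact hcc2
    linarith
  have h2 : 1 / (1 / √w + 4 * e * √Λ / cm ^ 2) ≤ √(IU m (c s)) := by
    rw [div_le_iff₀ hB]
    rw [div_le_iff₀ hsI] at h1
    linarith
  calc (1 / (1 / √w + 4 * e * √Λ / cm ^ 2)) ^ 2 ≤ √(IU m (c s)) ^ 2 :=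
        pow_le_pow_left₀ (by positivity) h2 2
    _ = IU m (c s) := Real.sq_sqrt hI.le

/-- Proof.  `two_large` gives `WW ≥ w₀ > 0` on the orbit, and `∫ WW = 2 e T`. -/
theorem period_bound {m : Fin 3 → ℝ} (hm : ∀ a, 0 < m a) {e T : ℝ} (he : 0 < e) (hT : 0 < T)
    {u : ℂ} (hu : ‖u‖ = 1) {cm : ℝ} (hcm : 0 < cm) : ∃ B > 0, ∀ S c κ₁ κ₂ b,
      Orb m e T u S c κ₁ κ₂ b → cm ≤ |CU (c 0)| → S ≤ B := by
  obtain ⟨ι, hι, hin⟩ := inertia_bound hm he hT hu hcm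
  obtain ⟨r, hr, htwo⟩ := two_large hm hι
  have h0 := hm 0
  have h1 := hm 1
  have h2 := hm 2
  set w₀ : ℝ := min (m 1 * m 2) (min (m 2 * m 0) (m 0 * m 1)) * (r * r) with hw₀
  have hw0 : 0 < w₀ := by positivity
  have hWW : ∀ X : Up, ι ≤ IU m X → w₀ ≤ WW m X := by
    intro X hX
    obtain ⟨k, hk⟩ := htwo X hX
    have n0 := nn_nonneg X 0
    have n1 := nn_nonneg X 1
    have n2 := nn_nonneg X 2
    have a0 : 0 ≤ m 1 * m 2 * (nn X 1 * nn X 2) := by positivity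
    have a1 : 0 ≤ m 2 * m 0 * (nn X 2 * nn X 0) := by positivity
    have a2 : 0 ≤ m 0 * m 1 * (nn X 0 * nn X 1) := by positivity
    have b0 : min (m 1 * m 2) (min (m 2 * m 0) (m 0 * m 1)) ≤ m 1 * m 2 := min_le_left _ _
    have b1 : min (m 1 * m 2) (min (m 2 * m 0) (m 0 * m 1)) ≤ m 2 * m 0 :=
      (min_le_right _ _).trans (min_le_left _ _)
    have b2 : min (m 1 * m 2) (min (m 2 * m 0) (m 0 * m 1)) ≤ m 0 * m 1 :=
      (min_le_right _ _).trans (min_le_right _ _)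
    have hWW : WW m X = m 1 * m 2 * (nn X 1 * nn X 2) + m 2 * m 0 * (nn X 2 * nn X 0) +
        m 0 * m 1 * (nn X 0 * nn X 1) := rfl
    fin_cases k
    · have c1 : r ≤ nn X 1 := hk 1 (by decide)
      have c2 : r ≤ nn X 2 := hk 2 (by decide)
      have : w₀ ≤ m 1 * m 2 * (nn X 1 * nn X 2) :=
        mul_le_mul b0 (mul_le_mul c1 c2 hr.le n1) (by positivity) (by positivity)
      linarith
    · have c1 : r ≤ nn X 2 := hk 2 (by decide)
      have c2 : r ≤ nn X 0 := hk 0 (by decide)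
      have : w₀ ≤ m 2 * m 0 * (nn X 2 * nn X 0) :=
        mul_le_mul b1 (mul_le_mul c1 c2 hr.le n2) (by positivity) (by positivity)
      linarith
    · have c1 : r ≤ nn X 0 := hk 0 (by decide)
      have c2 : r ≤ nn X 1 := hk 1 (by decide)
      have : w₀ ≤ m 0 * m 1 * (nn X 0 * nn X 1) :=
        mul_le_mul b2 (mul_le_mul c1 c2 hr.le n0) (by positivity) (by positivity)
      linarith
  refine ⟨2 * e * T / w₀, by positivity, ?_⟩
  intro S c κ₁ κ₂ b h hc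
  rw [le_div_iff₀ hw0, ← h.int_WW]
  have h3 : ∫ s in (0 : ℝ)..S, w₀ = S * w₀ := by simp
  rw [← h3]
  apply intervalIntegral.integral_mono_on h.pos.le
  · exact intervalIntegrable_const
  · refine ContinuousOn.intervalIntegrable ?_
    rw [uIcc_of_le h.pos.le]
    exact ELow_WW_cont h
  · intro s hs
    exact hWW _ (hin S c κ₁ κ₂ b h hc s hs)

/-- Proof.  `∫ (WW - 2 e rho) = 0`, so `WW ≤ 2 e rho` somewhere; `far_of_WW_le`. -/
theorem exists_far {m : Fin 3 → ℝ} (hm : ∀ a, 0 < m a) {e T : ℝ} (he : 0 < e) {u : ℂ} :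
    ∃ w > 0, ∀ S c κ₁ κ₂ b, Orb m e T u S c κ₁ κ₂ b → CU (c 0) ≠ 0 →
      ∃ s ∈ Icc 0 S, w ≤ rho (c s) := by
  obtain ⟨w, hw, hfar⟩ := far_of_WW_le hm he
  refine ⟨w, hw, ?_⟩
  intro S c κ₁ κ₂ b h hcu
  have hWi : IntervalIntegrable (fun s => WW m (c s)) MeasureTheory.volume 0 S := by
    refine ContinuousOn.intervalIntegrable ?_
    rw [uIcc_of_le h.pos.le]
    exact ELow_WW_cont h
  have hRi : IntervalIntegrable (fun s => 2 * e * rho (c s)) MeasureTheory.volume 0 S := by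
    refine ContinuousOn.intervalIntegrable ?_
    rw [uIcc_of_le h.pos.le]
    exact continuousOn_const.mul (ELow_rho_cont h)
  have hex : ∃ s ∈ Icc 0 S, WW m (c s) ≤ 2 * e * rho (c s) := by
    by_contra hne
    push_neg at hne
    have h1 : ∫ s in (0 : ℝ)..S, 2 * e * rho (c s) < ∫ s in (0 : ℝ)..S, WW m (c s) := by
      apply intervalIntegral.integral_lt_integral_of_continuousOn_of_le_of_exists_lt h.pos
      · exact continuousOn_const.mul (ELow_rho_cont h)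
      · exact ELow_WW_cont h
      · intro s hs
        exact (hne s ⟨hs.1.le, hs.2⟩).le
      · exact ⟨0, ⟨le_refl _, h.pos.le⟩, hne 0 ⟨le_refl _, h.pos.le⟩⟩
    rw [intervalIntegral.integral_const_mul, h.time, h.int_WW] at h1
    exact lt_irrefl _ h1
  obtain ⟨s, hs, hle⟩ := hex
  exact ⟨s, hs, (hfar (c s) (by rw [h.cu_eq hs]; exact hcu) hle).2.2⟩

end Pool.Agent.MP_5027f4_cont
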