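import Pool.Agent.Lib_MP_5027f4_cont.EInt

/-!
PIECE [ESizB] (MP_5027f4_mp, T1).  Size bound, periodic case.
-/

open Set Filter Topology Metric Polynomial
open scoped ComplexConjugate ContDiff
open Pool.Agent.MP_5027f4_mp

namespace Pool.Agent.MP_5027f4_cont

theorem esb_cases (k l : Fin 3) : l = k ∨ l = k + 1 ∨ l = k + 2 := by
  revert k l
  decide

theorem esb_erase (k : Fin 3) (f : Fin 3 → ℂ) :
    ∑ b ∈ Finset.univ.erase k, f b = f (k + 1) + f (k + 2) := by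
  have h1 : Finset.univ.erase k = {k + 1, k + 2} := by
    revert k
    decide
  have h2 : k + 1 ≠ k + 2 := by
    revert k
    decide
  rw [h1, Finset.sum_pair h2]

theorem esb_MM (m : Fin 3 → ℝ) (k : Fin 3) : m k + m (k + 1) + m (k + 2) = MM m := by
  rw [MM]
  fin_cases k
  · show m 0 + m 1 + m 2 = m 0 + m 1 + m 2
    rfl
  · show m 1 + m 2 + m 0 = m 0 + m 1 + m 2
    ring
  · show m 2 + m 0 + m 1 = m 0 + m 1 + m 2
    ring

theorem esb_sub {m : Fin 3 → ℝ} (hM : MM m ≠ 0) (X : Up) (k : Fin 3) :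
    qq m X (k + 2) - qq m X (k + 1) = zz X k := by
  fin_cases k
  · exact qq_sub_21 hM X
  · exact qq_sub_02 hM X
  · exact qq_sub_10 hM X

theorem esb_sum (m : Fin 3 → ℝ) (X : Up) (k : Fin 3) :
    (m k : ℂ) * qq m X k + (m (k + 1) : ℂ) * qq m X (k + 1) +
      (m (k + 2) : ℂ) * qq m X (k + 2) = 0 := by
  have h := sum_qq (m := m) X
  rw [← Finset.add_sum_erase Finset.univ _ (Finset.mem_univ k), esb_erase] at h
  simp only [Complex.real_smul] at h
  rw [add_assoc]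
  exact h

/-- the outer body is seen in the direction `- a` from both others -/
theorem esb_neg {mi mj mk : ℝ} (hi : 0 < mi) (hj : 0 < mj) (hk : 0 < mk) {qi qj qk a : ℂ}
    {D R : ℝ} (hsum : (mk : ℂ) * qk + (mi : ℂ) * qi + (mj : ℂ) * qj = 0) (h1 : ‖qk - a‖ ≤ D)
    (h2 : ‖qj - qi‖ ≤ R) (hR : 0 ≤ R) (ha : D + R < ‖a‖) : (conj a * (qi - qk)).re < 0 := by
  have hD : 0 ≤ D := (norm_nonneg _).trans h1
  have ha0 : 0 < ‖a‖ := by linarith
  have e1 : ((mi + mj : ℝ) : ℂ) * (conj a * (qi - qk)) =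
      -(((mk + mi + mj : ℝ) : ℂ) * (conj a * a + conj a * (qk - a))) -
        (mj : ℂ) * (conj a * (qj - qi)) := by
    push_cast
    linear_combination (conj a) * hsum
  have e2 := congrArg Complex.re e1
  rw [Complex.re_ofReal_mul, Complex.sub_re, Complex.neg_re, Complex.re_ofReal_mul,
    Complex.re_ofReal_mul, Complex.add_re, ← Complex.normSq_eq_conj_mul_self, Complex.ofReal_re,
    Complex.normSq_eq_norm_sq] at e2
  have b1 : -(‖a‖ * D) ≤ (conj a * (qk - a)).re := by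
    have h3 := Complex.abs_re_le_norm (conj a * (qk - a))
    rw [norm_mul, Complex.norm_conj] at h3
    have h4 : ‖a‖ * ‖qk - a‖ ≤ ‖a‖ * D := mul_le_mul_of_nonneg_left h1 ha0.le
    have h5 := neg_abs_le (conj a * (qk - a)).re
    linarith
  have b2 : -(‖a‖ * R) ≤ (conj a * (qj - qi)).re := by
    have h3 := Complex.abs_re_le_norm (conj a * (qj - qi))
    rw [norm_mul, Complex.norm_conj] at h3
    have h4 : ‖a‖ * ‖qj - qi‖ ≤ ‖a‖ * R := mul_le_mul_of_nonneg_left h2 ha0.le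
    have h5 := neg_abs_le (conj a * (qj - qi)).re
    linarith
  have hMp : 0 < mk + mi + mj := by positivity
  have b3 : (mk + mi + mj) * (‖a‖ ^ 2 - ‖a‖ * D) ≤
      (mk + mi + mj) * (‖a‖ ^ 2 + (conj a * (qk - a)).re) :=
    mul_le_mul_of_nonneg_left (by linarith) hMp.le
  have b4 : mj * -(‖a‖ * R) ≤ mj * (conj a * (qj - qi)).re :=
    mul_le_mul_of_nonneg_left b2 hj.le
  have b5 : mj * (‖a‖ * R) ≤ (mk + mi + mj) * (‖a‖ * R) :=
    mul_le_mul_of_nonneg_right (by linarith) (mul_nonneg ha0.le hR)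
  have b6 : 0 < (mk + mi + mj) * (‖a‖ * (‖a‖ - D - R)) :=
    mul_pos hMp (mul_pos ha0 (by linarith))
  have b7 : (mi + mj) * (conj a * (qi - qk)).re < 0 := by
    rw [e2]
    nlinarith [b3, b4, b5, b6]
  by_contra hcon
  rw [not_lt] at hcon
  have := mul_nonneg (by linarith : (0 : ℝ) ≤ mi + mj) hcon
  linarith

/-- displacements along the orbit -/
theorem esb_dist {m : Fin 3 → ℝ} (hm : ∀ a, 0 < m a) {e T S : ℝ} {u κ₁ κ₂ : ℂ} {b : Bool}
    {c : ℝ → Up} (he : 0 < e) (h : Orb m e T u S c κ₁ κ₂ b) {s : ℝ} (hs : s ∈ Icc 0 S)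
    (k : Fin 3) : ‖qq m (c s) k - qq m (c 0) k‖ ≤ √T * √(2 * e * T / m k) := by
  have h1 := Orb.qq_dist hm he h (le_refl 0) hs.1 hs.2 k
  have hc : ContinuousOn (fun s => rho (c s)) (uIcc 0 S) :=
    contDiff_rho.continuous.comp_continuousOn h.sol.continuousOn
  have h2 : (∫ r in (0 : ℝ)..s, rho (c r)) ≤ T := by
    rw [← h.time]
    exact intervalIntegral.integral_mono_interval le_rfl hs.1 hs.2
      (Filter.Eventually.of_forall fun r => rho_nonneg (c r)) hc.intervalIntegrable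
  refine h1.trans (mul_le_mul_of_nonneg_right (Real.sqrt_le_sqrt h2) (Real.sqrt_nonneg _))

/-- the contradiction if the outer body is far away -/
theorem esb_far {m : Fin 3 → ℝ} (hm : ∀ a, 0 < m a) {e T S : ℝ} {κ₁ κ₂ : ℂ} {b : Bool}
    {c : ℝ → Up} (hT : 0 < T) (h : Orb m e T 1 S c κ₁ κ₂ b) (k : Fin 3) {D R : ℝ}
    (hR : 0 ≤ R) (h1 : ∀ s ∈ Icc 0 S, ‖qq m (c s) k - qq m (c 0) k‖ ≤ D)
    (h2 : ∀ s ∈ Icc 0 S, ‖qq m (c s) (k + 2) - qq m (c s) (k + 1)‖ ≤ R)
    (ha : D + R < ‖qq m (c 0) k‖) : False := by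
  have hM : MM m ≠ 0 := by
    have h0 := hm 0
    have h1 := hm 1
    have h2 := hm 2
    rw [MM]
    positivity
  have hn1 : ∀ s ∈ Icc 0 S, (conj (qq m (c 0) k) * (qq m (c s) (k + 1) - qq m (c s) k)).re < 0 := by
    intro s hs
    exact esb_neg (hm (k + 1)) (hm (k + 2)) (hm k) (esb_sum m (c s) k) (h1 s hs) (h2 s hs) hR ha
  have hn2 : ∀ s ∈ Icc 0 S, (conj (qq m (c 0) k) * (qq m (c s) (k + 2) - qq m (c s) k)).re < 0 := by
    intro s hs
    have h3 := esb_sum m (c s) k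
    rw [add_right_comm] at h3
    refine esb_neg (hm (k + 2)) (hm (k + 1)) (hm k) h3 (h1 s hs) ?_ hR ha
    rw [norm_sub_rev]
    exact h2 s hs
  have hne1 : ∀ s ∈ Icc 0 S, qq m (c s) (k + 1) - qq m (c s) k ≠ 0 := by
    intro s hs h0
    have h3 := hn1 s hs
    rw [h0, mul_zero, Complex.zero_re] at h3
    exact lt_irrefl _ h3
  have hne2 : ∀ s ∈ Icc 0 S, qq m (c s) (k + 2) - qq m (c s) k ≠ 0 := by
    intro s hs h0
    have h3 := hn2 s hs
    rw [h0, mul_zero, Complex.zero_re] at h3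
    exact lt_irrefl _ h3
  have hff : ∀ s ∈ Icc 0 S, ∀ i, i ≠ k → ff (c s) i ≠ 0 := by
    intro s hs i hik h0
    have hz : zz (c s) i = 0 := by
      rw [← norm_eq_zero, norm_zz, nn, h0, map_zero]
    rcases esb_cases k i with h3 | h3 | h3
    · exact hik h3
    · have h4 := esb_sub hM (c s) (k + 1)
      have e1 : k + 1 + 2 = k := by
        clear * -
        revert k
        decide
      have e2 : k + 1 + 1 = k + 2 := by
        clear * -
        revert k
        decide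
      rw [e1, e2, ← h3, hz] at h4
      apply hne2 s hs
      rw [← neg_sub, h4, neg_zero]
    · have h4 := esb_sub hM (c s) (k + 2)
      have e1 : k + 2 + 2 = k + 1 := by
        clear * -
        revert k
        decide
      have e2 : k + 2 + 1 = k := by
        clear * -
        revert k
        decide
      rw [e1, e2, ← h3, hz] at h4
      exact hne1 s hs h4
  have huIcc : uIcc 0 S = Icc 0 S := uIcc_of_le h.pos.le
  -- the force
  have hacc : ∀ s ∈ Icc 0 S, (conj (qq m (c 0) k) * acc m (qq m (c s)) k).re < 0 := by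
    intro s hs
    rw [acc, esb_erase, mul_add, Complex.add_re, mul_smul_comm, mul_smul_comm, Complex.smul_re,
      Complex.smul_re, smul_eq_mul, smul_eq_mul]
    have p1 : 0 < m (k + 1) / ‖qq m (c s) (k + 1) - qq m (c s) k‖ ^ 3 :=
      div_pos (hm _) (pow_pos (norm_pos_iff.2 (hne1 s hs)) 3)
    have p2 : 0 < m (k + 2) / ‖qq m (c s) (k + 2) - qq m (c s) k‖ ^ 3 :=
      div_pos (hm _) (pow_pos (norm_pos_iff.2 (hne2 s hs)) 3)
    have q1 := mul_neg_of_pos_of_neg p1 (hn1 s hs)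
    have q2 := mul_neg_of_pos_of_neg p2 (hn2 s hs)
    linarith
  -- the function `g`
  have hg : ∀ s ∈ Icc 0 S, HasDerivAt (fun s => (conj (qq m (c 0) k) * pp (c s) k).re)
      (rho (c s) * m k * (conj (qq m (c 0) k) * acc m (qq m (c s)) k).re) s := by
    intro s hs
    have h3 := hasDerivAt_pp hM (fun a => (hm a).ne') (h.sol.hasDerivAt (by rw [huIcc]; exact hs))
      (h.gam_zero hs) k (hff s hs)
    have h4 := h3.const_mul (conj (qq m (c 0) k))
    have h5 := Complex.reCLM.hasFDerivAt.comp_hasDerivAt s h4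
    refine HasDerivAt.congr_deriv h5 ?_
    rw [Complex.reCLM_apply, mul_left_comm, Complex.re_ofReal_mul]
  obtain ⟨s₀, hs₀, hr⟩ : ∃ s ∈ Icc 0 S, 0 < rho (c s) := by
    by_contra hcon
    push Not at hcon
    have h3 : ∫ s in (0 : ℝ)..S, rho (c s) = ∫ s in (0 : ℝ)..S, (0 : ℝ) := by
      apply intervalIntegral.integral_congr
      intro s hs
      rw [huIcc] at hs
      exact le_antisymm (hcon s hs) (rho_nonneg _)
    rw [h.time, intervalIntegral.integral_zero] at h3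
    exact hT.ne' h3
  have hanti : AntitoneOn (fun s => (conj (qq m (c 0) k) * pp (c s) k).re) (Icc 0 S) := by
    apply antitoneOn_of_deriv_nonpos (convex_Icc 0 S)
    · intro s hs
      exact (hg s hs).continuousAt.continuousWithinAt
    · intro s hs
      exact (hg s (interior_subset hs)).differentiableAt.differentiableWithinAt
    · intro s hs
      rw [(hg s (interior_subset hs)).deriv]
      exact mul_nonpos_of_nonneg_of_nonpos (mul_nonneg (rho_nonneg _) (hm k).le)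
        (hacc s (interior_subset hs)).le
  have hend : (conj (qq m (c 0) k) * pp (c S) k).re = (conj (qq m (c 0) k) * pp (c 0) k).re := by
    rw [h.per, pp_sym h.ok, one_mul]
  have h0mem : (0 : ℝ) ∈ Icc 0 S := ⟨le_rfl, h.pos.le⟩
  have hSmem : S ∈ Icc 0 S := ⟨h.pos.le, le_rfl⟩
  have hconst : ∀ s ∈ Icc 0 S, (conj (qq m (c 0) k) * pp (c s) k).re =
      (conj (qq m (c 0) k) * pp (c 0) k).re := by
    intro s hs
    apply le_antisymm
    · exact hanti h0mem hs hs.1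
    · rw [← hend]
      exact hanti hs hSmem hs.2
  have h5 : HasDerivWithinAt (fun s => (conj (qq m (c 0) k) * pp (c s) k).re) 0 (Icc 0 S) s₀ :=
    (hasDerivWithinAt_const s₀ (Icc 0 S) ((conj (qq m (c 0) k) * pp (c 0) k).re)).congr
      hconst (hconst s₀ hs₀)
  have h6 := (uniqueDiffOn_Icc h.pos s₀ hs₀).eq_deriv _ (hg s₀ hs₀).hasDerivWithinAt h5
  have h7 := mul_neg_of_pos_of_neg (mul_pos hr (hm k)) (hacc s₀ hs₀)
  linarith

/-- Proof.  `δ k = √T √(2 e T / m k)`, `R₁ = (Σ mᵢ mⱼ)/e`, `k` with `nn (c 0) k ≤ R₁`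
(`Orb.close_pair`), `i, j` the other indices, `R₂ = R₁ + δ i + δ j`: `‖qᵢ - qⱼ‖ ≤ R₂` on `[0, S]` and
`‖q_k (s) - q_k (0)‖ ≤ δ k` (`Orb.qq_dist`).  Suppose `‖q_k (0)‖ ≥ L₀ = δ k + R₂ + 1`.  From
`M q_k = - mᵢ (qᵢ - q_k) - mⱼ (qⱼ - q_k)` (`sum_qq`):
`(mᵢ + mⱼ) (qᵢ - q_k) = - M q_k - mⱼ (qⱼ - qᵢ)`, so
`(mᵢ + mⱼ) Re (conj q_k(0) (qᵢ - q_k)(s)) ≤ - M (‖q_k(0)‖² - δ k ‖q_k(0)‖) + mⱼ R₂ ‖q_k(0)‖ < 0`, the
same for `j`.  In particular `qᵢ ≠ q_k`, `qⱼ ≠ q_k`, i.e. `ff (c s) i ≠ 0`, `ff (c s) j ≠ 0`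
(`norm_zz`, the differences of `qq`).  By `hasDerivAt_pp`, `g s = Re (conj q_k(0) * pp (c s) k)` has
the derivative `rho m k Re (conj q_k(0) acc_k) ≤ 0`, negative where `rho > 0`.  But `g S = g 0`
(`pp_sym` with `u = 1`), so `g` is constant, `rho = 0` on `(0, S)` and `T = 0`, a contradiction
(`0 < T`).  So `‖q_k(0)‖ < L₀`, then `‖qᵢ(0) - q_k(0)‖ ≤ (M L₀ + mⱼ R₁)/(mᵢ + mⱼ)`, and all positions at
the time `0` are bounded; `Orb.qq_dist` again.  Take the maximum of the bounds over `k`. -/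
theorem size_one {m : Fin 3 → ℝ} (hm : ∀ a, 0 < m a) {e T : ℝ} (he : 0 < e) (hT : 0 < T) :
    ∃ Q : ℝ, ∀ S c κ₁ κ₂ b, Orb m e T 1 S c κ₁ κ₂ b → ∀ s ∈ Icc 0 S, ∀ k,
      ‖qq m (c s) k‖ ≤ Q := by
  have hm0 := hm 0
  have hm1 := hm 1
  have hm2 := hm 2
  have hMp : 0 < MM m := by
    rw [MM]
    positivity
  set d : Fin 3 → ℝ := fun k => √T * √(2 * e * T / m k) with hd
  have hd0 : ∀ k, 0 ≤ d k := fun k => mul_nonneg (Real.sqrt_nonneg _) (Real.sqrt_nonneg _)
  set D : ℝ := d 0 + d 1 + d 2 with hD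
  have hdD : ∀ k, d k ≤ D := by
    intro k
    have h0 := hd0 0
    have h1 := hd0 1
    have h2 := hd0 2
    fin_cases k
    · show d 0 ≤ D
      linarith
    · show d 1 ≤ D
      linarith
    · show d 2 ≤ D
      linarith
  have hD0 : 0 ≤ D := (hd0 0).trans (hdD 0)
  set R₁ : ℝ := (m 1 * m 2 + m 2 * m 0 + m 0 * m 1) / e with hR₁
  have hR₁0 : 0 ≤ R₁ := by positivity
  set L : ℝ := D + (R₁ + 2 * D) + 1 with hL
  have hL0 : 0 ≤ L := by linarith
  set W : ℝ := 1 / m 0 + 1 / m 1 + 1 / m 2 with hW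
  have hW0 : 0 ≤ W := by positivity
  have hWk : ∀ k, 1 / m k ≤ W := by
    intro k
    have h0 : 0 < 1 / m 0 := by positivity
    have h1 : 0 < 1 / m 1 := by positivity
    have h2 : 0 < 1 / m 2 := by positivity
    fin_cases k
    · show 1 / m 0 ≤ W
      linarith
    · show 1 / m 1 ≤ W
      linarith
    · show 1 / m 2 ≤ W
      linarith
  refine ⟨L + MM m * (L + R₁) * W + D, ?_⟩
  intro S c κ₁ κ₂ b h s hs l
  have hdist : ∀ s ∈ Icc 0 S, ∀ k, ‖qq m (c s) k - qq m (c 0) k‖ ≤ D := fun s hs k =>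
    (esb_dist hm he h hs k).trans (hdD k)
  have h0mem : (0 : ℝ) ∈ Icc 0 S := ⟨le_rfl, h.pos.le⟩
  obtain ⟨k, hk⟩ := h.close_pair hm he h0mem
  have hsub0 : ‖qq m (c 0) (k + 2) - qq m (c 0) (k + 1)‖ ≤ R₁ := by
    rw [esb_sub hMp.ne', norm_zz]
    exact hk
  have hsub : ∀ s ∈ Icc 0 S, ‖qq m (c s) (k + 2) - qq m (c s) (k + 1)‖ ≤ R₁ + 2 * D := by
    intro s hs
    have e1 : qq m (c s) (k + 2) - qq m (c s) (k + 1) =
        (qq m (c 0) (k + 2) - qq m (c 0) (k + 1)) + (qq m (c s) (k + 2) - qq m (c 0) (k + 2)) -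
          (qq m (c s) (k + 1) - qq m (c 0) (k + 1)) := by ring
    rw [e1]
    have h3 := norm_sub_le ((qq m (c 0) (k + 2) - qq m (c 0) (k + 1)) +
      (qq m (c s) (k + 2) - qq m (c 0) (k + 2))) (qq m (c s) (k + 1) - qq m (c 0) (k + 1))
    have h4 := norm_add_le (qq m (c 0) (k + 2) - qq m (c 0) (k + 1))
      (qq m (c s) (k + 2) - qq m (c 0) (k + 2))
    have h5 := hdist s hs (k + 2)
    have h6 := hdist s hs (k + 1)
    linarith
  have hqk : ‖qq m (c 0) k‖ ≤ L := by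
    by_contra hcon
    rw [not_le] at hcon
    exact esb_far hm hT h k (by linarith : (0 : ℝ) ≤ R₁ + 2 * D) (fun s hs => hdist s hs k) hsub
      (by linarith)
  have hMk := esb_MM m k
  -- the two other bodies at the time `0`
  have aux : ∀ (mi mj mk : ℝ) (qi qj qk : ℂ), 0 < mi → 0 < mj → 0 < mk → mk + mi + mj = MM m →
      (mk : ℂ) * qk + (mi : ℂ) * qi + (mj : ℂ) * qj = 0 → ‖qk‖ ≤ L → ‖qj - qi‖ ≤ R₁ → 1 / mi ≤ W →
      ‖qi‖ ≤ MM m * (L + R₁) * W := by
    intro mi mj mk qi qj qk hi hj hk hMM hsum h1 h2 h3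
    have e1 : ((mi + mj : ℝ) : ℂ) * qi = -((mk : ℂ) * qk) - (mj : ℂ) * (qj - qi) := by
      push_cast
      linear_combination hsum
    have e2 := congrArg norm e1
    rw [norm_mul, Complex.norm_real, Real.norm_eq_abs, abs_of_pos (by positivity)] at e2
    have e3 := norm_sub_le (-((mk : ℂ) * qk)) ((mj : ℂ) * (qj - qi))
    rw [norm_neg, norm_mul, norm_mul, Complex.norm_real, Complex.norm_real, Real.norm_eq_abs,
      Real.norm_eq_abs, abs_of_pos hk, abs_of_pos hj] at e3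
    have e4 : mk * ‖qk‖ ≤ MM m * L := by
      apply mul_le_mul (by linarith) h1 (norm_nonneg _) hMp.le
    have e5 : mj * ‖qj - qi‖ ≤ MM m * R₁ := by
      apply mul_le_mul (by linarith) h2 (norm_nonneg _) hMp.le
    have e6 : mi * ‖qi‖ ≤ MM m * (L + R₁) := by
      have := mul_nonneg hj.le (norm_nonneg qi)
      nlinarith [e2, e3, e4, e5]
    have e7 : ‖qi‖ = (mi * ‖qi‖) * (1 / mi) := by
      field_simp
    rw [e7]
    exact mul_le_mul e6 h3 (by positivity) (by positivity)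
  have hP0 : 0 ≤ MM m * (L + R₁) * W := by positivity
  have h0 : ‖qq m (c 0) l‖ ≤ L + MM m * (L + R₁) * W := by
    rcases esb_cases k l with h3 | h3 | h3
    · rw [h3]
      linarith
    · rw [h3]
      have h4 := aux (m (k + 1)) (m (k + 2)) (m k) _ _ _ (hm _) (hm _) (hm _) hMk
        (esb_sum m (c 0) k) hqk hsub0 (hWk _)
      linarith
    · rw [h3]
      have h5 := esb_sum m (c 0) k
      rw [add_right_comm] at h5
      have h4 := aux (m (k + 2)) (m (k + 1)) (m k) _ _ _ (hm _) (hm _) (hm _) (by linarith)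
        h5 hqk (by rw [norm_sub_rev]; exact hsub0) (hWk _)
      linarith
  have h8 := hdist s hs l
  have h9 := norm_add_le (qq m (c 0) l) (qq m (c s) l - qq m (c 0) l)
  rw [add_sub_cancel] at h9
  linarith

end Pool.Agent.MP_5027f4_cont
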