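import Pool.Agent.Lib_MP_5027f4_cont.ESizA
import Pool.Agent.Lib_MP_5027f4_cont.ESizB

/-!
PIECE [EMom] (MP_5027f4_mp, T1).  Bounds of the moment of inertia and of the angular momentum.
-/

open Set Filter Topology Metric Polynomial
open scoped ComplexConjugate ContDiff
open Pool.Agent.MP_5027f4_mp

namespace Pool.Agent.MP_5027f4_cont

private theorem emom_cont {m : Fin 3 → ℝ} {e T S : ℝ} {u κ₁ κ₂ : ℂ} {b : Bool} {c : ℝ → Up}
    (h : Orb m e T u S c κ₁ κ₂ b) : ContinuousOn c (Icc 0 S) := by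
  obtain ⟨a', b', ha, hb, haS, hSb, hd⟩ := h.sol
  intro s hs
  exact (hd s ⟨ha.trans_le hs.1, hs.2.trans_lt hSb⟩).continuousAt.continuousWithinAt

private theorem emom_inertia {m : Fin 3 → ℝ} (hm : ∀ a, 0 < m a) {Q : ℝ} {X : Up}
    (h : ∀ k, ‖qq m X k‖ ≤ Q) : IU m X ≤ MM m * Q ^ 2 := by
  have hM : MM m ≠ 0 := by
    have h0 := hm 0
    have h1 := hm 1
    have h2 := hm 2
    unfold MM
    positivity
  rw [← inertia_qq hM X, Fin.sum_univ_three]
  have hk : ∀ k, m k * Complex.normSq (qq m X k) ≤ m k * Q ^ 2 := fun k => by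
    rw [Complex.normSq_eq_norm_sq]
    exact mul_le_mul_of_nonneg_left (pow_le_pow_left₀ (norm_nonneg _) (h k) 2) (hm k).le
  have h0 := hk 0
  have h1 := hk 1
  have h2 := hk 2
  unfold MM
  linarith

private theorem emom_cu {m : Fin 3 → ℝ} (hm : ∀ a, 0 < m a) {e T S A : ℝ} (hT : 0 < T)
    {u κ₁ κ₂ : ℂ} {b : Bool} {c : ℝ → Up} (h : Orb m e T u S c κ₁ κ₂ b)
    (hA : ∀ s ∈ Icc 0 S, IU m (c s) ≤ A) : CU (c 0) ^ 2 ≤ 2 * A * e := by
  have hc := emom_cont h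
  have hu : uIcc (0 : ℝ) S = Icc 0 S := uIcc_of_le h.pos.le
  have hK : IntervalIntegrable (fun s => KK m (c s)) MeasureTheory.volume 0 S := by
    apply ContinuousOn.intervalIntegrable
    rw [hu]
    exact (contDiff_KK m).continuous.comp_continuousOn hc
  have hR : IntervalIntegrable (fun s => rho (c s)) MeasureTheory.volume 0 S := by
    apply ContinuousOn.intervalIntegrable
    rw [hu]
    exact contDiff_rho.continuous.comp_continuousOn hc
  have hle : ∫ s in (0 : ℝ)..S, CU (c 0) ^ 2 * rho (c s) ≤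
      ∫ s in (0 : ℝ)..S, 2 * A * KK m (c s) := by
    refine intervalIntegral.integral_mono_on h.pos.le (hR.const_mul _) (hK.const_mul _) ?_
    intro s hs
    have h1 := sundman hm (c s)
    rw [Orb.cu_eq h hs] at h1
    have h2 : 0 ≤ rho (c s) * DU (c s) ^ 2 := mul_nonneg (rho_nonneg _) (sq_nonneg _)
    have h3 : IU m (c s) * KK m (c s) ≤ A * KK m (c s) :=
      mul_le_mul_of_nonneg_right (hA s hs) (CEnB_KK_nonneg hm _)
    nlinarith
  rw [intervalIntegral.integral_const_mul, intervalIntegral.integral_const_mul, h.time,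
    Orb.int_KK h] at hle
  have h4 : CU (c 0) ^ 2 * T ≤ (2 * A * e) * T := by linarith
  exact le_of_mul_le_mul_right h4 hT

/-- Proof.  `size_ne` / `size_one` and `inertia_qq`: `IU ≤ Λ := (Σ m k) Q²`.  `sundman` integrated over
`[0, S]`: `CU² T ≤ ∫ rho (DU² + CU²) ≤ 2 Λ ∫ KK = 2 Λ e T`. -/
theorem size_bounds {m : Fin 3 → ℝ} (hm : ∀ a, 0 < m a) {e T : ℝ} (he : 0 < e) (hT : 0 < T)
    {u : ℂ} (hu : ‖u‖ = 1) : ∃ Λ > 0, ∀ S c κ₁ κ₂ b, Orb m e T u S c κ₁ κ₂ b →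
      (∀ s ∈ Icc 0 S, IU m (c s) ≤ Λ ∧ ∀ k, ‖qq m (c s) k‖ ≤ Λ) ∧ |CU (c 0)| ≤ Λ := by
  obtain ⟨Q, hQ⟩ : ∃ Q : ℝ, ∀ S c κ₁ κ₂ b, Orb m e T u S c κ₁ κ₂ b → ∀ s ∈ Icc 0 S, ∀ k,
      ‖qq m (c s) k‖ ≤ Q := by
    by_cases h : u = 1
    · subst h
      exact size_one hm he hT
    · exact size_ne hm he h
  have hM : 0 < MM m := by
    have h0 := hm 0
    have h1 := hm 1
    have h2 := hm 2
    unfold MM
    positivity
  have hA0 : 0 ≤ MM m * Q ^ 2 := mul_nonneg hM.le (sq_nonneg _)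
  have hB0 : 0 ≤ 2 * (MM m * Q ^ 2) * e := by positivity
  refine ⟨MM m * Q ^ 2 + |Q| + 2 * (MM m * Q ^ 2) * e + 1, by positivity, ?_⟩
  intro S c κ₁ κ₂ b h
  have hIU : ∀ s ∈ Icc 0 S, IU m (c s) ≤ MM m * Q ^ 2 := fun s hs =>
    emom_inertia hm (hQ S c κ₁ κ₂ b h s hs)
  refine ⟨fun s hs => ⟨?_, fun k => ?_⟩, ?_⟩
  · have h1 := hIU s hs
    have h2 := abs_nonneg Q
    linarith
  · have h1 := hQ S c κ₁ κ₂ b h s hs k
    have h2 := le_abs_self Q
    linarith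
  · have h1 := emom_cu hm hT h hIU
    have h2 : |CU (c 0)| ≤ 1 + CU (c 0) ^ 2 := by
      rw [← sq_abs]
      nlinarith [sq_nonneg (|CU (c 0)| - 1), abs_nonneg (CU (c 0))]
    have h3 := abs_nonneg Q
    linarith

end Pool.Agent.MP_5027f4_cont
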