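import Pool.Agent.Lib_MP_5027f4_cont.ELow

/-!
PIECE [EOut] (MP_5027f4_mp, T1).  Bound of the momentum of the outer body.
-/

open Set Filter Topology Metric Polynomial
open scoped ComplexConjugate ContDiff
open Pool.Agent.MP_5027f4_mp

namespace Pool.Agent.MP_5027f4_cont

theorem EOut_var {a b A : ℝ} {p p' : ℝ → ℂ} {ρ θ : ℝ → ℝ}
    (hp : ∀ s ∈ Icc a b, HasDerivAt p (p' s) s)
    (hθ : ∀ s ∈ Icc a b, HasDerivAt θ (ρ s) s)
    (hb : ∀ s ∈ Icc a b, ‖p' s‖ ≤ A * ρ s) {x y : ℝ} (hx : x ∈ Icc a b) (hy : y ∈ Icc a b)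
    (hxy : x ≤ y) : ‖p y - p x‖ ≤ A * (θ y - θ x) := by
  have hsub : ∀ z ∈ Icc x y, z ∈ Icc a b := fun z hz => ⟨hx.1.trans hz.1, hz.2.trans hy.2⟩
  have h := image_norm_le_of_norm_deriv_right_le_deriv_boundary' (f := fun z => p z - p x)
    (f' := p') (a := x) (b := y) (B := fun z => A * (θ z - θ x)) (B' := fun z => A * ρ z)
    (fun z hz => ((hp z (hsub z hz)).continuousAt.sub continuousAt_const).continuousWithinAt)
    (fun z hz => ((hp z (hsub z (Ico_subset_Icc_self hz))).sub_const (p x)).hasDerivWithinAt)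
    (by simp)
    (fun z hz => (continuousAt_const.mul
      ((hθ z (hsub z hz)).continuousAt.sub continuousAt_const)).continuousWithinAt)
    (fun z hz => (((hθ z (hsub z (Ico_subset_Icc_self hz))).sub_const (θ x)).const_mul A
      ).hasDerivWithinAt)
    (fun z hz => hb z (hsub z (Ico_subset_Icc_self hz)))
  exact h (right_mem_Icc.2 hxy)

theorem EOut_abs {a b A B τ : ℝ} {p p' : ℝ → ℂ} {ρ θ κ : ℝ → ℝ} (hab : a ≤ b)
    (hp : ∀ s ∈ Icc a b, HasDerivAt p (p' s) s)
    (hθ : ∀ s ∈ Icc a b, HasDerivAt θ (ρ s) s)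
    (hρ : ContinuousOn ρ (Icc a b)) (hρ0 : ∀ s ∈ Icc a b, 0 ≤ ρ s)
    (hκ : ContinuousOn κ (Icc a b)) (hA : 0 ≤ A)
    (hb : ∀ s ∈ Icc a b, ‖p' s‖ ≤ A * ρ s)
    (hκp : ∀ s ∈ Icc a b, ρ s * ‖p s‖ ^ 2 ≤ κ s)
    (hτ : θ b - θ a = τ) (hτ0 : 0 < τ)
    (hB : ∫ s in a..b, κ s ≤ B) :
    ∀ s ∈ Icc a b, ‖p s‖ ≤ A * τ + √(B / τ) := by
  have hpc : ContinuousOn (fun s => ‖p s‖) (Icc a b) := fun s hs =>
    (hp s hs).continuousAt.norm.continuousWithinAt
  obtain ⟨x, hx, hmin⟩ := isCompact_Icc.exists_isMinOn (nonempty_Icc.2 hab) hpc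
  have hmin' : ∀ s ∈ Icc a b, ‖p x‖ ≤ ‖p s‖ := fun s hs => hmin hs
  have hmono : ∀ z w, z ∈ Icc a b → w ∈ Icc a b → z ≤ w → θ z ≤ θ w := by
    intro z w hz hw hzw
    have hm : MonotoneOn θ (Icc a b) := by
      refine monotoneOn_of_deriv_nonneg (convex_Icc a b)
        (fun s hs => (hθ s hs).continuousAt.continuousWithinAt)
        (fun s hs => (hθ s (interior_subset hs)).differentiableAt.differentiableWithinAt)
        (fun s hs => ?_)
      rw [(hθ s (interior_subset hs)).deriv]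
      exact hρ0 s (interior_subset hs)
    exact hm hz hw hzw
  have hρi : IntervalIntegrable ρ MeasureTheory.volume a b := by
    refine ContinuousOn.intervalIntegrable ?_
    rwa [uIcc_of_le hab]
  have hκi : IntervalIntegrable κ MeasureTheory.volume a b := by
    refine ContinuousOn.intervalIntegrable ?_
    rwa [uIcc_of_le hab]
  have hint : ∫ s in a..b, ρ s = τ := by
    rw [← hτ]
    refine intervalIntegral.integral_eq_sub_of_hasDerivAt (fun s hs => ?_) hρi
    rw [uIcc_of_le hab] at hs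
    exact hθ s hs
  have h1 : ‖p x‖ ^ 2 * τ ≤ B := by
    calc ‖p x‖ ^ 2 * τ = ∫ s in a..b, ‖p x‖ ^ 2 * ρ s := by
          rw [intervalIntegral.integral_const_mul, hint]
      _ ≤ ∫ s in a..b, κ s := by
          refine intervalIntegral.integral_mono_on hab (hρi.const_mul _) hκi (fun s hs => ?_)
          refine le_trans ?_ (hκp s hs)
          rw [mul_comm]
          exact mul_le_mul_of_nonneg_left
            (pow_le_pow_left₀ (norm_nonneg _) (hmin' s hs) 2) (hρ0 s hs)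
      _ ≤ B := hB
  have h2 : ‖p x‖ ≤ √(B / τ) := by
    refine Real.le_sqrt_of_sq_le ?_
    rw [le_div_iff₀ hτ0]
    exact h1
  intro s hs
  have ha : a ∈ Icc a b := left_mem_Icc.2 hab
  have hbb : b ∈ Icc a b := right_mem_Icc.2 hab
  have h3 : ‖p s - p x‖ ≤ A * τ := by
    rcases le_total x s with hxs | hsx
    · refine (EOut_var hp hθ hb hx hs hxs).trans (mul_le_mul_of_nonneg_left ?_ hA)
      have := hmono a x ha hx hx.1
      have := hmono s b hs hbb hs.2
      linarith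
    · rw [norm_sub_rev]
      refine (EOut_var hp hθ hb hs hx hsx).trans (mul_le_mul_of_nonneg_left ?_ hA)
      have := hmono a s ha hs hs.1
      have := hmono x b hx hbb hx.2
      linarith
  calc ‖p s‖ = ‖(p s - p x) + p x‖ := by rw [sub_add_cancel]
    _ ≤ ‖p s - p x‖ + ‖p x‖ := norm_add_le _ _
    _ ≤ A * τ + √(B / τ) := add_le_add h3 h2

theorem EOut_kin {m : Fin 3 → ℝ} (hm : ∀ a, 0 < m a) (X : Up) (k : Fin 3)
    (hf : ∀ i, i ≠ k → ff X i ≠ 0) : rho X * ‖pp X k‖ ^ 2 ≤ 2 * m k * KK m X := by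
  have t0 := CEnB_term_nonneg hm X 0
  have t1 := CEnB_term_nonneg hm X 1
  have t2 := CEnB_term_nonneg hm X 2
  have hmk := hm k
  have hK : nn X k * Complex.normSq (al X k) / m k / 32 ≤ KK m X := by
    unfold KK
    fin_cases k
    · simp only [Fin.zero_eta]; linarith
    · simp only [Fin.mk_one]; linarith
    · simp only [Fin.reduceFinMk]; linarith
  have hE : rho X * ‖pp X k‖ ^ 2 = nn X k * Complex.normSq (al X k) / 16 := by
    rw [← Complex.normSq_eq_norm_sq]
    fin_cases k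
    · have n1 := ((nn_pos_iff X 1).mpr (hf 1 (by decide))).ne'
      have n2 := ((nn_pos_iff X 2).mpr (hf 2 (by decide))).ne'
      have e : Complex.normSq (pp X 0) = Complex.normSq (al X 0) / (16 * (nn X 1 * nn X 2)) := by
        simp only [pp, Matrix.cons_val_zero, nn, map_div₀, map_mul, Complex.normSq_neg,
          Complex.normSq_conj]
        norm_num
      change rho X * Complex.normSq (pp X 0) = nn X 0 * Complex.normSq (al X 0) / 16
      rw [e, rho]
      field_simp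
    · have n0 := ((nn_pos_iff X 0).mpr (hf 0 (by decide))).ne'
      have n2 := ((nn_pos_iff X 2).mpr (hf 2 (by decide))).ne'
      have e : Complex.normSq (pp X 1) = Complex.normSq (al X 1) / (16 * (nn X 0 * nn X 2)) := by
        simp only [pp, Matrix.cons_val_one, nn, map_div₀, map_mul, Complex.normSq_neg,
          Complex.normSq_conj, Matrix.cons_val_zero]
        norm_num
      change rho X * Complex.normSq (pp X 1) = nn X 1 * Complex.normSq (al X 1) / 16
      rw [e, rho]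
      field_simp
    · have n0 := ((nn_pos_iff X 0).mpr (hf 0 (by decide))).ne'
      have n1 := ((nn_pos_iff X 1).mpr (hf 1 (by decide))).ne'
      have e : Complex.normSq (pp X 2) = Complex.normSq (al X 2) / (16 * (nn X 0 * nn X 1)) := by
        simp only [pp, Matrix.cons_val, nn, map_div₀, map_mul, Complex.normSq_conj]
        norm_num
      change rho X * Complex.normSq (pp X 2) = nn X 2 * Complex.normSq (al X 2) / 16
      rw [e, rho]
      field_simp
  rw [hE]
  have e2 : nn X k * Complex.normSq (al X k) / 16 =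
      2 * m k * (nn X k * Complex.normSq (al X k) / m k / 32) := by
    have := hmk.ne'
    field_simp
    ring
  rw [e2]
  exact mul_le_mul_of_nonneg_left hK (by positivity)

theorem EOut_MM {m : Fin 3 → ℝ} (hm : ∀ a, 0 < m a) : 0 < MM m := by
  have := hm 0
  have := hm 1
  have := hm 2
  unfold MM
  positivity

theorem EOut_dist {m : Fin 3 → ℝ} (hM : MM m ≠ 0) (X : Up) {a b i : Fin 3} (hab : a ≠ b)
    (hia : i ≠ a) (hib : i ≠ b) : ‖qq m X a - qq m X b‖ = nn X i := by
  have h0 := norm_zz X 0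
  have h1 := norm_zz X 1
  have h2 := norm_zz X 2
  rw [← qq_sub_21 hM X] at h0
  rw [← qq_sub_02 hM X] at h1
  rw [← qq_sub_10 hM X] at h2
  have h0' := h0
  have h1' := h1
  have h2' := h2
  rw [norm_sub_rev] at h0' h1' h2'
  fin_cases a <;> fin_cases b <;> fin_cases i <;>
    first
    | exact absurd rfl hab
    | exact absurd rfl hia
    | exact absurd rfl hib
    | assumption

theorem EOut_acc {m : Fin 3 → ℝ} (hm : ∀ a, 0 < m a) (X : Up) (k : Fin 3) {r : ℝ} (hr : 0 < r)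
    (hf : ∀ i, i ≠ k → r ≤ nn X i) : ‖acc m (qq m X) k‖ ≤ MM m / r ^ 2 := by
  have hM : MM m ≠ 0 := (EOut_MM hm).ne'
  have hterm : ∀ b ∈ Finset.univ.erase k,
      ‖(m b / ‖qq m X b - qq m X k‖ ^ 3) • (qq m X b - qq m X k)‖ ≤ m b / r ^ 2 := by
    intro b hb
    have hbk : b ≠ k := Finset.ne_of_mem_erase hb
    obtain ⟨i, hik, hib⟩ : ∃ i : Fin 3, i ≠ k ∧ i ≠ b := by
      clear hb hf
      revert b k
      decide
    have hd := EOut_dist hM X hbk hib hik
    have hn := hf i hik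
    have hn0 : 0 < nn X i := hr.trans_le hn
    rw [norm_smul, norm_div, norm_pow, norm_norm, hd, Real.norm_of_nonneg (hm b).le]
    have e : m b / nn X i ^ 3 * nn X i = m b / nn X i ^ 2 := by
      field_simp
    rw [e]
    have hb0 := hm b
    gcongr
  rw [acc]
  refine (norm_sum_le _ _).trans ((Finset.sum_le_sum hterm).trans ?_)
  have h1 : ∑ b ∈ Finset.univ.erase k, m b / r ^ 2 ≤ ∑ b : Fin 3, m b / r ^ 2 :=
    Finset.sum_le_sum_of_subset_of_nonneg (Finset.erase_subset _ _)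
      (fun b _ _ => by have := hm b; positivity)
  refine h1.trans (le_of_eq ?_)
  rw [← Finset.sum_div, Fin.sum_univ_three, MM]

/-- the bound on one window -/
theorem EOut_win {m : Fin 3 → ℝ} (hm : ∀ a, 0 < m a) {e T : ℝ} (he : 0 < e)
    {u : ℂ} {r : ℝ} (hr : 0 < r) {τ : ℝ} (hτ : 0 < τ)
    (hτr : ∀ i, √τ * √(2 * e * T / m i) ≤ r / 4) {S : ℝ} {c : ℝ → Up} {κ₁ κ₂ : ℂ} {b' : Bool}
    (h : Orb m e T u S c κ₁ κ₂ b') {a b s : ℝ} (ha : 0 ≤ a) (hb : b ≤ S) (hs : s ∈ Icc a b)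
    (hint : ∫ q in a..b, rho (c q) = τ) {k : Fin 3} (hk : ∀ i, i ≠ k → r ≤ nn (c s) i) :
    ‖pp (c s) k‖ ≤ m k * (MM m / (r / 2) ^ 2) * τ + √(2 * m k * (e * T) / τ) := by
  have hM := EOut_MM hm
  have hm' : ∀ a, m a ≠ 0 := fun a => (hm a).ne'
  have hab : a ≤ b := hs.1.trans hs.2
  have hS : (0 : ℝ) ≤ S := h.pos.le
  have hU : ∀ z ∈ Icc a b, z ∈ uIcc 0 S := fun z hz => by
    rw [uIcc_of_le hS]
    exact ⟨ha.trans hz.1, hz.2.trans hb⟩
  have hU' : ∀ z ∈ Icc a b, z ∈ Icc 0 S := fun z hz => ⟨ha.trans hz.1, hz.2.trans hb⟩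
  have hcu : ContinuousOn c (uIcc 0 S) := h.sol.continuousOn
  have hI : ∀ x ∈ uIcc 0 S, ∀ y ∈ uIcc 0 S,
      IntervalIntegrable (fun r => rho (c r)) MeasureTheory.volume x y := fun x hx y hy =>
    ((contDiff_rho.continuous.comp_continuousOn hcu).mono
      (uIcc_subset_uIcc hx hy)).intervalIntegrable
  -- integral over subintervals
  have hmono : ∀ x y, x ∈ Icc a b → y ∈ Icc a b → x ≤ y → ∫ q in x..y, rho (c q) ≤ τ := by
    intro x y hx hy hxy
    have haI : a ∈ Icc a b := left_mem_Icc.2 hab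
    have hbI : b ∈ Icc a b := right_mem_Icc.2 hab
    have e1 := intervalIntegral.integral_add_adjacent_intervals
      (hI a (hU a haI) x (hU x hx)) (hI x (hU x hx) y (hU y hy))
    have e2 := intervalIntegral.integral_add_adjacent_intervals
      (hI a (hU a haI) y (hU y hy)) (hI y (hU y hy) b (hU b hbI))
    have p1 := intervalIntegral.integral_nonneg_of_forall (μ := MeasureTheory.volume) hx.1
      (fun q => rho_nonneg (c q))
    have p2 := intervalIntegral.integral_nonneg_of_forall (μ := MeasureTheory.volume) hy.2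
      (fun q => rho_nonneg (c q))
    linarith
  -- positions
  have hpos : ∀ z ∈ Icc a b, ∀ i, ‖qq m (c z) i - qq m (c s) i‖ ≤ r / 4 := by
    intro z hz i
    rcases le_total s z with hsz | hzs
    · refine (h.qq_dist hm he (ha.trans hs.1) hsz (hz.2.trans hb) i).trans ?_
      refine le_trans ?_ (hτr i)
      exact mul_le_mul_of_nonneg_right (Real.sqrt_le_sqrt (hmono s z hs hz hsz))
        (Real.sqrt_nonneg _)
    · rw [norm_sub_rev]
      refine (h.qq_dist hm he (ha.trans hz.1) hzs (hs.2.trans hb) i).trans ?_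
      refine le_trans ?_ (hτr i)
      exact mul_le_mul_of_nonneg_right (Real.sqrt_le_sqrt (hmono z s hz hs hzs))
        (Real.sqrt_nonneg _)
  have hnn : ∀ z ∈ Icc a b, ∀ i, i ≠ k → r / 2 ≤ nn (c z) i := by
    intro z hz i hik
    obtain ⟨x, y, hxy, hix, hiy⟩ : ∃ x y : Fin 3, x ≠ y ∧ i ≠ x ∧ i ≠ y := by
      clear hik
      revert i
      decide
    have h1 := hk i hik
    rw [← EOut_dist hM.ne' (c s) hxy hix hiy] at h1
    rw [← EOut_dist hM.ne' (c z) hxy hix hiy]
    have h2 := hpos z hz x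
    have h3 := hpos z hz y
    have h4 : ‖qq m (c s) x - qq m (c s) y‖ ≤ ‖qq m (c z) x - qq m (c z) y‖ +
        ‖qq m (c z) x - qq m (c s) x‖ + ‖qq m (c z) y - qq m (c s) y‖ := by
      have e : qq m (c s) x - qq m (c s) y = (qq m (c z) x - qq m (c z) y) -
          (qq m (c z) x - qq m (c s) x) + (qq m (c z) y - qq m (c s) y) := by ring
      rw [e]
      refine (norm_add_le _ _).trans ?_
      gcongr
      exact norm_sub_le _ _
    linarith
  have hff : ∀ z ∈ Icc a b, ∀ i, i ≠ k → ff (c z) i ≠ 0 := fun z hz i hik =>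
    (nn_pos_iff (c z) i).1 ((by positivity : (0 : ℝ) < r / 2).trans_le (hnn z hz i hik))
  have hθ : ∀ z ∈ Icc a b, HasDerivAt (fun r => ∫ q in (0 : ℝ)..r, rho (c q)) (rho (c z)) z := by
    intro z hz
    have h1 := h.sol.solVV.hasDerivAt (hU z hz)
    have h2 : HasDerivAt (fun r : ℝ => ((c r, -e, ∫ q in (0 : ℝ)..r, rho (c q)) : Up × ℝ × ℝ).2.2)
        ((VV m (c z, -e, ∫ q in (0 : ℝ)..z, rho (c q))).2.2) z := h1.snd.snd
    exact h2
  have hsub : Icc a b ⊆ uIcc 0 S := fun z hz => hU z hz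
  have hmk := hm k
  refine EOut_abs (p := fun z => pp (c z) k)
    (p' := fun z => ((rho (c z) * m k : ℝ) : ℂ) * acc m (qq m (c z)) k)
    (ρ := fun z => rho (c z)) (κ := fun z => 2 * m k * KK m (c z)) hab ?_ hθ ?_ ?_ ?_ ?_ ?_ ?_ ?_ hτ
    ?_ s hs
  · intro z hz
    exact hasDerivAt_pp hM.ne' hm' (h.sol.hasDerivAt (hU z hz)) (h.gam_zero (hU' z hz)) k
      (hff z hz)
  · exact (contDiff_rho.continuous.comp_continuousOn hcu).mono hsub
  · exact fun z _ => rho_nonneg _
  · exact continuousOn_const.mul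
      (((contDiff_KK m).continuous.comp_continuousOn hcu).mono hsub)
  · have := hm k
    positivity
  · intro z hz
    have h1 := EOut_acc hm (c z) k (r := r / 2) (by positivity) (hnn z hz)
    have hr0 := rho_nonneg (c z)
    rw [norm_mul, Complex.norm_real, Real.norm_of_nonneg (by positivity)]
    calc rho (c z) * m k * ‖acc m (qq m (c z)) k‖ ≤ rho (c z) * m k * (MM m / (r / 2) ^ 2) :=
          mul_le_mul_of_nonneg_left h1 (by positivity)
      _ = m k * (MM m / (r / 2) ^ 2) * rho (c z) := by ring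
  · exact fun z hz => EOut_kin hm (c z) k (hff z hz)
  · have e1 := intervalIntegral.integral_add_adjacent_intervals
      (hI 0 left_mem_uIcc a (hU a (left_mem_Icc.2 hab)))
      (hI a (hU a (left_mem_Icc.2 hab)) b (hU b (right_mem_Icc.2 hab)))
    linarith
  · rw [intervalIntegral.integral_const_mul]
    refine mul_le_mul_of_nonneg_left ?_ (by positivity)
    rw [← h.int_KK]
    have hKc : ContinuousOn (fun z => KK m (c z)) (uIcc 0 S) :=
      (contDiff_KK m).continuous.comp_continuousOn hcu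
    have hKI : ∀ x ∈ uIcc 0 S, ∀ y ∈ uIcc 0 S,
        IntervalIntegrable (fun r => KK m (c r)) MeasureTheory.volume x y := fun x hx y hy =>
      (hKc.mono (uIcc_subset_uIcc hx hy)).intervalIntegrable
    have haI : a ∈ uIcc 0 S := hU a (left_mem_Icc.2 hab)
    have hbI : b ∈ uIcc 0 S := hU b (right_mem_Icc.2 hab)
    have e1 := intervalIntegral.integral_add_adjacent_intervals
      (hKI 0 left_mem_uIcc a haI) (hKI a haI b hbI)
    have e2 := intervalIntegral.integral_add_adjacent_intervals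
      (hKI 0 left_mem_uIcc b hbI) (hKI b hbI S right_mem_uIcc)
    have p1 := intervalIntegral.integral_nonneg_of_forall (μ := MeasureTheory.volume) ha
      (fun q => CEnB_KK_nonneg hm (c q))
    have p2 := intervalIntegral.integral_nonneg_of_forall (μ := MeasureTheory.volume) hb
      (fun q => CEnB_KK_nonneg hm (c q))
    linarith

/-- Proof.  Let `t s = ∫ 0..s, rho`.  Choose `τ₀ > 0` with `√τ₀ √(2 e T / m i) ≤ r / 4` for all `i`.
Let `s ∈ [0, S]`, `nn (c s) i ≥ r` for `i ≠ k`.  If `t s ≤ T / 2` let `s₂ ≥ s` with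
`t s₂ = t s + τ₁`, `τ₁ = min τ₀ (T / 2)` (intermediate value theorem), otherwise `s₁ ≤ s` with
`t s₁ = t s - τ₁`.  On this interval every position differs from its value at `s` by at most `r / 4`
(`Orb.qq_dist`), so `nn (c s') i ≥ r / 2` for `i ≠ k`, `ff ≠ 0`, and by `hasDerivAt_pp`
`‖pp k (s') - pp k (s)‖ ≤ m k * (Σ m) * (2/r)² * τ₁`.  Also
`rho ‖pp k‖² / (2 m k) = nn k ‖al k‖² / (32 m k) ≤ KK` there, so
`∫ rho ‖pp k‖² ≤ 2 m k e T` over the interval and `‖pp k (s')‖² ≤ 2 m k e T / τ₁` for some `s'` in it. -/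
theorem outer_bound {m : Fin 3 → ℝ} (hm : ∀ a, 0 < m a) {e T : ℝ} (he : 0 < e) (hT : 0 < T)
    {u : ℂ} {r : ℝ} (hr : 0 < r) : ∃ P : ℝ, ∀ S c κ₁ κ₂ b, Orb m e T u S c κ₁ κ₂ b →
      ∀ s ∈ Icc 0 S, ∀ k, (∀ i, i ≠ k → r ≤ nn (c s) i) → ‖pp (c s) k‖ ≤ P := by
  -- choice of `τ`
  obtain ⟨τ₀, hτ₀, hτr⟩ : ∃ τ₀ > 0, ∀ τ, τ ≤ τ₀ → ∀ i : Fin 3,
      √τ * √(2 * e * T / m i) ≤ r / 4 := by
    set Q : ℝ := 1 + √(2 * e * T / m 0) + √(2 * e * T / m 1) + √(2 * e * T / m 2) with hQ
    have q0 := Real.sqrt_nonneg (2 * e * T / m 0)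
    have q1 := Real.sqrt_nonneg (2 * e * T / m 1)
    have q2 := Real.sqrt_nonneg (2 * e * T / m 2)
    have hQ0 : 0 < Q := by rw [hQ]; linarith
    refine ⟨(r / 4 / Q) ^ 2, by positivity, fun τ hτ i => ?_⟩
    have h1 : √τ ≤ r / 4 / Q := by
      rw [← Real.sqrt_sq (by positivity : 0 ≤ r / 4 / Q)]
      exact Real.sqrt_le_sqrt hτ
    have h2 : √(2 * e * T / m i) ≤ Q := by
      rw [hQ]
      fin_cases i
      · simp only [Fin.zero_eta]; linarith
      · simp only [Fin.mk_one]; linarith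
      · simp only [Fin.reduceFinMk]; linarith
    calc √τ * √(2 * e * T / m i) ≤ (r / 4 / Q) * Q := by
          exact mul_le_mul h1 h2 (Real.sqrt_nonneg _) (by positivity)
      _ = r / 4 := by field_simp
  set τ : ℝ := min τ₀ (T / 2) with hτdef
  have hτ0 : 0 < τ := lt_min hτ₀ (by positivity)
  have hτ1 : τ ≤ τ₀ := min_le_left _ _
  have hτ2 : τ ≤ T / 2 := min_le_right _ _
  have hP : ∀ k : Fin 3, ∃ P, m k * (MM m / (r / 2) ^ 2) * τ + √(2 * m k * (e * T) / τ) ≤ P :=
    fun k => ⟨_, le_rfl⟩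
  choose P hP using hP
  refine ⟨max (P 0) (max (P 1) (P 2)), ?_⟩
  intro S c κ₁ κ₂ b h s hs k hk
  have hmax : P k ≤ max (P 0) (max (P 1) (P 2)) := by
    fin_cases k
    · exact le_max_left _ _
    · exact (le_max_left _ _).trans (le_max_right _ _)
    · exact (le_max_right _ _).trans (le_max_right _ _)
  refine le_trans ?_ ((hP k).trans hmax)
  have hS : (0 : ℝ) ≤ S := h.pos.le
  have hcu : ContinuousOn c (uIcc 0 S) := h.sol.continuousOn
  have hI : ∀ x ∈ uIcc 0 S, ∀ y ∈ uIcc 0 S,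
      IntervalIntegrable (fun r => rho (c r)) MeasureTheory.volume x y := fun x hx y hy =>
    ((contDiff_rho.continuous.comp_continuousOn hcu).mono
      (uIcc_subset_uIcc hx hy)).intervalIntegrable
  have hU : ∀ z ∈ Icc 0 S, z ∈ uIcc 0 S := fun z hz => by rwa [uIcc_of_le hS]
  set t : ℝ → ℝ := fun r => ∫ q in (0 : ℝ)..r, rho (c q) with ht
  have htc : ContinuousOn t (Icc 0 S) := by
    intro z hz
    have h1 := h.sol.solVV.hasDerivAt (hU z hz)
    have h2 : HasDerivAt (fun r : ℝ => ((c r, -e, ∫ q in (0 : ℝ)..r, rho (c q)) : Up × ℝ × ℝ).2.2)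
        ((VV m (c z, -e, ∫ q in (0 : ℝ)..z, rho (c q))).2.2) z := h1.snd.snd
    exact h2.continuousAt.continuousWithinAt
  have ht0 : t 0 = 0 := intervalIntegral.integral_same
  have htS : t S = T := h.time
  have hdiff : ∀ x ∈ Icc 0 S, ∀ y ∈ Icc 0 S, ∫ q in x..y, rho (c q) = t y - t x := by
    intro x hx y hy
    have e1 := intervalIntegral.integral_add_adjacent_intervals
      (hI 0 left_mem_uIcc x (hU x hx)) (hI x (hU x hx) y (hU y hy))
    simp only [ht]
    linarith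
  rcases le_total (t s) (T / 2) with hts | hts
  · -- forward window
    have hc' : ContinuousOn t (Icc s S) := htc.mono (Icc_subset_Icc_left hs.1)
    have := intermediate_value_Icc hs.2 hc'
    obtain ⟨s₂, hs₂, hts₂⟩ := this (show t s + τ ∈ Icc (t s) (t S) from
      ⟨by linarith, by rw [htS]; linarith⟩)
    refine EOut_win hm he hr hτ0 (hτr τ hτ1) h hs.1 hs₂.2 (left_mem_Icc.2 hs₂.1) ?_ hk
    rw [hdiff s hs s₂ ⟨hs.1.trans hs₂.1, hs₂.2⟩, hts₂]
    ring
  · have hc' : ContinuousOn t (Icc 0 s) := htc.mono (Icc_subset_Icc_right hs.2)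
    have := intermediate_value_Icc hs.1 hc'
    obtain ⟨s₁, hs₁, hts₁⟩ := this (show t s - τ ∈ Icc (t 0) (t s) from
      ⟨by rw [ht0]; linarith, by linarith⟩)
    refine EOut_win hm he hr hτ0 (hτr τ hτ1) h hs₁.1 hs.2 (right_mem_Icc.2 hs₁.2) ?_ hk
    rw [hdiff s₁ ⟨hs₁.1, hs₁.2.trans hs.2⟩ s hs, hts₁]
    ring

end Pool.Agent.MP_5027f4_cont
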