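import Pool.Agent.Lib_MP_5027f4_cont.EInt

/-!
PIECE [ESizA] (MP_5027f4_mp, T1).  Size bound, rotation different from the identity.
-/

open Set Filter Topology Metric Polynomial
open scoped ComplexConjugate ContDiff
open Pool.Agent.MP_5027f4_mp

namespace Pool.Agent.MP_5027f4_cont

/-- the fictitious time density is continuous along an orbit -/
theorem esiz_cont {m : Fin 3 → ℝ} {e T S : ℝ} {u κ₁ κ₂ : ℂ} {b : Bool} {c : ℝ → Up}
    (h : Orb m e T u S c κ₁ κ₂ b) : ContinuousOn (fun s => rho (c s)) (Icc 0 S) := by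
  obtain ⟨a, b', ha, hb, haS, hSb, hc⟩ := h.sol
  intro s hs
  have h1 : ContinuousAt c s := (hc s ⟨by linarith [hs.1], by linarith [hs.2]⟩).continuousAt
  exact (contDiff_rho.continuous.continuousAt.comp h1).continuousWithinAt

theorem esiz_le {m : Fin 3 → ℝ} {e T S : ℝ} {u κ₁ κ₂ : ℂ} {b : Bool} {c : ℝ → Up}
    (h : Orb m e T u S c κ₁ κ₂ b) {s : ℝ} (hs : s ∈ Icc 0 S) :
    ∫ x in (0 : ℝ)..s, rho (c x) ≤ T := by
  have hc := esiz_cont h
  have h1 : IntervalIntegrable (fun x => rho (c x)) MeasureTheory.volume 0 s :=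
    (hc.mono (by rw [uIcc_of_le hs.1]; exact Icc_subset_Icc_right hs.2)).intervalIntegrable
  have h2 : IntervalIntegrable (fun x => rho (c x)) MeasureTheory.volume s S :=
    (hc.mono (by rw [uIcc_of_le hs.2]; exact Icc_subset_Icc_left hs.1)).intervalIntegrable
  have h3 := intervalIntegral.integral_add_adjacent_intervals h1 h2
  have h4 : 0 ≤ ∫ x in s..S, rho (c x) :=
    intervalIntegral.integral_nonneg hs.2 fun x _ => rho_nonneg _
  have h5 := h.time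
  linarith

/-- Proof.  `qq (c S) k = u * qq (c 0) k` (`qq_sym`), so `‖u - 1‖ * ‖qq (c 0) k‖ ≤ √T √(2 e T / m k)`
by `Orb.qq_dist` on `[0, S]`; then again `Orb.qq_dist` on `[0, s]`. -/
theorem size_ne {m : Fin 3 → ℝ} (hm : ∀ a, 0 < m a) {e T : ℝ} (he : 0 < e) {u : ℂ}
    (hu : u ≠ 1) : ∃ Q : ℝ, ∀ S c κ₁ κ₂ b, Orb m e T u S c κ₁ κ₂ b → ∀ s ∈ Icc 0 S, ∀ k,
      ‖qq m (c s) k‖ ≤ Q := by
  have hu' : 0 < ‖u - 1‖ := norm_pos_iff.2 (sub_ne_zero.2 hu)
  set B : Fin 3 → ℝ := fun k => √T * √(2 * e * T / m k) with hB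
  have hB0 : ∀ k, 0 ≤ B k := fun k => mul_nonneg (Real.sqrt_nonneg _) (Real.sqrt_nonneg _)
  refine ⟨∑ k, (B k / ‖u - 1‖ + B k), ?_⟩
  intro S c κ₁ κ₂ b h s hs k
  have hS : S ∈ Icc 0 S := ⟨h.pos.le, le_rfl⟩
  have hd : ∀ s ∈ Icc 0 S, ‖qq m (c s) k - qq m (c 0) k‖ ≤ B k := by
    intro s hs
    refine (h.qq_dist hm he le_rfl hs.1 hs.2 k).trans ?_
    exact mul_le_mul_of_nonneg_right (Real.sqrt_le_sqrt (esiz_le h hs)) (Real.sqrt_nonneg _)
  have h1 := hd S hS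
  rw [h.per, qq_sym h.ok] at h1
  have h2 : u * qq m (c 0) k - qq m (c 0) k = (u - 1) * qq m (c 0) k := by ring
  rw [h2, norm_mul] at h1
  have h3 : ‖qq m (c 0) k‖ ≤ B k / ‖u - 1‖ := by
    rw [le_div_iff₀ hu', mul_comm]
    exact h1
  have h4 : ‖qq m (c s) k‖ ≤ B k / ‖u - 1‖ + B k := by
    have h5 := hd s hs
    have h6 : qq m (c s) k = qq m (c 0) k + (qq m (c s) k - qq m (c 0) k) := by ring
    rw [h6]
    exact (norm_add_le _ _).trans (add_le_add h3 h5)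
  refine h4.trans ?_
  exact Finset.single_le_sum (f := fun k => B k / ‖u - 1‖ + B k)
    (fun i _ => add_nonneg (div_nonneg (hB0 i) hu'.le) (hB0 i)) (Finset.mem_univ k)

end Pool.Agent.MP_5027f4_cont
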