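import Pool.Agent.Lib_MP_5027f4_cont.Palin
import Pool.Agent.Lib_MP_5027f4_cont.CpCoeff

/-!
PIECE [EllOpen] (MP_5027f4_mp, T1).  Nonresonant ellipticity is an open condition.
-/

open Set Filter Topology Metric Polynomial Asymptotics
open scoped ComplexConjugate ContDiff

namespace Pool.Agent.MP_5027f4_cont

/-- palindromic polynomials of degree four -/
noncomputable def eoPal (p : ℝ × ℝ) : ℝ[X] :=
  X ^ 4 - C p.1 * X ^ 3 + C p.2 * X ^ 2 - C p.1 * X + 1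

/-- the point of the unit circle with real part `s / 2` (`σ = ± 1`) -/
noncomputable def eoL (σ s : ℝ) : ℂ := ⟨s / 2, σ * Real.sqrt (1 - s ^ 2 / 4)⟩

theorem eoL_normSq {σ s : ℝ} (hσ : σ ^ 2 = 1) (hs : s ^ 2 ≤ 4) : Complex.normSq (eoL σ s) = 1 := by
  rw [Complex.normSq_apply, eoL]
  have h1 : Real.sqrt (1 - s ^ 2 / 4) ^ 2 = 1 - s ^ 2 / 4 := Real.sq_sqrt (by linarith)
  calc s / 2 * (s / 2) + σ * Real.sqrt (1 - s ^ 2 / 4) * (σ * Real.sqrt (1 - s ^ 2 / 4))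
      = s ^ 2 / 4 + σ ^ 2 * Real.sqrt (1 - s ^ 2 / 4) ^ 2 := by ring
    _ = 1 := by rw [hσ, h1]; ring

theorem eo_inv {l : ℂ} (h : ‖l‖ = 1) : l⁻¹ = conj l := by
  rw [Complex.inv_def, Complex.normSq_eq_norm_sq, h]
  simp

theorem eo_add_inv {l : ℂ} (h : ‖l‖ = 1) : l + l⁻¹ = ((2 * l.re : ℝ) : ℂ) := by
  rw [eo_inv h, Complex.add_conj]

theorem eo_factor {l : ℂ} (h : ‖l‖ = 1) :
    (X - C l) * (X - C l⁻¹) = X ^ 2 - C ((2 * l.re : ℝ) : ℂ) * X + 1 := by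
  have hl : l ≠ 0 := by
    intro h0
    rw [h0, norm_zero] at h
    exact zero_ne_one h
  have h1 : (X - C l) * (X - C l⁻¹) = X ^ 2 - C (l + l⁻¹) * X + C (l * l⁻¹) := by
    rw [C_add, C_mul]
    ring
  rw [h1, eo_add_inv h, mul_inv_cancel₀ hl, C_1]

theorem eoL_norm {σ s : ℝ} (hσ : σ ^ 2 = 1) (hs : s ^ 2 ≤ 4) : ‖eoL σ s‖ = 1 := by
  have h1 := eoL_normSq hσ hs
  rw [Complex.normSq_eq_norm_sq] at h1
  have h2 := norm_nonneg (eoL σ s)
  nlinarith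

theorem eoL_re (σ s : ℝ) : 2 * (eoL σ s).re = s := by
  rw [eoL]
  ring

theorem eo_sign {l : ℂ} (h : ‖l‖ = 1) : ∃ σ : ℝ, σ ^ 2 = 1 ∧ eoL σ (2 * l.re) = l := by
  have h1 : l.re * l.re + l.im * l.im = 1 := by
    rw [← Complex.normSq_apply, Complex.normSq_eq_norm_sq, h, one_pow]
  have h2 : Real.sqrt (1 - (2 * l.re) ^ 2 / 4) = |l.im| := by
    rw [← Real.sqrt_sq_eq_abs]
    congr 1
    linarith
  rcases le_total 0 l.im with hi | hi
  · refine ⟨1, by norm_num, ?_⟩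
    rw [eoL, h2, abs_of_nonneg hi]
    apply Complex.ext
    · simp
    · simp
  · refine ⟨-1, by norm_num, ?_⟩
    rw [eoL, h2, abs_of_nonpos hi]
    apply Complex.ext
    · simp
    · simp

theorem eo_coef {p : ℝ × ℝ} {l₁ l₂ : ℂ} (h1 : ‖l₁‖ = 1) (h2 : ‖l₂‖ = 1)
    (h : (eoPal p).map (algebraMap ℝ ℂ) = (X - C l₁) * (X - C l₁⁻¹) * ((X - C l₂) * (X - C l₂⁻¹))) :
    p.1 = 2 * l₁.re + 2 * l₂.re ∧ p.2 = 2 * l₁.re * (2 * l₂.re) + 2 := by
  rw [eo_factor h1, eo_factor h2, eoPal] at h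
  have e1 := congrArg (eval (1 : ℂ)) h
  have e2 := congrArg (eval (-1 : ℂ)) h
  simp only [Polynomial.map_sub, Polynomial.map_add, Polynomial.map_mul, Polynomial.map_pow, map_X,
    map_C, Polynomial.map_one, eval_sub, eval_add, eval_mul, eval_pow, eval_X, eval_C, eval_one,
    Complex.coe_algebraMap] at e1 e2
  have r1 : (1 : ℝ) - p.1 + p.2 - p.1 + 1 = (1 - 2 * l₁.re + 1) * (1 - 2 * l₂.re + 1) := by
    have : (((1 : ℝ) - p.1 + p.2 - p.1 + 1 : ℝ) : ℂ) =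
        (((1 - 2 * l₁.re + 1) * (1 - 2 * l₂.re + 1) : ℝ) : ℂ) := by
      push_cast
      push_cast at e1
      linear_combination e1
    exact_mod_cast this
  have r2 : (1 : ℝ) + p.1 + p.2 + p.1 + 1 = (1 + 2 * l₁.re + 1) * (1 + 2 * l₂.re + 1) := by
    have : (((1 : ℝ) + p.1 + p.2 + p.1 + 1 : ℝ) : ℂ) =
        (((1 + 2 * l₁.re + 1) * (1 + 2 * l₂.re + 1) : ℝ) : ℂ) := by
      push_cast
      push_cast at e2
      linear_combination e2
    exact_mod_cast this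
  constructor
  · linarith
  · linarith

theorem eo_pal_eq {p : ℝ × ℝ} {l₁ l₂ : ℂ} (h1 : ‖l₁‖ = 1) (h2 : ‖l₂‖ = 1)
    (hp1 : p.1 = 2 * l₁.re + 2 * l₂.re) (hp2 : p.2 = 2 * l₁.re * (2 * l₂.re) + 2) :
    (eoPal p).map (algebraMap ℝ ℂ) = (X - C l₁) * (X - C l₁⁻¹) * ((X - C l₂) * (X - C l₂⁻¹)) := by
  rw [eo_factor h1, eo_factor h2, eoPal, hp1, hp2]
  simp only [Polynomial.map_sub, Polynomial.map_add, Polynomial.map_mul, Polynomial.map_pow, map_X,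
    map_C, Polynomial.map_one, Complex.coe_algebraMap]
  have e1 : C (((2 * l₁.re + 2 * l₂.re : ℝ)) : ℂ) = C ((2 * l₁.re : ℝ) : ℂ) + C ((2 * l₂.re : ℝ) : ℂ) := by
    rw [← C_add, ← Complex.ofReal_add]
  have e2 : C (((2 * l₁.re * (2 * l₂.re) + 2 : ℝ)) : ℂ) =
      C ((2 * l₁.re : ℝ) : ℂ) * C ((2 * l₂.re : ℝ) : ℂ) + 2 := by
    rw [← C_mul, ← Complex.ofReal_mul, Complex.ofReal_add, C_add]
    congr 1
  rw [e1, e2]
  ring

theorem eo_lt_one {l : ℂ} (h : ‖l‖ = 1) (h2 : l ^ 2 ≠ 1) : (2 * l.re) ^ 2 < 4 := by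
  have h1 : l.re * l.re + l.im * l.im = 1 := by
    rw [← Complex.normSq_apply, Complex.normSq_eq_norm_sq, h, one_pow]
  have him : l.im ≠ 0 := by
    intro h0
    apply h2
    rw [h0, mul_zero, add_zero] at h1
    apply Complex.ext
    · rw [sq, Complex.mul_re, h0, mul_zero, sub_zero, h1, Complex.one_re]
    · rw [sq, Complex.mul_im, h0, mul_zero, zero_mul, add_zero, Complex.one_im]
  have : 0 < l.im * l.im := mul_self_pos.2 him
  nlinarith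

theorem eo_aux {p₀ : ℝ × ℝ} {l₁ l₂ : ℂ} (h1 : ‖l₁‖ = 1) (h2 : ‖l₂‖ = 1) (hn : NonRes l₁ l₂)
    (hp1 : p₀.1 = 2 * l₁.re + 2 * l₂.re) (hp2 : p₀.2 = 2 * l₁.re * (2 * l₂.re) + 2)
    (hlt : l₂.re < l₁.re) : ∀ᶠ p in 𝓝 p₀, Ell4 (eoPal p) := by
  have hs1 : (2 * l₁.re) ^ 2 < 4 := eo_lt_one h1 (by
    have := hn 2 0 (Or.inl (by norm_num)) (by norm_num)
    intro h
    apply this
    rw [zpow_zero, mul_one]
    exact_mod_cast h)
  have hs2 : (2 * l₂.re) ^ 2 < 4 := eo_lt_one h2 (by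
    have := hn 0 2 (Or.inr (by norm_num)) (by norm_num)
    intro h
    apply this
    rw [zpow_zero, one_mul]
    exact_mod_cast h)
  obtain ⟨σ₁, hσ₁, hl₁⟩ := eo_sign h1
  obtain ⟨σ₂, hσ₂, hl₂⟩ := eo_sign h2
  set D : ℝ × ℝ → ℝ := fun p => p.1 ^ 2 - 4 * (p.2 - 2) with hD
  set S₁ : ℝ × ℝ → ℝ := fun p => (p.1 + Real.sqrt (D p)) / 2 with hS₁
  set S₂ : ℝ × ℝ → ℝ := fun p => (p.1 - Real.sqrt (D p)) / 2 with hS₂
  have cD : Continuous D := by fun_prop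
  have cS₁ : Continuous S₁ := by fun_prop
  have cS₂ : Continuous S₂ := by fun_prop
  have cL : ∀ σ : ℝ, Continuous (eoL σ) := by
    intro σ
    have : eoL σ = fun s : ℝ => ((s / 2 : ℝ) : ℂ) + ((σ * Real.sqrt (1 - s ^ 2 / 4) : ℝ) : ℂ) * Complex.I := by
      funext s
      rw [eoL]
      apply Complex.ext <;> simp
    rw [this]
    fun_prop
  have vD : D p₀ = (2 * l₁.re - 2 * l₂.re) ^ 2 := by
    simp only [hD]
    rw [hp1, hp2]
    ring
  have vsq : Real.sqrt (D p₀) = 2 * l₁.re - 2 * l₂.re := by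
    rw [vD, Real.sqrt_sq (by linarith)]
  have vS₁ : S₁ p₀ = 2 * l₁.re := by
    simp only [hS₁]
    rw [vsq, hp1]
    ring
  have vS₂ : S₂ p₀ = 2 * l₂.re := by
    simp only [hS₂]
    rw [vsq, hp1]
    ring
  have ev1 : ∀ᶠ p in 𝓝 p₀, 0 < D p := by
    have h4 : 0 < D p₀ := by
      rw [vD]
      have : 0 < 2 * l₁.re - 2 * l₂.re := by linarith
      positivity
    exact cD.continuousAt.eventually_const_lt h4
  have ev2 : ∀ᶠ p in 𝓝 p₀, S₁ p ^ 2 < 4 := by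
    have h3 : ContinuousAt (fun p => S₁ p ^ 2) p₀ := (cS₁.pow 2).continuousAt
    have h4 : S₁ p₀ ^ 2 < 4 := by rw [vS₁]; exact hs1
    exact h3.eventually_lt_const h4
  have ev3 : ∀ᶠ p in 𝓝 p₀, S₂ p ^ 2 < 4 := by
    have h3 : ContinuousAt (fun p => S₂ p ^ 2) p₀ := (cS₂.pow 2).continuousAt
    have h4 : S₂ p₀ ^ 2 < 4 := by rw [vS₂]; exact hs2
    exact h3.eventually_lt_const h4
  have ev4 : ∀ᶠ p in 𝓝 p₀, ∀ q ∈ (Finset.Icc (-4 : ℤ) 4) ×ˢ (Finset.Icc (-4 : ℤ) 4),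
      (q.1 ≠ 0 ∨ q.2 ≠ 0) → |q.1| + |q.2| ≤ 4 →
        eoL σ₁ (S₁ p) ^ q.1 * eoL σ₂ (S₂ p) ^ q.2 ≠ 1 := by
    rw [Filter.eventually_all_finset]
    rintro ⟨a, b⟩ -
    by_cases hab : (a ≠ 0 ∨ b ≠ 0) ∧ |a| + |b| ≤ 4
    · have hne := hn a b hab.1 hab.2
      have hl1 : l₁ ≠ 0 := by
        intro h0
        rw [h0, norm_zero] at h1
        exact zero_ne_one h1
      have hl2 : l₂ ≠ 0 := by
        intro h0
        rw [h0, norm_zero] at h2
        exact zero_ne_one h2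
      have v1 : eoL σ₁ (S₁ p₀) = l₁ := by rw [vS₁, hl₁]
      have v2 : eoL σ₂ (S₂ p₀) = l₂ := by rw [vS₂, hl₂]
      have c1 : ContinuousAt (fun p => eoL σ₁ (S₁ p) ^ a * eoL σ₂ (S₂ p) ^ b) p₀ := by
        refine ContinuousAt.mul ?_ ?_
        · exact (((cL σ₁).comp cS₁).continuousAt).zpow₀ a (Or.inl (by
            change eoL σ₁ (S₁ p₀) ≠ 0
            rw [v1]
            exact hl1))
        · exact (((cL σ₂).comp cS₂).continuousAt).zpow₀ b (Or.inl (by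
            change eoL σ₂ (S₂ p₀) ≠ 0
            rw [v2]
            exact hl2))
      have h5 : eoL σ₁ (S₁ p₀) ^ a * eoL σ₂ (S₂ p₀) ^ b ≠ 1 := by
        rw [v1, v2]
        exact hne
      have c2 := c1.eventually_ne h5
      filter_upwards [c2] with p hp _ _
      exact hp
    · filter_upwards with p ha hb
      exact absurd ⟨ha, hb⟩ hab
  filter_upwards [ev1, ev2, ev3, ev4] with p q1 q2 q3 q4
  have n1 := eoL_norm hσ₁ q2.le
  have n2 := eoL_norm hσ₂ q3.le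
  refine ⟨eoL σ₁ (S₁ p), eoL σ₂ (S₂ p), n1, n2, ?_, ?_⟩
  · intro a b hab hle
    have ha := abs_nonneg a
    have hb := abs_nonneg b
    have ha' := abs_le.1 (show |a| ≤ 4 by linarith)
    have hb' := abs_le.1 (show |b| ≤ 4 by linarith)
    exact q4 (a, b) (Finset.mem_product.2 ⟨Finset.mem_Icc.2 ha', Finset.mem_Icc.2 hb'⟩) hab hle
  · refine eo_pal_eq n1 n2 ?_ ?_
    · rw [eoL_re, eoL_re]
      simp only [hS₁, hS₂]
      ring
    · rw [eoL_re, eoL_re]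
      simp only [hS₁, hS₂]
      have h5 : Real.sqrt (D p) ^ 2 = D p := Real.sq_sqrt q1.le
      have h6 : (p.1 + Real.sqrt (D p)) / 2 * ((p.1 - Real.sqrt (D p)) / 2) =
          (p.1 ^ 2 - Real.sqrt (D p) ^ 2) / 4 := by ring
      rw [h6, h5]
      simp only [hD]
      ring

theorem eo_open {p₀ : ℝ × ℝ} (h0 : Ell4 (eoPal p₀)) : ∀ᶠ p in 𝓝 p₀, Ell4 (eoPal p) := by
  obtain ⟨l₁, l₂, h1, h2, hn, heq⟩ := h0
  obtain ⟨hp1, hp2⟩ := eo_coef h1 h2 heq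
  rcases lt_trichotomy l₁.re l₂.re with hlt | he | hlt
  · have hn' : NonRes l₂ l₁ := by
      intro a b hab hle
      rw [mul_comm]
      exact hn b a (Or.symm hab) (by rw [add_comm]; exact hle)
    refine eo_aux h2 h1 hn' ?_ ?_ hlt
    · rw [hp1]
      ring
    · rw [hp2]
      ring
  · exfalso
    have e1 : l₁.re * l₁.re + l₁.im * l₁.im = 1 := by
      rw [← Complex.normSq_apply, Complex.normSq_eq_norm_sq, h1, one_pow]
    have e2 : l₂.re * l₂.re + l₂.im * l₂.im = 1 := by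
      rw [← Complex.normSq_apply, Complex.normSq_eq_norm_sq, h2, one_pow]
    have hl2 : l₂ ≠ 0 := by
      intro h0
      rw [h0, norm_zero] at h2
      exact zero_ne_one h2
    have e3 : (l₁.im - l₂.im) * (l₁.im + l₂.im) = 0 := by
      rw [he] at e1
      linear_combination e1 - e2
    rcases mul_eq_zero.1 e3 with h | h
    · have h3 : l₁ = l₂ := Complex.ext he (by linarith)
      have h4 := hn 1 (-1) (Or.inl one_ne_zero) (by norm_num)
      apply h4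
      rw [h3, zpow_one, zpow_neg_one, mul_inv_cancel₀ hl2]
    · have h3 : l₁ = conj l₂ := Complex.ext (by rw [Complex.conj_re, he]) (by
        rw [Complex.conj_im]
        linarith)
      have h4 := hn 1 1 (Or.inl one_ne_zero) (by norm_num)
      apply h4
      rw [h3, ← eo_inv h2, zpow_one, zpow_one, inv_mul_cancel₀ hl2]
  · exact eo_aux h1 h2 hn hp1 hp2 hlt

theorem eo_coeff (p : ℝ × ℝ) : p = (-(eoPal p).coeff 3, (eoPal p).coeff 2) := by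
  have h3 : (eoPal p).coeff 3 = -p.1 := by
    rw [eoPal]
    simp only [coeff_add, coeff_sub, coeff_X_pow, coeff_C_mul, coeff_X, coeff_one]
    norm_num
  have h2 : (eoPal p).coeff 2 = p.2 := by
    rw [eoPal]
    simp only [coeff_add, coeff_sub, coeff_X_pow, coeff_C_mul, coeff_X, coeff_one]
    norm_num
  rw [h3, h2, neg_neg]

/-- Proof.  `cp (A c) = X⁴ - t₁ X³ + t₂ X² - t₁ X + 1` with `t₁, t₂` continuous in `c` at `c₀`
(coefficients of the characteristic polynomial; e.g. `t₁ = trace`, `t₂ = P(1) - 2 + 2 t₁`,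
`P(1) = det (1 - A)`).  At `c₀`, with `s₁ = 2 Re l₁`, `s₂ = 2 Re l₂`: `t₁ = s₁ + s₂`,
`t₂ = s₁ s₂ + 2`, `|sᵢ| < 2` (`l² ≠ 1`), `s₁ ≠ s₂` (`l₁ ≠ l₂^{±1}`).  For `c` near `c₀` the
polynomial `s² - t₁ s + t₂ - 2` has positive discriminant and real roots
`(t₁ ± √(t₁² - 4 (t₂ - 2)))/2` near `s₁, s₂`, of modulus `< 2`;
`lᵢ(c) = sᵢ(c)/2 ± I √(1 - sᵢ(c)²/4)`, with the sign of `Im lᵢ`, is continuous, of modulus one,
and gives the factorization; the finitely many conditions `NonRes` (`|a|, |b| ≤ 4`) persist by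
continuity. -/
theorem ell_open {A : ℝ → (ℂ × ℂ) →L[ℝ] (ℂ × ℂ)} {c₀ : ℝ} (hc : ContinuousAt A c₀)
    (hs : ∀ᶠ c in 𝓝 c₀, ∀ ξ η, os (A c ξ) (A c η) = os ξ η) (h0 : Ell4 (cp (A c₀))) :
    ∀ᶠ c in 𝓝 c₀, Ell4 (cp (A c)) := by
  set q : ℝ → ℝ × ℝ := fun c => (-(cp (A c)).coeff 3, (cp (A c)).coeff 2) with hq
  have key : ∀ c, (∀ ξ η, os (A c ξ) (A c η) = os ξ η) → cp (A c) = eoPal (q c) := by
    intro c hcs
    obtain ⟨t₁, t₂, h⟩ := cp_palindromic (A c) hcs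
    have h1 : cp (A c) = eoPal (t₁, t₂) := h
    have h2 := eo_coeff (t₁, t₂)
    rw [← h1] at h2
    rw [h1]
    congr 1
  have cq : ContinuousAt q c₀ := by
    have h1 : ∀ i, ContinuousAt (fun c => (cp (A c)).coeff i) c₀ := fun i =>
      ContinuousAt.comp (g := fun B : (ℂ × ℂ) →L[ℝ] (ℂ × ℂ) => (cp B).coeff i)
        (contDiff_cp_coeff i).continuous.continuousAt hc
    exact (h1 3).neg.prodMk (h1 2)
  have h1 : Ell4 (eoPal (q c₀)) := by
    rw [← key c₀ hs.self_of_nhds]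
    exact h0
  filter_upwards [hs, cq.eventually (eo_open h1)] with c h2 h3
  rw [key c h2]
  exact h3

end Pool.Agent.MP_5027f4_cont
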