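import Pool.Agent.Lib_MP_5027f4_cont.FLim
import Pool.Agent.Lib_MP_5027f4_cont.AccThm

/-!
# Continuation in the angular momentum
-/

open Set Filter Topology Metric Polynomial
open scoped ComplexConjugate ContDiff
open Pool.Agent.MP_5027f4_mp

namespace Pool.Agent.MP_5027f4_cont

variable {m : Fin 3 → ℝ}

/-- two continuous families of linear maps with the same characteristic polynomial frequently -/
theorem cp_eq_of_frequently {E : Type*} [NormedAddCommGroup E] [NormedSpace ℝ E]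
    [FiniteDimensional ℝ E] {A : E → E →L[ℝ] E} {y : E} {χ : ℝ[X]} (hA : ContinuousAt A y)
    (h : ∀ 𝒱 ∈ 𝓝 y, ∃ z ∈ 𝒱, cp (A z) = χ) : cp (A y) = χ := by
  ext i
  by_contra hne
  have hc : ContinuousAt (fun z => (cp (A z)).coeff i) y :=
    (contDiff_cp_coeff i).continuous.continuousAt.comp hA
  have h1 : ∀ᶠ z in 𝓝 y, (cp (A z)).coeff i ≠ χ.coeff i := hc.eventually_ne hne
  obtain ⟨z, hz, hcz⟩ := h _ h1
  exact hz (by rw [hcz])

/-- There is no relative equilibrium with the given characteristic polynomial. -/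
def NoRE (m : Fin 3 → ℝ) (T : ℝ) (u : ℂ) (χ : ℝ[X]) : Prop :=
  ∀ S X₀ X₁ Φ, 0 < S → LM m T S X₀ X₁ Φ → pE m X₁ = u • pE m X₀ →
    cp (fderiv ℝ (ret Φ T u) (pE m X₀)) = χ →
      ¬ ∃ μ : ℝ, fld₀ m (pE m X₀) = ((μ : ℂ) * Complex.I) • pE m X₀

theorem acc_good (hm : ∀ a, 0 < m a) {e T : ℝ} (he : 0 < e) (hT : 0 < T) {u : ℂ}
    (hu : ‖u‖ = 1) {q : ℝ[X]} (hq1 : q.eval 1 ≠ 0) (hRE : NoRE m T u ((X - 1) ^ 4 * q))
    {cn : ℕ → ℝ} {c₀ : ℝ} (hc0 : c₀ ≠ 0) (hcn : Tendsto cn atTop (𝓝 c₀))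
    (hne : ∀ n, cn n ≠ c₀) (hg : ∀ n, Good m (-e) T u ((X - 1) ^ 4 * q) (cn n)) :
    ∀ᶠ c in 𝓝 c₀, Good m (-e) T u ((X - 1) ^ 4 * q) c := by
  have hm0 : ∀ a, m a ≠ 0 := fun a => (hm a).ne'
  obtain ⟨S, X₀, X₁, Φ, hS, hLM, hmu, hend, hacc⟩ := lim_good hm he hT hu hc0 hcn hg
  obtain ⟨han, hfix⟩ := ret_fix hm hLM hu hend
  -- the characteristic polynomial at the limit
  have hcp : cp (fderiv ℝ (ret Φ T u) (pE m X₀)) = (X - 1) ^ 4 * q := by
    refine cp_eq_of_frequently han.fderiv.continuousAt fun 𝒱 h𝒱 => ?_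
    obtain ⟨n, y, hy, -, -, h4⟩ := (hacc 𝒱 h𝒱).exists
    exact ⟨y, hy, h4⟩
  have hnr := hRE S X₀ X₁ Φ hS hLM hend hcp
  -- the local flow
  have hr0 : Run m (muE m (pE m X₀)).1 0 X₀ 0 X₀ := Run.zero m _ X₀
  obtain ⟨φ, hφ⟩ := exists_LM hm hr0 hLM.nc0 hLM.nc0
  have hact := locAct hm hφ hnr
  obtain ⟨𝒱, h𝒱, hgood⟩ := good_near hm hLM hS hu
  have hfam := acc_family (finrank_comSub hm) (omE_self (m := m)) (omE_nondeg hm) hact han hfix
    (ret_comm hm hLM hφ hu hend) (ret_mu hm hLM hu) hcp hq1 (cn := cn) (by rw [hmu]; exact hcn)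
    (fun n => by rw [hmu]; exact hne n) (fun 𝒲 h𝒲 => by
      refine (hacc 𝒲 h𝒲).mono fun n hn => ?_
      obtain ⟨y, h1, h2, h3, h4⟩ := hn
      exact ⟨y, h1, h2, by rw [h3, hmu], h4⟩) 𝒱 h𝒱
  rw [hmu] at hfam
  filter_upwards [hfam] with c hc
  obtain ⟨y, h1, h2, h3, h4⟩ := hc
  exact hgood y h1 h2 _ _ _ h3 h4

theorem good_bounded (hm : ∀ a, 0 < m a) {e T : ℝ} (he : 0 < e) (hT : 0 < T) {u : ℂ}
    (hu : ‖u‖ = 1) {χ : ℝ[X]} : ∃ B : ℝ, ∀ c, Good m (-e) T u χ c → |c| ≤ B := by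
  obtain ⟨B, hB, hfar⟩ := good_far (χ := χ) hm he hT hu one_pos
  refine ⟨max B 1, fun c hc => ?_⟩
  rcases le_total 1 |c| with h | h
  · exact (hfar c h hc).1.trans (le_max_left _ _)
  · exact h.trans (le_max_right _ _)

/-- A bounded open-closed property cannot hold near a positive number. -/
theorem no_open_closed {G : ℝ → Prop} {B c₁ : ℝ} (hB : ∀ c, G c → c ≤ B) (hc₁ : 0 < c₁)
    (h0 : ∀ᶠ c in 𝓝 c₁, G c)
    (hcl : ∀ (cn : ℕ → ℝ) (c₀ : ℝ), 0 < c₀ → Tendsto cn atTop (𝓝 c₀) → (∀ n, cn n ≠ c₀) →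
      (∀ n, G (cn n)) → ∀ᶠ c in 𝓝 c₀, G c) : False := by
  set A : Set ℝ := {c | c₁ ≤ c ∧ ∀ c' ∈ Icc c₁ c, G c'} with hA
  have hA1 : c₁ ∈ A := ⟨le_rfl, fun c' hc' => by
    have : c' = c₁ := le_antisymm hc'.2 hc'.1
    rw [this]
    exact h0.self_of_nhds⟩
  have hAb : BddAbove A := ⟨B, fun c hc => hB c (hc.2 c ⟨hc.1, le_rfl⟩)⟩
  set s := sSup A with hs
  have hcs : c₁ ≤ s := le_csSup hAb hA1
  -- all points below `s` are good
  have hbelow : ∀ c, c₁ ≤ c → c < s → G c := by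
    intro c h1 h2
    obtain ⟨a, ha, hca⟩ := exists_lt_of_lt_csSup ⟨c₁, hA1⟩ h2
    exact ha.2 c ⟨h1, hca.le⟩
  -- `c₁ < s`
  obtain ⟨ε, hε, hball⟩ := Metric.eventually_nhds_iff.1 h0
  have hlt : c₁ < s := by
    have h1 : c₁ + ε / 2 ∈ A := by
      refine ⟨by linarith, fun c' hc' => hball ?_⟩
      rw [Real.dist_eq, abs_of_nonneg (by linarith [hc'.1])]
      linarith [hc'.2]
    have := le_csSup hAb h1
    linarith
  have hs0 : 0 < s := hc₁.trans hlt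
  -- a sequence converging to `s`
  have hseq : ∃ cn : ℕ → ℝ, Tendsto cn atTop (𝓝 s) ∧ (∀ n, cn n ≠ s) ∧ ∀ n, G (cn n) := by
    refine ⟨fun n => s - (s - c₁) / (n + 1), ?_, fun n => ?_, fun n => ?_⟩
    · have h1 : Tendsto (fun n : ℕ => (s - c₁) / ((n : ℝ) + 1)) atTop (𝓝 0) :=
        tendsto_const_div_atTop_nhds_zero_nat (s - c₁) |>.comp (tendsto_add_atTop_nat 1) |>.congr
          fun n => by simp
      have h2 := tendsto_const_nhds (x := s) (f := atTop (α := ℕ)) |>.sub h1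
      simpa using h2
    · have : 0 < (s - c₁) / ((n : ℝ) + 1) := div_pos (by linarith) (by positivity)
      simp only [ne_eq, sub_eq_self]
      exact this.ne'
    · have h1 : 0 < (s - c₁) / ((n : ℝ) + 1) := div_pos (by linarith) (by positivity)
      have h2 : (s - c₁) / ((n : ℝ) + 1) ≤ s - c₁ :=
        div_le_self (by linarith) (by linarith [Nat.cast_nonneg (α := ℝ) n])
      exact hbelow _ (by linarith) (by linarith)
  obtain ⟨cn, h1, h2, h3⟩ := hseq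
  obtain ⟨δ, hδ, hball'⟩ := Metric.eventually_nhds_iff.1 (hcl cn s hs0 h1 h2 h3)
  have h4 : s + δ / 2 ∈ A := by
    refine ⟨by linarith, fun c' hc' => ?_⟩
    rcases lt_or_ge c' s with h | h
    · exact hbelow c' hc'.1 h
    · refine hball' ?_
      rw [Real.dist_eq, abs_of_nonneg (by linarith)]
      linarith [hc'.2]
  have := le_csSup hAb h4
  linarith

/-- **There is no open family of relative periodic orbits** with the same energy, period, rotation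
and nontrivial multipliers. -/
theorem no_good (hm : ∀ a, 0 < m a) {e T : ℝ} (he : 0 < e) (hT : 0 < T) {u : ℂ}
    (hu : ‖u‖ = 1) {q : ℝ[X]} (hq1 : q.eval 1 ≠ 0) (hRE : NoRE m T u ((X - 1) ^ 4 * q))
    {c₁ : ℝ} (h : ∀ᶠ c in 𝓝 c₁, Good m (-e) T u ((X - 1) ^ 4 * q) c) : False := by
  obtain ⟨B, hB⟩ := good_bounded (χ := (X - 1) ^ 4 * q) hm he hT hu
  -- we may assume `c₁ ≠ 0`
  obtain ⟨c₂, hc₂, h2⟩ : ∃ c₂ : ℝ, c₂ ≠ 0 ∧
      ∀ᶠ c in 𝓝 c₂, Good m (-e) T u ((X - 1) ^ 4 * q) c := by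
    obtain ⟨ε, hε, hball⟩ := Metric.eventually_nhds_iff.1 h.eventually_nhds
    by_cases h0 : c₁ = 0
    · refine ⟨ε / 2, by positivity, hball ?_⟩
      rw [h0, Real.dist_eq, sub_zero, abs_of_pos (by positivity)]
      linarith
    · exact ⟨c₁, h0, h⟩
  rcases lt_or_gt_of_ne hc₂ with hneg | hpos
  · refine no_open_closed (G := fun c => Good m (-e) T u ((X - 1) ^ 4 * q) (-c)) (B := B)
      (c₁ := -c₂) (fun c hc => ?_) (by linarith) ?_ ?_
    · have := hB _ hc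
      rw [abs_neg] at this
      exact (le_abs_self c).trans this
    · have h3 : Tendsto (fun c : ℝ => -c) (𝓝 (-c₂)) (𝓝 c₂) := by
        have := (continuous_neg.tendsto (-c₂))
        rwa [neg_neg] at this
      exact h3.eventually h2
    · intro cn c₀ h0 h1 h3 h4
      have h5 := acc_good hm he hT hu hq1 hRE (cn := fun n => -cn n) (c₀ := -c₀)
        (by linarith [h0] : -c₀ < 0).ne h1.neg (fun n hn => h3 n (neg_injective hn)) h4
      have h6 : Tendsto (fun c : ℝ => -c) (𝓝 c₀) (𝓝 (-c₀)) := continuous_neg.tendsto c₀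
      exact h6.eventually h5
  · exact no_open_closed (B := B) (c₁ := c₂) (fun c hc => (le_abs_self c).trans (hB c hc)) hpos h2
      fun cn c₀ h0 h1 h3 h4 => acc_good hm he hT hu hq1 hRE h0.ne' h1 h3 h4

end Pool.Agent.MP_5027f4_cont
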