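import Pool.Agent.Lib_MP_5027f4_cont.Palin

/-!
PIECE [KFac] (MP_5027f4_mp, T1).  Roots of palindromic quartic polynomials.
-/

open Set Filter Topology Metric Polynomial
open scoped ComplexConjugate ContDiff
open Pool.Agent.MP_5027f4_mp

namespace Pool.Agent.MP_5027f4_cont

private theorem kf_quad (s : ℂ) : ∃ l : ℂ, l ≠ 0 ∧ (X - C l) * (X - C l⁻¹) = X ^ 2 - C s * X + 1 := by
  obtain ⟨v, hv⟩ := IsAlgClosed.exists_eq_mul_self (s * s - 4)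
  have h1 : (s + v) / 2 * ((s - v) / 2) = 1 := by linear_combination hv / 4
  have h2 : (s + v) / 2 ≠ 0 := left_ne_zero_of_mul_eq_one h1
  have h3 : ((s + v) / 2)⁻¹ = (s - v) / 2 := inv_eq_of_mul_eq_one_right h1
  have h4 : (s + v) / 2 + (s - v) / 2 = s := by ring
  refine ⟨(s + v) / 2, h2, ?_⟩
  rw [h3]
  calc (X - C ((s + v) / 2)) * (X - C ((s - v) / 2)) =
        X ^ 2 - C ((s + v) / 2 + (s - v) / 2) * X + C ((s + v) / 2 * ((s - v) / 2)) := by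
        rw [C_add, C_mul]
        ring
    _ = X ^ 2 - C s * X + 1 := by rw [h1, h4, C_1]

/-- Proof.  Let `s₁, s₂` be the complex roots of `s² - t₁ s + (t₂ - 2)` and `lᵢ` a root of
`X² - sᵢ X + 1` (nonzero; the other root is `lᵢ⁻¹`, `lᵢ + lᵢ⁻¹ = sᵢ`).  Then
`(X² - s₁ X + 1) (X² - s₂ X + 1) = X⁴ - t₁ X³ + t₂ X² - t₁ X + 1`. -/
theorem exists_factor (t₁ t₂ : ℝ) : ∃ l₁ l₂ : ℂ, l₁ ≠ 0 ∧ l₂ ≠ 0 ∧
    ((X ^ 4 - C t₁ * X ^ 3 + C t₂ * X ^ 2 - C t₁ * X + 1 : ℝ[X]).map (algebraMap ℝ ℂ)) =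
      (X - C l₁) * (X - C l₁⁻¹) * ((X - C l₂) * (X - C l₂⁻¹)) := by
  obtain ⟨w, hw⟩ := IsAlgClosed.exists_eq_mul_self ((t₁ : ℂ) * t₁ - 4 * (t₂ - 2))
  obtain ⟨l₁, hl₁, e₁⟩ := kf_quad ((t₁ + w) / 2)
  obtain ⟨l₂, hl₂, e₂⟩ := kf_quad ((t₁ - w) / 2)
  refine ⟨l₁, l₂, hl₁, hl₂, ?_⟩
  rw [e₁, e₂]
  have h1 : ((t₁ : ℂ) + w) / 2 + (t₁ - w) / 2 = t₁ := by ring
  have h2 : ((t₁ : ℂ) + w) / 2 * ((t₁ - w) / 2) + 2 = t₂ := by linear_combination hw / 4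
  have e3 : (X ^ 2 - C (((t₁ : ℂ) + w) / 2) * X + 1) * (X ^ 2 - C (((t₁ : ℂ) - w) / 2) * X + 1) =
      X ^ 4 - C (((t₁ : ℂ) + w) / 2 + (t₁ - w) / 2) * X ^ 3 +
        C (((t₁ : ℂ) + w) / 2 * ((t₁ - w) / 2) + 2) * X ^ 2 -
        C (((t₁ : ℂ) + w) / 2 + (t₁ - w) / 2) * X + 1 := by
    have h3 : (C (2 : ℂ) : ℂ[X]) = 2 := rfl
    rw [C_add, C_add, C_mul, h3]
    ring
  rw [e3, h1, h2]
  simp only [Polynomial.map_add, Polynomial.map_sub, Polynomial.map_mul, Polynomial.map_pow, map_X, map_C,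
    Polynomial.map_one, Complex.coe_algebraMap]

end Pool.Agent.MP_5027f4_cont
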