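import Pool.Agent.Lib_MP_5027f4_cont.Defs

/-!
PIECE [HAng] (MP_5027f4_mp, T1).  Angles which avoid an arc.
-/

open Set Filter Topology Metric Polynomial
open scoped ComplexConjugate ContDiff
open Pool.Agent.MP_5027f4_mp

namespace Pool.Agent.MP_5027f4_cont

theorem hang_exp (x y : ℝ) :
    ‖Complex.exp (x * Complex.I) - Complex.exp (y * Complex.I)‖ ≤ |x - y| := by
  have h1 : Complex.exp (x * Complex.I) - Complex.exp (y * Complex.I) =
      Complex.exp (y * Complex.I) * (Complex.exp (Complex.I * ((x - y : ℝ) : ℂ)) - 1) := by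
    rw [mul_sub, ← Complex.exp_add, mul_one]
    congr 2
    push_cast
    ring
  rw [h1, norm_mul, Complex.norm_exp_ofReal_mul_I, one_mul]
  exact Real.norm_exp_I_mul_ofReal_sub_one_le

theorem hang_steps {A : ℕ → ℝ} {n : ℕ} {r : ℝ} (h : ∀ j < n, |A (j + 1) - A j| ≤ r) (k i : ℕ)
    (hki : k + i ≤ n) : |A (k + i) - A k| ≤ i * r := by
  induction i with
  | zero => simp
  | succ i ih =>
    have h1 := ih (by omega)
    have h2 := h (k + i) (by omega)
    have e : A (k + (i + 1)) - A k = (A (k + i + 1) - A (k + i)) + (A (k + i) - A k) := by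
      rw [← add_assoc]
      ring
    rw [e]
    refine (abs_add_le _ _).trans ?_
    push_cast
    linarith

theorem hang_arg {w : ℂ} (hw : ‖w‖ = 1) : ∃ β : ℝ, 0 < β ∧ β ≤ 2 * Real.pi ∧
    Complex.exp (β * Complex.I) = w ∧ Complex.exp ((β - 2 * Real.pi : ℝ) * Complex.I) = w := by
  have h1 : Complex.exp (Complex.arg w * Complex.I) = w := by
    have := Complex.norm_mul_exp_arg_mul_I w
    rwa [hw, Complex.ofReal_one, one_mul] at this
  have h2 := Complex.neg_pi_lt_arg w
  have h3 := Complex.arg_le_pi w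
  have h4 := Real.pi_pos
  have hper : ∀ x : ℝ, Complex.exp ((x + 2 * Real.pi : ℝ) * Complex.I) =
      Complex.exp (x * Complex.I) := by
    intro x
    have e : ((x + 2 * Real.pi : ℝ) : ℂ) * Complex.I = x * Complex.I + 2 * Real.pi * Complex.I := by
      push_cast
      ring
    rw [e, Complex.exp_periodic]
  have hper' : ∀ x : ℝ, Complex.exp ((x - 2 * Real.pi : ℝ) * Complex.I) =
      Complex.exp (x * Complex.I) := by
    intro x
    rw [← hper (x - 2 * Real.pi), sub_add_cancel]
  by_cases h5 : 0 < Complex.arg w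
  · exact ⟨Complex.arg w, h5, by linarith, h1, by rw [hper']; exact h1⟩
  · refine ⟨Complex.arg w + 2 * Real.pi, by linarith, by linarith, ?_, ?_⟩
    · rw [hper]
      exact h1
    · rw [hper', hper]
      exact h1

/-- Proof.  Choose `r > 0` with `N r < ρ` and `r ≤ 1`.  `e k = u ^ k * exp (i A k)`; for multiples
`k = j N`, `e k = exp (i A (j N))` as `u ^ N = 1`.  Write `w = exp (i β)` with `0 < β ≤ 2 π`
(`w ≠ 1` because `k = 0` gives `ρ ≤ ‖1 - w‖`; so `β < 2 π`).  Claim `β - 2 π < A (j N) < β`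
(induction on `j`): at `j = 0` it is `A 0 = 0`; `|A ((j + 1) N) - A (j N)| ≤ N r < ρ`, and a value
within `ρ` of `β` (or `β - 2 π`) is excluded because `‖exp (i A) - w‖ ≤ |A - β|`
(`Real.norm_exp_I_mul_ofReal_sub_one_le`); a step of length less than `ρ` cannot jump over the
excluded interval of length `2 ρ`.  So `|A (j N)| ≤ 2 π` and `|A k| ≤ 2 π + N r ≤ 2 π + N`. -/
theorem angle_bound {u w : ℂ} (hu : ‖u‖ = 1) (hw : ‖w‖ = 1) {N : ℕ} (hN : 0 < N)
    (huN : u ^ N = 1) {ρ : ℝ} (hρ : 0 < ρ) : ∃ r > 0, ∃ δ : ℝ, ∀ (n : ℕ) (A : ℕ → ℝ), A 0 = 0 →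
      (∀ j < n, |A (j + 1) - A j| ≤ r) →
      (∀ k ≤ n, ρ ≤ ‖u ^ k * Complex.exp (A k * Complex.I) - w‖) → |A n| ≤ δ := by
  have hN' : (0 : ℝ) < N := by exact_mod_cast hN
  have hpi := Real.pi_pos
  refine ⟨min 1 (ρ / (2 * N)), lt_min one_pos (by positivity), 2 * Real.pi + N, ?_⟩
  intro n A hA0 hstep hex
  set r : ℝ := min 1 (ρ / (2 * N)) with hr
  have hr1 : r ≤ 1 := min_le_left _ _
  have hr0 : 0 ≤ r := (lt_min one_pos (by positivity)).le
  have hNr : N * r < ρ := by
    have h1 : r ≤ ρ / (2 * N) := min_le_right _ _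
    have h2 : N * r ≤ N * (ρ / (2 * N)) := mul_le_mul_of_nonneg_left h1 hN'.le
    have h3 : N * (ρ / (2 * N)) = ρ / 2 := by field_simp
    linarith
  obtain ⟨β, hβ0, hβ2, hβ, hβ'⟩ := hang_arg hw
  -- at multiples of `N`
  have hmul : ∀ j, j * N ≤ n → ρ ≤ ‖Complex.exp (A (j * N) * Complex.I) - w‖ := by
    intro j hj
    have h1 := hex (j * N) hj
    have h2 : u ^ (j * N) = 1 := by rw [mul_comm, pow_mul, huN, one_pow]
    rwa [h2, one_mul] at h1
  have hβ1 : β < 2 * Real.pi := by
    refine lt_of_le_of_ne hβ2 fun h => ?_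
    have h1 := hmul 0 (by omega)
    rw [Nat.zero_mul, hA0, ← hβ', h] at h1
    simp at h1
    linarith
  have claim : ∀ j, j * N ≤ n → β - 2 * Real.pi < A (j * N) ∧ A (j * N) < β := by
    intro j
    induction j with
    | zero =>
      intro _
      rw [Nat.zero_mul, hA0]
      exact ⟨by linarith, hβ0⟩
    | succ j ih =>
      intro hj
      have e : (j + 1) * N = j * N + N := by ring
      have hj' : j * N ≤ n := by omega
      obtain ⟨h1, h2⟩ := ih hj'
      have h3 := hang_steps hstep (j * N) N (by omega)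
      rw [← e] at h3
      have h4 := hmul (j + 1) hj
      have h5 := abs_le.1 h3
      constructor
      · by_contra hcon
        push Not at hcon
        have h6 := hang_exp (A ((j + 1) * N)) (β - 2 * Real.pi)
        rw [hβ'] at h6
        have h7 : |A ((j + 1) * N) - (β - 2 * Real.pi)| < ρ := by
          rw [abs_lt]
          constructor <;> linarith [h5.1]
        linarith
      · by_contra hcon
        push Not at hcon
        have h6 := hang_exp (A ((j + 1) * N)) β
        rw [hβ] at h6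
        have h7 : |A ((j + 1) * N) - β| < ρ := by
          rw [abs_lt]
          constructor <;> linarith [h5.2]
        linarith
  have hdiv : n / N * N + n % N = n := by
    rw [mul_comm]
    exact Nat.div_add_mod n N
  have hmod : n % N < N := Nat.mod_lt _ hN
  have h8 := claim (n / N) (by omega)
  have h9 := hang_steps hstep (n / N * N) (n % N) (by omega)
  rw [hdiv] at h9
  have h10 : ((n % N : ℕ) : ℝ) * r ≤ N := by
    have h11 : ((n % N : ℕ) : ℝ) ≤ N := by exact_mod_cast hmod.le
    calc ((n % N : ℕ) : ℝ) * r ≤ N * 1 := mul_le_mul h11 hr1 hr0 hN'.le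
      _ = N := mul_one _
  have h12 := abs_le.1 h9
  rw [abs_le]
  constructor <;> linarith [h8.1, h8.2, h12.1, h12.2]

end Pool.Agent.MP_5027f4_cont
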