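import Pool.Agent.Lib_MP_5027f4_cont.HArc
import Pool.Agent.Lib_MP_5027f4_cont.HAng
import Pool.Agent.Lib_MP_5027f4_cont.DCls
import Pool.Agent.Lib_MP_5027f4_cont.DRet

/-!
PIECE [HBd] (MP_5027f4_mp, T1).  Bounded drift near Lyapunov stable orbits.
-/

open Set Filter Topology Metric Polynomial
open scoped ComplexConjugate ContDiff
open Pool.Agent.MP_5027f4_mp

namespace Pool.Agent.MP_5027f4_cont

variable {m : Fin 3 → ℝ} {x : ℝ → Ph}

/-- a time `0` map is the identity at time `0` -/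
theorem hbd_zero {X₀ : Up} {φ : ℝ × comSub m → comSub m} (hφ : LM m 0 0 X₀ X₀ φ) :
    ∀ᶠ y in 𝓝 (pE m X₀), φ (0, y) = y := by
  have h1 : ∀ᶠ X in 𝓝 X₀, φ (0, pE m X) = pE m X := by
    have hc : Continuous (fun X : Up => ((0, X) : ℝ × Up)) := by fun_prop
    have h2 := (hc.tendsto X₀).eventually hφ.run
    filter_upwards [h2] with X hX
    exact (hX 0 X (Run.zero m _ X)).symm
  have hc2 : Continuous (fun q : ℝ × Up × Up => q.2.1) := by fun_prop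
  have h3 : {q : ℝ × Up × Up | φ (0, pE m q.2.1) = pE m q.2.1} ∈
      𝓝 ((0, X₀, X₀) : ℝ × Up × Up) := (hc2.tendsto ((0, X₀, X₀) : ℝ × Up × Up)).eventually h1
  have h4 := hφ.ex _ h3
  have hc3 : Continuous (fun y : comSub m => ((0, y) : ℝ × comSub m)) := by fun_prop
  filter_upwards [(hc3.tendsto (pE m X₀)).eventually h4] with y hy
  obtain ⟨q, hq, hq1, -⟩ := hy
  have hq' : φ (0, pE m q.2.1) = pE m q.2.1 := hq
  rw [hq1] at hq'
  exact hq'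

/-- the end point of a chain step -/
theorem hbd_end (hm : ∀ a, 0 < m a) {S T : ℝ} {X₀ X₁ : Up} {Φ φ : ℝ × comSub m → comSub m}
    {u : ℂ} (hu : ‖u‖ = 1) (hΦ : LM m T S X₀ X₁ Φ) (hφ : LM m 0 0 X₀ X₀ φ)
    (hend : pE m X₁ = u • pE m X₀) :
    ∀ᶠ w : comSub m × comSub m × (ℝ × ℝ) in 𝓝 (pE m X₀, pE m X₀, 0),
      ret Φ T u w.1 = Gact φ (w.2.2, w.2.1) →
        Φ (T - w.2.2.1, w.1) = (u * Complex.exp (w.2.2.2 * Complex.I)) • w.2.1 := by
  have c1 : Tendsto (fun w : comSub m × comSub m × (ℝ × ℝ) => ((-w.2.2.1, w.1) : ℝ × comSub m))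
      (𝓝 (pE m X₀, pE m X₀, 0)) (𝓝 (0, pE m X₀)) := by
    have hc : Continuous (fun w : comSub m × comSub m × (ℝ × ℝ) =>
      ((-w.2.2.1, w.1) : ℝ × comSub m)) := by fun_prop
    exact hc.tendsto' _ _ (by simp)
  have c0 : Tendsto (fun w : comSub m × comSub m × (ℝ × ℝ) => ((w.2.2.1, w.2.1) : ℝ × comSub m))
      (𝓝 (pE m X₀, pE m X₀, 0)) (𝓝 (0, pE m X₀)) := by
    have hc : Continuous (fun w : comSub m × comSub m × (ℝ × ℝ) =>
      ((w.2.2.1, w.2.1) : ℝ × comSub m)) := by fun_prop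
    exact hc.tendsto' _ _ (by simp)
  have hφc : Tendsto φ (𝓝 (0, pE m X₀)) (𝓝 (pE m X₀)) := by
    have h1 := hφ.an.continuousAt.tendsto
    rwa [hφ.base] at h1
  have c2 : Tendsto (fun w : comSub m × comSub m × (ℝ × ℝ) =>
      ((w.2.2.2, (-w.2.2.1, φ (w.2.2.1, w.2.1))) : ℝ × (ℝ × comSub m)))
      (𝓝 (pE m X₀, pE m X₀, 0)) (𝓝 (0, (0, pE m X₀))) := by
    refine Tendsto.prodMk_nhds ?_ (Tendsto.prodMk_nhds ?_ (hφc.comp c0))
    · have hc : Continuous (fun w : comSub m × comSub m × (ℝ × ℝ) => w.2.2.2) := by fun_prop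
      exact hc.tendsto' _ _ (by simp)
    · have hc : Continuous (fun w : comSub m × comSub m × (ℝ × ℝ) => -w.2.2.1) := by fun_prop
      exact hc.tendsto' _ _ (by simp)
  have c3 : Tendsto (fun w : comSub m × comSub m × (ℝ × ℝ) =>
      (((w.2.2.1, -w.2.2.1), w.2.1) : (ℝ × ℝ) × comSub m))
      (𝓝 (pE m X₀, pE m X₀, 0)) (𝓝 ((0, 0), pE m X₀)) := by
    have hc : Continuous (fun w : comSub m × comSub m × (ℝ × ℝ) =>
      (((w.2.2.1, -w.2.2.1), w.2.1) : (ℝ × ℝ) × comSub m)) := by fun_prop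
    exact hc.tendsto' _ _ (by simp)
  have c4 : Tendsto (fun w : comSub m × comSub m × (ℝ × ℝ) => w.2.1)
      (𝓝 (pE m X₀, pE m X₀, 0)) (𝓝 (pE m X₀)) := by
    have hc : Continuous (fun w : comSub m × comSub m × (ℝ × ℝ) => w.2.1) := by fun_prop
    exact hc.tendsto' _ _ rfl
  have h00 : LM m (0 + 0) (0 + 0) X₀ X₀ φ := by rw [add_zero]; exact hφ
  filter_upwards [c1.eventually (ret_shift hm hΦ hφ hu hend).2, c2.eventually (LM.rot hm hφ),
    c3.eventually (LM.comp hm hφ hφ h00), c4.eventually (hbd_zero hφ)] with w e1 e2 e3 e4 hw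
  have e1' : Φ (T + -w.2.2.1, w.1) = u • φ (-w.2.2.1, ret Φ T u w.1) := e1
  have e2' : φ (-w.2.2.1, Complex.exp (w.2.2.2 * Complex.I) • φ (w.2.2.1, w.2.1)) =
      Complex.exp (w.2.2.2 * Complex.I) • φ (-w.2.2.1, φ (w.2.2.1, w.2.1)) := e2
  have e3' : φ (w.2.2.1 + -w.2.2.1, w.2.1) = φ (-w.2.2.1, φ (w.2.2.1, w.2.1)) := e3
  have hw' : ret Φ T u w.1 = Complex.exp (w.2.2.2 * Complex.I) • φ (w.2.2.1, w.2.1) := hw
  rw [add_neg_cancel, e4] at e3'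
  rw [sub_eq_add_neg, e1', hw', e2', ← e3', smul_smul]

/-- A chain of returns is a classical solution.

Proof.  (1) `hchain : ret Φ T u y = Gact φ (g, y')` means `u⁻¹ • Φ (T, y) = e • φ (g.1, y')`,
`e = exp (i g.2)`.  For `y, y'` near `y₀` and `g` small:
`Φ (T - g.1, y) = u • φ (- g.1, ret Φ T u y)` (`ret_shift`), `= u • φ (- g.1, e • φ (g.1, y'))
= u • e • φ (- g.1, φ (g.1, y')) = u • e • y'` (`LM.rot`, `LM.comp` for `φ` with itself, or
`LocAct.add`, `LocAct.zero` if available; here use `LM.comp` and `Run.zero`).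
(2) `LM.classical` at `(T - g.1, y)`: there is a classical solution on `[0, T - g.1]` from `y` to
`(u e) • y'`. -/
theorem chain_step (hm : ∀ a, 0 < m a) {S T : ℝ} {X₀ X₁ : Up} {Φ φ : ℝ × comSub m → comSub m}
    {u : ℂ} (hT : 0 < T) (hu : ‖u‖ = 1) (hΦ : LM m T S X₀ X₁ Φ) (hφ : LM m 0 0 X₀ X₀ φ)
    (hend : pE m X₁ = u • pE m X₀) {y : ℝ → Ph} (hy : Solves (fld m) (frame m) (Icc 0 T) y)
    (hX : ((pE m X₀ : comSub m) : Ph) = y 0) :
    ∃ r > 0, ∀ (p p' : comSub m) (g : ℝ × ℝ), ‖p - pE m X₀‖ < r → ‖p' - pE m X₀‖ < r →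
      ‖g‖ < r → ret Φ T u p = Gact φ (g, p') → ∃ τ > 0, ∃ z,
        Solves (fld m) (frame m) (Icc 0 τ) z ∧ z 0 = (p : Ph) ∧
          z τ = (u * Complex.exp (g.2 * Complex.I)) • (p' : Ph) := by
  have hz : ∀ᶠ w : comSub m × comSub m × (ℝ × ℝ) in 𝓝 (pE m X₀, pE m X₀, 0),
      ∃ z, Solves (fld m) (frame m) (Icc 0 (T - w.2.2.1)) z ∧ z 0 = (w.1 : Ph) ∧
        z (T - w.2.2.1) = (Φ (T - w.2.2.1, w.1) : Ph) := by
    have hc : Continuous (fun w : comSub m × comSub m × (ℝ × ℝ) =>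
      ((T - w.2.2.1, w.1) : ℝ × comSub m)) := by fun_prop
    have c1 : Tendsto (fun w : comSub m × comSub m × (ℝ × ℝ) =>
        ((T - w.2.2.1, w.1) : ℝ × comSub m)) (𝓝 (pE m X₀, pE m X₀, 0)) (𝓝 (T, pE m X₀)) :=
      hc.tendsto' _ _ (by simp)
    exact c1.eventually (LM.classical hm hT hy hΦ hX)
  have hpos : ∀ᶠ w : comSub m × comSub m × (ℝ × ℝ) in 𝓝 (pE m X₀, pE m X₀, 0),
      0 < T - w.2.2.1 := by
    have hc : Continuous (fun w : comSub m × comSub m × (ℝ × ℝ) => T - w.2.2.1) := by fun_prop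
    have c1 : Tendsto (fun w : comSub m × comSub m × (ℝ × ℝ) => T - w.2.2.1)
        (𝓝 (pE m X₀, pE m X₀, 0)) (𝓝 T) := hc.tendsto' _ _ (by simp)
    exact c1.eventually (lt_mem_nhds hT)
  obtain ⟨r, hr, hall⟩ := Metric.eventually_nhds_iff.1
    ((hbd_end hm hu hΦ hφ hend).and (hz.and hpos))
  refine ⟨r, hr, fun p p' g hp hp' hg hret => ?_⟩
  have hdist : dist ((p, p', g) : comSub m × comSub m × (ℝ × ℝ)) (pE m X₀, pE m X₀, 0) < r := by
    rw [Prod.dist_eq, Prod.dist_eq]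
    refine max_lt ?_ (max_lt ?_ ?_)
    · rw [dist_eq_norm]
      exact hp
    · rw [dist_eq_norm]
      exact hp'
    · rw [dist_eq_norm, sub_zero]
      exact hg
  obtain ⟨h1, ⟨z, hz1, hz2, hz3⟩, h2⟩ := hall hdist
  refine ⟨T - g.1, h2, z, hz1, hz2, ?_⟩
  rw [hz3]
  have h3 : Φ (T - g.1, p) = (u * Complex.exp (g.2 * Complex.I)) • p' := h1 hret
  show (Φ (T - g.1, p) : Ph) = _
  rw [h3]
  rfl

theorem hbd_norm_exp (t : ℝ) : ‖Complex.exp (t * Complex.I)‖ = 1 :=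
  Complex.norm_exp_ofReal_mul_I t

/-- the concatenated solution along a chain -/
theorem hbd_chain {u : ℂ} (hu : ‖u‖ = 1) {r : ℝ} {x₀ : comSub m}
    {Φ : comSub m → comSub m} {G : (ℝ × ℝ) × comSub m → comSub m}
    (hstep : ∀ (p p' : comSub m) (g : ℝ × ℝ), ‖p - x₀‖ < r → ‖p' - x₀‖ < r →
      ‖g‖ < r → Φ p = G (g, p') → ∃ τ > 0, ∃ z,
        Solves (fld m) (frame m) (Icc 0 τ) z ∧ z 0 = (p : Ph) ∧
          z τ = (u * Complex.exp (g.2 * Complex.I)) • (p' : Ph))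
    {n : ℕ} {y : ℕ → comSub m} {g : ℕ → ℝ × ℝ} (hy : ∀ j ≤ n, ‖y j - x₀‖ < r)
    (hg : ∀ j < n, ‖g j‖ < r ∧ Φ (y j) = G (g j, y (j + 1))) (k : ℕ) (hk : k < n) :
    ∃ τ > 0, ∃ z, Solves (fld m) (frame m) (Icc 0 τ) z ∧ z 0 = (y 0 : Ph) ∧
      z τ = (u ^ (k + 1) * Complex.exp (((∑ j ∈ Finset.range (k + 1), (g j).2 : ℝ) : ℂ) *
        Complex.I)) • (y (k + 1) : Ph) := by
  induction k with
  | zero =>
    obtain ⟨τ, hτ, z, hz, hz0, hzτ⟩ := hstep (y 0) (y 1) (g 0) (hy 0 (by omega)) (hy 1 (by omega))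
      (hg 0 hk).1 (hg 0 hk).2
    refine ⟨τ, hτ, z, hz, hz0, ?_⟩
    rw [hzτ, zero_add, Finset.sum_range_one, pow_one]
  | succ k ih =>
    obtain ⟨τ, hτ, z, hz, hz0, hzτ⟩ := ih (by omega)
    obtain ⟨τ', hτ', z', hz', hz0', hzτ'⟩ := hstep (y (k + 1)) (y (k + 1 + 1)) (g (k + 1))
      (hy _ (by omega)) (hy _ (by omega)) (hg _ hk).1 (hg _ hk).2
    obtain ⟨v, hv⟩ : ∃ v : ℂ, v = u ^ (k + 1) * Complex.exp
        (((∑ j ∈ Finset.range (k + 1), (g j).2 : ℝ) : ℂ) * Complex.I) := ⟨_, rfl⟩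
    have hv1 : ‖v‖ = 1 := by
      rw [hv, norm_mul, norm_pow, hu, one_pow, one_mul, hbd_norm_exp]
    rw [← hv] at hzτ
    have hcc := hz.concat hτ hτ' (hz'.rotate' hv1) (by
      show v • z' 0 = z τ
      rw [hz0', hzτ])
    refine ⟨τ + τ', by positivity, _, hcc, ?_, ?_⟩
    · rw [if_pos hτ.le, hz0]
    · rw [if_neg (by linarith), add_sub_cancel_left, hzτ', smul_smul]
      congr 1
      rw [hv, Finset.sum_range_succ _ (k + 1), pow_succ u (k + 1)]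
      push_cast
      rw [add_mul, Complex.exp_add]
      ring

/-- Proof.  `exists_avoided` gives `w, ρ, V, U₀`; `lock_arc` gives `N`, `U₁`; `U = U₀ ∩ U₁`.  For `y` as
in the statement `u ^ N = 1`.  Let `r` be small: `chain_step`, `angle_bound`, and the ball of radius
`r` around `y 0` is in `U`.  For a chain `y j`, `g j` put `A k = Σ_{j < k} (g j).2`; concatenating the
classical solutions of `chain_step`, rotated (`Solves.concat`, `Solves.rotate'`), there is a classical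
solution from `y 0` to `(u ^ k * exp (i A k)) • y k` for every `k ≤ n`, so
`(u ^ k * exp (i A k)) • y k ∈ V`, while `y k ∈ V`: `ρ ≤ ‖u ^ k exp (i A k) - w‖`; `angle_bound`. -/
theorem bd_of_stable (hm : ∀ a, 0 < m a) (hx : Solves (fld m) (frame m) univ x) {P : ℝ}
    (hP : 0 < P) (hper : ∀ t, x (t + P) = x t) (hst : LyapunovStable m (range x))
    (hnc : ¬ ∀ a b t, ‖(x t).1 a - (x t).1 b‖ = ‖(x 0).1 a - (x 0).1 b‖) :
    ∃ U, IsOpen U ∧ range x ⊆ U ∧ ∀ (y : ℝ → Ph) (T : ℝ) (u : ℂ), 0 < T → ‖u‖ = 1 →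
      Solves (fld m) (frame m) (Icc 0 T) y → y 0 ∈ U → y T = u • y 0 →
      ∀ S X₀ X₁ Φ φ, ((pE m X₀ : comSub m) : Ph) = y 0 → LM m T S X₀ X₁ Φ → LM m 0 0 X₀ X₀ φ →
        pE m X₁ = u • pE m X₀ → BD (pE m X₀) (Gact φ) (ret Φ T u) := by
  obtain ⟨w, hw, ρ, hρ, V, hVo, hxV, hkey, U₀, hU₀o, hxU₀, hU₀V, hstay⟩ :=
    exists_avoided hx hP hper hst hnc
  obtain ⟨N, hN, U₁, hU₁o, hxU₁, hlock⟩ := lock_arc hx hP hper hst hnc
  refine ⟨U₀ ∩ U₁, hU₀o.inter hU₁o, subset_inter hxU₀ hxU₁, ?_⟩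
  intro y T u hT hu hy hy0 hyT S X₀ X₁ Φ φ hX hΦ hφ hend
  have huN : u ^ N = 1 := hlock T hT u hu y hy hy0.2 hyT
  obtain ⟨r₁, hr₁, δ, hang⟩ := angle_bound hu hw hN huN hρ
  obtain ⟨r₂, hr₂, hstep⟩ := chain_step hm hT hu hΦ hφ hend hy hX
  obtain ⟨r₃, hr₃, hball⟩ := Metric.isOpen_iff.1 hU₀o (y 0) hy0.1
  have hin : ∀ p : comSub m, ‖p - pE m X₀‖ < r₃ → (p : Ph) ∈ U₀ := by
    intro p hp
    apply hball
    rw [Metric.mem_ball, dist_eq_norm, ← hX]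
    exact hp
  refine ⟨min r₁ (min r₂ r₃), lt_min hr₁ (lt_min hr₂ hr₃), δ, ?_⟩
  intro n c g hc hg
  have hc2 : ∀ j ≤ n, ‖c j - pE m X₀‖ < r₂ := fun j hj =>
    (hc j hj).trans_le ((min_le_right _ _).trans (min_le_left _ _))
  have hc3 : ∀ j ≤ n, (c j : Ph) ∈ U₀ := fun j hj =>
    hin _ ((hc j hj).trans_le ((min_le_right _ _).trans (min_le_right _ _)))
  have hg2 : ∀ j < n, ‖g j‖ < r₂ ∧ ret Φ T u (c j) = Gact φ (g j, c (j + 1)) := fun j hj =>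
    ⟨(hg j hj).1.trans_le ((min_le_right _ _).trans (min_le_left _ _)), (hg j hj).2⟩
  refine hang n (fun k => ∑ j ∈ Finset.range k, (g j).2) (by simp) ?_ ?_
  · intro j hj
    rw [Finset.sum_range_succ, add_sub_cancel_left]
    calc |(g j).2| = ‖(g j).2‖ := (Real.norm_eq_abs _).symm
      _ ≤ ‖g j‖ := norm_snd_le _
      _ ≤ r₁ := (hg j hj).1.le.trans (min_le_left _ _)
  · intro k hk
    apply hkey (c k : Ph) (hU₀V (hc3 k hk))
    rcases k with _ | k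
    · have h1 : u ^ 0 * Complex.exp (((∑ j ∈ Finset.range 0, (g j).2 : ℝ) : ℂ) * Complex.I) =
          1 := by simp
      rw [h1, one_smul]
      exact hU₀V (hc3 0 hk)
    · obtain ⟨τ, hτ, z, hz, hz0, hzτ⟩ := hbd_chain hu hstep hc2 hg2 k (by omega)
      rw [← hzτ]
      exact hstay τ hτ.le z hz (by rw [hz0]; exact hc3 0 (by omega))

end Pool.Agent.MP_5027f4_cont
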