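import Pool.Agent.Lib_MP_5027f4_cont.TaylorA

/-!
PIECE [Taylor] (MP_5027f4_mp, T1).  Third order Taylor expansion of analytic maps.
-/

open Set Filter Topology Metric Polynomial Asymptotics
open scoped ComplexConjugate ContDiff

namespace Pool.Agent.MP_5027f4_cont

variable {F : Type*} [NormedAddCommGroup F] [NormedSpace ℝ F]

/-- Proof: the partial sum of order 4 of the power series
(`HasFPowerSeriesAt.isBigO_sub_partialSum_pow`); the linear term is the derivative; the second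
statement by `isBigO_fderiv_of_analytic` applied to the difference. -/
theorem taylor3 {f : ℂ × ℂ → F} [CompleteSpace F] (hf : AnalyticAt ℝ f 0) :
    ∃ Q₂ Q₃ : ℂ × ℂ → F, HG 2 Q₂ ∧ HG 3 Q₃ ∧
      (fun z => f z - (f 0 + fderiv ℝ f 0 z + Q₂ z + Q₃ z)) =O[𝓝 0] (fun z => ‖z‖ ^ 4) ∧
      (fun z => fderiv ℝ f z - (fderiv ℝ f 0 + fderiv ℝ Q₂ z + fderiv ℝ Q₃ z)) =O[𝓝 0]
        (fun z => ‖z‖ ^ 3) := by
  obtain ⟨p, hp⟩ := hf
  have hQ₂ : HG 2 (fun z : ℂ × ℂ => p 2 fun _ => z) := ⟨p 2, fun _ => rfl⟩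
  have hQ₃ : HG 3 (fun z : ℂ × ℂ => p 3 fun _ => z) := ⟨p 3, fun _ => rfl⟩
  have h1 : (fun z => f z - (f 0 + fderiv ℝ f 0 z + (p 2 fun _ => z) + (p 3 fun _ => z)))
      =O[𝓝 0] (fun z => ‖z‖ ^ 4) := by
    have h := hp.isBigO_sub_partialSum_pow 4
    refine h.congr_left fun z => ?_
    rw [zero_add]
    congr 1
    unfold FormalMultilinearSeries.partialSum
    rw [Finset.sum_range_succ, Finset.sum_range_succ, Finset.sum_range_succ,
      Finset.sum_range_succ, Finset.sum_range_zero, zero_add]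
    congr 3
    · exact hp.coeff_zero _
    · rw [hp.fderiv_eq]
      simp only [continuousMultilinearCurryFin1_apply]
      congr 1
  refine ⟨_, _, hQ₂, hQ₃, h1, ?_⟩
  have hf' : AnalyticAt ℝ f 0 := ⟨p, hp⟩
  have hL : ∀ z, AnalyticAt ℝ (fun z => fderiv ℝ f 0 z) z := fun z =>
    (fderiv ℝ f 0).analyticAt z
  have hg : AnalyticAt ℝ
      (fun z => f z - (f 0 + fderiv ℝ f 0 z + (p 2 fun _ => z) + (p 3 fun _ => z))) 0 :=
    hf'.sub (((analyticAt_const.add (hL 0)).add (hQ₂.analyticAt 0)).add (hQ₃.analyticAt 0))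
  have h2 := isBigO_fderiv_of_analytic hg (n := 3) h1
  refine h2.congr' ?_ EventuallyEq.rfl
  filter_upwards [hf'.eventually_analyticAt] with z hz
  have d1 := hz.differentiableAt.hasFDerivAt
  have d2 := (fderiv ℝ f 0).hasFDerivAt (x := z)
  have d3 := (hQ₂.analyticAt z).differentiableAt.hasFDerivAt
  have d4 := (hQ₃.analyticAt z).differentiableAt.hasFDerivAt
  have d5 := d1.sub ((((hasFDerivAt_const (f 0) z).add d2).add d3).add d4)
  have d6 := d5.fderiv
  rw [zero_add] at d6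
  exact d6

end Pool.Agent.MP_5027f4_cont
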