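import Pool.Agent.Lib_MP_5027f4_cont.KGel
import Pool.Agent.Lib_MP_5027f4_cont.Taylor

/-!
PIECE [KEsc] (MP_5027f4_mp, T1).  A fixed point with a multiplier outside the unit circle is unstable.
-/

open Set Filter Topology Metric Polynomial
open scoped ComplexConjugate ContDiff
open Pool.Agent.MP_5027f4_mp

namespace Pool.Agent.MP_5027f4_cont

/-- Discrete variation of constants. -/
theorem esc_voc {E : Type*} [NormedAddCommGroup E] [NormedSpace ℝ E] (A : E →L[ℝ] E) (P : E → E)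
    (z : ℕ → E) (hz : ∀ j, z (j + 1) = P (z j)) (j : ℕ) :
    z j = (A ^ j) (z 0) + ∑ i ∈ Finset.range j, (A ^ (j - 1 - i)) (P (z i) - A (z i)) := by
  induction j with
  | zero => simp
  | succ j ih =>
    rw [Finset.sum_range_succ]
    have h1 : ∀ i ∈ Finset.range j, (A ^ (j + 1 - 1 - i)) (P (z i) - A (z i)) =
        A ((A ^ (j - 1 - i)) (P (z i) - A (z i))) := by
      intro i hi
      have hi' : i < j := Finset.mem_range.1 hi
      have : j + 1 - 1 - i = (j - 1 - i) + 1 := by omega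
      rw [this, pow_succ']
      rfl
    rw [Finset.sum_congr rfl h1, ← map_sum]
    have h2 : (A ^ (j + 1)) (z 0) = A ((A ^ j) (z 0)) := by
      rw [pow_succ']
      rfl
    have h3 : (A ^ (j + 1 - 1 - j)) (P (z j) - A (z j)) = P (z j) - A (z j) := by
      have : j + 1 - 1 - j = 0 := by omega
      rw [this, pow_zero]
      rfl
    rw [h2, h3, ← add_assoc, ← map_add, ← ih, hz]
    abel

/-- The estimate of `escape_of_root`, with all constants explicit. -/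
theorem esc_aux {E : Type*} [NormedAddCommGroup E] [NormedSpace ℝ E] (A : E →L[ℝ] E) (P : E → E)
    {ρ ρ' C₁ C₂ C₀ c R : ℝ} (h1 : 1 < ρ) (h2 : 0 < ρ') (h3 : ρ' < ρ ^ 2) (hC1 : 0 ≤ C₁)
    (hC2 : 0 ≤ C₂) (hC0 : 0 < C₀) (hc : 0 < c) (hR : 0 < R) (hA : ∀ n, ‖A ^ n‖ ≤ C₁ * ρ' ^ n)
    (hP : ∀ z, ‖z‖ ≤ R → ‖P z - A z‖ ≤ C₂ * ‖z‖ ^ 2)
    (hv : ∀ n : ℕ, ∃ v : E, ‖v‖ ≤ 1 ∧ (∀ j : ℕ, ‖(A ^ j) v‖ ≤ C₀ * ρ ^ j) ∧
      c * ρ ^ n ≤ ‖(A ^ n) v‖) :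
    ∃ r > 0, ∀ δ > 0, ∃ (n : ℕ) (z : ℕ → E), ‖z 0‖ < δ ∧
      (∀ j < n, z (j + 1) = P (z j)) ∧ (∀ j ≤ n, ‖z j‖ ≤ R) ∧ r ≤ ‖z n‖ := by
  have hρ0 : 0 < ρ := by linarith
  set D : ℝ := ρ ^ 2 - ρ' with hD
  have hD0 : 0 < D := by rw [hD]; linarith
  set C₅ : ℝ := C₁ * C₂ * (2 * C₀) ^ 2 / D with hC5
  have hC50 : 0 ≤ C₅ := by rw [hC5]; positivity
  -- the small radius
  obtain ⟨r₁, hr₁, hr₁R, hr₁0, hr₁c⟩ : ∃ r₁ > 0, C₀ * r₁ ≤ R ∧ C₅ * r₁ ≤ C₀ ∧ C₅ * r₁ ≤ c := by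
    refine ⟨min (R / C₀) (min (C₀ / (C₅ + 1)) (c / (C₅ + 1))), ?_, ?_, ?_, ?_⟩
    · positivity
    · have : min (R / C₀) (min (C₀ / (C₅ + 1)) (c / (C₅ + 1))) ≤ R / C₀ := min_le_left _ _
      calc _ ≤ C₀ * (R / C₀) := by gcongr
        _ = R := by field_simp
    · have h : min (R / C₀) (min (C₀ / (C₅ + 1)) (c / (C₅ + 1))) ≤ C₀ / (C₅ + 1) :=
        (min_le_right _ _).trans (min_le_left _ _)
      calc _ ≤ C₅ * (C₀ / (C₅ + 1)) := by gcongr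
        _ ≤ (C₅ + 1) * (C₀ / (C₅ + 1)) := by gcongr; linarith
        _ = C₀ := by field_simp
    · have h : min (R / C₀) (min (C₀ / (C₅ + 1)) (c / (C₅ + 1))) ≤ c / (C₅ + 1) :=
        (min_le_right _ _).trans (min_le_right _ _)
      calc _ ≤ C₅ * (c / (C₅ + 1)) := by gcongr
        _ ≤ (C₅ + 1) * (c / (C₅ + 1)) := by gcongr; linarith
        _ = c := by field_simp
  refine ⟨c * r₁ / (4 * ρ), by positivity, ?_⟩
  -- reduce to small δ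
  have key : ∀ δ > 0, δ ≤ r₁ → ∃ (n : ℕ) (z : ℕ → E), ‖z 0‖ < δ ∧
      (∀ j < n, z (j + 1) = P (z j)) ∧ (∀ j ≤ n, ‖z j‖ ≤ R) ∧ c * r₁ / (4 * ρ) ≤ ‖z n‖ := by
    intro δ hδ hδr
    -- the number of steps
    have hex : ∃ n : ℕ, r₁ < δ * ρ ^ (n + 1) := by
      obtain ⟨n, hn⟩ := pow_unbounded_of_one_lt (r₁ / δ) h1
      refine ⟨n, ?_⟩
      have h4 : ρ ^ n ≤ ρ ^ (n + 1) := pow_le_pow_right₀ h1.le (Nat.le_succ n)
      have h5 : r₁ / δ < ρ ^ (n + 1) := lt_of_lt_of_le hn h4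
      have h6 := (div_lt_iff₀ hδ).1 h5
      linarith [mul_comm (ρ ^ (n + 1)) δ]
    classical
    obtain ⟨n, hn1, hn2⟩ : ∃ n : ℕ, δ * ρ ^ n ≤ r₁ ∧ r₁ < δ * ρ ^ (n + 1) := by
      refine ⟨Nat.find hex, ?_, Nat.find_spec hex⟩
      rcases Nat.eq_zero_or_pos (Nat.find hex) with h | h
      · rw [h]; simpa using hδr
      · have h7 := Nat.find_min hex (m := Nat.find hex - 1) (by omega)
        have h8 : Nat.find hex - 1 + 1 = Nat.find hex := by omega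
        rw [h8] at h7
        exact not_lt.1 h7
    obtain ⟨v, hv1, hv2, hv3⟩ := hv n
    set z : ℕ → E := fun j => P^[j] ((δ / 2) • v) with hz
    have hz0 : z 0 = (δ / 2) • v := rfl
    have hzs : ∀ j, z (j + 1) = P (z j) := fun j => Function.iterate_succ_apply' P j _
    -- values
    have hpow : ∀ j ≤ n, δ / 2 * ρ ^ j ≤ r₁ / 2 := by
      intro j hj
      have h4 : ρ ^ j ≤ ρ ^ n := pow_le_pow_right₀ h1.le hj
      have h5 : δ * ρ ^ j ≤ δ * ρ ^ n := by gcongr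
      linarith
    have hlin : ∀ j : ℕ, ‖(A ^ j) (z 0)‖ ≤ C₀ * (δ / 2 * ρ ^ j) := by
      intro j
      rw [hz0, map_smul, norm_smul, Real.norm_of_nonneg (by positivity)]
      calc δ / 2 * ‖(A ^ j) v‖ ≤ δ / 2 * (C₀ * ρ ^ j) := by gcongr; exact hv2 j
        _ = _ := by ring
    have hmain : ∀ j ≤ n, (∀ i < j, ‖z i‖ ≤ 2 * C₀ * (δ / 2 * ρ ^ i)) →
        ‖z j - (A ^ j) (z 0)‖ ≤ C₅ * (δ / 2 * ρ ^ j) ^ 2 := by
      intro j hj hi
      have h4 : z j - (A ^ j) (z 0) =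
          ∑ i ∈ Finset.range j, (A ^ (j - 1 - i)) (P (z i) - A (z i)) := by
        conv_lhs => rw [esc_voc A P z hzs j]
        abel
      rw [h4]
      calc ‖∑ i ∈ Finset.range j, (A ^ (j - 1 - i)) (P (z i) - A (z i))‖
          ≤ ∑ i ∈ Finset.range j, ‖(A ^ (j - 1 - i)) (P (z i) - A (z i))‖ := norm_sum_le _ _
        _ ≤ ∑ i ∈ Finset.range j,
            (C₁ * C₂ * (2 * C₀) ^ 2 * (δ / 2) ^ 2) * ((ρ ^ 2) ^ i * ρ' ^ (j - 1 - i)) := by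
            refine Finset.sum_le_sum fun i hij => ?_
            have hij' : i < j := Finset.mem_range.1 hij
            have h5 : ‖z i‖ ≤ 2 * C₀ * (δ / 2 * ρ ^ i) := hi i hij'
            have h6 : ‖z i‖ ≤ R := by
              have := hpow i (by omega)
              calc ‖z i‖ ≤ 2 * C₀ * (δ / 2 * ρ ^ i) := h5
                _ ≤ 2 * C₀ * (r₁ / 2) := by gcongr
                _ = C₀ * r₁ := by ring
                _ ≤ R := hr₁R
            calc ‖(A ^ (j - 1 - i)) (P (z i) - A (z i))‖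
                ≤ ‖A ^ (j - 1 - i)‖ * ‖P (z i) - A (z i)‖ := ContinuousLinearMap.le_opNorm _ _
              _ ≤ (C₁ * ρ' ^ (j - 1 - i)) * (C₂ * ‖z i‖ ^ 2) := by
                  gcongr
                  · exact hA _
                  · exact hP _ h6
              _ ≤ (C₁ * ρ' ^ (j - 1 - i)) * (C₂ * (2 * C₀ * (δ / 2 * ρ ^ i)) ^ 2) := by
                  gcongr
              _ = _ := by ring
        _ = (C₁ * C₂ * (2 * C₀) ^ 2 * (δ / 2) ^ 2) *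
            ∑ i ∈ Finset.range j, ((ρ ^ 2) ^ i * ρ' ^ (j - 1 - i)) := by rw [Finset.mul_sum]
        _ ≤ (C₁ * C₂ * (2 * C₀) ^ 2 * (δ / 2) ^ 2) * ((ρ ^ 2) ^ j / D) := by
            gcongr
            rw [le_div_iff₀ hD0]
            have h7 := (Commute.all (ρ ^ 2) ρ').geom_sum₂_mul j
            rw [hD, h7]
            have : 0 ≤ ρ' ^ j := by positivity
            linarith
        _ = C₅ * (δ / 2 * ρ ^ j) ^ 2 := by
            rw [hC5]; ring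
    have hbd : ∀ j : ℕ, j ≤ n → ‖z j‖ ≤ 2 * C₀ * (δ / 2 * ρ ^ j) := by
      intro j
      induction j using Nat.strong_induction_on with
      | _ j ih =>
        intro hj
        have h4 := hmain j hj (fun i hi => ih i hi (by omega))
        have h5 := hlin j
        have h6 : ‖z j‖ ≤ ‖z j - (A ^ j) (z 0)‖ + ‖(A ^ j) (z 0)‖ := by
          have := norm_add_le (z j - (A ^ j) (z 0)) ((A ^ j) (z 0))
          simpa using this
        have h7 := hpow j hj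
        have h8 : 0 ≤ δ / 2 * ρ ^ j := by positivity
        have h9 : C₅ * (δ / 2 * ρ ^ j) ^ 2 ≤ C₀ * (δ / 2 * ρ ^ j) := by
          have h10 : C₅ * (δ / 2 * ρ ^ j) ≤ C₅ * (r₁ / 2) := by gcongr
          have h11 : C₅ * (δ / 2 * ρ ^ j) ≤ C₀ := by
            have : 0 ≤ C₅ * r₁ := by positivity
            linarith
          calc C₅ * (δ / 2 * ρ ^ j) ^ 2 = C₅ * (δ / 2 * ρ ^ j) * (δ / 2 * ρ ^ j) := by ring
            _ ≤ C₀ * (δ / 2 * ρ ^ j) := by gcongr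
        linarith
    refine ⟨n, z, ?_, fun j _ => hzs j, ?_, ?_⟩
    · rw [hz0, norm_smul, Real.norm_of_nonneg (by positivity)]
      calc δ / 2 * ‖v‖ ≤ δ / 2 * 1 := by gcongr
        _ < δ := by linarith
    · intro j hj
      have := hpow j hj
      calc ‖z j‖ ≤ 2 * C₀ * (δ / 2 * ρ ^ j) := hbd j hj
        _ ≤ 2 * C₀ * (r₁ / 2) := by gcongr
        _ = C₀ * r₁ := by ring
        _ ≤ R := hr₁R
    · have h4 := hmain n le_rfl (fun i hi => hbd i hi.le)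
      have h5 : c * (δ / 2 * ρ ^ n) ≤ ‖(A ^ n) (z 0)‖ := by
        rw [hz0, map_smul, norm_smul, Real.norm_of_nonneg (by positivity)]
        calc c * (δ / 2 * ρ ^ n) = δ / 2 * (c * ρ ^ n) := by ring
          _ ≤ δ / 2 * ‖(A ^ n) v‖ := by gcongr
      have h6 : ‖(A ^ n) (z 0)‖ ≤ ‖z n - (A ^ n) (z 0)‖ + ‖z n‖ := by
        have := norm_sub_le (z n) (z n - (A ^ n) (z 0))
        rw [sub_sub_cancel] at this
        linarith
      have h7 := hpow n le_rfl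
      have h8 : 0 ≤ δ / 2 * ρ ^ n := by positivity
      have h9 : C₅ * (δ / 2 * ρ ^ n) ^ 2 ≤ c / 2 * (δ / 2 * ρ ^ n) := by
        have h10 : C₅ * (δ / 2 * ρ ^ n) ≤ C₅ * (r₁ / 2) := by gcongr
        have h11 : C₅ * (δ / 2 * ρ ^ n) ≤ c / 2 := by linarith
        calc C₅ * (δ / 2 * ρ ^ n) ^ 2 = C₅ * (δ / 2 * ρ ^ n) * (δ / 2 * ρ ^ n) := by ring
          _ ≤ c / 2 * (δ / 2 * ρ ^ n) := by gcongr
      have h12 : c / 2 * (δ / 2 * ρ ^ n) ≤ ‖z n‖ := by linarith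
      have h13 : c * r₁ / (4 * ρ) ≤ c / 2 * (δ / 2 * ρ ^ n) := by
        rw [div_le_iff₀ (by positivity)]
        calc c * r₁ ≤ c * (δ * ρ ^ (n + 1)) := by gcongr
          _ = c / 2 * (δ / 2 * ρ ^ n) * (4 * ρ) := by ring
      linarith
  intro δ hδ
  obtain ⟨n, z, ha, hb, hc', hd⟩ := key (min δ r₁) (by positivity) (min_le_right _ _)
  exact ⟨n, z, lt_of_lt_of_le ha (min_le_left _ _), hb, hc', hd⟩

/-- second order Taylor estimate -/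
theorem esc_taylor {P : ℂ × ℂ → ℂ × ℂ} (hP : AnalyticAt ℝ P 0) (h0 : P 0 = 0) :
    ∃ C₂ ≥ 0, ∃ R₁ > 0, ∀ z, ‖z‖ ≤ R₁ → ‖P z - fderiv ℝ P 0 z‖ ≤ C₂ * ‖z‖ ^ 2 := by
  obtain ⟨p, hp⟩ := hP
  have h1 : (fun z => P z - fderiv ℝ P 0 z) =O[𝓝 0] (fun z : ℂ × ℂ => ‖z‖ ^ 2) := by
    have h := hp.isBigO_sub_partialSum_pow 2
    refine h.congr_left fun z => ?_
    rw [zero_add]
    congr 1
    unfold FormalMultilinearSeries.partialSum
    rw [Finset.sum_range_succ, Finset.sum_range_succ, Finset.sum_range_zero, zero_add]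
    have h2 : (p 0 fun _ => z) = 0 := by rw [← h0]; exact hp.coeff_zero _
    rw [h2, zero_add, hp.fderiv_eq]
    simp only [continuousMultilinearCurryFin1_apply]
    congr 1
  obtain ⟨C, hC⟩ := h1.bound
  rw [Metric.eventually_nhds_iff] at hC
  obtain ⟨ε, hε, h2⟩ := hC
  refine ⟨max C 0, le_max_right _ _, ε / 2, by positivity, fun z hz => ?_⟩
  have h3 := h2 (y := z) (by rw [dist_zero_right]; linarith)
  rw [norm_pow, norm_norm] at h3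
  calc _ ≤ C * ‖z‖ ^ 2 := h3
    _ ≤ max C 0 * ‖z‖ ^ 2 := by gcongr; exact le_max_left _ _

/-- Proof.  Let `l'` be a root of maximal modulus `ρ ≥ ‖l‖ > 1` of the characteristic polynomial of
`A = DP(0)` (finitely many roots).  Choose `ρ'` with `ρ < ρ' < ρ²`: `‖A ^ n‖ ≤ C₁ ρ' ^ n`
(`pow_bound`), `‖P z - A z‖ ≤ C₂ ‖z‖²` for `‖z‖ ≤ R` (`taylor3`; decrease `R`), `c, C₀` from
`pow_lower` for `l'`.  Let `r₁ > 0` be small.  Given `δ > 0` (small, `δ < r₁`) let `n` be such that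
`δ ρ ^ n ≤ r₁ < δ ρ ^ (n + 1)`, `v` from `pow_lower` for this `n`, `z 0 = δ' • v` with `δ' = δ / 2`,
`z (j + 1) = P (z j)`.  Claim `‖z j‖ ≤ 2 C₀ δ' ρ ^ j` for `j ≤ n` (induction):
`z j = A ^ j (z 0) + Σ_{i<j} A ^ (j-1-i) (P (z i) - A (z i))` and the sum is at most
`Σ_{i<j} C₁ ρ' ^ (j-1-i) C₂ (2 C₀ δ' ρ ^ i)² ≤ C₅ (δ' ρ ^ j)²`, since `ρ' < ρ²` (geometric series in
`ρ' / ρ²`), and `C₅ (δ' ρ ^ j)² ≤ C₅ r₁ δ' ρ ^ j`.  At `j = n`:
`‖z n‖ ≥ (c - C₅ r₁) δ' ρ ^ n ≥ (c / 2) δ' ρ ^ n ≥ c r₁ / (4 ρ)`, a constant. -/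
theorem escape_of_root {P : ℂ × ℂ → ℂ × ℂ} (hP : AnalyticAt ℝ P 0) (h0 : P 0 = 0) {l : ℂ}
    (hl : ((cp (fderiv ℝ P 0)).map (algebraMap ℝ ℂ)).eval l = 0) (h1 : 1 < ‖l‖) {R : ℝ}
    (hR : 0 < R) : ∃ r > 0, ∀ δ > 0, ∃ (n : ℕ) (z : ℕ → ℂ × ℂ), ‖z 0‖ < δ ∧
      (∀ j < n, z (j + 1) = P (z j)) ∧ (∀ j ≤ n, ‖z j‖ ≤ R) ∧ r ≤ ‖z n‖ := by
  set A := fderiv ℝ P 0 with hA
  set q : ℂ[X] := (cp A).map (algebraMap ℝ ℂ) with hq
  have hq0 : q ≠ 0 := by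
    have hm : (cp A).Monic := LinearMap.charpoly_monic _
    exact (hm.map _).ne_zero
  have hmem : ∀ x : ℂ, x ∈ q.roots.toFinset ↔ q.eval x = 0 := by
    intro x
    rw [Multiset.mem_toFinset, Polynomial.mem_roots hq0, Polynomial.IsRoot.def]
  obtain ⟨l', hl', hmax⟩ := Finset.exists_max_image q.roots.toFinset (fun x => ‖x‖)
    ⟨l, (hmem l).2 hl⟩
  have hl'0 := (hmem l').1 hl'
  have hmax' : ∀ x : ℂ, q.eval x = 0 → ‖x‖ ≤ ‖l'‖ := fun x hx => hmax x ((hmem x).2 hx)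
  have hρ1 : 1 < ‖l'‖ := lt_of_lt_of_le h1 (hmax' l hl)
  have hρ2 : ‖l'‖ < ‖l'‖ ^ 2 := by nlinarith
  set ρ' : ℝ := (‖l'‖ + ‖l'‖ ^ 2) / 2 with hρ'
  have ha : ‖l'‖ < ρ' := by rw [hρ']; linarith
  have hb : ρ' < ‖l'‖ ^ 2 := by rw [hρ']; linarith
  obtain ⟨C₁, hC₁⟩ := pow_bound A (norm_nonneg l') ha hmax'
  obtain ⟨c, hc, C₀, hC₀⟩ := pow_lower A hl'0
  obtain ⟨C₂, hC₂, R₁, hR₁, htay⟩ := esc_taylor hP h0
  have hC₁0 : 0 ≤ C₁ := by
    have := (norm_nonneg _).trans (hC₁ 0)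
    simpa using this
  obtain ⟨r, hr, hres⟩ := esc_aux (E := ℂ × ℂ) A P (ρ := ‖l'‖) (ρ' := ρ') (C₁ := C₁) (C₂ := C₂)
    (C₀ := max C₀ 1) (c := c) (R := min R R₁) hρ1 (by linarith) hb hC₁0 hC₂
    (by positivity) hc (by positivity) hC₁ (fun z hz => htay z (hz.trans (min_le_right _ _)))
    (fun n => by
      obtain ⟨v, hv1, hv2, hv3⟩ := hC₀ n
      refine ⟨v, hv1, fun j => (hv2 j).trans ?_, hv3⟩
      gcongr
      exact le_max_left _ _)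
  refine ⟨r, hr, fun δ hδ => ?_⟩
  obtain ⟨n, z, hz1, hz2, hz3, hz4⟩ := hres δ hδ
  exact ⟨n, z, hz1, hz2, fun j hj => (hz3 j hj).trans (min_le_left _ _), hz4⟩

end Pool.Agent.MP_5027f4_cont
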