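import Pool.Agent.Lib_MP_5027f4_cont.Defs

/-!
PIECE [RetA] (MP_5027f4_mp, T1).  A map commuting with the action in the Darboux chart; chains.
-/

open Set Filter Topology Metric Polynomial Asymptotics
open scoped ComplexConjugate ContDiff

namespace Pool.Agent.MP_5027f4_cont

variable {E : Type*} [NormedAddCommGroup E] [NormedSpace ℝ E] [FiniteDimensional ℝ E]
  {om : E →L[ℝ] E →L[ℝ] ℝ} {x₀ : E} {G : (ℝ × ℝ) × E → E} {μ : E → ℝ × ℝ}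
  {Θ : (ℝ × ℝ) × (ℝ × ℝ) × (ℂ × ℂ) → E} {Ξ : E → (ℝ × ℝ) × (ℝ × ℝ) × (ℂ × ℂ)} {Φ : E → E}

/-- Proof.  `b q = (Ξ (Φ (Θ (0, q)))).1`, `P q = (Ξ (Φ (Θ (0, q)))).2.2` are analytic at
`(μ x₀, 0)`.  For `q = (k, z)` near the base point `Φ (Θ (0, q)) = Θ (Ξ (Φ (Θ (0, q))))`
(`hC.right`), and the momentum component is
`(Ξ ..).2.1 = μ (Θ (Ξ ..)) = μ (Φ (Θ (0, q))) = μ (Θ (0, q)) = k` (`hC.mom`, `hmu`).  So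
`Φ (Θ (0, q)) = Θ (b q, q.1, P q)`.  For `p = (g, q)`: `Θ (g, q) = G (g, Θ (0, q))` (`hC.shift`),
`Φ (Θ p) = G (g, Φ (Θ (0, q))) = G (g, Θ (b q, q.1, P q)) = Θ (g + b q, q.1, P q)`. -/
theorem exists_ret (hC : DChart om x₀ G μ Θ Ξ) (hΦ : AnalyticAt ℝ Φ x₀) (hΦ0 : Φ x₀ = x₀)
    (hcomm : ∀ᶠ p : (ℝ × ℝ) × E in 𝓝 (0, x₀), Φ (G p) = G (p.1, Φ p.2))
    (hmu : ∀ᶠ y in 𝓝 x₀, μ (Φ y) = μ y) : ∃ b P, RetMap (μ x₀) Θ Φ b P := by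
  -- the map `q ↦ Φ (Θ (0, q))`
  have hin : AnalyticAt ℝ (fun q : (ℝ × ℝ) × (ℂ × ℂ) => ((0 : ℝ × ℝ), q)) (μ x₀, 0) :=
    analyticAt_const.prod analyticAt_id
  have hΘ : AnalyticAt ℝ (fun q : (ℝ × ℝ) × (ℂ × ℂ) => Θ (0, q)) (μ x₀, 0) :=
    AnalyticAt.fun_comp hC.an hin
  have hΘ0 : Θ (0, (μ x₀, 0)) = x₀ := hC.base
  have hΦ' : AnalyticAt ℝ Φ ((fun q : (ℝ × ℝ) × (ℂ × ℂ) => Θ (0, q)) (μ x₀, 0)) := by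
    simpa only [hΘ0] using hΦ
  have hY : AnalyticAt ℝ (fun q : (ℝ × ℝ) × (ℂ × ℂ) => Φ (Θ (0, q))) (μ x₀, 0) :=
    AnalyticAt.fun_comp hΦ' hΘ
  have hY0 : Φ (Θ (0, (μ x₀, 0))) = x₀ := by rw [hΘ0, hΦ0]
  have hX' : AnalyticAt ℝ Ξ ((fun q : (ℝ × ℝ) × (ℂ × ℂ) => Φ (Θ (0, q))) (μ x₀, 0)) := by
    simpa only [hY0] using hC.anX
  have hZ : AnalyticAt ℝ (fun q : (ℝ × ℝ) × (ℂ × ℂ) => Ξ (Φ (Θ (0, q)))) (μ x₀, 0) :=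
    AnalyticAt.fun_comp hX' hY
  have hZ0 : Ξ (Φ (Θ (0, (μ x₀, 0)))) = (0, μ x₀, 0) := by rw [hY0, hC.baseX]
  have hb : AnalyticAt ℝ (fun q : (ℝ × ℝ) × (ℂ × ℂ) => (Ξ (Φ (Θ (0, q)))).1) (μ x₀, 0) :=
    AnalyticAt.fun_comp (analyticAt_fst (E := ℝ × ℝ) (F := (ℝ × ℝ) × (ℂ × ℂ))) hZ
  have hP1 : AnalyticAt ℝ (fun q : (ℝ × ℝ) × (ℂ × ℂ) => (Ξ (Φ (Θ (0, q)))).2) (μ x₀, 0) :=
    AnalyticAt.fun_comp (analyticAt_snd (E := ℝ × ℝ) (F := (ℝ × ℝ) × (ℂ × ℂ))) hZ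
  have hP : AnalyticAt ℝ (fun q : (ℝ × ℝ) × (ℂ × ℂ) => (Ξ (Φ (Θ (0, q)))).2.2) (μ x₀, 0) :=
    AnalyticAt.fun_comp (analyticAt_snd (E := ℝ × ℝ) (F := ℂ × ℂ)) hP1
  have hΘt : Tendsto (fun q : (ℝ × ℝ) × (ℂ × ℂ) => Θ (0, q)) (𝓝 (μ x₀, 0)) (𝓝 x₀) := by
    have := hΘ.continuousAt.tendsto
    rwa [hΘ0] at this
  have hYt : Tendsto (fun q : (ℝ × ℝ) × (ℂ × ℂ) => Φ (Θ (0, q))) (𝓝 (μ x₀, 0)) (𝓝 x₀) := by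
    have := hY.continuousAt.tendsto
    rwa [hY0] at this
  have hZt : Tendsto (fun q : (ℝ × ℝ) × (ℂ × ℂ) => Ξ (Φ (Θ (0, q)))) (𝓝 (μ x₀, 0))
      (𝓝 (0, μ x₀, 0)) := by
    have := hZ.continuousAt.tendsto
    rwa [hZ0] at this
  have hint : Tendsto (fun q : (ℝ × ℝ) × (ℂ × ℂ) => ((0 : ℝ × ℝ), q)) (𝓝 (μ x₀, 0))
      (𝓝 (0, μ x₀, 0)) := hin.continuousAt.tendsto
  -- the equation on the slice
  have hslice : ∀ᶠ q : (ℝ × ℝ) × (ℂ × ℂ) in 𝓝 (μ x₀, 0),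
      Φ (Θ (0, q)) = Θ ((Ξ (Φ (Θ (0, q)))).1, q.1, (Ξ (Φ (Θ (0, q)))).2.2) := by
    filter_upwards [hYt.eventually hC.right, hZt.eventually hC.mom, hΘt.eventually hmu,
      hint.eventually hC.mom] with q h1 h2 h3 h4
    have h5 : (Ξ (Φ (Θ (0, q)))).2.1 = q.1 := by
      rw [← h2, h1, h3, h4]
    calc Φ (Θ (0, q)) = Θ (Ξ (Φ (Θ (0, q)))) := h1.symm
      _ = Θ ((Ξ (Φ (Θ (0, q)))).1, (Ξ (Φ (Θ (0, q)))).2.1, (Ξ (Φ (Θ (0, q)))).2.2) := rfl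
      _ = _ := by rw [h5]
  refine ⟨fun q => (Ξ (Φ (Θ (0, q)))).1, fun q => (Ξ (Φ (Θ (0, q)))).2.2, hb, hP, ?_, ?_, ?_⟩
  · show (Ξ (Φ (Θ (0, (μ x₀, 0))))).1 = 0
    rw [hZ0]
  · show (Ξ (Φ (Θ (0, (μ x₀, 0))))).2.2 = 0
    rw [hZ0]
  · have hq : Tendsto (fun p : (ℝ × ℝ) × (ℝ × ℝ) × (ℂ × ℂ) => p.2) (𝓝 (0, μ x₀, 0))
        (𝓝 (μ x₀, 0)) := continuous_snd.continuousAt.tendsto
    have hg : Tendsto (fun p : (ℝ × ℝ) × (ℝ × ℝ) × (ℂ × ℂ) => p.1) (𝓝 (0, μ x₀, 0))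
        (𝓝 0) := continuous_fst.continuousAt.tendsto
    have ht1 : Tendsto (fun p : (ℝ × ℝ) × (ℝ × ℝ) × (ℂ × ℂ) => (p.1, (0 : ℝ × ℝ), p.2))
        (𝓝 (0, μ x₀, 0)) (𝓝 (0, 0, μ x₀, 0)) :=
      hg.prodMk_nhds (tendsto_const_nhds.prodMk_nhds hq)
    have ht2 : Tendsto (fun p : (ℝ × ℝ) × (ℝ × ℝ) × (ℂ × ℂ) => (p.1, Θ (0, p.2)))
        (𝓝 (0, μ x₀, 0)) (𝓝 (0, x₀)) := hg.prodMk_nhds (hΘt.comp hq)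
    have hbt : Tendsto (fun q : (ℝ × ℝ) × (ℂ × ℂ) => (Ξ (Φ (Θ (0, q)))).1) (𝓝 (μ x₀, 0))
        (𝓝 0) := by
      have := hb.continuousAt.tendsto
      simp only [hZ0] at this
      exact this
    have hPt : Tendsto (fun q : (ℝ × ℝ) × (ℂ × ℂ) => (Ξ (Φ (Θ (0, q)))).2.2) (𝓝 (μ x₀, 0))
        (𝓝 0) := by
      have := hP.continuousAt.tendsto
      simp only [hZ0] at this
      exact this
    have hk : Tendsto (fun q : (ℝ × ℝ) × (ℂ × ℂ) => q.1) (𝓝 (μ x₀, 0)) (𝓝 (μ x₀)) :=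
      continuous_fst.continuousAt.tendsto
    have ht3 : Tendsto (fun p : (ℝ × ℝ) × (ℝ × ℝ) × (ℂ × ℂ) =>
        (p.1, (Ξ (Φ (Θ (0, p.2)))).1, p.2.1, (Ξ (Φ (Θ (0, p.2)))).2.2))
        (𝓝 (0, μ x₀, 0)) (𝓝 (0, 0, μ x₀, 0)) :=
      hg.prodMk_nhds ((hbt.comp hq).prodMk_nhds ((hk.comp hq).prodMk_nhds (hPt.comp hq)))
    filter_upwards [hq.eventually hslice, ht1.eventually hC.shift, ht2.eventually hcomm,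
      ht3.eventually hC.shift] with p h1 h2 h3 h4
    simp only [add_zero] at h2
    calc Φ (Θ p) = Φ (Θ (p.1, p.2)) := rfl
      _ = Φ (G (p.1, Θ (0, p.2))) := by rw [h2]
      _ = G (p.1, Φ (Θ (0, p.2))) := h3
      _ = G (p.1, Θ ((Ξ (Φ (Θ (0, p.2)))).1, p.2.1, (Ξ (Φ (Θ (0, p.2)))).2.2)) :=
        congrArg (fun y => G (p.1, y)) h1
      _ = Θ (p.1 + (Ξ (Φ (Θ (0, p.2)))).1, p.2.1, (Ξ (Φ (Θ (0, p.2)))).2.2) := h4.symm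

/-- Proof.  Chains in coordinates are chains: `y j = Θ (0, k, z j)`, `g j = b (k, z j)`;
`Φ (y j) = Θ (b (k, z j), k, P (k, z j)) = G (g j, Θ (0, k, z (j + 1)))` (`hR.eq` at `g = 0`,
`hC.shift` with the second argument `0`); closeness by continuity of `Θ` and `b` at the base
point (`Θ (0, μ x₀, 0) = x₀`, `b (μ x₀, 0) = 0`). -/
theorem bdc_of_bd {b : (ℝ × ℝ) × (ℂ × ℂ) → ℝ × ℝ} {P : (ℝ × ℝ) × (ℂ × ℂ) → ℂ × ℂ}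
    (hC : DChart om x₀ G μ Θ Ξ) (hR : RetMap (μ x₀) Θ Φ b P) (hbd : BD x₀ G Φ) :
    BDC (μ x₀) b P := by
  obtain ⟨r, hr, δ, hδ⟩ := hbd
  have hbt : Tendsto b (𝓝 (μ x₀, 0)) (𝓝 0) := by
    have := hR.anb.continuousAt.tendsto
    rwa [hR.b0] at this
  have hPt : Tendsto P (𝓝 (μ x₀, 0)) (𝓝 0) := by
    have := hR.anP.continuousAt.tendsto
    rwa [hR.P0] at this
  have hk : Tendsto (fun q : (ℝ × ℝ) × (ℂ × ℂ) => q.1) (𝓝 (μ x₀, 0)) (𝓝 (μ x₀)) :=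
    continuous_fst.continuousAt.tendsto
  have hid : Tendsto (fun q : (ℝ × ℝ) × (ℂ × ℂ) => q) (𝓝 (μ x₀, 0)) (𝓝 (μ x₀, 0)) := tendsto_id
  have hin : Tendsto (fun q : (ℝ × ℝ) × (ℂ × ℂ) => ((0 : ℝ × ℝ), q)) (𝓝 (μ x₀, 0))
      (𝓝 (0, μ x₀, 0)) := tendsto_const_nhds.prodMk_nhds hid
  have hΘt : Tendsto (fun q : (ℝ × ℝ) × (ℂ × ℂ) => Θ (0, q)) (𝓝 (μ x₀, 0)) (𝓝 x₀) := by
    have := hC.an.continuousAt.tendsto.comp hin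
    rwa [hC.base] at this
  have ht : Tendsto (fun q : (ℝ × ℝ) × (ℂ × ℂ) => (b q, (0 : ℝ × ℝ), q.1, P q)) (𝓝 (μ x₀, 0))
      (𝓝 (0, 0, μ x₀, 0)) :=
    hbt.prodMk_nhds (tendsto_const_nhds.prodMk_nhds (hk.prodMk_nhds hPt))
  have hgood : ∀ᶠ q : (ℝ × ℝ) × (ℂ × ℂ) in 𝓝 (μ x₀, 0), ‖Θ (0, q) - x₀‖ < r ∧ ‖b q‖ < r ∧
      Φ (Θ (0, q)) = G (b q, Θ (0, q.1, P q)) := by
    have e1 : ∀ᶠ q : (ℝ × ℝ) × (ℂ × ℂ) in 𝓝 (μ x₀, 0), Θ (0, q) ∈ Metric.ball x₀ r :=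
      hΘt.eventually (Metric.ball_mem_nhds x₀ hr)
    have e2 : ∀ᶠ q : (ℝ × ℝ) × (ℂ × ℂ) in 𝓝 (μ x₀, 0), b q ∈ Metric.ball 0 r :=
      hbt.eventually (Metric.ball_mem_nhds 0 hr)
    filter_upwards [e1, e2, hin.eventually hR.eq, ht.eventually hC.shift] with q h1 h2 h3 h4
    refine ⟨by simpa [dist_eq_norm] using h1, by simpa using h2, ?_⟩
    simp only [zero_add] at h3
    simp only [add_zero] at h4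
    rw [h3, h4]
  obtain ⟨ρ, hρ, hball⟩ := Metric.eventually_nhds_iff.1 hgood
  refine ⟨ρ, hρ, δ, fun k n z hkn hz hrec => ?_⟩
  have hG : ∀ j ≤ n, ‖Θ (0, (k, z j)) - x₀‖ < r ∧ ‖b (k, z j)‖ < r ∧
      Φ (Θ (0, (k, z j))) = G (b (k, z j), Θ (0, k, P (k, z j))) := by
    intro j hj
    apply hball
    rw [Prod.dist_eq, max_lt_iff]
    exact ⟨by simpa [dist_eq_norm] using hkn, by simpa [dist_eq_norm] using hz j hj⟩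
  refine hδ n (fun j => Θ (0, (k, z j))) (fun j => b (k, z j)) (fun j hj => (hG j hj).1)
    (fun j hj => ⟨(hG j hj.le).2.1, ?_⟩)
  show Φ (Θ (0, (k, z j))) = G (b (k, z j), Θ (0, (k, z (j + 1))))
  rw [hrec j hj]
  exact (hG j hj.le).2.2

end Pool.Agent.MP_5027f4_cont
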