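import Pool.Agent.Lib_MP_5027f4_cont.KSheet
import Pool.Agent.Lib_MP_5027f4_cont.KEsc
import Pool.Agent.Lib_MP_5027f4_cont.HBd
import Pool.Agent.Lib_MP_5027f4_cont.CharRet
import Pool.Agent.Lib_MP_5027f4_cont.RetA

/-!
PIECE [KHyp] (MP_5027f4_mp, T1).  Multipliers of a Lyapunov stable orbit.
-/

open Set Filter Topology Metric Polynomial
open scoped ComplexConjugate ContDiff
open Pool.Agent.MP_5027f4_mp

namespace Pool.Agent.MP_5027f4_cont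

variable {m : Fin 3 → ℝ} {x : ℝ → Ph}

/-- concatenation of the solutions along a chain -/
theorem khyp_chain {p : ℕ → Ph} {v : ℕ → ℂ} {n : ℕ} (hv : ∀ j < n, ‖v j‖ = 1)
    (hstep : ∀ j < n, ∃ τ > 0, ∃ z, Solves (fld m) (frame m) (Icc 0 τ) z ∧ z 0 = p j ∧
      z τ = v j • p (j + 1)) (k : ℕ) (hk : k < n) :
    ∃ τ > 0, ∃ z w, ‖w‖ = 1 ∧ Solves (fld m) (frame m) (Icc 0 τ) z ∧ z 0 = p 0 ∧
      z τ = (w : ℂ) • p (k + 1) := by
  induction k with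
  | zero =>
    obtain ⟨τ, hτ, z, hz, hz0, hzτ⟩ := hstep 0 hk
    exact ⟨τ, hτ, z, v 0, hv 0 hk, hz, hz0, hzτ⟩
  | succ k ih =>
    obtain ⟨τ, hτ, z, w, hw, hz, hz0, hzτ⟩ := ih (by omega)
    obtain ⟨τ', hτ', z', hz', hz0', hzτ'⟩ := hstep (k + 1) hk
    have hcc := hz.concat hτ hτ' (hz'.rotate' hw) (by
      show w • z' 0 = z τ
      rw [hz0', hzτ])
    refine ⟨τ + τ', by positivity, _, w * v (k + 1), ?_, hcc, ?_, ?_⟩
    · rw [norm_mul, hw, hv _ hk, one_mul]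
    · rw [if_pos hτ.le, hz0]
    · rw [if_neg (by linarith), add_sub_cancel_left, hzτ', smul_smul]

/-- the derivative in the second factor -/
theorem khyp_dz {F : Type*} [NormedAddCommGroup F] [NormedSpace ℝ F]
    {P : F × (ℂ × ℂ) → ℂ × ℂ} {k : F} (h : DifferentiableAt ℝ P (k, 0)) :
    fderiv ℝ (fun z : ℂ × ℂ => P (k, z)) 0 = dz P (k, 0) := by
  have h1 : HasFDerivAt (fun z : ℂ × ℂ => ((k, z) : F × (ℂ × ℂ)))
      (ContinuousLinearMap.inr ℝ F (ℂ × ℂ)) 0 := hasFDerivAt_prodMk_right k 0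
  exact (HasFDerivAt.comp (0 : ℂ × ℂ) h.hasFDerivAt h1).fderiv

section

variable {E : Type*} [NormedAddCommGroup E] [NormedSpace ℝ E] [FiniteDimensional ℝ E]
  {om : E →L[ℝ] E →L[ℝ] ℝ} {x₀ : E} {G : (ℝ × ℝ) × E → E} {μ : E → ℝ × ℝ}
  {Θ : (ℝ × ℝ) × (ℝ × ℝ) × (ℂ × ℂ) → E} {Ξ : E → (ℝ × ℝ) × (ℝ × ℝ) × (ℂ × ℂ)} {Φ : E → E}

/-- the transversal curve -/
theorem khyp_curve (hC : DChart om x₀ G μ Θ Ξ) :
    Tendsto (fun z : ℂ × ℂ => Θ (0, μ x₀, z)) (𝓝 0) (𝓝 x₀) ∧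
      ∀ᶠ z : ℂ × ℂ in 𝓝 0, ContinuousAt (fun z : ℂ × ℂ => Θ (0, μ x₀, z)) z := by
  have hc : Continuous (fun z : ℂ × ℂ => ((0, μ x₀, z) : (ℝ × ℝ) × (ℝ × ℝ) × (ℂ × ℂ))) := by
    fun_prop
  have hin0 : Tendsto (fun z : ℂ × ℂ => ((0, μ x₀, z) : (ℝ × ℝ) × (ℝ × ℝ) × (ℂ × ℂ))) (𝓝 0)
      (𝓝 (0, μ x₀, 0)) := hc.tendsto 0
  constructor
  · have h1 := hC.an.continuousAt.tendsto.comp hin0
    rwa [hC.base] at h1
  · filter_upwards [hin0.eventually hC.an.eventually_analyticAt] with z hz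
    exact ContinuousAt.comp (g := Θ) hz.continuousAt hc.continuousAt

/-- the return map on the transversal disc -/
theorem khyp_good {b : (ℝ × ℝ) × (ℂ × ℂ) → ℝ × ℝ} {P : (ℝ × ℝ) × (ℂ × ℂ) → ℂ × ℂ}
    (hC : DChart om x₀ G μ Θ Ξ) (hR : RetMap (μ x₀) Θ Φ b P) {r : ℝ} (hr : 0 < r) :
    ∀ᶠ z : ℂ × ℂ in 𝓝 0, ‖Θ (0, μ x₀, z) - x₀‖ < r ∧ ‖b (μ x₀, z)‖ < r ∧
      Φ (Θ (0, μ x₀, z)) = G (b (μ x₀, z), Θ (0, μ x₀, P (μ x₀, z))) := by
  have hbt : Tendsto b (𝓝 (μ x₀, 0)) (𝓝 0) := by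
    have := hR.anb.continuousAt.tendsto
    rwa [hR.b0] at this
  have hPt : Tendsto P (𝓝 (μ x₀, 0)) (𝓝 0) := by
    have := hR.anP.continuousAt.tendsto
    rwa [hR.P0] at this
  have hin : Tendsto (fun z : ℂ × ℂ => ((μ x₀, z) : (ℝ × ℝ) × (ℂ × ℂ))) (𝓝 0)
      (𝓝 (μ x₀, 0)) := (Continuous.prodMk_right (μ x₀)).tendsto 0
  have hin0 : Tendsto (fun z : ℂ × ℂ => ((0, μ x₀, z) : (ℝ × ℝ) × (ℝ × ℝ) × (ℂ × ℂ))) (𝓝 0)
      (𝓝 (0, μ x₀, 0)) := tendsto_const_nhds.prodMk_nhds hin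
  have ht : Tendsto (fun z : ℂ × ℂ => (b (μ x₀, z), (0 : ℝ × ℝ), μ x₀, P (μ x₀, z))) (𝓝 0)
      (𝓝 (0, 0, μ x₀, 0)) :=
    (hbt.comp hin).prodMk_nhds (tendsto_const_nhds.prodMk_nhds
      (tendsto_const_nhds.prodMk_nhds (hPt.comp hin)))
  have e1 : ∀ᶠ z : ℂ × ℂ in 𝓝 0, Θ (0, μ x₀, z) ∈ Metric.ball x₀ r :=
    (khyp_curve hC).1.eventually (Metric.ball_mem_nhds x₀ hr)
  have e2 : ∀ᶠ z : ℂ × ℂ in 𝓝 0, b (μ x₀, z) ∈ Metric.ball 0 r :=
    (hbt.comp hin).eventually (Metric.ball_mem_nhds 0 hr)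
  filter_upwards [e1, e2, hin0.eventually hR.eq, ht.eventually hC.shift] with z h1 h2 h3 h4
  refine ⟨by rwa [mem_ball, dist_eq_norm] at h1, by rwa [mem_ball_zero_iff] at h2, ?_⟩
  rw [h3]
  simp only [zero_add]
  simpa only [add_zero] using h4

end

/-- Proof.  `locAct` (the orbit is not a relative equilibrium: `hnc`, `const_of_releq`),
`exists_chart` gives `Θ, Ξ`, `exists_ret` gives `b, P`; by `cp_ret` at the base point
`cp (D ret) = (X - 1)^4 * cp (dz P (k₀, 0))`, `k₀ = muE m (pE m X₀)`.  Suppose `‖l‖ > 1`; then `l` is a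
root of `cp (dz P (k₀, 0))`, the derivative of `P₀ z = P (k₀, z)` at `0`.  Let `R > 0` be small
(`sheet`, `chain_step`, validity of the formulas of the chart and of `RetMap` for `‖z‖ ≤ R`).
`escape_of_root` gives `r > 0` and for every `δ > 0` a chain `z j` of `P₀` in the ball of radius `R`
with `‖z 0‖ < δ`, `‖z n‖ ≥ r`.  With `y j = Θ (0, k₀, z j)`, `g j = b (k₀, z j)`:
`ret (y j) = Gact φ (g j, y (j + 1))` (`hR.eq` at `g = 0`, `hC.shift`), so by `chain_step`, rotated and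
concatenated, there are `τ ≥ 0` and a classical solution from `y 0` to `w • y n`, `‖w‖ = 1`.
Let `𝒦 = {w • Θ (0, k₀, z) | ‖w‖ = 1, r ≤ ‖z‖ ≤ R}`, compact, disjoint from `range x` by `sheet`.  The
stability of `range x` applied to the complement of `𝒦` gives `U`; for `δ` small `y 0 ∈ U`, so
`w • y n ∉ 𝒦`, a contradiction. -/
theorem multiplier_le_one (hm : ∀ a, 0 < m a) (hx : Solves (fld m) (frame m) univ x) {P : ℝ}
    (hP : 0 < P) (hper : ∀ t, x (t + P) = x t) (hst : LyapunovStable m (range x))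
    (hnc : ¬ ∀ a b t, ‖(x t).1 a - (x t).1 b‖ = ‖(x 0).1 a - (x 0).1 b‖)
    {T S : ℝ} {u : ℂ} (hT : 0 < T) (hu : ‖u‖ = 1) {X₀ X₁ : Up}
    {Φ φ : ℝ × comSub m → comSub m} (hX : ((pE m X₀ : comSub m) : Ph) = x 0)
    (hΦ : LM m T S X₀ X₁ Φ) (hφ : LM m 0 0 X₀ X₀ φ) (hend : pE m X₁ = u • pE m X₀) {l : ℂ}
    (hl : ((cp (fderiv ℝ (ret Φ T u) (pE m X₀))).map (algebraMap ℝ ℂ)).eval l = 0) :
    ‖l‖ ≤ 1 := by
  by_contra hl1
  push Not at hl1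
  have hnr : ¬ ∃ μ : ℝ, fld₀ m (pE m X₀) = ((μ : ℂ) * Complex.I) • pE m X₀ := by
    rintro ⟨μ, hμ⟩
    apply hnc
    intro a b t
    refine const_of_releq hx (μ := μ) ?_ a b t
    rw [← hX]
    exact congrArg (fun y : comSub m => (y : Ph)) hμ
  obtain ⟨Θ, Ξ, hC⟩ := exists_chart (finrank_comSub hm) omE_self (omE_nondeg hm)
    (locAct hm hφ hnr)
  obtain ⟨hRan, hR0⟩ := ret_fix hm hΦ hu hend
  obtain ⟨b, Q, hR⟩ := exists_ret hC hRan hR0 (ret_comm hm hΦ hφ hu hend) (ret_mu hm hΦ hu)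
  -- the root of the reduced characteristic polynomial
  have hQd : DifferentiableAt ℝ Q (muE m (pE m X₀), 0) := hR.anP.differentiableAt
  have hroot : ((cp (fderiv ℝ (fun z : ℂ × ℂ => Q (muE m (pE m X₀), z)) 0)).map
      (algebraMap ℝ ℂ)).eval l = 0 := by
    rw [khyp_dz hQd]
    have hcp := (cp_ret hC hR hRan hR0).self_of_nhds hR.b0 hR.P0
    rw [hC.base] at hcp
    rw [hcp, Polynomial.map_mul, Polynomial.map_pow, Polynomial.map_sub, Polynomial.map_X,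
      Polynomial.map_one, Polynomial.eval_mul, Polynomial.eval_pow, Polynomial.eval_sub,
      Polynomial.eval_X, Polynomial.eval_one] at hl
    rcases mul_eq_zero.1 hl with h | h
    · exfalso
      have h1 : l = 1 := sub_eq_zero.1 (pow_eq_zero_iff (by norm_num) |>.1 h)
      rw [h1, norm_one] at hl1
      exact lt_irrefl _ hl1
    · exact h
  have hQan : AnalyticAt ℝ (fun z : ℂ × ℂ => Q (muE m (pE m X₀), z)) 0 := by
    have h1 : AnalyticAt ℝ (fun z : ℂ × ℂ => ((muE m (pE m X₀), z) : (ℝ × ℝ) × (ℂ × ℂ))) 0 :=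
      analyticAt_const.prod analyticAt_id
    exact AnalyticAt.fun_comp (g := Q) hR.anP h1
  -- the radius
  obtain ⟨R₁, hR₁, hsheet⟩ := sheet hm hx hP hper hφ hX hC
  obtain ⟨r₂, hr₂, hstep⟩ := chain_step hm hT hu hΦ hφ hend (y := x)
    (fun t ht => ⟨(hx t (mem_univ t)).1, (hx t (mem_univ t)).2.mono (subset_univ _)⟩) hX
  obtain ⟨R₂, hR₂, hball⟩ := Metric.eventually_nhds_iff.1
    ((khyp_good hC hR hr₂).and (khyp_curve hC).2)
  obtain ⟨R, hRdef⟩ : ∃ R, R = min R₁ (R₂ / 2) := ⟨_, rfl⟩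
  have hRpos : 0 < R := by
    rw [hRdef]
    exact lt_min hR₁ (by linarith)
  have hRR₁ : R ≤ R₁ := by
    rw [hRdef]
    exact min_le_left _ _
  have hRR₂ : R < R₂ := by
    have h1 : R ≤ R₂ / 2 := by
      rw [hRdef]
      exact min_le_right _ _
    linarith
  have hgood : ∀ z : ℂ × ℂ, ‖z‖ ≤ R → _ := fun z hz =>
    hball (y := z) (by rw [dist_zero_right]; exact hz.trans_lt hRR₂)
  obtain ⟨r, hr, hesc⟩ := escape_of_root hQan hR.P0 hroot hl1 hRpos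
  -- the compact set
  obtain ⟨c, hc⟩ : ∃ c : ℂ × ℂ → Ph, c = fun z =>
      ((Θ (0, muE m (pE m X₀), z) : comSub m) : Ph) := ⟨_, rfl⟩
  obtain ⟨D, hD⟩ : ∃ D : Set (ℂ × (ℂ × ℂ)), D = sphere 0 1 ×ˢ
      (closedBall 0 R ∩ {z | r ≤ ‖z‖}) := ⟨_, rfl⟩
  have hDc : IsCompact D := by
    rw [hD]
    refine (isCompact_sphere 0 1).prod ((isCompact_closedBall 0 R).inter_right ?_)
    exact isClosed_le continuous_const continuous_norm
  have hcont : ContinuousOn (fun q : ℂ × (ℂ × ℂ) => q.1 • c q.2) D := by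
    intro q hq
    rw [hD] at hq
    have h1 : ‖q.2‖ ≤ R := by
      have := hq.2.1
      rwa [mem_closedBall_zero_iff] at this
    have h2 : ContinuousAt c q.2 := by
      rw [hc]
      exact continuous_subtype_val.continuousAt.comp (hgood _ h1).2
    have h3 : ContinuousAt (fun q : ℂ × (ℂ × ℂ) => c q.2) q :=
      ContinuousAt.comp (g := c) h2 continuous_snd.continuousAt
    exact (continuous_fst.continuousAt.smul h3).continuousWithinAt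
  obtain ⟨K, hK⟩ : ∃ K, K = (fun q : ℂ × (ℂ × ℂ) => q.1 • c q.2) '' D := ⟨_, rfl⟩
  have hKc : IsCompact K := by
    rw [hK]
    exact hDc.image_of_continuousOn hcont
  have hKx : range x ⊆ Kᶜ := by
    rintro _ ⟨t, rfl⟩ ht
    rw [hK] at ht
    obtain ⟨⟨w, z⟩, hq, hwz⟩ := ht
    rw [hD] at hq
    obtain ⟨hw, hz1, hz2⟩ := hq
    have hw1 : ‖w‖ = 1 := by
      have : w ∈ sphere (0 : ℂ) 1 := hw
      rwa [mem_sphere_zero_iff_norm] at this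
    have hw0 : w ≠ 0 := by
      rw [← norm_ne_zero_iff, hw1]
      exact one_ne_zero
    have hz1' : ‖z‖ ≤ R := by
      have : z ∈ closedBall (0 : ℂ × ℂ) R := hz1
      rwa [mem_closedBall_zero_iff] at this
    have hz2' : r ≤ ‖z‖ := hz2
    have hwz' : w • c z = x t := hwz
    have h1 : w⁻¹ • x t = ((Θ (0, muE m (pE m X₀), z) : comSub m) : Ph) := by
      rw [← hwz', smul_smul, inv_mul_cancel₀ hw0, one_smul, hc]
    have h2 := hsheet z (hz1'.trans hRR₁) w⁻¹ t (by rw [norm_inv, hw1, inv_one]) h1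
    rw [h2, norm_zero] at hz2'
    linarith
  obtain ⟨U, hU, hxU, hstay⟩ := hst Kᶜ hKc.isClosed.isOpen_compl hKx
  -- the chain
  have hc0 : Tendsto c (𝓝 0) (𝓝 (x 0)) := by
    rw [hc, ← hX]
    exact (continuous_subtype_val.tendsto (pE m X₀)).comp (khyp_curve hC).1
  obtain ⟨δ, hδ, hδU⟩ := Metric.eventually_nhds_iff.1
    (hc0.eventually (hU.mem_nhds (hxU ⟨0, rfl⟩)))
  obtain ⟨n, z, hz0, hzs, hzR, hzr⟩ := hesc (min δ r) (lt_min hδ hr)
  have hn : 0 < n := by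
    rcases Nat.eq_zero_or_pos n with h | h
    · rw [h] at hzr
      exact absurd (hz0.trans_le (min_le_right _ _)) (not_lt.2 hzr)
    · exact h
  have hsteps : ∀ j < n, ∃ τ > 0, ∃ Z, Solves (fld m) (frame m) (Icc 0 τ) Z ∧ Z 0 = c (z j) ∧
      Z τ = (u * Complex.exp ((b (muE m (pE m X₀), z j)).2 * Complex.I)) • c (z (j + 1)) := by
    intro j hj
    obtain ⟨⟨h1, h2, h3⟩, -⟩ := hgood (z j) (hzR j hj.le)
    obtain ⟨⟨h4, -, -⟩, -⟩ := hgood (z (j + 1)) (hzR (j + 1) hj)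
    have h5 := hzs j hj
    rw [← h5] at h3
    obtain ⟨τ, hτ, Z, hZ, hZ0, hZτ⟩ := hstep _ _ _ h1 h4 h2 h3
    refine ⟨τ, hτ, Z, hZ, ?_, ?_⟩
    · rw [hZ0, hc]
    · rw [hZτ, hc]
  obtain ⟨τ, hτ, Z, w, hw, hZ, hZ0, hZτ⟩ := khyp_chain (p := fun j => c (z j))
    (v := fun j => u * Complex.exp ((b (muE m (pE m X₀), z j)).2 * Complex.I))
    (fun j _ => by rw [norm_mul, hu, one_mul, Complex.norm_exp_ofReal_mul_I]) hsteps (n - 1)
    (by omega)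
  have hfin := hstay τ hτ Z hZ (by
    rw [hZ0]
    exact hδU (by rw [dist_zero_right]; exact hz0.trans_le (min_le_left _ _))) τ ⟨hτ.le, le_rfl⟩
  apply hfin
  rw [hZτ, hK, Nat.sub_add_cancel hn]
  refine ⟨(w, z n), ?_, rfl⟩
  rw [hD]
  refine ⟨?_, ?_, hzr⟩
  · show w ∈ sphere (0 : ℂ) 1
    rw [mem_sphere_zero_iff_norm]
    exact hw
  · show z n ∈ closedBall (0 : ℂ × ℂ) R
    rw [mem_closedBall_zero_iff]
    exact hzR n le_rfl

end Pool.Agent.MP_5027f4_cont
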