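import Pool.Agent.Lib_MP_5027f4_cont.FMain
import Pool.Agent.Lib_MP_5027f4_cont.KHyp
import Pool.Agent.Lib_MP_5027f4_cont.KFac

/-!
# Multipliers of Lyapunov stable relative periodic orbits (final assembly)
-/

open Set Filter Topology Metric Polynomial
open scoped ComplexConjugate ContDiff
open Pool.Agent.MP_5027f4_mp

namespace Pool.Agent.MP_5027f4_cont

variable {m : Fin 3 → ℝ}

/-- The monodromy `M` has the eigenvalue `1` (four times) and `l₁, 1/l₁, l₂, 1/l₂`. -/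
def Mult (M : comSub m →ₗ[ℝ] comSub m) (l₁ l₂ : ℂ) : Prop :=
  M.charpoly.map (algebraMap ℝ ℂ) =
    (X - 1) ^ 4 * ((X - C l₁) * (X - C l₁⁻¹) * ((X - C l₂) * (X - C l₂⁻¹)))

/-- the characteristic polynomial of the linearized return map -/
theorem ret_form (hm : ∀ a, 0 < m a) {S T : ℝ} {u : ℂ} (hu : ‖u‖ = 1) {X₀ X₁ : Up}
    {Φ φ : ℝ × comSub m → comSub m} (hΦ : LM m T S X₀ X₁ Φ) (hφ : LM m 0 0 X₀ X₀ φ)
    (hend : pE m X₁ = u • pE m X₀)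
    (hnr : ¬ ∃ μ : ℝ, fld₀ m (pE m X₀) = ((μ : ℂ) * Complex.I) • pE m X₀) :
    ∃ t₁ t₂ : ℝ, cp (fderiv ℝ (ret Φ T u) (pE m X₀)) =
      (X - 1) ^ 4 * (X ^ 4 - C t₁ * X ^ 3 + C t₂ * X ^ 2 - C t₁ * X + 1) := by
  obtain ⟨han, hfix⟩ := ret_fix hm hΦ hu hend
  obtain ⟨Θ, Ξ, hC⟩ := exists_chart (finrank_comSub hm) (omE_self (m := m)) (omE_nondeg hm)
    (locAct hm hφ hnr)
  obtain ⟨b, P, hR⟩ := exists_ret hC han hfix (ret_comm hm hΦ hφ hu hend) (ret_mu hm hΦ hu)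
  have hsymp := (ret_symp hC hR han (ret_symp_E hm hΦ hu)).self_of_nhds
  have hs : ∀ ξ η, os (dz P (muE m (pE m X₀), 0) ξ) (dz P (muE m (pE m X₀), 0) η) = os ξ η := by
    intro ξ η
    have h := hsymp (0, ξ) (0, η)
    simp only [dot, Prod.fst_zero, Prod.snd_zero, mul_zero, add_zero, sub_zero, zero_add] at h
    exact h
  obtain ⟨t₁, t₂, ht⟩ := cp_palindromic _ hs
  refine ⟨t₁, t₂, ?_⟩
  have h1 := (cp_ret hC hR han hfix).self_of_nhds hR.b0 hR.P0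
  rw [hC.base] at h1
  rw [h1, ht]

/-- the base data of a classical relative periodic orbit -/
theorem exists_data (hm : ∀ a, 0 < m a) {y : ℝ → Ph} {T : ℝ} {u : ℂ} (hT : 0 < T)
    (hy : Solves (fld m) (frame m) (Icc 0 T) y) (hyT : y T = u • y 0) :
    ∃ S X₀ X₁ Φ φ, 0 < S ∧ ((pE m X₀ : comSub m) : Ph) = y 0 ∧ LM m T S X₀ X₁ Φ ∧
      LM m 0 0 X₀ X₀ φ ∧ pE m X₁ = u • pE m X₀ := by
  have hm0 : ∀ a, m a ≠ 0 := fun a => (hm a).ne'
  have hMM : MM m ≠ 0 := (MM_pos hm).ne'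
  have hfr := (hy 0 ⟨le_rfl, hT.le⟩).1
  obtain ⟨X₀, hn0, hX0⟩ := exists_lift hMM hm0 (y := ⟨y 0, hfr.2⟩) hfr.1
  have hX : ((pE m X₀ : comSub m) : Ph) = y 0 := by rw [hX0]
  obtain ⟨S, hS, c, hc, hc0, hcn, hcy, hcT⟩ := exists_lift_run hm hT hy hn0 hX
  have hen : (muE m (pE m X₀)).1 = energy m (y 0) := by
    simp only [muE, hX]
  have hrun : Run m (muE m (pE m X₀)).1 S X₀ T (c S) := by
    rw [hen]
    exact ⟨c, hc, hc0, rfl, hcT⟩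
  have hn1 : Nonc (c S) := hcn S ⟨hS.le, le_rfl⟩
  have hend : pE m (c S) = u • pE m X₀ := by
    apply Subtype.ext
    rw [hcy S ⟨hS.le, le_rfl⟩, hcT, hyT]
    change u • y 0 = u • ((pE m X₀ : comSub m) : Ph)
    rw [hX]
  obtain ⟨Φ, hLM⟩ := exists_LM hm hrun hn0 hn1
  obtain ⟨φ, hφ⟩ := exists_LM hm (Run.zero m (muE m (pE m X₀)).1 X₀) hn0 hn0
  exact ⟨S, X₀, c S, Φ, φ, hS, hX, hLM, hφ, hend⟩

/-- existence of the monodromy -/
theorem exists_isMon (hm : ∀ a, 0 < m a) {y : ℝ → Ph} {T : ℝ} {u : ℂ} (hT : 0 < T)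
    (hu : ‖u‖ = 1) (hy : Solves (fld m) (frame m) (Icc 0 T) y) (hyT : y T = u • y 0) :
    ∃ M, IsMon m y T u M := by
  obtain ⟨S, X₀, X₁, Φ, φ, hS, hX, hLM, hφ, hend⟩ := exists_data hm hT hy hyT
  have hu0 : u ≠ 0 := by
    rintro rfl
    simp at hu
  refine ⟨(fderiv ℝ (ret Φ T u) (pE m X₀) : comSub m →L[ℝ] comSub m), fun J hJ0 hJ => ?_⟩
  have h1 := LM.jacobi hm hT hy hLM hX hJ hJ0
  have h2 : fderiv ℝ (ret Φ T u) (pE m X₀) ⟨J 0, hJ0⟩ =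
      u⁻¹ • fderiv ℝ Φ (T, pE m X₀) (0, ⟨J 0, hJ0⟩) := by
    have hd : HasFDerivAt (fun z : comSub m => Φ (T, z))
        ((fderiv ℝ Φ (T, pE m X₀)).comp (ContinuousLinearMap.inr ℝ ℝ (comSub m))) (pE m X₀) := by
      have h3 : HasFDerivAt (fun z : comSub m => (T, z))
          (ContinuousLinearMap.inr ℝ ℝ (comSub m)) (pE m X₀) :=
        (hasFDerivAt_const T (pE m X₀)).prodMk (hasFDerivAt_id (pE m X₀))
      exact (hLM.an.differentiableAt.hasFDerivAt (x := (T, pE m X₀))).comp (pE m X₀) h3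
    have h4 : HasFDerivAt (fun z : comSub m => u⁻¹ • Φ (T, z)) _ (pE m X₀) := hd.const_smul u⁻¹
    have h5 : fderiv ℝ (ret Φ T u) (pE m X₀) = _ := h4.fderiv
    rw [h5]
    rfl
  change J T = u • (((fderiv ℝ (ret Φ T u) (pE m X₀)) ⟨J 0, hJ0⟩ : comSub m) : Ph)
  rw [h2, ← h1]
  change _ = u • (u⁻¹ • _)
  rw [smul_smul, mul_inv_cancel₀ hu0, one_smul]

/-- `(X - 1)^4` can be cancelled in the complex polynomials -/
theorem cancel_powC {p q : ℂ[X]} (h : (X - 1) ^ 4 * p = (X - 1) ^ 4 * q) : p = q := by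
  have h1 : (X - 1 : ℂ[X]) ≠ 0 := by
    have := Polynomial.X_sub_C_ne_zero (1 : ℂ)
    simpa using this
  exact mul_left_cancel₀ (pow_ne_zero 4 h1) h

/-- **Theorem T1.** -/
theorem main (hm : ∀ a, 0 < m a)
    (hσ : MM m ^ 2 < 27 * (m 0 * m 1 + m 1 * m 2 + m 2 * m 0)) {x : ℝ → Ph}
    (hx : Solves (fld m) (frame m) univ x) {P : ℝ} (hP : 0 < P) (hper : ∀ t, x (t + P) = x t)
    (hst : LyapunovStable m (range x))
    (hnc : ¬ ∀ a b t, ‖(x t).1 a - (x t).1 b‖ = ‖(x 0).1 a - (x 0).1 b‖) :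
    (∀ T > 0, ∀ u : ℂ, ‖u‖ = 1 → (∀ t, x (t + T) = u • x t) → ∃ M, IsMon m x T u M ∧
      ∃ l₁ l₂ : ℂ, ‖l₁‖ = 1 ∧ ‖l₂‖ = 1 ∧ Mult M l₁ l₂ ∧ ¬ NonRes l₁ l₂) ∧
    ∃ U, IsOpen U ∧ range x ⊆ U ∧ ∀ y : ℝ → Ph, Solves (fld m) (frame m) univ y → y 0 ∈ U →
      ∀ T > 0, ∀ u : ℂ, ‖u‖ = 1 → (∀ t, y (t + T) = u • y t) → ∀ M, IsMon m y T u M →
        ∀ l₁ l₂ : ℂ, ‖l₁‖ = 1 → ‖l₂‖ = 1 → Mult M l₁ l₂ → ¬ NonRes l₁ l₂ := by
  obtain ⟨U, hU, hxU, hcore⟩ := core hm hx hP hper hst hnc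
  have hnear : ∀ y : ℝ → Ph, Solves (fld m) (frame m) univ y → y 0 ∈ U →
      ∀ T > 0, ∀ u : ℂ, ‖u‖ = 1 → (∀ t, y (t + T) = u • y t) → ∀ M, IsMon m y T u M →
        ∀ l₁ l₂ : ℂ, ‖l₁‖ = 1 → ‖l₂‖ = 1 → Mult M l₁ l₂ → ¬ NonRes l₁ l₂ := by
    intro y hy hy0 T hT u hu hyu M hM l₁ l₂ h1 h2 hMl hnon
    have hy' : Solves (fld m) (frame m) (Icc 0 T) y := hy.mono (subset_univ _)
    have hyT : y T = u • y 0 := by
      have := hyu 0
      rwa [zero_add] at this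
    obtain ⟨S, X₀, X₁, Φ, φ, hS, hX, hLM, hφ, hend⟩ := exists_data hm hT hy' hyT
    -- all roots of the characteristic polynomial are on the unit circle
    have hroots : ∀ l : ℂ, (M.charpoly.map (algebraMap ℝ ℂ)).eval l = 0 → ‖l‖ = 1 := by
      intro l hl
      rw [hMl] at hl
      simp only [eval_mul, eval_pow, eval_sub, eval_X, eval_one, eval_C] at hl
      rcases mul_eq_zero.1 hl with h | h
      · rw [sub_eq_zero.1 ((pow_eq_zero_iff (by norm_num)).1 h), norm_one]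
      · rcases mul_eq_zero.1 h with h | h <;> rcases mul_eq_zero.1 h with h | h
        · rw [sub_eq_zero.1 h, h1]
        · rw [sub_eq_zero.1 h, norm_inv, h1, inv_one]
        · rw [sub_eq_zero.1 h, h2]
        · rw [sub_eq_zero.1 h, norm_inv, h2, inv_one]
    have hcpM := cp_monodromy hm hT hy' hLM hX hu hM
    have hnr : ¬ ∃ μ : ℝ, fld₀ m (pE m X₀) = ((μ : ℂ) * Complex.I) • pE m X₀ := by
      rintro ⟨μ, hμ⟩
      have hm0 : ∀ a, m a ≠ 0 := fun a => (hm a).ne'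
      have hre : IsRE m μ (pE m X₀) := ⟨pE_noColl (MM_pos hm).ne' hm0 hLM.nc0, hμ⟩
      obtain ⟨s, hs, hev⟩ := hre.exists_ev hm hσ
      have hroot := root_of_ev hm hT hu hLM hend hre hev
      rw [hcpM] at hroot
      have hnorm := hroots _ hroot
      rw [Complex.norm_exp] at hnorm
      have h2 : (s * (T : ℂ)).re = 0 := Real.exp_eq_one_iff _ |>.1 hnorm
      rw [Complex.re_mul_ofReal] at h2
      rcases mul_eq_zero.1 h2 with h3 | h3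
      · exact hs h3
      · exact hT.ne' h3
    obtain ⟨t₁, t₂, ht⟩ := ret_form hm hu hLM hφ hend hnr
    set q : ℝ[X] := X ^ 4 - C t₁ * X ^ 3 + C t₂ * X ^ 2 - C t₁ * X + 1 with hq
    have hMq : M.charpoly = (X - 1) ^ 4 * q := by rw [← hcpM, ht]
    have hqC : q.map (algebraMap ℝ ℂ) =
        (X - C l₁) * (X - C l₁⁻¹) * ((X - C l₂) * (X - C l₂⁻¹)) := by
      have h3 : M.charpoly.map (algebraMap ℝ ℂ) = _ := hMl
      rw [hMq, Polynomial.map_mul, Polynomial.map_pow, Polynomial.map_sub, Polynomial.map_X,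
        Polynomial.map_one] at h3
      exact cancel_powC h3
    have hell : Ell4 q := ⟨l₁, l₂, h1, h2, hnon, hqC⟩
    exact hcore y T u hT hu hy' hy0 hyT M hM q hell hMq
      (noRE_of_no_dominant hm hσ hT hu (ell_root_norm hell))
  refine ⟨fun T hT u hu hxu => ?_, U, hU, hxU, hnear⟩
  have hx' : Solves (fld m) (frame m) (Icc 0 T) x := hx.mono (subset_univ _)
  have hxT : x T = u • x 0 := by
    have := hxu 0
    rwa [zero_add] at this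
  obtain ⟨S, X₀, X₁, Φ, φ, hS, hX, hLM, hφ, hend⟩ := exists_data hm hT hx' hxT
  have hnr : ¬ ∃ μ : ℝ, fld₀ m (pE m X₀) = ((μ : ℂ) * Complex.I) • pE m X₀ := by
    rintro ⟨μ, hμ⟩
    apply hnc
    intro a b t
    refine const_of_releq hx (μ := μ) ?_ a b t
    have h1 : ((fld₀ m (pE m X₀) : comSub m) : Ph) =
        ((((μ : ℂ) * Complex.I) • pE m X₀ : comSub m) : Ph) := by rw [hμ]
    have h2 : fld m ((pE m X₀ : comSub m) : Ph) =
        ((μ : ℂ) * Complex.I) • ((pE m X₀ : comSub m) : Ph) := h1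
    rwa [hX] at h2
  obtain ⟨M, hM⟩ := exists_isMon hm hT hu hx' hxT
  have hcpM := cp_monodromy hm hT hx' hLM hX hu hM
  obtain ⟨t₁, t₂, ht⟩ := ret_form hm hu hLM hφ hend hnr
  obtain ⟨l₁, l₂, hl1, hl2, hfac⟩ := exists_factor t₁ t₂
  have hMl : Mult M l₁ l₂ := by
    unfold Mult
    rw [← hcpM, ht, Polynomial.map_mul, hfac, Polynomial.map_pow, Polynomial.map_sub,
      Polynomial.map_X, Polynomial.map_one]
  have hle : ∀ l : ℂ, (M.charpoly.map (algebraMap ℝ ℂ)).eval l = 0 → ‖l‖ ≤ 1 := by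
    intro l hl
    refine multiplier_le_one hm hx hP hper hst hnc hT hu hX hLM hφ hend (l := l) ?_
    rw [hcpM]
    exact hl
  have hone : ∀ l : ℂ, l ≠ 0 → ‖l‖ ≤ 1 → ‖l⁻¹‖ ≤ 1 → ‖l‖ = 1 := by
    intro l h0 h1 h2
    have h3 : 0 < ‖l‖ := norm_pos_iff.2 h0
    rw [norm_inv, inv_le_one₀ h3] at h2
    exact le_antisymm h1 h2
  have hev : ∀ l : ℂ, (X - C l₁ : ℂ[X]).eval l = 0 ∨ (X - C l₁⁻¹ : ℂ[X]).eval l = 0 ∨
      (X - C l₂ : ℂ[X]).eval l = 0 ∨ (X - C l₂⁻¹ : ℂ[X]).eval l = 0 →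
      (M.charpoly.map (algebraMap ℝ ℂ)).eval l = 0 := by
    intro l hl
    rw [hMl]
    simp only [eval_mul]
    rcases hl with h | h | h | h <;> rw [h] <;> ring
  have h1 : ‖l₁‖ = 1 := hone l₁ hl1 (hle _ (hev _ (Or.inl (by simp))))
    (hle _ (hev _ (Or.inr (Or.inl (by simp)))))
  have h2 : ‖l₂‖ = 1 := hone l₂ hl2 (hle _ (hev _ (Or.inr (Or.inr (Or.inl (by simp))))))
    (hle _ (hev _ (Or.inr (Or.inr (Or.inr (by simp))))))
  exact ⟨M, hM, l₁, l₂, h1, h2, hMl,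
    hnear x hx (hxU (mem_range_self 0)) T hT u hu hxu M hM l₁ l₂ h1 h2 hMl⟩

end Pool.Agent.MP_5027f4_cont
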