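import Pool.Agent.Lib_MP_5027f4_cont.EFin
import Pool.Agent.Lib_MP_5027f4_cont.DShift
import Pool.Agent.Lib_MP_5027f4_cont.FlowLim

/-!
# Limits of relative periodic orbits
-/

open Set Filter Topology Metric Polynomial
open scoped ComplexConjugate ContDiff
open Pool.Agent.MP_5027f4_mp

namespace Pool.Agent.MP_5027f4_cont

variable {m : Fin 3 → ℝ}

theorem MM_pos (hm : ∀ a, 0 < m a) : 0 < MM m := by
  have := hm 0
  have := hm 1
  have := hm 2
  unfold MM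
  linarith

/-- the data of a relative periodic orbit at a base point which is far from collisions -/
theorem good_far (hm : ∀ a, 0 < m a) {e T : ℝ} (he : 0 < e) (hT : 0 < T) {u : ℂ} (hu : ‖u‖ = 1)
    {χ : ℝ[X]} {cm : ℝ} (hcm : 0 < cm) : ∃ B > 0, ∀ cc : ℝ, cm ≤ |cc| → Good m (-e) T u χ cc →
      |cc| ≤ B ∧ ∃ S Z₀ Z₁ Φ c, 0 < S ∧ S ≤ B ∧ LM m T S Z₀ Z₁ Φ ∧ muE m (pE m Z₀) = (-e, cc) ∧
        pE m Z₁ = u • pE m Z₀ ∧ cp (fderiv ℝ (ret Φ T u) (pE m Z₀)) = χ ∧ 1 / B ≤ rho Z₀ ∧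
        1 / B ≤ rho Z₁ ∧ SolOn (VF m (-e)) S c ∧ c 0 = Z₀ ∧ c S = Z₁ ∧
        (∫ s in (0 : ℝ)..S, rho (c s) = T) ∧ ∀ s ∈ Icc 0 S, ‖c s‖ ≤ B := by
  obtain ⟨B, hB, hbd⟩ := orbit_bounds hm he hT hu hcm
  have hm0 : ∀ a, m a ≠ 0 := fun a => (hm a).ne'
  have hM : MM m ≠ 0 := (MM_pos hm).ne'
  refine ⟨B, hB, fun cc hcc hg => ?_⟩
  obtain ⟨S, X₀, X₁, Φ, hS, hLM, hmu, hend, hcp⟩ := hg
  have hh : (muE m (pE m X₀)).1 = -e := by rw [hmu]
  have hrun := hLM.run0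
  rw [hh] at hrun
  obtain ⟨c, hc, hc0, hcS, hct⟩ := hrun
  obtain ⟨κ₁, κ₂, b, hok, hsym⟩ := exists_sym_of_pE hM hm0 hLM.nc0 hLM.nc1 hu hend
  have hG : Gam m (-e) (c 0) = 0 := by
    rw [hc0]
    exact (Gam_eq_zero_iff hM hm0 hLM.nc0 (-e)).2 hh
  have horb : Orb m e T u S c κ₁ κ₂ b :=
    { sol := hc
      pos := hS
      gam := hG
      ok := hok
      per := by rw [hcS, hc0, hsym]
      time := hct }
  have hCU : CU (c 0) = cc := by
    rw [hc0, ← (muE_pE hM hm0 hLM.nc0 (-e)).2, hmu]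
  obtain ⟨h1, h2, h3, s, hs, hrs⟩ := hbd S c κ₁ κ₂ b horb (by rw [hCU]; exact hcc)
  have hns : Nonc (c s) := (rho_pos_iff _).1 (lt_of_lt_of_le (by positivity) hrs)
  have hc' : SolOn (VF m (muE m (pE m X₀)).1) S c := by rw [hh]; exact hc
  obtain ⟨Z₁, Φ', hLM', hend', hmu', hcp', hnorm⟩ := base_shift hm hu hLM hS hend hc' hc0 hs hns
  have hmu2 : muE m (pE m (c s)) = (-e, cc) := by rw [hmu', hmu]
  have hrun' := hLM'.run0
  rw [hmu2] at hrun'
  obtain ⟨c', hcs', hc0', hcS', hct'⟩ := hrun'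
  obtain ⟨κ₁', κ₂', b', hok', hsym'⟩ := exists_sym_of_pE hM hm0 hLM'.nc0 hLM'.nc1 hu hend'
  refine ⟨by rw [← hCU]; exact h2, S, c s, Z₁, Φ', c', hS, h1, hLM', hmu2, hend', ?_, hrs, ?_,
    hcs', hc0', hcS', hct', fun r hr => ?_⟩
  · rw [hcp', hcp]
  · rw [hsym', rho_sym hok']
    exact hrs
  · obtain ⟨r', hr', hrr⟩ := hnorm c' (by rw [hh]; exact hcs') hc0' r hr
    rw [hrr]
    exact h3 r' hr'

/-- a germ equality gives equal linearized return maps -/
theorem cp_ret_congr {Φ Φ' : ℝ × comSub m → comSub m} {T : ℝ} {u : ℂ} {y : comSub m}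
    (h : Φ =ᶠ[𝓝 (T, y)] Φ') :
    cp (fderiv ℝ (ret Φ T u) y) = cp (fderiv ℝ (ret Φ' T u) y) := by
  have h1 : Tendsto (fun z : comSub m => (T, z)) (𝓝 y) (𝓝 (T, y)) :=
    tendsto_const_nhds.prodMk_nhds tendsto_id
  have h2 : ret Φ T u =ᶠ[𝓝 y] ret Φ' T u := by
    filter_upwards [h1.eventually h] with z hz
    simp only [ret, hz]
  rw [h2.fderiv_eq]

theorem lim_good (hm : ∀ a, 0 < m a) {e T : ℝ} (he : 0 < e) (hT : 0 < T) {u : ℂ}
    (hu : ‖u‖ = 1) {χ : ℝ[X]} {cn : ℕ → ℝ} {c₀ : ℝ} (hc0 : c₀ ≠ 0)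
    (hcn : Tendsto cn atTop (𝓝 c₀)) (hg : ∀ n, Good m (-e) T u χ (cn n)) :
    ∃ S X₀ X₁ Φ, 0 < S ∧ LM m T S X₀ X₁ Φ ∧ muE m (pE m X₀) = (-e, c₀) ∧
      pE m X₁ = u • pE m X₀ ∧
      ∀ 𝒱 ∈ 𝓝 (pE m X₀), ∃ᶠ n in atTop, ∃ y ∈ 𝒱, ret Φ T u y = y ∧ muE m y = (-e, cn n) ∧
        cp (fderiv ℝ (ret Φ T u) y) = χ := by
  have hm0 : ∀ a, m a ≠ 0 := fun a => (hm a).ne'
  have hM : MM m ≠ 0 := (MM_pos hm).ne'
  have hu0 : u ≠ 0 := by
    rintro rfl
    simp at hu
  set cm := |c₀| / 2 with hcm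
  have hcm0 : 0 < cm := by
    have := abs_pos.2 hc0
    positivity
  obtain ⟨B, hB, hfar⟩ := good_far (χ := χ) hm he hT hu hcm0
  have hev : ∀ᶠ n in atTop, cm ≤ |cn n| := by
    have h1 : Tendsto (fun n => |cn n|) atTop (𝓝 |c₀|) := hcn.abs
    have h2 : cm < |c₀| := by
      have := abs_pos.2 hc0
      rw [hcm]
      linarith
    exact (h1.eventually (lt_mem_nhds h2)).mono fun n hn => hn.le
  obtain ⟨n₀, hn₀⟩ := eventually_atTop.1 hev
  have hdat := fun n : ℕ => (hfar (cn (n₀ + n)) (hn₀ _ (Nat.le_add_right _ _)) (hg _)).2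
  choose S Z₀ Z₁ Φ c hS hSB hLM hmu hend hcp hr0 hr1 hc hcz hcS hct hcB using hdat
  -- a convergent subsequence
  have hK : IsCompact (Icc (0 : ℝ) B ×ˢ closedBall (0 : Up) B) :=
    isCompact_Icc.prod (isCompact_closedBall _ _)
  obtain ⟨⟨S', X'⟩, -, ψ, hψ, hlim⟩ := hK.tendsto_subseq (x := fun n => (S n, Z₀ n)) (fun n =>
    ⟨⟨(hS n).le, hSB n⟩, by
      rw [mem_closedBall_zero_iff, ← hcz n]
      exact hcB n 0 ⟨le_rfl, (hS n).le⟩⟩)
  have hlimS : Tendsto (fun k => S (ψ k)) atTop (𝓝 S') :=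
    (continuous_fst.tendsto (S', X')).comp hlim
  have hlimX : Tendsto (fun k => Z₀ (ψ k)) atTop (𝓝 X') :=
    (continuous_snd.tendsto (S', X')).comp hlim
  have hrc : Continuous rho := contDiff_rho.continuous
  have hB1 : (0 : ℝ) < 1 / B := by positivity
  have hn0 : Nonc X' := by
    rw [← rho_pos_iff]
    refine lt_of_lt_of_le hB1 (ge_of_tendsto ((hrc.tendsto X').comp hlimX) ?_)
    exact Eventually.of_forall fun k => hr0 (ψ k)
  -- the limit solution of the extended field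
  obtain ⟨Y, hY, hY0, hYS, -⟩ := flow_lim (f := VV m) ((contDiff_VV m).of_le (by norm_num))
    (B := max B (max |e| T)) (S := S') (Sn := fun k => S (ψ k))
    (cn := fun k s => (c (ψ k) s, (-e, ∫ r in (0 : ℝ)..s, rho (c (ψ k) r))))
    (x := (X', (-e, 0))) (fun k => (hS _).le) hlimS (fun k => (hc (ψ k)).solVV) (by
      intro k s hs
      have h1 : ‖c (ψ k) s‖ ≤ B := hcB _ s hs
      have hcont : ContinuousOn (fun r => rho (c (ψ k) r)) (uIcc 0 (S (ψ k))) :=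
        hrc.comp_continuousOn (hc (ψ k)).continuousOn
      have h2 : |∫ r in (0 : ℝ)..s, rho (c (ψ k) r)| ≤ T := by
        have h3 : 0 ≤ ∫ r in (0 : ℝ)..s, rho (c (ψ k) r) :=
          intervalIntegral.integral_nonneg hs.1 fun r _ => rho_nonneg _
        rw [abs_of_nonneg h3, ← hct (ψ k)]
        have hi1 : IntervalIntegrable (fun r => rho (c (ψ k) r)) MeasureTheory.volume 0 s := by
          refine (hcont.mono ?_).intervalIntegrable
          rw [uIcc_of_le hs.1, uIcc_of_le (hS _).le]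
          exact Icc_subset_Icc_right hs.2
        have hi2 : IntervalIntegrable (fun r => rho (c (ψ k) r)) MeasureTheory.volume s
            (S (ψ k)) := by
          refine (hcont.mono ?_).intervalIntegrable
          rw [uIcc_of_le hs.2, uIcc_of_le (hS _).le]
          exact Icc_subset_Icc_left hs.1
        rw [← intervalIntegral.integral_add_adjacent_intervals hi1 hi2]
        have h4 : 0 ≤ ∫ r in s..(S (ψ k)), rho (c (ψ k) r) :=
          intervalIntegral.integral_nonneg hs.2 fun r _ => rho_nonneg _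
        linarith
      rw [Prod.norm_def, Prod.norm_def]
      refine max_le (h1.trans (le_max_left _ _)) (max_le ?_ ?_)
      · rw [norm_neg, Real.norm_eq_abs]
        exact (le_max_left _ _).trans (le_max_right _ _)
      · rw [Real.norm_eq_abs]
        exact h2.trans ((le_max_right _ _).trans (le_max_right _ _)))
    (by
      have h1 : (fun k => ((c (ψ k) 0, (-e, ∫ r in (0 : ℝ)..0, rho (c (ψ k) r))) :
          Up × ℝ × ℝ)) = fun k => (Z₀ (ψ k), (-e, 0)) := by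
        funext k
        rw [hcz, intervalIntegral.integral_same]
      rw [h1]
      exact hlimX.prodMk_nhds tendsto_const_nhds)
  have hYS' : Tendsto (fun k => ((Z₁ (ψ k), (-e, T)) : Up × ℝ × ℝ)) atTop (𝓝 (Y S')) := by
    have h1 : (fun k => ((c (ψ k) (S (ψ k)), (-e, ∫ r in (0 : ℝ)..(S (ψ k)),
        rho (c (ψ k) r))) : Up × ℝ × ℝ)) = fun k => (Z₁ (ψ k), (-e, T)) := by
      funext k
      rw [hcS, hct]
    rw [← h1]
    exact hYS
  have hlimZ : Tendsto (fun k => Z₁ (ψ k)) atTop (𝓝 (Y S').1) :=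
    (continuous_fst.tendsto (Y S')).comp hYS'
  have hYT : (Y S').2.2 = T := by
    have h1 : Tendsto (fun _ : ℕ => T) atTop (𝓝 (Y S').2.2) :=
      ((continuous_snd.comp continuous_snd).tendsto (Y S')).comp hYS'
    exact tendsto_nhds_unique h1 tendsto_const_nhds
  have hrun := (Run.of_VV hY (by rw [hY0])).1
  rw [hY0, hYT] at hrun
  set X₁' := (Y S').1 with hX₁'
  have hn1 : Nonc X₁' := by
    rw [← rho_pos_iff]
    refine lt_of_lt_of_le hB1 (ge_of_tendsto ((hrc.tendsto X₁').comp hlimZ) ?_)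
    exact Eventually.of_forall fun k => hr1 (ψ k)
  have hp0 : Tendsto (fun k => pE m (Z₀ (ψ k))) atTop (𝓝 (pE m X')) :=
    (analyticAt_pE m hn0).continuousAt.tendsto.comp hlimX
  have hp1 : Tendsto (fun k => pE m (Z₁ (ψ k))) atTop (𝓝 (pE m X₁')) :=
    (analyticAt_pE m hn1).continuousAt.tendsto.comp hlimZ
  have hend' : pE m X₁' = u • pE m X' := by
    refine tendsto_nhds_unique hp1 ?_
    have h1 : (fun k => pE m (Z₁ (ψ k))) = fun k => u • pE m (Z₀ (ψ k)) := by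
      funext k
      exact hend _
    rw [h1]
    exact hp0.const_smul u
  have hcn' : Tendsto (fun k => cn (n₀ + ψ k)) atTop (𝓝 c₀) := by
    refine hcn.comp ?_
    exact tendsto_atTop_mono (fun k => Nat.le_add_left _ _) hψ.tendsto_atTop
  have hmu' : muE m (pE m X') = (-e, c₀) := by
    have h1 : Tendsto (fun k => muE m (pE m (Z₀ (ψ k)))) atTop (𝓝 (muE m (pE m X'))) :=
      (analyticAt_muE m (pE_noColl hM hm0 hn0)).continuousAt.tendsto.comp hp0
    have h2 : (fun k => muE m (pE m (Z₀ (ψ k)))) = fun k => (-e, cn (n₀ + ψ k)) := by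
      funext k
      exact hmu _
    rw [h2] at h1
    exact tendsto_nhds_unique h1 (tendsto_const_nhds.prodMk_nhds hcn')
  have hS' : 0 < S' := by
    have h1 : 0 ≤ S' := ge_of_tendsto hlimS (Eventually.of_forall fun k => (hS _).le)
    rcases h1.lt_or_eq with h2 | h2
    · exact h2
    · exfalso
      rw [← h2] at hrun
      obtain ⟨c', -, -, -, ht⟩ := hrun
      rw [intervalIntegral.integral_same] at ht
      exact hT.ne ht
  have hh' : (muE m (pE m X')).1 = -e := by rw [hmu']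
  obtain ⟨Φ', hLM'⟩ := exists_LM hm (by rw [hh']; exact hrun) hn0 hn1
  refine ⟨S', X', X₁', Φ', hS', hLM', hmu', hend', fun 𝒱 h𝒱 => ?_⟩
  have hq : Tendsto (fun k => (S (ψ k), Z₀ (ψ k))) atTop (𝓝 (S', X')) := hlim
  have hfin : ∀ᶠ k in atTop, ∃ y ∈ 𝒱, ret Φ' T u y = y ∧ muE m y = (-e, cn (n₀ + ψ k)) ∧
      cp (fderiv ℝ (ret Φ' T u) y) = χ := by
    filter_upwards [hq.eventually hLM'.run, hq.eventually hLM'.near, hp0.eventually h𝒱]
      with k h1 h2 h3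
    refine ⟨pE m (Z₀ (ψ k)), h3, ?_, hmu _, ?_⟩
    · have h4 := h1 T (Z₁ (ψ k)) (hLM (ψ k)).run0
      change u⁻¹ • Φ' (T, pE m (Z₀ (ψ k))) = _
      rw [← h4, hend, smul_smul, inv_mul_cancel₀ hu0, one_smul]
    · have h4 := h2 T (Z₁ (ψ k)) (Φ (ψ k)) (hLM (ψ k))
      rw [← cp_ret_congr h4]
      exact hcp _
  have htend : Tendsto (fun k => n₀ + ψ k) atTop atTop :=
    tendsto_atTop_mono (fun k => Nat.le_add_left _ _) hψ.tendsto_atTop
  exact htend.frequently hfin.frequently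

end Pool.Agent.MP_5027f4_cont
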