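import Pool.Agent.Lib_MP_5027f4_cont.Defs

/-!
PIECE [HNeg] (MP_5027f4_mp, T1).  Relative periodic motions have negative energy.
-/

open Set Filter Topology Metric Polynomial
open scoped ComplexConjugate ContDiff
open Pool.Agent.MP_5027f4_mp

namespace Pool.Agent.MP_5027f4_cont

section hneg

open scoped RealInnerProductSpace

private theorem hn_pair (a b : ℂ) (α β : ℝ) (hab : b - a ≠ 0) :
    α * ⟪a, (β / ‖b - a‖ ^ 3) • (b - a)⟫ + β * ⟪b, (α / ‖a - b‖ ^ 3) • (a - b)⟫ =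
      -(α * β * ‖b - a‖⁻¹) := by
  have hr : ‖b - a‖ ≠ 0 := norm_ne_zero_iff.2 hab
  have h1 : ‖a - b‖ = ‖b - a‖ := norm_sub_rev _ _
  have h2 : a - b = -(b - a) := (neg_sub _ _).symm
  have h3 : ⟪b - a, b - a⟫ = ‖b - a‖ ^ 2 := real_inner_self_eq_norm_sq _
  rw [inner_sub_left] at h3
  rw [h1, real_inner_smul_right, real_inner_smul_right, h2, inner_neg_right]
  have h4 : ⟪a, b - a⟫ = ⟪b, b - a⟫ - ‖b - a‖ ^ 2 := by linarith
  rw [h4]
  field_simp
  ring

private theorem hn_euler (m : Fin 3 → ℝ) {q : Fin 3 → ℂ} (hq : ∀ a b, a ≠ b → q a ≠ q b) :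
    ∑ a, m a * ⟪q a, acc m q a⟫ = -(m 0 * m 1 * ‖q 1 - q 0‖⁻¹ + m 0 * m 2 * ‖q 2 - q 0‖⁻¹ +
        m 1 * m 2 * ‖q 2 - q 1‖⁻¹) := by
  have h01 := hn_pair (q 0) (q 1) (m 0) (m 1) (sub_ne_zero.2 (hq 1 0 (by decide)))
  have h02 := hn_pair (q 0) (q 2) (m 0) (m 2) (sub_ne_zero.2 (hq 2 0 (by decide)))
  have h12 := hn_pair (q 1) (q 2) (m 1) (m 2) (sub_ne_zero.2 (hq 2 1 (by decide)))
  simp only [acc_eq, Fin.sum_univ_three, sub_self, smul_zero, inner_add_right, inner_zero_right]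
  linarith

private theorem hn_rot {u : ℂ} (hu : ‖u‖ = 1) (z w : ℂ) : ⟪u * z, u * w⟫ = ⟪z, w⟫ := by
  have h : u.re * u.re + u.im * u.im = 1 := by
    rw [← Complex.normSq_apply, Complex.normSq_eq_norm_sq, hu, one_pow]
  simp only [inner_eq, Complex.mul_re, Complex.mul_im]
  linear_combination (z.re * w.re + z.im * w.im) * h

/-- Proof.  `D t = Σ mₐ Re (conj q_a v_a)` has the derivative `Σ mₐ |v_a|² - U = U + 2 h`
(`U` = potential, `h = energy`, constant; Euler relation `Σ mₐ Re (conj q_a acc_a) = - U`), and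
`D T = D 0` by rotation invariance.  By Rolle `2 h = - U < 0` somewhere. -/
theorem energy_neg {m : Fin 3 → ℝ} (hm : ∀ a, 0 < m a) {y : ℝ → Ph} {T : ℝ} (hT : 0 < T)
    {u : ℂ} (hu : ‖u‖ = 1) (hy : Solves (fld m) (frame m) (Icc 0 T) y) (hyu : y T = u • y 0) :
    energy m (y 0) < 0 := by
  have hder : ∀ t ∈ Ioo (0 : ℝ) T, HasDerivAt y (fld m (y t)) t := fun t ht =>
    (hy t (Ioo_subset_Icc_self ht)).2.hasDerivAt (Icc_mem_nhds ht.1 ht.2)
  have hyc : ContinuousOn y (Icc 0 T) := hy.continuousOn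
  have hnc : ∀ t ∈ Icc (0 : ℝ) T, y t ∈ noColl := fun t ht => frame_subset m (hy t ht).1
  -- the virial
  have hDc : Continuous (fun p : Ph => ∑ a, m a * ⟪p.1 a, p.2 a⟫) :=
    continuous_finsetSum _ fun a _ => continuous_const.mul
      (Continuous.inner ((continuous_apply a).comp continuous_fst)
        ((continuous_apply a).comp continuous_snd))
  have hD : ∀ t ∈ Ioo (0 : ℝ) T, HasDerivAt (fun t => ∑ a, m a * ⟪(y t).1 a, (y t).2 a⟫)
      (∑ a, m a * (⟪(y t).1 a, acc m (y t).1 a⟫ + ⟪(y t).2 a, (y t).2 a⟫)) t := by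
    intro t ht
    refine HasDerivAt.fun_sum fun a _ => HasDerivAt.const_mul _ ?_
    exact HasDerivAt.inner ℝ (hasDerivAt_comp_fst (hder t ht) a) (hasDerivAt_comp_snd (hder t ht) a)
  have hends : ∑ a, m a * ⟪(y 0).1 a, (y 0).2 a⟫ = ∑ a, m a * ⟪(y T).1 a, (y T).2 a⟫ := by
    refine Finset.sum_congr rfl fun a _ => ?_
    rw [hyu]
    show _ = m a * ⟪u * (y 0).1 a, u * (y 0).2 a⟫
    rw [hn_rot hu]
  obtain ⟨c, hc, hc0⟩ := exists_hasDerivAt_eq_zero hT (hDc.comp_continuousOn hyc) hends hD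
  -- the energy is constant
  have hE : ∀ t ∈ Ioo (0 : ℝ) c, HasDerivAt (fun t => energy m (y t)) 0 t := by
    intro t ht
    have ht' : t ∈ Ioo (0 : ℝ) T := ⟨ht.1, ht.2.trans hc.2⟩
    refine (energy_curve (m := m) (hder t ht') (hnc t (Ioo_subset_Icc_self ht'))).congr_deriv ?_
    refine Finset.sum_eq_zero fun a _ => ?_
    show m a * (⟪(y t).2 a, acc m (y t).1 a⟫ - ⟪acc m (y t).1 a, (y t).2 a⟫) = 0
    rw [real_inner_comm, sub_self, mul_zero]
  have hEc : ContinuousOn (fun t => energy m (y t)) (Icc 0 c) := by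
    intro t ht
    have ht' : t ∈ Icc (0 : ℝ) T := ⟨ht.1, ht.2.trans hc.2.le⟩
    have h1 : ContinuousAt (energy m) (y t) := (contDiffAt_energy (hnc t ht')).continuousAt
    exact h1.comp_continuousWithinAt
      ((hyc t ht').mono (Icc_subset_Icc_right hc.2.le))
  obtain ⟨s, _, hs⟩ := exists_hasDerivAt_eq_slope (fun t => energy m (y t)) (fun _ => 0) hc.1 hEc hE
  have hconst : energy m (y c) = energy m (y 0) := by
    have h1 : (c - 0 : ℝ) ≠ 0 := by
      rw [sub_zero]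
      exact hc.1.ne'
    have h2 := (eq_div_iff h1).1 hs
    rw [zero_mul] at h2
    linarith
  rw [← hconst, energy_eq]
  have hcI : c ∈ Icc (0 : ℝ) T := Ioo_subset_Icc_self hc
  have heul := hn_euler m (hnc c hcI)
  have hpos : ∀ a b, a ≠ b → 0 < ‖(y c).1 a - (y c).1 b‖⁻¹ := fun a b hab =>
    inv_pos.2 (norm_pos_iff.2 (sub_ne_zero.2 (hnc c hcI a b hab)))
  have h10 := mul_pos (mul_pos (hm 0) (hm 1)) (hpos 1 0 (by decide))
  have h20 := mul_pos (mul_pos (hm 0) (hm 2)) (hpos 2 0 (by decide))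
  have h21 := mul_pos (mul_pos (hm 1) (hm 2)) (hpos 2 1 (by decide))
  simp only [mul_add, Finset.sum_add_distrib, heul] at hc0
  simp only [Fin.sum_univ_three, real_inner_self_eq_norm_sq] at hc0
  linarith

end hneg

end Pool.Agent.MP_5027f4_cont
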