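import Pool.Agent.Lib_MP_5027f4_cont.FRe
import Pool.Agent.Lib_MP_5027f4_cont.HBd
import Pool.Agent.Lib_MP_5027f4_cont.HNeg

/-!
# Elliptic relative periodic orbits near Lyapunov stable ones are resonant
-/

open Set Filter Topology Metric Polynomial
open scoped ComplexConjugate ContDiff
open Pool.Agent.MP_5027f4_mp

namespace Pool.Agent.MP_5027f4_cont

variable {m : Fin 3 → ℝ}

/-- the core: no relative equilibrium at the end of the family (`hRE`) -/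
theorem core (hm : ∀ a, 0 < m a) {x : ℝ → Ph} (hx : Solves (fld m) (frame m) univ x) {P : ℝ}
    (hP : 0 < P) (hper : ∀ t, x (t + P) = x t) (hst : LyapunovStable m (range x))
    (hnc : ¬ ∀ a b t, ‖(x t).1 a - (x t).1 b‖ = ‖(x 0).1 a - (x 0).1 b‖) :
    ∃ U, IsOpen U ∧ range x ⊆ U ∧ ∀ (y : ℝ → Ph) (T : ℝ) (u : ℂ), 0 < T → ‖u‖ = 1 →
      Solves (fld m) (frame m) (Icc 0 T) y → y 0 ∈ U → y T = u • y 0 →
      ∀ M : comSub m →ₗ[ℝ] comSub m, IsMon m y T u M → ∀ q : ℝ[X], Ell4 q →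
        M.charpoly = (X - 1) ^ 4 * q → ¬ NoRE m T u ((X - 1) ^ 4 * q) := by
  obtain ⟨U, hU, hxU, hbd⟩ := bd_of_stable hm hx hP hper hst hnc
  refine ⟨U, hU, hxU, fun y T u hT hu hy hy0 hyT M hM q hell hq hRE => ?_⟩
  have hm0 : ∀ a, m a ≠ 0 := fun a => (hm a).ne'
  have hMM : MM m ≠ 0 := (MM_pos hm).ne'
  have h0mem : (0 : ℝ) ∈ Icc 0 T := ⟨le_rfl, hT.le⟩
  have hfr := (hy 0 h0mem).1
  have hneg := energy_neg hm hT hu hy hyT
  -- lift to the regularized problem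
  obtain ⟨X₀, hn0, hX0⟩ := exists_lift hMM hm0 (y := ⟨y 0, hfr.2⟩) hfr.1
  have hX : ((pE m X₀ : comSub m) : Ph) = y 0 := by rw [hX0]
  obtain ⟨S, hS, c, hc, hc0, hcn, hcy, hcT⟩ := exists_lift_run hm hT hy hn0 hX
  have hen : (muE m (pE m X₀)).1 = energy m (y 0) := by
    simp only [muE, hX]
  have hrun : Run m (muE m (pE m X₀)).1 S X₀ T (c S) := by
    rw [hen]
    exact ⟨c, hc, hc0, rfl, hcT⟩
  have hn1 : Nonc (c S) := hcn S ⟨hS.le, le_rfl⟩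
  have hend : pE m (c S) = u • pE m X₀ := by
    apply Subtype.ext
    rw [hcy S ⟨hS.le, le_rfl⟩, hcT, hyT]
    change u • y 0 = u • ((pE m X₀ : comSub m) : Ph)
    rw [hX]
  obtain ⟨Φ, hLM⟩ := exists_LM hm hrun hn0 hn1
  obtain ⟨φ, hφ⟩ := exists_LM hm (Run.zero m (muE m (pE m X₀)).1 X₀) hn0 hn0
  have hBD := hbd y T u hT hu hy hy0 hyT S X₀ (c S) Φ φ hX hLM hφ hend
  have hcp : cp (fderiv ℝ (ret Φ T u) (pE m X₀)) = (X - 1) ^ 4 * q := by
    rw [cp_monodromy hm hT hy hLM hX hu hM, hq]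
  have hnr := hRE S X₀ (c S) Φ hS hLM hend hcp
  obtain ⟨han, hfix⟩ := ret_fix hm hLM hu hend
  obtain ⟨𝒱, h𝒱, hgood⟩ := good_near hm hLM hS hu
  have hfam := local_family (finrank_comSub hm) (omE_self (m := m)) (omE_nondeg hm)
    (locAct hm hφ hnr) han hfix (ret_comm hm hLM hφ hu hend) (ret_mu hm hLM hu)
    (ret_symp_E hm hLM hu) hBD hcp hell 𝒱 h𝒱
  obtain ⟨e, he⟩ : ∃ e : ℝ, (muE m (pE m X₀)).1 = -e := ⟨-(muE m (pE m X₀)).1, by ring⟩
  have he0 : 0 < e := by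
    have : -e < 0 := by rw [← he, hen]; exact hneg
    linarith
  refine no_good hm he0 hT hu (ell_eval_one hell) hRE (c₁ := (muE m (pE m X₀)).2) ?_
  filter_upwards [hfam] with c' hc'
  obtain ⟨z, h1, h2, h3, h4⟩ := hc'
  exact hgood z h1 h2 _ _ _ (by rw [h3, he]) h4

end Pool.Agent.MP_5027f4_cont
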