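import Pool.Agent.Lib_MP_5027f4_cont.ComE

/-!
PIECE [GCls] (MP_5027f4_mp, T1).  Relative equilibria are equilateral or collinear.
-/

open Set Filter Topology Metric Polynomial
open scoped ComplexConjugate ContDiff
open Pool.Agent.MP_5027f4_mp

namespace Pool.Agent.MP_5027f4_cont

/-- one line of the equations of a relative equilibrium -/
theorem GCls_line {M s t a b Ω : ℝ} {q0 u v : ℂ} (h1 : (s : ℂ) * u + (t : ℂ) * v = -((Ω ^ 2 : ℝ) : ℂ) * q0)
    (h2 : (M : ℂ) * q0 + (a : ℂ) * u + (b : ℂ) * v = 0) :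
    ((M * s - Ω ^ 2 * a : ℝ) : ℂ) * u + ((M * t - Ω ^ 2 * b : ℝ) : ℂ) * v = 0 := by
  push_cast at h1 ⊢
  linear_combination (M : ℂ) * h1 - (Ω : ℂ) ^ 2 * h2

/-- a real relation between two vectors which are not parallel -/
theorem GCls_indep {α β : ℝ} {u v : ℂ} (h : (α : ℂ) * u + (β : ℂ) * v = 0)
    (hD : u.re * v.im - u.im * v.re ≠ 0) : α = 0 ∧ β = 0 := by
  have h1 := congrArg Complex.re h
  have h2 := congrArg Complex.im h
  simp only [Complex.add_re, Complex.mul_re, Complex.ofReal_re, Complex.ofReal_im, Complex.add_im,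
    Complex.mul_im, Complex.zero_re, Complex.zero_im, zero_mul, sub_zero, add_zero] at h1 h2
  constructor
  · have : α * (u.re * v.im - u.im * v.re) = 0 := by linear_combination v.im * h1 - v.re * h2
    exact (mul_eq_zero.mp this).resolve_right hD
  · have : β * (u.re * v.im - u.im * v.re) = 0 := by linear_combination u.re * h2 - u.im * h1
    exact (mul_eq_zero.mp this).resolve_right hD

/-- parallel vectors -/
theorem GCls_par {u v : ℂ} (hu : u ≠ 0) (hD : u.re * v.im - u.im * v.re = 0) :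
    ∃ t : ℝ, v = (t : ℂ) * u := by
  have hn : u.re ^ 2 + u.im ^ 2 ≠ 0 := by
    intro h
    apply hu
    have h1 : u.re = 0 := by nlinarith [sq_nonneg u.re, sq_nonneg u.im]
    have h2 : u.im = 0 := by nlinarith [sq_nonneg u.re, sq_nonneg u.im]
    exact Complex.ext h1 h2
  refine ⟨(u.re * v.re + u.im * v.im) / (u.re ^ 2 + u.im ^ 2), ?_⟩
  apply Complex.ext
  · simp only [Complex.mul_re, Complex.ofReal_re, Complex.ofReal_im, zero_mul, sub_zero]
    field_simp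
    linear_combination -u.im * hD
  · simp only [Complex.mul_im, Complex.ofReal_re, Complex.ofReal_im, zero_mul, add_zero]
    field_simp
    linear_combination u.re * hD

/-- Proof.  `q_a = - Σ_b m_b (q_b - q_a) / M` (center of mass), so
`Σ_{b ≠ a} m_b (1/r_ab³ - Ω²/M) (q_b - q_a) = 0` for every `a`.  If the three points are not
collinear the two vectors are independent and all `1/r_ab³ = Ω²/M`; if they are collinear, the line
contains the center of mass `0` (`0 = Σ m_a q_a`), so `q_a = x_a e` with real `x_a`. -/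
theorem re_classify {m : Fin 3 → ℝ} (hm : ∀ a, 0 < m a) {q : Fin 3 → ℂ}
    (hq : ∀ a b, a ≠ b → q a ≠ q b) (hc : ∑ a, m a • q a = 0) {Ω : ℝ}
    (hacc : ∀ a, acc m q a = -((Ω ^ 2 : ℝ) : ℂ) * q a) :
    (∃ r > 0, (∀ a b, a ≠ b → ‖q a - q b‖ = r) ∧ Ω ^ 2 * r ^ 3 = MM m) ∨
      ∃ e : ℂ, ‖e‖ = 1 ∧ ∃ x : Fin 3 → ℝ, ∀ a, q a = (x a : ℂ) * e := by
  have hM : 0 < MM m := by
    have h0 := hm 0
    have h1 := hm 1
    have h2 := hm 2
    simp only [MM]
    positivity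
  have hu : q 1 - q 0 ≠ 0 := sub_ne_zero.mpr (hq 1 0 (by decide))
  have hv : q 2 - q 0 ≠ 0 := sub_ne_zero.mpr (hq 2 0 (by decide))
  have hw : q 2 - q 1 ≠ 0 := sub_ne_zero.mpr (hq 2 1 (by decide))
  have e01 : ‖q 0 - q 1‖ = ‖q 1 - q 0‖ := norm_sub_rev _ _
  have e02 : ‖q 0 - q 2‖ = ‖q 2 - q 0‖ := norm_sub_rev _ _
  have e12 : ‖q 1 - q 2‖ = ‖q 2 - q 1‖ := norm_sub_rev _ _
  have n1 : 0 < ‖q 1 - q 0‖ := norm_pos_iff.mpr hu
  have n2 : 0 < ‖q 2 - q 0‖ := norm_pos_iff.mpr hv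
  have n3 : 0 < ‖q 2 - q 1‖ := norm_pos_iff.mpr hw
  have hc0 : ((MM m : ℝ) : ℂ) * q 0 + (m 1 : ℂ) * (q 1 - q 0) + (m 2 : ℂ) * (q 2 - q 0) = 0 := by
    simp only [Fin.sum_univ_three, Complex.real_smul] at hc
    simp only [MM]
    push_cast
    linear_combination hc
  have hc1 : ((MM m : ℝ) : ℂ) * q 1 + (m 0 : ℂ) * (q 0 - q 1) + (m 2 : ℂ) * (q 2 - q 1) = 0 := by
    simp only [Fin.sum_univ_three, Complex.real_smul] at hc
    simp only [MM]
    push_cast
    linear_combination hc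
  have h0 : ((m 1 / ‖q 1 - q 0‖ ^ 3 : ℝ) : ℂ) * (q 1 - q 0) +
      ((m 2 / ‖q 2 - q 0‖ ^ 3 : ℝ) : ℂ) * (q 2 - q 0) = -((Ω ^ 2 : ℝ) : ℂ) * q 0 := by
    rw [← hacc 0, acc_eq, Fin.sum_univ_three]
    simp only [Complex.real_smul, sub_self, mul_zero, zero_add]
  have h1 : ((m 0 / ‖q 1 - q 0‖ ^ 3 : ℝ) : ℂ) * (q 0 - q 1) +
      ((m 2 / ‖q 2 - q 1‖ ^ 3 : ℝ) : ℂ) * (q 2 - q 1) = -((Ω ^ 2 : ℝ) : ℂ) * q 1 := by
    rw [← hacc 1, acc_eq, Fin.sum_univ_three]
    simp only [Complex.real_smul, sub_self, mul_zero, add_zero, e01]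
  have k0 := GCls_line h0 hc0
  have k1 := GCls_line h1 hc1
  by_cases hD : (q 1 - q 0).re * (q 2 - q 0).im - (q 1 - q 0).im * (q 2 - q 0).re = 0
  · right
    obtain ⟨t, ht⟩ := GCls_par hu hD
    have hMc : ((MM m : ℝ) : ℂ) ≠ 0 := by exact_mod_cast hM.ne'
    have hnc : ((‖q 1 - q 0‖ : ℝ) : ℂ) ≠ 0 := by exact_mod_cast n1.ne'
    set y : ℝ := -((m 1 + m 2 * t) / MM m) with hy
    have hq0 : q 0 = (y : ℂ) * (q 1 - q 0) := by
      rw [ht] at hc0
      rw [hy]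
      push_cast
      field_simp
      linear_combination hc0
    have hq1 : q 1 = ((y + 1 : ℝ) : ℂ) * (q 1 - q 0) := by
      push_cast
      linear_combination hq0
    have hq2 : q 2 = ((y + t : ℝ) : ℂ) * (q 1 - q 0) := by
      push_cast
      linear_combination hq0 + ht
    refine ⟨((‖q 1 - q 0‖⁻¹ : ℝ) : ℂ) * (q 1 - q 0), ?_,
      ![y * ‖q 1 - q 0‖, (y + 1) * ‖q 1 - q 0‖, (y + t) * ‖q 1 - q 0‖], ?_⟩
    · rw [norm_mul, Complex.norm_real, norm_inv, norm_norm, inv_mul_cancel₀ n1.ne']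
    · have key : ∀ (c : ℝ), (c : ℂ) * (q 1 - q 0) =
          ((c * ‖q 1 - q 0‖ : ℝ) : ℂ) * (((‖q 1 - q 0‖⁻¹ : ℝ) : ℂ) * (q 1 - q 0)) := by
        intro c
        push_cast
        field_simp
      intro a
      fin_cases a
      · exact hq0.trans (key y)
      · exact hq1.trans (key (y + 1))
      · exact hq2.trans (key (y + t))
  · left
    obtain ⟨a1, a2⟩ := GCls_indep k0 hD
    have a3 : MM m * (m 2 / ‖q 2 - q 1‖ ^ 3) - Ω ^ 2 * m 2 = 0 := by
      have a4 : MM m * (m 0 / ‖q 1 - q 0‖ ^ 3) - Ω ^ 2 * m 0 = 0 := by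
        have hm1 := (hm 1).ne'
        field_simp at a1 ⊢
        have : m 1 * (MM m - Ω ^ 2 * ‖q 1 - q 0‖ ^ 3) = 0 := by linear_combination a1
        have h5 := (mul_eq_zero.mp this).resolve_left hm1
        linear_combination m 0 * h5
      rw [a4, Complex.ofReal_zero] at k1
      have h6 : ((MM m * (m 2 / ‖q 2 - q 1‖ ^ 3) - Ω ^ 2 * m 2 : ℝ) : ℂ) * (q 2 - q 1) = 0 := by
        linear_combination k1
      have h7 := (mul_eq_zero.mp h6).resolve_right hw
      exact_mod_cast h7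
    have key : ∀ {c r : ℝ}, 0 < c → 0 < r → MM m * (c / r ^ 3) - Ω ^ 2 * c = 0 →
        Ω ^ 2 * r ^ 3 = MM m := by
      intro c r hc hr h
      have hr3 : r ^ 3 ≠ 0 := by positivity
      field_simp at h
      have h8 : c * (MM m - Ω ^ 2 * r ^ 3) = 0 := by linear_combination h
      have h9 := (mul_eq_zero.mp h8).resolve_left hc.ne'
      linarith
    have b1 := key (hm 1) n1 a1
    have b2 := key (hm 2) n2 a2
    have b3 := key (hm 2) n3 a3
    have hΩ : Ω ^ 2 ≠ 0 := by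
      intro h
      rw [h, zero_mul] at b1
      exact hM.ne b1
    have c2 : ‖q 2 - q 0‖ = ‖q 1 - q 0‖ := by
      have : ‖q 2 - q 0‖ ^ 3 = ‖q 1 - q 0‖ ^ 3 := mul_left_cancel₀ hΩ (b2.trans b1.symm)
      exact (pow_left_inj₀ n2.le n1.le (by norm_num)).mp this
    have c3 : ‖q 2 - q 1‖ = ‖q 1 - q 0‖ := by
      have : ‖q 2 - q 1‖ ^ 3 = ‖q 1 - q 0‖ ^ 3 := mul_left_cancel₀ hΩ (b3.trans b1.symm)
      exact (pow_left_inj₀ n3.le n1.le (by norm_num)).mp this
    refine ⟨‖q 1 - q 0‖, n1, ?_, b1⟩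
    intro a b hab
    fin_cases a <;> fin_cases b
    · exact absurd rfl hab
    · exact e01
    · exact e02.trans c2
    · rfl
    · exact absurd rfl hab
    · exact e12.trans c3
    · exact c2
    · exact c3
    · exact absurd rfl hab

end Pool.Agent.MP_5027f4_cont
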