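import Pool.Agent.Lib_MP_5027f4_cont.GLin

/-!
PIECE [GEul] (MP_5027f4_mp, T1).  Collinear relative equilibria have a real eigenvalue.
-/

open Set Filter Topology Metric Polynomial
open scoped ComplexConjugate ContDiff
open Pool.Agent.MP_5027f4_mp

namespace Pool.Agent.MP_5027f4_cont

private theorem GEul_adj {X Y Z p q t W : ℝ} (hp : 0 < p) (hq : 0 < q) (ht : 0 < t) (hXY : X < Y)
    (hYZ : Y < Z)
    (e1 : q * (Y - X) / |Y - X| ^ 3 + t * (Z - X) / |Z - X| ^ 3 = -W * X)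
    (e2 : p * (X - Y) / |X - Y| ^ 3 + t * (Z - Y) / |Z - Y| ^ 3 = -W * Y)
    (e3 : p * (X - Z) / |X - Z| ^ 3 + q * (Y - Z) / |Y - Z| ^ 3 = -W * Z) :
    W < (p + q) / |Y - X| ^ 3 ∧ W < (q + t) / |Z - Y| ^ 3 := by
  have hA : 0 < Y - X := by linarith
  have hB : 0 < Z - Y := by linarith
  have hC : 0 < Z - X := by linarith
  rw [abs_of_pos hA, abs_of_pos hC] at e1
  rw [abs_sub_comm X Y, abs_of_pos hA, abs_of_pos hB] at e2
  rw [abs_sub_comm X Z, abs_sub_comm Y Z, abs_of_pos hC, abs_of_pos hB] at e3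
  rw [abs_of_pos hA, abs_of_pos hB]
  -- `1/r³` as variables
  have hca : (Y - X) / (Y - X) ^ 3 = 1 / (Y - X) ^ 2 := by field_simp
  have hcb : (Z - Y) / (Z - Y) ^ 3 = 1 / (Z - Y) ^ 2 := by field_simp
  have hcc : (Z - X) / (Z - X) ^ 3 = 1 / (Z - X) ^ 2 := by field_simp
  have e1' : q * (1 / (Y - X) ^ 2) + t * (1 / (Z - X) ^ 2) = -W * X := by
    rw [← hca, ← hcc]; rw [← e1]; ring
  have e2' : -(p * (1 / (Y - X) ^ 2)) + t * (1 / (Z - Y) ^ 2) = -W * Y := by
    rw [← hca, ← hcb]; rw [← e2]; ring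
  have e3' : -(p * (1 / (Z - X) ^ 2)) - q * (1 / (Z - Y) ^ 2) = -W * Z := by
    rw [← hcc, ← hcb]; rw [← e3]; ring
  have hlt1 : 1 / (Z - X) ^ 2 < 1 / (Z - Y) ^ 2 := by
    apply one_div_lt_one_div_of_lt (by positivity)
    nlinarith
  have hlt2 : 1 / (Z - X) ^ 2 < 1 / (Y - X) ^ 2 := by
    apply one_div_lt_one_div_of_lt (by positivity)
    nlinarith
  constructor
  · have h1 : W * (Y - X) < (p + q) * (1 / (Y - X) ^ 2) := by nlinarith
    rw [lt_div_iff₀ (by positivity)]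
    have h2 : W * (Y - X) * (Y - X) ^ 2 < (p + q) * (1 / (Y - X) ^ 2) * (Y - X) ^ 2 :=
      mul_lt_mul_of_pos_right h1 (by positivity)
    have h3 : (p + q) * (1 / (Y - X) ^ 2) * (Y - X) ^ 2 = p + q := by field_simp
    rw [h3] at h2
    calc W * (Y - X) ^ 3 = W * (Y - X) * (Y - X) ^ 2 := by ring
      _ < p + q := h2
  · have h1 : W * (Z - Y) < (q + t) * (1 / (Z - Y) ^ 2) := by nlinarith
    rw [lt_div_iff₀ (by positivity)]
    have h2 : W * (Z - Y) * (Z - Y) ^ 2 < (q + t) * (1 / (Z - Y) ^ 2) * (Z - Y) ^ 2 :=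
      mul_lt_mul_of_pos_right h1 (by positivity)
    have h3 : (q + t) * (1 / (Z - Y) ^ 2) * (Z - Y) ^ 2 = q + t := by field_simp
    rw [h3] at h2
    calc W * (Z - Y) ^ 3 = W * (Z - Y) * (Z - Y) ^ 2 := by ring
      _ < q + t := h2

private theorem GEul_nu {X Y Z p q t W : ℝ} (hp : 0 < p) (hq : 0 < q) (ht : 0 < t)
    (hXY : X ≠ Y) (hYZ : Y ≠ Z) (hXZ : X ≠ Z)
    (e1 : q * (Y - X) / |Y - X| ^ 3 + t * (Z - X) / |Z - X| ^ 3 = -W * X)
    (e2 : p * (X - Y) / |X - Y| ^ 3 + t * (Z - Y) / |Z - Y| ^ 3 = -W * Y)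
    (e3 : p * (X - Z) / |X - Z| ^ 3 + q * (Y - Z) / |Y - Z| ^ 3 = -W * Z) :
    2 * W < (p + q) / |Y - X| ^ 3 + (q + t) / |Z - Y| ^ 3 + (p + t) / |Z - X| ^ 3 := by
  have hA : 0 < |Y - X| := abs_pos.mpr (sub_ne_zero.mpr hXY.symm)
  have hB : 0 < |Z - Y| := abs_pos.mpr (sub_ne_zero.mpr hYZ.symm)
  have hC : 0 < |Z - X| := abs_pos.mpr (sub_ne_zero.mpr hXZ.symm)
  have pA : 0 < (p + q) / |Y - X| ^ 3 := by positivity
  have pB : 0 < (q + t) / |Z - Y| ^ 3 := by positivity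
  have pC : 0 < (p + t) / |Z - X| ^ 3 := by positivity
  rcases lt_or_gt_of_ne hXY with h1 | h1 <;> rcases lt_or_gt_of_ne hYZ with h2 | h2 <;>
    rcases lt_or_gt_of_ne hXZ with h3 | h3
  · -- X < Y < Z
    have := GEul_adj hp hq ht h1 h2 e1 e2 e3
    linarith [this.1, this.2]
  · exfalso; linarith
  · -- X < Z < Y
    have := GEul_adj (X := X) (Y := Z) (Z := Y) (W := W) hp ht hq h3 h2 (by linarith) (by linarith) (by linarith)
    rw [abs_sub_comm Y Z] at this
    have h4 := this.2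
    rw [add_comm t q] at h4
    linarith [this.1]
  · -- Z < X < Y
    have := GEul_adj (X := Z) (Y := X) (Z := Y) (W := W) ht hp hq h3 h1 (by linarith) (by linarith) (by linarith)
    rw [abs_sub_comm X Z] at this
    have h4 := this.1
    rw [add_comm t p] at h4
    linarith [this.2]
  · -- Y < X < Z
    have := GEul_adj (X := Y) (Y := X) (Z := Z) (W := W) hq hp ht h1 h3 (by linarith) (by linarith) (by linarith)
    rw [abs_sub_comm X Y] at this
    have h4 := this.1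
    rw [add_comm q p] at h4
    linarith [this.2]
  · -- Y < Z < X
    have := GEul_adj (X := Y) (Y := Z) (Z := X) (W := W) hq ht hp h2 h3 (by linarith) (by linarith) (by linarith)
    rw [abs_sub_comm X Z] at this
    have h4 := this.2
    rw [add_comm t p] at h4
    linarith [this.1]
  · exfalso; linarith
  · -- Z < Y < X
    have := GEul_adj (X := Z) (Y := Y) (Z := X) (W := W) ht hq hp h2 h1 (by linarith) (by linarith) (by linarith)
    rw [abs_sub_comm Y Z, abs_sub_comm X Y] at this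
    have h4 := this.1
    have h5 := this.2
    rw [add_comm t q] at h4
    rw [add_comm q p] at h5
    linarith

private theorem GEul_acc {m : Fin 3 → ℝ} {e : ℂ} (he : ‖e‖ = 1) {x : Fin 3 → ℝ} {q : Fin 3 → ℂ}
    (hx : ∀ a, q a = (x a : ℂ) * e) {W : ℝ} (h : ∀ a, acc m q a = -((W : ℝ) : ℂ) * q a)
    (a : Fin 3) : ∑ b, m b * (x b - x a) / |x b - x a| ^ 3 = -W * x a := by
  have he0 : e ≠ 0 := by
    intro h0
    rw [h0, norm_zero] at he
    exact zero_ne_one he
  have hn : ∀ b, ‖q b - q a‖ = |x b - x a| := by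
    intro b
    rw [hx, hx, ← sub_mul, norm_mul, he, mul_one, ← Complex.ofReal_sub, Complex.norm_real,
      Real.norm_eq_abs]
  have h1 := h a
  unfold acc at h1
  rw [Finset.sum_erase _ (by rw [sub_self, smul_zero])] at h1
  have h2 : ∑ b, (m b / ‖q b - q a‖ ^ 3) • (q b - q a) =
      ((∑ b, m b * (x b - x a) / |x b - x a| ^ 3 : ℝ) : ℂ) * e := by
    rw [Complex.ofReal_sum, Finset.sum_mul]
    refine Finset.sum_congr rfl fun b _ => ?_
    rw [hn, hx, hx, Complex.real_smul]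
    push_cast
    ring
  rw [h2, hx] at h1
  have h3 : ((∑ b, m b * (x b - x a) / |x b - x a| ^ 3 : ℝ) : ℂ) = ((-W * x a : ℝ) : ℂ) := by
    apply mul_right_cancel₀ he0
    rw [h1]
    push_cast
    ring
  exact_mod_cast h3

private theorem GEul_root {W ν : ℝ} (hW : 0 ≤ W) (hν : W < ν) :
    ∃ s : ℝ, 0 < s ∧ (s ^ 2 - W - 2 * ν) * (s ^ 2 - W + ν) + 4 * W * s ^ 2 = 0 := by
  let f : ℝ → ℝ := fun u => (u - W - 2 * ν) * (u - W + ν) + 4 * W * u
  have hf : Continuous f := by fun_prop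
  have h0 : f 0 < 0 := by
    simp only [f]
    nlinarith
  have h1 : 0 ≤ f (W + 2 * ν) := by
    simp only [f]
    have : (W + 2 * ν - W - 2 * ν) = 0 := by ring
    rw [this, zero_mul, zero_add]
    have : 0 ≤ W + 2 * ν := by linarith
    positivity
  have h2 : (0 : ℝ) ∈ f '' Icc 0 (W + 2 * ν) :=
    intermediate_value_Icc (by linarith) hf.continuousOn ⟨h0.le, h1⟩
  obtain ⟨u, hu, hu0⟩ := h2
  have hupos : 0 < u := by
    rcases hu.1.lt_or_eq with h | h
    · exact h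
    · exfalso
      rw [← h] at hu0
      linarith
  refine ⟨Real.sqrt u, Real.sqrt_pos.mpr hupos, ?_⟩
  rw [Real.sq_sqrt hupos.le]
  exact hu0


/-- Proof.  `q_a = x_a e`.  Let `L ξ a = Σ_{b ≠ a} m_b (ξ_b - ξ_a)/r_ab³` (real vectors),
`r_ab = |x_b - x_a|`; `L x = - Ω² x` (`IsRE.eqs`).  Put `η_0 = (x_1 - x_2)/m_0`,
`η_1 = (x_2 - x_0)/m_1`, `η_2 = (x_0 - x_1)/m_2`; `Σ m_a η_a = 0` and `L η = - ν η` with
`ν = Σ_{pairs} (m_a + m_b)/r_ab³ - Ω²` (direct computation using the three equations `L x = -Ω² x`,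
or: `L` is symmetric for the mass scalar product, has trace `- Σ (m_a + m_b)/r_ab³`, the
eigenvalues `0` on `(1,1,1)` and `- Ω²` on `x`, and `η` is orthogonal to both).
`ν > Ω²`: let `a, b, c` be the indices with `x_a < x_b < x_c`.  Subtracting the equations for `a` and
`b`: `Ω² r_ab = (m_a + m_b)/r_ab² + m_c (1/r_ac² - 1/r_bc²)`, so `(m_a + m_b)/r_ab³ > Ω²` as
`r_bc < r_ac`; in the same way `(m_b + m_c)/r_bc³ > Ω²`.
The vector `w = (Q, V)`, `Q_a = e (α + i β) η_a`, `V_a = e (α' + i β') η_a` with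
`V = s Q + i Ω Q`, is an eigenvector `Br w = s w` iff (for `Q = e (α + i β) η`)
`(s² - Ω² - 2 ν) α = 2 Ω s β`, `(s² - Ω² + ν) β = - 2 Ω s α`, i.e. (real `s`)
`s⁴ + (2 Ω² - ν) s² + (Ω² + 2 ν) (Ω² - ν) = 0`, which has a root `s² > 0` because the last
coefficient is negative.  (`D acc` acts on `e ξ`, `ξ` real, by `-2 e L ξ` and on `i e ξ` by `i e L ξ`.)
Take `w₁ = w`, `w₂ = 0`. -/
theorem euler_ev {m : Fin 3 → ℝ} (hm : ∀ a, 0 < m a) {Ω : ℝ} {y : comSub m} (h : IsRE m Ω y)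
    {e : ℂ} (he : ‖e‖ = 1) {x : Fin 3 → ℝ} (hx : ∀ a, (y : Ph).1 a = (x a : ℂ) * e) :
    ∃ s : ℝ, s ≠ 0 ∧ HasEv m Ω y (s : ℂ) := by
  obtain ⟨-, hacc⟩ := h.eqs
  have hre := GEul_acc he hx hacc
  have hnc : (y : Ph) ∈ noColl := h.1
  have he0 : e ≠ 0 := by
    intro h0
    rw [h0, norm_zero] at he
    exact zero_ne_one he
  have hne : ∀ a b, a ≠ b → x a ≠ x b := by
    intro a b hab hxx
    apply hnc a b hab
    rw [hx, hx, hxx]
  have h01 : x 0 ≠ x 1 := hne 0 1 (by decide)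
  have h12 : x 1 ≠ x 2 := hne 1 2 (by decide)
  have h02 : x 0 ≠ x 2 := hne 0 2 (by decide)
  have e0 := hre 0
  have e1 := hre 1
  have e2 := hre 2
  rw [Fin.sum_univ_three] at e0 e1 e2
  simp only [sub_self, mul_zero, zero_div, zero_add, add_zero] at e0 e1 e2
  have hm0 := hm 0
  have hm1 := hm 1
  have hm2 := hm 2
  set A : ℝ := |x 1 - x 0| ^ 3 with hA
  set B : ℝ := |x 2 - x 1| ^ 3 with hB
  set C : ℝ := |x 2 - x 0| ^ 3 with hC
  have hA' : |x 0 - x 1| ^ 3 = A := by rw [hA, abs_sub_comm]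
  have hB' : |x 1 - x 2| ^ 3 = B := by rw [hB, abs_sub_comm]
  have hC' : |x 0 - x 2| ^ 3 = C := by rw [hC, abs_sub_comm]
  have hApos : 0 < A := by
    rw [hA]; exact pow_pos (abs_pos.mpr (sub_ne_zero.mpr h01.symm)) 3
  have hBpos : 0 < B := by
    rw [hB]; exact pow_pos (abs_pos.mpr (sub_ne_zero.mpr h12.symm)) 3
  have hCpos : 0 < C := by
    rw [hC]; exact pow_pos (abs_pos.mpr (sub_ne_zero.mpr h02.symm)) 3
  have hνlt := GEul_nu hm0 hm1 hm2 h01 h12 h02 e0 e1 e2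
  rw [← hA, ← hB, ← hC] at hνlt
  set ν : ℝ := (m 0 + m 1) / A + (m 1 + m 2) / B + (m 0 + m 2) / C - Ω ^ 2 with hν
  obtain ⟨s, hs, hdet⟩ := GEul_root (sq_nonneg Ω) (by linarith : Ω ^ 2 < ν)
  refine ⟨s, hs.ne', ?_⟩
  rw [hA', ] at e1
  rw [hC', hB'] at e2
  -- the vector `η`
  let η : Fin 3 → ℝ := ![(x 1 - x 2) / m 0, (x 2 - x 0) / m 1, (x 0 - x 1) / m 2]
  have hη : ∀ a, ∑ b, m b * (η b - η a) / |x b - x a| ^ 3 = -ν * η a := by
    intro a
    rw [Fin.sum_univ_three]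
    fin_cases a
    · simp only [η, Fin.zero_eta, Matrix.cons_val_zero, Matrix.cons_val_one, Matrix.cons_val, sub_self,
        mul_zero, zero_div, zero_add]
      rw [← hA, ← hC, hν]
      field_simp at e0 e1 e2 ⊢
      linear_combination (-C) * e1 + A * e2
    · simp only [η, Fin.mk_one, Matrix.cons_val_zero, Matrix.cons_val_one, Matrix.cons_val, sub_self,
        mul_zero, zero_div, add_zero]
      rw [hA', ← hB, hν]
      field_simp at e0 e1 e2 ⊢
      linear_combination B * e0 - A * e2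
    · simp only [η, Fin.reduceFinMk, Matrix.cons_val_zero, Matrix.cons_val_one, Matrix.cons_val, sub_self,
        mul_zero, zero_div, add_zero]
      rw [hC', hB', hν]
      field_simp at e0 e1 e2 ⊢
      linear_combination (-B) * e0 + C * e1
  have hηm : ∑ a, m a * η a = 0 := by
    rw [Fin.sum_univ_three]
    simp only [η, Matrix.cons_val_zero, Matrix.cons_val_one, Matrix.cons_val]
    field_simp
    ring
  clear_value A B C ν
  -- the eigenvector
  obtain ⟨γ, hγre, hγeq⟩ : ∃ γ : ℂ, γ.re = s ^ 2 - Ω ^ 2 + ν ∧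
      γ = ((s ^ 2 - Ω ^ 2 + ν : ℝ) : ℂ) + ((-2 * Ω * s : ℝ) : ℂ) * Complex.I :=
    ⟨⟨s ^ 2 - Ω ^ 2 + ν, -2 * Ω * s⟩, rfl, Complex.mk_eq_add_mul_I _ _⟩
  have hγ : ((s : ℂ) + Ω * Complex.I) ^ 2 * γ = (ν : ℂ) * (3 * (γ.re : ℂ) - γ) := by
    rw [hγre, hγeq]
    have hdet' : ((s : ℂ) ^ 2 - Ω ^ 2 - 2 * ν) * (s ^ 2 - Ω ^ 2 + ν) + 4 * Ω ^ 2 * s ^ 2 = 0 := by
      exact_mod_cast hdet
    push_cast
    linear_combination (1 : ℂ) * hdet' + (-2 * s * Ω ^ 3 * Complex.I - 3 * s ^ 2 * Ω ^ 2 + Ω ^ 2 * ν - Ω ^ 4) * Complex.I_sq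
  have hγ0 : γ ≠ 0 := by
    intro h0
    rw [h0, Complex.zero_re] at hγre
    have : Ω ^ 2 < ν := by linarith
    have : 0 < s ^ 2 := by positivity
    linarith
  let Q : Fin 3 → ℂ := fun a => e * γ * (η a : ℂ)
  let V : Fin 3 → ℂ := fun a => ((s : ℂ) + Ω * Complex.I) * Q a
  have hQm : ∑ a, m a • Q a = 0 := by
    have h1 : ∑ a, m a • Q a = e * γ * ((∑ a, m a * η a : ℝ) : ℂ) := by
      rw [Complex.ofReal_sum, Finset.mul_sum]
      refine Finset.sum_congr rfl fun a _ => ?_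
      simp only [Q, Complex.real_smul]
      push_cast
      ring
    rw [h1, hηm]
    simp
  have hVm : ∑ a, m a • V a = 0 := by
    have h1 : ∑ a, m a • V a = ((s : ℂ) + Ω * Complex.I) * ∑ a, m a • Q a := by
      rw [Finset.mul_sum]
      refine Finset.sum_congr rfl fun a _ => ?_
      simp only [V]
      rw [mul_smul_comm]
    rw [h1, hQm, mul_zero]
  let w : comSub m := ⟨(Q, V), hQm, hVm⟩
  have hw : Br m Ω y w = s • w := by
    obtain ⟨hf1, hf2⟩ := fderiv_fld_apply hnc (w : Ph)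
    apply Subtype.ext
    unfold Br
    rw [Submodule.coe_sub, coe_fderiv_fld₀ h.1]
    refine Prod.ext ?_ ?_
    · funext a
      change (fderiv ℝ (fld m) (y : Ph) (w : Ph)).1 a - ((Ω : ℂ) * Complex.I) * Q a = s • Q a
      rw [hf1]
      change V a - ((Ω : ℂ) * Complex.I) * Q a = s • Q a
      simp only [V, Complex.real_smul]
      ring
    · funext a
      change (fderiv ℝ (fld m) (y : Ph) (w : Ph)).2 a - ((Ω : ℂ) * Complex.I) * V a = s • V a
      rw [hf2 a]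
      rw [Finset.sum_erase _ (by simp)]
      have hd : ∀ b, (y : Ph).1 b - (y : Ph).1 a = ((x b - x a : ℝ) : ℂ) * e := by
        intro b
        rw [hx, hx]; push_cast; ring
      have hn : ∀ b, ‖(y : Ph).1 b - (y : Ph).1 a‖ = |x b - x a| := by
        intro b
        rw [hd, norm_mul, he, mul_one, Complex.norm_real, Real.norm_eq_abs]
      have hee : conj e * e = 1 := by
        rw [← Complex.normSq_eq_conj_mul_self, Complex.normSq_eq_norm_sq, he]
        simp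
      have hterm : ∀ b, (m b : ℂ) * (((w : Ph).1 b - (w : Ph).1 a) / (‖(y : Ph).1 b - (y : Ph).1 a‖ : ℂ) ^ 3 -
          3 * (((conj ((y : Ph).1 b - (y : Ph).1 a) * ((w : Ph).1 b - (w : Ph).1 a)).re : ℝ) : ℂ) *
            ((y : Ph).1 b - (y : Ph).1 a) / (‖(y : Ph).1 b - (y : Ph).1 a‖ : ℂ) ^ 5) =
          e * (γ - 3 * (γ.re : ℂ)) * ((m b * (η b - η a) / |x b - x a| ^ 3 : ℝ) : ℂ) := by
        intro b
        rw [hn, hd]
        have h1 : (w : Ph).1 b - (w : Ph).1 a = ((η b - η a : ℝ) : ℂ) * (e * γ) := by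
          change e * γ * (η b : ℂ) - e * γ * (η a : ℂ) = _
          push_cast; ring
        rw [h1]
        have h2 : conj (((x b - x a : ℝ) : ℂ) * e) * (((η b - η a : ℝ) : ℂ) * (e * γ)) =
            (((x b - x a) * (η b - η a) : ℝ) : ℂ) * γ := by
          rw [map_mul, Complex.conj_ofReal]
          push_cast
          linear_combination ((x b : ℂ) - x a) * ((η b : ℂ) - η a) * γ * hee
        rw [h2, Complex.re_ofReal_mul]
        by_cases hba : b = a
        · subst hba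
          simp
        · have hxx : x b - x a ≠ 0 := sub_ne_zero.mpr (hne b a hba)
          have hab : |x b - x a| ≠ 0 := abs_ne_zero.mpr hxx
          have hsq : ((x b : ℂ) - x a) ^ 2 = ((|x b - x a| : ℝ) : ℂ) ^ 2 := by
            exact_mod_cast (sq_abs (x b - x a)).symm
          have hab' : ((|x b - x a| : ℝ) : ℂ) ≠ 0 := by exact_mod_cast hab
          push_cast
          field_simp
          linear_combination (-3 * (m b : ℂ) * (γ.re : ℂ) * ((η b : ℂ) - η a)) * hsq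
      rw [Finset.sum_congr rfl fun b _ => hterm b]
      rw [← Finset.mul_sum, ← Complex.ofReal_sum, hη a]
      simp only [V, Q, Complex.real_smul]
      push_cast
      linear_combination (-(e * (η a : ℂ))) * hγ
  have hw0 : w ≠ 0 := by
    intro h0
    have h1 : Q 0 = 0 := congrFun (congrArg (fun z : comSub m => (z : Ph).1) h0) 0
    simp only [Q] at h1
    have h2 : (η 0 : ℂ) ≠ 0 := by
      have h3 : η 0 ≠ 0 := by
        simp only [η, Matrix.cons_val_zero]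
        exact div_ne_zero (sub_ne_zero.mpr h12) hm0.ne'
      exact_mod_cast h3
    exact mul_ne_zero (mul_ne_zero he0 hγ0) h2 h1
  refine ⟨w, 0, Or.inl hw0, ?_, ?_⟩
  · rw [hw, smul_zero, sub_zero, Complex.ofReal_re]
  · rw [Complex.ofReal_im, zero_smul, zero_add, smul_zero]
    unfold Br
    rw [map_zero, smul_zero, sub_zero]

end Pool.Agent.MP_5027f4_cont
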