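import Pool.Agent.Lib_MP_5027f4_cont.HomDefs

/-!
PIECE [LinNFa] (MP_5027f4_mp, T1).  Invariant planes of a real map for complex eigenvalues.
-/

open Set Filter Topology Metric Polynomial Asymptotics
open scoped ComplexConjugate ContDiff

namespace Pool.Agent.MP_5027f4_cont

section LinNFa

variable {E : Type*} [NormedAddCommGroup E] [NormedSpace ℝ E] [FiniteDimensional ℝ E]

/-- the complex matrix of `A` in the basis `Module.finBasis` -/
private noncomputable def LinNFa_N (A : E →L[ℝ] E) :
    Matrix (Fin (Module.finrank ℝ E)) (Fin (Module.finrank ℝ E)) ℂ :=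
  (LinearMap.toMatrix (Module.finBasis ℝ E) (Module.finBasis ℝ E) (A : E →ₗ[ℝ] E)).map
    (algebraMap ℝ ℂ)

private theorem LinNFa_eval (A : E →L[ℝ] E) (l : ℂ) :
    ((cp A).map (algebraMap ℝ ℂ)).eval l = 0 ↔ ∃ v, v ≠ 0 ∧ (LinNFa_N A).mulVec v = l • v := by
  have h1 : (cp A).map (algebraMap ℝ ℂ) = (LinNFa_N A).charpoly := by
    unfold cp LinNFa_N
    rw [← LinearMap.charpoly_toMatrix (A : E →ₗ[ℝ] E) (Module.finBasis ℝ E)]
    exact (Matrix.charpoly_map _ _).symm
  rw [h1, Matrix.eval_charpoly, ← Matrix.exists_mulVec_eq_zero_iff]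
  refine exists_congr fun v => and_congr_right fun _ => ?_
  rw [Matrix.sub_mulVec, sub_eq_zero]
  have h2 : (Matrix.scalar (Fin (Module.finrank ℝ E)) l).mulVec v = l • v := by
    rw [Matrix.scalar_apply, ← Matrix.smul_one_eq_diagonal, Matrix.smul_mulVec, Matrix.one_mulVec]
  rw [h2]
  exact eq_comm

private theorem LinNFa_re (A : E →L[ℝ] E) (v : Fin (Module.finrank ℝ E) → ℂ)
    (i : Fin (Module.finrank ℝ E)) :
    ((LinNFa_N A).mulVec v i).re =
      (LinearMap.toMatrix (Module.finBasis ℝ E) (Module.finBasis ℝ E) (A : E →ₗ[ℝ] E)).mulVec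
        (fun j => (v j).re) i := by
  unfold LinNFa_N
  simp [Matrix.mulVec, dotProduct, Complex.re_sum, Complex.mul_re]

private theorem LinNFa_im (A : E →L[ℝ] E) (v : Fin (Module.finrank ℝ E) → ℂ)
    (i : Fin (Module.finrank ℝ E)) :
    ((LinNFa_N A).mulVec v i).im =
      (LinearMap.toMatrix (Module.finBasis ℝ E) (Module.finBasis ℝ E) (A : E →ₗ[ℝ] E)).mulVec
        (fun j => (v j).im) i := by
  unfold LinNFa_N
  simp [Matrix.mulVec, dotProduct, Complex.im_sum, Complex.mul_im]

end LinNFa

/-- A complex root `l` of the characteristic polynomial of a real map gives real vectors `x, y`, not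
both zero, with `A (x + i y) = l (x + i y)` formally.
Proof: `l` is an eigenvalue of the complex matrix `N = (toMatrix b b A).map ofReal`
(`Matrix.exists_mulVec_eq_zero_iff`, `det (l - N) = 0`); take real and imaginary parts of the
eigenvector. -/
theorem exists_plane {E : Type*} [NormedAddCommGroup E] [NormedSpace ℝ E]
    [FiniteDimensional ℝ E] (A : E →L[ℝ] E) {l : ℂ}
    (hl : ((cp A).map (algebraMap ℝ ℂ)).eval l = 0) :
    ∃ x y : E, (x ≠ 0 ∨ y ≠ 0) ∧ A x = l.re • x - l.im • y ∧ A y = l.im • x + l.re • y := by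
  obtain ⟨v, hv, hN⟩ := (LinNFa_eval A l).1 hl
  set b := Module.finBasis ℝ E with hb
  set x : E := b.equivFun.symm (fun j => (v j).re) with hx
  set y : E := b.equivFun.symm (fun j => (v j).im) with hy
  have hxr : ∀ j, b.repr x j = (v j).re := fun j => by
    have h := congrFun (b.equivFun.apply_symm_apply (fun j => (v j).re)) j
    rwa [Module.Basis.equivFun_apply] at h
  have hyr : ∀ j, b.repr y j = (v j).im := fun j => by
    have h := congrFun (b.equivFun.apply_symm_apply (fun j => (v j).im)) j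
    rwa [Module.Basis.equivFun_apply] at h
  have hxr' : (b.repr x : Fin (Module.finrank ℝ E) → ℝ) = fun j => (v j).re := funext hxr
  have hyr' : (b.repr y : Fin (Module.finrank ℝ E) → ℝ) = fun j => (v j).im := funext hyr
  have hAx : ∀ i, b.repr (A x) i = l.re * (v i).re - l.im * (v i).im := by
    intro i
    have h1 := LinNFa_re A v i
    rw [hN] at h1
    have h2 := congrFun (LinearMap.toMatrix_mulVec_repr b b (A : E →ₗ[ℝ] E) x) i
    rw [hxr'] at h2
    rw [← hb, h2] at h1
    refine h1.symm.trans ?_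
    simp
  have hAy : ∀ i, b.repr (A y) i = l.re * (v i).im + l.im * (v i).re := by
    intro i
    have h1 := LinNFa_im A v i
    rw [hN] at h1
    have h2 := congrFun (LinearMap.toMatrix_mulVec_repr b b (A : E →ₗ[ℝ] E) y) i
    rw [hyr'] at h2
    rw [← hb, h2] at h1
    refine h1.symm.trans ?_
    simp
  refine ⟨x, y, ?_, ?_, ?_⟩
  · by_contra hcon
    push Not at hcon
    apply hv
    funext j
    apply Complex.ext
    · rw [← hxr j, hcon.1]; simp
    · rw [← hyr j, hcon.2]; simp
  · apply b.ext_elem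
    intro i
    rw [hAx i]
    simp [hxr, hyr]
  · apply b.ext_elem
    intro i
    rw [hAy i]
    simp [hxr, hyr]
    ring

/-- Conversely. Proof: `x + i y` gives a nonzero vector in the kernel of `l - N`. -/
theorem root_of_plane {E : Type*} [NormedAddCommGroup E] [NormedSpace ℝ E]
    [FiniteDimensional ℝ E] (A : E →L[ℝ] E) {l : ℂ} {x y : E} (hxy : x ≠ 0 ∨ y ≠ 0)
    (hx : A x = l.re • x - l.im • y) (hy : A y = l.im • x + l.re • y) :
    ((cp A).map (algebraMap ℝ ℂ)).eval l = 0 := by
  rw [LinNFa_eval]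
  set b := Module.finBasis ℝ E with hb
  refine ⟨fun j => ⟨b.repr x j, b.repr y j⟩, ?_, ?_⟩
  · intro h
    have h1 : ∀ j, b.repr x j = 0 ∧ b.repr y j = 0 := fun j =>
      ⟨congrArg Complex.re (congrFun h j), congrArg Complex.im (congrFun h j)⟩
    rcases hxy with h2 | h2
    · exact h2 (b.ext_elem fun j => by rw [(h1 j).1]; simp)
    · exact h2 (b.ext_elem fun j => by rw [(h1 j).2]; simp)
  · funext i
    apply Complex.ext
    · rw [LinNFa_re, ← hb]
      have h2 := congrFun (LinearMap.toMatrix_mulVec_repr b b (A : E →ₗ[ℝ] E) x) i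
      have h3 : ((A : E →ₗ[ℝ] E) x) = l.re • x - l.im • y := hx
      rw [h3] at h2
      refine h2.trans ?_
      simp
    · rw [LinNFa_im, ← hb]
      have h2 := congrFun (LinearMap.toMatrix_mulVec_repr b b (A : E →ₗ[ℝ] E) y) i
      have h3 : ((A : E →ₗ[ℝ] E) y) = l.im • x + l.re • y := hy
      rw [h3] at h2
      refine h2.trans ?_
      simp
      ring

end Pool.Agent.MP_5027f4_cont
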