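import Pool.Agent.Lib_MP_5027f4_cont.GDefs
import Pool.Agent.Lib_MP_5027f4_cont.DJac
import Pool.Agent.Lib_MP_5027f4_cont.LinNFa

/-!
PIECE [GJac] (MP_5027f4_mp, T1).  Eigenvalues of the return map at relative equilibria.
-/

open Set Filter Topology Metric Polynomial
open scoped ComplexConjugate ContDiff
open Pool.Agent.MP_5027f4_mp

namespace Pool.Agent.MP_5027f4_cont

variable {m : Fin 3 → ℝ} {S T Ω : ℝ} {X₀ X₁ : Up} {Φ : ℝ × comSub m → comSub m} {u s : ℂ}

theorem gjac_norm (Ω t : ℝ) : ‖Complex.exp (t * Ω * Complex.I)‖ = 1 := by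
  have : (t : ℂ) * Ω * Complex.I = ((t * Ω : ℝ) : ℂ) * Complex.I := by push_cast; ring
  rw [this, Complex.norm_exp_ofReal_mul_I]

theorem gjac_deriv (Ω t : ℝ) : HasDerivAt (fun t : ℝ => Complex.exp (t * Ω * Complex.I))
    (Complex.exp (t * Ω * Complex.I) * (Ω * Complex.I)) t := by
  have h1 : HasDerivAt (fun t : ℝ => (t : ℂ) * Ω * Complex.I) (Ω * Complex.I) t := by
    have h2 : HasDerivAt (fun t : ℝ => (t : ℂ)) 1 t := Complex.ofRealCLM.hasDerivAt
    have h3 := (h2.mul_const (Ω : ℂ)).mul_const Complex.I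
    simpa using h3
  exact h1.cexp

/-- the solution is the rotation -/
theorem IsRE.solves {y : comSub m} (h : IsRE m Ω y) :
    Solves (fld m) (frame m) univ (fun t => Complex.exp (t * Ω * Complex.I) • (y : Ph)) := by
  intro t _
  refine ⟨frame_rot (gjac_norm Ω t) (frame_of_mem h.1), ?_⟩
  have h1 : fld m (y : Ph) = ((Ω : ℂ) * Complex.I) • (y : Ph) := congrArg Subtype.val h.2
  change HasDerivWithinAt (fun t : ℝ => Complex.exp (t * Ω * Complex.I) • (y : Ph))
    (fld m (Complex.exp (t * Ω * Complex.I) • (y : Ph))) univ t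
  rw [fld_rot (gjac_norm Ω t), h1, smul_smul]
  exact ((gjac_deriv Ω t).smul_const (y : Ph)).hasDerivWithinAt

theorem gjac_rot {e : ℂ} (he : ‖e‖ = 1) (z : comSub m) : fld₀ m (e • z) = e • fld₀ m z :=
  Subtype.ext (fld_rot he (z : Ph))

theorem gjac_noColl {e : ℂ} (he : ‖e‖ = 1) {z : comSub m} (hz : z ∈ noColl₀ m) :
    e • z ∈ noColl₀ m :=
  (frame_rot he (frame_of_mem hz)).1

/-- multiplication by a complex number as a real continuous linear map -/
noncomputable def gjac_L (m : Fin 3 → ℝ) (e : ℂ) : comSub m →L[ℝ] comSub m :=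
  LinearMap.toContinuousLinearMap
    { toFun := fun w => e • w
      map_add' := fun a b => smul_add e a b
      map_smul' := fun r w => smul_comm e r w }

theorem gjac_L_apply (e : ℂ) (w : comSub m) : gjac_L m e w = e • w := rfl

theorem gjac_fderiv {e : ℂ} (he : ‖e‖ = 1) {z : comSub m} (hz : z ∈ noColl₀ m) (w : comSub m) :
    fderiv ℝ (fld₀ m) (e • z) (e • w) = e • fderiv ℝ (fld₀ m) z w := by
  have hd : ∀ z ∈ noColl₀ m, HasFDerivAt (fld₀ m) (fderiv ℝ (fld₀ m) z) z := fun z hz =>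
    (((contDiffOn_fld₀ m).contDiffAt ((isOpen_noColl₀ m).mem_nhds hz)).differentiableAt
      (by norm_num)).hasFDerivAt
  have h1 : HasFDerivAt (fun p => fld₀ m (gjac_L m e p))
      ((fderiv ℝ (fld₀ m) (e • z)).comp (gjac_L m e)) z :=
    (hd (e • z) (gjac_noColl he hz)).comp z (gjac_L m e).hasFDerivAt
  have h2 : HasFDerivAt (fun p => gjac_L m e (fld₀ m p))
      ((gjac_L m e).comp (fderiv ℝ (fld₀ m) z)) z :=
    (gjac_L m e).hasFDerivAt.comp z (hd z hz)
  have h3 : (fun p => fld₀ m (gjac_L m e p)) = fun p => gjac_L m e (fld₀ m p) := by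
    funext p
    exact gjac_rot he p
  rw [h3] at h1
  have h4 := congrArg (fun B : comSub m →L[ℝ] comSub m => B w) (h1.unique h2)
  exact h4

theorem gjac_jacobi {y w₁ w₂ : comSub m} (h : IsRE m Ω y)
    (h1 : Br m Ω y w₁ = s.re • w₁ - s.im • w₂) (h2 : Br m Ω y w₂ = s.im • w₁ + s.re • w₂)
    {a b : ℝ → ℝ} (ha : ∀ t, HasDerivAt a (s.re * a t + s.im * b t) t)
    (hb : ∀ t, HasDerivAt b (s.re * b t - s.im * a t) t) (T : ℝ) :
    IsJacobi m (fun t => Complex.exp (t * Ω * Complex.I) • (y : Ph)) T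
      (fun t => ((Complex.exp (t * Ω * Complex.I) • (a t • w₁ + b t • w₂) : comSub m) : Ph)) := by
  intro t _
  refine ⟨(Complex.exp (t * Ω * Complex.I) • (a t • w₁ + b t • w₂) : comSub m).2.1,
    (Complex.exp (t * Ω * Complex.I) • (a t • w₁ + b t • w₂) : comSub m).2.2, ?_⟩
  have hd : HasDerivAt (fun t : ℝ => (Complex.exp (t * Ω * Complex.I) • (a t • w₁ + b t • w₂) : comSub m))
      (fderiv ℝ (fld₀ m) (Complex.exp (t * Ω * Complex.I) • y)
        (Complex.exp (t * Ω * Complex.I) • (a t • w₁ + b t • w₂))) t := by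
    have e1 : HasDerivAt (fun t : ℝ => (a t • w₁ + b t • w₂ : comSub m))
        ((s.re * a t + s.im * b t) • w₁ + (s.re * b t - s.im * a t) • w₂) t :=
      ((ha t).smul_const w₁).add ((hb t).smul_const w₂)
    have e2 := (gjac_deriv Ω t).smul e1
    refine e2.congr_deriv ?_
    rw [gjac_fderiv (gjac_norm Ω t) h.1]
    have e3 : fderiv ℝ (fld₀ m) y w₁ = s.re • w₁ - s.im • w₂ + ((Ω : ℂ) * Complex.I) • w₁ := by
      rw [← h1, Br, sub_add_cancel]
    have e4 : fderiv ℝ (fld₀ m) y w₂ = s.im • w₁ + s.re • w₂ + ((Ω : ℂ) * Complex.I) • w₂ := by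
      rw [← h2, Br, sub_add_cancel]
    rw [map_add, map_smul, map_smul, e3, e4, mul_smul, ← smul_add]
    congr 1
    rw [smul_add (a t), smul_add (b t), smul_comm (a t) ((Ω : ℂ) * Complex.I) w₁,
      smul_comm (b t) ((Ω : ℂ) * Complex.I) w₂, smul_add ((Ω : ℂ) * Complex.I)]
    module
  have h3 := (incl m).hasFDerivAt.comp_hasDerivAt t hd
  have h4 := coe_fderiv_fld₀ (gjac_noColl (gjac_norm Ω t) h.1)
    (Complex.exp (t * Ω * Complex.I) • (a t • w₁ + b t • w₂) : comSub m)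
  refine (h3.congr_deriv ?_).hasDerivWithinAt
  exact h4

theorem gjac_E (s : ℂ) (t : ℝ) : HasDerivAt (fun t : ℝ => (Complex.exp (s * t)).re)
    (s.re * (Complex.exp (s * t)).re - s.im * (Complex.exp (s * t)).im) t ∧
    HasDerivAt (fun t : ℝ => (Complex.exp (s * t)).im)
    (s.re * (Complex.exp (s * t)).im + s.im * (Complex.exp (s * t)).re) t := by
  have h1 : HasDerivAt (fun t : ℝ => Complex.exp (s * t)) (Complex.exp (s * t) * s) t := by
    have h2 : HasDerivAt (fun t : ℝ => (t : ℂ)) 1 t := Complex.ofRealCLM.hasDerivAt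
    have h3 := h2.const_mul s
    rw [mul_one] at h3
    exact h3.cexp
  constructor
  · have h2 := Complex.reCLM.hasFDerivAt.comp_hasDerivAt t h1
    refine h2.congr_deriv ?_
    rw [Complex.reCLM_apply, Complex.mul_re]
    ring
  · have h2 := Complex.imCLM.hasFDerivAt.comp_hasDerivAt t h1
    refine h2.congr_deriv ?_
    rw [Complex.imCLM_apply, Complex.mul_im]
    ring

/-- Proof.  `y₀ = pE m X₀`.  The classical solution is `exp (i Ω t) • y₀` (`IsRE.solves`), so
`pE m X₁ = exp (i Ω T) • y₀` (`LM.classical` at the base point) and `u = exp (i Ω T)` because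
`y₀ ≠ 0`.  With `w₁, w₂` from `hev` and `E t = exp (s t)` (complex),
`J₁ t = exp (i Ω t) • ((E t).re • w₁ - (E t).im • w₂)`,
`J₂ t = exp (i Ω t) • ((E t).im • w₁ + (E t).re • w₂)` are Jacobi fields (`D fld (e • y) (e • w) =
e • D fld y w` for `‖e‖ = 1`, derivative of `fld_rot`; `coe_fderiv_fld₀`).  By `LM.jacobi`
`fderiv (ret Φ T u) y₀ w₁ = u⁻¹ • J₁ T = l.re • w₁ - l.im • w₂`, the same for `w₂`, `l = exp (s T)`;
`root_of_plane`. -/
theorem root_of_ev (hm : ∀ a, 0 < m a) (hT : 0 < T) (hu : ‖u‖ = 1) (hΦ : LM m T S X₀ X₁ Φ)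
    (hend : pE m X₁ = u • pE m X₀) (hre : IsRE m Ω (pE m X₀)) (hev : HasEv m Ω (pE m X₀) s) :
    ((cp (fderiv ℝ (ret Φ T u) (pE m X₀))).map (algebraMap ℝ ℂ)).eval (Complex.exp (s * T)) =
      0 := by
  have hu0 : u ≠ 0 := by
    rw [← norm_ne_zero_iff, hu]
    exact one_ne_zero
  have hy : Solves (fld m) (frame m) (Icc 0 T)
      (fun t => Complex.exp (t * Ω * Complex.I) • ((pE m X₀ : comSub m) : Ph)) := by
    intro t ht
    exact ⟨(hre.solves t (mem_univ t)).1, ((hre.solves t (mem_univ t)).2).mono (subset_univ _)⟩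
  have he0 : Complex.exp (((0 : ℝ) : ℂ) * Ω * Complex.I) = 1 := by simp
  have hX : ((pE m X₀ : comSub m) : Ph) =
      (fun t : ℝ => Complex.exp (t * Ω * Complex.I) • ((pE m X₀ : comSub m) : Ph)) 0 := by
    simp only [he0, one_smul]
  have hTmem : T ∈ Icc 0 T := ⟨hT.le, le_rfl⟩
  -- the rotation
  have hue : u = Complex.exp (T * Ω * Complex.I) := by
    obtain ⟨z, hz, hz0, hzT⟩ := (LM.classical hm hT hy hΦ hX).self_of_nhds
    have h1 : Solves (fld m) noColl (Icc 0 T) z := fun t ht => ⟨(hz t ht).1.1, (hz t ht).2⟩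
    have h2 : Solves (fld m) noColl (Icc 0 T)
        (fun t => Complex.exp (t * Ω * Complex.I) • ((pE m X₀ : comSub m) : Ph)) :=
      fun t ht => ⟨(hy t ht).1.1, (hy t ht).2⟩
    have h3 : z T = Complex.exp (T * Ω * Complex.I) • ((pE m X₀ : comSub m) : Ph) :=
      h1.eqOn_of_eq isOpen_noColl (contDiffOn_fld m) h2 (hz0.trans hX) hTmem
    have h4 : z T = ((u • pE m X₀ : comSub m) : Ph) := by
      have h5 : z T = ((Φ (T, pE m X₀) : comSub m) : Ph) := hzT
      rw [h5, hΦ.base, hend]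
    have h5 : u • ((pE m X₀ : comSub m) : Ph) =
        Complex.exp (T * Ω * Complex.I) • ((pE m X₀ : comSub m) : Ph) := by
      exact h4.symm.trans h3
    have h6 : ((pE m X₀ : comSub m) : Ph) ≠ 0 := by
      intro h7
      have h8 := hre.1 (0 : Fin 3) 1 (by decide)
      rw [h7] at h8
      exact h8 rfl
    have h7 : (u - Complex.exp (T * Ω * Complex.I)) • ((pE m X₀ : comSub m) : Ph) = 0 := by
      rw [sub_smul, h5, sub_self]
    exact sub_eq_zero.1 ((smul_eq_zero.1 h7).resolve_right h6)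
  obtain ⟨w₁, w₂, hw, hw1, hw2⟩ := hev
  -- derivative of the return map
  have hd2 : HasFDerivAt (fun p => Φ (T, p)) ((fderiv ℝ Φ (T, pE m X₀)).comp
      (ContinuousLinearMap.inr ℝ ℝ (comSub m))) (pE m X₀) := by
    have h1 : HasFDerivAt (fun p : comSub m => ((T, p) : ℝ × comSub m))
        (ContinuousLinearMap.inr ℝ ℝ (comSub m)) (pE m X₀) :=
      hasFDerivAt_prodMk_right T (pE m X₀)
    exact hΦ.an.differentiableAt.hasFDerivAt.comp (pE m X₀) h1
  have hd3 : HasFDerivAt (ret Φ T u) (u⁻¹ • ((fderiv ℝ Φ (T, pE m X₀)).comp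
      (ContinuousLinearMap.inr ℝ ℝ (comSub m)))) (pE m X₀) := hd2.const_smul u⁻¹
  have key : ∀ {a b : ℝ → ℝ}, (∀ t, HasDerivAt a (s.re * a t + s.im * b t) t) →
      (∀ t, HasDerivAt b (s.re * b t - s.im * a t) t) → ∀ w : comSub m,
      a 0 • w₁ + b 0 • w₂ = w →
      fderiv ℝ (ret Φ T u) (pE m X₀) w = a T • w₁ + b T • w₂ := by
    intro a b ha hb w hw0
    have h1 := gjac_jacobi hre hw1 hw2 ha hb T
    have h00 : (fun t : ℝ => ((Complex.exp (t * Ω * Complex.I) • (a t • w₁ + b t • w₂) :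
        comSub m) : Ph)) 0 = (w : Ph) := by
      simp only [he0, one_smul, hw0]
    have hmem : (fun t : ℝ => ((Complex.exp (t * Ω * Complex.I) • (a t • w₁ + b t • w₂) :
        comSub m) : Ph)) 0 ∈ comSub m := by
      rw [h00]
      exact w.2
    have h2 := LM.jacobi hm hT hy hΦ hX h1 hmem
    have h3 : (⟨_, hmem⟩ : comSub m) = w := Subtype.ext h00
    rw [h3] at h2
    rw [hd3.fderiv]
    show u⁻¹ • fderiv ℝ Φ (T, pE m X₀) (0, w) = _
    have h4 : fderiv ℝ Φ (T, pE m X₀) (0, w) =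
        Complex.exp (T * Ω * Complex.I) • (a T • w₁ + b T • w₂) := Subtype.ext h2
    rw [h4, ← hue, smul_smul, inv_mul_cancel₀ hu0, one_smul]
  have k1 := key (a := fun t => (Complex.exp (s * t)).re) (b := fun t => -(Complex.exp (s * t)).im)
    (fun t => (gjac_E s t).1.congr_deriv (by ring))
    (fun t => (gjac_E s t).2.neg.congr_deriv (by ring)) w₁ (by simp)
  have k2 := key (a := fun t => (Complex.exp (s * t)).im) (b := fun t => (Complex.exp (s * t)).re)
    (fun t => (gjac_E s t).2.congr_deriv (by ring))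
    (fun t => (gjac_E s t).1.congr_deriv (by ring)) w₂ (by simp)
  refine root_of_plane _ hw ?_ k2
  rw [k1]
  module

end Pool.Agent.MP_5027f4_cont
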