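import Pool.Agent.Lib_MP_5027f4_cont.GLin

/-!
PIECE [GLag] (MP_5027f4_mp, T1).  Equilateral relative equilibria: eigenvalues of the shape mode.
-/

open Set Filter Topology Metric Polynomial
open scoped ComplexConjugate ContDiff
open Pool.Agent.MP_5027f4_mp

namespace Pool.Agent.MP_5027f4_cont

variable {m : Fin 3 → ℝ}

/-- the functional -/
private noncomputable def gL (θ : ℂ) (Q : Fin 3 → ℂ) : ℂ :=
  (Q 2 - Q 1) + θ * (Q 0 - Q 2) + θ ^ 2 * (Q 1 - Q 0)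

private theorem gL_sub (θ : ℂ) (Q Q' : Fin 3 → ℂ) : gL θ (Q - Q') = gL θ Q - gL θ Q' := by
  simp only [gL, Pi.sub_apply]; ring

private theorem gL_add (θ : ℂ) (Q Q' : Fin 3 → ℂ) : gL θ (Q + Q') = gL θ Q + gL θ Q' := by
  simp only [gL, Pi.add_apply]; ring

private theorem gL_smul (θ c : ℂ) (Q : Fin 3 → ℂ) : gL θ (c • Q) = c * gL θ Q := by
  simp only [gL, Pi.smul_apply, smul_eq_mul]; ring

private theorem gL_rsmul (θ : ℂ) (c : ℝ) (Q : Fin 3 → ℂ) : gL θ (c • Q) = (c : ℂ) * gL θ Q := by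
  simp only [gL, Pi.smul_apply, Complex.real_smul]; ring

private theorem Br_add (Ω : ℝ) (y w w' : comSub m) : Br m Ω y (w + w') = Br m Ω y w + Br m Ω y w' := by
  unfold Br
  rw [map_add, smul_add]
  abel

private theorem Br_smul (Ω : ℝ) (y : comSub m) (c : ℝ) (w : comSub m) :
    Br m Ω y (c • w) = c • Br m Ω y w := by
  unfold Br
  rw [map_smul, smul_sub, smul_comm]

private theorem Br_coe {Ω : ℝ} {y : comSub m} (h : y ∈ noColl₀ m) (w : comSub m) :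
    ((Br m Ω y w : comSub m) : Ph) = fderiv ℝ (fld m) (y : Ph) (w : Ph) -
      ((Ω : ℂ) * Complex.I) • (w : Ph) := by
  unfold Br
  rw [Submodule.coe_sub, coe_fderiv_fld₀ h]
  rfl

/-- the operator `Br - s` on pairs -/
private noncomputable def gT (m : Fin 3 → ℝ) (Ω : ℝ) (y : comSub m) (s : ℂ) :
    (comSub m × comSub m) →ₗ[ℝ] (comSub m × comSub m) where
  toFun w := (Br m Ω y w.1 - s.re • w.1 + s.im • w.2, Br m Ω y w.2 - s.im • w.1 - s.re • w.2)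
  map_add' w w' := by
    refine Prod.ext ?_ ?_
    · simp only [Prod.fst_add, Prod.snd_add, Br_add, smul_add]
      abel
    · simp only [Prod.fst_add, Prod.snd_add, Br_add, smul_add]
      abel
  map_smul' c w := by
    refine Prod.ext ?_ ?_
    · simp only [Prod.smul_fst, Prod.smul_snd, Br_smul, RingHom.id_apply, smul_add, smul_sub]
      rw [smul_comm s.re c, smul_comm s.im c]
    · simp only [Prod.smul_fst, Prod.smul_snd, Br_smul, RingHom.id_apply, smul_sub]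
      rw [smul_comm s.re c, smul_comm s.im c]

private theorem hasEv_of_not_surj {Ω : ℝ} {y : comSub m} {s : ℂ}
    (h : ¬ Function.Surjective (gT m Ω y s)) : HasEv m Ω y s := by
  rw [← LinearMap.injective_iff_surjective, ← LinearMap.ker_eq_bot, Submodule.eq_bot_iff] at h
  push Not at h
  obtain ⟨⟨w₁, w₂⟩, hw, hne⟩ := h
  rw [LinearMap.mem_ker] at hw
  have h1 : Br m Ω y w₁ - s.re • w₁ + s.im • w₂ = 0 := congrArg Prod.fst hw
  have h2 : Br m Ω y w₂ - s.im • w₁ - s.re • w₂ = 0 := congrArg Prod.snd hw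
  refine ⟨w₁, w₂, ?_, ?_, ?_⟩
  · by_contra hcon
    push Not at hcon
    apply hne
    rw [hcon.1, hcon.2]
    rfl
  · rw [← sub_eq_zero, ← h1]
    abel
  · rw [← sub_eq_zero, ← h2]
    abel

private theorem gL_surj (hM : 0 < MM m) {θ : ℂ} (hθ : θ ^ 2 + θ + 1 = 0) (l : ℂ) :
    ∃ w : comSub m, (w : Ph).1 = 0 ∧ gL θ (w : Ph).2 = l := by
  have hθ0 : θ - θ ^ 2 ≠ 0 := by
    intro h0
    have h1 : (3 : ℂ) = 0 := by
      linear_combination (3 - 2 * θ) * hθ - (1 + 2 * θ) * h0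
    norm_num at h1
  have hMc : (MM m : ℂ) ≠ 0 := by exact_mod_cast hM.ne'
  let c : ℂ := l / (θ - θ ^ 2)
  let V : Fin 3 → ℂ := ![c - m 0 * c / MM m, - (m 0 * c / MM m), - (m 0 * c / MM m)]
  have hV : ∑ a, m a • V a = 0 := by
    rw [Fin.sum_univ_three]
    simp only [V, Complex.real_smul, Matrix.cons_val_zero, Matrix.cons_val_one, Matrix.cons_val]
    field_simp
    unfold MM
    push_cast
    ring
  refine ⟨⟨(0, V), by simp, hV⟩, rfl, ?_⟩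
  change gL θ V = l
  simp only [gL, V, Matrix.cons_val_zero, Matrix.cons_val_one, Matrix.cons_val]
  have h1 : c * (θ - θ ^ 2) = l := div_mul_cancel₀ _ hθ0
  rw [← h1]
  ring

private theorem exists_theta {z0 z1 z2 : ℂ} {r : ℝ} (hr : 0 < r) (h0 : ‖z0‖ = r) (h1 : ‖z1‖ = r)
    (h2 : ‖z2‖ = r) (hz : z0 + z1 + z2 = 0) :
    ∃ θ : ℂ, θ ^ 2 + θ + 1 = 0 ∧ conj θ = θ ^ 2 ∧ z1 = θ * z0 ∧ z2 = θ ^ 2 * z0 := by
  have hz0 : z0 ≠ 0 := by
    rw [← norm_ne_zero_iff, h0]; exact hr.ne'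
  have hn : ∀ z : ℂ, ‖z‖ = r → conj z * z = (r : ℂ) ^ 2 := by
    intro z hzr
    rw [← Complex.normSq_eq_conj_mul_self, Complex.normSq_eq_norm_sq, hzr]
    push_cast
    rfl
  obtain ⟨θ, hθ⟩ : ∃ θ : ℂ, z1 = θ * z0 := ⟨z1 / z0, (div_mul_cancel₀ _ hz0).symm⟩
  have h2' : z2 = (-1 - θ) * z0 := by
    rw [hθ] at hz
    linear_combination hz
  have e0 := hn z0 h0
  have e1 := hn z1 h1
  have e2 := hn z2 h2
  have hrc : (r : ℂ) ^ 2 ≠ 0 := by
    exact_mod_cast (pow_pos hr 2).ne'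
  rw [hθ, map_mul] at e1
  rw [h2', map_mul, map_sub, map_neg, map_one] at e2
  have f1 : conj θ * θ = 1 := by
    apply mul_right_cancel₀ hrc
    rw [one_mul]
    nth_rewrite 2 [← e1]
    rw [← e0]
    ring
  have f2 : (-1 - conj θ) * (-1 - θ) = 1 := by
    apply mul_right_cancel₀ hrc
    rw [one_mul]
    nth_rewrite 2 [← e2]
    rw [← e0]
    ring
  have f3 : conj θ = -1 - θ := by linear_combination f2 - f1
  have f4 : θ ^ 2 + θ + 1 = 0 := by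
    rw [f3] at f1
    linear_combination -f1
  refine ⟨θ, f4, ?_, hθ, ?_⟩
  · rw [f3]; linear_combination -f4
  · rw [h2']; linear_combination (-z0) * f4

private theorem force_term {d δ : ℂ} {r : ℝ} (hr : 0 < r) (hd : ‖d‖ = r) :
    δ / (‖d‖ : ℂ) ^ 3 - 3 * (((conj d * δ).re : ℝ) : ℂ) * d / (‖d‖ : ℂ) ^ 5 =
      -(1 / (2 * (r : ℂ) ^ 3)) * δ - (3 / (2 * (r : ℂ) ^ 5)) * (d ^ 2 * conj δ) := by
  have h1 : (((conj d * δ).re : ℝ) : ℂ) = (conj d * δ + d * conj δ) / 2 := by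
    rw [Complex.re_eq_add_conj, map_mul, Complex.conj_conj]
  have h2 : conj d * d = (r : ℂ) ^ 2 := by
    rw [← Complex.normSq_eq_conj_mul_self, Complex.normSq_eq_norm_sq, hd]
    push_cast
    rfl
  have hrc : (r : ℂ) ≠ 0 := by exact_mod_cast hr.ne'
  rw [h1, hd]
  field_simp
  linear_combination (-3 * δ) * h2

private theorem gL_force {Ω : ℝ} {y : comSub m}
    (h : IsRE m Ω y) {r : ℝ} (hr : 0 < r)
    (heq : ∀ a b, a ≠ b → ‖(y : Ph).1 a - (y : Ph).1 b‖ = r)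
    {θ z : ℂ} (hθ : θ ^ 2 + θ + 1 = 0) (hc : conj θ = θ ^ 2)
    (hz0 : (y : Ph).1 2 - (y : Ph).1 1 = z) (hz1 : (y : Ph).1 0 - (y : Ph).1 2 = θ * z)
    (hz2 : (y : Ph).1 1 - (y : Ph).1 0 = θ ^ 2 * z) (w : comSub m) :
    gL θ (fderiv ℝ (fld m) (y : Ph) (w : Ph)).2 = (MM m : ℂ) / (2 * (r : ℂ) ^ 3) * gL θ (w : Ph).1 -
      3 * (m 0 + θ * m 1 + θ ^ 2 * m 2) * z ^ 2 / (2 * (r : ℂ) ^ 5) * conj (gL θ (w : Ph).1) := by
  obtain ⟨-, hf2⟩ := fderiv_fld_apply (m := m) h.1 (w : Ph)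
  have hw := w.2.1
  rw [Fin.sum_univ_three] at hw
  simp only [Complex.real_smul] at hw
  set Q : Fin 3 → ℂ := (w : Ph).1 with hQ
  set q : Fin 3 → ℂ := (y : Ph).1 with hq
  have hf : ∀ a, (fderiv ℝ (fld m) (y : Ph) (w : Ph)).2 a =
      ∑ b, (m b : ℂ) * (-(1 / (2 * (r : ℂ) ^ 3)) * (Q b - Q a) -
        (3 / (2 * (r : ℂ) ^ 5)) * ((q b - q a) ^ 2 * conj (Q b - Q a))) := by
    intro a
    rw [hf2 a, ← Finset.sum_erase (s := Finset.univ) (a := a) (f := fun b => (m b : ℂ) *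
      (-(1 / (2 * (r : ℂ) ^ 3)) * (Q b - Q a) -
        (3 / (2 * (r : ℂ) ^ 5)) * ((q b - q a) ^ 2 * conj (Q b - Q a)))) (by simp)]
    refine Finset.sum_congr rfl fun b hb => ?_
    rw [force_term hr (heq b a (Finset.ne_of_mem_erase hb))]
  have hq20 : q 2 - q 0 = -(θ * z) := by rw [← hz1]; ring
  have hq12 : q 1 - q 2 = -z := by rw [← hz0]; ring
  have hq01 : q 0 - q 1 = -(θ ^ 2 * z) := by rw [← hz2]; ring
  have hL : conj (gL θ Q) = (conj (Q 2) - conj (Q 1)) + θ ^ 2 * (conj (Q 0) - conj (Q 2)) +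
      θ * (conj (Q 1) - conj (Q 0)) := by
    simp only [gL, map_add, map_sub, map_mul, map_pow, hc]
    linear_combination ((conj (Q 1) - conj (Q 0)) * (θ ^ 2 - θ)) * hθ
  rw [hL]
  unfold gL
  rw [hf 0, hf 1, hf 2]
  simp only [Fin.sum_univ_three, sub_self, hz0, hz1, hz2, hq20, hq12, hq01, map_sub, mul_zero,
    zero_add, add_zero]
  have hrc : (r : ℂ) ≠ 0 := by exact_mod_cast hr.ne'
  unfold MM
  push_cast
  generalize hA : (1 / (2 * (r : ℂ) ^ 3)) = A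
  generalize hB : (3 / (2 * (r : ℂ) ^ 5)) = B
  have hA' : ((m 0 : ℂ) + m 1 + m 2) / (2 * (r : ℂ) ^ 3) = (m 0 + m 1 + m 2) * A := by
    rw [← hA]; ring
  have hB' : 3 * ((m 0 : ℂ) + θ * m 1 + θ ^ 2 * m 2) * z ^ 2 / (2 * (r : ℂ) ^ 5) =
      B * (m 0 + θ * m 1 + θ ^ 2 * m 2) * z ^ 2 := by
    rw [← hB]; ring
  rw [hA', hB']
  generalize conj (Q 0) = c0
  generalize conj (Q 1) = c1
  generalize conj (Q 2) = c2
  have h3 : θ ^ 3 = 1 := by linear_combination (θ - 1) * hθ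
  linear_combination (B * z ^ 2 * (m 0 * ((θ - θ ^ 3) * c0 + (-θ + θ ^ 3 + 1) * c1 - c2) +
    m 1 * ((θ ^ 2 - θ ^ 3) * c0 + (-θ ^ 2 + θ ^ 3 + 1) * c1 - c2) + m 2 * (c1 - c2))) * h3

private theorem gL_const (θ c : ℂ) (Q : Fin 3 → ℂ) : gL θ (fun a => Q a + c) = gL θ Q := by
  simp only [gL]; ring

private theorem omega_eq {Ω : ℝ} {y : comSub m}
    (h : IsRE m Ω y) {r : ℝ} (hr : 0 < r)
    (heq : ∀ a b, a ≠ b → ‖(y : Ph).1 a - (y : Ph).1 b‖ = r) :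
    (MM m : ℂ) / (r : ℂ) ^ 3 = (Ω : ℂ) ^ 2 := by
  obtain ⟨-, hacc⟩ := h.eqs
  have hy := y.2.1
  rw [Fin.sum_univ_three] at hy
  simp only [Complex.real_smul] at hy
  have hrc : (r : ℂ) ≠ 0 := by exact_mod_cast hr.ne'
  have h1 : ∀ a, (MM m : ℂ) / (r : ℂ) ^ 3 * (y : Ph).1 a = (Ω : ℂ) ^ 2 * (y : Ph).1 a := by
    intro a
    have h2 := hacc a
    have h3 : acc m (y : Ph).1 a = ∑ b, (m b : ℂ) / (r : ℂ) ^ 3 * ((y : Ph).1 b - (y : Ph).1 a) := by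
      unfold acc
      rw [← Finset.sum_erase (s := Finset.univ) (a := a) (f := fun b => (m b : ℂ) / (r : ℂ) ^ 3 *
        ((y : Ph).1 b - (y : Ph).1 a)) (by simp)]
      refine Finset.sum_congr rfl fun b hb => ?_
      rw [heq b a (Finset.ne_of_mem_erase hb), Complex.real_smul]
      push_cast
      rfl
    rw [h3, Fin.sum_univ_three] at h2
    unfold MM
    push_cast at h2 ⊢
    have h4 : ((m 0 : ℂ) / (r : ℂ) ^ 3) * (y : Ph).1 0 + ((m 1 : ℂ) / (r : ℂ) ^ 3) * (y : Ph).1 1 +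
        ((m 2 : ℂ) / (r : ℂ) ^ 3) * (y : Ph).1 2 = 0 := by
      have : ((m 0 : ℂ) / (r : ℂ) ^ 3) * (y : Ph).1 0 + ((m 1 : ℂ) / (r : ℂ) ^ 3) * (y : Ph).1 1 +
        ((m 2 : ℂ) / (r : ℂ) ^ 3) * (y : Ph).1 2 = (m 0 * (y : Ph).1 0 + m 1 * (y : Ph).1 1 +
          m 2 * (y : Ph).1 2) / (r : ℂ) ^ 3 := by ring
      rw [this, hy, zero_div]
    linear_combination h4 - h2
  by_contra hne
  have h2 : ∀ a, (y : Ph).1 a = 0 := by
    intro a
    have h3 := h1 a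
    by_contra h4
    exact hne (mul_right_cancel₀ h4 h3)
  have h5 := heq 0 1 (by decide)
  rw [h2, h2, sub_zero, norm_zero] at h5
  exact hr.ne h5

private theorem funct_zero {Ω : ℝ} {y : comSub m} {θ A K : ℂ}
    (hF : ∀ w : comSub m, gL θ (fderiv ℝ (fld m) (y : Ph) (w : Ph)).2 =
      A * gL θ (w : Ph).1 - K * conj (gL θ (w : Ph).1)) (hA : conj A = A)
    (hF1 : ∀ w : comSub m, (fderiv ℝ (fld m) (y : Ph) (w : Ph)).1 = (w : Ph).2)
    (h : y ∈ noColl₀ m) {s α α' : ℂ}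
    (h1 : α * ((s + Ω * Complex.I) ^ 2 - A) + α' * conj K = 0)
    (h2 : α' * ((s - Ω * Complex.I) ^ 2 - A) + α * K = 0) (w : comSub m × comSub m) :
    α * ((s + Ω * Complex.I) * (gL θ ((gT m Ω y s w).1 : Ph).1 +
        Complex.I * gL θ ((gT m Ω y s w).2 : Ph).1) + (gL θ ((gT m Ω y s w).1 : Ph).2 +
        Complex.I * gL θ ((gT m Ω y s w).2 : Ph).2)) +
      α' * ((s - Ω * Complex.I) * (conj (gL θ ((gT m Ω y s w).1 : Ph).1) +
        Complex.I * conj (gL θ ((gT m Ω y s w).2 : Ph).1)) + (conj (gL θ ((gT m Ω y s w).1 : Ph).2) +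
        Complex.I * conj (gL θ ((gT m Ω y s w).2 : Ph).2))) = 0 := by
  obtain ⟨w₁, w₂⟩ := w
  have e1 : gL θ ((gT m Ω y s (w₁, w₂)).1 : Ph).1 = gL θ (w₁ : Ph).2 - Ω * Complex.I * gL θ (w₁ : Ph).1 -
      s.re * gL θ (w₁ : Ph).1 + s.im * gL θ (w₂ : Ph).1 := by
    change gL θ ((Br m Ω y w₁ - s.re • w₁ + s.im • w₂ : comSub m) : Ph).1 = _
    rw [Submodule.coe_add, Submodule.coe_sub, Br_coe h, Prod.fst_add, Prod.fst_sub, Prod.fst_sub, hF1,
      gL_add, gL_sub, gL_sub]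
    change gL θ (w₁ : Ph).2 - gL θ (((Ω : ℂ) * Complex.I) • (w₁ : Ph).1) - gL θ (s.re • (w₁ : Ph).1) +
      gL θ (s.im • (w₂ : Ph).1) = _
    rw [gL_smul, gL_rsmul, gL_rsmul]
  have e2 : gL θ ((gT m Ω y s (w₁, w₂)).2 : Ph).1 = gL θ (w₂ : Ph).2 - Ω * Complex.I * gL θ (w₂ : Ph).1 -
      s.im * gL θ (w₁ : Ph).1 - s.re * gL θ (w₂ : Ph).1 := by
    change gL θ ((Br m Ω y w₂ - s.im • w₁ - s.re • w₂ : comSub m) : Ph).1 = _
    rw [Submodule.coe_sub, Submodule.coe_sub, Br_coe h, Prod.fst_sub, Prod.fst_sub, Prod.fst_sub, hF1,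
      gL_sub, gL_sub, gL_sub]
    change gL θ (w₂ : Ph).2 - gL θ (((Ω : ℂ) * Complex.I) • (w₂ : Ph).1) - gL θ (s.im • (w₁ : Ph).1) -
      gL θ (s.re • (w₂ : Ph).1) = _
    rw [gL_smul, gL_rsmul, gL_rsmul]
  have e3 : gL θ ((gT m Ω y s (w₁, w₂)).1 : Ph).2 = A * gL θ (w₁ : Ph).1 - K * conj (gL θ (w₁ : Ph).1) -
      Ω * Complex.I * gL θ (w₁ : Ph).2 -
      s.re * gL θ (w₁ : Ph).2 + s.im * gL θ (w₂ : Ph).2 := by
    change gL θ ((Br m Ω y w₁ - s.re • w₁ + s.im • w₂ : comSub m) : Ph).2 = _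
    rw [Submodule.coe_add, Submodule.coe_sub, Br_coe h, Prod.snd_add, Prod.snd_sub, Prod.snd_sub,
      gL_add, gL_sub, gL_sub, hF]
    change _ - gL θ (((Ω : ℂ) * Complex.I) • (w₁ : Ph).2) - gL θ (s.re • (w₁ : Ph).2) +
      gL θ (s.im • (w₂ : Ph).2) = _
    rw [gL_smul, gL_rsmul, gL_rsmul]
  have e4 : gL θ ((gT m Ω y s (w₁, w₂)).2 : Ph).2 = A * gL θ (w₂ : Ph).1 - K * conj (gL θ (w₂ : Ph).1) -
      Ω * Complex.I * gL θ (w₂ : Ph).2 -
      s.im * gL θ (w₁ : Ph).2 - s.re * gL θ (w₂ : Ph).2 := by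
    change gL θ ((Br m Ω y w₂ - s.im • w₁ - s.re • w₂ : comSub m) : Ph).2 = _
    rw [Submodule.coe_sub, Submodule.coe_sub, Br_coe h, Prod.snd_sub, Prod.snd_sub, Prod.snd_sub,
      gL_sub, gL_sub, gL_sub, hF]
    change _ - gL θ (((Ω : ℂ) * Complex.I) • (w₂ : Ph).2) - gL θ (s.im • (w₁ : Ph).2) -
      gL θ (s.re • (w₂ : Ph).2) = _
    rw [gL_smul, gL_rsmul, gL_rsmul]
  have hs : s = s.re + s.im * Complex.I := (Complex.re_add_im s).symm
  rw [e1, e2, e3, e4]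
  simp only [map_add, map_sub, map_mul, Complex.conj_ofReal, Complex.conj_I, Complex.conj_conj, hA]
  generalize conj (gL θ (w₁ : Ph).1) = p1
  generalize conj (gL θ (w₂ : Ph).1) = p2
  generalize conj (gL θ (w₁ : Ph).2) = p3
  generalize conj (gL θ (w₂ : Ph).2) = p4
  generalize gL θ (w₁ : Ph).1 = l1
  generalize gL θ (w₂ : Ph).1 = l2
  generalize gL θ (w₁ : Ph).2 = l3
  generalize gL θ (w₂ : Ph).2 = l4
  have hI := Complex.I_sq
  generalize hx : (s.re : ℂ) = x at *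
  generalize hy : (s.im : ℂ) = v at *
  rw [hs] at h1 h2 ⊢
  linear_combination (-(l1 + Complex.I * l2)) * h1 - (p1 + Complex.I * p2) * h2 +
    (α * x * v * l2 + α * v * Complex.I * Ω * l2 + α * v * l4 + α * v ^ 2 * Complex.I * l2 +
      x * v * p2 * α' - v * Complex.I * Ω * p2 * α' + v * α' * p4 + v ^ 2 * Complex.I * p2 * α') * hI


/-- Proof.  Differences `z_0 = q_2 - q_1`, `z_1 = q_0 - q_2`, `z_2 = q_1 - q_0` of an equilateral
triangle: `z_k = z_0 θ ^ k` with `θ = exp (± 2 π i / 3)` (the same sign for all `k`).  For variations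
`Z_k` of the differences (`Σ Z_k = 0`) the linearized force is
`D acc: Z_k ↦ -(M/(2 r³)) ... `, precisely
`(D acc Z)_k = (M / (2 r³)) (Z_k + 3 (z_k² / r²) conj Z_k) - (m_k / (2 r³)) Σ_j (Z_j + 3 (z_j²/r²) conj Z_j)`
(from `acc_2 - acc_1 = - M z_0 / |z_0|³ + m_0 Σ_j z_j / |z_j|³` etc. and
`δ (z/|z|³) = -(1/(2 r³)) (Z + 3 (z²/r²) conj Z)`).  Take `Z_k = z_0 B θ ^ (- k)`, `B : ℂ`
(`Σ θ ^ (-k) = 0`): `z_k² conj Z_k / r² = z_0 conj B θ ^ (3 k) = z_0 conj B`, so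
`(D acc Z)_k = (M z_0/(2 r³)) (B θ^(-k) + 3 conj B - 9 (m_k/M) conj B)`, and
`3 - 9 m_k / M = - 9 (ν θ ^ k + conj ν θ ^ (-k))` with `ν = (1/3) Σ_j (m_j/M) θ ^ (-j)`.
The part in `θ ^ k` is the homographic mode; choose the variation
`Z_k = z_0 (A θ ^ k + B θ ^ (-k))`; the equation for `B` decouples: in the rotating frame
(`Ω² r³ = M`)  `B'' + 2 i Ω B' - (3/2) Ω² B + Ω² κ conj B = 0`, `κ = (9/2) conj ν`,
`|κ|² = (9/4) (1 - 3 σ)`, `σ = (m₀m₁ + m₁m₂ + m₂m₀)/M²`, while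
`A'' + 2 i Ω A' - (3/2) Ω² A - (3/2) Ω² conj A = - (9/2) Ω² ν conj B`.
If `s` is a root of `s⁴ + Ω² s² + (27/4) σ Ω⁴ = 0`, the determinant
`(s² - (3/2) Ω²)² + 4 Ω² s² - Ω⁴ |κ|²` vanishes, so there are `(b, b')`, not both zero, with
`(s² + 2 i Ω s - (3/2) Ω²) b + Ω² κ b' = 0`, `(s² - 2 i Ω s - (3/2) Ω²) b' + Ω² conj κ b = 0`,
and `B(t) = b e^{st} + conj b' e^{conj s t}` solves the equation.  The `A`-equation is solved by
`A(t) = a e^{st} + conj a' e^{conj s t}` if the determinant of the `A`-system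
`(s² - (3/2) Ω²)² + 4 Ω² s² - (9/4) Ω⁴ = s² (s² + Ω²)` does not vanish; since `s ≠ 0` and
`s² ≠ - Ω²` (`s² = - Ω²` would give `σ = 0`) this is so.  `s² ` is not real for `27 σ > 1`, so
`s.re ≠ 0`.  `w₁` is the vector with `Q` from `(b + conj b', a + conj a')` (value of the variation at
`t = 0`) and `V` from the derivative in the inertial frame, `w₂` the one for
`(-i b + i conj b', ...)`.

An alternative to the explicit vectors: the real linear map `Br` of the 8-dimensional space has an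
invariant subspace or quotient with the characteristic polynomial
`s⁴ + Ω² s² + (27/4) σ Ω⁴`; then use `exists_plane` and `root_of_plane` of `LinNFa.lean`
(the quotient map `w ↦ (B, B')` intertwines `Br` with the 4-dimensional system for `B`; the
characteristic polynomial of the quotient divides the one of `Br`).  See also
`Lib_MP_5027f4_ell/TbA.lean` (`exists_shape`). -/
theorem lagrange_ev {m : Fin 3 → ℝ} (hm : ∀ a, 0 < m a) {Ω : ℝ} {y : comSub m}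
    (h : IsRE m Ω y) {r : ℝ} (hr : 0 < r)
    (heq : ∀ a b, a ≠ b → ‖(y : Ph).1 a - (y : Ph).1 b‖ = r) {s : ℂ}
    (hs : s ^ 4 + Ω ^ 2 * s ^ 2 + (27 / 4) * ((m 0 * m 1 + m 1 * m 2 + m 2 * m 0) / MM m ^ 2 : ℝ) *
      Ω ^ 4 = 0) : HasEv m Ω y s := by
  have hM : 0 < MM m := by
    unfold MM
    have h0 := hm 0
    have h1 := hm 1
    have h2 := hm 2
    linarith
  obtain ⟨θ, hθ, hc, hz1, hz2⟩ := exists_theta (z0 := (y : Ph).1 2 - (y : Ph).1 1)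
    (z1 := (y : Ph).1 0 - (y : Ph).1 2) (z2 := (y : Ph).1 1 - (y : Ph).1 0) hr
    (heq 2 1 (by decide)) (heq 0 2 (by decide)) (heq 1 0 (by decide)) (by ring)
  set z : ℂ := (y : Ph).1 2 - (y : Ph).1 1 with hz
  have hzn : ‖z‖ = r := heq 2 1 (by decide)
  have hzz : conj z * z = (r : ℂ) ^ 2 := by
    rw [← Complex.normSq_eq_conj_mul_self, Complex.normSq_eq_norm_sq, hzn]
    push_cast
    rfl
  have hΩ := omega_eq h hr heq
  have hrc : (r : ℂ) ≠ 0 := by exact_mod_cast hr.ne'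
  have hMc : (MM m : ℂ) ≠ 0 := by exact_mod_cast hM.ne'
  have hF := gL_force h hr heq hθ hc hz.symm hz1 hz2
  set K : ℂ := 3 * (m 0 + θ * m 1 + θ ^ 2 * m 2) * z ^ 2 / (2 * (r : ℂ) ^ 5) with hK
  have hA2 : (MM m : ℂ) / (2 * (r : ℂ) ^ 3) = (Ω : ℂ) ^ 2 / 2 := by
    rw [← hΩ]; field_simp
  rw [hA2] at hF
  have h3 : θ ^ 3 = 1 := by linear_combination (θ - 1) * hθ
  have hKK : K * conj K = (9 / 4) * (Ω : ℂ) ^ 4 -
      (27 / 4) * ((m 0 * m 1 + m 1 * m 2 + m 2 * m 0) / MM m ^ 2 : ℝ) * (Ω : ℂ) ^ 4 := by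
    have hcK : conj K = 3 * (m 0 + θ ^ 2 * m 1 + θ * m 2) * (conj z) ^ 2 / (2 * (r : ℂ) ^ 5) := by
      rw [hK]
      simp only [map_div₀, map_mul, map_add, map_pow, hc, Complex.conj_ofReal, map_ofNat]
      have : (θ ^ 2) ^ 2 = θ := by linear_combination θ * h3
      rw [this]
    have h5 : ((m 0 : ℂ) + θ * m 1 + θ ^ 2 * m 2) * (m 0 + θ ^ 2 * m 1 + θ * m 2) =
        (MM m : ℂ) ^ 2 - 3 * (m 0 * m 1 + m 1 * m 2 + m 2 * m 0) := by
      unfold MM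
      push_cast
      linear_combination (m 0 * m 1 + m 0 * m 2 + m 1 * m 2 : ℂ) * hθ +
        ((m 1 : ℂ) ^ 2 + (m 2 : ℂ) ^ 2 + m 1 * m 2 * θ) * h3
    have h6 : K * conj K = 9 * ((MM m : ℂ) ^ 2 - 3 * (m 0 * m 1 + m 1 * m 2 + m 2 * m 0)) *
        (conj z * z) ^ 2 / (4 * (r : ℂ) ^ 10) := by
      rw [hcK, hK, ← h5]
      field_simp
      ring
    rw [h6, hzz]
    have h7 : (Ω : ℂ) ^ 4 = (MM m : ℂ) ^ 2 / (r : ℂ) ^ 6 := by
      have : (Ω : ℂ) ^ 4 = ((Ω : ℂ) ^ 2) ^ 2 := by ring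
      rw [this, ← hΩ]
      field_simp
    rw [h7]
    push_cast
    field_simp
    ring
  -- the coefficients of the functional
  have hdet : ((s + Ω * Complex.I) ^ 2 - (Ω : ℂ) ^ 2 / 2) * ((s - Ω * Complex.I) ^ 2 - (Ω : ℂ) ^ 2 / 2) =
      K * conj K := by
    rw [hKK]
    linear_combination hs + (-2 * s ^ 2 * Ω ^ 2 + Ω ^ 4 * (Complex.I ^ 2 - 2)) * Complex.I_sq
  obtain ⟨α, α', hne, h1, h2⟩ : ∃ α α' : ℂ, (α ≠ 0 ∨ α' ≠ 0) ∧
      α * ((s + Ω * Complex.I) ^ 2 - (Ω : ℂ) ^ 2 / 2) + α' * conj K = 0 ∧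
      α' * ((s - Ω * Complex.I) ^ 2 - (Ω : ℂ) ^ 2 / 2) + α * K = 0 := by
    by_cases hcase : conj K = 0 ∧ (s + Ω * Complex.I) ^ 2 - (Ω : ℂ) ^ 2 / 2 = 0
    · have hK0 : K = 0 := (map_eq_zero _).mp hcase.1
      refine ⟨1, 0, Or.inl one_ne_zero, ?_, ?_⟩
      · rw [hcase.2]; ring
      · rw [hK0]; ring
    · refine ⟨conj K, -((s + Ω * Complex.I) ^ 2 - (Ω : ℂ) ^ 2 / 2), ?_, by ring, ?_⟩
      · by_contra hcon
        push Not at hcon
        exact hcase ⟨hcon.1, neg_eq_zero.mp hcon.2⟩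
      · linear_combination -hdet
  have hconjA : conj ((Ω : ℂ) ^ 2 / 2) = (Ω : ℂ) ^ 2 / 2 := by
    simp only [map_div₀, map_pow, Complex.conj_ofReal, map_ofNat]
  have hF1 : ∀ w : comSub m, (fderiv ℝ (fld m) (y : Ph) (w : Ph)).1 = (w : Ph).2 := fun w =>
    (fderiv_fld_apply (m := m) h.1 (w : Ph)).1
  apply hasEv_of_not_surj
  intro hsurj
  obtain ⟨u, hu1, hu2⟩ := gL_surj hM hθ 1
  obtain ⟨v, hv1, hv2⟩ := gL_surj hM hθ Complex.I
  obtain ⟨w, hw⟩ := hsurj (u, 0)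
  obtain ⟨w', hw'⟩ := hsurj (v, 0)
  have k1 := funct_zero hF hconjA hF1 h.1 h1 h2 w
  have k2 := funct_zero hF hconjA hF1 h.1 h1 h2 w'
  rw [hw] at k1
  rw [hw'] at k2
  have hz : gL θ (0 : Fin 3 → ℂ) = 0 := by simp [gL]
  have hz1 : gL θ ((0 : comSub m) : Ph).1 = 0 := hz
  have hz2 : gL θ ((0 : comSub m) : Ph).2 = 0 := hz
  dsimp only at k1 k2
  rw [hu1, hu2, hz1, hz2, hz, map_zero, map_one] at k1
  rw [hv1, hv2, hz1, hz2, hz, map_zero, Complex.conj_I] at k2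
  have k3 : α + α' = 0 := by linear_combination k1
  have k4 : α - α' = 0 := by
    linear_combination -Complex.I * k2 + (α - α') * Complex.I_sq
  rcases hne with hne | hne
  · apply hne
    linear_combination (k3 + k4) / 2
  · apply hne
    linear_combination (k3 - k4) / 2

/-- Proof: the discriminant `Ω⁴ (1 - 27 σ)` of the quadratic equation for `s²` is negative, so `s²` is
not real; `Ω ≠ 0`. -/
theorem exists_root_of_no_dominant {m : Fin 3 → ℝ} (hm : ∀ a, 0 < m a)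
    (hσ : MM m ^ 2 < 27 * (m 0 * m 1 + m 1 * m 2 + m 2 * m 0)) {Ω : ℝ} (hΩ : Ω ≠ 0) :
    ∃ s : ℂ, s.re ≠ 0 ∧
      s ^ 4 + Ω ^ 2 * s ^ 2 + (27 / 4) * ((m 0 * m 1 + m 1 * m 2 + m 2 * m 0) / MM m ^ 2 : ℝ) *
        Ω ^ 4 = 0 := by
  have hM : 0 < MM m := by
    unfold MM
    have h0 := hm 0
    have h1 := hm 1
    have h2 := hm 2
    linarith
  set σ : ℝ := (m 0 * m 1 + m 1 * m 2 + m 2 * m 0) / MM m ^ 2 with hσdef
  have hσ' : 1 < 27 * σ := by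
    rw [hσdef, ← mul_div_assoc, lt_div_iff₀ (pow_pos hM 2), one_mul]
    exact hσ
  have hD : 0 < 27 * σ - 1 := by linarith
  set t : ℝ := Real.sqrt (27 * σ - 1) with ht
  have htpos : 0 < t := Real.sqrt_pos.mpr hD
  have ht2 : t ^ 2 = 27 * σ - 1 := Real.sq_sqrt hD.le
  let u : ℂ := ((-(Ω ^ 2) / 2 : ℝ) : ℂ) + ((Ω ^ 2 / 2 * t : ℝ) : ℂ) * Complex.I
  obtain ⟨s, hs⟩ := IsAlgClosed.exists_pow_nat_eq u (n := 2) (by norm_num)
  refine ⟨s, ?_, ?_⟩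
  · intro h0
    have h1 : (s ^ 2).im = 0 := by
      rw [pow_two, Complex.mul_im, h0]
      ring
    have h2 : u.im = Ω ^ 2 / 2 * t := by
      simp only [u, Complex.add_im, Complex.ofReal_im, Complex.mul_im, Complex.ofReal_re, Complex.I_im,
        Complex.I_re]
      ring
    rw [hs, h2] at h1
    have h3 : 0 < Ω ^ 2 / 2 * t := by positivity
    linarith
  · have h1 : s ^ 4 = u ^ 2 := by rw [← hs]; ring
    rw [h1, hs]
    have ht2' : (t : ℂ) ^ 2 = 27 * (σ : ℂ) - 1 := by exact_mod_cast ht2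
    simp only [u]
    push_cast
    linear_combination (-(Ω : ℂ) ^ 4 / 4) * ht2' + ((Ω : ℂ) ^ 4 * t ^ 2 / 4) * Complex.I_sq

end Pool.Agent.MP_5027f4_cont
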