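import Pool.Agent.Lib_MP_5027f4_cont.FAcc
import Pool.Agent.Lib_MP_5027f4_cont.GCls
import Pool.Agent.Lib_MP_5027f4_cont.GEul
import Pool.Agent.Lib_MP_5027f4_cont.GLag
import Pool.Agent.Lib_MP_5027f4_cont.GJac

/-!
# No relative equilibrium has elliptic monodromy when no mass is dominant
-/

open Set Filter Topology Metric Polynomial
open scoped ComplexConjugate ContDiff
open Pool.Agent.MP_5027f4_mp

namespace Pool.Agent.MP_5027f4_cont

variable {m : Fin 3 → ℝ}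

theorem IsRE.exists_ev (hm : ∀ a, 0 < m a)
    (hσ : MM m ^ 2 < 27 * (m 0 * m 1 + m 1 * m 2 + m 2 * m 0)) {μ : ℝ} {y : comSub m}
    (h : IsRE m μ y) : ∃ s : ℂ, s.re ≠ 0 ∧ HasEv m μ y s := by
  obtain ⟨h1, h2⟩ := h.eqs
  rcases re_classify hm h.1 y.2.1 h2 with ⟨r, hr, heq, hΩ⟩ | ⟨e, he, x, hx⟩
  · have hμ : μ ≠ 0 := by
      rintro rfl
      have := MM_pos hm
      rw [← hΩ] at this
      simp at this
    obtain ⟨s, hs, hs4⟩ := exists_root_of_no_dominant hm hσ hμ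
    exact ⟨s, hs, lagrange_ev hm h hr heq hs4⟩
  · obtain ⟨s, hs, hev⟩ := euler_ev hm h he hx
    exact ⟨(s : ℂ), by simpa using hs, hev⟩

theorem noRE_of_no_dominant (hm : ∀ a, 0 < m a)
    (hσ : MM m ^ 2 < 27 * (m 0 * m 1 + m 1 * m 2 + m 2 * m 0)) {T : ℝ} (hT : 0 < T) {u : ℂ}
    (hu : ‖u‖ = 1) {q : ℝ[X]} (hq : ∀ l : ℂ, (q.map (algebraMap ℝ ℂ)).eval l = 0 → ‖l‖ = 1) :
    NoRE m T u ((X - 1) ^ 4 * q) := by
  rintro S X₀ X₁ Φ hS hLM hend hcp ⟨μ, hμ⟩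
  have hm0 : ∀ a, m a ≠ 0 := fun a => (hm a).ne'
  have hM : MM m ≠ 0 := (MM_pos hm).ne'
  have hre : IsRE m μ (pE m X₀) := ⟨pE_noColl hM hm0 hLM.nc0, hμ⟩
  obtain ⟨s, hs, hev⟩ := hre.exists_ev hm hσ
  have hroot := root_of_ev hm hT hu hLM hend hre hev
  rw [hcp] at hroot
  simp only [Polynomial.map_mul, Polynomial.map_pow, Polynomial.map_sub, Polynomial.map_X,
    Polynomial.map_one, eval_mul, eval_pow, eval_sub, eval_X, eval_one] at hroot
  have hnorm : ‖Complex.exp (s * T)‖ = 1 := by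
    rcases mul_eq_zero.1 hroot with h | h
    · have : Complex.exp (s * T) = 1 := sub_eq_zero.1 (pow_eq_zero_iff (by norm_num) |>.1 h)
      rw [this, norm_one]
    · exact hq _ h
  rw [Complex.norm_exp] at hnorm
  have h2 : (s * (T : ℂ)).re = 0 := Real.exp_eq_one_iff _ |>.1 hnorm
  rw [Complex.re_mul_ofReal] at h2
  rcases mul_eq_zero.1 h2 with h3 | h3
  · exact hs h3
  · exact hT.ne' h3

theorem ell_root_norm {q : ℝ[X]} (h : Ell4 q) (l : ℂ)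
    (hl : (q.map (algebraMap ℝ ℂ)).eval l = 0) : ‖l‖ = 1 := by
  obtain ⟨l₁, l₂, h1, h2, -, hq⟩ := h
  rw [hq] at hl
  simp only [eval_mul, eval_sub, eval_X, eval_C] at hl
  rcases mul_eq_zero.1 hl with h | h <;> rcases mul_eq_zero.1 h with h | h
  · rw [sub_eq_zero.1 h, h1]
  · rw [sub_eq_zero.1 h, norm_inv, h1, inv_one]
  · rw [sub_eq_zero.1 h, h2]
  · rw [sub_eq_zero.1 h, norm_inv, h2, inv_one]

end Pool.Agent.MP_5027f4_cont
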