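import Pool.Agent.Lib_MP_5027f4_cont.Defs

/-!
PIECE [FixP] (MP_5027f4_mp, T1).  Fixed points of the return map.
-/

open Set Filter Topology Metric Polynomial Asymptotics
open scoped ComplexConjugate ContDiff

namespace Pool.Agent.MP_5027f4_cont

theorem isInvertible_sub_id (A : (ℂ × ℂ) →L[ℝ] (ℂ × ℂ)) (h1 : (cp A).eval 1 ≠ 0) :
    (A - ContinuousLinearMap.id ℝ (ℂ × ℂ)).IsInvertible := by
  have hinj : Function.Injective ((A - ContinuousLinearMap.id ℝ (ℂ × ℂ) : (ℂ × ℂ) →L[ℝ] (ℂ × ℂ)) :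
      (ℂ × ℂ) →ₗ[ℝ] (ℂ × ℂ)) := by
    rw [← LinearMap.ker_eq_bot, LinearMap.ker_eq_bot']
    intro v hv
    by_contra hne
    apply h1
    have hev : Module.End.HasEigenvalue (A : (ℂ × ℂ) →ₗ[ℝ] (ℂ × ℂ)) 1 := by
      apply Module.End.hasEigenvalue_of_hasEigenvector (x := v)
      refine ⟨?_, hne⟩
      rw [Module.End.mem_eigenspace_iff]
      have h2 : A v - v = 0 := hv
      rw [one_smul]
      exact sub_eq_zero.mp h2
    exact (Module.End.hasEigenvalue_iff_isRoot_charpoly _ _).mp hev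
  refine ⟨(LinearEquiv.ofInjectiveEndo _ hinj).toContinuousLinearEquiv, ?_⟩
  ext v <;> rfl

/-- Proof.  `det (A - 1) ≠ 0` for `A = dz P (k₀, 0)` (the value of the characteristic polynomial at
`1` is `det (1 - A)`, `LinearMap.charpoly` / `Matrix.eval_charpoly`), so
`(k, z) ↦ P (k, z) - z` has invertible derivative in `z`:
`ContDiffAt.implicitFunction` (n = ω). -/
theorem exists_fix {P : (ℝ × ℝ) × (ℂ × ℂ) → ℂ × ℂ} {k₀ : ℝ × ℝ} (hP : AnalyticAt ℝ P (k₀, 0))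
    (h0 : P (k₀, 0) = 0) (h1 : (cp (dz P (k₀, 0))).eval 1 ≠ 0) :
    ∃ zs : ℝ × ℝ → ℂ × ℂ, AnalyticAt ℝ zs k₀ ∧ zs k₀ = 0 ∧ (∀ᶠ k in 𝓝 k₀, P (k, zs k) = zs k) ∧
      ∀ᶠ q : (ℝ × ℝ) × (ℂ × ℂ) in 𝓝 (k₀, 0), P q = q.2 → q.2 = zs q.1 := by
  set u : (ℝ × ℝ) × (ℂ × ℂ) := (k₀, 0) with hu
  set f : (ℝ × ℝ) × (ℂ × ℂ) → ℂ × ℂ := fun q => P q - q.2 with hf
  have hfu : f u = 0 := by
    show P u - u.2 = 0
    rw [h0, hu, sub_zero]
  have han : AnalyticAt ℝ f u := hP.sub analyticAt_snd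
  have hcd : ContDiffAt ℝ ω f u := han.contDiffAt
  have hder : fderiv ℝ f u = fderiv ℝ P u - ContinuousLinearMap.snd ℝ (ℝ × ℝ) (ℂ × ℂ) := by
    have e1 : HasFDerivAt P (fderiv ℝ P u) u := hP.differentiableAt.hasFDerivAt
    exact (e1.sub hasFDerivAt_snd).fderiv
  have hinv : (fderiv ℝ f u ∘L .inr ℝ (ℝ × ℝ) (ℂ × ℂ)).IsInvertible := by
    have e2 : fderiv ℝ f u ∘L .inr ℝ (ℝ × ℝ) (ℂ × ℂ) =
        dz P u - ContinuousLinearMap.id ℝ (ℂ × ℂ) := by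
      rw [hder]
      rfl
    rw [e2]
    exact isInvertible_sub_id _ h1
  have pn : (ω : WithTop ℕ∞) ≠ 0 := by simp
  refine ⟨hcd.implicitFunction pn hinv, ?_, ?_, ?_, ?_⟩
  · exact (hcd.contDiffAt_implicitFunction pn hinv).analyticAt
  · exact hcd.implicitFunction_apply_self pn hinv
  · have h3 := hcd.eventually_apply_implicitFunction pn hinv
    filter_upwards [h3] with k hk
    rw [hfu] at hk
    exact sub_eq_zero.mp hk
  · have h3 := hcd.eventually_apply_eq_iff_implicitFunction pn hinv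
    filter_upwards [h3] with q hq hq2
    rw [hfu] at hq
    exact (hq.mp (sub_eq_zero.mpr hq2)).symm

/-- No drift at the fixed points.  Proof: for `k` near `k₀` the constant chain `z j = zs k` gives
`n * |(b (k, zs k)).2| ≤ δ` for all `n`. -/
theorem drift_fix {b : (ℝ × ℝ) × (ℂ × ℂ) → ℝ × ℝ} {P : (ℝ × ℝ) × (ℂ × ℂ) → ℂ × ℂ} {k₀ : ℝ × ℝ}
    {zs : ℝ × ℝ → ℂ × ℂ} (hbdc : BDC k₀ b P) (hzs : ContinuousAt zs k₀) (hz0 : zs k₀ = 0)
    (hfix : ∀ᶠ k in 𝓝 k₀, P (k, zs k) = zs k) : ∀ᶠ k in 𝓝 k₀, (b (k, zs k)).2 = 0 := by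
  obtain ⟨r, hr, δ, H⟩ := hbdc
  have h1 : ∀ᶠ k in 𝓝 k₀, ‖k - k₀‖ < r := by
    have := Metric.ball_mem_nhds k₀ hr
    filter_upwards [this] with k hk
    simpa [dist_eq_norm] using hk
  have h2 : ∀ᶠ k in 𝓝 k₀, ‖zs k‖ < r := by
    have h3 : Tendsto (fun k => ‖zs k‖) (𝓝 k₀) (𝓝 ‖zs k₀‖) := hzs.norm
    rw [hz0, norm_zero] at h3
    exact h3.eventually (gt_mem_nhds hr)
  filter_upwards [hfix, h1, h2] with k hk1 hk2 hk3
  by_contra hne
  have hpos : 0 < |(b (k, zs k)).2| := abs_pos.mpr hne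
  obtain ⟨n, hn⟩ := exists_nat_gt (δ / |(b (k, zs k)).2|)
  have h4 := H k n (fun _ => zs k) hk2 (fun _ _ => hk3) (fun _ _ => hk1.symm)
  rw [Finset.sum_const, Finset.card_range, nsmul_eq_mul, abs_mul, Nat.abs_cast] at h4
  rw [div_lt_iff₀ hpos] at hn
  linarith

end Pool.Agent.MP_5027f4_cont
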