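import Pool.Agent.Lib_MP_5027f4_cont.Volt

/-!
PIECE [FlowA] (MP_5027f4_mp, T1).  The path of a solution depends analytically on the data.
-/

open Set Filter Topology Metric
open scoped ContDiff

namespace Pool.Agent.MP_5027f4_cont

variable {E : Type*} [NormedAddCommGroup E] [NormedSpace ℝ E] [CompleteSpace E]

/-- The derivative of the Nemytskii operator is the multiplication by the derivative of `f`.
Proof: compose with the evaluation at `t` and differentiate `s ↦ f (x t + s • y t)` at `0`. -/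
theorem fderiv_nem {f : E → E} {N : C(unitInterval, E) → C(unitInterval, E)}
    (hN : ContDiff ℝ ω N) (hNf : ∀ x t, N x t = f (x t)) (hf : ContDiff ℝ 1 f)
    (x y : C(unitInterval, E)) (t : unitInterval) :
    fderiv ℝ N x y t = fderiv ℝ f (x t) (y t) := by
  have h1 : HasFDerivAt N (fderiv ℝ N x) x :=
    ((hN.differentiable (by simp)) x).hasFDerivAt
  have h2 := (ContinuousMap.evalCLM ℝ t (M := E)).hasFDerivAt.comp x h1
  have h3 : HasFDerivAt f (fderiv ℝ f (x t)) (x t) :=
    ((hf.differentiable (by simp)) (x t)).hasFDerivAt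
  have h4 : HasFDerivAt (f ∘ (ContinuousMap.evalCLM ℝ t (M := E)))
      ((fderiv ℝ f (x t)).comp (ContinuousMap.evalCLM ℝ t (M := E))) x :=
    HasFDerivAt.comp x h3 (ContinuousMap.evalCLM ℝ t (M := E)).hasFDerivAt
  have h5 : (f ∘ (ContinuousMap.evalCLM ℝ t (M := E))) =
      (fun z => (ContinuousMap.evalCLM ℝ t (M := E)) (N z)) := by
    funext z
    exact (hNf z t).symm
  rw [h5] at h4
  have h6 := h2.unique h4
  have h7 := congrArg (fun L => L y) h6
  exact h7

/-- the constant paths -/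
private noncomputable def flowA_const : E →L[ℝ] C(unitInterval, E) :=
  LinearMap.mkContinuous
    { toFun := fun v => ContinuousMap.const unitInterval v
      map_add' := fun v w => by ext; simp
      map_smul' := fun c v => by ext; simp } 1 (fun v => by
        simp only [LinearMap.coe_mk, AddHom.coe_mk, one_mul]
        rw [ContinuousMap.norm_le _ (norm_nonneg v)]
        intro t
        simp)

private theorem flowA_const_apply (v : E) (t : unitInterval) :
    flowA_const v t = v := rfl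

/-- Proof.  `F (p, x) = x - const p.2 - p.1 • J (N x)` is `ContDiff ℝ ω` on
`(ℝ × E) × C(unitInterval, E)`, `F (p₀, x₀) = 0`; its partial derivative in `x` at `(p₀, x₀)` is
`y ↦ y - J (p₀.1 • fderiv ℝ N x₀ y)`, invertible by `volterra_equiv` (`fderiv_nem`; the continuous
function `t ↦ ‖fderiv ℝ f (x₀ t)‖` is bounded on the compact interval).  The implicit function
theorem (`ContDiffAt.implicitFunction` with `n = ω` or the inverse function theorem
`ContDiffAt.to_localInverse` for `(p, x) ↦ (p, F (p, x))`) gives `𝒮`. -/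
theorem exists_path {f : E → E} {N : C(unitInterval, E) → C(unitInterval, E)}
    (hN : ContDiff ℝ ω N) (hNf : ∀ x t, N x t = f (x t)) (hf : ContDiff ℝ 1 f)
    (J : C(unitInterval, E) →L[ℝ] C(unitInterval, E))
    (hJ : ∀ x (τ : unitInterval), J x τ = ∫ t in (0 : ℝ)..τ, x (projIcc 0 1 zero_le_one t))
    {x₀ : C(unitInterval, E)} {p₀ : ℝ × E} (h0 : ∀ τ, x₀ τ = p₀.2 + p₀.1 • J (N x₀) τ) :
    ∃ P : ℝ × E → C(unitInterval, E), AnalyticAt ℝ P p₀ ∧ P p₀ = x₀ ∧
      ∀ᶠ p in 𝓝 p₀, ∀ τ, P p τ = p.2 + p.1 • J (N (P p)) τ := by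
  set F : (ℝ × E) × C(unitInterval, E) → C(unitInterval, E) :=
    fun q => q.2 - flowA_const q.1.2 - q.1.1 • J (N q.2) with hF
  have hFc : ContDiff ℝ ω F := by
    have h1 : ContDiff ℝ ω (fun q : (ℝ × E) × C(unitInterval, E) => flowA_const (E := E) q.1.2) :=
      (flowA_const (E := E)).contDiff.comp (contDiff_snd.comp contDiff_fst)
    have h2 : ContDiff ℝ ω (fun q : (ℝ × E) × C(unitInterval, E) => J (N q.2)) :=
      J.contDiff.comp (hN.comp contDiff_snd)
    have h3 : ContDiff ℝ ω (fun q : (ℝ × E) × C(unitInterval, E) => q.1.1 • J (N q.2)) :=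
      (contDiff_fst.comp contDiff_fst).smul h2
    exact (contDiff_snd.sub h1).sub h3
  have hF0 : F (p₀, x₀) = 0 := by
    ext τ
    simp only [hF, ContinuousMap.sub_apply, ContinuousMap.smul_apply, ContinuousMap.zero_apply,
      flowA_const_apply]
    rw [h0 τ]
    abel
  obtain ⟨C, hC⟩ : ∃ C : ℝ, ∀ t : unitInterval, ‖fderiv ℝ f (x₀ t)‖ ≤ C := by
    have hc : Continuous (fun t : unitInterval => ‖fderiv ℝ f (x₀ t)‖) :=
      ((hf.continuous_fderiv (by simp)).comp x₀.continuous).norm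
    obtain ⟨C, hC⟩ := (isCompact_univ.image hc).bddAbove
    exact ⟨C, fun t => hC ⟨t, mem_univ _, rfl⟩⟩
  have hB : ∀ (y : C(unitInterval, E)) (t : unitInterval),
      ‖(p₀.1 • fderiv ℝ N x₀) y t‖ ≤ |p₀.1| * C * ‖y t‖ := by
    intro y t
    have e1 : (p₀.1 • fderiv ℝ N x₀) y t = p₀.1 • (fderiv ℝ f (x₀ t) (y t)) := by
      rw [_root_.smul_apply, ContinuousMap.smul_apply, fderiv_nem hN hNf hf]
    rw [e1, norm_smul, Real.norm_eq_abs, mul_assoc]
    refine mul_le_mul_of_nonneg_left ?_ (abs_nonneg _)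
    exact ((fderiv ℝ f (x₀ t)).le_opNorm (y t)).trans
      (mul_le_mul_of_nonneg_right (hC t) (norm_nonneg _))
  obtain ⟨Q, hQ⟩ := volterra_equiv J hJ (p₀.1 • fderiv ℝ N x₀) (|p₀.1| * C) hB
  have hFat : ContDiffAt ℝ ω F (p₀, x₀) := hFc.contDiffAt
  have hpart : fderiv ℝ F (p₀, x₀) ∘L .inr ℝ (ℝ × E) C(unitInterval, E)
      = (Q : C(unitInterval, E) →L[ℝ] C(unitInterval, E)) := by
    have h1 : HasFDerivAt F (fderiv ℝ F (p₀, x₀)) (p₀, x₀) :=
      ((hFc.differentiable (by simp)) _).hasFDerivAt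
    have h2 : HasFDerivAt (fun x : C(unitInterval, E) => (p₀, x))
        (ContinuousLinearMap.inr ℝ (ℝ × E) C(unitInterval, E)) x₀ :=
      hasFDerivAt_prodMk_right p₀ x₀
    have h3 : HasFDerivAt (F ∘ (fun x : C(unitInterval, E) => (p₀, x)))
        (fderiv ℝ F (p₀, x₀) ∘L .inr ℝ (ℝ × E) C(unitInterval, E)) x₀ :=
      HasFDerivAt.comp x₀ h1 h2
    have h4 : HasFDerivAt N (fderiv ℝ N x₀) x₀ :=
      ((hN.differentiable (by simp)) x₀).hasFDerivAt
    have h5 : HasFDerivAt (fun x : C(unitInterval, E) => J (N x)) (J.comp (fderiv ℝ N x₀)) x₀ :=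
      HasFDerivAt.comp x₀ J.hasFDerivAt h4
    have h6 : HasFDerivAt (fun x : C(unitInterval, E) => x - flowA_const p₀.2 - p₀.1 • J (N x))
        (ContinuousLinearMap.id ℝ C(unitInterval, E) - p₀.1 • J.comp (fderiv ℝ N x₀)) x₀ :=
      ((hasFDerivAt_id x₀).sub_const _).sub (h5.const_smul p₀.1)
    have h7 := h3.unique h6
    rw [h7]
    ext1 y
    rw [ContinuousLinearEquiv.coe_coe, hQ y]
    simp [map_smul]
  have if₂ : (fderiv ℝ F (p₀, x₀) ∘L .inr ℝ (ℝ × E) C(unitInterval, E)).IsInvertible :=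
    ⟨Q, hpart.symm⟩
  refine ⟨hFat.implicitFunction (by simp) if₂, ?_, ?_, ?_⟩
  · exact (hFat.contDiffAt_implicitFunction (by simp) if₂).analyticAt
  · exact hFat.implicitFunction_apply_self (by simp) if₂
  · have h1 := hFat.eventually_apply_implicitFunction (by simp) if₂
    filter_upwards [h1] with p hp
    intro τ
    rw [hF0] at hp
    have h2 := congrArg (fun z : C(unitInterval, E) => z τ) hp
    simp only [hF, ContinuousMap.sub_apply, ContinuousMap.smul_apply, ContinuousMap.zero_apply,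
      flowA_const_apply] at h2
    have h3 := sub_eq_zero.mp h2
    rw [← h3]
    abel

/-- The derivative of the path in the initial condition solves the linearized equation.
Proof: differentiate the equation `P p = const p.2 + p.1 • J (N (P p))` in `p.2`
(it holds on a neighbourhood of every `p` near `p₀`: `eventually_eventually_nhds`,
`AnalyticAt.eventually_analyticAt`), and evaluate at `τ`; `fderiv_nem`. -/
theorem path_deriv {f : E → E} {N : C(unitInterval, E) → C(unitInterval, E)}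
    (hN : ContDiff ℝ ω N) (hNf : ∀ x t, N x t = f (x t)) (hf : ContDiff ℝ 1 f)
    (J : C(unitInterval, E) →L[ℝ] C(unitInterval, E))
    (hJ : ∀ x (τ : unitInterval), J x τ = ∫ t in (0 : ℝ)..τ, x (projIcc 0 1 zero_le_one t))
    {p₀ : ℝ × E} {P : ℝ × E → C(unitInterval, E)} (hP : AnalyticAt ℝ P p₀)
    (hPe : ∀ᶠ p in 𝓝 p₀, ∀ τ, P p τ = p.2 + p.1 • J (N (P p)) τ) :
    ∀ᶠ p in 𝓝 p₀, ∀ (ξ : E) (τ : unitInterval), fderiv ℝ P p (0, ξ) τ =
      ξ + p.1 • ∫ t in (0 : ℝ)..τ, fderiv ℝ f (P p (projIcc 0 1 zero_le_one t))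
        (fderiv ℝ P p (0, ξ) (projIcc 0 1 zero_le_one t)) := by
  filter_upwards [eventually_eventually_nhds.mpr hPe, hP.eventually_analyticAt] with p hp hap
  intro ξ τ
  have hd : HasFDerivAt P (fderiv ℝ P p) p := hap.differentiableAt.hasFDerivAt
  have hN1 : HasFDerivAt N (fderiv ℝ N (P p)) (P p) :=
    ((hN.differentiable (by simp)) _).hasFDerivAt
  have h1 : HasFDerivAt (fun q => J (N (P q))) (J.comp ((fderiv ℝ N (P p)).comp (fderiv ℝ P p))) p :=
    HasFDerivAt.comp p J.hasFDerivAt (HasFDerivAt.comp p hN1 hd)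
  have hfst : HasFDerivAt (fun q : ℝ × E => q.1) (ContinuousLinearMap.fst ℝ ℝ E) p :=
    hasFDerivAt_fst
  have hsnd : HasFDerivAt (fun q : ℝ × E => q.2) (ContinuousLinearMap.snd ℝ ℝ E) p :=
    hasFDerivAt_snd
  have hc : HasFDerivAt (fun q : ℝ × E => flowA_const (E := E) q.2)
      ((flowA_const (E := E)).comp (ContinuousLinearMap.snd ℝ ℝ E)) p :=
    HasFDerivAt.comp p (flowA_const (E := E)).hasFDerivAt hsnd
  have hsm := hfst.smul h1
  have hall := hc.add hsm
  have heq : P =ᶠ[𝓝 p] (fun q : ℝ × E => flowA_const (E := E) q.2) +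
      (fun q : ℝ × E => q.1) • (fun q => J (N (P q))) := by
    filter_upwards [hp] with q hq
    ext s
    rw [hq s]
    rfl
  have hfin := (hall.congr_of_eventuallyEq heq).unique hd
  have h2 := congrArg (fun L => L ((0 : ℝ), ξ) τ) hfin
  rw [← h2]
  have h3 : ((flowA_const (E := E)).comp (ContinuousLinearMap.snd ℝ ℝ E) +
      (p.1 • (J.comp ((fderiv ℝ N (P p)).comp (fderiv ℝ P p))) +
        (ContinuousLinearMap.fst ℝ ℝ E).smulRight (J (N (P p))))) ((0 : ℝ), ξ) τ
      = ξ + p.1 • J (fderiv ℝ N (P p) (fderiv ℝ P p ((0 : ℝ), ξ))) τ := by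
    have h4 : ((ContinuousLinearMap.fst ℝ ℝ E).smulRight (J (N (P p)))) ((0 : ℝ), ξ) τ = 0 := by
      simp
    calc _ = ξ + (p.1 • J (fderiv ℝ N (P p) (fderiv ℝ P p ((0 : ℝ), ξ))) τ +
          ((ContinuousLinearMap.fst ℝ ℝ E).smulRight (J (N (P p)))) ((0 : ℝ), ξ) τ) := rfl
      _ = _ := by rw [h4, add_zero]
  rw [h3, hJ]
  congr 2
  refine intervalIntegral.integral_congr (fun t _ => ?_)
  exact fderiv_nem hN hNf hf _ _ _

end Pool.Agent.MP_5027f4_cont
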