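import Pool.Agent.Lib_MP_5027f4_cont.SolA

/-!
PIECE [FlowB] (MP_5027f4_mp, T1).  Integral equation and solutions.
-/

open Set Filter Topology Metric
open scoped ContDiff

namespace Pool.Agent.MP_5027f4_cont

theorem FlowB_glue {E : Type*} [NormedAddCommGroup E] [NormedSpace ℝ E] {f : E → E}
    {a p b : ℝ} (c₁ c₂ : ℝ → E)
    (h1 : ∀ s ∈ Ioo a p, HasDerivAt c₁ (f (c₁ s)) s) (h1p : HasDerivAt c₁ (f (c₁ p)) p)
    (h2 : ∀ s ∈ Ioo p b, HasDerivAt c₂ (f (c₂ s)) s) (h2p : HasDerivAt c₂ (f (c₂ p)) p)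
    (he : c₁ p = c₂ p) (e : ℝ → E) (he1 : ∀ s ≤ p, e s = c₁ s) (he2 : ∀ s, p < s → e s = c₂ s) :
    ∀ s ∈ Ioo a b, HasDerivAt e (f (e s)) s := by
  intro s hs
  have he2' : ∀ s, p ≤ s → e s = c₂ s := by
    intro s hs
    rcases hs.eq_or_lt with rfl | hs
    · rw [he1 _ le_rfl, he]
    · exact he2 s hs
  rcases lt_trichotomy s p with h | h | h
  · rw [he1 s h.le]
    refine (h1 s ⟨hs.1, h⟩).congr_of_eventuallyEq ?_
    filter_upwards [Iio_mem_nhds h] with r hr
    exact he1 r (le_of_lt hr)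
  · subst h
    have h3 : HasDerivWithinAt e (f (e s)) (Iic s) s := by
      rw [he1 s le_rfl]
      exact h1p.hasDerivWithinAt.congr (fun r hr => he1 r hr) (he1 s le_rfl)
    have h4 : HasDerivWithinAt e (f (e s)) (Ici s) s := by
      rw [he2' s le_rfl]
      exact h2p.hasDerivWithinAt.congr (fun r hr => he2' r hr) (he2' s le_rfl)
    have h5 := h3.union h4
    rw [Iic_union_Ici] at h5
    exact hasDerivWithinAt_univ.mp h5
  · rw [he2 s h]
    refine (h2 s ⟨h, hs.2⟩).congr_of_eventuallyEq ?_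
    filter_upwards [Ioi_mem_nhds h] with r hr
    exact he2 r hr

theorem FlowB_mul_mem (S : ℝ) {t : ℝ} (h0 : 0 ≤ t) (h1 : t ≤ 1) : S * t ∈ uIcc 0 S := by
  rw [mem_uIcc]
  rcases le_total 0 S with h | h
  · left
    exact ⟨mul_nonneg h h0, by nlinarith⟩
  · right
    exact ⟨by nlinarith, by nlinarith⟩

variable {E : Type*} [NormedAddCommGroup E] [NormedSpace ℝ E] [CompleteSpace E] {f : E → E}

/-- Proof.  Substitution in `c (S τ) = c 0 + ∫ 0..(S τ), f (c s) ds`
(`intervalIntegral.integral_eq_sub_of_hasDerivAt`, `intervalIntegral.smul_integral_comp_mul_left`),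
`c` is continuous on `uIcc 0 S`. -/
theorem path_of_solOn (hf : ContDiff ℝ 1 f) {S : ℝ} {c : ℝ → E} (h : SolOn f S c) :
    ∃ X : C(unitInterval, E), (∀ τ : unitInterval, X τ = c (S * τ)) ∧
      ∀ τ : unitInterval, X τ = c 0 + S • ∫ t in (0 : ℝ)..τ, f (X (projIcc 0 1 zero_le_one t)) := by
  have hcont : Continuous (fun τ : unitInterval => c (S * τ)) := by
    have h1 : ContinuousOn c (uIcc 0 S) := h.continuousOn
    exact h1.comp_continuous (continuous_const.mul continuous_subtype_val)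
      (fun τ => FlowB_mul_mem S τ.2.1 τ.2.2)
  refine ⟨⟨fun τ => c (S * τ), hcont⟩, fun τ => rfl, fun τ => ?_⟩
  change c (S * τ) = c 0 + S • ∫ t in (0 : ℝ)..τ, f (c (S * (projIcc 0 1 zero_le_one t : ℝ)))
  have hτ : uIcc (0 : ℝ) τ ⊆ Icc 0 1 := by
    rw [uIcc_of_le τ.2.1]
    exact Icc_subset_Icc_right τ.2.2
  have hder : ∀ t ∈ uIcc (0 : ℝ) τ, HasDerivAt (fun t : ℝ => c (S * t)) (S • f (c (S * t))) t := by
    intro t ht
    have ht' := hτ ht
    have h1 := h.hasDerivAt (FlowB_mul_mem S ht'.1 ht'.2)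
    have h2 : HasDerivAt (fun t : ℝ => S * t) S t := by
      simpa using (hasDerivAt_id t).const_mul S
    exact h1.scomp t h2
  have hc1 : ContinuousOn (fun t : ℝ => S • f (c (S * t))) (uIcc (0 : ℝ) τ) := by
    intro t ht
    have h1 : ContinuousAt (fun t : ℝ => c (S * t)) t := (hder t ht).continuousAt
    have h2 : ContinuousAt (fun t : ℝ => f (c (S * t))) t :=
      ContinuousAt.comp (f := fun t : ℝ => c (S * t)) hf.continuous.continuousAt h1
    exact (h2.const_smul S).continuousWithinAt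
  have h3 := intervalIntegral.integral_eq_sub_of_hasDerivAt hder hc1.intervalIntegrable
  rw [mul_zero] at h3
  have h4 : S • ∫ t in (0 : ℝ)..τ, f (c (S * (projIcc 0 1 zero_le_one t : ℝ))) =
      ∫ t in (0 : ℝ)..τ, S • f (c (S * t)) := by
    rw [← intervalIntegral.integral_smul]
    apply intervalIntegral.integral_congr
    intro t ht
    have ht' := hτ ht
    simp only
    rw [projIcc_of_mem zero_le_one ht']
  rw [h4, h3]
  abel

/-- positive times -/
theorem FlowB_pos (hf : ContDiff ℝ 1 f) {S : ℝ} (hS : 0 < S) {x : E} {X : C(unitInterval, E)}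
    (h : ∀ τ : unitInterval, X τ = x + S • ∫ t in (0 : ℝ)..τ, f (X (projIcc 0 1 zero_le_one t))) :
    ∃ c, SolOn f S c ∧ c 0 = x ∧ ∀ τ : unitInterval, X τ = c (S * τ) := by
  classical
  set F : ℝ → E := fun t => f (X (projIcc 0 1 zero_le_one t)) with hF
  have hFc : Continuous F :=
    hf.continuous.comp (X.continuous.comp continuous_projIcc)
  set u : ℝ → E := fun t => x + S • ∫ r in (0 : ℝ)..t, F r with hu
  have hud : ∀ t, HasDerivAt u (S • F t) t := by
    intro t
    exact (((hFc.integral_hasStrictDerivAt 0 t).hasDerivAt).const_smul S).const_add x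
  have huX : ∀ τ : unitInterval, X τ = u τ := h
  have hFu : ∀ t ∈ Icc (0 : ℝ) 1, F t = f (u t) := by
    intro t ht
    simp only [hF]
    rw [projIcc_of_mem zero_le_one ht, huX ⟨t, ht⟩]
  have hu0 : u 0 = x := by
    simp [hu]
  set c₁ : ℝ → E := fun s => u (S⁻¹ * s) with hc₁
  have hc₁0 : c₁ 0 = x := by simp only [hc₁, mul_zero, hu0]
  have hd1 : ∀ s ∈ Icc 0 S, HasDerivAt c₁ (f (c₁ s)) s := by
    intro s hs
    have hs' : S⁻¹ * s ∈ Icc (0 : ℝ) 1 := by
      constructor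
      · exact mul_nonneg (inv_nonneg.mpr hS.le) hs.1
      · rw [inv_mul_le_iff₀ hS, mul_one]
        exact hs.2
    have h1 : HasDerivAt (fun s : ℝ => S⁻¹ * s) S⁻¹ s := by
      simpa using (hasDerivAt_id s).const_mul S⁻¹
    have h2 := (hud (S⁻¹ * s)).scomp s h1
    rw [smul_smul, inv_mul_cancel₀ hS.ne', one_smul, hFu _ hs'] at h2
    exact h2
  obtain ⟨v, ⟨a, b, ha, hb, -, -, hv⟩, hv0⟩ := SolOn.exists_local hf x
  obtain ⟨w, ⟨a', b', ha', hb', -, -, hw⟩, hw0⟩ := SolOn.exists_local hf (c₁ S)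
  -- first glueing
  set e : ℝ → E := fun s => if s ≤ 0 then v s else c₁ s with he
  have he1 : ∀ s ≤ 0, e s = v s := fun s hs => by simp only [he]; rw [if_pos hs]
  have he2 : ∀ s, 0 < s → e s = c₁ s := fun s hs => by
    simp only [he]; rw [if_neg (not_le.mpr hs)]
  have hed : ∀ s ∈ Ioo a S, HasDerivAt e (f (e s)) s :=
    FlowB_glue v c₁ (fun s hs => hv s ⟨hs.1, hs.2.trans hb⟩) (hv 0 ⟨ha, hb⟩)
      (fun s hs => hd1 s ⟨hs.1.le, hs.2.le⟩) (hd1 0 ⟨le_rfl, hS.le⟩) (by rw [hv0, hc₁0]) e he1 he2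
  have hedS : HasDerivAt e (f (e S)) S := by
    rw [he2 S hS]
    refine (hd1 S ⟨hS.le, le_rfl⟩).congr_of_eventuallyEq ?_
    filter_upwards [Ioi_mem_nhds hS] with r hr
    exact he2 r hr
  -- second glueing
  set w' : ℝ → E := fun s => w (s - S) with hw'
  have hw'd : ∀ s ∈ Ioo (a' + S) (b' + S), HasDerivAt w' (f (w' s)) s := by
    intro s hs
    exact (hw (s - S) ⟨by linarith [hs.1], by linarith [hs.2]⟩).comp_sub_const s S
  have hw'S : w' S = c₁ S := by
    simp only [hw', sub_self, hw0]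
  set g : ℝ → E := fun s => if s ≤ S then e s else w' s with hg
  have hg1 : ∀ s ≤ S, g s = e s := fun s hs => by simp only [hg]; rw [if_pos hs]
  have hg2 : ∀ s, S < s → g s = w' s := fun s hs => by
    simp only [hg]; rw [if_neg (not_le.mpr hs)]
  have hgd : ∀ s ∈ Ioo a (b' + S), HasDerivAt g (f (g s)) s :=
    FlowB_glue e w' hed hedS (fun s hs => hw'd s ⟨by linarith [hs.1], hs.2⟩)
      (hw'd S ⟨by linarith, by linarith⟩) (by rw [hw'S, he2 S hS]) g hg1 hg2
  refine ⟨g, ⟨a, b' + S, ha, by linarith, by linarith, by linarith, hgd⟩, ?_, ?_⟩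
  · rw [hg1 0 hS.le, he1 0 le_rfl, hv0]
  · intro τ
    have h1 : S * τ ≤ S := by
      have := τ.2.2
      nlinarith
    rw [hg1 _ h1, huX]
    rcases τ.2.1.eq_or_lt with h0 | h0
    · rw [← h0, mul_zero, he1 0 le_rfl, hv0, hu0]
    · rw [he2 _ (mul_pos hS h0)]
      simp only [hc₁]
      rw [← mul_assoc, inv_mul_cancel₀ hS.ne', one_mul]

/-- Proof.  If `S = 0` take a local solution (`SolOn.exists_local`).  Let `S > 0` (for `S < 0`
replace `f` by `-f` and reverse the time).  `u s = x + ∫ 0..s, f (X (proj (r / S))) dr` is `C¹` on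
`ℝ`, and equals `X (s / S)` for `s ∈ [0, S]`, so `u' s = f (u s)` for `s ∈ [0, S]` (two-sided
derivative of `u`).  Glue with a local solution `v` at `x` for `s < 0` and a local solution `w` at
`u S` for `s > S`: `c s = v s` (`s ≤ 0`), `u s` (`0 ≤ s ≤ S`), `w (s - S)` (`s ≥ S`); the one-sided
derivatives at `0` and `S` agree (`HasDerivWithinAt.union`, see `Solves.concat` in
`Lib_MP_5027f4_mp/Concat.lean`). -/
theorem solOn_of_path (hf : ContDiff ℝ 1 f) {S : ℝ} {x : E} {X : C(unitInterval, E)}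
    (h : ∀ τ : unitInterval, X τ = x + S • ∫ t in (0 : ℝ)..τ, f (X (projIcc 0 1 zero_le_one t))) :
    ∃ c, SolOn f S c ∧ c 0 = x ∧ ∀ τ : unitInterval, X τ = c (S * τ) := by
  rcases lt_trichotomy S 0 with hS | hS | hS
  · have h' : ∀ τ : unitInterval, X τ = x + (-S) • ∫ t in (0 : ℝ)..τ,
        (fun y => -f y) (X (projIcc 0 1 zero_le_one t)) := by
      intro τ
      rw [h τ]
      simp only [intervalIntegral.integral_neg, smul_neg, neg_smul, neg_neg]
    obtain ⟨c, ⟨a, b, ha, hb, haS, hSb, hc⟩, hc0, hcX⟩ := FlowB_pos hf.neg (by linarith) h'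
    refine ⟨fun s => c (-s), ⟨-b, -a, by linarith, by linarith, by linarith, by linarith, ?_⟩,
      by simpa using hc0, ?_⟩
    · intro s hs
      have h1 := hc (-s) ⟨by linarith [hs.2], by linarith [hs.1]⟩
      have h2 : HasDerivAt (fun s : ℝ => -s) (-1) s := hasDerivAt_neg s
      have h3 := h1.scomp s h2
      simpa [Function.comp_def] using h3
    · intro τ
      rw [hcX τ]
      congr 1
      ring
  · subst hS
    obtain ⟨c, hc, hc0⟩ := SolOn.exists_local hf x
    refine ⟨c, hc, hc0, fun τ => ?_⟩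
    rw [h τ, zero_smul, add_zero, zero_mul, hc0]
  · exact FlowB_pos hf hS h

end Pool.Agent.MP_5027f4_cont
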