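import Pool.Agent.Lib_MP_5027f4_cont.FlowA
import Pool.Agent.Lib_MP_5027f4_cont.FlowB

/-!
PIECE [FlowC] (MP_5027f4_mp, T1).  The local flow of a Hamiltonian field near a solution.
-/

open Set Filter Topology Metric
open scoped ContDiff

namespace Pool.Agent.MP_5027f4_cont

variable {E : Type*} [NormedAddCommGroup E] [NormedSpace ℝ E] [CompleteSpace E]

omit [CompleteSpace E] in
/-- The derivative of a Hamiltonian field is infinitesimally symplectic. -/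
theorem ham_infinitesimal {f : E → E} (hf1 : ContDiff ℝ 1 f)
    (Ω : E →L[ℝ] E →L[ℝ] ℝ) (halt : ∀ x, Ω x x = 0) (Γ : E → ℝ) (hΓ : ContDiff ℝ 2 Γ)
    (hH : ∀ x ξ, Ω (f x) ξ = fderiv ℝ Γ x ξ) (x ξ η : E) :
    Ω (fderiv ℝ f x ξ) η + Ω ξ (fderiv ℝ f x η) = 0 := by
  have hanti : ∀ a b, Ω a b = - Ω b a := by
    intro a b
    have h1 := halt (a + b)
    simp only [map_add, add_apply, halt] at h1
    linarith
  have key : ∀ ξ η, Ω (fderiv ℝ f x ξ) η = fderiv ℝ (fderiv ℝ Γ) x ξ η := by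
    intro ξ η
    have hfd : HasFDerivAt f (fderiv ℝ f x) x :=
      (hf1.differentiable one_ne_zero x).hasFDerivAt
    have h1 : HasFDerivAt (fun y => Ω (f y) η) ((Ω.flip η).comp (fderiv ℝ f x)) x := by
      have := ((Ω.flip η).hasFDerivAt (x := f x)).comp x hfd
      exact this
    have hG : HasFDerivAt (fderiv ℝ Γ) (fderiv ℝ (fderiv ℝ Γ) x) x := by
      have : ContDiff ℝ 1 (fderiv ℝ Γ) := hΓ.fderiv_right (by norm_num)
      exact (this.differentiable one_ne_zero x).hasFDerivAt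
    have h2 : HasFDerivAt (fun y => fderiv ℝ Γ y η)
        ((ContinuousLinearMap.apply ℝ ℝ η).comp (fderiv ℝ (fderiv ℝ Γ) x)) x := by
      have := ((ContinuousLinearMap.apply ℝ ℝ η).hasFDerivAt (x := fderiv ℝ Γ x)).comp x hG
      exact this
    have h3 : (fun y => Ω (f y) η) = fun y => fderiv ℝ Γ y η := funext fun y => hH y η
    rw [h3] at h1
    have h4 := congrArg (fun L : E →L[ℝ] ℝ => L ξ) (h1.unique h2)
    simpa using h4
  have hsymm : fderiv ℝ (fderiv ℝ Γ) x ξ η = fderiv ℝ (fderiv ℝ Γ) x η ξ := by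
    have h5 : IsSymmSndFDerivAt ℝ Γ x := by
      refine hΓ.contDiffAt.isSymmSndFDerivAt ?_
      simp
    exact h5 ξ η
  rw [hanti ξ, key, key, hsymm]
  ring

/-- Proof.  `N` from `hf`, `J` from `exists_intOp`, `x₀` from `path_of_solOn`, `P` from
`exists_path` at `p₀ = (S₀, γ 0)`; `Ψ p = P p 1` (evaluation at `1` is continuous linear).  For `p`
near `p₀`, `solOn_of_path` gives the solution `c`, `c p.1 = P p 1`.
Derivative in `S`: for `q = (S', p.2)` with `S'` near `p.1` also `Ψ q = c' S'` with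
`SolOn f S' c'`, `c' 0 = p.2`, while `SolOn f S' c` (`SolOn.eventually`), so `c' S' = c S'`
(`SolOn.unique`) and `d/dS' Ψ = f (c p.1)`.
Symplecticity: for `ξ` put `Y_ξ = fderiv ℝ P p (0, ξ)`; by `path_deriv`
`Y_ξ τ = ξ + p.1 • ∫ 0..τ, Df (P p t) (Y_ξ t) dt`, so `τ ↦ Ω (Y_ξ τ) (Y_η τ)` (extended by
`projIcc`) has the derivative `p.1 • (Ω (Df Y_ξ) Y_η + Ω Y_ξ (Df Y_η))` on `[0, 1]`, which is zero:
differentiating `Ω (f x) η = DΓ x η` gives `Ω (Df x ξ) η = D²Γ x ξ η`, symmetric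
(`second_derivative_symmetric`, `ContDiffAt.isSymmSndFDerivAt`), and `Ω` is alternating. -/
theorem exists_hamFlow {f : E → E} (hf : NemAn f) (hf1 : ContDiff ℝ 1 f)
    (Ω : E →L[ℝ] E →L[ℝ] ℝ) (halt : ∀ x, Ω x x = 0) (Γ : E → ℝ) (hΓ : ContDiff ℝ 2 Γ)
    (hH : ∀ x ξ, Ω (f x) ξ = fderiv ℝ Γ x ξ) {γ : ℝ → E} {S₀ : ℝ} (hγ : SolOn f S₀ γ) :
    ∃ Ψ : ℝ × E → E, AnalyticAt ℝ Ψ (S₀, γ 0) ∧ Ψ (S₀, γ 0) = γ S₀ ∧
      (∀ᶠ p in 𝓝 (S₀, γ 0), ∃ c, SolOn f p.1 c ∧ c 0 = p.2 ∧ c p.1 = Ψ p) ∧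
      (∀ᶠ p in 𝓝 (S₀, γ 0), fderiv ℝ Ψ p (1, 0) = f (Ψ p)) ∧
      ∀ᶠ p in 𝓝 (S₀, γ 0), ∀ ξ η,
        Ω (fderiv ℝ Ψ p (0, ξ)) (fderiv ℝ Ψ p (0, η)) = Ω ξ η := by
  obtain ⟨N, hN, hNf⟩ := hf
  obtain ⟨J, hJ⟩ := exists_intOp (E := E)
  obtain ⟨X₀, hX₀, hX₀e⟩ := path_of_solOn hf1 hγ
  have hJN : ∀ (x : C(unitInterval, E)) (τ : unitInterval),
      J (N x) τ = ∫ t in (0 : ℝ)..τ, f (x (projIcc 0 1 zero_le_one t)) := by
    intro x τ
    rw [hJ]
    simp only [hNf]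
  obtain ⟨P, hPan, hP0, hPe⟩ := exists_path hN hNf hf1 J hJ (x₀ := X₀) (p₀ := (S₀, γ 0))
    (fun τ => by rw [hJN]; exact hX₀e τ)
  set ev : C(unitInterval, E) →L[ℝ] E := ContinuousMap.evalCLM ℝ (1 : unitInterval) with hev
  have hevx : ∀ x, ev x = x 1 := fun x => rfl
  -- the solutions
  have h3 : ∀ᶠ p in 𝓝 (S₀, γ 0), ∃ c, SolOn f p.1 c ∧ c 0 = p.2 ∧ c p.1 = P p 1 := by
    filter_upwards [hPe] with p hp
    obtain ⟨c, hc, hc0, hcP⟩ := solOn_of_path hf1 (S := p.1) (x := p.2) (X := P p)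
      (fun τ => by rw [hp τ, hJN])
    refine ⟨c, hc, hc0, ?_⟩
    rw [hcP 1]
    simp
  have hdiff : ∀ᶠ p in 𝓝 (S₀, γ 0), DifferentiableAt ℝ P p :=
    hPan.eventually_analyticAt.mono fun p hp => hp.differentiableAt
  have hfd : ∀ p, DifferentiableAt ℝ P p → ∀ v,
      fderiv ℝ (fun p => P p 1) p v = fderiv ℝ P p v 1 := by
    intro p hp v
    have h1 : HasFDerivAt (fun p => P p 1) (ev.comp (fderiv ℝ P p)) p :=
      (ev.hasFDerivAt (x := P p)).comp p hp.hasFDerivAt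
    rw [h1.fderiv]
    rfl
  have hdiff1 : ∀ p, DifferentiableAt ℝ P p → DifferentiableAt ℝ (fun p => P p 1) p := by
    intro p hp
    exact ((ev.hasFDerivAt (x := P p)).comp p hp.hasFDerivAt).differentiableAt
  refine ⟨fun p => P p 1, ?_, ?_, h3, ?_, ?_⟩
  · exact (ev.analyticAt _).comp hPan
  · show P (S₀, γ 0) 1 = γ S₀
    rw [hP0, hX₀]
    simp
  · -- derivative in time
    filter_upwards [h3.eventually_nhds, hdiff] with p hp hpd
    obtain ⟨c, hc, hc0, hc1⟩ := hp.self_of_nhds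
    have hcur : ContinuousAt (fun s : ℝ => ((s, p.2) : ℝ × E)) p.1 := by fun_prop
    have h4 : ∀ᶠ s in 𝓝 p.1, ∃ c', SolOn f s c' ∧ c' 0 = p.2 ∧ c' s = P (s, p.2) 1 :=
      hcur.eventually hp
    have h5 : ∀ᶠ s in 𝓝 p.1, P (s, p.2) 1 = c s := by
      filter_upwards [h4, hc.eventually] with s hs hcs
      obtain ⟨c', hc', hc'0, hc's⟩ := hs
      rw [← hc's]
      exact SolOn.unique hf1 hc' hcs (hc'0.trans hc0.symm) s right_mem_uIcc
    have h6 : HasDerivAt (fun s => P (s, p.2) 1) (f (c p.1)) p.1 :=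
      (hc.hasDerivAt right_mem_uIcc).congr_of_eventuallyEq h5
    have h7 : HasDerivAt (fun s : ℝ => ((s, p.2) : ℝ × E)) (1, 0) p.1 :=
      (hasDerivAt_id _).prodMk (hasDerivAt_const _ _)
    have h8 : HasDerivAt (fun s => P (s, p.2) 1) (fderiv ℝ (fun p => P p 1) p (1, 0)) p.1 :=
      (hdiff1 p hpd).hasFDerivAt.comp_hasDerivAt (f := fun s : ℝ => ((s, p.2) : ℝ × E)) p.1 h7
    rw [h8.unique h6, hc1]
  · -- symplecticity
    filter_upwards [path_deriv hN hNf hf1 J hJ hPan hPe, hdiff] with p hp hpd ξ η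
    rw [hfd p hpd, hfd p hpd]
    set A : ℝ → E →L[ℝ] E := fun t => fderiv ℝ f (P p (projIcc 0 1 zero_le_one t)) with hA
    have hproj : Continuous (fun t : ℝ => (projIcc (0 : ℝ) 1 zero_le_one t : unitInterval)) :=
      continuous_projIcc
    have hAc : Continuous A := by
      have h1 : Continuous (fderiv ℝ f) := hf1.continuous_fderiv one_ne_zero
      exact h1.comp ((P p).continuous.comp hproj)
    set Y : E → ℝ → E := fun ξ t => fderiv ℝ P p (0, ξ) (projIcc 0 1 zero_le_one t) with hY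
    have hYc : ∀ ξ, Continuous (Y ξ) := fun ξ =>
      (fderiv ℝ P p (0, ξ)).continuous.comp hproj
    set Z : E → ℝ → E := fun ξ t => ξ + p.1 • ∫ s in (0 : ℝ)..t, A s (Y ξ s) with hZ
    have hZd : ∀ ξ t, HasDerivAt (Z ξ) (p.1 • A t (Y ξ t)) t := by
      intro ξ t
      have hc : Continuous fun s => A s (Y ξ s) := hAc.clm_apply (hYc ξ)
      have h1 : HasDerivAt (fun t => ∫ s in (0 : ℝ)..t, A s (Y ξ s)) (A t (Y ξ t)) t :=
        intervalIntegral.integral_hasDerivAt_right (hc.intervalIntegrable _ _)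
          (hc.stronglyMeasurableAtFilter _ _) hc.continuousAt
      exact (h1.const_smul p.1).const_add ξ
    have hZY : ∀ ξ, ∀ t ∈ Icc (0 : ℝ) 1, Z ξ t = Y ξ t := by
      intro ξ t ht
      have h1 := hp ξ ⟨t, ht⟩
      have h2 : projIcc (0 : ℝ) 1 zero_le_one t = ⟨t, ht⟩ := projIcc_of_mem _ ht
      simp only [hZ, hY, h2]
      rw [h1]
    have hGd : ∀ t, HasDerivAt (fun t => Ω (Z ξ t) (Z η t))
        (Ω (p.1 • A t (Y ξ t)) (Z η t) + Ω (Z ξ t) (p.1 • A t (Y η t))) t := by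
      intro t
      have h1 : HasDerivAt (fun t => Ω (Z ξ t)) (Ω (p.1 • A t (Y ξ t))) t :=
        (Ω.hasFDerivAt (x := Z ξ t)).comp_hasDerivAt t (hZd ξ t)
      exact h1.clm_apply (hZd η t)
    have hconst := constant_of_has_deriv_right_zero (f := fun t => Ω (Z ξ t) (Z η t))
      (a := (0 : ℝ)) (b := 1)
      (fun t _ => (hGd t).continuousAt.continuousWithinAt)
      (fun t ht => by
        have h1 := (hGd t).hasDerivWithinAt (s := Ici t)
        have ht' : t ∈ Icc (0 : ℝ) 1 := Ico_subset_Icc_self ht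
        have h2 : Ω (p.1 • A t (Y ξ t)) (Z η t) + Ω (Z ξ t) (p.1 • A t (Y η t)) = 0 := by
          rw [hZY ξ t ht', hZY η t ht']
          have h3 := ham_infinitesimal hf1 Ω halt Γ hΓ hH (P p (projIcc 0 1 zero_le_one t))
            (Y ξ t) (Y η t)
          rw [map_smul, map_smul, smul_apply, ← smul_add]
          change p.1 • (Ω (A t (Y ξ t)) (Y η t) + Ω (Y ξ t) (A t (Y η t))) = 0
          rw [show Ω (A t (Y ξ t)) (Y η t) + Ω (Y ξ t) (A t (Y η t)) = 0 from h3, smul_zero]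
        rwa [h2] at h1) 1 (right_mem_Icc.2 zero_le_one)
    have hY1 : ∀ ξ, Y ξ 1 = fderiv ℝ P p (0, ξ) 1 := by
      intro ξ
      simp only [hY]
      rw [projIcc_right]
      rfl
    have hZ0 : ∀ ξ, Z ξ 0 = ξ := by
      intro ξ
      simp [hZ]
    simp only [hZY ξ 1 (right_mem_Icc.2 zero_le_one), hZY η 1 (right_mem_Icc.2 zero_le_one),
      hY1, hZ0] at hconst
    exact hconst

end Pool.Agent.MP_5027f4_cont
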