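import Pool.Agent.Lib_MP_5027f4_cont.ComE

/-!
# Linearization at relative equilibria
-/

open Set Filter Topology Metric
open scoped ComplexConjugate ContDiff
open Pool.Agent.MP_5027f4_mp

namespace Pool.Agent.MP_5027f4_cont

/-- the linearization in the frame rotating with the angular velocity `Ω` -/
noncomputable def Br (m : Fin 3 → ℝ) (Ω : ℝ) (y : comSub m) (w : comSub m) : comSub m :=
  fderiv ℝ (fld₀ m) y w - ((Ω : ℂ) * Complex.I) • w

/-- `Br` has the complex eigenvalue `s` (with the eigenvector `w₁ + i w₂`) -/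
def HasEv (m : Fin 3 → ℝ) (Ω : ℝ) (y : comSub m) (s : ℂ) : Prop :=
  ∃ w₁ w₂ : comSub m, (w₁ ≠ 0 ∨ w₂ ≠ 0) ∧ Br m Ω y w₁ = s.re • w₁ - s.im • w₂ ∧
    Br m Ω y w₂ = s.im • w₁ + s.re • w₂

/-- `y` is the initial point of a relative equilibrium with angular velocity `Ω` -/
def IsRE (m : Fin 3 → ℝ) (Ω : ℝ) (y : comSub m) : Prop :=
  y ∈ noColl₀ m ∧ fld₀ m y = ((Ω : ℂ) * Complex.I) • y

end Pool.Agent.MP_5027f4_cont
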