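import Pool.Agent.Lib_MP_5027f4_cont.GDefs

/-!
PIECE [GLin] (MP_5027f4_mp, T1).  The linearized force.
-/

open Set Filter Topology Metric Polynomial
open scoped ComplexConjugate ContDiff
open Pool.Agent.MP_5027f4_mp

namespace Pool.Agent.MP_5027f4_cont

variable {m : Fin 3 → ℝ}

private theorem GLin_term {d d' : ℂ} (c : ℝ) (h0 : d ≠ 0) :
    HasDerivAt (fun t : ℝ => (c / ‖d + (t : ℂ) * d'‖ ^ 3) • (d + (t : ℂ) * d'))
      ((c : ℂ) * (d' / (‖d‖ : ℂ) ^ 3 - 3 * (((conj d * d').re : ℝ) : ℂ) * d / (‖d‖ : ℂ) ^ 5)) 0 := by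
  have hd : HasDerivAt (fun t : ℝ => d + (t : ℂ) * d') d' 0 := by
    have h1 : HasDerivAt (fun t : ℝ => (t : ℂ)) 1 0 := Complex.ofRealCLM.hasDerivAt
    have h2 := (h1.mul_const d').const_add d
    simpa using h2
  have hv : d + ((0 : ℝ) : ℂ) * d' = d := by simp
  have h1 := hasDerivAt_norm_inv hd (by rw [hv]; exact h0)
  have h2 := ((h1.fun_pow 3).const_mul c).smul hd
  have hfun : (fun t : ℝ => (c / ‖d + (t : ℂ) * d'‖ ^ 3) • (d + (t : ℂ) * d')) =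
      fun t : ℝ => (c * (‖d + (t : ℂ) * d'‖⁻¹) ^ 3) • (d + (t : ℂ) * d') := by
    funext t
    rw [div_eq_mul_inv, inv_pow]
  rw [hfun]
  refine HasDerivAt.congr_deriv h2 ?_
  rw [hv, inner_eq]
  have hn : (‖d‖ : ℂ) ≠ 0 := by
    exact_mod_cast norm_ne_zero_iff.mpr h0
  simp only [Complex.real_smul, Complex.mul_re, Complex.conj_re, Complex.conj_im]
  push_cast
  field_simp
  ring

/-- Derivative of the acceleration: with `d = q_b - q_a`, `δ = Q_b - Q_a`, `r = ‖d‖`,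
`D acc (q) Q a = Σ_{b ≠ a} m_b (δ / r³ - 3 Re (conj d δ) d / r⁵)`.
Proof: differentiate the curve `q + t Q` (`hasDerivAt_norm_inv`), `acc_eq`. -/
theorem fderiv_fld_apply {p : Ph} (hp : p ∈ noColl) (δ : Ph) :
    (fderiv ℝ (fld m) p δ).1 = δ.2 ∧ ∀ a, (fderiv ℝ (fld m) p δ).2 a =
      ∑ b ∈ Finset.univ.erase a, (m b : ℂ) * ((δ.1 b - δ.1 a) / (‖p.1 b - p.1 a‖ : ℂ) ^ 3 -
        3 * (((conj (p.1 b - p.1 a) * (δ.1 b - δ.1 a)).re : ℝ) : ℂ) * (p.1 b - p.1 a) /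
          (‖p.1 b - p.1 a‖ : ℂ) ^ 5) := by
  have hdiff : DifferentiableAt ℝ (fld m) p :=
    ((contDiffOn_fld m).differentiableOn (by norm_num)).differentiableAt
      (isOpen_noColl.mem_nhds hp)
  have hcurve : HasDerivAt (fun t : ℝ => p + t • δ) δ 0 := by
    have h1 : HasDerivAt (fun t : ℝ => t) 1 (0 : ℝ) := hasDerivAt_id 0
    have h2 := (h1.smul_const δ).const_add p
    simpa using h2
  have hp0 : p + (0 : ℝ) • δ = p := by simp
  have hF : HasDerivAt (fun t : ℝ => fld m (p + t • δ)) (fderiv ℝ (fld m) p δ) 0 := by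
    have h1 : HasFDerivAt (fld m) (fderiv ℝ (fld m) p) (p + (0 : ℝ) • δ) := by
      rw [hp0]
      exact hdiff.hasFDerivAt
    exact h1.comp_hasDerivAt (0 : ℝ) hcurve
  have hF1 : HasDerivAt (fun t : ℝ => (fld m (p + t • δ)).1) (fderiv ℝ (fld m) p δ).1 0 :=
    (ContinuousLinearMap.fst ℝ (Fin 3 → ℂ) (Fin 3 → ℂ)).hasFDerivAt.comp_hasDerivAt (0 : ℝ) hF
  have hF2 : HasDerivAt (fun t : ℝ => (fld m (p + t • δ)).2) (fderiv ℝ (fld m) p δ).2 0 :=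
    (ContinuousLinearMap.snd ℝ (Fin 3 → ℂ) (Fin 3 → ℂ)).hasFDerivAt.comp_hasDerivAt (0 : ℝ) hF
  constructor
  · have hS : HasDerivAt (fun t : ℝ => (p + t • δ).2) δ.2 0 :=
      (ContinuousLinearMap.snd ℝ (Fin 3 → ℂ) (Fin 3 → ℂ)).hasFDerivAt.comp_hasDerivAt (0 : ℝ)
        hcurve
    exact hF1.unique hS
  · intro a
    have hFa : HasDerivAt (fun t : ℝ => (fld m (p + t • δ)).2 a) ((fderiv ℝ (fld m) p δ).2 a) 0 :=
      hasDerivAt_pi.mp hF2 a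
    have hG : HasDerivAt (fun t : ℝ => ∑ b ∈ Finset.univ.erase a,
        (m b / ‖(p.1 b - p.1 a) + (t : ℂ) * (δ.1 b - δ.1 a)‖ ^ 3) •
          ((p.1 b - p.1 a) + (t : ℂ) * (δ.1 b - δ.1 a)))
        (∑ b ∈ Finset.univ.erase a, (m b : ℂ) * ((δ.1 b - δ.1 a) / (‖p.1 b - p.1 a‖ : ℂ) ^ 3 -
        3 * (((conj (p.1 b - p.1 a) * (δ.1 b - δ.1 a)).re : ℝ) : ℂ) * (p.1 b - p.1 a) /
          (‖p.1 b - p.1 a‖ : ℂ) ^ 5)) 0 := by
      apply HasDerivAt.fun_sum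
      intro b hb
      exact GLin_term (m b) (sub_ne_zero.mpr (hp b a (Finset.mem_erase.mp hb).1))
    have heq : (fun t : ℝ => (fld m (p + t • δ)).2 a) = fun t : ℝ => ∑ b ∈ Finset.univ.erase a,
        (m b / ‖(p.1 b - p.1 a) + (t : ℂ) * (δ.1 b - δ.1 a)‖ ^ 3) •
          ((p.1 b - p.1 a) + (t : ℂ) * (δ.1 b - δ.1 a)) := by
      funext t
      change acc m (p + t • δ).1 a = _
      rw [acc]
      refine Finset.sum_congr rfl fun b _ => ?_
      have h1 : (p + t • δ).1 b - (p + t • δ).1 a =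
          (p.1 b - p.1 a) + (t : ℂ) * (δ.1 b - δ.1 a) := by
        simp only [Prod.fst_add, Prod.smul_fst, Pi.add_apply, Pi.smul_apply, Complex.real_smul]
        ring
      rw [h1]
    rw [heq] at hFa
    exact hFa.unique hG

/-- A relative equilibrium satisfies `v = i Ω q`, `acc q = - Ω² q`. -/
theorem IsRE.eqs {Ω : ℝ} {y : comSub m} (h : IsRE m Ω y) :
    (∀ a, (y : Ph).2 a = ((Ω : ℂ) * Complex.I) * (y : Ph).1 a) ∧
      ∀ a, acc m (y : Ph).1 a = -((Ω ^ 2 : ℝ) : ℂ) * (y : Ph).1 a := by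
  have h1 : ((fld₀ m y : comSub m) : Ph) = (((Ω : ℂ) * Complex.I) • y : comSub m) := by
    rw [h.2]
  have h2 : ((y : Ph).2, acc m (y : Ph).1) = ((Ω : ℂ) * Complex.I) • (y : Ph) := h1
  have h3 : (y : Ph).2 = ((Ω : ℂ) * Complex.I) • (y : Ph).1 := congrArg Prod.fst h2
  have h4 : acc m (y : Ph).1 = ((Ω : ℂ) * Complex.I) • (y : Ph).2 := congrArg Prod.snd h2
  refine ⟨fun a => by rw [h3]; rfl, fun a => ?_⟩
  rw [h4, h3]
  simp only [Pi.smul_apply, smul_eq_mul]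
  push_cast
  linear_combination ((Ω : ℂ) ^ 2 * (y : Ph).1 a) * Complex.I_sq

end Pool.Agent.MP_5027f4_cont
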