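import Pool.Agent.Lib_MP_5027f4_cont.Defs

/-!
PIECE [HArc] (MP_5027f4_mp, T1).  Rotations avoided near a stable orbit.
-/

open Set Filter Topology Metric Polynomial
open scoped ComplexConjugate ContDiff
open Pool.Agent.MP_5027f4_mp

namespace Pool.Agent.MP_5027f4_cont

variable {m : Fin 3 → ℝ} {x : ℝ → Ph}

/-- Proof: contained in the proof of `lock_arc` in `Lib_MP_5027f4_mp/Concat.lean`: `w` is a rotation
with `w • x 0 ∉ range x`, `V` the thickening of `range x` by `δ / 2`, `ρ = δ / (2 M')`, `U` from the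
stability applied to `V`, intersected with `V`. -/
theorem exists_avoided (hx : Solves (fld m) (frame m) univ x) {P : ℝ}
    (hP : 0 < P) (hper : ∀ t, x (t + P) = x t) (hst : LyapunovStable m (range x))
    (hnc : ¬ ∀ a b t, ‖(x t).1 a - (x t).1 b‖ = ‖(x 0).1 a - (x 0).1 b‖) :
    ∃ w : ℂ, ‖w‖ = 1 ∧ ∃ ρ > 0, ∃ V, IsOpen V ∧ range x ⊆ V ∧
      (∀ p ∈ V, ∀ w' : ℂ, w' • p ∈ V → ρ ≤ ‖w' - w‖) ∧ ∃ U, IsOpen U ∧ range x ⊆ U ∧ U ⊆ V ∧
        ∀ τ ≥ 0, ∀ z, Solves (fld m) (frame m) (Icc 0 τ) z → z 0 ∈ U → z τ ∈ V := by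
  have hxc : Continuous x := solution_continuous hx
  have hxΩ : Solves (fld m) noColl univ x := fun t ht => ⟨(hx t ht).1.1, (hx t ht).2⟩
  have hcomp : IsCompact (range x) := by
    have : range x = x '' Icc 0 P := by
      apply subset_antisymm
      · rintro _ ⟨t, rfl⟩
        have hp : Function.Periodic x P := hper
        obtain ⟨s, hs, hst⟩ := hp.exists_mem_Ico₀ hP t
        exact ⟨s, Ico_subset_Icc_self hs, hst.symm⟩
      · exact image_subset_range _ _
    rw [this]
    exact isCompact_Icc.image hxc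
  obtain ⟨w, hw, hw0⟩ : ∃ w : ℂ, ‖w‖ = 1 ∧ w • x 0 ∉ range x := by
    by_contra h
    push Not at h
    exact hnc fun a b t => const_of_rotation_invariant hx h a b t
  -- the rotated orbit is disjoint from the orbit
  have hdis : Disjoint (range x) ((fun p : Ph => w • p) '' range x) := by
    rw [Set.disjoint_left]
    rintro _ ⟨s, rfl⟩ ⟨_, ⟨t, rfl⟩, hst'⟩
    have hst'' : w • x t = x s := hst'
    apply hw0
    have h1 : Solves (fld m) noColl univ (fun s => w • x s) := fun s hs =>
      ⟨((hx.rotate hw) s hs).1.1, ((hx.rotate hw) s hs).2⟩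
    have h2 := congrFun ((hxΩ.shift (s - t)).eq_of_eq isOpen_noColl (contDiffOn_fld m) h1
      (t₀ := t) (by rw [sub_add_cancel, hst''])) 0
    exact ⟨s - t + 0, h2⟩
  obtain ⟨δ, hδ, hthick⟩ := hdis.exists_thickenings hcomp
    (hcomp.image (continuous_const_smul w)).isClosed
  obtain ⟨M, hM⟩ := (hcomp.isBounded.thickening (δ := δ / 2)).exists_norm_le
  set M' := max M 1 with hM'
  have hM'0 : 0 < M' := lt_of_lt_of_le one_pos (le_max_right _ _)
  set ρ := δ / (2 * M') with hρ
  have hρ0 : 0 < ρ := by positivity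
  have hkey : ∀ p ∈ thickening (δ / 2) (range x), ∀ w' : ℂ,
      w' • p ∈ thickening (δ / 2) (range x) → ρ ≤ ‖w' - w‖ := by
    intro p hp w' hw'
    by_contra hlt
    push Not at hlt
    have hpM : ‖p‖ ≤ M' := (hM p hp).trans (le_max_left _ _)
    obtain ⟨_, ⟨t, rfl⟩, hpt⟩ := mem_thickening_iff.mp hp
    have h1 : dist (w' • p) (w • x t) < δ := by
      have h2 : dist (w' • p) (w • p) < δ / 2 := by
        rw [dist_rot_sub]
        calc ‖w' - w‖ * ‖p‖ ≤ ‖w' - w‖ * M' := mul_le_mul_of_nonneg_left hpM (norm_nonneg _)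
          _ < ρ * M' := mul_lt_mul_of_pos_right hlt hM'0
          _ = δ / 2 := by
              rw [hρ]
              field_simp
      have h3 : dist (w • p) (w • x t) < δ / 2 := by
        rw [dist_eq_norm, ← smul_sub, norm_smul, hw, one_mul, ← dist_eq_norm]
        exact hpt
      calc dist (w' • p) (w • x t) ≤ dist (w' • p) (w • p) + dist (w • p) (w • x t) :=
            dist_triangle _ _ _
        _ < δ / 2 + δ / 2 := add_lt_add h2 h3
        _ = δ := by ring
    have h4 : w' • p ∈ thickening δ ((fun p : Ph => w • p) '' range x) :=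
      mem_thickening_iff.mpr ⟨w • x t, ⟨x t, mem_range_self t, rfl⟩, h1⟩
    have h5 : w' • p ∈ thickening δ (range x) :=
      thickening_mono (by linarith) _ hw'
    exact (Set.disjoint_left.mp hthick) h5 h4
  obtain ⟨U₂, hU₂, hxU₂, hU⟩ := hst (thickening (δ / 2) (range x)) isOpen_thickening
    (self_subset_thickening (by positivity) _)
  refine ⟨w, hw, ρ, hρ0, thickening (δ / 2) (range x), isOpen_thickening,
    self_subset_thickening (by positivity) _, hkey, U₂ ∩ thickening (δ / 2) (range x),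
    hU₂.inter isOpen_thickening, subset_inter hxU₂ (self_subset_thickening (by positivity) _),
    inter_subset_right, ?_⟩
  intro τ hτ z hz hz0
  rcases hτ.eq_or_lt with h | h
  · rw [← h]
    exact hz0.2
  · exact hU τ h z hz hz0.1 τ ⟨h.le, le_rfl⟩

end Pool.Agent.MP_5027f4_cont
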