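import Pool.Agent.Lib_MP_5027f4_cont.Taylor

/-!
PIECE [Ham] (MP_5027f4_mp, T1).  The lowest order terms of a symplectic map are Hamiltonian.
-/

open Set Filter Topology Metric Polynomial Asymptotics
open scoped ComplexConjugate ContDiff

namespace Pool.Agent.MP_5027f4_cont

theorem ham_os_add_left (a b c : ℂ × ℂ) : os (a + b) c = os a c + os b c := by
  simp only [os, Prod.fst_add, Prod.snd_add, map_add, Complex.add_im, Complex.mul_im,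
    Complex.add_re]
  ring

theorem ham_os_add_right (a b c : ℂ × ℂ) : os a (b + c) = os a b + os a c := by
  simp only [os, Prod.fst_add, Prod.snd_add, Complex.add_im, Complex.mul_im,
    Complex.add_re]
  ring

theorem ham_os_smul_left (r : ℝ) (a b : ℂ × ℂ) : os (r • a) b = r * os a b := by
  simp only [os, Prod.smul_fst, Prod.smul_snd, Complex.add_im, Complex.mul_im,
    Complex.conj_re, Complex.conj_im, Complex.real_smul, Complex.mul_re, Complex.ofReal_re,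
    Complex.ofReal_im]
  ring

theorem ham_os_smul_right (r : ℝ) (a b : ℂ × ℂ) : os a (r • b) = r * os a b := by
  simp only [os, Prod.smul_fst, Prod.smul_snd, Complex.add_im, Complex.mul_im,
    Complex.conj_re, Complex.conj_im, Complex.real_smul, Complex.mul_re, Complex.ofReal_re,
    Complex.ofReal_im]
  ring

theorem ham_os_anti (a b : ℂ × ℂ) : os a b = - os b a := by
  simp only [os, Complex.add_im, Complex.mul_im, Complex.conj_re, Complex.conj_im]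
  ring

theorem ham_abs_os_le (a b : ℂ × ℂ) : |os a b| ≤ 2 * ‖a‖ * ‖b‖ := by
  have h1 : |os a b| ≤ ‖(starRingEnd ℂ) a.1 * b.1 + (starRingEnd ℂ) a.2 * b.2‖ :=
    Complex.abs_im_le_norm _
  have h2 : ‖(starRingEnd ℂ) a.1 * b.1 + (starRingEnd ℂ) a.2 * b.2‖ ≤
      ‖a.1‖ * ‖b.1‖ + ‖a.2‖ * ‖b.2‖ := by
    refine (norm_add_le _ _).trans (le_of_eq ?_)
    rw [norm_mul, norm_mul, RCLike.norm_conj, RCLike.norm_conj]
  have h3 : ‖a.1‖ ≤ ‖a‖ := norm_fst_le a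
  have h4 : ‖a.2‖ ≤ ‖a‖ := norm_snd_le a
  have h5 : ‖b.1‖ ≤ ‖b‖ := norm_fst_le b
  have h6 : ‖b.2‖ ≤ ‖b‖ := norm_snd_le b
  have h7 : ‖a.1‖ * ‖b.1‖ ≤ ‖a‖ * ‖b‖ := mul_le_mul h3 h5 (norm_nonneg _) (norm_nonneg _)
  have h8 : ‖a.2‖ * ‖b.2‖ ≤ ‖a‖ * ‖b‖ := mul_le_mul h4 h6 (norm_nonneg _) (norm_nonneg _)
  nlinarith

/-- `os` as a continuous bilinear map. -/
noncomputable def hamOsB : (ℂ × ℂ) →L[ℝ] (ℂ × ℂ) →L[ℝ] ℝ :=
  LinearMap.mkContinuous₂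
    (LinearMap.mk₂ ℝ os ham_os_add_left ham_os_smul_left ham_os_add_right ham_os_smul_right) 2
    (fun a b => by
      simp only [LinearMap.mk₂_apply, Real.norm_eq_abs]
      exact ham_abs_os_le a b)

theorem hamOsB_apply (a b : ℂ × ℂ) : hamOsB a b = os a b := rfl

theorem ham_aux {d : ℕ} (hd : 1 ≤ d) {P Q : ℂ × ℂ → ℂ × ℂ} {A : (ℂ × ℂ) →L[ℝ] (ℂ × ℂ)}
    (hQ : HG (d + 1) Q)
    (hO : (fun z => fderiv ℝ P z - (A + fderiv ℝ Q z)) =O[𝓝 0] fun z => ‖z‖ ^ (d + 1))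
    (hA : ∀ ξ η, os (A ξ) (A η) = os ξ η)
    (hs : ∀ᶠ z in 𝓝 0, ∀ ξ η, os (fderiv ℝ P z ξ) (fderiv ℝ P z η) = os ξ η) (z ξ η : ℂ × ℂ) :
    os (fderiv ℝ Q z ξ) (A η) + os (A ξ) (fderiv ℝ Q z η) = 0 := by
  refine eq_zero_of_homog (d := d)
    (f := fun z => os (fderiv ℝ Q z ξ) (A η) + os (A ξ) (fderiv ℝ Q z η)) ?_ ?_ z
  · intro t z
    simp only [hQ.fderiv_smul_arg t z, smul_apply, ham_os_smul_left,
      ham_os_smul_right, smul_eq_mul]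
    ring
  · obtain ⟨C, hC0, hC⟩ := hQ.fderiv_bound
    obtain ⟨K, hK⟩ := hO.bound
    have hK' : ∀ᶠ z : ℂ × ℂ in 𝓝 0, ‖z‖ < 1 := by
      have := Metric.ball_mem_nhds (0 : ℂ × ℂ) one_pos
      filter_upwards [this] with z hz
      simpa using hz
    set K' := max K 0 with hK'def
    have hK0 : 0 ≤ K' := le_max_right _ _
    set nA := ‖A‖ with hnA
    refine IsBigO.of_bound (2 * ‖ξ‖ * ‖η‖ * (C * C + K' * nA + nA * K' + K' * C + C * K' + K' * K'))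
      ?_
    filter_upwards [hK, hs, hK'] with z hz1 hz2 hz3
    set R := fderiv ℝ P z - (A + fderiv ℝ Q z) with hR
    set D := fderiv ℝ Q z with hD
    have hz0 : 0 ≤ ‖z‖ := norm_nonneg z
    have hP : fderiv ℝ P z = A + D + R := by rw [hR]; abel
    have hRb : ‖R‖ ≤ K' * ‖z‖ ^ (d + 1) := by
      have h1 : ‖(‖z‖ ^ (d + 1) : ℝ)‖ = ‖z‖ ^ (d + 1) := by
        rw [Real.norm_eq_abs, abs_of_nonneg (by positivity)]
      rw [h1] at hz1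
      exact hz1.trans (mul_le_mul_of_nonneg_right (le_max_left _ _) (by positivity))
    have hRb' : ‖R‖ ≤ K' := by
      refine hRb.trans ?_
      have : ‖z‖ ^ (d + 1) ≤ 1 := pow_le_one₀ hz0 hz3.le
      nlinarith
    have hDb : ‖D‖ ≤ C * ‖z‖ ^ d := hC z
    have hDb' : ‖D‖ ≤ C := by
      refine hDb.trans ?_
      have : ‖z‖ ^ d ≤ 1 := pow_le_one₀ hz0 hz3.le
      nlinarith
    have e1 := hz2 ξ η
    rw [hP] at e1
    simp only [add_apply, ham_os_add_left, ham_os_add_right] at e1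
    have e2 := hA ξ η
    have e3 : os (D ξ) (A η) + os (A ξ) (D η) = - (os (D ξ) (D η) + os (R ξ) (A η)
        + os (A ξ) (R η) + os (R ξ) (D η) + os (D ξ) (R η) + os (R ξ) (R η)) := by
      linarith
    have hb : ∀ (U V : (ℂ × ℂ) →L[ℝ] (ℂ × ℂ)) (x y : ℝ), ‖U‖ ≤ x → ‖V‖ ≤ y → 0 ≤ x →
        |os (U ξ) (V η)| ≤ 2 * ‖ξ‖ * ‖η‖ * (x * y) := by
      intro U V x y hU hV hx
      refine (ham_abs_os_le _ _).trans ?_
      have h1 : ‖U ξ‖ ≤ x * ‖ξ‖ := (U.le_opNorm ξ).trans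
        (mul_le_mul_of_nonneg_right hU (norm_nonneg _))
      have h2 : ‖V η‖ ≤ y * ‖η‖ := (V.le_opNorm η).trans
        (mul_le_mul_of_nonneg_right hV (norm_nonneg _))
      have h3 : ‖U ξ‖ * ‖V η‖ ≤ (x * ‖ξ‖) * (y * ‖η‖) :=
        mul_le_mul h1 h2 (norm_nonneg _) (by positivity)
      nlinarith
    have hpow : ‖z‖ ^ d * ‖z‖ ^ d ≤ ‖z‖ ^ (d + 1) := by
      rw [← pow_add]
      exact pow_le_pow_of_le_one hz0 hz3.le (by omega)
    have b1 := hb D D _ _ hDb hDb (by positivity)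
    have b2 := hb R A _ _ hRb le_rfl (by positivity)
    have b3 := hb A R _ _ le_rfl hRb (by positivity)
    have b4 := hb R D _ _ hRb hDb' (by positivity)
    have b5 := hb D R _ _ hDb' hRb (by positivity)
    have b6 := hb R R _ _ hRb hRb' (by positivity)
    have b1' : |os (D ξ) (D η)| ≤ 2 * ‖ξ‖ * ‖η‖ * (C * C * ‖z‖ ^ (d + 1)) := by
      refine b1.trans ?_
      have : C * ‖z‖ ^ d * (C * ‖z‖ ^ d) ≤ C * C * ‖z‖ ^ (d + 1) := by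
        have h := mul_le_mul_of_nonneg_left hpow (mul_nonneg hC0 hC0)
        calc C * ‖z‖ ^ d * (C * ‖z‖ ^ d) = C * C * (‖z‖ ^ d * ‖z‖ ^ d) := by ring
          _ ≤ _ := h
      exact mul_le_mul_of_nonneg_left this (by positivity)
    show ‖os (D ξ) (A η) + os (A ξ) (D η)‖ ≤ _ * ‖(‖z‖ ^ (d + 1) : ℝ)‖
    have h1 : ‖(‖z‖ ^ (d + 1) : ℝ)‖ = ‖z‖ ^ (d + 1) := by
      rw [Real.norm_eq_abs, abs_of_nonneg (by positivity)]
    rw [h1, Real.norm_eq_abs, e3, abs_neg]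
    have t1 := abs_add_le (os (D ξ) (D η) + os (R ξ) (A η)
        + os (A ξ) (R η) + os (R ξ) (D η) + os (D ξ) (R η)) (os (R ξ) (R η))
    have t2 := abs_add_le (os (D ξ) (D η) + os (R ξ) (A η)
        + os (A ξ) (R η) + os (R ξ) (D η)) (os (D ξ) (R η))
    have t3 := abs_add_le (os (D ξ) (D η) + os (R ξ) (A η)
        + os (A ξ) (R η)) (os (R ξ) (D η))
    have t4 := abs_add_le (os (D ξ) (D η) + os (R ξ) (A η)) (os (A ξ) (R η))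
    have t5 := abs_add_le (os (D ξ) (D η)) (os (R ξ) (A η))
    calc _ ≤ |os (D ξ) (D η)| + |os (R ξ) (A η)| + |os (A ξ) (R η)| + |os (R ξ) (D η)| +
        |os (D ξ) (R η)| + |os (R ξ) (R η)| := by linarith
      _ ≤ 2 * ‖ξ‖ * ‖η‖ * (C * C * ‖z‖ ^ (d + 1)) +
          2 * ‖ξ‖ * ‖η‖ * (K' * ‖z‖ ^ (d + 1) * ‖A‖) +
          2 * ‖ξ‖ * ‖η‖ * (‖A‖ * (K' * ‖z‖ ^ (d + 1))) +
          2 * ‖ξ‖ * ‖η‖ * (K' * ‖z‖ ^ (d + 1) * C) +
          2 * ‖ξ‖ * ‖η‖ * (C * (K' * ‖z‖ ^ (d + 1))) +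
          2 * ‖ξ‖ * ‖η‖ * (K' * ‖z‖ ^ (d + 1) * K') := by linarith
      _ = _ := by rw [← hnA]; ring

/-- Proof: insert `DP(z) = A + DQ₂(z) + O(‖z‖²)` in `os (DP ξ) (DP η) = os ξ η`; the terms of first
order vanish (`eq_zero_of_homog` for `d = 1`; `fderiv Q₂ (t z) = t fderiv Q₂ z`). -/
theorem ham2 {P Q₂ : ℂ × ℂ → ℂ × ℂ} {A : (ℂ × ℂ) →L[ℝ] (ℂ × ℂ)} (hQ : HG 2 Q₂)
    (hO : (fun z => fderiv ℝ P z - (A + fderiv ℝ Q₂ z)) =O[𝓝 0] fun z => ‖z‖ ^ 2)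
    (hA : ∀ ξ η, os (A ξ) (A η) = os ξ η)
    (hs : ∀ᶠ z in 𝓝 0, ∀ ξ η, os (fderiv ℝ P z ξ) (fderiv ℝ P z η) = os ξ η) (z ξ η : ℂ × ℂ) :
    os (fderiv ℝ Q₂ z ξ) (A η) + os (A ξ) (fderiv ℝ Q₂ z η) = 0 :=
  ham_aux (d := 1) le_rfl hQ hO hA hs z ξ η

/-- Proof: the same at second order. -/
theorem ham3 {P Q₃ : ℂ × ℂ → ℂ × ℂ} {A : (ℂ × ℂ) →L[ℝ] (ℂ × ℂ)} (hQ : HG 3 Q₃)
    (hO : (fun z => fderiv ℝ P z - (A + fderiv ℝ Q₃ z)) =O[𝓝 0] fun z => ‖z‖ ^ 3)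
    (hA : ∀ ξ η, os (A ξ) (A η) = os ξ η)
    (hs : ∀ᶠ z in 𝓝 0, ∀ ξ η, os (fderiv ℝ P z ξ) (fderiv ℝ P z η) = os ξ η) (z ξ η : ℂ × ℂ) :
    os (fderiv ℝ Q₃ z ξ) (A η) + os (A ξ) (fderiv ℝ Q₃ z η) = 0 :=
  ham_aux (d := 2) (by norm_num) hQ hO hA hs z ξ η

/-- Proof.  With `F z = os z (Q z) / (d + 1)`: `(d + 1) DF(z) η = os η (Q z) + os z (DQ(z) η)` and
`os z (DQ(z) η) = - os (DQ(z) z) η = - d os (Q z) η = d os η (Q z)` (Euler). -/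
theorem ham_potential {d : ℕ} {Q : ℂ × ℂ → ℂ × ℂ} (hQ : HG d Q)
    (h : ∀ z ξ η, os (fderiv ℝ Q z ξ) η + os ξ (fderiv ℝ Q z η) = 0) (z η : ℂ × ℂ) :
    fderiv ℝ (fun z => (1 / ((d : ℝ) + 1)) * os z (Q z)) z η = os η (Q z) := by
  have hd : HasFDerivAt Q (fderiv ℝ Q z) z :=
    (hQ.contDiff.differentiable (by simp)).differentiableAt.hasFDerivAt
  have h1 : HasFDerivAt (fun z => hamOsB z (Q z)) _ z :=
    hamOsB.hasFDerivAt_of_bilinear (hasFDerivAt_id z) hd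
  have h2 : HasFDerivAt (fun z => (1 / ((d : ℝ) + 1)) * os z (Q z)) _ z :=
    h1.const_mul (1 / ((d : ℝ) + 1))
  rw [h2.fderiv]
  show (1 / ((d : ℝ) + 1)) * (os z (fderiv ℝ Q z η) + os η (Q z)) = os η (Q z)
  have h3 : os z (fderiv ℝ Q z η) = (d : ℝ) * os η (Q z) := by
    have h4 := h z z η
    rw [hQ.euler z, ham_os_smul_left] at h4
    rw [ham_os_anti η (Q z)]
    linarith
  rw [h3]
  have : ((d : ℝ) + 1) ≠ 0 := by positivity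
  field_simp

end Pool.Agent.MP_5027f4_cont
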