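import Pool.Agent.Lib_MP_5027f4_cont.HomDefs

/-!
PIECE [HomApiB] (MP_5027f4_mp, T1).  Elementary properties of homogeneous polynomial maps (2).
-/

open Set Filter Topology Metric Polynomial Asymptotics
open scoped ComplexConjugate ContDiff

namespace Pool.Agent.MP_5027f4_cont

/-- Proof: along the ray `t • z`, `t ^ d f z = O (t ^ (d + 1))`, so `f z = 0`.  (The hypothesis
`hh` is only homogeneity, so that the lemma also applies to derivatives.) -/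
theorem eq_zero_of_homog {F : Type*} [NormedAddCommGroup F] [NormedSpace ℝ F] {d : ℕ}
    {f : ℂ × ℂ → F} (hh : ∀ (t : ℝ) z, f (t • z) = t ^ d • f z)
    (hO : f =O[𝓝 0] fun z => ‖z‖ ^ (d + 1)) (z : ℂ × ℂ) : f z = 0 := by
  obtain ⟨C, hC⟩ := hO.bound
  have hray : Tendsto (fun t : ℝ => t • z) (𝓝[>] 0) (𝓝 0) := by
    have h : Continuous fun t : ℝ => t • z := by fun_prop
    have := (h.tendsto 0).mono_left (nhdsWithin_le_nhds (s := Ioi (0 : ℝ)))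
    simpa using this
  have h1 : ∀ᶠ t : ℝ in 𝓝[>] 0, ‖f z‖ ≤ C * t * ‖z‖ ^ (d + 1) := by
    filter_upwards [hray.eventually hC, self_mem_nhdsWithin] with t ht ht0
    have ht0' : (0 : ℝ) < t := ht0
    rw [hh, norm_smul, norm_pow, Real.norm_of_nonneg ht0'.le, norm_pow, norm_norm, norm_smul,
      Real.norm_of_nonneg ht0'.le] at ht
    have hp : 0 < t ^ d := pow_pos ht0' d
    have h2 : t ^ d * ‖f z‖ ≤ t ^ d * (C * t * ‖z‖ ^ (d + 1)) := by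
      calc t ^ d * ‖f z‖ ≤ C * (t * ‖z‖) ^ (d + 1) := ht
        _ = t ^ d * (C * t * ‖z‖ ^ (d + 1)) := by ring
    exact le_of_mul_le_mul_left h2 hp
  have h2 : Tendsto (fun t : ℝ => C * t * ‖z‖ ^ (d + 1)) (𝓝[>] 0) (𝓝 0) := by
    have h : Continuous fun t : ℝ => C * t * ‖z‖ ^ (d + 1) := by fun_prop
    have := (h.tendsto 0).mono_left (nhdsWithin_le_nhds (s := Ioi (0 : ℝ)))
    simpa using this
  have h3 : ‖f z‖ ≤ 0 := ge_of_tendsto h2 h1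
  exact norm_le_zero_iff.mp h3

/-- A linear form. -/
theorem HG.one {F : Type*} [NormedAddCommGroup F] [NormedSpace ℝ F] {f : ℂ × ℂ → F}
    (h : HG 1 f) : ∃ g : (ℂ × ℂ) →L[ℝ] F, ∀ z, f z = g z := by
  obtain ⟨T, hT⟩ := h
  refine ⟨(ContinuousMultilinearMap.ofSubsingleton ℝ (ℂ × ℂ) F (0 : Fin 1)).symm T, fun z => ?_⟩
  rw [hT]
  rfl

/-- the linear form of a multilinear map in one variable -/
noncomputable def hgOne (F : Type*) [NormedAddCommGroup F] [NormedSpace ℝ F] :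
    ContinuousMultilinearMap ℝ (fun _ : Fin 1 => ℂ × ℂ) F →L[ℝ] ((ℂ × ℂ) →L[ℝ] F) :=
  ((ContinuousMultilinearMap.ofSubsingletonₗᵢ ℝ (ℂ × ℂ) (G' := F) (0 : Fin 1)).symm :
    ContinuousMultilinearMap ℝ (fun _ : Fin 1 => ℂ × ℂ) F ≃ₗᵢ[ℝ] ((ℂ × ℂ) →L[ℝ] F))

/-- A quadratic form. -/
theorem HG.two {F : Type*} [NormedAddCommGroup F] [NormedSpace ℝ F] {f : ℂ × ℂ → F}
    (h : HG 2 f) : ∃ g : (ℂ × ℂ) →L[ℝ] (ℂ × ℂ) →L[ℝ] F, ∀ z, f z = g z z := by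
  obtain ⟨T, hT⟩ := h
  refine ⟨(hgOne F).comp T.curryLeft, fun z => ?_⟩
  rw [hT]
  have h1 : ∀ S : ContinuousMultilinearMap ℝ (fun _ : Fin 1 => ℂ × ℂ) F,
      hgOne F S z = S fun _ => z := fun S => rfl
  rw [ContinuousLinearMap.comp_apply, h1, ContinuousMultilinearMap.curryLeft_apply]
  congr 1
  funext i
  refine Fin.cases ?_ (fun j => ?_) i <;> simp

theorem HG.of_clm {F : Type*} [NormedAddCommGroup F] [NormedSpace ℝ F]
    (g : (ℂ × ℂ) →L[ℝ] F) : HG 1 (fun z => g z) :=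
  ⟨ContinuousMultilinearMap.ofSubsingleton ℝ (ℂ × ℂ) F (0 : Fin 1) g, fun _ => rfl⟩

theorem HG.of_bilin {F : Type*} [NormedAddCommGroup F] [NormedSpace ℝ F]
    (g : (ℂ × ℂ) →L[ℝ] (ℂ × ℂ) →L[ℝ] F) : HG 2 (fun z => g z z) := by
  let I : ((ℂ × ℂ) →L[ℝ] F) →L[ℝ] ContinuousMultilinearMap ℝ (fun _ : Fin 1 => ℂ × ℂ) F :=
    ((ContinuousMultilinearMap.ofSubsingletonₗᵢ ℝ (ℂ × ℂ) (G' := F) (0 : Fin 1)) :
      ((ℂ × ℂ) →L[ℝ] F) ≃ₗᵢ[ℝ] ContinuousMultilinearMap ℝ (fun _ : Fin 1 => ℂ × ℂ) F)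
  let G : (ℂ × ℂ) →L[ℝ] ContinuousMultilinearMap ℝ (fun _ : Fin 1 => ℂ × ℂ) F := I.comp g
  refine ⟨ContinuousLinearMap.uncurryLeft (Ei := fun _ : Fin 2 => ℂ × ℂ) G, fun z => ?_⟩
  rw [ContinuousLinearMap.uncurryLeft_apply]
  rfl

/-- the symplectic form as a continuous bilinear map -/
noncomputable def osB : (ℂ × ℂ) →L[ℝ] (ℂ × ℂ) →L[ℝ] ℝ :=
  LinearMap.mkContinuous₂ (LinearMap.mk₂ ℝ os
    (fun a b c => by
      simp only [os, Prod.fst_add, Prod.snd_add, map_add, add_mul, Complex.add_im]; ring)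
    (fun t a b => by
      simp only [os, Prod.smul_fst, Prod.smul_snd, Complex.real_smul, map_mul, Complex.conj_ofReal,
        smul_eq_mul]
      rw [mul_assoc, mul_assoc, ← mul_add, Complex.im_ofReal_mul])
    (fun a b c => by simp only [os, Prod.fst_add, Prod.snd_add, mul_add, Complex.add_im]; ring)
    (fun t a b => by
      simp only [os, Prod.smul_fst, Prod.smul_snd, Complex.real_smul, smul_eq_mul]
      rw [mul_left_comm, mul_left_comm _ (t : ℂ) b.2, ← mul_add, Complex.im_ofReal_mul])) 2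
    (fun a b => by
      rw [LinearMap.mk₂_apply, Real.norm_eq_abs, os]
      have h1 : ‖a.1‖ ≤ ‖a‖ := norm_fst_le a
      have h2 : ‖a.2‖ ≤ ‖a‖ := norm_snd_le a
      have h3 : ‖b.1‖ ≤ ‖b‖ := norm_fst_le b
      have h4 : ‖b.2‖ ≤ ‖b‖ := norm_snd_le b
      calc |(conj a.1 * b.1 + conj a.2 * b.2).im|
          ≤ ‖conj a.1 * b.1 + conj a.2 * b.2‖ := Complex.abs_im_le_norm _
        _ ≤ ‖conj a.1 * b.1‖ + ‖conj a.2 * b.2‖ := norm_add_le _ _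
        _ = ‖a.1‖ * ‖b.1‖ + ‖a.2‖ * ‖b.2‖ := by
            rw [norm_mul, norm_mul, RCLike.norm_conj, RCLike.norm_conj]
        _ ≤ ‖a‖ * ‖b‖ + ‖a‖ * ‖b‖ := by gcongr
        _ = 2 * ‖a‖ * ‖b‖ := by ring)

lemma osB_apply (a b : ℂ × ℂ) : osB a b = os a b := rfl

/-- Proof: `(v₀, …, v_d) ↦ os v₀ (T (v₁, …, v_d))` (`ContinuousLinearMap.uncurryLeft` of
`v₀ ↦ (os v₀) ∘ T`). -/
theorem HG.os_self {d : ℕ} {Q : ℂ × ℂ → ℂ × ℂ} (h : HG d Q) :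
    HG (d + 1) (fun z => os z (Q z)) := by
  obtain ⟨T, hT⟩ := h
  let G : (ℂ × ℂ) →L[ℝ] ContinuousMultilinearMap ℝ (fun _ : Fin d => ℂ × ℂ) ℝ :=
    ((ContinuousLinearMap.compContinuousMultilinearMapL ℝ (fun _ : Fin d => ℂ × ℂ)
      (ℂ × ℂ) ℝ).flip T).comp osB
  refine ⟨ContinuousLinearMap.uncurryLeft (Ei := fun _ : Fin (d + 1) => ℂ × ℂ) G, fun z => ?_⟩
  rw [ContinuousLinearMap.uncurryLeft_apply]
  beta_reduce
  rw [hT, ← osB_apply]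
  rfl

end Pool.Agent.MP_5027f4_cont
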