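import Pool.Agent.Lib_MP_5027f4_cont.HomDefs

/-!
PIECE [HomApiA] (MP_5027f4_mp, T1).  Elementary properties of homogeneous polynomial maps (1).
-/

open Set Filter Topology Metric Polynomial Asymptotics
open scoped ComplexConjugate ContDiff

namespace Pool.Agent.MP_5027f4_cont

section
variable {F H : Type*} [NormedAddCommGroup F] [NormedSpace ℝ F] [NormedAddCommGroup H]
  [NormedSpace ℝ H] {d : ℕ} {f f' : ℂ × ℂ → F}

/-- the diagonal -/
noncomputable def hgDiag (d : ℕ) : (ℂ × ℂ) →L[ℝ] (Fin d → ℂ × ℂ) :=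
  ContinuousLinearMap.pi fun _ => ContinuousLinearMap.id ℝ (ℂ × ℂ)

lemma hgDiag_apply (d : ℕ) (z : ℂ × ℂ) : hgDiag d z = fun _ => z := rfl

lemma hg_fderiv (T : ContinuousMultilinearMap ℝ (fun _ : Fin d => ℂ × ℂ) F)
    (h : ∀ z, f z = T fun _ => z) (z ξ : ℂ × ℂ) :
    fderiv ℝ f z ξ = ∑ i, T (Function.update (fun _ => z) i ξ) := by
  have h1 : HasFDerivAt f ((T.linearDeriv (fun _ => z)).comp (hgDiag d)) z := by
    have h2 := (T.hasFDerivAt (x := hgDiag d z)).comp z (hgDiag d).hasFDerivAt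
    have h3 : f = T ∘ hgDiag d := by
      funext w; rw [h]; rfl
    rw [h3]
    exact h2
  rw [h1.fderiv, ContinuousLinearMap.comp_apply, ContinuousMultilinearMap.linearDeriv_apply]
  rfl

theorem HG.contDiff (h : HG d f) : ContDiff ℝ ω f := by
  obtain ⟨T, hT⟩ := h
  have h3 : f = T ∘ hgDiag d := by
    funext w; rw [hT]; rfl
  rw [h3]
  exact T.contDiff.comp (hgDiag d).contDiff

theorem HG.analyticAt (h : HG d f) (z : ℂ × ℂ) : AnalyticAt ℝ f z :=
  h.contDiff.contDiffAt.analyticAt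

theorem HG.bound (h : HG d f) : ∃ C ≥ 0, ∀ z, ‖f z‖ ≤ C * ‖z‖ ^ d := by
  obtain ⟨T, hT⟩ := h
  refine ⟨‖T‖, norm_nonneg _, fun z => ?_⟩
  rw [hT]
  have := T.le_opNorm fun _ => z
  simpa using this

theorem HG.smul_arg (h : HG d f) (t : ℝ) (z : ℂ × ℂ) : f (t • z) = t ^ d • f z := by
  obtain ⟨T, hT⟩ := h
  rw [hT, hT]
  have := T.map_smul_univ (fun _ => t) (fun _ => z)
  simpa using this

theorem HG.add (h : HG d f) (h' : HG d f') : HG d (fun z => f z + f' z) := by
  obtain ⟨T, hT⟩ := h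
  obtain ⟨T', hT'⟩ := h'
  exact ⟨T + T', fun z => by beta_reduce; rw [hT, hT']; rfl⟩

theorem HG.const_smul (h : HG d f) (c : ℝ) : HG d (fun z => c • f z) := by
  obtain ⟨T, hT⟩ := h
  exact ⟨c • T, fun z => by beta_reduce; rw [hT]; rfl⟩

theorem HG.comp_left (h : HG d f) (g : F →L[ℝ] H) : HG d (fun z => g (f z)) := by
  obtain ⟨T, hT⟩ := h
  exact ⟨g.compContinuousMultilinearMap T, fun z => by beta_reduce; rw [hT]; rfl⟩

theorem HG.comp_right (h : HG d f) (L : (ℂ × ℂ) →L[ℝ] (ℂ × ℂ)) : HG d (fun z => f (L z)) := by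
  obtain ⟨T, hT⟩ := h
  exact ⟨T.compContinuousLinearMap fun _ => L, fun z => by beta_reduce; rw [hT]; rfl⟩

/-- Proof: `Df(z) ξ = Σ_i T (z, .., ξ, .., z)`
(`ContinuousMultilinearMap.hasFDerivAt` composed with the diagonal). -/
theorem HG.fderiv_bound (h : HG (d + 1) f) : ∃ C ≥ 0, ∀ z, ‖fderiv ℝ f z‖ ≤ C * ‖z‖ ^ d := by
  obtain ⟨T, hT⟩ := h
  refine ⟨(d + 1) * ‖T‖, by positivity, fun z => ?_⟩
  refine ContinuousLinearMap.opNorm_le_bound _ (by positivity) fun ξ => ?_
  rw [hg_fderiv T hT]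
  refine (norm_sum_le _ _).trans ?_
  have h1 : ∀ i : Fin (d + 1), ‖T (Function.update (fun _ => z) i ξ)‖ ≤ ‖T‖ * ‖z‖ ^ d * ‖ξ‖ := by
    intro i
    refine (T.le_opNorm _).trans ?_
    have h2 : ∏ j : Fin (d + 1), ‖Function.update (fun _ => z) i ξ j‖ = ‖ξ‖ * ‖z‖ ^ d := by
      rw [← Finset.mul_prod_erase Finset.univ _ (Finset.mem_univ i)]
      simp only [Function.update_self]
      congr 1
      rw [Finset.prod_congr rfl (g := fun _ => ‖z‖)]
      · rw [Finset.prod_const, Finset.card_erase_of_mem (Finset.mem_univ i), Finset.card_univ,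
          Fintype.card_fin, Nat.add_sub_cancel]
      · intro j hj
        rw [Function.update_of_ne (Finset.ne_of_mem_erase hj)]
    rw [h2]
    apply le_of_eq; ring
  calc ∑ i : Fin (d + 1), ‖T (Function.update (fun _ => z) i ξ)‖
      ≤ ∑ _i : Fin (d + 1), ‖T‖ * ‖z‖ ^ d * ‖ξ‖ := Finset.sum_le_sum fun i _ => h1 i
    _ = (d + 1) * ‖T‖ * ‖z‖ ^ d * ‖ξ‖ := by
        rw [Finset.sum_const, Finset.card_univ, Fintype.card_fin, nsmul_eq_mul]
        push_cast
        ring

/-- Euler relation; differentiate `f (t • z) = t ^ d • f z` at `t = 1`. -/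
theorem HG.euler (h : HG d f) (z : ℂ × ℂ) : fderiv ℝ f z z = (d : ℝ) • f z := by
  obtain ⟨T, hT⟩ := h
  rw [hg_fderiv T hT, hT]
  have h1 : ∀ i : Fin d, Function.update (fun _ : Fin d => z) i z = fun _ => z := fun i => by
    simp
  simp only [h1, Finset.sum_const, Finset.card_univ, Fintype.card_fin]
  rw [Nat.cast_smul_eq_nsmul]

/-- Proof: `Df(z) (J z) = Σ_i T (z, .., J z, .., z)`, every term is multilinear
(`compContinuousLinearMap`). -/
theorem HG.fderiv_lin (h : HG d f) (J : (ℂ × ℂ) →L[ℝ] (ℂ × ℂ)) :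
    HG d (fun z => fderiv ℝ f z (J z)) := by
  obtain ⟨T, hT⟩ := h
  refine ⟨∑ i, T.compContinuousLinearMap
    (fun j => if j = i then J else ContinuousLinearMap.id ℝ (ℂ × ℂ)), fun z => ?_⟩
  beta_reduce
  rw [hg_fderiv T hT, ContinuousMultilinearMap.sum_apply]
  refine Finset.sum_congr rfl fun i _ => ?_
  rw [ContinuousMultilinearMap.compContinuousLinearMap_apply]
  congr 1
  funext j
  by_cases hj : j = i
  · subst hj; simp
  · simp [hj]

/-- The derivative is homogeneous of degree `d`: `Df (t • z) = t ^ d • Df z`. -/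
theorem HG.fderiv_smul_arg (h : HG (d + 1) f) (t : ℝ) (z : ℂ × ℂ) :
    fderiv ℝ f (t • z) = t ^ d • fderiv ℝ f z := by
  obtain ⟨T, hT⟩ := h
  refine ContinuousLinearMap.ext fun ξ => ?_
  rw [ContinuousLinearMap.smul_apply, hg_fderiv T hT, hg_fderiv T hT, Finset.smul_sum]
  refine Finset.sum_congr rfl fun i _ => ?_
  have h1 := T.map_piecewise_smul (fun _ => t) (Function.update (fun _ => z) i ξ)
    (Finset.univ.erase i)
  rw [Finset.prod_const, Finset.card_erase_of_mem (Finset.mem_univ i), Finset.card_univ,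
    Fintype.card_fin, Nat.add_sub_cancel] at h1
  rw [← h1]
  congr 1
  funext j
  by_cases hj : j = i
  · subst hj; simp
  · rw [Finset.piecewise_eq_of_mem _ _ _ (Finset.mem_erase.mpr ⟨hj, Finset.mem_univ _⟩),
      Function.update_of_ne hj, Function.update_of_ne hj]

end

end Pool.Agent.MP_5027f4_cont
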