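import Pool.Agent.Lib_MP_5027f4_cont.Defs

/-!
# Homogeneous polynomial maps on `ℂ²` (real polynomials in four real variables)
-/

open Set Filter Topology Metric Polynomial
open scoped ComplexConjugate ContDiff

namespace Pool.Agent.MP_5027f4_cont

/-- `f` is a homogeneous polynomial map of degree `d`. -/
def HG {F : Type*} [NormedAddCommGroup F] [NormedSpace ℝ F] (d : ℕ) (f : ℂ × ℂ → F) : Prop :=
  ∃ T : ContinuousMultilinearMap ℝ (fun _ : Fin d => ℂ × ℂ) F, ∀ z, f z = T fun _ => z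

/-- the diagonal map `(z₁, z₂) ↦ (μ₁ z₁, μ₂ z₂)` -/
noncomputable def Ld (μ₁ μ₂ : ℂ) : (ℂ × ℂ) →L[ℝ] (ℂ × ℂ) :=
  (ContinuousLinearMap.mul ℝ ℂ μ₁).prodMap (ContinuousLinearMap.mul ℝ ℂ μ₂)

theorem Ld_apply (μ₁ μ₂ : ℂ) (z : ℂ × ℂ) : Ld μ₁ μ₂ z = (μ₁ * z.1, μ₂ * z.2) := rfl

end Pool.Agent.MP_5027f4_cont
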