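import Pool.Agent.Lib_MP_5027f4_cont.CpCoeff
import Pool.Agent.Lib_MP_5027f4_cont.LinNFa

/-!
PIECE [KGel] (MP_5027f4_mp, T1).  Growth of the powers of a linear map.
-/

open Set Filter Topology Metric Polynomial
open scoped ComplexConjugate ContDiff
open Pool.Agent.MP_5027f4_mp

namespace Pool.Agent.MP_5027f4_cont

variable {E : Type*} [NormedAddCommGroup E] [NormedSpace ℝ E] [FiniteDimensional ℝ E]

section KGel

attribute [local instance] Matrix.linftyOpNormedRing Matrix.linftyOpNormedAlgebra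

private theorem KGel_entry {n : ℕ} (N : Matrix (Fin n) (Fin n) ℂ) (i j : Fin n) :
    ‖N i j‖ ≤ ‖N‖ := by
  rw [Matrix.linfty_opNorm_def]
  have h1 : ‖N i j‖₊ ≤ ∑ k, ‖N i k‖₊ :=
    Finset.single_le_sum (f := fun k => ‖N i k‖₊) (fun _ _ => zero_le) (Finset.mem_univ j)
  have h2 : ∑ k, ‖N i k‖₊ ≤ (Finset.univ : Finset (Fin n)).sup fun i => ∑ k, ‖N i k‖₊ :=
    Finset.le_sup (f := fun i => ∑ k, ‖N i k‖₊) (Finset.mem_univ i)
  exact_mod_cast h1.trans h2

private theorem KGel_matrix {n : ℕ} (N : Matrix (Fin n) (Fin n) ℂ) {ρ ρ' : ℝ} (h0 : 0 ≤ ρ)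
    (h : ρ < ρ') (hρ : ∀ l : ℂ, N.charpoly.eval l = 0 → ‖l‖ ≤ ρ) :
    ∃ C : ℝ, 0 ≤ C ∧ ∀ m : ℕ, ‖N ^ m‖ ≤ C * ρ' ^ m := by
  have hρ' : 0 < ρ' := h0.trans_lt h
  have hsr : spectralRadius ℂ N ≤ ENNReal.ofReal ρ := by
    refine iSup₂_le fun l hl => ?_
    rw [Matrix.mem_spectrum_iff_isRoot_charpoly] at hl
    have h1 := hρ l hl
    rw [← ENNReal.ofReal_coe_nnreal, coe_nnnorm]
    exact ENNReal.ofReal_le_ofReal h1
  have hlt : spectralRadius ℂ N < ENNReal.ofReal ρ' :=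
    hsr.trans_lt ((ENNReal.ofReal_lt_ofReal_iff hρ').mpr h)
  have ht := spectrum.pow_nnnorm_pow_one_div_tendsto_nhds_spectralRadius N
  have hev := ht.eventually (gt_mem_nhds hlt)
  rw [eventually_atTop] at hev
  obtain ⟨m₀, hm₀⟩ := hev
  refine ⟨1 + ∑ m ∈ Finset.range (m₀ + 1), ‖N ^ m‖ / ρ' ^ m, by positivity, fun m => ?_⟩
  by_cases hm : m < m₀ + 1
  · have h1 : ‖N ^ m‖ / ρ' ^ m ≤ ∑ m ∈ Finset.range (m₀ + 1), ‖N ^ m‖ / ρ' ^ m :=
      Finset.single_le_sum (f := fun m => ‖N ^ m‖ / ρ' ^ m) (fun _ _ => by positivity)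
        (Finset.mem_range.mpr hm)
    have hp : 0 < ρ' ^ m := pow_pos hρ' m
    calc ‖N ^ m‖ = ‖N ^ m‖ / ρ' ^ m * ρ' ^ m := by field_simp
      _ ≤ (1 + ∑ m ∈ Finset.range (m₀ + 1), ‖N ^ m‖ / ρ' ^ m) * ρ' ^ m := by
        refine mul_le_mul_of_nonneg_right ?_ hp.le
        linarith
  · push Not at hm
    have hm1 : 0 < m := by omega
    have h1 := hm₀ m (by omega)
    have h2 : ((‖N ^ m‖₊ : ENNReal)) ≤ ENNReal.ofReal ρ' ^ m := by
      have h3 := ENNReal.rpow_le_rpow h1.le (z := (m : ℝ)) (by positivity)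
      rw [← ENNReal.rpow_mul, one_div, inv_mul_cancel₀ (by positivity), ENNReal.rpow_one,
        ENNReal.rpow_natCast] at h3
      exact h3
    have h3 : ‖N ^ m‖ ≤ ρ' ^ m := by
      rw [← ENNReal.ofReal_pow hρ'.le, ← ENNReal.ofReal_coe_nnreal, coe_nnnorm,
        ENNReal.ofReal_le_ofReal_iff (by positivity)] at h2
      exact h2
    have hp : 0 < ρ' ^ m := pow_pos hρ' m
    have h4 : 0 ≤ ∑ m ∈ Finset.range (m₀ + 1), ‖N ^ m‖ / ρ' ^ m := by positivity
    nlinarith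

end KGel

/-- Proof.  Let `N` be the complex matrix of `A` in a real basis.  The spectrum of `N` is the set of
roots of its characteristic polynomial (`Matrix.mem_spectrum_iff_isRoot_charpoly` or through
`Module.End`), so its spectral radius is at most `ρ`; by Gelfand's formula
(`spectrum.pow_nnnorm_pow_one_div_tendsto_nhds_spectralRadius`, for `Matrix` with a Banach algebra
norm such as `Matrix.linftyOpNormedRing`, or for complex linear endomorphisms)
`‖N ^ n‖ ≤ ρ' ^ n` for large `n`; the entries of the matrix of `A ^ n` are bounded by `‖N ^ n‖`, and all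
norms on the finite dimensional space of linear maps are equivalent. -/
theorem pow_bound (A : E →L[ℝ] E) {ρ ρ' : ℝ} (h0 : 0 ≤ ρ) (h : ρ < ρ')
    (hρ : ∀ l : ℂ, ((cp A).map (algebraMap ℝ ℂ)).eval l = 0 → ‖l‖ ≤ ρ) :
    ∃ C : ℝ, ∀ n : ℕ, ‖A ^ n‖ ≤ C * ρ' ^ n := by
  classical
  set b := Module.finBasis ℝ E with hb
  set M := LinearMap.toMatrix b b (A : E →ₗ[ℝ] E) with hM
  set N : Matrix (Fin (Module.finrank ℝ E)) (Fin (Module.finrank ℝ E)) ℂ :=
    M.map (algebraMap ℝ ℂ) with hN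
  have hchar : (cp A).map (algebraMap ℝ ℂ) = N.charpoly := by
    unfold cp
    rw [← LinearMap.charpoly_toMatrix (A : E →ₗ[ℝ] E) b]
    exact (Matrix.charpoly_map _ _).symm
  obtain ⟨C, hC0, hC⟩ := KGel_matrix N h0 h (by
    intro l hl
    exact hρ l (by rw [hchar]; exact hl))
  have hentry : ∀ (m : ℕ) (i j : Fin (Module.finrank ℝ E)),
      |LinearMap.toMatrix b b ((A ^ m : E →L[ℝ] E) : E →ₗ[ℝ] E) i j| ≤ C * ρ' ^ m := by
    intro m i j
    have e1 : LinearMap.toMatrix b b ((A ^ m : E →L[ℝ] E) : E →ₗ[ℝ] E) = M ^ m := by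
      have e0 : ((A ^ m : E →L[ℝ] E) : E →ₗ[ℝ] E) = (A : E →ₗ[ℝ] E) ^ m :=
        map_pow (ContinuousLinearMap.toLinearMapRingHom (R₁ := ℝ) (M₁ := E)) A m
      rw [hM, e0]
      exact (LinearMap.toMatrix_pow _ _ _).symm
    have e2 : (N ^ m) i j = (((M ^ m) i j : ℝ) : ℂ) := by
      have h1 : N ^ m = (M ^ m).map (algebraMap ℝ ℂ) := by
        rw [hN]
        exact (map_pow (RingHom.mapMatrix (algebraMap ℝ ℂ)) M m).symm
      rw [h1]
      rfl
    have h2 := (KGel_entry (N ^ m) i j).trans (hC m)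
    rw [e2, Complex.norm_real, Real.norm_eq_abs] at h2
    rw [e1]
    exact h2
  refine ⟨C * ∑ i, ∑ j, ‖b i‖ * ‖LinearMap.toContinuousLinearMap (b.coord j)‖, fun m => ?_⟩
  have hρ' : 0 < ρ' := h0.trans_lt h
  have hp : 0 ≤ C * ρ' ^ m := by positivity
  refine ContinuousLinearMap.opNorm_le_bound _ (by positivity) fun v => ?_
  have hexp : (A ^ m) v = ∑ i, ∑ j,
      (LinearMap.toMatrix b b ((A ^ m : E →L[ℝ] E) : E →ₗ[ℝ] E) i j * b.repr v j) • b i := by
    have h1 := b.sum_repr ((A ^ m) v)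
    rw [← h1]
    refine Finset.sum_congr rfl fun i _ => ?_
    rw [← Finset.sum_smul]
    congr 1
    have h2 := LinearMap.toMatrix_mulVec_repr b b ((A ^ m : E →L[ℝ] E) : E →ₗ[ℝ] E) v
    have h3 := congrFun h2 i
    exact h3.symm
  rw [hexp]
  refine (norm_sum_le _ _).trans ?_
  rw [show C * (∑ i, ∑ j, ‖b i‖ * ‖LinearMap.toContinuousLinearMap (b.coord j)‖) * ρ' ^ m * ‖v‖ =
    ∑ i, ∑ j, (C * ρ' ^ m) * (‖LinearMap.toContinuousLinearMap (b.coord j)‖ * ‖v‖) * ‖b i‖ by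
      rw [Finset.mul_sum, Finset.sum_mul, Finset.sum_mul]
      refine Finset.sum_congr rfl fun i _ => ?_
      rw [Finset.mul_sum, Finset.sum_mul, Finset.sum_mul]
      refine Finset.sum_congr rfl fun j _ => ?_
      ring]
  refine Finset.sum_le_sum fun i _ => (norm_sum_le _ _).trans (Finset.sum_le_sum fun j _ => ?_)
  rw [norm_smul, norm_mul, Real.norm_eq_abs]
  refine mul_le_mul_of_nonneg_right ?_ (norm_nonneg _)
  refine mul_le_mul (hentry m i j) ?_ (norm_nonneg _) hp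
  exact (LinearMap.toContinuousLinearMap (b.coord j)).le_opNorm v

/-- Proof.  `exists_plane`: `A x = l.re x - l.im y`, `A y = l.im x + l.re y`, so
`A ^ n x = (l ^ n).re x - (l ^ n).im y`, `A ^ n y = (l ^ n).im x + (l ^ n).re y`.  Upper bounds are
clear.  The continuous function `(α, β) ↦ ‖α x - β y‖ + ‖β x + α y‖` vanishes only at `0`: if both
vectors are `0` then `(α² + β²) x = (α² + β²) y = 0`.  By homogeneity and compactness it is
`≥ c ‖α + i β‖`, so for every `n` one of the two vectors `x, y` (scaled to norm at most `1`) works. -/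
theorem pow_lower (A : E →L[ℝ] E) {l : ℂ} (hl : ((cp A).map (algebraMap ℝ ℂ)).eval l = 0) :
    ∃ c > 0, ∃ C : ℝ, ∀ n : ℕ, ∃ v : E, ‖v‖ ≤ 1 ∧ (∀ j : ℕ, ‖(A ^ j) v‖ ≤ C * ‖l‖ ^ j) ∧
      c * ‖l‖ ^ n ≤ ‖(A ^ n) v‖ := by
  obtain ⟨x, y, hxy, hx, hy⟩ := exists_plane A hl
  have hpow : ∀ n : ℕ, (A ^ n) x = (l ^ n).re • x - (l ^ n).im • y ∧
      (A ^ n) y = (l ^ n).im • x + (l ^ n).re • y := by
    intro n
    induction n with
    | zero => simp
    | succ n ih =>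
      have e1 : ∀ w : E, (A ^ (n + 1)) w = A ((A ^ n) w) := fun w => by
        rw [pow_succ']
        rfl
      rw [e1, e1, ih.1, ih.2]
      simp only [map_sub, map_add, map_smul, hx, hy, pow_succ, Complex.mul_re, Complex.mul_im]
      constructor
      · module
      · module
  set M := max ‖x‖ ‖y‖ with hM
  have hM0 : 0 < M := by
    rcases hxy with h | h
    · exact lt_max_of_lt_left (norm_pos_iff.mpr h)
    · exact lt_max_of_lt_right (norm_pos_iff.mpr h)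
  have hxM : ‖x‖ ≤ M := le_max_left _ _
  have hyM : ‖y‖ ≤ M := le_max_right _ _
  have hre : ∀ z : ℂ, |z.re| ≤ ‖z‖ := Complex.abs_re_le_norm
  have him : ∀ z : ℂ, |z.im| ≤ ‖z‖ := Complex.abs_im_le_norm
  have hup : ∀ z : ℂ, ‖z.re • x - z.im • y‖ ≤ 2 * ‖z‖ * M ∧ ‖z.im • x + z.re • y‖ ≤ 2 * ‖z‖ * M := by
    intro z
    have a1 : |z.re| * ‖x‖ ≤ ‖z‖ * M := mul_le_mul (hre z) hxM (norm_nonneg _) (norm_nonneg _)
    have a2 : |z.im| * ‖y‖ ≤ ‖z‖ * M := mul_le_mul (him z) hyM (norm_nonneg _) (norm_nonneg _)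
    have a3 : |z.im| * ‖x‖ ≤ ‖z‖ * M := mul_le_mul (him z) hxM (norm_nonneg _) (norm_nonneg _)
    have a4 : |z.re| * ‖y‖ ≤ ‖z‖ * M := mul_le_mul (hre z) hyM (norm_nonneg _) (norm_nonneg _)
    constructor
    · refine (norm_sub_le _ _).trans ?_
      rw [norm_smul, norm_smul, Real.norm_eq_abs, Real.norm_eq_abs]
      linarith
    · refine (norm_add_le _ _).trans ?_
      rw [norm_smul, norm_smul, Real.norm_eq_abs, Real.norm_eq_abs]
      linarith
  have hlow : ∀ z : ℂ, ‖z‖ * M ≤ ‖z.re • x - z.im • y‖ + ‖z.im • x + z.re • y‖ := by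
    intro z
    rcases eq_or_ne z 0 with rfl | hz
    · simp
    have hz0 : 0 < ‖z‖ := norm_pos_iff.mpr hz
    have hsq : z.re ^ 2 + z.im ^ 2 = ‖z‖ ^ 2 := by
      rw [← Complex.normSq_eq_norm_sq, Complex.normSq_apply]
      ring
    set P := ‖z.re • x - z.im • y‖ + ‖z.im • x + z.re • y‖ with hP
    have ex : ‖z‖ ^ 2 * ‖x‖ ≤ ‖z‖ * P := by
      have e1 : (z.re ^ 2 + z.im ^ 2) • x =
          z.re • (z.re • x - z.im • y) + z.im • (z.im • x + z.re • y) := by module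
      have e2 : ‖(z.re ^ 2 + z.im ^ 2) • x‖ = ‖z‖ ^ 2 * ‖x‖ := by
        rw [hsq, norm_smul, norm_pow, norm_norm]
      rw [← e2, e1]
      refine (norm_add_le _ _).trans ?_
      rw [norm_smul, norm_smul, Real.norm_eq_abs, Real.norm_eq_abs, hP, mul_add]
      exact add_le_add (mul_le_mul_of_nonneg_right (hre z) (norm_nonneg _))
        (mul_le_mul_of_nonneg_right (him z) (norm_nonneg _))
    have ey : ‖z‖ ^ 2 * ‖y‖ ≤ ‖z‖ * P := by
      have e1 : (z.re ^ 2 + z.im ^ 2) • y =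
          (-z.im) • (z.re • x - z.im • y) + z.re • (z.im • x + z.re • y) := by module
      have e2 : ‖(z.re ^ 2 + z.im ^ 2) • y‖ = ‖z‖ ^ 2 * ‖y‖ := by
        rw [hsq, norm_smul, norm_pow, norm_norm]
      rw [← e2, e1]
      refine (norm_add_le _ _).trans ?_
      rw [norm_smul, norm_smul, Real.norm_eq_abs, Real.norm_eq_abs, abs_neg, hP, mul_add]
      exact add_le_add (mul_le_mul_of_nonneg_right (him z) (norm_nonneg _))
        (mul_le_mul_of_nonneg_right (hre z) (norm_nonneg _))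
    have fx : ‖z‖ * ‖x‖ ≤ P := by
      have : ‖z‖ * (‖z‖ * ‖x‖) ≤ ‖z‖ * P := by
        rw [← mul_assoc, ← sq]
        exact ex
      exact le_of_mul_le_mul_left this hz0
    have fy : ‖z‖ * ‖y‖ ≤ P := by
      have : ‖z‖ * (‖z‖ * ‖y‖) ≤ ‖z‖ * P := by
        rw [← mul_assoc, ← sq]
        exact ey
      exact le_of_mul_le_mul_left this hz0
    rcases max_choice ‖x‖ ‖y‖ with hh | hh
    · rw [hM, hh]
      exact fx
    · rw [hM, hh]
      exact fy
  refine ⟨1 / 2, by norm_num, 2, fun n => ?_⟩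
  have hn := hlow (l ^ n)
  rw [← (hpow n).1, ← (hpow n).2, norm_pow] at hn
  have hgen : ∀ w : E, (w = x ∨ w = y) → ‖l‖ ^ n * M / 2 ≤ ‖(A ^ n) w‖ →
      ‖M⁻¹ • w‖ ≤ 1 ∧ (∀ j : ℕ, ‖(A ^ j) (M⁻¹ • w)‖ ≤ 2 * ‖l‖ ^ j) ∧
      1 / 2 * ‖l‖ ^ n ≤ ‖(A ^ n) (M⁻¹ • w)‖ := by
    intro w hw hwn
    have hwM : ‖w‖ ≤ M := by
      rcases hw with rfl | rfl
      · exact hxM
      · exact hyM
    refine ⟨?_, fun j => ?_, ?_⟩
    · rw [norm_smul, norm_inv, Real.norm_of_nonneg hM0.le, inv_mul_le_iff₀ hM0, mul_one]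
      exact hwM
    · rw [map_smul, norm_smul, norm_inv, Real.norm_of_nonneg hM0.le, inv_mul_le_iff₀ hM0]
      have h1 := hup (l ^ j)
      rw [← (hpow j).1, ← (hpow j).2, norm_pow] at h1
      rcases hw with rfl | rfl
      · exact h1.1.trans (le_of_eq (by ring))
      · exact h1.2.trans (le_of_eq (by ring))
    · rw [map_smul, norm_smul, norm_inv, Real.norm_of_nonneg hM0.le, le_inv_mul_iff₀ hM0]
      exact (le_of_eq (by ring)).trans hwn
  by_cases hcase : ‖l‖ ^ n * M / 2 ≤ ‖(A ^ n) x‖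
  · exact ⟨M⁻¹ • x, hgen x (Or.inl rfl) hcase⟩
  · refine ⟨M⁻¹ • y, hgen y (Or.inr rfl) ?_⟩
    push Not at hcase
    linarith

end Pool.Agent.MP_5027f4_cont
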