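import Pool.Agent.Lib_MP_5027f4_cont.DJac
import Pool.Agent.Lib_MP_5027f4_cont.DLoc
import Pool.Agent.Lib_MP_5027f4_cont.ChartB

/-!
PIECE [KSheet] (MP_5027f4_mp, T1).  The torus of a periodic orbit has one local sheet.
-/

open Set Filter Topology Metric Polynomial
open scoped ComplexConjugate ContDiff
open Pool.Agent.MP_5027f4_mp

namespace Pool.Agent.MP_5027f4_cont

variable {m : Fin 3 → ℝ} {x : ℝ → Ph}

/-- The local flow at `x 0` is the solution `x`.  Proof: `s ↦ φ (s, x 0)` has the derivative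
`fld₀ m (φ (s, x 0))` near `s = 0` (`LM.deriv_time`), value `x 0` at `s = 0` (`LM.base`); local
uniqueness of solutions. -/
theorem LM.flow_eq (hm : ∀ a, 0 < m a) (hx : Solves (fld m) (frame m) univ x)
    {X₀ : Up} {φ : ℝ × comSub m → comSub m} (hφ : LM m 0 0 X₀ X₀ φ)
    (hX : ((pE m X₀ : comSub m) : Ph) = x 0) :
    ∀ᶠ s in 𝓝 (0 : ℝ), ((φ (s, pE m X₀) : comSub m) : Ph) = x s := by
  have hm' : ∀ a, m a ≠ 0 := fun a => (hm a).ne'
  -- the solution in the subspace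
  have hG : ∀ t, ((prE m (x t) : comSub m) : Ph) = x t := by
    intro t
    have h2 : x t ∈ comSub m := mem_comSub.2 (hx t (mem_univ t)).1.2
    exact congrArg (fun z : comSub m => (z : Ph)) (prE_coe m ⟨x t, h2⟩)
  have hGs : Solves (fld₀ m) (noColl₀ m) univ (fun t => prE m (x t)) := by
    refine Solves.lift (m := m) (X := fun t => prE m (x t)) ?_
    have h1 : (fun t => ((prE m (x t) : comSub m) : Ph)) = x := funext hG
    rw [h1]
    exact hx
  have hG0 : prE m (x 0) = pE m X₀ := by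
    rw [← hX, prE_coe]
  have hGd : ∀ t, HasDerivAt (fun t => prE m (x t)) (fld₀ m (prE m (x t))) t := fun t =>
    hasDerivWithinAt_univ.mp (hGs t (mem_univ t)).2
  -- the local flow
  have hT : Tendsto (fun s : ℝ => (s, pE m X₀)) (𝓝 0) (𝓝 (0, pE m X₀)) :=
    Continuous.tendsto (by fun_prop) _
  have hFd : ∀ᶠ s in 𝓝 (0 : ℝ), HasDerivAt (fun s => φ (s, pE m X₀))
      (fld₀ m (φ (s, pE m X₀))) s := by
    filter_upwards [hT.eventually (hφ.deriv_time hm), hT.eventually hφ.an.eventually_analyticAt]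
      with s h1 h2
    have h3 : HasDerivAt (fun s : ℝ => (s, pE m X₀)) ((1, 0) : ℝ × comSub m) s :=
      (hasDerivAt_id s).prodMk (hasDerivAt_const s (pE m X₀))
    have h4 := h2.differentiableAt.hasFDerivAt.comp_hasDerivAt s h3
    rw [h1] at h4
    exact h4
  have hF0 : φ (0, pE m X₀) = pE m X₀ := hφ.base
  have hc : ContDiffAt ℝ 1 (fld₀ m) (pE m X₀) :=
    ((contDiffOn_fld₀ m).of_le (by norm_num)).contDiffAt
      ((isOpen_noColl₀ m).mem_nhds (pE_noColl (DLoc_MM hm) hm' hφ.nc0))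
  obtain ⟨K, U, hU, hK⟩ := hc.exists_lipschitzOnWith
  have hF0c : ContinuousAt (fun s => φ (s, pE m X₀)) 0 := hFd.self_of_nhds.continuousAt
  have h1 : ∀ᶠ s in 𝓝 (0 : ℝ), φ (s, pE m X₀) ∈ U := by
    apply hF0c.eventually_mem
    rw [hF0]
    exact hU
  have h2 : ∀ᶠ s in 𝓝 (0 : ℝ), prE m (x s) ∈ U := by
    apply (hGd 0).continuousAt.eventually_mem
    rw [hG0]
    exact hU
  have h3 := ODE_solution_unique_of_eventually (v := fun _ => fld₀ m) (s := fun _ => U)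
      (t₀ := (0 : ℝ)) (f := fun s => φ (s, pE m X₀)) (g := fun s => prE m (x s))
      (Filter.Eventually.of_forall fun _ => hK)
      (hFd.and h1) (h2.mono fun u hu => ⟨hGd u, hu⟩) (by rw [hF0, hG0])
  filter_upwards [h3] with s hs
  rw [hs]
  exact hG s

/-- Proof.  Otherwise there are `z n → 0`, `z n ≠ 0`, `‖w n‖ = 1`, `t n ∈ [0, P]` (periodicity) with
`w n • x (t n) = Θ (0, μ x₀, z n)`; along a subsequence `w n → w`, `t n → t`, so `w • x t = x 0`
(`Θ (0, μ x₀, 0) = x₀`), and `w • x (t + s) = x s` for all `s` (uniqueness of solutions,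
`Solves.eq_of_eq`).  Hence `w n • x (t n) = (w n / w) • x (t n - t) = Gact φ ((t n - t, α n), x 0)` with
`α n → 0`, `exp (i α n) = w n / w` (`LM.flow_eq`), `= Θ ((t n - t, α n), μ x₀, 0)` for large `n`
(`hC.shift` and `hC.base`).  Since `Ξ` is a left inverse of `Θ` near the base point, `z n = 0`. -/
theorem sheet (hm : ∀ a, 0 < m a) (hx : Solves (fld m) (frame m) univ x) {P : ℝ}
    (hP : 0 < P) (hper : ∀ t, x (t + P) = x t) {X₀ : Up} {φ : ℝ × comSub m → comSub m}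
    (hφ : LM m 0 0 X₀ X₀ φ) (hX : ((pE m X₀ : comSub m) : Ph) = x 0)
    {Θ : (ℝ × ℝ) × (ℝ × ℝ) × (ℂ × ℂ) → comSub m} {Ξ : comSub m → (ℝ × ℝ) × (ℝ × ℝ) × (ℂ × ℂ)}
    (hC : DChart (omE m) (pE m X₀) (Gact φ) (muE m) Θ Ξ) :
    ∃ R > 0, ∀ z : ℂ × ℂ, ‖z‖ ≤ R → ∀ (w : ℂ) (t : ℝ), ‖w‖ = 1 →
      w • x t = ((Θ (0, muE m (pE m X₀), z) : comSub m) : Ph) → z = 0 := by
  by_contra hcon
  push Not at hcon
  have hcont : Continuous x := solution_continuous hx
  have hper' : Function.Periodic x P := hper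
  -- a sequence of returns
  have hseq : ∀ n : ℕ, ∃ z : ℂ × ℂ, ‖z‖ ≤ 1 / ((n : ℝ) + 1) ∧ ∃ (w : ℂ) (t : ℝ), ‖w‖ = 1 ∧
      t ∈ Icc 0 P ∧ w • x t = ((Θ (0, muE m (pE m X₀), z) : comSub m) : Ph) ∧ z ≠ 0 := by
    intro n
    obtain ⟨z, hz, w, t, hw, hwt, hz0⟩ := hcon (1 / ((n : ℝ) + 1)) (by positivity)
    obtain ⟨t', ht', htt⟩ := hper'.exists_mem_Ico₀ hP t
    refine ⟨z, hz, w, t', hw, Ico_subset_Icc_self ht', ?_, hz0⟩
    rw [← htt]
    exact hwt
  choose z hz w t hw ht hwt hz0 using hseq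
  have hzt : Tendsto z atTop (𝓝 0) := by
    rw [tendsto_zero_iff_norm_tendsto_zero]
    exact squeeze_zero (fun n => norm_nonneg _) hz tendsto_one_div_add_atTop_nhds_zero_nat
  have hcomp : IsCompact (sphere (0 : ℂ) 1 ×ˢ Icc 0 P) := (isCompact_sphere 0 1).prod isCompact_Icc
  obtain ⟨⟨w₀, t₀⟩, hwt₀, ψ, hψ, hlim⟩ := hcomp.tendsto_subseq (x := fun n => (w n, t n))
    (fun n => ⟨by simpa using hw n, ht n⟩)
  have hw₀ : ‖w₀‖ = 1 := by simpa using hwt₀.1
  have hw₀0 : w₀ ≠ 0 := by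
    rw [← norm_ne_zero_iff, hw₀]
    exact one_ne_zero
  have hlimw : Tendsto (fun n => w (ψ n)) atTop (𝓝 w₀) := (continuous_fst.tendsto _).comp hlim
  have hlimt : Tendsto (fun n => t (ψ n)) atTop (𝓝 t₀) := (continuous_snd.tendsto _).comp hlim
  have hlimz : Tendsto (fun n => z (ψ n)) atTop (𝓝 0) := hzt.comp hψ.tendsto_atTop
  have hpt : Tendsto (fun n => ((0, muE m (pE m X₀), z (ψ n)) : (ℝ × ℝ) × (ℝ × ℝ) × (ℂ × ℂ)))
      atTop (𝓝 (0, muE m (pE m X₀), 0)) :=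
    tendsto_const_nhds.prodMk_nhds (tendsto_const_nhds.prodMk_nhds hlimz)
  have hΘt : Tendsto (fun n => ((Θ (0, muE m (pE m X₀), z (ψ n)) : comSub m) : Ph)) atTop
      (𝓝 (x 0)) := by
    have h1 := (incl m).continuous.continuousAt.tendsto.comp (hC.an.continuousAt.tendsto.comp hpt)
    rw [hC.base, incl_apply, hX] at h1
    exact h1
  have hxt : Tendsto (fun n => w (ψ n) • x (t (ψ n))) atTop (𝓝 (w₀ • x t₀)) :=
    hlimw.smul ((hcont.tendsto t₀).comp hlimt)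
  have heq0 : w₀ • x t₀ = x 0 := by
    refine tendsto_nhds_unique hxt (hΘt.congr fun n => ?_)
    exact (hwt (ψ n)).symm
  -- the symmetry of the orbit
  have hsym : ∀ s, w₀ • x (t₀ + s) = x s := by
    have h1 := (hx.rotate hw₀).shift t₀
    have hx' : Solves (fld m) noColl univ x := fun s hs =>
      ⟨frame_subset m (hx s hs).1, (hx s hs).2⟩
    have h1' : Solves (fld m) noColl univ (fun s => w₀ • x (t₀ + s)) := fun s hs =>
      ⟨frame_subset m (h1 s hs).1, (h1 s hs).2⟩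
    have h2 := h1'.eq_of_eq isOpen_noColl (contDiffOn_fld m) hx' (t₀ := 0)
      (by simpa using heq0)
    exact fun s => congrFun h2 s
  -- small group elements
  have hr : Tendsto (fun n => t (ψ n) - t₀) atTop (𝓝 0) := by
    have := hlimt.sub_const t₀
    rwa [sub_self] at this
  have hv : Tendsto (fun n => w (ψ n) / w₀) atTop (𝓝 1) := by
    have := hlimw.div_const w₀
    rwa [div_self hw₀0] at this
  have hα : Tendsto (fun n => Complex.arg (w (ψ n) / w₀)) atTop (𝓝 0) := by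
    have h1 : ContinuousAt Complex.arg 1 := Complex.continuousAt_arg (by simp)
    have h2 := h1.tendsto.comp hv
    rwa [Complex.arg_one] at h2
  have hexp : ∀ n, Complex.exp (Complex.arg (w (ψ n) / w₀) * Complex.I) = w (ψ n) / w₀ := by
    intro n
    have h1 := Complex.norm_mul_exp_arg_mul_I (w (ψ n) / w₀)
    rw [norm_div, hw, hw₀, div_one, Complex.ofReal_one, one_mul] at h1
    exact h1
  have hg : Tendsto (fun n => ((t (ψ n) - t₀, Complex.arg (w (ψ n) / w₀)) : ℝ × ℝ)) atTop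
      (𝓝 0) := hr.prodMk_nhds hα
  have hsh : Tendsto (fun n => (((t (ψ n) - t₀, Complex.arg (w (ψ n) / w₀)), 0,
      muE m (pE m X₀), 0) : (ℝ × ℝ) × (ℝ × ℝ) × (ℝ × ℝ) × (ℂ × ℂ))) atTop
      (𝓝 (0, 0, muE m (pE m X₀), 0)) := hg.prodMk_nhds tendsto_const_nhds
  have hpt2 : Tendsto (fun n => (((t (ψ n) - t₀, Complex.arg (w (ψ n) / w₀)),
      muE m (pE m X₀), 0) : (ℝ × ℝ) × (ℝ × ℝ) × (ℂ × ℂ))) atTop
      (𝓝 (0, muE m (pE m X₀), 0)) := hg.prodMk_nhds tendsto_const_nhds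
  obtain ⟨n, ⟨h1, h2⟩, h3, h4⟩ := (((hr.eventually (LM.flow_eq hm hx hφ hX)).and
    (hsh.eventually hC.shift)).and ((hpt.eventually hC.left).and
      (hpt2.eventually hC.left))).exists
  simp only [add_zero] at h2
  rw [hC.base] at h2
  have h5 : Gact φ ((t (ψ n) - t₀, Complex.arg (w (ψ n) / w₀)), pE m X₀) =
      Θ (0, muE m (pE m X₀), z (ψ n)) := by
    apply Subtype.ext
    rw [← hwt (ψ n)]
    change Complex.exp (Complex.arg (w (ψ n) / w₀) * Complex.I) •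
      ((φ (t (ψ n) - t₀, pE m X₀) : comSub m) : Ph) = _
    rw [h1, hexp, ← hsym (t (ψ n) - t₀), smul_smul, div_mul_cancel₀ _ hw₀0, add_sub_cancel]
  rw [h5] at h2
  rw [h2, h3] at h4
  have h6 : z (ψ n) = 0 := congrArg (fun q : (ℝ × ℝ) × (ℝ × ℝ) × (ℂ × ℂ) => q.2.2) h4
  exact hz0 (ψ n) h6

end Pool.Agent.MP_5027f4_cont
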