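import Pool.Agent.Lib_MP_5027f4_cont.Defs

/-!
PIECE [LinDarb] (MP_5027f4_mp, T1).  Linear Darboux coordinates extending an isotropic plane.
-/

open Set Filter Topology Metric Polynomial
open scoped ComplexConjugate ContDiff

namespace Pool.Agent.MP_5027f4_cont

section LD

variable {E : Type*} [NormedAddCommGroup E] [NormedSpace ℝ E]

theorem LD_anti (om : E →L[ℝ] E →L[ℝ] ℝ) (halt : ∀ x, om x x = 0) (x y : E) :
    om x y = - om y x := by
  have h := halt (x + y)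
  simp only [map_add, ContinuousLinearMap.add_apply, halt] at h
  linarith

/-- the next symplectic pair -/
theorem LD_step [FiniteDimensional ℝ E] (om : E →L[ℝ] E →L[ℝ] ℝ) (halt : ∀ x, om x x = 0)
    (hnd : ∀ x, (∀ y, om x y = 0) → x = 0) {n : ℕ} (p q : Fin n → E)
    (hpp : ∀ i j, om (p i) (p j) = 0) (hqq : ∀ i j, om (q i) (q j) = 0)
    (hpq : ∀ i j, om (p i) (q j) = if i = j then 1 else 0)
    (hn : n + n < Module.finrank ℝ E) :
    ∃ a b, om a b = 1 ∧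
      ∀ i, om (p i) a = 0 ∧ om (q i) a = 0 ∧ om (p i) b = 0 ∧ om (q i) b = 0 := by
  have hanti := LD_anti om halt
  let T : E →ₗ[ℝ] (Fin n → ℝ) × (Fin n → ℝ) :=
    (LinearMap.pi fun i => (om (p i) : E →ₗ[ℝ] ℝ)).prod
      (LinearMap.pi fun i => (om (q i) : E →ₗ[ℝ] ℝ))
  have hT : LinearMap.ker T ≠ ⊥ := by
    apply LinearMap.ker_ne_bot_of_finrank_lt
    rw [Module.finrank_prod, Module.finrank_fin_fun]
    exact hn
  obtain ⟨a, ha, ha0⟩ := Submodule.exists_mem_ne_zero_of_ne_bot hT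
  have ha' : T a = 0 := ha
  have hpa : ∀ i, om (p i) a = 0 := fun i => congrFun (congrArg Prod.fst ha') i
  have hqa : ∀ i, om (q i) a = 0 := fun i => congrFun (congrArg Prod.snd ha') i
  obtain ⟨y, hy⟩ : ∃ y, om a y ≠ 0 := by
    by_contra hcon
    push Not at hcon
    exact ha0 (hnd a hcon)
  set z : E := y - ∑ i, om y (q i) • p i + ∑ i, om y (p i) • q i with hz
  have hpz : ∀ j, om (p j) z = 0 := by
    intro j
    rw [hz, map_add, map_sub, map_sum, map_sum]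
    have h1 : ∑ i, om (p j) (om y (q i) • p i) = 0 :=
      Finset.sum_eq_zero (fun i _ => by rw [map_smul, hpp, smul_zero])
    have h2 : ∑ i, om (p j) (om y (p i) • q i) = om y (p j) := by
      rw [Finset.sum_eq_single j]
      · rw [map_smul, hpq, if_pos rfl, smul_eq_mul, mul_one]
      · intro i _ hij
        rw [map_smul, hpq, if_neg (fun h => hij h.symm), smul_zero]
      · intro h
        exact absurd (Finset.mem_univ j) h
    rw [h1, h2, hanti (p j) y]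
    ring
  have hqz : ∀ j, om (q j) z = 0 := by
    intro j
    rw [hz, map_add, map_sub, map_sum, map_sum]
    have h1 : ∑ i, om (q j) (om y (q i) • p i) = - om y (q j) := by
      rw [Finset.sum_eq_single j]
      · rw [map_smul, hanti (q j) (p j), hpq, if_pos rfl, smul_eq_mul, mul_neg, mul_one]
      · intro i _ hij
        rw [map_smul, hanti (q j) (p i), hpq, if_neg hij, neg_zero, smul_zero]
      · intro h
        exact absurd (Finset.mem_univ j) h
    have h2 : ∑ i, om (q j) (om y (p i) • q i) = 0 :=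
      Finset.sum_eq_zero (fun i _ => by rw [map_smul, hqq, smul_zero])
    rw [h1, h2, hanti (q j) y]
    ring
  have haz : om a z = om a y := by
    rw [hz, map_add, map_sub, map_sum, map_sum]
    have h1 : ∑ i, om a (om y (q i) • p i) = 0 :=
      Finset.sum_eq_zero (fun i _ => by rw [map_smul, hanti a (p i), hpa, neg_zero, smul_zero])
    have h2 : ∑ i, om a (om y (p i) • q i) = 0 :=
      Finset.sum_eq_zero (fun i _ => by rw [map_smul, hanti a (q i), hqa, neg_zero, smul_zero])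
    rw [h1, h2]
    ring
  refine ⟨a, (om a y)⁻¹ • z, ?_, fun i => ⟨hpa i, hqa i, ?_, ?_⟩⟩
  · rw [map_smul, haz, smul_eq_mul, inv_mul_cancel₀ hy]
  · rw [map_smul, hpz, smul_zero]
  · rw [map_smul, hqz, smul_zero]

/-- the first two vectors -/
theorem LD_start (om : E →L[ℝ] E →L[ℝ] ℝ) (halt : ∀ x, om x x = 0)
    (hnd : ∀ x, (∀ y, om x y = 0) → x = 0) (e₁ e₂ : E) (h12 : om e₁ e₂ = 0) (he₁ : e₁ ≠ 0)
    (he₂ : ∀ c : ℝ, e₂ ≠ c • e₁) :
    ∃ f₁ f₂, om e₁ f₁ = 1 ∧ om e₂ f₁ = 0 ∧ om e₁ f₂ = 0 ∧ om e₂ f₂ = 1 ∧ om f₁ f₂ = 0 := by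
  have hanti := LD_anti om halt
  obtain ⟨u, hu⟩ : ∃ u, om e₁ u = 1 := by
    obtain ⟨y, hy⟩ : ∃ y, om e₁ y ≠ 0 := by
      by_contra hcon
      push Not at hcon
      exact he₁ (hnd e₁ hcon)
    exact ⟨(om e₁ y)⁻¹ • y, by rw [map_smul, smul_eq_mul, inv_mul_cancel₀ hy]⟩
  obtain ⟨v, hv1, hv2⟩ : ∃ v, om e₁ v = 0 ∧ om e₂ v = 1 := by
    obtain ⟨y, hy1, hy2⟩ : ∃ y, om e₁ y = 0 ∧ om e₂ y ≠ 0 := by
      by_contra hcon
      push Not at hcon
      refine he₂ (om e₂ u) ?_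
      rw [← sub_eq_zero]
      apply hnd
      intro y
      have h1 := hcon (y - om e₁ y • u) (by rw [map_sub, map_smul, hu, smul_eq_mul, mul_one, sub_self])
      rw [map_sub, map_smul, smul_eq_mul] at h1
      rw [map_sub, map_smul, ContinuousLinearMap.sub_apply, ContinuousLinearMap.smul_apply,
        smul_eq_mul]
      linarith
    refine ⟨(om e₂ y)⁻¹ • y, ?_, ?_⟩
    · rw [map_smul, hy1, smul_zero]
    · rw [map_smul, smul_eq_mul, inv_mul_cancel₀ hy2]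
  set f₁ : E := u - om e₂ u • v with hf₁
  have h1 : om e₁ f₁ = 1 := by
    rw [hf₁, map_sub, map_smul, hu, hv1, smul_zero, sub_zero]
  have h2 : om e₂ f₁ = 0 := by
    rw [hf₁, map_sub, map_smul, hv2, smul_eq_mul, mul_one, sub_self]
  refine ⟨f₁, v + om f₁ v • e₁, h1, h2, ?_, ?_, ?_⟩
  · rw [map_add, map_smul, hv1, halt, smul_zero, add_zero]
  · rw [map_add, map_smul, hv2, hanti e₂ e₁, h12, neg_zero, smul_zero, add_zero]
  · rw [map_add, map_smul, hanti f₁ e₁, h1, smul_eq_mul]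
    ring

/-- the linear map given by the eight vectors -/
noncomputable def LDmap (e₁ e₂ f₁ f₂ a₁ b₁ a₂ b₂ : E) :
    ((ℝ × ℝ) × (ℝ × ℝ) × (ℂ × ℂ)) →ₗ[ℝ] E where
  toFun δ := δ.1.1 • e₁ + δ.1.2 • e₂ + δ.2.1.1 • f₁ + δ.2.1.2 • f₂ + δ.2.2.1.re • a₁ +
    δ.2.2.1.im • b₁ + δ.2.2.2.re • a₂ + δ.2.2.2.im • b₂
  map_add' δ δ' := by
    simp only [Prod.fst_add, Prod.snd_add, Complex.add_re, Complex.add_im]
    module
  map_smul' c δ := by
    simp only [Prod.smul_fst, Prod.smul_snd, Complex.smul_re, Complex.smul_im, smul_eq_mul,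
      RingHom.id_apply]
    module

end LD

/-- An isotropic plane in a symplectic space of dimension 8 extends to linear Darboux coordinates.

Proof.  Write `e₁ = X (1, 0)`, `e₂ = X (0, 1)`, independent with `om e₁ e₂ = 0`.
(a) There are `f₁, f₂` with `om eᵢ fⱼ = δᵢⱼ`: the linear map `f ↦ (om e₁ f, om e₂ f)` is onto `ℝ²`,
otherwise a combination `om (α e₁ + β e₂)` with `(α, β) ≠ 0` vanishes, contradicting `hnd` and the
injectivity of `X`.  Replace `f₂` by `f₂ + t e₁` with `t = om f₂ f₁`... so that `om f₁ f₂ = 0`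
(`om f₁ (f₂ + t e₁) = om f₁ f₂ - t`, take `t = om f₁ f₂`; `om eᵢ (f₂ + t e₁) = om eᵢ f₂`).
(b) `W = {w | om eᵢ w = 0, om fᵢ w = 0}`; every `x` is uniquely
`x = Σ (om x fᵢ) eᵢ - Σ (om x eᵢ) fᵢ + w`, `w ∈ W`; so `finrank W = 4` and `om` is nondegenerate on
`W` (an element of `W` orthogonal to `W` is orthogonal to everything).
(c) In `W` choose `a₁ ≠ 0`, `b₁ ∈ W` with `om a₁ b₁ = 1`, and again the orthogonal complement
`W' = {w ∈ W | om a₁ w = om b₁ w = 0}` of dimension 2, `a₂ ≠ 0` in `W'`, `b₂ ∈ W'`,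
`om a₂ b₂ = 1`.
(d) `L (g, k, z) = g₁ e₁ + g₂ e₂ + k₁ f₁ + k₂ f₂ + z₁.re a₁ + z₁.im b₁ + z₂.re a₂ + z₂.im b₂`;
`om (L δ) (L δ') = Om δ δ'` by bilinearity (`os (z, z') = Σ z.re z'.im - z.im z'.re`).  `L` is
injective because `Om` is nondegenerate, hence bijective by dimension. -/
theorem exists_linDarboux {E : Type*} [NormedAddCommGroup E] [NormedSpace ℝ E]
    [FiniteDimensional ℝ E] (om : E →L[ℝ] E →L[ℝ] ℝ) (halt : ∀ x, om x x = 0)
    (hnd : ∀ x, (∀ y, om x y = 0) → x = 0) (hdim : Module.finrank ℝ E = 8)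
    (X : (ℝ × ℝ) →L[ℝ] E) (hX : Function.Injective X) (hiso : ∀ g g', om (X g) (X g') = 0) :
    ∃ L : ((ℝ × ℝ) × (ℝ × ℝ) × (ℂ × ℂ)) ≃L[ℝ] E, (∀ g, L (g, 0, 0) = X g) ∧
      ∀ δ δ', om (L δ) (L δ') = Om δ δ' := by
  have hanti := LD_anti om halt
  obtain ⟨e₁, he1⟩ : ∃ e, e = X (1, 0) := ⟨_, rfl⟩
  obtain ⟨e₂, he2⟩ : ∃ e, e = X (0, 1) := ⟨_, rfl⟩
  have hXg : ∀ g, X g = g.1 • e₁ + g.2 • e₂ := by
    intro g
    rw [he1, he2, ← map_smul, ← map_smul, ← map_add]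
    congr 1
    ext <;> simp
  have h12 : om e₁ e₂ = 0 := by rw [he1, he2]; exact hiso _ _
  have he₁ : e₁ ≠ 0 := by
    intro h
    rw [he1, ← map_zero X] at h
    have := congrArg Prod.fst (hX h)
    simp at this
  have he₂ : ∀ c : ℝ, e₂ ≠ c • e₁ := by
    intro c h
    rw [he1, he2, ← map_smul] at h
    have := congrArg Prod.snd (hX h)
    simp at this
  obtain ⟨f₁, f₂, h1, h2, h3, h4, h5⟩ := LD_start om halt hnd e₁ e₂ h12 he₁ he₂
  obtain ⟨a₁, b₁, hab1, hW1⟩ := LD_step om halt hnd ![e₁, e₂] ![f₁, f₂]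
    (by
      intro i j
      fin_cases i <;> fin_cases j <;> simp [halt, h12, hanti e₂ e₁])
    (by
      intro i j
      fin_cases i <;> fin_cases j <;> simp [halt, h5, hanti f₂ f₁])
    (by
      intro i j
      fin_cases i <;> fin_cases j <;> simp [h1, h2, h3, h4])
    (by rw [hdim]; norm_num)
  obtain ⟨w1, w2, w3, w4⟩ := hW1 0
  obtain ⟨w5, w6, w7, w8⟩ := hW1 1
  simp only [Matrix.cons_val_zero, Matrix.cons_val_one] at w1 w2 w3 w4 w5 w6 w7 w8
  obtain ⟨a₂, b₂, hab2, hW2⟩ := LD_step om halt hnd ![e₁, e₂, a₁] ![f₁, f₂, b₁]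
    (by
      intro i j
      fin_cases i <;> fin_cases j <;>
        simp [halt, h12, hanti e₂ e₁, w1, w5, hanti a₁ e₁, hanti a₁ e₂])
    (by
      intro i j
      fin_cases i <;> fin_cases j <;>
        simp [halt, h5, hanti f₂ f₁, w4, w8, hanti b₁ f₁, hanti b₁ f₂])
    (by
      intro i j
      fin_cases i <;> fin_cases j <;>
        simp [h1, h2, h3, h4, w3, w7, hab1, hanti a₁ f₁, hanti a₁ f₂, w2, w6])
    (by rw [hdim]; norm_num)
  obtain ⟨v1, v2, v3, v4⟩ := hW2 0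
  obtain ⟨v5, v6, v7, v8⟩ := hW2 1
  obtain ⟨v9, v10, v11, v12⟩ := hW2 2
  simp only [Matrix.cons_val_zero, Matrix.cons_val_one, Matrix.cons_val] at v1 v2 v3 v4 v5 v6 v7 v8 v9 v10 v11 v12
  let L₀ := LDmap e₁ e₂ f₁ f₂ a₁ b₁ a₂ b₂
  have hL₀ : ∀ δ, L₀ δ = δ.1.1 • e₁ + δ.1.2 • e₂ + δ.2.1.1 • f₁ + δ.2.1.2 • f₂ + δ.2.2.1.re • a₁ +
    δ.2.2.1.im • b₁ + δ.2.2.2.re • a₂ + δ.2.2.2.im • b₂ := fun δ => rfl
  have hom : ∀ δ δ', om (L₀ δ) (L₀ δ') = Om δ δ' := by
    intro δ δ'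
    have r21 := hanti e₂ e₁
    have s1 := hanti f₁ e₁
    have s2 := hanti f₁ e₂
    have s3 := hanti f₂ e₁
    have s4 := hanti f₂ e₂
    have s5 := hanti f₂ f₁
    have t1 := hanti a₁ e₁
    have t2 := hanti a₁ e₂
    have t3 := hanti a₁ f₁
    have t4 := hanti a₁ f₂
    have t5 := hanti b₁ e₁
    have t6 := hanti b₁ e₂
    have t7 := hanti b₁ f₁
    have t8 := hanti b₁ f₂
    have t9 := hanti b₁ a₁
    have u1 := hanti a₂ e₁
    have u2 := hanti a₂ e₂
    have u3 := hanti a₂ f₁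
    have u4 := hanti a₂ f₂
    have u5 := hanti a₂ a₁
    have u6 := hanti a₂ b₁
    have u7 := hanti b₂ e₁
    have u8 := hanti b₂ e₂
    have u9 := hanti b₂ f₁
    have u10 := hanti b₂ f₂
    have u11 := hanti b₂ a₁
    have u12 := hanti b₂ b₁
    have u13 := hanti b₂ a₂
    rw [h12] at r21
    rw [h1] at s1
    rw [h2] at s2
    rw [h3] at s3
    rw [h4] at s4
    rw [h5] at s5
    rw [w1] at t1
    rw [w5] at t2
    rw [w2] at t3
    rw [w6] at t4
    rw [w3] at t5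
    rw [w7] at t6
    rw [w4] at t7
    rw [w8] at t8
    rw [hab1] at t9
    rw [v1] at u1
    rw [v5] at u2
    rw [v2] at u3
    rw [v6] at u4
    rw [v9] at u5
    rw [v10] at u6
    rw [v3] at u7
    rw [v7] at u8
    rw [v4] at u9
    rw [v8] at u10
    rw [v11] at u11
    rw [v12] at u12
    rw [hab2] at u13
    simp only [hL₀, map_add, map_smul, ContinuousLinearMap.add_apply,
      ContinuousLinearMap.smul_apply, smul_eq_mul, halt, h12, r21, h1, h2, h3, h4, h5, s1, s2, s3,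
      s4, s5, w1, w2, w3, w4, w5, w6, w7, w8, hab1, t1, t2, t3, t4, t5, t6, t7, t8, t9, v1, v2, v3,
      v4, v5, v6, v7, v8, v9, v10, v11, v12, hab2, u1, u2, u3, u4, u5, u6, u7, u8, u9, u10, u11,
      u12, u13]
    simp only [Om, dot, os, Complex.add_im, Complex.mul_im, Complex.conj_re, Complex.conj_im]
    ring
  have hinj : Function.Injective L₀ := by
    rw [injective_iff_map_eq_zero]
    intro δ hδ
    have hO : ∀ δ', Om δ δ' = 0 := by
      intro δ'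
      rw [← hom, hδ, map_zero, ContinuousLinearMap.zero_apply]
    obtain ⟨⟨g1, g2⟩, ⟨k1, k2⟩, ⟨z1, z2⟩⟩ := δ
    have o1 := hO ((1, 0), (0, 0), (0, 0))
    have o2 := hO ((0, 1), (0, 0), (0, 0))
    have o3 := hO ((0, 0), (1, 0), (0, 0))
    have o4 := hO ((0, 0), (0, 1), (0, 0))
    have o5 := hO ((0, 0), (0, 0), (1, 0))
    have o6 := hO ((0, 0), (0, 0), (Complex.I, 0))
    have o7 := hO ((0, 0), (0, 0), (0, 1))
    have o8 := hO ((0, 0), (0, 0), (0, Complex.I))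
    simp [Om, dot, os] at o1 o2 o3 o4 o5 o6 o7 o8
    have p1 : z1 = 0 := Complex.ext o6 o5
    have p2 : z2 = 0 := Complex.ext o8 o7
    rw [o1, o2, o3, o4, p1, p2]
    rfl
  have hfr : Module.finrank ℝ ((ℝ × ℝ) × (ℝ × ℝ) × (ℂ × ℂ)) = Module.finrank ℝ E := by
    rw [hdim]
    simp [Module.finrank_prod, Complex.finrank_real_complex]
  let L₁ := LinearMap.linearEquivOfInjective L₀ hinj hfr
  refine ⟨L₁.toContinuousLinearEquiv, ?_, ?_⟩
  · intro g
    have h : L₁.toContinuousLinearEquiv (g, 0, 0) = L₀ (g, 0, 0) := rfl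
    rw [h, hL₀, hXg]
    simp
  · intro δ δ'
    exact hom δ δ'

end Pool.Agent.MP_5027f4_cont
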