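import Pool.Agent.Lib_MP_5027f4_cont.LinNFa

/-!
PIECE [LinNF] (MP_5027f4_mp, T1).  Linear normal form of an elliptic symplectic map of `ℂ² = ℝ⁴`.
-/

open Set Filter Topology Metric Polynomial Asymptotics
open scoped ComplexConjugate ContDiff

namespace Pool.Agent.MP_5027f4_cont

theorem lnf_os_lin (a b c d : ℝ) (x y u v : ℂ × ℂ) :
    os (a • x + b • y) (c • u + d • v) =
      a * c * os x u + a * d * os x v + b * c * os y u + b * d * os y v := by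
  simp only [os, Prod.fst_add, Prod.snd_add, Prod.smul_fst, Prod.smul_snd, Complex.real_smul,
    map_add, map_mul, Complex.conj_ofReal, Complex.add_im, Complex.mul_im, Complex.mul_re,
    Complex.add_re, Complex.ofReal_re, Complex.ofReal_im, Complex.conj_re, Complex.conj_im]
  ring

theorem lnf_os_swap (x y : ℂ × ℂ) : os y x = - os x y := by
  simp only [os, Complex.add_im, Complex.mul_im, Complex.conj_re, Complex.conj_im]
  ring

theorem lnf_os_self (x : ℂ × ℂ) : os x x = 0 := by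
  simp only [os, Complex.add_im, Complex.mul_im, Complex.conj_re, Complex.conj_im]
  ring

theorem lnf_os_nondeg (x : ℂ × ℂ) (h : ∀ y, os x y = 0) : x = 0 := by
  have h1 := h (Complex.I * x.1, Complex.I * x.2)
  simp only [os, Complex.add_im, Complex.mul_im, Complex.mul_re, Complex.conj_re, Complex.conj_im,
    Complex.I_re, Complex.I_im] at h1
  have e1 : x.1.re = 0 := by nlinarith [sq_nonneg x.1.re, sq_nonneg x.1.im, sq_nonneg x.2.re, sq_nonneg x.2.im]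
  have e2 : x.1.im = 0 := by nlinarith [sq_nonneg x.1.re, sq_nonneg x.1.im, sq_nonneg x.2.re, sq_nonneg x.2.im]
  have e3 : x.2.re = 0 := by nlinarith [sq_nonneg x.1.re, sq_nonneg x.1.im, sq_nonneg x.2.re, sq_nonneg x.2.im]
  have e4 : x.2.im = 0 := by nlinarith [sq_nonneg x.1.re, sq_nonneg x.1.im, sq_nonneg x.2.re, sq_nonneg x.2.im]
  exact Prod.ext (Complex.ext e1 e2) (Complex.ext e3 e4)

/-- the linear map with the frame `(e₁, f₁, e₂, f₂)` -/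
noncomputable def lnfFrm (e₁ f₁ e₂ f₂ : ℂ × ℂ) : (ℂ × ℂ) →ₗ[ℝ] (ℂ × ℂ) where
  toFun z := z.1.re • e₁ + z.1.im • f₁ + (z.2.re • e₂ + z.2.im • f₂)
  map_add' z w := by
    simp only [Prod.fst_add, Prod.snd_add, Complex.add_re, Complex.add_im, add_smul]
    abel
  map_smul' c z := by
    simp only [Prod.smul_fst, Prod.smul_snd, Complex.smul_re, Complex.smul_im, smul_eq_mul,
      RingHom.id_apply, smul_add, mul_smul]

theorem lnf_frm_apply (e₁ f₁ e₂ f₂ z : ℂ × ℂ) :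
    lnfFrm e₁ f₁ e₂ f₂ z = z.1.re • e₁ + z.1.im • f₁ + (z.2.re • e₂ + z.2.im • f₂) := rfl

/-- invariant planes of different eigenvalues are independent -/
theorem lnf_frm_inj (A : (ℂ × ℂ) →L[ℝ] (ℂ × ℂ)) {a₁ b₁ a₂ b₂ : ℝ} (h₁ : a₁ ^ 2 + b₁ ^ 2 = 1)
    (h₂ : a₂ ^ 2 + b₂ ^ 2 = 1) (hb₁ : b₁ ≠ 0) (hb₂ : b₂ ≠ 0) (ha : a₁ ≠ a₂)
    {x₁ y₁ x₂ y₂ : ℂ × ℂ}
    (hx₁ : A x₁ = a₁ • x₁ - b₁ • y₁) (hy₁ : A y₁ = b₁ • x₁ + a₁ • y₁)
    (hx₂ : A x₂ = a₂ • x₂ - b₂ • y₂) (hy₂ : A y₂ = b₂ • x₂ + a₂ • y₂)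
    (hn₁ : x₁ ≠ 0 ∨ y₁ ≠ 0) (hn₂ : x₂ ≠ 0 ∨ y₂ ≠ 0) :
    Function.Injective (lnfFrm x₁ y₁ x₂ y₂) := by
  have key1 : ∀ (a b : ℝ) (x y : ℂ × ℂ), a ^ 2 + b ^ 2 = 1 → A x = a • x - b • y →
      A y = b • x + a • y → ∀ (α β : ℝ), A (A (α • x + β • y)) =
        (2 * a) • A (α • x + β • y) - (α • x + β • y) := by
    intro a b x y h hx hy α β
    simp only [map_add, map_sub, map_smul, hx, hy]
    have e : (b : ℝ) ^ 2 = 1 - a ^ 2 := by linarith
    have e1 : α • (a • (a • x - b • y) - b • (b • x + a • y)) +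
        β • (b • (a • x - b • y) + a • (b • x + a • y)) =
        (α * (a ^ 2 - b ^ 2) + β * (2 * a * b)) • x +
          (β * (a ^ 2 - b ^ 2) - α * (2 * a * b)) • y := by module
    rw [e1, e]
    module
  have key2 : ∀ (a b : ℝ) (x y : ℂ × ℂ), b ≠ 0 → A x = a • x - b • y →
      A y = b • x + a • y → (x ≠ 0 ∨ y ≠ 0) → ∀ (α β : ℝ), α • x + β • y = 0 → α = 0 ∧ β = 0 := by
    intro a b x y hb hx hy hn α β h0
    have h1 : A (α • x + β • y) = 0 := by rw [h0, map_zero]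
    simp only [map_add, map_smul, hx, hy] at h1
    have h2 : b • (β • x - α • y) = 0 := by
      have : b • (β • x - α • y) = (α • (a • x - b • y) + β • (b • x + a • y)) -
          a • (α • x + β • y) := by module
      rw [this, h1, h0]; simp
    have h3 : β • x - α • y = 0 := by
      rcases smul_eq_zero.mp h2 with h | h
      · exact absurd h hb
      · exact h
    have h4 : (α ^ 2 + β ^ 2) • x = 0 := by
      have : (α ^ 2 + β ^ 2) • x = α • (α • x + β • y) + β • (β • x - α • y) := by module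
      rw [this, h0, h3]; simp
    have h5 : (α ^ 2 + β ^ 2) • y = 0 := by
      have : (α ^ 2 + β ^ 2) • y = β • (α • x + β • y) - α • (β • x - α • y) := by module
      rw [this, h0, h3]; simp
    have h6 : α ^ 2 + β ^ 2 = 0 := by
      rcases hn with hn | hn
      · exact (smul_eq_zero.mp h4).resolve_right hn
      · exact (smul_eq_zero.mp h5).resolve_right hn
    constructor <;> nlinarith [sq_nonneg α, sq_nonneg β]
  rw [← LinearMap.ker_eq_bot, LinearMap.ker_eq_bot']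
  intro z hz
  rw [lnf_frm_apply] at hz
  set v := z.1.re • x₁ + z.1.im • y₁ with hv
  set w := z.2.re • x₂ + z.2.im • y₂ with hw
  have hvw : w = -v := by rw [← sub_eq_zero]; rw [sub_neg_eq_add, add_comm]; exact hz
  have k1 := key1 a₁ b₁ x₁ y₁ h₁ hx₁ hy₁ z.1.re z.1.im
  have k2 := key1 a₂ b₂ x₂ y₂ h₂ hx₂ hy₂ z.2.re z.2.im
  rw [← hv] at k1
  rw [← hw, hvw] at k2
  simp only [map_neg] at k2
  have k3 : (a₁ - a₂) • A v = 0 := by
    have : (2 : ℝ) • ((a₁ - a₂) • A v) = ((2 * a₁) • A v - v) + ((2 * a₂) • (- A v) - (-v)) := by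
      module
    have h2 : (2 : ℝ) • ((a₁ - a₂) • A v) = 0 := by
      rw [this, ← k1, ← k2]; simp
    exact (smul_eq_zero.mp h2).resolve_left two_ne_zero
  have k4 : A v = 0 := (smul_eq_zero.mp k3).resolve_left (sub_ne_zero.mpr ha)
  have k5 : v = 0 := by
    rw [k4] at k1
    simp only [map_zero, smul_zero, zero_sub] at k1
    exact (neg_eq_zero.mp k1.symm)
  have k6 : w = 0 := by rw [hvw, k5, neg_zero]
  obtain ⟨p1, p2⟩ := key2 a₁ b₁ x₁ y₁ hb₁ hx₁ hy₁ hn₁ _ _ k5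
  obtain ⟨p3, p4⟩ := key2 a₂ b₂ x₂ y₂ hb₂ hx₂ hy₂ hn₂ _ _ k6
  exact Prod.ext (Complex.ext p1 p2) (Complex.ext p3 p4)

/-- orthogonality of the invariant planes -/
theorem lnf_planes_orth (A : (ℂ × ℂ) →L[ℝ] (ℂ × ℂ)) (hs : ∀ ξ η, os (A ξ) (A η) = os ξ η)
    {l₁ l₂ : ℂ} (h₂ : ‖l₂‖ = 1) (hn : l₁ * l₂ ≠ 1) (hn' : l₁ * l₂⁻¹ ≠ 1)
    {x₁ y₁ x₂ y₂ : ℂ × ℂ}
    (hx₁ : A x₁ = l₁.re • x₁ - l₁.im • y₁) (hy₁ : A y₁ = l₁.im • x₁ + l₁.re • y₁)
    (hx₂ : A x₂ = l₂.re • x₂ - l₂.im • y₂) (hy₂ : A y₂ = l₂.im • x₂ + l₂.re • y₂) :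
    os x₁ x₂ = 0 ∧ os x₁ y₂ = 0 ∧ os y₁ x₂ = 0 ∧ os y₁ y₂ = 0 := by
  have hx₁' : A x₁ = l₁.re • x₁ + (-l₁.im) • y₁ := by rw [hx₁]; module
  have hx₂' : A x₂ = l₂.re • x₂ + (-l₂.im) • y₂ := by rw [hx₂]; module
  have e1 := hs x₁ x₂
  have e2 := hs x₁ y₂
  have e3 := hs y₁ x₂
  have e4 := hs y₁ y₂
  rw [hx₁', hx₂', lnf_os_lin] at e1
  rw [hx₁', hy₂, lnf_os_lin] at e2
  rw [hy₁, hx₂', lnf_os_lin] at e3
  rw [hy₁, hy₂, lnf_os_lin] at e4
  have hc : l₂⁻¹ = conj l₂ := Complex.inv_eq_conj h₂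
  have p0 : (⟨os x₁ x₂ - os y₁ y₂, os x₁ y₂ + os y₁ x₂⟩ : ℂ) = 0 := by
    have : (1 - l₁ * l₂) * (⟨os x₁ x₂ - os y₁ y₂, os x₁ y₂ + os y₁ x₂⟩ : ℂ) = 0 := by
      apply Complex.ext
      · simp only [Complex.mul_re, Complex.sub_re, Complex.sub_im, Complex.one_re, Complex.one_im,
          Complex.mul_im, Complex.zero_re]
        linarith
      · simp only [Complex.mul_re, Complex.sub_re, Complex.sub_im, Complex.one_re, Complex.one_im,
          Complex.mul_im, Complex.zero_im]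
        linarith
    exact (mul_eq_zero.mp this).resolve_left (sub_ne_zero.mpr (Ne.symm hn))
  have p1 : (⟨os x₁ x₂ + os y₁ y₂, os y₁ x₂ - os x₁ y₂⟩ : ℂ) = 0 := by
    rw [hc] at hn'
    have : (1 - l₁ * conj l₂) * (⟨os x₁ x₂ + os y₁ y₂, os y₁ x₂ - os x₁ y₂⟩ : ℂ) = 0 := by
      apply Complex.ext
      · simp only [Complex.mul_re, Complex.sub_re, Complex.sub_im, Complex.one_re, Complex.one_im,
          Complex.mul_im, Complex.zero_re, Complex.conj_re, Complex.conj_im]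
        linarith
      · simp only [Complex.mul_re, Complex.sub_re, Complex.sub_im, Complex.one_re, Complex.one_im,
          Complex.mul_im, Complex.zero_im, Complex.conj_re, Complex.conj_im]
        linarith
    exact (mul_eq_zero.mp this).resolve_left (sub_ne_zero.mpr (Ne.symm hn'))
  have r1 := congrArg Complex.re p0
  have r2 := congrArg Complex.im p0
  have r3 := congrArg Complex.re p1
  have r4 := congrArg Complex.im p1
  simp only [Complex.zero_re, Complex.zero_im] at r1 r2 r3 r4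
  refine ⟨?_, ?_, ?_, ?_⟩ <;> linarith

/-- the symplectic form does not vanish on the invariant planes -/
theorem lnf_plane_nondeg {x₁ y₁ x₂ y₂ : ℂ × ℂ} (hinj : Function.Injective (lnfFrm x₁ y₁ x₂ y₂))
    (o1 : os x₁ x₂ = 0) (o2 : os x₁ y₂ = 0) : os x₁ y₁ ≠ 0 := by
  intro h0
  have hsur : Function.Surjective (lnfFrm x₁ y₁ x₂ y₂) :=
    LinearMap.injective_iff_surjective.mp hinj
  have hx : x₁ = 0 := by
    apply lnf_os_nondeg
    intro v
    obtain ⟨z, rfl⟩ := hsur v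
    rw [lnf_frm_apply]
    have e1 : os x₁ (z.1.re • x₁ + z.1.im • y₁ + (z.2.re • x₂ + z.2.im • y₂)) =
        z.1.re * os x₁ x₁ + z.1.im * os x₁ y₁ + (z.2.re * os x₁ x₂ + z.2.im * os x₁ y₂) := by
      simp only [os, Prod.fst_add, Prod.snd_add, Prod.smul_fst, Prod.smul_snd, Complex.real_smul,
        Complex.add_im, Complex.mul_im, Complex.mul_re,
        Complex.add_re, Complex.ofReal_re, Complex.ofReal_im, Complex.conj_re, Complex.conj_im]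
      ring
    rw [e1, lnf_os_self, h0, o1, o2]
    ring
  have hz : lnfFrm x₁ y₁ x₂ y₂ ((1 : ℂ), (0 : ℂ)) = lnfFrm x₁ y₁ x₂ y₂ 0 := by
    rw [lnf_frm_apply, lnf_frm_apply, hx]
    simp
  have := hinj hz
  have h1 := congrArg Prod.fst this
  simp at h1

/-- normalized frame of an invariant plane -/
theorem lnf_exists_pair (A : (ℂ × ℂ) →L[ℝ] (ℂ × ℂ)) {l : ℂ} {x y : ℂ × ℂ}
    (hx : A x = l.re • x - l.im • y) (hy : A y = l.im • x + l.re • y) (h0 : os x y ≠ 0) :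
    ∃ (e f : ℂ × ℂ) (μ : ℂ), (μ = l ∨ μ = conj l) ∧ os e f = 1 ∧
      A e = μ.re • e + μ.im • f ∧ A f = (-μ.im) • e + μ.re • f ∧
      ∃ p q r s : ℝ, e = p • x + q • y ∧ f = r • x + s • y := by
  rcases lt_or_gt_of_ne h0 with h | h
  · have hs : 0 < Real.sqrt (-os x y) := Real.sqrt_pos.mpr (by linarith)
    set t := (Real.sqrt (-os x y))⁻¹ with ht
    have ht2 : t * t * (-os x y) = 1 := by
      rw [ht, ← mul_inv, Real.mul_self_sqrt (by linarith), inv_mul_cancel₀ (by linarith)]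
    refine ⟨t • y, t • x, l, Or.inl rfl, ?_, ?_, ?_, 0, t, t, 0, by module, by module⟩
    · have := lnf_os_lin t 0 t 0 y x x y
      simp only [zero_smul, add_zero, zero_mul, mul_zero] at this
      rw [this, lnf_os_swap x y]
      linarith
    · rw [map_smul, hy]; module
    · rw [map_smul, hx]; module
  · have hs : 0 < Real.sqrt (os x y) := Real.sqrt_pos.mpr h
    set t := (Real.sqrt (os x y))⁻¹ with ht
    have ht2 : t * t * (os x y) = 1 := by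
      rw [ht, ← mul_inv, Real.mul_self_sqrt (by linarith), inv_mul_cancel₀ (by linarith)]
    refine ⟨t • x, t • y, conj l, Or.inr rfl, ?_, ?_, ?_, t, 0, 0, t, by module, by module⟩
    · have := lnf_os_lin t 0 t 0 x y y x
      simp only [zero_smul, add_zero, zero_mul, mul_zero] at this
      rw [this]
      linarith
    · rw [map_smul, hx, Complex.conj_re, Complex.conj_im]; module
    · rw [map_smul, hy, Complex.conj_re, Complex.conj_im]; module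

theorem NonRes.lnf_swap {l₁ l₂ : ℂ} (h : NonRes l₁ l₂) : NonRes l₂ l₁ := by
  intro a b hab hs
  rw [mul_comm]
  exact h b a hab.symm (by rw [add_comm]; exact hs)

theorem NonRes.lnf_inv {l₁ l₂ : ℂ} (h : NonRes l₁ l₂) : NonRes l₁⁻¹ l₂ := by
  intro a b hab hs
  rw [inv_zpow']
  exact h (-a) b (by rcases hab with h | h; exacts [Or.inl (neg_ne_zero.mpr h), Or.inr h])
    (by rw [abs_neg]; exact hs)

theorem NonRes.lnf_conj_or {l₁ l₂ μ₁ μ₂ : ℂ} (h : NonRes l₁ l₂) (h₁ : ‖l₁‖ = 1) (h₂ : ‖l₂‖ = 1)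
    (hμ₁ : μ₁ = l₁ ∨ μ₁ = conj l₁) (hμ₂ : μ₂ = l₂ ∨ μ₂ = conj l₂) : NonRes μ₁ μ₂ := by
  rw [← Complex.inv_eq_conj h₁] at hμ₁
  rw [← Complex.inv_eq_conj h₂] at hμ₂
  rcases hμ₁ with rfl | rfl <;> rcases hμ₂ with rfl | rfl
  · exact h
  · exact h.lnf_swap.lnf_inv.lnf_swap
  · exact h.lnf_inv
  · exact h.lnf_inv.lnf_swap.lnf_inv.lnf_swap

/-- Proof.  `exists_plane` for `l₁` and `l₂`: `A x₁ = Re l₁ x₁ - Im l₁ y₁`,
`A y₁ = Im l₁ x₁ + Re l₁ y₁`, and `x₂, y₂` for `l₂`.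
(1) Orthogonality.  The complex numbers `p = os(x₁ + i y₁, x₂ + i y₂)` and
`p' = os(x₁ + i y₁, x₂ - i y₂)` (bilinear extension, e.g.
`p = (os x₁ x₂ - os y₁ y₂) + i (os x₁ y₂ + os y₁ x₂)`) satisfy `p = l₁ l₂ p`, `p' = l₁ conj l₂ p'`
because `A` is symplectic, and `l₁ l₂ ≠ 1`, `l₁ l₂⁻¹ ≠ 1` (`NonRes`), `conj l₂ = l₂⁻¹`; so
`os x₁ x₂ = os x₁ y₂ = os y₁ x₂ = os y₁ y₂ = 0`.
(2) `x₁, y₁, x₂, y₂` is a basis: `x₁, y₁` are independent because `l₁` is not real (`l₁² ≠ 1`): if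
they span a line, it is invariant and `A` acts on it by a real number `t` with `t (x₁ + i y₁) = l₁ (..)`.
The planes `V₁`, `V₂` meet in `0` since the common part would be invariant and orthogonal to both
(if `V₁ = V₂` then `A` has on it the eigenvalue pairs `l₁^{±1}` and `l₂^{±1}`, so `l₂ = l₁^{±1}`,
excluded; if the intersection is a line it is an invariant line in `V₁`, impossible).
(3) `s = os x₁ y₁ ≠ 0` (else `x₁` is orthogonal to everything).  If `s > 0` put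
`e₁ = x₁/√s`, `f₁ = y₁/√s`... choose the sign: `os e₁ f₁ = 1` with `(e₁, f₁) = (x₁, y₁)/√s` if
`s > 0` and `(y₁, x₁)/√(-s)` if `s < 0`.  Since `A x₁ = Re l₁ x₁ - Im l₁ y₁`,
`A y₁ = Im l₁ x₁ + Re l₁ y₁`, in the coordinate `z₁ = α + i β` of `α e₁ + β f₁` the map `A` is the
multiplication by `μ₁ = conj l₁` (if `s > 0`) or `l₁` (if `s < 0`).  The same for `l₂`.
(4) `L⁻¹ (z₁, z₂) = z₁.re e₁ + z₁.im f₁ + z₂.re e₂ + z₂.im f₂`.  `NonRes μ₁ μ₂`: change the signs of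
`a`, `b` (`conj l = l⁻¹`). -/
theorem exists_linNF (A : (ℂ × ℂ) →L[ℝ] (ℂ × ℂ)) (hs : ∀ ξ η, os (A ξ) (A η) = os ξ η)
    (hell : Ell4 (cp A)) :
    ∃ (L : (ℂ × ℂ) ≃L[ℝ] (ℂ × ℂ)) (μ₁ μ₂ : ℂ), ‖μ₁‖ = 1 ∧ ‖μ₂‖ = 1 ∧ NonRes μ₁ μ₂ ∧
      (∀ ξ η, os (L ξ) (L η) = os ξ η) ∧ ∀ ξ, L (A ξ) = Ld μ₁ μ₂ (L ξ) := by
  obtain ⟨l₁, l₂, n₁, n₂, hres, hpoly⟩ := hell
  have r₁ : ((cp A).map (algebraMap ℝ ℂ)).eval l₁ = 0 := by
    rw [hpoly]; simp
  have r₂ : ((cp A).map (algebraMap ℝ ℂ)).eval l₂ = 0 := by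
    rw [hpoly]; simp
  obtain ⟨x₁, y₁, hn₁, hx₁, hy₁⟩ := exists_plane A r₁
  obtain ⟨x₂, y₂, hn₂, hx₂, hy₂⟩ := exists_plane A r₂
  have hl12 : l₁ * l₂ ≠ 1 := by
    have := hres 1 1 (Or.inl one_ne_zero) (by norm_num)
    simpa using this
  have hl12' : l₁ * l₂⁻¹ ≠ 1 := by
    have := hres 1 (-1) (Or.inl one_ne_zero) (by norm_num)
    simpa using this
  have hl21 : l₂ * l₁ ≠ 1 := by rw [mul_comm]; exact hl12
  have hl21' : l₂ * l₁⁻¹ ≠ 1 := by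
    have := hres (-1) 1 (Or.inr one_ne_zero) (by norm_num)
    rw [mul_comm]
    simpa using this
  have nn : ∀ l : ℂ, ‖l‖ = 1 → l.re ^ 2 + l.im ^ 2 = 1 := by
    intro l hl
    have : Complex.normSq l = 1 := by rw [Complex.normSq_eq_norm_sq, hl, one_pow]
    rw [Complex.normSq_apply] at this
    linarith
  have m₁ := nn l₁ n₁
  have m₂ := nn l₂ n₂
  have him : ∀ l : ℂ, ‖l‖ = 1 → l ^ (2 : ℤ) ≠ 1 → l.im ≠ 0 := by
    intro l hl h2 h0
    apply h2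
    have h3 := nn l hl
    have h4 : l = (l.re : ℂ) := Complex.ext (by simp) (by simp [h0])
    rw [h4]
    have h5 : l.re ^ 2 = 1 := by rw [h0] at h3; linarith
    have : ((l.re : ℂ)) ^ (2 : ℤ) = ((l.re ^ 2 : ℝ) : ℂ) := by push_cast; norm_cast
    rw [this, h5]; simp
  have b₁ : l₁.im ≠ 0 := him l₁ n₁ (by
    have := hres 2 0 (Or.inl two_ne_zero) (by norm_num)
    simpa using this)
  have b₂ : l₂.im ≠ 0 := him l₂ n₂ (by
    have := hres 0 2 (Or.inr two_ne_zero) (by norm_num)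
    simpa using this)
  have hc₂ : l₂⁻¹ = conj l₂ := Complex.inv_eq_conj n₂
  have ha : l₁.re ≠ l₂.re := by
    intro h
    have h3 : (l₁.im - l₂.im) * (l₁.im + l₂.im) = 0 := by
      rw [h] at m₁; linarith
    rcases mul_eq_zero.mp h3 with h4 | h4
    · apply hl12'
      have : l₁ = l₂ := Complex.ext h (by linarith)
      rw [this]
      apply mul_inv_cancel₀
      intro h0; rw [h0] at n₂; simp at n₂
    · apply hl12
      have : l₁ = l₂⁻¹ := by rw [hc₂]; exact Complex.ext (by simpa using h) (by simp; linarith)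
      rw [this]
      apply inv_mul_cancel₀
      intro h0; rw [h0] at n₂; simp at n₂
  have inj1 := lnf_frm_inj A m₁ m₂ b₁ b₂ ha hx₁ hy₁ hx₂ hy₂ hn₁ hn₂
  have inj2 := lnf_frm_inj A m₂ m₁ b₂ b₁ (Ne.symm ha) hx₂ hy₂ hx₁ hy₁ hn₂ hn₁
  obtain ⟨o1, o2, o3, o4⟩ := lnf_planes_orth A hs n₂ hl12 hl12' hx₁ hy₁ hx₂ hy₂
  obtain ⟨o1', o2', o3', o4'⟩ := lnf_planes_orth A hs n₁ hl21 hl21' hx₂ hy₂ hx₁ hy₁
  have s₁ := lnf_plane_nondeg inj1 o1 o2
  have s₂ := lnf_plane_nondeg inj2 o1' o2'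
  obtain ⟨e₁, f₁, μ₁, hμ₁, ef₁, Ae₁, Af₁, p₁, q₁, u₁, v₁, he₁, hf₁⟩ := lnf_exists_pair A hx₁ hy₁ s₁
  obtain ⟨e₂, f₂, μ₂, hμ₂, ef₂, Ae₂, Af₂, p₂, q₂, u₂, v₂, he₂, hf₂⟩ := lnf_exists_pair A hx₂ hy₂ s₂
  have c1 : os e₁ e₂ = 0 := by rw [he₁, he₂, lnf_os_lin, o1, o2, o3, o4]; ring
  have c2 : os e₁ f₂ = 0 := by rw [he₁, hf₂, lnf_os_lin, o1, o2, o3, o4]; ring
  have c3 : os f₁ e₂ = 0 := by rw [hf₁, he₂, lnf_os_lin, o1, o2, o3, o4]; ring
  have c4 : os f₁ f₂ = 0 := by rw [hf₁, hf₂, lnf_os_lin, o1, o2, o3, o4]; ring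
  have c1' : os e₂ e₁ = 0 := by rw [lnf_os_swap, c1, neg_zero]
  have c2' : os f₂ e₁ = 0 := by rw [lnf_os_swap, c2, neg_zero]
  have c3' : os e₂ f₁ = 0 := by rw [lnf_os_swap, c3, neg_zero]
  have c4' : os f₂ f₁ = 0 := by rw [lnf_os_swap, c4, neg_zero]
  have g1 : os f₁ e₁ = -1 := by rw [lnf_os_swap, ef₁]
  have g2 : os f₂ e₂ = -1 := by rw [lnf_os_swap, ef₂]
  have hsym : ∀ z w : ℂ × ℂ, os (lnfFrm e₁ f₁ e₂ f₂ z) (lnfFrm e₁ f₁ e₂ f₂ w) = os z w := by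
    intro z w
    rw [lnf_frm_apply, lnf_frm_apply]
    have h1 : z.1.re • e₁ + z.1.im • f₁ + (z.2.re • e₂ + z.2.im • f₂) =
        (1 : ℝ) • (z.1.re • e₁ + z.1.im • f₁) + (1 : ℝ) • (z.2.re • e₂ + z.2.im • f₂) := by module
    have h2 : w.1.re • e₁ + w.1.im • f₁ + (w.2.re • e₂ + w.2.im • f₂) =
        (1 : ℝ) • (w.1.re • e₁ + w.1.im • f₁) + (1 : ℝ) • (w.2.re • e₂ + w.2.im • f₂) := by module
    rw [h1, h2, lnf_os_lin, lnf_os_lin, lnf_os_lin, lnf_os_lin, lnf_os_lin, c1, c2, c3, c4, c1', c2', c3', c4', g1, g2,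
      ef₁, ef₂, lnf_os_self, lnf_os_self, lnf_os_self, lnf_os_self]
    simp only [os, Complex.add_im, Complex.mul_im, Complex.conj_re, Complex.conj_im]
    ring
  have hinj : Function.Injective (lnfFrm e₁ f₁ e₂ f₂) := by
    rw [← LinearMap.ker_eq_bot, LinearMap.ker_eq_bot']
    intro z hz
    apply lnf_os_nondeg
    intro y
    rw [← hsym, hz]
    simp [os]
  set Li := (LinearEquiv.ofInjectiveEndo (lnfFrm e₁ f₁ e₂ f₂) hinj).toContinuousLinearEquiv with hLi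
  have hLia : ∀ z, Li z = lnfFrm e₁ f₁ e₂ f₂ z := fun z => rfl
  have hcomm : ∀ z, A (Li z) = Li (Ld μ₁ μ₂ z) := by
    intro z
    rw [hLia, hLia, Ld_apply, lnf_frm_apply, lnf_frm_apply]
    simp only [map_add, map_smul, Ae₁, Af₁, Ae₂, Af₂, Complex.mul_re, Complex.mul_im]
    module
  have nμ : ∀ μ l : ℂ, ‖l‖ = 1 → (μ = l ∨ μ = conj l) → ‖μ‖ = 1 := by
    intro μ l hl h
    rcases h with rfl | rfl
    · exact hl
    · rw [Complex.norm_conj]; exact hl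
  refine ⟨Li.symm, μ₁, μ₂, nμ _ _ n₁ hμ₁, nμ _ _ n₂ hμ₂, hres.lnf_conj_or n₁ n₂ hμ₁ hμ₂, ?_, ?_⟩
  · intro ξ η
    rw [← hsym, ← hLia, ← hLia, Li.apply_symm_apply, Li.apply_symm_apply]
  · intro ξ
    rw [ContinuousLinearEquiv.symm_apply_eq, ← hcomm, Li.apply_symm_apply]

end Pool.Agent.MP_5027f4_cont
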