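import Pool.Agent.Lib_MP_5027f4_cont.Defs

/-!
PIECE [RetB] (MP_5027f4_mp, T1).  Symplecticity of the return map in coordinates.
-/

open Set Filter Topology Metric Polynomial Asymptotics
open scoped ComplexConjugate ContDiff

namespace Pool.Agent.MP_5027f4_cont

variable {E : Type*} [NormedAddCommGroup E] [NormedSpace ℝ E] [FiniteDimensional ℝ E]
  {om : E →L[ℝ] E →L[ℝ] ℝ} {x₀ : E} {G : (ℝ × ℝ) × E → E} {μ : E → ℝ × ℝ}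
  {Θ : (ℝ × ℝ) × (ℝ × ℝ) × (ℂ × ℂ) → E} {Ξ : E → (ℝ × ℝ) × (ℝ × ℝ) × (ℂ × ℂ)} {Φ : E → E}

/-- Proof.  Near `p = (0, q)`, `Φ ∘ Θ = Θ ∘ τ` with `τ (g, k, z) = (g + b (k, z), k, P (k, z))`, so
`DΦ (Θ p) (DΘ p δ) = DΘ (τ p) (Dτ p δ)`, `Dτ p δ = (δ.1 + Db δ.2, δ.2.1, DP δ.2)`.  Apply `om`, `hs`
and `hC.darb` at `p` and at `τ p` (close to the base point): `Om (Dτ δ) (Dτ δ') = Om δ δ'`; take
`δ = (0, δ)`, `δ' = (0, δ')` and expand `Om`. -/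
theorem ret_symp {b : (ℝ × ℝ) × (ℂ × ℂ) → ℝ × ℝ} {P : (ℝ × ℝ) × (ℂ × ℂ) → ℂ × ℂ}
    (hC : DChart om x₀ G μ Θ Ξ) (hR : RetMap (μ x₀) Θ Φ b P) (hΦ : AnalyticAt ℝ Φ x₀)
    (hs : ∀ᶠ y in 𝓝 x₀, ∀ ξ η : E, om (fderiv ℝ Φ y ξ) (fderiv ℝ Φ y η) = om ξ η) :
    ∀ᶠ q : (ℝ × ℝ) × (ℂ × ℂ) in 𝓝 (μ x₀, 0), ∀ δ δ' : (ℝ × ℝ) × (ℂ × ℂ),
      dot (fderiv ℝ b q δ) δ'.1 - dot (fderiv ℝ b q δ') δ.1 +
        os (fderiv ℝ P q δ) (fderiv ℝ P q δ') = os δ.2 δ'.2 := by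
  have hι : Tendsto (fun q : (ℝ × ℝ) × (ℂ × ℂ) => ((0 : ℝ × ℝ), q)) (𝓝 (μ x₀, 0))
      (𝓝 ((0, μ x₀, 0) : (ℝ × ℝ) × (ℝ × ℝ) × (ℂ × ℂ))) :=
    (continuous_const.prodMk continuous_id).tendsto' _ _ rfl
  let τ : (ℝ × ℝ) × (ℝ × ℝ) × (ℂ × ℂ) → (ℝ × ℝ) × (ℝ × ℝ) × (ℂ × ℂ) :=
    fun p => (p.1 + b p.2, p.2.1, P p.2)
  have hbc : ContinuousAt (fun p : (ℝ × ℝ) × (ℝ × ℝ) × (ℂ × ℂ) => b p.2)
      ((0, μ x₀, 0) : (ℝ × ℝ) × (ℝ × ℝ) × (ℂ × ℂ)) :=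
    ContinuousAt.comp (f := fun p : (ℝ × ℝ) × (ℝ × ℝ) × (ℂ × ℂ) => p.2) (g := b)
      hR.anb.continuousAt continuous_snd.continuousAt
  have hPc : ContinuousAt (fun p : (ℝ × ℝ) × (ℝ × ℝ) × (ℂ × ℂ) => P p.2)
      ((0, μ x₀, 0) : (ℝ × ℝ) × (ℝ × ℝ) × (ℂ × ℂ)) :=
    ContinuousAt.comp (f := fun p : (ℝ × ℝ) × (ℝ × ℝ) × (ℂ × ℂ) => p.2) (g := P)
      hR.anP.continuousAt continuous_snd.continuousAt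
  have hτc : ContinuousAt τ ((0, μ x₀, 0) : (ℝ × ℝ) × (ℝ × ℝ) × (ℂ × ℂ)) :=
    ((continuous_fst.continuousAt).add hbc).prodMk
      (((continuous_fst.comp continuous_snd).continuousAt).prodMk hPc)
  have hτ0 : τ ((0, μ x₀, 0) : (ℝ × ℝ) × (ℝ × ℝ) × (ℂ × ℂ)) = (0, μ x₀, 0) := by
    show ((0 : ℝ × ℝ) + b (μ x₀, 0), μ x₀, P (μ x₀, 0)) = _
    rw [hR.b0, hR.P0, add_zero]
  have hτt : Tendsto τ (𝓝 ((0, μ x₀, 0) : (ℝ × ℝ) × (ℝ × ℝ) × (ℂ × ℂ)))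
      (𝓝 ((0, μ x₀, 0) : (ℝ × ℝ) × (ℝ × ℝ) × (ℂ × ℂ))) := by
    have h := hτc.tendsto
    rwa [hτ0] at h
  have hΘt : Tendsto Θ (𝓝 ((0, μ x₀, 0) : (ℝ × ℝ) × (ℝ × ℝ) × (ℂ × ℂ))) (𝓝 x₀) := by
    have h := hC.an.continuousAt.tendsto
    rwa [hC.base] at h
  have hΘd := hC.an.eventually_analyticAt
  have h1 := hι.eventually (hR.eq.eventually_nhds)
  have h2 := hι.eventually hΘd
  have h3 := hι.eventually (hτt.eventually hΘd)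
  have h4 := hι.eventually (hΘt.eventually hΦ.eventually_analyticAt)
  have h5 := hι.eventually (hΘt.eventually hs)
  have h6 := hι.eventually hC.darb
  have h7 := hι.eventually (hτt.eventually hC.darb)
  have h8 := hR.anb.eventually_analyticAt
  have h9 := hR.anP.eventually_analyticAt
  filter_upwards [h1, h2, h3, h4, h5, h6, h7, h8, h9] with q e1 e2 e3 e4 e5 e6 e7 e8 e9 δ δ'
  -- the derivative of `τ`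
  have hb : HasFDerivAt (fun p : (ℝ × ℝ) × (ℝ × ℝ) × (ℂ × ℂ) => b p.2)
      ((fderiv ℝ b q).comp (ContinuousLinearMap.snd ℝ (ℝ × ℝ) ((ℝ × ℝ) × (ℂ × ℂ))))
      ((0 : ℝ × ℝ), q) :=
    HasFDerivAt.comp (g := b) (f := fun p : (ℝ × ℝ) × (ℝ × ℝ) × (ℂ × ℂ) => p.2)
      ((0 : ℝ × ℝ), q) e8.differentiableAt.hasFDerivAt hasFDerivAt_snd
  have hP : HasFDerivAt (fun p : (ℝ × ℝ) × (ℝ × ℝ) × (ℂ × ℂ) => P p.2)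
      ((fderiv ℝ P q).comp (ContinuousLinearMap.snd ℝ (ℝ × ℝ) ((ℝ × ℝ) × (ℂ × ℂ))))
      ((0 : ℝ × ℝ), q) :=
    HasFDerivAt.comp (g := P) (f := fun p : (ℝ × ℝ) × (ℝ × ℝ) × (ℂ × ℂ) => p.2)
      ((0 : ℝ × ℝ), q) e9.differentiableAt.hasFDerivAt hasFDerivAt_snd
  have hmid : HasFDerivAt (fun p : (ℝ × ℝ) × (ℝ × ℝ) × (ℂ × ℂ) => p.2.1)
      ((ContinuousLinearMap.fst ℝ (ℝ × ℝ) (ℂ × ℂ)).comp
        (ContinuousLinearMap.snd ℝ (ℝ × ℝ) ((ℝ × ℝ) × (ℂ × ℂ)))) ((0 : ℝ × ℝ), q) :=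
    ((ContinuousLinearMap.fst ℝ (ℝ × ℝ) (ℂ × ℂ)).comp
        (ContinuousLinearMap.snd ℝ (ℝ × ℝ) ((ℝ × ℝ) × (ℂ × ℂ)))).hasFDerivAt
  have hτd : HasFDerivAt τ
      ((ContinuousLinearMap.fst ℝ (ℝ × ℝ) ((ℝ × ℝ) × (ℂ × ℂ)) +
        (fderiv ℝ b q).comp (ContinuousLinearMap.snd ℝ (ℝ × ℝ) ((ℝ × ℝ) × (ℂ × ℂ)))).prod
        (((ContinuousLinearMap.fst ℝ (ℝ × ℝ) (ℂ × ℂ)).comp
        (ContinuousLinearMap.snd ℝ (ℝ × ℝ) ((ℝ × ℝ) × (ℂ × ℂ)))).prod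
          ((fderiv ℝ P q).comp (ContinuousLinearMap.snd ℝ (ℝ × ℝ) ((ℝ × ℝ) × (ℂ × ℂ))))))
      ((0 : ℝ × ℝ), q) :=
    (hasFDerivAt_fst.add hb).prodMk (hmid.prodMk hP)
  -- the chain rule
  have hA : HasFDerivAt (fun p => Φ (Θ p))
      ((fderiv ℝ Φ (Θ ((0 : ℝ × ℝ), q))).comp (fderiv ℝ Θ ((0 : ℝ × ℝ), q)))
      ((0 : ℝ × ℝ), q) :=
    HasFDerivAt.comp _ e4.differentiableAt.hasFDerivAt e2.differentiableAt.hasFDerivAt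
  have hB : HasFDerivAt (fun p => Θ (τ p))
      ((fderiv ℝ Θ (τ ((0 : ℝ × ℝ), q))).comp
      ((ContinuousLinearMap.fst ℝ (ℝ × ℝ) ((ℝ × ℝ) × (ℂ × ℂ)) +
        (fderiv ℝ b q).comp (ContinuousLinearMap.snd ℝ (ℝ × ℝ) ((ℝ × ℝ) × (ℂ × ℂ)))).prod
        (((ContinuousLinearMap.fst ℝ (ℝ × ℝ) (ℂ × ℂ)).comp
        (ContinuousLinearMap.snd ℝ (ℝ × ℝ) ((ℝ × ℝ) × (ℂ × ℂ)))).prod
          ((fderiv ℝ P q).comp (ContinuousLinearMap.snd ℝ (ℝ × ℝ) ((ℝ × ℝ) × (ℂ × ℂ)))))))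
      ((0 : ℝ × ℝ), q) :=
    HasFDerivAt.comp _ e3.differentiableAt.hasFDerivAt hτd
  have hA' : HasFDerivAt (fun p => Φ (Θ p))
      ((fderiv ℝ Θ (τ ((0 : ℝ × ℝ), q))).comp
      ((ContinuousLinearMap.fst ℝ (ℝ × ℝ) ((ℝ × ℝ) × (ℂ × ℂ)) +
        (fderiv ℝ b q).comp (ContinuousLinearMap.snd ℝ (ℝ × ℝ) ((ℝ × ℝ) × (ℂ × ℂ)))).prod
        (((ContinuousLinearMap.fst ℝ (ℝ × ℝ) (ℂ × ℂ)).comp
        (ContinuousLinearMap.snd ℝ (ℝ × ℝ) ((ℝ × ℝ) × (ℂ × ℂ)))).prod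
          ((fderiv ℝ P q).comp (ContinuousLinearMap.snd ℝ (ℝ × ℝ) ((ℝ × ℝ) × (ℂ × ℂ)))))))
      ((0 : ℝ × ℝ), q) :=
    hB.congr_of_eventuallyEq e1
  have hu := hA.unique hA'
  have hd : ∀ ε : (ℝ × ℝ) × (ℂ × ℂ),
      fderiv ℝ Φ (Θ ((0 : ℝ × ℝ), q)) (fderiv ℝ Θ ((0 : ℝ × ℝ), q) ((0 : ℝ × ℝ), ε)) =
      fderiv ℝ Θ (τ ((0 : ℝ × ℝ), q)) (fderiv ℝ b q ε, ε.1, fderiv ℝ P q ε) := by
    intro ε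
    have h := congrArg (fun L => L ((0 : ℝ × ℝ), ε)) hu
    simp only [ContinuousLinearMap.comp_apply, ContinuousLinearMap.prod_apply,
      ContinuousLinearMap.add_apply, ContinuousLinearMap.coe_fst', ContinuousLinearMap.coe_snd',
      zero_add] at h
    exact h
  have f1 := e5 (fderiv ℝ Θ ((0 : ℝ × ℝ), q) ((0 : ℝ × ℝ), δ))
    (fderiv ℝ Θ ((0 : ℝ × ℝ), q) ((0 : ℝ × ℝ), δ'))
  rw [hd δ, hd δ', e7, e6] at f1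
  unfold Om at f1
  simp only at f1
  have z1 : dot (0 : ℝ × ℝ) δ'.1 = 0 := by simp [dot]
  have z2 : dot (0 : ℝ × ℝ) δ.1 = 0 := by simp [dot]
  rw [z1, z2, sub_zero, zero_add] at f1
  exact f1

end Pool.Agent.MP_5027f4_cont
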