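import Pool.Agent.Lib_MP_5027f4_cont.Defs

/-!
PIECE [TimeC] (MP_5027f4_mp, T1).  The period is constant along the fixed points.
-/

open Set Filter Topology Metric Polynomial Asymptotics
open scoped ComplexConjugate ContDiff

namespace Pool.Agent.MP_5027f4_cont

/-- The period is constant.  Proof: `bh k = b (k, zs k)`.  For `k` near `k₀` apply `hsymp` at
`(k, zs k)` to `δ = (κ, Dzs κ)`, `δ' = (κ', Dzs κ')`; since `D(P ∘ (id, zs)) = Dzs` the `os` terms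
cancel and `dot (Dbh κ) κ' = dot (Dbh κ') κ`.  With `κ = (1, 0)`, `κ' = (0, 1)`:
`(Dbh (1, 0)).2 = (Dbh (0, 1)).1`, and the left side is `0` because `(bh ·).2 = 0` near `k₀`.  So
`c ↦ (bh (k₀.1, c)).1` has derivative zero near `k₀.2` and vanishes at `k₀.2`. -/
theorem time_const {b : (ℝ × ℝ) × (ℂ × ℂ) → ℝ × ℝ} {P : (ℝ × ℝ) × (ℂ × ℂ) → ℂ × ℂ} {k₀ : ℝ × ℝ}
    {zs : ℝ × ℝ → ℂ × ℂ} (hb : AnalyticAt ℝ b (k₀, 0)) (hP : AnalyticAt ℝ P (k₀, 0))
    (hb0 : b (k₀, 0) = 0) (hzs : AnalyticAt ℝ zs k₀) (hz0 : zs k₀ = 0)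
    (hfix : ∀ᶠ k in 𝓝 k₀, P (k, zs k) = zs k) (hd : ∀ᶠ k in 𝓝 k₀, (b (k, zs k)).2 = 0)
    (hsymp : ∀ᶠ q : (ℝ × ℝ) × (ℂ × ℂ) in 𝓝 (k₀, 0), ∀ δ δ' : (ℝ × ℝ) × (ℂ × ℂ),
      dot (fderiv ℝ b q δ) δ'.1 - dot (fderiv ℝ b q δ') δ.1 +
        os (fderiv ℝ P q δ) (fderiv ℝ P q δ') = os δ.2 δ'.2) :
    ∀ᶠ c in 𝓝 k₀.2, b ((k₀.1, c), zs (k₀.1, c)) = 0 := by
  have htend : Tendsto (fun k : ℝ × ℝ => (k, zs k)) (𝓝 k₀) (𝓝 (k₀, 0)) := by
    have h1 : Tendsto zs (𝓝 k₀) (𝓝 0) := by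
      have := hzs.continuousAt.tendsto
      rwa [hz0] at this
    exact tendsto_id.prodMk_nhds h1
  -- differentiability near the base point
  have hbd : ∀ᶠ k in 𝓝 k₀, DifferentiableAt ℝ b (k, zs k) := by
    filter_upwards [htend.eventually hb.eventually_analyticAt] with k hk
    exact hk.differentiableAt
  have hPd : ∀ᶠ k in 𝓝 k₀, DifferentiableAt ℝ P (k, zs k) := by
    filter_upwards [htend.eventually hP.eventually_analyticAt] with k hk
    exact hk.differentiableAt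
  have hzd : ∀ᶠ k in 𝓝 k₀, DifferentiableAt ℝ zs k := by
    filter_upwards [hzs.eventually_analyticAt] with k hk
    exact hk.differentiableAt
  have hmain : ∀ᶠ k in 𝓝 k₀, ∃ D : (ℝ × ℝ) →L[ℝ] (ℝ × ℝ),
      HasFDerivAt (fun k => b (k, zs k)) D k ∧ (D (0, 1)).1 = 0 := by
    filter_upwards [hbd, hPd, hzd, hfix.eventually_nhds, hd.eventually_nhds,
      htend.eventually hsymp] with k h1 h2 h3 h4 h5 h6
    have hin : HasFDerivAt (fun k : ℝ × ℝ => (k, zs k))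
        ((ContinuousLinearMap.id ℝ (ℝ × ℝ)).prod (fderiv ℝ zs k)) k :=
      (hasFDerivAt_id k).prodMk h3.hasFDerivAt
    have hbk := HasFDerivAt.comp (g := b) k h1.hasFDerivAt hin
    have hPk := HasFDerivAt.comp (g := P) k h2.hasFDerivAt hin
    have hPz : (fderiv ℝ P (k, zs k)).comp
        ((ContinuousLinearMap.id ℝ (ℝ × ℝ)).prod (fderiv ℝ zs k)) = fderiv ℝ zs k := by
      have h7 : HasFDerivAt (fun k => P (k, zs k)) (fderiv ℝ zs k) k :=
        h3.hasFDerivAt.congr_of_eventuallyEq h4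
      exact hPk.unique h7
    have hPz' : ∀ κ : ℝ × ℝ, fderiv ℝ P (k, zs k) (κ, fderiv ℝ zs k κ) = fderiv ℝ zs k κ := by
      intro κ
      have := congrArg (fun L => L κ) hPz
      simpa using this
    refine ⟨_, hbk, ?_⟩
    have h8 := h6 ((1, 0), fderiv ℝ zs k (1, 0)) ((0, 1), fderiv ℝ zs k (0, 1))
    rw [hPz', hPz'] at h8
    -- the second component has derivative zero
    have h9 : HasFDerivAt (fun k => (b (k, zs k)).2)
        ((ContinuousLinearMap.snd ℝ ℝ ℝ).comp ((fderiv ℝ b (k, zs k)).comp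
          ((ContinuousLinearMap.id ℝ (ℝ × ℝ)).prod (fderiv ℝ zs k)))) k :=
      (ContinuousLinearMap.snd ℝ ℝ ℝ).hasFDerivAt.comp k hbk
    have h10 : HasFDerivAt (fun k => (b (k, zs k)).2) (0 : (ℝ × ℝ) →L[ℝ] ℝ) k :=
      (hasFDerivAt_const (0 : ℝ) k).congr_of_eventuallyEq h5
    have h11 := congrArg (fun L => L (1, 0)) (h9.unique h10)
    simp only [ContinuousLinearMap.comp_apply, ContinuousLinearMap.prod_apply,
      ContinuousLinearMap.coe_id', id_eq, ContinuousLinearMap.coe_snd',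
      ContinuousLinearMap.zero_apply] at h11
    simp only [ContinuousLinearMap.comp_apply, ContinuousLinearMap.prod_apply,
      ContinuousLinearMap.coe_id', id_eq]
    simp only [dot] at h8
    rw [h11] at h8
    linarith
  obtain ⟨ε, hε, hball⟩ := Metric.eventually_nhds_iff_ball.1 (hmain.and hd)
  have hin : ∀ c ∈ Metric.ball k₀.2 ε, ((k₀.1, c) : ℝ × ℝ) ∈ Metric.ball k₀ ε := by
    intro c hc
    rw [Metric.mem_ball, Prod.dist_eq]
    refine max_lt ?_ hc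
    rw [dist_self]
    exact hε
  have hder : ∀ c ∈ Metric.ball k₀.2 ε,
      HasDerivAt (fun c => (b ((k₀.1, c), zs (k₀.1, c))).1) 0 c := by
    intro c hc
    obtain ⟨⟨D, hD, hD0⟩, -⟩ := hball _ (hin c hc)
    have h1 : HasDerivAt (fun c : ℝ => ((k₀.1, c) : ℝ × ℝ)) (0, 1) c :=
      (hasDerivAt_const c k₀.1).prodMk (hasDerivAt_id c)
    have h2 := hD.comp_hasDerivAt c h1
    have h3 := (ContinuousLinearMap.fst ℝ ℝ ℝ).hasFDerivAt.comp_hasDerivAt c h2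
    have h4 : (ContinuousLinearMap.fst ℝ ℝ ℝ) (D (0, 1)) = 0 := hD0
    rw [h4] at h3
    exact h3
  have hconst : ∀ c ∈ Metric.ball k₀.2 ε, (b ((k₀.1, c), zs (k₀.1, c))).1 = 0 := by
    intro c hc
    have h1 : (b ((k₀.1, c), zs (k₀.1, c))).1 = (b ((k₀.1, k₀.2), zs (k₀.1, k₀.2))).1 :=
      Metric.isOpen_ball.is_const_of_deriv_eq_zero (convex_ball k₀.2 ε).isPreconnected
        (fun x hx => (hder x hx).differentiableAt.differentiableWithinAt)
        (fun x hx => (hder x hx).deriv) hc (Metric.mem_ball_self hε)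
    have h2 : b ((k₀.1, k₀.2), zs (k₀.1, k₀.2)) = 0 := by
      rw [show ((k₀.1, k₀.2) : ℝ × ℝ) = k₀ from rfl, hz0, hb0]
    rw [h1, h2]
    rfl
  filter_upwards [Metric.ball_mem_nhds k₀.2 hε] with c hc
  exact Prod.ext (hconst c hc) (hball _ (hin c hc)).2

end Pool.Agent.MP_5027f4_cont
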