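import Pool.Agent.Lib_MP_5027f4_cont.HomApi

/-!
PIECE [TaylorA] (MP_5027f4_mp, T1).  Derivatives of analytic functions of high order.
-/

open Set Filter Topology Metric Polynomial Asymptotics
open scoped ComplexConjugate ContDiff

namespace Pool.Agent.MP_5027f4_cont

variable {F : Type*} [NormedAddCommGroup F] [NormedSpace ℝ F]

/-- the terms of low order of the power series of a function of high order vanish on the
diagonal -/
lemma taylor_diag_zero {f : ℂ × ℂ → F} {p : FormalMultilinearSeries ℝ (ℂ × ℂ) F}
    (hp : HasFPowerSeriesAt f p 0) {n : ℕ} (hO : f =O[𝓝 0] fun z => ‖z‖ ^ (n + 1)) (k : ℕ)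
    (hk : k ≤ n) (z : ℂ × ℂ) : p k (fun _ => z) = 0 := by
  induction k using Nat.strong_induction_on generalizing z with
  | _ k ih =>
    refine eq_zero_of_homog (d := k) (f := fun z => p k (fun _ => z)) ?_ ?_ z
    · intro t w
      have := (p k).map_smul_univ (fun _ => t) (fun _ => w)
      simpa using this
    · have h1 := hp.isBigO_sub_partialSum_pow (k + 1)
      have h2 : f =O[𝓝 0] fun z => ‖z‖ ^ (k + 1) := by
        refine hO.trans ?_
        refine IsBigO.of_bound 1 ?_
        have : ∀ᶠ w : ℂ × ℂ in 𝓝 0, ‖w‖ < 1 := by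
          have h := (continuous_norm (E := ℂ × ℂ)).tendsto 0
          rw [norm_zero] at h
          exact h.eventually (gt_mem_nhds one_pos)
        filter_upwards [this] with w hw
        rw [norm_pow, norm_pow, norm_norm, one_mul]
        exact pow_le_pow_of_le_one (norm_nonneg _) hw.le (by omega)
      have h3 : ∀ w, p.partialSum (k + 1) w = p k fun _ => w := by
        intro w
        rw [FormalMultilinearSeries.partialSum, Finset.sum_range_succ, Finset.sum_eq_zero, zero_add]
        intro i hi
        have hi' := Finset.mem_range.mp hi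
        exact ih i hi' (by omega) w
      have h4 := h2.sub h1
      refine h4.congr_left fun w => ?_
      rw [h3, zero_add]
      abel

/-- If an analytic function is `O (‖z‖ ^ (n + 1))` its derivative is `O (‖z‖ ^ n)`.

Proof (one possibility).  Let `p` be the power series of `f` at `0`.  From
`HasFPowerSeriesAt.isBigO_sub_partialSum_pow` and homogeneity (`eq_zero_of_homog`, induction on
`k`) `p k (z, …, z) = 0` for all `z` and `k ≤ n`.  So on a ball
`f z = Σ_{k > n} p k (z, …, z)`.  The function `g (t, z) = f (t • z)`... or: the power series of the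
derivative is `p.derivSeries`, and its `k`-th term at `(z, …, z)`, `k < n`, is the derivative of
`z ↦ p (k + 1) (z, …, z) = 0` (`HasFPowerSeriesOnBall.fderiv`); hence the partial sum of order `n`
of `fderiv f` vanishes and `isBigO_sub_partialSum_pow` gives the bound.
Another possibility: for `‖ξ‖ ≤ ‖z‖` small, `t ↦ f (z + t • ξ)` extends to a holomorphic function of
`t`, `|t| ≤ 1/2` (through the power series), bounded by `C ‖z‖ ^ (n + 1)`: Cauchy estimate. -/
theorem isBigO_fderiv_of_analytic {f : ℂ × ℂ → F} [CompleteSpace F] (hf : AnalyticAt ℝ f 0) {n : ℕ}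
    (hO : f =O[𝓝 0] fun z => ‖z‖ ^ (n + 1)) :
    (fun z => fderiv ℝ f z) =O[𝓝 0] fun z => ‖z‖ ^ n := by
  obtain ⟨p, r, hp⟩ := hf
  have hz := taylor_diag_zero hp.hasFPowerSeriesAt hO
  let q : FormalMultilinearSeries ℝ (ℂ × ℂ) F := fun k => if k ≤ n then 0 else p k
  have hq : HasFPowerSeriesOnBall f q 0 r := by
    refine ⟨hp.r_le.trans (FormalMultilinearSeries.radius_le_of_le fun k => ?_), hp.r_pos,
      fun {y} hy => ?_⟩
    · by_cases hk : k ≤ n
      · simp only [q, hk, if_true, norm_zero]; exact norm_nonneg _
      · simp only [q, hk, if_false]; exact le_rfl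
    · refine (hp.hasSum hy).congr_fun fun k => ?_
      by_cases hk : k ≤ n
      · simp only [q, hk, if_true]
        rw [hz k hk y]; rfl
      · simp only [q, hk, if_false]
  have hg := hq.fderiv
  have h1 := hg.hasFPowerSeriesAt.isBigO_sub_partialSum_pow n
  refine h1.congr_left fun y => ?_
  rw [FormalMultilinearSeries.partialSum, Finset.sum_eq_zero, sub_zero, zero_add]
  intro k hk
  have hk' := Finset.mem_range.mp hk
  have : q.derivSeries k = 0 :=
    FormalMultilinearSeries.derivSeries_eq_zero q (by
      have : k + 1 ≤ n := by omega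
      simp only [q, this, if_true])
  rw [this]
  rfl

end Pool.Agent.MP_5027f4_cont
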