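import Pool.Agent.Lib_MP_5027f4_cont.TraceB
import Pool.Agent.Lib_MP_5027f4_cont.TaylorA

/-!
PIECE [TraceA] (MP_5027f4_mp, T1).  No drift implies isospectral linearization.
-/

open Set Filter Topology Metric Polynomial Asymptotics
open scoped ComplexConjugate ContDiff

namespace Pool.Agent.MP_5027f4_cont

namespace TraceAAux

/-- `os` as a bilinear map -/
noncomputable def osB : (ℂ × ℂ) →L[ℝ] (ℂ × ℂ) →L[ℝ] ℝ :=
  LinearMap.mkContinuous₂ (LinearMap.mk₂ ℝ os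
    (fun a b c => by
      simp only [os, Prod.fst_add, Prod.snd_add, map_add, add_mul, Complex.add_im]
      ring)
    (fun r a b => by
      simp only [os, Prod.smul_fst, Prod.smul_snd, Complex.add_im, Complex.mul_im, Complex.conj_re,
        Complex.conj_im, Complex.real_smul, Complex.mul_re, Complex.ofReal_re, Complex.ofReal_im,
        smul_eq_mul]
      ring)
    (fun a b c => by
      simp only [os, Prod.fst_add, Prod.snd_add, mul_add, Complex.add_im]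
      ring)
    (fun r a b => by
      simp only [os, Prod.smul_fst, Prod.smul_snd, Complex.add_im, Complex.mul_im, Complex.conj_re,
        Complex.conj_im, Complex.real_smul, Complex.mul_re, Complex.ofReal_re, Complex.ofReal_im,
        smul_eq_mul]
      ring)) 2 (by
    intro a b
    rw [LinearMap.mk₂_apply, Real.norm_eq_abs, os]
    refine (Complex.abs_im_le_norm _).trans ((norm_add_le _ _).trans ?_)
    rw [norm_mul, norm_mul, RCLike.norm_conj, RCLike.norm_conj]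
    have h1 : ‖a.1‖ ≤ ‖a‖ := norm_fst_le a
    have h2 : ‖a.2‖ ≤ ‖a‖ := norm_snd_le a
    have h3 : ‖b.1‖ ≤ ‖b‖ := norm_fst_le b
    have h4 : ‖b.2‖ ≤ ‖b‖ := norm_snd_le b
    have h5 : ‖a.1‖ * ‖b.1‖ ≤ ‖a‖ * ‖b‖ := mul_le_mul h1 h3 (norm_nonneg _) (norm_nonneg _)
    have h6 : ‖a.2‖ * ‖b.2‖ ≤ ‖a‖ * ‖b‖ := mul_le_mul h2 h4 (norm_nonneg _) (norm_nonneg _)
    linarith)

theorem osB_apply (a b : ℂ × ℂ) : osB a b = os a b := rfl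

theorem hasDerivAt_os {u v : ℝ → ℂ × ℂ} {u' v' : ℂ × ℂ} {x : ℝ} (hu : HasDerivAt u u' x)
    (hv : HasDerivAt v v' x) :
    HasDerivAt (fun x => os (u x) (v x)) (os (u x) v' + os u' (v x)) x := by
  simpa [osB_apply] using (osB.hasFDerivAt_of_bilinear hu.hasFDerivAt hv.hasFDerivAt).hasDerivAt

theorem os_sub_right (ξ η ζ : ℂ × ℂ) : os ξ (η - ζ) = os ξ η - os ξ ζ := by
  rw [← osB_apply, map_sub]
  rfl

theorem os_sub_left (ξ η ζ : ℂ × ℂ) : os (ξ - η) ζ = os ξ ζ - os η ζ := by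
  rw [← osB_apply, map_sub]
  rfl

theorem os_smul_right (r : ℝ) (ξ η : ℂ × ℂ) : os ξ (r • η) = r * os ξ η := by
  rw [← osB_apply, map_smul]
  rfl

/-- `A - 1` is onto if `1` is not a root of the characteristic polynomial -/
theorem surj_of_eval {A : (ℂ × ℂ) →L[ℝ] (ℂ × ℂ)} (h : (cp A).eval 1 ≠ 0) (η : ℂ × ℂ) :
    ∃ ξ, A ξ - ξ = η := by
  have hne : ¬ Module.End.HasEigenvalue (A : (ℂ × ℂ) →ₗ[ℝ] (ℂ × ℂ)) (1 : ℝ) := by
    rw [Module.End.hasEigenvalue_iff_isRoot_charpoly]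
    exact h
  have hinj : Function.Injective ((A : (ℂ × ℂ) →ₗ[ℝ] (ℂ × ℂ)) - LinearMap.id :
      (ℂ × ℂ) →ₗ[ℝ] (ℂ × ℂ)) := by
    rw [injective_iff_map_eq_zero]
    intro v hv
    by_contra hv0
    have hv' : A v - v = 0 := hv
    refine hne (Module.End.hasEigenvalue_of_hasEigenvector
      (x := v) ⟨Module.End.mem_eigenspace_iff.2 ?_, hv0⟩)
    rw [one_smul]
    exact sub_eq_zero.1 hv'
  obtain ⟨ξ, hξ⟩ := LinearMap.injective_iff_surjective.mp hinj η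
  exact ⟨ξ, hξ⟩

end TraceAAux

open TraceAAux in
/-- Proof.  `z₁ = zs c₁`, `A = dz P (c₁, z₁)`, `w = zs' (c₁)`, derivatives at `(c₁, z₁)`.
(1) `P_c := DP (1, 0) = w - A w` (differentiate `hfix`).
(2) `ℓ ξ := Da (0, ξ) = - os (A ξ) (w - A w) = - os (A ξ) w + os ξ w` (`hrel`, `hsymp`).  The linear
part of `hO` gives `ℓ ξ = g₁ (A ξ) - g₁ ξ`, so `g₁ ξ = - os ξ w` because `A - 1` is onto (`h1`).
(3) Second derivatives in `z`: `B(ζ, ξ) = D²_zz P (ζ, ξ)` symmetric.  Differentiate `hsymp` in `z`: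
`os (B(ζ, ξ)) (A η) + os (A ξ) (B(ζ, η)) = 0`.  Let `A' = d/dc (dz P (c, zs c))`
`= D_c D_z P + B(w, ·)`.  Differentiate `hrel` in `z` in the direction `ζ`:
`D²a (ζ, ξ) = - os (B(ζ, ξ)) P_c - os (A ξ) ((A' - B(w, ·)) ζ)`
(`D_z (DP (1, 0)) ζ = D_c D_z P ζ`, symmetry of second derivatives).
(4) The quadratic part of `hO` (Taylor of order 2 along rays `t ζ`):
`½ D²a (ζ, ζ) - ½ g₁ (B(ζ, ζ)) = g₂ (Aζ) (Aζ) - g₂ ζ ζ`.  The left side is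
`-½ os (B ζζ) (w - A w) - ½ os (Aζ) (A' ζ) + ½ os (Aζ) (B(w, ζ)) + ½ os (B ζζ) w
= ½ os (B ζζ) (A w) + ½ os (Aζ) (B(ζ, w)) - ½ os (Aζ) (A'ζ) = -½ os (Aζ) (A'ζ)` by (3) with
`ξ = ζ`, `η = w`.  So `os (Aζ) (A'ζ) = -2 (g₂ (Aζ) (Aζ) - g₂ ζ ζ)` for all `ζ`.
(5) Differentiating `os (A_c ξ) (A_c η) = os ξ η` along `(c, zs c)` in `c`:
`os (A' ξ) (A η) + os (A ξ) (A' η) = 0`.  Conclude with `coboundary_of_quadratic` (TraceB). -/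
theorem trace_step {P : ℝ × (ℂ × ℂ) → ℂ × ℂ} {a : ℝ × (ℂ × ℂ) → ℝ} {zs : ℝ → ℂ × ℂ} {c₁ : ℝ}
    (hP : AnalyticAt ℝ P (c₁, zs c₁)) (ha : AnalyticAt ℝ a (c₁, zs c₁))
    (hz : AnalyticAt ℝ zs c₁) (hfix : ∀ᶠ c in 𝓝 c₁, P (c, zs c) = zs c)
    (hsymp : ∀ᶠ q in 𝓝 (c₁, zs c₁), ∀ ξ η, os (dz P q ξ) (dz P q η) = os ξ η)
    (hrel : ∀ᶠ q in 𝓝 (c₁, zs c₁), ∀ ξ : ℂ × ℂ,
      fderiv ℝ a q (0, ξ) = -os (dz P q ξ) (fderiv ℝ P q (1, 0)))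
    (h1 : (cp (dz P (c₁, zs c₁))).eval 1 ≠ 0)
    (g₁ : (ℂ × ℂ) →L[ℝ] ℝ) (g₂ : (ℂ × ℂ) →L[ℝ] (ℂ × ℂ) →L[ℝ] ℝ)
    (hO : (fun ζ => a (c₁, zs c₁ + ζ) - (g₁ (P (c₁, zs c₁ + ζ) - zs c₁) - g₁ ζ) -
      (g₂ (dz P (c₁, zs c₁) ζ) (dz P (c₁, zs c₁) ζ) - g₂ ζ ζ)) =O[𝓝 0] (fun ζ => ‖ζ‖ ^ 3)) :
    ∃ H : (ℂ × ℂ) →L[ℝ] (ℂ × ℂ), HasDerivAt (fun c => dz P (c, zs c))
      ((dz P (c₁, zs c₁)).comp H - H.comp (dz P (c₁, zs c₁))) c₁ := by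
  have hdz : ∀ q ξ, dz P q ξ = fderiv ℝ P q (0, ξ) := fun q ξ => rfl
  set z₁ := zs c₁ with hz₁
  set q₁ : ℝ × (ℂ × ℂ) := (c₁, z₁) with hq₁
  set A := dz P q₁ with hAdef
  set D₂ := fderiv ℝ (fderiv ℝ P) q₁ with hD₂def
  have hAap : ∀ ξ, A ξ = fderiv ℝ P q₁ (0, ξ) := fun ξ => rfl
  have hD1 : HasFDerivAt P (fderiv ℝ P q₁) q₁ := hP.differentiableAt.hasFDerivAt
  have hD2 : HasFDerivAt (fderiv ℝ P) D₂ q₁ := hP.fderiv.differentiableAt.hasFDerivAt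
  have hsym : ∀ u v, D₂ u v = D₂ v u := fun u v =>
    (hP.contDiffAt (n := ω)).isSymmSndFDerivAt (by simp) u v
  have hw := hz.differentiableAt.hasDerivAt
  set w := deriv zs c₁ with hwdef
  -- the two curves
  have hγ₁ : HasDerivAt (fun c : ℝ => (c, zs c)) ((1 : ℝ), w) c₁ := (hasDerivAt_id c₁).prodMk hw
  have hγ₂ : ∀ ζ : ℂ × ℂ, HasDerivAt (fun t : ℝ => (c₁, z₁ + t • ζ)) ((0 : ℝ), ζ) 0 := by
    intro ζ
    refine (hasDerivAt_const (0 : ℝ) c₁).prodMk ?_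
    have := ((hasDerivAt_id (0 : ℝ)).smul_const ζ).const_add z₁
    simpa using this
  have hγ₂0 : ∀ ζ : ℂ × ℂ, (fun t : ℝ => (c₁, z₁ + t • ζ)) 0 = q₁ := by
    intro ζ
    simp [hq₁]
  have hcurve : ∀ {γ : ℝ → ℝ × (ℂ × ℂ)} {δ : ℝ × (ℂ × ℂ)} {t₀ : ℝ}, HasDerivAt γ δ t₀ → γ t₀ = q₁ →
      HasDerivAt (fun t => fderiv ℝ P (γ t)) (D₂ δ) t₀ := by
    intro γ δ t₀ hγ h0
    have h := hD2
    rw [← h0] at h
    exact h.comp_hasDerivAt t₀ hγ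
  have hcurve' : ∀ {γ : ℝ → ℝ × (ℂ × ℂ)} {δ : ℝ × (ℂ × ℂ)} {t₀ : ℝ}, HasDerivAt γ δ t₀ → γ t₀ = q₁ →
      ∀ v, HasDerivAt (fun t => fderiv ℝ P (γ t) v) (D₂ δ v) t₀ := by
    intro γ δ t₀ hγ h0 v
    simpa using (hcurve hγ h0).clm_apply (hasDerivAt_const t₀ v)
  have hsympq : ∀ ξ η, os (A ξ) (A η) = os ξ η := hsymp.self_of_nhds
  -- derivative of `hsymp` along a curve
  have hS : ∀ {γ : ℝ → ℝ × (ℂ × ℂ)} {δ : ℝ × (ℂ × ℂ)} {t₀ : ℝ}, HasDerivAt γ δ t₀ → γ t₀ = q₁ →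
      ∀ ξ η, os (A ξ) (D₂ δ (0, η)) + os (D₂ δ (0, ξ)) (A η) = 0 := by
    intro γ δ t₀ hγ h0 ξ η
    have h2 := hasDerivAt_os (hcurve' hγ h0 (0, ξ)) (hcurve' hγ h0 (0, η))
    have h3 : (fun t => os (fderiv ℝ P (γ t) (0, ξ)) (fderiv ℝ P (γ t) (0, η))) =ᶠ[𝓝 t₀]
        fun _ => os ξ η := by
      have hc : Tendsto γ (𝓝 t₀) (𝓝 q₁) := by
        rw [← h0]
        exact hγ.continuousAt
      filter_upwards [hc.eventually hsymp] with t ht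
      exact ht ξ η
    have h4 := (hasDerivAt_const t₀ (os ξ η)).congr_of_eventuallyEq h3
    have h5 := h2.unique h4
    rw [h0] at h5
    exact h5
  -- (1)
  have e1 : fderiv ℝ P q₁ (1, 0) = w - A w := by
    have h2 : HasDerivAt (fun c => P (c, zs c)) (fderiv ℝ P q₁ (1, w)) c₁ := hD1.comp_hasDerivAt c₁ hγ₁
    have h3 := h2.unique (hw.congr_of_eventuallyEq hfix)
    have h4 : ((1 : ℝ), w) = (1, 0) + (0, w) := by simp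
    rw [h4, map_add] at h3
    rw [hAap]
    exact eq_sub_of_add_eq h3
  -- the function
  set φ : ℂ × ℂ → ℝ := fun ζ => a (c₁, z₁ + ζ) - (g₁ (P (c₁, z₁ + ζ) - z₁) - g₁ ζ) -
      (g₂ (A ζ) (A ζ) - g₂ ζ ζ) with hφ
  have haff : ∀ ζ : ℂ × ℂ, AnalyticAt ℝ (fun ζ : ℂ × ℂ => (c₁, z₁ + ζ)) ζ := fun ζ =>
    analyticAt_const.prod (analyticAt_const.add analyticAt_id)
  have haff' : ∀ ζ : ℂ × ℂ, HasFDerivAt (fun ζ : ℂ × ℂ => (c₁, z₁ + ζ))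
      (ContinuousLinearMap.inr ℝ ℝ (ℂ × ℂ)) ζ := by
    intro ζ
    exact (hasFDerivAt_const c₁ ζ).prodMk ((hasFDerivAt_id ζ).const_add z₁)
  have h0q : ((c₁, z₁ + 0) : ℝ × (ℂ × ℂ)) = q₁ := by simp [hq₁]
  have hφan : AnalyticAt ℝ φ 0 := by
    have ha' : AnalyticAt ℝ (fun ζ : ℂ × ℂ => a (c₁, z₁ + ζ)) 0 := by
      refine AnalyticAt.fun_comp (g := a) ?_ (haff 0)
      rw [h0q]
      exact ha
    have hP' : AnalyticAt ℝ (fun ζ : ℂ × ℂ => P (c₁, z₁ + ζ)) 0 := by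
      refine AnalyticAt.fun_comp (g := P) ?_ (haff 0)
      rw [h0q]
      exact hP
    have hg1 : AnalyticAt ℝ (fun ζ : ℂ × ℂ => g₁ (P (c₁, z₁ + ζ) - z₁)) 0 :=
      AnalyticAt.fun_comp (g := fun x => g₁ x) (g₁.analyticAt _) (hP'.sub analyticAt_const)
    have hg2 : ∀ L : (ℂ × ℂ) →L[ℝ] (ℂ × ℂ), AnalyticAt ℝ (fun ζ : ℂ × ℂ => g₂ (L ζ) (L ζ)) 0 := by
      intro L
      exact AnalyticAt.fun_comp (g := fun x : (ℂ × ℂ) × (ℂ × ℂ) => g₂ x.1 x.2)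
        (f := fun ζ => (L ζ, L ζ)) (g₂.analyticAt_bilinear _) ((L.analyticAt _).prod (L.analyticAt _))
    exact (ha'.sub (hg1.sub (g₁.analyticAt _))).sub
      ((hg2 A).sub (hg2 (ContinuousLinearMap.id ℝ (ℂ × ℂ))))
  have hφ' : (fun z => fderiv ℝ φ z) =O[𝓝 0] fun z => ‖z‖ ^ 2 := isBigO_fderiv_of_analytic hφan hO
  have hφ0 : fderiv ℝ φ 0 = 0 := (hφ'.eq_zero_imp).self_of_nhds (by simp)
  have hφ2 : HasFDerivAt (fderiv ℝ φ) (0 : (ℂ × ℂ) →L[ℝ] ((ℂ × ℂ) →L[ℝ] ℝ)) 0 := by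
    refine Asymptotics.IsBigO.hasFDerivAt (n := 2) ?_ (by norm_num)
    simpa using hφ'
  -- the derivative of `φ` near `0`
  have hev : ∀ᶠ ζ : ℂ × ℂ in 𝓝 0, ∀ η, fderiv ℝ φ ζ η =
      -os (fderiv ℝ P (c₁, z₁ + ζ) (0, η)) (fderiv ℝ P (c₁, z₁ + ζ) (1, 0)) -
      (g₁ (fderiv ℝ P (c₁, z₁ + ζ) (0, η)) - g₁ η) -
      (g₂ (A ζ) (A η) + g₂ (A η) (A ζ) - (g₂ ζ η + g₂ η ζ)) := by
    have hc : Tendsto (fun ζ : ℂ × ℂ => (c₁, z₁ + ζ)) (𝓝 0) (𝓝 q₁) := by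
      rw [← h0q]
      exact (haff 0).continuousAt
    filter_upwards [hc.eventually ha.eventually_analyticAt, hc.eventually hP.eventually_analyticAt,
      hc.eventually hrel] with ζ h2 h3 h4 η
    have d1 : HasFDerivAt (fun ζ : ℂ × ℂ => a (c₁, z₁ + ζ))
        ((fderiv ℝ a (c₁, z₁ + ζ)).comp (ContinuousLinearMap.inr ℝ ℝ (ℂ × ℂ))) ζ :=
      HasFDerivAt.comp ζ h2.differentiableAt.hasFDerivAt (haff' ζ)
    have d2 : HasFDerivAt (fun ζ : ℂ × ℂ => P (c₁, z₁ + ζ))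
        ((fderiv ℝ P (c₁, z₁ + ζ)).comp (ContinuousLinearMap.inr ℝ ℝ (ℂ × ℂ))) ζ :=
      HasFDerivAt.comp ζ h3.differentiableAt.hasFDerivAt (haff' ζ)
    have d3 : HasFDerivAt (fun ζ : ℂ × ℂ => g₁ (P (c₁, z₁ + ζ) - z₁))
        (g₁.comp ((fderiv ℝ P (c₁, z₁ + ζ)).comp (ContinuousLinearMap.inr ℝ ℝ (ℂ × ℂ)))) ζ :=
      g₁.hasFDerivAt.comp ζ (d2.sub_const z₁)
    have d4 := g₂.hasFDerivAt_of_bilinear A.hasFDerivAt A.hasFDerivAt (x := ζ)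
    have d5 := g₂.hasFDerivAt_of_bilinear (hasFDerivAt_id ζ) (hasFDerivAt_id ζ)
    have d6 := (d1.sub (d3.sub g₁.hasFDerivAt)).sub (d4.sub d5)
    have d7 : HasFDerivAt φ _ ζ := d6
    rw [d7.fderiv]
    have h5 := h4 η
    rw [hdz] at h5
    simp only [sub_apply, add_apply, ContinuousLinearMap.comp_apply, ContinuousLinearMap.inr_apply,
      ContinuousLinearMap.precompR_apply, ContinuousLinearMap.precompL_apply,
      ContinuousLinearMap.compL_apply,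
      ContinuousLinearMap.coe_id', id_eq, h5]
  -- (2)
  have e2 : ∀ ξ, g₁ ξ = -os ξ w := by
    intro ξ
    obtain ⟨η, hη⟩ := surj_of_eval h1 ξ
    have h2 := hev.self_of_nhds η
    rw [hφ0, h0q, e1, ← hAap] at h2
    simp only [zero_apply, map_zero, os_sub_right, hsympq, add_zero, sub_zero] at h2
    rw [← hη, map_sub, os_sub_left]
    linarith
  -- (4)
  have h4 : ∀ ζ, os (A ζ) (D₂ (1, w) (0, ζ)) = -2 * (g₂ (A ζ) (A ζ) - g₂ ζ ζ) := by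
    intro ζ
    -- two computations of the derivative of `t ↦ fderiv φ (t ζ) ζ`
    have hray : HasDerivAt (fun t : ℝ => t • ζ) ζ 0 := by
      simpa using (hasDerivAt_id (0 : ℝ)).smul_const ζ
    have k1 : HasDerivAt (fun t : ℝ => fderiv ℝ φ (t • ζ) ζ) 0 0 := by
      have h2 : HasDerivAt (fun t : ℝ => fderiv ℝ φ (t • ζ))
          ((0 : (ℂ × ℂ) →L[ℝ] ((ℂ × ℂ) →L[ℝ] ℝ)) ζ) 0 := by
        have h3 := hφ2
        rw [← zero_smul ℝ ζ] at h3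
        exact h3.comp_hasDerivAt (0 : ℝ) hray
      simpa using h2.clm_apply (hasDerivAt_const (0 : ℝ) ζ)
    have c1 := hcurve' (hγ₂ ζ) (hγ₂0 ζ) (0, ζ)
    have c2 := hcurve' (hγ₂ ζ) (hγ₂0 ζ) (1, 0)
    have c3 := hasDerivAt_os c1 c2
    have c4 : HasDerivAt (fun t : ℝ => g₁ (fderiv ℝ P (c₁, z₁ + t • ζ) (0, ζ)))
        (g₁ (D₂ (0, ζ) (0, ζ))) 0 := g₁.hasFDerivAt.comp_hasDerivAt (0 : ℝ) c1
    have c5 : HasDerivAt (fun t : ℝ => t * (2 * (g₂ (A ζ) (A ζ) - g₂ ζ ζ)))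
        (2 * (g₂ (A ζ) (A ζ) - g₂ ζ ζ)) 0 := by
      simpa using (hasDerivAt_id (0 : ℝ)).mul_const (2 * (g₂ (A ζ) (A ζ) - g₂ ζ ζ))
    have c6 := (c3.neg.sub (c4.sub_const (g₁ ζ))).sub c5
    have hcv : (fun t : ℝ => fderiv ℝ φ (t • ζ) ζ) =ᶠ[𝓝 0] fun t : ℝ =>
        -os (fderiv ℝ P (c₁, z₁ + t • ζ) (0, ζ)) (fderiv ℝ P (c₁, z₁ + t • ζ) (1, 0)) -
        (g₁ (fderiv ℝ P (c₁, z₁ + t • ζ) (0, ζ)) - g₁ ζ) -
        t * (2 * (g₂ (A ζ) (A ζ) - g₂ ζ ζ)) := by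
      have hc : Tendsto (fun t : ℝ => t • ζ) (𝓝 0) (𝓝 0) := by
        have := hray.continuousAt.tendsto
        simpa using this
      filter_upwards [hc.eventually hev] with t ht
      rw [ht ζ]
      simp only [map_smul, smul_apply, smul_eq_mul]
      ring
    have k2 := (k1.congr_of_eventuallyEq hcv.symm).unique c6
    have h0q' : ((c₁, z₁ + (0 : ℝ) • ζ) : ℝ × (ℂ × ℂ)) = q₁ := by simp [hq₁]
    rw [h0q', e1, ← hAap] at k2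
    -- (3)
    have k3 := hS (hγ₂ ζ) (hγ₂0 ζ) ζ w
    have k4 : D₂ (0, ζ) (1, 0) = D₂ (1, w) (0, ζ) - D₂ (0, ζ) (0, w) := by
      rw [hsym (0, ζ) (1, 0), hsym (0, ζ) (0, w)]
      have : ((1 : ℝ), w) = (1, 0) + (0, w) := by simp
      rw [this, map_add, add_apply]
      abel
    rw [k4, os_sub_right, os_sub_right, e2] at k2
    linarith
  have h5 : ∀ ξ η, os (D₂ (1, w) (0, ξ)) (A η) + os (A ξ) (D₂ (1, w) (0, η)) = 0 := by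
    intro ξ η
    rw [add_comm]
    exact hS hγ₁ rfl ξ η
  obtain ⟨H, hH⟩ := coboundary_of_quadratic A
    ((D₂ (1, w)).comp (ContinuousLinearMap.inr ℝ ℝ (ℂ × ℂ))) hsympq h5 g₂ h4
  refine ⟨H, ?_⟩
  rw [← hH]
  have h6 := hcurve hγ₁ rfl
  simpa [dz] using h6.clm_comp (hasDerivAt_const c₁ (ContinuousLinearMap.inr ℝ ℝ (ℂ × ℂ)))

end Pool.Agent.MP_5027f4_cont
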