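import Pool.Agent.Lib_MP_5027f4_cont.ChartB
import Pool.Agent.Lib_MP_5027f4_cont.Return
import Pool.Agent.Lib_MP_5027f4_cont.CharRet
import Pool.Agent.Lib_MP_5027f4_cont.FixP
import Pool.Agent.Lib_MP_5027f4_cont.TimeC
import Pool.Agent.Lib_MP_5027f4_cont.Drift
import Pool.Agent.Lib_MP_5027f4_cont.TraceA
import Pool.Agent.Lib_MP_5027f4_cont.EllOpen
import Pool.Agent.Lib_MP_5027f4_cont.CharConst

/-!
# Families of fixed points (assembly of the abstract part)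
-/

open Set Filter Topology Metric Polynomial Asymptotics
open scoped ComplexConjugate ContDiff

namespace Pool.Agent.MP_5027f4_cont

variable {E : Type*} [NormedAddCommGroup E] [NormedSpace ℝ E] [FiniteDimensional ℝ E]
  {om : E →L[ℝ] E →L[ℝ] ℝ} {x₀ : E} {G : (ℝ × ℝ) × E → E} {μ : E → ℝ × ℝ}
  {Θ : (ℝ × ℝ) × (ℝ × ℝ) × (ℂ × ℂ) → E} {Ξ : E → (ℝ × ℝ) × (ℝ × ℝ) × (ℂ × ℂ)} {Φ : E → E}
  {b : (ℝ × ℝ) × (ℂ × ℂ) → ℝ × ℝ} {P : (ℝ × ℝ) × (ℂ × ℂ) → ℂ × ℂ}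

/-- the polynomial `(X - 1) ^ 4` can be cancelled -/
theorem cancel_pow {p q : ℝ[X]} (h : (X - 1) ^ 4 * p = (X - 1) ^ 4 * q) : p = q := by
  have h1 : (X - 1 : ℝ[X]) ≠ 0 := by
    have := Polynomial.X_sub_C_ne_zero (1 : ℝ)
    simpa using this
  exact mul_left_cancel₀ (pow_ne_zero 4 h1) h

theorem ell_eval_one {q : ℝ[X]} (h : Ell4 q) : q.eval 1 ≠ 0 := by
  obtain ⟨l₁, l₂, h1, h2, hn, hq⟩ := h
  intro h0
  have h3 : (q.map (algebraMap ℝ ℂ)).eval 1 = 0 := by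
    have := Polynomial.eval_map_apply (algebraMap ℝ ℂ) (1 : ℝ) (p := q)
    rw [h0] at this
    simpa using this
  rw [hq] at h3
  have e1 : l₁ ≠ 1 := by
    have := hn 1 0 (Or.inl one_ne_zero) (by norm_num)
    simpa using this
  have e2 : l₂ ≠ 1 := by
    have := hn 0 1 (Or.inr one_ne_zero) (by norm_num)
    simpa using this
  have e3 : l₁⁻¹ ≠ 1 := fun h => e1 (by rw [← inv_inv l₁, h, inv_one])
  have e4 : l₂⁻¹ ≠ 1 := fun h => e2 (by rw [← inv_inv l₂, h, inv_one])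
  simp only [eval_mul, eval_sub, eval_X, eval_C] at h3
  rcases mul_eq_zero.1 h3 with h | h <;> rcases mul_eq_zero.1 h with h | h
  · exact e1 (sub_eq_zero.1 h).symm
  · exact e3 (sub_eq_zero.1 h).symm
  · exact e2 (sub_eq_zero.1 h).symm
  · exact e4 (sub_eq_zero.1 h).symm

/-- characteristic polynomial of the transversal part at the base point -/
theorem cp_base (hC : DChart om x₀ G μ Θ Ξ) (hR : RetMap (μ x₀) Θ Φ b P)
    (hΦ : AnalyticAt ℝ Φ x₀) (hΦ0 : Φ x₀ = x₀) {q : ℝ[X]}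
    (hq : cp (fderiv ℝ Φ x₀) = (X - 1) ^ 4 * q) : cp (dz P (μ x₀, 0)) = q := by
  have h1 := (cp_ret hC hR hΦ hΦ0).self_of_nhds hR.b0 hR.P0
  rw [hC.base] at h1
  exact cancel_pow (h1.symm.trans hq)

/-- From a family of fixed points in coordinates to fixed points of `Φ`. -/
theorem fixed_of_coord (hC : DChart om x₀ G μ Θ Ξ) (hR : RetMap (μ x₀) Θ Φ b P)
    (hΦ : AnalyticAt ℝ Φ x₀) (hΦ0 : Φ x₀ = x₀) {zs : ℝ × ℝ → ℂ × ℂ} (hzs : ContinuousAt zs (μ x₀))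
    (hz0 : zs (μ x₀) = 0) (hfix : ∀ᶠ k in 𝓝 (μ x₀), P (k, zs k) = zs k) {q : ℝ[X]}
    (hb : ∀ᶠ c in 𝓝 (μ x₀).2, b (((μ x₀).1, c), zs ((μ x₀).1, c)) = 0)
    (hcp : ∀ᶠ c in 𝓝 (μ x₀).2, cp (dz P (((μ x₀).1, c), zs ((μ x₀).1, c))) = q) :
    ∀ 𝒱 ∈ 𝓝 x₀, ∀ᶠ c in 𝓝 (μ x₀).2, ∃ y ∈ 𝒱, Φ y = y ∧ μ y = ((μ x₀).1, c) ∧
      cp (fderiv ℝ Φ y) = (X - 1) ^ 4 * q := by
  intro 𝒱 h𝒱
  -- the curve of coordinates
  have hk : Tendsto (fun c : ℝ => ((μ x₀).1, c)) (𝓝 (μ x₀).2) (𝓝 (μ x₀)) := by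
    have : ContinuousAt (fun c : ℝ => ((μ x₀).1, c)) (μ x₀).2 := by fun_prop
    simpa using this.tendsto
  have hzk : Tendsto (fun c : ℝ => zs ((μ x₀).1, c)) (𝓝 (μ x₀).2) (𝓝 0) := by
    rw [← hz0]
    exact hzs.tendsto.comp hk
  have hp : Tendsto (fun c : ℝ => ((0, ((μ x₀).1, c), zs ((μ x₀).1, c)) :
      (ℝ × ℝ) × (ℝ × ℝ) × (ℂ × ℂ))) (𝓝 (μ x₀).2) (𝓝 (0, μ x₀, 0)) :=
    tendsto_const_nhds.prodMk_nhds (hk.prodMk_nhds hzk)
  have hΘc : ContinuousAt Θ (0, μ x₀, 0) := hC.an.continuousAt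
  have hΘ : Tendsto (fun c : ℝ => Θ (0, ((μ x₀).1, c), zs ((μ x₀).1, c))) (𝓝 (μ x₀).2) (𝓝 x₀) := by
    have := hΘc.tendsto.comp hp
    rwa [hC.base] at this
  filter_upwards [hΘ.eventually_mem h𝒱, hp.eventually hR.eq, hp.eventually hC.mom, hb, hcp,
    hk.eventually hfix, hp.eventually (cp_ret hC hR hΦ hΦ0)] with c h1 h2 h3 h4 h5 h6 h7
  refine ⟨_, h1, ?_, h3, ?_⟩
  · rw [h2]
    simp only [h4, h6, add_zero]
  · rw [h7 h4 h6, h5]

/-- **Local family.** A fixed point with bounded drift, elliptic and nonresonant, belongs to a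
family of fixed points on the level of the first momentum, with constant characteristic
polynomial. -/
theorem local_family (hdim : Module.finrank ℝ E = 8) (halt : ∀ x, om x x = 0)
    (hnd : ∀ x, (∀ y, om x y = 0) → x = 0) (hA : LocAct om x₀ G μ) (hΦ : AnalyticAt ℝ Φ x₀)
    (hΦ0 : Φ x₀ = x₀) (hcomm : ∀ᶠ p : (ℝ × ℝ) × E in 𝓝 (0, x₀), Φ (G p) = G (p.1, Φ p.2))
    (hmu : ∀ᶠ y in 𝓝 x₀, μ (Φ y) = μ y)
    (hs : ∀ᶠ y in 𝓝 x₀, ∀ ξ η : E, om (fderiv ℝ Φ y ξ) (fderiv ℝ Φ y η) = om ξ η)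
    (hbd : BD x₀ G Φ) {q : ℝ[X]} (hq : cp (fderiv ℝ Φ x₀) = (X - 1) ^ 4 * q) (hell : Ell4 q) :
    ∀ 𝒱 ∈ 𝓝 x₀, ∀ᶠ c in 𝓝 (μ x₀).2, ∃ y ∈ 𝒱, Φ y = y ∧ μ y = ((μ x₀).1, c) ∧
      cp (fderiv ℝ Φ y) = (X - 1) ^ 4 * q := by
  obtain ⟨Θ, Ξ, hC⟩ := exists_chart hdim halt hnd hA
  obtain ⟨b, P, hR⟩ := exists_ret hC hΦ hΦ0 hcomm hmu
  have hcpb := cp_base hC hR hΦ hΦ0 hq
  have h1 : (cp (dz P (μ x₀, 0))).eval 1 ≠ 0 := by
    rw [hcpb]
    exact ell_eval_one hell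
  obtain ⟨zs, hzs, hz0, hfix, -⟩ := exists_fix hR.anP hR.P0 h1
  have hbdc := bdc_of_bd hC hR hbd
  have hd := drift_fix hbdc hzs.continuousAt hz0 hfix
  have hsymp := ret_symp hC hR hΦ hs
  have htime := time_const hR.anb hR.anP hR.b0 hzs hz0 hfix hd hsymp
  refine fixed_of_coord hC hR hΦ hΦ0 hzs.continuousAt hz0 hfix htime ?_
  -- the curve in the parameter `c`
  set h₀ := (μ x₀).1 with hh₀
  set c₀ := (μ x₀).2 with hc₀
  have hk : Tendsto (fun c : ℝ => (h₀, c)) (𝓝 c₀) (𝓝 (μ x₀)) := by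
    have : ContinuousAt (fun c : ℝ => (h₀, c)) c₀ := by fun_prop
    simpa using this.tendsto
  have hzk : Tendsto (fun c : ℝ => zs (h₀, c)) (𝓝 c₀) (𝓝 0) := by
    rw [← hz0]
    exact hzs.continuousAt.tendsto.comp hk
  have hqk : Tendsto (fun c : ℝ => (((h₀, c), zs (h₀, c)) : (ℝ × ℝ) × (ℂ × ℂ))) (𝓝 c₀)
      (𝓝 (μ x₀, 0)) := hk.prodMk_nhds hzk
  -- the linearization along the curve
  set A : ℝ → (ℂ × ℂ) →L[ℝ] (ℂ × ℂ) := fun c => dz P ((h₀, c), zs (h₀, c)) with hAdef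
  have hdzc : ContinuousAt (fun q => dz P q) (μ x₀, (0 : ℂ × ℂ)) := by
    have h2 : ContinuousAt (fderiv ℝ P) (μ x₀, (0 : ℂ × ℂ)) := hR.anP.fderiv.continuousAt
    exact h2.clm_comp continuousAt_const
  have hAc : ContinuousAt A c₀ := by
    have h2 : Tendsto A (𝓝 c₀) (𝓝 (dz P (μ x₀, 0))) := hdzc.tendsto.comp hqk
    have h3 : A c₀ = dz P (μ x₀, 0) := by
      rw [hAdef]
      have : ((h₀, c₀) : ℝ × ℝ) = μ x₀ := rfl
      simp only [this, hz0]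
    rw [ContinuousAt, h3]
    exact h2
  have hA0 : A c₀ = dz P (μ x₀, 0) := by
    rw [hAdef]
    have : ((h₀, c₀) : ℝ × ℝ) = μ x₀ := rfl
    simp only [this, hz0]
  -- symplecticity in the transversal directions
  have hs2 : ∀ᶠ q : (ℝ × ℝ) × (ℂ × ℂ) in 𝓝 (μ x₀, 0), ∀ ξ η,
      os (dz P q ξ) (dz P q η) = os ξ η := by
    filter_upwards [hsymp] with q hq ξ η
    have h2 := hq (0, ξ) (0, η)
    simpa [dot, dz] using h2
  have hrel2 : ∀ᶠ q : (ℝ × ℝ) × (ℂ × ℂ) in 𝓝 (μ x₀, 0), ∀ ξ : ℂ × ℂ,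
      (fderiv ℝ b q (0, ξ)).2 = -os (dz P q ξ) (fderiv ℝ P q ((0, 1), 0)) := by
    filter_upwards [hsymp] with q hq ξ
    have h2 := hq (0, ξ) ((0, 1), 0)
    have h3 : os ξ (0 : ℂ × ℂ) = 0 := by simp [os]
    simp only [dot, h3] at h2
    have h4 : dz P q ξ = fderiv ℝ P q (0, ξ) := rfl
    rw [h4]
    simp at h2
    linarith
  have hell0 : Ell4 (cp (A c₀)) := by
    rw [hA0, hcpb]
    exact hell
  have hellc := ell_open hAc (hqk.eventually hs2) hell0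
  -- the isospectral property
  have hconst : ∀ᶠ c in 𝓝 c₀, cp (A c) = cp (A c₀) := by
    apply cp_const
    have e1 : ∀ᶠ c in 𝓝 c₀, AnalyticAt ℝ b ((h₀, c), zs (h₀, c)) :=
      hqk.eventually hR.anb.eventually_analyticAt
    have e2 : ∀ᶠ c in 𝓝 c₀, AnalyticAt ℝ P ((h₀, c), zs (h₀, c)) :=
      hqk.eventually hR.anP.eventually_analyticAt
    have e3 : ∀ᶠ c in 𝓝 c₀, AnalyticAt ℝ zs (h₀, c) := hk.eventually hzs.eventually_analyticAt
    have e4 : ∀ᶠ c in 𝓝 c₀, ∀ᶠ q : (ℝ × ℝ) × (ℂ × ℂ) in 𝓝 ((h₀, c), zs (h₀, c)),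
        (∀ ξ η, os (dz P q ξ) (dz P q η) = os ξ η) ∧
        (∀ ξ : ℂ × ℂ, (fderiv ℝ b q (0, ξ)).2 = -os (dz P q ξ) (fderiv ℝ P q ((0, 1), 0))) ∧
        AnalyticAt ℝ b q ∧ AnalyticAt ℝ P q :=
      hqk.eventually (hs2.and (hrel2.and
        (hR.anb.eventually_analyticAt.and hR.anP.eventually_analyticAt))).eventually_nhds
    have e5 : ∀ᶠ c in 𝓝 c₀, ∀ᶠ c' in 𝓝 c, P ((h₀, c'), zs (h₀, c')) = zs (h₀, c') :=
      (hk.eventually hfix).eventually_nhds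
    -- bounded drift at every nearby parameter
    obtain ⟨r, hr, δ, hδ⟩ := hbdc
    have e6 : ∀ᶠ c in 𝓝 c₀, ‖((h₀, c) : ℝ × ℝ) - μ x₀‖ < r :=
      hk.eventually (eventually_norm_sub_lt _ hr)
    have e7 : ∀ᶠ c in 𝓝 c₀, ‖zs (h₀, c)‖ < r / 2 := by
      have := hzk.eventually (Metric.ball_mem_nhds (0 : ℂ × ℂ) (half_pos hr))
      simpa [mem_ball_zero_iff] using this
    filter_upwards [e1, e2, e3, e4, e5, e6, e7, hellc, htime] with c e1 e2 e3 e4 e5 e6 e7 hell2 hbc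
    -- maps in the variables `(c, z)`
    set ι : ℝ × (ℂ × ℂ) → (ℝ × ℝ) × (ℂ × ℂ) := fun q => ((h₀, q.1), q.2) with hι
    have hιan : ∀ q, AnalyticAt ℝ ι q := fun q =>
      (analyticAt_const.prod analyticAt_fst).prod analyticAt_snd
    have hιd : ∀ q, HasFDerivAt ι (((0 : (ℝ × (ℂ × ℂ)) →L[ℝ] ℝ).prod
        (ContinuousLinearMap.fst ℝ ℝ (ℂ × ℂ))).prod (ContinuousLinearMap.snd ℝ ℝ (ℂ × ℂ))) q :=
      fun q => ((hasFDerivAt_const h₀ q).prodMk hasFDerivAt_fst).prodMk hasFDerivAt_snd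
    set P' : ℝ × (ℂ × ℂ) → ℂ × ℂ := fun q => P (ι q) with hP'
    set a' : ℝ × (ℂ × ℂ) → ℝ := fun q => (b (ι q)).2 with ha'
    have hdP' : ∀ q, DifferentiableAt ℝ P (ι q) → ∀ δ : ℝ × (ℂ × ℂ),
        fderiv ℝ P' q δ = fderiv ℝ P (ι q) ((0, δ.1), δ.2) := by
      intro q hq δ
      have h2 : HasFDerivAt P' _ q := hq.hasFDerivAt.comp q (hιd q)
      rw [h2.fderiv]
      rfl
    have hda' : ∀ q, DifferentiableAt ℝ b (ι q) → ∀ δ : ℝ × (ℂ × ℂ),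
        fderiv ℝ a' q δ = (fderiv ℝ b (ι q) ((0, δ.1), δ.2)).2 := by
      intro q hq δ
      have h2 : HasFDerivAt (fun q => b (ι q)) _ q := hq.hasFDerivAt.comp q (hιd q)
      have h3 := h2.snd
      rw [ha', h3.fderiv]
      rfl
    have hdz : ∀ q, DifferentiableAt ℝ P (ι q) → dz P' q = dz P (ι q) := by
      intro q hq
      refine ContinuousLinearMap.ext fun ξ => ?_
      change fderiv ℝ P' q (0, ξ) = fderiv ℝ P (ι q) (0, ξ)
      rw [hdP' q hq]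
      rfl
    have hιt : Tendsto ι (𝓝 (c, zs (h₀, c))) (𝓝 ((h₀, c), zs (h₀, c))) :=
      (hιan (c, zs (h₀, c))).continuousAt.tendsto
    have e4' := hιt.eventually e4
    have hPan : AnalyticAt ℝ P' (c, zs (h₀, c)) :=
      AnalyticAt.comp (g := P) (f := ι) (x := (c, zs (h₀, c))) e2 (hιan _)
    have haan : AnalyticAt ℝ a' (c, zs (h₀, c)) := by
      have h2 : AnalyticAt ℝ (fun q => b (ι q)) (c, zs (h₀, c)) :=
        AnalyticAt.comp (g := b) (f := ι) (x := (c, zs (h₀, c))) e1 (hιan _)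
      exact (ContinuousLinearMap.snd ℝ ℝ ℝ).analyticAt _ |>.comp h2
    have hzan : AnalyticAt ℝ (fun c => zs (h₀, c)) c :=
      e3.comp (analyticAt_const.prod analyticAt_id)
    have hcdz : ∀ᶠ c' in 𝓝 c, dz P' (c', zs (h₀, c')) = A c' := by
      have h2 : Tendsto (fun c' : ℝ => (c', zs (h₀, c'))) (𝓝 c) (𝓝 (c, zs (h₀, c))) :=
        tendsto_id.prodMk_nhds hzan.continuousAt.tendsto
      filter_upwards [h2.eventually e4'] with c' h3
      exact hdz _ h3.2.2.2.differentiableAt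
    -- the drift lemma at the parameter `c`
    have hslice : AnalyticAt ℝ (fun z => P ((h₀, c), z)) (zs (h₀, c)) :=
      e2.comp (analyticAt_const.prod analyticAt_id)
    have hslb : AnalyticAt ℝ (fun z => (b ((h₀, c), z)).2) (zs (h₀, c)) := by
      have h2 : AnalyticAt ℝ (fun z => b ((h₀, c), z)) (zs (h₀, c)) :=
        e1.comp (analyticAt_const.prod analyticAt_id)
      exact (ContinuousLinearMap.snd ℝ ℝ ℝ).analyticAt _ |>.comp h2
    have hsld : ∀ z, DifferentiableAt ℝ P ((h₀, c), z) →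
        fderiv ℝ (fun z => P ((h₀, c), z)) z = dz P ((h₀, c), z) := by
      intro z hz
      have h2 : HasFDerivAt (fun z : ℂ × ℂ => (((h₀, c), z) : (ℝ × ℝ) × (ℂ × ℂ)))
          (ContinuousLinearMap.inr ℝ (ℝ × ℝ) (ℂ × ℂ)) z := by
        have := (hasFDerivAt_const (𝕜 := ℝ) ((h₀, c) : ℝ × ℝ) z).prodMk
          (hasFDerivAt_id (𝕜 := ℝ) z)
        exact this
      have h3 : HasFDerivAt (fun z => P ((h₀, c), z)) _ z := hz.hasFDerivAt.comp z h2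
      rw [h3.fderiv]
      rfl
    have hzt : Tendsto (fun z : ℂ × ℂ => (((h₀, c), z) : (ℝ × ℝ) × (ℂ × ℂ)))
        (𝓝 (zs (h₀, c))) (𝓝 ((h₀, c), zs (h₀, c))) := by
      have : ContinuousAt (fun z : ℂ × ℂ => (((h₀, c), z) : (ℝ × ℝ) × (ℂ × ℂ))) (zs (h₀, c)) := by
        fun_prop
      exact this.tendsto
    obtain ⟨g₁, g₂, hO⟩ := drift (P := fun z => P ((h₀, c), z)) (a := fun z => (b ((h₀, c), z)).2)
      (z₀ := zs (h₀, c)) hslice hslb e5.self_of_nhds (by simp only [hbc, Prod.snd_zero])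
      (by
        filter_upwards [hzt.eventually e4] with z hz ξ η
        rw [hsld z hz.2.2.2.differentiableAt]
        exact hz.1 ξ η)
      (by
        rw [hsld _ e2.differentiableAt]
        exact hell2)
      ⟨r / 2, half_pos hr, δ, fun n z hz1 hz2 => by
        refine hδ (h₀, c) n z e6 (fun j hj => ?_) hz2
        have h2 := hz1 j hj
        calc ‖z j‖ = ‖(z j - zs (h₀, c)) + zs (h₀, c)‖ := by rw [sub_add_cancel]
          _ ≤ ‖z j - zs (h₀, c)‖ + ‖zs (h₀, c)‖ := norm_add_le _ _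
          _ < r / 2 + r / 2 := add_lt_add h2 e7
          _ = r := by ring⟩
    obtain ⟨H, hH⟩ := trace_step (P := P') (a := a') (zs := fun c => zs (h₀, c)) (c₁ := c) hPan haan
      hzan (by
        filter_upwards [e5] with c' h2
        exact h2)
      (by
        filter_upwards [e4'] with q h2 ξ η
        rw [hdz q h2.2.2.2.differentiableAt]
        exact h2.1 ξ η)
      (by
        filter_upwards [e4'] with q h2 ξ
        rw [hdz q h2.2.2.2.differentiableAt, hdP' q h2.2.2.2.differentiableAt,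
          hda' q h2.2.2.1.differentiableAt]
        exact h2.2.1 ξ)
      (by
        rw [hdz _ e2.differentiableAt]
        exact ell_eval_one hell2) g₁ g₂ (by
        have h2 := hO
        rw [hsld _ e2.differentiableAt] at h2
        rw [hdz _ e2.differentiableAt]
        exact h2)
    refine ⟨H, ?_⟩
    rw [hdz _ e2.differentiableAt] at hH
    exact hH.congr_of_eventuallyEq (hcdz.mono fun c' h => h.symm)
  filter_upwards [hconst] with c hc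
  rw [← hcpb, ← hA0]
  exact hc

end Pool.Agent.MP_5027f4_cont
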