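import Pool.Agent.Lib_MP_5027f4_cont.MDefs
import Pool.Agent.Lib_MP_5027f4_ell.GenC
import Pool.Agent.Lib_MP_5027f4_ell.OdeA

/-!
PIECE [MAna] (MP_5027f4_mp, T2).  Analyticity in the eccentricity.
-/

open Set Filter Topology Metric Polynomial
open scoped ComplexConjugate ContDiff
open Pool.Agent.MP_5027f4_mp
open Pool.Agent.MP_5027f4_ell (Tri Shape cc coord Mt sg sm Nn Gz epsf kapf vf Bs IsFund IsCofund Mat)

namespace Pool.Agent.MP_5027f4_cont

open Pool.Agent.MP_5027f4_ell (Ah S2 T0 T0' Om IsCofund asyF_T' asyF_Ah_continuous asyF_K_bound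
  asyF_remainder tendsto_small interaction I_div_mem_Om isOpen_Om isPreconnected_Om) in
/-- The fundamental matrix in the interaction picture tends to the identity. -/
private theorem mana_xi (s : ℝ) (Ξ : ℝ → ℝ → Mat) (hΞ : ∀ h : ℝ, 0 < h → IsFund (Ah s h) (Ξ h))
    (i j : Fin 4) :
    Tendsto (fun h : ℝ => Ξ h (2 * Real.pi) i j) (𝓝[>] 0) (𝓝 ((1 : Mat) i j)) := by
  obtain ⟨C0, hC0, hrem⟩ := asyF_remainder s
  obtain ⟨C, hC, hK⟩ := asyF_K_bound s
  have hpi : (0 : ℝ) ≤ 2 * Real.pi := by positivity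
  have h1 : Tendsto (fun h : ℝ => Ξ h (2 * Real.pi) i j - (1 : Mat) i j) (𝓝[>] 0) (𝓝 0) := by
    refine tendsto_small (C := C0 + C + C * C) fun h hh hh1 => ?_
    have hr := hrem h hh hh1 (Ξ h) (hΞ h hh) i j
    rw [Matrix.sub_apply] at hr
    obtain ⟨K, hKd⟩ : ∃ K : ℝ, K = ∫ θ in (0 : ℝ)..(2 * Real.pi), ∑ k, ∑ l, ‖Ah s h θ k l‖ :=
      ⟨_, rfl⟩
    have hKb := hK h hh hh1
    rw [← hKd] at hKb
    have hcs : Continuous fun θ => ∑ k, ∑ l, ‖Ah s h θ k l‖ :=
      continuous_finsetSum _ fun k _ => continuous_finsetSum _ fun l _ =>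
        (asyF_Ah_continuous s hh k l).norm
    have hle : ∀ θ a b, ‖Ah s h θ a b‖ ≤ ∑ k, ∑ l, ‖Ah s h θ k l‖ := by
      intro θ a b
      calc ‖Ah s h θ a b‖ ≤ ∑ l, ‖Ah s h θ a l‖ :=
            Finset.single_le_sum (f := fun l => ‖Ah s h θ a l‖) (fun l _ => norm_nonneg _)
              (Finset.mem_univ b)
        _ ≤ ∑ k, ∑ l, ‖Ah s h θ k l‖ :=
            Finset.single_le_sum (f := fun k => ∑ l, ‖Ah s h θ k l‖)
              (fun k _ => Finset.sum_nonneg fun l _ => norm_nonneg _) (Finset.mem_univ a)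
    have hrow : ∀ θ a, ∑ b, ‖Ah s h θ a b‖ ≤ ∑ k, ∑ l, ‖Ah s h θ k l‖ := by
      intro θ a
      exact Finset.single_le_sum (f := fun k => ∑ l, ‖Ah s h θ k l‖)
        (fun k _ => Finset.sum_nonneg fun l _ => norm_nonneg _) (Finset.mem_univ a)
    have hnn : ∀ θ, 0 ≤ ∑ k, ∑ l, ‖Ah s h θ k l‖ := fun θ =>
      Finset.sum_nonneg fun k _ => Finset.sum_nonneg fun l _ => norm_nonneg _
    have hK0 : 0 ≤ K := by
      rw [hKd]
      exact intervalIntegral.integral_nonneg hpi fun θ _ => hnn θ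
    -- partial integrals
    have hpart : ∀ θ ∈ Icc (0 : ℝ) (2 * Real.pi), ∀ a b,
        ‖∫ t in (0 : ℝ)..θ, Ah s h t a b‖ ≤ K := by
      intro θ hθ a b
      calc ‖∫ t in (0 : ℝ)..θ, Ah s h t a b‖ ≤ ∫ t in (0 : ℝ)..θ, ‖Ah s h t a b‖ :=
            intervalIntegral.norm_integral_le_integral_norm hθ.1
        _ ≤ ∫ t in (0 : ℝ)..θ, ∑ k, ∑ l, ‖Ah s h t k l‖ :=
            intervalIntegral.integral_mono_on hθ.1
              ((asyF_Ah_continuous s hh a b).norm.intervalIntegrable _ _)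
              (hcs.intervalIntegrable _ _) fun t _ => hle t a b
        _ ≤ K := by
            rw [hKd]
            exact intervalIntegral.integral_mono_interval le_rfl hθ.1 hθ.2
              (Filter.Eventually.of_forall hnn) (hcs.intervalIntegrable _ _)
    have hfirst : ‖∫ θ in (0 : ℝ)..(2 * Real.pi), Ah s h θ i j‖ ≤ K :=
      hpart _ ⟨hpi, le_rfl⟩ i j
    have hsec : ‖S2 s h i j‖ ≤ K * K := by
      have hc1 : Continuous fun θ => (∑ k, ∑ l, ‖Ah s h θ k l‖) * K := hcs.mul continuous_const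
      unfold S2
      calc ‖∫ θ in (0 : ℝ)..(2 * Real.pi), ∑ k, Ah s h θ i k * ∫ t in (0 : ℝ)..θ, Ah s h t k j‖
          ≤ ∫ θ in (0 : ℝ)..(2 * Real.pi), (∑ k, ∑ l, ‖Ah s h θ k l‖) * K := by
            refine intervalIntegral.norm_integral_le_of_norm_le hpi ?_
              (hc1.intervalIntegrable _ _)
            refine Filter.Eventually.of_forall fun θ hθ => ?_
            calc ‖∑ k, Ah s h θ i k * ∫ t in (0 : ℝ)..θ, Ah s h t k j‖
                ≤ ∑ k, ‖Ah s h θ i k * ∫ t in (0 : ℝ)..θ, Ah s h t k j‖ := norm_sum_le _ _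
              _ ≤ ∑ k, ‖Ah s h θ i k‖ * K := by
                  refine Finset.sum_le_sum fun k _ => ?_
                  rw [norm_mul]
                  exact mul_le_mul_of_nonneg_left (hpart θ ⟨hθ.1.le, hθ.2⟩ k j) (norm_nonneg _)
              _ = (∑ k, ‖Ah s h θ i k‖) * K := (Finset.sum_mul _ _ _).symm
              _ ≤ (∑ k, ∑ l, ‖Ah s h θ k l‖) * K := mul_le_mul_of_nonneg_right (hrow θ i) hK0
        _ = K * K := by
            rw [intervalIntegral.integral_mul_const, ← hKd]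
    have hp34 : h ^ (3 / 4 : ℝ) ≤ h ^ (1 / 4 : ℝ) :=
      Real.rpow_le_rpow_of_exponent_ge hh hh1 (by norm_num)
    have hp94 : h ^ (9 / 4 : ℝ) ≤ h ^ (1 / 4 : ℝ) :=
      Real.rpow_le_rpow_of_exponent_ge hh hh1 (by norm_num)
    have hp1 : h ^ (3 / 4 : ℝ) ≤ 1 := Real.rpow_le_one hh.le hh1 (by norm_num)
    have hp0 : (0 : ℝ) ≤ h ^ (3 / 4 : ℝ) := Real.rpow_nonneg hh.le _
    have hK1 : K ≤ C * h ^ (1 / 4 : ℝ) := hKb.trans (mul_le_mul_of_nonneg_left hp34 hC.le)
    have hKC : K ≤ C := hKb.trans (by nlinarith)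
    have hKK : K * K ≤ C * C * h ^ (1 / 4 : ℝ) := by
      calc K * K ≤ C * (C * h ^ (1 / 4 : ℝ)) := mul_le_mul hKC hK1 hK0 hC.le
        _ = C * C * h ^ (1 / 4 : ℝ) := by ring
    have hr2 : C0 * h ^ (9 / 4 : ℝ) ≤ C0 * h ^ (1 / 4 : ℝ) :=
      mul_le_mul_of_nonneg_left hp94 hC0.le
    have hsplit : Ξ h (2 * Real.pi) i j - (1 : Mat) i j =
        (Ξ h (2 * Real.pi) i j - (1 : Mat) i j - (∫ θ in (0 : ℝ)..(2 * Real.pi), Ah s h θ i j) -
          S2 s h i j) + (∫ θ in (0 : ℝ)..(2 * Real.pi), Ah s h θ i j) + S2 s h i j := by ring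
    rw [hsplit]
    refine norm_add₃_le.trans ?_
    have e : (C0 + C + C * C) * h ^ (1 / 4 : ℝ) =
      C0 * h ^ (1 / 4 : ℝ) + C * h ^ (1 / 4 : ℝ) + C * C * h ^ (1 / 4 : ℝ) := by ring
    rw [e]
    linarith
  have h2 := h1.add_const ((1 : Mat) i j)
  simpa using h2

/-- powers and determinants -/
private theorem mana_pow {ι : Type*} {l : Filter ι} {M : ι → Mat} {N : Mat}
    (h : ∀ i j, Tendsto (fun x => M x i j) l (𝓝 (N i j))) (k : ℕ) :
    ∀ i j, Tendsto (fun x => (M x ^ k) i j) l (𝓝 ((N ^ k) i j)) := by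
  induction k with
  | zero =>
    intro i j
    simp only [pow_zero]
    exact tendsto_const_nhds
  | succ k ih =>
    intro i j
    simp only [pow_succ, Matrix.mul_apply]
    exact tendsto_finsetSum _ fun a _ => (ih i a).mul (h a j)

private theorem mana_det {ι : Type*} {l : Filter ι} {M : ι → Mat} {N : Mat}
    (h : ∀ i j, Tendsto (fun x => M x i j) l (𝓝 (N i j))) :
    Tendsto (fun x => (M x).det) l (𝓝 N.det) := by
  simp only [Matrix.det_apply']
  exact tendsto_finsetSum _ fun σ _ => (tendsto_finsetProd _ fun a _ => h _ _).const_mul _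

private theorem mana_diff_pow {U : Set ℂ} {M : ℂ → Mat}
    (h : ∀ i j, DifferentiableOn ℂ (fun x => M x i j) U) (k : ℕ) :
    ∀ i j, DifferentiableOn ℂ (fun x => (M x ^ k) i j) U := by
  induction k with
  | zero =>
    intro i j
    simp only [pow_zero]
    exact differentiableOn_const _
  | succ k ih =>
    intro i j
    simp only [pow_succ, Matrix.mul_apply]
    exact DifferentiableOn.fun_sum fun a _ => (ih i a).mul (h a j)

private theorem mana_diff_det {U : Set ℂ} {M : ℂ → Mat}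
    (h : ∀ i j, DifferentiableOn ℂ (fun x => M x i j) U) :
    DifferentiableOn ℂ (fun x => (M x).det) U := by
  simp only [Matrix.det_apply]
  apply DifferentiableOn.fun_sum
  intro σ _
  apply DifferentiableOn.const_smul
  apply DifferentiableOn.fun_finsetProd
  intro i _
  exact h _ _

/-- At `e = i / h`, `h → 0+`, the monodromy tends to the identity.  Proof: `interaction` (file AsyB)
gives `X (2 π) = T0 * Ξ (2 π) * T0'` with `Ξ` fundamental for `Ah s h`; `asyF_remainder`, the first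
order limits of AsyD (`first_wv`, `first_vw`, `first_diag`: the integrals of the entries of `Ah` tend to
`0`) and `second_wv`, `second_other` show `Ξ (2 π) → 1` entrywise; `T0 * T0' = 1` (`asyF_T'`).
(Or simpler: `asyF_K_bound` and `dyson_bound` resp. Gronwall.) -/
theorem mono_tendsto_one (s : ℝ) (X : ℂ → ℝ → Mat) (hX : ∀ e ∈ MP_5027f4_ell.Om, IsFund (Bs s e) (X e))
    (i j : Fin 4) :
    Tendsto (fun h : ℝ => X (Complex.I / (h : ℂ)) (2 * Real.pi) i j) (𝓝[>] 0)
      (𝓝 ((1 : Mat) i j)) := by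
  have hint : ∀ h : ℝ, ∃ Ξ : ℝ → Mat, 0 < h → IsFund (MP_5027f4_ell.Ah s h) Ξ ∧
      X (Complex.I / (h : ℂ)) (2 * Real.pi) =
        MP_5027f4_ell.T0 * Ξ (2 * Real.pi) * MP_5027f4_ell.T0' := by
    intro h
    by_cases hh : 0 < h
    · obtain ⟨Ξ, hΞ⟩ := MP_5027f4_ell.interaction s hh (X (Complex.I / (h : ℂ)))
        (hX _ (MP_5027f4_ell.I_div_mem_Om hh))
      exact ⟨Ξ, fun _ => hΞ⟩
    · exact ⟨fun _ => 1, fun h' => absurd h' hh⟩
  choose Ξ hΞ using hint
  have hD := mana_xi s Ξ (fun h hh => (hΞ h hh).1)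
  have h1 : Tendsto (fun h : ℝ =>
      (MP_5027f4_ell.T0 * Ξ h (2 * Real.pi) * MP_5027f4_ell.T0') i j) (𝓝[>] 0)
      (𝓝 ((MP_5027f4_ell.T0 * 1 * MP_5027f4_ell.T0') i j)) := by
    simp only [Matrix.mul_apply]
    exact tendsto_finsetSum _ fun l _ =>
      (tendsto_finsetSum _ fun k _ => (hD k l).const_mul _).mul_const _
  rw [Matrix.mul_one, MP_5027f4_ell.asyF_T'] at h1
  refine h1.congr' ?_
  filter_upwards [self_mem_nhdsWithin] with h hh
  rw [(hΞ h hh).2]

/-- Proof.  `F e = det (1 - X e (2 π) ^ k)` is holomorphic on the connected open set `Om`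
(`MP_5027f4_ell.diffOn_entry`, with `exists_cofund`, `continuous_Bs`; `isOpen_Om`,
`isPreconnected_Om`), so `F = c` on `Om` by the identity theorem at `0 ∈ Om`
(`AnalyticOnNhd.eqOn_of_preconnected_of_frequently_eq`).  At `e = i / h` (`I_div_mem_Om`) `F` tends to
`det (1 - 1) = 0` by `mono_tendsto_one` if `k ≠ 0`, and `F = 0` if `k = 0`. -/
theorem ana_zero (s : ℝ) (X : ℂ → ℝ → Mat) (hX : ∀ e ∈ MP_5027f4_ell.Om, IsFund (Bs s e) (X e)) (k : ℕ) (c : ℂ)
    (h : ∃ᶠ e : ℝ in 𝓝[≠] 0, (1 - X (e : ℂ) (2 * Real.pi) ^ k).det = c) : c = 0 := by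
  have h0 : (0 : ℂ) ∈ MP_5027f4_ell.Om := by
    have h1 := MP_5027f4_ell.ofReal_mem_Om (e := 0) (by norm_num) (by norm_num)
    simpa using h1
  choose! Y hY using fun (e : ℂ) (he : e ∈ MP_5027f4_ell.Om) =>
    MP_5027f4_ell.exists_cofund (Bs s e) (MP_5027f4_ell.continuous_Bs s he)
  have hdiff : DifferentiableOn ℂ (fun e => (1 - X e (2 * Real.pi) ^ k).det)
      MP_5027f4_ell.Om := by
    refine mana_diff_det fun i j => ?_
    simp only [Matrix.sub_apply]
    exact (differentiableOn_const _).sub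
      (mana_diff_pow (fun i j => MP_5027f4_ell.GenCc.diffOn_entry hX hY i j) k i j)
  have han := hdiff.analyticOnNhd MP_5027f4_ell.isOpen_Om
  have hfreq : ∃ᶠ z in 𝓝[≠] (0 : ℂ), (1 - X z (2 * Real.pi) ^ k).det = c := by
    rw [frequently_nhdsWithin_iff] at h ⊢
    have h1 : Tendsto (fun y : ℝ => (y : ℂ)) (𝓝 0) (𝓝 ((0 : ℝ) : ℂ)) :=
      Complex.continuous_ofReal.tendsto 0
    rw [Complex.ofReal_zero] at h1
    refine h1.frequently (h.mono ?_)
    intro y hy
    refine ⟨hy.1, ?_⟩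
    intro hy0
    exact hy.2 (Complex.ofReal_eq_zero.1 hy0)
  have heq := han.eqOn_of_preconnected_of_frequently_eq
    (analyticOnNhd_const (v := c)) MP_5027f4_ell.isPreconnected_Om h0 hfreq
  have hlim : Tendsto (fun h : ℝ => (1 - X (Complex.I / (h : ℂ)) (2 * Real.pi) ^ k).det)
      (𝓝[>] 0) (𝓝 ((1 : Mat) - 1 ^ k).det) := by
    refine mana_det fun i j => ?_
    simp only [Matrix.sub_apply]
    exact tendsto_const_nhds.sub (mana_pow (fun i j => mono_tendsto_one s X hX i j) k i j)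
  rw [one_pow, sub_self, Matrix.det_zero] at hlim
  refine tendsto_nhds_unique (tendsto_const_nhds.congr' ?_) hlim
  filter_upwards [self_mem_nhdsWithin] with x hx
  exact (heq (MP_5027f4_ell.I_div_mem_Om hx)).symm

end Pool.Agent.MP_5027f4_cont
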