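import Pool.Agent.Lib_MP_5027f4_cont.MDefs
import Pool.Agent.Lib_MP_5027f4_cont.DJac

/-!
PIECE [MJac] (MP_5027f4_mp, T2).  Time `T` maps of the classical flow and Jacobi fields.
-/

open Set Filter Topology Metric Polynomial
open scoped ComplexConjugate ContDiff
open Pool.Agent.MP_5027f4_mp
open Pool.Agent.MP_5027f4_ell (Tri Shape cc coord Mt sg sm Nn Gz epsf kapf vf Bs IsFund IsCofund Mat)

namespace Pool.Agent.MP_5027f4_cont

variable {m : Fin 3 → ℝ} {S T : ℝ} {X₀ X₁ : Up} {y : ℝ → Ph} {Φ : ℝ × comSub m → comSub m}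
  {y₀ : comSub m} {Ψ : comSub m → comSub m}

/-- Proof: `LM.classical` with `p = (T, y)`; `Φ` is analytic at `(T, pE m X₀)`. -/
theorem cmap_of_lm (hm : ∀ a, 0 < m a) (hT : 0 < T)
    (hy : Solves (fld m) (frame m) (Icc 0 T) y) (hΦ : LM m T S X₀ X₁ Φ)
    (hX : ((pE m X₀ : comSub m) : Ph) = y 0) : CMap m T (pE m X₀) (fun y => Φ (T, y)) := by
  refine ⟨?_, ?_⟩
  · have h1 : AnalyticAt ℝ (fun y : comSub m => ((T, y) : ℝ × comSub m)) (pE m X₀) :=
      analyticAt_const.prod analyticAt_id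
    exact AnalyticAt.fun_comp (g := Φ) hΦ.an h1
  · have hcl := LM.classical hm hT hy hΦ hX
    have h1 : Tendsto (fun p : comSub m => ((T, p) : ℝ × comSub m)) (𝓝 (pE m X₀))
        (𝓝 (T, pE m X₀)) := by
      have h2 : Continuous fun p : comSub m => ((T, p) : ℝ × comSub m) := by fun_prop
      exact h2.tendsto _
    exact h1.eventually hcl

theorem CMap.near (h : CMap m T y₀ Ψ) : ∀ᶠ y in 𝓝 y₀, CMap m T y Ψ := by
  filter_upwards [h.an.eventually_analyticAt, eventually_eventually_nhds.2 h.cl] with y h1 h2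
  exact ⟨h1, h2⟩

/-- Proof: the second half of the proof of `LM.jacobi` (file DJac.lean): `djac_flow` for the solution
`x` in the subspace gives `A`, `φ` with `HasFDerivAt φ (A T) y₀` and `φ = Ψ` near `y₀` by
`CMap.cl` and uniqueness of solutions; `J t = A t (J 0)` by uniqueness for the linear equation. -/
theorem CMap.jacobi (hT : 0 < T) (h : CMap m T y₀ Ψ) {x : ℝ → Ph}
    (hx : Solves (fld m) (frame m) (Icc 0 T) x) (hx0 : x 0 = (y₀ : Ph)) {J : ℝ → Ph}
    (hJ : IsJacobi m x T J) (h0 : J 0 ∈ comSub m) :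
    ((fderiv ℝ Ψ y₀ ⟨J 0, h0⟩ : comSub m) : Ph) = J T := by
  obtain ⟨hX', hXs⟩ := djac_lift hx
  have h0mem : (0 : ℝ) ∈ Icc 0 T := ⟨le_rfl, hT.le⟩
  have hTmem : T ∈ Icc 0 T := ⟨hT.le, le_rfl⟩
  have hbase : prE m (x 0) = y₀ := by
    rw [hx0, prE_coe]
  obtain ⟨A, φ, hA0, hA, hφ, hev⟩ :=
    djac_flow (isOpen_noColl₀ m) (contDiffOn_fld₀ m) hT.le hXs
  rw [hbase] at hφ hev
  have heq : Ψ =ᶠ[𝓝 y₀] φ := by
    filter_upwards [h.cl, hev] with p hp1 hp2
    obtain ⟨z, hz, hz0, hzT⟩ := hp1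
    obtain ⟨Y, hY, hY0, hYT⟩ := hp2
    obtain ⟨hz', hzs⟩ := djac_lift hz
    have h1 : prE m (z 0) = Y 0 := by
      rw [hz0, prE_coe, hY0]
    have h2 := hzs.eqOn_of_eq (isOpen_noColl₀ m)
      ((contDiffOn_fld₀ m).of_le (by norm_num)) hY h1 hTmem
    have h3 : prE m (z T) = Y T := h2
    rw [← hYT, ← h3, hzT, prE_coe]
  have hd1 : HasFDerivAt Ψ (A T) y₀ := hφ.congr_of_eventuallyEq heq
  rw [hd1.fderiv]
  -- uniqueness for the linear equation
  have hJc : ∀ t ∈ Icc 0 T, ((prE m (J t) : comSub m) : Ph) = J t := by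
    intro t ht
    have h2 : J t ∈ comSub m := mem_comSub.2 ⟨(hJ t ht).1, (hJ t ht).2.1⟩
    exact congrArg (fun z : comSub m => (z : Ph)) (prE_coe m ⟨J t, h2⟩)
  have hJd : ∀ t ∈ Icc 0 T, HasDerivWithinAt (fun t => prE m (J t))
      (fderiv ℝ (fld₀ m) (prE m (x t)) (prE m (J t))) (Icc 0 T) t := by
    intro t ht
    have h1 := (prE m).hasFDerivAt.comp_hasDerivWithinAt t (hJ t ht).2.2
    refine h1.congr_deriv ?_
    have h3 := coe_fderiv_fld₀ (hXs t ht).1 (prE m (J t))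
    rw [hX' t ht, hJc t ht] at h3
    have h4 : prE m (fderiv ℝ (fld m) (x t) (J t)) =
        fderiv ℝ (fld₀ m) (prE m (x t)) (prE m (J t)) := by
      rw [← h3, prE_coe]
    exact h4
  have hLc : ContinuousOn (fun t => fderiv ℝ (fld₀ m) (prE m (x t))) (Icc 0 T) := by
    have h1 : ContinuousOn (fderiv ℝ (fld₀ m)) (noColl₀ m) :=
      (contDiffOn_fld₀ m).continuousOn_fderiv_of_isOpen (isOpen_noColl₀ m) (by norm_num)
    exact h1.comp hXs.continuousOn fun t ht => (hXs t ht).1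
  have hAd : ∀ t ∈ Icc 0 T, HasDerivWithinAt (fun t => A t ⟨J 0, h0⟩)
      (fderiv ℝ (fld₀ m) (prE m (x t)) (A t ⟨J 0, h0⟩)) (Icc 0 T) t := by
    intro t ht
    have := (hA t ht).clm_apply (hasDerivWithinAt_const t (Icc 0 T) (⟨J 0, h0⟩ : comSub m))
    simpa using this
  have hfin := djac_unique hT.le hLc hAd hJd (by
    rw [hA0]
    apply Subtype.ext
    exact (hJc 0 h0mem).symm)
  rw [hfin]
  exact hJc T hTmem

end Pool.Agent.MP_5027f4_cont
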