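import Pool.Agent.Lib_MP_5027f4_cont.MFld
import Pool.Agent.Lib_MP_5027f4_cont.MJac
import Pool.Agent.Lib_MP_5027f4_ell.OdeA

/-!
PIECE [MBlk] (MP_5027f4_mp, T2).  Block form of the monodromy of homographic solutions.
-/

open Set Filter Topology Metric Polynomial
open scoped ComplexConjugate ContDiff
open Pool.Agent.MP_5027f4_mp
open Pool.Agent.MP_5027f4_ell (Tri Shape cc coord Mt sg sm Nn Gz epsf kapf vf Bs IsFund IsCofund Mat)

namespace Pool.Agent.MP_5027f4_cont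

variable {m : Fin 3 → ℝ} {ϖ : ℂ} {S : Shape} {d : Fin 3 → ℂ}
  {e : ((ℂ × ℂ) × (ℂ × ℂ)) ≃L[ℝ] comSub m} {T : ℝ} {z z1 : ℝ → ℂ}

/-- the coefficient matrix of the linear equation -/
private noncomputable def mblkL (M s : ℝ) (z : ℂ) : (ℂ × ℂ) →L[ℝ] (ℂ × ℂ) :=
  (ContinuousLinearMap.snd ℝ ℂ ℂ).prod ((((M / ‖z‖ ^ 3 : ℝ) : ℂ)) •
    (((1 / 2 : ℂ)) • ContinuousLinearMap.fst ℝ ℂ ℂ +
      ((((3 / 2 * s : ℝ) : ℂ)) * (z / conj z)) •
        ((Complex.conjCLE : ℂ →L[ℝ] ℂ).comp (ContinuousLinearMap.fst ℝ ℂ ℂ))))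

private theorem mblkL_apply (M s : ℝ) (z : ℂ) (p : ℂ × ℂ) :
    mblkL M s z p = (p.2, LN M s z p.1) := by
  refine Prod.ext rfl ?_
  show ((M / ‖z‖ ^ 3 : ℝ) : ℂ) * ((1 / 2 : ℂ) * p.1 +
    (((3 / 2 * s : ℝ) : ℂ) * (z / conj z)) * conj p.1) = LN M s z p.1
  unfold LN
  ring

private theorem mblkL_cont {M s : ℝ} {A : Set ℝ} {ζ : ℝ → ℂ} (hζ : ContinuousOn ζ A)
    (h0 : ∀ t ∈ A, ζ t ≠ 0) : ContinuousOn (fun t => mblkL M s (ζ t)) A := by
  have hconj : ContinuousOn (fun t => conj (ζ t)) A := Complex.continuous_conj.comp_continuousOn hζ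
  have h1 : ContinuousOn (fun t => (((M / ‖ζ t‖ ^ 3 : ℝ) : ℂ))) A := by
    refine Complex.continuous_ofReal.comp_continuousOn ?_
    exact continuousOn_const.div (hζ.norm.pow 3) fun t ht =>
      pow_ne_zero 3 (norm_ne_zero_iff.mpr (h0 t ht))
  have h2 : ContinuousOn (fun t => (((3 / 2 * s : ℝ) : ℂ)) * (ζ t / conj (ζ t))) A := by
    refine continuousOn_const.mul (hζ.div hconj fun t ht => ?_)
    exact (_root_.map_ne_zero _).mpr (h0 t ht)
  have h3 : ContinuousOn (fun t => (((M / ‖ζ t‖ ^ 3 : ℝ) : ℂ)) •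
    (((1 / 2 : ℂ)) • ContinuousLinearMap.fst ℝ ℂ ℂ +
      ((((3 / 2 * s : ℝ) : ℂ)) * (ζ t / conj (ζ t))) •
        ((Complex.conjCLE : ℂ →L[ℝ] ℂ).comp (ContinuousLinearMap.fst ℝ ℂ ℂ)))) A :=
    h1.smul (continuousOn_const.add (h2.smul continuousOn_const))
  have h4 : Continuous (fun p : ((ℂ × ℂ) →L[ℝ] ℂ) × ((ℂ × ℂ) →L[ℝ] ℂ) => p.1.prod p.2) :=
    (ContinuousLinearMap.prodₗᵢ ℝ (E := ℂ × ℂ) (F := ℂ) (G := ℂ) (𝕜 := ℝ)).continuous
  exact h4.comp_continuousOn (continuousOn_const.prodMk h3)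

private theorem mblk_pair {M s : ℝ} {b b1 : ℝ → ℂ} (h : LSol M s T z b b1) :
    ∀ t ∈ Icc 0 T, HasDerivWithinAt (fun t => (b t, b1 t)) (mblkL M s (z t) (b t, b1 t))
      (Icc 0 T) t := by
  intro t ht
  rw [mblkL_apply]
  exact (h t ht).1.prodMk (h t ht).2

private theorem mblk_unique {M s : ℝ} (hT : 0 ≤ T) (hz : KSol M T z z1) {b b1 b' b1' : ℝ → ℂ}
    (h : LSol M s T z b b1) (h' : LSol M s T z b' b1') (h0 : b 0 = b' 0) (h1 : b1 0 = b1' 0) :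
    b T = b' T ∧ b1 T = b1' T := by
  have hc : ContinuousOn (fun t => mblkL M s (z t)) (Icc 0 T) :=
    mblkL_cont (fun t ht => (hz t ht).2.1.continuousWithinAt) fun t ht => (hz t ht).1
  have h2 := djac_unique hT hc (mblk_pair h) (mblk_pair h') (by
    show (b 0, b1 0) = (b' 0, b1' 0)
    rw [h0, h1])
  exact ⟨congrArg Prod.fst h2, congrArg Prod.snd h2⟩

/-- Proof.  Linear equation with continuous coefficients on `[0, T]` (`z` is continuous and has no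
zero there): extend the coefficients to `ℝ` by constants (`Set.projIcc`/clamping) and apply
`MP_5027f4_ell.exists_linear_ode` (file OdeA.lean) with `E = ℂ × ℂ`. -/
theorem exists_lsol {M s : ℝ} (hT : 0 ≤ T) (hz : KSol M T z z1) (p : ℂ × ℂ) :
    ∃ b b1, LSol M s T z b b1 ∧ b 0 = p.1 ∧ b1 0 = p.2 := by
  have hzc : ContinuousOn z (Icc 0 T) := fun t ht => (hz t ht).2.1.continuousWithinAt
  obtain ⟨κ, hκ⟩ : ∃ κ : ℝ → ℝ, κ = fun t => max 0 (min t T) := ⟨_, rfl⟩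
  have hκc : Continuous κ := by
    rw [hκ]
    fun_prop
  have hκm : ∀ t, κ t ∈ Icc 0 T := by
    intro t
    rw [hκ]
    exact ⟨le_max_left _ _, max_le hT (min_le_right _ _)⟩
  have hκe : ∀ t ∈ Icc 0 T, κ t = t := by
    intro t ht
    rw [hκ]
    show max 0 (min t T) = t
    rw [min_eq_left ht.2, max_eq_right ht.1]
  have hζ : Continuous (fun t => z (κ t)) := hzc.comp_continuous hκc hκm
  have hL : Continuous (fun t => mblkL M s (z (κ t))) := by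
    rw [← continuousOn_univ]
    exact mblkL_cont hζ.continuousOn fun t _ => (hz _ (hκm t)).1
  obtain ⟨y, hy0, hy⟩ := Pool.Agent.MP_5027f4_ell.exists_linear_ode hL p
  refine ⟨fun t => (y t).1, fun t => (y t).2, fun t ht => ?_, ?_, ?_⟩
  · have h1 := hy t
    rw [hκe t ht, mblkL_apply] at h1
    have h2 := (ContinuousLinearMap.fst ℝ ℂ ℂ).hasFDerivAt.comp_hasDerivAt t h1
    have h3 := (ContinuousLinearMap.snd ℝ ℂ ℂ).hasFDerivAt.comp_hasDerivAt t h1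
    exact ⟨h2.hasDerivWithinAt, h3.hasDerivWithinAt⟩
  · show (y 0).1 = p.1
    rw [hy0]
  · show (y 0).2 = p.2
    rw [hy0]

/-- The solution map is linear (uniqueness for the linear equation, e.g. Gronwall or
`ODE_solution_unique_of_mem_Icc`). -/
theorem exists_mono {M s : ℝ} (hT : 0 ≤ T) (hz : KSol M T z z1) (u : ℂ) :
    ∃ B : (ℂ × ℂ) →L[ℝ] (ℂ × ℂ), IsMono M s T z u B := by
  choose b b1 hb hb0 hb1 using fun p : ℂ × ℂ => exists_lsol (s := s) hT hz p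
  have hadd : ∀ {c c1 c' c1' : ℝ → ℂ}, LSol M s T z c c1 → LSol M s T z c' c1' →
      LSol M s T z (fun t => c t + c' t) (fun t => c1 t + c1' t) := by
    intro c c1 c' c1' h h' t ht
    refine ⟨(h t ht).1.add (h' t ht).1, ?_⟩
    have h1 := (h t ht).2.add (h' t ht).2
    refine h1.congr_deriv ?_
    unfold LN
    rw [map_add]
    ring
  have hsm : ∀ (r : ℝ) {c c1 : ℝ → ℂ}, LSol M s T z c c1 →
      LSol M s T z (fun t => (r : ℂ) * c t) (fun t => (r : ℂ) * c1 t) := by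
    intro r c c1 h t ht
    refine ⟨(h t ht).1.const_mul (r : ℂ), ?_⟩
    have h1 := (h t ht).2.const_mul (r : ℂ)
    refine h1.congr_deriv ?_
    unfold LN
    rw [map_mul, Complex.conj_ofReal]
    ring
  obtain ⟨f, hf⟩ : ∃ f : (ℂ × ℂ) →ₗ[ℝ] (ℂ × ℂ), ∀ p, f p = (u⁻¹ * b p T, u⁻¹ * b1 p T) := by
    refine ⟨{ toFun := fun p => (u⁻¹ * b p T, u⁻¹ * b1 p T), map_add' := ?_, map_smul' := ?_ },
      fun _ => rfl⟩
    · intro p q
      have h1 := mblk_unique hT hz (hb (p + q)) (hadd (hb p) (hb q))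
        (by show b (p + q) 0 = b p 0 + b q 0; rw [hb0, hb0, hb0]; rfl)
        (by show b1 (p + q) 0 = b1 p 0 + b1 q 0; rw [hb1, hb1, hb1]; rfl)
      refine Prod.ext ?_ ?_
      · show u⁻¹ * b (p + q) T = u⁻¹ * b p T + u⁻¹ * b q T
        rw [h1.1]
        ring
      · show u⁻¹ * b1 (p + q) T = u⁻¹ * b1 p T + u⁻¹ * b1 q T
        rw [h1.2]
        ring
    · intro r p
      have h1 := mblk_unique hT hz (hb (r • p)) (hsm r (hb p))
        (by
          show b (r • p) 0 = (r : ℂ) * b p 0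
          rw [hb0, hb0]
          exact Complex.real_smul)
        (by
          show b1 (r • p) 0 = (r : ℂ) * b1 p 0
          rw [hb1, hb1]
          exact Complex.real_smul)
      refine Prod.ext ?_ ?_
      · show u⁻¹ * b (r • p) T = r • (u⁻¹ * b p T)
        rw [h1.1, Complex.real_smul]
        ring
      · show u⁻¹ * b1 (r • p) T = r • (u⁻¹ * b1 p T)
        rw [h1.2, Complex.real_smul]
        ring
  refine ⟨LinearMap.toContinuousLinearMap f, fun c c1 hc => ?_⟩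
  show f (c 0, c1 0) = _
  rw [hf]
  have h1 := mblk_unique hT hz (hb (c 0, c1 0)) hc (hb0 _) (hb1 _)
  rw [h1.1, h1.2]

/-- Proof.  `x t = e ((z t, z1 t), 0)` is a classical solution by `fld_co`; for solutions `a, a1` of
`LSol (Mt m) 1` and `b, b1` of `LSol (Mt m) (sm m)` the curve `J t = e ((a t, a1 t), (b t, b1 t))` is a
Jacobi field by `fderiv_fld_co` (and `coe_fderiv_fld₀`), so `CMap.jacobi` gives the result for
`p = ((a 0, a1 0), (b 0, b1 0))` (multiply by `u⁻¹`, `IsCo.smul`). -/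
theorem blk (hm : ∀ a, 0 < m a) (hϖ : ϖ ^ 2 + ϖ + 1 = 0) (hTr : Tri m ϖ S d)
    (he : IsCo m ϖ d e) (hT : 0 < T) {u : ℂ} (hz : KSol (Mt m) T z z1)
    {Ψ : comSub m → comSub m} (hΨ : CMap m T (e ((z 0, z1 0), 0)) Ψ)
    {A B : (ℂ × ℂ) →L[ℝ] (ℂ × ℂ)} (hA : IsMono (Mt m) 1 T z u A)
    (hB : IsMono (Mt m) (sm m) T z u B) (p : (ℂ × ℂ) × (ℂ × ℂ)) :
    fderiv ℝ (fun y => u⁻¹ • Ψ y) (e ((z 0, z1 0), 0)) (e p) = e (A p.1, B p.2) := by
  obtain ⟨a, a1, ha, ha0, ha1⟩ := exists_lsol (s := 1) hT.le hz p.1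
  obtain ⟨b, b1, hb, hb0, hb1⟩ := exists_lsol (s := sm m) hT.le hz p.2
  have hmem : ∀ q : comSub m, ∑ a, m a • (q : Ph).1 a = 0 ∧ ∑ a, m a • (q : Ph).2 a = 0 :=
    fun q => q.2
  -- the base solution
  have hx : Solves (fld m) (frame m) (Icc 0 T)
      (fun t => ((e ((z t, z1 t), 0) : comSub m) : Ph)) := by
    intro t ht
    refine ⟨⟨co_noColl hϖ he (hz t ht).1, hmem _⟩, ?_⟩
    have h1 : HasDerivWithinAt (fun t => (((z t, z1 t), 0) : (ℂ × ℂ) × (ℂ × ℂ)))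
        ((z1 t, -(Mt m : ℂ) * z t / ((‖z t‖ ^ 3 : ℝ) : ℂ)), 0) (Icc 0 T) t :=
      ((hz t ht).2.1.prodMk (hz t ht).2.2).prodMk (hasDerivWithinAt_const _ _ _)
    have h2 := ((incl m).comp (e : ((ℂ × ℂ) × (ℂ × ℂ)) →L[ℝ] comSub m)).hasFDerivAt
      |>.comp_hasDerivWithinAt t h1
    have h3 := fld_co hm hϖ hTr he (z := z t) (z1 := z1 t) (hz t ht).1
    have h4 : fld m ((e ((z t, z1 t), 0) : comSub m) : Ph) =
        ((e ((z1 t, -(Mt m : ℂ) * z t / ((‖z t‖ ^ 3 : ℝ) : ℂ)), 0) : comSub m) : Ph) :=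
      congrArg (fun q : comSub m => (q : Ph)) h3
    rw [h4]
    exact h2
  -- the Jacobi field
  have hJ : IsJacobi m (fun t => ((e ((z t, z1 t), 0) : comSub m) : Ph)) T
      (fun t => ((e ((a t, a1 t), (b t, b1 t)) : comSub m) : Ph)) := by
    intro t ht
    refine ⟨(hmem _).1, (hmem _).2, ?_⟩
    have h1 : HasDerivWithinAt (fun t => (((a t, a1 t), (b t, b1 t)) : (ℂ × ℂ) × (ℂ × ℂ)))
        ((a1 t, LN (Mt m) 1 (z t) (a t)), (b1 t, LN (Mt m) (sm m) (z t) (b t))) (Icc 0 T) t :=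
      ((ha t ht).1.prodMk (ha t ht).2).prodMk ((hb t ht).1.prodMk (hb t ht).2)
    have h2 := ((incl m).comp (e : ((ℂ × ℂ) × (ℂ × ℂ)) →L[ℝ] comSub m)).hasFDerivAt
      |>.comp_hasDerivWithinAt t h1
    have h3 := fderiv_fld_co hm hϖ hTr he (z := z t) (z1 := z1 t) (hz t ht).1 (a t) (a1 t)
      (b t) (b1 t)
    have h4 := coe_fderiv_fld₀ (co_noColl hϖ he (z := z t) (z1 := z1 t) (hz t ht).1)
      (e ((a t, a1 t), (b t, b1 t)))
    rw [h3] at h4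
    have h5 : fderiv ℝ (fun z : (Fin 3 → ℂ) × (Fin 3 → ℂ) => (z.2, acc m z.1))
        ((e ((z t, z1 t), 0) : comSub m) : Ph)
        ((e ((a t, a1 t), (b t, b1 t)) : comSub m) : Ph) =
        ((e ((a1 t, LN (Mt m) 1 (z t) (a t)), (b1 t, LN (Mt m) (sm m) (z t) (b t))) :
          comSub m) : Ph) := h4.symm
    rw [h5]
    exact h2
  have hj := CMap.jacobi hT hΨ hx rfl hJ (e ((a 0, a1 0), (b 0, b1 0))).2
  have hp : p = ((a 0, a1 0), (b 0, b1 0)) := by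
    rw [ha0, ha1, hb0, hb1]
  have hj' : fderiv ℝ Ψ (e ((z 0, z1 0), 0)) (e p) = e ((a T, a1 T), (b T, b1 T)) := by
    refine Subtype.ext ?_
    rw [hp]
    exact hj
  have hd : HasFDerivAt (fun y => u⁻¹ • Ψ y) (u⁻¹ • fderiv ℝ Ψ (e ((z 0, z1 0), 0)))
      (e ((z 0, z1 0), 0)) := (hΨ.an.differentiableAt.hasFDerivAt).const_smul u⁻¹
  rw [hd.fderiv]
  show u⁻¹ • (fderiv ℝ Ψ (e ((z 0, z1 0), 0)) (e p)) = _
  rw [hj', ← he.smul]
  have hA' := hA a a1 ha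
  have hB' := hB b b1 hb
  rw [ha0, ha1] at hA'
  rw [hb0, hb1] at hB'
  have hA2 : A p.1 = (u⁻¹ * a T, u⁻¹ * a1 T) := hA'
  have hB2 : B p.2 = (u⁻¹ * b T, u⁻¹ * b1 T) := hB'
  rw [hA2, hB2]
  rfl

end Pool.Agent.MP_5027f4_cont
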