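import Pool.Agent.Lib_MP_5027f4_cont.MDefs
import Pool.Agent.Lib_MP_5027f4_cont.LinNFa

/-!
PIECE [MCir] (MP_5027f4_mp, T2).  The homographic block at circular orbits.
-/

open Set Filter Topology Metric Polynomial
open scoped ComplexConjugate ContDiff
open Pool.Agent.MP_5027f4_mp
open Pool.Agent.MP_5027f4_ell (Tri Shape cc coord Mt sg sm Nn Gz epsf kapf vf Bs IsFund IsCofund Mat)

namespace Pool.Agent.MP_5027f4_cont

/-- the explicit solutions of the homographic block along a circular orbit -/
private theorem mcir_sol {M T μ : ℝ} {z₀ : ℂ} (hz : z₀ ≠ 0) (hμ : μ ^ 2 * ‖z₀‖ ^ 3 = M)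
    (a β : ℝ) (α : ℂ) :
    LSol M 1 T (fun t => z₀ * Complex.exp ((μ * t : ℝ) * Complex.I))
      (fun t => z₀ * Complex.exp ((μ * t : ℝ) * Complex.I) *
        (a * Complex.I + β * (1 - 3 / 2 * Complex.I * μ * t) +
          α * Complex.exp ((μ * t : ℝ) * Complex.I) -
          3 * conj α * Complex.exp (-((μ * t : ℝ) * Complex.I))))
      (fun t => z₀ * Complex.exp ((μ * t : ℝ) * Complex.I) *
        (Complex.I * μ * (a * Complex.I + β * (1 - 3 / 2 * Complex.I * μ * t) +
          α * Complex.exp ((μ * t : ℝ) * Complex.I) -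
          3 * conj α * Complex.exp (-((μ * t : ℝ) * Complex.I))) +
          (-(3 / 2) * β * Complex.I * μ +
            Complex.I * μ * α * Complex.exp ((μ * t : ℝ) * Complex.I) +
            3 * Complex.I * μ * conj α * Complex.exp (-((μ * t : ℝ) * Complex.I))))) := by
  intro t _
  set E : ℝ → ℂ := fun t => Complex.exp ((μ * t : ℝ) * Complex.I) with hE
  set F : ℝ → ℂ := fun t => Complex.exp (-((μ * t : ℝ) * Complex.I)) with hF
  have hid : HasDerivAt (fun t : ℝ => ((μ * t : ℝ) : ℂ) * Complex.I) (μ * Complex.I) t := by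
    have h1 : HasDerivAt (fun t : ℝ => μ * t) μ t := by
      simpa using (hasDerivAt_id t).const_mul μ
    exact h1.ofReal_comp.mul_const _
  have dE : HasDerivAt E (Complex.I * μ * E t) t := by
    have h1 := hid.cexp
    convert h1 using 1
    simp only [hE]; ring
  have dF : HasDerivAt F (-(Complex.I * μ) * F t) t := by
    have h1 := hid.fun_neg.cexp
    convert h1 using 1
    simp only [hF]; ring
  have dt : HasDerivAt (fun t : ℝ => (t : ℂ)) 1 t := by
    simpa using (hasDerivAt_id t).ofReal_comp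
  set ζ : ℝ → ℂ := fun t => a * Complex.I + β * (1 - 3 / 2 * Complex.I * μ * t) + α * E t -
    3 * conj α * F t with hζ
  set ζ1 : ℝ → ℂ := fun t => -(3 / 2) * β * Complex.I * μ + Complex.I * μ * α * E t +
    3 * Complex.I * μ * conj α * F t with hζ1
  have dζ : HasDerivAt ζ (ζ1 t) t := by
    have h1 := (((dt.const_mul (3 / 2 * Complex.I * μ)).const_sub 1).const_mul (β : ℂ)).const_add
      (a * Complex.I)
    have h2 := (h1.fun_add (dE.const_mul α)).fun_sub (dF.const_mul (3 * conj α))
    refine HasDerivAt.congr_deriv h2 ?_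
    show _ = -(3 / 2) * β * Complex.I * μ + Complex.I * μ * α * E t +
      3 * Complex.I * μ * conj α * F t
    ring
  have dζ1 : HasDerivAt ζ1 (-((μ : ℂ) ^ 2) * α * E t + 3 * (μ : ℂ) ^ 2 * conj α * F t) t := by
    have h2 := ((dE.const_mul (Complex.I * μ * α)).const_add (-(3 / 2) * β * Complex.I * μ)).fun_add
      (dF.const_mul (3 * Complex.I * μ * conj α))
    refine HasDerivAt.congr_deriv h2 ?_
    linear_combination ((α * E t * (μ : ℂ) ^ 2) - 3 * conj α * F t * (μ : ℂ) ^ 2) * Complex.I_sq
  constructor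
  · have h3 := ((dE.const_mul z₀).fun_mul dζ)
    refine HasDerivAt.hasDerivWithinAt ?_
    refine HasDerivAt.congr_deriv h3 ?_
    show _ = z₀ * E t * (Complex.I * μ * ζ t + ζ1 t)
    ring
  · have h3 := ((dE.const_mul z₀).fun_mul ((dζ.const_mul (Complex.I * μ)).fun_add dζ1))
    refine HasDerivAt.hasDerivWithinAt ?_
    refine HasDerivAt.congr_deriv h3 ?_
    have hEF : E t * F t = 1 := by
      simp only [hE, hF]
      rw [← Complex.exp_add, add_neg_cancel, Complex.exp_zero]
    have hE0 : E t ≠ 0 := Complex.exp_ne_zero _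
    have hF0 : F t ≠ 0 := Complex.exp_ne_zero _
    have cE : conj (E t) = F t := by
      simp only [hE, hF]
      rw [← Complex.exp_conj]
      congr 1
      rw [map_mul, Complex.conj_ofReal, Complex.conj_I]
      ring
    have cF : conj (F t) = E t := by
      rw [← cE, Complex.conj_conj]
    have nE : ‖z₀ * E t‖ = ‖z₀‖ := by
      rw [norm_mul]
      simp only [hE]
      rw [Complex.norm_exp_ofReal_mul_I, mul_one]
    have hn : ‖z₀‖ ≠ 0 := norm_ne_zero_iff.2 hz
    have hq : M / ‖z₀‖ ^ 3 = μ ^ 2 := by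
      rw [← hμ]
      field_simp
    have cz0 : conj z₀ ≠ 0 := by
      intro h
      exact hz ((map_eq_zero _).1 h)
    have hcζ : conj (ζ t) = -(a * Complex.I) + β * (1 + 3 / 2 * Complex.I * μ * t) +
        conj α * F t - 3 * α * E t := by
      simp only [hζ, map_sub, map_add, map_mul, cE, cF, Complex.conj_ofReal, Complex.conj_I,
        Complex.conj_conj, map_one, map_div₀]
      have e3 : conj (3 : ℂ) = 3 := Complex.conj_ofNat 3
      have e2 : conj (2 : ℂ) = 2 := Complex.conj_ofNat 2
      rw [e3, e2]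
      ring
    have hLN : LN M 1 (z₀ * E t) (z₀ * E t * ζ t) =
        μ ^ 2 * (z₀ * E t) * (ζ t / 2 + 3 / 2 * conj (ζ t)) := by
      unfold LN
      rw [nE, hq]
      have e1 : z₀ * E t / conj (z₀ * E t) * conj (z₀ * E t * ζ t) = z₀ * E t * conj (ζ t) := by
        rw [map_mul (starRingEnd ℂ) (z₀ * E t) (ζ t)]
        have : conj (z₀ * E t) ≠ 0 := by
          rw [map_mul, cE]
          exact mul_ne_zero cz0 hF0
        field_simp
      rw [e1]
      push_cast
      ring
    refine Eq.trans ?_ hLN.symm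
    rw [hcζ]
    simp only [hζ, hζ1]
    linear_combination (z₀ * E t * ((μ : ℂ) ^ 2 * ((a * Complex.I +
      β * (1 - 3 / 2 * Complex.I * μ * t) + α * E t - 3 * conj α * F t) -
      3 * β + 2 * α * E t + 6 * conj α * F t))) * Complex.I_sq

/-- Proof.  Put `z t = z₀ exp (i μ t)`, `a = z ζ`; `a'' = LN M 1 z a` is equivalent to
`ζ'' + 2 i μ ζ' = 3 μ² Re ζ` (`M / |z₀|³ = μ²`).  Solutions: `ζ = i`; `ζ = 1 - (3 / 2) i μ t`;
`ζ = α exp (i μ t) - 3 conj α exp (- i μ t)` (`α ∈ ℂ`).  The corresponding `(a 0, a1 0)` with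
`a1 = z1 ζ + z ζ'`, i.e. `(ζ 0, ζ' 0)` = `(i, 0)`, `(1, - (3 / 2) i μ)`, `(- 2, 4 i μ)`, `(4 i, 2 μ)`,
form a real basis.  `A` maps the vector of `α` to the vector of `α u`: so `u` is an eigenvalue
(`root_of_plane` with `x` = vector of `1`, `y` = vector of `i` up to sign).  If `u = 1`, then `A` fixes
the vectors of `ζ = i` and of all `α`, and maps the vector of `1 - (3 / 2) i μ t` to itself minus
`(3 / 2) μ T` times the vector of `i`; so `(A - 1)² = 0` and `cp A = (X - 1)⁴`
(`LinearMap.charpoly_eq_X_pow_iff` for `A - 1` and translation of the variable, or via the matrix). -/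
theorem circ_hom {M T μ : ℝ} {z₀ u : ℂ} (hM : 0 < M) (hT : 0 < T) (hμ : μ ^ 2 * ‖z₀‖ ^ 3 = M)
    (hu : u = Complex.exp ((μ * T : ℝ) * Complex.I)) {A : (ℂ × ℂ) →L[ℝ] (ℂ × ℂ)}
    (hA : IsMono M 1 T (fun t => z₀ * Complex.exp ((μ * t : ℝ) * Complex.I)) u A) :
    ((cp A).map (algebraMap ℝ ℂ)).eval u = 0 ∧ (u = 1 → cp A = (X - 1) ^ 4) := by
  have hz : z₀ ≠ 0 := by
    rintro rfl
    simp at hμ
    exact absurd hμ.symm hM.ne'
  have hμ0 : μ ≠ 0 := by
    rintro rfl
    simp at hμ
    exact absurd hμ.symm hM.ne'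
  have hu0 : u ≠ 0 := by rw [hu]; exact Complex.exp_ne_zero _
  have hcu : Complex.exp (-((μ * T : ℝ) * Complex.I)) = conj u := by
    rw [hu, ← Complex.exp_conj]
    congr 1
    rw [map_mul, Complex.conj_ofReal, Complex.conj_I]
    ring
  -- the map
  set V : ℂ → ℂ → ℂ × ℂ := fun p q => (z₀ * p, z₀ * (Complex.I * μ * p + q)) with hV
  have key : ∀ (a β : ℝ) (α : ℂ),
      A (V (a * Complex.I + β + α - 3 * conj α)
        (-(3 / 2) * β * Complex.I * μ + Complex.I * μ * α + 3 * Complex.I * μ * conj α)) =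
      V (a * Complex.I + β * (1 - 3 / 2 * Complex.I * μ * T) + α * u - 3 * conj (α * u))
        (-(3 / 2) * β * Complex.I * μ + Complex.I * μ * (α * u) +
          3 * Complex.I * μ * conj (α * u)) := by
    intro a β α
    have h := hA _ _ (mcir_sol (T := T) hz hμ a β α)
    simp only [hcu, ← hu] at h
    have h0 : Complex.exp ((μ * 0 : ℝ) * Complex.I) = 1 := by simp
    have h0' : Complex.exp (-((μ * 0 : ℝ) * Complex.I)) = 1 := by simp
    rw [h0, h0'] at h
    have e1 : (z₀ * 1 * (a * Complex.I + β * (1 - 3 / 2 * Complex.I * μ * (0 : ℝ)) + α * 1 -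
        3 * conj α * 1), z₀ * 1 * (Complex.I * μ * (a * Complex.I + β * (1 - 3 / 2 * Complex.I * μ *
          (0 : ℝ)) + α * 1 - 3 * conj α * 1) + (-(3 / 2) * β * Complex.I * μ +
            Complex.I * μ * α * 1 + 3 * Complex.I * μ * conj α * 1))) =
        V (a * Complex.I + β + α - 3 * conj α)
        (-(3 / 2) * β * Complex.I * μ + Complex.I * μ * α + 3 * Complex.I * μ * conj α) := by
      simp only [hV]
      push_cast
      refine Prod.ext ?_ ?_
      · simp only; ring
      · simp only; ring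
    rw [e1] at h
    rw [h]
    simp only [hV, map_mul]
    refine Prod.ext ?_ ?_
    · simp only
      field_simp
    · simp only
      field_simp
  refine ⟨?_, ?_⟩
  · -- the eigenvalue
    have hw : ∀ α : ℂ, V (α - 3 * conj α) (Complex.I * μ * α + 3 * Complex.I * μ * conj α) =
        α.re • V (-2) (4 * (Complex.I * μ)) + α.im • V (4 * Complex.I) (2 * μ) := by
      intro α
      simp only [hV]
      have hα : α = α.re + α.im * Complex.I := (Complex.re_add_im α).symm
      have hα' : conj α = α.re - α.im * Complex.I := by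
        apply Complex.ext <;> simp
      refine Prod.ext ?_ ?_
      · simp only [Prod.fst_add, Prod.smul_fst, Complex.real_smul]
        linear_combination z₀ * hα - 3 * z₀ * hα'
      · simp only [Prod.snd_add, Prod.smul_snd, Complex.real_smul]
        linear_combination (2 * z₀ * Complex.I * μ) * hα - 2 * μ * α.im * z₀ * Complex.I_sq
    have hAw : ∀ α : ℂ, A (α.re • V (-2) (4 * (Complex.I * μ)) + α.im • V (4 * Complex.I) (2 * μ)) =
        (α * u).re • V (-2) (4 * (Complex.I * μ)) + (α * u).im • V (4 * Complex.I) (2 * μ) := by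
      intro α
      rw [← hw, ← hw]
      have h := key 0 0 α
      simp only [Complex.ofReal_zero, zero_mul, mul_zero, zero_add] at h
      exact h
    have h1 := hAw 1
    have h2 := hAw Complex.I
    simp only [Complex.one_re, Complex.one_im, Complex.I_re, Complex.I_im, one_smul, zero_smul,
      add_zero, zero_add, one_mul, Complex.mul_re, Complex.mul_im, zero_mul, zero_sub] at h1 h2
    refine root_of_plane A (x := V (-2) (4 * (Complex.I * μ))) (y := -V (4 * Complex.I) (2 * μ))
      (Or.inl ?_) ?_ ?_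
    · intro h
      have h3 := congrArg Prod.fst h
      simp only [hV, Prod.fst_zero] at h3
      exact hz (by simpa using h3)
    · rw [h1]
      module
    · rw [map_neg, h2]
      module
  · intro hu1
    subst hu1
    have hA1 : ∀ v : ℂ × ℂ, ∃ c : ℝ, A v = v + c • V Complex.I 0 := by
      intro v
      set ζ₀ : ℂ := v.1 / z₀ with hζ₀
      set ζ₁ : ℂ := v.2 / z₀ - Complex.I * μ * ζ₀ with hζ₁
      set s : ℝ := ζ₁.re / (2 * μ) with hs
      set r : ℝ := ζ₁.im / μ + 3 / 2 * ζ₀.re with hr
      have h := key (ζ₀.im - 4 * s) (ζ₀.re + 2 * r) (r + s * Complex.I)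
      have hc : conj ((r : ℂ) + s * Complex.I) = r - s * Complex.I := by
        apply Complex.ext <;> simp
      have hμc : (μ : ℂ) ≠ 0 := by exact_mod_cast hμ0
      have e0 : (ζ₀.re : ℂ) + ζ₀.im * Complex.I = ζ₀ := Complex.re_add_im ζ₀
      have e1 : (ζ₁.re : ℂ) + ζ₁.im * Complex.I = ζ₁ := Complex.re_add_im ζ₁
      have es : (2 : ℂ) * μ * s = ζ₁.re := by
        rw [hs]; push_cast; field_simp
      have er : (μ : ℂ) * r = ζ₁.im + 3 / 2 * μ * ζ₀.re := by
        rw [hr]; push_cast; field_simp
      have hp : ((ζ₀.im - 4 * s : ℝ) : ℂ) * Complex.I + ((ζ₀.re + 2 * r : ℝ) : ℂ) +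
          (r + s * Complex.I) - 3 * conj ((r : ℂ) + s * Complex.I) = ζ₀ := by
        rw [hc]; push_cast; linear_combination e0
      have hq : -(3 / 2) * ((ζ₀.re + 2 * r : ℝ) : ℂ) * Complex.I * μ +
          Complex.I * μ * (r + s * Complex.I) +
          3 * Complex.I * μ * conj ((r : ℂ) + s * Complex.I) = ζ₁ := by
        rw [hc]; push_cast
        linear_combination e1 + Complex.I * er + es - 2 * μ * s * Complex.I_sq
      have hVv : V ζ₀ ζ₁ = v := by
        simp only [hV, hζ₁, hζ₀]
        refine Prod.ext ?_ ?_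
        · simp only
          field_simp
        · simp only
          field_simp
          ring
      rw [mul_one, hp, hq, hVv] at h
      refine ⟨-(3 / 2) * μ * T * (ζ₀.re + 2 * r), ?_⟩
      rw [h, ← hVv]
      simp only [hV]
      refine Prod.ext ?_ ?_
      · simp only [Prod.fst_add, Prod.smul_fst, Complex.real_smul]
        push_cast at hp ⊢
        linear_combination z₀ * hp
      · simp only [Prod.snd_add, Prod.smul_snd, Complex.real_smul]
        push_cast at hp ⊢
        linear_combination z₀ * Complex.I * μ * hp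
    have hAe : A (V Complex.I 0) = V Complex.I 0 := by
      have h := key 1 0 0
      simp only [Complex.ofReal_one, Complex.ofReal_zero, one_mul, zero_mul, mul_zero, add_zero,
        sub_zero, map_zero] at h
      exact h
    set N : Module.End ℝ (ℂ × ℂ) := (A : (ℂ × ℂ) →ₗ[ℝ] (ℂ × ℂ)) - 1 with hN
    have hN2 : ∀ v, (N ^ 2) v = 0 := by
      intro v
      obtain ⟨c, hc⟩ := hA1 v
      have h1 : N v = c • V Complex.I 0 := by
        rw [hN, LinearMap.sub_apply, ContinuousLinearMap.coe_coe, hc]
        simp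
      have h2 : N (V Complex.I 0) = 0 := by
        rw [hN, LinearMap.sub_apply, ContinuousLinearMap.coe_coe, hAe]
        simp
      rw [pow_two, Module.End.mul_apply, h1, map_smul, h2, smul_zero]
    have hch : N.charpoly = X ^ 4 := by
      have h1 := (LinearMap.charpoly_eq_X_pow_iff N).2 fun v => ⟨2, hN2 v⟩
      have h2 : Module.finrank ℝ (ℂ × ℂ) = 4 := by
        rw [Module.finrank_prod, Complex.finrank_real_complex]
      rwa [h2] at h1
    have h3 : (A : (ℂ × ℂ) →ₗ[ℝ] (ℂ × ℂ)) = N - (-1 : ℝ) • (1 : Module.End ℝ (ℂ × ℂ)) := by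
      refine LinearMap.ext fun v => ?_
      rw [hN, LinearMap.sub_apply, LinearMap.sub_apply, LinearMap.smul_apply,
        Module.End.one_apply]
      module
    unfold cp
    rw [h3, LinearMap.charpoly_sub_smul, hch]
    simp [sub_eq_add_neg]

end Pool.Agent.MP_5027f4_cont
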