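import Pool.Agent.Lib_MP_5027f4_cont.MDefs

/-!
PIECE [MCo] (MP_5027f4_mp, T2).  Coordinates adapted to the homographic solutions.
-/

open Set Filter Topology Metric Polynomial
open scoped ComplexConjugate ContDiff
open Pool.Agent.MP_5027f4_mp
open Pool.Agent.MP_5027f4_ell (Tri Shape cc coord Mt sg sm Nn Gz epsf kapf vf Bs IsFund IsCofund Mat)

namespace Pool.Agent.MP_5027f4_cont

variable {m : Fin 3 → ℝ} {ϖ : ℂ} {S : Shape} {d : Fin 3 → ℂ}
  {e : ((ℂ × ℂ) × (ℂ × ℂ)) ≃L[ℝ] comSub m}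

/-- Proof.  The linear map `p ↦ (c p.1.1 + d p.2.1, c p.1.2 + d p.2.2)` has values in `comSub m`
(`MP_5027f4_ell.coords_of`) and the inverse `(q, v) ↦ ((coord c q, coord c v), (coord d q, coord d v))`
(`MP_5027f4_ell.coords_eq`, `coords_of`; `coord` is linear).  Everything is finite dimensional, so
`LinearEquiv.toContinuousLinearEquiv` applies (over `ℝ`). -/
theorem exists_co (hm : ∀ a, 0 < m a) (hT : Tri m ϖ S d) :
    ∃ e : ((ℂ × ℂ) × (ℂ × ℂ)) ≃L[ℝ] comSub m, IsCo m ϖ d e := by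
  have hfin : FiniteDimensional ℝ (comSub m) := Module.Finite.trans ℂ (comSub m)
  obtain ⟨f, hf⟩ : ∃ f : ((ℂ × ℂ) × (ℂ × ℂ)) →ₗ[ℝ] comSub m, ∀ p, ((f p : comSub m) : Ph) =
      (fun a => cc m ϖ a * p.1.1 + d a * p.2.1, fun a => cc m ϖ a * p.1.2 + d a * p.2.2) := by
    refine ⟨{ toFun := fun p => ⟨(fun a => cc m ϖ a * p.1.1 + d a * p.2.1,
                fun a => cc m ϖ a * p.1.2 + d a * p.2.2),
                (Pool.Agent.MP_5027f4_ell.coords_of hm hT p.1.1 p.2.1).2.2,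
                (Pool.Agent.MP_5027f4_ell.coords_of hm hT p.1.2 p.2.2).2.2⟩
              map_add' := ?_
              map_smul' := ?_ }, fun _ => rfl⟩
    · intro p q
      refine Subtype.ext (Prod.ext (funext fun a => ?_) (funext fun a => ?_))
      · show cc m ϖ a * (p.1.1 + q.1.1) + d a * (p.2.1 + q.2.1) =
          (cc m ϖ a * p.1.1 + d a * p.2.1) + (cc m ϖ a * q.1.1 + d a * q.2.1)
        ring
      · show cc m ϖ a * (p.1.2 + q.1.2) + d a * (p.2.2 + q.2.2) =
          (cc m ϖ a * p.1.2 + d a * p.2.2) + (cc m ϖ a * q.1.2 + d a * q.2.2)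
        ring
    · intro r p
      refine Subtype.ext (Prod.ext (funext fun a => ?_) (funext fun a => ?_))
      · show cc m ϖ a * (r • p.1.1) + d a * (r • p.2.1) =
          r • (cc m ϖ a * p.1.1 + d a * p.2.1)
        rw [Complex.real_smul, Complex.real_smul, Complex.real_smul]
        ring
      · show cc m ϖ a * (r • p.1.2) + d a * (r • p.2.2) =
          r • (cc m ϖ a * p.1.2 + d a * p.2.2)
        rw [Complex.real_smul, Complex.real_smul, Complex.real_smul]
        ring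
  have hinj : Function.Injective f := by
    intro p q hpq
    have h1 : ((f p : comSub m) : Ph) = ((f q : comSub m) : Ph) := by rw [hpq]
    rw [hf, hf] at h1
    have h2 := congrArg Prod.fst h1
    have h3 := congrArg Prod.snd h1
    have e1 := (Pool.Agent.MP_5027f4_ell.coords_of hm hT p.1.1 p.2.1).1
    have e2 := (Pool.Agent.MP_5027f4_ell.coords_of hm hT p.1.1 p.2.1).2.1
    have e3 := (Pool.Agent.MP_5027f4_ell.coords_of hm hT p.1.2 p.2.2).1
    have e4 := (Pool.Agent.MP_5027f4_ell.coords_of hm hT p.1.2 p.2.2).2.1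
    have g1 := (Pool.Agent.MP_5027f4_ell.coords_of hm hT q.1.1 q.2.1).1
    have g2 := (Pool.Agent.MP_5027f4_ell.coords_of hm hT q.1.1 q.2.1).2.1
    have g3 := (Pool.Agent.MP_5027f4_ell.coords_of hm hT q.1.2 q.2.2).1
    have g4 := (Pool.Agent.MP_5027f4_ell.coords_of hm hT q.1.2 q.2.2).2.1
    have h2' : (fun a => cc m ϖ a * p.1.1 + d a * p.2.1) =
      fun a => cc m ϖ a * q.1.1 + d a * q.2.1 := h2
    have h3' : (fun a => cc m ϖ a * p.1.2 + d a * p.2.2) =
      fun a => cc m ϖ a * q.1.2 + d a * q.2.2 := h3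
    rw [h2'] at e1 e2
    rw [h3'] at e3 e4
    exact Prod.ext (Prod.ext (e1.symm.trans g1) (e3.symm.trans g3))
      (Prod.ext (e2.symm.trans g2) (e4.symm.trans g4))
  have hsurj : Function.Surjective f := by
    intro q
    refine ⟨((coord m (cc m ϖ) (q : Ph).1, coord m (cc m ϖ) (q : Ph).2),
      (coord m d (q : Ph).1, coord m d (q : Ph).2)), Subtype.ext ?_⟩
    rw [hf]
    refine Prod.ext (funext fun a => ?_) (funext fun a => ?_)
    · exact (Pool.Agent.MP_5027f4_ell.coords_eq hm hT (q : Ph).1 q.2.1 a).symm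
    · exact (Pool.Agent.MP_5027f4_ell.coords_eq hm hT (q : Ph).2 q.2.2 a).symm
  refine ⟨(LinearEquiv.ofBijective f ⟨hinj, hsurj⟩).toContinuousLinearEquiv, fun p => ?_⟩
  exact hf p

theorem IsCo.smul (he : IsCo m ϖ d e) (u : ℂ) (p : (ℂ × ℂ) × (ℂ × ℂ)) : e (u • p) = u • e p := by
  refine Subtype.ext ?_
  rw [he (u • p), Submodule.coe_smul, he p]
  refine Prod.ext (funext fun a => ?_) (funext fun a => ?_)
  · show cc m ϖ a * (u * p.1.1) + d a * (u * p.2.1) = u * (cc m ϖ a * p.1.1 + d a * p.2.1)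
    ring
  · show cc m ϖ a * (u * p.1.2) + d a * (u * p.2.2) = u * (cc m ϖ a * p.1.2 + d a * p.2.2)
    ring

/-- Proof: `LinearEquiv.charpoly_conj` and `LinearMap.charpoly_prodMap`. -/
theorem cp_blk {E F G : Type*} [NormedAddCommGroup E] [NormedSpace ℝ E] [FiniteDimensional ℝ E]
    [NormedAddCommGroup F] [NormedSpace ℝ F] [FiniteDimensional ℝ F]
    [NormedAddCommGroup G] [NormedSpace ℝ G] [FiniteDimensional ℝ G] (e : (F × G) ≃L[ℝ] E)
    {D : E →L[ℝ] E} {A : F →L[ℝ] F} {B : G →L[ℝ] G}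
    (h : ∀ p, D (e p) = e (A p.1, B p.2)) : cp D = cp A * cp B := by
  have h1 : ((D : E →L[ℝ] E) : E →ₗ[ℝ] E) = (e.toLinearEquiv).conj
      (LinearMap.prodMap (A : F →ₗ[ℝ] F) (B : G →ₗ[ℝ] G)) := by
    refine LinearMap.ext fun x => ?_
    rw [LinearEquiv.conj_apply_apply]
    have h2 := h (e.symm x)
    rw [e.apply_symm_apply] at h2
    exact h2
  unfold cp
  rw [h1, LinearEquiv.charpoly_conj, LinearMap.charpoly_prodMap]

end Pool.Agent.MP_5027f4_cont
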