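import Pool.Agent.Lib_MP_5027f4_cont.GDefs
import Pool.Agent.Lib_MP_5027f4_ell.TbB

/-!
# Homographic solutions and their normal linear dynamics: definitions

The coordinates `e ((z, z₁), (w, w₁)) = (c z + d w, c z₁ + d w₁)` of the center-of-mass phase space,
where `c` is the unit equilateral triangle and `d` the second mode (`Tri`).
-/

open Set Filter Topology Metric Polynomial
open scoped ComplexConjugate ContDiff
open Pool.Agent.MP_5027f4_mp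
open Pool.Agent.MP_5027f4_ell (Tri Shape cc coord Mt sg sm Nn Gz epsf kapf vf Bs IsFund Mat)

namespace Pool.Agent.MP_5027f4_cont

/-- `e` is the coordinate map attached to the triangle `cc m ϖ` and to the second mode `d` -/
def IsCo (m : Fin 3 → ℝ) (ϖ : ℂ) (d : Fin 3 → ℂ)
    (e : ((ℂ × ℂ) × (ℂ × ℂ)) ≃L[ℝ] comSub m) : Prop :=
  ∀ p, ((e p : comSub m) : Ph) = (fun a => cc m ϖ a * p.1.1 + d a * p.2.1,
    fun a => cc m ϖ a * p.1.2 + d a * p.2.2)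

/-- The linearized force: along the homographic solution `z` the homographic mode satisfies
`a'' = LN M 1 z a`, the normal mode `b'' = LN M s z b`. -/
noncomputable def LN (M s : ℝ) (z b : ℂ) : ℂ :=
  ((M / ‖z‖ ^ 3 : ℝ) : ℂ) * (b / 2 + ((3 / 2 * s : ℝ) : ℂ) * (z / conj z * conj b))

/-- `z' = z1`, `z1' = - M z / |z|³` on `[0, T]` -/
def KSol (M T : ℝ) (z z1 : ℝ → ℂ) : Prop :=
  ∀ t ∈ Icc 0 T, z t ≠ 0 ∧ HasDerivWithinAt z (z1 t) (Icc 0 T) t ∧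
    HasDerivWithinAt z1 (-(M : ℂ) * z t / ((‖z t‖ ^ 3 : ℝ) : ℂ)) (Icc 0 T) t

/-- `b' = b1`, `b1' = LN M s z b` on `[0, T]` -/
def LSol (M s T : ℝ) (z b b1 : ℝ → ℂ) : Prop :=
  ∀ t ∈ Icc 0 T, HasDerivWithinAt b (b1 t) (Icc 0 T) t ∧
    HasDerivWithinAt b1 (LN M s (z t) (b t)) (Icc 0 T) t

/-- `B` is the monodromy (modulo the rotation `u`) of the equation `b'' = LN M s z b` -/
def IsMono (M s T : ℝ) (z : ℝ → ℂ) (u : ℂ) (B : (ℂ × ℂ) →L[ℝ] (ℂ × ℂ)) : Prop :=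
  ∀ b b1, LSol M s T z b b1 → B (b 0, b1 0) = (u⁻¹ * b T, u⁻¹ * b1 T)

/-- `Ψ` is, near `y₀`, the time `T` map of the classical flow -/
structure CMap (m : Fin 3 → ℝ) (T : ℝ) (y₀ : comSub m) (Ψ : comSub m → comSub m) : Prop where
  an : AnalyticAt ℝ Ψ y₀
  cl : ∀ᶠ y : comSub m in 𝓝 y₀, ∃ x : ℝ → Ph, Solves (fld m) (frame m) (Icc 0 T) x ∧
    x 0 = (y : Ph) ∧
    x T = ((Ψ y : comSub m) : Ph)

end Pool.Agent.MP_5027f4_cont
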