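import Pool.Agent.Lib_MP_5027f4_cont.MFld
import Pool.Agent.Lib_MP_5027f4_ell.TbE

/-!
PIECE [MEn] (MP_5027f4_mp, T2).  Energy, angular momentum and relative equilibria in coordinates.
-/

open Set Filter Topology Metric Polynomial
open scoped ComplexConjugate ContDiff
open Pool.Agent.MP_5027f4_mp
open Pool.Agent.MP_5027f4_ell (Tri Shape cc coord Mt sg sm Nn Gz epsf kapf vf Bs IsFund IsCofund Mat)

namespace Pool.Agent.MP_5027f4_cont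

variable {m : Fin 3 → ℝ} {ϖ : ℂ} {S : Shape} {d : Fin 3 → ℂ}
  {e : ((ℂ × ℂ) × (ℂ × ℂ)) ≃L[ℝ] comSub m}

/-- Proof.  `Σ m_a |c_a|² = Nn m` (`Tri.nc`), the sides of `c z` have length `|z|`
(`MP_5027f4_ell.cc_diff`, `norm_omega`) and `sg m = Nn m * Mt m`. -/
theorem muE_co (hm : ∀ a, 0 < m a) (hϖ : ϖ ^ 2 + ϖ + 1 = 0) (hTr : Tri m ϖ S d)
    (he : IsCo m ϖ d e) {z z1 : ℂ} (hz : z ≠ 0) :
    muE m (e ((z, z1), 0)) = (Nn m * (‖z1‖ ^ 2 / 2 - Mt m / ‖z‖), Nn m * Gz z z1) := by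
  have hco := he ((z, z1), 0)
  simp only [Prod.fst_zero, Prod.snd_zero, mul_zero, add_zero] at hco
  have hnc : m 0 * ‖cc m ϖ 0‖ ^ 2 + m 1 * ‖cc m ϖ 1‖ ^ 2 + m 2 * ‖cc m ϖ 2‖ ^ 2 = Nn m := by
    have h := hTr.nc
    rw [Fin.sum_univ_three] at h
    simp only [← Complex.normSq_eq_conj_mul_self, Complex.normSq_eq_norm_sq] at h
    exact_mod_cast h
  obtain ⟨hc0, hc1, hc2⟩ := MP_5027f4_ell.cc_diff m hϖ
  have hω := MP_5027f4_ell.norm_omega hϖ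
  have hM : Mt m ≠ 0 := (MP_5027f4_ell.Mt_pos hm).ne'
  have hsg : Nn m * Mt m = m 0 * m 1 + m 0 * m 2 + m 1 * m 2 := by
    rw [show Nn m = sg m / Mt m from rfl, div_mul_cancel₀ _ hM]
    unfold sg
    ring
  have d01 : ‖cc m ϖ 1 * z - cc m ϖ 0 * z‖ = ‖z‖ := by
    have : cc m ϖ 1 * z - cc m ϖ 0 * z = -z := by linear_combination -z * hc0
    rw [this, norm_neg]
  have d02 : ‖cc m ϖ 2 * z - cc m ϖ 0 * z‖ = ‖z‖ := by
    have : cc m ϖ 2 * z - cc m ϖ 0 * z = ϖ ^ 2 * z := by linear_combination z * hc2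
    rw [this, norm_mul, norm_pow, hω, one_pow, one_mul]
  have d12 : ‖cc m ϖ 2 * z - cc m ϖ 1 * z‖ = ‖z‖ := by
    have : cc m ϖ 2 * z - cc m ϖ 1 * z = -(ϖ * z) := by linear_combination -z * hc1
    rw [this, norm_neg, norm_mul, hω, one_mul]
  refine Prod.ext ?_ ?_
  · change energy m ((e ((z, z1), 0) : comSub m) : Ph) = _
    rw [energy_eq, hco]
    simp only [d01, d02, d12, norm_mul, mul_pow]
    rw [div_eq_mul_inv (Mt m) ‖z‖, mul_sub, ← mul_assoc (Nn m) (Mt m), hsg, ← hnc]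
    ring
  · change amom m ((e ((z, z1), 0) : comSub m) : Ph) = _
    rw [amom, hco, Fin.sum_univ_three]
    have key : ∀ c : ℂ, (conj (c * z) * (c * z1)).im = ‖c‖ ^ 2 * Gz z z1 := by
      intro c
      have h1 : conj (c * z) * (c * z1) = ((‖c‖ ^ 2 : ℝ) : ℂ) * (conj z * z1) := by
        rw [← Complex.normSq_eq_norm_sq, Complex.normSq_eq_conj_mul_self, map_mul]
        ring
      rw [h1, Complex.im_ofReal_mul]
      rfl
    simp only [key]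
    rw [← hnc]
    ring

/-- Proof.  `z₀ = q 0 - q 1`, `ϖ = (q 1 - q 2) / z₀`; `MP_5027f4_ell.tbE_root`, `tbE_coord`; and
`v = i Ω q` by `IsRE`. -/
theorem re_coord {Ω : ℝ} {y : comSub m} (h : IsRE m Ω y) (hm : ∀ a, 0 < m a) {r : ℝ} (hr : 0 < r)
    (heq : ∀ a b, a ≠ b → ‖(y : Ph).1 a - (y : Ph).1 b‖ = r) :
    ∃ ϖ z₀ : ℂ, ϖ ^ 2 + ϖ + 1 = 0 ∧ ‖z₀‖ = r ∧ ∀ a, (y : Ph).1 a = cc m ϖ a * z₀ ∧
      (y : Ph).2 a = cc m ϖ a * ((Ω : ℂ) * Complex.I * z₀) := by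
  have hn01 := heq 0 1 (by decide)
  have hn12 := heq 1 2 (by decide)
  have hn02 := heq 0 2 (by decide)
  have hz0 : (y : Ph).1 0 - (y : Ph).1 1 ≠ 0 := norm_pos_iff.1 (by rw [hn01]; exact hr)
  have hq : ∑ a, m a • (y : Ph).1 a = 0 := y.2.1
  set z₀ : ℂ := (y : Ph).1 0 - (y : Ph).1 1 with hz₀
  have hϖ : ((((y : Ph).1 1 - (y : Ph).1 2) / z₀) ^ 2 + ((y : Ph).1 1 - (y : Ph).1 2) / z₀ + 1)
      = 0 := by
    apply MP_5027f4_ell.tbE_root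
    · rw [norm_div, hn12, hn01, div_self hr.ne']
    · have h1 : 1 + ((y : Ph).1 1 - (y : Ph).1 2) / z₀ = ((y : Ph).1 0 - (y : Ph).1 2) / z₀ := by
        rw [eq_div_iff hz0, add_mul, div_mul_cancel₀ _ hz0, one_mul, hz₀]
        ring
      rw [h1, norm_div, hn02, hn01, div_self hr.ne']
  have h12 : (y : Ph).1 1 - (y : Ph).1 2 =
      (((y : Ph).1 1 - (y : Ph).1 2) / z₀) * ((y : Ph).1 0 - (y : Ph).1 1) := by
    rw [← hz₀, div_mul_cancel₀ _ hz0]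
  have hcoord := MP_5027f4_ell.tbE_coord hm hϖ hq h12
  refine ⟨((y : Ph).1 1 - (y : Ph).1 2) / z₀, z₀, hϖ, hn01, fun a => ⟨hcoord a, ?_⟩⟩
  have h2 : (y : Ph).2 a = ((Ω : ℂ) * Complex.I) * (y : Ph).1 a := by
    have h3 := congrArg (fun w : comSub m => (w : Ph).1 a) h.2
    exact h3
  rw [h2]
  conv_lhs => rw [hcoord a]
  ring

end Pool.Agent.MP_5027f4_cont
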