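import Pool.Agent.Lib_MP_5027f4_cont.MDefs

/-!
PIECE [MFin] (MP_5027f4_mp, T2).  Values of the monic divisors of a polynomial.
-/

open Set Filter Topology Metric Polynomial
open scoped ComplexConjugate ContDiff
open Pool.Agent.MP_5027f4_mp
open Pool.Agent.MP_5027f4_ell (Tri Shape cc coord Mt sg sm Nn Gz epsf kapf vf Bs IsFund IsCofund Mat)

namespace Pool.Agent.MP_5027f4_cont

/-- Proof.  Over `ℂ` the monic divisor `q` is the product of `X - C a` over its multiset of roots, which
is a sub-multiset of the roots of `χ` (`Polynomial.roots.le_of_dvd`); there are finitely many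
(`Multiset.powerset`, `Multiset.finite_toSet`), so `(q.eval 1 : ℂ)` has finitely many values. -/
theorem finite_eval {χ : ℝ[X]} (hχ : χ ≠ 0) :
    {c : ℝ | ∃ p q : ℝ[X], p * q = χ ∧ q.Monic ∧ q.eval 1 = c}.Finite := by
  classical
  let ι : ℝ →+* ℂ := algebraMap ℝ ℂ
  let T : Finset ℂ := (χ.map ι).roots.powerset.toFinset.image fun s => (s.map fun a => 1 - a).prod
  have hinj : Function.Injective ι := ι.injective
  have h0 : χ.map ι ≠ 0 := (Polynomial.map_ne_zero_iff hinj).2 hχ
  refine (T.finite_toSet.preimage hinj.injOn).subset ?_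
  rintro c ⟨p, q, hpq, hq, hc⟩
  have hdvd : q.map ι ∣ χ.map ι := by
    refine ⟨p.map ι, ?_⟩
    rw [← hpq, Polynomial.map_mul, mul_comm]
  have hle := Polynomial.roots.le_of_dvd h0 hdvd
  have hqm : (q.map ι).Monic := hq.map ι
  have hval : (q.map ι).eval 1 = ((q.map ι).roots.map fun a => 1 - a).prod :=
    Polynomial.Splits.eval_eq_prod_roots_of_monic (IsAlgClosed.splits (q.map ι)) hqm 1
  have hval2 : (q.map ι).eval 1 = ι c := by
    rw [← hc]
    have h1 := Polynomial.eval_map_apply (f := ι) (p := q) (1 : ℝ)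
    rw [map_one] at h1
    exact h1
  show ι c ∈ (T : Set ℂ)
  rw [Finset.mem_coe, Finset.mem_image]
  refine ⟨(q.map ι).roots, ?_, ?_⟩
  · rw [Multiset.mem_toFinset, Multiset.mem_powerset]
    exact hle
  · rw [← hval, hval2]

end Pool.Agent.MP_5027f4_cont
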