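import Pool.Agent.Lib_MP_5027f4_cont.MDefs

/-!
PIECE [MFix] (MP_5027f4_mp, T2).  Fixed points near a fixed point of an invariant subspace.
-/

open Set Filter Topology Metric Polynomial
open scoped ComplexConjugate ContDiff
open Pool.Agent.MP_5027f4_mp
open Pool.Agent.MP_5027f4_ell (Tri Shape cc coord Mt sg sm Nn Gz epsf kapf vf Bs IsFund IsCofund Mat)

namespace Pool.Agent.MP_5027f4_cont

theorem mfix_ker {W : Type*} [NormedAddCommGroup W] [NormedSpace ℝ W]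
    [FiniteDimensional ℝ W] {B : W →L[ℝ] W} (h1 : (cp B).eval 1 ≠ 0) {w : W} (hw : B w = w) :
    w = 0 := by
  by_contra h0
  apply h1
  have h2 : Module.End.HasEigenvalue (B : W →ₗ[ℝ] W) 1 := by
    rw [Module.End.hasEigenvalue_iff]
    intro hbot
    have : w ∈ Module.End.eigenspace (B : W →ₗ[ℝ] W) 1 := by
      rw [Module.End.mem_eigenspace_iff]
      simpa using hw
    rw [hbot] at this
    exact h0 (by simpa using this)
  have h3 := (Module.End.hasEigenvalue_iff_isRoot_charpoly (B : W →ₗ[ℝ] W) (1:ℝ)).1 h2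
  exact h3

theorem mfix_lower {W : Type*} [NormedAddCommGroup W] [NormedSpace ℝ W]
    [FiniteDimensional ℝ W] {B : W →L[ℝ] W} (h1 : (cp B).eval 1 ≠ 0) :
    ∃ c > 0, ∀ w, c * ‖w‖ ≤ ‖B w - w‖ := by
  have hker : LinearMap.ker ((B - ContinuousLinearMap.id ℝ W : W →L[ℝ] W) : W →ₗ[ℝ] W) = ⊥ := by
    rw [LinearMap.ker_eq_bot']
    intro w hw
    apply mfix_ker h1
    have : B w - w = 0 := hw
    exact sub_eq_zero.1 this
  obtain ⟨K, hK, hanti⟩ := LinearMap.exists_antilipschitzWith _ hker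
  refine ⟨(K : ℝ)⁻¹, by positivity, fun w => ?_⟩
  have h2 := hanti.le_mul_dist w 0
  rw [dist_zero_right, map_zero, dist_zero_right] at h2
  rw [inv_mul_le_iff₀ (by positivity)]
  exact h2

/-- Proof.  `B - 1` is injective, so `‖B w - w‖ ≥ c ‖w‖` with `c > 0` (finite dimension).  By strict
differentiability `‖Ψ (v, w) - Ψ (v, 0) - L (0, w)‖ ≤ (c / 2) ‖w‖` near `(v₀, 0)`; second components:
if `(Ψ (v, w)).2 = w` then `‖w - B w‖ ≤ (c / 2) ‖w‖`, so `w = 0`. -/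
theorem fix_in {V W : Type*} [NormedAddCommGroup V] [NormedSpace ℝ V] [NormedAddCommGroup W]
    [NormedSpace ℝ W] [FiniteDimensional ℝ W] {Ψ : V × W → V × W}
    {L : (V × W) →L[ℝ] (V × W)} {v₀ : V} (h : HasStrictFDerivAt Ψ L (v₀, 0)) {B : W →L[ℝ] W}
    (hB : ∀ p, (L p).2 = B p.2) (hinv : ∀ᶠ v in 𝓝 v₀, (Ψ (v, 0)).2 = 0)
    (h1 : (cp B).eval 1 ≠ 0) : ∀ᶠ p in 𝓝 ((v₀, 0) : V × W), (Ψ p).2 = p.2 → p.2 = 0 := by
  obtain ⟨c, hc, hlow⟩ := mfix_lower h1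
  have h2 := h.isLittleO.def (half_pos hc)
  have hc1 : Tendsto (fun p : V × W => (p, ((p.1, (0 : W)) : V × W))) (𝓝 (v₀, 0))
      (𝓝 ((v₀, 0), (v₀, 0))) := by
    have : Continuous (fun p : V × W => (p, ((p.1, (0 : W)) : V × W))) := by fun_prop
    exact this.tendsto (v₀, 0)
  have h3 := hc1.eventually h2
  have h4 : ∀ᶠ p in 𝓝 ((v₀, 0) : V × W), (Ψ (p.1, 0)).2 = 0 :=
    (continuous_fst.tendsto ((v₀, 0) : V × W)).eventually hinv
  filter_upwards [h3, h4] with p hp hp0 hfix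
  have e1 : p - (p.1, (0 : W)) = (0, p.2) := by ext <;> simp
  have hp : ‖Ψ p - Ψ (p.1, 0) - L (p - (p.1, (0 : W)))‖ ≤ c / 2 * ‖p - (p.1, (0 : W))‖ := hp
  rw [e1] at hp
  have e2 : ‖((0 : V), p.2)‖ = ‖p.2‖ := by simp [Prod.norm_mk]
  rw [e2] at hp
  have e3 : ‖p.2 - B p.2‖ ≤ ‖Ψ p - Ψ (p.1, 0) - L (0, p.2)‖ := by
    have e4 : (Ψ p - Ψ (p.1, 0) - L (0, p.2)).2 = p.2 - B p.2 := by
      simp only [Prod.snd_sub]
      rw [hfix, hp0, hB, sub_zero]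
    rw [← e4]
    exact norm_snd_le _
  have e5 := hlow p.2
  rw [norm_sub_rev] at e5
  have e6 : c * ‖p.2‖ ≤ c / 2 * ‖p.2‖ := e5.trans (e3.trans hp)
  have e7 : ‖p.2‖ ≤ 0 := by nlinarith [norm_nonneg p.2]
  exact norm_le_zero_iff.1 e7

end Pool.Agent.MP_5027f4_cont
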