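import Pool.Agent.Lib_MP_5027f4_cont.MCo

/-!
PIECE [MFld] (MP_5027f4_mp, T2).  The vector field and its derivative at homographic points.
-/

open Set Filter Topology Metric Polynomial
open scoped ComplexConjugate ContDiff
open Pool.Agent.MP_5027f4_mp
open Pool.Agent.MP_5027f4_ell (Tri Shape cc coord Mt sg sm Nn Gz epsf kapf vf Bs IsFund IsCofund Mat)

namespace Pool.Agent.MP_5027f4_cont

variable {m : Fin 3 → ℝ} {ϖ : ℂ} {S : Shape} {d : Fin 3 → ℂ}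
  {e : ((ℂ × ℂ) × (ℂ × ℂ)) ≃L[ℝ] comSub m}

private theorem mfld_hf0 : Pool.Agent.MP_5027f4_ell.hf 0 = 1 := by
  simp [Pool.Agent.MP_5027f4_ell.hf]

private theorem mfld_hf {u : ℝ → ℂ} {u' : ℂ} (hu : HasDerivAt u u' 0) (h0 : u 0 = 0) :
    HasDerivAt (fun t => Pool.Agent.MP_5027f4_ell.hf (u t)) (-(u' / 2) - 3 / 2 * conj u') 0 := by
  have hre : HasDerivAt (fun t => (u t).re) u'.re 0 := by
    have := Complex.reCLM.hasFDerivAt.comp_hasDerivAt (0 : ℝ) hu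
    exact this
  have him : HasDerivAt (fun t => (u t).im) u'.im 0 := by
    have := Complex.imCLM.hasFDerivAt.comp_hasDerivAt (0 : ℝ) hu
    exact this
  have hn : HasDerivAt (fun t => (1 + (u t).re) ^ 2 + (u t).im ^ 2) (2 * u'.re) 0 := by
    have h1 := ((hre.const_add 1).pow 2).add (him.pow 2)
    refine h1.congr_deriv ?_
    simp [h0]
  have hs : HasDerivAt (fun t => ‖1 + u t‖) u'.re 0 := by
    have h1 : (fun t => ‖1 + u t‖) = fun t => Real.sqrt ((1 + (u t).re) ^ 2 + (u t).im ^ 2) := by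
      funext t
      rw [Complex.norm_def, Complex.normSq_apply]
      congr 1
      simp
      ring
    rw [h1]
    have h2 := hn.sqrt (by simp [h0])
    refine h2.congr_deriv ?_
    simp [h0]
  have hc : HasDerivAt (fun t => ‖1 + u t‖ ^ 3) (3 * u'.re) 0 := by
    refine (hs.pow 3).congr_deriv ?_
    simp [h0]
  have hcc : HasDerivAt (fun t => ((‖1 + u t‖ ^ 3 : ℝ) : ℂ)) ((3 * u'.re : ℝ) : ℂ) 0 :=
    hc.ofReal_comp
  have h3 := (hu.const_add 1).div hcc (by simp [h0])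
  refine h3.congr_deriv ?_
  have h4 : (u'.re : ℂ) = (u' + conj u') / 2 := by
    rw [Complex.re_eq_add_conj]
  simp only [h0, add_zero, norm_one, one_pow, Complex.ofReal_one, mul_one, one_mul, div_one,
    Complex.ofReal_mul, h4]
  push_cast
  ring

private theorem mfld_F {S : Shape} (hS : S.Good) : Pool.Agent.MP_5027f4_ell.F1 S 0 = -(S.M : ℂ) ∧
    Pool.Agent.MP_5027f4_ell.F2 S 0 = 0 := by
  refine ⟨?_, ?_⟩
  · simp only [Pool.Agent.MP_5027f4_ell.F1, mul_zero, mfld_hf0, mul_one]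
    rw [← hS.sum_p]
    push_cast
    rfl
  · simp only [Pool.Agent.MP_5027f4_ell.F2, mul_zero, mfld_hf0, mul_one]
    have h1 := congrArg (starRingEnd ℂ) hS.sum_pδ
    simp only [map_sum, map_mul, Complex.conj_ofReal, map_zero] at h1
    rw [h1, neg_zero]

private theorem mfld_F1 {S : Shape} (hS : S.Good) {u : ℝ → ℂ} {u' : ℂ} (hu : HasDerivAt u u' 0)
    (h0 : u 0 = 0) : HasDerivAt (fun t => Pool.Agent.MP_5027f4_ell.F1 S (u t)) 0 0 := by
  have h1 : ∀ k ∈ (Finset.univ : Finset (Fin 3)),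
      HasDerivAt (fun t => (S.p k : ℂ) * Pool.Agent.MP_5027f4_ell.hf (S.δ k * u t))
      ((S.p k : ℂ) * (-(S.δ k * u' / 2) - 3 / 2 * conj (S.δ k * u'))) 0 := by
    intro k _
    exact (mfld_hf (hu.const_mul (S.δ k)) (by simp [h0])).const_mul _
  have h2 := (HasDerivAt.fun_sum h1).neg
  refine h2.congr_deriv ?_
  have h3 := hS.sum_pδ
  have h4 := congrArg (starRingEnd ℂ) hS.sum_pδ
  simp only [map_sum, map_mul, Complex.conj_ofReal, map_zero] at h4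
  have h5 : ∑ k, (S.p k : ℂ) * (-(S.δ k * u' / 2) - 3 / 2 * conj (S.δ k * u')) =
      (∑ k, (S.p k : ℂ) * S.δ k) * (-(u' / 2)) +
        (∑ k, (S.p k : ℂ) * conj (S.δ k)) * (-(3 / 2 * conj u')) := by
    rw [Finset.sum_mul, Finset.sum_mul, ← Finset.sum_add_distrib]
    refine Finset.sum_congr rfl fun k _ => ?_
    rw [map_mul]
    ring
  rw [h5, h3, h4]
  ring

private theorem mfld_F2 {S : Shape} (hS : S.Good) {u : ℝ → ℂ} {u' : ℂ} (hu : HasDerivAt u u' 0)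
    (h0 : u 0 = 0) : HasDerivAt (fun t => Pool.Agent.MP_5027f4_ell.F2 S (u t))
      ((S.M : ℂ) * (u' / 2 + 3 / 2 * S.s * conj u')) 0 := by
  have h1 : ∀ k ∈ (Finset.univ : Finset (Fin 3)),
      HasDerivAt (fun t => (S.p k : ℂ) * conj (S.δ k) *
        Pool.Agent.MP_5027f4_ell.hf (S.δ k * u t))
      ((S.p k : ℂ) * conj (S.δ k) * (-(S.δ k * u' / 2) - 3 / 2 * conj (S.δ k * u'))) 0 := by
    intro k _
    exact (mfld_hf (hu.const_mul (S.δ k)) (by simp [h0])).const_mul _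
  have h2 := (HasDerivAt.fun_sum h1).neg
  refine h2.congr_deriv ?_
  have h3 : (∑ k, (S.p k : ℂ) * (conj (S.δ k) * S.δ k)) = S.M := by
    rw [← hS.sum_pn]
    push_cast
    refine Finset.sum_congr rfl fun k _ => ?_
    rw [← Complex.normSq_eq_conj_mul_self, Complex.normSq_eq_norm_sq]
    push_cast
    ring
  have h4 := congrArg (starRingEnd ℂ) hS.sum_pδ2
  simp only [map_sum, map_mul, map_pow, Complex.conj_ofReal] at h4
  have h5 : ∑ k, (S.p k : ℂ) * conj (S.δ k) * (-(S.δ k * u' / 2) - 3 / 2 * conj (S.δ k * u')) =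
      (∑ k, (S.p k : ℂ) * (conj (S.δ k) * S.δ k)) * (-(u' / 2)) +
        (∑ k, (S.p k : ℂ) * conj (S.δ k) ^ 2) * (-(3 / 2 * conj u')) := by
    rw [Finset.sum_mul, Finset.sum_mul, ← Finset.sum_add_distrib]
    refine Finset.sum_congr rfl fun k _ => ?_
    rw [map_mul]
    ring
  rw [h5, h3, h4]
  ring

private theorem mfld_co (hm : ∀ a, 0 < m a) (hϖ : ϖ ^ 2 + ϖ + 1 = 0) (hT : Tri m ϖ S d)
    (he : IsCo m ϖ d e) {z z1 w w1 : ℂ} (hz : z ≠ 0) :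
    fld₀ m (e ((z, z1), (w, w1))) =
      e ((z1, z / ((‖z‖ ^ 3 : ℝ) : ℂ) * Pool.Agent.MP_5027f4_ell.F1 S (w / z)),
        (w1, z / ((‖z‖ ^ 3 : ℝ) : ℂ) * Pool.Agent.MP_5027f4_ell.F2 S (w / z))) := by
  apply Subtype.ext
  rw [he]
  show fld m ((e ((z, z1), (w, w1)) : comSub m) : Ph) = _
  rw [he]
  refine Prod.ext ?_ ?_
  · rfl
  · funext a
    have h1 := Pool.Agent.MP_5027f4_ell.coords_eq hm hT
      (acc m (fun a => cc m ϖ a * z + d a * w)) (sum_acc m _) a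
    obtain ⟨h2, h3⟩ := Pool.Agent.MP_5027f4_ell.coord_acc hm hϖ hT z w hz
    rw [h2, h3] at h1
    exact h1

/-- Proof.  The sides of the triangle `c z` are `z, ϖ z, ϖ² z` (`MP_5027f4_ell.cc_diff`). -/
theorem co_noColl (hϖ : ϖ ^ 2 + ϖ + 1 = 0) (he : IsCo m ϖ d e) {z z1 : ℂ} (hz : z ≠ 0) :
    e ((z, z1), 0) ∈ noColl₀ m := by
  obtain ⟨h0, h1, h2⟩ := Pool.Agent.MP_5027f4_ell.cc_diff m hϖ
  have hϖ0 : ϖ ≠ 0 := by
    rintro rfl
    norm_num at hϖ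
  show ((e ((z, z1), 0) : comSub m) : Ph) ∈ noColl
  rw [he]
  have key : ∀ a b : Fin 3, cc m ϖ a - cc m ϖ b ≠ 0 →
      cc m ϖ a * z + d a * 0 ≠ cc m ϖ b * z + d b * 0 := by
    intro a b hab h
    have h3 : (cc m ϖ a - cc m ϖ b) * z = 0 := by linear_combination h
    rcases mul_eq_zero.1 h3 with h4 | h4
    · exact hab h4
    · exact hz h4
  have k01 : cc m ϖ 0 - cc m ϖ 1 ≠ 0 := by rw [h0]; exact one_ne_zero
  have k12 : cc m ϖ 1 - cc m ϖ 2 ≠ 0 := by rw [h1]; exact hϖ0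
  have k20 : cc m ϖ 2 - cc m ϖ 0 ≠ 0 := by rw [h2]; exact pow_ne_zero 2 hϖ0
  have k10 : cc m ϖ 1 - cc m ϖ 0 ≠ 0 := by rw [← neg_sub]; exact neg_ne_zero.2 k01
  have k21 : cc m ϖ 2 - cc m ϖ 1 ≠ 0 := by rw [← neg_sub]; exact neg_ne_zero.2 k12
  have k02 : cc m ϖ 0 - cc m ϖ 2 ≠ 0 := by rw [← neg_sub]; exact neg_ne_zero.2 k20
  intro a b hab
  apply key
  fin_cases a <;> fin_cases b <;> first | exact absurd rfl hab | assumption

/-- Proof.  `MP_5027f4_ell.coord_acc` with `w = 0`: `F1 S 0 = - Σ p = - M`,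
`F2 S 0 = - Σ p conj δ = 0` (`Shape.Good`), and `coords_eq` for `acc m q`
(`Σ m_a acc_a = 0`, `sum_acc`). -/
theorem fld_co (hm : ∀ a, 0 < m a) (hϖ : ϖ ^ 2 + ϖ + 1 = 0) (hT : Tri m ϖ S d)
    (he : IsCo m ϖ d e) {z z1 : ℂ} (hz : z ≠ 0) :
    fld₀ m (e ((z, z1), 0)) = e ((z1, -(Mt m : ℂ) * z / ((‖z‖ ^ 3 : ℝ) : ℂ)), 0) := by
  have h1 := mfld_co hm hϖ hT he (z := z) (z1 := z1) (w := 0) (w1 := 0) hz
  obtain ⟨h2, h3⟩ := mfld_F hT.good
  rw [zero_div, h2, h3, mul_zero, hT.hM] at h1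
  have h4 : (0 : ℂ × ℂ) = (0, 0) := rfl
  rw [h4, h1]
  congr 3
  ring

/-- Proof.  For `p` near `((z, z1), 0)` one has `fld₀ m (e p) = e ((p.1.2, f₁ p.1.1 p.2.1),
(p.2.2, f₂ p.1.1 p.2.1))` with `f₁ z w = z / |z|³ * F1 S (w / z)`, `f₂ z w = z / |z|³ * F2 S (w / z)`
(`coord_acc`, `coords_eq`).  `hf ζ = (1 + ζ) / |1 + ζ|³` has at `0` the derivative
`ζ ↦ ζ - 3 Re ζ = - ζ / 2 - (3 / 2) conj ζ`, hence with `Σ p δ = 0`, `Σ p |δ|² = M`,
`Σ p δ² = M s` (`Shape.Good`, `S.s = sm m`, `S.M = Mt m`) at `w = 0`: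
`D(F1 S)(0) = 0`, `D(F2 S)(0) u = M (u / 2 + (3 / 2) s conj u)`; and `F2 S 0 = 0`.  The derivative of
`- M z / |z|³` is `a ↦ - (M / |z|³) (a - 3 Re (conj z a) z / |z|²) = LN M 1 z a`. -/
theorem fderiv_fld_co (hm : ∀ a, 0 < m a) (hϖ : ϖ ^ 2 + ϖ + 1 = 0) (hT : Tri m ϖ S d)
    (he : IsCo m ϖ d e) {z z1 : ℂ} (hz : z ≠ 0) (a a1 b b1 : ℂ) :
    fderiv ℝ (fld₀ m) (e ((z, z1), 0)) (e ((a, a1), (b, b1))) =
      e ((a1, LN (Mt m) 1 z a), (b1, LN (Mt m) (sm m) z b)) := by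
  have hzn : (0 : ℝ) < ‖z‖ := norm_pos_iff.2 hz
  have hzn' : (‖z‖ : ℂ) ≠ 0 := Complex.ofReal_ne_zero.2 hzn.ne'
  have hzc : conj z ≠ 0 := (_root_.map_ne_zero _).2 hz
  have hd : HasFDerivAt (fld₀ m) (fderiv ℝ (fld₀ m) (e ((z, z1), 0))) (e ((z, z1), 0)) :=
    (((contDiffOn_fld₀ m).contDiffAt ((isOpen_noColl₀ m).mem_nhds
      (co_noColl hϖ he hz))).differentiableAt (by norm_num)).hasFDerivAt
  -- the line
  set p : ℝ → (ℂ × ℂ) × (ℂ × ℂ) := fun t => ((z + t * a, z1 + t * a1), (t * b, t * b1)) with hp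
  have hid : HasDerivAt (fun t : ℝ => (t : ℂ)) 1 0 := Complex.ofRealCLM.hasDerivAt
  have hmul : ∀ c : ℂ, HasDerivAt (fun t : ℝ => (t : ℂ) * c) c 0 := by
    intro c
    simpa using hid.mul_const c
  have hpd : HasDerivAt p ((a, a1), (b, b1)) 0 :=
    (((hmul a).const_add z).prodMk ((hmul a1).const_add z1)).prodMk ((hmul b).prodMk (hmul b1))
  have hp0 : p 0 = ((z, z1), 0) := by
    simp [hp]
  have h1 : HasDerivAt (fun t => fld₀ m (e (p t)))
      (fderiv ℝ (fld₀ m) (e ((z, z1), 0)) (e ((a, a1), (b, b1)))) 0 := by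
    have h2 : HasDerivAt (fun t => e (p t)) (e ((a, a1), (b, b1))) 0 :=
      e.toContinuousLinearMap.hasFDerivAt.comp_hasDerivAt 0 hpd
    have h3 : HasFDerivAt (fld₀ m) (fderiv ℝ (fld₀ m) (e ((z, z1), 0))) (e (p 0)) := by
      rw [hp0]
      exact hd
    exact h3.comp_hasDerivAt 0 h2
  -- the force along the line
  have hz0 : z + (0 : ℝ) * a ≠ 0 := by simpa using hz
  have hq : HasDerivAt (fun t : ℝ => (t : ℂ) * b / (z + t * a)) (b / z) 0 := by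
    have h2 := (hmul b).div ((hmul a).const_add z) hz0
    refine h2.congr_deriv ?_
    simp
    field_simp
  have hr : HasDerivAt (fun t : ℝ => (t : ℂ) * a / z) (a / z) 0 := (hmul a).div_const z
  have hg : ∀ᶠ t : ℝ in 𝓝 0, (z + t * a) / ((‖z + t * a‖ ^ 3 : ℝ) : ℂ) =
      z / ((‖z‖ ^ 3 : ℝ) : ℂ) * Pool.Agent.MP_5027f4_ell.hf ((t : ℂ) * a / z) := by
    refine Eventually.of_forall fun t => ?_
    have h2 := Pool.Agent.MP_5027f4_ell.hf_pair (z := z) (w := t * a) (c := 1) (δ := 1)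
      (x := z + t * a) hz norm_one (by ring)
    rw [map_one, one_mul, one_mul] at h2
    exact h2
  have hG : HasDerivAt (fun t : ℝ => (z + t * a) / ((‖z + t * a‖ ^ 3 : ℝ) : ℂ))
      (z / ((‖z‖ ^ 3 : ℝ) : ℂ) * (-(a / z / 2) - 3 / 2 * conj (a / z))) 0 := by
    refine HasDerivAt.congr_of_eventuallyEq ?_ hg
    exact (mfld_hf hr (by simp)).const_mul _
  obtain ⟨F10, F20⟩ := mfld_F hT.good
  have hF1 := mfld_F1 hT.good hq (by simp)
  have hF2 := mfld_F2 hT.good hq (by simp)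
  have hA : HasDerivAt (fun t : ℝ => (z + t * a) / ((‖z + t * a‖ ^ 3 : ℝ) : ℂ) *
      Pool.Agent.MP_5027f4_ell.F1 S ((t : ℂ) * b / (z + t * a))) (LN (Mt m) 1 z a) 0 := by
    refine (hG.mul hF1).congr_deriv ?_
    simp only [Complex.ofReal_zero, zero_mul, add_zero, zero_div, F10, mul_zero, hT.hM, LN,
      map_div₀]
    push_cast
    field_simp
    ring
  have hB : HasDerivAt (fun t : ℝ => (z + t * a) / ((‖z + t * a‖ ^ 3 : ℝ) : ℂ) *
      Pool.Agent.MP_5027f4_ell.F2 S ((t : ℂ) * b / (z + t * a))) (LN (Mt m) (sm m) z b) 0 := by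
    refine (hG.mul hF2).congr_deriv ?_
    simp only [Complex.ofReal_zero, zero_mul, add_zero, zero_div, F20, mul_zero, zero_add, hT.hM,
      hT.hs, LN, map_div₀]
    push_cast
    field_simp
  have h4 : HasDerivAt (fun t : ℝ => e ((z1 + t * a1, (z + t * a) / ((‖z + t * a‖ ^ 3 : ℝ) : ℂ) *
      Pool.Agent.MP_5027f4_ell.F1 S ((t : ℂ) * b / (z + t * a))),
      (t * b1, (z + t * a) / ((‖z + t * a‖ ^ 3 : ℝ) : ℂ) *
      Pool.Agent.MP_5027f4_ell.F2 S ((t : ℂ) * b / (z + t * a)))))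
      (e ((a1, LN (Mt m) 1 z a), (b1, LN (Mt m) (sm m) z b))) 0 :=
    e.toContinuousLinearMap.hasFDerivAt.comp_hasDerivAt 0
      ((((hmul a1).const_add z1).prodMk hA).prodMk ((hmul b1).prodMk hB))
  have hev : ∀ᶠ t : ℝ in 𝓝 0, z + t * a ≠ 0 := by
    have h5 : ContinuousAt (fun t : ℝ => z + t * a) 0 := by fun_prop
    exact h5.eventually_ne hz0
  have h5 : HasDerivAt (fun t => fld₀ m (e (p t)))
      (e ((a1, LN (Mt m) 1 z a), (b1, LN (Mt m) (sm m) z b))) 0 := by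
    refine h4.congr_of_eventuallyEq ?_
    filter_upwards [hev] with t ht
    exact mfld_co hm hϖ hT he ht
  exact h1.unique h5

end Pool.Agent.MP_5027f4_cont
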