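import Pool.Agent.Lib_MP_5027f4_cont.MFld

/-!
PIECE [MHom] (MP_5027f4_mp, T2).  Solutions starting in the homographic subspace stay in it.
-/

open Set Filter Topology Metric Polynomial
open scoped ComplexConjugate ContDiff
open Pool.Agent.MP_5027f4_mp
open Pool.Agent.MP_5027f4_ell (Tri Shape cc coord Mt sg sm Nn Gz epsf kapf vf Bs IsFund IsCofund Mat)

namespace Pool.Agent.MP_5027f4_cont

variable {m : Fin 3 → ℝ} {ϖ : ℂ} {S : Shape} {d : Fin 3 → ℂ}
  {e : ((ℂ × ℂ) × (ℂ × ℂ)) ≃L[ℝ] comSub m}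

/-- local existence for a `C¹` field on an open set -/
theorem mhom_local {E : Type*} [NormedAddCommGroup E] [NormedSpace ℝ E] [FiniteDimensional ℝ E]
    {F : E → E} {Ω : Set E} (hΩ : IsOpen Ω) (hF : ContDiffOn ℝ 1 F Ω) {p : E} (hp : p ∈ Ω) :
    ∃ ε > 0, ∃ z : ℝ → E, z 0 = p ∧ Solves F Ω (Icc 0 ε) z := by
  obtain ⟨G, L, B, V, hVo, hKV, hVΩ, hL, hB, hGF⟩ :=
    exists_lipschitz_cutoff hΩ hF (isCompact_singleton (x := p)) (singleton_subset_iff.2 hp)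
  obtain ⟨z, hz0, hz⟩ := exists_sol_of_lipschitz hL hB p (zero_le_one' ℝ)
  have hc : ContinuousWithinAt z (Icc 0 1) 0 :=
    (hz 0 ⟨le_rfl, zero_le_one⟩).continuousWithinAt
  have hV : V ∈ 𝓝 (z 0) := by
    rw [hz0]
    exact hVo.mem_nhds (hKV (mem_singleton p))
  have h1 := hc.preimage_mem_nhdsWithin hV
  rw [Metric.mem_nhdsWithin_iff] at h1
  obtain ⟨r, hr, h2⟩ := h1
  have h3 : ∀ t ∈ Icc 0 (min (r / 2) 1), z t ∈ V := by
    intro t ht
    refine h2 ⟨?_, ht.1, ht.2.trans (min_le_right _ _)⟩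
    rw [Metric.mem_ball, Real.dist_eq, sub_zero, abs_of_nonneg ht.1]
    have := ht.2.trans (min_le_left _ _)
    linarith
  refine ⟨min (r / 2) 1, lt_min (by positivity) one_pos, z, hz0, fun t ht => ?_⟩
  refine ⟨hVΩ (h3 t ht), ?_⟩
  rw [← hGF _ (h3 t ht)]
  exact (hz t ⟨ht.1, ht.2.trans (min_le_right _ _)⟩).mono
    (Icc_subset_Icc_right (min_le_right _ _))

/-- the Kepler field -/
noncomputable def mhomK (M : ℝ) (p : ℂ × ℂ) : ℂ × ℂ :=
  (p.2, -(M : ℂ) * p.1 / ((‖p.1‖ ^ 3 : ℝ) : ℂ))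

theorem mhomK_open : IsOpen {p : ℂ × ℂ | p.1 ≠ 0} := isOpen_ne_fun continuous_fst continuous_const

theorem mhomK_smooth (M : ℝ) : ContDiffOn ℝ 1 (mhomK M) {p : ℂ × ℂ | p.1 ≠ 0} := by
  intro p hp
  apply ContDiffAt.contDiffWithinAt
  refine contDiffAt_snd.prodMk ?_
  have h1 : ContDiffAt ℝ 1 (fun p : ℂ × ℂ => ‖p.1‖) p := contDiffAt_fst.norm ℂ hp
  have h2 : ContDiffAt ℝ 1 (fun p : ℂ × ℂ => ((‖p.1‖ ^ 3 : ℝ) : ℂ)) p :=
    Complex.ofRealCLM.contDiff.contDiffAt.comp p (h1.pow 3)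
  have h3 : ((‖p.1‖ ^ 3 : ℝ) : ℂ) ≠ 0 :=
    Complex.ofReal_ne_zero.2 (pow_ne_zero 3 (norm_ne_zero_iff.mpr hp))
  have h4 : ContDiffAt ℝ 1 (fun p : ℂ × ℂ => (((‖p.1‖ ^ 3 : ℝ) : ℂ))⁻¹) p := h2.inv h3
  have h5 : ContDiffAt ℝ 1 (fun p : ℂ × ℂ => -(M : ℂ) * p.1) p :=
    contDiffAt_const.mul contDiffAt_fst
  have h6 := h5.mul h4
  simpa only [div_eq_mul_inv] using h6

/-- Proof.  Let `t₀` be the supremum of the `t ≤ T` such that `x` is in the (closed) subspace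
`V = e '' {p | p.2 = 0}` on `[0, t]`.  At `t₀` the point `x t₀ = e ((ζ, ζ₁), 0)` has `ζ ≠ 0` (no
collision).  The Kepler problem has a local solution starting at `(ζ, ζ₁)` (`dcls_local` for the field
`(z, z1) ↦ (z1, - M z / |z|³)` on `{z ≠ 0}`), its image by `e` is a solution of the three-body
problem (`fld_co`), and by uniqueness (`Solves.eqOn_of_eq` on `[t₀, t₀ + ε]`, after a time shift) it is
`x`; so `t₀ = T`.  Then `z, z1` are the components of `e.symm (x t)` (with `prE m`, `prE_coe`, to get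
into `comSub m`) and satisfy `KSol` by `fld_co`. -/
theorem hom_stay (hm : ∀ a, 0 < m a) (hϖ : ϖ ^ 2 + ϖ + 1 = 0) (hTr : Tri m ϖ S d)
    (he : IsCo m ϖ d e) {T : ℝ} (hT : 0 ≤ T) {x : ℝ → Ph}
    (hx : Solves (fld m) (frame m) (Icc 0 T) x) {z₀ z₁ : ℂ}
    (h0 : x 0 = ((e ((z₀, z₁), 0) : comSub m) : Ph)) :
    ∃ z z1 : ℝ → ℂ, KSol (Mt m) T z z1 ∧ z 0 = z₀ ∧ z1 0 = z₁ ∧
      ∀ t ∈ Icc 0 T, x t = ((e ((z t, z1 t), 0) : comSub m) : Ph) := by
  have hF : ContDiffOn ℝ 1 (fld₀ m) (noColl₀ m) := (contDiffOn_fld₀ m).of_le (by norm_num)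
  -- the solution in the subspace
  set Y : ℝ → comSub m := fun t => prE m (x t) with hYdef
  have hYx : ∀ t ∈ Icc 0 T, ((Y t : comSub m) : Ph) = x t := fun t ht =>
    congrArg Subtype.val (prE_coe m ⟨x t, (hx t ht).1.2⟩)
  have hYd : ∀ t ∈ Icc 0 T, Y t ∈ noColl₀ m ∧ HasDerivWithinAt Y (fld₀ m (Y t)) (Icc 0 T) t := by
    intro t ht
    refine ⟨?_, ?_⟩
    · change ((Y t : comSub m) : Ph) ∈ noColl
      rw [hYx t ht]
      exact (hx t ht).1.1
    · have h1 := (prE m).hasFDerivAt.comp_hasDerivWithinAt t (hx t ht).2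
      refine h1.congr_deriv ?_
      have h2 : ((fld₀ m (Y t) : comSub m) : Ph) = fld m (x t) := by
        change fld m (Y t : Ph) = fld m (x t)
        rw [hYx t ht]
      rw [← h2, prE_coe]
  have hY : Solves (fld₀ m) (noColl₀ m) (Icc 0 T) Y := hYd
  have hYc : ContinuousOn Y (Icc 0 T) := hY.continuousOn
  -- position coordinate nonzero without collision
  have hne : ∀ ζ ζ₁ : ℂ, e ((ζ, ζ₁), 0) ∈ noColl₀ m → ζ ≠ 0 := by
    intro ζ ζ₁ h hζ
    have h1 : ((e ((ζ, ζ₁), 0) : comSub m) : Ph).1 0 ≠ ((e ((ζ, ζ₁), 0) : comSub m) : Ph).1 1 :=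
      h 0 1 (by decide)
    rw [he, hζ] at h1
    simp at h1
  -- the set of good times
  have hkey : Icc 0 T ⊆ {t | (e.symm (Y t)).2 = 0} := by
    apply IsClosed.Icc_subset_of_forall_mem_nhdsWithin
    · have hcont : ContinuousOn (fun t => (e.symm (Y t)).2) (Icc 0 T) :=
        (continuous_snd.comp e.symm.continuous).comp_continuousOn hYc
      have := hcont.preimage_isClosed_of_isClosed isClosed_Icc (isClosed_singleton (x := 0))
      rw [inter_comm]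
      exact this
    · show (e.symm (Y 0)).2 = 0
      have : Y 0 = e ((z₀, z₁), 0) := by
        rw [hYdef]
        simp only
        rw [h0, prE_coe]
      rw [this, e.symm_apply_apply]
    · rintro t₀ ⟨ht₀, ht₀T⟩
      have ht₀I : t₀ ∈ Icc 0 T := ⟨ht₀T.1, ht₀T.2.le⟩
      set ζ := (e.symm (Y t₀)).1.1 with hζ
      set ζ₁ := (e.symm (Y t₀)).1.2 with hζ₁
      have hYt : Y t₀ = e ((ζ, ζ₁), 0) := by
        have h1 : e.symm (Y t₀) = ((ζ, ζ₁), 0) := Prod.ext rfl ht₀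
        rw [← h1, e.apply_symm_apply]
      have hζ0 : ζ ≠ 0 := hne ζ ζ₁ (by rw [← hYt]; exact (hYd t₀ ht₀I).1)
      obtain ⟨ε, hε, w, hw0, hw⟩ := mhom_local mhomK_open (mhomK_smooth (Mt m))
        (p := (ζ, ζ₁)) hζ0
      have hT0 : 0 < T - t₀ := sub_pos.2 ht₀T.2
      set δ := min ε (T - t₀) with hδ
      have hδ0 : 0 < δ := lt_min hε hT0
      have hA : Solves (fld₀ m) (noColl₀ m) (Icc 0 δ) (fun τ => e (w τ, 0)) := by
        intro τ hτ
        have hτε : τ ∈ Icc 0 ε := ⟨hτ.1, hτ.2.trans (min_le_left _ _)⟩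
        have hw1 : (w τ).1 ≠ 0 := (hw τ hτε).1
        refine ⟨co_noColl hϖ he hw1, ?_⟩
        have h1 : HasDerivWithinAt (fun τ => (w τ, (0 : ℂ × ℂ))) (mhomK (Mt m) (w τ), 0)
            (Icc 0 δ) τ := by
          have h2 := ((hw τ hτε).2.mono (Icc_subset_Icc_right (min_le_left ε (T - t₀))))
          exact h2.prodMk (hasDerivWithinAt_const _ _ _)
        have h3 := (e : ((ℂ × ℂ) × (ℂ × ℂ)) →L[ℝ] comSub m).hasFDerivAt.comp_hasDerivWithinAt τ h1
        refine h3.congr_deriv ?_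
        have h4 := fld_co hm hϖ hTr he (z1 := (w τ).2) hw1
        change e (mhomK (Mt m) (w τ), 0) = fld₀ m (e (w τ, 0))
        exact h4.symm
      have hB : Solves (fld₀ m) (noColl₀ m) (Icc 0 δ) (fun τ => Y (t₀ + τ)) := by
        intro τ hτ
        have hτT : t₀ + τ ∈ Icc 0 T := by
          have := hτ.2.trans (min_le_right ε (T - t₀))
          exact ⟨add_nonneg ht₀T.1 hτ.1, by linarith⟩
        refine ⟨(hYd _ hτT).1, ?_⟩
        have h1 : HasDerivWithinAt (fun τ : ℝ => t₀ + τ) 1 (Icc 0 δ) τ :=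
          ((hasDerivAt_id τ).const_add t₀).hasDerivWithinAt
        have h2 := HasDerivWithinAt.scomp τ (hYd _ hτT).2 h1 (fun s hs => by
          have := hs.2.trans (min_le_right ε (T - t₀))
          exact ⟨add_nonneg ht₀T.1 hs.1, by linarith⟩)
        simpa [Function.comp_def] using h2
      have hAB := hB.eqOn_of_eq (isOpen_noColl₀ m) hF hA (by
        simp only [add_zero]
        rw [hYt, hw0])
      have hIoc : Ioc t₀ (t₀ + δ) ∈ 𝓝[>] t₀ := Ioc_mem_nhdsGT (by linarith)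
      filter_upwards [hIoc] with t ht
      show (e.symm (Y t)).2 = 0
      have h1 : Y (t₀ + (t - t₀)) = e (w (t - t₀), 0) :=
        hAB ⟨by linarith [ht.1], by linarith [ht.2]⟩
      rw [add_sub_cancel] at h1
      rw [h1, e.symm_apply_apply]
  have hrep : ∀ t ∈ Icc 0 T, Y t = e (((e.symm (Y t)).1.1, (e.symm (Y t)).1.2), 0) := by
    intro t ht
    have h1 : e.symm (Y t) = (((e.symm (Y t)).1.1, (e.symm (Y t)).1.2), 0) :=
      Prod.ext rfl (hkey ht)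
    rw [← h1, e.apply_symm_apply]
  have hY0 : Y 0 = e ((z₀, z₁), 0) := by
    rw [hYdef]
    simp only
    rw [h0, prE_coe]
  refine ⟨fun t => (e.symm (Y t)).1.1, fun t => (e.symm (Y t)).1.2, ?_, ?_, ?_, ?_⟩
  · intro t ht
    have hz : (e.symm (Y t)).1.1 ≠ 0 := hne _ _ (by rw [← hrep t ht]; exact (hYd t ht).1)
    refine ⟨hz, ?_⟩
    have h1 := (e.symm : comSub m →L[ℝ] ((ℂ × ℂ) × (ℂ × ℂ))).hasFDerivAt.comp_hasDerivWithinAt t
      (hYd t ht).2
    have h2 : (e.symm : comSub m →L[ℝ] ((ℂ × ℂ) × (ℂ × ℂ))) (fld₀ m (Y t)) =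
        (((e.symm (Y t)).1.2, -(Mt m : ℂ) * (e.symm (Y t)).1.1 /
          ((‖(e.symm (Y t)).1.1‖ ^ 3 : ℝ) : ℂ)), 0) := by
      have h3 := fld_co hm hϖ hTr he (z1 := (e.symm (Y t)).1.2) hz
      rw [← hrep t ht] at h3
      rw [h3]
      exact e.symm_apply_apply _
    have h3 := h1.congr_deriv h2
    exact ⟨h3.fst.fst, h3.fst.snd⟩
  · show (e.symm (Y 0)).1.1 = z₀
    rw [hY0, e.symm_apply_apply]
  · show (e.symm (Y 0)).1.2 = z₁
    rw [hY0, e.symm_apply_apply]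
  · intro t ht
    rw [← hYx t ht]
    exact congrArg Subtype.val (hrep t ht)

end Pool.Agent.MP_5027f4_cont
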