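import Pool.Agent.Lib_MP_5027f4_cont.MDefs
import Pool.Agent.Lib_MP_5027f4_ell.RedA
import Pool.Agent.Lib_MP_5027f4_ell.OdeB

/-!
PIECE [MLinkA] (MP_5027f4_mp, T2).  The normal equation along a Kepler orbit in the true anomaly.
-/

open Set Filter Topology Metric Polynomial
open scoped ComplexConjugate ContDiff
open Pool.Agent.MP_5027f4_mp
open Pool.Agent.MP_5027f4_ell (Tri Shape cc coord Mt sg sm Nn Gz epsf kapf vf Bs IsFund IsCofund Mat)

namespace Pool.Agent.MP_5027f4_cont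

open Complex in
/-- conservation laws along a Kepler solution -/
private lemma mla_kep {M : ℝ} (hM : 0 < M) {z z1 : ℝ → ℂ} {D : Set ℝ} {t : ℝ} (h0 : z t ≠ 0)
    (hz : HasDerivWithinAt z (z1 t) D t)
    (hz1 : HasDerivWithinAt z1 (-(M : ℂ) * z t / ((‖z t‖ ^ 3 : ℝ) : ℂ)) D t)
    (hG : 0 < Gz (z t) (z1 t)) :
    HasDerivWithinAt (fun t => z t / (‖z t‖ : ℂ))
      ((kapf (z t) (z1 t) : ℂ) * (I * (z t / (‖z t‖ : ℂ)))) D t ∧
    HasDerivWithinAt (fun t => epsf M (z t) (z1 t)) 0 D t := by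
  have hhf : MP_5027f4_ell.hf 0 = 1 := by simp [MP_5027f4_ell.hf]
  let S : Shape := ⟨fun _ => M / 3, fun _ => 0, M, 0⟩
  have hF1 : MP_5027f4_ell.F1 S 0 = -(M : ℂ) := by
    simp only [MP_5027f4_ell.F1, S, Fin.sum_univ_three, mul_zero, hhf]
    push_cast
    ring
  have hF2 : MP_5027f4_ell.F2 S 0 = 0 := by
    simp [MP_5027f4_ell.F2, S]
  have hphi : MP_5027f4_ell.phi S 0 = 0 := by
    simp [MP_5027f4_ell.phi, hF1, S]
  have h := MP_5027f4_ell.red_deriv S hM z z1 (fun _ => 0) (fun _ => 0) D t hz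
    (by
      refine hz1.congr_deriv ?_
      simp only [zero_div, hF1]
      ring)
    (hasDerivWithinAt_const _ _ _)
    (by
      refine (hasDerivWithinAt_const _ _ _).congr_deriv ?_
      simp only [zero_div, hF2, mul_zero]) h0 hG
  refine ⟨h.1, h.2.1.congr_deriv ?_⟩
  simp only [zero_div, hphi, zero_im, ofReal_zero, zero_mul, mul_zero, sub_zero]

open Complex in
/-- the angular momentum is constant -/
private lemma mla_G {M : ℝ} {z z1 : ℝ → ℂ} {D : Set ℝ} {t : ℝ} (h0 : z t ≠ 0)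
    (hz : HasDerivWithinAt z (z1 t) D t)
    (hz1 : HasDerivWithinAt z1 (-(M : ℂ) * z t / ((‖z t‖ ^ 3 : ℝ) : ℂ)) D t) :
    HasDerivWithinAt (fun t => Gz (z t) (z1 t)) 0 D t := by
  have h := MP_5027f4_ell.hasDerivWithinAt_im'
    ((MP_5027f4_ell.hasDerivWithinAt_conj' hz).mul hz1)
  refine h.congr_deriv ?_
  have hzz : conj (z t) * z t = (‖z t‖ : ℂ) ^ 2 := by
    rw [← normSq_eq_conj_mul_self, normSq_eq_norm_sq]
    push_cast
    rfl
  have hr : (‖z t‖ : ℂ) ≠ 0 := by exact_mod_cast (norm_ne_zero_iff.mpr h0)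
  have e1 : conj (z t) * (-(M : ℂ) * z t / ((‖z t‖ ^ 3 : ℝ) : ℂ)) = ((-M / ‖z t‖ : ℝ) : ℂ) := by
    push_cast
    rw [show conj (z t) * (-(M : ℂ) * z t / (‖z t‖ : ℂ) ^ 3) =
      -(M : ℂ) * (conj (z t) * z t) / (‖z t‖ : ℂ) ^ 3 by ring, hzz]
    field_simp
  rw [e1, add_im, ← normSq_eq_conj_mul_self, ofReal_im, ofReal_im, add_zero]

/-- constancy on an interval -/
private lemma mla_const {E : Type*} [NormedAddCommGroup E] [NormedSpace ℝ E] {T : ℝ}
    {f : ℝ → E} (h : ∀ t ∈ Icc 0 T, HasDerivWithinAt f 0 (Icc 0 T) t) {t : ℝ}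
    (ht : t ∈ Icc 0 T) : f t = f 0 := by
  have h0 : (0 : ℝ) ∈ Icc 0 T := ⟨le_rfl, ht.1.trans ht.2⟩
  have h1 := Convex.norm_image_sub_le_of_norm_hasDerivWithin_le (C := 0) (f' := fun _ => (0 : E))
    h (by simp) (convex_Icc 0 T) h0 ht
  rw [zero_mul] at h1
  exact sub_eq_zero.mp (norm_le_zero_iff.mp h1)

open Complex in
/-- the second derivative of the normal mode -/
private lemma mla_v {M s : ℝ} (hM : 0 < M) {z z1 b b1 : ℝ → ℂ} {D : Set ℝ} {t : ℝ}
    (h0 : z t ≠ 0) (hz : HasDerivWithinAt z (z1 t) D t)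
    (hz1 : HasDerivWithinAt z1 (-(M : ℂ) * z t / ((‖z t‖ ^ 3 : ℝ) : ℂ)) D t)
    (hb : HasDerivWithinAt b (b1 t) D t) (hb1 : HasDerivWithinAt b1 (LN M s (z t) (b t)) D t)
    (hG : 0 < Gz (z t) (z1 t)) :
    HasDerivWithinAt (fun t => b t / z t)
      ((kapf (z t) (z1 t) : ℂ) * vf (z t) (z1 t) (b t) (b1 t)) D t ∧
    HasDerivWithinAt (fun t => vf (z t) (z1 t) (b t) (b1 t))
      ((kapf (z t) (z1 t) : ℂ) * (-2 * I * vf (z t) (z1 t) (b t) (b1 t) +
        ((3 / 2 : ℝ) : ℂ) * (b t / z t + (s : ℂ) * conj (b t / z t)) /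
        ((1 + (conj (epsf M (z t) (z1 t)) * (z t / (‖z t‖ : ℂ))).re : ℝ) : ℂ))) D t := by
  have hr : 0 < ‖z t‖ := norm_pos_iff.mpr h0
  have hrC : (‖z t‖ : ℂ) ≠ 0 := ofReal_ne_zero.mpr hr.ne'
  have hMC : (M : ℂ) ≠ 0 := ofReal_ne_zero.mpr hM.ne'
  have hGC : (Gz (z t) (z1 t) : ℂ) ≠ 0 := ofReal_ne_zero.mpr hG.ne'
  have hid := (MP_5027f4_ell.epsf_identity M hM (z t) (z1 t) h0).1
  have hden : (1 + (conj (epsf M (z t) (z1 t)) * (z t / (‖z t‖ : ℂ))).re : ℝ) =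
      Gz (z t) (z1 t) ^ 2 / (M * ‖z t‖) := by
    rw [eq_div_iff (by positivity), ← hid]
    ring
  have dr : HasDerivWithinAt (fun t => (‖z t‖ : ℂ)) (((conj (z t) * z1 t).re / ‖z t‖ : ℝ) : ℂ) D t :=
    (MP_5027f4_ell.hasDerivWithinAt_norm' hz h0).ofReal_comp
  have hRG : conj (z t) * z1 t = ((conj (z t) * z1 t).re : ℂ) + (Gz (z t) (z1 t) : ℂ) * I := by
    rw [Gz]
    exact (re_add_im _).symm
  have hzz : conj (z t) * z t = (‖z t‖ : ℂ) ^ 2 := by
    rw [← normSq_eq_conj_mul_self, normSq_eq_norm_sq]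
    push_cast
    rfl
  have dG := mla_G h0 hz hz1
  have dGC : HasDerivWithinAt (fun t => (Gz (z t) (z1 t) : ℂ)) ((0 : ℝ) : ℂ) D t := dG.ofReal_comp
  have hcz : conj (z t) ≠ 0 := by simpa using h0
  set R : ℝ := (conj (z t) * z1 t).re with hR
  set G : ℝ := Gz (z t) (z1 t) with hGdef
  set r : ℝ := ‖z t‖ with hrdef
  have hz1' : z1 t = ((R : ℂ) + (G : ℂ) * I) * z t / (r : ℂ) ^ 2 := by
    rw [eq_div_iff (pow_ne_zero 2 hrC), ← hzz, ← hRG]
    ring
  have hkap : kapf (z t) (z1 t) = G / r ^ 2 := rfl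
  have hI : I * I = -1 := I_mul_I
  constructor
  · refine HasDerivWithinAt.congr_deriv (f := fun t => b t / z t) (hb.div hz h0) (Eq.symm ?_)
    rw [vf, hkap]
    push_cast
    field_simp
  · have dk : HasDerivWithinAt (fun t => (kapf (z t) (z1 t) : ℂ))
        (- (2 * (G : ℂ) * ((R / r : ℝ) : ℂ) / (r : ℂ) ^ 3)) D t := by
      have h2 : (fun t => (kapf (z t) (z1 t) : ℂ)) = fun t =>
          (Gz (z t) (z1 t) : ℂ) / (‖z t‖ : ℂ) ^ 2 := by
        funext s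
        rw [kapf]
        push_cast
        rfl
      rw [h2]
      refine HasDerivWithinAt.congr_deriv (f := fun t => (Gz (z t) (z1 t) : ℂ) / (‖z t‖ : ℂ) ^ 2)
        (dGC.div (dr.pow 2) (pow_ne_zero 2 hrC)) (Eq.symm ?_)
      simp only [← hrdef, ← hGdef]
      push_cast
      field_simp
      simp
    have hk0 : (kapf (z t) (z1 t) : ℂ) ≠ 0 := by
      rw [hkap]
      push_cast
      exact div_ne_zero hGC (pow_ne_zero 2 hrC)
    refine HasDerivWithinAt.congr_deriv (f := fun t => vf (z t) (z1 t) (b t) (b1 t))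
      ((((hb1.mul hz).sub (hb.mul hz1)).div (hz.pow 2) (pow_ne_zero 2 h0)).div dk hk0)
      (Eq.symm ?_)
    rw [hden, vf, LN, map_div₀]
    simp only [hkap, Pi.mul_apply, Pi.sub_apply, Pi.pow_apply, Pi.div_apply, ← hrdef]
    rw [hz1']
    push_cast
    field_simp
    ring


open Complex in
/-- periodicity of the coefficients -/
private lemma mla_per (s : ℝ) (e : ℂ) (θ : ℝ) : Bs s e (θ + 2 * Real.pi) = Bs s e θ := by
  simp only [Bs, MP_5027f4_ell.rho, Real.cos_add_two_pi]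

/-- powers of the monodromy -/
private lemma mla_pow {A X Y : ℝ → Mat} (hX : IsFund A X) (hY : IsCofund A Y)
    (hper : ∀ θ, A (θ + 2 * Real.pi) = A θ) (θ : ℝ) (k : ℕ) :
    X (θ + k * (2 * Real.pi)) = X θ * X (2 * Real.pi) ^ k := by
  induction k with
  | zero => simp
  | succ k ih =>
    have h := (MP_5027f4_ell.fund_add hX hY hper (θ + k * (2 * Real.pi))).1
    rw [show θ + ((k + 1 : ℕ) : ℝ) * (2 * Real.pi) = θ + k * (2 * Real.pi) + 2 * Real.pi by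
      push_cast; ring, h, ih, pow_succ, Matrix.mul_assoc]

/-- the transported vector is constant -/
private lemma mla_trans {s T : ℝ} {e : ℂ} {X Y : ℝ → Mat} (hX : IsFund (Bs s e) X)
    (hY : IsCofund (Bs s e) Y) {W : ℝ → Fin 4 → ℂ} {f κ : ℝ → ℝ} (hT : 0 ≤ T)
    (hf : ∀ t ∈ Icc 0 T, HasDerivWithinAt f (κ t) (Icc 0 T) t)
    (hW : ∀ t ∈ Icc 0 T, ∀ i, HasDerivWithinAt (fun t => W t i)
      ((κ t : ℂ) * (Bs s e (f t)).mulVec (W t) i) (Icc 0 T) t) :
    W T = (X (f T) * Y (f 0)).mulVec (W 0) := by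
  have h : ∀ i, ∀ t ∈ Icc 0 T,
      HasDerivWithinAt (fun t => (Y (f t)).mulVec (W t) i) 0 (Icc 0 T) t := by
    intro i t ht
    have h1 : ∀ k, HasDerivWithinAt (fun t => Y (f t) i k * W t k)
        ((κ t : ℂ) * (-((Y (f t) * Bs s e (f t)) i k)) * W t k +
          Y (f t) i k * ((κ t : ℂ) * (Bs s e (f t)).mulVec (W t) k)) (Icc 0 T) t := by
      intro k
      have h2 := (hY.2 (f t) i k).scomp_hasDerivWithinAt t (hf t ht)
      exact (h2.mul (hW t ht k)).congr_deriv (by simp)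
    have h2 := HasDerivWithinAt.fun_sum (u := Finset.univ) fun k _ => h1 k
    refine h2.congr_deriv ?_
    have h3 : (Y (f t) * Bs s e (f t)).mulVec (W t) i =
        (Y (f t)).mulVec ((Bs s e (f t)).mulVec (W t)) i := by
      rw [Matrix.mulVec_mulVec]
    have h4 : ∑ k, ((κ t : ℂ) * (-((Y (f t) * Bs s e (f t)) i k)) * W t k +
          Y (f t) i k * ((κ t : ℂ) * (Bs s e (f t)).mulVec (W t) k)) =
        (κ t : ℂ) * (-((Y (f t) * Bs s e (f t)).mulVec (W t) i) +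
          (Y (f t)).mulVec ((Bs s e (f t)).mulVec (W t)) i) := by
      rw [Matrix.mulVec, Matrix.mulVec, dotProduct, dotProduct, ← Finset.sum_neg_distrib,
        ← Finset.sum_add_distrib, Finset.mul_sum]
      refine Finset.sum_congr rfl fun k _ => ?_
      ring
    rw [h4, h3]
    ring
  have h5 : (Y (f T)).mulVec (W T) = (Y (f 0)).mulVec (W 0) := by
    ext i
    exact mla_const (h i) ⟨hT, le_rfl⟩
  rw [← Matrix.mulVec_mulVec, ← h5, Matrix.mulVec_mulVec,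
    MP_5027f4_ell.fund_mul_cofund hX hY, Matrix.one_mulVec]

/-- Proof.  `G = Gz (z t) (z1 t)` and `ε = epsf M (z t) (z1 t)` are constant (derivative `0`); with
`κ = kapf = G / |z|²` and `ζ = z / |z|`: `ζ' = i κ ζ`, so `ζ = exp (i θ)`, `θ t = arg (z 0) + ∫ κ`.
`M |z| (1 + Re (conj ε ζ)) = G²` (`MP_5027f4_ell.epsf_identity`), `Re (conj ε ζ) = |ε| cos f`,
`f = θ - arg ε`, so `κ = M² (1 + |ε| cos f)² / G³ ≤ 4 M² / G³`.  For a solution `b` put `U = b / z`,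
`V = vf z z1 b b1 = (b1 z - b z1) / z² / κ`: `U' = κ V`, `V' = κ (- 2 i V + (3 / 2) (U + s conj U) /
(1 + |ε| cos f))` (use `κ' = - 2 κ Re (z1 / z)`, `Im (z1 / z) = κ`, `M |z| κ / ... ` as in
`MP_5027f4_ell.red_deriv`), i.e. `(vec U V)' = κ • Bs s |ε| f *ᵥ vec U V`; so
`vec U V (t) = X (f t) * Y (f 0) *ᵥ vec U V (0)` (derivative of `Y (f t) *ᵥ vec U V (t)` is `0`).  At `T`:
`exp (i (θ T - θ 0)) = 1`, so `f T = f 0 + 2 π k` with `k ∈ ℕ` (`κ > 0`), `2 π k ≤ 4 M² T / G³`, and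
`X (f 0 + 2 π k) = X (f 0) * X (2 π) ^ k` (`fund_add`). -/
theorem link_vec {M s T : ℝ} (hM : 0 < M) (hT : 0 < T) {z z1 : ℝ → ℂ} (hz : KSol M T z z1)
    (hG : 0 < Gz (z 0) (z1 0)) (hz0 : z T = z 0) (hz1 : z1 T = z1 0)
    (he : ‖epsf M (z 0) (z1 0)‖ < 1) {X Y : ℝ → Mat}
    (hX : IsFund (Bs s ((‖epsf M (z 0) (z1 0)‖ : ℝ) : ℂ)) X)
    (hY : IsCofund (Bs s ((‖epsf M (z 0) (z1 0)‖ : ℝ) : ℂ)) Y) :
    ∃ k : ℕ, (k : ℝ) * (2 * Real.pi) ≤ 4 * M ^ 2 / Gz (z 0) (z1 0) ^ 3 * T ∧ ∃ f₀ : ℝ,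
      ∀ b b1, LSol M s T z b b1 →
        MP_5027f4_ell.vec (b T / z 0) (vf (z 0) (z1 0) (b T) (b1 T)) =
          (X f₀ * X (2 * Real.pi) ^ k * Y f₀).mulVec
            (MP_5027f4_ell.vec (b 0 / z 0) (vf (z 0) (z1 0) (b 0) (b1 0))) := by
  have hT0 : (0 : ℝ) ≤ T := hT.le
  have h00 : (0 : ℝ) ∈ Icc 0 T := ⟨le_rfl, hT0⟩
  have hTT : T ∈ Icc 0 T := ⟨hT0, le_rfl⟩
  set G : ℝ := Gz (z 0) (z1 0) with hGd
  set ε : ℂ := epsf M (z 0) (z1 0) with hεd
  have hGc : ∀ t ∈ Icc 0 T, Gz (z t) (z1 t) = G := fun t ht =>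
    mla_const (f := fun t => Gz (z t) (z1 t))
      (fun t ht => mla_G (hz t ht).1 (hz t ht).2.1 (hz t ht).2.2) ht
  have hGp : ∀ t ∈ Icc 0 T, 0 < Gz (z t) (z1 t) := fun t ht => by
    rw [hGc t ht]
    exact hG
  have hεc : ∀ t ∈ Icc 0 T, epsf M (z t) (z1 t) = ε := fun t ht =>
    mla_const (f := fun t => epsf M (z t) (z1 t))
      (fun t ht => (mla_kep hM (hz t ht).1 (hz t ht).2.1 (hz t ht).2.2 (hGp t ht)).2) ht
  have hzc : ContinuousOn z (Icc 0 T) := fun t ht => (hz t ht).2.1.continuousWithinAt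
  have hκc : ContinuousOn (fun t => kapf (z t) (z1 t)) (Icc 0 T) := by
    have h1 : ContinuousOn (fun t => G / ‖z t‖ ^ 2) (Icc 0 T) :=
      continuousOn_const.div (hzc.norm.pow 2) fun t ht =>
        pow_ne_zero 2 (norm_ne_zero_iff.mpr (hz t ht).1)
    refine h1.congr fun t ht => ?_
    simp only [kapf]
    rw [hGc t ht]
  let κ' : ℝ → ℝ := IccExtend hT0 ((Icc 0 T).domRestrict fun t => kapf (z t) (z1 t))
  have hκ'c : Continuous κ' := (continuousOn_iff_continuous_domRestrict.mp hκc).Icc_extend'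
  have hκ'e : ∀ t ∈ Icc 0 T, κ' t = kapf (z t) (z1 t) := fun t ht => by
    simp only [κ']
    rw [IccExtend_of_mem _ _ ht]
    rfl
  let θ : ℝ → ℝ := fun t => Complex.arg (z 0) + ∫ x in (0 : ℝ)..t, κ' x
  have hθ : ∀ t, HasDerivAt θ (κ' t) t := fun t =>
    (intervalIntegral.integral_hasDerivAt_right (hκ'c.intervalIntegrable 0 t)
      (hκ'c.stronglyMeasurableAtFilter _ _) hκ'c.continuousAt).const_add _
  have hθ0 : θ 0 = Complex.arg (z 0) := by simp [θ]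
  have hexp : ∀ t, HasDerivAt (fun t => Complex.exp (-((θ t : ℝ) : ℂ) * Complex.I))
      (Complex.exp (-((θ t : ℝ) : ℂ) * Complex.I) * (-((κ' t : ℝ) : ℂ) * Complex.I)) t := fun t =>
    (((hθ t).ofReal_comp.neg).mul_const Complex.I).cexp
  have hζ : ∀ t ∈ Icc 0 T, z t / (‖z t‖ : ℂ) = Complex.exp (((θ t : ℝ) : ℂ) * Complex.I) := by
    intro t ht
    have h1 := mla_const (f := fun t => z t / (‖z t‖ : ℂ) *
      Complex.exp (-((θ t : ℝ) : ℂ) * Complex.I)) (T := T) (fun t ht => by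
        refine ((mla_kep hM (hz t ht).1 (hz t ht).2.1 (hz t ht).2.2 (hGp t ht)).1.mul
          (hexp t).hasDerivWithinAt).congr_deriv ?_
        rw [hκ'e t ht]
        ring) ht
    have h2 : z 0 / (‖z 0‖ : ℂ) * Complex.exp (-((θ 0 : ℝ) : ℂ) * Complex.I) = 1 := by
      have h3 : z 0 / (‖z 0‖ : ℂ) = Complex.exp (((θ 0 : ℝ) : ℂ) * Complex.I) := by
        rw [hθ0, div_eq_iff (by exact_mod_cast norm_ne_zero_iff.mpr (hz 0 h00).1), mul_comm]
        exact (Complex.norm_mul_exp_arg_mul_I (z 0)).symm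
      rw [h3, ← Complex.exp_add]
      simp
    simp only [h2] at h1
    rw [neg_mul, Complex.exp_neg] at h1
    field_simp at h1
    rw [h1]
  have hcos : ∀ t ∈ Icc 0 T, (conj ε * (z t / (‖z t‖ : ℂ))).re =
      ‖ε‖ * Real.cos (θ t - Complex.arg ε) := by
    intro t ht
    rw [hζ t ht]
    have h1 : conj ε = (‖ε‖ : ℂ) * Complex.exp (-((Complex.arg ε : ℝ) : ℂ) * Complex.I) := by
      conv_lhs => rw [← Complex.norm_mul_exp_arg_mul_I ε]
      rw [map_mul, Complex.conj_ofReal, ← Complex.exp_conj, map_mul, Complex.conj_ofReal,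
        Complex.conj_I]
      congr 2
      ring
    rw [h1, mul_assoc, ← Complex.exp_add, Complex.re_ofReal_mul]
    congr 1
    rw [show -((Complex.arg ε : ℝ) : ℂ) * Complex.I + ((θ t : ℝ) : ℂ) * Complex.I =
      ((θ t - Complex.arg ε : ℝ) : ℂ) * Complex.I by push_cast; ring, Complex.exp_ofReal_mul_I_re]
  have hκb : ∀ t ∈ Icc 0 T, κ' t ≤ 4 * M ^ 2 / G ^ 3 := by
    intro t ht
    have h1 := (MP_5027f4_ell.epsf_identity M hM (z t) (z1 t) (hz t ht).1).1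
    rw [hεc t ht, hGc t ht, hcos t ht] at h1
    have hr : 0 < ‖z t‖ := norm_pos_iff.mpr (hz t ht).1
    rw [hκ'e t ht, kapf, hGc t ht, div_le_div_iff₀ (by positivity) (by positivity)]
    have h2 : ‖ε‖ * Real.cos (θ t - Complex.arg ε) ≤ 1 := by
      have := Real.cos_le_one (θ t - Complex.arg ε)
      have := Real.neg_one_le_cos (θ t - Complex.arg ε)
      nlinarith [norm_nonneg ε]
    set ρ : ℝ := ‖ε‖ * Real.cos (θ t - Complex.arg ε) with hρ
    have h3 : G ^ 2 ≤ M * ‖z t‖ * 2 := by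
      rw [← h1]
      have : 0 ≤ M * ‖z t‖ := by positivity
      nlinarith
    have h4 : (G ^ 2) ^ 2 ≤ (M * ‖z t‖ * 2) ^ 2 := pow_le_pow_left₀ (by positivity) h3 2
    calc G * G ^ 3 = (G ^ 2) ^ 2 := by ring
      _ ≤ _ := h4
      _ = _ := by ring
  have hκn : ∀ t ∈ Icc 0 T, 0 ≤ κ' t := by
    intro t ht
    rw [hκ'e t ht, kapf, hGc t ht]
    positivity
  have hI0 : 0 ≤ ∫ x in (0 : ℝ)..T, κ' x := intervalIntegral.integral_nonneg hT0 hκn
  have hI1 : ∫ x in (0 : ℝ)..T, κ' x ≤ 4 * M ^ 2 / G ^ 3 * T := by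
    have h1 := intervalIntegral.integral_mono_on (μ := MeasureTheory.volume) hT0
      (hκ'c.intervalIntegrable 0 T) (continuous_const.intervalIntegrable 0 T) hκb
    rw [intervalIntegral.integral_const, smul_eq_mul, sub_zero, mul_comm] at h1
    exact h1
  have hθT : θ T = θ 0 + ∫ x in (0 : ℝ)..T, κ' x := by rw [hθ0]
  obtain ⟨n, hn⟩ : ∃ n : ℤ, θ T = θ 0 + n * (2 * Real.pi) := by
    have h1 : Complex.exp (((θ T : ℝ) : ℂ) * Complex.I) =
        Complex.exp (((θ 0 : ℝ) : ℂ) * Complex.I) := by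
      rw [← hζ T hTT, ← hζ 0 h00, hz0]
    obtain ⟨n, hn⟩ := Complex.exp_eq_exp_iff_exists_int.mp h1
    refine ⟨n, ?_⟩
    have h2 : ((θ T : ℝ) : ℂ) = ((θ 0 + n * (2 * Real.pi) : ℝ) : ℂ) := by
      have h3 : (((θ T : ℝ) : ℂ)) * Complex.I =
          ((θ 0 + n * (2 * Real.pi) : ℝ) : ℂ) * Complex.I := by
        rw [hn]
        push_cast
        ring
      exact mul_right_cancel₀ Complex.I_ne_zero h3
    exact_mod_cast h2
  have hn0 : 0 ≤ n := by
    have h1 : 0 ≤ (n : ℝ) * (2 * Real.pi) := by linarith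
    have h2 : 0 < 2 * Real.pi := by positivity
    have h3 : (0 : ℝ) ≤ n := nonneg_of_mul_nonneg_left h1 h2
    exact_mod_cast h3
  obtain ⟨k, rfl⟩ := Int.eq_ofNat_of_zero_le hn0
  refine ⟨k, ?_, θ 0 - Complex.arg ε, fun b b1 hb => ?_⟩
  · have h1 : ((k : ℤ) : ℝ) = (k : ℝ) := by simp
    rw [h1] at hn
    linarith
  · have hW : ∀ t ∈ Icc 0 T, ∀ i, HasDerivWithinAt
        (fun t => MP_5027f4_ell.vec (b t / z t) (vf (z t) (z1 t) (b t) (b1 t)) i)
        ((κ' t : ℂ) * (Bs s ((‖ε‖ : ℝ) : ℂ) (θ t - Complex.arg ε)).mulVec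
          (MP_5027f4_ell.vec (b t / z t) (vf (z t) (z1 t) (b t) (b1 t))) i) (Icc 0 T) t := by
      intro t ht
      obtain ⟨d1, d2⟩ := mla_v hM (hz t ht).1 (hz t ht).2.1 (hz t ht).2.2 (hb t ht).1 (hb t ht).2
        (hGp t ht)
      rw [hεc t ht, hcos t ht, ← hκ'e t ht] at d2
      rw [← hκ'e t ht] at d1
      have e1 := (MP_5027f4_ell.hasDerivWithinAt_re' d1).ofReal_comp
      have e2 := (MP_5027f4_ell.hasDerivWithinAt_im' d1).ofReal_comp
      have e3 := (MP_5027f4_ell.hasDerivWithinAt_re' d2).ofReal_comp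
      have e4 := (MP_5027f4_ell.hasDerivWithinAt_im' d2).ofReal_comp
      have hden : ((1 : ℝ) + ‖ε‖ * Real.cos (θ t - Complex.arg ε)) ≠ 0 := by
        have := (MP_5027f4_ell.epsf_identity M hM (z t) (z1 t) (hz t ht).1).1
        rw [hεc t ht, hcos t ht] at this
        intro h0
        rw [h0, mul_zero] at this
        exact (pow_pos (hGp t ht) 2).ne this
      set u : ℂ := b t / z t with hu
      set v : ℂ := vf (z t) (z1 t) (b t) (b1 t) with hv
      set q : ℝ := θ t - Complex.arg ε with hq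
      have hrho : MP_5027f4_ell.rho ((‖ε‖ : ℝ) : ℂ) q = (((1 + ‖ε‖ * Real.cos q)⁻¹ : ℝ) : ℂ) := by
        rw [MP_5027f4_ell.rho]
        push_cast
        rfl
      have k3 : ((κ' t : ℂ) * (-2 * Complex.I * v + ((3 / 2 : ℝ) : ℂ) * (u + (s : ℂ) * conj u) /
          ((1 + ‖ε‖ * Real.cos q : ℝ) : ℂ))).re = κ' t * (3 / 2 * (1 + s) *
            (1 + ‖ε‖ * Real.cos q)⁻¹ * u.re + 2 * v.im) := by
        rw [Complex.re_ofReal_mul, Complex.add_re, Complex.div_ofReal_re, Complex.re_ofReal_mul]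
        simp [-mul_eq_mul_left_iff]
        ring
      have k4 : ((κ' t : ℂ) * (-2 * Complex.I * v + ((3 / 2 : ℝ) : ℂ) * (u + (s : ℂ) * conj u) /
          ((1 + ‖ε‖ * Real.cos q : ℝ) : ℂ))).im = κ' t * (3 / 2 * (1 - s) *
            (1 + ‖ε‖ * Real.cos q)⁻¹ * u.im - 2 * v.re) := by
        rw [Complex.im_ofReal_mul, Complex.add_im, Complex.div_ofReal_im, Complex.im_ofReal_mul]
        simp [-mul_eq_mul_left_iff]
        ring
      rw [k3] at e3
      rw [k4] at e4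
      intro i
      fin_cases i
      · refine e1.congr_deriv ?_
        simp [Bs, MP_5027f4_ell.vec, Matrix.mulVec, dotProduct, Fin.sum_univ_four, -mul_eq_mul_left_iff]
      · refine e2.congr_deriv ?_
        simp [Bs, MP_5027f4_ell.vec, Matrix.mulVec, dotProduct, Fin.sum_univ_four, -mul_eq_mul_left_iff]
      · refine e3.congr_deriv ?_
        simp [Bs, MP_5027f4_ell.vec, Matrix.mulVec, dotProduct, Fin.sum_univ_four, -mul_eq_mul_left_iff, hrho]
      · refine e4.congr_deriv ?_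
        simp [Bs, MP_5027f4_ell.vec, Matrix.mulVec, dotProduct, Fin.sum_univ_four, -mul_eq_mul_left_iff, hrho]
        ring
    have h2 := mla_trans hX hY hT0 (f := fun t => θ t - Complex.arg ε)
      (fun t ht => ((hθ t).sub_const _).hasDerivWithinAt) hW
    rw [hz0, hz1] at h2
    rw [h2]
    have h3 : θ T - Complex.arg ε = θ 0 - Complex.arg ε + k * (2 * Real.pi) := by
      rw [hn]
      push_cast
      ring
    rw [h3, mla_pow hX hY (mla_per s _)]

end Pool.Agent.MP_5027f4_cont
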