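import Pool.Agent.Lib_MP_5027f4_cont.MBlk
import Pool.Agent.Lib_MP_5027f4_cont.MLinkA
import Pool.Agent.Lib_MP_5027f4_ell.OdeA
import Pool.Agent.Lib_MP_5027f4_ell.OdeE

/-!
PIECE [MLinkB] (MP_5027f4_mp, T2).  Characteristic polynomial of the normal monodromy at `1`.
-/

open Set Filter Topology Metric Polynomial
open scoped ComplexConjugate ContDiff
open Pool.Agent.MP_5027f4_mp
open Pool.Agent.MP_5027f4_ell (Tri Shape cc coord Mt sg sm Nn Gz epsf kapf vf Bs IsFund IsCofund Mat)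

namespace Pool.Agent.MP_5027f4_cont

/-- the eccentricities in `[0, 1)` are regular -/
private theorem lk_mem_Om {ε : ℝ} (h0 : 0 ≤ ε) (h1 : ε < 1) : ((ε : ℝ) : ℂ) ∈ MP_5027f4_ell.Om := by
  intro θ h
  have h2 : ((1 + ε * Real.cos θ : ℝ) : ℂ) = 0 := by
    push_cast
    simpa using h
  have h3 : 1 + ε * Real.cos θ = 0 := by exact_mod_cast h2
  have h4 := Real.neg_one_le_cos θ
  have h5 := Real.cos_le_one θ
  nlinarith

/-- the coordinates -/
private noncomputable def lkL (z z1 : ℂ) (hz : z ≠ 0) (hG : Gz z z1 ≠ 0) :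
    (ℂ × ℂ) ≃ₗ[ℝ] (Fin 4 → ℝ) where
  toFun p := ![(p.1 / z).re, (p.1 / z).im, (vf z z1 p.1 p.2).re, (vf z z1 p.1 p.2).im]
  map_add' p q := by
    have e1 : (p + q).1 / z = p.1 / z + q.1 / z := by
      rw [Prod.fst_add, add_div]
    have e2 : vf z z1 (p + q).1 (p + q).2 = vf z z1 p.1 p.2 + vf z z1 q.1 q.2 := by
      unfold vf
      rw [Prod.fst_add, Prod.snd_add, ← add_div, ← add_div]
      congr 2
      ring
    rw [e1, e2]
    ext i
    fin_cases i <;> simp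
  map_smul' c p := by
    have e1 : (c • p).1 / z = (c : ℂ) * (p.1 / z) := by
      rw [Prod.smul_fst, Complex.real_smul, mul_div_assoc]
    have e2 : vf z z1 (c • p).1 (c • p).2 = (c : ℂ) * vf z z1 p.1 p.2 := by
      unfold vf
      rw [Prod.smul_fst, Prod.smul_snd, Complex.real_smul, Complex.real_smul, ← mul_div_assoc,
        ← mul_div_assoc]
      congr 2
      ring
    rw [e1, e2]
    ext i
    fin_cases i <;> simp
  invFun v := (((v 0 : ℂ) + (v 1 : ℂ) * Complex.I) * z,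
    ((v 2 : ℂ) + (v 3 : ℂ) * Complex.I) * (kapf z z1 : ℂ) * z +
      ((v 0 : ℂ) + (v 1 : ℂ) * Complex.I) * z1)
  left_inv p := by
    have hk : (kapf z z1 : ℂ) ≠ 0 := by
      have : kapf z z1 ≠ 0 := by
        unfold kapf
        exact div_ne_zero hG (pow_ne_zero _ (norm_ne_zero_iff.mpr hz))
      exact_mod_cast this
    have a1 : (((p.1 / z).re : ℝ) : ℂ) + (((p.1 / z).im : ℝ) : ℂ) * Complex.I = p.1 / z :=
      Complex.re_add_im _
    have a2 : (((vf z z1 p.1 p.2).re : ℝ) : ℂ) + (((vf z z1 p.1 p.2).im : ℝ) : ℂ) * Complex.I =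
        vf z z1 p.1 p.2 := Complex.re_add_im _
    change ((((p.1 / z).re : ℂ) + ((p.1 / z).im : ℂ) * Complex.I) * z,
      (((vf z z1 p.1 p.2).re : ℂ) + ((vf z z1 p.1 p.2).im : ℂ) * Complex.I) * (kapf z z1 : ℂ) * z +
        (((p.1 / z).re : ℂ) + ((p.1 / z).im : ℂ) * Complex.I) * z1) = p
    rw [a1, a2]
    ext1
    · change p.1 / z * z = p.1
      rw [div_mul_cancel₀ _ hz]
    · change vf z z1 p.1 p.2 * (kapf z z1 : ℂ) * z + p.1 / z * z1 = p.2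
      unfold vf
      rw [div_mul_cancel₀ _ hk]
      field_simp
      ring
  right_inv v := by
    have hk : (kapf z z1 : ℂ) ≠ 0 := by
      have : kapf z z1 ≠ 0 := by
        unfold kapf
        exact div_ne_zero hG (pow_ne_zero _ (norm_ne_zero_iff.mpr hz))
      exact_mod_cast this
    have e1 : ((v 0 : ℂ) + (v 1 : ℂ) * Complex.I) * z / z = (v 0 : ℂ) + (v 1 : ℂ) * Complex.I :=
      mul_div_cancel_right₀ _ hz
    have e2 : vf z z1 (((v 0 : ℂ) + (v 1 : ℂ) * Complex.I) * z)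
        (((v 2 : ℂ) + (v 3 : ℂ) * Complex.I) * (kapf z z1 : ℂ) * z +
          ((v 0 : ℂ) + (v 1 : ℂ) * Complex.I) * z1) = (v 2 : ℂ) + (v 3 : ℂ) * Complex.I := by
      unfold vf
      rw [div_div, div_eq_iff (mul_ne_zero (pow_ne_zero _ hz) hk)]
      ring
    ext i
    change (![((((v 0 : ℂ) + (v 1 : ℂ) * Complex.I) * z) / z).re,
      ((((v 0 : ℂ) + (v 1 : ℂ) * Complex.I) * z) / z).im,
      (vf z z1 (((v 0 : ℂ) + (v 1 : ℂ) * Complex.I) * z)
        (((v 2 : ℂ) + (v 3 : ℂ) * Complex.I) * (kapf z z1 : ℂ) * z +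
          ((v 0 : ℂ) + (v 1 : ℂ) * Complex.I) * z1)).re,
      (vf z z1 (((v 0 : ℂ) + (v 1 : ℂ) * Complex.I) * z)
        (((v 2 : ℂ) + (v 3 : ℂ) * Complex.I) * (kapf z z1 : ℂ) * z +
          ((v 0 : ℂ) + (v 1 : ℂ) * Complex.I) * z1)).im] : Fin 4 → ℝ) i = v i
    rw [e1, e2]
    fin_cases i <;> simp

private theorem lkL_vec (z z1 : ℂ) (hz : z ≠ 0) (hG : Gz z z1 ≠ 0) (p : ℂ × ℂ) (i : Fin 4) :
    MP_5027f4_ell.vec (p.1 / z) (vf z z1 p.1 p.2) i = ((lkL z z1 hz hG p i : ℝ) : ℂ) := by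
  fin_cases i <;> rfl

/-- Proof.  The real linear map `Λ (b, b1) = vec (b / z₀) (vf z₀ z₁ b b1)` maps `ℂ × ℂ` bijectively on
the real vectors of `Fin 4 → ℂ` (`vf z₀ z₁ b b1 = (b1 z₀ - b z₁) / z₀² / κ`, `κ ≠ 0`).  By `link_vec`
and `exists_lsol`, `Λ (B p) = N *ᵥ Λ p` for all `p`, with `N = X f₀ * X (2 π) ^ k * Y f₀`.  So `N` maps real
vectors to real vectors, it is the complexification of the matrix of `B` in the real basis `Λ⁻¹ e_j`, and
`(cp B).eval 1 = det (1 - N) = det (X f₀ * (1 - X (2 π) ^ k) * Y f₀) = det (1 - X (2 π) ^ k)`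
(`fund_mul_cofund`). -/
theorem link_det {M s T : ℝ} (hM : 0 < M) (hT : 0 < T) {z z1 : ℝ → ℂ} (hz : KSol M T z z1)
    (hG : 0 < Gz (z 0) (z1 0)) (hz0 : z T = z 0) (hz1 : z1 T = z1 0)
    (he : ‖epsf M (z 0) (z1 0)‖ < 1) {X : ℝ → Mat}
    (hX : IsFund (Bs s ((‖epsf M (z 0) (z1 0)‖ : ℝ) : ℂ)) X)
    {B : (ℂ × ℂ) →L[ℝ] (ℂ × ℂ)} (hB : IsMono M s T z 1 B) :
    ∃ k : ℕ, (k : ℝ) * (2 * Real.pi) ≤ 4 * M ^ 2 / Gz (z 0) (z1 0) ^ 3 * T ∧
      (((cp B).eval 1 : ℝ) : ℂ) = (1 - X (2 * Real.pi) ^ k).det := by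
  have hε0 : 0 ≤ ‖epsf M (z 0) (z1 0)‖ := norm_nonneg _
  obtain ⟨Y, hY⟩ := MP_5027f4_ell.exists_cofund
    (Bs s ((‖epsf M (z 0) (z1 0)‖ : ℝ) : ℂ))
    (MP_5027f4_ell.continuous_Bs s (lk_mem_Om hε0 he))
  obtain ⟨k, hk, f₀, H⟩ := link_vec hM hT hz hG hz0 hz1 he hX hY
  refine ⟨k, hk, ?_⟩
  have hz00 : z 0 ≠ 0 := (hz 0 ⟨le_rfl, hT.le⟩).1
  have hG' : Gz (z 0) (z1 0) ≠ 0 := hG.ne'
  set L := lkL (z 0) (z1 0) hz00 hG' with hL
  set N : Mat := X f₀ * X (2 * Real.pi) ^ k * Y f₀ with hN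
  have key : ∀ p : ℂ × ℂ, (fun i => ((L (B p) i : ℝ) : ℂ)) = N.mulVec (fun i => ((L p i : ℝ) : ℂ)) := by
    intro p
    obtain ⟨b, b1, hb, hb0, hb1⟩ := exists_lsol (s := s) hT.le hz p
    have h1 := H b b1 hb
    have h2 := hB b b1 hb
    rw [inv_one, one_mul, one_mul, hb0, hb1, Prod.mk.eta] at h2
    have h3 : MP_5027f4_ell.vec (b T / z 0) (vf (z 0) (z1 0) (b T) (b1 T)) =
        fun i => ((L (B p) i : ℝ) : ℂ) := by
      funext i
      rw [h2]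
      exact lkL_vec (z 0) (z1 0) hz00 hG' (b T, b1 T) i
    have h4 : MP_5027f4_ell.vec (b 0 / z 0) (vf (z 0) (z1 0) (b 0) (b1 0)) =
        fun i => ((L p i : ℝ) : ℂ) := by
      funext i
      rw [hb0, hb1]
      exact lkL_vec (z 0) (z1 0) hz00 hG' p i
    rw [h3, h4] at h1
    exact h1
  let bs : Module.Basis (Fin 4) ℝ (ℂ × ℂ) := Module.Basis.ofEquivFun L
  let Mr : Matrix (Fin 4) (Fin 4) ℝ := LinearMap.toMatrix bs bs (B : (ℂ × ℂ) →ₗ[ℝ] (ℂ × ℂ))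
  have hMr : ∀ i j, ((Mr i j : ℝ) : ℂ) = N i j := by
    intro i j
    have h1 : Mr i j = L (B (L.symm (Pi.single j 1))) i := by
      change LinearMap.toMatrix bs bs (B : (ℂ × ℂ) →ₗ[ℝ] (ℂ × ℂ)) i j = _
      rw [LinearMap.toMatrix_apply, Module.Basis.ofEquivFun_repr_apply, Module.Basis.coe_ofEquivFun]
      rfl
    have h2 := congrFun (key (L.symm (Pi.single j 1))) i
    rw [LinearEquiv.apply_symm_apply] at h2
    rw [h1]
    refine h2.trans ?_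
    rw [Matrix.mulVec, dotProduct, Finset.sum_eq_single j]
    · rw [Pi.single_eq_same, Complex.ofReal_one, mul_one]
    · intro l _ hl
      rw [Pi.single_eq_of_ne hl, Complex.ofReal_zero, mul_zero]
    · intro h
      exact absurd (Finset.mem_univ j) h
  have hcp : (cp B).eval 1 = (1 - Mr).det := by
    unfold cp
    rw [← LinearMap.charpoly_toMatrix (B : (ℂ × ℂ) →ₗ[ℝ] (ℂ × ℂ)) bs, Matrix.eval_charpoly, map_one]
  rw [hcp]
  have h5 : (((1 - Mr).det : ℝ) : ℂ) = (1 - N).det := by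
    have h6 := RingHom.map_det Complex.ofRealHom (1 - Mr)
    rw [Complex.ofRealHom_eq_coe] at h6
    rw [h6]
    congr 1
    ext i j
    rw [RingHom.mapMatrix_apply, Matrix.map_apply, Matrix.sub_apply, Matrix.sub_apply, ← hMr i j,
      map_sub]
    by_cases h : i = j
    · subst h
      rw [Matrix.one_apply_eq, Matrix.one_apply_eq, map_one]
      rfl
    · rw [Matrix.one_apply_ne h, Matrix.one_apply_ne h, map_zero]
      rfl
  rw [h5]
  have hXY : X f₀ * Y f₀ = 1 := MP_5027f4_ell.fund_mul_cofund hX hY f₀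
  have h7 : 1 - N = X f₀ * (1 - X (2 * Real.pi) ^ k) * Y f₀ := by
    rw [Matrix.mul_sub, Matrix.mul_one, Matrix.sub_mul, hXY]
  rw [h7, Matrix.det_mul, Matrix.det_mul, mul_comm (X f₀).det, mul_assoc, ← Matrix.det_mul, hXY,
    Matrix.det_one, mul_one]

end Pool.Agent.MP_5027f4_cont
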