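import Pool.Agent.Lib_MP_5027f4_cont.MLinkB

/-!
PIECE [MLinkC] (MP_5027f4_mp, T2).  The same for both orientations.
-/

open Set Filter Topology Metric Polynomial
open scoped ComplexConjugate ContDiff
open Pool.Agent.MP_5027f4_mp
open Pool.Agent.MP_5027f4_ell (Tri Shape cc coord Mt sg sm Nn Gz epsf kapf vf Bs IsFund IsCofund Mat)

namespace Pool.Agent.MP_5027f4_cont

private theorem hasDeriv_conj {f : ℝ → ℂ} {f' : ℂ} {S : Set ℝ} {t : ℝ}
    (h : HasDerivWithinAt f f' S t) :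
    HasDerivWithinAt (fun t => conj (f t)) (conj f') S t :=
  (Complex.conjCLE : ℂ →L[ℝ] ℂ).hasFDerivAt.comp_hasDerivWithinAt t h

private theorem gz_conj (z z1 : ℂ) : Gz (conj z) (conj z1) = -Gz z z1 := by
  unfold Gz
  rw [← map_mul, Complex.conj_im]

private theorem epsf_conj (M : ℝ) (z z1 : ℂ) : epsf M (conj z) (conj z1) = conj (epsf M z z1) := by
  unfold epsf
  rw [gz_conj]
  simp only [map_div₀, map_sub, map_mul, map_neg, Complex.conj_I, Complex.conj_ofReal,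
    Complex.norm_conj, Complex.ofReal_neg]
  ring

private theorem ln_conj (M s : ℝ) (z b : ℂ) : LN M s (conj z) (conj b) = conj (LN M s z b) := by
  unfold LN
  simp only [map_div₀, map_add, map_mul, Complex.conj_ofReal, Complex.norm_conj, map_ofNat]

private theorem ksol_conj {M T : ℝ} {z z1 : ℝ → ℂ} (hz : KSol M T z z1) :
    KSol M T (fun t => conj (z t)) (fun t => conj (z1 t)) := by
  intro t ht
  obtain ⟨h0, h1, h2⟩ := hz t ht
  refine ⟨(_root_.map_ne_zero _).2 h0, hasDeriv_conj h1, ?_⟩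
  have h3 := hasDeriv_conj h2
  have h4 : -(M : ℂ) * conj (z t) / ((‖conj (z t)‖ ^ 3 : ℝ) : ℂ) =
      conj (-(M : ℂ) * z t / ((‖z t‖ ^ 3 : ℝ) : ℂ)) := by
    simp only [map_div₀, map_mul, map_neg, Complex.conj_ofReal, Complex.norm_conj]
  beta_reduce
  rw [h4]
  exact h3

private theorem lsol_conj {M s T : ℝ} {z b b1 : ℝ → ℂ}
    (h : LSol M s T (fun t => conj (z t)) b b1) :
    LSol M s T z (fun t => conj (b t)) (fun t => conj (b1 t)) := by
  intro t ht
  obtain ⟨h1, h2⟩ := h t ht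
  refine ⟨hasDeriv_conj h1, ?_⟩
  have h3 := hasDeriv_conj h2
  have h4 : LN M s (z t) (conj (b t)) = conj (LN M s (conj (z t)) (b t)) := by
    rw [← ln_conj, Complex.conj_conj]
  beta_reduce
  rw [h4]
  exact h3

/-- Proof.  If `Gz (z 0) (z1 0) > 0` this is `link_det`.  If it is negative, apply `link_det` to
`conj z`, `conj z1`: `KSol` holds, `Gz` changes its sign, `epsf` is conjugated,
`LSol M s T z b b1` is equivalent to `LSol M s T (conj z) (conj b) (conj b1)` (`LN` is compatible with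
conjugation), so `B' = conj ∘ B ∘ conj` is the monodromy for `conj z`, and `cp B' = cp B`
(`LinearEquiv.charpoly_conj`). -/
theorem link_any {M s T : ℝ} (hM : 0 < M) (hT : 0 < T) {z z1 : ℝ → ℂ} (hz : KSol M T z z1)
    (hG : Gz (z 0) (z1 0) ≠ 0) (hz0 : z T = z 0) (hz1 : z1 T = z1 0)
    (he : ‖epsf M (z 0) (z1 0)‖ < 1) {X : ℝ → Mat}
    (hX : IsFund (Bs s ((‖epsf M (z 0) (z1 0)‖ : ℝ) : ℂ)) X)
    {B : (ℂ × ℂ) →L[ℝ] (ℂ × ℂ)} (hB : IsMono M s T z 1 B) :
    ∃ k : ℕ, (k : ℝ) * (2 * Real.pi) ≤ 4 * M ^ 2 / |Gz (z 0) (z1 0)| ^ 3 * T ∧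
      (((cp B).eval 1 : ℝ) : ℂ) = (1 - X (2 * Real.pi) ^ k).det := by
  rcases lt_or_gt_of_ne hG with hneg | hpos
  · have hG' : 0 < Gz (conj (z 0)) (conj (z1 0)) := by
      rw [gz_conj]
      exact neg_pos.2 hneg
    have he' : ‖epsf M (conj (z 0)) (conj (z1 0))‖ = ‖epsf M (z 0) (z1 0)‖ := by
      rw [epsf_conj, Complex.norm_conj]
    let e : (ℂ × ℂ) ≃L[ℝ] (ℂ × ℂ) := Complex.conjCLE.prodCongr Complex.conjCLE
    let B' : (ℂ × ℂ) →L[ℝ] (ℂ × ℂ) := (e : (ℂ × ℂ) →L[ℝ] (ℂ × ℂ)).comp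
      (B.comp (e.symm : (ℂ × ℂ) →L[ℝ] (ℂ × ℂ)))
    have he1 : ∀ p : ℂ × ℂ, e p = (conj p.1, conj p.2) := fun p => rfl
    have he2 : ∀ p : ℂ × ℂ, e.symm p = (conj p.1, conj p.2) := fun p => rfl
    have hB' : IsMono M s T (fun t => conj (z t)) 1 B' := by
      intro b b1 hb
      have h1 := hB _ _ (lsol_conj hb)
      beta_reduce at h1
      show e (B (e.symm (b 0, b1 0))) = _
      rw [he2, h1, he1]
      simp
    have hcp : cp B' = cp B := by
      unfold cp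
      exact LinearEquiv.charpoly_conj e.toLinearEquiv (B : (ℂ × ℂ) →ₗ[ℝ] (ℂ × ℂ))
    obtain ⟨k, hk1, hk2⟩ := link_det hM hT (ksol_conj hz) hG' (by rw [hz0])
      (by rw [hz1]) (by rw [he']; exact he) (X := X)
      (by rw [he']; exact hX) hB'
    refine ⟨k, ?_, ?_⟩
    · rw [abs_of_neg hneg]
      rwa [gz_conj] at hk1
    · rw [← hcp]
      exact hk2
  · rw [abs_of_pos hpos]
    exact link_det hM hT hz hpos hz0 hz1 he hX hB

end Pool.Agent.MP_5027f4_cont
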