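import Pool.Agent.Lib_MP_5027f4_cont.MDefs
import Pool.Agent.Lib_MP_5027f4_cont.LinNFa

/-!
PIECE [MRes] (MP_5027f4_mp, T2).  The normal block at circular orbits.
-/

open Set Filter Topology Metric Polynomial
open scoped ComplexConjugate ContDiff
open Pool.Agent.MP_5027f4_mp
open Pool.Agent.MP_5027f4_ell (Tri Shape cc coord Mt sg sm Nn Gz epsf kapf vf Bs IsFund IsCofund Mat)

namespace Pool.Agent.MP_5027f4_cont

/-- the exponential of an operator intertwined with the multiplication by a complex number -/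
private theorem mres_exp {E : Type*} [NormedAddCommGroup E] [NormedSpace ℝ E]
    [FiniteDimensional ℝ E] (N : E →L[ℝ] E) (T : ℝ) (l : ℂ) (J : ℂ →L[ℝ] E)
    (hJ : ∀ c, N (J c) = J (l * c)) (c : ℂ) :
    NormedSpace.exp (T • N) (J c) = J (Complex.exp (l * T) * c) := by
  have : CompleteSpace E := FiniteDimensional.complete ℝ E
  have h1 : ∀ n : ℕ, ((T • N) ^ n) (J c) = J ((l * T) ^ n * c) := by
    intro n
    induction n with
    | zero => simp
    | succ n ih =>
      rw [pow_succ', mul_apply_eq_comp, ih, smul_apply, hJ,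
        ← map_smul, Complex.real_smul]
      congr 1
      ring
  have h2 : HasSum (fun n : ℕ => ((n.factorial : ℝ)⁻¹ • ((T • N) ^ n))) (NormedSpace.exp (T • N)) :=
    NormedSpace.exp_series_hasSum_exp' (𝕂 := ℝ) (T • N)
  have h3 : HasSum (fun n : ℕ => ((n.factorial : ℝ)⁻¹ • ((T • N) ^ n)) (J c))
      (NormedSpace.exp (T • N) (J c)) :=
    h2.mapL (ContinuousLinearMap.apply ℝ E (J c))
  have h4 : HasSum (fun n : ℕ => ((n.factorial : ℝ)⁻¹ • ((l * T) ^ n))) (Complex.exp (l * T)) := by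
    rw [Complex.exp_eq_exp_ℂ]
    exact NormedSpace.exp_series_hasSum_exp' (𝕂 := ℝ) (l * T)
  have h5 : HasSum (fun n : ℕ => J (((n.factorial : ℝ)⁻¹ • ((l * T) ^ n)) * c))
      (J (Complex.exp (l * T) * c)) :=
    (h4.mul_right c).mapL J
  have h6 : (fun n : ℕ => ((n.factorial : ℝ)⁻¹ • ((T • N) ^ n)) (J c)) =
      fun n : ℕ => J (((n.factorial : ℝ)⁻¹ • ((l * T) ^ n)) * c) := by
    funext n
    rw [smul_apply, h1, ← map_smul, smul_mul_assoc]
  rw [h6] at h3
  exact h3.unique h5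

/-- An eigenvalue of the generator on a subspace of periodic solutions.  Proof.  `K = ker (1 - exp (T N))`
is a nonzero `N`-invariant subspace; the restriction of `N` to `K` has a characteristic polynomial of
positive degree, hence a complex root `l`, and `exists_plane` gives `x, y ∈ K`, not both zero, with
`N x = l.re x - l.im y`, `N y = l.im x + l.re y`.  Then `exp (T N) x = (exp (l T)).re x -
(exp (l T)).im y` and the same for `y` (uniqueness for `c' = N c`), and `exp (T N) = 1` on `K`, so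
`exp (l T) = 1` (if `v = x + i y ≠ 0` in the complexification, `exp (l T) v = v`). -/
theorem per_eigen {E : Type*} [NormedAddCommGroup E] [NormedSpace ℝ E] [FiniteDimensional ℝ E]
    (N : E →L[ℝ] E) {T : ℝ} (hT : 0 < T) {v : E} (hv : v ≠ 0)
    (hp : NormedSpace.exp (T • N) v = v) :
    ∃ (l : ℂ) (x y : E), (x ≠ 0 ∨ y ≠ 0) ∧ N x = l.re • x - l.im • y ∧ N y = l.im • x + l.re • y ∧
      Complex.exp (l * T) = 1 := by
  have : CompleteSpace E := FiniteDimensional.complete ℝ E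
  set P := NormedSpace.exp (T • N) with hP
  have hcomm : ∀ w, P (N w) = N (P w) := by
    intro w
    have h1 : Commute (T • N) N := (Commute.refl N).smul_left T
    have h2 : Commute P N := h1.exp_left
    exact congrArg (fun A : E →L[ℝ] E => A w) h2.eq
  let K : Submodule ℝ E := LinearMap.ker ((P : E →ₗ[ℝ] E) - LinearMap.id)
  have hK : ∀ w, w ∈ K ↔ P w = w := by
    intro w
    rw [LinearMap.mem_ker, LinearMap.sub_apply, LinearMap.id_apply, sub_eq_zero]
    rfl
  have hNK : ∀ w ∈ K, (N : E →ₗ[ℝ] E) w ∈ K := by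
    intro w hw
    rw [hK] at hw ⊢
    show P (N w) = N w
    rw [hcomm, hw]
  let NK : K →L[ℝ] K := LinearMap.toContinuousLinearMap ((N : E →ₗ[ℝ] E).restrict hNK)
  have hNKv : ∀ w : K, ((NK w : K) : E) = N w := fun w => rfl
  have : Nontrivial K := ⟨⟨⟨v, (hK v).2 hp⟩, 0, fun h => hv (congrArg Subtype.val h)⟩⟩
  obtain ⟨l, hl⟩ : ∃ l : ℂ, ((cp NK).map (algebraMap ℝ ℂ)).eval l = 0 := by
    have hd : ((cp NK).map (algebraMap ℝ ℂ)).degree ≠ 0 := by
      rw [Polynomial.degree_map]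
      unfold cp
      rw [Polynomial.degree_eq_natDegree (LinearMap.charpoly_monic _).ne_zero,
        LinearMap.charpoly_natDegree]
      have := Module.finrank_pos (R := ℝ) (M := K)
      exact_mod_cast this.ne'
    exact IsAlgClosed.exists_root _ hd
  obtain ⟨x, y, hxy, hx, hy⟩ := exists_plane NK hl
  have hx' : N (x : E) = l.re • (x : E) - l.im • (y : E) := by
    exact (hNKv x).symm.trans (congrArg (Subtype.val : K → E) hx)
  have hy' : N (y : E) = l.im • (x : E) + l.re • (y : E) := by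
    exact (hNKv y).symm.trans (congrArg (Subtype.val : K → E) hy)
  refine ⟨l, x, y, ?_, hx', hy', ?_⟩
  · rcases hxy with h1 | h1
    · exact Or.inl fun h2 => h1 (Subtype.ext h2)
    · exact Or.inr fun h2 => h1 (Subtype.ext h2)
  let J : ℂ →L[ℝ] E := Complex.reCLM.smulRight (x : E) - Complex.imCLM.smulRight (y : E)
  have hJv : ∀ c, J c = c.re • (x : E) - c.im • (y : E) := fun c => rfl
  have hJ : ∀ c, N (J c) = J (l * c) := by
    intro c
    rw [hJv, hJv, map_sub, map_smul, map_smul, hx', hy', Complex.mul_re, Complex.mul_im]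
    module
  have hPJ : ∀ c, P (J c) = J c := by
    intro c
    rw [hJv, map_sub, map_smul, map_smul, (hK _).1 x.2, (hK _).1 y.2]
  have h1 : ∀ c, J ((Complex.exp (l * T) - 1) * c) = 0 := by
    intro c
    have h2 := mres_exp N T l J hJ c
    rw [← hP, hPJ] at h2
    rw [sub_mul, one_mul, map_sub, ← h2, sub_self]
  by_contra hne
  have hne' : Complex.exp (l * T) - 1 ≠ 0 := sub_ne_zero.2 hne
  have h3 : ∀ c, J c = 0 := by
    intro c
    have h4 := h1 ((Complex.exp (l * T) - 1)⁻¹ * c)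
    rwa [mul_inv_cancel_left₀ hne'] at h4
  have h5 := h3 1
  have h6 := h3 Complex.I
  rw [hJv, Complex.one_re, Complex.one_im, one_smul, zero_smul, sub_zero] at h5
  rw [hJv, Complex.I_re, Complex.I_im, one_smul, zero_smul, zero_sub, neg_eq_zero] at h6
  rcases hxy with h7 | h7
  · exact h7 (Subtype.ext h5)
  · exact h7 (Subtype.ext h6)

/-- the generator -/
private noncomputable def mresN (μ s : ℝ) : (ℂ × ℂ) →L[ℝ] (ℂ × ℂ) :=
  (ContinuousLinearMap.snd ℝ ℂ ℂ).prod
    ((-(2 * (μ : ℂ) * Complex.I)) • ContinuousLinearMap.snd ℝ ℂ ℂ +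
      ((3 / 2 * μ ^ 2 : ℝ) : ℂ) • (ContinuousLinearMap.fst ℝ ℂ ℂ +
        (s : ℂ) • (Complex.conjCLE : ℂ →L[ℝ] ℂ).comp (ContinuousLinearMap.fst ℝ ℂ ℂ)))

private theorem mresN_apply (μ s : ℝ) (w : ℂ × ℂ) :
    mresN μ s w = (w.2, -(2 * (μ : ℂ) * Complex.I) * w.2 +
      ((3 / 2 * μ ^ 2 : ℝ) : ℂ) * (w.1 + (s : ℂ) * conj w.1)) := rfl

private theorem mres_alg {r s : ℝ} {x y : ℂ} (h0 : x ≠ 0 ∨ y ≠ 0)
    (h1 : 2 * Complex.I * r * y + 3 / 2 * (x + s * conj x) + r ^ 2 * x = 0)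
    (h2 : -(2 * Complex.I * r * x) + 3 / 2 * (y + s * conj y) + r ^ 2 * y = 0) :
    r ^ 4 - r ^ 2 + 9 / 4 * (1 - s ^ 2) = 0 := by
  have h3 := congrArg conj h1
  have h4 := congrArg conj h2
  simp only [map_add, map_mul, map_neg, map_div₀, map_pow, Complex.conj_I, Complex.conj_ofReal,
    Complex.conj_conj, map_ofNat, map_zero] at h3 h4
  set p := x + Complex.I * y with hp
  set q := conj x + Complex.I * conj y with hq
  have e1 : ((r : ℂ) ^ 2 + 2 * r + 3 / 2) * p + 3 / 2 * s * q = 0 := by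
    have := h1
    have := h2
    rw [hp, hq]
    linear_combination h1 + Complex.I * h2 + (2 * (r : ℂ) * x) * Complex.I_sq
  have e2 : 3 / 2 * s * p + ((r : ℂ) ^ 2 - 2 * r + 3 / 2) * q = 0 := by
    rw [hp, hq]
    linear_combination h3 + Complex.I * h4 - (2 * (r : ℂ) * conj x) * Complex.I_sq
  have hd1 : ((r : ℂ) ^ 4 - r ^ 2 + 9 / 4 * (1 - s ^ 2)) * p = 0 := by
    linear_combination ((r : ℂ) ^ 2 - 2 * r + 3 / 2) * e1 - (3 / 2 * s) * e2
  have hd2 : ((r : ℂ) ^ 4 - r ^ 2 + 9 / 4 * (1 - s ^ 2)) * q = 0 := by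
    linear_combination ((r : ℂ) ^ 2 + 2 * r + 3 / 2) * e2 - (3 / 2 * s) * e1
  have hpq : p ≠ 0 ∨ q ≠ 0 := by
    by_contra hcon
    push Not at hcon
    obtain ⟨hp0, hq0⟩ := hcon
    have h5 := congrArg conj hq0
    rw [hq] at h5
    simp only [map_add, map_mul, Complex.conj_I, Complex.conj_conj, map_zero] at h5
    rw [hp] at hp0
    have hx : x = 0 := by linear_combination (1 / 2) * hp0 + (1 / 2) * h5
    have hy : y = 0 := by
      linear_combination (-(Complex.I) / 2) * hp0 + (Complex.I / 2) * h5 + y * Complex.I_sq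
    rcases h0 with h0 | h0
    · exact h0 hx
    · exact h0 hy
  have hd : ((r : ℂ) ^ 4 - r ^ 2 + 9 / 4 * (1 - s ^ 2)) = 0 := by
    rcases hpq with h5 | h5
    · exact (mul_eq_zero.1 hd1).resolve_right h5
    · exact (mul_eq_zero.1 hd2).resolve_right h5
  have h5 : ((r ^ 4 - r ^ 2 + 9 / 4 * (1 - s ^ 2) : ℝ) : ℂ) = 0 := by
    push_cast
    exact hd
  exact Complex.ofReal_eq_zero.1 h5

/-- Proof.  Put `z t = z₀ exp (i μ t)`, `b = z ζ`, `η = ζ'`; `b'' = LN M s z b` is equivalent to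
`ζ' = η`, `η' = - 2 i μ η + (3 / 2) μ² (ζ + s conj ζ)` (`M / |z₀|³ = μ²`), a linear equation with
constant coefficients `N` on `ℂ × ℂ`.  `(b 0, b1 0) = (z₀ ζ 0, z₀ (i μ ζ 0 + η 0))` and, as
`z T = u z₀`, `u⁻¹ (b T, b1 T) = (z₀ ζ T, z₀ (i μ ζ T + η T))`; so `B` is conjugate to `exp (T N)`.  If
`(cp B).eval 1 = 0` there is a fixed vector of `B`, so `per_eigen` gives an eigenvalue `l` of `N` with
`exp (l T) = 1`, `l = 2 π k i / T`.  Writing the eigenvector in the components `ζ = x + i y` over the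
complex numbers: `l² x - 2 μ l y = μ² k₁ x`, `l² y + 2 μ l x = μ² k₂ y`, `k₁, k₂ = (3 / 2) (1 ± s)`, so
`l⁴ + μ² l² + (9 / 4) (1 - s²) μ⁴ = 0`; put `r = 2 π k / (μ T)`, `l² = - μ² r²`. -/
theorem circ_res {M T μ s : ℝ} {z₀ u : ℂ} (hM : 0 < M) (hT : 0 < T) (hμ : μ ^ 2 * ‖z₀‖ ^ 3 = M)
    (hu : u = Complex.exp ((μ * T : ℝ) * Complex.I)) {B : (ℂ × ℂ) →L[ℝ] (ℂ × ℂ)}
    (hB : IsMono M s T (fun t => z₀ * Complex.exp ((μ * t : ℝ) * Complex.I)) u B)
    (h1 : (cp B).eval 1 = 0) :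
    ∃ (k : ℤ) (r : ℝ), r * (μ * T) = 2 * Real.pi * k ∧ r ^ 4 - r ^ 2 + 9 / 4 * (1 - s ^ 2) = 0 := by
  have hz3 : 0 < μ ^ 2 * ‖z₀‖ ^ 3 := by rw [hμ]; exact hM
  have hz₀ : z₀ ≠ 0 := by
    rintro rfl
    rw [norm_zero] at hz3
    norm_num at hz3
  have hμ0 : μ ≠ 0 := by
    rintro rfl
    norm_num at hz3
  have hu0 : u ≠ 0 := by rw [hu]; exact Complex.exp_ne_zero _
  set N := mresN μ s with hN
  set z : ℝ → ℂ := fun t => z₀ * Complex.exp ((μ * t : ℝ) * Complex.I) with hz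
  have hznorm : ∀ t, ‖z t‖ = ‖z₀‖ := by
    intro t
    rw [hz]
    simp only [norm_mul, Complex.norm_exp_ofReal_mul_I, mul_one]
  have hzne : ∀ t, z t ≠ 0 := fun t => mul_ne_zero hz₀ (Complex.exp_ne_zero _)
  have hzd : ∀ t, HasDerivAt z (Complex.I * μ * z t) t := by
    intro t
    have h1 : HasDerivAt (fun t : ℝ => ((μ * t : ℝ) : ℂ) * Complex.I) ((μ : ℂ) * Complex.I) t := by
      have h2 : HasDerivAt (fun t : ℝ => μ * t) μ t := by
        simpa using (hasDerivAt_id t).const_mul μ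
      exact h2.ofReal_comp.mul_const Complex.I
    have h3 := (h1.cexp).const_mul z₀
    refine h3.congr_deriv ?_
    rw [hz]
    ring
  have hz0 : z 0 = z₀ := by
    rw [hz]
    simp
  have hzT : u⁻¹ * z T = z₀ := by
    rw [hz, hu]
    show (Complex.exp ((μ * T : ℝ) * Complex.I))⁻¹ * (z₀ * Complex.exp ((μ * T : ℝ) * Complex.I)) = z₀
    field_simp
  clear_value z
  -- the solutions
  let c : ℂ × ℂ → ℝ → ℂ × ℂ := fun w t => NormedSpace.exp (t • N) w
  have hcd : ∀ w t, HasDerivAt (c w) (N (c w t)) t := by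
    intro w t
    have h1 := hasDerivAt_exp_smul_const N t (𝕂 := ℝ)
    have h2 : HasDerivAt (fun t : ℝ => NormedSpace.exp (t • N)) (N * NormedSpace.exp (t • N)) t := by
      exact hasDerivAt_exp_smul_const' N t
    exact ((ContinuousLinearMap.apply ℝ (ℂ × ℂ) w).hasFDerivAt.comp_hasDerivAt t h2)
  have hc1 : ∀ w t, HasDerivAt (fun t => (c w t).1) (c w t).2 t := by
    intro w t
    have h1 := (ContinuousLinearMap.fst ℝ ℂ ℂ).hasFDerivAt.comp_hasDerivAt t (hcd w t)
    exact h1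
  have hc2 : ∀ w t, HasDerivAt (fun t => (c w t).2) (-(2 * (μ : ℂ) * Complex.I) * (c w t).2 +
      ((3 / 2 * μ ^ 2 : ℝ) : ℂ) * ((c w t).1 + (s : ℂ) * conj (c w t).1)) t := by
    intro w t
    have h1 := (ContinuousLinearMap.snd ℝ ℂ ℂ).hasFDerivAt.comp_hasDerivAt t (hcd w t)
    exact h1
  have hsol : ∀ w, LSol M s T z (fun t => z t * (c w t).1)
      (fun t => z t * (Complex.I * μ * (c w t).1 + (c w t).2)) := by
    intro w t _
    constructor
    · have h1 := (hzd t).mul (hc1 w t)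
      refine (h1.congr_deriv ?_).hasDerivWithinAt
      ring
    · have h1 : HasDerivAt (fun t => z t * (Complex.I * μ * (c w t).1 + (c w t).2))
          (Complex.I * μ * z t * (Complex.I * μ * (c w t).1 + (c w t).2) + z t *
            (Complex.I * μ * (c w t).2 + (-(2 * (μ : ℂ) * Complex.I) * (c w t).2 +
              ((3 / 2 * μ ^ 2 : ℝ) : ℂ) * ((c w t).1 + (s : ℂ) * conj (c w t).1)))) t :=
        (hzd t).mul (((hc1 w t).const_mul (Complex.I * μ)).add (hc2 w t))
      refine (h1.congr_deriv ?_).hasDerivWithinAt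
      unfold LN
      rw [hznorm t, map_mul]
      have h2 : M / ‖z₀‖ ^ 3 = μ ^ 2 := by
        rw [← hμ]
        field_simp
      have h3 : z t / conj (z t) * (conj (z t) * conj (c w t).1) = z t * conj (c w t).1 := by
        have h4 : conj (z t) ≠ 0 := (_root_.map_ne_zero _).2 (hzne t)
        field_simp
      rw [h2, h3]
      push_cast
      linear_combination ((μ : ℂ) ^ 2 * z t * (c w t).1) * Complex.I_sq
  -- the monodromy
  let S : ℂ × ℂ → ℂ × ℂ := fun w => (z₀ * w.1, z₀ * (Complex.I * μ * w.1 + w.2))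
  have hSinj : ∀ w w', S w = S w' → w = w' := by
    intro w w' h
    have h2 := mul_left_cancel₀ hz₀ (congrArg Prod.fst h)
    have h3 := mul_left_cancel₀ hz₀ (congrArg Prod.snd h)
    rw [h2] at h3
    exact Prod.ext h2 (add_left_cancel h3)
  have hBS : ∀ w, B (S w) = S (NormedSpace.exp (T • N) w) := by
    intro w
    have h1 := hB _ _ (hsol w)
    have h2 : c w 0 = w := by
      have h3 : (0 : ℝ) • N = 0 := zero_smul ℝ N
      show NormedSpace.exp ((0 : ℝ) • N) w = w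
      rw [h3, NormedSpace.exp_zero]
      rfl
    simp only [h2, hz0] at h1
    simp only [← mul_assoc u⁻¹, hzT] at h1
    exact h1
  -- a fixed vector
  obtain ⟨v, hv, hBv⟩ : ∃ v, v ≠ 0 ∧ B v = v := by
    have h2 : Module.End.HasEigenvalue (B : (ℂ × ℂ) →ₗ[ℝ] (ℂ × ℂ)) 1 :=
      (Module.End.hasEigenvalue_iff_isRoot_charpoly _ _).2 h1
    obtain ⟨v, hv⟩ := h2.exists_hasEigenvector
    exact ⟨v, hv.2, by simpa using hv.apply_eq_smul⟩
  obtain ⟨w, hw⟩ : ∃ w, S w = v := by
    refine ⟨(v.1 / z₀, v.2 / z₀ - Complex.I * μ * (v.1 / z₀)), ?_⟩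
    refine Prod.ext ?_ ?_
    · show z₀ * (v.1 / z₀) = v.1
      field_simp
    · show z₀ * (Complex.I * μ * (v.1 / z₀) + (v.2 / z₀ - Complex.I * μ * (v.1 / z₀))) = v.2
      field_simp
      ring
  have hwne : w ≠ 0 := by
    rintro rfl
    apply hv
    rw [← hw]
    show ((z₀ * 0, z₀ * (Complex.I * μ * 0 + 0)) : ℂ × ℂ) = 0
    simp
  have hwfix : NormedSpace.exp (T • N) w = w := by
    apply hSinj
    rw [← hBS, hw, hBv]
  obtain ⟨l, x, y, hxy, hx, hy, hl⟩ := per_eigen N hT hwne hwfix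
  obtain ⟨k, hk⟩ := Complex.exp_eq_one_iff.1 hl
  have hTC : (T : ℂ) ≠ 0 := by exact_mod_cast hT.ne'
  have hl' : l = ((2 * Real.pi * k / T : ℝ) : ℂ) * Complex.I := by
    push_cast
    field_simp
    linear_combination hk
  have hlre : l.re = 0 := by rw [hl', Complex.re_ofReal_mul, Complex.I_re, mul_zero]
  have hlim : l.im = 2 * Real.pi * k / T := by
    rw [hl', Complex.im_ofReal_mul, Complex.I_im, mul_one]
  set r : ℝ := 2 * Real.pi * k / (μ * T) with hr
  have hlr : l.im = μ * r := by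
    rw [hlim, hr]
    field_simp
  refine ⟨k, r, ?_, ?_⟩
  · rw [hr]
    field_simp
  rw [hlre, hlr, zero_smul, zero_sub] at hx
  rw [hlre, hlr, zero_smul, add_zero] at hy
  rw [hN, mresN_apply] at hx hy
  have hx1 : x.2 = -((μ * r : ℝ) : ℂ) * y.1 := by
    have h2 := congrArg Prod.fst hx
    rw [Prod.fst_neg, Prod.smul_fst, Complex.real_smul] at h2
    rw [neg_mul]
    exact h2
  have hy1 : y.2 = ((μ * r : ℝ) : ℂ) * x.1 := by
    have h2 := congrArg Prod.fst hy
    rw [Prod.smul_fst, Complex.real_smul] at h2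
    exact h2
  have hx2 := congrArg Prod.snd hx
  rw [Prod.snd_neg, Prod.smul_snd, Complex.real_smul] at hx2
  have hy2 := congrArg Prod.snd hy
  rw [Prod.smul_snd, Complex.real_smul] at hy2
  simp only [hx1, hy1] at hx2 hy2
  have hμC : (μ : ℂ) ^ 2 ≠ 0 := pow_ne_zero 2 (by exact_mod_cast hμ0)
  refine mres_alg (x := x.1) (y := y.1) ?_ ?_ ?_
  · by_contra hcon
    push Not at hcon
    have e1 : x = 0 := Prod.ext hcon.1 (by rw [hx1, hcon.2, mul_zero]; rfl)
    have e2 : y = 0 := Prod.ext hcon.2 (by rw [hy1, hcon.1, mul_zero]; rfl)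
    rcases hxy with h2 | h2
    · exact h2 e1
    · exact h2 e2
  · apply mul_left_cancel₀ hμC
    push_cast at hx2
    linear_combination hx2
  · apply mul_left_cancel₀ hμC
    push_cast at hy2
    linear_combination hy2

end Pool.Agent.MP_5027f4_cont
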