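import Pool.Agent.Lib_MP_5027f4_cont.NAcc
import Pool.Agent.Lib_MP_5027f4_cont.FRe
import Pool.Agent.Lib_MP_5027f4_cont.MBlk
import Pool.Agent.Lib_MP_5027f4_cont.MCir
import Pool.Agent.Lib_MP_5027f4_cont.MRes
import Pool.Agent.Lib_MP_5027f4_cont.MFix
import Pool.Agent.Lib_MP_5027f4_cont.MHom
import Pool.Agent.Lib_MP_5027f4_cont.MEn
import Pool.Agent.Lib_MP_5027f4_cont.MLinkC
import Pool.Agent.Lib_MP_5027f4_cont.MAna
import Pool.Agent.Lib_MP_5027f4_cont.MFin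
import Pool.Agent.Lib_MP_5027f4_ell.TbA

/-!
# Relative equilibria at the end of the family, all masses
-/

open Set Filter Topology Metric Polynomial
open scoped ComplexConjugate ContDiff
open Pool.Agent.MP_5027f4_mp
open Pool.Agent.MP_5027f4_ell (Tri Shape cc coord Mt sg sm Nn Gz epsf kapf vf Bs IsFund IsCofund Mat)

namespace Pool.Agent.MP_5027f4_cont

variable {m : Fin 3 → ℝ} {ϖ : ℂ} {Sh : Shape} {d : Fin 3 → ℂ}
  {e : ((ℂ × ℂ) × (ℂ × ℂ)) ≃L[ℝ] comSub m}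

/-- coordinates at an equilateral relative equilibrium -/
theorem lag_setup (hm : ∀ a, 0 < m a) {Ω : ℝ} {y : comSub m} (h : IsRE m Ω y) {r : ℝ} (hr : 0 < r)
    (heq : ∀ a b, a ≠ b → ‖(y : Ph).1 a - (y : Ph).1 b‖ = r) :
    ∃ (ϖ : ℂ) (Sh : Shape) (d : Fin 3 → ℂ) (e : ((ℂ × ℂ) × (ℂ × ℂ)) ≃L[ℝ] comSub m) (z₀ : ℂ),
      ϖ ^ 2 + ϖ + 1 = 0 ∧ Tri m ϖ Sh d ∧ IsCo m ϖ d e ∧ ‖z₀‖ = r ∧
        y = e ((z₀, (Ω : ℂ) * Complex.I * z₀), 0) := by
  obtain ⟨ϖ, z₀, hϖ, hz₀, hy⟩ := re_coord h hm hr heq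
  obtain ⟨Sh, d, hTr⟩ := MP_5027f4_ell.exists_shape m hm ϖ hϖ
  obtain ⟨e, he⟩ := exists_co hm hTr
  refine ⟨ϖ, Sh, d, e, z₀, hϖ, hTr, he, hz₀, ?_⟩
  apply Subtype.ext
  rw [he]
  refine Prod.ext ?_ ?_
  · funext a
    simp [(hy a).1]
  · funext a
    simp [(hy a).2]

/-- circular Kepler orbits -/
theorem circ_ksol {M T μ : ℝ} {z₀ : ℂ} (hz₀ : z₀ ≠ 0) (hμ : μ ^ 2 * ‖z₀‖ ^ 3 = M) :
    KSol M T (fun t => z₀ * Complex.exp ((μ * t : ℝ) * Complex.I))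
      (fun t => (μ : ℂ) * Complex.I * (z₀ * Complex.exp ((μ * t : ℝ) * Complex.I))) := by
  intro t ht
  have hr : ‖z₀‖ ≠ 0 := norm_ne_zero_iff.2 hz₀
  have hn : ‖z₀ * Complex.exp ((μ * t : ℝ) * Complex.I)‖ = ‖z₀‖ := by
    rw [norm_mul, Complex.norm_exp_ofReal_mul_I, mul_one]
  have hd : HasDerivAt (fun t : ℝ => z₀ * Complex.exp ((μ * t : ℝ) * Complex.I))
      ((μ : ℂ) * Complex.I * (z₀ * Complex.exp ((μ * t : ℝ) * Complex.I))) t := by
    have h1 : HasDerivAt (fun t : ℝ => ((μ * t : ℝ) : ℂ) * Complex.I) ((μ : ℂ) * Complex.I) t := by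
      have h2 : HasDerivAt (fun t : ℝ => μ * t) μ t := by
        simpa using (hasDerivAt_id t).const_mul μ
      exact (h2.ofReal_comp).mul_const Complex.I
    have h3 := (h1.cexp).const_mul z₀
    refine h3.congr_deriv ?_
    ring
  refine ⟨mul_ne_zero hz₀ (Complex.exp_ne_zero _), hd.hasDerivWithinAt, ?_⟩
  have h4 := (hd.const_mul ((μ : ℂ) * Complex.I)).hasDerivWithinAt (s := Icc 0 T)
  refine h4.congr_deriv ?_
  rw [hn]
  have h5 : (((‖z₀‖ ^ 3 : ℝ)) : ℂ) ≠ 0 := by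
    exact_mod_cast pow_ne_zero 3 hr
  rw [eq_div_iff h5, ← hμ]
  push_cast
  have h6 : Complex.I * Complex.I = -1 := Complex.I_mul_I
  linear_combination ((μ : ℂ) ^ 2 * z₀ * Complex.exp ((μ : ℂ) * t * Complex.I) *
    (‖z₀‖ : ℂ) ^ 3) * h6

/-- the eccentricity of a circular orbit -/
theorem circ_epsf {M μ : ℝ} {z₀ : ℂ} (hz₀ : z₀ ≠ 0) (hμ : μ ^ 2 * ‖z₀‖ ^ 3 = M) :
    Gz z₀ ((μ : ℂ) * Complex.I * z₀) = μ * ‖z₀‖ ^ 2 ∧ epsf M z₀ ((μ : ℂ) * Complex.I * z₀) = 0 := by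
  have hr : (‖z₀‖ : ℂ) ≠ 0 := by exact_mod_cast norm_ne_zero_iff.2 hz₀
  have hG : Gz z₀ ((μ : ℂ) * Complex.I * z₀) = μ * ‖z₀‖ ^ 2 := by
    unfold Gz
    have h1 : conj z₀ * ((μ : ℂ) * Complex.I * z₀) = ((μ * ‖z₀‖ ^ 2 : ℝ) : ℂ) * Complex.I := by
      have h2 : conj z₀ * z₀ = ((‖z₀‖ ^ 2 : ℝ) : ℂ) := by
        rw [← Complex.normSq_eq_conj_mul_self, Complex.normSq_eq_norm_sq]
      push_cast at h2 ⊢
      linear_combination (μ : ℂ) * Complex.I * h2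
    rw [h1, Complex.im_ofReal_mul, Complex.I_im, mul_one]
  refine ⟨hG, ?_⟩
  unfold epsf
  rw [hG, div_eq_zero_iff]
  left
  have h3 : ((M : ℝ) : ℂ) = (μ : ℂ) ^ 2 * (‖z₀‖ : ℂ) ^ 3 := by
    rw [← hμ]
    push_cast
    ring
  rw [h3]
  have h6 : Complex.I * Complex.I = -1 := Complex.I_mul_I
  field_simp
  push_cast
  linear_combination (-(μ : ℂ) ^ 2 * (‖z₀‖ : ℂ) ^ 2 * z₀) * h6

/-- the normal block of a map in coordinates -/
noncomputable def nblk (e : ((ℂ × ℂ) × (ℂ × ℂ)) ≃L[ℝ] comSub m) (D : comSub m →L[ℝ] comSub m) :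
    (ℂ × ℂ) →L[ℝ] (ℂ × ℂ) :=
  (ContinuousLinearMap.snd ℝ (ℂ × ℂ) (ℂ × ℂ)).comp
    ((e.symm : comSub m →L[ℝ] ((ℂ × ℂ) × (ℂ × ℂ))).comp
      (D.comp ((e : ((ℂ × ℂ) × (ℂ × ℂ)) →L[ℝ] comSub m).comp
        (ContinuousLinearMap.inr ℝ (ℂ × ℂ) (ℂ × ℂ)))))

theorem nblk_eq {D : comSub m →L[ℝ] comSub m} {A B : (ℂ × ℂ) →L[ℝ] (ℂ × ℂ)}
    (h : ∀ p, D (e p) = e (A p.1, B p.2)) : nblk e D = B := by
  refine ContinuousLinearMap.ext fun w => ?_
  change (e.symm (D (e (0, w)))).2 = B w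
  rw [h, ContinuousLinearEquiv.symm_apply_apply]

/-- `cp` evaluated at `1` is continuous -/
theorem continuous_cp_eval {F : Type*} [NormedAddCommGroup F] [NormedSpace ℝ F]
    [FiniteDimensional ℝ F] : Continuous fun A : F →L[ℝ] F => (cp A).eval 1 := by
  have h1 : ∀ A : F →L[ℝ] F, (cp A).eval 1 =
      ∑ i ∈ Finset.range (Module.finrank ℝ F + 1), (cp A).coeff i := by
    intro A
    rw [Polynomial.eval_eq_sum_range, cp_natDegree]
    simp
  simp_rw [h1]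
  exact continuous_finsetSum _ fun i _ => (contDiff_cp_coeff i).continuous

/-- the eccentricity in terms of the angular momentum on the energy level of a circular orbit -/
theorem ecc_sq (hm : ∀ a, 0 < m a) (hϖ : ϖ ^ 2 + ϖ + 1 = 0) (hTr : Tri m ϖ Sh d)
    (he : IsCo m ϖ d e) {z₀ z z1 : ℂ} {Ω c : ℝ} (hz₀ : z₀ ≠ 0) (hΩ : Ω ≠ 0)
    (hμ : Ω ^ 2 * ‖z₀‖ ^ 3 = Mt m) (hz : z ≠ 0)
    (h : muE m (e ((z, z1), 0)) = ((muE m (e ((z₀, (Ω : ℂ) * Complex.I * z₀), 0))).1, c)) :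
    Gz z z1 = c / Nn m ∧ (muE m (e ((z₀, (Ω : ℂ) * Complex.I * z₀), 0))).2 ≠ 0 ∧
    ‖epsf (Mt m) z z1‖ ^ 2 =
      1 - c ^ 2 / (muE m (e ((z₀, (Ω : ℂ) * Complex.I * z₀), 0))).2 ^ 2 := by
  have hM : 0 < Mt m := MP_5027f4_ell.Mt_pos hm
  have hN : 0 < Nn m := MP_5027f4_ell.Nn_pos hm
  obtain ⟨hG₀, hε₀⟩ := circ_epsf hz₀ hμ
  rw [muE_co hm hϖ hTr he hz₀] at h ⊢
  rw [muE_co hm hϖ hTr he hz] at h
  have h1 := congrArg Prod.fst h
  have h2 := congrArg Prod.snd h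
  simp only at h1 h2 ⊢
  have h1' : ‖z1‖ ^ 2 / 2 - Mt m / ‖z‖ =
      ‖(Ω : ℂ) * Complex.I * z₀‖ ^ 2 / 2 - Mt m / ‖z₀‖ := mul_left_cancel₀ hN.ne' h1
  have hGc : Gz z z1 = c / Nn m := by
    rw [← h2, mul_div_cancel_left₀ _ hN.ne']
  have e1 := (MP_5027f4_ell.epsf_identity (Mt m) hM z z1 hz).2
  have e0 := (MP_5027f4_ell.epsf_identity (Mt m) hM z₀ ((Ω : ℂ) * Complex.I * z₀) hz₀).2
  rw [hε₀, norm_zero] at e0
  have hG₀n : Gz z₀ ((Ω : ℂ) * Complex.I * z₀) ≠ 0 := by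
    rw [hG₀]
    exact mul_ne_zero hΩ (pow_ne_zero 2 (norm_ne_zero_iff.2 hz₀))
  refine ⟨hGc, mul_ne_zero hN.ne' hG₀n, ?_⟩
  rw [e1, h1', hGc]
  set E := ‖(Ω : ℂ) * Complex.I * z₀‖ ^ 2 / 2 - Mt m / ‖z₀‖ with hE
  set G := Gz z₀ ((Ω : ℂ) * Complex.I * z₀) with hG
  have e2 : 2 * G ^ 2 * E = -(Mt m) ^ 2 := by
    have := e0
    field_simp at this
    linarith
  have e3 : E = -(Mt m) ^ 2 / (2 * G ^ 2) := by
    rw [eq_div_iff (mul_ne_zero two_ne_zero (pow_ne_zero 2 hG₀n)), ← e2]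
    ring
  rw [e3]
  have hN' := hN.ne'
  have hM' := hM.ne'
  field_simp
  ring

/-- pigeonhole for frequently occurring finite alternatives -/
theorem frequently_finite {ι α : Type*} {l : Filter α} {I : Set ι} (hI : I.Finite)
    {p : ι → α → Prop} (h : ∃ᶠ x in l, ∃ i ∈ I, p i x) : ∃ i ∈ I, ∃ᶠ x in l, p i x := by
  by_contra hn
  push Not at hn
  have h1 : ∀ i ∈ I, ∀ᶠ x in l, ¬ p i x := hn
  have h2 : ∀ᶠ x in l, ∀ i ∈ I, ¬ p i x := (eventually_all_finite hI).2 h1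
  exact h (h2.mono fun x hx ⟨i, hi, hpi⟩ => hx i hi hpi)

/-- **The case of rotation number one.** Relative periodic orbits do not accumulate at the
equilateral relative equilibrium if `1` is not an eigenvalue of the normal block. -/
theorem hom_contra (hm : ∀ a, 0 < m a) (hϖ : ϖ ^ 2 + ϖ + 1 = 0) (hTr : Tri m ϖ Sh d)
    (he : IsCo m ϖ d e) {T Ω : ℝ} (hT : 0 < T) (hΩ : Ω ≠ 0) {z₀ : ℂ} (hz₀ : z₀ ≠ 0)
    (hμ : Ω ^ 2 * ‖z₀‖ ^ 3 = Mt m) {Ψ : comSub m → comSub m}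
    (hΨ : CMap m T (e ((z₀, (Ω : ℂ) * Complex.I * z₀), 0)) Ψ)
    {A B : (ℂ × ℂ) →L[ℝ] (ℂ × ℂ)}
    (hD : ∀ p, fderiv ℝ Ψ (e ((z₀, (Ω : ℂ) * Complex.I * z₀), 0)) (e p) = e (A p.1, B p.2))
    (hB1 : (cp B).eval 1 ≠ 0) {χ : ℝ[X]} (hχ : χ ≠ 0) {cn : ℕ → ℝ}
    (hcn : Tendsto cn atTop (𝓝 (muE m (e ((z₀, (Ω : ℂ) * Complex.I * z₀), 0))).2))
    (hne : ∀ n, cn n ≠ (muE m (e ((z₀, (Ω : ℂ) * Complex.I * z₀), 0))).2)
    (hacc : ∀ 𝒱 ∈ 𝓝 (e ((z₀, (Ω : ℂ) * Complex.I * z₀), 0)), ∃ᶠ n in atTop, ∃ y ∈ 𝒱, Ψ y = y ∧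
      muE m y = ((muE m (e ((z₀, (Ω : ℂ) * Complex.I * z₀), 0))).1, cn n) ∧
      cp (fderiv ℝ Ψ y) = χ) : False := by
  have hM : 0 < Mt m := MP_5027f4_ell.Mt_pos hm
  have hN : 0 < Nn m := MP_5027f4_ell.Nn_pos hm
  set v₀ : ℂ × ℂ := (z₀, (Ω : ℂ) * Complex.I * z₀) with hv₀
  set y₀ : comSub m := e (v₀, 0) with hy₀
  set c₀ : ℝ := (muE m y₀).2 with hc₀
  have hc₀0 : c₀ ≠ 0 := (ecc_sq hm hϖ hTr he hz₀ hΩ hμ hz₀ (c := c₀) rfl).2.1
  -- fixed points near `y₀` are homographic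
  have hstrict : HasStrictFDerivAt Ψ (fderiv ℝ Ψ y₀) y₀ := hΨ.an.hasStrictFDerivAt
  have hloc : ∀ᶠ y in 𝓝 y₀, Ψ y = y → (e.symm y).2 = 0 := by
    have h1 : HasStrictFDerivAt (fun p => e.symm (Ψ (e p)))
        ((e.symm : comSub m →L[ℝ] ((ℂ × ℂ) × (ℂ × ℂ))).comp ((fderiv ℝ Ψ y₀).comp
          (e : ((ℂ × ℂ) × (ℂ × ℂ)) →L[ℝ] comSub m))) (v₀, 0) :=
      e.symm.hasStrictFDerivAt.comp (v₀, 0) (HasStrictFDerivAt.comp (v₀, 0)
        (g := Ψ) (f := fun p => e p) hstrict e.hasStrictFDerivAt)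
    have h2 : ∀ᶠ v in 𝓝 v₀, (e.symm (Ψ (e (v, 0)))).2 = 0 := by
      have h3 : Tendsto (fun v : ℂ × ℂ => e (v, 0)) (𝓝 v₀) (𝓝 y₀) := by
        have : Continuous fun v : ℂ × ℂ => e (v, (0 : ℂ × ℂ)) :=
          e.continuous.comp (Continuous.prodMk_left (0 : ℂ × ℂ))
        exact this.tendsto v₀
      filter_upwards [h3.eventually hΨ.cl] with v hv
      obtain ⟨x, hx, hx0, hxT⟩ := hv
      obtain ⟨z, z1, -, -, -, hxz⟩ := hom_stay hm hϖ hTr he hT.le hx (z₀ := v.1) (z₁ := v.2)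
        (by rw [hx0])
      have h4 := hxz T ⟨hT.le, le_rfl⟩
      rw [hxT] at h4
      rw [Subtype.ext h4, ContinuousLinearEquiv.symm_apply_apply]
    have h5 := fix_in h1 (B := B) (fun p => by
      change (e.symm (fderiv ℝ Ψ y₀ (e p))).2 = B p.2
      rw [hD, ContinuousLinearEquiv.symm_apply_apply]) h2 hB1
    have h6 : Tendsto (fun y : comSub m => e.symm y) (𝓝 y₀) (𝓝 (v₀, 0)) := by
      have := e.symm.continuous.tendsto y₀
      rwa [hy₀, ContinuousLinearEquiv.symm_apply_apply] at this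
    filter_upwards [h6.eventually h5] with y hy hfy
    exact hy (by rw [ContinuousLinearEquiv.apply_symm_apply, hfy])
  -- the normal block
  have hβc : ContinuousAt (fun y => (cp (nblk e (fderiv ℝ Ψ y))).eval 1) y₀ := by
    have h1 : ContinuousAt (fderiv ℝ Ψ) y₀ := hΨ.an.fderiv.continuousAt
    have h2 : ContinuousAt (fun y => nblk e (fderiv ℝ Ψ y)) y₀ := by
      unfold nblk
      exact continuousAt_const.clm_comp (continuousAt_const.clm_comp (h1.clm_comp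
        continuousAt_const))
    exact continuous_cp_eval.continuousAt.comp h2
  have hβ0 : ∀ᶠ y in 𝓝 y₀, (cp (nblk e (fderiv ℝ Ψ y))).eval 1 ≠ 0 := by
    refine hβc.eventually_ne ?_
    rw [nblk_eq hD]
    exact hB1
  -- the fundamental matrices
  have hX : ∀ ε : ℂ, ∃ X : ℝ → Mat, ε ∈ MP_5027f4_ell.Om → IsFund (Bs (sm m) ε) X := by
    intro ε
    by_cases hε : ε ∈ MP_5027f4_ell.Om
    · obtain ⟨X, hX⟩ := MP_5027f4_ell.exists_fund (Bs (sm m) ε)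
        (MP_5027f4_ell.continuous_Bs (sm m) hε)
      exact ⟨X, fun _ => hX⟩
    · exact ⟨fun _ => 1, fun h => absurd h hε⟩
  choose X hX using hX
  -- the finite set of alternatives
  have hFin := finite_eval hχ
  set 𝓕 : Set ℝ := {c : ℝ | ∃ p q : ℝ[X], p * q = χ ∧ q.Monic ∧ q.eval 1 = c} with h𝓕
  obtain ⟨K, hK⟩ : ∃ K : ℕ, 4 * Mt m ^ 2 / (|c₀| / (2 * Nn m)) ^ 3 * T ≤ K :=
    exists_nat_ge _
  set I : Set (ℕ × ℝ) := (Iic K) ×ˢ (𝓕 \ {0}) with hI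
  have hIf : I.Finite := (finite_Iic K).prod (hFin.subset sdiff_subset)
  -- the eccentricity
  set ecc : ℝ → ℝ := fun c => Real.sqrt (1 - c ^ 2 / c₀ ^ 2) with hecc
  have hev1 : ∀ᶠ n in atTop, |c₀| / 2 < |cn n| := by
    have h1 : Tendsto (fun n => |cn n|) atTop (𝓝 |c₀|) := hcn.abs
    have h2 : |c₀| / 2 < |c₀| := by
      have := abs_pos.2 hc₀0
      linarith
    exact h1.eventually (lt_mem_nhds h2)
  have hev2 : ∀ᶠ n in atTop, cn n ≠ -c₀ := by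
    refine hcn.eventually_ne ?_
    intro h
    apply hc₀0
    linarith
  have hfreq : ∃ᶠ n in atTop, ∃ i ∈ I,
      ecc (cn n) ≠ 0 ∧ (1 - X ((ecc (cn n) : ℝ) : ℂ) (2 * Real.pi) ^ i.1).det = ((i.2 : ℝ) : ℂ) := by
    have hev0 : ∀ᶠ y in 𝓝 y₀, ((Ψ y = y → (e.symm y).2 = 0) ∧ CMap m T y Ψ) ∧
        (cp (nblk e (fderiv ℝ Ψ y))).eval 1 ≠ 0 := (hloc.and hΨ.near).and hβ0
    have h1 := (hacc _ hev0).and_eventually (hev1.and hev2)
    refine h1.mono ?_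
    rintro n ⟨⟨y, ⟨⟨hy1, hyC⟩, hyβ⟩, hyf, hymu, hycp⟩, hn1, hn2⟩
    have hyV := hy1 hyf
    -- coordinates of `y`
    set z := (e.symm y).1.1 with hz
    set z1 := (e.symm y).1.2 with hz1
    have hye : y = e ((z, z1), 0) := by
      rw [← e.apply_symm_apply y]
      congr 1
      exact Prod.ext rfl hyV
    -- the classical solution
    obtain ⟨x, hx, hx0, hxT⟩ := hyC.cl.self_of_nhds
    obtain ⟨w, w1, hw, hw0, hw10, hxw⟩ := hom_stay hm hϖ hTr he hT.le hx (z₀ := z) (z₁ := z1)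
      (by rw [hx0, ← hye])
    have hwT : w T = w 0 ∧ w1 T = w1 0 := by
      have h4 := hxw T ⟨hT.le, le_rfl⟩
      rw [hxT, hyf] at h4
      have h5 : y = e ((w T, w1 T), 0) := Subtype.ext h4
      rw [hye] at h5
      have h6 := e.injective h5
      have h7 := congrArg Prod.fst h6
      rw [hw0, hw10]
      exact ⟨(congrArg Prod.fst h7).symm, (congrArg Prod.snd h7).symm⟩
    have hz0 : z ≠ 0 := by
      have := (hw 0 ⟨le_rfl, hT.le⟩).1
      rwa [hw0] at this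
    -- eccentricity and angular momentum
    obtain ⟨hG, -, hεs⟩ := ecc_sq hm hϖ hTr he hz₀ hΩ hμ hz0 (c := cn n) (by rw [← hye]; exact hymu)
    have hcc : cn n ^ 2 ≠ c₀ ^ 2 := by
      intro h
      rcases sq_eq_sq_iff_eq_or_eq_neg.1 h with h | h
      · exact hne n h
      · exact hn2 h
    have hcn0 : cn n ≠ 0 := by
      intro h
      rw [h, abs_zero] at hn1
      have := abs_nonneg c₀
      linarith
    have hεv : ‖epsf (Mt m) z z1‖ = ecc (cn n) := by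
      rw [hecc]
      simp only
      rw [← hεs, Real.sqrt_sq (norm_nonneg _)]
    have hε0 : ecc (cn n) ≠ 0 := by
      intro h
      rw [← hεv] at h
      rw [h] at hεs
      apply hcc
      have h8 : c₀ ^ 2 ≠ 0 := pow_ne_zero 2 hc₀0
      have h9 : cn n ^ 2 / c₀ ^ 2 = 1 := by linarith
      rwa [div_eq_one_iff_eq h8] at h9
    have hε1 : ‖epsf (Mt m) z z1‖ < 1 := by
      have h8 : 0 < cn n ^ 2 / c₀ ^ 2 := by positivity
      have h9 : ‖epsf (Mt m) z z1‖ ^ 2 < 1 := by rw [hεs]; linarith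
      nlinarith [norm_nonneg (epsf (Mt m) z z1)]
    have hGn : Gz z z1 ≠ 0 := by
      rw [hG]
      exact div_ne_zero hcn0 hN.ne'
    -- the blocks at `y`
    obtain ⟨A', hA'⟩ := exists_mono (M := Mt m) (s := 1) hT.le hw 1
    obtain ⟨B', hB'⟩ := exists_mono (M := Mt m) (s := sm m) hT.le hw 1
    have hblk : ∀ p, fderiv ℝ Ψ y (e p) = e (A' p.1, B' p.2) := by
      intro p
      have h8 := blk hm hϖ hTr he hT (u := 1) hw (Ψ := Ψ) (by rw [hw0, hw10, ← hye]; exact hyC)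
        hA' hB' p
      rw [hw0, hw10, ← hye] at h8
      simpa only [inv_one, one_smul] using h8
    have hβ : (cp (nblk e (fderiv ℝ Ψ y))).eval 1 = (cp B').eval 1 := by rw [nblk_eq hblk]
    obtain ⟨k, hk, hdet⟩ := link_any hM hT hw (by rw [hw0, hw10]; exact hGn) hwT.1 hwT.2
      (by rw [hw0, hw10]; exact hε1) (X := X ((ecc (cn n) : ℝ) : ℂ)) (by
        rw [hw0, hw10, hεv]
        exact hX _ (MP_5027f4_ell.ofReal_mem_Om (by
          have : 0 ≤ ecc (cn n) := Real.sqrt_nonneg _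
          linarith) (by rw [← hεv]; exact hε1))) hB'
    refine ⟨(k, (cp B').eval 1), ⟨?_, ?_, ?_⟩, hε0, hdet.symm⟩
    · -- bound of the number of turns
      rw [mem_Iic]
      have h10 : |c₀| / (2 * Nn m) ≤ |Gz (w 0) (w1 0)| := by
        rw [hw0, hw10, hG, abs_div, abs_of_pos hN, div_le_div_iff₀ (by positivity) hN]
        nlinarith
      have h11 : 0 < |c₀| / (2 * Nn m) := by
        have := abs_pos.2 hc₀0
        positivity
      have h12 : 4 * Mt m ^ 2 / |Gz (w 0) (w1 0)| ^ 3 * T ≤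
          4 * Mt m ^ 2 / (|c₀| / (2 * Nn m)) ^ 3 * T := by
        gcongr
      have h13 : (k : ℝ) ≤ K := by
        have h14 : (k : ℝ) * 1 ≤ (k : ℝ) * (2 * Real.pi) :=
          mul_le_mul_of_nonneg_left (by linarith [Real.pi_gt_three]) (Nat.cast_nonneg k)
        linarith
      exact_mod_cast h13
    · refine ⟨cp A', cp B', ?_, LinearMap.charpoly_monic _, rfl⟩
      rw [← cp_blk e hblk, hycp]
    · rw [mem_singleton_iff, ← hβ]
      exact hyβ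
  obtain ⟨⟨k, β⟩, hi, hfr⟩ := frequently_finite hIf hfreq
  have hβne : β ≠ 0 := hi.2.2
  have heccT : Tendsto (fun n => ecc (cn n)) atTop (𝓝 0) := by
    have h1 : Tendsto (fun n => 1 - cn n ^ 2 / c₀ ^ 2) atTop (𝓝 (1 - c₀ ^ 2 / c₀ ^ 2)) :=
      tendsto_const_nhds.sub ((hcn.pow 2).div_const _)
    rw [div_self (pow_ne_zero 2 hc₀0), sub_self] at h1
    have h2 := h1.sqrt
    rwa [Real.sqrt_zero] at h2
  have h0 := ana_zero (sm m) X hX k ((β : ℝ) : ℂ) (by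
    rw [frequently_nhdsWithin_iff]
    refine heccT.frequently (hfr.mono ?_)
    rintro n ⟨h1, h2⟩
    exact ⟨h2, h1⟩)
  exact hβne (by exact_mod_cast h0)

/-- Exceptional situation: the rotation factor `u ≠ 1` is a multiplier and `Ω T r = 2 π k` for a root
`r` of the characteristic equation of the equilateral relative equilibrium. -/
def ExcRes (m : Fin 3 → ℝ) (T : ℝ) (u : ℂ) (q : ℝ[X]) : Prop :=
  u ≠ 1 ∧ (q.map (algebraMap ℝ ℂ)).eval u = 0 ∧ ∃ (Ω : ℝ) (k : ℤ) (r : ℝ), Ω ≠ 0 ∧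
    u = Complex.exp ((Ω * T : ℝ) * Complex.I) ∧ r * (Ω * T) = 2 * Real.pi * k ∧
      r ^ 4 - r ^ 2 + 9 / 4 * (1 - sm m ^ 2) = 0

/-- if `(X - 1)^4 q = a b` with `b 1 ≠ 0` and `a` monic of degree `4`, then `a = (X - 1)^4` -/
theorem eq_pow_of_mul {a b q : ℝ[X]} (h : (X - 1) ^ 4 * q = a * b) (ha : a.Monic)
    (hd : a.natDegree = 4) (hb : b.eval 1 ≠ 0) : a = (X - 1) ^ 4 := by
  have h1 : IsCoprime ((X - 1 : ℝ[X]) ^ 4) b := by
    refine IsCoprime.pow_left ?_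
    have h2 : Irreducible (X - 1 : ℝ[X]) := by
      have := Polynomial.irreducible_X_sub_C (1 : ℝ)
      rwa [map_one] at this
    rw [h2.coprime_iff_not_dvd]
    intro h3
    have h4 : (X - C (1 : ℝ)) ∣ b := by rwa [map_one]
    exact hb (Polynomial.dvd_iff_isRoot.1 h4)
  have h2 : (X - 1 : ℝ[X]) ^ 4 ∣ a := h1.dvd_of_dvd_mul_right (h ▸ Dvd.intro _ rfl)
  have h3 : ((X - 1 : ℝ[X]) ^ 4).Monic := by
    have := (Polynomial.monic_X_sub_C (1 : ℝ)).pow 4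
    rwa [map_one] at this
  have h4 : ((X - 1 : ℝ[X]) ^ 4).natDegree = 4 := by
    have := Polynomial.natDegree_X_sub_C (1 : ℝ)
    rw [map_one] at this
    rw [Polynomial.natDegree_pow, this]
  exact Polynomial.eq_of_monic_of_dvd_of_natDegree_le h3 ha h2 (by rw [hd, h4])

/-- **Relative equilibria at the end of the family.** -/
theorem noREq (hm : ∀ a, 0 < m a) {T : ℝ} (hT : 0 < T) {u : ℂ} (hu : ‖u‖ = 1) {q : ℝ[X]}
    (hq : ∀ l : ℂ, (q.map (algebraMap ℝ ℂ)).eval l = 0 → ‖l‖ = 1) (hq1 : q.eval 1 ≠ 0)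
    (hexc : ¬ ExcRes m T u q) : NoREq m T u ((X - 1) ^ 4 * q) := by
  rintro S X₀ X₁ Φ cn hS hLM hend hcp hc0 - hcn hne hacc ⟨Ω, hΩ⟩
  have hm0 : ∀ a, m a ≠ 0 := fun a => (hm a).ne'
  have hM : MM m ≠ 0 := (MM_pos hm).ne'
  have hre : IsRE m Ω (pE m X₀) := ⟨pE_noColl hM hm0 hLM.nc0, hΩ⟩
  obtain ⟨h1, h2⟩ := hre.eqs
  -- roots
  have hroots : ∀ l : ℂ, (((X - 1) ^ 4 * q : ℝ[X]).map (algebraMap ℝ ℂ)).eval l = 0 → ‖l‖ = 1 := by
    intro l hl
    simp only [Polynomial.map_mul, Polynomial.map_pow, Polynomial.map_sub, Polynomial.map_X,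
      Polynomial.map_one, eval_mul, eval_pow, eval_sub, eval_X, eval_one] at hl
    rcases mul_eq_zero.1 hl with h | h
    · have : l = 1 := sub_eq_zero.1 (pow_eq_zero_iff (by norm_num) |>.1 h)
      rw [this, norm_one]
    · exact hq _ h
  rcases re_classify hm hre.1 (pE m X₀).2.1 h2 with ⟨r, hr, heq, hΩr⟩ | ⟨e', he', x', hx'⟩
  swap
  · -- collinear
    obtain ⟨s, hs, hev⟩ := euler_ev hm hre he' hx'
    have hroot := root_of_ev hm hT hu hLM hend hre hev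
    rw [hcp] at hroot
    have hnorm := hroots _ hroot
    rw [Complex.norm_exp] at hnorm
    have h3 : ((s : ℂ) * (T : ℂ)).re = 0 := Real.exp_eq_one_iff _ |>.1 hnorm
    rw [Complex.re_mul_ofReal, Complex.ofReal_re] at h3
    rcases mul_eq_zero.1 h3 with h4 | h4
    · exact hs h4
    · exact hT.ne' h4
  -- equilateral
  have hΩ0 : Ω ≠ 0 := by
    rintro rfl
    have := MM_pos hm
    rw [← hΩr] at this
    simp at this
  obtain ⟨ϖ, Sh, d, e, z₀, hϖ, hTr, he, hz₀r, hy₀⟩ := lag_setup hm hre hr heq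
  have hz₀ : z₀ ≠ 0 := by
    rw [← norm_ne_zero_iff, hz₀r]
    exact hr.ne'
  have hμ : Ω ^ 2 * ‖z₀‖ ^ 3 = Mt m := by rw [hz₀r, hΩr]; rfl
  have hMt : 0 < Mt m := MP_5027f4_ell.Mt_pos hm
  -- the classical solution
  have hcl : Solves (fld m) (frame m) (Icc 0 T)
      (fun t => Complex.exp (t * Ω * Complex.I) • ((pE m X₀ : comSub m) : Ph)) :=
    hre.solves.mono (subset_univ _)
  have hX : ((pE m X₀ : comSub m) : Ph) =
      (fun t : ℝ => Complex.exp (t * Ω * Complex.I) • ((pE m X₀ : comSub m) : Ph)) 0 := by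
    simp
  have hΨ := cmap_of_lm hm hT hcl hLM hX
  set Ψ : comSub m → comSub m := fun y => Φ (T, y) with hΨdef
  -- the rotation factor
  have hy0 : pE m X₀ ≠ 0 := by
    intro h
    apply hre.1 0 1 (by decide)
    rw [h]
    rfl
  have hue : u = Complex.exp ((Ω * T : ℝ) * Complex.I) := by
    obtain ⟨x, hx, hx0, hxT⟩ := hΨ.cl.self_of_nhds
    have hcl' : Solves (fld m) noColl (Icc 0 T)
        (fun t => Complex.exp (t * Ω * Complex.I) • ((pE m X₀ : comSub m) : Ph)) :=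
      fun t ht => ⟨frame_subset m (hcl t ht).1, (hcl t ht).2⟩
    have hx' : Solves (fld m) noColl (Icc 0 T) x :=
      fun t ht => ⟨frame_subset m (hx t ht).1, (hx t ht).2⟩
    have h3 := (hcl'.eqOn_of_eq isOpen_noColl (contDiffOn_fld m) hx' (by rw [hx0]; simp))
      ⟨hT.le, le_rfl⟩
    simp only at h3
    rw [hxT] at h3
    have h4 : Complex.exp (T * Ω * Complex.I) • pE m X₀ = Ψ (pE m X₀) := Subtype.ext h3
    obtain ⟨-, hfix⟩ := ret_fix hm hLM hu hend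
    have h5 : u⁻¹ • Ψ (pE m X₀) = pE m X₀ := hfix
    have hu0 : u ≠ 0 := by
      rintro rfl
      simp at hu
    have h6 : Ψ (pE m X₀) = u • pE m X₀ := by
      rw [← h5, smul_smul, mul_inv_cancel₀ hu0, one_smul, h5]
    rw [h6] at h4
    have h7 : Complex.exp (T * Ω * Complex.I) = u := smul_left_injective ℂ hy0 h4
    rw [← h7]
    congr 1
    push_cast
    ring
  -- the blocks
  have hks : KSol (Mt m) T (fun t => z₀ * Complex.exp ((Ω * t : ℝ) * Complex.I))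
      (fun t => (Ω : ℂ) * Complex.I * (z₀ * Complex.exp ((Ω * t : ℝ) * Complex.I))) :=
    circ_ksol hz₀ hμ
  obtain ⟨A, hA⟩ := exists_mono (M := Mt m) (s := 1) hT.le hks u
  obtain ⟨B, hB⟩ := exists_mono (M := Mt m) (s := sm m) hT.le hks u
  have hz00 : z₀ * Complex.exp ((Ω * 0 : ℝ) * Complex.I) = z₀ := by simp
  have hD : ∀ p, fderiv ℝ (fun y => u⁻¹ • Ψ y) (pE m X₀) (e p) = e (A p.1, B p.2) := by
    intro p
    have h3 := blk hm hϖ hTr he hT (u := u) hks (Ψ := Ψ) (by rw [hz00, ← hy₀]; exact hΨ)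
      hA hB p
    rwa [hz00, ← hy₀] at h3
  have hcpAB : (X - 1) ^ 4 * q = cp A * cp B := by
    rw [← hcp]
    exact cp_blk e hD
  obtain ⟨hA1, hA2⟩ := circ_hom hMt hT hμ hue hA
  by_cases hu1 : u = 1
  · -- rotation number one
    have hAp := hA2 hu1
    have hBq : cp B = q := by
      rw [hAp] at hcpAB
      exact (cancel_pow hcpAB).symm
    have hu1' : ∀ y, (fun y => u⁻¹ • Ψ y) y = Ψ y := by
      intro y
      simp only [hu1, inv_one, one_smul]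
    have hfun : (fun y => u⁻¹ • Ψ y) = Ψ := funext hu1'
    have hret : ret Φ T u = Ψ := hfun
    rw [hret] at hacc
    rw [hfun] at hD
    rw [hy₀] at hΨ hD hcn hne hacc
    refine hom_contra hm hϖ hTr he hT hΩ0 hz₀ hμ hΨ hD (by rw [hBq]; exact hq1)
      (χ := (X - 1) ^ 4 * q) ?_ hcn hne hacc
    intro h
    have h3 : ((X - 1 : ℝ[X]) ^ 4) ≠ 0 := by
      refine pow_ne_zero 4 ?_
      have := Polynomial.X_sub_C_ne_zero (1 : ℝ)
      simpa using this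
    rcases mul_eq_zero.1 h with h | h
    · exact h3 h
    · exact hq1 (by rw [h, eval_zero])
  · -- the exceptional case
    refine hexc ⟨hu1, ?_, ?_⟩
    · have h3 : ((((X - 1) ^ 4 * q : ℝ[X]).map (algebraMap ℝ ℂ))).eval u = 0 := by
        rw [hcpAB, Polynomial.map_mul, eval_mul, hA1, zero_mul]
      simp only [Polynomial.map_mul, Polynomial.map_pow, Polynomial.map_sub, Polynomial.map_X,
        Polynomial.map_one, eval_mul, eval_pow, eval_sub, eval_X, eval_one] at h3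
      rcases mul_eq_zero.1 h3 with h | h
      · exact absurd (sub_eq_zero.1 (pow_eq_zero_iff (by norm_num) |>.1 h)) hu1
      · exact h
    · have hB1 : (cp B).eval 1 = 0 := by
        by_contra hne'
        have h3 := eq_pow_of_mul hcpAB (LinearMap.charpoly_monic _)
          (by rw [cp_natDegree]; simp [Complex.finrank_real_complex]) hne'
        rw [h3] at hA1
        simp only [Polynomial.map_pow, Polynomial.map_sub, Polynomial.map_X, Polynomial.map_one,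
          eval_pow, eval_sub, eval_X, eval_one] at hA1
        exact hu1 (sub_eq_zero.1 (pow_eq_zero_iff (by norm_num) |>.1 hA1))
      obtain ⟨k, r', h3, h4⟩ := circ_res hMt hT hμ hue hB hB1
      exact ⟨Ω, k, r', hΩ0, hue, h3, h4⟩

end Pool.Agent.MP_5027f4_cont
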