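import Pool.Agent.Lib_MP_5027f4_cont.FAcc

/-!
# Continuation in the angular momentum up to a relative equilibrium

As in `FAcc`, with a weaker hypothesis on the relative equilibria: only those at which relative
periodic orbits of the same type accumulate are excluded.
-/

open Set Filter Topology Metric Polynomial
open scoped ComplexConjugate ContDiff
open Pool.Agent.MP_5027f4_mp

namespace Pool.Agent.MP_5027f4_cont

variable {m : Fin 3 → ℝ}

/-- Relative periodic orbits with the return polynomial `χ` do not accumulate at a relative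
equilibrium with the same polynomial. -/
def NoREq (m : Fin 3 → ℝ) (T : ℝ) (u : ℂ) (χ : ℝ[X]) : Prop :=
  ∀ S X₀ X₁ Φ (cn : ℕ → ℝ), 0 < S → LM m T S X₀ X₁ Φ → pE m X₁ = u • pE m X₀ →
    cp (fderiv ℝ (ret Φ T u) (pE m X₀)) = χ → (muE m (pE m X₀)).2 ≠ 0 →
      (muE m (pE m X₀)).1 < 0 → Tendsto cn atTop (𝓝 (muE m (pE m X₀)).2) →
      (∀ n, cn n ≠ (muE m (pE m X₀)).2) →
      (∀ 𝒱 ∈ 𝓝 (pE m X₀), ∃ᶠ n in atTop, ∃ y ∈ 𝒱, ret Φ T u y = y ∧
        muE m y = ((muE m (pE m X₀)).1, cn n) ∧ cp (fderiv ℝ (ret Φ T u) y) = χ) →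
      ¬ ∃ μ : ℝ, fld₀ m (pE m X₀) = ((μ : ℂ) * Complex.I) • pE m X₀

theorem acc_goodq (hm : ∀ a, 0 < m a) {e T : ℝ} (he : 0 < e) (hT : 0 < T) {u : ℂ}
    (hu : ‖u‖ = 1) {q : ℝ[X]} (hq1 : q.eval 1 ≠ 0) (hRE : NoREq m T u ((X - 1) ^ 4 * q))
    {cn : ℕ → ℝ} {c₀ : ℝ} (hc0 : c₀ ≠ 0) (hcn : Tendsto cn atTop (𝓝 c₀))
    (hne : ∀ n, cn n ≠ c₀) (hg : ∀ n, Good m (-e) T u ((X - 1) ^ 4 * q) (cn n)) :
    ∀ᶠ c in 𝓝 c₀, Good m (-e) T u ((X - 1) ^ 4 * q) c := by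
  have hm0 : ∀ a, m a ≠ 0 := fun a => (hm a).ne'
  obtain ⟨S, X₀, X₁, Φ, hS, hLM, hmu, hend, hacc⟩ := lim_good hm he hT hu hc0 hcn hg
  obtain ⟨han, hfix⟩ := ret_fix hm hLM hu hend
  -- the characteristic polynomial at the limit
  have hcp : cp (fderiv ℝ (ret Φ T u) (pE m X₀)) = (X - 1) ^ 4 * q := by
    refine cp_eq_of_frequently han.fderiv.continuousAt fun 𝒱 h𝒱 => ?_
    obtain ⟨n, y, hy, -, -, h4⟩ := (hacc 𝒱 h𝒱).exists
    exact ⟨y, hy, h4⟩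
  have hnr := hRE S X₀ X₁ Φ cn hS hLM hend hcp (by rw [hmu]; exact hc0) (by rw [hmu]; linarith)
    (by rw [hmu]; exact hcn) (by rw [hmu]; exact hne) (by rw [hmu]; exact hacc)
  -- the local flow
  have hr0 : Run m (muE m (pE m X₀)).1 0 X₀ 0 X₀ := Run.zero m _ X₀
  obtain ⟨φ, hφ⟩ := exists_LM hm hr0 hLM.nc0 hLM.nc0
  have hact := locAct hm hφ hnr
  obtain ⟨𝒱, h𝒱, hgood⟩ := good_near hm hLM hS hu
  have hfam := acc_family (finrank_comSub hm) (omE_self (m := m)) (omE_nondeg hm) hact han hfix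
    (ret_comm hm hLM hφ hu hend) (ret_mu hm hLM hu) hcp hq1 (cn := cn) (by rw [hmu]; exact hcn)
    (fun n => by rw [hmu]; exact hne n) (fun 𝒲 h𝒲 => by
      refine (hacc 𝒲 h𝒲).mono fun n hn => ?_
      obtain ⟨y, h1, h2, h3, h4⟩ := hn
      exact ⟨y, h1, h2, by rw [h3, hmu], h4⟩) 𝒱 h𝒱
  rw [hmu] at hfam
  filter_upwards [hfam] with c hc
  obtain ⟨y, h1, h2, h3, h4⟩ := hc
  exact hgood y h1 h2 _ _ _ h3 h4

/-- **There is no open family of relative periodic orbits** with the same energy, period, rotation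
and nontrivial multipliers. -/
theorem no_goodq (hm : ∀ a, 0 < m a) {e T : ℝ} (he : 0 < e) (hT : 0 < T) {u : ℂ}
    (hu : ‖u‖ = 1) {q : ℝ[X]} (hq1 : q.eval 1 ≠ 0) (hRE : NoREq m T u ((X - 1) ^ 4 * q))
    {c₁ : ℝ} (h : ∀ᶠ c in 𝓝 c₁, Good m (-e) T u ((X - 1) ^ 4 * q) c) : False := by
  obtain ⟨B, hB⟩ := good_bounded (χ := (X - 1) ^ 4 * q) hm he hT hu
  -- we may assume `c₁ ≠ 0`
  obtain ⟨c₂, hc₂, h2⟩ : ∃ c₂ : ℝ, c₂ ≠ 0 ∧
      ∀ᶠ c in 𝓝 c₂, Good m (-e) T u ((X - 1) ^ 4 * q) c := by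
    obtain ⟨ε, hε, hball⟩ := Metric.eventually_nhds_iff.1 h.eventually_nhds
    by_cases h0 : c₁ = 0
    · refine ⟨ε / 2, by positivity, hball ?_⟩
      rw [h0, Real.dist_eq, sub_zero, abs_of_pos (by positivity)]
      linarith
    · exact ⟨c₁, h0, h⟩
  rcases lt_or_gt_of_ne hc₂ with hneg | hpos
  · refine no_open_closed (G := fun c => Good m (-e) T u ((X - 1) ^ 4 * q) (-c)) (B := B)
      (c₁ := -c₂) (fun c hc => ?_) (by linarith) ?_ ?_
    · have := hB _ hc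
      rw [abs_neg] at this
      exact (le_abs_self c).trans this
    · have h3 : Tendsto (fun c : ℝ => -c) (𝓝 (-c₂)) (𝓝 c₂) := by
        have := (continuous_neg.tendsto (-c₂))
        rwa [neg_neg] at this
      exact h3.eventually h2
    · intro cn c₀ h0 h1 h3 h4
      have h5 := acc_goodq hm he hT hu hq1 hRE (cn := fun n => -cn n) (c₀ := -c₀)
        (by linarith [h0] : -c₀ < 0).ne h1.neg (fun n hn => h3 n (neg_injective hn)) h4
      have h6 : Tendsto (fun c : ℝ => -c) (𝓝 c₀) (𝓝 (-c₀)) := continuous_neg.tendsto c₀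
      exact h6.eventually h5
  · exact no_open_closed (B := B) (c₁ := c₂) (fun c hc => (le_abs_self c).trans (hB c hc)) hpos h2
      fun cn c₀ h0 h1 h3 h4 => acc_goodq hm he hT hu hq1 hRE h0.ne' h1 h3 h4

end Pool.Agent.MP_5027f4_cont
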