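import Pool.Agent.Lib_MP_5027f4_cont.Ham
import Pool.Agent.Lib_MP_5027f4_cont.Coh

/-!
PIECE [NFJa] (MP_5027f4_mp, T1).  Approximate invariants, no quadratic terms.
-/

open Set Filter Topology Metric Polynomial Asymptotics
open scoped ComplexConjugate ContDiff

namespace Pool.Agent.MP_5027f4_cont

namespace NFJaAux

theorem diff_bound {G : ℂ × ℂ → ℝ} (hG : HG 4 G) {P : ℂ × ℂ → ℂ × ℂ} {Λ : (ℂ × ℂ) →L[ℝ] (ℂ × ℂ)}
    (hΛ : ∀ z, ‖Λ z‖ = ‖z‖) (hq : (fun z => P z - Λ z) =O[𝓝 0] fun z => ‖z‖ ^ 3) :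
    (fun z => G (P z) - G (Λ z)) =O[𝓝 0] fun z => ‖z‖ ^ 5 := by
  obtain ⟨C1, hC1, hb⟩ := hG.fderiv_bound
  obtain ⟨c, hc⟩ := hq.bound
  have hm : 1 ≤ max c 1 := le_max_right _ _
  have hm0 : 0 < max c 1 := by linarith
  refine IsBigO.of_bound (8 * C1 * max c 1) ?_
  filter_upwards [hc, ball_mem_nhds (0 : ℂ × ℂ) (one_div_pos.2 hm0)] with z hz hr
  rw [mem_ball_zero_iff] at hr
  have hz0 : 0 ≤ ‖z‖ := norm_nonneg z
  have h1 : max c 1 * ‖z‖ < 1 := by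
    have := (lt_div_iff₀ hm0).1 hr
    linarith
  have hz1 : ‖z‖ ≤ 1 := by nlinarith
  rw [Real.norm_of_nonneg (pow_nonneg hz0 3)] at hz
  have h2 : ‖P z - Λ z‖ ≤ max c 1 * ‖z‖ ^ 3 :=
    hz.trans (mul_le_mul_of_nonneg_right (le_max_left _ _) (pow_nonneg hz0 3))
  have h3 : ‖P z - Λ z‖ ≤ ‖z‖ := by
    refine h2.trans ?_
    have e : max c 1 * ‖z‖ ^ 3 = (max c 1 * ‖z‖) * (‖z‖ * ‖z‖) := by ring
    rw [e]
    have h4 : ‖z‖ * ‖z‖ ≤ ‖z‖ := by nlinarith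
    have h5 : 0 ≤ ‖z‖ * ‖z‖ := mul_nonneg hz0 hz0
    nlinarith
  have hPz : P z ∈ closedBall (0 : ℂ × ℂ) (2 * ‖z‖) := by
    rw [mem_closedBall_zero_iff]
    have : P z = (P z - Λ z) + Λ z := by abel
    rw [this]
    refine (norm_add_le _ _).trans ?_
    rw [hΛ]
    linarith
  have hLz : Λ z ∈ closedBall (0 : ℂ × ℂ) (2 * ‖z‖) := by
    rw [mem_closedBall_zero_iff, hΛ]
    linarith
  have hd : ∀ w ∈ closedBall (0 : ℂ × ℂ) (2 * ‖z‖), DifferentiableAt ℝ G w := fun w _ =>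
    (hG.analyticAt w).differentiableAt
  have hbd : ∀ w ∈ closedBall (0 : ℂ × ℂ) (2 * ‖z‖), ‖fderiv ℝ G w‖ ≤ C1 * (2 * ‖z‖) ^ 3 := by
    intro w hw
    rw [mem_closedBall_zero_iff] at hw
    exact (hb w).trans (mul_le_mul_of_nonneg_left (pow_le_pow_left₀ (norm_nonneg w) hw 3) hC1)
  have h6 := (convex_closedBall (0 : ℂ × ℂ) (2 * ‖z‖)).norm_image_sub_le_of_norm_fderiv_le hd hbd hLz hPz
  refine h6.trans ?_
  rw [Real.norm_of_nonneg (pow_nonneg hz0 5)]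
  have h7 : C1 * (2 * ‖z‖) ^ 3 * ‖P z - Λ z‖ ≤ C1 * (2 * ‖z‖) ^ 3 * (max c 1 * ‖z‖ ^ 3) :=
    mul_le_mul_of_nonneg_left h2 (mul_nonneg hC1 (by positivity))
  refine h7.trans ?_
  have e : C1 * (2 * ‖z‖) ^ 3 * (max c 1 * ‖z‖ ^ 3) = 8 * C1 * max c 1 * ‖z‖ ^ 5 * ‖z‖ := by ring
  rw [e]
  have h8 : 0 ≤ 8 * C1 * max c 1 * ‖z‖ ^ 5 := by positivity
  nlinarith

/-- one invariant -/
theorem one_J {P Q Q₃ : ℂ × ℂ → ℂ × ℂ} {Λ K : (ℂ × ℂ) →L[ℝ] (ℂ × ℂ)} {p : (ℂ × ℂ) →L[ℝ] ℂ} {μ : ℂ}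
    (hμ : ‖μ‖ = 1) (hΛ : ∀ z, ‖Λ z‖ = ‖z‖) (hp : ∀ z, p (Λ z) = μ * p z)
    (hpn : ∀ z, ‖p z‖ ≤ ‖z‖) (hK : ∀ z w, os (K z) w = -(conj (p z) * p w).re)
    (hKΛ : ∀ z, K (Λ z) = Λ (K z)) (hQ : ∀ z, p (Q₃ z) = μ * p (Q z))
    (hPO : (fun z => P z - (Λ z + Q₃ z)) =O[𝓝 0] fun z => ‖z‖ ^ 4)
    (hq : (fun z => P z - Λ z) =O[𝓝 0] fun z => ‖z‖ ^ 3)
    {F C b : ℂ × ℂ → ℝ} (hC : HG 4 C) (hb : HG 4 b)
    (hFd : ∀ z η, fderiv ℝ F z η = os η (Q z)) (hcoh : ∀ z, F z = C (Λ z) - C z + b z)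
    (hKb : ∀ z, fderiv ℝ b z (K z) = 0) :
    ∃ J : ℂ × ℂ → ℝ, (fun z => J z - Complex.normSq (p z)) =O[𝓝 0] (fun z => ‖z‖ ^ 3) ∧
      (fun z => J (P z) - J z) =O[𝓝 0] (fun z => ‖z‖ ^ 5) := by
  have hG : HG 4 (fun z => fderiv ℝ C z (K z)) := hC.fderiv_lin K
  set G : ℂ × ℂ → ℝ := fun z => fderiv ℝ C z (K z) with hGdef
  -- the derivative of the cohomological equation
  have key : ∀ z, G (Λ z) - G z = -(conj (p z) * p (Q z)).re := by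
    intro z
    rw [← hK, ← hFd]
    have hCd : ∀ w, HasFDerivAt C (fderiv ℝ C w) w := fun w =>
      (hC.analyticAt w).differentiableAt.hasFDerivAt
    have hbd : HasFDerivAt b (fderiv ℝ b z) z := (hb.analyticAt z).differentiableAt.hasFDerivAt
    have h1 : HasFDerivAt F (((fderiv ℝ C (Λ z)).comp Λ) - fderiv ℝ C z + fderiv ℝ b z) z := by
      have : F = fun z => C (Λ z) - C z + b z := funext hcoh
      rw [this]
      exact (((hCd (Λ z)).comp z Λ.hasFDerivAt).sub (hCd z)).add hbd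
    rw [h1.fderiv]
    simp only [add_apply, sub_apply,
      ContinuousLinearMap.comp_apply, hKb, hGdef, hKΛ, add_zero]
  have hz1 : ∀ᶠ z : ℂ × ℂ in 𝓝 0, ‖z‖ ≤ 1 := by
    filter_upwards [ball_mem_nhds (0 : ℂ × ℂ) one_pos] with z hz
    exact (mem_ball_zero_iff.1 hz).le
  refine ⟨fun z => Complex.normSq (p z) + 2 * G z, ?_, ?_⟩
  · obtain ⟨c, hc0, hc⟩ := hG.bound
    refine IsBigO.of_bound (2 * c) ?_
    filter_upwards [hz1] with z hz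
    have h1 := hc z
    have h2 : Complex.normSq (p z) + 2 * G z - Complex.normSq (p z) = 2 * G z := by ring
    rw [h2, norm_mul, Real.norm_of_nonneg (by norm_num : (0 : ℝ) ≤ 2),
      Real.norm_of_nonneg (pow_nonneg (norm_nonneg z) 3)]
    have h3 : c * ‖z‖ ^ 4 ≤ c * ‖z‖ ^ 3 :=
      mul_le_mul_of_nonneg_left (pow_le_pow_of_le_one (norm_nonneg z) hz (by norm_num)) hc0
    linarith
  · -- decomposition
    have hpO : ∀ {g : ℂ × ℂ → ℂ × ℂ} {k : ℕ}, (g =O[𝓝 0] fun z => ‖z‖ ^ k) →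
        (fun z => p (g z)) =O[𝓝 0] fun z => ‖z‖ ^ k := by
      intro g k hg
      refine IsBigO.trans (IsBigO.of_bound 1 (Eventually.of_forall fun z => ?_)) hg
      rw [one_mul]
      exact hpn _
    have hΛO : (fun z : ℂ × ℂ => Λ z) =O[𝓝 0] fun z => ‖z‖ ^ 1 := by
      refine IsBigO.of_bound 1 (Eventually.of_forall fun z => ?_)
      rw [pow_one, norm_norm, one_mul, hΛ]
    have hconj : ∀ {g : ℂ × ℂ → ℂ} {k : ℕ}, (g =O[𝓝 0] fun z => ‖z‖ ^ k) →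
        (fun z => conj (g z)) =O[𝓝 0] fun z => ‖z‖ ^ k := by
      intro g k hg
      refine IsBigO.trans (IsBigO.of_bound 1 (Eventually.of_forall fun z => ?_)) hg
      rw [one_mul, RCLike.norm_conj]
    have hre : ∀ {g : ℂ × ℂ → ℂ} {k : ℕ}, (g =O[𝓝 0] fun z => ‖z‖ ^ k) →
        (fun z => (g z).re) =O[𝓝 0] fun z => ‖z‖ ^ k := by
      intro g k hg
      refine IsBigO.trans (IsBigO.of_bound 1 (Eventually.of_forall fun z => ?_)) hg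
      rw [one_mul, Real.norm_eq_abs]
      exact Complex.abs_re_le_norm _
    have hmulO : ∀ {g g' : ℂ × ℂ → ℂ} {k l : ℕ}, (g =O[𝓝 0] fun z => ‖z‖ ^ k) →
        (g' =O[𝓝 0] fun z => ‖z‖ ^ l) → (fun z => g z * g' z) =O[𝓝 0] fun z => ‖z‖ ^ (k + l) := by
      intro g g' k l hg hg'
      have := hg.mul hg'
      refine this.congr_right fun z => ?_
      rw [pow_add]
    have hle : ∀ {k l : ℕ}, k ≤ l → (fun z : ℂ × ℂ => ‖z‖ ^ l) =O[𝓝 0] fun z => ‖z‖ ^ k := by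
      intro k l hkl
      refine IsBigO.of_bound 1 ?_
      filter_upwards [hz1] with z hz
      rw [one_mul, Real.norm_of_nonneg (pow_nonneg (norm_nonneg z) l),
        Real.norm_of_nonneg (pow_nonneg (norm_nonneg z) k)]
      exact pow_le_pow_of_le_one (norm_nonneg z) hz hkl
    have hE : (fun z => (conj (p (Λ z)) * p (P z - (Λ z + Q₃ z))).re) =O[𝓝 0] fun z => ‖z‖ ^ 5 :=
      hre (hmulO (k := 1) (l := 4) (hconj (hpO hΛO)) (hpO hPO))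
    have hN : (fun z => (conj (p (P z - Λ z)) * p (P z - Λ z)).re) =O[𝓝 0] fun z => ‖z‖ ^ 5 :=
      (hre (hmulO (k := 3) (l := 3) (hconj (hpO hq)) (hpO hq))).trans (hle (by norm_num))
    have hD := diff_bound hG hΛ hq
    refine (((hE.const_mul_left 2).add hN).add (hD.const_mul_left 2)).congr_left fun z => ?_
    have hns : ∀ a : ℂ, Complex.normSq a = (conj a * a).re := by
      intro a
      rw [mul_comm, Complex.mul_conj, Complex.ofReal_re]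
    have e1 : Complex.normSq (p (P z)) = Complex.normSq (p (Λ z)) +
        2 * (conj (p (Λ z)) * p (Q₃ z)).re + 2 * (conj (p (Λ z)) * p (P z - (Λ z + Q₃ z))).re +
        (conj (p (P z - Λ z)) * p (P z - Λ z)).re := by
      rw [hns, hns]
      have h1 : p (P z - (Λ z + Q₃ z)) = p (P z) - (p (Λ z) + p (Q₃ z)) := by
        rw [map_sub, map_add]
      have h2 : p (P z - Λ z) = p (P z) - p (Λ z) := map_sub _ _ _
      rw [h1, h2]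
      simp only [map_sub, Complex.mul_re, Complex.sub_re, Complex.sub_im, Complex.add_re,
        Complex.add_im, Complex.conj_re, Complex.conj_im]
      ring
    have hμ2 : conj μ * μ = 1 := by
      rw [mul_comm, Complex.mul_conj, Complex.normSq_eq_norm_sq, hμ]
      norm_num
    have e2 : Complex.normSq (p (Λ z)) = Complex.normSq (p z) := by
      rw [hp, Complex.normSq_mul, Complex.normSq_eq_norm_sq μ, hμ]
      ring
    have e3 : (conj (p (Λ z)) * p (Q₃ z)).re = (conj (p z) * p (Q z)).re := by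
      rw [hp, hQ, map_mul]
      have : conj μ * conj (p z) * (μ * p (Q z)) = (conj μ * μ) * (conj (p z) * p (Q z)) := by ring
      rw [this, hμ2, one_mul]
    have e4 := key z
    beta_reduce
    rw [e1, e2, e3]
    linarith

theorem to_bound {f : ℂ × ℂ → ℝ} {k : ℕ} (h : f =O[𝓝 0] fun z => ‖z‖ ^ k) :
    ∃ C r : ℝ, 0 < r ∧ ∀ z, ‖z‖ < r → |f z| ≤ C * ‖z‖ ^ k := by
  obtain ⟨C, hC⟩ := h.bound
  obtain ⟨r, hr, h2⟩ := Metric.eventually_nhds_iff_ball.1 hC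
  refine ⟨C, r, hr, fun z hz => ?_⟩
  have := h2 z (mem_ball_zero_iff.2 hz)
  rwa [Real.norm_of_nonneg (pow_nonneg (norm_nonneg z) k), Real.norm_eq_abs] at this

theorem deriv_rot {b : ℂ × ℂ → ℝ} (hb : HG 4 b) {s t : ℝ → ℂ} {z w : ℂ × ℂ}
    (hs : HasDerivAt (fun θ => (s θ * z.1, t θ * z.2)) w (0 : ℝ)) (h0 : (s 0 * z.1, t 0 * z.2) = z)
    (hinv : ∀ θ, b (s θ * z.1, t θ * z.2) = b z) : fderiv ℝ b z w = 0 := by
  have h1 : HasFDerivAt b (fderiv ℝ b z) (s 0 * z.1, t 0 * z.2) := by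
    rw [h0]
    exact (hb.analyticAt z).differentiableAt.hasFDerivAt
  have h2 := h1.comp_hasDerivAt (0 : ℝ) hs
  have h3 : (b ∘ fun θ => (s θ * z.1, t θ * z.2)) = fun _ => b z := funext hinv
  rw [h3] at h2
  exact h2.unique (hasDerivAt_const (0 : ℝ) (b z))

end NFJaAux

open NFJaAux in
/-- Case without quadratic terms.

Proof.  `Λ = Ld μ₁ μ₂` preserves `os` and `normSq z.j`.  `P z = Λ z + Q₃ z + O(‖z‖⁴)`, `Q = Λ⁻¹ Q₃`
(`Λ⁻¹ = Ld μ₁⁻¹ μ₂⁻¹`) satisfies `os (DQ ξ) η + os ξ (DQ η) = 0` (`ham3`), so with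
`F z = os z (Q z) / 4`: `DF(z) η = os η (Q z)` (`ham_potential`).  `F = C ∘ Λ - C + b` (`coh_four`).
Let `X₁ z = (I z.1, 0)`, `∂₁ f (z) = Df(z) (X₁ z)`.  `os (X₁ z) w = - Re (conj z.1 w.1)`, i.e.
`D(normSq z.1)(z) w = 2 Re (conj z.1 w.1) = - 2 os (X₁ z) w`, hence
`D(normSq z.1) (Q z) = - 2 ∂₁ F (z)`; `∂₁ b = 0` (rotation invariance, differentiate in the angle),
`∂₁ (C ∘ Λ) = (∂₁ C) ∘ Λ` as `Λ X₁ z = X₁ (Λ z)`.  So with `J₁ z = normSq z.1 + 2 ∂₁ C (z)`: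
`J₁ (P z) - J₁ z = [normSq (Λ z + Q₃ z + O₄).1 - normSq z.1] + 2 [∂₁C (Λ z) - ∂₁C z] + O(‖z‖⁵)`
`= 2 Re (conj (Λ z).1 (Q₃ z).1) + 2 [..] + O(‖z‖⁵) = -2 ∂₁F z + 2 ∂₁F z + O(‖z‖⁵)`, using
`Re (conj (Λ z).1 (Q₃ z).1) = Re (conj z.1 (Q z).1)` and `∂₁ C` homogeneous of degree 4
(`HG.fderiv_lin`, `HG.fderiv_bound` for `∂₁C (P z) - ∂₁C (Λ z) = O(‖z‖³ ‖z‖³)`).  The same for
`J₂`. -/
theorem exists_J_of_no_quad {P : ℂ × ℂ → ℂ × ℂ} {μ₁ μ₂ : ℂ} (hP : AnalyticAt ℝ P 0)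
    (hA : fderiv ℝ P 0 = Ld μ₁ μ₂) (h₁ : ‖μ₁‖ = 1) (h₂ : ‖μ₂‖ = 1)
    (hn : NonRes μ₁ μ₂) (hs : ∀ᶠ z in 𝓝 0, ∀ ξ η, os (fderiv ℝ P z ξ) (fderiv ℝ P z η) = os ξ η)
    (hq : (fun z => P z - Ld μ₁ μ₂ z) =O[𝓝 0] fun z => ‖z‖ ^ 3) :
    ∃ J₁ J₂ : ℂ × ℂ → ℝ, ∃ C r : ℝ, 0 < r ∧ ∀ z, ‖z‖ < r →
      |J₁ z - Complex.normSq z.1| ≤ C * ‖z‖ ^ 3 ∧ |J₂ z - Complex.normSq z.2| ≤ C * ‖z‖ ^ 3 ∧
      |J₁ (P z) - J₁ z| ≤ C * ‖z‖ ^ 5 ∧ |J₂ (P z) - J₂ z| ≤ C * ‖z‖ ^ 5 := by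
  have hP0 : P 0 = 0 := by
    have h := hq.eq_zero_imp
    have h2 := h.self_of_nhds (by simp)
    simpa using h2
  have hμ₁ : μ₁ ≠ 0 := by
    intro h
    rw [h, norm_zero] at h₁
    exact zero_ne_one h₁
  have hμ₂ : μ₂ ≠ 0 := by
    intro h
    rw [h, norm_zero] at h₂
    exact zero_ne_one h₂
  have hc : ∀ {μ : ℂ}, ‖μ‖ = 1 → conj μ = μ⁻¹ := by
    intro μ hμ
    rw [Complex.inv_def, Complex.normSq_eq_norm_sq, hμ]
    norm_num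
  obtain ⟨Q₂, Q₃, hQ₂, hQ₃, hT, hT'⟩ := taylor3 hP
  rw [hP0, hA] at hT
  rw [hA] at hT'
  have hz1 : ∀ᶠ z : ℂ × ℂ in 𝓝 0, ‖z‖ ≤ 1 := by
    filter_upwards [ball_mem_nhds (0 : ℂ × ℂ) one_pos] with z hz
    exact (mem_ball_zero_iff.1 hz).le
  have hle : ∀ {k l : ℕ}, k ≤ l → (fun z : ℂ × ℂ => ‖z‖ ^ l) =O[𝓝 0] fun z => ‖z‖ ^ k := by
    intro k l hkl
    refine IsBigO.of_bound 1 ?_
    filter_upwards [hz1] with z hz
    rw [one_mul, Real.norm_of_nonneg (pow_nonneg (norm_nonneg z) l),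
      Real.norm_of_nonneg (pow_nonneg (norm_nonneg z) k)]
    exact pow_le_pow_of_le_one (norm_nonneg z) hz hkl
  have hQ₃O : Q₃ =O[𝓝 0] fun z => ‖z‖ ^ 3 := by
    obtain ⟨cQ, hcQ0, hcQ⟩ := hQ₃.bound
    refine IsBigO.of_bound cQ (Eventually.of_forall fun z => ?_)
    rw [Real.norm_of_nonneg (pow_nonneg (norm_nonneg z) 3)]
    exact hcQ z
  have hQ₂0 : ∀ z, Q₂ z = 0 := by
    have hO : Q₂ =O[𝓝 0] fun z => ‖z‖ ^ (2 + 1) := by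
      have h1 := (hq.sub (hT.trans (hle (by norm_num : 3 ≤ 4)))).sub hQ₃O
      refine h1.congr_left fun z => ?_
      abel
    exact eq_zero_of_homog hQ₂.smul_arg hO
  have hQ₂f : Q₂ = fun _ => 0 := funext hQ₂0
  have hPO : (fun z => P z - (Ld μ₁ μ₂ z + Q₃ z)) =O[𝓝 0] fun z => ‖z‖ ^ 4 := by
    refine hT.congr_left fun z => ?_
    rw [hQ₂0]
    abel
  have hPO' : (fun z => fderiv ℝ P z - (Ld μ₁ μ₂ + fderiv ℝ Q₃ z)) =O[𝓝 0] fun z => ‖z‖ ^ 3 := by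
    refine hT'.congr_left fun z => ?_
    rw [hQ₂f]
    simp
  have hos : ∀ ξ η, os (Ld μ₁ μ₂ ξ) (Ld μ₁ μ₂ η) = os ξ η := by
    intro ξ η
    rw [os, os, Ld_apply, Ld_apply]
    have e1 : conj (μ₁ * ξ.1) * (μ₁ * η.1) = conj ξ.1 * η.1 := by
      rw [map_mul, hc h₁]
      field_simp
    have e2 : conj (μ₂ * ξ.2) * (μ₂ * η.2) = conj ξ.2 * η.2 := by
      rw [map_mul, hc h₂]
      field_simp
    show (conj (μ₁ * ξ.1) * (μ₁ * η.1) + conj (μ₂ * ξ.2) * (μ₂ * η.2)).im = _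
    rw [e1, e2]
  have hham := ham3 hQ₃ hPO' hos hs
  -- the map `Q`
  have hcancel : ∀ w, Ld μ₁ μ₂ (Ld μ₁⁻¹ μ₂⁻¹ w) = w := by
    intro w
    rw [Ld_apply, Ld_apply]
    simp [hμ₁, hμ₂]
  set Q : ℂ × ℂ → ℂ × ℂ := fun z => Ld μ₁⁻¹ μ₂⁻¹ (Q₃ z) with hQdef
  have hQ : HG 3 Q := hQ₃.comp_left (Ld μ₁⁻¹ μ₂⁻¹)
  have hQd : ∀ z ξ, fderiv ℝ Q z ξ = Ld μ₁⁻¹ μ₂⁻¹ (fderiv ℝ Q₃ z ξ) := by
    intro z ξ
    have h1 : HasFDerivAt Q₃ (fderiv ℝ Q₃ z) z := (hQ₃.analyticAt z).differentiableAt.hasFDerivAt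
    have h2 : HasFDerivAt Q ((Ld μ₁⁻¹ μ₂⁻¹).comp (fderiv ℝ Q₃ z)) z :=
      (Ld μ₁⁻¹ μ₂⁻¹).hasFDerivAt.comp z h1
    rw [h2.fderiv]
    rfl
  have hpot := ham_potential hQ (by
    intro z ξ η
    rw [hQd, hQd, ← hos, ← hos ξ, hcancel, hcancel]
    exact hham z ξ η)
  have hF : HG 4 (fun z => (1 / (((3 : ℕ) : ℝ) + 1)) * os z (Q z)) :=
    (hQ.os_self).const_smul (1 / (((3 : ℕ) : ℝ) + 1))
  set F : ℂ × ℂ → ℝ := fun z => (1 / (((3 : ℕ) : ℝ) + 1)) * os z (Q z) with hFdef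
  obtain ⟨C, b, hC, hb, hcoh, hrot⟩ := coh_four h₁ h₂ hn hF
  have hΛn : ∀ z, ‖Ld μ₁ μ₂ z‖ = ‖z‖ := by
    intro z
    rw [Ld_apply, Prod.norm_def, Prod.norm_def, norm_mul, norm_mul, h₁, h₂, one_mul, one_mul]
  have hexp : HasDerivAt (fun θ : ℝ => Complex.exp (θ * Complex.I)) Complex.I 0 := by
    have h1 : HasDerivAt (fun θ : ℝ => ((θ : ℂ) * Complex.I)) Complex.I 0 := by
      have := (Complex.ofRealCLM.hasDerivAt (x := (0 : ℝ))).mul_const Complex.I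
      simpa using this
    have h2 := h1.cexp
    simpa using h2
  -- first invariant
  obtain ⟨J₁, hJ₁, hJ₁'⟩ := one_J (p := ContinuousLinearMap.fst ℝ ℂ ℂ) (Λ := Ld μ₁ μ₂)
    (K := Ld Complex.I 0) (P := P) (Q := Q) (Q₃ := Q₃) (F := F) (C := C) (b := b) h₁ hΛn
    (fun z => rfl) (fun z => by
      rw [Prod.norm_def]
      exact le_max_left _ _)
    (fun z w => by
      rw [os, Ld_apply]
      simp
      ring)
    (fun z => by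
      rw [Ld_apply, Ld_apply, Ld_apply, Ld_apply]
      ext <;> simp <;> ring)
    (fun z => by
      show (Q₃ z).1 = μ₁ * (μ₁⁻¹ * (Q₃ z).1)
      field_simp) hPO hq hC hb hpot hcoh
    (fun z => by
      refine deriv_rot hb (s := fun θ => Complex.exp (θ * Complex.I)) (t := fun _ => 1) ?_ ?_ ?_
      · rw [Ld_apply, zero_mul]
        refine HasDerivAt.prodMk (hexp.mul_const z.1) ?_
        simpa using hasDerivAt_const (0 : ℝ) ((1 : ℂ) * z.2)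
      · simp
      · intro θ
        exact hrot _ _ z (Complex.norm_exp_ofReal_mul_I θ) norm_one)
  obtain ⟨J₂, hJ₂, hJ₂'⟩ := one_J (p := ContinuousLinearMap.snd ℝ ℂ ℂ) (Λ := Ld μ₁ μ₂)
    (K := Ld 0 Complex.I) (P := P) (Q := Q) (Q₃ := Q₃) (F := F) (C := C) (b := b) h₂ hΛn
    (fun z => rfl) (fun z => by
      rw [Prod.norm_def]
      exact le_max_right _ _)
    (fun z w => by
      rw [os, Ld_apply]
      simp
      ring)
    (fun z => by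
      rw [Ld_apply, Ld_apply, Ld_apply, Ld_apply]
      ext <;> simp <;> ring)
    (fun z => by
      show (Q₃ z).2 = μ₂ * (μ₂⁻¹ * (Q₃ z).2)
      field_simp) hPO hq hC hb hpot hcoh
    (fun z => by
      refine deriv_rot hb (s := fun _ => 1) (t := fun θ => Complex.exp (θ * Complex.I)) ?_ ?_ ?_
      · rw [Ld_apply, zero_mul]
        refine HasDerivAt.prodMk ?_ (hexp.mul_const z.2)
        simpa using hasDerivAt_const (0 : ℝ) ((1 : ℂ) * z.1)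
      · simp
      · intro θ
        exact hrot _ _ z norm_one (Complex.norm_exp_ofReal_mul_I θ))
  obtain ⟨C₁, r₁, hr₁, b₁⟩ := to_bound hJ₁
  obtain ⟨C₂, r₂, hr₂, b₂⟩ := to_bound hJ₂
  obtain ⟨C₃, r₃, hr₃, b₃⟩ := to_bound hJ₁'
  obtain ⟨C₄, r₄, hr₄, b₄⟩ := to_bound hJ₂'
  refine ⟨J₁, J₂, max (max C₁ C₂) (max C₃ C₄), min (min r₁ r₂) (min r₃ r₄),
    lt_min (lt_min hr₁ hr₂) (lt_min hr₃ hr₄), fun z hz => ?_⟩
  rw [lt_min_iff, lt_min_iff, lt_min_iff] at hz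
  have h3 : 0 ≤ ‖z‖ ^ 3 := pow_nonneg (norm_nonneg z) 3
  have h5 : 0 ≤ ‖z‖ ^ 5 := pow_nonneg (norm_nonneg z) 5
  refine ⟨(b₁ z hz.1.1).trans (mul_le_mul_of_nonneg_right ?_ h3),
    (b₂ z hz.1.2).trans (mul_le_mul_of_nonneg_right ?_ h3),
    (b₃ z hz.2.1).trans (mul_le_mul_of_nonneg_right ?_ h5),
    (b₄ z hz.2.2).trans (mul_le_mul_of_nonneg_right ?_ h5)⟩
  · exact (le_max_left _ _).trans (le_max_left _ _)
  · exact (le_max_right _ _).trans (le_max_left _ _)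
  · exact (le_max_left _ _).trans (le_max_right _ _)
  · exact (le_max_right _ _).trans (le_max_right _ _)

end Pool.Agent.MP_5027f4_cont
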