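import Pool.Agent.Lib_MP_5027f4_cont.NAcc
import Pool.Agent.Lib_MP_5027f4_cont.FRe
import Pool.Agent.Lib_MP_5027f4_cont.HBd
import Pool.Agent.Lib_MP_5027f4_cont.HNeg

/-!
# Elliptic relative periodic orbits near Lyapunov stable ones, all masses
-/

open Set Filter Topology Metric Polynomial
open scoped ComplexConjugate ContDiff
open Pool.Agent.MP_5027f4_mp

namespace Pool.Agent.MP_5027f4_cont

variable {m : Fin 3 → ℝ}

/-- angular velocity of a relative equilibrium -/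
noncomputable def angv (m : Fin 3 → ℝ) (p : Ph) : ℝ :=
  (∑ a, m a * (conj (p.1 a) * p.2 a).im) / ∑ a, m a * Complex.normSq (p.1 a)

theorem inertia_pos (hm : ∀ a, 0 < m a) {p : Ph} (hp : p ∈ noColl) :
    0 < ∑ a, m a * Complex.normSq (p.1 a) := by
  have h1 : ∀ a ∈ (Finset.univ : Finset (Fin 3)), 0 ≤ m a * Complex.normSq (p.1 a) := fun a _ =>
    mul_nonneg (hm a).le (Complex.normSq_nonneg _)
  refine lt_of_le_of_ne (Finset.sum_nonneg h1) fun h => ?_
  have h2 := (Finset.sum_eq_zero_iff_of_nonneg h1).1 h.symm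
  have h3 : ∀ a, p.1 a = 0 := fun a =>
    Complex.normSq_eq_zero.1 ((mul_eq_zero.1 (h2 a (Finset.mem_univ a))).resolve_left (hm a).ne')
  exact hp 0 1 (by decide) (by rw [h3 0, h3 1])

theorem angv_eq (hm : ∀ a, 0 < m a) {p : Ph} (hp : p ∈ noColl) {μ : ℝ}
    (h : fld m p = ((μ : ℂ) * Complex.I) • p) : angv m p = μ := by
  have h1 : p.2 = ((μ : ℂ) * Complex.I) • p.1 := congrArg Prod.fst h
  have h2 : ∀ a, (conj (p.1 a) * p.2 a).im = μ * Complex.normSq (p.1 a) := by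
    intro a
    rw [h1]
    simp only [Pi.smul_apply, smul_eq_mul]
    have h3 : conj (p.1 a) * ((μ : ℂ) * Complex.I * p.1 a) =
        ((μ * Complex.normSq (p.1 a) : ℝ) : ℂ) * Complex.I := by
      rw [Complex.ofReal_mul, Complex.normSq_eq_conj_mul_self]
      ring
    rw [h3]
    simp
  rw [angv, div_eq_iff (inertia_pos hm hp).ne', Finset.mul_sum]
  refine Finset.sum_congr rfl fun a _ => ?_
  rw [h2]
  ring

theorem open_nonRE (hm : ∀ a, 0 < m a) : ∃ W : Set Ph, IsOpen W ∧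
    (∀ p ∈ W, ¬ ∃ μ : ℝ, fld m p = ((μ : ℂ) * Complex.I) • p) ∧
    ∀ p ∈ noColl, (¬ ∃ μ : ℝ, fld m p = ((μ : ℂ) * Complex.I) • p) → p ∈ W := by
  set f : Ph → Ph := fun p => fld m p - ((angv m p : ℂ) * Complex.I) • p with hf
  have hc : ContinuousOn f noColl := by
    have h1 : ContinuousOn (fld m) noColl := (contDiffOn_fld2 m).continuousOn
    have h2 : ContinuousOn (angv m) noColl := by
      refine ContinuousOn.div ?_ ?_ fun p hp => (inertia_pos hm hp).ne'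
      · refine Continuous.continuousOn ?_
        refine continuous_finsetSum _ fun a _ => ?_
        refine continuous_const.mul (Complex.continuous_im.comp ?_)
        exact (Complex.continuous_conj.comp ((continuous_apply a).comp continuous_fst)).mul
          ((continuous_apply a).comp continuous_snd)
      · refine Continuous.continuousOn ?_
        refine continuous_finsetSum _ fun a _ => ?_
        exact continuous_const.mul (Complex.continuous_normSq.comp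
          ((continuous_apply a).comp continuous_fst))
    have h3 : ContinuousOn (fun p : Ph => ((angv m p : ℂ) * Complex.I)) noColl :=
      (Complex.continuous_ofReal.comp_continuousOn h2).mul continuousOn_const
    exact h1.sub (h3.smul continuousOn_id)
  refine ⟨noColl ∩ f ⁻¹' {0}ᶜ, ?_, ?_, ?_⟩
  · exact hc.isOpen_inter_preimage isOpen_noColl isOpen_compl_singleton
  · rintro p ⟨hp, hp2⟩ ⟨μ, hμ⟩
    apply hp2
    simp only [hf, mem_singleton_iff]
    rw [angv_eq hm hp hμ, hμ, sub_self]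
  · intro p hp hn
    refine ⟨hp, fun h => hn ⟨angv m p, ?_⟩⟩
    simp only [hf, mem_singleton_iff] at h
    exact sub_eq_zero.1 h

/-- no relative equilibrium near an orbit with nonconstant distances -/
theorem exists_nonRE (hm : ∀ a, 0 < m a) {x : ℝ → Ph} (hx : Solves (fld m) (frame m) univ x)
    (hnc : ¬ ∀ a b t, ‖(x t).1 a - (x t).1 b‖ = ‖(x 0).1 a - (x 0).1 b‖) :
    ∃ W : Set Ph, IsOpen W ∧ range x ⊆ W ∧
      ∀ p ∈ W, ¬ ∃ μ : ℝ, fld m p = ((μ : ℂ) * Complex.I) • p := by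
  obtain ⟨W, hW, hWn, hWx⟩ := open_nonRE hm
  refine ⟨W, hW, ?_, hWn⟩
  rintro _ ⟨t, rfl⟩
  refine hWx _ (hx t (mem_univ t)).1.1 fun ⟨μ, hμ⟩ => hnc ?_
  have h1 : Solves (fld m) (frame m) univ (fun s => x (t + s)) := hx.shift t
  have h2 : fld m (x (t + 0)) = ((μ : ℂ) * Complex.I) • x (t + 0) := by rw [add_zero]; exact hμ
  have h3 := const_of_releq h1 h2
  intro a b s
  have h4 := h3 a b (s - t)
  have h5 := h3 a b (0 - t)
  simp only [add_sub_cancel] at h4 h5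
  rw [h4, h5]

/-- the core: no relative equilibrium at the end of the family (`hRE`) -/
theorem coreq (hm : ∀ a, 0 < m a) {x : ℝ → Ph} (hx : Solves (fld m) (frame m) univ x) {P : ℝ}
    (hP : 0 < P) (hper : ∀ t, x (t + P) = x t) (hst : LyapunovStable m (range x))
    (hnc : ¬ ∀ a b t, ‖(x t).1 a - (x t).1 b‖ = ‖(x 0).1 a - (x 0).1 b‖) :
    ∃ U, IsOpen U ∧ range x ⊆ U ∧ ∀ (y : ℝ → Ph) (T : ℝ) (u : ℂ), 0 < T → ‖u‖ = 1 →
      Solves (fld m) (frame m) (Icc 0 T) y → y 0 ∈ U → y T = u • y 0 →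
      ∀ M : comSub m →ₗ[ℝ] comSub m, IsMon m y T u M → ∀ q : ℝ[X], Ell4 q →
        M.charpoly = (X - 1) ^ 4 * q → ¬ NoREq m T u ((X - 1) ^ 4 * q) := by
  obtain ⟨U, hU, hxU, hbd⟩ := bd_of_stable hm hx hP hper hst hnc
  obtain ⟨W, hW, hxW, hWn⟩ := exists_nonRE hm hx hnc
  refine ⟨U ∩ W, hU.inter hW, subset_inter hxU hxW,
    fun y T u hT hu hy hyUW hyT M hM q hell hq hRE => ?_⟩
  obtain ⟨hy0, hyW⟩ := hyUW
  have hm0 : ∀ a, m a ≠ 0 := fun a => (hm a).ne'
  have hMM : MM m ≠ 0 := (MM_pos hm).ne'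
  have h0mem : (0 : ℝ) ∈ Icc 0 T := ⟨le_rfl, hT.le⟩
  have hfr := (hy 0 h0mem).1
  have hneg := energy_neg hm hT hu hy hyT
  -- lift to the regularized problem
  obtain ⟨X₀, hn0, hX0⟩ := exists_lift hMM hm0 (y := ⟨y 0, hfr.2⟩) hfr.1
  have hX : ((pE m X₀ : comSub m) : Ph) = y 0 := by rw [hX0]
  obtain ⟨S, hS, c, hc, hc0, hcn, hcy, hcT⟩ := exists_lift_run hm hT hy hn0 hX
  have hen : (muE m (pE m X₀)).1 = energy m (y 0) := by
    simp only [muE, hX]
  have hrun : Run m (muE m (pE m X₀)).1 S X₀ T (c S) := by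
    rw [hen]
    exact ⟨c, hc, hc0, rfl, hcT⟩
  have hn1 : Nonc (c S) := hcn S ⟨hS.le, le_rfl⟩
  have hend : pE m (c S) = u • pE m X₀ := by
    apply Subtype.ext
    rw [hcy S ⟨hS.le, le_rfl⟩, hcT, hyT]
    change u • y 0 = u • ((pE m X₀ : comSub m) : Ph)
    rw [hX]
  obtain ⟨Φ, hLM⟩ := exists_LM hm hrun hn0 hn1
  obtain ⟨φ, hφ⟩ := exists_LM hm (Run.zero m (muE m (pE m X₀)).1 X₀) hn0 hn0
  have hBD := hbd y T u hT hu hy hy0 hyT S X₀ (c S) Φ φ hX hLM hφ hend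
  have hcp : cp (fderiv ℝ (ret Φ T u) (pE m X₀)) = (X - 1) ^ 4 * q := by
    rw [cp_monodromy hm hT hy hLM hX hu hM, hq]
  have hnr : ¬ ∃ μ : ℝ, fld₀ m (pE m X₀) = ((μ : ℂ) * Complex.I) • pE m X₀ := by
    rintro ⟨μ, hμ⟩
    refine hWn _ hyW ⟨μ, ?_⟩
    have h1 : ((fld₀ m (pE m X₀) : comSub m) : Ph) =
        ((((μ : ℂ) * Complex.I) • pE m X₀ : comSub m) : Ph) := by rw [hμ]
    have h2 : fld m ((pE m X₀ : comSub m) : Ph) =
        ((μ : ℂ) * Complex.I) • ((pE m X₀ : comSub m) : Ph) := h1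
    rwa [hX] at h2
  obtain ⟨han, hfix⟩ := ret_fix hm hLM hu hend
  obtain ⟨𝒱, h𝒱, hgood⟩ := good_near hm hLM hS hu
  have hfam := local_family (finrank_comSub hm) (omE_self (m := m)) (omE_nondeg hm)
    (locAct hm hφ hnr) han hfix (ret_comm hm hLM hφ hu hend) (ret_mu hm hLM hu)
    (ret_symp_E hm hLM hu) hBD hcp hell 𝒱 h𝒱
  obtain ⟨e, he⟩ : ∃ e : ℝ, (muE m (pE m X₀)).1 = -e := ⟨-(muE m (pE m X₀)).1, by ring⟩
  have he0 : 0 < e := by
    have : -e < 0 := by rw [← he, hen]; exact hneg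
    linarith
  refine no_goodq hm he0 hT hu (ell_eval_one hell) hRE (c₁ := (muE m (pE m X₀)).2) ?_
  filter_upwards [hfam] with c' hc'
  obtain ⟨z, h1, h2, h3, h4⟩ := hc'
  exact hgood z h1 h2 _ _ _ (by rw [h3, he]) h4

end Pool.Agent.MP_5027f4_cont
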