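import Pool.Agent.Lib_MP_5027f4_cont.FFin
import Pool.Agent.Lib_MP_5027f4_cont.NMain
import Pool.Agent.Lib_MP_5027f4_cont.MNo

/-!
# Multipliers of Lyapunov stable relative periodic orbits, all masses (final assembly)
-/

open Set Filter Topology Metric Polynomial
open scoped ComplexConjugate ContDiff
open Pool.Agent.MP_5027f4_mp

namespace Pool.Agent.MP_5027f4_cont

variable {m : Fin 3 → ℝ}

/-- the exceptional case: the rotation factor `u` is a root of unity and a multiplier, and the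
characteristic equation of the equilateral relative equilibrium has a rational root -/
def Exc (m : Fin 3 → ℝ) (u l₁ l₂ : ℂ) : Prop :=
  u ≠ 1 ∧ (∃ N : ℕ, 0 < N ∧ u ^ N = 1) ∧ (l₁ = u ∨ l₁⁻¹ = u ∨ l₂ = u ∨ l₂⁻¹ = u) ∧
    ∃ r : ℚ, 27 * (m 0 * m 1 + m 1 * m 2 + m 2 * m 0) =
      4 * (r : ℝ) ^ 2 * (1 - (r : ℝ) ^ 2) * MM m ^ 2

theorem sm_sq (hm : ∀ a, 0 < m a) : 9 / 4 * (1 - MP_5027f4_ell.sm m ^ 2) =
    27 / 4 * (m 0 * m 1 + m 1 * m 2 + m 2 * m 0) / MM m ^ 2 := by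
  have hM := MM_pos hm
  have h0 := hm 0
  have h1 := hm 1
  have h2 := hm 2
  have h3 : 0 ≤ 1 - 3 * MP_5027f4_ell.sg m / MP_5027f4_ell.Mt m ^ 2 := by
    have hM' : (0 : ℝ) < MP_5027f4_ell.Mt m := hM
    rw [sub_nonneg, div_le_one (by positivity)]
    unfold MP_5027f4_ell.sg MP_5027f4_ell.Mt
    nlinarith [sq_nonneg (m 0 - m 1), sq_nonneg (m 1 - m 2), sq_nonneg (m 2 - m 0)]
  unfold MP_5027f4_ell.sm
  rw [Real.sq_sqrt h3]
  change 9 / 4 * (1 - (1 - 3 * (m 0 * m 1 + m 1 * m 2 + m 2 * m 0) / MM m ^ 2)) = _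
  ring

/-- from the exceptional resonance to rational roots -/
theorem exc_of (hm : ∀ a, 0 < m a) {T : ℝ} (hT : 0 < T) {u : ℂ} {N : ℕ} (hN : 0 < N)
    (huN : u ^ N = 1) {q : ℝ[X]} {l₁ l₂ : ℂ}
    (hqC : q.map (algebraMap ℝ ℂ) = (X - C l₁) * (X - C l₁⁻¹) * ((X - C l₂) * (X - C l₂⁻¹)))
    (h : ExcRes m T u q) : Exc m u l₁ l₂ := by
  obtain ⟨hu1, hroot, Ω, k, r, hΩ, hue, hr, hr4⟩ := h
  refine ⟨hu1, ⟨N, hN, huN⟩, ?_, ?_⟩
  · rw [hqC] at hroot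
    simp only [eval_mul, eval_sub, eval_X, eval_C] at hroot
    rcases mul_eq_zero.1 hroot with h | h <;> rcases mul_eq_zero.1 h with h | h
    · exact Or.inl (sub_eq_zero.1 h).symm
    · exact Or.inr (Or.inl (sub_eq_zero.1 h).symm)
    · exact Or.inr (Or.inr (Or.inl (sub_eq_zero.1 h).symm))
    · exact Or.inr (Or.inr (Or.inr (sub_eq_zero.1 h).symm))
  · -- `N Ω T = 2 π l`
    rw [hue, ← Complex.exp_nat_mul, Complex.exp_eq_one_iff] at huN
    obtain ⟨l, hl⟩ := huN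
    have h1 : (N : ℝ) * (Ω * T) = l * (2 * Real.pi) := by
      have h2 : ((N : ℝ) * (Ω * T) : ℂ) * Complex.I = ((l : ℝ) * (2 * Real.pi) : ℂ) * Complex.I := by
        push_cast at hl ⊢
        linear_combination hl
      have h3 := mul_right_cancel₀ Complex.I_ne_zero h2
      exact_mod_cast h3
    have hl0 : (l : ℝ) ≠ 0 := by
      intro h
      rw [h, zero_mul] at h1
      have hN' : (N : ℝ) ≠ 0 := by exact_mod_cast hN.ne'
      exact (mul_ne_zero hN' (mul_ne_zero hΩ hT.ne')) h1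
    have hpi : (2 * Real.pi : ℝ) ≠ 0 := by positivity
    have h2 : r * l = N * k := by
      have h3 : r * (l * (2 * Real.pi)) = N * k * (2 * Real.pi) := by
        rw [← h1]
        linear_combination (N : ℝ) * hr
      apply mul_right_cancel₀ hpi
      linear_combination h3
    refine ⟨(N * k : ℚ) / l, ?_⟩
    have h4 : (((N * k : ℚ) / l : ℚ) : ℝ) = r := by
      push_cast
      rw [div_eq_iff hl0, h2]
    rw [h4]
    rw [sm_sq hm] at hr4
    have hM : MM m ≠ 0 := (MM_pos hm).ne'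
    field_simp at hr4
    linear_combination hr4

/-- **Theorem T2.** -/
theorem main2 (hm : ∀ a, 0 < m a) {x : ℝ → Ph}
    (hx : Solves (fld m) (frame m) univ x) {P : ℝ} (hP : 0 < P) (hper : ∀ t, x (t + P) = x t)
    (hst : LyapunovStable m (range x))
    (hnc : ¬ ∀ a b t, ‖(x t).1 a - (x t).1 b‖ = ‖(x 0).1 a - (x 0).1 b‖) :
    (∀ T > 0, ∀ u : ℂ, ‖u‖ = 1 → (∀ t, x (t + T) = u • x t) → ∃ M, IsMon m x T u M ∧
      ∃ l₁ l₂ : ℂ, ‖l₁‖ = 1 ∧ ‖l₂‖ = 1 ∧ Mult M l₁ l₂ ∧ (¬ NonRes l₁ l₂ ∨ Exc m u l₁ l₂)) ∧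
    ∃ U, IsOpen U ∧ range x ⊆ U ∧ ∀ y : ℝ → Ph, Solves (fld m) (frame m) univ y → y 0 ∈ U →
      ∀ T > 0, ∀ u : ℂ, ‖u‖ = 1 → (∀ t, y (t + T) = u • y t) → ∀ M, IsMon m y T u M →
        ∀ l₁ l₂ : ℂ, ‖l₁‖ = 1 → ‖l₂‖ = 1 → Mult M l₁ l₂ →
          (¬ NonRes l₁ l₂ ∨ Exc m u l₁ l₂) := by
  obtain ⟨U₁, hU₁, hxU₁, hcore⟩ := coreq hm hx hP hper hst hnc
  obtain ⟨N, hN, U₃, hU₃, hxU₃, hlock⟩ := lock_of_stable hm hx hP hper hst hnc
  obtain ⟨W, hW, hxW, hWn⟩ := exists_nonRE hm hx hnc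
  obtain ⟨U₂, hU₂def⟩ : ∃ U₂, U₂ = U₃ ∩ W := ⟨_, rfl⟩
  have hU₂ : IsOpen U₂ := by rw [hU₂def]; exact hU₃.inter hW
  have hxU₂ : range x ⊆ U₂ := by rw [hU₂def]; exact subset_inter hxU₃ hxW
  have hnear : ∀ y : ℝ → Ph, Solves (fld m) (frame m) univ y → y 0 ∈ U₁ ∩ U₂ →
      ∀ T > 0, ∀ u : ℂ, ‖u‖ = 1 → (∀ t, y (t + T) = u • y t) → ∀ M, IsMon m y T u M →
        ∀ l₁ l₂ : ℂ, ‖l₁‖ = 1 → ‖l₂‖ = 1 → Mult M l₁ l₂ →
          (¬ NonRes l₁ l₂ ∨ Exc m u l₁ l₂) := by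
    intro y hy hy0 T hT u hu hyu M hM l₁ l₂ h1 h2 hMl
    by_cases hnon : NonRes l₁ l₂
    swap
    · exact Or.inl hnon
    right
    have hy' : Solves (fld m) (frame m) (Icc 0 T) y := hy.mono (subset_univ _)
    have hyT : y T = u • y 0 := by
      have := hyu 0
      rwa [zero_add] at this
    have hy0W : y 0 ∈ U₃ ∩ W := by rw [← hU₂def]; exact hy0.2
    -- the rotation factor is a root of unity
    have huN : u ^ N = 1 := by
      have hdp : DistPeriodic y T := by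
        intro a b t
        rw [hyu t]
        simp only [Prod.smul_fst, Pi.smul_apply, ← smul_sub, norm_smul, hu, one_mul]
      have h3 := hlock y hy hy0W.1 T hT hdp 0
      have h4 : ∀ n : ℕ, y (0 + n * T) = u ^ n • y 0 := by
        intro n
        induction n with
        | zero => simp
        | succ n ih =>
          have h5 : (0 : ℝ) + ((n + 1 : ℕ) : ℝ) * T = (0 + n * T) + T := by push_cast; ring
          rw [h5, hyu, ih, smul_smul, pow_succ']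
      rw [h4] at h3
      have hy0n : y 0 ≠ 0 := by
        intro h
        apply (hy 0 (mem_univ 0)).1.1 0 1 (by decide)
        rw [h]
        rfl
      have h5 : u ^ N • y 0 = (1 : ℂ) • y 0 := by rw [h3, one_smul]
      exact smul_left_injective ℂ hy0n h5
    obtain ⟨S, X₀, X₁, Φ, φ, hS, hX, hLM, hφ, hend⟩ := exists_data hm hT hy' hyT
    have hcpM := cp_monodromy hm hT hy' hLM hX hu hM
    by_contra hne
    have hnr : ¬ ∃ μ : ℝ, fld₀ m (pE m X₀) = ((μ : ℂ) * Complex.I) • pE m X₀ := by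
      rintro ⟨μ, hμ⟩
      refine hWn _ hy0W.2 ⟨μ, ?_⟩
      have h1 : ((fld₀ m (pE m X₀) : comSub m) : Ph) =
          ((((μ : ℂ) * Complex.I) • pE m X₀ : comSub m) : Ph) := by rw [hμ]
      have h2 : fld m ((pE m X₀ : comSub m) : Ph) =
          ((μ : ℂ) * Complex.I) • ((pE m X₀ : comSub m) : Ph) := h1
      rwa [hX] at h2
    obtain ⟨t₁, t₂, ht⟩ := ret_form hm hu hLM hφ hend hnr
    set q : ℝ[X] := X ^ 4 - C t₁ * X ^ 3 + C t₂ * X ^ 2 - C t₁ * X + 1 with hq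
    have hMq : M.charpoly = (X - 1) ^ 4 * q := by rw [← hcpM, ht]
    have hqC : q.map (algebraMap ℝ ℂ) =
        (X - C l₁) * (X - C l₁⁻¹) * ((X - C l₂) * (X - C l₂⁻¹)) := by
      have h3 : M.charpoly.map (algebraMap ℝ ℂ) = _ := hMl
      rw [hMq, Polynomial.map_mul, Polynomial.map_pow, Polynomial.map_sub, Polynomial.map_X,
        Polynomial.map_one] at h3
      exact cancel_powC h3
    have hell : Ell4 q := ⟨l₁, l₂, h1, h2, hnon, hqC⟩
    exact hcore y T u hT hu hy' hy0.1 hyT M hM q hell hMq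
      (noREq hm hT hu (ell_root_norm hell) (ell_eval_one hell)
        fun h => hne (exc_of hm hT hN huN hqC h))
  refine ⟨fun T hT u hu hxu => ?_, U₁ ∩ U₂, hU₁.inter hU₂, subset_inter hxU₁ hxU₂, hnear⟩
  have hx' : Solves (fld m) (frame m) (Icc 0 T) x := hx.mono (subset_univ _)
  have hxT : x T = u • x 0 := by
    have := hxu 0
    rwa [zero_add] at this
  obtain ⟨S, X₀, X₁, Φ, φ, hS, hX, hLM, hφ, hend⟩ := exists_data hm hT hx' hxT
  have hnr : ¬ ∃ μ : ℝ, fld₀ m (pE m X₀) = ((μ : ℂ) * Complex.I) • pE m X₀ := by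
    rintro ⟨μ, hμ⟩
    apply hnc
    intro a b t
    refine const_of_releq hx (μ := μ) ?_ a b t
    have h1 : ((fld₀ m (pE m X₀) : comSub m) : Ph) =
        ((((μ : ℂ) * Complex.I) • pE m X₀ : comSub m) : Ph) := by rw [hμ]
    have h2 : fld m ((pE m X₀ : comSub m) : Ph) =
        ((μ : ℂ) * Complex.I) • ((pE m X₀ : comSub m) : Ph) := h1
    rwa [hX] at h2
  obtain ⟨M, hM⟩ := exists_isMon hm hT hu hx' hxT
  have hcpM := cp_monodromy hm hT hx' hLM hX hu hM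
  obtain ⟨t₁, t₂, ht⟩ := ret_form hm hu hLM hφ hend hnr
  obtain ⟨l₁, l₂, hl1, hl2, hfac⟩ := exists_factor t₁ t₂
  have hMl : Mult M l₁ l₂ := by
    unfold Mult
    rw [← hcpM, ht, Polynomial.map_mul, hfac, Polynomial.map_pow, Polynomial.map_sub,
      Polynomial.map_X, Polynomial.map_one]
  have hle : ∀ l : ℂ, (M.charpoly.map (algebraMap ℝ ℂ)).eval l = 0 → ‖l‖ ≤ 1 := by
    intro l hl
    refine multiplier_le_one hm hx hP hper hst hnc hT hu hX hLM hφ hend (l := l) ?_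
    rw [hcpM]
    exact hl
  have hone : ∀ l : ℂ, l ≠ 0 → ‖l‖ ≤ 1 → ‖l⁻¹‖ ≤ 1 → ‖l‖ = 1 := by
    intro l h0 h1 h2
    have h3 : 0 < ‖l‖ := norm_pos_iff.2 h0
    rw [norm_inv, inv_le_one₀ h3] at h2
    exact le_antisymm h1 h2
  have hev : ∀ l : ℂ, (X - C l₁ : ℂ[X]).eval l = 0 ∨ (X - C l₁⁻¹ : ℂ[X]).eval l = 0 ∨
      (X - C l₂ : ℂ[X]).eval l = 0 ∨ (X - C l₂⁻¹ : ℂ[X]).eval l = 0 →
      (M.charpoly.map (algebraMap ℝ ℂ)).eval l = 0 := by
    intro l hl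
    rw [hMl]
    simp only [eval_mul]
    rcases hl with h | h | h | h <;> rw [h] <;> ring
  have h1 : ‖l₁‖ = 1 := hone l₁ hl1 (hle _ (hev _ (Or.inl (by simp))))
    (hle _ (hev _ (Or.inr (Or.inl (by simp)))))
  have h2 : ‖l₂‖ = 1 := hone l₂ hl2 (hle _ (hev _ (Or.inr (Or.inr (Or.inl (by simp))))))
    (hle _ (hev _ (Or.inr (Or.inr (Or.inr (by simp))))))
  exact ⟨M, hM, l₁, l₂, h1, h2, hMl,
    hnear x hx ⟨hxU₁ (mem_range_self 0), hxU₂ (mem_range_self 0)⟩ T hT u hu hxu M hM l₁ l₂ h1 h2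
      hMl⟩

end Pool.Agent.MP_5027f4_cont
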