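import Pool.Agent.Lib_MP_5027f4_cont.Defs

/-!
PIECE [Nem] (MP_5027f4_mp, T1).  Analytic Nemytskii operators.
-/

open Set Filter Topology Metric
open scoped ContDiff ComplexConjugate

namespace Pool.Agent.MP_5027f4_cont

variable {E F G : Type*} [NormedAddCommGroup E] [NormedSpace ℝ E] [NormedAddCommGroup F]
  [NormedSpace ℝ F] [NormedAddCommGroup G] [NormedSpace ℝ G]

/-- `ContinuousLinearMap.compLeftContinuous` -/
theorem NemAn.clm (L : E →L[ℝ] F) : NemAn (fun x => L x) :=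
  ⟨fun c => L.compLeftContinuous ℝ unitInterval c, (L.compLeftContinuous ℝ unitInterval).contDiff, fun _ _ => rfl⟩

theorem NemAn.const (c : F) : NemAn (fun _ : E => c) :=
  ⟨fun _ => ContinuousMap.const _ c, contDiff_const, fun _ _ => rfl⟩

theorem NemAn.comp {g : F → G} {f : E → F} (hg : NemAn g) (hf : NemAn f) :
    NemAn (fun x => g (f x)) := by
  obtain ⟨N, hN, hN'⟩ := hg
  obtain ⟨M, hM, hM'⟩ := hf
  refine ⟨fun x => N (M x), hN.comp hM, fun x t => ?_⟩
  rw [hN', hM']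

theorem NemAn.add {f g : E → F} (hf : NemAn f) (hg : NemAn g) : NemAn (fun x => f x + g x) := by
  obtain ⟨N, hN, hN'⟩ := hf
  obtain ⟨M, hM, hM'⟩ := hg
  refine ⟨fun x => N x + M x, hN.add hM, fun x t => ?_⟩
  rw [ContinuousMap.add_apply, hN', hM']

theorem NemAn.sub {f g : E → F} (hf : NemAn f) (hg : NemAn g) : NemAn (fun x => f x - g x) := by
  obtain ⟨N, hN, hN'⟩ := hf
  obtain ⟨M, hM, hM'⟩ := hg
  refine ⟨fun x => N x - M x, hN.sub hM, fun x t => ?_⟩
  rw [ContinuousMap.sub_apply, hN', hM']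

theorem NemAn.neg {f : E → F} (hf : NemAn f) : NemAn (fun x => -f x) := by
  obtain ⟨N, hN, hN'⟩ := hf
  refine ⟨fun x => -N x, hN.neg, fun x t => ?_⟩
  rw [ContinuousMap.neg_apply, hN']

/-- multiplication in the normed algebra `C(unitInterval, ℂ)` -/
theorem NemAn.mul {f g : E → ℂ} (hf : NemAn f) (hg : NemAn g) : NemAn (fun x => f x * g x) := by
  obtain ⟨N, hN, hN'⟩ := hf
  obtain ⟨M, hM, hM'⟩ := hg
  refine ⟨fun x => N x * M x, hN.mul hM, fun x t => ?_⟩
  rw [ContinuousMap.mul_apply, hN', hM']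

theorem NemAn.pow {f : E → ℂ} (hf : NemAn f) (n : ℕ) : NemAn (fun x => f x ^ n) := by
  obtain ⟨N, hN, hN'⟩ := hf
  refine ⟨fun x => N x ^ n, hN.pow n, fun x t => ?_⟩
  rw [ContinuousMap.pow_apply, hN']

theorem NemAn.conj {f : E → ℂ} (hf : NemAn f) : NemAn (fun x => (starRingEnd ℂ) (f x)) :=
  (NemAn.clm (Complex.conjCLE : ℂ →L[ℝ] ℂ)).comp hf

theorem NemAn.re {f : E → ℂ} (hf : NemAn f) : NemAn (fun x => (f x).re) :=
  (NemAn.clm Complex.reCLM).comp hf

theorem NemAn.ofReal {f : E → ℝ} (hf : NemAn f) : NemAn (fun x => (f x : ℂ)) :=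
  (NemAn.clm Complex.ofRealCLM).comp hf

theorem NemAn.rmul {f g : E → ℝ} (hf : NemAn f) (hg : NemAn g) : NemAn (fun x => f x * g x) := by
  obtain ⟨N, hN, hN'⟩ := hf
  obtain ⟨M, hM, hM'⟩ := hg
  refine ⟨fun x => N x * M x, hN.mul hM, fun x t => ?_⟩
  rw [ContinuousMap.mul_apply, hN', hM']

theorem NemAn.prodMk {f : E → F} {g : E → G} (hf : NemAn f) (hg : NemAn g) :
    NemAn (fun x => (f x, g x)) := by
  have h := ((NemAn.clm (ContinuousLinearMap.inl ℝ F G)).comp hf).add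
    ((NemAn.clm (ContinuousLinearMap.inr ℝ F G)).comp hg)
  have e : (fun x => (f x, g x)) = fun x => ContinuousLinearMap.inl ℝ F G (f x) + ContinuousLinearMap.inr ℝ F G (g x) := by
    funext x
    simp
  rw [e]
  exact h

end Pool.Agent.MP_5027f4_cont
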