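import Pool.Agent.Lib_MP_5027f4_cont.DJac

/-!
# The monodromy extended by zero to the translations
-/

open Set Filter Topology Metric Polynomial
open scoped ComplexConjugate ContDiff
open Pool.Agent.MP_5027f4_mp

namespace Pool.Agent.MP_5027f4_cont

variable {m : Fin 3 → ℝ}

/-- the translations -/
def diag3 (w : ℂ × ℂ) : Ph := (fun _ => w.1, fun _ => w.2)

/-- the mean -/
noncomputable def mean3 (m : Fin 3 → ℝ) (p : Ph) : ℂ × ℂ :=
  ((∑ a, (m a : ℂ) * p.1 a) / (MM m : ℂ), (∑ a, (m a : ℂ) * p.2 a) / (MM m : ℂ))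

/-- the splitting of the phase space -/
theorem exists_split (hm : ∀ a, 0 < m a) : ∃ e : (comSub m × (ℂ × ℂ)) ≃ₗ[ℝ] Ph,
    ∀ p, e p = (p.1 : Ph) + diag3 p.2 := by
  have hM : (MM m : ℂ) ≠ 0 := by
    have h0 := hm 0
    have h1 := hm 1
    have h2 := hm 2
    have : 0 < MM m := by
      unfold MM
      positivity
    exact_mod_cast this.ne'
  let L : (comSub m × (ℂ × ℂ)) →ₗ[ℝ] Ph :=
    { toFun := fun p => (p.1 : Ph) + diag3 p.2
      map_add' := fun p q => by
        simp only [diag3, Prod.fst_add, Submodule.coe_add, Prod.snd_add]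
        refine Prod.ext ?_ ?_ <;> funext a <;> simp <;> ring
      map_smul' := fun c p => by
        refine Prod.ext ?_ ?_ <;> funext a <;> simp [diag3] }
  have hmean : ∀ p : comSub m × (ℂ × ℂ), mean3 m ((p.1 : Ph) + diag3 p.2) = p.2 := by
    rintro ⟨⟨v, hv⟩, w⟩
    obtain ⟨h1, h2⟩ := mem_comSub.1 hv
    simp only [Fin.sum_univ_three, Complex.real_smul] at h1 h2
    refine Prod.ext ?_ ?_
    · simp only [mean3, diag3, Prod.fst_add, Pi.add_apply, Fin.sum_univ_three]
      rw [div_eq_iff hM]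
      simp only [MM]
      push_cast
      linear_combination h1
    · simp only [mean3, diag3, Prod.snd_add, Pi.add_apply, Fin.sum_univ_three]
      rw [div_eq_iff hM]
      simp only [MM]
      push_cast
      linear_combination h2
  have hinj : Function.Injective L := by
    intro p q h
    have h1 : p.2 = q.2 := by
      rw [← hmean p, ← hmean q]
      exact congrArg (mean3 m) h
    have h2 : (p.1 : Ph) + diag3 p.2 = (q.1 : Ph) + diag3 q.2 := h
    rw [h1] at h2
    exact Prod.ext (Subtype.ext (add_right_cancel h2)) h1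
  have hsurj : Function.Surjective L := by
    intro p
    refine ⟨(⟨p - diag3 (mean3 m p), ?_⟩, mean3 m p), ?_⟩
    · rw [mem_comSub]
      constructor
      · simp only [Fin.sum_univ_three, Complex.real_smul, mean3, diag3, Prod.fst_sub, Pi.sub_apply]
        have h3 : ((m 0 : ℂ) + m 1 + m 2) = (MM m : ℂ) := by
          simp only [MM]
          push_cast
          ring
        field_simp
        rw [← h3]
        ring
      · simp only [Fin.sum_univ_three, Complex.real_smul, mean3, diag3, Prod.snd_sub, Pi.sub_apply]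
        have h3 : ((m 0 : ℂ) + m 1 + m 2) = (MM m : ℂ) := by
          simp only [MM]
          push_cast
          ring
        field_simp
        rw [← h3]
        ring
    · change p - diag3 (mean3 m p) + diag3 (mean3 m p) = p
      exact sub_add_cancel _ _
  exact ⟨LinearEquiv.ofBijective L ⟨hinj, hsurj⟩, fun p => rfl⟩

/-- characteristic polynomial of the extension by zero -/
theorem charpoly_ext (hm : ∀ a, 0 < m a) {M : Ph →ₗ[ℝ] Ph} {M' : comSub m →ₗ[ℝ] comSub m}
    (h1 : ∀ v : comSub m, M (v : Ph) = ((M' v : comSub m) : Ph)) (h2 : ∀ w, M (diag3 w) = 0) :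
    M.charpoly = X ^ 4 * M'.charpoly := by
  obtain ⟨e, he⟩ := exists_split hm
  have h3 : e.symm.conj M = M'.prodMap (0 : (ℂ × ℂ) →ₗ[ℝ] (ℂ × ℂ)) := by
    refine LinearMap.ext fun p => ?_
    rw [LinearEquiv.conj_apply_apply, LinearEquiv.symm_symm, LinearEquiv.symm_apply_eq, he, he,
      map_add, h1, h2]
    simp [diag3]
    rfl
  rw [← LinearEquiv.charpoly_conj e.symm M, h3, LinearMap.charpoly_prodMap, mul_comm]
  congr 1
  rw [LinearMap.charpoly_zero]
  simp [Complex.finrank_real_complex]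

/-- the monodromy extended by zero to the translations -/
def IsMonF (m : Fin 3 → ℝ) (x : ℝ → Ph) (T : ℝ) (u : ℂ) (M : Ph →ₗ[ℝ] Ph) : Prop :=
  (∀ J : ℝ → Ph, IsJacobi m x T J → J T = u • M (J 0)) ∧ ∀ w, M (diag3 w) = 0

theorem monF_iff (hm : ∀ a, 0 < m a) {T : ℝ} (hT : 0 < T) {x : ℝ → Ph}
    (hx : Solves (fld m) (frame m) (Icc 0 T) x) {u : ℂ} (hu : ‖u‖ = 1) (p : ℂ[X]) :
    (∃ M : Ph →ₗ[ℝ] Ph, IsMonF m x T u M ∧ M.charpoly.map (algebraMap ℝ ℂ) = X ^ 4 * p) ↔
      ∃ M : comSub m →ₗ[ℝ] comSub m, IsMon m x T u M ∧ M.charpoly.map (algebraMap ℝ ℂ) = p := by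
  have hu0 : u ≠ 0 := by
    rintro rfl
    simp at hu
  have hJ0 : ∀ J : ℝ → Ph, IsJacobi m x T J → J 0 ∈ comSub m ∧ J T ∈ comSub m := fun J hJ =>
    ⟨⟨(hJ 0 ⟨le_rfl, hT.le⟩).1, (hJ 0 ⟨le_rfl, hT.le⟩).2.1⟩,
      ⟨(hJ T ⟨hT.le, le_rfl⟩).1, (hJ T ⟨hT.le, le_rfl⟩).2.1⟩⟩
  obtain ⟨e, he⟩ := exists_split hm
  constructor
  · rintro ⟨M, ⟨hM1, hM2⟩, hMp⟩
    have hmem : ∀ v : comSub m, M (v : Ph) ∈ comSub m := by
      intro v
      obtain ⟨J, hJ, hJv⟩ := exists_jacobi hT.le hx v
      have h1 := hM1 J hJ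
      have h2 : M (v : Ph) = u⁻¹ • J T := by
        rw [h1, smul_smul, inv_mul_cancel₀ hu0, one_smul, hJv]
      rw [h2]
      exact (comSub m).smul_mem _ (hJ0 J hJ).2
    let M' : comSub m →ₗ[ℝ] comSub m :=
      { toFun := fun v => ⟨M (v : Ph), hmem v⟩
        map_add' := fun v w => Subtype.ext (by
          change M ((v : Ph) + (w : Ph)) = M v + M w
          rw [map_add])
        map_smul' := fun c v => Subtype.ext (by
          change M (c • (v : Ph)) = c • M v
          rw [map_smul]) }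
    refine ⟨M', fun J h hJ => hM1 J hJ, ?_⟩
    have h3 := charpoly_ext hm (M := M) (M' := M') (fun v => rfl) hM2
    rw [h3, Polynomial.map_mul, Polynomial.map_pow, Polynomial.map_X] at hMp
    exact mul_left_cancel₀ (pow_ne_zero 4 Polynomial.X_ne_zero) hMp
  · rintro ⟨M', hM', hMp⟩
    let M : Ph →ₗ[ℝ] Ph := ((comSub m).subtype.restrictScalars ℝ).comp
      (M'.comp ((LinearMap.fst ℝ (comSub m) (ℂ × ℂ)).comp (e.symm : Ph →ₗ[ℝ] (comSub m × (ℂ × ℂ)))))
    have hMv : ∀ v : comSub m, M (v : Ph) = ((M' v : comSub m) : Ph) := by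
      intro v
      have h1 : e.symm (v : Ph) = (v, 0) := by
        rw [LinearEquiv.symm_apply_eq, he]
        simp [diag3]
        rfl
      change (((M' (e.symm (v : Ph)).1 : comSub m)) : Ph) = _
      rw [h1]
    have hMd : ∀ w, M (diag3 w) = 0 := by
      intro w
      have h1 : e.symm (diag3 w) = (0, w) := by
        rw [LinearEquiv.symm_apply_eq, he]
        simp
      change (((M' (e.symm (diag3 w)).1 : comSub m)) : Ph) = _
      rw [h1, map_zero]
      rfl
    refine ⟨M, ⟨fun J hJ => ?_, hMd⟩, ?_⟩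
    · have h2 := (hJ0 J hJ).1
      rw [hM' J h2 hJ, ← hMv]
    · rw [charpoly_ext hm hMv hMd, Polynomial.map_mul, Polynomial.map_pow, Polynomial.map_X, hMp]

end Pool.Agent.MP_5027f4_cont
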