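import Pool.Agent.Lib_MP_5027f4_cont.Defs

/-!
PIECE [Palin] (MP_5027f4_mp, T1).  Palindromic characteristic polynomials.
-/

open Set Filter Topology Metric Polynomial Asymptotics
open scoped ComplexConjugate ContDiff

namespace Pool.Agent.MP_5027f4_cont

/-- the matrix of the standard symplectic form -/
def pWm : Matrix (Fin 4) (Fin 4) ℝ := !![0, 1, 0, 0; -1, 0, 0, 0; 0, 0, 0, 1; 0, 0, -1, 0]

/-- its inverse -/
def pWi : Matrix (Fin 4) (Fin 4) ℝ := !![0, -1, 0, 0; 1, 0, 0, 0; 0, 0, 0, -1; 0, 0, 1, 0]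

theorem pWi_mul_pWm : pWi * pWm = 1 := by
  ext i j
  fin_cases i <;> fin_cases j <;>
    simp [pWi, pWm, Matrix.mul_apply, Fin.sum_univ_four]

theorem pWm_mul_pWi : pWm * pWi = 1 := mul_eq_one_comm.mp pWi_mul_pWm

theorem palin_rev (M : Matrix (Fin 4) (Fin 4) ℝ) (h : M.transpose * pWm * M = pWm)
    (hdet : M.det = 1) : M.charpolyRev = M.charpoly := by
  have h1 : (pWi * M.transpose * pWm) * M = 1 := by
    calc (pWi * M.transpose * pWm) * M = pWi * (M.transpose * pWm * M) := by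
          simp only [Matrix.mul_assoc]
      _ = 1 := by rw [h, pWi_mul_pWm]
  have hu : IsUnit M := by
    rw [Matrix.isUnit_iff_isUnit_det, hdet]
    exact isUnit_one
  have h2 : M⁻¹ = pWi * M.transpose * pWm := Matrix.inv_eq_left_inv h1
  have h3 := Matrix.charpoly_inv M hu
  have h4 : (pWi * M.transpose * pWm).charpoly = M.charpoly := by
    obtain ⟨U, hU, hU'⟩ : ∃ U : (Matrix (Fin 4) (Fin 4) ℝ)ˣ,
        (U : Matrix (Fin 4) (Fin 4) ℝ) = pWi ∧
        ((U⁻¹ : (Matrix (Fin 4) (Fin 4) ℝ)ˣ) : Matrix (Fin 4) (Fin 4) ℝ) = pWm :=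
      ⟨⟨pWi, pWm, pWi_mul_pWm, pWm_mul_pWi⟩, rfl, rfl⟩
    rw [← hU, ← hU', Matrix.coe_units_inv, Matrix.charpoly_units_conj, Matrix.charpoly_transpose]
  rw [h2, h4, hdet, Ring.inverse_one, Fintype.card_fin, map_one, mul_one] at h3
  rw [h3]
  ring

theorem palin_charpoly (M : Matrix (Fin 4) (Fin 4) ℝ) (h : M.transpose * pWm * M = pWm)
    (hdet : M.det = 1) : M.charpoly = X ^ 4 - C M.trace * X ^ 3 + C (M.charpoly.coeff 2) * X ^ 2 -
      C M.trace * X + 1 := by
  have hd : M.charpoly.natDegree = 4 := by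
    rw [Matrix.charpoly_natDegree_eq_dim]
    rfl
  have c4 : M.charpoly.coeff 4 = 1 := by
    have := M.charpoly_monic
    rw [Polynomial.Monic, Polynomial.leadingCoeff, hd] at this
    exact this
  have c3 : M.charpoly.coeff 3 = -M.trace := by
    have := Matrix.trace_eq_neg_charpoly_coeff M
    rw [this]
    simp
  have c0 : M.charpoly.coeff 0 = 1 := by
    have := Matrix.det_eq_sign_charpoly_coeff M
    rw [hdet] at this
    simp only [Fintype.card_fin] at this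
    norm_num at this
    exact this.symm
  have c1 : M.charpoly.coeff 1 = -M.trace := by
    rw [← palin_rev M h hdet]
    exact Matrix.coeff_charpolyRev_eq_neg_trace M
  have hsum := M.charpoly.as_sum_range_C_mul_X_pow
  rw [hd] at hsum
  simp only [Finset.sum_range_succ, Finset.sum_range_zero, c4, c3, c0, c1] at hsum
  conv_lhs => rw [hsum]
  simp only [map_neg, map_one]
  ring

/-- the Pfaffian identity -/
theorem palin_pf (M : Matrix (Fin 4) (Fin 4) ℝ) : M.det =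
    (M 0 0 * M 1 1 - M 1 0 * M 0 1 + M 2 0 * M 3 1 - M 3 0 * M 2 1) *
      (M 0 2 * M 1 3 - M 1 2 * M 0 3 + M 2 2 * M 3 3 - M 3 2 * M 2 3) -
    (M 0 0 * M 1 2 - M 1 0 * M 0 2 + M 2 0 * M 3 2 - M 3 0 * M 2 2) *
      (M 0 1 * M 1 3 - M 1 1 * M 0 3 + M 2 1 * M 3 3 - M 3 1 * M 2 3) +
    (M 0 0 * M 1 3 - M 1 0 * M 0 3 + M 2 0 * M 3 3 - M 3 0 * M 2 3) *
      (M 0 1 * M 1 2 - M 1 1 * M 0 2 + M 2 1 * M 3 2 - M 3 1 * M 2 2) := by
  simp only [Matrix.det_succ_row_zero, Fin.sum_univ_succ, Matrix.submatrix_apply,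
    Matrix.det_fin_zero]
  simp [Fin.succAbove, Fin.lt_def]
  ring

/-- the basis `(1,0), (I,0), (0,1), (0,I)` -/
noncomputable def pB : Module.Basis (Fin 4) ℝ (ℂ × ℂ) :=
  (Complex.basisOneI.prod Complex.basisOneI).reindex finSumFinEquiv

theorem pB0 : pB 0 = (1, 0) := by
  have : (0 : Fin 4) = finSumFinEquiv (m := 2) (n := 2) (Sum.inl 0) := rfl
  rw [this, pB, Module.Basis.reindex_apply, Equiv.symm_apply_apply, Module.Basis.prod_apply]
  simp

theorem pB1 : pB 1 = (Complex.I, 0) := by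
  have : (1 : Fin 4) = finSumFinEquiv (m := 2) (n := 2) (Sum.inl 1) := rfl
  rw [this, pB, Module.Basis.reindex_apply, Equiv.symm_apply_apply, Module.Basis.prod_apply]
  simp

theorem pB2 : pB 2 = (0, 1) := by
  have : (2 : Fin 4) = finSumFinEquiv (m := 2) (n := 2) (Sum.inr 0) := rfl
  rw [this, pB, Module.Basis.reindex_apply, Equiv.symm_apply_apply, Module.Basis.prod_apply]
  simp

theorem pB3 : pB 3 = (0, Complex.I) := by
  have : (3 : Fin 4) = finSumFinEquiv (m := 2) (n := 2) (Sum.inr 1) := rfl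
  rw [this, pB, Module.Basis.reindex_apply, Equiv.symm_apply_apply, Module.Basis.prod_apply]
  simp

theorem pB_expand (x : ℂ × ℂ) : x = (⟨pB.repr x 0, pB.repr x 1⟩, ⟨pB.repr x 2, pB.repr x 3⟩) := by
  have h := pB.sum_repr x
  rw [Fin.sum_univ_four, pB0, pB1, pB2, pB3] at h
  conv_lhs => rw [← h]
  apply Prod.ext <;> apply Complex.ext <;> simp

theorem palin_os (x y : ℂ × ℂ) : os x y =
    pB.repr x 0 * pB.repr y 1 - pB.repr x 1 * pB.repr y 0 + pB.repr x 2 * pB.repr y 3 -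
      pB.repr x 3 * pB.repr y 2 := by
  conv_lhs => rw [pB_expand x, pB_expand y]
  simp [os]
  ring

/-- The characteristic polynomial of a symplectic map of `ℝ⁴` is palindromic.
Proof: with the matrices `N` of `A` and `W` of `os` in the basis `(1,0), (I,0), (0,1), (0,I)`,
`Nᵀ W N = W`, `det N = 1` (Pfaffian, or: `det N = ± 1` and ... ), `N⁻¹ = W⁻¹ Nᵀ W`, so for `x ≠ 0`
`det (x - N) = det (x - N⁻¹) = x⁴ det N⁻¹ det (x⁻¹ - N)`... see `charpoly_of_symp` in
`Lib_MP_5027f4_ell/OdeD.lean`, or expand the 4 x 4 determinant (the relations `Nᵀ W N = W` give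
`t₁ = t₃`, `det = 1`). -/
theorem cp_palindromic (A : (ℂ × ℂ) →L[ℝ] (ℂ × ℂ)) (hs : ∀ ξ η, os (A ξ) (A η) = os ξ η) :
    ∃ t₁ t₂ : ℝ, cp A = X ^ 4 - C t₁ * X ^ 3 + C t₂ * X ^ 2 - C t₁ * X + 1 := by
  set M : Matrix (Fin 4) (Fin 4) ℝ := LinearMap.toMatrix pB pB (A : (ℂ × ℂ) →ₗ[ℝ] (ℂ × ℂ)) with hM
  have hMij : ∀ i j, M i j = pB.repr (A (pB j)) i := fun i j => by
    rw [hM, LinearMap.toMatrix_apply]
    rfl
  have key : ∀ i j : Fin 4, M 0 i * M 1 j - M 1 i * M 0 j + M 2 i * M 3 j - M 3 i * M 2 j =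
      os (pB i) (pB j) := by
    intro i j
    rw [← hs, palin_os, hMij, hMij, hMij, hMij, hMij, hMij, hMij, hMij]
  have hdet : M.det = 1 := by
    rw [palin_pf, key, key, key, key, key, key, pB0, pB1, pB2, pB3]
    simp [os]
  have hW : M.transpose * pWm * M = pWm := by
    ext i j
    have h := key i j
    have e : (M.transpose * pWm * M) i j =
        M 0 i * M 1 j - M 1 i * M 0 j + M 2 i * M 3 j - M 3 i * M 2 j := by
      simp only [Matrix.mul_apply, Fin.sum_univ_four, Matrix.transpose_apply, pWm]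
      simp
      ring
    rw [e, h]
    fin_cases i <;> fin_cases j <;> simp [pWm, os, pB0, pB1, pB2, pB3]
  refine ⟨M.trace, M.charpoly.coeff 2, ?_⟩
  have h1 : cp A = M.charpoly := by
    rw [hM, LinearMap.charpoly_toMatrix]
    rfl
  rw [h1]
  exact palin_charpoly M hW hdet

end Pool.Agent.MP_5027f4_cont
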