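import Pool.Agent.Lib_MP_5027f4_cont.Defs

/-!
# Bifurcation of periodic points with drift: definitions (MP_5027f4_mp, theorem T3)

`P (c, ·)` is a family of symplectic maps of `ℂ × ℂ = ℝ⁴` with the fixed point `0`, and `a` is the
displacement (angle) function of the return map `(g, c, z) ↦ (g + a (c, z), c, P (c, z))`, which is
symplectic.
-/

open Set Filter Topology Metric Polynomial
open scoped ComplexConjugate ContDiff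

namespace Pool.Agent.MP_5027f4_cont

/-- no multiplier `±1` and no double multiplier -/
def NonRes2 (l₁ l₂ : ℂ) : Prop := l₁ ^ 2 ≠ 1 ∧ l₂ ^ 2 ≠ 1 ∧ l₁ ≠ l₂ ∧ l₁ * l₂ ≠ 1

/-- the real polynomial `q` has the roots `l₁, l₁⁻¹, l₂, l₂⁻¹` -/
def Roots2 (q : ℝ[X]) (l₁ l₂ : ℂ) : Prop :=
  q.map (algebraMap ℝ ℂ) = (X - C l₁) * (X - C l₁⁻¹) * ((X - C l₂) * (X - C l₂⁻¹))

/-- `q` has four distinct roots `l₁, l₁⁻¹, l₂, l₂⁻¹` on the unit circle -/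
def Ell2 (q : ℝ[X]) : Prop :=
  ∃ l₁ l₂ : ℂ, ‖l₁‖ = 1 ∧ ‖l₂‖ = 1 ∧ NonRes2 l₁ l₂ ∧ Roots2 q l₁ l₂

/-- A family `P (c, ·)` of symplectic maps with the fixed point `0`, and the displacement `a`. -/
structure Fam (P : ℝ × (ℂ × ℂ) → ℂ × ℂ) (a : ℝ × (ℂ × ℂ) → ℝ) : Prop where
  anP : AnalyticAt ℝ P 0
  ana : AnalyticAt ℝ a 0
  P0 : ∀ᶠ c in 𝓝 (0 : ℝ), P (c, 0) = 0
  a0 : ∀ᶠ c in 𝓝 (0 : ℝ), a (c, 0) = 0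
  symp : ∀ᶠ q in 𝓝 (0 : ℝ × (ℂ × ℂ)), ∀ ξ η, os (dz P q ξ) (dz P q η) = os ξ η
  rel : ∀ᶠ q in 𝓝 (0 : ℝ × (ℂ × ℂ)), ∀ ξ : ℂ × ℂ,
    fderiv ℝ a q (0, ξ) = -os (dz P q ξ) (fderiv ℝ P q (1, 0))

/-- iterates of the family -/
def itP (P : ℝ × (ℂ × ℂ) → ℂ × ℂ) : ℕ → ℝ × (ℂ × ℂ) → ℂ × ℂ
  | 0, q => q.2
  | n + 1, q => P (q.1, itP P n q)

/-- total displacement along `n` iterates -/
noncomputable def itA (P : ℝ × (ℂ × ℂ) → ℂ × ℂ) (a : ℝ × (ℂ × ℂ) → ℝ) (n : ℕ)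
    (q : ℝ × (ℂ × ℂ)) : ℝ := ∑ j ∈ Finset.range n, a (q.1, itP P j q)

/-- periodic points near `0` have no drift -/
def NoDrift (P : ℝ × (ℂ × ℂ) → ℂ × ℂ) (a : ℝ × (ℂ × ℂ) → ℝ) : Prop :=
  ∀ n : ℕ, ∀ᶠ q in 𝓝 (0 : ℝ × (ℂ × ℂ)), itP P n q = q.2 → itA P a n q = 0

/-- trace of a continuous linear map of `ℂ × ℂ` -/
noncomputable def tr1 (A : (ℂ × ℂ) →L[ℝ] (ℂ × ℂ)) : ℝ :=
  LinearMap.trace ℝ (ℂ × ℂ) (A : (ℂ × ℂ) →ₗ[ℝ] (ℂ × ℂ))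

/-- the one-form `A dc + Im (conj F · (dw + dF / 2))` on `ℝ × ℂ` -/
noncomputable def vp (F : ℝ × ℂ → ℂ) (A : ℝ × ℂ → ℝ) (p : ℝ × ℂ) : ℝ × ℂ →L[ℝ] ℝ :=
  A p • ContinuousLinearMap.fst ℝ ℝ ℂ +
    Complex.imCLM.comp ((conj (F p)) • (ContinuousLinearMap.snd ℝ ℝ ℂ + (2⁻¹ : ℝ) • fderiv ℝ F p))

theorem vp_apply (F : ℝ × ℂ → ℂ) (A : ℝ × ℂ → ℝ) (p e : ℝ × ℂ) :
    vp F A p e = A p * e.1 + (conj (F p) * (e.2 + (2⁻¹ : ℝ) • fderiv ℝ F p e)).im := by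
  simp [vp]
  ring

/-- the closedness condition of `vp F A` -/
def KeyForm (F : ℝ × ℂ → ℂ) (A : ℝ × ℂ → ℝ) : Prop :=
  ∀ᶠ p in 𝓝 (0 : ℝ × ℂ), ∀ e e' : ℝ × ℂ,
    fderiv ℝ A p e * e'.1 - fderiv ℝ A p e' * e.1 +
      (conj e.2 * fderiv ℝ F p e' + conj (fderiv ℝ F p e) * e'.2 +
        conj (fderiv ℝ F p e) * fderiv ℝ F p e').im = 0

end Pool.Agent.MP_5027f4_cont
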