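import Pool.Agent.Lib_MP_5027f4_cont.QDefs
import Pool.Agent.Lib_MP_5027f4_cont.Palin

/-!
PIECE [QDiag] (MP_5027f4_mp, T3).  First order perturbation of a diagonal symplectic map.
-/

open Set Filter Topology Metric Polynomial
open scoped ComplexConjugate ContDiff

namespace Pool.Agent.MP_5027f4_cont

/-- a real linear map of the plane -/
theorem qd_rep (L : ℂ →ₗ[ℝ] ℂ) : ∃ β γ : ℂ, ∀ w, L w = β * w + γ * conj w := by
  refine ⟨(L 1 - Complex.I * L Complex.I) / 2, (L 1 + Complex.I * L Complex.I) / 2, fun w => ?_⟩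
  have h : L w = w.re • L 1 + w.im • L Complex.I := by
    have hw : w = w.re • (1 : ℂ) + w.im • Complex.I := by
      apply Complex.ext <;> simp
    conv_lhs => rw [hw]
    rw [map_add, map_smul, map_smul]
  rw [h]
  apply Complex.ext <;> simp <;> ring

theorem qd_rep1 (T : (ℂ × ℂ) →L[ℝ] (ℂ × ℂ)) : ∃ β γ : ℂ, ∀ w, (T (w, 0)).1 = β * w + γ * conj w :=
  qd_rep ((LinearMap.fst ℝ ℂ ℂ) ∘ₗ (T : (ℂ × ℂ) →ₗ[ℝ] (ℂ × ℂ)) ∘ₗ (LinearMap.inl ℝ ℂ ℂ))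

theorem qd_rep2 (T : (ℂ × ℂ) →L[ℝ] (ℂ × ℂ)) : ∃ β γ : ℂ, ∀ w, (T (0, w)).2 = β * w + γ * conj w :=
  qd_rep ((LinearMap.snd ℝ ℂ ℂ) ∘ₗ (T : (ℂ × ℂ) →ₗ[ℝ] (ℂ × ℂ)) ∘ₗ (LinearMap.inr ℝ ℂ ℂ))

theorem qd_repr (x : ℂ × ℂ) : pB.repr x 0 = x.1.re ∧ pB.repr x 1 = x.1.im ∧
    pB.repr x 2 = x.2.re ∧ pB.repr x 3 = x.2.im := by
  have h := pB_expand x
  refine ⟨?_, ?_, ?_, ?_⟩
  · exact (congrArg (fun y : ℂ × ℂ => y.1.re) h).symm
  · exact (congrArg (fun y : ℂ × ℂ => y.1.im) h).symm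
  · exact (congrArg (fun y : ℂ × ℂ => y.2.re) h).symm
  · exact (congrArg (fun y : ℂ × ℂ => y.2.im) h).symm

theorem qd_trace (T : (ℂ × ℂ) →L[ℝ] (ℂ × ℂ)) : tr1 T = (T (1, 0)).1.re + (T (Complex.I, 0)).1.im +
    (T (0, 1)).2.re + (T (0, Complex.I)).2.im := by
  unfold tr1
  rw [LinearMap.trace_eq_matrix_trace ℝ pB, Matrix.trace]
  simp only [Matrix.diag_apply, Fin.sum_univ_four, LinearMap.toMatrix_apply, pB0, pB1, pB2, pB3]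
  rw [(qd_repr _).1, (qd_repr _).2.1, (qd_repr _).2.2.1, (qd_repr _).2.2.2]
  rfl

/-- the trace in terms of the diagonal blocks -/
theorem qd_trace' (T : (ℂ × ℂ) →L[ℝ] (ℂ × ℂ)) {β γ β₂ γ₂ : ℂ}
    (h1 : ∀ w, (T (w, 0)).1 = β * w + γ * conj w) (h2 : ∀ w, (T (0, w)).2 = β₂ * w + γ₂ * conj w) :
    tr1 T = 2 * β.re + 2 * β₂.re := by
  rw [qd_trace, h1, h1, h2, h2]
  simp
  ring

/-- the derivative of the symplectic condition -/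
theorem qd_os {A : ℝ → (ℂ × ℂ) →L[ℝ] (ℂ × ℂ)} {A' : (ℂ × ℂ) →L[ℝ] (ℂ × ℂ)}
    (hd : HasDerivAt A A' 0)
    (hs : ∀ᶠ c in 𝓝 (0 : ℝ), ∀ ξ η, os (A c ξ) (A c η) = os ξ η) (ξ η : ℂ × ℂ) :
    os (A' ξ) (A 0 η) + os (A 0 ξ) (A' η) = 0 := by
  have hap : ∀ ζ : ℂ × ℂ, HasDerivAt (fun c => A c ζ) (A' ζ) 0 := by
    intro ζ
    have h := hd.clm_apply (hasDerivAt_const (0 : ℝ) ζ)
    simpa using h
  have h1 : ∀ ζ : ℂ × ℂ, HasDerivAt (fun c => (A c ζ).1) (A' ζ).1 0 := fun ζ =>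
    (ContinuousLinearMap.fst ℝ ℂ ℂ).hasFDerivAt.comp_hasDerivAt 0 (hap ζ)
  have h2 : ∀ ζ : ℂ × ℂ, HasDerivAt (fun c => (A c ζ).2) (A' ζ).2 0 := fun ζ =>
    (ContinuousLinearMap.snd ℝ ℂ ℂ).hasFDerivAt.comp_hasDerivAt 0 (hap ζ)
  have hc : ∀ {f : ℝ → ℂ} {f' : ℂ}, HasDerivAt f f' 0 → HasDerivAt (fun c => conj (f c)) (conj f') 0 :=
    fun {f f'} hf => (Complex.conjCLE : ℂ →L[ℝ] ℂ).hasFDerivAt.comp_hasDerivAt 0 hf
  have h3 : HasDerivAt (fun c => (conj (A c ξ).1 * (A c η).1 + conj (A c ξ).2 * (A c η).2).im)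
      ((conj (A' ξ).1 * (A 0 η).1 + conj (A 0 ξ).1 * (A' η).1 +
        (conj (A' ξ).2 * (A 0 η).2 + conj (A 0 ξ).2 * (A' η).2)).im) 0 :=
    Complex.imCLM.hasFDerivAt.comp_hasDerivAt 0
      (((hc (h1 ξ)).mul (h1 η)).add ((hc (h2 ξ)).mul (h2 η)))
  have h4 : HasDerivAt (fun c => (conj (A c ξ).1 * (A c η).1 + conj (A c ξ).2 * (A c η).2).im) 0 0 := by
    refine (hasDerivAt_const (0 : ℝ) (os ξ η)).congr_of_eventuallyEq ?_
    filter_upwards [hs] with c hc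
    exact hc ξ η
  have h5 := h3.unique h4
  refine Eq.trans ?_ h5
  simp only [os, Complex.add_im]
  ring

/-- the diagonal block of the derivative of a symplectic family is infinitesimally symplectic -/
theorem qd_re {μ β γ : ℂ} (h : (conj (β * 1 + γ * conj 1) * (μ * Complex.I) +
    conj (μ * 1) * (β * Complex.I + γ * conj Complex.I)).im = 0) : (conj μ * β).re = 0 := by
  simp at h ⊢
  linarith

theorem qd_pow {A : ℝ → (ℂ × ℂ) →L[ℝ] (ℂ × ℂ)} {A' : (ℂ × ℂ) →L[ℝ] (ℂ × ℂ)} {μ₁ μ₂ β γ : ℂ}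
    (hd : HasDerivAt A A' 0) (h0 : ∀ z : ℂ × ℂ, A 0 z = (μ₁ * z.1, μ₂ * z.2))
    (hβ : ∀ w, (A' (w, 0)).1 = β * w + γ * conj w) (n : ℕ) :
    (∀ w : ℂ, (A 0 ^ n) (w, 0) = (μ₁ ^ n * w, 0)) ∧
    ∃ (D : (ℂ × ℂ) →L[ℝ] (ℂ × ℂ)) (a S : ℂ), HasDerivAt (fun c => A c ^ n) D 0 ∧
      (∀ w, (D (w, 0)).1 = a * w + γ * S * conj w) ∧ μ₁ * a = n * β * μ₁ ^ n ∧
      (μ₁ - conj μ₁) * S = μ₁ ^ n - conj μ₁ ^ n := by
  induction n with
  | zero =>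
    refine ⟨fun w => by simp, 0, 0, 0, ?_, by simp, by simp, by simp⟩
    simp only [pow_zero]
    exact hasDerivAt_const _ _
  | succ n ih =>
    obtain ⟨ih0, D, a, S, hD, hw, ha, hS⟩ := ih
    have e : ∀ w : ℂ, (A 0 ^ (n + 1)) (w, 0) = (μ₁ ^ (n + 1) * w, 0) := by
      intro w
      rw [pow_succ', mul_apply_eq_comp, ih0, h0]
      simp only [mul_zero]
      rw [pow_succ']
      ring_nf
    refine ⟨e, A' * A 0 ^ n + A 0 * D, β * μ₁ ^ n + μ₁ * a, conj μ₁ ^ n + μ₁ * S, ?_, ?_, ?_, ?_⟩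
    · have h1 := hd.mul hD
      refine h1.congr_of_eventuallyEq (Filter.Eventually.of_forall fun c => ?_)
      exact pow_succ' _ _
    · intro w
      rw [add_apply, mul_apply_eq_comp,
        mul_apply_eq_comp, ih0, Prod.fst_add, hβ, h0]
      simp only [hw]
      rw [map_mul, map_pow]
      ring
    · push_cast
      rw [mul_add, ha]
      ring
    · rw [mul_add, ← mul_assoc, mul_comm (μ₁ - conj μ₁) μ₁, mul_assoc, hS]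
      ring

/-- Proof.  (0) A real linear map `ℂ → ℂ` is `w ↦ β w + γ conj w`: let `β, γ` with
`(A' (w, 0)).1 = β w + γ conj w` and `β₂, γ₂` with `(A' (0, v)).2 = β₂ v + γ₂ conj v`.
(1) `hs` and differentiation at `0`: `os (A' ξ) (A 0 η) + os (A 0 ξ) (A' η) = 0`.  For `ξ = (w, 0)`,
`η = (w', 0)` this gives `2 Re (conj μ₁ β) Im (conj w w') = 0` (the terms with `γ` cancel), so
`conj μ₁ β = I s`, `β = I s μ₁` with `s` real; in the same way `β₂ = I s₂ μ₂`.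
(2) `D_n = ` derivative of `(A c) ^ n` at `0`: `D_{n+1} = A' (A 0)^n + (A 0) D_n`
(`(A c)^(n+1) = A c ∘ (A c)^n`), and `(A 0)^n (w, 0) = (μ₁^n w, 0)`.  So `d_n w = (D_n (w, 0)).1` satisfies
`d_{n+1} w = β μ₁^n w + γ conj (μ₁^n w) + μ₁ d_n w`, i.e.
`d_n w = n β μ₁^(n-1) w + γ (Σ_{j<n} μ₁^j conj μ₁^(n-1-j)) conj w`.  With `μ₁^n = 1`, `conj μ₁ = μ₁⁻¹`:
`μ₁^(n-1) = conj μ₁` and the sum is `μ₁ Σ_{j<n} (μ₁²)^j = 0` because `μ₁² ≠ 1`, `(μ₁²)^n = 1`.  So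
`d_n w = n β conj μ₁ w = I (n s) w`: `α = n s`.
(3) `α = 0` implies `s = 0`, `β = 0`.  `tr1 A' = 2 Re β + 2 Re β₂`, `tr1 (A' ∘ A 0) = 2 Re (β μ₁) +
2 Re (β₂ μ₂)` (trace in the basis `(1,0), (I,0), (0,1), (0,I)`, see `pB` in Palin.lean); with `β = 0`,
`β₂ = I s₂ μ₂`: `Re β₂ = - s₂ Im μ₂`, `Re (β₂ μ₂) = - s₂ Im (μ₂²) = - 2 s₂ Re μ₂ Im μ₂`. -/
theorem diag_alpha {A : ℝ → (ℂ × ℂ) →L[ℝ] (ℂ × ℂ)} {A' : (ℂ × ℂ) →L[ℝ] (ℂ × ℂ)} {μ₁ μ₂ : ℂ}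
    (hd : HasDerivAt A A' 0)
    (hs : ∀ᶠ c in 𝓝 (0 : ℝ), ∀ ξ η, os (A c ξ) (A c η) = os ξ η)
    (h0 : ∀ z : ℂ × ℂ, A 0 z = (μ₁ * z.1, μ₂ * z.2)) (h1 : ‖μ₁‖ = 1) (h2 : ‖μ₂‖ = 1)
    (hne : μ₁ ^ 2 ≠ 1) {n : ℕ} (hn : 0 < n) (hμ : μ₁ ^ n = 1) :
    ∃ α : ℝ, (∀ w : ℂ, HasDerivAt (fun c : ℝ => ((A c ^ n) (w, 0)).1) ((α : ℂ) * Complex.I * w) 0) ∧
      (α = 0 → tr1 (A'.comp (A 0)) = 2 * μ₂.re * tr1 A') := by
  obtain ⟨β, γ, hβ⟩ := qd_rep1 A'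
  obtain ⟨β₂, γ₂, hβ₂⟩ := qd_rep2 A'
  have hA1 : ∀ w : ℂ, A 0 (w, 0) = (μ₁ * w, 0) := fun w => by rw [h0]; simp
  have hA2 : ∀ w : ℂ, A 0 (0, w) = (0, μ₂ * w) := fun w => by rw [h0]; simp
  -- infinitesimally symplectic
  have hr1 : (conj μ₁ * β).re = 0 := by
    have h := qd_os hd hs (1, 0) (Complex.I, 0)
    rw [hA1, hA1] at h
    refine qd_re (γ := γ) ?_
    rw [← h]
    simp only [os, hβ, mul_zero, map_zero, zero_mul, add_zero, Complex.add_im]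
  have hr2 : (conj μ₂ * β₂).re = 0 := by
    have h := qd_os hd hs (0, 1) (0, Complex.I)
    rw [hA2, hA2] at h
    refine qd_re (γ := γ₂) ?_
    rw [← h]
    simp only [os, hβ₂, mul_zero, map_zero, zero_mul, zero_add, Complex.add_im]
  have hn1 : conj μ₁ * μ₁ = 1 := by
    rw [Complex.conj_mul', h1]
    simp
  have hn2 : conj μ₂ * μ₂ = 1 := by
    rw [Complex.conj_mul', h2]
    simp
  obtain ⟨s, hs1⟩ : ∃ s : ℝ, conj μ₁ * β = Complex.I * s :=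
    ⟨(conj μ₁ * β).im, by apply Complex.ext <;> simp [hr1]⟩
  obtain ⟨s₂, hs2⟩ : ∃ s : ℝ, conj μ₂ * β₂ = Complex.I * s :=
    ⟨(conj μ₂ * β₂).im, by apply Complex.ext <;> simp [hr2]⟩
  have hβe : β = Complex.I * s * μ₁ := by
    rw [← hs1]
    linear_combination (-β) * hn1
  have hβe2 : β₂ = Complex.I * s₂ * μ₂ := by
    rw [← hs2]
    linear_combination (-β₂) * hn2
  obtain ⟨-, D, a, S, hD, hw, ha, hS⟩ := qd_pow hd h0 hβ n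
  have hμc : conj μ₁ ^ n = 1 := by
    rw [← map_pow, hμ, map_one]
  have hS0 : S = 0 := by
    rw [hμ, hμc, sub_self, mul_eq_zero] at hS
    rcases hS with h | h
    · exfalso
      apply hne
      have h' : μ₁ = conj μ₁ := sub_eq_zero.1 h
      rw [sq]
      nth_rewrite 1 [h']
      exact hn1
    · exact h
  have haI : a = ((n * s : ℝ) : ℂ) * Complex.I := by
    rw [hμ, mul_one] at ha
    have h : a = n * (conj μ₁ * β) := by linear_combination (conj μ₁) * ha - a * hn1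
    rw [h, hs1]
    push_cast
    ring
  refine ⟨n * s, fun w => ?_, fun h => ?_⟩
  · have h3 := (ContinuousLinearMap.fst ℝ ℂ ℂ).hasFDerivAt.comp_hasDerivAt 0
      (hD.clm_apply (hasDerivAt_const (0 : ℝ) ((w, 0) : ℂ × ℂ)))
    refine h3.congr_deriv ?_
    rw [map_zero, add_zero]
    show (D (w, 0)).1 = _
    rw [hw, hS0, haI]
    ring
  · have hs0 : s = 0 := by
      rcases mul_eq_zero.1 h with h | h
      · exact absurd (Nat.cast_eq_zero.1 h) hn.ne'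
      · exact h
    have hβ0 : β = 0 := by
      rw [hβe, hs0]
      simp
    have t1 : tr1 A' = 2 * β.re + 2 * β₂.re := qd_trace' A' hβ hβ₂
    have t2 : tr1 (A'.comp (A 0)) = 2 * (β * μ₁).re + 2 * (β₂ * μ₂).re := by
      refine qd_trace' _ (γ := γ * conj μ₁) (γ₂ := γ₂ * conj μ₂) (fun w => ?_) (fun w => ?_)
      · rw [ContinuousLinearMap.comp_apply, hA1, hβ, map_mul]
        ring
      · rw [ContinuousLinearMap.comp_apply, hA2, hβ₂, map_mul]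
        ring
    rw [t1, t2, hβ0, hβe2]
    simp
    ring

end Pool.Agent.MP_5027f4_cont
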