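import Pool.Agent.Lib_MP_5027f4_cont.QDefs
import Pool.Agent.Lib_MP_5027f4_cont.Palin
import Pool.Agent.Lib_MP_5027f4_cont.EllOpen
import Pool.Agent.Lib_MP_5027f4_cont.CpCoeff

/-!
PIECE [QEll] (MP_5027f4_mp, T3).  Distinct multipliers on the unit circle and traces.
-/

open Set Filter Topology Metric Polynomial
open scoped ComplexConjugate ContDiff

namespace Pool.Agent.MP_5027f4_cont

/-- Cayley-Hamilton for a symplectic matrix -/
theorem qell_coeff (M : Matrix (Fin 4) (Fin 4) ℝ) (h : M.transpose * pWm * M = pWm)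
    (hdet : M.det = 1) : M.charpoly.coeff 2 = (M.trace ^ 2 - (M * M).trace) / 2 := by
  set N : Matrix (Fin 4) (Fin 4) ℝ := pWi * M.transpose * pWm with hN
  have h1 : N * M = 1 := by
    calc (pWi * M.transpose * pWm) * M = pWi * (M.transpose * pWm * M) := by
          simp only [Matrix.mul_assoc]
      _ = 1 := by rw [h, pWi_mul_pWm]
  have h2 := Matrix.aeval_self_charpoly M
  rw [palin_charpoly M h hdet] at h2
  simp only [map_add, map_sub, map_mul, map_pow, aeval_X, aeval_C, map_one] at h2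
  have e1 : N * N * (M ^ 4) = M * M := by
    calc N * N * (M ^ 4) = N * (N * M) * M * M * M := by
          simp only [pow_succ, pow_zero, Matrix.one_mul, Matrix.mul_assoc]
      _ = (N * M) * M * M := by rw [h1, Matrix.mul_one, h1]
      _ = M * M := by rw [h1, Matrix.one_mul]
  have e2 : N * N * (M ^ 3) = M := by
    calc N * N * (M ^ 3) = N * (N * M) * M * M := by
          simp only [pow_succ, pow_zero, Matrix.one_mul, Matrix.mul_assoc]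
      _ = (N * M) * M := by rw [h1, Matrix.mul_one, h1]
      _ = M := by rw [h1, Matrix.one_mul]
  have e3 : N * N * (M ^ 2) = 1 := by
    calc N * N * (M ^ 2) = N * (N * M) * M := by
          simp only [pow_succ, pow_zero, Matrix.one_mul, Matrix.mul_assoc]
      _ = N * M := by rw [h1, Matrix.mul_one, h1]
      _ = 1 := h1
  have e4 : N * N * M = N := by rw [Matrix.mul_assoc, h1, Matrix.mul_one]
  have h3 := congrArg (fun B => (N * N * B).trace) h2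
  simp only [Algebra.algebraMap_eq_smul_one, smul_mul_assoc, one_mul, Matrix.mul_add, Matrix.mul_sub,
    Matrix.mul_smul, Matrix.mul_zero, Matrix.mul_one, Matrix.trace_add, Matrix.trace_sub,
    Matrix.trace_smul, Matrix.trace_zero, e1, e2, e3, e4, smul_eq_mul] at h3
  have t1 : N.trace = M.trace := by
    rw [hN, Matrix.trace_mul_cycle, pWm_mul_pWi, Matrix.one_mul, Matrix.trace_transpose]
  have t2 : (N * N).trace = (M * M).trace := by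
    have h4 : N * N = pWi * (M.transpose * M.transpose) * pWm := by
      calc N * N = pWi * M.transpose * (pWm * pWi) * M.transpose * pWm := by
            rw [hN]
            simp only [Matrix.mul_assoc]
        _ = pWi * (M.transpose * M.transpose) * pWm := by
            rw [pWm_mul_pWi, Matrix.mul_one]
            simp only [Matrix.mul_assoc]
    rw [h4, Matrix.trace_mul_cycle, pWm_mul_pWi, Matrix.one_mul, ← Matrix.transpose_mul,
      Matrix.trace_transpose]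
  have t3 : (1 : Matrix (Fin 4) (Fin 4) ℝ).trace = 4 := by
    rw [Matrix.trace_one, Fintype.card_fin]
    norm_num
  rw [t1, t2, t3] at h3
  linarith

/-- Newton's identities.  Proof: `p = tr A` is the coefficient of `X³` (`Palin.lean`, `palin_charpoly`).
For `tr A²`: either expand the characteristic polynomial of a `4 × 4` matrix (the coefficient of `X²` is
the sum of the principal `2 × 2` minors `= ((tr M)² - tr M²) / 2`), or use `A⁻¹`: Cayley-Hamilton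
`A⁴ - p A³ + q A² - p A + 1 = 0` times `A⁻²`: `A² + A⁻² - p (A + A⁻¹) + q = 0`, with `tr A⁻¹ = tr A`,
`tr A⁻² = tr A²` (`A⁻¹ = Ω⁻¹ Aᵀ Ω`): `2 tr A² - 2 p² + 4 q = 0`. -/
theorem cp_newton (A : (ℂ × ℂ) →L[ℝ] (ℂ × ℂ)) (hs : ∀ ξ η, os (A ξ) (A η) = os ξ η) :
    cp A = X ^ 4 - C (tr1 A) * X ^ 3 + C ((tr1 A ^ 2 - tr1 (A.comp A)) / 2) * X ^ 2 -
      C (tr1 A) * X + 1 := by
  set M : Matrix (Fin 4) (Fin 4) ℝ := LinearMap.toMatrix pB pB (A : (ℂ × ℂ) →ₗ[ℝ] (ℂ × ℂ)) with hM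
  have hMij : ∀ i j, M i j = pB.repr (A (pB j)) i := fun i j => by
    rw [hM, LinearMap.toMatrix_apply]
    rfl
  have key : ∀ i j : Fin 4, M 0 i * M 1 j - M 1 i * M 0 j + M 2 i * M 3 j - M 3 i * M 2 j =
      os (pB i) (pB j) := by
    intro i j
    rw [← hs, palin_os, hMij, hMij, hMij, hMij, hMij, hMij, hMij, hMij]
  have hdet : M.det = 1 := by
    rw [palin_pf, key, key, key, key, key, key, pB0, pB1, pB2, pB3]
    simp [os]
  have hW : M.transpose * pWm * M = pWm := by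
    ext i j
    have h := key i j
    have e : (M.transpose * pWm * M) i j =
        M 0 i * M 1 j - M 1 i * M 0 j + M 2 i * M 3 j - M 3 i * M 2 j := by
      simp only [Matrix.mul_apply, Fin.sum_univ_four, Matrix.transpose_apply, pWm]
      simp
      ring
    rw [e, h]
    fin_cases i <;> fin_cases j <;> simp [pWm, os, pB0, pB1, pB2, pB3]
  have h1 : cp A = M.charpoly := by
    rw [hM, LinearMap.charpoly_toMatrix]
    rfl
  have h2 : tr1 A = M.trace := by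
    rw [hM, tr1, LinearMap.trace_eq_matrix_trace ℝ pB]
  have h3 : tr1 (A.comp A) = (M * M).trace := by
    rw [hM, tr1, LinearMap.trace_eq_matrix_trace ℝ pB, ← LinearMap.toMatrix_comp pB pB pB]
    rfl
  rw [h1, h2, h3, ← qell_coeff M hW hdet]
  exact palin_charpoly M hW hdet

theorem qell_re_ne {l₁ l₂ : ℂ} (h1 : ‖l₁‖ = 1) (h2 : ‖l₂‖ = 1) (hn : l₁ ≠ l₂) (hn' : l₁ * l₂ ≠ 1) :
    l₁.re ≠ l₂.re := by
  intro he
  have e1 : l₁.re * l₁.re + l₁.im * l₁.im = 1 := by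
    rw [← Complex.normSq_apply, Complex.normSq_eq_norm_sq, h1, one_pow]
  have e2 : l₂.re * l₂.re + l₂.im * l₂.im = 1 := by
    rw [← Complex.normSq_apply, Complex.normSq_eq_norm_sq, h2, one_pow]
  have hl2 : l₂ ≠ 0 := by
    intro h0
    rw [h0, norm_zero] at h2
    exact zero_ne_one h2
  have e3 : (l₁.im - l₂.im) * (l₁.im + l₂.im) = 0 := by
    rw [he] at e1
    linear_combination e1 - e2
  rcases mul_eq_zero.1 e3 with h | h
  · exact hn (Complex.ext he (by linarith))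
  · have h3 : l₁ = conj l₂ := Complex.ext (by rw [Complex.conj_re, he]) (by
      rw [Complex.conj_im]
      linarith)
    apply hn'
    rw [h3, ← eo_inv h2, inv_mul_cancel₀ hl2]

/-- the trace as a continuous linear map -/
noncomputable def qellTr : ((ℂ × ℂ) →L[ℝ] (ℂ × ℂ)) →L[ℝ] ℝ :=
  LinearMap.toContinuousLinearMap ((LinearMap.trace ℝ (ℂ × ℂ)) ∘ₗ
    (ContinuousLinearMap.coeLM ℝ : ((ℂ × ℂ) →L[ℝ] (ℂ × ℂ)) →ₗ[ℝ] ((ℂ × ℂ) →ₗ[ℝ] (ℂ × ℂ))))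

theorem qellTr_apply (A : (ℂ × ℂ) →L[ℝ] (ℂ × ℂ)) : qellTr A = tr1 A := rfl

/-- Proof.  Let `T₁ c = tr1 (A c)`, `T₂ c = tr1 (A c ∘ A c)`, analytic near `c₀`, and
`D c = 2 (T₂ c + 4) - T₁ c ^ 2`.  At `c₀` compare `cp_newton` with `Roots2` (`s_j = 2 Re l_j`,
`(X - l)(X - l⁻¹) = X² - 2 Re l X + 1` for `|l| = 1`, see `eo_factor`, `eo_coef` in EllOpen.lean):
`T₁ = s₁ + s₂`, `(T₁² - T₂) / 2 = s₁ s₂ + 2`, so `T₂ = s₁² + s₂² - 4`, `D c₀ = (s₁ - s₂)² > 0`, `|s_j| < 2`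
(`l_j² ≠ 1`; `s₁ ≠ s₂` because `l₁ ≠ l₂`, `l₁ l₂ ≠ 1`).  For `c` near `c₀`: `t₁ = (T₁ + √D) / 2`,
`t₂ = (T₁ - √D) / 2` are of class `C¹`, `|t_j| < 2`, `t₁ ≠ t₂`, `T₁ = t₁ + t₂`, `T₂ = t₁² + t₂² - 4`, and
`cp (A c) = (X² - t₁ X + 1) (X² - t₂ X + 1)` by `cp_newton`. -/
theorem ell2_fun {A : ℝ → (ℂ × ℂ) →L[ℝ] (ℂ × ℂ)} {c₀ : ℝ} (hA : AnalyticAt ℝ A c₀)
    (hs : ∀ᶠ c in 𝓝 c₀, ∀ ξ η, os (A c ξ) (A c η) = os ξ η) (h0 : Ell2 (cp (A c₀))) :
    ∃ (t₁ t₂ : ℝ → ℝ) (ε : ℝ), 0 < ε ∧ ContDiffOn ℝ 1 t₁ (Ioo (c₀ - ε) (c₀ + ε)) ∧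
      ContDiffOn ℝ 1 t₂ (Ioo (c₀ - ε) (c₀ + ε)) ∧ ∀ c ∈ Ioo (c₀ - ε) (c₀ + ε),
        |t₁ c| < 2 ∧ |t₂ c| < 2 ∧ t₁ c ≠ t₂ c ∧ tr1 (A c) = t₁ c + t₂ c ∧
          tr1 ((A c).comp (A c)) = t₁ c ^ 2 + t₂ c ^ 2 - 4 ∧
          cp (A c) = (X ^ 2 - C (t₁ c) * X + 1) * (X ^ 2 - C (t₂ c) * X + 1) := by
  obtain ⟨l₁, l₂, hl1, hl2, ⟨hn1, hn2, hn3, hn4⟩, hroots⟩ := h0
  set T₁ : ℝ → ℝ := fun c => tr1 (A c) with hT₁
  set T₂ : ℝ → ℝ := fun c => tr1 ((A c).comp (A c)) with hT₂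
  set D : ℝ → ℝ := fun c => 2 * (T₂ c + 4) - T₁ c ^ 2 with hD
  set t₁ : ℝ → ℝ := fun c => (T₁ c + Real.sqrt (D c)) / 2 with ht₁
  set t₂ : ℝ → ℝ := fun c => (T₁ c - Real.sqrt (D c)) / 2 with ht₂
  have hAc : ContDiffAt ℝ 1 A c₀ := hA.contDiffAt
  have cT₁ : ContDiffAt ℝ 1 T₁ c₀ := qellTr.contDiff.contDiffAt.comp c₀ hAc
  have cT₂ : ContDiffAt ℝ 1 T₂ c₀ :=
    ContDiffAt.comp (g := fun B : (ℂ × ℂ) →L[ℝ] (ℂ × ℂ) => qellTr B)
      (f := fun c => (A c).comp (A c)) c₀ qellTr.contDiff.contDiffAt (hAc.clm_comp hAc)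
  have cD : ContDiffAt ℝ 1 D c₀ :=
    (contDiffAt_const.mul (cT₂.add contDiffAt_const)).sub (cT₁.pow 2)
  obtain ⟨q1, q2⟩ := eo_coef (p := (T₁ c₀, (T₁ c₀ ^ 2 - T₂ c₀) / 2)) hl1 hl2 (by
    have h := cp_newton (A c₀) hs.self_of_nhds
    have h' : cp (A c₀) = eoPal (T₁ c₀, (T₁ c₀ ^ 2 - T₂ c₀) / 2) := h
    rw [← h']
    exact hroots)
  simp only at q1 q2
  have hne : l₁.re ≠ l₂.re := qell_re_ne hl1 hl2 hn3 hn4
  have vD : D c₀ = (2 * l₁.re - 2 * l₂.re) ^ 2 := by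
    have h5 : D c₀ = 2 * (T₂ c₀ + 4) - T₁ c₀ ^ 2 := rfl
    have h6 : T₂ c₀ = T₁ c₀ ^ 2 - 2 * (2 * l₁.re * (2 * l₂.re) + 2) := by linarith
    rw [h5, h6, q1]
    ring
  have hDpos : 0 < D c₀ := by
    rw [vD]
    have : 2 * l₁.re - 2 * l₂.re ≠ 0 := fun h => hne (by linarith)
    positivity
  have hs1 : |2 * l₁.re| < 2 := by
    have := eo_lt_one hl1 hn1
    exact abs_lt_of_sq_lt_sq (by linarith) (by norm_num)
  have hs2 : |2 * l₂.re| < 2 := by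
    have := eo_lt_one hl2 hn2
    exact abs_lt_of_sq_lt_sq (by linarith) (by norm_num)
  have hval : |t₁ c₀| < 2 ∧ |t₂ c₀| < 2 := by
    have e1 : t₁ c₀ = (T₁ c₀ + Real.sqrt (D c₀)) / 2 := rfl
    have e2 : t₂ c₀ = (T₁ c₀ - Real.sqrt (D c₀)) / 2 := rfl
    rw [e1, e2, vD, q1]
    rcases lt_or_gt_of_ne hne with hlt | hlt
    · have e3 : Real.sqrt ((2 * l₁.re - 2 * l₂.re) ^ 2) = 2 * l₂.re - 2 * l₁.re := by
        rw [← neg_sq, Real.sqrt_sq (by linarith)]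
        ring
      rw [e3]
      constructor
      · have : (2 * l₁.re + 2 * l₂.re + (2 * l₂.re - 2 * l₁.re)) / 2 = 2 * l₂.re := by ring
        rw [this]
        exact hs2
      · have : (2 * l₁.re + 2 * l₂.re - (2 * l₂.re - 2 * l₁.re)) / 2 = 2 * l₁.re := by ring
        rw [this]
        exact hs1
    · have e3 : Real.sqrt ((2 * l₁.re - 2 * l₂.re) ^ 2) = 2 * l₁.re - 2 * l₂.re := by
        rw [Real.sqrt_sq (by linarith)]
      rw [e3]
      constructor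
      · have : (2 * l₁.re + 2 * l₂.re + (2 * l₁.re - 2 * l₂.re)) / 2 = 2 * l₁.re := by ring
        rw [this]
        exact hs1
      · have : (2 * l₁.re + 2 * l₂.re - (2 * l₁.re - 2 * l₂.re)) / 2 = 2 * l₂.re := by ring
        rw [this]
        exact hs2
  have cS : ContDiffAt ℝ 1 (fun c => Real.sqrt (D c)) c₀ := cD.sqrt hDpos.ne'
  have ct₁ : ContDiffAt ℝ 1 t₁ c₀ := (cT₁.add cS).div_const 2
  have ct₂ : ContDiffAt ℝ 1 t₂ c₀ := (cT₁.sub cS).div_const 2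
  have ev1 : ∀ᶠ c in 𝓝 c₀, ContDiffAt ℝ 1 t₁ c := ct₁.eventually (by decide)
  have ev2 : ∀ᶠ c in 𝓝 c₀, ContDiffAt ℝ 1 t₂ c := ct₂.eventually (by decide)
  have ev3 : ∀ᶠ c in 𝓝 c₀, 0 < D c := cD.continuousAt.eventually_const_lt hDpos
  have ev4 : ∀ᶠ c in 𝓝 c₀, |t₁ c| < 2 := ct₁.continuousAt.abs.eventually_lt_const hval.1
  have ev5 : ∀ᶠ c in 𝓝 c₀, |t₂ c| < 2 := ct₂.continuousAt.abs.eventually_lt_const hval.2
  obtain ⟨ε, hε, hb⟩ := Metric.eventually_nhds_iff_ball.1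
    (ev1.and (ev2.and (ev3.and (ev4.and (ev5.and hs)))))
  rw [Real.ball_eq_Ioo] at hb
  refine ⟨t₁, t₂, ε, hε, fun c hc => (hb c hc).1.contDiffWithinAt,
    fun c hc => (hb c hc).2.1.contDiffWithinAt, fun c hc => ?_⟩
  obtain ⟨-, -, b3, b4, b5, b6⟩ := hb c hc
  have hsq : Real.sqrt (D c) ^ 2 = D c := Real.sq_sqrt b3.le
  have hspos : 0 < Real.sqrt (D c) := Real.sqrt_pos.2 b3
  have e1 : t₁ c = (T₁ c + Real.sqrt (D c)) / 2 := rfl
  have e2 : t₂ c = (T₁ c - Real.sqrt (D c)) / 2 := rfl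
  have e0 : D c = 2 * (T₂ c + 4) - T₁ c ^ 2 := rfl
  have e3 : T₁ c = t₁ c + t₂ c := by
    rw [e1, e2]
    ring
  have e4 : T₂ c = t₁ c ^ 2 + t₂ c ^ 2 - 4 := by
    have h5 : t₁ c ^ 2 + t₂ c ^ 2 = (T₁ c ^ 2 + Real.sqrt (D c) ^ 2) / 2 := by
      rw [e1, e2]
      ring
    rw [h5, hsq, e0]
    ring
  refine ⟨b4, b5, ?_, e3, e4, ?_⟩
  · rw [e1, e2]
    intro h
    linarith
  · have h6 := cp_newton (A c) b6
    have h7 : (tr1 (A c) ^ 2 - tr1 ((A c).comp (A c))) / 2 = t₁ c * t₂ c + 2 := by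
      change (T₁ c ^ 2 - T₂ c) / 2 = _
      rw [e3, e4]
      ring
    have h8 : tr1 (A c) = t₁ c + t₂ c := e3
    rw [h6, h7, h8]
    simp only [map_add, map_mul]
    have h9 : (C (2 : ℝ) : ℝ[X]) = 2 := rfl
    rw [h9]
    ring

/-- Proof.  `(X - l)(X - l⁻¹) = X² - 2 Re l X + 1` for `|l| = 1` (`eo_factor`). -/
theorem roots2_of {q : ℝ[X]} {t₁ t₂ : ℝ} {l₁ l₂ : ℂ}
    (h : q = (X ^ 2 - C t₁ * X + 1) * (X ^ 2 - C t₂ * X + 1)) (h1 : ‖l₁‖ = 1) (h2 : ‖l₂‖ = 1)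
    (e1 : 2 * l₁.re = t₁) (e2 : 2 * l₂.re = t₂) : Roots2 q l₁ l₂ := by
  unfold Roots2
  rw [eo_factor h1, eo_factor h2, h, e1, e2]
  simp only [Polynomial.map_sub, Polynomial.map_add, Polynomial.map_mul, Polynomial.map_pow, map_X,
    map_C, Polynomial.map_one, Complex.coe_algebraMap]

/-- Proof.  `|2 Re l| < 2`, `|l| = 1` gives `Im l ≠ 0`, so `l² ≠ 1`; `l₁ = l₂` or `l₁ = l₂⁻¹ = conj l₂` would
give `Re l₁ = Re l₂`. -/
theorem nonRes2_of {t₁ t₂ : ℝ} {l₁ l₂ : ℂ} (h1 : ‖l₁‖ = 1) (h2 : ‖l₂‖ = 1)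
    (e1 : 2 * l₁.re = t₁) (e2 : 2 * l₂.re = t₂) (b1 : |t₁| < 2) (b2 : |t₂| < 2) (hne : t₁ ≠ t₂) :
    NonRes2 l₁ l₂ := by
  have hsq : ∀ (t : ℝ) (l : ℂ), 2 * l.re = t → |t| < 2 → l ^ 2 ≠ 1 := by
    intro t l he hb h0
    have h0' : (l - 1) * (l + 1) = 0 := by linear_combination h0
    rcases mul_eq_zero.1 h0' with h | h
    · rw [sub_eq_zero.1 h, Complex.one_re] at he
      rw [← he] at hb
      norm_num at hb
    · rw [eq_neg_of_add_eq_zero_left h, Complex.neg_re, Complex.one_re] at he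
      rw [← he] at hb
      norm_num at hb
  refine ⟨hsq t₁ l₁ e1 b1, hsq t₂ l₂ e2 b2, ?_, ?_⟩
  · intro h
    apply hne
    rw [← e1, ← e2, h]
  · intro h
    apply hne
    have hl : l₂ = l₁⁻¹ := (inv_eq_of_mul_eq_one_right h).symm
    rw [← e1, ← e2, hl, eo_inv h1, Complex.conj_re]

end Pool.Agent.MP_5027f4_cont
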