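import Pool.Agent.Lib_MP_5027f4_cont.QDefs

/-!
PIECE [QEst] (MP_5027f4_mp, T3).  Taylor estimates for the primitive of `vp F A`.
-/

open Set Filter Topology Metric Polynomial
open scoped ComplexConjugate ContDiff

namespace Pool.Agent.MP_5027f4_cont

section aux

variable {G : Type*} [NormedAddCommGroup G] [NormedSpace ℝ G]

private theorem qe_mem {δ c : ℝ} {w : ℂ} (hc : |c| < δ) (hw : ‖w‖ < δ) :
    ((c, w) : ℝ × ℂ) ∈ ball (0 : ℝ × ℂ) δ := by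
  rw [mem_ball_zero_iff, Prod.norm_def]
  exact max_lt hc hw

/-- second order Taylor estimate at points of the axis `w = 0` where `f` and its derivative
in the direction `w` vanish -/
private theorem qe_sec [CompleteSpace G] {f : ℝ × ℂ → G} (hf : AnalyticAt ℝ f 0) {η : ℝ}
    (hη : 0 < η) :
    ∃ δ > 0, ∀ (c : ℝ) (w : ℂ), |c| < δ → ‖w‖ < δ → f (c, 0) = 0 →
      (∀ v : ℂ, fderiv ℝ f (c, 0) (0, v) = 0) →
      ‖f (c, w) - (2⁻¹ : ℝ) • fderiv ℝ (fderiv ℝ f) 0 (0, w) (0, w)‖ ≤ η * ‖w‖ ^ 2 := by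
  have h1 : ∀ᶠ p in 𝓝 (0 : ℝ × ℂ), AnalyticAt ℝ f p := hf.eventually_analyticAt
  have h2 := hf.fderiv.fderiv.continuousAt
  have h3 : ∀ᶠ p in 𝓝 (0 : ℝ × ℂ),
      ‖fderiv ℝ (fderiv ℝ f) p - fderiv ℝ (fderiv ℝ f) 0‖ < η := by
    have h := Metric.tendsto_nhds.mp h2.tendsto η hη
    filter_upwards [h] with p hp
    rwa [dist_eq_norm] at hp
  obtain ⟨δ, hδ, hb⟩ := Metric.eventually_nhds_iff_ball.mp (h1.and h3)
  refine ⟨δ, hδ, fun c w hc hw h0 h0' => ?_⟩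
  set T := fderiv ℝ (fderiv ℝ f) 0 with hT
  have hA : ∀ w' : ℂ, ‖w'‖ < δ →
      ‖fderiv ℝ f (c, w') - fderiv ℝ f (c, 0) - T (0, w')‖ ≤ η * ‖w'‖ := by
    intro w' hw'
    have h := (convex_ball (0 : ℝ × ℂ) δ).norm_image_sub_le_of_norm_hasFDerivWithin_le'
      (f := fderiv ℝ f) (f' := fderiv ℝ (fderiv ℝ f)) (φ := T) (C := η) (x := (c, 0))
      (y := (c, w'))
      (fun p hp => (hb p hp).1.fderiv.differentiableAt.hasFDerivAt.hasFDerivWithinAt)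
      (fun p hp => (hb p hp).2.le) (qe_mem hc (by simpa using hδ)) (qe_mem hc hw')
    have e : ((c, w') : ℝ × ℂ) - (c, 0) = (0, w') := by simp
    rw [e] at h
    refine h.trans (le_of_eq ?_)
    rw [Prod.norm_def]
    simp
  have hB : ∀ t ∈ Icc (0 : ℝ) 1, HasDerivWithinAt
      (fun t : ℝ => f (c, t • w) - (t ^ 2 * 2⁻¹ : ℝ) • T (0, w) (0, w))
      (fderiv ℝ f (c, t • w) (0, w) - t • T (0, w) (0, w)) (Icc (0 : ℝ) 1) t := by
    intro t ht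
    have hwt : ‖t • w‖ < δ := by
      rw [norm_smul, Real.norm_eq_abs, abs_of_nonneg ht.1]
      exact (mul_le_of_le_one_left (norm_nonneg w) ht.2).trans_lt hw
    have d1 : HasDerivAt (fun t : ℝ => ((c, t • w) : ℝ × ℂ)) (0, w) t := by
      refine (hasDerivAt_const t c).prodMk ?_
      have := (hasDerivAt_id t).smul_const w
      simpa using this
    have d2 := ((hb _ (qe_mem hc hwt)).1.differentiableAt.hasFDerivAt).comp_hasDerivAt t d1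
    have d3 : HasDerivAt (fun t : ℝ => (t ^ 2 * 2⁻¹ : ℝ) • T (0, w) (0, w))
        (t • T (0, w) (0, w)) t := by
      have h4 : HasDerivAt (fun t : ℝ => t ^ 2 * 2⁻¹) t t := by
        have := (hasDerivAt_pow 2 t).mul_const (2⁻¹ : ℝ)
        refine this.congr_deriv ?_
        simp only [Nat.cast_ofNat, Nat.add_one_sub_one, pow_one]
        ring
      exact h4.smul_const _
    exact (d2.sub d3).hasDerivWithinAt
  have hC : ∀ t ∈ Ico (0 : ℝ) 1,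
      ‖fderiv ℝ f (c, t • w) (0, w) - t • T (0, w) (0, w)‖ ≤ η * ‖w‖ ^ 2 := by
    intro t ht
    have ht1 : ‖t • w‖ ≤ ‖w‖ := by
      rw [norm_smul, Real.norm_eq_abs, abs_of_nonneg ht.1]
      exact mul_le_of_le_one_left (norm_nonneg w) ht.2.le
    have h := hA (t • w) (ht1.trans_lt hw)
    have e : fderiv ℝ f (c, t • w) (0, w) - t • T (0, w) (0, w) =
        (fderiv ℝ f (c, t • w) - fderiv ℝ f (c, 0) - T (0, t • w)) (0, w) := by
      have e1 : ((0 : ℝ), t • w) = t • ((0 : ℝ), w) := by simp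
      rw [e1, map_smul]
      simp [h0' w]
    rw [e]
    have hn : ‖((0 : ℝ), w)‖ = ‖w‖ := by
      rw [Prod.norm_def]; simp
    calc _ ≤ ‖fderiv ℝ f (c, t • w) - fderiv ℝ f (c, 0) - T (0, t • w)‖ * ‖((0 : ℝ), w)‖ :=
          ContinuousLinearMap.le_opNorm _ _
      _ ≤ (η * ‖t • w‖) * ‖w‖ := by
          rw [hn]
          exact mul_le_mul_of_nonneg_right h (norm_nonneg _)
      _ ≤ (η * ‖w‖) * ‖w‖ := by gcongr
      _ = η * ‖w‖ ^ 2 := by ring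
  have h := norm_image_sub_le_of_norm_deriv_le_segment_01' hB hC
  simpa [h0] using h

private theorem qe_quad [CompleteSpace G] {f : ℝ × ℂ → G} (hf : AnalyticAt ℝ f 0) :
    ∃ r > 0, ∃ H : ℝ, 0 ≤ H ∧ ∀ (c : ℝ) (w : ℂ), |c| < r → ‖w‖ < r → f (c, 0) = 0 →
      (∀ v : ℂ, fderiv ℝ f (c, 0) (0, v) = 0) → ‖f (c, w)‖ ≤ H * ‖w‖ ^ 2 := by
  obtain ⟨r, hr, h⟩ := qe_sec hf one_pos
  refine ⟨r, hr, 1 + 2⁻¹ * ‖fderiv ℝ (fderiv ℝ f) 0‖, by positivity, fun c w hc hw h0 h1 => ?_⟩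
  have h2 := h c w hc hw h0 h1
  have h3 : ‖(2⁻¹ : ℝ) • fderiv ℝ (fderiv ℝ f) 0 (0, w) (0, w)‖ ≤
      2⁻¹ * ‖fderiv ℝ (fderiv ℝ f) 0‖ * ‖w‖ ^ 2 := by
    have hn : ‖((0 : ℝ), w)‖ = ‖w‖ := by
      rw [Prod.norm_def]; simp
    have h4 := ContinuousLinearMap.le_opNorm₂ (fderiv ℝ (fderiv ℝ f) 0) ((0 : ℝ), w) ((0 : ℝ), w)
    rw [hn] at h4
    rw [norm_smul]
    have h5 : ‖(2⁻¹ : ℝ)‖ = 2⁻¹ := by norm_num
    rw [h5]
    nlinarith [h4]
  have h6 := norm_le_norm_sub_add (f (c, w)) ((2⁻¹ : ℝ) • fderiv ℝ (fderiv ℝ f) 0 (0, w) (0, w))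
  nlinarith [h6, h2, h3]

private theorem qe_dd [CompleteSpace G] {f : ℝ × ℂ → G} {p : ℝ × ℂ} (hf : AnalyticAt ℝ f p)
    (e : ℝ × ℂ) :
    HasFDerivAt (fun p => fderiv ℝ f p e) ((fderiv ℝ (fderiv ℝ f) p).flip e) p := by
  have h := hf.fderiv.differentiableAt.hasFDerivAt
  have h2 := h.clm_apply (hasFDerivAt_const e p)
  refine h2.congr_fderiv ?_
  ext <;> simp

private theorem qe_symm [CompleteSpace G] {f : ℝ × ℂ → G} {p : ℝ × ℂ} (hf : AnalyticAt ℝ f p)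
    (u v : ℝ × ℂ) : fderiv ℝ (fderiv ℝ f) p u v = fderiv ℝ (fderiv ℝ f) p v u :=
  (hf.contDiffAt (n := ω)).isSymmSndFDerivAt (by simp) u v

private theorem qe_im {u v : ℝ × ℂ → ℂ} {u' v' : ℝ × ℂ →L[ℝ] ℂ} {p : ℝ × ℂ}
    (hu : HasFDerivAt u u' p) (hv : HasFDerivAt v v' p) :
    ∃ L : ℝ × ℂ →L[ℝ] ℝ, HasFDerivAt (fun p => (conj (u p) * v p).im) L p ∧
      ∀ e, L e = (conj (u' e) * v p + conj (u p) * v' e).im := by
  have h1 : HasFDerivAt (fun p => conj (u p))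
      ((Complex.conjCLE : ℂ →L[ℝ] ℂ).comp u') p :=
    (Complex.conjCLE : ℂ →L[ℝ] ℂ).hasFDerivAt.comp p hu
  have h2 := h1.mul hv
  have h3 := Complex.imCLM.hasFDerivAt.comp p h2
  refine ⟨_, h3, fun e => ?_⟩
  simp
  ring

private theorem qe_axis [CompleteSpace G] {f : ℝ × ℂ → G} (hf : AnalyticAt ℝ f 0)
    (h0 : ∀ᶠ c in 𝓝 (0 : ℝ), f (c, 0) = 0) :
    ∀ᶠ c in 𝓝 (0 : ℝ), fderiv ℝ f (c, 0) (1, 0) = 0 := by
  have hc : ContinuousAt (fun c : ℝ => ((c, 0) : ℝ × ℂ)) 0 := by fun_prop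
  have h1 : ∀ᶠ c in 𝓝 (0 : ℝ), AnalyticAt ℝ f (c, 0) :=
    hc.tendsto.eventually hf.eventually_analyticAt
  filter_upwards [h1, h0.eventually_nhds] with c hc1 hc2
  have d1 : HasDerivAt (fun c : ℝ => ((c, 0) : ℝ × ℂ)) (1, 0) c :=
    (hasDerivAt_id c).prodMk (hasDerivAt_const c (0 : ℂ))
  have d2 := hc1.differentiableAt.hasFDerivAt.comp_hasDerivAt c d1
  have d3 : HasDerivAt (fun _ : ℝ => (0 : G)) 0 c := hasDerivAt_const c 0
  have d4 : HasDerivAt (fun _ : ℝ => (0 : G)) (fderiv ℝ f (c, 0) (1, 0)) c := by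
    refine d2.congr_of_eventuallyEq ?_
    filter_upwards [hc2] with x hx
    exact hx.symm
  exact d4.unique d3

end aux

/-- A function of `(c, w)` vanishing to first order along `w = 0` is `O(|w|²)`.
Proof.  Near `0` the second derivative is bounded by some `C`; for `p = (c, w)` in a small ball,
`t ↦ f (c, t w)` has value and derivative `0` at `t = 0` and second derivative at most `C |w|²`
(twice the mean value inequality, or `fderiv f (c, tw) (0, w)` is Lipschitz in `t`). -/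
theorem quad_bound {f : ℝ × ℂ → ℝ} (hf : AnalyticAt ℝ f 0) (h0 : ∀ᶠ c in 𝓝 (0 : ℝ), f (c, 0) = 0)
    (h1 : ∀ᶠ c in 𝓝 (0 : ℝ), ∀ δ : ℂ, fderiv ℝ f (c, 0) (0, δ) = 0) :
    ∃ r > 0, ∃ H : ℝ, ∀ (c : ℝ) (w : ℂ), |c| < r → ‖w‖ < r → |f (c, w)| ≤ H * ‖w‖ ^ 2 := by
  obtain ⟨r, hr, H, -, h⟩ := qe_quad hf
  obtain ⟨r', hr', h'⟩ := Metric.eventually_nhds_iff_ball.mp (h0.and h1)
  refine ⟨min r r', lt_min hr hr', H, fun c w hc hw => ?_⟩
  have hc' := h' c (by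
    rw [mem_ball_zero_iff, Real.norm_eq_abs]
    exact hc.trans_le (min_le_right _ _))
  have h2 := h c w (hc.trans_le (min_le_left _ _)) (hw.trans_le (min_le_left _ _)) hc'.1 hc'.2
  rwa [Real.norm_eq_abs] at h2

/-- Proof.  `f (c, w) = f (c, 0) + ∫₀¹ fderiv f (c, tw) (0, w) dt`, and
`fderiv f (c, tw) (0, w) = ∫₀¹ t D²f (c, stw) (0, w) (0, w) ds`, `D²f` is continuous at `0`.  (Or: apply the
mean value inequality twice to `t ↦ f (c, tw) - t² B w w / 2`.) -/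
theorem quad_asymp {f : ℝ × ℂ → ℝ} (hf : AnalyticAt ℝ f 0) (h0 : ∀ᶠ c in 𝓝 (0 : ℝ), f (c, 0) = 0)
    (h1 : ∀ᶠ c in 𝓝 (0 : ℝ), ∀ δ : ℂ, fderiv ℝ f (c, 0) (0, δ) = 0) {η : ℝ} (hη : 0 < η) :
    ∃ δ > 0, ∀ (c : ℝ) (w : ℂ), |c| < δ → ‖w‖ < δ →
      |f (c, w) - fderiv ℝ (fun p => fderiv ℝ f p (0, w)) 0 (0, w) / 2| ≤ η * ‖w‖ ^ 2 := by
  obtain ⟨r, hr, h⟩ := qe_sec hf hη
  obtain ⟨r', hr', h'⟩ := Metric.eventually_nhds_iff_ball.mp (h0.and h1)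
  refine ⟨min r r', lt_min hr hr', fun c w hc hw => ?_⟩
  have hc' := h' c (by
    rw [mem_ball_zero_iff, Real.norm_eq_abs]
    exact hc.trans_le (min_le_right _ _))
  have h2 := h c w (hc.trans_le (min_le_left _ _)) (hw.trans_le (min_le_left _ _)) hc'.1 hc'.2
  rw [Real.norm_eq_abs] at h2
  have e : fderiv ℝ (fun p => fderiv ℝ f p (0, w)) 0 (0, w) =
      fderiv ℝ (fderiv ℝ f) 0 (0, w) (0, w) := by
    rw [(qe_dd hf ((0 : ℝ), w)).fderiv]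
    rfl
  rw [e]
  refine le_trans (le_of_eq ?_) h2
  congr 2
  rw [smul_eq_mul]
  ring

/-- The estimates needed for `minmax`.
Proof.  `F_e = fderiv F p e`, `F_c = F_{(1,0)}`.  `g p = vp F A p (1, 0) = A p + Im (conj F · F_c) / 2` is
analytic at `0`; `g (c, 0) = 0` for small `c`, because `F (c, 0) = 0`, `A (c, 0) = 0`.
`hk` with `e = (0, δ)`, `e' = (1, 0)`: `A_δ = - Im (conj δ F_c) - Im (conj F_δ F_c)`, so
(*) `g_δ = - Im (conj δ F_c) - Im (conj F_δ F_c) / 2 + Im (conj F · F_{cδ}) / 2` near `0`.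
At `(c, 0)`: `F = 0`, `F_c = 0` (`F (c, 0) = 0` for all small `c`), so `g_δ (c, 0) = 0`.
Differentiate (*) at `0` in the direction `(0, δ)` (`F = F_c = F_δ = 0` at `0`, `hF0`, `hF1`):
`D² g (0) ((0, δ), (0, δ)) = - Im (conj δ F_{cδ} (0)) = - Im (conj δ · α I δ) = - α |δ|²`, with
`F_{cδ} (0) = α I δ` (`hF2`, symmetry of the second derivative).  `quad_asymp` gives the first estimate.
Second estimate: `k = ∂g/∂c` is analytic, `k (c, 0) = 0`, `k_δ (c, 0) = ∂/∂c (g_δ (c, 0)) = 0`: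
`quad_bound` and the mean value inequality in `c`.
Third: `w ↦ σ (0, w)`: `|fderiv σ (0, w) (0, v)| = |Im (conj F (0, w) (v + F_v / 2))| ≤ C |w|² |v|`, since
`F (0, w) = O(|w|²)` (`F 0 = 0`, `hF1`; e.g. Taylor, `quad_bound` for real and imaginary part of `F`
restricted to `c = 0`); mean value inequality on the segment from `0` to `(0, w)`, `σ 0 = 0`.
Last two: analyticity of `F`, `A` near `0`, and `hσ`. -/
theorem est_all {F : ℝ × ℂ → ℂ} {A σ : ℝ × ℂ → ℝ} {α : ℝ} (hF : AnalyticAt ℝ F 0)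
    (hA : AnalyticAt ℝ A 0) (hF0 : ∀ᶠ c in 𝓝 (0 : ℝ), F (c, 0) = 0)
    (hA0 : ∀ᶠ c in 𝓝 (0 : ℝ), A (c, 0) = 0) (hF1 : ∀ δ : ℂ, fderiv ℝ F 0 (0, δ) = 0)
    (hF2 : ∀ δ : ℂ, HasDerivAt (fun c : ℝ => fderiv ℝ F (c, 0) (0, δ)) ((α : ℂ) * Complex.I * δ) 0)
    (hk : KeyForm F A) (hσ0 : σ 0 = 0) (hσ : ∀ᶠ p in 𝓝 (0 : ℝ × ℂ), HasFDerivAt σ (vp F A p) p) :
    ∃ r > 0, ∃ H : ℝ,
      (∀ η > 0, ∃ δ > 0, ∀ (c : ℝ) (w : ℂ), |c| < δ → ‖w‖ < δ →
        |vp F A (c, w) (1, 0) - (-α) * ‖w‖ ^ 2 / 2| ≤ η * ‖w‖ ^ 2) ∧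
      (∀ (c c' : ℝ) (w : ℂ), |c| < r → |c'| < r → ‖w‖ < r →
        |vp F A (c, w) (1, 0) - vp F A (c', w) (1, 0)| ≤ H * ‖w‖ ^ 2 * |c - c'|) ∧
      (∀ w : ℂ, ‖w‖ < r → |σ (0, w)| ≤ H * ‖w‖ ^ 3) ∧ ContinuousOn (vp F A) (ball 0 r) ∧
      ∀ q : ℝ × ℂ, ‖q‖ < r → HasFDerivAt σ (vp F A q) q := by
  have hF' := hF.fderiv
  have hF'' := hF'.fderiv
  have hF00 : F 0 = 0 := hF0.self_of_nhds
  have hFc0 := qe_axis hF hF0
  have hcont : ContinuousAt (fun c : ℝ => ((c, 0) : ℝ × ℂ)) 0 := by fun_prop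
  set g : ℝ × ℂ → ℝ := fun p => vp F A p (1, 0) with hg
  have hgf : ∀ p, g p = A p + 2⁻¹ * (conj (F p) * fderiv ℝ F p (1, 0)).im := by
    intro p
    rw [hg]
    beta_reduce
    rw [vp_apply]
    simp
    ring
  have happly : ∀ e : ℝ × ℂ, AnalyticAt ℝ (fun p => fderiv ℝ F p e) 0 := fun e =>
    ((ContinuousLinearMap.apply ℝ ℂ e).analyticAt _).comp hF'
  have hga : AnalyticAt ℝ g 0 := by
    have h1 : AnalyticAt ℝ (fun p => conj (F p)) 0 :=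
      ((Complex.conjCLE : ℂ →L[ℝ] ℂ).analyticAt _).comp hF
    have h2 : AnalyticAt ℝ (fun p => (conj (F p) * fderiv ℝ F p (1, 0)).im) 0 :=
      (Complex.imCLM.analyticAt _).comp (h1.mul (happly (1, 0)))
    have h3 : AnalyticAt ℝ (fun p => A p + 2⁻¹ * (conj (F p) * fderiv ℝ F p (1, 0)).im) 0 :=
      hA.add (analyticAt_const.mul h2)
    exact h3.congr (Eventually.of_forall fun p => (hgf p).symm)
  have G1 : ∀ᶠ p in 𝓝 (0 : ℝ × ℂ), ∀ δ : ℂ, fderiv ℝ g p (0, δ) =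
      -(conj δ * fderiv ℝ F p (1, 0)).im
        - 2⁻¹ * (conj (fderiv ℝ F p (0, δ)) * fderiv ℝ F p (1, 0)).im
        + 2⁻¹ * (conj (F p) * fderiv ℝ (fderiv ℝ F) p (0, δ) (1, 0)).im := by
    filter_upwards [hF.eventually_analyticAt, hA.eventually_analyticAt, hk] with p hp1 hp2 hp3 δ
    obtain ⟨L, hL, hLe⟩ := qe_im hp1.differentiableAt.hasFDerivAt (qe_dd hp1 (1, 0))
    have h1 := hp2.differentiableAt.hasFDerivAt.add (hL.const_mul (2⁻¹ : ℝ))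
    have h2 : HasFDerivAt g (fderiv ℝ A p + (2⁻¹ : ℝ) • L) p :=
      h1.congr_of_eventuallyEq (Eventually.of_forall fun q => hgf q)
    rw [h2.fderiv]
    have h3 := hp3 (0, δ) (1, 0)
    have h4 : ((fderiv ℝ A p + (2⁻¹ : ℝ) • L) (0, δ) : ℝ) =
        fderiv ℝ A p (0, δ) + 2⁻¹ * L (0, δ) := rfl
    rw [h4, hLe]
    have h5 : ((fderiv ℝ (fderiv ℝ F) p).flip (1, 0)) ((0 : ℝ), δ) =
      fderiv ℝ (fderiv ℝ F) p (0, δ) (1, 0) := rfl
    rw [h5]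
    simp only [mul_one, mul_zero, sub_zero, add_zero, Complex.add_im] at h3 ⊢
    linarith
  have G2 : ∀ᶠ c in 𝓝 (0 : ℝ), g (c, 0) = 0 := by
    filter_upwards [hF0, hA0] with c h1 h2
    rw [hgf, h1, h2]
    simp
  have G3 : ∀ᶠ c in 𝓝 (0 : ℝ), ∀ δ : ℂ, fderiv ℝ g (c, 0) (0, δ) = 0 := by
    filter_upwards [hcont.tendsto.eventually G1, hF0, hFc0] with c h1 h2 h3 δ
    rw [h1 δ, h2, h3]
    simp
  have G4 : ∀ w : ℂ, fderiv ℝ (fun p => fderiv ℝ g p (0, w)) 0 (0, w) = -α * ‖w‖ ^ 2 := by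
    intro w
    have hFc00 : fderiv ℝ F 0 (1, 0) = 0 := hFc0.self_of_nhds
    have e1 : (fun p => fderiv ℝ g p (0, w)) =ᶠ[𝓝 0] fun p =>
      -(conj w * fderiv ℝ F p (1, 0)).im
        - 2⁻¹ * (conj (fderiv ℝ F p (0, w)) * fderiv ℝ F p (1, 0)).im
        + 2⁻¹ * (conj (F p) * fderiv ℝ (fderiv ℝ F) p (0, w) (1, 0)).im := by
      filter_upwards [G1] with p hp
      exact hp w
    rw [e1.fderiv_eq]
    obtain ⟨L1, hL1, hL1e⟩ := qe_im (hasFDerivAt_const w (0 : ℝ × ℂ)) (qe_dd hF (1, 0))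
    obtain ⟨L2, hL2, hL2e⟩ := qe_im (qe_dd hF (0, w)) (qe_dd hF (1, 0))
    have h3 : DifferentiableAt ℝ (fun p => fderiv ℝ (fderiv ℝ F) p (0, w) (1, 0)) 0 :=
      (hF''.differentiableAt.clm_apply (differentiableAt_const _)).clm_apply
        (differentiableAt_const _)
    obtain ⟨L3, hL3, hL3e⟩ := qe_im hF.differentiableAt.hasFDerivAt
      h3.hasFDerivAt
    have h4 : HasFDerivAt (fun p => -(conj w * fderiv ℝ F p (1, 0)).im
        - 2⁻¹ * (conj (fderiv ℝ F p (0, w)) * fderiv ℝ F p (1, 0)).im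
        + 2⁻¹ * (conj (F p) * fderiv ℝ (fderiv ℝ F) p (0, w) (1, 0)).im)
        (-L1 - (2⁻¹ : ℝ) • L2 + (2⁻¹ : ℝ) • L3) 0 :=
      (hL1.neg.sub (hL2.const_mul (2⁻¹ : ℝ))).add (hL3.const_mul (2⁻¹ : ℝ))
    rw [h4.fderiv]
    have h5 : ((-L1 - (2⁻¹ : ℝ) • L2 + (2⁻¹ : ℝ) • L3) ((0 : ℝ), w) : ℝ) =
      -L1 (0, w) - 2⁻¹ * L2 (0, w) + 2⁻¹ * L3 (0, w) := rfl
    rw [h5, hL1e, hL2e, hL3e, hF00, hFc00, hF1 w]
    have h6 : ((fderiv ℝ (fderiv ℝ F) 0).flip (1, 0)) ((0 : ℝ), w) = (α : ℂ) * Complex.I * w := by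
      have h7 : ((fderiv ℝ (fderiv ℝ F) 0).flip (1, 0)) ((0 : ℝ), w) =
        fderiv ℝ (fderiv ℝ F) 0 (0, w) (1, 0) := rfl
      rw [h7, qe_symm hF]
      have d1 : HasDerivAt (fun c : ℝ => ((c, 0) : ℝ × ℂ)) (1, 0) 0 :=
        (hasDerivAt_id (0 : ℝ)).prodMk (hasDerivAt_const (0 : ℝ) (0 : ℂ))
      have d2 := (show HasFDerivAt (fun p => fderiv ℝ F p (0, w)) _ ((0 : ℝ), (0 : ℂ)) from
        qe_dd hF (0, w)).comp_hasDerivAt (0 : ℝ) d1
      exact d2.unique (hF2 w)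
    rw [h6]
    simp only [map_zero, zero_mul, mul_zero, add_zero, Complex.zero_im, sub_zero, zero_add,
      zero_apply]
    have h8 : (conj w * ((α : ℂ) * Complex.I * w)).im = α * ‖w‖ ^ 2 := by
      rw [← Complex.normSq_eq_norm_sq, Complex.normSq_apply]
      simp
      ring
    rw [h8]
    ring
  -- the derivative in the direction `c`
  set k : ℝ × ℂ → ℝ := fun p => fderiv ℝ g p (1, 0) with hkdef
  have hka : AnalyticAt ℝ k 0 :=
    ((ContinuousLinearMap.apply ℝ ℝ ((1, 0) : ℝ × ℂ)).analyticAt _).comp hga.fderiv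
  have K0 : ∀ᶠ c in 𝓝 (0 : ℝ), k (c, 0) = 0 := qe_axis hga G2
  have K1 : ∀ᶠ c in 𝓝 (0 : ℝ), ∀ δ : ℂ, fderiv ℝ k (c, 0) (0, δ) = 0 := by
    filter_upwards [hcont.tendsto.eventually hga.eventually_analyticAt, G3.eventually_nhds]
      with c hc1 hc2 δ
    rw [(qe_dd hc1 (1, 0)).fderiv]
    have h7 : ((fderiv ℝ (fderiv ℝ g) (c, 0)).flip (1, 0)) ((0 : ℝ), δ) =
        fderiv ℝ (fderiv ℝ g) (c, 0) (0, δ) (1, 0) := rfl
    rw [h7, qe_symm hc1]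
    have d1 : HasDerivAt (fun c : ℝ => ((c, 0) : ℝ × ℂ)) (1, 0) c :=
      (hasDerivAt_id c).prodMk (hasDerivAt_const c (0 : ℂ))
    have d2 := (qe_dd hc1 (0, δ)).comp_hasDerivAt c d1
    have d3 : HasDerivAt (fun _ : ℝ => (0 : ℝ)) (fderiv ℝ (fderiv ℝ g) (c, 0) (1, 0) (0, δ)) c := by
      refine d2.congr_of_eventuallyEq ?_
      filter_upwards [hc2] with x hx
      exact (hx δ).symm
    exact d3.unique (hasDerivAt_const c 0)
  obtain ⟨r1, hr1, H1, hH1⟩ := quad_bound hka K0 K1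
  obtain ⟨r2, hr2, H2, hH2, hQ⟩ := qe_quad hF
  have hbd : ∀ᶠ p in 𝓝 (0 : ℝ × ℂ), AnalyticAt ℝ F p ∧ AnalyticAt ℝ A p ∧ AnalyticAt ℝ g p ∧
      HasFDerivAt σ (vp F A p) p ∧ ‖fderiv ℝ F p‖ ≤ ‖fderiv ℝ F 0‖ + 1 := by
    have h1 : ∀ᶠ p in 𝓝 (0 : ℝ × ℂ), ‖fderiv ℝ F p‖ ≤ ‖fderiv ℝ F 0‖ + 1 := by
      have := hF'.continuousAt.norm.tendsto.eventually (gt_mem_nhds (lt_add_one _))
      filter_upwards [this] with p hp
      exact hp.le
    filter_upwards [hF.eventually_analyticAt, hA.eventually_analyticAt, hga.eventually_analyticAt,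
      hσ, h1] with p h1 h2 h3 h4 h5
    exact ⟨h1, h2, h3, h4, h5⟩
  obtain ⟨r3, hr3, hB⟩ := Metric.eventually_nhds_iff_ball.mp hbd
  set M : ℝ := ‖fderiv ℝ F 0‖ + 1 with hM
  have hM0 : 0 ≤ M := by positivity
  refine ⟨min r1 (min r2 r3), lt_min hr1 (lt_min hr2 hr3), max H1 (H2 * (1 + M)), ?_, ?_, ?_, ?_,
    ?_⟩
  · intro η hη
    obtain ⟨δ, hδ, h⟩ := quad_asymp hga G2 G3 hη
    refine ⟨δ, hδ, fun c w hc hw => ?_⟩
    have h1 := h c w hc hw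
    rw [G4 w] at h1
    exact h1
  · intro c c' w hc hc' hw
    have hw1 := hw.trans_le (min_le_left _ _)
    have hw3 := hw.trans_le ((min_le_right _ _).trans (min_le_right _ _))
    set ρ := min r1 (min r2 r3) with hρ
    have hρ1 : ρ ≤ r1 := min_le_left _ _
    have hρ3 : ρ ≤ r3 := (min_le_right _ _).trans (min_le_right _ _)
    have h := (convex_Ioo (-ρ) ρ).norm_image_sub_le_of_norm_hasDerivWithin_le
      (f := fun x : ℝ => g (x, w)) (f' := fun x : ℝ => k (x, w)) (C := H1 * ‖w‖ ^ 2)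
      (x := c') (y := c) (fun x hx => ?_) (fun x hx => ?_) (abs_lt.mp hc') (abs_lt.mp hc)
    · rw [Real.norm_eq_abs, Real.norm_eq_abs] at h
      refine h.trans ?_
      have := le_max_left H1 (H2 * (1 + M))
      gcongr
    · have hx' : |x| < ρ := abs_lt.mpr hx
      have d1 : HasDerivAt (fun c : ℝ => ((c, w) : ℝ × ℂ)) (1, 0) x :=
        (hasDerivAt_id x).prodMk (hasDerivAt_const x w)
      have d2 := (hB (x, w) (qe_mem (hx'.trans_le hρ3) hw3)).2.2.1.differentiableAt.hasFDerivAt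
      exact (d2.comp_hasDerivAt x d1).hasDerivWithinAt
    · have hx' : |x| < ρ := abs_lt.mpr hx
      exact hH1 x w (hx'.trans_le hρ1) hw1
  · intro w hw
    have hw2 := hw.trans_le ((min_le_right _ _).trans (min_le_left _ _))
    have hw3 := hw.trans_le ((min_le_right _ _).trans (min_le_right _ _))
    have hn : ‖((0 : ℝ), w)‖ = ‖w‖ := by
      rw [Prod.norm_def]; simp
    have hQ' : ∀ w' : ℂ, ‖w'‖ ≤ ‖w‖ → ‖F (0, w')‖ ≤ H2 * ‖w‖ ^ 2 := by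
      intro w' hw'
      refine (hQ 0 w' (by simpa using hr2) (hw'.trans_lt hw2) hF00 hF1).trans ?_
      gcongr
    have hder : ∀ t ∈ Icc (0 : ℝ) 1, HasDerivWithinAt (fun t : ℝ => σ (0, t • w))
        (vp F A (0, t • w) (0, w)) (Icc (0 : ℝ) 1) t := by
      intro t ht
      have ht1 : ‖t • w‖ ≤ ‖w‖ := by
        rw [norm_smul, Real.norm_eq_abs, abs_of_nonneg ht.1]
        exact mul_le_of_le_one_left (norm_nonneg w) ht.2
      have d1 : HasDerivAt (fun t : ℝ => (((0 : ℝ), t • w) : ℝ × ℂ)) (0, w) t := by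
        refine (hasDerivAt_const t (0 : ℝ)).prodMk ?_
        have := (hasDerivAt_id t).smul_const w
        simpa using this
      have hm : (((0 : ℝ), t • w) : ℝ × ℂ) ∈ ball (0 : ℝ × ℂ) r3 :=
        qe_mem (by simpa using hr3) (ht1.trans_lt hw3)
      exact ((hB _ hm).2.2.2.1.comp_hasDerivAt t d1).hasDerivWithinAt
    have hbnd : ∀ t ∈ Ico (0 : ℝ) 1, ‖vp F A (0, t • w) (0, w)‖ ≤ H2 * (1 + M) * ‖w‖ ^ 3 := by
      intro t ht
      have ht1 : ‖t • w‖ ≤ ‖w‖ := by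
        rw [norm_smul, Real.norm_eq_abs, abs_of_nonneg ht.1]
        exact mul_le_of_le_one_left (norm_nonneg w) ht.2.le
      have hm : (((0 : ℝ), t • w) : ℝ × ℂ) ∈ ball (0 : ℝ × ℂ) r3 :=
        qe_mem (by simpa using hr3) (ht1.trans_lt hw3)
      rw [vp_apply, Real.norm_eq_abs, mul_zero, zero_add]
      refine (Complex.abs_im_le_norm _).trans ?_
      rw [norm_mul, Complex.norm_conj]
      have h1 : ‖w + (2⁻¹ : ℝ) • fderiv ℝ F (0, t • w) (0, w)‖ ≤ (1 + M) * ‖w‖ := by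
        have h2 := (fderiv ℝ F (0, t • w)).le_opNorm ((0 : ℝ), w)
        rw [hn] at h2
        have h3 := (hB _ hm).2.2.2.2
        have h4 : ‖fderiv ℝ F (0, t • w) (0, w)‖ ≤ M * ‖w‖ :=
          h2.trans (mul_le_mul_of_nonneg_right h3 (norm_nonneg _))
        refine (norm_add_le _ _).trans ?_
        rw [norm_smul]
        have h5 : ‖(2⁻¹ : ℝ)‖ = 2⁻¹ := by norm_num
        rw [h5]
        have h6 : 0 ≤ ‖fderiv ℝ F (0, t • w) (0, w)‖ := norm_nonneg _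
        nlinarith [h4, h6]
      calc ‖F (0, t • w)‖ * ‖w + (2⁻¹ : ℝ) • fderiv ℝ F (0, t • w) (0, w)‖
          ≤ (H2 * ‖w‖ ^ 2) * ((1 + M) * ‖w‖) :=
            mul_le_mul (hQ' _ ht1) h1 (norm_nonneg _) (by positivity)
        _ = H2 * (1 + M) * ‖w‖ ^ 3 := by ring
    have h := norm_image_sub_le_of_norm_deriv_le_segment_01' hder hbnd
    have e0 : σ (0, (0 : ℝ) • w) = 0 := by
      rw [zero_smul]
      exact hσ0
    beta_reduce at h
    rw [e0, sub_zero, one_smul, Real.norm_eq_abs] at h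
    refine h.trans ?_
    have := le_max_right H1 (H2 * (1 + M))
    gcongr
  · intro p hp
    have hp' : p ∈ ball (0 : ℝ × ℂ) r3 :=
      ball_subset_ball ((min_le_right _ _).trans (min_le_right _ _)) hp
    have h1 := hB p hp'
    have c1 : ContinuousAt (fun q => A q • ContinuousLinearMap.fst ℝ ℝ ℂ) p :=
      h1.2.1.continuousAt.smul continuousAt_const
    have c2 : ContinuousAt (fun q => conj (F q)) p :=
      Complex.continuous_conj.continuousAt.comp h1.1.continuousAt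
    have c3 : ContinuousAt (fun q => ContinuousLinearMap.snd ℝ ℝ ℂ + (2⁻¹ : ℝ) • fderiv ℝ F q) p :=
      continuousAt_const.add (h1.1.fderiv.continuousAt.const_smul (2⁻¹ : ℝ))
    have c4 : ContinuousAt (fun q => Complex.imCLM.comp
        ((conj (F q)) • (ContinuousLinearMap.snd ℝ ℝ ℂ + (2⁻¹ : ℝ) • fderiv ℝ F q))) p :=
      continuousAt_const.clm_comp (c2.smul c3)
    exact (c1.add c4).continuousWithinAt
  · intro q hq
    have hq' : q ∈ ball (0 : ℝ × ℂ) r3 := by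
      rw [mem_ball_zero_iff]
      exact hq.trans_le ((min_le_right _ _).trans (min_le_right _ _))
    exact (hB q hq').2.2.2.1

end Pool.Agent.MP_5027f4_cont
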