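import Pool.Agent.Lib_MP_5027f4_cont.QDefs

/-!
PIECE [QIter] (MP_5027f4_mp, T3).  Iterates of a family.
-/

open Set Filter Topology Metric Polynomial
open scoped ComplexConjugate ContDiff

namespace Pool.Agent.MP_5027f4_cont

variable {P : ℝ × (ℂ × ℂ) → ℂ × ℂ} {a : ℝ × (ℂ × ℂ) → ℝ}

private theorem qi_os_add_right (ξ η ζ : ℂ × ℂ) : os ξ (η + ζ) = os ξ η + os ξ ζ := by
  simp only [os, Prod.fst_add, Prod.snd_add, ← Complex.add_im]
  congr 1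
  ring

private theorem qi_os_zero_right (ξ : ℂ × ℂ) : os ξ 0 = 0 := by
  simp [os]

/-- the map `q ↦ (q.1, Q q)` -/
private def qiR (Q : ℝ × (ℂ × ℂ) → ℂ × ℂ) (q : ℝ × (ℂ × ℂ)) : ℝ × (ℂ × ℂ) := (q.1, Q q)

private theorem qi_R_analytic {Q : ℝ × (ℂ × ℂ) → ℂ × ℂ} (hQ : AnalyticAt ℝ Q 0) :
    AnalyticAt ℝ (qiR Q) 0 := AnalyticAt.prod analyticAt_fst hQ

private theorem qi_R_tendsto {Q : ℝ × (ℂ × ℂ) → ℂ × ℂ} (hQ : AnalyticAt ℝ Q 0) (hQ0 : Q 0 = 0) :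
    Tendsto (qiR Q) (𝓝 0) (𝓝 0) := by
  have h := (qi_R_analytic hQ).continuousAt.tendsto
  have h0 : qiR Q 0 = 0 := by simp [qiR, hQ0]
  rwa [h0] at h

private theorem qi_R_hasFDerivAt {Q : ℝ × (ℂ × ℂ) → ℂ × ℂ} {q : ℝ × (ℂ × ℂ)}
    (hQ : DifferentiableAt ℝ Q q) :
    HasFDerivAt (qiR Q) ((ContinuousLinearMap.fst ℝ ℝ (ℂ × ℂ)).prod (fderiv ℝ Q q)) q :=
  hasFDerivAt_fst.prodMk hQ.hasFDerivAt

private theorem qi_comp_fderiv {E : Type*} [NormedAddCommGroup E] [NormedSpace ℝ E]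
    {f : ℝ × (ℂ × ℂ) → E} {Q : ℝ × (ℂ × ℂ) → ℂ × ℂ} {q : ℝ × (ℂ × ℂ)}
    (hQ : DifferentiableAt ℝ Q q) (hf : DifferentiableAt ℝ f (qiR Q q)) :
    HasFDerivAt (fun q => f (qiR Q q))
      ((fderiv ℝ f (qiR Q q)).comp
        ((ContinuousLinearMap.fst ℝ ℝ (ℂ × ℂ)).prod (fderiv ℝ Q q))) q :=
  HasFDerivAt.comp q hf.hasFDerivAt (qi_R_hasFDerivAt hQ)

private theorem qi_dz_comp {P Q : ℝ × (ℂ × ℂ) → ℂ × ℂ} {q : ℝ × (ℂ × ℂ)}
    (hQ : DifferentiableAt ℝ Q q) (hf : DifferentiableAt ℝ P (qiR Q q)) (ξ : ℂ × ℂ) :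
    dz (fun q => P (qiR Q q)) q ξ = dz P (qiR Q q) (dz Q q ξ) := by
  simp [dz, (qi_comp_fderiv hQ hf).fderiv]

private theorem qi_dc_comp {P Q : ℝ × (ℂ × ℂ) → ℂ × ℂ} {q : ℝ × (ℂ × ℂ)}
    (hQ : DifferentiableAt ℝ Q q) (hf : DifferentiableAt ℝ P (qiR Q q)) :
    fderiv ℝ (fun q => P (qiR Q q)) q (1, 0) =
      fderiv ℝ P (qiR Q q) (1, 0) + dz P (qiR Q q) (fderiv ℝ Q q (1, 0)) := by
  rw [(qi_comp_fderiv hQ hf).fderiv]
  have h : ((1 : ℝ), fderiv ℝ Q q (1, 0)) = (1, 0) + (0, fderiv ℝ Q q (1, 0)) := by simp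
  simp only [dz, ContinuousLinearMap.comp_apply, ContinuousLinearMap.prod_apply,
    ContinuousLinearMap.coe_fst', ContinuousLinearMap.inr_apply]
  rw [h, map_add]

private theorem qi_itP_succ (P : ℝ × (ℂ × ℂ) → ℂ × ℂ) (n : ℕ) :
    itP P (n + 1) = fun q => P (qiR (itP P n) q) := rfl

private theorem qi_itA_succ (P : ℝ × (ℂ × ℂ) → ℂ × ℂ) (a : ℝ × (ℂ × ℂ) → ℝ) (n : ℕ) :
    itA P a (n + 1) = fun q => itA P a n q + a (qiR (itP P n) q) := by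
  funext q
  simp [itA, Finset.sum_range_succ, qiR]

/-- Proof.  Induction on `n`.  `n = 0`: `itP P 0 q = q.2`, `itA P a 0 q = 0`, everything is trivial.
Step: `itP P (n + 1) = P ∘ R`, `R q = (q.1, itP P n q)`, analytic at `0` (`R 0 = 0` from `P0` at `c = 0`),
`itA P a (n + 1) q = itA P a n q + a (R q)`.  For `q` near `0` (so `R q` is near `0`):
`dz (itP P (n + 1)) q ξ = dz P (R q) (dz (itP P n) q ξ)`: `symp`.  `∂_c (itP P (n + 1)) = P_c (R q) +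
dz P (R q) (∂_c itP P n)`.  `rel`: `fderiv (itA (n + 1)) q (0, ξ) = - os (dz (itP n) ξ) (∂_c itP n)
- os (dz P (R q) (dz (itP n) ξ)) (P_c (R q))`, and
`- os (dz (itP (n+1)) ξ) (∂_c itP (n+1)) = - os (dz P ζ) (P_c) - os (dz P ζ) (dz P ∂_c itP n)` with
`ζ = dz (itP n) ξ`; the last term is `- os ζ (∂_c itP n)` by `symp` of `P`. -/
theorem Fam.iter (h : Fam P a) (n : ℕ) : Fam (itP P n) (itA P a n) := by
  induction n with
  | zero =>
    have hP : itP P 0 = fun q => q.2 := rfl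
    have hA : itA P a 0 = fun _ => 0 := by
      funext q; simp [itA]
    have hf : ∀ q : ℝ × (ℂ × ℂ), fderiv ℝ (fun q : ℝ × (ℂ × ℂ) => q.2) q =
        ContinuousLinearMap.snd ℝ ℝ (ℂ × ℂ) := fun q => hasFDerivAt_snd.fderiv
    rw [hP, hA]
    refine ⟨analyticAt_snd, analyticAt_const, Eventually.of_forall fun c => rfl,
      Eventually.of_forall fun c => rfl, Eventually.of_forall fun q ξ η => ?_,
      Eventually.of_forall fun q ξ => ?_⟩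
    · simp [dz, hf]
    · simp only [hf, dz, ContinuousLinearMap.coe_snd']
      rw [qi_os_zero_right]
      simp
  | succ n ih =>
    have hQ0 : itP P n 0 = 0 := ih.P0.self_of_nhds
    have hR0 : qiR (itP P n) 0 = 0 := by simp [qiR, hQ0]
    have hR := qi_R_tendsto ih.anP hQ0
    have hRa := qi_R_analytic ih.anP
    have h1 : AnalyticAt ℝ P (qiR (itP P n) 0) := by rw [hR0]; exact h.anP
    have h2 : AnalyticAt ℝ a (qiR (itP P n) 0) := by rw [hR0]; exact h.ana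
    have e1 : ∀ᶠ q in 𝓝 (0 : ℝ × (ℂ × ℂ)), DifferentiableAt ℝ (itP P n) q :=
      ih.anP.eventually_analyticAt.mono fun q hq => hq.differentiableAt
    have e2 : ∀ᶠ q in 𝓝 (0 : ℝ × (ℂ × ℂ)), DifferentiableAt ℝ (itA P a n) q :=
      ih.ana.eventually_analyticAt.mono fun q hq => hq.differentiableAt
    have e3 : ∀ᶠ q in 𝓝 (0 : ℝ × (ℂ × ℂ)), DifferentiableAt ℝ P (qiR (itP P n) q) :=
      hR.eventually (h.anP.eventually_analyticAt.mono fun q hq => hq.differentiableAt)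
    have e4 : ∀ᶠ q in 𝓝 (0 : ℝ × (ℂ × ℂ)), DifferentiableAt ℝ a (qiR (itP P n) q) :=
      hR.eventually (h.ana.eventually_analyticAt.mono fun q hq => hq.differentiableAt)
    refine ⟨?_, ?_, ?_, ?_, ?_, ?_⟩
    · rw [qi_itP_succ]
      exact h1.fun_comp_of_eq hRa rfl
    · rw [qi_itA_succ]
      exact ih.ana.add (h2.fun_comp_of_eq hRa rfl)
    · filter_upwards [ih.P0, h.P0] with c hc hc'
      rw [qi_itP_succ]
      simp only [qiR, hc, hc']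
    · filter_upwards [ih.P0, ih.a0, h.a0] with c hc hc' hc''
      rw [qi_itA_succ]
      simp only [qiR, hc, hc', hc'', add_zero]
    · filter_upwards [e1, e3, ih.symp, hR.eventually h.symp] with q q1 q3 hs hs' ξ η
      rw [qi_itP_succ, qi_dz_comp q1 q3, qi_dz_comp q1 q3, hs', hs]
    · filter_upwards [e1, e2, e3, e4, ih.rel, hR.eventually h.rel, hR.eventually h.symp]
        with q q1 q2 q3 q4 hr hr' hs' ξ
      have hd : fderiv ℝ (itA P a (n + 1)) q (0, ξ) =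
          fderiv ℝ (itA P a n) q (0, ξ) + fderiv ℝ a (qiR (itP P n) q) (0, dz (itP P n) q ξ) := by
        rw [qi_itA_succ]
        have hh := q2.hasFDerivAt.add (qi_comp_fderiv q1 q4)
        have hh' : fderiv ℝ (fun q => itA P a n q + a (qiR (itP P n) q)) q = _ := hh.fderiv
        rw [hh']
        simp [dz]
      rw [hd, hr, hr', qi_itP_succ, qi_dz_comp q1 q3, qi_dc_comp q1 q3, qi_os_add_right, hs']
      ring

/-- Proof.  Induction on `n`, chain rule at `(c, 0)` (`P (c, 0) = 0`, so `itP P n (c, 0) = 0`, for small `c`):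
`dz (itP P (n + 1)) (c, 0) = dz P (c, 0) ∘ dz (itP P n) (c, 0)`. -/
theorem Fam.dz_iter (h : Fam P a) (n : ℕ) :
    ∀ᶠ c in 𝓝 (0 : ℝ), dz (itP P n) (c, 0) = (dz P (c, 0)) ^ n := by
  have hc0 : Tendsto (fun c : ℝ => ((c, 0) : ℝ × (ℂ × ℂ))) (𝓝 0) (𝓝 0) := by
    have : Continuous (fun c : ℝ => ((c, 0) : ℝ × (ℂ × ℂ))) := by fun_prop
    exact this.tendsto 0
  induction n with
  | zero =>
    refine Eventually.of_forall fun c => ?_
    have hf : fderiv ℝ (itP P 0) (c, 0) = ContinuousLinearMap.snd ℝ ℝ (ℂ × ℂ) :=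
      hasFDerivAt_snd.fderiv
    ext ξ <;> simp [dz, hf]
  | succ n ih =>
    have hi := h.iter n
    have e1 : ∀ᶠ q in 𝓝 (0 : ℝ × (ℂ × ℂ)), DifferentiableAt ℝ (itP P n) q :=
      hi.anP.eventually_analyticAt.mono fun q hq => hq.differentiableAt
    have e3 : ∀ᶠ q in 𝓝 (0 : ℝ × (ℂ × ℂ)), DifferentiableAt ℝ P q :=
      h.anP.eventually_analyticAt.mono fun q hq => hq.differentiableAt
    filter_upwards [ih, hi.P0, hc0.eventually e1, hc0.eventually e3] with c hc h0 q1 q3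
    have hR : qiR (itP P n) (c, 0) = (c, 0) := by simp only [qiR, h0]
    have q3' : DifferentiableAt ℝ P (qiR (itP P n) (c, 0)) := by rw [hR]; exact q3
    refine ContinuousLinearMap.ext fun ξ => ?_
    rw [qi_itP_succ, qi_dz_comp q1 q3', hR, hc, pow_succ']
    rfl

/-- the map `q ↦ (q.1, L.symm q.2)` -/
private noncomputable def qiT (L : (ℂ × ℂ) ≃L[ℝ] (ℂ × ℂ)) :
    ℝ × (ℂ × ℂ) →L[ℝ] ℝ × (ℂ × ℂ) :=
  (ContinuousLinearMap.fst ℝ ℝ (ℂ × ℂ)).prod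
    ((L.symm : (ℂ × ℂ) →L[ℝ] (ℂ × ℂ)).comp (ContinuousLinearMap.snd ℝ ℝ (ℂ × ℂ)))

private theorem qi_T_apply (L : (ℂ × ℂ) ≃L[ℝ] (ℂ × ℂ)) (q : ℝ × (ℂ × ℂ)) :
    qiT L q = (q.1, L.symm q.2) := rfl

private theorem qi_T_fderiv {E : Type*} [NormedAddCommGroup E] [NormedSpace ℝ E]
    (L : (ℂ × ℂ) ≃L[ℝ] (ℂ × ℂ)) {f : ℝ × (ℂ × ℂ) → E} {q : ℝ × (ℂ × ℂ)}
    (hf : DifferentiableAt ℝ f (qiT L q)) :
    HasFDerivAt (fun q => f (qiT L q)) ((fderiv ℝ f (qiT L q)).comp (qiT L)) q :=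
  HasFDerivAt.comp q hf.hasFDerivAt (qiT L).hasFDerivAt

private theorem qi_LT_fderiv (L : (ℂ × ℂ) ≃L[ℝ] (ℂ × ℂ)) {P : ℝ × (ℂ × ℂ) → ℂ × ℂ}
    {q : ℝ × (ℂ × ℂ)} (hf : DifferentiableAt ℝ P (qiT L q)) :
    fderiv ℝ (fun q => L (P (qiT L q))) q =
      (L : (ℂ × ℂ) →L[ℝ] (ℂ × ℂ)).comp ((fderiv ℝ P (qiT L q)).comp (qiT L)) :=
  (HasFDerivAt.comp q (L : (ℂ × ℂ) →L[ℝ] (ℂ × ℂ)).hasFDerivAt (qi_T_fderiv L hf)).fderiv

private theorem qi_LT_dz (L : (ℂ × ℂ) ≃L[ℝ] (ℂ × ℂ)) {P : ℝ × (ℂ × ℂ) → ℂ × ℂ}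
    {q : ℝ × (ℂ × ℂ)} (hf : DifferentiableAt ℝ P (qiT L q)) (ξ : ℂ × ℂ) :
    dz (fun q => L (P (qiT L q))) q ξ = L (dz P (qiT L q) (L.symm ξ)) := by
  simp only [dz, qi_LT_fderiv L hf, ContinuousLinearMap.comp_apply, ContinuousLinearMap.inr_apply]
  rfl

/-- Linear symplectic change of coordinates.  Proof: chain rule; `P' = fun q => L (P (q.1, L.symm q.2))`,
`dz P' q ξ = L (dz P q' (L.symm ξ))`, `fderiv P' q (1, 0) = L (fderiv P q' (1, 0))`, `q' = (q.1, L.symm q.2)`;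
`L` and `L.symm` are symplectic. -/
theorem Fam.conj (h : Fam P a) (L : (ℂ × ℂ) ≃L[ℝ] (ℂ × ℂ)) (hL : ∀ ξ η, os (L ξ) (L η) = os ξ η) :
    Fam (fun q => L (P (q.1, L.symm q.2))) (fun q => a (q.1, L.symm q.2)) ∧
      ∀ᶠ c in 𝓝 (0 : ℝ), ∀ ξ, dz (fun q => L (P (q.1, L.symm q.2))) (c, 0) ξ =
        L (dz P (c, 0) (L.symm ξ)) := by
  have hPe : (fun q : ℝ × (ℂ × ℂ) => L (P (q.1, L.symm q.2))) = fun q => L (P (qiT L q)) := rfl
  have hae : (fun q : ℝ × (ℂ × ℂ) => a (q.1, L.symm q.2)) = fun q => a (qiT L q) := rfl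
  have hLs : ∀ ξ η, os (L.symm ξ) (L.symm η) = os ξ η := by
    intro ξ η
    have := hL (L.symm ξ) (L.symm η)
    rw [L.apply_symm_apply, L.apply_symm_apply] at this
    exact this.symm
  have hT0 : qiT L 0 = 0 := map_zero _
  have hT : Tendsto (qiT L) (𝓝 0) (𝓝 0) := by
    have := (qiT L).continuous.tendsto 0
    rwa [hT0] at this
  have hTc : ∀ c : ℝ, qiT L (c, 0) = (c, 0) := by
    intro c
    rw [qi_T_apply]
    simp
  have hTa : AnalyticAt ℝ (qiT L) 0 := (qiT L).analyticAt 0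
  have hc0 : Tendsto (fun c : ℝ => ((c, 0) : ℝ × (ℂ × ℂ))) (𝓝 0) (𝓝 0) := by
    have : Continuous (fun c : ℝ => ((c, 0) : ℝ × (ℂ × ℂ))) := by fun_prop
    exact this.tendsto 0
  have h1 : AnalyticAt ℝ P (qiT L 0) := by rw [hT0]; exact h.anP
  have h2 : AnalyticAt ℝ a (qiT L 0) := by rw [hT0]; exact h.ana
  have eP : ∀ᶠ q in 𝓝 (0 : ℝ × (ℂ × ℂ)), DifferentiableAt ℝ P q :=
    h.anP.eventually_analyticAt.mono fun q hq => hq.differentiableAt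
  have ea : ∀ᶠ q in 𝓝 (0 : ℝ × (ℂ × ℂ)), DifferentiableAt ℝ a q :=
    h.ana.eventually_analyticAt.mono fun q hq => hq.differentiableAt
  rw [hPe, hae]
  refine ⟨⟨?_, ?_, ?_, ?_, ?_, ?_⟩, ?_⟩
  · have hc : AnalyticAt ℝ (fun q => P (qiT L q)) 0 := h1.fun_comp_of_eq hTa rfl
    exact ((L : (ℂ × ℂ) →L[ℝ] (ℂ × ℂ)).analyticAt _).fun_comp_of_eq hc rfl
  · exact h2.fun_comp_of_eq hTa rfl
  · filter_upwards [h.P0] with c hc
    rw [hTc, hc, map_zero]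
  · filter_upwards [h.a0] with c hc
    rw [hTc, hc]
  · filter_upwards [hT.eventually eP, hT.eventually h.symp] with q hq hs ξ η
    rw [qi_LT_dz L hq, qi_LT_dz L hq, hL, hs, hLs]
  · filter_upwards [hT.eventually eP, hT.eventually ea, hT.eventually h.rel] with q hq hqa hr ξ
    rw [qi_LT_dz L hq, qi_LT_fderiv L hq, (qi_T_fderiv L hqa).fderiv]
    have e1 : qiT L (0, ξ) = (0, L.symm ξ) := rfl
    have e2 : qiT L (1, 0) = (1, 0) := hTc 1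
    simp only [ContinuousLinearMap.comp_apply]
    rw [e1, e2, hr]
    have e3 := hL (dz P (qiT L q) (L.symm ξ)) (fderiv ℝ P (qiT L q) (1, 0))
    rw [← e3]
    rfl
  · filter_upwards [hc0.eventually eP] with c hc ξ
    have hq : DifferentiableAt ℝ P (qiT L (c, 0)) := by rw [hTc]; exact hc
    rw [qi_LT_dz L hq, hTc]

/-- Proof.  `itP P' n (c, z) = L (itP P n (c, L.symm z))`, `itA P' a' n (c, z) = itA P a n (c, L.symm z)`
(induction), so `itP P' n q = q.2` iff `itP P n q' = q'.2`. -/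
theorem NoDrift.conj (h : NoDrift P a) (L : (ℂ × ℂ) ≃L[ℝ] (ℂ × ℂ)) :
    NoDrift (fun q => L (P (q.1, L.symm q.2))) (fun q => a (q.1, L.symm q.2)) := by
  have hit : ∀ (n : ℕ) (q : ℝ × (ℂ × ℂ)),
      itP (fun q => L (P (q.1, L.symm q.2))) n q = L (itP P n (q.1, L.symm q.2)) := by
    intro n
    induction n with
    | zero => intro q; simp [itP]
    | succ n ih =>
      intro q
      simp only [itP]
      rw [ih]
      simp
  intro n
  have hT : Tendsto (fun q : ℝ × (ℂ × ℂ) => (q.1, L.symm q.2)) (𝓝 0) (𝓝 0) := by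
    have hc : Continuous (fun q : ℝ × (ℂ × ℂ) => (q.1, L.symm q.2)) := by fun_prop
    have h0 : (((0 : ℝ × (ℂ × ℂ)).1, L.symm (0 : ℝ × (ℂ × ℂ)).2) : ℝ × (ℂ × ℂ)) = 0 := by
      ext <;> simp
    have := hc.tendsto 0
    rwa [h0] at this
  filter_upwards [hT.eventually (h n)] with q hq hq'
  rw [hit] at hq'
  have h1 : itP P n (q.1, L.symm q.2) = L.symm q.2 := by
    have h3 := congrArg L.symm hq'
    rwa [L.symm_apply_apply] at h3
  have h2 := hq h1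
  unfold itA at h2 ⊢
  rw [← h2]
  refine Finset.sum_congr rfl fun j _ => ?_
  simp only [hit, L.symm_apply_apply]

end Pool.Agent.MP_5027f4_cont
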