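import Pool.Agent.Lib_MP_5027f4_cont.QDefs

/-!
PIECE [QRat] (MP_5027f4_mp, T3).  Roots of unity along a curve of pairs of multipliers.
-/

open Set Filter Topology Metric Polynomial
open scoped ComplexConjugate ContDiff

namespace Pool.Agent.MP_5027f4_cont

theorem rat_ne {x : ℝ → ℝ} {a b : ℝ} (hx : ContDiffOn ℝ 1 x (Ioo a b))
    (hx' : ∀ c ∈ Ioo a b, deriv x c ≠ 0) {c d : ℝ} (hc : c ∈ Ioo a b) (hd : d ∈ Ioo a b)
    (hcd : c < d) : x c ≠ x d := by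
  intro h
  have hsub : Icc c d ⊆ Ioo a b := fun y hy => ⟨lt_of_lt_of_le hc.1 hy.1, lt_of_le_of_lt hy.2 hd.2⟩
  obtain ⟨y, hy, hy0⟩ := exists_deriv_eq_zero hcd (hx.continuousOn.mono hsub) h
  exact hx' y (hsub (Ioo_subset_Icc_self hy)) hy0

theorem rat_pts {x : ℝ → ℝ} {a b : ℝ} (hx : ContDiffOn ℝ 1 x (Ioo a b))
    (hx' : ∀ c ∈ Ioo a b, deriv x c ≠ 0) {c d : ℝ} (hc : c ∈ Ioo a b) (hd : d ∈ Ioo a b)
    (hcd : c < d) : ∃ Q : ℕ, 0 < Q ∧ ∀ q : ℕ, Q ≤ q → ∃ p : ℤ, ∃ u ∈ Icc c d, ∃ v ∈ Icc c d,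
      (q : ℝ) * x u = p ∧ (q : ℝ) * x v = p + 1 := by
  have hne := rat_ne hx hx' hc hd hcd
  have hsub : Icc c d ⊆ Ioo a b := fun y hy => ⟨lt_of_lt_of_le hc.1 hy.1, lt_of_le_of_lt hy.2 hd.2⟩
  have hcont : ContinuousOn x (uIcc c d) := by
    rw [uIcc_of_le hcd.le]; exact hx.continuousOn.mono hsub
  have hL : 0 < max (x c) (x d) - min (x c) (x d) := by
    rcases lt_or_gt_of_ne hne with h | h
    · rw [max_eq_right h.le, min_eq_left h.le]; linarith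
    · rw [max_eq_left h.le, min_eq_right h.le]; linarith
  obtain ⟨m, hm⟩ : ∃ m, m = min (x c) (x d) := ⟨_, rfl⟩
  obtain ⟨M, hM⟩ : ∃ M, M = max (x c) (x d) := ⟨_, rfl⟩
  rw [← hm, ← hM] at hL
  have hivt : Icc m M ⊆ x '' Icc c d := by
    have := intermediate_value_uIcc hcont
    rw [uIcc_of_le hcd.le] at this
    rw [hm, hM]
    exact this
  refine ⟨⌈2 / (M - m)⌉₊ + 1, by omega, fun q hq => ?_⟩
  have hq0 : (0 : ℝ) < q := by
    have : 0 < q := by omega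
    exact_mod_cast this
  have hqL : 2 ≤ q * (M - m) := by
    have h1 : 2 / (M - m) ≤ q := by
      refine (Nat.le_ceil _).trans ?_
      have : ⌈2 / (M - m)⌉₊ ≤ q := by omega
      exact_mod_cast this
    rwa [div_le_iff₀ hL] at h1
  obtain ⟨p, hp⟩ : ∃ p : ℤ, p = ⌈(q : ℝ) * m⌉ := ⟨_, rfl⟩
  have hp1 : (q : ℝ) * m ≤ p := by rw [hp]; exact Int.le_ceil _
  have hp2 : (p : ℝ) < q * m + 1 := by rw [hp]; exact Int.ceil_lt_add_one _
  have key : ∀ s : ℝ, q * m ≤ s → s ≤ q * M → ∃ u ∈ Icc c d, (q : ℝ) * x u = s := by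
    intro s h1 h2
    obtain ⟨u, hu, hus⟩ := hivt (show s / q ∈ Icc m M by
      constructor
      · rw [le_div_iff₀ hq0]; linarith
      · rw [div_le_iff₀ hq0]; linarith)
    exact ⟨u, hu, by rw [hus]; field_simp⟩
  obtain ⟨u, hu, hu1⟩ := key p hp1 (by nlinarith)
  obtain ⟨v, hv, hv1⟩ := key (p + 1) (by linarith) (by nlinarith)
  exact ⟨p, u, hu, v, hv, hu1, hv1⟩


/-- Proof.  Let `k₀ = f' c / x' c` for `c ∈ s = (a, b)`.
(1) `k₀` is an integer: `x` is strictly monotone near `c` (or on `(a, b)`, as `x'` has no zero and is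
continuous).  For every large natural `q` there is an integer `p` with `p / q`, `(p + 1) / q` in the image
under `x` of a given small neighbourhood of `c`; let `x c_q = p / q`, `x d_q = (p + 1) / q`, with `c_q, d_q`
near `c`.  By `H` (with `n = q`), `q f (c_q)` and `q f (d_q)` are integers, and
`q (f d_q - f c_q) = (f d_q - f c_q) / (x d_q - x c_q) = f' ξ / x' ξ` for some `ξ` between `c_q` and `d_q`
(Cauchy's mean value theorem, `exists_ratio_deriv_eq_ratio_slope`).  As `q → ∞` and the neighbourhood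
shrinks, `f' ξ / x' ξ → f' c / x' c` (continuity): a limit of integers is an integer.
(2) `c ↦ f' c / x' c` is continuous on `(a, b)` with integer values, so it is a constant `k`.
(3) `f - k x` has derivative `0`, so it is a constant `B`.  For all large `q` there is `c` with
`x c = p / q`, so `q f c` is an integer and `q B = q f c - k p` is an integer.  For `q` and `q + 1`: `B` is an
integer. -/
theorem rat_aux {f x : ℝ → ℝ} {a b : ℝ} (hab : a < b) (hf : ContDiffOn ℝ 1 f (Ioo a b))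
    (hx : ContDiffOn ℝ 1 x (Ioo a b)) (hx' : ∀ c ∈ Ioo a b, deriv x c ≠ 0)
    (H : ∀ c ∈ Ioo a b, ∀ n : ℕ, 0 < n → (∃ p : ℤ, n * x c = p) → ∃ p : ℤ, n * f c = p) :
    ∃ k B : ℤ, ∀ c ∈ Ioo a b, f c = k * x c + B := by
  have hfd : ∀ c ∈ Ioo a b, DifferentiableAt ℝ f c := fun c hc =>
    (hf.differentiableOn one_ne_zero).differentiableAt (isOpen_Ioo.mem_nhds hc)
  have hxd : ∀ c ∈ Ioo a b, DifferentiableAt ℝ x c := fun c hc =>
    (hx.differentiableOn one_ne_zero).differentiableAt (isOpen_Ioo.mem_nhds hc)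
  have hfc : ContinuousOn (deriv f) (Ioo a b) := hf.continuousOn_deriv_of_isOpen isOpen_Ioo le_rfl
  have hxc : ContinuousOn (deriv x) (Ioo a b) := hx.continuousOn_deriv_of_isOpen isOpen_Ioo le_rfl
  obtain ⟨r, hr⟩ : ∃ r : ℝ → ℝ, r = fun c => deriv f c / deriv x c := ⟨_, rfl⟩
  have hrc : ContinuousOn r (Ioo a b) := by rw [hr]; exact hfc.div hxc hx'
  -- step 1
  have hint : ∀ c ∈ Ioo a b, ∃ m : ℤ, r c = m := by
    intro c hc
    refine ⟨round (r c), ?_⟩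
    have hz : |r c - round (r c)| ≤ 0 := by
      refine le_of_forall_pos_le_add fun ε hε => ?_
      rw [zero_add]
      have hrc' : ContinuousAt r c := hrc.continuousAt (isOpen_Ioo.mem_nhds hc)
      have hev : ∀ᶠ y in 𝓝 c, |r y - r c| < ε ∧ y ∈ Ioo a b := by
        refine Filter.Eventually.and ?_ (isOpen_Ioo.mem_nhds hc)
        have := Metric.continuousAt_iff'.1 hrc' ε hε
        simpa [Real.dist_eq] using this
      obtain ⟨δ, hδ, hball⟩ := Metric.eventually_nhds_iff.1 hev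
      have hin : ∀ y ∈ Icc (c - δ / 2) (c + δ / 2), |r y - r c| < ε ∧ y ∈ Ioo a b := by
        intro y hy
        refine hball ?_
        rw [Real.dist_eq, abs_lt]
        constructor <;> linarith [hy.1, hy.2]
      have hle : c - δ / 2 < c + δ / 2 := by linarith
      obtain ⟨Q, hQ, hpts⟩ := rat_pts hx hx' (hin _ (left_mem_Icc.2 hle.le)).2
        (hin _ (right_mem_Icc.2 hle.le)).2 hle
      obtain ⟨p, u, hu, v, hv, hup, hvp⟩ := hpts Q le_rfl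
      obtain ⟨m1, hm1⟩ := H u (hin u hu).2 Q hQ ⟨p, hup⟩
      obtain ⟨m2, hm2⟩ := H v (hin v hv).2 Q hQ ⟨p + 1, by rw [hvp]; push_cast; ring⟩
      have hQ0 : (0 : ℝ) < Q := by exact_mod_cast hQ
      have huv : u ≠ v := by
        rintro rfl
        linarith
      -- Cauchy mean value
      have hmv : ∃ ξ ∈ Icc (c - δ / 2) (c + δ / 2), r ξ = Q * (f v - f u) := by
        have main : ∀ s t : ℝ, s ∈ Icc (c - δ / 2) (c + δ / 2) → t ∈ Icc (c - δ / 2) (c + δ / 2) →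
            s < t → ∃ ξ ∈ Icc (c - δ / 2) (c + δ / 2), (x t - x s) * deriv f ξ =
              (f t - f s) * deriv x ξ := by
          intro s t hs ht hst
          have hsub : Icc s t ⊆ Ioo a b := fun y hy =>
            (hin y ⟨hs.1.trans hy.1, hy.2.trans ht.2⟩).2
          obtain ⟨ξ, hξ, h⟩ := exists_ratio_deriv_eq_ratio_slope f hst
            (hf.continuousOn.mono hsub)
            (fun y hy => (hfd y (hsub (Ioo_subset_Icc_self hy))).differentiableWithinAt) x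
            (hx.continuousOn.mono hsub)
            (fun y hy => (hxd y (hsub (Ioo_subset_Icc_self hy))).differentiableWithinAt)
          exact ⟨ξ, ⟨hs.1.trans hξ.1.le, hξ.2.le.trans ht.2⟩, h⟩
        have hfin : ∀ ξ ∈ Icc (c - δ / 2) (c + δ / 2),
            (x v - x u) * deriv f ξ = (f v - f u) * deriv x ξ → r ξ = Q * (f v - f u) := by
          intro ξ hξ h
          have h0 := hx' ξ (hin ξ hξ).2
          rw [hr]
          simp only
          rw [div_eq_iff h0]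
          have h1 : (Q : ℝ) * (x v - x u) = 1 := by rw [mul_sub, hup, hvp]; ring
          calc deriv f ξ = (Q * (x v - x u)) * deriv f ξ := by rw [h1, one_mul]
            _ = Q * ((x v - x u) * deriv f ξ) := by ring
            _ = Q * (f v - f u) * deriv x ξ := by rw [h]; ring
        rcases lt_or_gt_of_ne huv with h | h
        · obtain ⟨ξ, hξ, h2⟩ := main u v hu hv h
          exact ⟨ξ, hξ, hfin ξ hξ h2⟩
        · obtain ⟨ξ, hξ, h2⟩ := main v u hv hu h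
          exact ⟨ξ, hξ, hfin ξ hξ (by linarith)⟩
      obtain ⟨ξ, hξ, hrξ⟩ := hmv
      have h3 : r ξ = ((m2 - m1 : ℤ) : ℝ) := by
        rw [hrξ, mul_sub, hm1, hm2]; push_cast; ring
      calc |r c - round (r c)| ≤ |r c - ((m2 - m1 : ℤ) : ℝ)| := round_le _ _
        _ = |r ξ - r c| := by rw [← h3, abs_sub_comm]
        _ ≤ ε := (hin ξ hξ).1.le
    have := abs_nonpos_iff.1 hz
    linarith
  -- step 2
  obtain ⟨c₀, hc₀⟩ : ∃ c₀, c₀ ∈ Ioo a b := ⟨(a + b) / 2, by constructor <;> linarith⟩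
  obtain ⟨k, hk⟩ := hint c₀ hc₀
  have hconst : ∀ c ∈ Ioo a b, r c = k := by
    intro c hc
    by_contra hne
    obtain ⟨m, hm⟩ := hint c hc
    have hmk : m ≠ k := by
      intro h; apply hne; rw [hm, h]
    have hsub : uIcc c₀ c ⊆ Ioo a b := by
      intro y hy
      rcases le_total c₀ c with h | h
      · rw [uIcc_of_le h] at hy
        exact ⟨lt_of_lt_of_le hc₀.1 hy.1, lt_of_le_of_lt hy.2 hc.2⟩
      · rw [uIcc_of_ge h] at hy
        exact ⟨lt_of_lt_of_le hc.1 hy.1, lt_of_le_of_lt hy.2 hc₀.2⟩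
    have hiv := intermediate_value_uIcc (hrc.mono hsub)
    rw [hk, hm] at hiv
    have hmem : ((min k m : ℤ) : ℝ) + 1 / 2 ∈ uIcc (k : ℝ) (m : ℝ) := by
      rcases lt_or_gt_of_ne hmk with h | h
      · rw [min_eq_right h.le, uIcc_of_ge (by exact_mod_cast h.le)]
        have : (m : ℝ) + 1 ≤ k := by exact_mod_cast h
        constructor <;> linarith
      · rw [min_eq_left h.le, uIcc_of_le (by exact_mod_cast h.le)]
        have : (k : ℝ) + 1 ≤ m := by exact_mod_cast h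
        constructor <;> linarith
    obtain ⟨y, hy, hyr⟩ := hiv hmem
    obtain ⟨m', hm'⟩ := hint y (hsub hy)
    rw [hm'] at hyr
    have h4 : ((2 * m' : ℤ) : ℝ) = ((2 * min k m + 1 : ℤ) : ℝ) := by
      push_cast at hyr ⊢; linarith
    have h5 : 2 * m' = 2 * min k m + 1 := by exact_mod_cast h4
    omega
  -- step 3
  obtain ⟨B, hB⟩ : ∃ B : ℝ, ∀ c ∈ Ioo a b, f c - k * x c = B := by
    refine isOpen_Ioo.exists_is_const_of_deriv_eq_zero isPreconnected_Ioo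
      (f := fun c => f c - k * x c) ?_ ?_
    · exact fun c hc => ((hfd c hc).sub ((hxd c hc).const_mul _)).differentiableWithinAt
    · intro c hc
      have h1 : deriv (fun c => f c - k * x c) c = deriv f c - k * deriv x c := by
        rw [deriv_fun_sub (hfd c hc) ((hxd c hc).const_mul _), deriv_const_mul _ (hxd c hc)]
      rw [h1]
      have h2 := hconst c hc
      rw [hr] at h2
      simp only at h2
      rw [div_eq_iff (hx' c hc)] at h2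
      simp [h2]
  obtain ⟨d, hd1, hd2⟩ : ∃ d, c₀ < d ∧ d < b := ⟨(c₀ + b) / 2, by linarith [hc₀.2],
    by linarith [hc₀.2]⟩
  have hd : d ∈ Ioo a b := ⟨hc₀.1.trans hd1, hd2⟩
  obtain ⟨Q, hQ, hpts⟩ := rat_pts hx hx' hc₀ hd hd1
  have hBq : ∀ q : ℕ, Q ≤ q → ∃ m : ℤ, (q : ℝ) * B = m := by
    intro q hq
    obtain ⟨p, u, hu, -, -, hup, -⟩ := hpts q hq
    have hu' : u ∈ Ioo a b := ⟨lt_of_lt_of_le hc₀.1 hu.1, lt_of_le_of_lt hu.2 hd.2⟩
    obtain ⟨m, hm⟩ := H u hu' q (by omega) ⟨p, hup⟩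
    refine ⟨m - k * p, ?_⟩
    rw [← hB u hu']
    push_cast
    rw [← hup, ← hm]; ring
  obtain ⟨m1, hm1⟩ := hBq Q le_rfl
  obtain ⟨m2, hm2⟩ := hBq (Q + 1) (by omega)
  refine ⟨k, m2 - m1, fun c hc => ?_⟩
  have hBi : B = ((m2 - m1 : ℤ) : ℝ) := by
    push_cast at hm2 ⊢; linarith
  rw [← hBi, ← hB c hc]; ring

theorem rat_arg {t : ℝ} (ht : |t| < 2) :
    ‖Complex.exp (2 * Real.pi * Complex.I * (Real.arccos (t / 2) / (2 * Real.pi) : ℝ))‖ = 1 ∧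
    2 * (Complex.exp (2 * Real.pi * Complex.I *
      (Real.arccos (t / 2) / (2 * Real.pi) : ℝ))).re = t ∧
    (∀ n : ℕ, (∃ p : ℤ, (n : ℝ) * (Real.arccos (t / 2) / (2 * Real.pi)) = p) ↔
      Complex.exp (2 * Real.pi * Complex.I *
      (Real.arccos (t / 2) / (2 * Real.pi) : ℝ)) ^ n = 1) := by
  obtain ⟨h1, h2⟩ := abs_lt.1 ht
  have hpi : (0 : ℝ) < 2 * Real.pi := by positivity
  have hpi' : (2 * Real.pi : ℝ) ≠ 0 := hpi.ne'
  have hpiC : (Real.pi : ℂ) ≠ 0 := by exact_mod_cast Real.pi_ne_zero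
  have e1 : (2 * Real.pi * Complex.I * (Real.arccos (t / 2) / (2 * Real.pi) : ℝ) : ℂ) =
      (Real.arccos (t / 2) : ℝ) * Complex.I := by
    push_cast
    field_simp
  refine ⟨?_, ?_, fun n => ?_⟩
  · rw [e1, Complex.norm_exp_ofReal_mul_I]
  · rw [e1, Complex.exp_ofReal_mul_I_re, Real.cos_arccos (by linarith) (by linarith)]
    ring
  · rw [← Complex.exp_nat_mul, Complex.exp_eq_one_iff]
    constructor
    · rintro ⟨p, hp⟩
      refine ⟨p, ?_⟩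
      have hp' : ((n : ℝ) * (Real.arccos (t / 2) / (2 * Real.pi)) : ℂ) = (p : ℂ) := by
        exact_mod_cast congrArg (fun r : ℝ => (r : ℂ)) hp
      push_cast at hp' ⊢
      rw [← hp']
      ring
    · rintro ⟨p, hp⟩
      refine ⟨p, ?_⟩
      have h3 : (((n : ℝ) * (Real.arccos (t / 2) / (2 * Real.pi)) : ℝ) : ℂ) = ((p : ℝ) : ℂ) := by
        have h4 : (2 * Real.pi * Complex.I : ℂ) ≠ 0 := by
          simp [hpiC]
        apply mul_left_cancel₀ h4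
        push_cast at hp ⊢
        linear_combination hp
      exact_mod_cast h3

theorem rat_deriv {t : ℝ → ℝ} {c : ℝ} (ht : |t c| < 2) (hd : DifferentiableAt ℝ t c) :
    (deriv (fun c => Real.arccos (t c / 2) / (2 * Real.pi)) c = 0 ↔ deriv t c = 0) ∧
    DifferentiableAt ℝ (fun c => Real.arccos (t c / 2) / (2 * Real.pi)) c := by
  obtain ⟨h1, h2⟩ := abs_lt.1 ht
  have e1 : t c / 2 ≠ -1 := by intro h; linarith
  have e2 : t c / 2 ≠ 1 := by intro h; linarith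
  have hA := (Real.hasDerivAt_arccos e1 e2).comp c (hd.hasDerivAt.div_const 2)
  have hA2 := hA.div_const (2 * Real.pi)
  have hpos : 0 < 1 - (t c / 2) ^ 2 := by nlinarith
  have hs : √(1 - (t c / 2) ^ 2) ≠ 0 := (Real.sqrt_pos.2 hpos).ne'
  refine ⟨?_, hA2.differentiableAt⟩
  have e3 : deriv (fun c => Real.arccos (t c / 2) / (2 * Real.pi)) c =
      -(1 / √(1 - (t c / 2) ^ 2)) * (deriv t c / 2) / (2 * Real.pi) := hA2.deriv
  rw [e3]
  have hpi : Real.pi ≠ 0 := Real.pi_ne_zero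
  constructor
  · intro h
    have h5 : -(1 / √(1 - (t c / 2) ^ 2)) * (deriv t c / 2) / (2 * Real.pi) =
      deriv t c * (-(1 / √(1 - (t c / 2) ^ 2)) / 2 / (2 * Real.pi)) := by ring
    rw [h5] at h
    rcases mul_eq_zero.1 h with h | h
    · exact h
    · exfalso
      have : -(1 / √(1 - (t c / 2) ^ 2)) / 2 / (2 * Real.pi) ≠ 0 := by
        have : (1 / √(1 - (t c / 2) ^ 2)) ≠ 0 := one_div_ne_zero hs
        exact div_ne_zero (div_ne_zero (neg_ne_zero.2 this) two_ne_zero) (by positivity)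
      exact this h
  · intro h
    rw [h]; ring

theorem rat_half {t₁ t₂ : ℝ → ℝ} {a b : ℝ} (h1 : ContDiffOn ℝ 1 t₁ (Ioo a b))
    (h2 : ContDiffOn ℝ 1 t₂ (Ioo a b)) (hb1 : ∀ c ∈ Ioo a b, |t₁ c| < 2)
    (hb2 : ∀ c ∈ Ioo a b, |t₂ c| < 2) (hne : ∀ c ∈ Ioo a b, t₁ c ≠ t₂ c)
    (H1 : ∀ c ∈ Ioo a b, ∀ n : ℕ, 0 < n → ∀ l₁ l₂ : ℂ, ‖l₁‖ = 1 → ‖l₂‖ = 1 → 2 * l₁.re = t₁ c →
      2 * l₂.re = t₂ c → l₁ ^ n = 1 → l₂ ^ n ≠ 1 → deriv t₁ c = 0)
    (H2 : ∀ c ∈ Ioo a b, ∀ n : ℕ, 0 < n → ∀ l₁ l₂ : ℂ, ‖l₁‖ = 1 → ‖l₂‖ = 1 → 2 * l₁.re = t₁ c →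
      2 * l₂.re = t₂ c → l₂ ^ n = 1 → l₁ ^ n ≠ 1 → deriv t₂ c = 0) :
    ∀ c ∈ Ioo a b, deriv t₁ c = 0 := by
  intro c₀ hc₀
  by_contra hd0
  have hpi : 0 < Real.pi := Real.pi_pos
  have hd1 : ∀ c ∈ Ioo a b, DifferentiableAt ℝ t₁ c := fun c hc =>
    (h1.differentiableOn one_ne_zero).differentiableAt (isOpen_Ioo.mem_nhds hc)
  have hd2 : ∀ c ∈ Ioo a b, DifferentiableAt ℝ t₂ c := fun c hc =>
    (h2.differentiableOn one_ne_zero).differentiableAt (isOpen_Ioo.mem_nhds hc)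
  have hc1 : ContinuousOn (deriv t₁) (Ioo a b) := h1.continuousOn_deriv_of_isOpen isOpen_Ioo le_rfl
  have hev : ∀ᶠ y in 𝓝 c₀, deriv t₁ y ≠ 0 ∧ y ∈ Ioo a b :=
    ((hc1.continuousAt (isOpen_Ioo.mem_nhds hc₀)).eventually_ne hd0).and (isOpen_Ioo.mem_nhds hc₀)
  obtain ⟨δ, hδ, hball⟩ := Metric.eventually_nhds_iff.1 hev
  have hin : ∀ y ∈ Ioo (c₀ - δ) (c₀ + δ), deriv t₁ y ≠ 0 ∧ y ∈ Ioo a b := by
    intro y hy
    refine hball ?_
    rw [Real.dist_eq, abs_lt]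
    constructor <;> linarith [hy.1, hy.2]
  have hsub : Ioo (c₀ - δ) (c₀ + δ) ⊆ Ioo a b := fun y hy => (hin y hy).2
  have hlt : c₀ - δ < c₀ + δ := by linarith
  have hc₀' : c₀ ∈ Ioo (c₀ - δ) (c₀ + δ) := ⟨by linarith, by linarith⟩
  obtain ⟨x₁, hx₁⟩ : ∃ x₁ : ℝ → ℝ, x₁ = fun c => Real.arccos (t₁ c / 2) / (2 * Real.pi) := ⟨_, rfl⟩
  obtain ⟨x₂, hx₂⟩ : ∃ x₂ : ℝ → ℝ, x₂ = fun c => Real.arccos (t₂ c / 2) / (2 * Real.pi) := ⟨_, rfl⟩
  have hCx : ∀ t : ℝ → ℝ, ContDiffOn ℝ 1 t (Ioo a b) → (∀ c ∈ Ioo a b, |t c| < 2) →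
      ContDiffOn ℝ 1 (fun c => Real.arccos (t c / 2) / (2 * Real.pi)) (Ioo (c₀ - δ) (c₀ + δ)) := by
    intro t ht hb c hc
    have hcab := hsub hc
    obtain ⟨g1, g2⟩ := abs_lt.1 (hb c hcab)
    have e1 : t c / 2 ≠ -1 := by intro h; linarith
    have e2 : t c / 2 ≠ 1 := by intro h; linarith
    have hA : ContDiffAt ℝ 1 t c := (ht c hcab).contDiffAt (isOpen_Ioo.mem_nhds hcab)
    have hA2 : ContDiffAt ℝ 1 (fun c => t c / 2) c := hA.div_const 2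
    have hA3 : ContDiffAt ℝ 1 (fun c => Real.arccos (t c / 2)) c :=
      ContDiffAt.comp (g := Real.arccos) c (Real.contDiffAt_arccos e1 e2) hA2
    exact (hA3.div_const _).contDiffWithinAt
  have hC1 : ContDiffOn ℝ 1 x₁ (Ioo (c₀ - δ) (c₀ + δ)) := by rw [hx₁]; exact hCx t₁ h1 hb1
  have hC2 : ContDiffOn ℝ 1 x₂ (Ioo (c₀ - δ) (c₀ + δ)) := by rw [hx₂]; exact hCx t₂ h2 hb2
  have hrange : ∀ t : ℝ, |t| < 2 → 0 < Real.arccos (t / 2) / (2 * Real.pi) ∧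
      Real.arccos (t / 2) / (2 * Real.pi) < 1 / 2 := by
    intro t ht
    obtain ⟨g1, g2⟩ := abs_lt.1 ht
    have e1 : 0 < Real.arccos (t / 2) := Real.arccos_pos.2 (by linarith)
    have e2 : Real.arccos (t / 2) < Real.pi := by
      refine lt_of_le_of_ne (Real.arccos_le_pi _) ?_
      intro h
      rw [Real.arccos_eq_pi] at h
      linarith
    refine ⟨by positivity, ?_⟩
    rw [div_lt_iff₀ (by positivity)]
    linarith
  have hr1 : ∀ c ∈ Ioo (c₀ - δ) (c₀ + δ), 0 < x₁ c ∧ x₁ c < 1 / 2 := by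
    intro c hc; rw [hx₁]; exact hrange _ (hb1 c (hsub hc))
  have hr2 : ∀ c ∈ Ioo (c₀ - δ) (c₀ + δ), 0 < x₂ c ∧ x₂ c < 1 / 2 := by
    intro c hc; rw [hx₂]; exact hrange _ (hb2 c (hsub hc))
  have hx1' : ∀ c ∈ Ioo (c₀ - δ) (c₀ + δ), deriv x₁ c ≠ 0 := by
    intro c hc h
    rw [hx₁, (rat_deriv (hb1 c (hsub hc)) (hd1 c (hsub hc))).1] at h
    exact (hin c hc).1 h
  have hdx1 : ∀ c ∈ Ioo (c₀ - δ) (c₀ + δ), DifferentiableAt ℝ x₁ c := by
    intro c hc; rw [hx₁]; exact (rat_deriv (hb1 c (hsub hc)) (hd1 c (hsub hc))).2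
  obtain ⟨k, B, hkB⟩ := rat_aux hlt hC2 hC1 hx1' (by
    intro c hc n hn hp
    obtain ⟨a1, a2, a3⟩ := rat_arg (hb1 c (hsub hc))
    obtain ⟨b1, b2, b3⟩ := rat_arg (hb2 c (hsub hc))
    rw [hx₂]
    rw [hx₁] at hp
    rw [b3 n]
    by_contra hcon
    exact (hin c hc).1 (H1 c (hsub hc) n hn _ _ a1 b1 a2 b2 ((a3 n).1 hp) hcon))
  have e0 := hkB c₀ hc₀'
  have r1 := hr1 c₀ hc₀'
  have r2 := hr2 c₀ hc₀'
  have hk0 : k ≠ 0 := by
    rintro rfl
    have g1 : (0 : ℝ) < B := by push_cast at e0; linarith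
    have g2 : (B : ℝ) < 1 := by push_cast at e0; linarith
    have g3 : 0 < B := by exact_mod_cast g1
    have g4 : B < 1 := by exact_mod_cast g2
    omega
  have hk1 : k ≠ 1 := by
    rintro rfl
    have g1 : (-1 : ℝ) < B := by push_cast at e0; linarith
    have g2 : (B : ℝ) < 1 := by push_cast at e0; linarith
    have g3 : -1 < B := by exact_mod_cast g1
    have g4 : B < 1 := by exact_mod_cast g2
    have g5 : B = 0 := by omega
    rw [g5] at e0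
    push_cast at e0
    have g6 : x₂ c₀ = x₁ c₀ := by linarith
    rw [hx₁, hx₂] at g6
    simp only at g6
    have g7 : Real.arccos (t₂ c₀ / 2) = Real.arccos (t₁ c₀ / 2) := by
      exact (div_left_inj' (show (2 * Real.pi) ≠ 0 by positivity)).1 g6
    obtain ⟨a1, a2⟩ := abs_lt.1 (hb1 c₀ hc₀)
    obtain ⟨b1, b2⟩ := abs_lt.1 (hb2 c₀ hc₀)
    have g8 : t₂ c₀ / 2 = t₁ c₀ / 2 := by
      have := congrArg Real.cos g7
      rwa [Real.cos_arccos (by linarith) (by linarith),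
        Real.cos_arccos (by linarith) (by linarith)] at this
    exact hne c₀ hc₀ (by linarith)
  have hkm : k ≠ -1 := by
    rintro rfl
    have g1 : (0 : ℝ) < B := by push_cast at e0; linarith
    have g2 : (B : ℝ) < 1 := by push_cast at e0; linarith
    have g3 : 0 < B := by exact_mod_cast g1
    have g4 : B < 1 := by exact_mod_cast g2
    omega
  have hx2' : ∀ c ∈ Ioo (c₀ - δ) (c₀ + δ), deriv x₂ c ≠ 0 := by
    intro c hc
    have g : deriv x₂ c = k * deriv x₁ c := by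
      have g1 : x₂ =ᶠ[𝓝 c] fun c => k * x₁ c + B := by
        filter_upwards [isOpen_Ioo.mem_nhds hc] with y hy using hkB y hy
      rw [g1.deriv_eq]
      rw [deriv_add_const, deriv_const_mul _ (hdx1 c hc)]
    rw [g]
    exact mul_ne_zero (by exact_mod_cast hk0) (hx1' c hc)
  obtain ⟨k', B', hkB'⟩ := rat_aux hlt hC1 hC2 hx2' (by
    intro c hc n hn hp
    obtain ⟨a1, a2, a3⟩ := rat_arg (hb1 c (hsub hc))
    obtain ⟨b1, b2, b3⟩ := rat_arg (hb2 c (hsub hc))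
    rw [hx₁]
    rw [hx₂] at hp
    rw [a3 n]
    by_contra hcon
    have h0 := H2 c (hsub hc) n hn _ _ a1 b1 a2 b2 ((b3 n).1 hp) hcon
    apply hx2' c hc
    rw [hx₂, (rat_deriv (hb2 c (hsub hc)) (hd2 c (hsub hc))).1]
    exact h0)
  obtain ⟨d, hdd1, hdd2⟩ : ∃ d, c₀ < d ∧ d < c₀ + δ := ⟨c₀ + δ / 2, by linarith, by linarith⟩
  have hd : d ∈ Ioo (c₀ - δ) (c₀ + δ) := ⟨by linarith, hdd2⟩
  have hneq := rat_ne hC1 hx1' hc₀' hd hdd1
  have f1 := hkB' c₀ hc₀'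
  have f2 := hkB' d hd
  have f3 := hkB d hd
  have f4 : (1 - (k' : ℝ) * k) * (x₁ c₀ - x₁ d) = 0 := by
    rw [e0] at f1
    rw [f3] at f2
    linear_combination f1 - f2
  have f5 : (k' : ℝ) * k = 1 := by
    rcases mul_eq_zero.1 f4 with h | h
    · linarith
    · exact absurd (by linarith) hneq
  have f6 : k' * k = 1 := by exact_mod_cast f5
  rcases Int.isUnit_iff.1 (IsUnit.of_mul_eq_one k' (by rw [mul_comm]; exact f6)) with h | h
  · exact hk1 h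
  · exact hkm h

/-- Proof.  Put `x_j c = arccos (t_j c / 2) / (2 π) ∈ (0, 1/2)`, of class `C¹`, and
`l_j = exp (2 π I x_j c)`, so `2 Re l_j = t_j c`; `l_j ^ n = 1` iff `n x_j c` is an integer; `t_j' = 0` iff
`x_j' = 0`; `x₁ c ≠ x₂ c`.
Suppose `t₁' c₀ ≠ 0` for some `c₀` (the case `t₂' c₀ ≠ 0` is symmetric).  `x₁' ≠ 0` on an interval
`(a', b') ∋ c₀`.  By `H1`, for `c ∈ (a', b')`: if `n x₁ c` is an integer then `n x₂ c` is an integer.  So
(`rat_aux`) `x₂ = k x₁ + B` there, with integers `k, B`.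
`k = 0`: `x₂ = B ∈ (0, 1/2)`, impossible.  `k = 1`: `x₂ - x₁ = B ∈ (-1/2, 1/2)`, `B = 0`, `x₂ = x₁`, impossible.
`k = -1`: `x₁ + x₂ = B ∈ (0, 1)`, impossible.  So `|k| ≥ 2`, `x₂' = k x₁' ≠ 0` on `(a', b')`, and by `H2` and
`rat_aux` with exchanged roles `x₁ = k' x₂ + B'`, so `x₁' = k' k x₁'`, `k' k = 1`, impossible. -/
theorem rat_const {t₁ t₂ : ℝ → ℝ} {a b : ℝ} (h1 : ContDiffOn ℝ 1 t₁ (Ioo a b))
    (h2 : ContDiffOn ℝ 1 t₂ (Ioo a b)) (hb1 : ∀ c ∈ Ioo a b, |t₁ c| < 2)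
    (hb2 : ∀ c ∈ Ioo a b, |t₂ c| < 2) (hne : ∀ c ∈ Ioo a b, t₁ c ≠ t₂ c)
    (H1 : ∀ c ∈ Ioo a b, ∀ n : ℕ, 0 < n → ∀ l₁ l₂ : ℂ, ‖l₁‖ = 1 → ‖l₂‖ = 1 → 2 * l₁.re = t₁ c →
      2 * l₂.re = t₂ c → l₁ ^ n = 1 → l₂ ^ n ≠ 1 → deriv t₁ c = 0)
    (H2 : ∀ c ∈ Ioo a b, ∀ n : ℕ, 0 < n → ∀ l₁ l₂ : ℂ, ‖l₁‖ = 1 → ‖l₂‖ = 1 → 2 * l₁.re = t₁ c →
      2 * l₂.re = t₂ c → l₂ ^ n = 1 → l₁ ^ n ≠ 1 → deriv t₂ c = 0) :
    ∀ c ∈ Ioo a b, deriv t₁ c = 0 ∧ deriv t₂ c = 0 := by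
  intro c hc
  refine ⟨rat_half h1 h2 hb1 hb2 hne H1 H2 c hc, ?_⟩
  exact rat_half h2 h1 hb2 hb1 (fun c hc => (hne c hc).symm)
    (fun c hc n hn l₁ l₂ n1 n2 e1 e2 p1 p2 => H2 c hc n hn l₂ l₁ n2 n1 e2 e1 p1 p2)
    (fun c hc n hn l₁ l₂ n1 n2 e1 e2 p1 p2 => H1 c hc n hn l₂ l₁ n2 n1 e2 e1 p1 p2) c hc

end Pool.Agent.MP_5027f4_cont
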