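import Pool.Agent.Lib_MP_5027f4_cont.QDefs

/-!
PIECE [QShift] (MP_5027f4_mp, T3).  From the return map to a family with fixed point `0`.
-/

open Set Filter Topology Metric Polynomial
open scoped ComplexConjugate ContDiff

namespace Pool.Agent.MP_5027f4_cont

namespace QShiftAux

/-- `os` as a bilinear map -/
noncomputable def osB : (ℂ × ℂ) →L[ℝ] (ℂ × ℂ) →L[ℝ] ℝ :=
  LinearMap.mkContinuous₂ (LinearMap.mk₂ ℝ os
    (fun a b c => by
      simp only [os, Prod.fst_add, Prod.snd_add, map_add, add_mul, Complex.add_im]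
      ring)
    (fun r a b => by
      simp only [os, Prod.smul_fst, Prod.smul_snd, Complex.add_im, Complex.mul_im, Complex.conj_re,
        Complex.conj_im, Complex.real_smul, Complex.mul_re, Complex.ofReal_re, Complex.ofReal_im,
        smul_eq_mul]
      ring)
    (fun a b c => by
      simp only [os, Prod.fst_add, Prod.snd_add, mul_add, Complex.add_im]
      ring)
    (fun r a b => by
      simp only [os, Prod.smul_fst, Prod.smul_snd, Complex.add_im, Complex.mul_im, Complex.conj_re,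
        Complex.conj_im, Complex.real_smul, Complex.mul_re, Complex.ofReal_re, Complex.ofReal_im,
        smul_eq_mul]
      ring)) 2 (by
    intro a b
    rw [LinearMap.mk₂_apply, Real.norm_eq_abs, os]
    refine (Complex.abs_im_le_norm _).trans ((norm_add_le _ _).trans ?_)
    rw [norm_mul, norm_mul, RCLike.norm_conj, RCLike.norm_conj]
    have h1 : ‖a.1‖ ≤ ‖a‖ := norm_fst_le a
    have h2 : ‖a.2‖ ≤ ‖a‖ := norm_snd_le a
    have h3 : ‖b.1‖ ≤ ‖b‖ := norm_fst_le b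
    have h4 : ‖b.2‖ ≤ ‖b‖ := norm_snd_le b
    have h5 : ‖a.1‖ * ‖b.1‖ ≤ ‖a‖ * ‖b‖ := mul_le_mul h1 h3 (norm_nonneg _) (norm_nonneg _)
    have h6 : ‖a.2‖ * ‖b.2‖ ≤ ‖a‖ * ‖b‖ := mul_le_mul h2 h4 (norm_nonneg _) (norm_nonneg _)
    linarith)

theorem osB_apply (a b : ℂ × ℂ) : osB a b = os a b := rfl

theorem osB_add_right (ξ η ζ : ℂ × ℂ) : os ξ (η + ζ) = os ξ η + os ξ ζ := by
  rw [← osB_apply, map_add]
  rfl

theorem osB_sub_right (ξ η ζ : ℂ × ℂ) : os ξ (η - ζ) = os ξ η - os ξ ζ := by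
  rw [← osB_apply, map_sub]
  rfl

theorem os_zero_right (ξ : ℂ × ℂ) : os ξ 0 = 0 := by
  rw [← osB_apply, map_zero]

/-- the shift of the origin -/
noncomputable def sft (zs : ℝ → ℂ × ℂ) (c₁ : ℝ) (q : ℝ × (ℂ × ℂ)) : ℝ × (ℂ × ℂ) :=
  (c₁ + q.1, zs (c₁ + q.1) + q.2)

/-- the shifted family -/
noncomputable def PS (P : ℝ × (ℂ × ℂ) → ℂ × ℂ) (zs : ℝ → ℂ × ℂ) (c₁ : ℝ) (q : ℝ × (ℂ × ℂ)) :
    ℂ × ℂ := P (sft zs c₁ q) - zs (c₁ + q.1)

/-- the shifted displacement -/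
noncomputable def aS (P : ℝ × (ℂ × ℂ) → ℂ × ℂ) (a : ℝ × (ℂ × ℂ) → ℝ) (zs : ℝ → ℂ × ℂ) (c₁ : ℝ)
    (q : ℝ × (ℂ × ℂ)) : ℝ :=
  a (sft zs c₁ q) + (osB (PS P zs c₁ q) (deriv zs (c₁ + q.1)) - osB q.2 (deriv zs (c₁ + q.1)))

variable {P : ℝ × (ℂ × ℂ) → ℂ × ℂ} {a : ℝ × (ℂ × ℂ) → ℝ} {zs : ℝ → ℂ × ℂ} {c₁ : ℝ}

theorem sft_zero : sft zs c₁ 0 = (c₁, zs c₁) := by
  unfold sft
  simp

theorem an_add (c₁ : ℝ) : AnalyticAt ℝ (fun q : ℝ × (ℂ × ℂ) => c₁ + q.1) 0 :=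
  analyticAt_const.add analyticAt_fst

theorem an_zs (hz : AnalyticAt ℝ zs c₁) :
    AnalyticAt ℝ (fun q : ℝ × (ℂ × ℂ) => zs (c₁ + q.1)) 0 := by
  have h1 : AnalyticAt ℝ zs ((fun q : ℝ × (ℂ × ℂ) => c₁ + q.1) 0) := by
    simpa using hz
  exact AnalyticAt.comp (g := zs) (f := fun q : ℝ × (ℂ × ℂ) => c₁ + q.1) h1 (an_add c₁)

theorem an_w (hz : AnalyticAt ℝ zs c₁) :
    AnalyticAt ℝ (fun q : ℝ × (ℂ × ℂ) => deriv zs (c₁ + q.1)) 0 := by
  have h1 : AnalyticAt ℝ (deriv zs) ((fun q : ℝ × (ℂ × ℂ) => c₁ + q.1) 0) := by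
    simpa using hz.deriv
  exact AnalyticAt.comp (g := deriv zs) (f := fun q : ℝ × (ℂ × ℂ) => c₁ + q.1) h1 (an_add c₁)

theorem an_sft (hz : AnalyticAt ℝ zs c₁) : AnalyticAt ℝ (sft zs c₁) 0 :=
  (an_add c₁).prod ((an_zs hz).add analyticAt_snd)

theorem an_comp {F : Type*} [NormedAddCommGroup F] [NormedSpace ℝ F] {f : ℝ × (ℂ × ℂ) → F}
    (hf : AnalyticAt ℝ f (c₁, zs c₁)) (hz : AnalyticAt ℝ zs c₁) :
    AnalyticAt ℝ (fun q => f (sft zs c₁ q)) 0 := by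
  have h1 : AnalyticAt ℝ f (sft zs c₁ 0) := by
    rw [sft_zero]
    exact hf
  exact h1.comp (an_sft hz)

theorem an_PS (hP : AnalyticAt ℝ P (c₁, zs c₁)) (hz : AnalyticAt ℝ zs c₁) :
    AnalyticAt ℝ (PS P zs c₁) 0 :=
  (an_comp hP hz).sub (an_zs hz)

theorem an_osB {f g : ℝ × (ℂ × ℂ) → ℂ × ℂ} (hf : AnalyticAt ℝ f 0) (hg : AnalyticAt ℝ g 0) :
    AnalyticAt ℝ (fun q => osB (f q) (g q)) 0 := by
  have h1 := (osB.analyticAt_bilinear (f 0, g 0))
  exact AnalyticAt.comp₂ (h := fun p : (ℂ × ℂ) × (ℂ × ℂ) => osB p.1 p.2) h1 hf hg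

theorem an_aS (hP : AnalyticAt ℝ P (c₁, zs c₁)) (ha : AnalyticAt ℝ a (c₁, zs c₁))
    (hz : AnalyticAt ℝ zs c₁) : AnalyticAt ℝ (aS P a zs c₁) 0 :=
  (an_comp ha hz).add ((an_osB (an_PS hP hz) (an_w hz)).sub (an_osB analyticAt_snd (an_w hz)))

theorem tend_sft (hz : AnalyticAt ℝ zs c₁) :
    Tendsto (sft zs c₁) (𝓝 0) (𝓝 (c₁, zs c₁)) := by
  have h := (an_sft hz).continuousAt.tendsto
  rwa [sft_zero] at h

theorem tend_c (c₁ : ℝ) : Tendsto (fun q : ℝ × (ℂ × ℂ) => c₁ + q.1) (𝓝 0) (𝓝 c₁) := by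
  have h := (an_add c₁).continuousAt.tendsto
  simpa using h

theorem tend_c' (c₁ : ℝ) : Tendsto (fun c : ℝ => c₁ + c) (𝓝 0) (𝓝 c₁) := by
  have h : ContinuousAt (fun c : ℝ => c₁ + c) 0 := by fun_prop
  simpa [ContinuousAt] using h

/-- derivative of the shift -/
theorem fd_sft {q : ℝ × (ℂ × ℂ)} (hz : DifferentiableAt ℝ zs (c₁ + q.1)) :
    HasFDerivAt (sft zs c₁) ((ContinuousLinearMap.fst ℝ ℝ (ℂ × ℂ)).prod
      ((ContinuousLinearMap.fst ℝ ℝ (ℂ × ℂ)).smulRight (deriv zs (c₁ + q.1)) +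
        ContinuousLinearMap.snd ℝ ℝ (ℂ × ℂ))) q := by
  have h1 : HasFDerivAt (fun q : ℝ × (ℂ × ℂ) => c₁ + q.1) (ContinuousLinearMap.fst ℝ ℝ (ℂ × ℂ)) q :=
    (hasFDerivAt_fst).const_add c₁
  have h2 : HasFDerivAt (fun q : ℝ × (ℂ × ℂ) => zs (c₁ + q.1))
      ((ContinuousLinearMap.fst ℝ ℝ (ℂ × ℂ)).smulRight (deriv zs (c₁ + q.1))) q := by
    have h3 := hz.hasDerivAt.hasFDerivAt.comp q h1
    refine h3.congr_fderiv ?_
    ext x <;> simp
  exact h1.prodMk (h2.add hasFDerivAt_snd)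

theorem fd_zs {q : ℝ × (ℂ × ℂ)} (hz : DifferentiableAt ℝ zs (c₁ + q.1)) :
    HasFDerivAt (fun q : ℝ × (ℂ × ℂ) => zs (c₁ + q.1))
      ((ContinuousLinearMap.fst ℝ ℝ (ℂ × ℂ)).smulRight (deriv zs (c₁ + q.1))) q := by
  have h1 : HasFDerivAt (fun q : ℝ × (ℂ × ℂ) => c₁ + q.1) (ContinuousLinearMap.fst ℝ ℝ (ℂ × ℂ)) q :=
    (hasFDerivAt_fst).const_add c₁
  have h3 := hz.hasDerivAt.hasFDerivAt.comp q h1
  refine h3.congr_fderiv ?_
  ext x <;> simp

theorem fd_PS {q : ℝ × (ℂ × ℂ)} (hz : DifferentiableAt ℝ zs (c₁ + q.1))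
    (hP : DifferentiableAt ℝ P (sft zs c₁ q)) (v : ℝ × (ℂ × ℂ)) :
    fderiv ℝ (PS P zs c₁) q v = fderiv ℝ P (sft zs c₁ q) (v.1, v.1 • deriv zs (c₁ + q.1) + v.2) -
      v.1 • deriv zs (c₁ + q.1) := by
  have h := (hP.hasFDerivAt.comp q (fd_sft hz)).sub (fd_zs hz)
  have h2 : HasFDerivAt (PS P zs c₁) _ q := h
  rw [h2.fderiv]
  simp

theorem dz_PS {q : ℝ × (ℂ × ℂ)} (hz : DifferentiableAt ℝ zs (c₁ + q.1))
    (hP : DifferentiableAt ℝ P (sft zs c₁ q)) :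
    dz (PS P zs c₁) q = dz P (sft zs c₁ q) := by
  refine ContinuousLinearMap.ext fun ξ => ?_
  unfold dz
  rw [ContinuousLinearMap.comp_apply, ContinuousLinearMap.comp_apply,
    ContinuousLinearMap.inr_apply, fd_PS hz hP]
  simp

theorem fd_aS {q : ℝ × (ℂ × ℂ)} (hz : DifferentiableAt ℝ zs (c₁ + q.1))
    (hP : DifferentiableAt ℝ P (sft zs c₁ q)) (ha : DifferentiableAt ℝ a (sft zs c₁ q))
    (hw : DifferentiableAt ℝ (deriv zs) (c₁ + q.1)) (ξ : ℂ × ℂ) :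
    fderiv ℝ (aS P a zs c₁) q (0, ξ) = fderiv ℝ a (sft zs c₁ q) (0, ξ) +
      (os (dz P (sft zs c₁ q) ξ) (deriv zs (c₁ + q.1)) - os ξ (deriv zs (c₁ + q.1))) := by
  have h1 := ha.hasFDerivAt.comp q (fd_sft hz)
  have hPS : DifferentiableAt ℝ (PS P zs c₁) q :=
    ((hP.hasFDerivAt.comp q (fd_sft hz)).sub (fd_zs hz)).differentiableAt
  have hw' : HasFDerivAt (fun q : ℝ × (ℂ × ℂ) => deriv zs (c₁ + q.1)) _ q := fd_zs hw
  have h2 := osB.hasFDerivAt_of_bilinear hPS.hasFDerivAt hw'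
  have h3 := osB.hasFDerivAt_of_bilinear (hasFDerivAt_snd (𝕜 := ℝ) (p := q)) hw'
  have h4 : HasFDerivAt (aS P a zs c₁) _ q := h1.add (h2.sub h3)
  rw [h4.fderiv, ← dz_PS hz hP]
  unfold dz
  simp [osB_apply, os_zero_right]

theorem itP_cont {P' : ℝ × (ℂ × ℂ) → ℂ × ℂ} (hP : ContinuousAt P' 0) (h0 : P' 0 = 0) (j : ℕ) :
    ContinuousAt (itP P' j) 0 ∧ itP P' j 0 = 0 := by
  induction j with
  | zero => exact ⟨continuousAt_snd, rfl⟩
  | succ j ih =>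
    have h1 : ((0 : ℝ × (ℂ × ℂ)).1, itP P' j 0) = 0 := by
      rw [ih.2]
      rfl
    constructor
    · have h2 : ContinuousAt (fun q : ℝ × (ℂ × ℂ) => (q.1, itP P' j q)) 0 :=
        continuousAt_fst.prodMk ih.1
      have h3 : ContinuousAt P' ((fun q : ℝ × (ℂ × ℂ) => (q.1, itP P' j q)) 0) := by
        show ContinuousAt P' ((0 : ℝ × (ℂ × ℂ)).1, itP P' j 0)
        rw [h1]
        exact hP
      exact ContinuousAt.comp h3 h2
    · show P' ((0 : ℝ × (ℂ × ℂ)).1, itP P' j 0) = 0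
      rw [h1, h0]

end QShiftAux

open QShiftAux

/-- Proof.  `w c = deriv zs c`,
`P' (c, z) = P (c₁ + c, zs (c₁ + c) + z) - zs (c₁ + c)`,
`a' (c, z) = a (c₁ + c, zs (c₁ + c) + z) + os (P' (c, z)) (w (c₁ + c)) - os z (w (c₁ + c))`.
`P' (c, 0) = 0`, `a' (c, 0) = 0` (`hfix`, `ha0`).  With `q' = (c₁ + c, zs (c₁ + c) + z)`:
`dz P' q = dz P q'` (`symp`), `fderiv P' q (1, 0) = P_c + dz P q' w - w` (`P_c = fderiv P q' (1, 0)`), and
`fderiv a' q (0, ξ) = fderiv a q' (0, ξ) + os (dz P q' ξ) w - os ξ w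
= - os (dz P ξ) P_c + os (dz P ξ) w - os ξ w = - os (dz P ξ) (P_c + dz P w - w)` by `hrel` and
`os (dz P ξ) (dz P w) = os ξ w`: `rel`.
`NoDrift`: let `n ≥ 1` (`n = 0` is trivial), `q = (c, z)` near `0` with `itP P' n q = z`.  The points
`z_j = itP P' j q`, `j ≤ n`, are near `0` (continuity, `P' (c, 0) = 0`), and `j ↦ zs (c₁ + c) + z_{j mod n}` is a
chain of `P (c₁ + c, ·)` of any length; it stays near `zs c₁`.  By `hbd` for the lengths `k n`:
`|k Σ_{j<n} a (c₁ + c, zs (c₁ + c) + z_j)| ≤ δ` for all `k`, so the sum is zero.  The terms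
`os (z_{j+1}) w - os (z_j) w` telescope to zero over the period.  So `itA P' a' n q = 0`. -/
theorem fam_shift {P : ℝ × (ℂ × ℂ) → ℂ × ℂ} {a : ℝ × (ℂ × ℂ) → ℝ} {zs : ℝ → ℂ × ℂ} {c₁ : ℝ}
    (hP : AnalyticAt ℝ P (c₁, zs c₁)) (ha : AnalyticAt ℝ a (c₁, zs c₁)) (hz : AnalyticAt ℝ zs c₁)
    (hfix : ∀ᶠ c in 𝓝 c₁, P (c, zs c) = zs c) (ha0 : ∀ᶠ c in 𝓝 c₁, a (c, zs c) = 0)
    (hsymp : ∀ᶠ q in 𝓝 (c₁, zs c₁), ∀ ξ η, os (dz P q ξ) (dz P q η) = os ξ η)
    (hrel : ∀ᶠ q in 𝓝 (c₁, zs c₁), ∀ ξ : ℂ × ℂ,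
      fderiv ℝ a q (0, ξ) = -os (dz P q ξ) (fderiv ℝ P q (1, 0)))
    (hbd : ∃ r > 0, ∃ δ : ℝ, ∀ (c : ℝ) (n : ℕ) (z : ℕ → ℂ × ℂ), |c - c₁| < r →
      (∀ j ≤ n, ‖z j - zs c₁‖ < r) → (∀ j < n, z (j + 1) = P (c, z j)) →
      |∑ j ∈ Finset.range n, a (c, z j)| ≤ δ) :
    ∃ P' a', Fam P' a' ∧ NoDrift P' a' ∧
      ∀ᶠ c in 𝓝 (0 : ℝ), dz P' (c, 0) = dz P (c₁ + c, zs (c₁ + c)) := by
  have hPS0 : PS P zs c₁ 0 = 0 := by
    unfold PS
    rw [sft_zero]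
    have h1 := hfix.self_of_nhds
    rw [h1]
    simp
  have edz : ∀ᶠ q : ℝ × (ℂ × ℂ) in 𝓝 0, DifferentiableAt ℝ zs (c₁ + q.1) :=
    (tend_c c₁).eventually (hz.eventually_analyticAt.mono fun _ h => h.differentiableAt)
  have edw : ∀ᶠ q : ℝ × (ℂ × ℂ) in 𝓝 0, DifferentiableAt ℝ (deriv zs) (c₁ + q.1) :=
    (tend_c c₁).eventually (hz.deriv.eventually_analyticAt.mono fun _ h => h.differentiableAt)
  have edP : ∀ᶠ q : ℝ × (ℂ × ℂ) in 𝓝 0, DifferentiableAt ℝ P (sft zs c₁ q) :=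
    (tend_sft hz).eventually (hP.eventually_analyticAt.mono fun _ h => h.differentiableAt)
  have eda : ∀ᶠ q : ℝ × (ℂ × ℂ) in 𝓝 0, DifferentiableAt ℝ a (sft zs c₁ q) :=
    (tend_sft hz).eventually (ha.eventually_analyticAt.mono fun _ h => h.differentiableAt)
  have es := (tend_sft hz).eventually hsymp
  have er := (tend_sft hz).eventually hrel
  refine ⟨PS P zs c₁, aS P a zs c₁, ⟨an_PS hP hz, an_aS hP ha hz, ?_, ?_, ?_, ?_⟩, ?_, ?_⟩
  · filter_upwards [(tend_c' c₁).eventually hfix] with c hc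
    unfold PS sft
    simp only [add_zero]
    rw [hc, sub_self]
  · filter_upwards [(tend_c' c₁).eventually hfix, (tend_c' c₁).eventually ha0] with c hc hc'
    unfold aS PS sft
    simp only [add_zero]
    rw [hc, hc', sub_self, sub_self, add_zero]
  · filter_upwards [edz, edP, es] with q h1 h2 h3 ξ η
    rw [dz_PS h1 h2]
    exact h3 ξ η
  · filter_upwards [edz, edw, edP, eda, es, er] with q h1 h2 h3 h4 h5 h6 ξ
    rw [fd_aS h1 h3 h4 h2, h6, dz_PS h1 h3, fd_PS h1 h3]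
    have e1 : fderiv ℝ P (sft zs c₁ q) ((1 : ℝ), (1 : ℝ) • deriv zs (c₁ + q.1) + (0 : ℂ × ℂ)) =
        fderiv ℝ P (sft zs c₁ q) (1, 0) + dz P (sft zs c₁ q) (deriv zs (c₁ + q.1)) := by
      unfold dz
      rw [ContinuousLinearMap.comp_apply, ContinuousLinearMap.inr_apply, ← map_add]
      congr 1
      simp
    show _ = -os (dz P (sft zs c₁ q) ξ)
      (fderiv ℝ P (sft zs c₁ q) ((1 : ℝ), (1 : ℝ) • deriv zs (c₁ + q.1) + (0 : ℂ × ℂ)) -
        (1 : ℝ) • deriv zs (c₁ + q.1))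
    rw [e1, osB_sub_right, osB_add_right, h5, one_smul]
    ring
  · intro n
    obtain ⟨r, hr, δ, hbd⟩ := hbd
    have hcont := itP_cont (an_PS hP hz).continuousAt hPS0
    have e1 : ∀ᶠ q : ℝ × (ℂ × ℂ) in 𝓝 0, |q.1| < r := by
      have h : ContinuousAt (fun q : ℝ × (ℂ × ℂ) => |q.1|) 0 := by fun_prop
      exact h.eventually_lt continuousAt_const (by simpa using hr)
    have e2 : ∀ᶠ q : ℝ × (ℂ × ℂ) in 𝓝 0, ∀ j ∈ Finset.range n,
        ‖zs (c₁ + q.1) + itP (PS P zs c₁) j q - zs c₁‖ < r := by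
      rw [Filter.eventually_all_finset]
      intro j _
      have h : ContinuousAt (fun q : ℝ × (ℂ × ℂ) =>
          ‖zs (c₁ + q.1) + itP (PS P zs c₁) j q - zs c₁‖) 0 :=
        (((an_zs hz).continuousAt.add (hcont j).1).sub continuousAt_const).norm
      refine h.eventually_lt continuousAt_const ?_
      show ‖zs (c₁ + (0 : ℝ × (ℂ × ℂ)).1) + itP (PS P zs c₁) j 0 - zs c₁‖ < r
      rw [(hcont j).2]
      simpa using hr
    filter_upwards [e1, e2] with q h1 h2 hper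
    rcases Nat.eq_zero_or_pos n with rfl | hn
    · simp [itA]
    set f : ℕ → ℂ × ℂ := fun j => itP (PS P zs c₁) j q with hf
    have hstep : ∀ j, f (j + 1) = PS P zs c₁ (q.1, f j) := fun j => rfl
    have hperiod : Function.Periodic f n := by
      intro j
      induction j with
      | zero =>
        rw [Nat.zero_add]
        exact hper
      | succ j ih =>
        have e3 : j + 1 + n = (j + n) + 1 := by omega
        rw [e3, hstep, hstep, ih]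
    set z : ℕ → ℂ × ℂ := fun j => zs (c₁ + q.1) + f j with hzd
    have hzper : Function.Periodic z n := fun j => by
      show zs (c₁ + q.1) + f (j + n) = zs (c₁ + q.1) + f j
      rw [hperiod j]
    have hchain : ∀ j, z (j + 1) = P (c₁ + q.1, z j) := by
      intro j
      show zs (c₁ + q.1) + f (j + 1) = _
      rw [hstep]
      unfold PS sft
      simp only []
      abel
    have hnear : ∀ j, ‖z j - zs c₁‖ < r := by
      intro j
      rw [← hzper.map_mod_nat j]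
      exact h2 _ (Finset.mem_range.2 (Nat.mod_lt _ hn))
    set A : ℝ := ∑ j ∈ Finset.range n, a (c₁ + q.1, z j) with hA
    have hsum : ∀ k : ℕ, ∑ j ∈ Finset.range (k * n), a (c₁ + q.1, z j) = k * A := by
      intro k
      induction k with
      | zero => simp
      | succ k ih =>
        rw [Nat.succ_mul, Finset.sum_range_add, ih]
        have e3 : ∑ x ∈ Finset.range n, a (c₁ + q.1, z (k * n + x)) = A := by
          rw [hA]
          refine Finset.sum_congr rfl fun x _ => ?_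
          have e4 : z (k * n + x) = z x := by
            rw [add_comm]
            have := (hzper.nsmul k) x
            simpa [mul_comm] using this
          rw [e4]
        rw [e3]
        push_cast
        ring
    have hAk : ∀ k : ℕ, |(k : ℝ) * A| ≤ δ := by
      intro k
      rw [← hsum k]
      exact hbd (c₁ + q.1) (k * n) z (by simpa using h1) (fun j _ => hnear j)
        (fun j _ => hchain j)
    have hA0 : A = 0 := by
      by_contra hne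
      have hpos : 0 < |A| := abs_pos.2 hne
      obtain ⟨k, hk⟩ := exists_nat_gt (δ / |A|)
      have h3 := hAk k
      rw [abs_mul, Nat.abs_cast] at h3
      rw [div_lt_iff₀ hpos] at hk
      linarith
    have htel : itA (PS P zs c₁) (aS P a zs c₁) n q = A +
        ∑ j ∈ Finset.range n, (osB (f (j + 1)) (deriv zs (c₁ + q.1)) -
          osB (f j) (deriv zs (c₁ + q.1))) := by
      rw [hA, ← Finset.sum_add_distrib]
      rfl
    rw [htel, hA0, Finset.sum_range_sub (fun j => osB (f j) (deriv zs (c₁ + q.1)))]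
    have e5 : f n = f 0 := by
      have := hperiod 0
      rwa [Nat.zero_add] at this
    rw [e5, sub_self, add_zero]
  · have tc : Tendsto (fun c : ℝ => (c, (0 : ℂ × ℂ))) (𝓝 0) (𝓝 0) := by
      have h : ContinuousAt (fun c : ℝ => (c, (0 : ℂ × ℂ))) 0 := by fun_prop
      exact h.tendsto
    filter_upwards [tc.eventually edz, tc.eventually edP] with c h1 h2
    rw [dz_PS h1 h2]
    unfold sft
    simp only [add_zero]

end Pool.Agent.MP_5027f4_cont
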