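import Pool.Agent.Lib_MP_5027f4_cont.QDefs

/-!
PIECE [QForm] (MP_5027f4_mp, T3).  The primitive of the one-form `vp F A`.
-/

open Set Filter Topology Metric Polynomial
open scoped ComplexConjugate ContDiff

namespace Pool.Agent.MP_5027f4_cont

/-- Proof.  `ϖ = vp F A` is analytic near `0` (`vp_apply`; `AnalyticAt.fderiv`).  For `p` near `0` its
derivative is (product rule, `F_e = fderiv F p e`, `F_{ee'} = fderiv (fderiv F) p e e'` symmetric because
`F` is analytic at `p`, e.g. `ContDiffAt.isSymmSndFDerivAt`)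
`(fderiv ϖ p e) e' = (fderiv A p e) e'.1 + Im (conj F_e (e'.2 + F_{e'} / 2)) + Im (conj F · F_{ee'}) / 2`.
So `(fderiv ϖ p e) e' - (fderiv ϖ p e') e =
(DA e) e'.1 - (DA e') e.1 + Im (conj F_e e'.2 - conj F_{e'} e.2 + conj F_e F_{e'} / 2 - conj F_{e'} F_e / 2)`,
and `Im (-conj F_{e'} e.2) = Im (conj e.2 F_{e'})`, `Im (-conj F_{e'} F_e) = Im (conj F_e F_{e'})`: this is the
left side of `KeyForm`, so it is zero.  Apply the Poincaré lemma
`Convex.exists_forall_hasFDerivAt_of_fderiv_symmetric` (Mathlib,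
`MeasureTheory.Integral.CurveIntegral.Poincare`) on a small ball, and subtract the value at `0`. -/
theorem exists_sigma {F : ℝ × ℂ → ℂ} {A : ℝ × ℂ → ℝ} (hF : AnalyticAt ℝ F 0) (hA : AnalyticAt ℝ A 0)
    (hk : KeyForm F A) :
    ∃ σ : ℝ × ℂ → ℝ, σ 0 = 0 ∧ ∀ᶠ p in 𝓝 (0 : ℝ × ℂ), HasFDerivAt σ (vp F A p) p := by
  -- differentiability
  have hdiff : ∀ p, AnalyticAt ℝ F p → AnalyticAt ℝ A p → DifferentiableAt ℝ (vp F A) p := by
    intro p hFp hAp
    have h1 : DifferentiableAt ℝ (fun p => conj (F p)) p :=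
      Complex.conjCLE.differentiableAt.comp p hFp.differentiableAt
    have h2 : DifferentiableAt ℝ (fun p => ContinuousLinearMap.snd ℝ ℝ ℂ +
        (2⁻¹ : ℝ) • fderiv ℝ F p) p := by
      have h2' : DifferentiableAt ℝ (fun p => (2⁻¹ : ℝ) • fderiv ℝ F p) p :=
        hFp.fderiv.differentiableAt.const_smul (2⁻¹ : ℝ)
      exact (differentiableAt_const _).add h2'
    have h3 : DifferentiableAt ℝ (fun p => (conj (F p)) • (ContinuousLinearMap.snd ℝ ℝ ℂ +
        (2⁻¹ : ℝ) • fderiv ℝ F p)) p := h1.smul h2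
    have h4 : DifferentiableAt ℝ (fun p => Complex.imCLM.comp ((conj (F p)) •
        (ContinuousLinearMap.snd ℝ ℝ ℂ + (2⁻¹ : ℝ) • fderiv ℝ F p))) p :=
      (differentiableAt_const _).clm_comp h3
    exact (hAp.differentiableAt.smul_const _).add h4
  -- the derivative
  have hder : ∀ p, AnalyticAt ℝ F p → AnalyticAt ℝ A p → ∀ e e' : ℝ × ℂ,
      fderiv ℝ (vp F A) p e e' = fderiv ℝ A p e * e'.1 +
        (conj (fderiv ℝ F p e) * (e'.2 + (2⁻¹ : ℝ) • fderiv ℝ F p e') +
          conj (F p) * ((2⁻¹ : ℝ) • fderiv ℝ (fderiv ℝ F) p e e')).im := by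
    intro p hFp hAp e e'
    have h0 := ((ContinuousLinearMap.apply ℝ ℝ e').hasFDerivAt.comp p
      (hdiff p hFp hAp).hasFDerivAt)
    have h1 : HasFDerivAt (fun p => conj (F p))
        ((Complex.conjCLE : ℂ →L[ℝ] ℂ).comp (fderiv ℝ F p)) p :=
      (Complex.conjCLE : ℂ →L[ℝ] ℂ).hasFDerivAt.comp p hFp.differentiableAt.hasFDerivAt
    have h2 : HasFDerivAt (fun p => fderiv ℝ F p e')
        ((ContinuousLinearMap.apply ℝ ℂ e').comp (fderiv ℝ (fderiv ℝ F) p)) p :=
      (ContinuousLinearMap.apply ℝ ℂ e').hasFDerivAt.comp p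
        hFp.fderiv.differentiableAt.hasFDerivAt
    have h3 := h1.mul ((h2.const_smul (2⁻¹ : ℝ)).const_add e'.2)
    have h4 := Complex.imCLM.hasFDerivAt.comp p h3
    have h5 := (hAp.differentiableAt.hasFDerivAt.mul_const e'.1).add h4
    have h6 : ((ContinuousLinearMap.apply ℝ ℝ e') ∘ vp F A) = ((fun p => A p * e'.1) +
        (Complex.imCLM ∘ fun p => conj (F p) * (e'.2 + (2⁻¹ : ℝ) • fderiv ℝ F p e'))) := by
      funext p
      exact vp_apply F A p e'
    rw [h6] at h0
    have h7 := h0.unique h5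
    have h8 := congrArg (fun L : (ℝ × ℂ) →L[ℝ] ℝ => L e) h7
    have h9 : fderiv ℝ (vp F A) p e e' = ((ContinuousLinearMap.apply ℝ ℝ e').comp
      (fderiv ℝ (vp F A) p)) e := rfl
    rw [h9]
    refine h8.trans ?_
    simp only [_root_.add_apply, ContinuousLinearMap.comp_apply, Pi.smul_apply,
      _root_.smul_apply, Complex.imCLM_apply, ContinuousLinearMap.apply_apply,
      smul_eq_mul, Complex.add_im, Complex.mul_im, Complex.add_re,
      ContinuousLinearEquiv.coe_coe, Complex.conjCLE_apply, Complex.real_smul,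
      Complex.mul_re, Complex.ofReal_re, Complex.ofReal_im, Complex.conj_re, Complex.conj_im]
    ring
  -- closedness
  obtain ⟨ε, hε, hball⟩ := Metric.eventually_nhds_iff_ball.1
    ((hF.eventually_analyticAt.and hA.eventually_analyticAt).and hk)
  have hdo : DifferentiableOn ℝ (vp F A) (Metric.ball (0 : ℝ × ℂ) ε) := fun p hp =>
    (hdiff p (hball p hp).1.1 (hball p hp).1.2).differentiableWithinAt
  obtain ⟨f, hf⟩ := (convex_ball (0 : ℝ × ℂ) ε).exists_forall_hasFDerivAt_of_fderiv_symmetric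
    Metric.isOpen_ball hdo
    (by
      intro p hp e e'
      obtain ⟨⟨hFp, hAp⟩, hkp⟩ := hball p hp
      have hs : fderiv ℝ (fderiv ℝ F) p e e' = fderiv ℝ (fderiv ℝ F) p e' e :=
        (hFp.contDiffAt (n := 2)).isSymmSndFDerivAt (by simp) e e'
      have h1 := hkp e e'
      rw [hder p hFp hAp e e', hder p hFp hAp e' e, hs]
      simp only [Complex.add_im, Complex.mul_im, Complex.add_re, Complex.real_smul,
        Complex.mul_re, Complex.ofReal_re, Complex.ofReal_im, Complex.conj_re,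
        Complex.conj_im] at h1 ⊢
      linear_combination h1)
  refine ⟨fun p => f p - f 0, sub_self _, ?_⟩
  filter_upwards [Metric.ball_mem_nhds (0 : ℝ × ℂ) hε] with p hp
  exact (hf p hp).sub_const _

end Pool.Agent.MP_5027f4_cont
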