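import Pool.Agent.Lib_MP_5027f4_cont.QDefs

/-!
PIECE [QMin] (MP_5027f4_mp, T3).  Existence of critical points by a min-max argument.
-/

open Set Filter Topology Metric Polynomial
open scoped ComplexConjugate ContDiff

namespace Pool.Agent.MP_5027f4_cont

/-- Danskin-type argument: at a local minimum `w` of `max_{x ∈ I} E (x, ·)` with a unique
maximizer `c`, the `w`-derivative at `(c, w)` vanishes (here: is `≥ 0` in every direction). -/
theorem qmin_danskin {E : ℝ × ℂ → ℝ} {D : ℝ × ℂ → ℝ × ℂ →L[ℝ] ℝ} {I : Set ℝ} {U : Set (ℝ × ℂ)}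
    (hU : IsOpen U) (hI : IsCompact I) {w : ℂ} {c : ℝ} (hcI : c ∈ I)
    (hIU : ∀ x ∈ I, (x, w) ∈ U) (hd : ∀ q ∈ U, HasFDerivAt E (D q) q) (hD : ContinuousOn D U)
    (huniq : ∀ x ∈ I, x ≠ c → E (x, w) < E (c, w))
    (hmin : ∀ᶠ w' in 𝓝 w, ∃ x ∈ I, E (c, w) ≤ E (x, w')) (v : ℂ) : 0 ≤ D (c, w) (0, v) := by
  by_contra hneg
  push Not at hneg
  -- neighbourhood where the derivative is negative
  have hev : ∀ᶠ q in 𝓝 (c, w), q ∈ U ∧ D q (0, v) < 0 := by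
    have h1 : ∀ᶠ q in 𝓝 (c, w), q ∈ U := hU.mem_nhds (hIU c hcI)
    have h2 : ContinuousAt (fun q => D q (0, v)) (c, w) :=
      (hD.continuousAt (hU.mem_nhds (hIU c hcI))).clm_apply continuousAt_const
    exact h1.and (h2.eventually (Iio_mem_nhds hneg))
  obtain ⟨θ, hθ, hball⟩ := Metric.eventually_nhds_iff_ball.1 hev
  -- the sequence
  have htend : Tendsto (fun n : ℕ => w + ((1 / ((n : ℝ) + 1) : ℝ) : ℂ) * v) atTop (𝓝 w) := by
    have h1 : Tendsto (fun n : ℕ => ((1 / ((n : ℝ) + 1) : ℝ) : ℂ)) atTop (𝓝 ((0 : ℝ) : ℂ)) :=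
      (Complex.continuous_ofReal.tendsto 0).comp tendsto_one_div_add_atTop_nhds_zero_nat
    have h2 := (h1.mul_const v).const_add w
    simpa using h2
  have hsel : ∃ N : ℕ, ∀ n ≥ N, ∃ x ∈ I, E (c, w) ≤ E (x, w + ((1 / ((n : ℝ) + 1) : ℝ) : ℂ) * v) :=
    eventually_atTop.1 (htend.eventually hmin)
  obtain ⟨N, hN⟩ := hsel
  choose x hxI hxE using fun n : ℕ => hN (n + N) (Nat.le_add_left N n)
  obtain ⟨y, hyI, φ, hφ, hlim⟩ := hI.tendsto_subseq hxI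
  have htend' : Tendsto (fun n : ℕ => w + ((1 / (((φ n + N : ℕ) : ℝ) + 1) : ℝ) : ℂ) * v) atTop (𝓝 w) :=
    htend.comp ((tendsto_add_atTop_nat N).comp hφ.tendsto_atTop)
  have hpair : Tendsto (fun n : ℕ => (x (φ n), w + ((1 / (((φ n + N : ℕ) : ℝ) + 1) : ℝ) : ℂ) * v))
      atTop (𝓝 (y, w)) := hlim.prodMk_nhds htend'
  have hEy : E (c, w) ≤ E (y, w) := by
    have hcont : ContinuousAt E (y, w) := (hd _ (hIU y hyI)).continuousAt
    exact ge_of_tendsto' (hcont.tendsto.comp hpair) (fun n => hxE (φ n))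
  have hyc : y = c := by
    by_contra hne
    exact absurd hEy (not_le.2 (huniq y hyI hne))
  subst hyc
  obtain ⟨n, hn⟩ := (hpair.eventually (Metric.ball_mem_nhds (y, w) hθ)).exists
  set t : ℝ := 1 / (((φ n + N : ℕ) : ℝ) + 1) with ht
  have ht0 : 0 < t := by positivity
  rw [Prod.dist_eq, max_lt_iff] at hn
  obtain ⟨hn1, hn2⟩ := hn
  simp only at hn1 hn2
  have hseg : ∀ s ∈ Icc (0 : ℝ) t, (x (φ n), w + (s : ℂ) * v) ∈ ball (y, w) θ := by
    intro s hs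
    rw [mem_ball, Prod.dist_eq, max_lt_iff]
    refine ⟨hn1, ?_⟩
    simp only
    rw [dist_eq_norm] at hn2 ⊢
    have e1 : w + (s : ℂ) * v - w = (s : ℂ) * v := by ring
    have e2 : w + (t : ℂ) * v - w = (t : ℂ) * v := by ring
    rw [e2] at hn2
    rw [e1]
    refine lt_of_le_of_lt ?_ hn2
    rw [norm_mul, norm_mul, Complex.norm_real, Complex.norm_real, Real.norm_of_nonneg hs.1,
      Real.norm_of_nonneg ht0.le]
    exact mul_le_mul_of_nonneg_right hs.2 (norm_nonneg v)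
  have hder : ∀ s ∈ Icc (0 : ℝ) t, HasDerivAt (fun s : ℝ => E (x (φ n), w + (s : ℂ) * v))
      (D (x (φ n), w + (s : ℂ) * v) (0, v)) s := by
    intro s hs
    have h1 := hd _ (hball _ (hseg s hs)).1
    have h2 : HasDerivAt (fun s : ℝ => (x (φ n), w + (s : ℂ) * v)) ((0 : ℝ), v) s := by
      have h3 : HasDerivAt (fun s : ℝ => w + (s : ℂ) * v) v s := by
        have := ((Complex.ofRealCLM.hasDerivAt (x := s)).mul_const v).const_add w
        simpa using this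
      exact (hasDerivAt_const s _).prodMk h3
    exact h1.comp_hasDerivAt s h2
  obtain ⟨s, hs, hse⟩ := exists_hasDerivAt_eq_slope (fun s : ℝ => E (x (φ n), w + (s : ℂ) * v))
    (fun s => D (x (φ n), w + (s : ℂ) * v) (0, v)) ht0
    (fun s hs => (hder s hs).continuousAt.continuousWithinAt)
    (fun s hs => hder s (Ioo_subset_Icc_self hs))
  have hsneg := (hball _ (hseg s (Ioo_subset_Icc_self hs))).2
  rw [hse] at hsneg
  have h5 : E (x (φ n), w + (t : ℂ) * v) < E (x (φ n), w) := by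
    have h6 : E (x (φ n), w + (t : ℂ) * v) - E (x (φ n), w + ((0 : ℝ) : ℂ) * v) < 0 := by
      by_contra h7
      push Not at h7
      exact absurd (div_nonneg h7 (by linarith : (0 : ℝ) ≤ t - 0)) (not_le.2 hsneg)
    simp only [Complex.ofReal_zero, zero_mul, add_zero] at h6
    linarith
  have h8 : E (x (φ n), w) ≤ E (y, w) := by
    by_cases hxy : x (φ n) = y
    · rw [hxy]
    · exact (huniq _ (hxI _) hxy).le
  have h9 := hxE (φ n)
  rw [← ht] at h9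
  linarith

/-- `WLOG` form of the piece: `α > 0`, `H ≥ 1`. -/
theorem qmin_core {σ : ℝ × ℂ → ℝ} {ϖ : ℝ × ℂ → ℝ × ℂ →L[ℝ] ℝ} {r H α : ℝ} (hr : 0 < r)
    (hα : 0 < α) (hH : 1 ≤ H)
    (hd : ∀ q : ℝ × ℂ, ‖q‖ < r → HasFDerivAt σ (ϖ q) q) (hc : ContinuousOn ϖ (ball 0 r))
    (hg : ∀ η > 0, ∃ δ > 0, ∀ (c : ℝ) (w : ℂ), |c| < δ → ‖w‖ < δ →
      |ϖ (c, w) (1, 0) - α * ‖w‖ ^ 2 / 2| ≤ η * ‖w‖ ^ 2)
    (hg2 : ∀ (c c' : ℝ) (w : ℂ), |c| < r → |c'| < r → ‖w‖ < r →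
      |ϖ (c, w) (1, 0) - ϖ (c', w) (1, 0)| ≤ H * ‖w‖ ^ 2 * |c - c'|)
    (hσ : ∀ w : ℂ, ‖w‖ < r → |σ (0, w)| ≤ H * ‖w‖ ^ 3) {ε : ℝ} (hε : 0 < ε) :
    ∃ (c : ℝ) (w : ℂ), |c| < ε ∧ ‖w‖ < ε ∧ w ≠ 0 ∧ ∀ v : ℂ, ϖ (c, w) (0, v) = 0 := by
  obtain ⟨δ, hδ, hgδ⟩ := hg (α / 64) (by positivity)
  obtain ⟨d, hd0, hdδ, hdε, hdr⟩ : ∃ d : ℝ, 0 < d ∧ d < δ ∧ d < ε ∧ d < r := by
    have h0 : 0 < min (min δ ε) r := lt_min (lt_min hδ hε) hr
    refine ⟨min (min δ ε) r / 2, by positivity, ?_, ?_, ?_⟩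
    · have := (min_le_left (min δ ε) r).trans (min_le_left δ ε); linarith
    · have := (min_le_left (min δ ε) r).trans (min_le_right δ ε); linarith
    · have := min_le_right (min δ ε) r; linarith
  have hH0 : 0 < H := by linarith
  obtain ⟨K, hKdef⟩ : ∃ K : ℝ, K = α ^ 2 / (1024 * H) := ⟨_, rfl⟩
  have hK : 0 < K := by rw [hKdef]; positivity
  have hKH : α ^ 2 = 1024 * H * K := by rw [hKdef]; field_simp
  obtain ⟨ρ, hρ, hρ1, hρ2, hρ3⟩ : ∃ ρ : ℝ, 0 < ρ ∧ 2 * ρ < d ∧ 4 * H * ρ < K ∧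
      α * ρ / (8 * K) < d := by
    have h0 : 0 < min (min (d / 4) (K / (8 * H))) (4 * K * d / α) := by positivity
    refine ⟨_, h0, ?_, ?_, ?_⟩
    · have := (min_le_left (min (d / 4) (K / (8 * H))) (4 * K * d / α)).trans (min_le_left _ _)
      linarith
    · have := (min_le_left (min (d / 4) (K / (8 * H))) (4 * K * d / α)).trans (min_le_right _ _)
      rw [le_div_iff₀ (by positivity)] at this
      nlinarith
    · have := min_le_right (min (d / 4) (K / (8 * H))) (4 * K * d / α)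
      rw [le_div_iff₀ (by positivity)] at this
      rw [div_lt_iff₀ (by positivity)]
      nlinarith [mul_pos hK hd0]
  -- mean value theorem in `c`
  have hcder : ∀ (x : ℝ) (w : ℂ), |x| < r → ‖w‖ < r →
      HasDerivAt (fun x : ℝ => σ (x, w)) (ϖ (x, w) (1, 0)) x := by
    intro x w hx hw
    have hq : ‖((x, w) : ℝ × ℂ)‖ < r := by
      rw [Prod.norm_def]; exact max_lt (by simpa using hx) hw
    exact (hd _ hq).comp_hasDerivAt x ((hasDerivAt_id x).prodMk (hasDerivAt_const x w))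
  have hmv : ∀ (x : ℝ) (w : ℂ), |x| ≤ d → ‖w‖ < r →
      ∃ ξ : ℝ, |ξ| ≤ d ∧ σ (x, w) = σ (0, w) + ϖ (ξ, w) (1, 0) * x := by
    intro x w hx hw
    have hder : ∀ s ∈ Icc (0 : ℝ) 1, HasDerivAt (fun s : ℝ => σ (s * x, w))
        (ϖ (s * x, w) (1, 0) * x) s := by
      intro s hs
      have hsx : |s * x| < r := by
        rw [abs_mul, abs_of_nonneg hs.1]
        have := mul_le_mul_of_nonneg_right hs.2 (abs_nonneg x)
        linarith
      have h1 := hcder (s * x) w hsx hw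
      have h2 : HasDerivAt (fun s : ℝ => s * x) x s := by
        simpa using (hasDerivAt_id s).mul_const x
      exact h1.comp s h2
    obtain ⟨s, hs, hse⟩ := exists_hasDerivAt_eq_slope (fun s : ℝ => σ (s * x, w))
      (fun s => ϖ (s * x, w) (1, 0) * x) one_pos
      (fun s hs => (hder s hs).continuousAt.continuousWithinAt)
      (fun s hs => hder s (Ioo_subset_Icc_self hs))
    refine ⟨s * x, ?_, ?_⟩
    · rw [abs_mul, abs_of_nonneg hs.1.le]
      have := mul_le_mul_of_nonneg_right hs.2.le (abs_nonneg x)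
      linarith
    · simp only [one_mul, zero_mul, sub_zero, div_one] at hse
      linarith
  -- the function `E`
  obtain ⟨κ, hκ⟩ : ∃ κ : ℝ, κ = α * ρ ^ 2 / 2 := ⟨_, rfl⟩
  obtain ⟨N, hN⟩ : ∃ N : ℝ, N = K * ρ := ⟨_, rfl⟩
  have hN0 : 0 < N := by rw [hN]; positivity
  obtain ⟨E, hE⟩ : ∃ E : ℝ × ℂ → ℝ, E = fun q => σ q - κ * q.1 - N * q.1 ^ 2 / 2 := ⟨_, rfl⟩
  have hEv : ∀ (x : ℝ) (w : ℂ), E (x, w) = σ (x, w) - κ * x - N * x ^ 2 / 2 := by
    intro x w; rw [hE]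
  obtain ⟨D, hD⟩ : ∃ D : ℝ × ℂ → ℝ × ℂ →L[ℝ] ℝ, D = fun q =>
      ϖ q - κ • ContinuousLinearMap.fst ℝ ℝ ℂ - (N * q.1) • ContinuousLinearMap.fst ℝ ℝ ℂ :=
    ⟨_, rfl⟩
  have hDE : ∀ q ∈ ball (0 : ℝ × ℂ) r, HasFDerivAt E (D q) q := by
    intro q hq
    have h1 := hd q (by simpa using hq)
    have h2 : HasFDerivAt (fun q : ℝ × ℂ => q.1) (ContinuousLinearMap.fst ℝ ℝ ℂ) q :=
      hasFDerivAt_fst
    have h3 := h2.const_mul κ
    have h4 := ((h2.pow 2).const_mul N).const_mul (1 / 2 : ℝ)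
    have h5 := (h1.sub h3).sub h4
    rw [hE, hD]
    refine (h5.congr_fderiv ?_).congr_of_eventuallyEq (Eventually.of_forall fun x => ?_)
    · ext y <;> simp
      ring
    · simp only [Pi.sub_apply]
      ring
  have hDc : ContinuousOn D (ball 0 r) := by
    rw [hD]
    refine (hc.sub continuousOn_const).sub ?_
    exact ((continuousOn_const.mul continuousOn_fst).smul continuousOn_const)
  have hDv : ∀ (q : ℝ × ℂ) (v : ℂ), D q (0, v) = ϖ q (0, v) := by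
    intro q v; rw [hD]; simp
  have hU : ∀ (x : ℝ) (w : ℂ), |x| ≤ d → ‖w‖ ≤ 2 * ρ → (x, w) ∈ ball (0 : ℝ × ℂ) r := by
    intro x w hx hw
    rw [mem_ball_zero_iff, Prod.norm_def]
    exact max_lt (by simpa using lt_of_le_of_lt hx hdr) (by linarith)
  have hEcont : ∀ (x : ℝ) (w : ℂ), |x| ≤ d → ‖w‖ ≤ 2 * ρ → ContinuousAt E (x, w) := by
    intro x w hx hw
    exact (hDE _ (hU x w hx hw)).continuousAt
  -- maximizer in `c`
  have hmax : ∀ w : ℂ, ∃ x : ℝ, ‖w‖ ≤ 2 * ρ → |x| ≤ d ∧ ∀ y : ℝ, |y| ≤ d → E (y, w) ≤ E (x, w) := by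
    intro w
    by_cases hw : ‖w‖ ≤ 2 * ρ
    · have hcont : ContinuousOn (fun x : ℝ => E (x, w)) (Icc (-d) d) := by
        intro x hx
        have h1 := hEcont x w (abs_le.2 hx) hw
        exact (h1.comp (f := fun x : ℝ => (x, w)) (by fun_prop)).continuousWithinAt
      obtain ⟨x, hx, hmx⟩ := isCompact_Icc.exists_isMaxOn
        (nonempty_Icc.2 (by linarith : -d ≤ d)) hcont
      exact ⟨x, fun _ => ⟨abs_le.2 hx, fun y hy => hmx (abs_le.1 hy)⟩⟩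
    · exact ⟨0, fun h => absurd h hw⟩
  choose cw hcw using hmax
  -- uniqueness of the maximizer
  have huniq : ∀ w : ℂ, ‖w‖ ≤ 2 * ρ → ∀ x y : ℝ, |x| ≤ d → |y| ≤ d →
      (∀ z : ℝ, |z| ≤ d → E (z, w) ≤ E (x, w)) → (∀ z : ℝ, |z| ≤ d → E (z, w) ≤ E (y, w)) →
      x = y := by
    intro w hw x y hx hy hmx hmy
    have hder : ∀ z ∈ Icc (-d) d, HasDerivAt (fun z : ℝ => E (z, w))
        (ϖ (z, w) (1, 0) - κ - N * z) z := by
      intro z hz
      have h1 := hcder z w (lt_of_le_of_lt (abs_le.2 hz) hdr) (by linarith)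
      have h2 := (h1.sub ((hasDerivAt_id z).const_mul κ)).sub
        (((hasDerivAt_id z).pow 2).const_mul (N / 2))
      refine (h2.congr_deriv ?_).congr_of_eventuallyEq (Eventually.of_forall fun t => ?_)
      · simp; ring
      · simp only [Pi.sub_apply, Pi.pow_apply, id, hEv]; ring
    have hcont : ContinuousOn (fun x : ℝ => E (x, w)) (Icc (-d) d) :=
      fun z hz => (hder z hz).continuousAt.continuousWithinAt
    have hanti : StrictAntiOn (deriv (fun z : ℝ => E (z, w))) (interior (Icc (-d) d)) := by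
      rw [interior_Icc]
      intro a ha b hb hab
      rw [(hder a (Ioo_subset_Icc_self ha)).deriv, (hder b (Ioo_subset_Icc_self hb)).deriv]
      have h1 := hg2 a b w (lt_trans (abs_lt.2 ha) hdr) (lt_trans (abs_lt.2 hb) hdr) (by linarith)
      rw [abs_sub_comm a b, abs_of_pos (sub_pos.2 hab)] at h1
      have h2 := (abs_le.1 h1).1
      have h3 : H * ‖w‖ ^ 2 * (b - a) ≤ H * (2 * ρ) ^ 2 * (b - a) := by
        have : ‖w‖ ^ 2 ≤ (2 * ρ) ^ 2 := pow_le_pow_left₀ (norm_nonneg w) hw 2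
        have h4 : 0 < b - a := sub_pos.2 hab
        gcongr
      have h4 : H * (2 * ρ) ^ 2 * (b - a) < N * (b - a) := by
        have : H * (2 * ρ) ^ 2 < N := by rw [hN]; nlinarith
        exact mul_lt_mul_of_pos_right this (sub_pos.2 hab)
      linarith
    have hsc := hanti.strictConcaveOn_of_deriv (convex_Icc (-d) d) hcont
    exact hsc.eq_of_isMaxOn (fun z hz => hmx z (abs_le.2 hz)) (fun z hz => hmy z (abs_le.2 hz))
      (abs_le.1 hx) (abs_le.1 hy)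
  -- the reduced function
  obtain ⟨M, hM⟩ : ∃ M : ℂ → ℝ, M = fun w => E (cw w, w) := ⟨_, rfl⟩
  have hMge : ∀ w : ℂ, ‖w‖ ≤ 2 * ρ → ∀ x : ℝ, |x| ≤ d → E (x, w) ≤ M w := by
    intro w hw x hx; rw [hM]; exact (hcw w hw).2 x hx
  -- the annulus
  obtain ⟨A, hA⟩ : ∃ A : Set ℂ, A = {w : ℂ | ρ / 2 ≤ ‖w‖ ∧ ‖w‖ ≤ 2 * ρ} := ⟨_, rfl⟩
  have hAc : IsCompact A := by
    have h1 : IsClosed A := by
      rw [hA]
      exact (isClosed_le continuous_const continuous_norm).inter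
        (isClosed_le continuous_norm continuous_const)
    refine (isCompact_closedBall (0 : ℂ) (2 * ρ)).of_isClosed_subset h1 ?_
    intro w hw
    rw [hA] at hw
    simpa using hw.2
  have hρA : (ρ : ℂ) ∈ A := by
    rw [hA]
    simp only [mem_ofPred_eq, Complex.norm_real, Real.norm_of_nonneg hρ.le]
    constructor <;> linarith
  have hlsc : LowerSemicontinuousOn M A := by
    intro w hw y hy
    rw [hA] at hw
    have h1 := hEcont (cw w) w (hcw w hw.2).1 hw.2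
    have h2 : ContinuousAt (fun w' : ℂ => E (cw w, w')) w :=
      h1.comp (f := fun w' : ℂ => (cw w, w')) (by fun_prop)
    have h3 : ∀ᶠ w' in 𝓝 w, y < E (cw w, w') := by
      refine h2.eventually (Ioi_mem_nhds ?_)
      rw [hM] at hy; exact hy
    have h4 : ∀ᶠ w' in 𝓝[A] w, y < E (cw w, w') := h3.filter_mono nhdsWithin_le_nhds
    filter_upwards [h4, self_mem_nhdsWithin] with w' hw' hw'A
    rw [hA] at hw'A
    exact lt_of_lt_of_le hw' (hMge w' hw'A.2 _ (hcw w hw.2).1)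
  obtain ⟨w, hwA, hwmin⟩ := hlsc.exists_isMinOn ⟨_, hρA⟩ hAc
  -- estimates
  obtain ⟨s, hs⟩ : ∃ s : ℝ, s = α * ρ / K := ⟨_, rfl⟩
  have hs0 : 0 < s := by rw [hs]; positivity
  have hαs : α * ρ = s * K := by rw [hs]; field_simp
  have hHs : H * ρ ^ 2 = s ^ 2 * K / 1024 := by
    have h1 : α ^ 2 * ρ ^ 2 = s ^ 2 * K ^ 2 := by rw [← mul_pow, hαs]; ring
    rw [hKH] at h1
    have h2 : K * (1024 * (H * ρ ^ 2)) = K * (s ^ 2 * K) := by linarith
    have h3 := mul_left_cancel₀ hK.ne' h2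
    linarith
  have hHs3 : H * ρ ^ 3 = s ^ 2 * K * ρ / 1024 := by
    have : H * ρ ^ 3 = H * ρ ^ 2 * ρ := by ring
    rw [this, hHs]; ring
  have hsd : s / 8 ≤ d := by
    have : s / 8 = α * ρ / (8 * K) := by rw [hs]; field_simp
    rw [this]; exact hρ3.le
  have hKρs : 0 < K * ρ * s ^ 2 := by positivity
  have hMρ : M (ρ : ℂ) ≤ 2 * H * ρ ^ 3 := by
    have hρn : ‖(ρ : ℂ)‖ = ρ := by rw [Complex.norm_real, Real.norm_of_nonneg hρ.le]
    have hcρ := hcw (ρ : ℂ) (by rw [hρn]; linarith)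
    obtain ⟨x, hx⟩ : ∃ x : ℝ, x = cw (ρ : ℂ) := ⟨_, rfl⟩
    rw [← hx] at hcρ
    obtain ⟨ξ, hξ, hξe⟩ := hmv x (ρ : ℂ) hcρ.1 (by rw [hρn]; linarith)
    have hM' : M (ρ : ℂ) = E (x, (ρ : ℂ)) := by rw [hM, hx]
    rw [hM', hEv, hξe]
    have h1 := hσ (ρ : ℂ) (by rw [hρn]; linarith)
    have h2 := hgδ ξ (ρ : ℂ) (lt_of_le_of_lt hξ hdδ) (by rw [hρn]; linarith)
    rw [hρn] at h1 h2
    have h3 := le_of_abs_le h1
    have h4 : (ϖ (ξ, (ρ : ℂ)) (1, 0) - κ) * x ≤ α / 64 * ρ ^ 2 * |x| := by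
      have h5 : (ϖ (ξ, (ρ : ℂ)) (1, 0) - κ) * x ≤ |ϖ (ξ, (ρ : ℂ)) (1, 0) - κ| * |x| := by
        rw [← abs_mul]; exact le_abs_self _
      refine h5.trans ?_
      rw [hκ]
      exact mul_le_mul_of_nonneg_right h2 (abs_nonneg x)
    have h5 : α / 64 * ρ ^ 2 * |x| = K * ρ * (s * |x| / 64) := by
      have : α / 64 * ρ ^ 2 * |x| = (α * ρ) * ρ * |x| / 64 := by ring
      rw [this, hαs]; ring
    have h6 : K * ρ * (s * |x| / 64) ≤ K * ρ * (s ^ 2 / 1024 + x ^ 2 / 2) := by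
      refine mul_le_mul_of_nonneg_left ?_ (by positivity)
      linarith [sq_nonneg (s - 8 * |x|), sq_abs x, sq_nonneg x]
    have h7 : N * x ^ 2 / 2 = K * ρ * (x ^ 2 / 2) := by rw [hN]; ring
    have h8 : K * ρ * (s ^ 2 / 1024 + x ^ 2 / 2) = s ^ 2 * K * ρ / 1024 + K * ρ * (x ^ 2 / 2) := by
      ring
    have h10 : 2 * H * ρ ^ 3 = 2 * (H * ρ ^ 3) := by ring
    rw [h10]
    linarith
  have hM2 : ∀ w : ℂ, ‖w‖ = 2 * ρ → 2 * H * ρ ^ 3 < M w := by
    intro w hw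
    have hxd : |s / 8| ≤ d := by rw [abs_of_pos (by positivity)]; exact hsd
    refine lt_of_lt_of_le ?_ (hMge w hw.le (s / 8) hxd)
    obtain ⟨ξ, hξ, hξe⟩ := hmv (s / 8) w hxd (by linarith)
    rw [hEv, hξe]
    have h1 := hσ w (by linarith)
    have h2 := hgδ ξ w (lt_of_le_of_lt hξ hdδ) (by linarith)
    rw [hw] at h1 h2
    have h3 := neg_le_of_abs_le h1
    have h4 := (abs_le.1 h2).1
    have h5 : α * ρ ^ 2 ≤ ϖ (ξ, w) (1, 0) - κ := by
      rw [hκ]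
      linarith [mul_pos hα (pow_pos hρ 2)]
    have h6 : α * ρ ^ 2 * (s / 8) ≤ (ϖ (ξ, w) (1, 0) - κ) * (s / 8) :=
      mul_le_mul_of_nonneg_right h5 (by positivity)
    have h7 : α * ρ ^ 2 * (s / 8) = K * ρ * s ^ 2 / 8 := by
      have : α * ρ ^ 2 * (s / 8) = (α * ρ) * ρ * s / 8 := by ring
      rw [this, hαs]; ring
    have h8 : N * (s / 8) ^ 2 / 2 = K * ρ * s ^ 2 / 128 := by rw [hN]; ring
    have h9 : H * (2 * ρ) ^ 3 = 8 * (H * ρ ^ 3) := by ring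
    rw [h9, hHs3] at h3
    rw [h7] at h6
    rw [h8]
    have h10 : 2 * H * ρ ^ 3 = 2 * (H * ρ ^ 3) := by ring
    rw [h10, hHs3]
    linarith
  have hM1 : ∀ w : ℂ, ‖w‖ = ρ / 2 → 2 * H * ρ ^ 3 < M w := by
    intro w hw
    have hxd : |(-(s / 8))| ≤ d := by rw [abs_neg, abs_of_pos (by positivity)]; exact hsd
    refine lt_of_lt_of_le ?_ (hMge w (by linarith) (-(s / 8)) hxd)
    obtain ⟨ξ, hξ, hξe⟩ := hmv (-(s / 8)) w hxd (by linarith)
    rw [hEv, hξe]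
    have h1 := hσ w (by linarith)
    have h2 := hgδ ξ w (lt_of_le_of_lt hξ hdδ) (by linarith)
    rw [hw] at h1 h2
    have h3 := neg_le_of_abs_le h1
    have h4 := (abs_le.1 h2).2
    have h5 : α * ρ ^ 2 / 4 ≤ κ - ϖ (ξ, w) (1, 0) := by
      rw [hκ]
      linarith [mul_pos hα (pow_pos hρ 2)]
    have h6 : α * ρ ^ 2 / 4 * (s / 8) ≤ (κ - ϖ (ξ, w) (1, 0)) * (s / 8) :=
      mul_le_mul_of_nonneg_right h5 (by positivity)
    have h7 : α * ρ ^ 2 / 4 * (s / 8) = K * ρ * s ^ 2 / 32 := by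
      have : α * ρ ^ 2 / 4 * (s / 8) = (α * ρ) * ρ * s / 32 := by ring
      rw [this, hαs]; ring
    have h8 : N * (-(s / 8)) ^ 2 / 2 = K * ρ * s ^ 2 / 128 := by rw [hN]; ring
    have h9 : H * (ρ / 2) ^ 3 = (H * ρ ^ 3) / 8 := by ring
    rw [h9, hHs3] at h3
    rw [h7] at h6
    rw [h8]
    have h10 : 2 * H * ρ ^ 3 = 2 * (H * ρ ^ 3) := by ring
    rw [h10, hHs3]
    linarith
  have hMw : M w ≤ 2 * H * ρ ^ 3 := (hwmin hρA).trans hMρ
  rw [hA] at hwA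
  have hw1 : ρ / 2 < ‖w‖ := lt_of_le_of_ne hwA.1 fun h => absurd hMw (not_le.2 (hM1 w h.symm))
  have hw2 : ‖w‖ < 2 * ρ := lt_of_le_of_ne hwA.2 fun h => absurd hMw (not_le.2 (hM2 w h))
  have hcw' := hcw w hwA.2
  have key : ∀ v : ℂ, 0 ≤ ϖ (cw w, w) (0, v) := by
    intro v
    rw [← hDv]
    refine qmin_danskin (I := Icc (-d) d) isOpen_ball isCompact_Icc (abs_le.1 hcw'.1)
      (fun x hx => hU x w (abs_le.2 hx) hwA.2) hDE hDc ?_ ?_ v
    · intro x hx hne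
      refine lt_of_le_of_ne (hcw'.2 x (abs_le.2 hx)) fun h => hne ?_
      refine huniq w hwA.2 x (cw w) (abs_le.2 hx) hcw'.1 ?_ hcw'.2
      intro z hz
      rw [h]; exact hcw'.2 z hz
    · have h1 : ∀ᶠ w' in 𝓝 w, ρ / 2 < ‖w'‖ ∧ ‖w'‖ < 2 * ρ :=
        (continuous_norm.continuousAt.eventually (Ioo_mem_nhds hw1 hw2))
      filter_upwards [h1] with w' hw'
      refine ⟨cw w', abs_le.1 (hcw w' hw'.2.le).1, ?_⟩
      have h2 : w' ∈ A := by rw [hA]; exact ⟨hw'.1.le, hw'.2.le⟩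
      have h3 := hwmin h2
      simp only [mem_ofPred_eq] at h3
      rw [hM] at h3
      exact h3
  refine ⟨cw w, w, lt_of_le_of_lt hcw'.1 hdε, by linarith, ?_, ?_⟩
  · intro h
    rw [h, norm_zero] at hw1
    linarith
  · intro v
    refine le_antisymm ?_ (key v)
    have h1 := key (-v)
    have h2 : ((0 : ℝ), -v) = -((0 : ℝ), v) := by simp
    rw [h2, map_neg] at h1
    linarith

/-- Bifurcation of critical points `w ≠ 0` of `σ (c, ·)`, if `∂σ/∂c (c, w) = α |w|² / 2 + o(|w|²)`,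
`α ≠ 0`, `σ (0, w) = O(|w|³)`.

Proof.  WLOG `α > 0` (else replace `σ, ϖ, α` by their negatives), `H ≥ 1`.  Put `g (c, w) = ϖ (c, w) (1, 0)`
(`= ∂σ/∂c`), `η = α / 64`, `δ` from `hg η`, `K = α² / (1024 H)`, and for small `ρ > 0`:
`κ = α ρ² / 2`, `N = K ρ`, `E (c, w) = σ (c, w) - κ c - N c² / 2`, on the compact set
`c ∈ [-d, d]` (`d < min δ ε r` fixed), `w ∈ 𝒜 = {ρ / 2 ≤ |w| ≤ 2 ρ}`.  The reduced function
`M w = max_{|c| ≤ d} E (c, w)` is larger on the boundary of `𝒜` than on the circle `|w| = ρ`, so it has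
an interior minimum `w`; by strict concavity in `c` the maximizer is unique and `qmin_danskin`
applies. -/
theorem minmax {σ : ℝ × ℂ → ℝ} {ϖ : ℝ × ℂ → ℝ × ℂ →L[ℝ] ℝ} {r H α : ℝ} (hr : 0 < r) (hα : α ≠ 0)
    (hd : ∀ q : ℝ × ℂ, ‖q‖ < r → HasFDerivAt σ (ϖ q) q) (hc : ContinuousOn ϖ (ball 0 r))
    (hg : ∀ η > 0, ∃ δ > 0, ∀ (c : ℝ) (w : ℂ), |c| < δ → ‖w‖ < δ →
      |ϖ (c, w) (1, 0) - α * ‖w‖ ^ 2 / 2| ≤ η * ‖w‖ ^ 2)
    (hg2 : ∀ (c c' : ℝ) (w : ℂ), |c| < r → |c'| < r → ‖w‖ < r →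
      |ϖ (c, w) (1, 0) - ϖ (c', w) (1, 0)| ≤ H * ‖w‖ ^ 2 * |c - c'|)
    (hσ : ∀ w : ℂ, ‖w‖ < r → |σ (0, w)| ≤ H * ‖w‖ ^ 3) {ε : ℝ} (hε : 0 < ε) :
    ∃ (c : ℝ) (w : ℂ), |c| < ε ∧ ‖w‖ < ε ∧ w ≠ 0 ∧ ∀ v : ℂ, ϖ (c, w) (0, v) = 0 := by
  have hHH : H ≤ max H 1 := le_max_left _ _
  have hg2' : ∀ (c c' : ℝ) (w : ℂ), |c| < r → |c'| < r → ‖w‖ < r →
      |ϖ (c, w) (1, 0) - ϖ (c', w) (1, 0)| ≤ max H 1 * ‖w‖ ^ 2 * |c - c'| := by
    intro c c' w h1 h2 h3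
    exact (hg2 c c' w h1 h2 h3).trans (by gcongr)
  have hσ' : ∀ w : ℂ, ‖w‖ < r → |σ (0, w)| ≤ max H 1 * ‖w‖ ^ 3 := by
    intro w hw
    exact (hσ w hw).trans (by gcongr)
  rcases lt_or_gt_of_ne hα with h | h
  · obtain ⟨c, w, h1, h2, h3, h4⟩ := qmin_core (σ := fun q => -σ q) (ϖ := fun q => -ϖ q)
      (α := -α) hr (by linarith) (le_max_right H 1) (fun q hq => (hd q hq).neg) hc.neg
      (by
        intro η hη
        obtain ⟨δ, hδ, h⟩ := hg η hη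
        refine ⟨δ, hδ, fun c w hc hw => ?_⟩
        have := h c w hc hw
        rw [← abs_neg] at this
        refine le_trans (le_of_eq ?_) this
        congr 1
        simp only [neg_apply]
        ring)
      (by
        intro c c' w h1 h2 h3
        have := hg2' c c' w h1 h2 h3
        rw [← abs_neg] at this
        refine le_trans (le_of_eq ?_) this
        congr 1
        simp only [neg_apply]
        ring)
      (by
        intro w hw
        simpa using hσ' w hw) hε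
    refine ⟨c, w, h1, h2, h3, fun v => ?_⟩
    have := h4 v
    simp only [neg_apply, neg_eq_zero] at this
    exact this
  · exact qmin_core hr h (le_max_right H 1) hd hc hg hg2' hσ' hε

end Pool.Agent.MP_5027f4_cont
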