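import Pool.Agent.Lib_MP_5027f4_cont.QVee
import Pool.Agent.Lib_MP_5027f4_cont.QForm
import Pool.Agent.Lib_MP_5027f4_cont.QEst
import Pool.Agent.Lib_MP_5027f4_cont.QMin

/-!
# Bifurcation of periodic points with drift (assembly of the local argument, MP_5027f4_mp, T3)
-/

open Set Filter Topology Metric Polynomial
open scoped ComplexConjugate ContDiff

namespace Pool.Agent.MP_5027f4_cont

variable {P : ℝ × (ℂ × ℂ) → ℂ × ℂ} {a : ℝ × (ℂ × ℂ) → ℝ}

/-- If the multiplier `1` (in the first factor) moves with nonzero speed `α`, there are fixed points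
near `0` with nonzero displacement. -/
theorem alpha_zero (h : Fam P a) {ν : ℂ} (hν : ν ≠ 1)
    (h0 : ∀ z : ℂ × ℂ, dz P 0 z = (z.1, ν * z.2)) {α : ℝ}
    (h1 : ∀ w : ℂ, HasDerivAt (fun c : ℝ => (dz P (c, 0) (w, 0)).1) ((α : ℂ) * Complex.I * w) 0)
    (hnd : ∀ᶠ q in 𝓝 (0 : ℝ × (ℂ × ℂ)), P q = q.2 → a q = 0) : α = 0 := by
  obtain ⟨V, hV, hV0, hV1, hVf⟩ := exists_V h hν h0
  have hV00 : V 0 = 0 := hV0.self_of_nhds
  -- the reduced map and the reduced displacement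
  set τ : ℝ × ℂ → ℝ × (ℂ × ℂ) := fun p => (p.1, (p.2, V p)) with hτ
  have hτ0 : τ 0 = 0 := by
    rw [hτ]
    simp only [hV00]
    rfl
  have hτan : AnalyticAt ℝ τ 0 := analyticAt_fst.prod (analyticAt_snd.prod hV)
  set F : ℝ × ℂ → ℂ := fun p => (P (p.1, (p.2, V p))).1 - p.2 with hFdef
  set A : ℝ × ℂ → ℝ := fun p => a (p.1, (p.2, V p)) with hAdef
  have hP0 : AnalyticAt ℝ P (τ 0) := by rw [hτ0]; exact h.anP
  have ha0 : AnalyticAt ℝ a (τ 0) := by rw [hτ0]; exact h.ana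
  have hPτ : AnalyticAt ℝ (fun p => P (τ p)) 0 := AnalyticAt.comp (g := P) (f := τ) hP0 hτan
  have hF : AnalyticAt ℝ F 0 := by
    have h2 : AnalyticAt ℝ (fun p => (P (τ p)).1) 0 :=
      AnalyticAt.comp (g := Prod.fst) (f := fun p => P (τ p)) analyticAt_fst hPτ
    exact h2.sub analyticAt_snd
  have hA : AnalyticAt ℝ A 0 := AnalyticAt.comp (g := a) (f := τ) ha0 hτan
  have hc0 : Tendsto (fun c : ℝ => ((c, 0) : ℝ × ℂ)) (𝓝 0) (𝓝 0) := by
    have : ContinuousAt (fun c : ℝ => ((c, 0) : ℝ × ℂ)) 0 := by fun_prop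
    exact this.tendsto
  have hF0 : ∀ᶠ c in 𝓝 (0 : ℝ), F (c, 0) = 0 := by
    filter_upwards [hV0, h.P0] with c h2 h3
    rw [hFdef]
    simp only [h2]
    have : ((0, 0) : ℂ × ℂ) = 0 := rfl
    rw [this, h3]
    simp
  have hA0 : ∀ᶠ c in 𝓝 (0 : ℝ), A (c, 0) = 0 := by
    filter_upwards [hV0, h.a0] with c h2 h3
    rw [hAdef]
    simp only [h2]
    have : ((0, 0) : ℂ × ℂ) = 0 := rfl
    rw [this, h3]
  -- the derivative of the reduced map along `w = 0`
  have hτt : Tendsto τ (𝓝 0) (𝓝 0) := by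
    have := hτan.continuousAt.tendsto
    rwa [hτ0] at this
  have hdF : ∀ᶠ p in 𝓝 (0 : ℝ × ℂ), ∀ δ : ℂ,
      fderiv ℝ F p (0, δ) = (dz P (τ p) (δ, fderiv ℝ V p (0, δ))).1 - δ := by
    filter_upwards [hτt.eventually h.anP.eventually_analyticAt, hV.eventually_analyticAt]
      with p h2 h3 δ
    have e1 : HasFDerivAt τ ((ContinuousLinearMap.fst ℝ ℝ ℂ).prod
        ((ContinuousLinearMap.snd ℝ ℝ ℂ).prod (fderiv ℝ V p))) p :=
      hasFDerivAt_fst.prodMk (hasFDerivAt_snd.prodMk h3.differentiableAt.hasFDerivAt)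
    have e2 := h2.differentiableAt.hasFDerivAt.comp p e1
    have e3 := e2.fst.sub (hasFDerivAt_snd (𝕜 := ℝ) (p := p))
    have e4 : fderiv ℝ F p = _ := e3.fderiv
    rw [e4]
    rfl
  have hF1 : ∀ δ : ℂ, fderiv ℝ F 0 (0, δ) = 0 := by
    intro δ
    rw [hdF.self_of_nhds δ, hV1, hτ0, h0]
    simp
  have hF2 : ∀ δ : ℂ, HasDerivAt (fun c : ℝ => fderiv ℝ F (c, 0) (0, δ))
      ((α : ℂ) * Complex.I * δ) 0 := by
    intro δ
    -- split the derivative
    set B : ℝ → ℂ →L[ℝ] ℂ := fun c =>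
      (ContinuousLinearMap.fst ℝ ℂ ℂ).comp ((dz P (c, 0)).comp (ContinuousLinearMap.inr ℝ ℂ ℂ))
      with hB
    set v : ℝ → ℂ := fun c => fderiv ℝ V (c, 0) (0, δ) with hv
    have e0 : (fun c : ℝ => fderiv ℝ F (c, 0) (0, δ)) =ᶠ[𝓝 0]
        fun c => ((dz P (c, 0) (δ, 0)).1 + B c (v c)) - δ := by
      filter_upwards [hc0.eventually hdF, hV0] with c h2 h3
      rw [h2 δ, hτ]
      simp only [h3]
      have e1 : ((0, 0) : ℂ × ℂ) = 0 := rfl
      have e2 : ((δ, v c) : ℂ × ℂ) = (δ, 0) + (0, v c) := by simp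
      rw [e1]
      change (dz P (c, 0) (δ, v c)).1 - δ = _
      rw [e2, map_add]
      rfl
    have hcan : AnalyticAt ℝ (fun c : ℝ => ((c, 0) : ℝ × (ℂ × ℂ))) 0 :=
      analyticAt_id.prod analyticAt_const
    have hcan' : AnalyticAt ℝ (fun c : ℝ => ((c, 0) : ℝ × ℂ)) 0 :=
      analyticAt_id.prod analyticAt_const
    have hfP : AnalyticAt ℝ (fun c : ℝ => fderiv ℝ P (c, 0)) 0 :=
      AnalyticAt.comp (g := fderiv ℝ P) (f := fun c : ℝ => ((c, 0) : ℝ × (ℂ × ℂ)))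
        (by exact h.anP.fderiv) hcan
    have hfV : AnalyticAt ℝ (fun c : ℝ => fderiv ℝ V (c, 0)) 0 :=
      AnalyticAt.comp (g := fderiv ℝ V) (f := fun c : ℝ => ((c, 0) : ℝ × ℂ))
        (by exact hV.fderiv) hcan'
    have hBd : DifferentiableAt ℝ B 0 := by
      have e1 : DifferentiableAt ℝ (fun c : ℝ => dz P (c, (0 : ℂ × ℂ))) 0 :=
        hfP.differentiableAt.clm_comp (differentiableAt_const _)
      exact (differentiableAt_const _).clm_comp (e1.clm_comp (differentiableAt_const _))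
    have hvd : DifferentiableAt ℝ v 0 :=
      hfV.differentiableAt.clm_apply (differentiableAt_const _)
    have hB0 : B 0 = 0 := by
      refine ContinuousLinearMap.ext fun z => ?_
      change (dz P (0, 0) (0, z)).1 = 0
      have e1 : ((0, 0) : ℝ × (ℂ × ℂ)) = 0 := rfl
      rw [e1, h0]
    have hv0 : v 0 = 0 := hV1 δ
    have e3 : HasDerivAt (fun c => B c (v c)) 0 0 := by
      have e4 := hBd.hasDerivAt.clm_apply hvd.hasDerivAt
      rw [hB0, hv0] at e4
      simpa using e4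
    have e5 : HasDerivAt (fun c => ((dz P (c, 0) (δ, 0)).1 + B c (v c)) - δ)
        ((α : ℂ) * Complex.I * δ) 0 := by
      have e6 := ((h1 δ).add e3).sub_const δ
      simpa using e6
    exact e5.congr_of_eventuallyEq e0
  have hk : KeyForm F A := key_form h hV hV00 hVf
  obtain ⟨σ, hσ0, hσ⟩ := exists_sigma hF hA hk
  obtain ⟨r, hr, H, g1, g2, g3, g4, g5⟩ := est_all hF hA hF0 hA0 hF1 hF2 hk hσ0 hσ
  by_contra hα
  -- a small derivative of `F` in the second variable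
  have hsm : ∀ᶠ p in 𝓝 (0 : ℝ × ℂ), ‖(fderiv ℝ F p).comp (ContinuousLinearMap.inr ℝ ℝ ℂ)‖ < 1 := by
    have e1 : ContinuousAt (fun p => (fderiv ℝ F p).comp (ContinuousLinearMap.inr ℝ ℝ ℂ)) 0 :=
      hF.fderiv.continuousAt.clm_comp continuousAt_const
    have e2 : (fderiv ℝ F 0).comp (ContinuousLinearMap.inr ℝ ℝ ℂ) = 0 := by
      refine ContinuousLinearMap.ext fun z => ?_
      exact hF1 z
    have e3 := e1.norm
    rw [ContinuousAt, e2, norm_zero] at e3
    exact e3.eventually (gt_mem_nhds one_pos)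
  obtain ⟨δ, hδ, hδg⟩ := g1 (|α| / 4) (by positivity)
  -- all properties hold near zero
  have hall : ∀ᶠ p in 𝓝 (0 : ℝ × ℂ),
      ‖(fderiv ℝ F p).comp (ContinuousLinearMap.inr ℝ ℝ ℂ)‖ < 1 ∧
        (P (p.1, (p.2, V p))).2 = V p ∧ (P (τ p) = (τ p).2 → a (τ p) = 0) :=
    hsm.and (hVf.and (hτt.eventually hnd))
  obtain ⟨ε₁, hε₁, hball⟩ := Metric.eventually_nhds_iff_ball.1 hall
  obtain ⟨c, w, hc, hw, hw0, hcrit⟩ := minmax hr (neg_ne_zero.2 hα) g5 g4 g1 g2 g3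
    (lt_min hε₁ hδ)
  have hmem : ((c, w) : ℝ × ℂ) ∈ ball 0 ε₁ := by
    rw [mem_ball_zero_iff, Prod.norm_def]
    exact max_lt (lt_of_lt_of_le hc (min_le_left _ _)) (lt_of_lt_of_le hw (min_le_left _ _))
  obtain ⟨k1, k2, k3⟩ := hball _ hmem
  have hF00 : F (c, w) = 0 := by
    by_contra hne
    have e1 := hcrit (Complex.I * F (c, w))
    rw [vp_apply] at e1
    set D := (fderiv ℝ F (c, w)).comp (ContinuousLinearMap.inr ℝ ℝ ℂ) with hD
    have e2 : fderiv ℝ F (c, w) (0, Complex.I * F (c, w)) = D (Complex.I * F (c, w)) := rfl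
    rw [e2] at e1
    have e3 : ‖D (Complex.I * F (c, w))‖ ≤ ‖F (c, w)‖ := by
      have := D.le_opNorm (Complex.I * F (c, w))
      rw [norm_mul, Complex.norm_I, one_mul] at this
      exact this.trans (by nlinarith [norm_nonneg (F (c, w))])
    have e4 : (conj (F (c, w)) * (Complex.I * F (c, w))).im = ‖F (c, w)‖ ^ 2 := by
      rw [← Complex.normSq_eq_norm_sq, Complex.normSq_apply]
      simp
    have e5 : |(conj (F (c, w)) * ((2⁻¹ : ℝ) • D (Complex.I * F (c, w)))).im| ≤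
        ‖F (c, w)‖ ^ 2 / 2 := by
      refine (Complex.abs_im_le_norm _).trans ?_
      rw [norm_mul, RCLike.norm_conj, norm_smul]
      have : ‖(2⁻¹ : ℝ)‖ = 2⁻¹ := by norm_num
      rw [this]
      nlinarith [norm_nonneg (F (c, w))]
    rw [mul_add, Complex.add_im, e4] at e1
    have e6 : 0 < ‖F (c, w)‖ ^ 2 := by
      have := norm_pos_iff.2 hne
      positivity
    have e7 := abs_le.1 e5
    simp only [mul_zero, zero_add] at e1
    linarith [e7.1, e7.2]
  -- the periodic point has no displacement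
  have hper : P (τ (c, w)) = (τ (c, w)).2 := by
    have e1 : (P (τ (c, w))).1 = w := by
      have := hF00
      rw [hFdef] at this
      exact sub_eq_zero.1 this
    exact Prod.ext e1 k2
  have hA00 : A (c, w) = 0 := k3 hper
  have hval : vp F A (c, w) (1, 0) = 0 := by
    rw [vp_apply, hA00, hF00]
    simp
  have hfin := hδg c w (lt_of_lt_of_le hc (min_le_right _ _)) (lt_of_lt_of_le hw (min_le_right _ _))
  rw [hval] at hfin
  have hwpos : 0 < ‖w‖ ^ 2 := by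
    have := norm_pos_iff.2 hw0
    positivity
  have hαpos : 0 < |α| := abs_pos.2 hα
  have e1 : |0 - -α * ‖w‖ ^ 2 / 2| = |α| * ‖w‖ ^ 2 / 2 := by
    have : 0 - -α * ‖w‖ ^ 2 / 2 = α * (‖w‖ ^ 2 / 2) := by ring
    rw [this, abs_mul, abs_of_pos (by positivity : (0 : ℝ) < ‖w‖ ^ 2 / 2)]
    ring
  rw [e1] at hfin
  nlinarith [mul_pos hαpos hwpos]

end Pool.Agent.MP_5027f4_cont
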