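import Pool.Agent.Lib_MP_5027f4_cont.QLin
import Pool.Agent.Lib_MP_5027f4_cont.QSig
import Pool.Agent.Lib_MP_5027f4_cont.QIter
import Pool.Agent.Lib_MP_5027f4_cont.QShift
import Pool.Agent.Lib_MP_5027f4_cont.QDiag
import Pool.Agent.Lib_MP_5027f4_cont.QRat
import Pool.Agent.Lib_MP_5027f4_cont.QEll

/-!
# Constancy of the multipliers (assembly, MP_5027f4_mp, T3)
-/

open Set Filter Topology Metric Polynomial
open scoped ComplexConjugate ContDiff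

namespace Pool.Agent.MP_5027f4_cont

/-- `tr1` as a continuous linear map -/
noncomputable def trL : ((ℂ × ℂ) →L[ℝ] (ℂ × ℂ)) →L[ℝ] ℝ :=
  LinearMap.toContinuousLinearMap
    ((LinearMap.trace ℝ (ℂ × ℂ)).comp (ContinuousLinearMap.coeLM ℝ))

theorem trL_apply (A : (ℂ × ℂ) →L[ℝ] (ℂ × ℂ)) : trL A = tr1 A := rfl

theorem tr1_comm (A B : (ℂ × ℂ) →L[ℝ] (ℂ × ℂ)) : tr1 (A.comp B) = tr1 (B.comp A) := by
  unfold tr1
  exact LinearMap.trace_mul_comm ℝ (A : (ℂ × ℂ) →ₗ[ℝ] (ℂ × ℂ)) (B : (ℂ × ℂ) →ₗ[ℝ] (ℂ × ℂ))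

theorem tr1_conj (L : (ℂ × ℂ) ≃L[ℝ] (ℂ × ℂ)) (A : (ℂ × ℂ) →L[ℝ] (ℂ × ℂ)) :
    tr1 ((L : (ℂ × ℂ) →L[ℝ] (ℂ × ℂ)).comp (A.comp (L.symm : (ℂ × ℂ) →L[ℝ] (ℂ × ℂ)))) = tr1 A := by
  rw [tr1_comm]
  congr 1
  refine ContinuousLinearMap.ext fun x => ?_
  simp

variable {P : ℝ × (ℂ × ℂ) → ℂ × ℂ} {a : ℝ × (ℂ × ℂ) → ℝ}

theorem pow_diag {A : (ℂ × ℂ) →L[ℝ] (ℂ × ℂ)} {μ₁ μ₂ : ℂ}
    (h0 : ∀ z : ℂ × ℂ, A z = (μ₁ * z.1, μ₂ * z.2)) (n : ℕ) (z : ℂ × ℂ) :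
    (A ^ n) z = (μ₁ ^ n * z.1, μ₂ ^ n * z.2) := by
  induction n generalizing z with
  | zero => simp
  | succ n ih =>
    have : (A ^ (n + 1)) z = (A ^ n) (A z) := by
      rw [pow_succ]
      rfl
    rw [this, ih, h0]
    exact Prod.ext (by simp only [pow_succ]; ring) (by simp only [pow_succ]; ring)

/-- the trace identity at a parameter where one multiplier is a root of unity of order dividing
`n` and the other is not -/
theorem trace_root (h : Fam P a) (hnd : NoDrift P a) {A : ℝ → (ℂ × ℂ) →L[ℝ] (ℂ × ℂ)}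
    {A' : (ℂ × ℂ) →L[ℝ] (ℂ × ℂ)} (hA : ∀ᶠ c in 𝓝 (0 : ℝ), dz P (c, 0) = A c)
    (hd : HasDerivAt A A' 0) {l₁ l₂ : ℂ} (n₁ : ‖l₁‖ = 1) (n₂ : ‖l₂‖ = 1) (hres : NonRes2 l₁ l₂)
    (hroots : Roots2 (cp (A 0)) l₁ l₂) {n : ℕ} (hn : 0 < n) (hl₁ : l₁ ^ n = 1) (hl₂ : l₂ ^ n ≠ 1) :
    tr1 (A'.comp (A 0)) = 2 * l₂.re * tr1 A' := by
  have hc0 : Tendsto (fun c : ℝ => ((c, 0) : ℝ × (ℂ × ℂ))) (𝓝 0) (𝓝 0) := by
    have : ContinuousAt (fun c : ℝ => ((c, 0) : ℝ × (ℂ × ℂ))) 0 := by fun_prop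
    exact this.tendsto
  have hs : ∀ᶠ c in 𝓝 (0 : ℝ), ∀ ξ η, os (A c ξ) (A c η) = os ξ η := by
    filter_upwards [hc0.eventually h.symp, hA] with c h2 h3 ξ η
    rw [← h3]
    exact h2 ξ η
  obtain ⟨L, μ₁, μ₂, hμ₁, hμ₂, hL, hLA⟩ := exists_linNF2 (A 0) hs.self_of_nhds n₁ n₂ hres hroots
  obtain ⟨hF, hFd⟩ := h.conj L hL
  have hN := hnd.conj L
  set P₁ : ℝ × (ℂ × ℂ) → ℂ × ℂ := fun q => L (P (q.1, L.symm q.2)) with hP₁
  set a₁ : ℝ × (ℂ × ℂ) → ℝ := fun q => a (q.1, L.symm q.2) with ha₁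
  set A₁ : ℝ → (ℂ × ℂ) →L[ℝ] (ℂ × ℂ) := fun c =>
    (L : (ℂ × ℂ) →L[ℝ] (ℂ × ℂ)).comp ((A c).comp (L.symm : (ℂ × ℂ) →L[ℝ] (ℂ × ℂ))) with hA₁
  have hA₁e : ∀ᶠ c in 𝓝 (0 : ℝ), dz P₁ (c, 0) = A₁ c := by
    filter_upwards [hFd, hA] with c h2 h3
    refine ContinuousLinearMap.ext fun ξ => ?_
    rw [h2 ξ, h3]
    rfl
  have hs₁ : ∀ᶠ c in 𝓝 (0 : ℝ), ∀ ξ η, os (A₁ c ξ) (A₁ c η) = os ξ η := by
    filter_upwards [hc0.eventually hF.symp, hA₁e] with c h2 h3 ξ η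
    rw [← h3]
    exact h2 ξ η
  have hd₁ : HasDerivAt A₁ ((L : (ℂ × ℂ) →L[ℝ] (ℂ × ℂ)).comp
      (A'.comp (L.symm : (ℂ × ℂ) →L[ℝ] (ℂ × ℂ)))) 0 := by
    have e1 : HasDerivAt (fun c => (A c).comp (L.symm : (ℂ × ℂ) →L[ℝ] (ℂ × ℂ)))
        (A'.comp (L.symm : (ℂ × ℂ) →L[ℝ] (ℂ × ℂ)) + (A 0).comp 0) 0 :=
      hd.clm_comp (hasDerivAt_const (0 : ℝ) (L.symm : (ℂ × ℂ) →L[ℝ] (ℂ × ℂ)))
    have e2 : HasDerivAt A₁ ((0 : (ℂ × ℂ) →L[ℝ] (ℂ × ℂ)).comp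
        ((A 0).comp (L.symm : (ℂ × ℂ) →L[ℝ] (ℂ × ℂ))) +
        (L : (ℂ × ℂ) →L[ℝ] (ℂ × ℂ)).comp (A'.comp (L.symm : (ℂ × ℂ) →L[ℝ] (ℂ × ℂ)) +
          (A 0).comp 0)) 0 :=
      (hasDerivAt_const (0 : ℝ) (L : (ℂ × ℂ) →L[ℝ] (ℂ × ℂ))).clm_comp e1
    refine e2.congr_deriv ?_
    refine ContinuousLinearMap.ext fun x => ?_
    simp
  have h0₁ : ∀ z : ℂ × ℂ, A₁ 0 z = (μ₁ * z.1, μ₂ * z.2) := by
    intro z
    have := hLA (L.symm z)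
    simpa [hA₁] using this
  have m₁ : ‖μ₁‖ = 1 := by
    rcases hμ₁ with h | h <;> rw [h]
    · exact n₁
    · rw [RCLike.norm_conj]; exact n₁
  have m₂ : ‖μ₂‖ = 1 := by
    rcases hμ₂ with h | h <;> rw [h]
    · exact n₂
    · rw [RCLike.norm_conj]; exact n₂
  have re₂ : μ₂.re = l₂.re := by
    rcases hμ₂ with h | h <;> rw [h]
    simp
  have hcj : ∀ (z : ℂ) (k : ℕ), (conj z) ^ k = 1 → z ^ k = 1 := by
    intro z k hk
    have e := congrArg (starRingEnd ℂ) hk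
    rwa [map_pow, Complex.conj_conj, map_one] at e
  have p₁ : μ₁ ^ n = 1 := by
    rcases hμ₁ with h | h <;> rw [h]
    · exact hl₁
    · rw [← map_pow, hl₁, map_one]
  have p₂ : μ₂ ^ n ≠ 1 := by
    rcases hμ₂ with h | h <;> rw [h]
    · exact hl₂
    · exact fun e => hl₂ (hcj _ _ e)
  have hsq : μ₁ ^ 2 ≠ 1 := by
    rcases hμ₁ with h | h <;> rw [h]
    · exact hres.1
    · exact fun e => hres.1 (hcj _ _ e)
  obtain ⟨α, hα, hα0⟩ := diag_alpha hd₁ hs₁ h0₁ m₁ m₂ hsq hn p₁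
  -- the iterated family
  have hFn := hF.iter n
  have hdn := hF.dz_iter n
  have hdn' : ∀ᶠ c in 𝓝 (0 : ℝ), dz (itP P₁ n) (c, 0) = A₁ c ^ n := by
    filter_upwards [hdn, hA₁e] with c h2 h3
    rw [h2, h3]
  have hd0 : ∀ z : ℂ × ℂ, dz (itP P₁ n) 0 z = (z.1, μ₂ ^ n * z.2) := by
    intro z
    have e1 : ((0, 0) : ℝ × (ℂ × ℂ)) = 0 := rfl
    have e2 := hdn'.self_of_nhds
    rw [e1] at e2
    rw [e2, pow_diag h0₁, p₁, one_mul]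
  have hz : α = 0 := alpha_zero hFn p₂ hd0 (fun w => (hα w).congr_of_eventuallyEq (by
    filter_upwards [hdn'] with c h2
    rw [h2])) (hN n)
  have e := hα0 hz
  rw [tr1_conj, re₂] at e
  rw [← e, ← tr1_conj L (A'.comp (A 0))]
  congr 1
  refine ContinuousLinearMap.ext fun x => ?_
  simp [hA₁]

/-- **The multipliers are constant.** -/
theorem cp_const2 {zs : ℝ → ℂ × ℂ} {c₀ : ℝ}
    (hP : AnalyticAt ℝ P (c₀, zs c₀)) (ha : AnalyticAt ℝ a (c₀, zs c₀)) (hz : AnalyticAt ℝ zs c₀)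
    (hfix : ∀ᶠ c in 𝓝 c₀, P (c, zs c) = zs c) (ha0 : ∀ᶠ c in 𝓝 c₀, a (c, zs c) = 0)
    (hsymp : ∀ᶠ q in 𝓝 (c₀, zs c₀), ∀ ξ η, os (dz P q ξ) (dz P q η) = os ξ η)
    (hrel : ∀ᶠ q in 𝓝 (c₀, zs c₀), ∀ ξ : ℂ × ℂ,
      fderiv ℝ a q (0, ξ) = -os (dz P q ξ) (fderiv ℝ P q (1, 0)))
    (hbd : ∃ r > 0, ∃ δ : ℝ, ∀ (c : ℝ) (n : ℕ) (z : ℕ → ℂ × ℂ), |c - c₀| < r →
      (∀ j ≤ n, ‖z j - zs c₀‖ < r) → (∀ j < n, z (j + 1) = P (c, z j)) →
      |∑ j ∈ Finset.range n, a (c, z j)| ≤ δ)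
    (hell : Ell2 (cp (dz P (c₀, zs c₀)))) :
    ∀ᶠ c in 𝓝 c₀, cp (dz P (c, zs c)) = cp (dz P (c₀, zs c₀)) := by
  set A : ℝ → (ℂ × ℂ) →L[ℝ] (ℂ × ℂ) := fun c => dz P (c, zs c) with hAdef
  have hzz : AnalyticAt ℝ (fun c : ℝ => (c, zs c)) c₀ := analyticAt_id.prod hz
  have hzt : Tendsto (fun c : ℝ => (c, zs c)) (𝓝 c₀) (𝓝 (c₀, zs c₀)) := hzz.continuousAt.tendsto
  have hdzan : ∀ c, AnalyticAt ℝ P (c, zs c) → AnalyticAt ℝ zs c → AnalyticAt ℝ A c := by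
    intro c h1 h2
    have e1 : AnalyticAt ℝ (fun c : ℝ => fderiv ℝ P (c, zs c)) c :=
      AnalyticAt.comp (g := fderiv ℝ P) (f := fun c : ℝ => (c, zs c)) h1.fderiv
        (analyticAt_id.prod h2)
    have e2 : AnalyticAt ℝ (fun B : (ℝ × (ℂ × ℂ)) →L[ℝ] (ℂ × ℂ) =>
        B.comp (ContinuousLinearMap.inr ℝ ℝ (ℂ × ℂ))) (fderiv ℝ P (c, zs c)) :=
      ((ContinuousLinearMap.compL ℝ (ℂ × ℂ) (ℝ × (ℂ × ℂ)) (ℂ × ℂ)).flip
        (ContinuousLinearMap.inr ℝ ℝ (ℂ × ℂ))).analyticAt _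
    exact AnalyticAt.comp (g := fun B : (ℝ × (ℂ × ℂ)) →L[ℝ] (ℂ × ℂ) =>
        B.comp (ContinuousLinearMap.inr ℝ ℝ (ℂ × ℂ))) (f := fun c : ℝ => fderiv ℝ P (c, zs c))
        e2 e1
  have hA : AnalyticAt ℝ A c₀ := hdzan c₀ hP hz
  have hs : ∀ᶠ c in 𝓝 c₀, ∀ ξ η, os (A c ξ) (A c η) = os ξ η := by
    filter_upwards [hzt.eventually hsymp] with c h1 ξ η
    exact h1 ξ η
  obtain ⟨t₁, t₂, ε, hε, ht₁, ht₂, ht⟩ := ell2_fun hA hs hell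
  obtain ⟨r, hr, δ, hδ⟩ := hbd
  -- all local properties hold at the nearby parameters
  have hall : ∀ᶠ c in 𝓝 c₀, AnalyticAt ℝ P (c, zs c) ∧ AnalyticAt ℝ a (c, zs c) ∧
      AnalyticAt ℝ zs c ∧ (∀ᶠ c' in 𝓝 c, P (c', zs c') = zs c') ∧
      (∀ᶠ c' in 𝓝 c, a (c', zs c') = 0) ∧
      (∀ᶠ q in 𝓝 (c, zs c), ∀ ξ η, os (dz P q ξ) (dz P q η) = os ξ η) ∧
      (∀ᶠ q in 𝓝 (c, zs c), ∀ ξ : ℂ × ℂ,
        fderiv ℝ a q (0, ξ) = -os (dz P q ξ) (fderiv ℝ P q (1, 0))) ∧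
      |c - c₀| < r / 2 ∧ ‖zs c - zs c₀‖ < r / 2 := by
    have e1 : ∀ᶠ c in 𝓝 c₀, |c - c₀| < r / 2 := by
      have := Metric.ball_mem_nhds c₀ (half_pos hr)
      filter_upwards [this] with c hc
      rwa [Metric.mem_ball, Real.dist_eq] at hc
    have e2 : ∀ᶠ c in 𝓝 c₀, ‖zs c - zs c₀‖ < r / 2 := by
      have := hz.continuousAt.tendsto.eventually (Metric.ball_mem_nhds (zs c₀) (half_pos hr))
      filter_upwards [this] with c hc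
      rwa [dist_eq_norm] at hc
    exact (hzt.eventually hP.eventually_analyticAt).and
      ((hzt.eventually ha.eventually_analyticAt).and (hz.eventually_analyticAt.and
        (hfix.eventually_nhds.and (ha0.eventually_nhds.and
          ((hzt.eventually hsymp.eventually_nhds).and
            ((hzt.eventually hrel.eventually_nhds).and (e1.and e2)))))))
  obtain ⟨ε₁, hε₁, hε₁b⟩ := Metric.eventually_nhds_iff_ball.1 hall
  set ρ := min ε ε₁ with hρ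
  have hρ0 : 0 < ρ := lt_min hε hε₁
  have hsub : Ioo (c₀ - ρ) (c₀ + ρ) ⊆ Ioo (c₀ - ε) (c₀ + ε) := by
    intro c hc
    exact ⟨by linarith [hc.1, min_le_left ε ε₁], by linarith [hc.2, min_le_left ε ε₁]⟩
  have hloc : ∀ c ∈ Ioo (c₀ - ρ) (c₀ + ρ), c ∈ ball c₀ ε₁ := by
    intro c hc
    rw [Metric.mem_ball, Real.dist_eq, abs_lt]
    exact ⟨by linarith [hc.1, min_le_right ε ε₁], by linarith [hc.2, min_le_right ε ε₁]⟩
  -- derivatives of the traces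
  have hder : ∀ c ∈ Ioo (c₀ - ρ) (c₀ + ρ), DifferentiableAt ℝ t₁ c ∧ DifferentiableAt ℝ t₂ c ∧
      tr1 (deriv A c) = deriv t₁ c + deriv t₂ c ∧
      tr1 ((deriv A c).comp (A c)) = t₁ c * deriv t₁ c + t₂ c * deriv t₂ c := by
    intro c hc
    have hmem : Ioo (c₀ - ε) (c₀ + ε) ∈ 𝓝 c := Ioo_mem_nhds (hsub hc).1 (hsub hc).2
    have d₁ : DifferentiableAt ℝ t₁ c :=
      (ht₁.differentiableOn one_ne_zero).differentiableAt hmem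
    have d₂ : DifferentiableAt ℝ t₂ c :=
      (ht₂.differentiableOn one_ne_zero).differentiableAt hmem
    obtain ⟨h1, -, h3, -⟩ := hε₁b c (hloc c hc)
    have hAc := (hdzan c h1 h3).differentiableAt.hasDerivAt
    have e1 : HasDerivAt (fun c => tr1 (A c)) (tr1 (deriv A c)) c :=
      trL.hasFDerivAt.comp_hasDerivAt c hAc
    have e2 : HasDerivAt (fun c => tr1 (A c)) (deriv t₁ c + deriv t₂ c) c := by
      refine (d₁.hasDerivAt.add d₂.hasDerivAt).congr_of_eventuallyEq ?_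
      filter_upwards [hmem] with c' hc'
      exact (ht c' hc').2.2.2.1
    have e3 : HasDerivAt (fun c => tr1 ((A c).comp (A c)))
        (tr1 ((deriv A c).comp (A c) + (A c).comp (deriv A c))) c :=
      trL.hasFDerivAt.comp_hasDerivAt c (hAc.clm_comp hAc)
    have e4 : HasDerivAt (fun c => tr1 ((A c).comp (A c)))
        (2 * t₁ c * deriv t₁ c + 2 * t₂ c * deriv t₂ c) c := by
      have e5 := ((d₁.hasDerivAt.pow 2).add (d₂.hasDerivAt.pow 2)).sub_const (4 : ℝ)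
      refine (e5.congr_of_eventuallyEq ?_).congr_deriv ?_
      · filter_upwards [hmem] with c' hc'
        exact (ht c' hc').2.2.2.2.1
      · simp
    have e7 : tr1 ((deriv A c).comp (A c) + (A c).comp (deriv A c)) =
        2 * tr1 ((deriv A c).comp (A c)) := by
      have : tr1 ((deriv A c).comp (A c) + (A c).comp (deriv A c)) =
          tr1 ((deriv A c).comp (A c)) + tr1 ((A c).comp (deriv A c)) := map_add trL _ _
      rw [this, tr1_comm (A c)]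
      ring
    refine ⟨d₁, d₂, e1.unique e2, ?_⟩
    have e8 := e3.unique e4
    rw [e7] at e8
    linarith
  -- the identity at roots of unity
  have hroot : ∀ c ∈ Ioo (c₀ - ρ) (c₀ + ρ), ∀ n : ℕ, 0 < n → ∀ l₁ l₂ : ℂ, ‖l₁‖ = 1 → ‖l₂‖ = 1 →
      NonRes2 l₁ l₂ → Roots2 (cp (A c)) l₁ l₂ → l₁ ^ n = 1 → l₂ ^ n ≠ 1 →
      tr1 ((deriv A c).comp (A c)) = 2 * l₂.re * tr1 (deriv A c) := by
    intro c hc n hn l₁ l₂ n₁ n₂ hnr hro p₁ p₂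
    obtain ⟨h1, h2, h3, h4, h5, h6, h7, h8, h9⟩ := hε₁b c (hloc c hc)
    obtain ⟨P', a', hF, hN, hdz⟩ := fam_shift h1 h2 h3 h4 h5 h6 h7 ⟨r / 2, half_pos hr, δ,
      fun c' m z hc' hz1 hz2 => by
        refine hδ c' m z ?_ (fun j hj => ?_) hz2
        · calc |c' - c₀| = |(c' - c) + (c - c₀)| := by ring_nf
            _ ≤ |c' - c| + |c - c₀| := abs_add_le _ _
            _ < r / 2 + r / 2 := add_lt_add hc' h8
            _ = r := by ring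
        · calc ‖z j - zs c₀‖ = ‖(z j - zs c) + (zs c - zs c₀)‖ := by rw [sub_add_sub_cancel]
            _ ≤ ‖z j - zs c‖ + ‖zs c - zs c₀‖ := norm_add_le _ _
            _ < r / 2 + r / 2 := add_lt_add (hz1 j hj) h9
            _ = r := by ring⟩
    have hAc := (hdzan c h1 h3).differentiableAt.hasDerivAt
    have hAs : HasDerivAt (fun s : ℝ => A (c + s)) (deriv A c) 0 := by
      have e1 : HasDerivAt A (deriv A c) (c + 0) := by rw [add_zero]; exact hAc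
      exact e1.comp_const_add c 0
    have e0 : A (c + 0) = A c := by rw [add_zero]
    have := trace_root hF hN (A := fun s => A (c + s)) (A' := deriv A c) hdz hAs n₁ n₂ hnr
      (by simp only [add_zero]; exact hro) hn p₁ p₂
    simp only [add_zero] at this
    exact this
  have hconst := rat_const (a := c₀ - ρ) (b := c₀ + ρ) (ht₁.mono hsub) (ht₂.mono hsub)
    (fun c hc => (ht c (hsub hc)).1) (fun c hc => (ht c (hsub hc)).2.1)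
    (fun c hc => (ht c (hsub hc)).2.2.1)
    (fun c hc n hn l₁ l₂ n₁ n₂ e₁ e₂ p₁ p₂ => by
      obtain ⟨b1, b2, b3, b4, b5, b6⟩ := ht c (hsub hc)
      have hnr := nonRes2_of n₁ n₂ e₁ e₂ b1 b2 b3
      have hro := roots2_of b6 n₁ n₂ e₁ e₂
      have k1 := hroot c hc n hn l₁ l₂ n₁ n₂ hnr hro p₁ p₂
      obtain ⟨-, -, k2, k3⟩ := hder c hc
      rw [k3, k2, e₂] at k1
      have k4 : (t₁ c - t₂ c) * deriv t₁ c = 0 := by linear_combination k1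
      exact (mul_eq_zero.1 k4).resolve_left (sub_ne_zero.2 b3))
    (fun c hc n hn l₁ l₂ n₁ n₂ e₁ e₂ p₂ p₁ => by
      obtain ⟨b1, b2, b3, b4, b5, b6⟩ := ht c (hsub hc)
      have hnr := nonRes2_of n₂ n₁ e₂ e₁ b2 b1 (Ne.symm b3)
      have hro : Roots2 (cp (A c)) l₂ l₁ := roots2_of (by rw [b6]; ring) n₂ n₁ e₂ e₁
      have k1 := hroot c hc n hn l₂ l₁ n₂ n₁ hnr hro p₂ p₁
      obtain ⟨-, -, k2, k3⟩ := hder c hc
      rw [k3, k2, e₁] at k1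
      have k4 : (t₂ c - t₁ c) * deriv t₂ c = 0 := by linear_combination k1
      exact (mul_eq_zero.1 k4).resolve_left (sub_ne_zero.2 (Ne.symm b3)))
  -- the traces are constant
  have hmem0 : c₀ ∈ Ioo (c₀ - ρ) (c₀ + ρ) := ⟨by linarith, by linarith⟩
  have hcst : ∀ {t : ℝ → ℝ}, (∀ c ∈ Ioo (c₀ - ρ) (c₀ + ρ), DifferentiableAt ℝ t c) →
      (∀ c ∈ Ioo (c₀ - ρ) (c₀ + ρ), deriv t c = 0) → ∀ c ∈ Ioo (c₀ - ρ) (c₀ + ρ), t c = t c₀ := by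
    intro t hd h0 c hc
    have hconv : Convex ℝ (Ioo (c₀ - ρ) (c₀ + ρ)) := convex_Ioo _ _
    exact hconv.is_const_of_fderivWithin_eq_zero (𝕜 := ℝ)
      (fun x hx => (hd x hx).differentiableWithinAt)
      (fun x hx => by
        rw [fderivWithin_of_isOpen isOpen_Ioo hx]
        refine ContinuousLinearMap.ext_ring ?_
        have := h0 x hx
        rw [← fderiv_apply_one_eq_deriv] at this
        simpa using this) hc hmem0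
  have k₁ := hcst (fun c hc => (hder c hc).1) (fun c hc => (hconst c hc).1)
  have k₂ := hcst (fun c hc => (hder c hc).2.1) (fun c hc => (hconst c hc).2)
  filter_upwards [Ioo_mem_nhds hmem0.1 hmem0.2] with c hc
  have e1 := (ht c (hsub hc)).2.2.2.2.2
  have e2 := (ht c₀ (hsub hmem0)).2.2.2.2.2
  change cp (A c) = cp (A c₀)
  rw [e1, e2, k₁ c hc, k₂ c hc]

end Pool.Agent.MP_5027f4_cont
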