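import Pool.Agent.Lib_MP_5027f4_cont.LocalThm
import Pool.Agent.Lib_MP_5027f4_cont.QLoc

/-!
# Families of fixed points, distinct multipliers (assembly of the abstract part, MP_5027f4_mp, T3)
-/

open Set Filter Topology Metric Polynomial Asymptotics
open scoped ComplexConjugate ContDiff

namespace Pool.Agent.MP_5027f4_cont

variable {E : Type*} [NormedAddCommGroup E] [NormedSpace ℝ E] [FiniteDimensional ℝ E]
  {om : E →L[ℝ] E →L[ℝ] ℝ} {x₀ : E} {G : (ℝ × ℝ) × E → E} {μ : E → ℝ × ℝ}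
  {Θ : (ℝ × ℝ) × (ℝ × ℝ) × (ℂ × ℂ) → E} {Ξ : E → (ℝ × ℝ) × (ℝ × ℝ) × (ℂ × ℂ)} {Φ : E → E}
  {b : (ℝ × ℝ) × (ℂ × ℂ) → ℝ × ℝ} {P : (ℝ × ℝ) × (ℂ × ℂ) → ℂ × ℂ}

theorem ell2_eval_one {q : ℝ[X]} (h : Ell2 q) : q.eval 1 ≠ 0 := by
  obtain ⟨l₁, l₂, h1, h2, ⟨hn1, hn2, -, -⟩, hq⟩ := h
  intro h0
  have h3 : (q.map (algebraMap ℝ ℂ)).eval 1 = 0 := by
    have := Polynomial.eval_map_apply (algebraMap ℝ ℂ) (1 : ℝ) (p := q)
    rw [h0] at this
    simpa using this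
  unfold Roots2 at hq
  rw [hq] at h3
  have e1 : l₁ ≠ 1 := fun h => hn1 (by rw [h, one_pow])
  have e2 : l₂ ≠ 1 := fun h => hn2 (by rw [h, one_pow])
  have e3 : l₁⁻¹ ≠ 1 := fun h => e1 (by rw [← inv_inv l₁, h, inv_one])
  have e4 : l₂⁻¹ ≠ 1 := fun h => e2 (by rw [← inv_inv l₂, h, inv_one])
  simp only [eval_mul, eval_sub, eval_X, eval_C] at h3
  rcases mul_eq_zero.1 h3 with h | h <;> rcases mul_eq_zero.1 h with h | h
  · exact e1 (sub_eq_zero.1 h).symm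
  · exact e3 (sub_eq_zero.1 h).symm
  · exact e2 (sub_eq_zero.1 h).symm
  · exact e4 (sub_eq_zero.1 h).symm

/-- **Local family.** A fixed point with bounded drift, elliptic with distinct multipliers, belongs
to a family of fixed points on the level of the first momentum, with constant characteristic
polynomial. -/
theorem local_family2 (hdim : Module.finrank ℝ E = 8) (halt : ∀ x, om x x = 0)
    (hnd : ∀ x, (∀ y, om x y = 0) → x = 0) (hA : LocAct om x₀ G μ) (hΦ : AnalyticAt ℝ Φ x₀)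
    (hΦ0 : Φ x₀ = x₀) (hcomm : ∀ᶠ p : (ℝ × ℝ) × E in 𝓝 (0, x₀), Φ (G p) = G (p.1, Φ p.2))
    (hmu : ∀ᶠ y in 𝓝 x₀, μ (Φ y) = μ y)
    (hs : ∀ᶠ y in 𝓝 x₀, ∀ ξ η : E, om (fderiv ℝ Φ y ξ) (fderiv ℝ Φ y η) = om ξ η)
    (hbd : BD x₀ G Φ) {q : ℝ[X]} (hq : cp (fderiv ℝ Φ x₀) = (X - 1) ^ 4 * q) (hell : Ell2 q) :
    ∀ 𝒱 ∈ 𝓝 x₀, ∀ᶠ c in 𝓝 (μ x₀).2, ∃ y ∈ 𝒱, Φ y = y ∧ μ y = ((μ x₀).1, c) ∧
      cp (fderiv ℝ Φ y) = (X - 1) ^ 4 * q := by
  obtain ⟨Θ, Ξ, hC⟩ := exists_chart hdim halt hnd hA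
  obtain ⟨b, P, hR⟩ := exists_ret hC hΦ hΦ0 hcomm hmu
  have hcpb := cp_base hC hR hΦ hΦ0 hq
  have h1 : (cp (dz P (μ x₀, 0))).eval 1 ≠ 0 := by
    rw [hcpb]
    exact ell2_eval_one hell
  obtain ⟨zs, hzs, hz0, hfix, -⟩ := exists_fix hR.anP hR.P0 h1
  have hbdc := bdc_of_bd hC hR hbd
  have hd := drift_fix hbdc hzs.continuousAt hz0 hfix
  have hsymp := ret_symp hC hR hΦ hs
  have htime := time_const hR.anb hR.anP hR.b0 hzs hz0 hfix hd hsymp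
  refine fixed_of_coord hC hR hΦ hΦ0 hzs.continuousAt hz0 hfix htime ?_
  -- the curve in the parameter `c`
  set h₀ := (μ x₀).1 with hh₀
  set c₀ := (μ x₀).2 with hc₀
  have hμe : ((h₀, c₀) : ℝ × ℝ) = μ x₀ := rfl
  have hz00 : zs (h₀, c₀) = 0 := by rw [hμe, hz0]
  have hk : Tendsto (fun c : ℝ => (h₀, c)) (𝓝 c₀) (𝓝 (μ x₀)) := by
    have : ContinuousAt (fun c : ℝ => (h₀, c)) c₀ := by fun_prop
    simpa using this.tendsto
  have hzk : Tendsto (fun c : ℝ => zs (h₀, c)) (𝓝 c₀) (𝓝 0) := by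
    rw [← hz0]
    exact hzs.continuousAt.tendsto.comp hk
  -- symplecticity in the transversal directions
  have hs2 : ∀ᶠ q : (ℝ × ℝ) × (ℂ × ℂ) in 𝓝 (μ x₀, 0), ∀ ξ η,
      os (dz P q ξ) (dz P q η) = os ξ η := by
    filter_upwards [hsymp] with q hq ξ η
    have h2 := hq (0, ξ) (0, η)
    simpa [dot, dz] using h2
  have hrel2 : ∀ᶠ q : (ℝ × ℝ) × (ℂ × ℂ) in 𝓝 (μ x₀, 0), ∀ ξ : ℂ × ℂ,
      (fderiv ℝ b q (0, ξ)).2 = -os (dz P q ξ) (fderiv ℝ P q ((0, 1), 0)) := by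
    filter_upwards [hsymp] with q hq ξ
    have h2 := hq (0, ξ) ((0, 1), 0)
    have h3 : os ξ (0 : ℂ × ℂ) = 0 := by simp [os]
    simp only [dot, h3] at h2
    have h4 : dz P q ξ = fderiv ℝ P q (0, ξ) := rfl
    rw [h4]
    simp at h2
    linarith
  -- maps in the variables `(c, z)`
  set ι : ℝ × (ℂ × ℂ) → (ℝ × ℝ) × (ℂ × ℂ) := fun q => ((h₀, q.1), q.2) with hι
  have hιan : ∀ q, AnalyticAt ℝ ι q := fun q =>
    (analyticAt_const.prod analyticAt_fst).prod analyticAt_snd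
  have hιd : ∀ q, HasFDerivAt ι (((0 : (ℝ × (ℂ × ℂ)) →L[ℝ] ℝ).prod
      (ContinuousLinearMap.fst ℝ ℝ (ℂ × ℂ))).prod (ContinuousLinearMap.snd ℝ ℝ (ℂ × ℂ))) q :=
    fun q => ((hasFDerivAt_const h₀ q).prodMk hasFDerivAt_fst).prodMk hasFDerivAt_snd
  have hι0 : ι (c₀, zs (h₀, c₀)) = (μ x₀, 0) := by
    rw [hz00]
  set P' : ℝ × (ℂ × ℂ) → ℂ × ℂ := fun q => P (ι q) with hP'
  set a' : ℝ × (ℂ × ℂ) → ℝ := fun q => (b (ι q)).2 with ha'
  have hdP' : ∀ q, DifferentiableAt ℝ P (ι q) → ∀ δ : ℝ × (ℂ × ℂ),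
      fderiv ℝ P' q δ = fderiv ℝ P (ι q) ((0, δ.1), δ.2) := by
    intro q hq δ
    have h2 : HasFDerivAt P' _ q := hq.hasFDerivAt.comp q (hιd q)
    rw [h2.fderiv]
    rfl
  have hda' : ∀ q, DifferentiableAt ℝ b (ι q) → ∀ δ : ℝ × (ℂ × ℂ),
      fderiv ℝ a' q δ = (fderiv ℝ b (ι q) ((0, δ.1), δ.2)).2 := by
    intro q hq δ
    have h2 : HasFDerivAt (fun q => b (ι q)) _ q := hq.hasFDerivAt.comp q (hιd q)
    have h3 := h2.snd
    rw [ha', h3.fderiv]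
    rfl
  have hdz : ∀ q, DifferentiableAt ℝ P (ι q) → dz P' q = dz P (ι q) := by
    intro q hq
    refine ContinuousLinearMap.ext fun ξ => ?_
    change fderiv ℝ P' q (0, ξ) = fderiv ℝ P (ι q) (0, ξ)
    rw [hdP' q hq]
    rfl
  have hιt : Tendsto ι (𝓝 (c₀, zs (h₀, c₀))) (𝓝 (μ x₀, 0)) := by
    rw [← hι0]
    exact (hιan (c₀, zs (h₀, c₀))).continuousAt.tendsto
  have hPb : AnalyticAt ℝ P (ι (c₀, zs (h₀, c₀))) := by rw [hι0]; exact hR.anP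
  have hbb : AnalyticAt ℝ b (ι (c₀, zs (h₀, c₀))) := by rw [hι0]; exact hR.anb
  have hPan : AnalyticAt ℝ P' (c₀, zs (h₀, c₀)) :=
    AnalyticAt.comp (g := P) (f := ι) (x := (c₀, zs (h₀, c₀))) hPb (hιan _)
  have haan : AnalyticAt ℝ a' (c₀, zs (h₀, c₀)) := by
    have h2 : AnalyticAt ℝ (fun q => b (ι q)) (c₀, zs (h₀, c₀)) :=
      AnalyticAt.comp (g := b) (f := ι) (x := (c₀, zs (h₀, c₀))) hbb (hιan _)
    exact (ContinuousLinearMap.snd ℝ ℝ ℝ).analyticAt _ |>.comp h2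
  have hzan : AnalyticAt ℝ (fun c => zs (h₀, c)) c₀ := by
    have h2 : AnalyticAt ℝ zs (h₀, c₀) := by rw [hμe]; exact hzs
    exact AnalyticAt.comp (g := zs) (f := fun c : ℝ => ((h₀, c) : ℝ × ℝ)) (x := c₀) h2
      (analyticAt_const.prod analyticAt_id)
  have hand : ∀ᶠ q in 𝓝 (c₀, zs (h₀, c₀)), AnalyticAt ℝ P (ι q) :=
    hιt.eventually hR.anP.eventually_analyticAt
  have hbnd : ∀ᶠ q in 𝓝 (c₀, zs (h₀, c₀)), AnalyticAt ℝ b (ι q) :=
    hιt.eventually hR.anb.eventually_analyticAt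
  obtain ⟨r, hr, δ, hδ⟩ := hbdc
  have hconst := cp_const2 (P := P') (a := a') (zs := fun c => zs (h₀, c)) (c₀ := c₀) hPan haan
    hzan (hk.eventually hfix)
    (by
      filter_upwards [htime] with c h2
      change (b ((h₀, c), zs (h₀, c))).2 = 0
      rw [h2]
      rfl)
    (by
      filter_upwards [hιt.eventually hs2, hand] with q h2 h3 ξ η
      rw [hdz q h3.differentiableAt]
      exact h2 ξ η)
    (by
      filter_upwards [hιt.eventually hrel2, hand, hbnd] with q h2 h3 h4 ξ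
      rw [hdz q h3.differentiableAt, hdP' q h3.differentiableAt, hda' q h4.differentiableAt]
      exact h2 ξ)
    ⟨r, hr, δ, fun c n z hc hz1 hz2 => by
      refine hδ (h₀, c) n z ?_ (fun j hj => ?_) hz2
      · have h2 : ((h₀, c) : ℝ × ℝ) - μ x₀ = (0, c - c₀) := by
          rw [← hμe, Prod.mk_sub_mk, sub_self]
        rw [h2, Prod.norm_def, norm_zero, max_eq_right (norm_nonneg _), Real.norm_eq_abs]
        exact hc
      · have h2 := hz1 j hj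
        rwa [hz00, sub_zero] at h2⟩
    (by
      rw [hdz _ hPb.differentiableAt, hι0, hcpb]
      exact hell)
  have hcurve : Tendsto (fun c : ℝ => (c, zs (h₀, c))) (𝓝 c₀) (𝓝 (c₀, zs (h₀, c₀))) :=
    tendsto_id.prodMk_nhds hzan.continuousAt.tendsto
  filter_upwards [hconst, hcurve.eventually hand] with c h2 h3
  rw [hdz _ h3.differentiableAt, hdz _ hPb.differentiableAt, hι0, hcpb] at h2
  exact h2

end Pool.Agent.MP_5027f4_cont
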