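import Pool.Agent.Lib_MP_5027f4_cont.QDefs
import Pool.Agent.Lib_MP_5027f4_cont.LinNF

/-!
PIECE [QLin] (MP_5027f4_mp, T3).  Symplectic diagonalization, distinct multipliers.
-/

open Set Filter Topology Metric Polynomial
open scoped ComplexConjugate ContDiff

namespace Pool.Agent.MP_5027f4_cont

/-- the same proof as `exists_linNF` -/
theorem exists_linNF2 (A : (ℂ × ℂ) →L[ℝ] (ℂ × ℂ)) (hs : ∀ ξ η, os (A ξ) (A η) = os ξ η)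
    {l₁ l₂ : ℂ} (n₁ : ‖l₁‖ = 1) (n₂ : ‖l₂‖ = 1) (hres : NonRes2 l₁ l₂) (hpoly : Roots2 (cp A) l₁ l₂) :
    ∃ (L : (ℂ × ℂ) ≃L[ℝ] (ℂ × ℂ)) (μ₁ μ₂ : ℂ), (μ₁ = l₁ ∨ μ₁ = conj l₁) ∧
      (μ₂ = l₂ ∨ μ₂ = conj l₂) ∧ (∀ ξ η, os (L ξ) (L η) = os ξ η) ∧
      ∀ ξ, L (A ξ) = (μ₁ * (L ξ).1, μ₂ * (L ξ).2) := by
  unfold Roots2 at hpoly
  have r₁ : ((cp A).map (algebraMap ℝ ℂ)).eval l₁ = 0 := by
    rw [hpoly]; simp
  have r₂ : ((cp A).map (algebraMap ℝ ℂ)).eval l₂ = 0 := by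
    rw [hpoly]; simp
  obtain ⟨x₁, y₁, hn₁, hx₁, hy₁⟩ := exists_plane A r₁
  obtain ⟨x₂, y₂, hn₂, hx₂, hy₂⟩ := exists_plane A r₂
  obtain ⟨hr1, hr2, hr3, hl12⟩ := hres
  have hz₁ : l₁ ≠ 0 := by
    intro h0; rw [h0] at n₁; simp at n₁
  have hz₂ : l₂ ≠ 0 := by
    intro h0; rw [h0] at n₂; simp at n₂
  have hl12' : l₁ * l₂⁻¹ ≠ 1 := by
    intro h
    apply hr3
    field_simp at h
    exact h
  have hl21 : l₂ * l₁ ≠ 1 := by rw [mul_comm]; exact hl12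
  have hl21' : l₂ * l₁⁻¹ ≠ 1 := by
    intro h
    apply hr3
    field_simp at h
    exact h.symm
  have nn : ∀ l : ℂ, ‖l‖ = 1 → l.re ^ 2 + l.im ^ 2 = 1 := by
    intro l hl
    have : Complex.normSq l = 1 := by rw [Complex.normSq_eq_norm_sq, hl, one_pow]
    rw [Complex.normSq_apply] at this
    linarith
  have m₁ := nn l₁ n₁
  have m₂ := nn l₂ n₂
  have him : ∀ l : ℂ, ‖l‖ = 1 → l ^ 2 ≠ 1 → l.im ≠ 0 := by
    intro l hl h2 h0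
    apply h2
    have h3 := nn l hl
    have h4 : l = (l.re : ℂ) := Complex.ext (by simp) (by simp [h0])
    rw [h4]
    have h5 : l.re ^ 2 = 1 := by rw [h0] at h3; linarith
    have : ((l.re : ℂ)) ^ 2 = ((l.re ^ 2 : ℝ) : ℂ) := by push_cast; norm_cast
    rw [this, h5]; simp
  have b₁ : l₁.im ≠ 0 := him l₁ n₁ hr1
  have b₂ : l₂.im ≠ 0 := him l₂ n₂ hr2
  have hc₂ : l₂⁻¹ = conj l₂ := Complex.inv_eq_conj n₂
  have ha : l₁.re ≠ l₂.re := by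
    intro h
    have h3 : (l₁.im - l₂.im) * (l₁.im + l₂.im) = 0 := by
      rw [h] at m₁; linarith
    rcases mul_eq_zero.mp h3 with h4 | h4
    · apply hl12'
      have : l₁ = l₂ := Complex.ext h (by linarith)
      rw [this]
      apply mul_inv_cancel₀
      intro h0; rw [h0] at n₂; simp at n₂
    · apply hl12
      have : l₁ = l₂⁻¹ := by rw [hc₂]; exact Complex.ext (by simpa using h) (by simp; linarith)
      rw [this]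
      apply inv_mul_cancel₀
      intro h0; rw [h0] at n₂; simp at n₂
  have inj1 := lnf_frm_inj A m₁ m₂ b₁ b₂ ha hx₁ hy₁ hx₂ hy₂ hn₁ hn₂
  have inj2 := lnf_frm_inj A m₂ m₁ b₂ b₁ (Ne.symm ha) hx₂ hy₂ hx₁ hy₁ hn₂ hn₁
  obtain ⟨o1, o2, o3, o4⟩ := lnf_planes_orth A hs n₂ hl12 hl12' hx₁ hy₁ hx₂ hy₂
  obtain ⟨o1', o2', o3', o4'⟩ := lnf_planes_orth A hs n₁ hl21 hl21' hx₂ hy₂ hx₁ hy₁
  have s₁ := lnf_plane_nondeg inj1 o1 o2
  have s₂ := lnf_plane_nondeg inj2 o1' o2'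
  obtain ⟨e₁, f₁, μ₁, hμ₁, ef₁, Ae₁, Af₁, p₁, q₁, u₁, v₁, he₁, hf₁⟩ := lnf_exists_pair A hx₁ hy₁ s₁
  obtain ⟨e₂, f₂, μ₂, hμ₂, ef₂, Ae₂, Af₂, p₂, q₂, u₂, v₂, he₂, hf₂⟩ := lnf_exists_pair A hx₂ hy₂ s₂
  have c1 : os e₁ e₂ = 0 := by rw [he₁, he₂, lnf_os_lin, o1, o2, o3, o4]; ring
  have c2 : os e₁ f₂ = 0 := by rw [he₁, hf₂, lnf_os_lin, o1, o2, o3, o4]; ring
  have c3 : os f₁ e₂ = 0 := by rw [hf₁, he₂, lnf_os_lin, o1, o2, o3, o4]; ring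
  have c4 : os f₁ f₂ = 0 := by rw [hf₁, hf₂, lnf_os_lin, o1, o2, o3, o4]; ring
  have c1' : os e₂ e₁ = 0 := by rw [lnf_os_swap, c1, neg_zero]
  have c2' : os f₂ e₁ = 0 := by rw [lnf_os_swap, c2, neg_zero]
  have c3' : os e₂ f₁ = 0 := by rw [lnf_os_swap, c3, neg_zero]
  have c4' : os f₂ f₁ = 0 := by rw [lnf_os_swap, c4, neg_zero]
  have g1 : os f₁ e₁ = -1 := by rw [lnf_os_swap, ef₁]
  have g2 : os f₂ e₂ = -1 := by rw [lnf_os_swap, ef₂]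
  have hsym : ∀ z w : ℂ × ℂ, os (lnfFrm e₁ f₁ e₂ f₂ z) (lnfFrm e₁ f₁ e₂ f₂ w) = os z w := by
    intro z w
    rw [lnf_frm_apply, lnf_frm_apply]
    have h1 : z.1.re • e₁ + z.1.im • f₁ + (z.2.re • e₂ + z.2.im • f₂) =
        (1 : ℝ) • (z.1.re • e₁ + z.1.im • f₁) + (1 : ℝ) • (z.2.re • e₂ + z.2.im • f₂) := by module
    have h2 : w.1.re • e₁ + w.1.im • f₁ + (w.2.re • e₂ + w.2.im • f₂) =
        (1 : ℝ) • (w.1.re • e₁ + w.1.im • f₁) + (1 : ℝ) • (w.2.re • e₂ + w.2.im • f₂) := by module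
    rw [h1, h2, lnf_os_lin, lnf_os_lin, lnf_os_lin, lnf_os_lin, lnf_os_lin, c1, c2, c3, c4, c1', c2', c3', c4', g1, g2,
      ef₁, ef₂, lnf_os_self, lnf_os_self, lnf_os_self, lnf_os_self]
    simp only [os, Complex.add_im, Complex.mul_im, Complex.conj_re, Complex.conj_im]
    ring
  have hinj : Function.Injective (lnfFrm e₁ f₁ e₂ f₂) := by
    rw [← LinearMap.ker_eq_bot, LinearMap.ker_eq_bot']
    intro z hz
    apply lnf_os_nondeg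
    intro y
    rw [← hsym, hz]
    simp [os]
  set Li := (LinearEquiv.ofInjectiveEndo (lnfFrm e₁ f₁ e₂ f₂) hinj).toContinuousLinearEquiv with hLi
  have hLia : ∀ z, Li z = lnfFrm e₁ f₁ e₂ f₂ z := fun z => rfl
  have hcomm : ∀ z, A (Li z) = Li (Ld μ₁ μ₂ z) := by
    intro z
    rw [hLia, hLia, Ld_apply, lnf_frm_apply, lnf_frm_apply]
    simp only [map_add, map_smul, Ae₁, Af₁, Ae₂, Af₂, Complex.mul_re, Complex.mul_im]
    module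
  refine ⟨Li.symm, μ₁, μ₂, hμ₁, hμ₂, ?_, ?_⟩
  · intro ξ η
    rw [← hsym, ← hLia, ← hLia, Li.apply_symm_apply, Li.apply_symm_apply]
  · intro ξ
    rw [← Ld_apply, ContinuousLinearEquiv.symm_apply_eq, ← hcomm, Li.apply_symm_apply]

end Pool.Agent.MP_5027f4_cont
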