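import Pool.Agent.Lib_MP_5027f4_cont.QDefs

/-!
PIECE [QVee] (MP_5027f4_mp, T3).  Reduction to the first factor.
-/

open Set Filter Topology Metric Polynomial
open scoped ComplexConjugate ContDiff

namespace Pool.Agent.MP_5027f4_cont

variable {P : ℝ × (ℂ × ℂ) → ℂ × ℂ} {a : ℝ × (ℂ × ℂ) → ℝ}

private theorem qvee_inv {ν : ℂ} (hν : ν ≠ 1) (A : ℂ →L[ℝ] ℂ) (hA : ∀ v, A v = ν * v - v) :
    A.IsInvertible := by
  have hinj : Function.Injective (A : ℂ →ₗ[ℝ] ℂ) := by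
    rw [← LinearMap.ker_eq_bot, LinearMap.ker_eq_bot']
    intro v hv
    have h1 : A v = 0 := hv
    rw [hA, show ν * v - v = (ν - 1) * v by ring] at h1
    rcases mul_eq_zero.1 h1 with h2 | h2
    · exact absurd (sub_eq_zero.1 h2) hν
    · exact h2
  refine ⟨(LinearEquiv.ofInjectiveEndo _ hinj).toContinuousLinearEquiv, ?_⟩
  ext v
  all_goals rfl

/-- the map `p ↦ (p.1, (p.2, V p))` -/
private def qvee_phi (V : ℝ × ℂ → ℂ) (p : ℝ × ℂ) : ℝ × (ℂ × ℂ) := (p.1, (p.2, V p))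

private theorem qvee_phi_deriv {V : ℝ × ℂ → ℂ} {p : ℝ × ℂ} (hV : DifferentiableAt ℝ V p) :
    HasFDerivAt (qvee_phi V) ((ContinuousLinearMap.fst ℝ ℝ ℂ).prod
      ((ContinuousLinearMap.snd ℝ ℝ ℂ).prod (fderiv ℝ V p))) p :=
  hasFDerivAt_fst.prodMk (hasFDerivAt_snd.prodMk hV.hasFDerivAt)

private theorem qvee_phi_cont {V : ℝ × ℂ → ℂ} (hV : ContinuousAt V 0) (hV0 : V 0 = 0) :
    Tendsto (qvee_phi V) (𝓝 0) (𝓝 0) := by
  have h1 : ContinuousAt (qvee_phi V) 0 :=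
    continuousAt_fst.prodMk (continuousAt_snd.prodMk hV)
  have h2 : qvee_phi V 0 = 0 := by
    show ((0 : ℝ × ℂ).1, ((0 : ℝ × ℂ).2, V 0)) = 0
    rw [hV0]
    rfl
  have h3 : Tendsto (qvee_phi V) (𝓝 0) (𝓝 (qvee_phi V 0)) := h1
  rwa [h2] at h3

private theorem qvee_dz (P : ℝ × (ℂ × ℂ) → ℂ × ℂ) (q : ℝ × (ℂ × ℂ)) (ξ : ℂ × ℂ) :
    dz P q ξ = fderiv ℝ P q (0, ξ) := rfl

private theorem qvee_os_smul (t : ℝ) (ξ η : ℂ × ℂ) : os (t • ξ) η = t * os ξ η := by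
  unfold os
  simp
  ring

private theorem qvee_os_add (ξ ξ' η : ℂ × ℂ) : os (ξ + ξ') η = os ξ η + os ξ' η := by
  unfold os
  simp
  ring

private theorem qvee_os_anti (ξ η : ℂ × ℂ) : os ξ η = - os η ξ := by
  unfold os
  simp
  ring

private theorem qvee_os_self (ξ : ℂ × ℂ) : os ξ ξ = 0 := by
  have := qvee_os_anti ξ ξ
  linarith

private theorem qvee_alg (F F' V V' : ℂ) (e e' : ℂ) :
    (conj e * F' + conj F * e' + conj F * F').im = os (e + F, V) (e' + F', V') - os (e, V) (e', V') := by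
  unfold os
  simp
  ring

/-- Proof.  Implicit function theorem (analytic, see the proof of `exists_fix` in FixP.lean,
`ContDiffAt.implicitFunction`) for `G (p, v) = (P (p.1, (p.2, v))).2 - v`, `G 0 = 0`,
`∂G/∂v (0) v' = (dz P 0 (0, v')).2 - v' = (ν - 1) v'`, invertible.  `V (c, 0) = 0` for small `c` by the local
uniqueness, because `P (c, 0) = 0`.  Differentiate `(P (p.1, (p.2, V p))).2 = V p` at `0` in the direction
`(0, δ)`: `(dz P 0 (δ, V_δ)).2 = ν V_δ = V_δ`, so `V_δ = 0`. -/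
theorem exists_V (h : Fam P a) {ν : ℂ} (hν : ν ≠ 1) (h0 : ∀ z : ℂ × ℂ, dz P 0 z = (z.1, ν * z.2)) :
    ∃ V : ℝ × ℂ → ℂ, AnalyticAt ℝ V 0 ∧ (∀ᶠ c in 𝓝 (0 : ℝ), V (c, 0) = 0) ∧
      (∀ δ : ℂ, fderiv ℝ V 0 (0, δ) = 0) ∧
      ∀ᶠ p in 𝓝 (0 : ℝ × ℂ), (P (p.1, (p.2, V p))).2 = V p := by
  set u : (ℝ × ℂ) × ℂ := 0 with hu
  set ψ : (ℝ × ℂ) × ℂ → ℝ × (ℂ × ℂ) := fun p => (p.1.1, (p.1.2, p.2)) with hψ
  have hψd : ∀ p, HasFDerivAt ψ (((ContinuousLinearMap.fst ℝ ℝ ℂ).comp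
      (ContinuousLinearMap.fst ℝ (ℝ × ℂ) ℂ)).prod (((ContinuousLinearMap.snd ℝ ℝ ℂ).comp
      (ContinuousLinearMap.fst ℝ (ℝ × ℂ) ℂ)).prod (ContinuousLinearMap.snd ℝ (ℝ × ℂ) ℂ))) p :=
    fun p => (((ContinuousLinearMap.fst ℝ ℝ ℂ).comp
      (ContinuousLinearMap.fst ℝ (ℝ × ℂ) ℂ)).prod (((ContinuousLinearMap.snd ℝ ℝ ℂ).comp
      (ContinuousLinearMap.fst ℝ (ℝ × ℂ) ℂ)).prod
      (ContinuousLinearMap.snd ℝ (ℝ × ℂ) ℂ))).hasFDerivAt
  have hψa : AnalyticAt ℝ ψ u := by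
    have h1 : AnalyticAt ℝ (fun p : (ℝ × ℂ) × ℂ => p.1) u := analyticAt_fst
    have h2 : AnalyticAt ℝ (fun p : (ℝ × ℂ) × ℂ => p.1.1) u :=
      (analyticAt_fst (p := (u.1 : ℝ × ℂ))).comp h1
    have h3 : AnalyticAt ℝ (fun p : (ℝ × ℂ) × ℂ => p.1.2) u :=
      (analyticAt_snd (p := (u.1 : ℝ × ℂ))).comp h1
    exact h2.prod (h3.prod analyticAt_snd)
  have hψ0 : ψ u = 0 := rfl
  set f : (ℝ × ℂ) × ℂ → ℂ := fun p => (P (ψ p)).2 - p.2 with hf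
  have hP0 : P 0 = 0 := h.P0.self_of_nhds
  have hfu : f u = 0 := by
    show (P (ψ u)).2 - u.2 = 0
    rw [hψ0, hP0]
    simp [hu]
  have hPψ : AnalyticAt ℝ (fun p => P (ψ p)) u := by
    have h1 : AnalyticAt ℝ P (ψ u) := h.anP
    exact h1.comp hψa
  have han : AnalyticAt ℝ f u := by
    have h1 : AnalyticAt ℝ (fun p => (P (ψ p)).2) u := (analyticAt_snd).comp hPψ
    exact h1.sub analyticAt_snd
  have hcd : ContDiffAt ℝ ω f u := han.contDiffAt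
  have hdP : HasFDerivAt P (fderiv ℝ P 0) (ψ u) := h.anP.differentiableAt.hasFDerivAt
  have hder := ((hasFDerivAt_snd (𝕜 := ℝ) (E := ℂ) (F := ℂ) (p := P (ψ u))).comp u
    (hdP.comp u (hψd u))).sub (hasFDerivAt_snd (𝕜 := ℝ) (E := ℝ × ℂ) (F := ℂ) (p := u))
  have hder' : fderiv ℝ f u = _ := hder.fderiv
  have hinv : (fderiv ℝ f u ∘L .inr ℝ (ℝ × ℂ) ℂ).IsInvertible := by
    apply qvee_inv hν
    intro v
    rw [hder']
    have h1 := h0 (0, v)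
    rw [qvee_dz] at h1
    have h2 : (fderiv ℝ P 0 (0, (0, v))).2 = ν * v := by rw [h1]
    rw [← h2]
    rfl
  have pn : (ω : WithTop ℕ∞) ≠ 0 := by simp
  have hV0 : hcd.implicitFunction pn hinv 0 = 0 := hcd.implicitFunction_apply_self pn hinv
  have hVa : AnalyticAt ℝ (hcd.implicitFunction pn hinv) 0 :=
    (hcd.contDiffAt_implicitFunction pn hinv).analyticAt
  have hVf : ∀ᶠ p in 𝓝 (0 : ℝ × ℂ), (P (p.1, (p.2, hcd.implicitFunction pn hinv p))).2 =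
      hcd.implicitFunction pn hinv p := by
    have h3 : ∀ᶠ p in 𝓝 (0 : ℝ × ℂ), f (p, hcd.implicitFunction pn hinv p) = f u :=
      hcd.eventually_apply_implicitFunction pn hinv
    filter_upwards [h3] with k hk
    rw [hfu] at hk
    exact sub_eq_zero.mp hk
  refine ⟨hcd.implicitFunction pn hinv, hVa, ?_, ?_, hVf⟩
  · have h3 := hcd.eventually_apply_eq_iff_implicitFunction pn hinv
    have h4 : Tendsto (fun c : ℝ => (((c, (0 : ℂ)), (0 : ℂ)) : (ℝ × ℂ) × ℂ)) (𝓝 0) (𝓝 u) := by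
      have h5 : Continuous (fun c : ℝ => (((c, (0 : ℂ)), (0 : ℂ)) : (ℝ × ℂ) × ℂ)) := by fun_prop
      exact h5.tendsto 0
    filter_upwards [h4.eventually h3, h.P0] with c hc hc0
    have h5 : f ((c, 0), 0) = f u := by
      rw [hfu]
      show (P (c, ((0 : ℂ), (0 : ℂ)))).2 - 0 = 0
      have h6 : P (c, ((0 : ℂ), (0 : ℂ))) = 0 := hc0
      rw [h6]
      simp
    exact hc.1 h5
  · intro δ
    set V := hcd.implicitFunction pn hinv with hVdef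
    have h1 : HasFDerivAt (qvee_phi V) _ 0 := qvee_phi_deriv hVa.differentiableAt
    have h2 : HasFDerivAt P (fderiv ℝ P 0) (qvee_phi V 0) := by
      have : qvee_phi V 0 = 0 := by
        show ((0 : ℝ × ℂ).1, ((0 : ℝ × ℂ).2, V 0)) = 0
        rw [hV0]
        rfl
      rw [this]
      exact h.anP.differentiableAt.hasFDerivAt
    have h3 := (hasFDerivAt_snd (𝕜 := ℝ) (E := ℂ) (F := ℂ) (p := P (qvee_phi V 0))).comp
      (0 : ℝ × ℂ) (h2.comp 0 h1)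
    have h4 : fderiv ℝ V 0 = _ := (h3.congr_of_eventuallyEq (hVf.mono fun p hp => hp.symm)).fderiv
    have h5 : fderiv ℝ V 0 (0, δ) = (fderiv ℝ P 0 (0, (δ, fderiv ℝ V 0 (0, δ)))).2 := by
      conv_lhs => rw [h4]
      rfl
    rw [← qvee_dz, h0] at h5
    have h6 : (ν - 1) * fderiv ℝ V 0 (0, δ) = 0 := by
      have h7 : fderiv ℝ V 0 (0, δ) = ν * fderiv ℝ V 0 (0, δ) := h5
      linear_combination -h7
    rcases mul_eq_zero.1 h6 with h7 | h7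
    · exact absurd (sub_eq_zero.1 h7) hν
    · exact h7

/-- Proof.  For `p = (c, w)` near `0` and `e = (γ, δ)` put `z p = (w, V p)`, `Z p = P (c, z p)`
`= (w + F p, V p)`, `q = (c, z p)`, `z_e = (δ, V_e)`, `Z_e = (δ + F_e, V_e)` the derivatives in the direction
`e`, `P_c = fderiv P q (1, 0)`.  Chain rule: `Z_e = γ P_c + dz P q z_e`,
`A_e = γ a_c + fderiv a q (0, z_e) = γ a_c - os (dz P q z_e) P_c` (`h.rel`).  So
`A_e γ' - A_{e'} γ = - γ' os (dz P z_e) P_c + γ os (dz P z_{e'}) P_c` and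
`os Z_e Z_{e'} = γ os P_c (dz P z_{e'}) + γ' os (dz P z_e) P_c + os z_e z_{e'}` (`h.symp`; `os P_c P_c = 0`),
the sum is `os z_e z_{e'}` (`os` is antisymmetric):
`A_e γ' - A_{e'} γ + os Z_e Z_{e'} - os z_e z_{e'} = 0`.  Finally
`os Z_e Z_{e'} - os z_e z_{e'} = Im (conj (δ + F_e) (δ' + F_{e'})) - Im (conj δ δ')
= Im (conj δ F_{e'} + conj F_e δ' + conj F_e F_{e'})`. -/
theorem key_form (h : Fam P a) {V : ℝ × ℂ → ℂ} (hV : AnalyticAt ℝ V 0) (hV0 : V 0 = 0)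
    (hVf : ∀ᶠ p in 𝓝 (0 : ℝ × ℂ), (P (p.1, (p.2, V p))).2 = V p) :
    KeyForm (fun p => (P (p.1, (p.2, V p))).1 - p.2) (fun p => a (p.1, (p.2, V p))) := by
  have hφ := qvee_phi_cont hV.continuousAt hV0
  have hVd : ∀ᶠ p in 𝓝 (0 : ℝ × ℂ), DifferentiableAt ℝ V p :=
    hV.eventually_analyticAt.mono fun p hp => hp.differentiableAt
  have hPd : ∀ᶠ p in 𝓝 (0 : ℝ × ℂ), DifferentiableAt ℝ P (qvee_phi V p) :=
    hφ.eventually (h.anP.eventually_analyticAt.mono fun p hp => hp.differentiableAt)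
  have had : ∀ᶠ p in 𝓝 (0 : ℝ × ℂ), DifferentiableAt ℝ a (qvee_phi V p) :=
    hφ.eventually (h.ana.eventually_analyticAt.mono fun p hp => hp.differentiableAt)
  have hsy := hφ.eventually h.symp
  have hre := hφ.eventually h.rel
  filter_upwards [hVd, hPd, had, hsy, hre, hVf.eventually_nhds] with p h1 h2 h3 h4 h5 h6
  set q := qvee_phi V p with hq
  have hφd := qvee_phi_deriv h1
  have hPφ := h2.hasFDerivAt.comp p hφd
  have haφ := h3.hasFDerivAt.comp p hφd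
  have hF := ((hasFDerivAt_fst (𝕜 := ℝ) (E := ℂ) (F := ℂ) (p := P q)).comp p hPφ).sub
    (hasFDerivAt_snd (𝕜 := ℝ) (E := ℝ) (F := ℂ) (p := p))
  have hS := (hasFDerivAt_snd (𝕜 := ℝ) (E := ℂ) (F := ℂ) (p := P q)).comp p hPφ
  have eF : fderiv ℝ (fun p => (P (p.1, (p.2, V p))).1 - p.2) p = _ := hF.fderiv
  have eA : fderiv ℝ (fun p => a (p.1, (p.2, V p))) p = _ := haφ.fderiv
  have eV : fderiv ℝ V p = _ := (hS.congr_of_eventuallyEq (h6.mono fun p hp => hp.symm)).fderiv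
  have kF : ∀ e, fderiv ℝ (fun p => (P (p.1, (p.2, V p))).1 - p.2) p e =
      (fderiv ℝ P q (e.1, (e.2, fderiv ℝ V p e))).1 - e.2 := fun e => by
    rw [eF]
    rfl
  have kA : ∀ e, fderiv ℝ (fun p => a (p.1, (p.2, V p))) p e =
      fderiv ℝ a q (e.1, (e.2, fderiv ℝ V p e)) := fun e => by
    rw [eA]
    rfl
  have kV : ∀ e, fderiv ℝ V p e = (fderiv ℝ P q (e.1, (e.2, fderiv ℝ V p e))).2 := fun e => by
    conv_lhs => rw [eV]
    rfl
  have sp : ∀ (t : ℝ) (z : ℂ × ℂ), ((t, z) : ℝ × (ℂ × ℂ)) = t • ((1 : ℝ), (0 : ℂ × ℂ)) + (0, z) := by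
    intro t z
    simp
  have kP : ∀ e : ℝ × ℂ, fderiv ℝ P q (e.1, (e.2, fderiv ℝ V p e)) =
      e.1 • fderiv ℝ P q (1, 0) + dz P q (e.2, fderiv ℝ V p e) := by
    intro e
    rw [sp, map_add, map_smul, qvee_dz]
  have ka : ∀ e : ℝ × ℂ, fderiv ℝ a q (e.1, (e.2, fderiv ℝ V p e)) =
      e.1 * fderiv ℝ a q (1, 0) - os (dz P q (e.2, fderiv ℝ V p e)) (fderiv ℝ P q (1, 0)) := by
    intro e
    rw [sp, map_add, map_smul, h5, smul_eq_mul]
    ring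
  have kZ : ∀ e : ℝ × ℂ, (e.2 + fderiv ℝ (fun p => (P (p.1, (p.2, V p))).1 - p.2) p e,
      fderiv ℝ V p e) = fderiv ℝ P q (e.1, (e.2, fderiv ℝ V p e)) := by
    intro e
    refine Prod.ext ?_ (kV e)
    show e.2 + fderiv ℝ (fun p => (P (p.1, (p.2, V p))).1 - p.2) p e = _
    rw [kF]
    ring
  intro e e'
  rw [qvee_alg _ _ (fderiv ℝ V p e) (fderiv ℝ V p e'), kZ, kZ, kA, kA, ka, ka, kP, kP,
    ← h4 (e.2, fderiv ℝ V p e) (e'.2, fderiv ℝ V p e')]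
  set C := fderiv ℝ P q (1, 0)
  set W := dz P q (e.2, fderiv ℝ V p e)
  set W' := dz P q (e'.2, fderiv ℝ V p e')
  have b1 : os (e.1 • C + W) (e'.1 • C + W') =
      e.1 * os C W' + e'.1 * os W C + os W W' := by
    rw [qvee_os_add, qvee_os_smul, qvee_os_anti C, qvee_os_anti W, qvee_os_add, qvee_os_add,
      qvee_os_smul, qvee_os_smul, qvee_os_self, qvee_os_anti C W', qvee_os_anti W C,
      qvee_os_anti W W']
    ring
  rw [b1, qvee_os_anti C W']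
  ring

end Pool.Agent.MP_5027f4_cont
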