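import Pool.Agent.Lib_MP_5027f4_cont.SDefs

/-!
PIECE [SAlg] (MP_5027f4_mp, block S).  The coupling coefficient does not vanish.
-/

open Set Filter Topology Metric Polynomial
open scoped ComplexConjugate ContDiff
open Pool.Agent.MP_5027f4_mp

namespace Pool.Agent.MP_5027f4_cont

theorem rot_alg_aux {R b b' β T x X Pp q m Qm : ℂ} (hb : b = R ^ 2 + 2 * R + 3 / 2)
    (hb' : b' = R ^ 2 - 2 * R + 3 / 2)
    (E1 : -(R ^ 2 + 1 / 2) * Pp + b * q = β * T * x * (3 / 2 + b))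
    (E2 : b' * Pp - (R ^ 2 - 4 * R + 9 / 2) * q = β * T * x * (3 / 2 - 7 * b'))
    (E3 : -(R ^ 2 + 1 / 2) * m + b' * Qm = β * T * X * (3 / 2 + b'))
    (E4 : b * m - (R ^ 2 + 4 * R + 9 / 2) * Qm = β * T * X * (3 / 2 - 7 * b))
    (H : b' * (1 + 2 / 3 * b) * X * Pp + b * (1 + 2 / 3 * b') * x * m +
      b * (1 - 14 / 3 * b') * X * q + b' * (1 - 14 / 3 * b) * x * Qm +
      β * T * (x * X) * (2 * (b' + b) + 40 / 3 * b * b') = 0) :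
    β * T * (x * X) * (R ^ 4 * (1 - R ^ 2) ^ 2 * (7 - 6 * R ^ 2)) = 0 := by
  have s1 : (2 * R * (1 - R) * (2 * R - 1)) * Pp = β * T * x *
      (-(R ^ 2 - 4 * R + 9 / 2) * (3 / 2 + b) - b * (3 / 2 - 7 * b')) := by
    subst hb hb'
    linear_combination (-(R ^ 2 - 4 * R + 9 / 2)) * E1 - (R ^ 2 + 2 * R + 3 / 2) * E2
  have s2 : (2 * R * (1 - R) * (2 * R - 1)) * q = β * T * x *
      (-(R ^ 2 + 1 / 2) * (3 / 2 - 7 * b') - b' * (3 / 2 + b)) := by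
    subst hb hb'
    linear_combination (-(R ^ 2 + 1 / 2)) * E2 - (R ^ 2 - 2 * R + 3 / 2) * E1
  have s3 : (2 * R * (R + 1) * (2 * R + 1)) * m = β * T * X *
      (-(R ^ 2 + 4 * R + 9 / 2) * (3 / 2 + b') - b' * (3 / 2 - 7 * b)) := by
    subst hb hb'
    linear_combination (-(R ^ 2 + 4 * R + 9 / 2)) * E3 - (R ^ 2 - 2 * R + 3 / 2) * E4
  have s4 : (2 * R * (R + 1) * (2 * R + 1)) * Qm = β * T * X *
      (-(R ^ 2 + 1 / 2) * (3 / 2 - 7 * b) - b * (3 / 2 + b')) := by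
    subst hb hb'
    linear_combination (-(R ^ 2 + 1 / 2)) * E4 - (R ^ 2 + 2 * R + 3 / 2) * E3
  subst hb hb'
  linear_combination (-(3 / 16 : ℂ)) * ((2 * R * (1 - R) * (2 * R - 1)) * (2 * R * (R + 1) * (2 * R + 1)) * H -
    (2 * R * (R + 1) * (2 * R + 1)) * ((R ^ 2 - 2 * R + 3 / 2) * (1 + 2 / 3 * (R ^ 2 + 2 * R + 3 / 2)) * X) * s1 -
    (2 * R * (R + 1) * (2 * R + 1)) * ((R ^ 2 + 2 * R + 3 / 2) * (1 - 14 / 3 * (R ^ 2 - 2 * R + 3 / 2)) * X) * s2 -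
    (2 * R * (1 - R) * (2 * R - 1)) * ((R ^ 2 + 2 * R + 3 / 2) * (1 + 2 / 3 * (R ^ 2 - 2 * R + 3 / 2)) * x) * s3 -
    (2 * R * (1 - R) * (2 * R - 1)) * ((R ^ 2 - 2 * R + 3 / 2) * (1 - 14 / 3 * (R ^ 2 + 2 * R + 3 / 2)) * x) * s4)

/-- Proof.  Let `a = - (3 / 2) s`, `b = r² + 2 r + 3 / 2`; `a² = (9 / 4) s² = (r² + 3 / 2)² - 4 r²` (`hres`),
`a ≠ 0`.  `hrel`: `a conj c₂ = b c₁`, so `a c₂ = b conj c₁`.  With `w = c₁ conj c₁ ≠ 0`: `a c₁ c₂ = b w`,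
`a conj c₁ conj c₂ = b w`, `a² c₂ conj c₂ = b² w`.  The determinants of the linear systems `e1, e2` and
`e3, e4` are `2 r (1 - r) (2 r - 1)` and `2 r (r + 1) (2 r + 1)` (use `hres`).  Multiply `hsum` by
`a² · 2 r (1 - r) (2 r - 1) · 2 r (r + 1) (2 r + 1)` and eliminate `Pp, Qp, Pm, Qm`: the result is
`(2 / 3) Λ β T w` times the product of the two determinants, with
`Λ = 2 r² (1 - r²) (7 - 6 r²) (r² + 2 r + 3 / 2) / (1 - 4 r²) ≠ 0` (checked by computer: with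
`n₊ = (a - s b, b + 7 s a)`, `n₋ = (b - s a, a + 7 s b)`, `D (l) = [[-l² - 2 l - 3/2, - (3/2) s], [- (3/2) s,
-l² + 2 l - 3/2]]`:
`(3/2) (n₊ᵀ D(-1+r)⁻¹ n₊ + n₋ᵀ D(-1-r)⁻¹ n₋) + 2 (a² + b²) - 20 s a b = (2 / 3) Λ`).  In detail
`s a = - (2 / 3) a²`, so all entries are polynomials in `r` times `1` or `s`. -/
theorem rot_alg {s r T : ℝ} {c₁ c₂ β Pp Qp Pm Qm : ℂ} (hr : 0 < r) (hr1 : r < 1)
    (hr2 : r ≠ 1 / 2) (hT : T ≠ 0) (hres : r ^ 4 - r ^ 2 + 9 / 4 * (1 - s ^ 2) = 0)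
    (hβ : β ≠ 0) (hc : c₁ ≠ 0)
    (hrel : -((r : ℂ) ^ 2 + 2 * (r : ℂ) + 3 / 2) * c₁ = 3 / 2 * (s : ℂ) * conj c₂)
    (e1 : (-((-1 + r : ℝ) : ℂ) ^ 2 - 2 * ((-1 + r : ℝ) : ℂ) - 3 / 2) * Pp - 3 / 2 * (s : ℂ) * Qp =
      3 / 2 * β * ((T : ℂ) * (c₁ - (s : ℂ) * conj c₂)))
    (e2 : (-((-1 + r : ℝ) : ℂ) ^ 2 + 2 * ((-1 + r : ℝ) : ℂ) - 3 / 2) * Qp - 3 / 2 * (s : ℂ) * Pp =
      3 / 2 * β * ((T : ℂ) * (conj c₂ + 7 * (s : ℂ) * c₁)))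
    (e3 : (-((-1 - r : ℝ) : ℂ) ^ 2 - 2 * ((-1 - r : ℝ) : ℂ) - 3 / 2) * Pm - 3 / 2 * (s : ℂ) * Qm =
      3 / 2 * β * ((T : ℂ) * (c₂ - (s : ℂ) * conj c₁)))
    (e4 : (-((-1 - r : ℝ) : ℂ) ^ 2 + 2 * ((-1 - r : ℝ) : ℂ) - 3 / 2) * Qm - 3 / 2 * (s : ℂ) * Pm =
      3 / 2 * β * ((T : ℂ) * (conj c₁ + 7 * (s : ℂ) * c₂)))
    (hsum : (conj c₁ - (s : ℂ) * c₂) * Pp + (conj c₂ - (s : ℂ) * c₁) * Pm +
      (c₂ + 7 * (s : ℂ) * conj c₁) * Qp + (c₁ + 7 * (s : ℂ) * conj c₂) * Qm +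
      β * (T : ℂ) * (2 * (c₁ * conj c₁ + c₂ * conj c₂) - 6 * (s : ℂ) * (c₁ * c₂) -
        14 * (s : ℂ) * (conj c₁ * conj c₂)) +
      (s : ℂ) * β * (T : ℂ) * (2 * (conj c₁ * conj c₂) - 2 * (c₁ * c₂)) = 0) : False := by
  have hsR : 9 / 4 * s ^ 2 = (r ^ 2 + 2 * r + 3 / 2) * (r ^ 2 - 2 * r + 3 / 2) := by
    linear_combination -hres
  have hbpos : 0 < r ^ 2 + 2 * r + 3 / 2 := by positivity
  have hbpos' : 0 < r ^ 2 - 2 * r + 3 / 2 := by nlinarith [sq_nonneg (r - 1)]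
  have hs : s ≠ 0 := by
    rintro rfl
    have h1 := mul_pos hbpos hbpos'
    rw [← hsR] at h1
    norm_num at h1
  have hsC : (9 : ℂ) / 4 * (s : ℂ) ^ 2 = ((r : ℂ) ^ 2 + 2 * (r : ℂ) + 3 / 2) *
      ((r : ℂ) ^ 2 - 2 * (r : ℂ) + 3 / 2) := by
    have h1 := congrArg (fun y : ℝ => (y : ℂ)) hsR
    push_cast at h1
    exact h1
  have hsC0 : (s : ℂ) ≠ 0 := by exact_mod_cast hs
  have hb0 : (r : ℂ) ^ 2 + 2 * (r : ℂ) + 3 / 2 ≠ 0 := by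
    intro h
    have h1 : ((r ^ 2 + 2 * r + 3 / 2 : ℝ) : ℂ) = 0 := by push_cast; exact h
    exact hbpos.ne' (by exact_mod_cast h1)
  have hb0' : (r : ℂ) ^ 2 - 2 * (r : ℂ) + 3 / 2 ≠ 0 := by
    intro h
    have h1 : ((r ^ 2 - 2 * r + 3 / 2 : ℝ) : ℂ) = 0 := by push_cast; exact h
    exact hbpos'.ne' (by exact_mod_cast h1)
  have hrel' : -((r : ℂ) ^ 2 + 2 * (r : ℂ) + 3 / 2) * conj c₁ = 3 / 2 * (s : ℂ) * c₂ := by
    have h1 := congrArg (starRingEnd ℂ) hrel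
    simp only [map_mul, map_neg, map_add, map_pow, map_div₀, map_ofNat, Complex.conj_ofReal,
      Complex.conj_conj] at h1
    exact h1
  obtain ⟨b, hb⟩ : ∃ b : ℂ, b = (r : ℂ) ^ 2 + 2 * (r : ℂ) + 3 / 2 := ⟨_, rfl⟩
  obtain ⟨b', hb'⟩ : ∃ b' : ℂ, b' = (r : ℂ) ^ 2 - 2 * (r : ℂ) + 3 / 2 := ⟨_, rfl⟩
  obtain ⟨X, hX⟩ : ∃ X : ℂ, X = conj c₁ := ⟨_, rfl⟩
  obtain ⟨D, hD⟩ : ∃ D : ℂ, D = conj c₂ := ⟨_, rfl⟩
  have hX0 : X ≠ 0 := by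
    rw [hX]
    exact (_root_.map_ne_zero _).2 hc
  rw [← hb] at hb0 hrel hrel' hsC
  rw [← hb'] at hb0' hsC
  rw [← hX] at hrel' e3 e4 hsum
  rw [← hD] at hrel e1 e2 hsum
  obtain ⟨t, ht⟩ : ∃ t : ℂ, t = -(2 * b / (3 * (s : ℂ))) := ⟨_, rfl⟩
  have ht0 : t ≠ 0 := by
    rw [ht]
    exact neg_ne_zero.2 (div_ne_zero (mul_ne_zero two_ne_zero hb0) (mul_ne_zero three_ne_zero hsC0))
  have hst : (s : ℂ) * t = -(2 / 3) * b := by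
    rw [ht]
    field_simp
  have hDt : D = t * c₁ := by
    rw [ht]
    field_simp
    linear_combination (-2 : ℂ) * hrel
  have hct : c₂ = t * X := by
    rw [ht]
    field_simp
    linear_combination (-2 : ℂ) * hrel'
  have hbt : b' * t ^ 2 = b := by
    have h1 : (s : ℂ) ^ 2 * (b' * t ^ 2) = (s : ℂ) ^ 2 * b := by
      have h2 : ((s : ℂ) * t) ^ 2 = 4 / 9 * b ^ 2 := by
        rw [hst]
        ring
      linear_combination b' * h2 - 4 / 9 * b * hsC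
    exact mul_left_cancel₀ (pow_ne_zero 2 hsC0) h1
  have hS : (s : ℂ) = -(2 / 3) * b' * t := by
    have h1 : (s : ℂ) * t = (-(2 / 3) * b' * t) * t := by
      rw [hst]
      linear_combination (2 / 3 : ℂ) * hbt
    exact mul_right_cancel₀ ht0 h1
  obtain ⟨q, hq⟩ : ∃ q : ℂ, Qp = t * q := ⟨Qp / t, by field_simp⟩
  obtain ⟨m, hm⟩ : ∃ m : ℂ, Pm = t * m := ⟨Pm / t, by field_simp⟩
  rw [hDt, hq] at e1 e2
  rw [hct, hm] at e3 e4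
  rw [hDt, hct, hq, hm] at hsum
  push_cast at e1 e2 e3 e4
  have E1 : -((r : ℂ) ^ 2 + 1 / 2) * Pp + b * q = β * (T : ℂ) * c₁ * (3 / 2 + b) := by
    linear_combination e1 + (3 / 2 * q - 3 / 2 * β * (T : ℂ) * c₁) * hst
  have E2 : b' * Pp - ((r : ℂ) ^ 2 - 4 * (r : ℂ) + 9 / 2) * q =
      β * (T : ℂ) * c₁ * (3 / 2 - 7 * b') := by
    refine mul_left_cancel₀ ht0 ?_
    linear_combination e2 + (3 / 2 * Pp + 21 / 2 * β * (T : ℂ) * c₁) * hS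
  have E3 : -((r : ℂ) ^ 2 + 1 / 2) * m + b' * Qm = β * (T : ℂ) * X * (3 / 2 + b') := by
    refine mul_left_cancel₀ ht0 ?_
    linear_combination e3 + (3 / 2 * Qm - 3 / 2 * β * (T : ℂ) * X) * hS
  have E4 : b * m - ((r : ℂ) ^ 2 + 4 * (r : ℂ) + 9 / 2) * Qm =
      β * (T : ℂ) * X * (3 / 2 - 7 * b) := by
    linear_combination e4 + (3 / 2 * m + 21 / 2 * β * (T : ℂ) * X) * hst
  have H : b' * (1 + 2 / 3 * b) * X * Pp + b * (1 + 2 / 3 * b') * c₁ * m +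
      b * (1 - 14 / 3 * b') * X * q + b' * (1 - 14 / 3 * b) * c₁ * Qm +
      β * (T : ℂ) * (c₁ * X) * (2 * (b' + b) + 40 / 3 * b * b') = 0 := by
    linear_combination b' * hsum + (b' * X * Pp + b' * c₁ * m - 7 * b' * X * q - 7 * b' * c₁ * Qm +
      20 * b' * β * (T : ℂ) * c₁ * X) * hst - (c₁ * m + X * q + 2 * β * (T : ℂ) * (c₁ * X)) * hbt
  have hfin := rot_alg_aux hb hb' E1 E2 E3 E4 H
  have hTC : (T : ℂ) ≠ 0 := by exact_mod_cast hT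
  rcases mul_eq_zero.1 hfin with h1 | h1
  · exact mul_ne_zero (mul_ne_zero hβ hTC) (mul_ne_zero hc hX0) h1
  · have h2 : r ^ 4 * (1 - r ^ 2) ^ 2 * (7 - 6 * r ^ 2) = 0 := by exact_mod_cast h1
    have h3 : r ^ 2 < 1 := by nlinarith
    have h4 : 0 < r ^ 4 * (1 - r ^ 2) ^ 2 * (7 - 6 * r ^ 2) := by
      have h5 : 0 < 1 - r ^ 2 := by linarith
      have h6 : 0 < 7 - 6 * r ^ 2 := by linarith
      positivity
    exact h4.ne' h2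

end Pool.Agent.MP_5027f4_cont
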