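import Pool.Agent.Lib_MP_5027f4_cont.SSc
import Pool.Agent.Lib_MP_5027f4_cont.MJac

/-!
PIECE [SBack] (MP_5027f4_mp, block S).  Scaled solutions and solutions of the three-body problem.
-/

open Set Filter Topology Metric Polynomial
open scoped ComplexConjugate ContDiff
open Pool.Agent.MP_5027f4_mp
open Pool.Agent.MP_5027f4_ell (Tri Shape cc coord Mt sg sm Nn Gz epsf kapf vf Bs IsFund Mat hf F1 F2)

namespace Pool.Agent.MP_5027f4_cont

variable {m : Fin 3 → ℝ} {ϖ : ℂ} {S : Shape} {d : Fin 3 → ℂ}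
  {e : ((ℂ × ℂ) × (ℂ × ℂ)) ≃L[ℝ] comSub m}

/-- A function with derivative zero on `[0, T]` is constant. -/
private theorem sback_const {T : ℝ} {f : ℝ → ℝ}
    (h : ∀ t ∈ Icc 0 T, HasDerivWithinAt f 0 (Icc 0 T) t) : ∀ t ∈ Icc 0 T, f t = f 0 :=
  constant_of_has_deriv_right_zero (fun t ht => (h t ht).continuousWithinAt)
    fun t ht => hasDerivWithinAt_Ici_of_Icc ht (h t (Ico_subset_Icc_self ht))

private theorem sback_fst {T ε : ℝ} {X : ℝ → ℝ × V4}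
    (hX : Solves (VS S) (SD S) (Icc 0 T) X) (h0 : (X 0).1 = ε) :
    ∀ t ∈ Icc 0 T, (X t).1 = ε := by
  have h1 : ∀ t ∈ Icc 0 T, HasDerivWithinAt (fun t => (X t).1) (0 : ℝ) (Icc 0 T) t :=
    fun t ht => (ContinuousLinearMap.fst ℝ ℝ V4).hasFDerivAt.comp_hasDerivWithinAt t (hX t ht).2
  intro t ht
  exact (sback_const h1 t ht).trans h0

private theorem sback_mem {T ε : ℝ} {X : ℝ → ℝ × V4}
    (hX : Solves (VS S) (SD S) (Icc 0 T) X) (h0 : (X 0).1 = ε) {t : ℝ} (ht : t ∈ Icc 0 T) :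
    (ε, (X t).2) ∈ SD S := by
  have h1 := (hX t ht).1
  have h2 : X t = (ε, (X t).2) := Prod.ext (sback_fst hX h0 t ht) rfl
  rw [← h2]
  exact h1

/-- Proof.  The first component of `X` has the derivative `0` on `[0, T]`, so it is constant; then
`p = (X ·).2` has the derivative `gs S ε (p t)`, and `t ↦ e (sc ε (p t))` has the derivative
`e (sc ε (gs S ε (p t))) = fld₀ m (e (sc ε (p t)))` (`fld_sc`); it stays in `noColl₀ m` (`noColl_sc`).
`Solves.coe` (Nondeg.lean) gives the solution in the phase space. -/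
theorem solves_sc (hm : ∀ a, 0 < m a) (hϖ : ϖ ^ 2 + ϖ + 1 = 0) (hTr : Tri m ϖ S d)
    (he : IsCo m ϖ d e) {T ε : ℝ} (hT : 0 ≤ T) {X : ℝ → ℝ × V4}
    (hX : Solves (VS S) (SD S) (Icc 0 T) X) (h0 : (X 0).1 = ε) :
    (∀ t ∈ Icc 0 T, (X t).1 = ε) ∧
      Solves (fld m) (frame m) (Icc 0 T) (fun t => ((e (sc ε (X t).2) : comSub m) : Ph)) := by
  refine ⟨sback_fst hX h0, Solves.coe (y := fun t => e (sc ε (X t).2)) fun t ht => ?_⟩
  have hmem := sback_mem hX h0 ht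
  refine ⟨noColl_sc hϖ hTr he hmem, ?_⟩
  have h1 : HasDerivWithinAt (fun t => (X t).2) (gs S (X t).1 (X t).2) (Icc 0 T) t :=
    (ContinuousLinearMap.snd ℝ ℝ V4).hasFDerivAt.comp_hasDerivWithinAt t (hX t ht).2
  rw [sback_fst hX h0 t ht] at h1
  have h2 : HasDerivWithinAt (fun t => e (sc ε (X t).2)) (e (sc ε (gs S ε (X t).2)))
      (Icc 0 T) t :=
    (((e : V4 →L[ℝ] comSub m).comp (sc ε)).hasFDerivAt).comp_hasDerivWithinAt t h1
  rw [fld_sc hm hϖ hTr he hmem]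
  exact h2

/-- Proof.  `(A ·).1` has the derivative `0` (`fderiv_VS_fst`), so `A t = (0, (A t).2)`; `(A ·).2` has the
derivative `fderiv (gs S ε) (X t).2 (A t).2` (`fderiv_VS`); `fderiv_fld_sc` and `coe_fderiv_fld₀`. -/
theorem jac_sc (hm : ∀ a, 0 < m a) (hϖ : ϖ ^ 2 + ϖ + 1 = 0) (hTr : Tri m ϖ S d)
    (he : IsCo m ϖ d e) {T ε : ℝ} (hT : 0 ≤ T) {X A : ℝ → ℝ × V4}
    (hX : Solves (VS S) (SD S) (Icc 0 T) X) (h0 : (X 0).1 = ε) (hA : Jac (VS S) X A T)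
    (hA0 : (A 0).1 = 0) :
    (∀ t ∈ Icc 0 T, (A t).1 = 0) ∧
      IsJacobi m (fun t => ((e (sc ε (X t).2) : comSub m) : Ph)) T
        (fun t => ((e (sc ε (A t).2) : comSub m) : Ph)) := by
  have hfst : ∀ t ∈ Icc 0 T, (A t).1 = 0 := by
    have h1 : ∀ t ∈ Icc 0 T, HasDerivWithinAt (fun t => (A t).1) (0 : ℝ) (Icc 0 T) t := by
      intro t ht
      have h2 := (ContinuousLinearMap.fst ℝ ℝ V4).hasFDerivAt.comp_hasDerivWithinAt t (hA t ht)
      have h3 : (ContinuousLinearMap.fst ℝ ℝ V4) (fderiv ℝ (VS S) (X t) (A t)) = 0 :=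
        fderiv_VS_fst (hX t ht).1 (A t)
      rw [h3] at h2
      exact h2
    intro t ht
    exact (sback_const h1 t ht).trans hA0
  refine ⟨hfst, fun t ht => ?_⟩
  have hm' := mem_comSub.1 (e (sc ε (A t).2)).2
  refine ⟨hm'.1, hm'.2, ?_⟩
  have hmem := sback_mem hX h0 ht
  have hXt : X t = (ε, (X t).2) := Prod.ext (sback_fst hX h0 t ht) rfl
  have hAt : A t = (0, (A t).2) := Prod.ext (hfst t ht) rfl
  have h1 := (ContinuousLinearMap.snd ℝ ℝ V4).hasFDerivAt.comp_hasDerivWithinAt t (hA t ht)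
  have h3 : (ContinuousLinearMap.snd ℝ ℝ V4) (fderiv ℝ (VS S) (X t) (A t)) =
      fderiv ℝ (gs S ε) (X t).2 (A t).2 := by
    have h4 : fderiv ℝ (VS S) (X t) (A t) = (0, fderiv ℝ (gs S ε) (X t).2 (A t).2) := by
      have h5 := fderiv_VS hmem (A t).2
      rw [← hXt, ← hAt] at h5
      exact h5
    rw [h4]
    rfl
  rw [h3] at h1
  have h2 : HasDerivWithinAt (fun t => ((e (sc ε (A t).2) : comSub m) : Ph))
      ((e (sc ε (fderiv ℝ (gs S ε) (X t).2 (A t).2)) : comSub m) : Ph) (Icc 0 T) t :=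
    (((incl m).comp ((e : V4 →L[ℝ] comSub m).comp (sc ε))).hasFDerivAt).comp_hasDerivWithinAt
      t h1
  rw [← fderiv_fld_sc hm hϖ hTr he hmem, coe_fderiv_fld₀ (noColl_sc hϖ hTr he hmem)] at h2
  exact h2

/-- Proof.  `hΨ.cl` at the base point gives a solution with the same initial value which ends at `Ψ y`;
uniqueness (`Solves.eqOn_of_eq` on `noColl`, `frame_subset`) with `solves_sc`: the first claim.  The
second is `CMap.jacobi` with `jac_sc`. -/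
theorem cmap_sc (hm : ∀ a, 0 < m a) (hϖ : ϖ ^ 2 + ϖ + 1 = 0) (hTr : Tri m ϖ S d)
    (he : IsCo m ϖ d e) {T ε : ℝ} (hT : 0 < T) {X A : ℝ → ℝ × V4}
    (hX : Solves (VS S) (SD S) (Icc 0 T) X) (h0 : (X 0).1 = ε) (hA : Jac (VS S) X A T)
    (hA0 : (A 0).1 = 0) {Ψ : comSub m → comSub m} (hΨ : CMap m T (e (sc ε (X 0).2)) Ψ) :
    Ψ (e (sc ε (X 0).2)) = e (sc ε (X T).2) ∧
      fderiv ℝ Ψ (e (sc ε (X 0).2)) (e (sc ε (A 0).2)) = e (sc ε (A T).2) := by
  have hs := (solves_sc hm hϖ hTr he hT.le hX h0).2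
  have hj := (jac_sc hm hϖ hTr he hT.le hX h0 hA hA0).2
  constructor
  · obtain ⟨x, hx, hx0, hxT⟩ := hΨ.cl.self_of_nhds
    have h1 : Solves (fld m) noColl (Icc 0 T) x :=
      fun t ht => ⟨frame_subset m (hx t ht).1, (hx t ht).2⟩
    have h2 : Solves (fld m) noColl (Icc 0 T)
        (fun t => ((e (sc ε (X t).2) : comSub m) : Ph)) :=
      fun t ht => ⟨frame_subset m (hs t ht).1, (hs t ht).2⟩
    have h3 := h1.eqOn_of_eq isOpen_noColl (contDiffOn_fld m) h2 hx0 (right_mem_Icc.2 hT.le)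
    exact Subtype.ext (hxT.symm.trans h3)
  · exact Subtype.ext (CMap.jacobi hT hΨ hs rfl hj (e (sc ε (A 0).2)).2)

end Pool.Agent.MP_5027f4_cont
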