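import Pool.Agent.Lib_MP_5027f4_cont.SSm

/-!
PIECE [SCon] (MP_5027f4_mp, block S).  The eccentricity vector along the scaled flow.
-/

open Set Filter Topology Metric Polynomial
open scoped ComplexConjugate ContDiff
open Pool.Agent.MP_5027f4_mp
open Pool.Agent.MP_5027f4_ell (Tri Shape cc coord Mt sg sm Nn Gz epsf kapf vf Bs IsFund Mat hf F1 F2)

namespace Pool.Agent.MP_5027f4_cont

/-- the eccentricity vector of the homographic part -/
noncomputable def ef (M : ℝ) (p : V4) : ℂ := epsf M p.1.1 p.1.2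

/-- derivative of the norm along a curve -/
private theorem sc_hasDerivAt_norm {z : ℝ → ℂ} {a : ℂ} {t : ℝ} (hz : HasDerivAt z a t) (h0 : z t ≠ 0) :
    HasDerivAt (fun t => ‖z t‖) ((conj (z t) * a).re / ‖z t‖) t := by
  have h1 : HasDerivAt (fun t => (z t).re) a.re t := by
    have := (Complex.reCLM.hasFDerivAt (x := z t)).comp_hasDerivAt t hz
    exact this
  have h2 : HasDerivAt (fun t => (z t).im) a.im t := by
    have := (Complex.imCLM.hasFDerivAt (x := z t)).comp_hasDerivAt t hz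
    exact this
  have h3 : HasDerivAt (fun t => (z t).re * (z t).re + (z t).im * (z t).im)
      (a.re * (z t).re + (z t).re * a.re + (a.im * (z t).im + (z t).im * a.im)) t :=
    (h1.mul h1).add (h2.mul h2)
  have hne : (z t).re * (z t).re + (z t).im * (z t).im ≠ 0 := by
    rw [← Complex.normSq_apply]
    exact fun h => h0 (Complex.normSq_eq_zero.1 h)
  have h4 := h3.sqrt hne
  have e1 : (fun t => ‖z t‖) = fun t => Real.sqrt ((z t).re * (z t).re + (z t).im * (z t).im) := by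
    funext s
    rw [← Complex.normSq_apply, Complex.norm_def]
  rw [e1]
  have e2 : Real.sqrt ((z t).re * (z t).re + (z t).im * (z t).im) = ‖z t‖ := by
    rw [← Complex.normSq_apply, Complex.norm_def]
  rw [e2] at h4
  convert h4 using 1
  have h5 : ‖z t‖ ≠ 0 := norm_ne_zero_iff.2 h0
  rw [Complex.mul_re, Complex.conj_re, Complex.conj_im]
  field_simp
  ring

theorem contDiffAt_ef (M : ℝ) {p : V4} (hz : p.1.1 ≠ 0) : ContDiffAt ℝ 3 (ef M) p := by
  have c1 : ContDiffAt ℝ 3 (fun p : V4 => p.1.1) p := (contDiff_fst.comp contDiff_fst).contDiffAt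
  have c2 : ContDiffAt ℝ 3 (fun p : V4 => p.1.2) p := (contDiff_snd.comp contDiff_fst).contDiffAt
  have c3 : ContDiffAt ℝ 3 (fun p : V4 => conj p.1.1) p :=
    (Complex.conjCLE.contDiff.comp (contDiff_fst.comp contDiff_fst)).contDiffAt
  have c4 : ContDiffAt ℝ 3 (fun p : V4 => ((Gz p.1.1 p.1.2 : ℝ) : ℂ)) p := by
    have h1 : ContDiffAt ℝ 3 (fun p : V4 => conj p.1.1 * p.1.2) p := c3.mul c2
    exact (Complex.ofRealCLM.contDiff.contDiffAt).comp p
      ((Complex.imCLM.contDiff.contDiffAt).comp p h1)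
  have c5 : ContDiffAt ℝ 3 (fun p : V4 => ((‖p.1.1‖ : ℝ) : ℂ)) p :=
    (Complex.ofRealCLM.contDiff.contDiffAt).comp p (c1.norm ℝ hz)
  have hn : ((‖p.1.1‖ : ℝ) : ℂ) ≠ 0 := Complex.ofReal_ne_zero.2 (norm_ne_zero_iff.2 hz)
  have c6 : ContDiffAt ℝ 3 (fun p : V4 => p.1.1 / ((‖p.1.1‖ : ℝ) : ℂ)) p := by
    simp only [div_eq_mul_inv]
    exact c1.mul (c5.inv hn)
  unfold ef epsf
  exact (((contDiffAt_const.mul c4).mul c2).sub (contDiffAt_const.mul c6)).div_const _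

/-- the derivative of `ef` along a line -/
private theorem ef_deriv (M : ℝ) {p a : V4} (hz : p.1.1 ≠ 0) :
    fderiv ℝ (ef M) p a = (-Complex.I * ((((conj a.1.1 * p.1.2 + conj p.1.1 * a.1.2).im : ℝ) : ℂ) * p.1.2
      + (Gz p.1.1 p.1.2 : ℂ) * a.1.2) - M * (a.1.1 / ((‖p.1.1‖ : ℝ) : ℂ) -
        p.1.1 * (((conj p.1.1 * a.1.1).re : ℝ) : ℂ) / ((‖p.1.1‖ : ℝ) : ℂ) ^ 3)) / M := by
  have hd : DifferentiableAt ℝ (ef M) p := (contDiffAt_ef M hz).differentiableAt (by norm_num)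
  have hline : HasDerivAt (fun t : ℝ => p + t • a) a 0 := by
    have h := ((hasDerivAt_id (0 : ℝ)).smul_const a).const_add p
    simpa using h
  have e0 : p + (0 : ℝ) • a = p := by simp
  have h1 : HasDerivAt (fun t : ℝ => ef M (p + t • a)) (fderiv ℝ (ef M) p a) 0 := by
    have h := hd.hasFDerivAt
    rw [← e0] at h
    have h2 := h.comp_hasDerivAt (0 : ℝ) hline
    rw [e0] at h2
    exact h2
  have z1 : HasDerivAt (fun t : ℝ => p.1.1 + (t : ℂ) * a.1.1) a.1.1 0 := by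
    have h := ((Complex.ofRealCLM.hasDerivAt (x := (0 : ℝ))).mul_const a.1.1).const_add p.1.1
    simpa using h
  have z2 : HasDerivAt (fun t : ℝ => p.1.2 + (t : ℂ) * a.1.2) a.1.2 0 := by
    have h := ((Complex.ofRealCLM.hasDerivAt (x := (0 : ℝ))).mul_const a.1.2).const_add p.1.2
    simpa using h
  have z1c : HasDerivAt (fun t : ℝ => conj (p.1.1 + (t : ℂ) * a.1.1)) (conj a.1.1) 0 := by
    have h := (Complex.conjCLE.toContinuousLinearMap.hasFDerivAt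
      (x := p.1.1 + ((0 : ℝ) : ℂ) * a.1.1)).comp_hasDerivAt (0 : ℝ) z1
    exact h
  have hp : HasDerivAt (fun t : ℝ => conj (p.1.1 + (t : ℂ) * a.1.1) * (p.1.2 + (t : ℂ) * a.1.2))
      (conj a.1.1 * p.1.2 + conj p.1.1 * a.1.2) 0 := by
    exact (z1c.mul z2).congr_deriv (by simp)
  have hG : HasDerivAt (fun t : ℝ => ((Gz (p.1.1 + (t : ℂ) * a.1.1) (p.1.2 + (t : ℂ) * a.1.2) : ℝ) : ℂ))
      (((conj a.1.1 * p.1.2 + conj p.1.1 * a.1.2).im : ℝ) : ℂ) 0 := by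
    have h := (Complex.imCLM.hasFDerivAt
      (x := conj (p.1.1 + ((0 : ℝ) : ℂ) * a.1.1) * (p.1.2 + ((0 : ℝ) : ℂ) * a.1.2))).comp_hasDerivAt (0 : ℝ) hp
    exact h.ofReal_comp
  have hN : HasDerivAt (fun t : ℝ => ((‖p.1.1 + (t : ℂ) * a.1.1‖ : ℝ) : ℂ))
      (((conj p.1.1 * a.1.1).re / ‖p.1.1‖ : ℝ) : ℂ) 0 := by
    have h := sc_hasDerivAt_norm z1 (by simpa using hz)
    have h2 := h.ofReal_comp
    simpa using h2
  have hn : ((‖p.1.1‖ : ℝ) : ℂ) ≠ 0 := Complex.ofReal_ne_zero.2 (norm_ne_zero_iff.2 hz)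
  have hq : HasDerivAt (fun t : ℝ => (p.1.1 + (t : ℂ) * a.1.1) / ((‖p.1.1 + (t : ℂ) * a.1.1‖ : ℝ) : ℂ))
      (a.1.1 / ((‖p.1.1‖ : ℝ) : ℂ) -
        p.1.1 * (((conj p.1.1 * a.1.1).re : ℝ) : ℂ) / ((‖p.1.1‖ : ℝ) : ℂ) ^ 3) 0 := by
    refine (z1.div hN (by simpa using hz)).congr_deriv ?_
    simp only [Complex.ofReal_zero, zero_mul, add_zero]
    push_cast
    field_simp
  have h2 : HasDerivAt (fun t : ℝ => ef M (p + t • a)) ((-Complex.I * ((((conj a.1.1 * p.1.2 +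
      conj p.1.1 * a.1.2).im : ℝ) : ℂ) * p.1.2
      + (Gz p.1.1 p.1.2 : ℂ) * a.1.2) - M * (a.1.1 / ((‖p.1.1‖ : ℝ) : ℂ) -
        p.1.1 * (((conj p.1.1 * a.1.1).re : ℝ) : ℂ) / ((‖p.1.1‖ : ℝ) : ℂ) ^ 3)) / M) 0 := by
    have h := ((((hG.const_mul (-Complex.I)).mul z2).sub (hq.const_mul (M : ℂ))).div_const (M : ℂ))
    have e1 : (fun t : ℝ => ef M (p + t • a)) = fun t : ℝ =>
        (-Complex.I * ((Gz (p.1.1 + (t : ℂ) * a.1.1) (p.1.2 + (t : ℂ) * a.1.2) : ℝ) : ℂ) *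
          (p.1.2 + (t : ℂ) * a.1.2) - M * ((p.1.1 + (t : ℂ) * a.1.1) /
          ((‖p.1.1 + (t : ℂ) * a.1.1‖ : ℝ) : ℂ))) / M := by
      funext t
      simp only [ef, epsf, Prod.fst_add, Prod.snd_add, Prod.smul_fst, Prod.smul_snd,
        Complex.real_smul]
    rw [e1]
    refine h.congr_deriv ?_
    simp only [Complex.ofReal_zero, zero_mul, add_zero]
    ring
  exact h1.unique h2

/-- Proof.  `epsf M z z₁ = (- i G z₁ - M z / |z|) / M`, `G = Im (conj z z₁)`.  Derivative in the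
direction `(a, a₁)`: `dG = Im (conj a z₁ + conj z a₁)`, `d (z / |z|) = a / |z| - z Re (conj z a) / |z|³`.
With `a = z₁`, `a₁ = - M z / |z|³ + ε² F` (`F = Fb S ε p`): `dG = ε² Im (conj z F)`, and
`z₁ |z|² - z Re (conj z z₁) = i G z`, so the terms with `M` cancel and
`d epsf = (- i / M) ε² (Im (conj z F) z₁ + G F)`. -/
theorem ef_gs {S : Shape} (hM : S.M ≠ 0) {ε : ℝ} {p : V4} (h : (ε, p) ∈ SD S) :
    fderiv ℝ (ef S.M) p (gs S ε p) = (ε : ℂ) ^ 2 * pbf S ε p := by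
  have hz : p.1.1 ≠ 0 := h.1
  have hMc : (S.M : ℂ) ≠ 0 := Complex.ofReal_ne_zero.2 hM
  have hn : ((‖p.1.1‖ : ℝ) : ℂ) ≠ 0 := Complex.ofReal_ne_zero.2 (norm_ne_zero_iff.2 hz)
  rw [ef_deriv S.M hz]
  have g1 : (gs S ε p).1.1 = p.1.2 := rfl
  have g2 : (gs S ε p).1.2 = -((S.M : ℂ) * cub p.1.1) + (ε : ℂ) ^ 2 * Fb S ε p := rfl
  rw [g1, g2]
  generalize hF : Fb S ε p = F
  have hzz : conj p.1.1 * p.1.1 = ((‖p.1.1‖ : ℝ) : ℂ) ^ 2 := by
    rw [mul_comm, Complex.mul_conj, Complex.normSq_eq_norm_sq]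
    push_cast
    rfl
  have hcub : cub p.1.1 = p.1.1 / ((‖p.1.1‖ : ℝ) : ℂ) ^ 3 := by
    rw [cub]
    push_cast
    rfl
  have i1 : (conj p.1.2 * p.1.2 + conj p.1.1 * (-((S.M : ℂ) * cub p.1.1) + (ε : ℂ) ^ 2 * F)).im =
      ε ^ 2 * (conj p.1.1 * F).im := by
    have e1 : conj p.1.2 * p.1.2 + conj p.1.1 * (-((S.M : ℂ) * cub p.1.1) + (ε : ℂ) ^ 2 * F) =
        ((Complex.normSq p.1.2 - S.M / ‖p.1.1‖ : ℝ) : ℂ) + ((ε ^ 2 : ℝ) : ℂ) * (conj p.1.1 * F) := by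
      rw [hcub, mul_comm (conj p.1.2), Complex.mul_conj]
      have e2 : conj p.1.1 * (-((S.M : ℂ) * (p.1.1 / ((‖p.1.1‖ : ℝ) : ℂ) ^ 3)) + (ε : ℂ) ^ 2 * F) =
          -((S.M : ℂ) * (conj p.1.1 * p.1.1) / ((‖p.1.1‖ : ℝ) : ℂ) ^ 3) + (ε : ℂ) ^ 2 * (conj p.1.1 * F) := by
        ring
      rw [e2, hzz]
      push_cast
      field_simp
      ring
    rw [e1, Complex.add_im, Complex.ofReal_im, Complex.im_ofReal_mul, zero_add]
  rw [i1]
  have hsplit : (((conj p.1.1 * p.1.2).re : ℝ) : ℂ) = conj p.1.1 * p.1.2 -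
      Complex.I * (Gz p.1.1 p.1.2 : ℂ) := by
    have := Complex.re_add_im (conj p.1.1 * p.1.2)
    rw [Gz]
    linear_combination this
  rw [hsplit, hcub, pbf, hF]
  push_cast
  have e3 : p.1.1 * (conj p.1.1 * p.1.2 - Complex.I * (Gz p.1.1 p.1.2 : ℂ)) / ((‖p.1.1‖ : ℝ) : ℂ) ^ 3 =
      p.1.2 / ((‖p.1.1‖ : ℝ) : ℂ) - Complex.I * (Gz p.1.1 p.1.2 : ℂ) * p.1.1 / ((‖p.1.1‖ : ℝ) : ℂ) ^ 3 := by
    have e4 : p.1.1 * (conj p.1.1 * p.1.2 - Complex.I * (Gz p.1.1 p.1.2 : ℂ)) =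
        (conj p.1.1 * p.1.1) * p.1.2 - Complex.I * (Gz p.1.1 p.1.2 : ℂ) * p.1.1 := by ring
    rw [e4, hzz]
    field_simp
  rw [e3]
  field_simp
  ring

private theorem ef_smul (M : ℝ) {u : ℂ} (hu : ‖u‖ = 1) (p : V4) : ef M (u • p) = u * ef M p := by
  have huu : conj u * u = 1 := by
    rw [mul_comm, Complex.mul_conj, Complex.normSq_eq_norm_sq, hu]
    norm_num
  have hG : Gz (u * p.1.1) (u * p.1.2) = Gz p.1.1 p.1.2 := by
    rw [Gz, Gz]
    congr 1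
    rw [map_mul]
    linear_combination (conj p.1.1 * p.1.2) * huu
  have h1 : ef M (u • p) = epsf M (u * p.1.1) (u * p.1.2) := rfl
  rw [h1, ef, epsf, epsf, hG, norm_mul, hu, one_mul]
  ring

/-- Proof.  `ef M (u • p) = u * ef M p` (`|u| = 1`: `Gz` and `|z|` are invariant); differentiate. -/
theorem ef_rot (M : ℝ) {u : ℂ} (hu : ‖u‖ = 1) {p : V4} (hz : p.1.1 ≠ 0) (a : V4) :
    fderiv ℝ (ef M) (u • p) (u • a) = u * fderiv ℝ (ef M) p a := by
  have hu0 : u ≠ 0 := by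
    rintro rfl
    simp at hu
  have hz' : (u • p).1.1 ≠ 0 := mul_ne_zero hu0 hz
  have hd : DifferentiableAt ℝ (ef M) p := (contDiffAt_ef M hz).differentiableAt (by norm_num)
  have hd' : DifferentiableAt ℝ (ef M) (u • p) := (contDiffAt_ef M hz').differentiableAt (by norm_num)
  have hline : ∀ q b : V4, HasDerivAt (fun t : ℝ => q + t • b) b 0 := by
    intro q b
    have h := ((hasDerivAt_id (0 : ℝ)).smul_const b).const_add q
    simpa using h
  have key : ∀ q b : V4, DifferentiableAt ℝ (ef M) q →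
      HasDerivAt (fun t : ℝ => ef M (q + t • b)) (fderiv ℝ (ef M) q b) 0 := by
    intro q b hq
    have e0 : q + (0 : ℝ) • b = q := by simp
    have h := hq.hasFDerivAt
    rw [← e0] at h
    have h2 := h.comp_hasDerivAt (0 : ℝ) (hline q b)
    rw [e0] at h2
    exact h2
  have h1 := key (u • p) (u • a) hd'
  have h2 := (key p a hd).const_mul u
  have e : (fun t : ℝ => ef M (u • p + t • (u • a))) = fun t : ℝ => u * ef M (p + t • a) := by
    funext t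
    rw [← ef_smul M hu, smul_add, smul_comm]
  rw [e] at h1
  exact h1.unique h2

/-- constant first components -/
private theorem fst_const {T c : ℝ} {X : ℝ → ℝ × V4} {X' : ℝ → ℝ × V4}
    (hX : ∀ t ∈ Icc 0 T, HasDerivWithinAt X (X' t) (Icc 0 T) t) (h1 : ∀ t ∈ Icc 0 T, (X' t).1 = 0)
    (h0 : (X 0).1 = c) : ∀ t ∈ Icc 0 T, (X t).1 = c := by
  have hf : ∀ t ∈ Icc 0 T, HasDerivWithinAt (fun t => (X t).1) 0 (Icc 0 T) t := by
    intro t ht
    have h := (ContinuousLinearMap.fst ℝ ℝ V4).hasFDerivAt.comp_hasDerivWithinAt t (hX t ht)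
    have h2 : (ContinuousLinearMap.fst ℝ ℝ V4) (X' t) = 0 := h1 t ht
    rw [h2] at h
    exact h
  intro t ht
  have hT : (0 : ℝ) ∈ Icc 0 T := ⟨le_rfl, ht.1.trans ht.2⟩
  have h2 := (convex_Icc (0 : ℝ) T).norm_image_sub_le_of_norm_hasDerivWithin_le (C := 0)
    (f := fun t => (X t).1) (f' := fun _ => 0) hf (fun x _ => by simp) hT ht
  rw [zero_mul, norm_le_zero_iff, sub_eq_zero] at h2
  change (X t).1 = (X 0).1 at h2
  rw [h2, h0]

/-- Proof.  Let `P = (X ·).2`, `a = (A ·).2`; `(X t).1 = ε`, `(A t).1 = 0` (constant first components,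
`fderiv_VS_fst`).  The derivative of `t ↦ fderiv (ef M) (P t) (a t)` is
`D² ef (P) (gs P) a + D ef (P) (D gs (P) a)` (`fderiv_VS`), and by the symmetry of the second derivative
(`contDiffAt_ef`, `ContDiffAt.isSymmSndFDerivAt`) this is the derivative at `p = P t` in the direction
`a t` of `p ↦ fderiv (ef M) p (gs S ε p) = ε² pbf S ε p` (`ef_gs`, valid near `P t`). -/
theorem ef_jac {S : Shape} (hM : S.M ≠ 0) {ε T : ℝ} (hT : 0 ≤ T) {X A : ℝ → ℝ × V4}
    (hX : Solves (VS S) (SD S) (Icc 0 T) X) (h0 : (X 0).1 = ε) (hA : Jac (VS S) X A T)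
    (hA0 : (A 0).1 = 0) :
    ∀ t ∈ Icc 0 T, HasDerivWithinAt (fun t => fderiv ℝ (ef S.M) (X t).2 (A t).2)
      ((ε : ℂ) ^ 2 * fderiv ℝ (pbf S (X t).1) (X t).2 (A t).2) (Icc 0 T) t := by
  have hXc : ∀ t ∈ Icc 0 T, (X t).1 = ε :=
    fst_const (fun t ht => (hX t ht).2) (fun t _ => rfl) h0
  have hAc : ∀ t ∈ Icc 0 T, (A t).1 = 0 :=
    fst_const hA (fun t ht => fderiv_VS_fst (hX t ht).1 _) hA0
  intro t ht
  have hXt : X t = (ε, (X t).2) := Prod.ext (hXc t ht) rfl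
  have hAt : A t = (0, (A t).2) := Prod.ext (hAc t ht) rfl
  have hmem : (ε, (X t).2) ∈ SD S := hXt ▸ (hX t ht).1
  have hz : (X t).2.1.1 ≠ 0 := hmem.1
  set P : V4 := (X t).2 with hP
  set a : V4 := (A t).2 with ha
  -- derivatives of the second components
  have hX2 : HasDerivWithinAt (fun t => (X t).2) (gs S ε P) (Icc 0 T) t := by
    have h := (ContinuousLinearMap.snd ℝ ℝ V4).hasFDerivAt.comp_hasDerivWithinAt t (hX t ht).2
    have h2 : (ContinuousLinearMap.snd ℝ ℝ V4) (VS S (X t)) = gs S ε P := by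
      rw [hXt]
      rfl
    rw [h2] at h
    exact h
  have hA2 : HasDerivWithinAt (fun t => (A t).2) (fderiv ℝ (gs S ε) P a) (Icc 0 T) t := by
    have h := (ContinuousLinearMap.snd ℝ ℝ V4).hasFDerivAt.comp_hasDerivWithinAt t (hA t ht)
    have h2 : (ContinuousLinearMap.snd ℝ ℝ V4) (fderiv ℝ (VS S) (X t) (A t)) =
        fderiv ℝ (gs S ε) P a := by
      rw [hXt, hAt, fderiv_VS hmem]
      rfl
    rw [h2] at h
    exact h
  -- the second derivative of `ef`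
  have hc3 : ContDiffAt ℝ 3 (ef S.M) P := contDiffAt_ef S.M hz
  have hD : DifferentiableAt ℝ (fderiv ℝ (ef S.M)) P :=
    (hc3.fderiv_right (m := 2) (by norm_num)).differentiableAt (by norm_num)
  have hsymm : IsSymmSndFDerivAt ℝ (ef S.M) P := hc3.isSymmSndFDerivAt (by simp; norm_num)
  have hD2 : HasDerivWithinAt (fun t => fderiv ℝ (ef S.M) (X t).2)
      (fderiv ℝ (fderiv ℝ (ef S.M)) P (gs S ε P)) (Icc 0 T) t :=
    hD.hasFDerivAt.comp_hasDerivWithinAt t hX2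
  have h1 := hD2.clm_apply hA2
  -- the identity `ef_gs` near `P`
  have hopen : ∀ᶠ q in 𝓝 P, (ε, q) ∈ SD S :=
    (Continuous.prodMk_right ε).continuousAt.preimage_mem_nhds ((isOpen_SD S).mem_nhds hmem)
  have hgs : DifferentiableAt ℝ (gs S ε) P := by
    have h2 : ContDiffAt ℝ 3 (fun X : ℝ × V4 => gs S X.1 X.2) (ε, P) :=
      (contDiffOn_gs S).contDiffAt ((isOpen_SD S).mem_nhds hmem)
    have h3 : ContDiffAt ℝ 3 (fun q : V4 => (ε, q)) P := contDiffAt_const.prodMk contDiffAt_id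
    exact (h2.comp P h3).differentiableAt (by norm_num)
  have hpb : DifferentiableAt ℝ (pbf S ε) P := by
    have h2 : ContDiffAt ℝ 2 (fun X : ℝ × V4 => pbf S X.1 X.2) (ε, P) :=
      (contDiffOn_pbf S).contDiffAt ((isOpen_SD S).mem_nhds hmem)
    have h3 : ContDiffAt ℝ 2 (fun q : V4 => (ε, q)) P := contDiffAt_const.prodMk contDiffAt_id
    exact (h2.comp P h3).differentiableAt (by norm_num)
  have hev : (fun q => fderiv ℝ (ef S.M) q (gs S ε q)) =ᶠ[𝓝 P] fun q => (ε : ℂ) ^ 2 * pbf S ε q := by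
    filter_upwards [hopen] with q hq
    exact ef_gs hM hq
  have hfd : HasFDerivAt (fun q => fderiv ℝ (ef S.M) q (gs S ε q))
      ((fderiv ℝ (ef S.M) P).comp (fderiv ℝ (gs S ε) P) +
        (fderiv ℝ (fderiv ℝ (ef S.M)) P).flip (gs S ε P)) P :=
    hD.hasFDerivAt.clm_apply hgs.hasFDerivAt
  have hfd2 : HasFDerivAt (fun q => (ε : ℂ) ^ 2 * pbf S ε q) (((ε : ℂ) ^ 2) • fderiv ℝ (pbf S ε) P) P :=
    hpb.hasFDerivAt.const_mul _
  have huniq := (hfd.congr_of_eventuallyEq hev.symm).unique hfd2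
  have hval := DFunLike.congr_fun huniq a
  have hval2 : fderiv ℝ (ef S.M) P (fderiv ℝ (gs S ε) P a) +
      fderiv ℝ (fderiv ℝ (ef S.M)) P a (gs S ε P) = (ε : ℂ) ^ 2 * fderiv ℝ (pbf S ε) P a := hval
  rw [hXc t ht, ← hval2]
  have hs : fderiv ℝ (fderiv ℝ (ef S.M)) P a (gs S ε P) =
      fderiv ℝ (fderiv ℝ (ef S.M)) P (gs S ε P) a := hsymm.eq a (gs S ε P)
  rw [hs, add_comm]
  exact h1

/-- **The integral identity.**  Proof.  By `ef_jac` for `A` and `B` and the fundamental theorem of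
calculus (`continuousOn_Hc`; the curves are continuous)
`ε² ∫ Hc = [fderiv (ef M) (X t).2 (A t).2 + i fderiv (ef M) (X t).2 (B t).2]` from `0` to `T`.  With
`α = fderiv (ef M) (X 0).2 (A 0).2`, `β = fderiv (ef M) (X 0).2 (B 0).2` and `ef_rot` (the derivative is real
linear) the value at `T` is
`u ((u.re α + u.im β) + i (- u.im α + u.re β)) = u conj u (α + i β) = α + i β`. -/
theorem int_id {S : Shape} (hM : S.M ≠ 0) {ε T : ℝ} (hT : 0 ≤ T) {u : ℂ} (hε : ε ≠ 0)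
    (hu : ‖u‖ = 1) {X A B : ℝ → ℝ × V4} (hX : Solves (VS S) (SD S) (Icc 0 T) X)
    (h0 : (X 0).1 = ε) (hA : Jac (VS S) X A T) (hA0 : (A 0).1 = 0) (hB : Jac (VS S) X B T)
    (hB0 : (B 0).1 = 0) (pX : (X T).2 = u • (X 0).2)
    (pA : (A T).2 = u • (u.re • (A 0).2 + u.im • (B 0).2))
    (pB : (B T).2 = u • (-(u.im • (A 0).2) + u.re • (B 0).2)) :
    ∫ t in (0 : ℝ)..T, Hc S (X t, A t, B t) = 0 := by
  have h0T : (0 : ℝ) ∈ Icc 0 T := ⟨le_rfl, hT⟩
  have hXcont : ContinuousOn X (Icc 0 T) := hX.continuousOn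
  have hAcont : ContinuousOn A (Icc 0 T) := fun t ht => (hA t ht).continuousWithinAt
  have hBcont : ContinuousOn B (Icc 0 T) := fun t ht => (hB t ht).continuousWithinAt
  have hHc : ContinuousOn (fun t => Hc S (X t, A t, B t)) (Icc 0 T) :=
    (continuousOn_Hc S).comp (hXcont.prodMk (hAcont.prodMk hBcont))
      (fun t ht => ⟨(hX t ht).1, mem_univ _⟩)
  have hE : ∀ t ∈ Icc 0 T, HasDerivWithinAt (fun t => fderiv ℝ (ef S.M) (X t).2 (A t).2 +
      Complex.I * fderiv ℝ (ef S.M) (X t).2 (B t).2) ((ε : ℂ) ^ 2 * Hc S (X t, A t, B t))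
      (Icc 0 T) t := by
    intro t ht
    have h1 := (ef_jac hM hT hX h0 hA hA0 t ht).add
      ((ef_jac hM hT hX h0 hB hB0 t ht).const_mul Complex.I)
    refine h1.congr_deriv ?_
    rw [Hc]
    ring
  have hint : ∫ t in (0 : ℝ)..T, (ε : ℂ) ^ 2 * Hc S (X t, A t, B t) =
      (fderiv ℝ (ef S.M) (X T).2 (A T).2 + Complex.I * fderiv ℝ (ef S.M) (X T).2 (B T).2) -
      (fderiv ℝ (ef S.M) (X 0).2 (A 0).2 + Complex.I * fderiv ℝ (ef S.M) (X 0).2 (B 0).2) := by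
    refine intervalIntegral.integral_eq_sub_of_hasDeriv_right_of_le hT
      (fun t ht => (hE t ht).continuousWithinAt) (fun t ht => ?_) ?_
    · exact ((hE t ⟨ht.1.le, ht.2.le⟩).hasDerivAt (Icc_mem_nhds ht.1 ht.2)).hasDerivWithinAt
    · refine ContinuousOn.intervalIntegrable ?_
      rw [uIcc_of_le hT]
      exact continuousOn_const.mul hHc
  have hz : (X 0).2.1.1 ≠ 0 := (hX 0 h0T).1.1
  have huu : u * ((u.re : ℂ) - Complex.I * (u.im : ℂ)) = 1 := by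
    have h1 : (u.re : ℂ) - Complex.I * (u.im : ℂ) = conj u := by
      apply Complex.ext <;> simp
    rw [h1, Complex.mul_conj, Complex.normSq_eq_norm_sq, hu]
    norm_num
  rw [pX, pA, pB, ef_rot _ hu hz, ef_rot _ hu hz, map_add, map_add, map_neg, map_smul, map_smul,
    map_smul, map_smul, intervalIntegral.integral_const_mul] at hint
  simp only [Complex.real_smul] at hint
  have h2 : (ε : ℂ) ^ 2 * ∫ t in (0 : ℝ)..T, Hc S (X t, A t, B t) = 0 := by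
    rw [hint]
    linear_combination (fderiv ℝ (ef S.M) (X 0).2 (A 0).2 +
      Complex.I * fderiv ℝ (ef S.M) (X 0).2 (B 0).2) * huu +
      (u * (u.im : ℂ) * fderiv ℝ (ef S.M) (X 0).2 (B 0).2) * (Complex.I_mul_I)
  have h3 : (ε : ℂ) ^ 2 ≠ 0 := pow_ne_zero _ (Complex.ofReal_ne_zero.2 hε)
  exact (mul_eq_zero.1 h2).resolve_left h3

end Pool.Agent.MP_5027f4_cont
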