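import Pool.Agent.Lib_MP_5027f4_cont.MDefs

/-!
# The end of the family at an equilateral relative equilibrium, rotation `u ≠ 1`: definitions
(MP_5027f4_mp, block S)

Scaling `w = ε v` of the normal mode.  `gs S ε` is the vector field in the scaled coordinates
`p = ((z, z₁), (v, v₁))`, `e ((z, z₁), (ε v, ε v₁))` is the point of the phase space.
-/

open Set Filter Topology Metric Polynomial
open scoped ComplexConjugate ContDiff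
open Pool.Agent.MP_5027f4_mp
open Pool.Agent.MP_5027f4_ell (Tri Shape cc coord Mt sg sm Nn Gz epsf kapf vf Bs IsFund Mat hf F1 F2)

namespace Pool.Agent.MP_5027f4_cont

abbrev V4 := (ℂ × ℂ) × (ℂ × ℂ)

/-- `|1 + ε ζ|²` -/
noncomputable def nE (ε : ℝ) (ζ : ℂ) : ℝ := 1 + ε * (2 * ζ.re + ε * Complex.normSq ζ)

/-- `(1 - x⁻³) / (x² - 1)` -/
noncomputable def kE (x : ℝ) : ℝ := (x ^ 4 + x ^ 2 + 1) / (x ^ 3 * (x ^ 3 + 1))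

/-- `(kE x - 3 / 2) / (x² - 1)` -/
noncomputable def kE1 (x : ℝ) : ℝ :=
  -((3 * x ^ 5 + 3 * x ^ 4 + x ^ 3 + 4 * x ^ 2 + 2 * x + 2) / (2 * x ^ 3 * (x ^ 3 + 1) * (x + 1)))

/-- `(hf (ε ζ) - 1) / ε` -/
noncomputable def hf1 (ε : ℝ) (ζ : ℂ) : ℂ :=
  ζ / ((Real.sqrt (nE ε ζ) ^ 3 : ℝ) : ℂ) -
    (((2 * ζ.re + ε * Complex.normSq ζ) * kE (Real.sqrt (nE ε ζ)) : ℝ) : ℂ)

/-- `(hf (ε ζ) - 1 + ε (ζ / 2 + 3 conj ζ / 2)) / ε²` -/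
noncomputable def hf2 (ε : ℝ) (ζ : ℂ) : ℂ :=
  -(ζ * (((2 * ζ.re + ε * Complex.normSq ζ) * kE (Real.sqrt (nE ε ζ)) : ℝ) : ℂ)) -
    ((2 * ζ.re * (2 * ζ.re + ε * Complex.normSq ζ) * kE1 (Real.sqrt (nE ε ζ)) +
      Complex.normSq ζ * kE (Real.sqrt (nE ε ζ)) : ℝ) : ℂ)

/-- `z / |z|³` -/
noncomputable def cub (z : ℂ) : ℂ := z / ((‖z‖ ^ 3 : ℝ) : ℂ)

/-- `ε² Fb` is the perturbation of the Kepler force -/
noncomputable def Fb (S : Shape) (ε : ℝ) (p : V4) : ℂ :=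
  -(cub p.1.1 * ∑ k, (S.p k : ℂ) * hf2 ε (S.δ k * (p.2.1 / p.1.1)))

/-- the scaled vector field -/
noncomputable def gs (S : Shape) (ε : ℝ) (p : V4) : V4 :=
  ((p.1.2, -((S.M : ℂ) * cub p.1.1) + (ε : ℂ) ^ 2 * Fb S ε p),
    (p.2.2, -(cub p.1.1 * ∑ k, (S.p k : ℂ) * conj (S.δ k) * hf1 ε (S.δ k * (p.2.1 / p.1.1)))))

/-- the scaled vector field, with the parameter -/
noncomputable def VS (S : Shape) (X : ℝ × V4) : ℝ × V4 := (0, gs S X.1 X.2)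

/-- the domain -/
def SD (S : Shape) : Set (ℝ × V4) :=
  {X | X.2.1.1 ≠ 0 ∧ ∀ k, 0 < nE X.1 (S.δ k * (X.2.2.1 / X.2.1.1))}

/-- the scaling -/
noncomputable def sc (ε : ℝ) : V4 →L[ℝ] V4 :=
  (ContinuousLinearMap.fst ℝ (ℂ × ℂ) (ℂ × ℂ)).prod (ε • ContinuousLinearMap.snd ℝ (ℂ × ℂ) (ℂ × ℂ))

theorem sc_apply (ε : ℝ) (p : V4) : sc ε p = (p.1, ε • p.2) := rfl

/-- `A` solves the linearized equation along the solution `X` of `X' = V X` -/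
def Jac {E : Type*} [NormedAddCommGroup E] [NormedSpace ℝ E] (V : E → E) (X A : ℝ → E) (T : ℝ) :
    Prop := ∀ t ∈ Icc 0 T, HasDerivWithinAt A (fderiv ℝ V (X t) (A t)) (Icc 0 T) t

/-- along the flow of `gs S ε` the eccentricity vector has the derivative `ε² pbf S ε` -/
noncomputable def pbf (S : Shape) (ε : ℝ) (p : V4) : ℂ :=
  -(Complex.I / (S.M : ℂ)) * (((conj p.1.1 * Fb S ε p).im : ℂ) * p.1.2 +
    (Gz p.1.1 p.1.2 : ℂ) * Fb S ε p)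

/-- the density of the integral identity, for two Jacobi fields (real and imaginary part) -/
noncomputable def Hc (S : Shape) (Y : (ℝ × V4) × (ℝ × V4) × (ℝ × V4)) : ℂ :=
  fderiv ℝ (pbf S Y.1.1) Y.1.2 Y.2.1.2 + Complex.I * fderiv ℝ (pbf S Y.1.1) Y.1.2 Y.2.2.2

/-- the derivative of `LN M s z v` with respect to `z` in the direction `a` -/
noncomputable def LD (M s : ℝ) (z v a : ℂ) : ℂ :=
  ((M / ‖z‖ ^ 3 : ℝ) : ℂ) * z * (-(3 / 4) * (a / z + conj (a / z)) * (v / z) -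
    3 / 4 * (s : ℂ) * (a / z + 5 * conj (a / z)) * conj (v / z))

/-- `pbf S 0 = - (I / M) ...` with this quadratic form: `Fb S 0 = - M cub z kap0 s (v / z)` -/
noncomputable def kap0 (s : ℝ) (V : ℂ) : ℂ :=
  3 / 8 * (s : ℂ) * V ^ 2 + 3 / 4 * (V * conj V) + 15 / 8 * (s : ℂ) * conj V ^ 2

/-- derivative of `kap0` -/
noncomputable def dkap0 (s : ℝ) (V W : ℂ) : ℂ :=
  3 / 4 * ((s : ℂ) * V + conj V) * W + (3 / 4 * V + 15 / 4 * (s : ℂ) * conj V) * conj W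

/-- the derivative of `pbf S 0` in rotating coordinates, up to the factor `I Ω z₀ / |z₀| e^{I Ω t}` -/
noncomputable def Gf (s Ω : ℝ) (A A1 V C : ℂ) : ℂ :=
  -(A.re : ℂ) * (kap0 s V + Complex.I * ((kap0 s V).im : ℂ)) +
    (dkap0 s V (C - V * A) + Complex.I * ((dkap0 s V (C - V * A)).im : ℂ)) +
    ((kap0 s V).im : ℂ) * (A1 / (Ω : ℂ) + Complex.I * A) + ((A1.im / Ω : ℝ) : ℂ) * kap0 s V +
    A * kap0 s V

/-- Limit data in the rotating frame: `V` is the normal mode, `(A, C)` and `(B, D)` the real and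
imaginary part of the eigenvector. -/
structure RotD (s Ω T : ℝ) (u : ℂ) (V V1 A A1 B B1 C C1 D D1 : ℝ → ℂ) : Prop where
  dV : ∀ t ∈ Icc 0 T, HasDerivWithinAt V (V1 t) (Icc 0 T) t
  dV1 : ∀ t ∈ Icc 0 T, HasDerivWithinAt V1 (-(2 * Complex.I * (Ω : ℂ) * V1 t) +
    (Ω : ℂ) ^ 2 * (3 / 2 * V t + 3 / 2 * (s : ℂ) * conj (V t))) (Icc 0 T) t
  dA : ∀ t ∈ Icc 0 T, HasDerivWithinAt A (A1 t) (Icc 0 T) t
  dA1 : ∀ t ∈ Icc 0 T, HasDerivWithinAt A1 (-(2 * Complex.I * (Ω : ℂ) * A1 t) +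
    (Ω : ℂ) ^ 2 * (3 / 2 * A t + 3 / 2 * conj (A t))) (Icc 0 T) t
  dB : ∀ t ∈ Icc 0 T, HasDerivWithinAt B (B1 t) (Icc 0 T) t
  dB1 : ∀ t ∈ Icc 0 T, HasDerivWithinAt B1 (-(2 * Complex.I * (Ω : ℂ) * B1 t) +
    (Ω : ℂ) ^ 2 * (3 / 2 * B t + 3 / 2 * conj (B t))) (Icc 0 T) t
  dC : ∀ t ∈ Icc 0 T, HasDerivWithinAt C (C1 t) (Icc 0 T) t
  dC1 : ∀ t ∈ Icc 0 T, HasDerivWithinAt C1 (-(2 * Complex.I * (Ω : ℂ) * C1 t) +
    (Ω : ℂ) ^ 2 * (3 / 2 * C t + 3 / 2 * (s : ℂ) * conj (C t) -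
      3 / 4 * (A t + conj (A t)) * V t - 3 / 4 * (s : ℂ) * (A t + 5 * conj (A t)) * conj (V t)))
    (Icc 0 T) t
  dD : ∀ t ∈ Icc 0 T, HasDerivWithinAt D (D1 t) (Icc 0 T) t
  dD1 : ∀ t ∈ Icc 0 T, HasDerivWithinAt D1 (-(2 * Complex.I * (Ω : ℂ) * D1 t) +
    (Ω : ℂ) ^ 2 * (3 / 2 * D t + 3 / 2 * (s : ℂ) * conj (D t) -
      3 / 4 * (B t + conj (B t)) * V t - 3 / 4 * (s : ℂ) * (B t + 5 * conj (B t)) * conj (V t)))
    (Icc 0 T) t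
  pV : V T = V 0
  pV1 : V1 T = V1 0
  pA : A T = (u.re : ℂ) * A 0 + (u.im : ℂ) * B 0
  pA1 : A1 T = (u.re : ℂ) * A1 0 + (u.im : ℂ) * B1 0
  pB : B T = -((u.im : ℂ) * A 0) + (u.re : ℂ) * B 0
  pB1 : B1 T = -((u.im : ℂ) * A1 0) + (u.re : ℂ) * B1 0
  pC : C T = (u.re : ℂ) * C 0 + (u.im : ℂ) * D 0
  pC1 : C1 T = (u.re : ℂ) * C1 0 + (u.im : ℂ) * D1 0
  pD : D T = -((u.im : ℂ) * C 0) + (u.re : ℂ) * D 0
  pD1 : D1 T = -((u.im : ℂ) * C1 0) + (u.re : ℂ) * D1 0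
  int : ∫ t in (0 : ℝ)..T, Complex.exp (Complex.I * (Ω : ℂ) * (t : ℂ)) *
    (Gf s Ω (A t) (A1 t) (V t) (C t) + Complex.I * Gf s Ω (B t) (B1 t) (V t) (D t)) = 0

end Pool.Agent.MP_5027f4_cont
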