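import Pool.Agent.Lib_MP_5027f4_cont.SMain
import Pool.Agent.Lib_MP_5027f4_cont.QFin

/-!
# Multipliers of Lyapunov stable relative periodic orbits: all masses
-/

open Set Filter Topology Metric Polynomial
open scoped ComplexConjugate ContDiff
open Pool.Agent.MP_5027f4_mp
open Pool.Agent.MP_5027f4_ell (Tri Shape cc coord Mt sg sm Nn Gz epsf kapf vf Bs IsFund IsCofund Mat)

namespace Pool.Agent.MP_5027f4_cont

variable {m : Fin 3 → ℝ} {ϖ : ℂ} {Sh : Shape} {d : Fin 3 → ℂ}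
  {e : ((ℂ × ℂ) × (ℂ × ℂ)) ≃L[ℝ] comSub m}

/-- **Relative equilibria at the end of the family.** -/
theorem noREq2 (hm : ∀ a, 0 < m a) {T : ℝ} (hT : 0 < T) {u : ℂ} (hu : ‖u‖ = 1) {N : ℕ}
    (hN : 0 < N) (huN : u ^ N = 1) {q : ℝ[X]} (hell : Ell2 q) :
    NoREq m T u ((X - 1) ^ 4 * q) := by
  have hq := ell2_root_norm hell
  have hq1 := ell2_eval_one hell
  rintro S X₀ X₁ Φ cn hS hLM hend hcp hc0 - hcn hne hacc ⟨Ω, hΩ⟩
  have hm0 : ∀ a, m a ≠ 0 := fun a => (hm a).ne'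
  have hM : MM m ≠ 0 := (MM_pos hm).ne'
  have hre : IsRE m Ω (pE m X₀) := ⟨pE_noColl hM hm0 hLM.nc0, hΩ⟩
  obtain ⟨h1, h2⟩ := hre.eqs
  -- roots
  have hroots : ∀ l : ℂ, (((X - 1) ^ 4 * q : ℝ[X]).map (algebraMap ℝ ℂ)).eval l = 0 → ‖l‖ = 1 := by
    intro l hl
    simp only [Polynomial.map_mul, Polynomial.map_pow, Polynomial.map_sub, Polynomial.map_X,
      Polynomial.map_one, eval_mul, eval_pow, eval_sub, eval_X, eval_one] at hl
    rcases mul_eq_zero.1 hl with h | h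
    · have : l = 1 := sub_eq_zero.1 (pow_eq_zero_iff (by norm_num) |>.1 h)
      rw [this, norm_one]
    · exact hq _ h
  rcases re_classify hm hre.1 (pE m X₀).2.1 h2 with ⟨r, hr, heq, hΩr⟩ | ⟨e', he', x', hx'⟩
  swap
  · -- collinear
    obtain ⟨s, hs, hev⟩ := euler_ev hm hre he' hx'
    have hroot := root_of_ev hm hT hu hLM hend hre hev
    rw [hcp] at hroot
    have hnorm := hroots _ hroot
    rw [Complex.norm_exp] at hnorm
    have h3 : ((s : ℂ) * (T : ℂ)).re = 0 := Real.exp_eq_one_iff _ |>.1 hnorm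
    rw [Complex.re_mul_ofReal, Complex.ofReal_re] at h3
    rcases mul_eq_zero.1 h3 with h4 | h4
    · exact hs h4
    · exact hT.ne' h4
  -- equilateral
  have hΩ0 : Ω ≠ 0 := by
    rintro rfl
    have := MM_pos hm
    rw [← hΩr] at this
    simp at this
  obtain ⟨ϖ, Sh, d, e, z₀, hϖ, hTr, he, hz₀r, hy₀⟩ := lag_setup hm hre hr heq
  have hz₀ : z₀ ≠ 0 := by
    rw [← norm_ne_zero_iff, hz₀r]
    exact hr.ne'
  have hμ : Ω ^ 2 * ‖z₀‖ ^ 3 = Mt m := by rw [hz₀r, hΩr]; rfl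
  have hMt : 0 < Mt m := MP_5027f4_ell.Mt_pos hm
  -- the classical solution
  have hcl : Solves (fld m) (frame m) (Icc 0 T)
      (fun t => Complex.exp (t * Ω * Complex.I) • ((pE m X₀ : comSub m) : Ph)) :=
    hre.solves.mono (subset_univ _)
  have hX : ((pE m X₀ : comSub m) : Ph) =
      (fun t : ℝ => Complex.exp (t * Ω * Complex.I) • ((pE m X₀ : comSub m) : Ph)) 0 := by
    simp
  have hΨ := cmap_of_lm hm hT hcl hLM hX
  set Ψ : comSub m → comSub m := fun y => Φ (T, y) with hΨdef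
  -- the rotation factor
  have hy0 : pE m X₀ ≠ 0 := by
    intro h
    apply hre.1 0 1 (by decide)
    rw [h]
    rfl
  have hue : u = Complex.exp ((Ω * T : ℝ) * Complex.I) := by
    obtain ⟨x, hx, hx0, hxT⟩ := hΨ.cl.self_of_nhds
    have hcl' : Solves (fld m) noColl (Icc 0 T)
        (fun t => Complex.exp (t * Ω * Complex.I) • ((pE m X₀ : comSub m) : Ph)) :=
      fun t ht => ⟨frame_subset m (hcl t ht).1, (hcl t ht).2⟩
    have hx' : Solves (fld m) noColl (Icc 0 T) x :=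
      fun t ht => ⟨frame_subset m (hx t ht).1, (hx t ht).2⟩
    have h3 := (hcl'.eqOn_of_eq isOpen_noColl (contDiffOn_fld m) hx' (by rw [hx0]; simp))
      ⟨hT.le, le_rfl⟩
    simp only at h3
    rw [hxT] at h3
    have h4 : Complex.exp (T * Ω * Complex.I) • pE m X₀ = Ψ (pE m X₀) := Subtype.ext h3
    obtain ⟨-, hfix⟩ := ret_fix hm hLM hu hend
    have h5 : u⁻¹ • Ψ (pE m X₀) = pE m X₀ := hfix
    have hu0 : u ≠ 0 := by
      rintro rfl
      simp at hu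
    have h6 : Ψ (pE m X₀) = u • pE m X₀ := by
      rw [← h5, smul_smul, mul_inv_cancel₀ hu0, one_smul, h5]
    rw [h6] at h4
    have h7 : Complex.exp (T * Ω * Complex.I) = u := smul_left_injective ℂ hy0 h4
    rw [← h7]
    congr 1
    push_cast
    ring
  -- the blocks
  have hks : KSol (Mt m) T (fun t => z₀ * Complex.exp ((Ω * t : ℝ) * Complex.I))
      (fun t => (Ω : ℂ) * Complex.I * (z₀ * Complex.exp ((Ω * t : ℝ) * Complex.I))) :=
    circ_ksol hz₀ hμ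
  obtain ⟨A, hA⟩ := exists_mono (M := Mt m) (s := 1) hT.le hks u
  obtain ⟨B, hB⟩ := exists_mono (M := Mt m) (s := sm m) hT.le hks u
  have hz00 : z₀ * Complex.exp ((Ω * 0 : ℝ) * Complex.I) = z₀ := by simp
  have hD : ∀ p, fderiv ℝ (fun y => u⁻¹ • Ψ y) (pE m X₀) (e p) = e (A p.1, B p.2) := by
    intro p
    have h3 := blk hm hϖ hTr he hT (u := u) hks (Ψ := Ψ) (by rw [hz00, ← hy₀]; exact hΨ)
      hA hB p
    rwa [hz00, ← hy₀] at h3
  have hcpAB : (X - 1) ^ 4 * q = cp A * cp B := by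
    rw [← hcp]
    exact cp_blk e hD
  obtain ⟨hA1, hA2⟩ := circ_hom hMt hT hμ hue hA
  by_cases hu1 : u = 1
  · -- rotation number one
    have hAp := hA2 hu1
    have hBq : cp B = q := by
      rw [hAp] at hcpAB
      exact (cancel_pow hcpAB).symm
    have hu1' : ∀ y, (fun y => u⁻¹ • Ψ y) y = Ψ y := by
      intro y
      simp only [hu1, inv_one, one_smul]
    have hfun : (fun y => u⁻¹ • Ψ y) = Ψ := funext hu1'
    have hret : ret Φ T u = Ψ := hfun
    rw [hret] at hacc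
    rw [hfun] at hD
    rw [hy₀] at hΨ hD hcn hne hacc
    refine hom_contra hm hϖ hTr he hT hΩ0 hz₀ hμ hΨ hD (by rw [hBq]; exact hq1)
      (χ := (X - 1) ^ 4 * q) ?_ hcn hne hacc
    intro h
    have h3 : ((X - 1 : ℝ[X]) ^ 4) ≠ 0 := by
      refine pow_ne_zero 4 ?_
      have := Polynomial.X_sub_C_ne_zero (1 : ℝ)
      simpa using this
    rcases mul_eq_zero.1 h with h | h
    · exact h3 h
    · exact hq1 (by rw [h, eval_zero])
  · -- rotation number different from one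
    have hB1 : (cp B).eval 1 = 0 := by
      by_contra hne'
      have h3 := eq_pow_of_mul hcpAB (LinearMap.charpoly_monic _)
        (by rw [cp_natDegree]; simp [Complex.finrank_real_complex]) hne'
      rw [h3] at hA1
      simp only [Polynomial.map_pow, Polynomial.map_sub, Polynomial.map_X, Polynomial.map_one,
        eval_pow, eval_sub, eval_X, eval_one] at hA1
      exact hu1 (sub_eq_zero.1 (pow_eq_zero_iff (by norm_num) |>.1 hA1))
    obtain ⟨k, r', h3, h4⟩ := circ_res hMt hT hμ hue hB hB1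
    -- a positive root
    have hs0 : 0 ≤ sm m := by rw [← hTr.hs]; exact hTr.good.s0
    have hs1 : sm m < 1 := by rw [← hTr.hs]; exact hTr.good.s1
    have hr0 : r' ≠ 0 := by
      rintro rfl
      have h5 : sm m ^ 2 < 1 := by nlinarith
      norm_num at h4
      nlinarith
    obtain ⟨k₁, r₁, hr₁, hper, hres⟩ : ∃ (k₁ : ℤ) (r₁ : ℝ), 0 < r₁ ∧
        r₁ * (Ω * T) = 2 * Real.pi * k₁ ∧ r₁ ^ 4 - r₁ ^ 2 + 9 / 4 * (1 - sm m ^ 2) = 0 := by
      rcases lt_or_gt_of_ne hr0 with h | h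
      · refine ⟨-k, -r', by linarith, ?_, ?_⟩
        · push_cast
          linarith
        · rw [← h4]
          ring
      · exact ⟨k, r', h, h3, h4⟩
    obtain ⟨hr1, hr2, hr3⟩ := freq_facts hT hΩ0 hs0 hs1 hue hu1 hN huN hres hper hr₁
    obtain ⟨hu2, hA1c, hev⟩ := spec_simple hcpAB hell hu1 hA1
    -- the other frequency is not resonant
    have hnr : Complex.exp (Complex.I * ((Real.sqrt (1 - r₁ ^ 2) * Ω * T : ℝ) : ℂ)) ≠ 1 := by
      intro h5
      have h6 : Complex.exp (Complex.I * ((r₁ * Ω * T : ℝ) : ℂ)) = 1 := by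
        have h7 : Complex.I * ((r₁ * Ω * T : ℝ) : ℂ) =
            (k₁ : ℂ) * (2 * (Real.pi : ℂ) * Complex.I) := by
          rw [mul_assoc r₁ Ω T, hper]
          push_cast
          ring
        rw [h7, Complex.exp_int_mul_two_pi_mul_I]
      have h7 := circ_per hMt hT hμ hue hB hr₁ hr1 hr3 hres h6 h5
      have h8 := circ_one hMt hT hμ hue hA
      rw [h7, mul_comm (cp A)] at hcpAB
      have h9 : q = cp A := cancel_pow hcpAB
      exact hq1 (by rw [h9]; exact h8)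
    have hχ : ((((X - 1) ^ 4 * q : ℝ[X]).map (algebraMap ℝ ℂ))).eval (conj u) = 0 := by
      rw [hcpAB, Polynomial.map_mul, eval_mul, hA1c, zero_mul]
    rw [hy₀] at hΨ hcn hne hacc
    exact special_contra hm hϖ hTr he hT hΩ0 hz₀ hμ hue hu2 hr₁ hr1 hr2 hres hper hnr hΨ hχ
      hcn hne hacc hB hev

/-- **Theorem T3 for all masses.** -/
theorem main4 (hm : ∀ a, 0 < m a) {x : ℝ → Ph}
    (hx : Solves (fld m) (frame m) univ x) {P : ℝ} (hP : 0 < P) (hper : ∀ t, x (t + P) = x t)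
    (hst : LyapunovStable m (range x))
    (hnc : ¬ ∀ a b t, ‖(x t).1 a - (x t).1 b‖ = ‖(x 0).1 a - (x 0).1 b‖) :
    (∀ T > 0, ∀ u : ℂ, ‖u‖ = 1 → (∀ t, x (t + T) = u • x t) → ∃ M, IsMon m x T u M ∧
      ∃ l₁ l₂ : ℂ, ‖l₁‖ = 1 ∧ ‖l₂‖ = 1 ∧ Mult M l₁ l₂ ∧ ¬ NonRes2 l₁ l₂) ∧
    ∃ U, IsOpen U ∧ range x ⊆ U ∧ ∀ y : ℝ → Ph, Solves (fld m) (frame m) univ y → y 0 ∈ U →
      ∀ T > 0, ∀ u : ℂ, ‖u‖ = 1 → (∀ t, y (t + T) = u • y t) → ∀ M, IsMon m y T u M →
        ∀ l₁ l₂ : ℂ, ‖l₁‖ = 1 → ‖l₂‖ = 1 → Mult M l₁ l₂ → ¬ NonRes2 l₁ l₂ := by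
  obtain ⟨U₁, hU₁, hxU₁, hcore⟩ := coreq2 hm hx hP hper hst hnc
  obtain ⟨N, hN, U₃, hU₃, hxU₃, hlock⟩ := lock_of_stable hm hx hP hper hst hnc
  obtain ⟨W, hW, hxW, hWn⟩ := exists_nonRE hm hx hnc
  obtain ⟨U₂, hU₂def⟩ : ∃ U₂, U₂ = U₃ ∩ W := ⟨_, rfl⟩
  have hU₂ : IsOpen U₂ := by rw [hU₂def]; exact hU₃.inter hW
  have hxU₂ : range x ⊆ U₂ := by rw [hU₂def]; exact subset_inter hxU₃ hxW
  have hnear : ∀ y : ℝ → Ph, Solves (fld m) (frame m) univ y → y 0 ∈ U₁ ∩ U₂ →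
      ∀ T > 0, ∀ u : ℂ, ‖u‖ = 1 → (∀ t, y (t + T) = u • y t) → ∀ M, IsMon m y T u M →
        ∀ l₁ l₂ : ℂ, ‖l₁‖ = 1 → ‖l₂‖ = 1 → Mult M l₁ l₂ → ¬ NonRes2 l₁ l₂ := by
    intro y hy hy0 T hT u hu hyu M hM l₁ l₂ h1 h2 hMl hnon
    have hy' : Solves (fld m) (frame m) (Icc 0 T) y := hy.mono (subset_univ _)
    have hyT : y T = u • y 0 := by
      have := hyu 0
      rwa [zero_add] at this
    have hy0W : y 0 ∈ U₃ ∩ W := by rw [← hU₂def]; exact hy0.2
    -- the rotation factor is a root of unity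
    have huN : u ^ N = 1 := by
      have hdp : DistPeriodic y T := by
        intro a b t
        rw [hyu t]
        simp only [Prod.smul_fst, Pi.smul_apply, ← smul_sub, norm_smul, hu, one_mul]
      have h3 := hlock y hy hy0W.1 T hT hdp 0
      have h4 : ∀ n : ℕ, y (0 + n * T) = u ^ n • y 0 := by
        intro n
        induction n with
        | zero => simp
        | succ n ih =>
          have h5 : (0 : ℝ) + ((n + 1 : ℕ) : ℝ) * T = (0 + n * T) + T := by push_cast; ring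
          rw [h5, hyu, ih, smul_smul, pow_succ']
      rw [h4] at h3
      have hy0n : y 0 ≠ 0 := by
        intro h
        apply (hy 0 (mem_univ 0)).1.1 0 1 (by decide)
        rw [h]
        rfl
      have h5 : u ^ N • y 0 = (1 : ℂ) • y 0 := by rw [h3, one_smul]
      exact smul_left_injective ℂ hy0n h5
    obtain ⟨S, X₀, X₁, Φ, φ, hS, hX, hLM, hφ, hend⟩ := exists_data hm hT hy' hyT
    have hcpM := cp_monodromy hm hT hy' hLM hX hu hM
    have hnr : ¬ ∃ μ : ℝ, fld₀ m (pE m X₀) = ((μ : ℂ) * Complex.I) • pE m X₀ := by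
      rintro ⟨μ, hμ⟩
      refine hWn _ hy0W.2 ⟨μ, ?_⟩
      have h1 : ((fld₀ m (pE m X₀) : comSub m) : Ph) =
          ((((μ : ℂ) * Complex.I) • pE m X₀ : comSub m) : Ph) := by rw [hμ]
      have h2 : fld m ((pE m X₀ : comSub m) : Ph) =
          ((μ : ℂ) * Complex.I) • ((pE m X₀ : comSub m) : Ph) := h1
      rwa [hX] at h2
    obtain ⟨t₁, t₂, ht⟩ := ret_form hm hu hLM hφ hend hnr
    set q : ℝ[X] := X ^ 4 - C t₁ * X ^ 3 + C t₂ * X ^ 2 - C t₁ * X + 1 with hq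
    have hMq : M.charpoly = (X - 1) ^ 4 * q := by rw [← hcpM, ht]
    have hqC : q.map (algebraMap ℝ ℂ) =
        (X - C l₁) * (X - C l₁⁻¹) * ((X - C l₂) * (X - C l₂⁻¹)) := by
      have h3 : M.charpoly.map (algebraMap ℝ ℂ) = _ := hMl
      rw [hMq, Polynomial.map_mul, Polynomial.map_pow, Polynomial.map_sub, Polynomial.map_X,
        Polynomial.map_one] at h3
      exact cancel_powC h3
    have hell : Ell2 q := ⟨l₁, l₂, h1, h2, hnon, hqC⟩
    exact hcore y T u hT hu hy' hy0.1 hyT M hM q hell hMq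
      (noREq2 hm hT hu hN huN hell)
  refine ⟨fun T hT u hu hxu => ?_, U₁ ∩ U₂, hU₁.inter hU₂, subset_inter hxU₁ hxU₂, hnear⟩
  have hx' : Solves (fld m) (frame m) (Icc 0 T) x := hx.mono (subset_univ _)
  have hxT : x T = u • x 0 := by
    have := hxu 0
    rwa [zero_add] at this
  obtain ⟨S, X₀, X₁, Φ, φ, hS, hX, hLM, hφ, hend⟩ := exists_data hm hT hx' hxT
  have hnr : ¬ ∃ μ : ℝ, fld₀ m (pE m X₀) = ((μ : ℂ) * Complex.I) • pE m X₀ := by
    rintro ⟨μ, hμ⟩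
    apply hnc
    intro a b t
    refine const_of_releq hx (μ := μ) ?_ a b t
    have h1 : ((fld₀ m (pE m X₀) : comSub m) : Ph) =
        ((((μ : ℂ) * Complex.I) • pE m X₀ : comSub m) : Ph) := by rw [hμ]
    have h2 : fld m ((pE m X₀ : comSub m) : Ph) =
        ((μ : ℂ) * Complex.I) • ((pE m X₀ : comSub m) : Ph) := h1
    rwa [hX] at h2
  obtain ⟨M, hM⟩ := exists_isMon hm hT hu hx' hxT
  have hcpM := cp_monodromy hm hT hx' hLM hX hu hM
  obtain ⟨t₁, t₂, ht⟩ := ret_form hm hu hLM hφ hend hnr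
  obtain ⟨l₁, l₂, hl1, hl2, hfac⟩ := exists_factor t₁ t₂
  have hMl : Mult M l₁ l₂ := by
    unfold Mult
    rw [← hcpM, ht, Polynomial.map_mul, hfac, Polynomial.map_pow, Polynomial.map_sub,
      Polynomial.map_X, Polynomial.map_one]
  have hle : ∀ l : ℂ, (M.charpoly.map (algebraMap ℝ ℂ)).eval l = 0 → ‖l‖ ≤ 1 := by
    intro l hl
    refine multiplier_le_one hm hx hP hper hst hnc hT hu hX hLM hφ hend (l := l) ?_
    rw [hcpM]
    exact hl
  have hone : ∀ l : ℂ, l ≠ 0 → ‖l‖ ≤ 1 → ‖l⁻¹‖ ≤ 1 → ‖l‖ = 1 := by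
    intro l h0 h1 h2
    have h3 : 0 < ‖l‖ := norm_pos_iff.2 h0
    rw [norm_inv, inv_le_one₀ h3] at h2
    exact le_antisymm h1 h2
  have hev : ∀ l : ℂ, (X - C l₁ : ℂ[X]).eval l = 0 ∨ (X - C l₁⁻¹ : ℂ[X]).eval l = 0 ∨
      (X - C l₂ : ℂ[X]).eval l = 0 ∨ (X - C l₂⁻¹ : ℂ[X]).eval l = 0 →
      (M.charpoly.map (algebraMap ℝ ℂ)).eval l = 0 := by
    intro l hl
    rw [hMl]
    simp only [eval_mul]
    rcases hl with h | h | h | h <;> rw [h] <;> ring
  have h1 : ‖l₁‖ = 1 := hone l₁ hl1 (hle _ (hev _ (Or.inl (by simp))))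
    (hle _ (hev _ (Or.inr (Or.inl (by simp)))))
  have h2 : ‖l₂‖ = 1 := hone l₂ hl2 (hle _ (hev _ (Or.inr (Or.inr (Or.inl (by simp))))))
    (hle _ (hev _ (Or.inr (Or.inr (Or.inr (by simp))))))
  exact ⟨M, hM, l₁, l₂, h1, h2, hMl,
    hnear x hx ⟨hxU₁ (mem_range_self 0), hxU₂ (mem_range_self 0)⟩ T hT u hu hxu M hM l₁ l₂ h1 h2
      hMl⟩

end Pool.Agent.MP_5027f4_cont
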