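import Pool.Agent.Lib_MP_5027f4_cont.SDefs

/-!
PIECE [SFou] (MP_5027f4_mp, block S).  Fourier coefficients of the normal part of the eigenvector.
-/

open Set Filter Topology Metric Polynomial
open scoped ComplexConjugate ContDiff
open Pool.Agent.MP_5027f4_mp

namespace Pool.Agent.MP_5027f4_cont

/-- integration by parts against a quasiperiodic exponential -/
theorem rot_fou_ibp {T : ℝ} {u c : ℂ} {f f' : ℝ → ℂ} (hT : 0 < T) (hu : ‖u‖ = 1)
    (hd : ∀ t ∈ Icc 0 T, HasDerivWithinAt f (f' t) (Icc 0 T) t) (hc : ContinuousOn f' (Icc 0 T))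
    (hp : f T = conj u * f 0) (hl : Complex.exp (-(c * (T : ℂ))) = u) :
    (∫ t in (0 : ℝ)..T, f' t * Complex.exp (-(c * (t : ℂ)))) =
      c * ∫ t in (0 : ℝ)..T, f t * Complex.exp (-(c * (t : ℂ))) := by
  have hE : ∀ t : ℝ, HasDerivAt (fun t : ℝ => Complex.exp (-(c * (t : ℂ))))
      (Complex.exp (-(c * (t : ℂ))) * (-c)) t := by
    intro t
    have h1 : HasDerivAt (fun t : ℝ => -(c * (t : ℂ))) (-c) t := by
      have h2 : HasDerivAt (fun t : ℝ => c * (t : ℂ)) c t := by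
        simpa using ((Complex.ofRealCLM.hasDerivAt (x := t)).const_mul c)
      exact h2.neg
    exact h1.cexp
  have hEc : Continuous (fun t : ℝ => Complex.exp (-(c * (t : ℂ)))) := by fun_prop
  have hfc : ContinuousOn f (Icc 0 T) := fun t ht => (hd t ht).continuousWithinAt
  have hI1 : IntervalIntegrable (fun t : ℝ => f' t * Complex.exp (-(c * (t : ℂ)))) MeasureTheory.volume 0 T := by
    apply ContinuousOn.intervalIntegrable
    rw [uIcc_of_le hT.le]
    exact hc.mul hEc.continuousOn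
  have hI2 : IntervalIntegrable (fun t : ℝ => f t * Complex.exp (-(c * (t : ℂ)))) MeasureTheory.volume 0 T := by
    apply ContinuousOn.intervalIntegrable
    rw [uIcc_of_le hT.le]
    exact hfc.mul hEc.continuousOn
  have hmain := intervalIntegral.integral_eq_sub_of_hasDerivAt_of_le hT.le
    (f := fun t : ℝ => f t * Complex.exp (-(c * (t : ℂ))))
    (f' := fun t : ℝ => f' t * Complex.exp (-(c * (t : ℂ))) -
      c * (f t * Complex.exp (-(c * (t : ℂ)))))
    (hfc.mul hEc.continuousOn)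
    (by
      intro t ht
      have h1 : HasDerivAt f (f' t) t :=
        (hd t (Ioo_subset_Icc_self ht)).hasDerivAt (Icc_mem_nhds ht.1 ht.2)
      refine (h1.mul (hE t)).congr_deriv ?_
      ring)
    (hI1.sub (hI2.const_mul c))
  rw [intervalIntegral.integral_sub hI1 (hI2.const_mul c), intervalIntegral.integral_const_mul] at hmain
  have hz : f T * Complex.exp (-(c * (T : ℂ))) - f 0 * Complex.exp (-(c * ((0 : ℝ) : ℂ))) = 0 := by
    have huu : conj u * u = 1 := by
      rw [mul_comm, Complex.mul_conj, Complex.normSq_eq_norm_sq, hu]; simp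
    rw [hl, hp]
    simp only [Complex.ofReal_zero, mul_zero, neg_zero, Complex.exp_zero, mul_one]
    linear_combination f 0 * huu
  have h3 := hmain.trans hz
  exact sub_eq_zero.mp h3

/-- abstract version of both identities: `P'' = κ P' + Ω² (3/2 P + 3/2 s Q + 3/2 F)` -/
theorem rot_fou_abs {s Ω T l : ℝ} {u κ : ℂ} {P P1 Q F : ℝ → ℂ} (hT : 0 < T)
    (hΩ : Ω ≠ 0) (hu : ‖u‖ = 1)
    (hP : ∀ t ∈ Icc 0 T, HasDerivWithinAt P (P1 t) (Icc 0 T) t)
    (hP1 : ∀ t ∈ Icc 0 T, HasDerivWithinAt P1 (κ * (Complex.I * (Ω : ℂ)) * P1 t +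
      (Ω : ℂ) ^ 2 * (3 / 2 * P t + 3 / 2 * (s : ℂ) * Q t + 3 / 2 * F t)) (Icc 0 T) t)
    (hQ : ContinuousOn Q (Icc 0 T)) (hF : ContinuousOn F (Icc 0 T))
    (pP : P T = conj u * P 0) (pP1 : P1 T = conj u * P1 0)
    (hl : Complex.exp (-(Complex.I * (Ω : ℂ) * (l : ℂ) * (T : ℂ))) = u) :
    (-(l : ℂ) ^ 2 + κ * (l : ℂ) - 3 / 2) * (∫ t in (0 : ℝ)..T, P t *
        Complex.exp (-(Complex.I * (Ω : ℂ) * (l : ℂ) * (t : ℂ)))) -
      3 / 2 * (s : ℂ) * (∫ t in (0 : ℝ)..T, Q t *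
        Complex.exp (-(Complex.I * (Ω : ℂ) * (l : ℂ) * (t : ℂ)))) =
      3 / 2 * ∫ t in (0 : ℝ)..T, F t *
        Complex.exp (-(Complex.I * (Ω : ℂ) * (l : ℂ) * (t : ℂ))) := by
  set c : ℂ := Complex.I * (Ω : ℂ) * (l : ℂ) with hc
  have hEc : Continuous (fun t : ℝ => Complex.exp (-(c * (t : ℂ)))) := by fun_prop
  have cP : ContinuousOn P (Icc 0 T) := fun t ht => (hP t ht).continuousWithinAt
  have cP1 : ContinuousOn P1 (Icc 0 T) := fun t ht => (hP1 t ht).continuousWithinAt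
  have ii : ∀ f : ℝ → ℂ, ContinuousOn f (Icc 0 T) →
      IntervalIntegrable (fun t : ℝ => f t * Complex.exp (-(c * (t : ℂ)))) MeasureTheory.volume 0 T := by
    intro f hf
    apply ContinuousOn.intervalIntegrable
    rw [uIcc_of_le hT.le]
    exact hf.mul hEc.continuousOn
  have c2 : ContinuousOn (fun t => κ * (Complex.I * (Ω : ℂ)) * P1 t +
      (Ω : ℂ) ^ 2 * (3 / 2 * P t + 3 / 2 * (s : ℂ) * Q t + 3 / 2 * F t)) (Icc 0 T) :=
    (continuousOn_const.mul cP1).add (continuousOn_const.mul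
      (((continuousOn_const.mul cP).add (continuousOn_const.mul hQ)).add
        (continuousOn_const.mul hF)))
  have e1 := rot_fou_ibp hT hu hP cP1 pP hl
  have e2 := rot_fou_ibp hT hu hP1 c2 pP1 hl
  have e3 : (∫ t in (0 : ℝ)..T, (κ * (Complex.I * (Ω : ℂ)) * P1 t +
      (Ω : ℂ) ^ 2 * (3 / 2 * P t + 3 / 2 * (s : ℂ) * Q t + 3 / 2 * F t)) *
        Complex.exp (-(c * (t : ℂ)))) =
      κ * (Complex.I * (Ω : ℂ)) * (∫ t in (0 : ℝ)..T, P1 t * Complex.exp (-(c * (t : ℂ)))) +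
      (Ω : ℂ) ^ 2 * (3 / 2 * (∫ t in (0 : ℝ)..T, P t * Complex.exp (-(c * (t : ℂ)))) +
        3 / 2 * (s : ℂ) * (∫ t in (0 : ℝ)..T, Q t * Complex.exp (-(c * (t : ℂ)))) +
        3 / 2 * (∫ t in (0 : ℝ)..T, F t * Complex.exp (-(c * (t : ℂ))))) := by
    rw [← intervalIntegral.integral_const_mul, ← intervalIntegral.integral_const_mul,
      ← intervalIntegral.integral_const_mul, ← intervalIntegral.integral_const_mul,
      ← intervalIntegral.integral_add ((ii P cP).const_mul _) ((ii Q hQ).const_mul _),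
      ← intervalIntegral.integral_add (((ii P cP).const_mul _).add ((ii Q hQ).const_mul _))
        ((ii F hF).const_mul _),
      ← intervalIntegral.integral_const_mul,
      ← intervalIntegral.integral_add ((ii P1 cP1).const_mul _)
        (((((ii P cP).const_mul _).add ((ii Q hQ).const_mul _)).add
        ((ii F hF).const_mul _)).const_mul _)]
    refine intervalIntegral.integral_congr fun t _ => ?_
    ring
  rw [e3, e1] at e2
  have hΩ' : (Ω : ℂ) ^ 2 ≠ 0 := by
    have : (Ω : ℂ) ≠ 0 := by exact_mod_cast hΩ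
    positivity
  have hI : Complex.I ^ 2 = -1 := Complex.I_sq
  apply mul_left_cancel₀ hΩ'
  rw [hc] at e2 ⊢
  generalize (∫ t in (0 : ℝ)..T, P t * Complex.exp (-(Complex.I * (Ω : ℂ) * (l : ℂ) * (t : ℂ)))) = x at e2 ⊢
  generalize (∫ t in (0 : ℝ)..T, Q t * Complex.exp (-(Complex.I * (Ω : ℂ) * (l : ℂ) * (t : ℂ)))) = y at e2 ⊢
  generalize (∫ t in (0 : ℝ)..T, F t * Complex.exp (-(Complex.I * (Ω : ℂ) * (l : ℂ) * (t : ℂ)))) = z at e2 ⊢
  linear_combination (-1) * e2 + (κ * (Ω : ℂ) ^ 2 * (l : ℂ) * x - (Ω : ℂ) ^ 2 * (l : ℂ) ^ 2 * x) * hI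

/-- Proof.  `P = C + i D`, `P₁ = C₁ + i D₁`, `Q = conj C + i conj D`, `Q₁ = conj C₁ + i conj D₁`: `P' = P₁`, `Q' = Q₁`,
`P T = conj u P 0` and the same for `P₁, Q, Q₁` (`pC`, ...).  With `hβ`:
`P₁' = - 2 i Ω P₁ + Ω² ((3 / 2) P + (3 / 2) s Q + (3 / 2) β e^{- i Ω t} (V - s conj V))`: the forcing is
`- (3 / 4) (X + Y) V - (3 / 4) s (X + 5 Y) conj V` with `X = A + i B = - 3 β e^{- i Ω t}`,
`Y = conj A + i conj B = β e^{- i Ω t}`; in the same way
`Q₁' = 2 i Ω Q₁ + Ω² ((3 / 2) Q + (3 / 2) s P + (3 / 2) β e^{- i Ω t} (conj V + 7 s V))`.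
Integrate against `E t = e^{- i Ω λ t}`, `E T = u`: for `f ∈ {P, P₁, Q, Q₁}` with derivative `f'`:
`∫ f' E = [f E] + i Ω λ ∫ f E = i Ω λ ∫ f E`, because `f T E T = conj u u f 0 = f 0`
(`intervalIntegral.integral_mul_deriv_eq_deriv_mul` or the fundamental theorem for `f E`).  Divide by `Ω²`. -/
theorem rot_fou {s Ω T l : ℝ} {u β : ℂ} {V V1 A A1 B B1 C C1 D D1 : ℝ → ℂ} (hT : 0 < T)
    (hΩ : Ω ≠ 0) (hu : ‖u‖ = 1) (h : RotD s Ω T u V V1 A A1 B B1 C C1 D D1)
    (hβ : ∀ t ∈ Icc 0 T,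
      A t + Complex.I * B t = -3 * β * Complex.exp (-(Complex.I * (Ω : ℂ) * (t : ℂ))) ∧
      conj (A t) + Complex.I * conj (B t) = β * Complex.exp (-(Complex.I * (Ω : ℂ) * (t : ℂ))))
    (hl : Complex.exp (-(Complex.I * (Ω : ℂ) * (l : ℂ) * (T : ℂ))) = u) :
    (-(l : ℂ) ^ 2 - 2 * (l : ℂ) - 3 / 2) * (∫ t in (0 : ℝ)..T, (C t + Complex.I * D t) *
        Complex.exp (-(Complex.I * (Ω : ℂ) * (l : ℂ) * (t : ℂ)))) -
      3 / 2 * (s : ℂ) * (∫ t in (0 : ℝ)..T, (conj (C t) + Complex.I * conj (D t)) *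
        Complex.exp (-(Complex.I * (Ω : ℂ) * (l : ℂ) * (t : ℂ)))) =
      3 / 2 * β * ∫ t in (0 : ℝ)..T, (V t - (s : ℂ) * conj (V t)) *
        Complex.exp (-(Complex.I * (Ω : ℂ) * (1 + (l : ℂ)) * (t : ℂ))) ∧
    (-(l : ℂ) ^ 2 + 2 * (l : ℂ) - 3 / 2) * (∫ t in (0 : ℝ)..T,
        (conj (C t) + Complex.I * conj (D t)) *
        Complex.exp (-(Complex.I * (Ω : ℂ) * (l : ℂ) * (t : ℂ)))) -
      3 / 2 * (s : ℂ) * (∫ t in (0 : ℝ)..T, (C t + Complex.I * D t) *
        Complex.exp (-(Complex.I * (Ω : ℂ) * (l : ℂ) * (t : ℂ)))) =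
      3 / 2 * β * ∫ t in (0 : ℝ)..T, (conj (V t) + 7 * (s : ℂ) * V t) *
        Complex.exp (-(Complex.I * (Ω : ℂ) * (1 + (l : ℂ)) * (t : ℂ))) := by
  have cV : ContinuousOn V (Icc 0 T) := fun t ht => (h.dV t ht).continuousWithinAt
  have cC : ContinuousOn C (Icc 0 T) := fun t ht => (h.dC t ht).continuousWithinAt
  have cD : ContinuousOn D (Icc 0 T) := fun t ht => (h.dD t ht).continuousWithinAt
  have cVb : ContinuousOn (fun t => conj (V t)) (Icc 0 T) := Complex.continuous_conj.comp_continuousOn cV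
  have cCb : ContinuousOn (fun t => conj (C t)) (Icc 0 T) := Complex.continuous_conj.comp_continuousOn cC
  have cDb : ContinuousOn (fun t => conj (D t)) (Icc 0 T) := Complex.continuous_conj.comp_continuousOn cD
  have cE : Continuous (fun t : ℝ => β * Complex.exp (-(Complex.I * (Ω : ℂ) * (t : ℂ)))) := by fun_prop
  have hconj : ∀ {f : ℝ → ℂ} {f' : ℂ} {t : ℝ}, HasDerivWithinAt f f' (Icc 0 T) t →
      HasDerivWithinAt (fun t => conj (f t)) (conj f') (Icc 0 T) t := by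
    intro f f' t hf
    exact (Complex.conjCLE.hasFDerivAt.comp_hasDerivWithinAt t hf)
  have hur : conj u = (u.re : ℂ) - Complex.I * (u.im : ℂ) := by
    apply Complex.ext <;> simp
  have hI : Complex.I ^ 2 = -1 := Complex.I_sq
  constructor
  · have key := rot_fou_abs (s := s) (Ω := Ω) (T := T) (l := l) (u := u) (κ := -2)
      (P := fun t => C t + Complex.I * D t) (P1 := fun t => C1 t + Complex.I * D1 t)
      (Q := fun t => conj (C t) + Complex.I * conj (D t))
      (F := fun t => β * Complex.exp (-(Complex.I * (Ω : ℂ) * (t : ℂ))) *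
        (V t - (s : ℂ) * conj (V t))) hT hΩ hu
      (fun t ht => (h.dC t ht).add ((h.dD t ht).const_mul Complex.I))
      (by
        intro t ht
        refine ((h.dC1 t ht).add ((h.dD1 t ht).const_mul Complex.I)).congr_deriv ?_
        obtain ⟨hX, hY⟩ := hβ t ht
        linear_combination (-(3 / 4) * (Ω : ℂ) ^ 2 * V t - 3 / 4 * (s : ℂ) * (Ω : ℂ) ^ 2 * conj (V t)) * hX +
          (-(3 / 4) * (Ω : ℂ) ^ 2 * V t - 15 / 4 * (s : ℂ) * (Ω : ℂ) ^ 2 * conj (V t)) * hY)
      (cCb.add (continuousOn_const.mul cDb))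
      (cE.continuousOn.mul (cV.sub (continuousOn_const.mul cVb)))
      (by
        simp only [h.pC, h.pD, hur]
        linear_combination ((u.im : ℂ) * D 0) * hI)
      (by
        simp only [h.pC1, h.pD1, hur]
        linear_combination ((u.im : ℂ) * D1 0) * hI) hl
    have e : (3 / 2 * β * ∫ t in (0 : ℝ)..T, (V t - (s : ℂ) * conj (V t)) *
        Complex.exp (-(Complex.I * (Ω : ℂ) * (1 + (l : ℂ)) * (t : ℂ)))) =
        3 / 2 * ∫ t in (0 : ℝ)..T, (β * Complex.exp (-(Complex.I * (Ω : ℂ) * (t : ℂ))) *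
        (V t - (s : ℂ) * conj (V t))) *
        Complex.exp (-(Complex.I * (Ω : ℂ) * (l : ℂ) * (t : ℂ))) := by
      rw [← intervalIntegral.integral_const_mul, ← intervalIntegral.integral_const_mul]
      refine intervalIntegral.integral_congr fun t _ => ?_
      have e4 : Complex.exp (-(Complex.I * (Ω : ℂ) * (1 + (l : ℂ)) * (t : ℂ))) =
          Complex.exp (-(Complex.I * (Ω : ℂ) * (t : ℂ))) *
          Complex.exp (-(Complex.I * (Ω : ℂ) * (l : ℂ) * (t : ℂ))) := by
        rw [← Complex.exp_add]; congr 1; ring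
      simp only [e4]
      ring
    rw [e]
    linear_combination key
  · have key := rot_fou_abs (s := s) (Ω := Ω) (T := T) (l := l) (u := u) (κ := 2)
      (P := fun t => conj (C t) + Complex.I * conj (D t))
      (P1 := fun t => conj (C1 t) + Complex.I * conj (D1 t))
      (Q := fun t => C t + Complex.I * D t)
      (F := fun t => β * Complex.exp (-(Complex.I * (Ω : ℂ) * (t : ℂ))) *
        (conj (V t) + 7 * (s : ℂ) * V t)) hT hΩ hu
      (fun t ht => (hconj (h.dC t ht)).add ((hconj (h.dD t ht)).const_mul Complex.I))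
      (by
        intro t ht
        refine ((hconj (h.dC1 t ht)).add ((hconj (h.dD1 t ht)).const_mul Complex.I)).congr_deriv ?_
        obtain ⟨hX, hY⟩ := hβ t ht
        simp only [map_add, map_sub, map_mul, map_neg, map_pow, map_ofNat, map_div₀,
          Complex.conj_I, Complex.conj_ofReal, Complex.conj_conj]
        linear_combination (-(3 / 4) * (Ω : ℂ) ^ 2 * conj (V t) - 15 / 4 * (s : ℂ) * (Ω : ℂ) ^ 2 * V t) * hX +
          (-(3 / 4) * (Ω : ℂ) ^ 2 * conj (V t) - 3 / 4 * (s : ℂ) * (Ω : ℂ) ^ 2 * V t) * hY)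
      (cC.add (continuousOn_const.mul cD))
      (cE.continuousOn.mul (cVb.add (continuousOn_const.mul cV)))
      (by
        simp only [h.pC, h.pD, hur, map_add, map_mul, map_neg, Complex.conj_ofReal]
        linear_combination ((u.im : ℂ) * conj (D 0)) * hI)
      (by
        simp only [h.pC1, h.pD1, hur, map_add, map_mul, map_neg, Complex.conj_ofReal]
        linear_combination ((u.im : ℂ) * conj (D1 0)) * hI) hl
    have e : (3 / 2 * β * ∫ t in (0 : ℝ)..T, (conj (V t) + 7 * (s : ℂ) * V t) *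
        Complex.exp (-(Complex.I * (Ω : ℂ) * (1 + (l : ℂ)) * (t : ℂ)))) =
        3 / 2 * ∫ t in (0 : ℝ)..T, (β * Complex.exp (-(Complex.I * (Ω : ℂ) * (t : ℂ))) *
        (conj (V t) + 7 * (s : ℂ) * V t)) *
        Complex.exp (-(Complex.I * (Ω : ℂ) * (l : ℂ) * (t : ℂ))) := by
      rw [← intervalIntegral.integral_const_mul, ← intervalIntegral.integral_const_mul]
      refine intervalIntegral.integral_congr fun t _ => ?_
      have e4 : Complex.exp (-(Complex.I * (Ω : ℂ) * (1 + (l : ℂ)) * (t : ℂ))) =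
          Complex.exp (-(Complex.I * (Ω : ℂ) * (t : ℂ))) *
          Complex.exp (-(Complex.I * (Ω : ℂ) * (l : ℂ) * (t : ℂ))) := by
        rw [← Complex.exp_add]; congr 1; ring
      simp only [e4]
      ring
    rw [e]
    linear_combination key

end Pool.Agent.MP_5027f4_cont
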