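import Pool.Agent.Lib_MP_5027f4_cont.SDefs

/-!
PIECE [SInt] (MP_5027f4_mp, block S).  The integral identity in terms of Fourier coefficients.
-/

open Set Filter Topology Metric Polynomial
open scoped ComplexConjugate ContDiff
open Pool.Agent.MP_5027f4_mp

namespace Pool.Agent.MP_5027f4_cont

theorem gfs_im (x : ℂ) : (x.im : ℂ) = -(Complex.I / 2) * (x - conj x) := by
  rw [Complex.sub_conj]
  push_cast
  linear_combination (x.im : ℂ) * Complex.I_sq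

theorem gfs_re (x : ℂ) : (x.re : ℂ) = (x + conj x) / 2 := by
  rw [Complex.add_conj]
  push_cast
  ring

/-- Proof.  Pure algebra: `Gf` is the sum of terms which are real linear in `(A, A₁, C)`; for
`X = A + i B`, `Y = conj A + i conj B`, `X₁`, `Y₁`, `P = C + i D`, `Q = conj C + i conj D`, `κ = kap0 s V` the
sum is, with `δV = P - V X`, `δW = Q - conj V Y`,
`- (X + Y) / 2 (κ + i Im κ) + (3 / 2) dκ - (1 / 2) dκ' + Im κ (X₁ / Ω + i X) + (X₁ - Y₁) / (2 i Ω) κ + X κ`,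
`dκ = (3 / 4) (s V + conj V) δV + ((3 / 4) V + (15 / 4) s conj V) δW`,
`dκ' = ((3 / 4) conj V + (15 / 4) s V) δV + (3 / 4) (s conj V + V) δW`; substitute `X = - 3 β E`, `Y = β E`,
`X₁ = 3 i Ω β E`, `Y₁ = - i Ω β E`, `Im κ = (3 / 4) s (conj V ^ 2 - V ^ 2) / i`. -/
theorem gf_sum {s Ω : ℝ} (hΩ : Ω ≠ 0) {A A1 B B1 C D V β E : ℂ}
    (hX : A + Complex.I * B = -3 * β * E) (hY : conj A + Complex.I * conj B = β * E)
    (hX1 : A1 + Complex.I * B1 = 3 * Complex.I * (Ω : ℂ) * β * E)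
    (hY1 : conj A1 + Complex.I * conj B1 = -(Complex.I * (Ω : ℂ) * β * E)) :
    Gf s Ω A A1 V C + Complex.I * Gf s Ω B B1 V D =
      3 / 4 * ((conj V - (s : ℂ) * V) * (C + Complex.I * D + 3 * β * E * V) +
        (V + 7 * (s : ℂ) * conj V) * (conj C + Complex.I * conj D - β * E * conj V)) +
      3 / 4 * (s : ℂ) * β * E * (conj V ^ 2 - V ^ 2) := by
  have hΩ' : (Ω : ℂ) ≠ 0 := by exact_mod_cast hΩ
  obtain ⟨w, hw⟩ : ∃ w : ℂ, w = (Ω : ℂ)⁻¹ := ⟨_, rfl⟩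
  have hw1 : (Ω : ℂ) * w = 1 := by rw [hw]; exact mul_inv_cancel₀ hΩ'
  have hX1' : (A1 + Complex.I * B1) * w = 3 * Complex.I * β * E := by
    rw [hX1]; linear_combination (3 * Complex.I * β * E) * hw1
  have hY1' : (conj A1 + Complex.I * conj B1) * w = -(Complex.I * β * E) := by
    rw [hY1]; linear_combination (-(Complex.I * β * E)) * hw1
  have hκ : conj (kap0 s V) = 3 / 8 * (s : ℂ) * conj V ^ 2 + 3 / 4 * (V * conj V) +
      15 / 8 * (s : ℂ) * V ^ 2 := by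
    simp only [kap0, map_add, map_mul, map_pow, Complex.conj_ofReal, Complex.conj_conj, map_div₀,
      map_ofNat]
    ring
  have hd : ∀ W : ℂ, conj (dkap0 s V W) = 3 / 4 * ((s : ℂ) * conj V + V) * conj W +
      (3 / 4 * conj V + 15 / 4 * (s : ℂ) * V) * W := by
    intro W
    simp only [dkap0, map_add, map_mul, Complex.conj_ofReal, Complex.conj_conj, map_div₀,
      map_ofNat]
  obtain ⟨κ, hκ0⟩ : ∃ κ, κ = kap0 s V := ⟨_, rfl⟩
  obtain ⟨κ', hκ1⟩ : ∃ κ', κ' = conj (kap0 s V) := ⟨_, rfl⟩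
  have e1 : κ = 3 / 8 * (s : ℂ) * V ^ 2 + 3 / 4 * (V * conj V) + 15 / 8 * (s : ℂ) * conj V ^ 2 := hκ0
  have e2 := hκ1.trans hκ
  have hG : ∀ A A1 C : ℂ, Gf s Ω A A1 V C =
      -((A + conj A) / 2) * ((3 * κ - κ') / 2) +
      (3 * (3 / 4 * ((s : ℂ) * V + conj V) * (C - V * A) +
        (3 / 4 * V + 15 / 4 * (s : ℂ) * conj V) * (conj C - conj V * conj A)) -
        (3 / 4 * ((s : ℂ) * conj V + V) * (conj C - conj V * conj A) +
      (3 / 4 * conj V + 15 / 4 * (s : ℂ) * V) * (C - V * A))) / 2 +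
      (-(Complex.I / 2) * (κ - κ')) * (A1 * w + Complex.I * A) +
      (-(Complex.I / 2) * (A1 - conj A1)) * w * κ + A * κ := by
    intro A A1 C
    unfold Gf
    rw [gfs_im (kap0 s V), gfs_im (dkap0 s V (C - V * A)), hd, ← hκ1, ← hκ0, gfs_re A,
      Complex.ofReal_div, gfs_im A1, div_eq_mul_inv A1 (Ω : ℂ),
      div_eq_mul_inv (-(Complex.I / 2) * (A1 - conj A1)) (Ω : ℂ), ← hw]
    unfold dkap0
    simp only [map_sub, map_mul]
    linear_combination (-(3 / 4 * ((s : ℂ) * V + conj V) * (C - V * A) +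
        (3 / 4 * V + 15 / 4 * (s : ℂ) * conj V) * (conj C - conj V * conj A) - (3 / 4 * ((s : ℂ) * conj V + V) * (conj C - conj V * conj A) +
      (3 / 4 * conj V + 15 / 4 * (s : ℂ) * V) * (C - V * A))) / 2 + (A + conj A) * (κ - κ') / 4) * Complex.I_sq
  have hI3 : Complex.I ^ 3 = -Complex.I := by
    rw [pow_succ, Complex.I_sq]
    ring
  rw [hG, hG]
  linear_combination (norm := (ring_nf; simp only [Complex.I_sq, hI3]; ring_nf))
    (-(3 * κ - κ') / 4 + (3 * (3 / 4 * ((s : ℂ) * V + conj V) * (-V)) -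
      (3 / 4 * conj V + 15 / 4 * (s : ℂ) * V) * (-V)) / 2 + (κ - κ') / 2 + κ) * hX +
    (-(3 * κ - κ') / 4 + (3 * ((3 / 4 * V + 15 / 4 * (s : ℂ) * conj V) * (-conj V)) -
      3 / 4 * ((s : ℂ) * conj V + V) * (-conj V)) / 2) * hY +
    (-(Complex.I / 2) * (κ - κ') + (-(Complex.I / 2)) * κ) * hX1' +
    (Complex.I / 2 * κ) * hY1' + (β * E / 2) * e1 - (β * E / 2) * e2

theorem osc_int {om T : ℝ} {k : ℤ} (hom : om ≠ 0) (h : om * T = 2 * Real.pi * k) :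
    ∫ t in (0 : ℝ)..T, Complex.exp (Complex.I * (om : ℂ) * (t : ℂ)) = 0 := by
  have hc : Complex.I * (om : ℂ) ≠ 0 := mul_ne_zero Complex.I_ne_zero (by exact_mod_cast hom)
  rw [integral_exp_mul_complex hc]
  have h1 : Complex.I * (om : ℂ) * (T : ℂ) = (k : ℂ) * (2 * (Real.pi : ℂ) * Complex.I) := by
    have : ((om * T : ℝ) : ℂ) = ((2 * Real.pi * k : ℝ) : ℂ) := by rw [h]
    push_cast at this
    linear_combination Complex.I * this
  rw [h1, Complex.exp_int_mul_two_pi_mul_I]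
  simp

/-- the oscillating part has integral zero -/
theorem two_int {om T : ℝ} {k : ℤ} (hom : om ≠ 0) (h : om * T = 2 * Real.pi * k) (a b c : ℂ) :
    ∫ t in (0 : ℝ)..T, (a + b * Complex.exp (Complex.I * (om : ℂ) * (t : ℂ)) ^ 2 +
      c * Complex.exp (-(Complex.I * (om : ℂ) * (t : ℂ))) ^ 2) = (T : ℂ) * a := by
  have e1 : ∀ t : ℝ, Complex.exp (Complex.I * (om : ℂ) * (t : ℂ)) ^ 2 =
      Complex.exp (Complex.I * ((2 * om : ℝ) : ℂ) * (t : ℂ)) := by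
    intro t
    rw [← Complex.exp_nat_mul]
    congr 1
    push_cast
    ring
  have e2 : ∀ t : ℝ, Complex.exp (-(Complex.I * (om : ℂ) * (t : ℂ))) ^ 2 =
      Complex.exp (Complex.I * ((-2 * om : ℝ) : ℂ) * (t : ℂ)) := by
    intro t
    rw [← Complex.exp_nat_mul]
    congr 1
    push_cast
    ring
  have h1 := osc_int (om := 2 * om) (T := T) (k := 2 * k) (by simpa using hom)
    (by push_cast; linarith)
  have h2 := osc_int (om := -2 * om) (T := T) (k := -2 * k) (by simpa using hom)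
    (by push_cast; linarith)
  simp only [e1, e2]
  rw [intervalIntegral.integral_add, intervalIntegral.integral_add,
    intervalIntegral.integral_const_mul, intervalIntegral.integral_const_mul, h1, h2,
    intervalIntegral.integral_const]
  · simp
  all_goals exact Continuous.intervalIntegrable (by fun_prop) _ _

/-- Proof.  `gf_sum` with `E = e^{- i Ω t}`; multiply by `e^{i Ω t}` and expand `V`, `conj V = conj c₂ e^{i r Ω t} +
conj c₁ e^{- i r Ω t}`.  The terms with `C + i D`, `conj C + i conj D` give the four Fourier coefficients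
(`l = - 1 + r`: `e^{- i Ω l t} = e^{i Ω t} e^{- i r Ω t}`; `l = - 1 - r`), the others are trigonometric
polynomials in `e^{± 2 i r Ω t}` with `∫ e^{± 2 i r Ω t} = 0` (`hper`, `r Ω T = 2 π k`, `r Ω ≠ 0`). -/
theorem rot_int {s r Ω T : ℝ} {u β c₁ c₂ : ℂ} {V V1 A A1 B B1 C C1 D D1 : ℝ → ℂ} {k : ℤ}
    (hT : 0 < T) (hΩ : Ω ≠ 0) (hr : 0 < r) (hper : r * (Ω * T) = 2 * Real.pi * k)
    (h : RotD s Ω T u V V1 A A1 B B1 C C1 D D1)
    (hβ : ∀ t ∈ Icc 0 T,
      A t + Complex.I * B t = -3 * β * Complex.exp (-(Complex.I * (Ω : ℂ) * (t : ℂ))) ∧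
      conj (A t) + Complex.I * conj (B t) = β * Complex.exp (-(Complex.I * (Ω : ℂ) * (t : ℂ))) ∧
      A1 t + Complex.I * B1 t =
        3 * Complex.I * (Ω : ℂ) * β * Complex.exp (-(Complex.I * (Ω : ℂ) * (t : ℂ))) ∧
      conj (A1 t) + Complex.I * conj (B1 t) =
        -(Complex.I * (Ω : ℂ) * β * Complex.exp (-(Complex.I * (Ω : ℂ) * (t : ℂ)))))
    (hV : ∀ t ∈ Icc 0 T, V t = c₁ * Complex.exp (Complex.I * (r : ℂ) * (Ω : ℂ) * (t : ℂ)) +
        c₂ * Complex.exp (-(Complex.I * (r : ℂ) * (Ω : ℂ) * (t : ℂ)))) :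
    (conj c₁ - (s : ℂ) * c₂) * (∫ t in (0 : ℝ)..T, (C t + Complex.I * D t) *
        Complex.exp (-(Complex.I * (Ω : ℂ) * ((-1 + r : ℝ) : ℂ) * (t : ℂ)))) +
      (conj c₂ - (s : ℂ) * c₁) * (∫ t in (0 : ℝ)..T, (C t + Complex.I * D t) *
        Complex.exp (-(Complex.I * (Ω : ℂ) * ((-1 - r : ℝ) : ℂ) * (t : ℂ)))) +
      (c₂ + 7 * (s : ℂ) * conj c₁) * (∫ t in (0 : ℝ)..T, (conj (C t) + Complex.I * conj (D t)) *
        Complex.exp (-(Complex.I * (Ω : ℂ) * ((-1 + r : ℝ) : ℂ) * (t : ℂ)))) +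
      (c₁ + 7 * (s : ℂ) * conj c₂) * (∫ t in (0 : ℝ)..T, (conj (C t) + Complex.I * conj (D t)) *
        Complex.exp (-(Complex.I * (Ω : ℂ) * ((-1 - r : ℝ) : ℂ) * (t : ℂ)))) +
      β * (T : ℂ) * (2 * (c₁ * conj c₁ + c₂ * conj c₂) - 6 * (s : ℂ) * (c₁ * c₂) -
        14 * (s : ℂ) * (conj c₁ * conj c₂)) +
      (s : ℂ) * β * (T : ℂ) * (2 * (conj c₁ * conj c₂) - 2 * (c₁ * c₂)) = 0 := by
  have hom : r * Ω ≠ 0 := mul_ne_zero hr.ne' hΩ
  have hk : r * Ω * T = 2 * Real.pi * k := by rw [← hper]; ring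
  have hcast : ((r * Ω : ℝ) : ℂ) = (r : ℂ) * (Ω : ℂ) := by push_cast; ring
  have hp : ∀ t : ℝ, Complex.exp (Complex.I * ((r * Ω : ℝ) : ℂ) * (t : ℂ)) *
      Complex.exp (-(Complex.I * ((r * Ω : ℝ) : ℂ) * (t : ℂ))) = 1 := by
    intro t
    rw [← Complex.exp_add, add_neg_cancel, Complex.exp_zero]
  have hG : ∀ t : ℝ, Complex.exp (Complex.I * (Ω : ℂ) * (t : ℂ)) *
      Complex.exp (-(Complex.I * (Ω : ℂ) * (t : ℂ))) = 1 := by
    intro t
    rw [← Complex.exp_add, add_neg_cancel, Complex.exp_zero]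
  have hcj : ∀ t : ℝ, conj (Complex.exp (Complex.I * ((r * Ω : ℝ) : ℂ) * (t : ℂ))) =
      Complex.exp (-(Complex.I * ((r * Ω : ℝ) : ℂ) * (t : ℂ))) := by
    intro t
    rw [← Complex.exp_conj]
    congr 1
    simp
  have hcj' : ∀ t : ℝ, conj (Complex.exp (-(Complex.I * ((r * Ω : ℝ) : ℂ) * (t : ℂ)))) =
      Complex.exp (Complex.I * ((r * Ω : ℝ) : ℂ) * (t : ℂ)) := by
    intro t
    rw [← hcj t, Complex.conj_conj]
  have hx1 : ∀ t : ℝ, Complex.exp (-(Complex.I * (Ω : ℂ) * ((-1 + r : ℝ) : ℂ) * (t : ℂ))) =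
      Complex.exp (Complex.I * (Ω : ℂ) * (t : ℂ)) *
      Complex.exp (-(Complex.I * ((r * Ω : ℝ) : ℂ) * (t : ℂ))) := by
    intro t
    rw [← Complex.exp_add]
    congr 1
    push_cast
    ring
  have hx2 : ∀ t : ℝ, Complex.exp (-(Complex.I * (Ω : ℂ) * ((-1 - r : ℝ) : ℂ) * (t : ℂ))) =
      Complex.exp (Complex.I * (Ω : ℂ) * (t : ℂ)) *
      Complex.exp (Complex.I * ((r * Ω : ℝ) : ℂ) * (t : ℂ)) := by
    intro t
    rw [← Complex.exp_add]
    congr 1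
    push_cast
    ring
  have hV' : ∀ t ∈ uIcc 0 T, V t = c₁ * Complex.exp (Complex.I * ((r * Ω : ℝ) : ℂ) * (t : ℂ)) +
        c₂ * Complex.exp (-(Complex.I * ((r * Ω : ℝ) : ℂ) * (t : ℂ))) := by
    intro t ht
    rw [uIcc_of_le hT.le] at ht
    rw [hV t ht, hcast]
    simp only [mul_assoc]
  have hVc : ∀ t ∈ uIcc 0 T, conj (V t) =
      conj c₁ * Complex.exp (-(Complex.I * ((r * Ω : ℝ) : ℂ) * (t : ℂ))) +
        conj c₂ * Complex.exp (Complex.I * ((r * Ω : ℝ) : ℂ) * (t : ℂ)) := by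
    intro t ht
    rw [hV' t ht, map_add, map_mul, map_mul, hcj, hcj']
  have key : ∀ t ∈ uIcc 0 T, Complex.exp (Complex.I * (Ω : ℂ) * (t : ℂ)) *
      (Gf s Ω (A t) (A1 t) (V t) (C t) + Complex.I * Gf s Ω (B t) (B1 t) (V t) (D t)) =
      3 / 4 * (((conj c₁ - (s : ℂ) * c₂) * ((C t + Complex.I * D t) *
          Complex.exp (-(Complex.I * (Ω : ℂ) * ((-1 + r : ℝ) : ℂ) * (t : ℂ)))) +
        (conj c₂ - (s : ℂ) * c₁) * ((C t + Complex.I * D t) *
          Complex.exp (-(Complex.I * (Ω : ℂ) * ((-1 - r : ℝ) : ℂ) * (t : ℂ))))) +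
        ((c₂ + 7 * (s : ℂ) * conj c₁) * ((conj (C t) + Complex.I * conj (D t)) *
          Complex.exp (-(Complex.I * (Ω : ℂ) * ((-1 + r : ℝ) : ℂ) * (t : ℂ)))) +
        (c₁ + 7 * (s : ℂ) * conj c₂) * ((conj (C t) + Complex.I * conj (D t)) *
          Complex.exp (-(Complex.I * (Ω : ℂ) * ((-1 - r : ℝ) : ℂ) * (t : ℂ))))) +
        (β * (2 * (c₁ * conj c₁ + c₂ * conj c₂) - 8 * (s : ℂ) * (c₁ * c₂) -
          12 * (s : ℂ) * (conj c₁ * conj c₂)) +
          β * (2 * (c₁ * conj c₂) - 4 * (s : ℂ) * c₁ ^ 2 - 6 * (s : ℂ) * conj c₂ ^ 2) *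
            Complex.exp (Complex.I * ((r * Ω : ℝ) : ℂ) * (t : ℂ)) ^ 2 +
          β * (2 * (c₂ * conj c₁) - 4 * (s : ℂ) * c₂ ^ 2 - 6 * (s : ℂ) * conj c₁ ^ 2) *
            Complex.exp (-(Complex.I * ((r * Ω : ℝ) : ℂ) * (t : ℂ))) ^ 2)) := by
    intro t ht
    have ht' : t ∈ Icc 0 T := by rwa [uIcc_of_le hT.le] at ht
    obtain ⟨h1, h2, h3, h4⟩ := hβ t ht'
    rw [gf_sum hΩ h1 h2 (by rw [h3]) (by rw [h4]), hx1, hx2, hVc t ht, hV' t ht]
    have e1 := hp t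
    have e2 := hG t
    generalize Complex.exp (Complex.I * ((r * Ω : ℝ) : ℂ) * (t : ℂ)) = p at *
    generalize Complex.exp (-(Complex.I * ((r * Ω : ℝ) : ℂ) * (t : ℂ))) = q at *
    generalize Complex.exp (Complex.I * (Ω : ℂ) * (t : ℂ)) = g at *
    generalize Complex.exp (-(Complex.I * (Ω : ℂ) * (t : ℂ))) = e at *
    linear_combination (3 / 4 * β * (2 * (c₁ * p + c₂ * q) * (conj c₁ * q + conj c₂ * p) -
      4 * (s : ℂ) * (c₁ * p + c₂ * q) ^ 2 - 6 * (s : ℂ) * (conj c₁ * q + conj c₂ * p) ^ 2)) * e2 +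
      (3 / 4 * β * (2 * (c₁ * conj c₁ + c₂ * conj c₂) - 8 * (s : ℂ) * (c₁ * c₂) -
          12 * (s : ℂ) * (conj c₁ * conj c₂))) * e1
  have hCc : ContinuousOn C (uIcc 0 T) := by
    rw [uIcc_of_le hT.le]
    exact fun t ht => (h.dC t ht).continuousWithinAt
  have hDc : ContinuousOn D (uIcc 0 T) := by
    rw [uIcc_of_le hT.le]
    exact fun t ht => (h.dD t ht).continuousWithinAt
  have hCc' : ContinuousOn (fun t => conj (C t)) (uIcc 0 T) :=
    Complex.continuous_conj.comp_continuousOn hCc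
  have hDc' : ContinuousOn (fun t => conj (D t)) (uIcc 0 T) :=
    Complex.continuous_conj.comp_continuousOn hDc
  have hE : ∀ c : ℂ, Continuous (fun t : ℝ => Complex.exp (-(c * (t : ℂ)))) := by
    intro c
    fun_prop
  have i1 : ∀ a c : ℂ, IntervalIntegrable (fun t : ℝ => a * ((C t + Complex.I * D t) *
      Complex.exp (-(c * (t : ℂ))))) MeasureTheory.volume 0 T := fun a c =>
    (continuousOn_const.mul ((hCc.add (continuousOn_const.mul hDc)).mul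
      (hE c).continuousOn)).intervalIntegrable
  have i2 : ∀ a c : ℂ, IntervalIntegrable (fun t : ℝ => a * ((conj (C t) + Complex.I * conj (D t)) *
      Complex.exp (-(c * (t : ℂ))))) MeasureTheory.volume 0 T := fun a c =>
    (continuousOn_const.mul ((hCc'.add (continuousOn_const.mul hDc')).mul
      (hE c).continuousOn)).intervalIntegrable
  have i3 : ∀ a b c : ℂ, IntervalIntegrable (fun t : ℝ =>
      a + b * Complex.exp (Complex.I * ((r * Ω : ℝ) : ℂ) * (t : ℂ)) ^ 2 +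
      c * Complex.exp (-(Complex.I * ((r * Ω : ℝ) : ℂ) * (t : ℂ))) ^ 2)
      MeasureTheory.volume 0 T := fun a b c =>
    Continuous.intervalIntegrable (by fun_prop) _ _
  have hint := h.int
  rw [intervalIntegral.integral_congr key, intervalIntegral.integral_const_mul,
    intervalIntegral.integral_add (((i1 _ _).add (i1 _ _)).add ((i2 _ _).add (i2 _ _))) (i3 _ _ _),
    intervalIntegral.integral_add ((i1 _ _).add (i1 _ _)) ((i2 _ _).add (i2 _ _)),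
    intervalIntegral.integral_add (i1 _ _) (i1 _ _), intervalIntegral.integral_add (i2 _ _) (i2 _ _),
    intervalIntegral.integral_const_mul, intervalIntegral.integral_const_mul,
    intervalIntegral.integral_const_mul, intervalIntegral.integral_const_mul,
    two_int hom hk] at hint
  linear_combination (4 / 3) * hint

/-- Proof.  `∫ e^{± 2 i r Ω t} = 0`, and `conj V = conj c₂ e^{i r Ω t} + conj c₁ e^{- i r Ω t}`. -/
theorem rot_rhs {s r Ω T : ℝ} {c₁ c₂ : ℂ} {V : ℝ → ℂ} {k : ℤ} (hT : 0 < T) (hΩ : Ω ≠ 0)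
    (hr : 0 < r) (hper : r * (Ω * T) = 2 * Real.pi * k)
    (hV : ∀ t ∈ Icc 0 T, V t = c₁ * Complex.exp (Complex.I * (r : ℂ) * (Ω : ℂ) * (t : ℂ)) +
        c₂ * Complex.exp (-(Complex.I * (r : ℂ) * (Ω : ℂ) * (t : ℂ)))) :
    (∫ t in (0 : ℝ)..T, (V t - (s : ℂ) * conj (V t)) *
        Complex.exp (-(Complex.I * (Ω : ℂ) * (1 + ((-1 + r : ℝ) : ℂ)) * (t : ℂ))) =
      (T : ℂ) * (c₁ - (s : ℂ) * conj c₂)) ∧
    (∫ t in (0 : ℝ)..T, (V t - (s : ℂ) * conj (V t)) *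
        Complex.exp (-(Complex.I * (Ω : ℂ) * (1 + ((-1 - r : ℝ) : ℂ)) * (t : ℂ))) =
      (T : ℂ) * (c₂ - (s : ℂ) * conj c₁)) ∧
    (∫ t in (0 : ℝ)..T, (conj (V t) + 7 * (s : ℂ) * V t) *
        Complex.exp (-(Complex.I * (Ω : ℂ) * (1 + ((-1 + r : ℝ) : ℂ)) * (t : ℂ))) =
      (T : ℂ) * (conj c₂ + 7 * (s : ℂ) * c₁)) ∧
    (∫ t in (0 : ℝ)..T, (conj (V t) + 7 * (s : ℂ) * V t) *
        Complex.exp (-(Complex.I * (Ω : ℂ) * (1 + ((-1 - r : ℝ) : ℂ)) * (t : ℂ))) =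
      (T : ℂ) * (conj c₁ + 7 * (s : ℂ) * c₂)) := by
  have hom : r * Ω ≠ 0 := mul_ne_zero hr.ne' hΩ
  have hk : r * Ω * T = 2 * Real.pi * k := by rw [← hper]; ring
  have hcast : ((r * Ω : ℝ) : ℂ) = (r : ℂ) * (Ω : ℂ) := by push_cast; ring
  have hp : ∀ t : ℝ, Complex.exp (Complex.I * ((r * Ω : ℝ) : ℂ) * (t : ℂ)) *
      Complex.exp (-(Complex.I * ((r * Ω : ℝ) : ℂ) * (t : ℂ))) = 1 := by
    intro t
    rw [← Complex.exp_add, add_neg_cancel, Complex.exp_zero]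
  have hcj : ∀ t : ℝ, conj (Complex.exp (Complex.I * ((r * Ω : ℝ) : ℂ) * (t : ℂ))) =
      Complex.exp (-(Complex.I * ((r * Ω : ℝ) : ℂ) * (t : ℂ))) := by
    intro t
    rw [← Complex.exp_conj]
    congr 1
    simp
  have hcj' : ∀ t : ℝ, conj (Complex.exp (-(Complex.I * ((r * Ω : ℝ) : ℂ) * (t : ℂ)))) =
      Complex.exp (Complex.I * ((r * Ω : ℝ) : ℂ) * (t : ℂ)) := by
    intro t
    rw [← hcj t, Complex.conj_conj]
  have hx1 : ∀ t : ℝ, Complex.exp (-(Complex.I * (Ω : ℂ) * (1 + ((-1 + r : ℝ) : ℂ)) * (t : ℂ))) =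
      Complex.exp (-(Complex.I * ((r * Ω : ℝ) : ℂ) * (t : ℂ))) := by
    intro t
    congr 1
    push_cast
    ring
  have hx2 : ∀ t : ℝ, Complex.exp (-(Complex.I * (Ω : ℂ) * (1 + ((-1 - r : ℝ) : ℂ)) * (t : ℂ))) =
      Complex.exp (Complex.I * ((r * Ω : ℝ) : ℂ) * (t : ℂ)) := by
    intro t
    congr 1
    push_cast
    ring
  have hV' : ∀ t ∈ uIcc 0 T, V t = c₁ * Complex.exp (Complex.I * ((r * Ω : ℝ) : ℂ) * (t : ℂ)) +
        c₂ * Complex.exp (-(Complex.I * ((r * Ω : ℝ) : ℂ) * (t : ℂ))) := by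
    intro t ht
    rw [uIcc_of_le hT.le] at ht
    rw [hV t ht, hcast]
    simp only [mul_assoc]
  have hVc : ∀ t ∈ uIcc 0 T, conj (V t) =
      conj c₁ * Complex.exp (-(Complex.I * ((r * Ω : ℝ) : ℂ) * (t : ℂ))) +
        conj c₂ * Complex.exp (Complex.I * ((r * Ω : ℝ) : ℂ) * (t : ℂ)) := by
    intro t ht
    rw [hV' t ht, map_add, map_mul, map_mul, hcj, hcj']
  refine ⟨?_, ?_, ?_, ?_⟩
  · rw [← two_int hom hk (c₁ - (s : ℂ) * conj c₂) 0 (c₂ - (s : ℂ) * conj c₁)]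
    refine intervalIntegral.integral_congr fun t ht => ?_
    show (V t - (s : ℂ) * conj (V t)) * _ = _
    rw [hVc t ht, hV' t ht, hx1]
    linear_combination (c₁ - (s : ℂ) * conj c₂) * hp t
  · rw [← two_int hom hk (c₂ - (s : ℂ) * conj c₁) (c₁ - (s : ℂ) * conj c₂) 0]
    refine intervalIntegral.integral_congr fun t ht => ?_
    show (V t - (s : ℂ) * conj (V t)) * _ = _
    rw [hVc t ht, hV' t ht, hx2]
    linear_combination (c₂ - (s : ℂ) * conj c₁) * hp t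
  · rw [← two_int hom hk (conj c₂ + 7 * (s : ℂ) * c₁) 0 (conj c₁ + 7 * (s : ℂ) * c₂)]
    refine intervalIntegral.integral_congr fun t ht => ?_
    show (conj (V t) + 7 * (s : ℂ) * V t) * _ = _
    rw [hVc t ht, hV' t ht, hx1]
    linear_combination (conj c₂ + 7 * (s : ℂ) * c₁) * hp t
  · rw [← two_int hom hk (conj c₁ + 7 * (s : ℂ) * c₂) (conj c₂ + 7 * (s : ℂ) * c₁) 0]
    refine intervalIntegral.integral_congr fun t ht => ?_
    show (conj (V t) + 7 * (s : ℂ) * V t) * _ = _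
    rw [hVc t ht, hV' t ht, hx2]
    linear_combination (conj c₁ + 7 * (s : ℂ) * c₂) * hp t

end Pool.Agent.MP_5027f4_cont
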