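import Pool.Agent.Lib_MP_5027f4_cont.SDefs

/-!
PIECE [SMode] (MP_5027f4_mp, block S).  The periodic normal mode.
-/

open Set Filter Topology Metric Polynomial
open scoped ComplexConjugate ContDiff
open Pool.Agent.MP_5027f4_mp

namespace Pool.Agent.MP_5027f4_cont

/-- linear first order equation on an interval -/
theorem rot_exp {T : ℝ} {f : ℝ → ℂ} {c : ℂ}
    (h : ∀ t ∈ Icc 0 T, HasDerivWithinAt f (c * f t) (Icc 0 T) t) :
    ∀ t ∈ Icc 0 T, f t = f 0 * Complex.exp (c * (t : ℂ)) := by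
  intro t ht
  have hexp : ∀ t : ℝ, HasDerivWithinAt (fun t : ℝ => Complex.exp (-(c * (t : ℂ))))
      (Complex.exp (-(c * (t : ℂ))) * -c) (Icc 0 T) t := by
    intro t
    have h1 : HasDerivAt (fun t : ℝ => (t : ℂ)) 1 t := Complex.ofRealCLM.hasDerivAt
    have h2 : HasDerivAt (fun t : ℝ => -(c * (t : ℂ))) (-(c * 1)) t := (h1.const_mul c).neg
    have h3 := h2.cexp
    rw [mul_one] at h3
    exact h3.hasDerivWithinAt
  have hg : ∀ t ∈ Icc 0 T, HasDerivWithinAt (fun t : ℝ => f t * Complex.exp (-(c * (t : ℂ))))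
      0 (Icc 0 T) t := by
    intro t ht
    have := (h t ht).mul (hexp t)
    have e : c * f t * Complex.exp (-(c * (t : ℂ))) + f t * (Complex.exp (-(c * (t : ℂ))) * -c) = 0 := by
      ring
    rw [e] at this
    exact this
  have hconst := constant_of_derivWithin_zero (f := fun t : ℝ => f t * Complex.exp (-(c * (t : ℂ))))
    (a := 0) (b := T) (fun x hx => (hg x hx).differentiableWithinAt) (by
      intro x hx
      have hT : (0 : ℝ) < T := lt_of_le_of_lt hx.1 hx.2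
      exact (hg x ⟨hx.1, hx.2.le⟩).derivWithin (uniqueDiffOn_Icc hT x ⟨hx.1, hx.2.le⟩))
  have h1 := hconst t ht
  simp only [Complex.ofReal_zero, mul_zero, neg_zero, Complex.exp_zero, mul_one] at h1
  rw [← h1, mul_assoc, ← Complex.exp_add]
  simp

/-- conjugation along a derivative -/
theorem rot_conj {T t : ℝ} {f : ℝ → ℂ} {f' : ℂ} (h : HasDerivWithinAt f f' (Icc 0 T) t) :
    HasDerivWithinAt (fun t => conj (f t)) (conj f') (Icc 0 T) t := by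
  have := (Complex.conjCLE.toContinuousLinearMap.hasFDerivAt (x := f t)).comp_hasDerivWithinAt t h
  exact this

/-- Proof.  Let `V₂ = - 2 i Ω V₁ + Ω² ((3 / 2) V + (3 / 2) s conj V)` (`= V₁'`), `W = V₂ + Ω² r² V`,
`W₁ = - 2 i Ω V₂ + Ω² ((3 / 2) V₁ + (3 / 2) s conj V₁) + Ω² r² V₁` (`= W'`).  Then
`W₁' = - Ω² (1 - r²) W`: with `V₃ = V₂'`, `V₄ = V₃'` one has (differentiate `V₂ + 2 i Ω V₁ - (3 / 2) Ω² V =
(3 / 2) s Ω² conj V` twice and use the conjugate equation `conj V₂ - 2 i Ω conj V₁ - (3 / 2) Ω² conj V =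
(3 / 2) s Ω² V`) `V₄ + Ω² V₂ + (9 / 4) (1 - s²) Ω⁴ V = 0`, and `(9 / 4) (1 - s²) = r² (1 - r²)` by `hres`.
Everything is periodic: `W T = W 0`, `W₁ T = W₁ 0`.  With `ρ = √(1 - r²) > 0`, `W₁ ± i ρ Ω W` times
`e^{∓ i ρ Ω t}` is constant on `[0, T]`, and `e^{i ρ Ω T} ≠ 1`, so both vanish: `W₁ ± i ρ Ω W = 0`, `W = 0`.
So `V₁' = - Ω² r² V`, hence `V t = c₁ e^{i r Ω t} + c₂ e^{- i r Ω t}` with `c₁ = (V 0 + V₁ 0 / (i r Ω)) / 2`, and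
`V₁` is the derivative.  Put this in the equation `V₂ = - Ω² r² V` at all `t ∈ [0, T]`:
`α e^{i r Ω t} + γ e^{- i r Ω t} = 0` with `α = - (r² + 2 r + 3 / 2) c₁ - (3 / 2) s conj c₂` (up to the factor
`Ω²`); differentiate at `t = 0` (or two values of `t`): `α = 0`.  If `c₁ = 0` then `s conj c₂ = 0`, `s ≠ 0`
(`(9 / 4) (1 - s²) = r² - r⁴ ≤ 1 / 4`), `c₂ = 0` and `V 0 = V₁ 0 = 0`. -/
theorem rot_mode {s r Ω T : ℝ} {u : ℂ} {V V1 A A1 B B1 C C1 D D1 : ℝ → ℂ} (hT : 0 < T)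
    (hΩ : Ω ≠ 0) (hr : 0 < r) (hr1 : r < 1) (hres : r ^ 4 - r ^ 2 + 9 / 4 * (1 - s ^ 2) = 0)
    (hnr : Complex.exp (Complex.I * ((Real.sqrt (1 - r ^ 2) * Ω * T : ℝ) : ℂ)) ≠ 1)
    (h : RotD s Ω T u V V1 A A1 B B1 C C1 D D1) (hne : V 0 ≠ 0 ∨ V1 0 ≠ 0) :
    ∃ c₁ c₂ : ℂ, c₁ ≠ 0 ∧
      -((r : ℂ) ^ 2 + 2 * (r : ℂ) + 3 / 2) * c₁ = 3 / 2 * (s : ℂ) * conj c₂ ∧
      ∀ t ∈ Icc 0 T, V t = c₁ * Complex.exp (Complex.I * (r : ℂ) * (Ω : ℂ) * (t : ℂ)) +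
        c₂ * Complex.exp (-(Complex.I * (r : ℂ) * (Ω : ℂ) * (t : ℂ))) := by
  have hρ0 : 0 < 1 - r ^ 2 := by nlinarith
  obtain ⟨ρ, hρdef⟩ : ∃ ρ : ℝ, ρ = Real.sqrt (1 - r ^ 2) := ⟨_, rfl⟩
  have hρ : 0 < ρ := by rw [hρdef]; exact Real.sqrt_pos.2 hρ0
  have hρ2 : ρ ^ 2 = 1 - r ^ 2 := by rw [hρdef]; exact Real.sq_sqrt hρ0.le
  rw [← hρdef] at hnr
  have hΩc : (Ω : ℂ) ≠ 0 := by exact_mod_cast hΩ
  have hrc : (r : ℂ) ≠ 0 := by exact_mod_cast hr.ne'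
  have hρc : (ρ : ℂ) ≠ 0 := by exact_mod_cast hρ.ne'
  have hρ2c : (ρ : ℂ) ^ 2 = 1 - (r : ℂ) ^ 2 := by exact_mod_cast hρ2
  have hresc : (r : ℂ) ^ 4 - (r : ℂ) ^ 2 + 9 / 4 * (1 - (s : ℂ) ^ 2) = 0 := by
    have := congrArg (fun x : ℝ => (x : ℂ)) hres
    push_cast at this
    exact this
  have hI : Complex.I ^ 2 = -1 := Complex.I_sq
  -- the functions
  obtain ⟨V2, hV2⟩ : ∃ V2 : ℝ → ℂ, ∀ t, V2 t = -(2 * Complex.I * (Ω : ℂ) * V1 t) +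
    (Ω : ℂ) ^ 2 * (3 / 2 * V t + 3 / 2 * (s : ℂ) * conj (V t)) := ⟨_, fun _ => rfl⟩
  obtain ⟨V3, hV3⟩ : ∃ V3 : ℝ → ℂ, ∀ t, V3 t = -(2 * Complex.I * (Ω : ℂ) * V2 t) +
    (Ω : ℂ) ^ 2 * (3 / 2 * V1 t + 3 / 2 * (s : ℂ) * conj (V1 t)) := ⟨_, fun _ => rfl⟩
  obtain ⟨V4', hV4⟩ : ∃ V4' : ℝ → ℂ, ∀ t, V4' t = -(2 * Complex.I * (Ω : ℂ) * V3 t) +
    (Ω : ℂ) ^ 2 * (3 / 2 * V2 t + 3 / 2 * (s : ℂ) * conj (V2 t)) := ⟨_, fun _ => rfl⟩
  have d0 : ∀ t ∈ Icc 0 T, HasDerivWithinAt V (V1 t) (Icc 0 T) t := h.dV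
  have d1 : ∀ t ∈ Icc 0 T, HasDerivWithinAt V1 (V2 t) (Icc 0 T) t := by
    intro t ht
    rw [hV2]
    exact h.dV1 t ht
  have d2 : ∀ t ∈ Icc 0 T, HasDerivWithinAt V2 (V3 t) (Icc 0 T) t := by
    intro t ht
    have e : V2 = fun t => -(2 * Complex.I * (Ω : ℂ) * V1 t) +
      (Ω : ℂ) ^ 2 * (3 / 2 * V t + 3 / 2 * (s : ℂ) * conj (V t)) := funext hV2
    rw [hV3]
    have := (((d1 t ht).const_mul (2 * Complex.I * (Ω : ℂ))).neg).add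
      ((((d0 t ht).const_mul (3 / 2 : ℂ)).add
        ((rot_conj (d0 t ht)).const_mul (3 / 2 * (s : ℂ)))).const_mul ((Ω : ℂ) ^ 2))
    rw [e]
    have e2 : -(2 * Complex.I * (Ω : ℂ) * V1 t) +
      (Ω : ℂ) ^ 2 * (3 / 2 * V t + 3 / 2 * (s : ℂ) * conj (V t)) = V2 t := (hV2 t).symm
    simp only [e2]
    exact this
  have d3 : ∀ t ∈ Icc 0 T, HasDerivWithinAt V3 (V4' t) (Icc 0 T) t := by
    intro t ht
    have e : V3 = fun t => -(2 * Complex.I * (Ω : ℂ) * V2 t) +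
      (Ω : ℂ) ^ 2 * (3 / 2 * V1 t + 3 / 2 * (s : ℂ) * conj (V1 t)) := funext hV3
    rw [hV4]
    have := (((d2 t ht).const_mul (2 * Complex.I * (Ω : ℂ))).neg).add
      ((((d1 t ht).const_mul (3 / 2 : ℂ)).add
        ((rot_conj (d1 t ht)).const_mul (3 / 2 * (s : ℂ)))).const_mul ((Ω : ℂ) ^ 2))
    rw [e]
    have e2 : -(2 * Complex.I * (Ω : ℂ) * V2 t) +
      (Ω : ℂ) ^ 2 * (3 / 2 * V1 t + 3 / 2 * (s : ℂ) * conj (V1 t)) = V3 t := (hV3 t).symm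
    simp only [e2]
    exact this
  -- fourth order equation
  have h4 : ∀ t, V4' t = -((Ω : ℂ) ^ 2 * V2 t) - 9 / 4 * (1 - (s : ℂ) ^ 2) * (Ω : ℂ) ^ 4 * V t := by
    intro t
    have hc2 : conj (V2 t) = 2 * Complex.I * (Ω : ℂ) * conj (V1 t) +
        (Ω : ℂ) ^ 2 * (3 / 2 * conj (V t) + 3 / 2 * (s : ℂ) * V t) := by
      rw [hV2]
      simp only [map_add, map_neg, map_mul, Complex.conj_I, Complex.conj_ofReal, Complex.conj_conj,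
        map_pow, map_div₀, map_ofNat]
      ring
    rw [hV4, hc2, hV3]
    have e2 := hV2 t
    linear_combination (4 * (Ω : ℂ) ^ 2 * V2 t) * hI + (3 / 2 * (Ω : ℂ) ^ 2) * (-1) * e2 * 1
  obtain ⟨W, hW⟩ : ∃ W : ℝ → ℂ, ∀ t, W t = V2 t + (Ω : ℂ) ^ 2 * (r : ℂ) ^ 2 * V t :=
    ⟨_, fun _ => rfl⟩
  obtain ⟨W1, hW1⟩ : ∃ W1 : ℝ → ℂ, ∀ t, W1 t = V3 t + (Ω : ℂ) ^ 2 * (r : ℂ) ^ 2 * V1 t :=
    ⟨_, fun _ => rfl⟩
  have dW : ∀ t ∈ Icc 0 T, HasDerivWithinAt W (W1 t) (Icc 0 T) t := by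
    intro t ht
    have e : W = fun t => V2 t + (Ω : ℂ) ^ 2 * (r : ℂ) ^ 2 * V t := funext hW
    rw [e, hW1]
    exact (d2 t ht).add ((d0 t ht).const_mul _)
  have dW1 : ∀ t ∈ Icc 0 T, HasDerivWithinAt W1 (-((Ω : ℂ) ^ 2 * (ρ : ℂ) ^ 2 * W t)) (Icc 0 T) t := by
    intro t ht
    have e : W1 = fun t => V3 t + (Ω : ℂ) ^ 2 * (r : ℂ) ^ 2 * V1 t := funext hW1
    have := (d3 t ht).add ((d1 t ht).const_mul ((Ω : ℂ) ^ 2 * (r : ℂ) ^ 2))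
    rw [e]
    have e2 : -((Ω : ℂ) ^ 2 * (ρ : ℂ) ^ 2 * W t) = V4' t + (Ω : ℂ) ^ 2 * (r : ℂ) ^ 2 * V2 t := by
      rw [hW, h4, hρ2c]
      linear_combination ((Ω : ℂ) ^ 4 * V t) * hresc
    rw [e2]
    exact this
  have pV2 : V2 T = V2 0 := by rw [hV2, hV2, h.pV, h.pV1]
  have pV3 : V3 T = V3 0 := by rw [hV3, hV3, h.pV1, pV2]
  have pW : W T = W 0 := by rw [hW, hW, pV2, h.pV]
  have pW1 : W1 T = W1 0 := by rw [hW1, hW1, pV3, h.pV1]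
  have hTT : T ∈ Icc 0 T := ⟨hT.le, le_refl _⟩
  have h00 : (0 : ℝ) ∈ Icc 0 T := ⟨le_refl _, hT.le⟩
  have hP : ∀ t ∈ Icc 0 T, W1 t + Complex.I * (ρ : ℂ) * (Ω : ℂ) * W t = 0 := by
    have hd : ∀ t ∈ Icc 0 T, HasDerivWithinAt (fun t => W1 t + Complex.I * (ρ : ℂ) * (Ω : ℂ) * W t)
        ((Complex.I * (ρ : ℂ) * (Ω : ℂ)) * (W1 t + Complex.I * (ρ : ℂ) * (Ω : ℂ) * W t))
        (Icc 0 T) t := by
      intro t ht
      have := (dW1 t ht).add ((dW t ht).const_mul (Complex.I * (ρ : ℂ) * (Ω : ℂ)))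
      have e2 : (Complex.I * (ρ : ℂ) * (Ω : ℂ)) * (W1 t + Complex.I * (ρ : ℂ) * (Ω : ℂ) * W t) =
          -((Ω : ℂ) ^ 2 * (ρ : ℂ) ^ 2 * W t) + Complex.I * (ρ : ℂ) * (Ω : ℂ) * W1 t := by
        linear_combination ((ρ : ℂ) ^ 2 * (Ω : ℂ) ^ 2 * W t) * hI
      rw [e2]
      exact this
    have hs := rot_exp hd
    have hsT := hs T hTT
    simp only [pW, pW1] at hsT
    have hX : W1 0 + Complex.I * (ρ : ℂ) * (Ω : ℂ) * W 0 = 0 := by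
      by_contra hX
      apply hnr
      have : Complex.exp (Complex.I * (ρ : ℂ) * (Ω : ℂ) * (T : ℂ)) = 1 :=
        mul_left_cancel₀ hX (by rw [← hsT, mul_one])
      rw [← this]
      congr 1
      push_cast
      ring
    intro t ht
    have := hs t ht
    simp only [hX, zero_mul] at this
    exact this
  have hM : ∀ t ∈ Icc 0 T, W1 t - Complex.I * (ρ : ℂ) * (Ω : ℂ) * W t = 0 := by
    have hd : ∀ t ∈ Icc 0 T, HasDerivWithinAt (fun t => W1 t - Complex.I * (ρ : ℂ) * (Ω : ℂ) * W t)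
        ((-(Complex.I * (ρ : ℂ) * (Ω : ℂ))) * (W1 t - Complex.I * (ρ : ℂ) * (Ω : ℂ) * W t))
        (Icc 0 T) t := by
      intro t ht
      have := (dW1 t ht).sub ((dW t ht).const_mul (Complex.I * (ρ : ℂ) * (Ω : ℂ)))
      have e2 : (-(Complex.I * (ρ : ℂ) * (Ω : ℂ))) * (W1 t - Complex.I * (ρ : ℂ) * (Ω : ℂ) * W t) =
          -((Ω : ℂ) ^ 2 * (ρ : ℂ) ^ 2 * W t) - Complex.I * (ρ : ℂ) * (Ω : ℂ) * W1 t := by
        linear_combination ((ρ : ℂ) ^ 2 * (Ω : ℂ) ^ 2 * W t) * hI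
      rw [e2]
      exact this
    have hs := rot_exp hd
    have hsT := hs T hTT
    simp only [pW, pW1] at hsT
    have hX : W1 0 - Complex.I * (ρ : ℂ) * (Ω : ℂ) * W 0 = 0 := by
      by_contra hX
      apply hnr
      have : Complex.exp (-(Complex.I * (ρ : ℂ) * (Ω : ℂ)) * (T : ℂ)) = 1 :=
        mul_left_cancel₀ hX (by rw [← hsT, mul_one])
      have h2 : Complex.exp (Complex.I * ((ρ * Ω * T : ℝ) : ℂ)) *
          Complex.exp (-(Complex.I * (ρ : ℂ) * (Ω : ℂ)) * (T : ℂ)) = 1 := by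
        rw [← Complex.exp_add]
        have : Complex.I * ((ρ * Ω * T : ℝ) : ℂ) + -(Complex.I * (ρ : ℂ) * (Ω : ℂ)) * (T : ℂ) = 0 := by
          push_cast
          ring
        rw [this, Complex.exp_zero]
      rw [this, mul_one] at h2
      exact h2
    intro t ht
    have := hs t ht
    simp only [hX, zero_mul] at this
    exact this
  have hW0 : ∀ t ∈ Icc 0 T, W t = 0 := by
    intro t ht
    have h1 := hP t ht
    have h2 := hM t ht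
    have h3 : (2 * Complex.I * (ρ : ℂ) * (Ω : ℂ)) * W t = 0 := by linear_combination h1 - h2
    have h4 : (2 * Complex.I * (ρ : ℂ) * (Ω : ℂ)) ≠ 0 :=
      mul_ne_zero (mul_ne_zero (mul_ne_zero two_ne_zero Complex.I_ne_zero) hρc) hΩc
    exact (mul_eq_zero.1 h3).resolve_left h4
  have hW10 : W1 0 = 0 := by
    have := hP 0 h00
    rw [hW0 0 h00, mul_zero, add_zero] at this
    exact this
  have hVV : ∀ t ∈ Icc 0 T, V2 t = -((Ω : ℂ) ^ 2 * (r : ℂ) ^ 2 * V t) := by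
    intro t ht
    have := hW0 t ht
    rw [hW] at this
    linear_combination this
  -- the solution
  have hEp : ∀ t ∈ Icc 0 T, V1 t + Complex.I * (r : ℂ) * (Ω : ℂ) * V t =
      (V1 0 + Complex.I * (r : ℂ) * (Ω : ℂ) * V 0) *
        Complex.exp (Complex.I * (r : ℂ) * (Ω : ℂ) * (t : ℂ)) := by
    apply rot_exp (f := fun t => V1 t + Complex.I * (r : ℂ) * (Ω : ℂ) * V t)
    intro t ht
    have := (d1 t ht).add ((d0 t ht).const_mul (Complex.I * (r : ℂ) * (Ω : ℂ)))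
    have e2 : (Complex.I * (r : ℂ) * (Ω : ℂ)) * (V1 t + Complex.I * (r : ℂ) * (Ω : ℂ) * V t) =
        V2 t + Complex.I * (r : ℂ) * (Ω : ℂ) * V1 t := by
      rw [hVV t ht]
      linear_combination ((r : ℂ) ^ 2 * (Ω : ℂ) ^ 2 * V t) * hI
    rw [e2]
    exact this
  have hEm : ∀ t ∈ Icc 0 T, V1 t - Complex.I * (r : ℂ) * (Ω : ℂ) * V t =
      (V1 0 - Complex.I * (r : ℂ) * (Ω : ℂ) * V 0) *
        Complex.exp (-(Complex.I * (r : ℂ) * (Ω : ℂ)) * (t : ℂ)) := by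
    apply rot_exp (f := fun t => V1 t - Complex.I * (r : ℂ) * (Ω : ℂ) * V t)
    intro t ht
    have := (d1 t ht).sub ((d0 t ht).const_mul (Complex.I * (r : ℂ) * (Ω : ℂ)))
    have e2 : (-(Complex.I * (r : ℂ) * (Ω : ℂ))) * (V1 t - Complex.I * (r : ℂ) * (Ω : ℂ) * V t) =
        V2 t - Complex.I * (r : ℂ) * (Ω : ℂ) * V1 t := by
      rw [hVV t ht]
      linear_combination ((r : ℂ) ^ 2 * (Ω : ℂ) ^ 2 * V t) * hI
    rw [e2]
    exact this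
  obtain ⟨k, hk⟩ : ∃ k : ℂ, k = Complex.I * (r : ℂ) * (Ω : ℂ) := ⟨_, rfl⟩
  have hk0 : k ≠ 0 := by
    rw [hk]
    exact mul_ne_zero (mul_ne_zero Complex.I_ne_zero hrc) hΩc
  have hkc : conj k = -k := by
    rw [hk]
    simp only [map_mul, Complex.conj_I, Complex.conj_ofReal]
    ring
  obtain ⟨c₁, hc₁⟩ : ∃ c₁ : ℂ, c₁ = (V 0 + V1 0 / k) / 2 := ⟨_, rfl⟩
  obtain ⟨c₂, hc₂⟩ : ∃ c₂ : ℂ, c₂ = (V 0 - V1 0 / k) / 2 := ⟨_, rfl⟩
  have eV0 : V 0 = c₁ + c₂ := by rw [hc₁, hc₂]; ring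
  have eV10 : V1 0 = k * (c₁ - c₂) := by
    rw [hc₁, hc₂]
    field_simp
    ring
  have hA : ((r : ℂ) ^ 2 + 2 * (r : ℂ) + 3 / 2) * c₁ + 3 / 2 * (s : ℂ) * conj c₂ = 0 := by
    have h1 := hW0 0 h00
    have h2 := hW10
    rw [hW, hV2] at h1
    rw [hW1, hV3, hVV 0 h00] at h2
    rw [eV0, eV10] at h1 h2
    simp only [map_add, map_sub, map_mul, hkc] at h1 h2
    rw [hk] at h1 h2
    have h3 : (2 * Complex.I * (r : ℂ) * (Ω : ℂ) ^ 3) *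
        (((r : ℂ) ^ 2 + 2 * (r : ℂ) + 3 / 2) * c₁ + 3 / 2 * (s : ℂ) * conj c₂) = 0 := by
      linear_combination (Complex.I * (r : ℂ) * (Ω : ℂ)) * h1 + h2 +
        (2 * Complex.I * (r : ℂ) ^ 2 * (Ω : ℂ) ^ 3 * (c₁ - c₂)) * hI
    have h4 : (2 * Complex.I * (r : ℂ) * (Ω : ℂ) ^ 3) ≠ 0 :=
      mul_ne_zero (mul_ne_zero (mul_ne_zero two_ne_zero Complex.I_ne_zero) hrc) (pow_ne_zero _ hΩc)
    exact (mul_eq_zero.1 h3).resolve_left h4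
  refine ⟨c₁, c₂, ?_, ?_, ?_⟩
  · intro h0
    rw [h0, mul_zero, zero_add] at hA
    have hs0 : s ≠ 0 := by
      intro h1
      rw [h1] at hres
      nlinarith [sq_nonneg (r ^ 2 - 1 / 2)]
    have hsc : (s : ℂ) ≠ 0 := by exact_mod_cast hs0
    have h5 : conj c₂ = 0 :=
      (mul_eq_zero.1 hA).resolve_left (mul_ne_zero (by norm_num) hsc)
    have h6 : c₂ = 0 := by
      have := congrArg conj h5
      simpa using this
    rw [h0, h6] at eV0 eV10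
    rcases hne with h7 | h7
    · exact h7 (by rw [eV0]; ring)
    · exact h7 (by rw [eV10]; ring)
  · linear_combination -hA
  · intro t ht
    have h1 := hEp t ht
    have h2 := hEm t ht
    rw [← hk] at h1 h2 ⊢
    rw [eV0, eV10] at h1 h2
    have e3 : (-k * (t : ℂ)) = -(k * (t : ℂ)) := by ring
    rw [e3] at h2
    have h3 : (2 * k) * V t = (2 * k) * (c₁ * Complex.exp (k * (t : ℂ)) +
        c₂ * Complex.exp (-(k * (t : ℂ)))) := by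
      linear_combination h1 - h2
    exact mul_left_cancel₀ (mul_ne_zero two_ne_zero hk0) h3

end Pool.Agent.MP_5027f4_cont
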