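import Pool.Agent.Lib_MP_5027f4_cont.SKep
import Pool.Agent.Lib_MP_5027f4_cont.SMode
import Pool.Agent.Lib_MP_5027f4_cont.SFou
import Pool.Agent.Lib_MP_5027f4_cont.SInt
import Pool.Agent.Lib_MP_5027f4_cont.SAlg

/-!
# The contradiction in the rotating frame (MP_5027f4_mp, block S)
-/

open Set Filter Topology Metric Polynomial
open scoped ComplexConjugate ContDiff
open Pool.Agent.MP_5027f4_mp

namespace Pool.Agent.MP_5027f4_cont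

theorem rot_contra {s r Ω T : ℝ} {u : ℂ} {V V1 A A1 B B1 C C1 D D1 : ℝ → ℂ} {k : ℤ}
    (hT : 0 < T) (hΩ : Ω ≠ 0) (hr : 0 < r) (hr1 : r < 1) (hr2 : r ≠ 1 / 2)
    (hres : r ^ 4 - r ^ 2 + 9 / 4 * (1 - s ^ 2) = 0)
    (hu : u = Complex.exp ((Ω * T : ℝ) * Complex.I)) (hu2 : u ^ 2 ≠ 1)
    (hper : r * (Ω * T) = 2 * Real.pi * k)
    (hnr : Complex.exp (Complex.I * ((Real.sqrt (1 - r ^ 2) * Ω * T : ℝ) : ℂ)) ≠ 1)
    (h : RotD s Ω T u V V1 A A1 B B1 C C1 D D1) (hV : V 0 ≠ 0 ∨ V1 0 ≠ 0)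
    (hA : A 0 ≠ 0 ∨ A1 0 ≠ 0 ∨ B 0 ≠ 0 ∨ B1 0 ≠ 0) : False := by
  obtain ⟨β, hβ, hk⟩ := rot_kep hT hΩ hu hu2 h hA
  obtain ⟨c₁, c₂, hc, hrel, hVt⟩ := rot_mode hT hΩ hr hr1 hres hnr h hV
  have hu1 : ‖u‖ = 1 := by rw [hu, Complex.norm_exp_ofReal_mul_I]
  have hper' : (r : ℂ) * ((Ω : ℂ) * (T : ℂ)) = 2 * (Real.pi : ℂ) * (k : ℂ) := by exact_mod_cast hper
  have hl1 : Complex.exp (-(Complex.I * (Ω : ℂ) * ((-1 + r : ℝ) : ℂ) * (T : ℂ))) = u := by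
    have h1 : -(Complex.I * (Ω : ℂ) * ((-1 + r : ℝ) : ℂ) * (T : ℂ)) =
        ((Ω * T : ℝ) : ℂ) * Complex.I + ((-k : ℤ) : ℂ) * (2 * (Real.pi : ℂ) * Complex.I) := by
      push_cast
      linear_combination (-Complex.I) * hper'
    rw [h1, Complex.exp_add, Complex.exp_int_mul_two_pi_mul_I, mul_one, hu]
  have hl2 : Complex.exp (-(Complex.I * (Ω : ℂ) * ((-1 - r : ℝ) : ℂ) * (T : ℂ))) = u := by
    have h1 : -(Complex.I * (Ω : ℂ) * ((-1 - r : ℝ) : ℂ) * (T : ℂ)) =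
        ((Ω * T : ℝ) : ℂ) * Complex.I + ((k : ℤ) : ℂ) * (2 * (Real.pi : ℂ) * Complex.I) := by
      push_cast
      linear_combination (Complex.I) * hper'
    rw [h1, Complex.exp_add, Complex.exp_int_mul_two_pi_mul_I, mul_one, hu]
  obtain ⟨f1, f2⟩ := rot_fou hT hΩ hu1 h (fun t ht => ⟨(hk t ht).1, (hk t ht).2.1⟩) hl1
  obtain ⟨f3, f4⟩ := rot_fou hT hΩ hu1 h (fun t ht => ⟨(hk t ht).1, (hk t ht).2.1⟩) hl2
  obtain ⟨g1, g2, g3, g4⟩ := rot_rhs (s := s) hT hΩ hr hper hVt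
  have hI := rot_int hT hΩ hr hper h hk hVt
  rw [g1] at f1
  rw [g3] at f2
  rw [g2] at f3
  rw [g4] at f4
  exact rot_alg hr hr1 hr2 hT.ne' hres hβ hc hrel f1 f2 f3 f4 hI

end Pool.Agent.MP_5027f4_cont
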