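import Pool.Agent.Lib_MP_5027f4_cont.SDefs

/-!
PIECE [SHf] (MP_5027f4_mp, block S).  The expansion of the force function.
-/

open Set Filter Topology Metric Polynomial
open scoped ComplexConjugate ContDiff
open Pool.Agent.MP_5027f4_mp
open Pool.Agent.MP_5027f4_ell (Tri Shape cc coord Mt sg sm Nn Gz epsf kapf vf Bs IsFund Mat hf F1 F2)

namespace Pool.Agent.MP_5027f4_cont

/-- Proof.  `‖1 + ε ζ‖² = 1 + 2 ε Re ζ + ε² |ζ|²`. -/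
theorem nE_eq (ε : ℝ) (ζ : ℂ) : nE ε ζ = ‖1 + (ε : ℂ) * ζ‖ ^ 2 := by
  rw [← Complex.normSq_eq_norm_sq, Complex.normSq_apply]
  simp only [nE, Complex.normSq_apply, Complex.add_re, Complex.add_im, Complex.one_re,
    Complex.one_im, Complex.re_ofReal_mul, Complex.im_ofReal_mul]
  ring

private theorem sqrt_nE (ε : ℝ) (ζ : ℂ) : Real.sqrt (nE ε ζ) = ‖1 + (ε : ℂ) * ζ‖ := by
  rw [nE_eq, Real.sqrt_sq (norm_nonneg _)]

private theorem inv_cube {x : ℝ} (hx : 0 < x) : 1 / x ^ 3 = 1 - (x ^ 2 - 1) * kE x := by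
  unfold kE
  field_simp
  ring

private theorem kE_sub {x : ℝ} (hx : 0 < x) : kE x = 3 / 2 + (x ^ 2 - 1) * kE1 x := by
  unfold kE kE1
  field_simp
  ring

private theorem sq_sub_one {ε : ℝ} {ζ : ℂ} (h : 0 < nE ε ζ) :
    Real.sqrt (nE ε ζ) ^ 2 - 1 = ε * (2 * ζ.re + ε * Complex.normSq ζ) := by
  rw [Real.sq_sqrt h.le]
  unfold nE
  ring

private theorem inv_cubeC {ε : ℝ} {ζ : ℂ} (h : 0 < nE ε ζ) :
    ((1 / Real.sqrt (nE ε ζ) ^ 3 : ℝ) : ℂ) =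
      1 - (ε : ℂ) * (((2 * ζ.re + ε * Complex.normSq ζ) * kE (Real.sqrt (nE ε ζ)) : ℝ) : ℂ) := by
  rw [inv_cube (Real.sqrt_pos.2 h), sq_sub_one h]
  push_cast
  ring

/-- Proof.  `x = √(nE ε ζ) = ‖1 + ε ζ‖ > 0`, `hf (ε ζ) = (1 + ε ζ) / x³`, and
`1 / x³ - 1 = (1 - x⁶) / (x³ (1 + x³)) = - (x² - 1) kE x`, `x² - 1 = ε (2 Re ζ + ε |ζ|²)`. -/
theorem hf_scale {ε : ℝ} {ζ : ℂ} (h : 0 < nE ε ζ) :
    hf ((ε : ℂ) * ζ) = 1 + (ε : ℂ) * hf1 ε ζ := by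
  have hI := inv_cubeC h
  unfold hf hf1
  rw [← sqrt_nE]
  have e1 : (1 + (ε : ℂ) * ζ) / ((Real.sqrt (nE ε ζ) ^ 3 : ℝ) : ℂ) =
      (1 + (ε : ℂ) * ζ) * ((1 / Real.sqrt (nE ε ζ) ^ 3 : ℝ) : ℂ) := by
    push_cast; ring
  have e2 : ζ / ((Real.sqrt (nE ε ζ) ^ 3 : ℝ) : ℂ) =
      ζ * ((1 / Real.sqrt (nE ε ζ) ^ 3 : ℝ) : ℂ) := by
    push_cast; ring
  rw [e1, e2]
  generalize ((1 / Real.sqrt (nE ε ζ) ^ 3 : ℝ) : ℂ) = I at hI ⊢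
  generalize (((2 * ζ.re + ε * Complex.normSq ζ) * kE (Real.sqrt (nE ε ζ)) : ℝ) : ℂ) = K at hI ⊢
  linear_combination hI

/-- Proof.  With `x` as above: `1 / x³ = 1 - (x² - 1) kE x`, `kE x - 3 / 2 = (x² - 1) kE1 x`,
`x² - 1 = ε τ`, `τ = 2 Re ζ + ε |ζ|²`: `hf1 = ζ / x³ - τ kE = ζ - ε ζ τ kE - 2 Re ζ (3 / 2 + ε τ kE1) -
ε |ζ|² kE`, and `ζ - 3 Re ζ = - ζ / 2 - 3 conj ζ / 2`. -/
theorem hf1_eq {ε : ℝ} {ζ : ℂ} (h : 0 < nE ε ζ) :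
    hf1 ε ζ = -(ζ / 2) - 3 / 2 * conj ζ + (ε : ℂ) * hf2 ε ζ := by
  have hI := inv_cubeC h
  have hK : ((kE (Real.sqrt (nE ε ζ)) : ℝ) : ℂ) =
      3 / 2 + (ε : ℂ) * (2 * (ζ.re : ℂ) + ε * (Complex.normSq ζ : ℂ)) *
        ((kE1 (Real.sqrt (nE ε ζ)) : ℝ) : ℂ) := by
    rw [kE_sub (Real.sqrt_pos.2 h), sq_sub_one h]
    push_cast
    ring
  have hc : ζ + conj ζ = 2 * (ζ.re : ℂ) := by
    rw [Complex.add_conj]; push_cast; ring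
  unfold hf1 hf2
  have e2 : ζ / ((Real.sqrt (nE ε ζ) ^ 3 : ℝ) : ℂ) =
      ζ * ((1 / Real.sqrt (nE ε ζ) ^ 3 : ℝ) : ℂ) := by
    push_cast; ring
  rw [e2, hI]
  push_cast
  generalize ((kE (Real.sqrt (nE ε ζ)) : ℝ) : ℂ) = K at hK ⊢
  generalize ((kE1 (Real.sqrt (nE ε ζ)) : ℝ) : ℂ) = K1 at hK ⊢
  generalize (Complex.normSq ζ : ℂ) = N at hK ⊢
  generalize (ζ.re : ℂ) = r at hK hc ⊢
  generalize conj ζ = c at hc ⊢
  linear_combination (-(2 * r)) * hK + (3 / 2) * hc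

/-- Proof.  `nE 0 ζ = 1`, `kE 1 = 3 / 2`, `kE1 1 = - 15 / 8`:
`hf2 0 ζ = - 3 ζ Re ζ + (15 / 2) (Re ζ)² - (3 / 2) |ζ|²`. -/
theorem hf2_zero (ζ : ℂ) :
    hf2 0 ζ = 3 / 8 * ζ ^ 2 + 3 / 4 * (ζ * conj ζ) + 15 / 8 * conj ζ ^ 2 := by
  have h0 : nE 0 ζ = 1 := by simp [nE]
  have hk : kE 1 = 3 / 2 := by unfold kE; norm_num
  have hk1 : kE1 1 = -(15 / 8) := by unfold kE1; norm_num
  have hc : ζ + conj ζ = 2 * (ζ.re : ℂ) := by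
    rw [Complex.add_conj]; push_cast; ring
  have hr : (ζ.re : ℂ) = (ζ + conj ζ) / 2 := by rw [hc]; ring
  have hn : (Complex.normSq ζ : ℂ) = ζ * conj ζ := (Complex.mul_conj ζ).symm
  unfold hf2
  rw [h0, Real.sqrt_one, hk, hk1]
  push_cast
  rw [hr, hn]
  ring

theorem hf1_zero (ζ : ℂ) : hf1 0 ζ = -(ζ / 2) - 3 / 2 * conj ζ := by
  have h0 : 0 < nE 0 ζ := by simp [nE]
  rw [hf1_eq h0]
  simp

private theorem cd_re {ε : ℝ} {ζ : ℂ} :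
    ContDiffAt ℝ 3 (fun q : ℝ × ℂ => q.2.re) (ε, ζ) :=
  (Complex.reCLM.contDiff.comp contDiff_snd).contDiffAt

private theorem cd_im {ε : ℝ} {ζ : ℂ} :
    ContDiffAt ℝ 3 (fun q : ℝ × ℂ => q.2.im) (ε, ζ) :=
  (Complex.imCLM.contDiff.comp contDiff_snd).contDiffAt

private theorem cd_nsq {ε : ℝ} {ζ : ℂ} :
    ContDiffAt ℝ 3 (fun q : ℝ × ℂ => Complex.normSq q.2) (ε, ζ) := by
  have h : (fun q : ℝ × ℂ => Complex.normSq q.2) =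
      fun q : ℝ × ℂ => q.2.re * q.2.re + q.2.im * q.2.im := by
    funext q; exact Complex.normSq_apply _
  rw [h]
  exact (cd_re.mul cd_re).add (cd_im.mul cd_im)

private theorem cd_tau {ε : ℝ} {ζ : ℂ} :
    ContDiffAt ℝ 3 (fun q : ℝ × ℂ => 2 * q.2.re + q.1 * Complex.normSq q.2) (ε, ζ) :=
  (contDiffAt_const.mul cd_re).add (contDiffAt_fst.mul cd_nsq)

private theorem cd_x {ε : ℝ} {ζ : ℂ} (h : 0 < nE ε ζ) :
    ContDiffAt ℝ 3 (fun q : ℝ × ℂ => Real.sqrt (nE q.1 q.2)) (ε, ζ) := by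
  have h1 : ContDiffAt ℝ 3 (fun q : ℝ × ℂ => nE q.1 q.2) (ε, ζ) :=
    contDiffAt_const.add (contDiffAt_fst.mul cd_tau)
  exact h1.sqrt h.ne'

private theorem cd_kE {ε : ℝ} {ζ : ℂ} (h : 0 < nE ε ζ) :
    ContDiffAt ℝ 3 (fun q : ℝ × ℂ => kE (Real.sqrt (nE q.1 q.2))) (ε, ζ) := by
  have hx := cd_x h
  have hp : 0 < Real.sqrt (nE ε ζ) := Real.sqrt_pos.2 h
  unfold kE
  refine ContDiffAt.div (((hx.pow 4).add (hx.pow 2)).add contDiffAt_const)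
    ((hx.pow 3).mul ((hx.pow 3).add contDiffAt_const)) ?_
  positivity

private theorem cd_kE1 {ε : ℝ} {ζ : ℂ} (h : 0 < nE ε ζ) :
    ContDiffAt ℝ 3 (fun q : ℝ × ℂ => kE1 (Real.sqrt (nE q.1 q.2))) (ε, ζ) := by
  have hx := cd_x h
  have hp : 0 < Real.sqrt (nE ε ζ) := Real.sqrt_pos.2 h
  unfold kE1
  refine (ContDiffAt.div ((((((contDiffAt_const.mul (hx.pow 5)).add
    (contDiffAt_const.mul (hx.pow 4))).add (hx.pow 3)).add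
    (contDiffAt_const.mul (hx.pow 2))).add (contDiffAt_const.mul hx)).add contDiffAt_const)
    (((contDiffAt_const.mul (hx.pow 3)).mul ((hx.pow 3).add contDiffAt_const)).mul
      (hx.add contDiffAt_const)) ?_).neg
  positivity

private theorem cd_ofReal {f : ℝ × ℂ → ℝ} {q : ℝ × ℂ} (h : ContDiffAt ℝ 3 f q) :
    ContDiffAt ℝ 3 (fun q => ((f q : ℝ) : ℂ)) q :=
  (Complex.ofRealCLM.contDiff.contDiffAt (x := f q)).comp q h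

/-- Proof.  Composition of polynomials in `ε`, `Re ζ`, `Im ζ`, of `Real.sqrt` (smooth at positive
numbers) and quotients with nonzero denominators (`x > 0`). -/
theorem contDiffAt_hf1 {ε : ℝ} {ζ : ℂ} (h : 0 < nE ε ζ) :
    ContDiffAt ℝ 3 (fun q : ℝ × ℂ => hf1 q.1 q.2) (ε, ζ) := by
  have hp : 0 < Real.sqrt (nE ε ζ) := Real.sqrt_pos.2 h
  have h1 : ContDiffAt ℝ 3 (fun q : ℝ × ℂ => ((Real.sqrt (nE q.1 q.2) ^ 3 : ℝ) : ℂ)) (ε, ζ) :=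
    cd_ofReal ((cd_x h).pow 3)
  have h2 : ((Real.sqrt (nE ε ζ) ^ 3 : ℝ) : ℂ) ≠ 0 := by
    have : (Real.sqrt (nE ε ζ) ^ 3 : ℝ) ≠ 0 := by positivity
    exact Complex.ofReal_ne_zero.2 this
  have h3 : ContDiffAt ℝ 3
      (fun q : ℝ × ℂ => q.2 * (((Real.sqrt (nE q.1 q.2) ^ 3 : ℝ) : ℂ))⁻¹) (ε, ζ) :=
    contDiffAt_snd.mul (h1.inv h2)
  have h4 : (fun q : ℝ × ℂ => hf1 q.1 q.2) = fun q : ℝ × ℂ =>
      q.2 * (((Real.sqrt (nE q.1 q.2) ^ 3 : ℝ) : ℂ))⁻¹ -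
      (((2 * q.2.re + q.1 * Complex.normSq q.2) * kE (Real.sqrt (nE q.1 q.2)) : ℝ) : ℂ) := by
    funext q
    unfold hf1
    rw [div_eq_mul_inv]
  rw [h4]
  exact h3.sub (cd_ofReal (cd_tau.mul (cd_kE h)))

theorem contDiffAt_hf2 {ε : ℝ} {ζ : ℂ} (h : 0 < nE ε ζ) :
    ContDiffAt ℝ 3 (fun q : ℝ × ℂ => hf2 q.1 q.2) (ε, ζ) := by
  unfold hf2
  exact ((contDiffAt_snd.mul (cd_ofReal (cd_tau.mul (cd_kE h)))).neg).sub
    (cd_ofReal ((((contDiffAt_const.mul cd_re).mul cd_tau).mul (cd_kE1 h)).add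
      (cd_nsq.mul (cd_kE h))))

theorem continuous_nE : Continuous fun q : ℝ × ℂ => nE q.1 q.2 := by
  unfold nE
  have h1 : Continuous fun q : ℝ × ℂ => q.2.re := Complex.continuous_re.comp continuous_snd
  have h2 : Continuous fun q : ℝ × ℂ => Complex.normSq q.2 :=
    Complex.continuous_normSq.comp continuous_snd
  fun_prop

end Pool.Agent.MP_5027f4_cont
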