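import Pool.Agent.Lib_MP_5027f4_cont.SDefs

/-!
PIECE [SKep] (MP_5027f4_mp, block S).  The homographic part of the eigenvector.
-/

open Set Filter Topology Metric Polynomial
open scoped ComplexConjugate ContDiff
open Pool.Agent.MP_5027f4_mp

namespace Pool.Agent.MP_5027f4_cont

theorem SKep_const {T : ℝ} (hT : 0 < T) {f : ℝ → ℂ}
    (h : ∀ t ∈ Icc 0 T, HasDerivWithinAt f 0 (Icc 0 T) t) {t : ℝ} (ht : t ∈ Icc 0 T) :
    f t = f 0 := by
  have h0 : (0 : ℝ) ∈ Icc 0 T := ⟨le_rfl, hT.le⟩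
  have h1 : ‖f t - f 0‖ ≤ 0 * ‖t - 0‖ :=
    Convex.norm_image_sub_le_of_norm_hasDerivWithin_le (f' := fun _ => (0 : ℂ)) (C := 0) h
      (fun x _ => by simp) (convex_Icc 0 T) h0 ht
  rw [zero_mul] at h1
  exact sub_eq_zero.1 (norm_le_zero_iff.1 h1)

/-- a constant with a nontrivial factor over the period is zero -/
theorem SKep_zero {T : ℝ} (hT : 0 < T) {f : ℝ → ℂ} {c : ℂ} (hc : c ≠ 1)
    (h : ∀ t ∈ Icc 0 T, HasDerivWithinAt f 0 (Icc 0 T) t) (hp : f T = c * f 0) {t : ℝ}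
    (ht : t ∈ Icc 0 T) : f t = 0 := by
  have hTm : T ∈ Icc 0 T := ⟨hT.le, le_rfl⟩
  have h1 : f 0 = c * f 0 := by rw [← hp, SKep_const hT h hTm]
  have h2 : (1 - c) * f 0 = 0 := by
    rw [sub_mul, one_mul, ← h1, sub_self]
  have h3 : f 0 = 0 := (mul_eq_zero.1 h2).resolve_left (sub_ne_zero.2 hc.symm)
  rw [SKep_const hT h ht, h3]

theorem SKep_exp (a : ℂ) (s : Set ℝ) (t : ℝ) :
    HasDerivWithinAt (fun t : ℝ => Complex.exp (a * (t : ℂ))) (a * Complex.exp (a * (t : ℂ))) s t := by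
  have h1 : HasDerivAt (fun t : ℝ => (t : ℂ)) 1 t := Complex.ofRealCLM.hasDerivAt
  have h2 : HasDerivAt (fun t : ℝ => a * (t : ℂ)) a t := by
    have h := h1.const_mul a
    rwa [mul_one] at h
  have h3 := h2.cexp
  rw [mul_comm] at h3
  exact h3.hasDerivWithinAt

theorem SKep_core {T Ω : ℝ} {c : ℂ} (hT : 0 < T) (hc1 : c ≠ 1) (hc2 : c * c ≠ 1)
    (hexpT : Complex.exp (-(Complex.I * (Ω : ℂ)) * (T : ℂ)) = c) {S S1 D D1 : ℝ → ℂ}
    (hS : ∀ t ∈ Icc 0 T, HasDerivWithinAt S (S1 t) (Icc 0 T) t)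
    (hD : ∀ t ∈ Icc 0 T, HasDerivWithinAt D (D1 t) (Icc 0 T) t)
    (hD1 : ∀ t ∈ Icc 0 T, HasDerivWithinAt D1 (-(2 * Complex.I * (Ω : ℂ)) * S1 t) (Icc 0 T) t)
    (hS1 : ∀ t ∈ Icc 0 T, HasDerivWithinAt S1
      (-(2 * Complex.I * (Ω : ℂ)) * D1 t + 3 * (Ω : ℂ) ^ 2 * S t) (Icc 0 T) t)
    (pS : S T = c * S 0) (pS1 : S1 T = c * S1 0) (pD : D T = c * D 0) (pD1 : D1 T = c * D1 0) :
    ∀ t ∈ Icc 0 T, S t = S 0 * Complex.exp (-(Complex.I * (Ω : ℂ) * (t : ℂ))) ∧
      S1 t = -(Complex.I * (Ω : ℂ)) * S t ∧ D t = 2 * S t ∧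
      D1 t = -(2 * Complex.I * (Ω : ℂ)) * S t := by
  have hI2 : Complex.I * Complex.I = -1 := Complex.I_mul_I
  -- first integral
  have e1 : ∀ t ∈ Icc 0 T, D1 t = -(2 * Complex.I * (Ω : ℂ)) * S t := by
    intro t ht
    have h1 : (fun t => D1 t + 2 * Complex.I * (Ω : ℂ) * S t) t = 0 := by
      refine SKep_zero (f := fun t => D1 t + 2 * Complex.I * (Ω : ℂ) * S t) hT hc1
        (fun t ht => ?_) ?_ ht
      · refine ((hD1 t ht).add ((hS t ht).const_mul (2 * Complex.I * (Ω : ℂ)))).congr_deriv ?_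
        ring
      · change D1 T + 2 * Complex.I * (Ω : ℂ) * S T = c * (D1 0 + 2 * Complex.I * (Ω : ℂ) * S 0)
        rw [pD1, pS]
        ring
    have h2 : D1 t + 2 * Complex.I * (Ω : ℂ) * S t = 0 := h1
    linear_combination h2
  -- second
  have e2 : ∀ t ∈ Icc 0 T, S1 t = -(Complex.I * (Ω : ℂ)) * S t := by
    intro t ht
    have h1 : (fun t : ℝ => (S1 t + Complex.I * (Ω : ℂ) * S t) *
        Complex.exp (-(Complex.I * (Ω : ℂ)) * (t : ℂ))) t = 0 := by
      refine SKep_zero (f := fun t : ℝ => (S1 t + Complex.I * (Ω : ℂ) * S t) *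
        Complex.exp (-(Complex.I * (Ω : ℂ)) * (t : ℂ))) hT hc2 (fun t ht => ?_) ?_ ht
      · refine (((hS1 t ht).add ((hS t ht).const_mul (Complex.I * (Ω : ℂ)))).mul
          (SKep_exp (-(Complex.I * (Ω : ℂ))) (Icc 0 T) t)).congr_deriv ?_
        rw [e1 t ht, Pi.add_apply]
        linear_combination (3 * (Ω : ℂ) ^ 2 * S t *
          Complex.exp (-(Complex.I * (Ω : ℂ)) * (t : ℂ))) * hI2
      · change (S1 T + Complex.I * (Ω : ℂ) * S T) * Complex.exp (-(Complex.I * (Ω : ℂ)) * (T : ℂ)) =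
          c * c * ((S1 0 + Complex.I * (Ω : ℂ) * S 0) *
            Complex.exp (-(Complex.I * (Ω : ℂ)) * ((0 : ℝ) : ℂ)))
        rw [pS1, pS, hexpT, Complex.ofReal_zero, mul_zero, Complex.exp_zero]
        ring
    have h2 : (S1 t + Complex.I * (Ω : ℂ) * S t) *
        Complex.exp (-(Complex.I * (Ω : ℂ)) * (t : ℂ)) = 0 := h1
    have h3 := (mul_eq_zero.1 h2).resolve_right (Complex.exp_ne_zero _)
    linear_combination h3
  intro t ht
  refine ⟨?_, e2 t ht, ?_, e1 t ht⟩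
  · have h1 : (fun t : ℝ => S t * Complex.exp ((Complex.I * (Ω : ℂ)) * (t : ℂ))) t =
        (fun t : ℝ => S t * Complex.exp ((Complex.I * (Ω : ℂ)) * (t : ℂ))) 0 := by
      refine SKep_const (f := fun t : ℝ => S t * Complex.exp ((Complex.I * (Ω : ℂ)) * (t : ℂ))) hT
        (fun t ht => ?_) ht
      refine ((hS t ht).mul (SKep_exp (Complex.I * (Ω : ℂ)) (Icc 0 T) t)).congr_deriv ?_
      rw [e2 t ht]
      ring
    have h2 : S t * Complex.exp ((Complex.I * (Ω : ℂ)) * (t : ℂ)) =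
        S 0 * Complex.exp ((Complex.I * (Ω : ℂ)) * ((0 : ℝ) : ℂ)) := h1
    rw [Complex.ofReal_zero, mul_zero, Complex.exp_zero, mul_one] at h2
    rw [← h2, mul_assoc, ← Complex.exp_add, add_neg_cancel, Complex.exp_zero, mul_one]
  · have h1 : (fun t => D t - 2 * S t) t = 0 := by
      refine SKep_zero (f := fun t => D t - 2 * S t) hT hc1 (fun t ht => ?_) ?_ ht
      · refine ((hD t ht).sub ((hS t ht).const_mul 2)).congr_deriv ?_
        rw [e1 t ht, e2 t ht]
        ring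
      · change D T - 2 * S T = c * (D 0 - 2 * S 0)
        rw [pD, pS]
        ring
    have h2 : D t - 2 * S t = 0 := h1
    linear_combination h2

/-- Proof.  Put (on `[0, T]`) `X = A + i B`, `X₁ = A₁ + i B₁`, `Y = conj A + i conj B`, `Y₁ = conj A₁ + i conj B₁`.
`X' = X₁`, `Y' = Y₁`, `X₁' = - 2 i Ω X₁ + (3 / 2) Ω² (X + Y)`, `Y₁' = 2 i Ω Y₁ + (3 / 2) Ω² (X + Y)`, and (`pA`, ...)
`X T = conj u X 0` etc. for all four.  Let `S = X + Y`, `D = X - Y`, `S₁`, `D₁` their derivatives: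
`D₁' = - 2 i Ω S₁`, so `D₁ + 2 i Ω S` is a constant, and it gets the factor `conj u ≠ 1`, so it is zero:
`D₁ = - 2 i Ω S`.  `S₁' = - 2 i Ω D₁ + 3 Ω² S = - Ω² S`.  So `(S₁ + i Ω S) e^{- i Ω t}` and
`(S₁ - i Ω S) e^{i Ω t}` are constants `κ₁`, `κ₂`; the first gets the factor `conj u · conj u` over the period
(`e^{i Ω T} = u`), `conj u ^ 2 ≠ 1`, so `κ₁ = 0`: `S₁ = - i Ω S`, `S = σ e^{- i Ω t}`.  Then
`(D - 2 S)' = D₁ - 2 S₁ = - 2 i Ω S + 2 i Ω S = 0`, the constant `D - 2 S` gets the factor `conj u ≠ 1`: `D = 2 S`.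
So `X = (3 / 2) S`, `Y = - S / 2`: `β = - σ / 2`.  If `β = 0` then `X, Y, X₁, Y₁` vanish at `0`, so
`A, B, A₁, B₁` vanish at `0` (`A = (X + conj Y) / 2`, `B = (X - conj Y) / (2 i)`). -/
theorem rot_kep {s Ω T : ℝ} {u : ℂ} {V V1 A A1 B B1 C C1 D D1 : ℝ → ℂ} (hT : 0 < T) (hΩ : Ω ≠ 0)
    (hu : u = Complex.exp ((Ω * T : ℝ) * Complex.I)) (hu2 : u ^ 2 ≠ 1)
    (h : RotD s Ω T u V V1 A A1 B B1 C C1 D D1)
    (hne : A 0 ≠ 0 ∨ A1 0 ≠ 0 ∨ B 0 ≠ 0 ∨ B1 0 ≠ 0) :
    ∃ β : ℂ, β ≠ 0 ∧ ∀ t ∈ Icc 0 T,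
      A t + Complex.I * B t = -3 * β * Complex.exp (-(Complex.I * (Ω : ℂ) * (t : ℂ))) ∧
      conj (A t) + Complex.I * conj (B t) = β * Complex.exp (-(Complex.I * (Ω : ℂ) * (t : ℂ))) ∧
      A1 t + Complex.I * B1 t =
        3 * Complex.I * (Ω : ℂ) * β * Complex.exp (-(Complex.I * (Ω : ℂ) * (t : ℂ))) ∧
      conj (A1 t) + Complex.I * conj (B1 t) =
        -(Complex.I * (Ω : ℂ) * β * Complex.exp (-(Complex.I * (Ω : ℂ) * (t : ℂ)))) := by
  have hI2 : Complex.I * Complex.I = -1 := Complex.I_mul_I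
  have h0m : (0 : ℝ) ∈ Icc 0 T := ⟨le_rfl, hT.le⟩
  -- the factor
  have hcu : conj u = (u.re : ℂ) - (u.im : ℂ) * Complex.I := by
    apply Complex.ext <;> simp
  have hcu1 : conj u ≠ 1 := by
    intro h1
    apply hu2
    have h2 : u = 1 := by
      have h3 := congrArg conj h1
      rw [Complex.conj_conj, map_one] at h3
      exact h3
    rw [h2, one_pow]
  have hcu2 : conj u * conj u ≠ 1 := by
    intro h1
    apply hu2
    have h3 := congrArg conj h1
    rw [map_mul, Complex.conj_conj, map_one] at h3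
    rw [sq]
    exact h3
  have hexpT : Complex.exp (-(Complex.I * (Ω : ℂ)) * (T : ℂ)) = conj u := by
    rw [hu, ← Complex.exp_conj]
    congr 1
    rw [map_mul, Complex.conj_I, Complex.conj_ofReal]
    push_cast
    ring
  -- derivatives
  have cA : ∀ t ∈ Icc 0 T, HasDerivWithinAt (fun t => conj (A t)) (conj (A1 t)) (Icc 0 T) t :=
    fun t ht => (h.dA t ht).star
  have cB : ∀ t ∈ Icc 0 T, HasDerivWithinAt (fun t => conj (B t)) (conj (B1 t)) (Icc 0 T) t :=
    fun t ht => (h.dB t ht).star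
  have cA1 := fun t ht => (h.dA1 t ht).star
  have cB1 := fun t ht => (h.dB1 t ht).star
  have hS : ∀ t ∈ Icc 0 T, HasDerivWithinAt
      (fun t => (A t + Complex.I * B t) + (conj (A t) + Complex.I * conj (B t)))
      ((fun t => (A1 t + Complex.I * B1 t) + (conj (A1 t) + Complex.I * conj (B1 t))) t)
      (Icc 0 T) t :=
    fun t ht => ((h.dA t ht).add ((h.dB t ht).const_mul Complex.I)).add
      ((cA t ht).add ((cB t ht).const_mul Complex.I))
  have hD : ∀ t ∈ Icc 0 T, HasDerivWithinAt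
      (fun t => (A t + Complex.I * B t) - (conj (A t) + Complex.I * conj (B t)))
      ((fun t => (A1 t + Complex.I * B1 t) - (conj (A1 t) + Complex.I * conj (B1 t))) t)
      (Icc 0 T) t :=
    fun t ht => ((h.dA t ht).add ((h.dB t ht).const_mul Complex.I)).sub
      ((cA t ht).add ((cB t ht).const_mul Complex.I))
  have hD1 : ∀ t ∈ Icc 0 T, HasDerivWithinAt
      (fun t => (A1 t + Complex.I * B1 t) - (conj (A1 t) + Complex.I * conj (B1 t)))
      (-(2 * Complex.I * (Ω : ℂ)) *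
        (fun t => (A1 t + Complex.I * B1 t) + (conj (A1 t) + Complex.I * conj (B1 t))) t)
      (Icc 0 T) t := by
    intro t ht
    have h1 := ((h.dA1 t ht).add ((h.dB1 t ht).const_mul Complex.I)).sub
      ((cA1 t ht).add ((cB1 t ht).const_mul Complex.I))
    refine h1.congr_deriv ?_
    simp only [Complex.star_def, map_add, map_neg, map_mul, map_pow, map_div₀, map_ofNat,
      Complex.conj_I, Complex.conj_ofReal, Complex.conj_conj]
    ring
  have hS1 : ∀ t ∈ Icc 0 T, HasDerivWithinAt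
      (fun t => (A1 t + Complex.I * B1 t) + (conj (A1 t) + Complex.I * conj (B1 t)))
      (-(2 * Complex.I * (Ω : ℂ)) *
        (fun t => (A1 t + Complex.I * B1 t) - (conj (A1 t) + Complex.I * conj (B1 t))) t +
        3 * (Ω : ℂ) ^ 2 *
        (fun t => (A t + Complex.I * B t) + (conj (A t) + Complex.I * conj (B t))) t)
      (Icc 0 T) t := by
    intro t ht
    have h1 := ((h.dA1 t ht).add ((h.dB1 t ht).const_mul Complex.I)).add
      ((cA1 t ht).add ((cB1 t ht).const_mul Complex.I))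
    refine h1.congr_deriv ?_
    simp only [Complex.star_def, map_add, map_neg, map_mul, map_pow, map_div₀, map_ofNat,
      Complex.conj_I, Complex.conj_ofReal, Complex.conj_conj]
    ring
  -- the boundary conditions
  have pX : A T + Complex.I * B T = conj u * (A 0 + Complex.I * B 0) := by
    rw [h.pA, h.pB, hcu]
    linear_combination ((u.im : ℂ) * B 0) * hI2
  have pX1 : A1 T + Complex.I * B1 T = conj u * (A1 0 + Complex.I * B1 0) := by
    rw [h.pA1, h.pB1, hcu]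
    linear_combination ((u.im : ℂ) * B1 0) * hI2
  have pY : conj (A T) + Complex.I * conj (B T) =
      conj u * (conj (A 0) + Complex.I * conj (B 0)) := by
    rw [h.pA, h.pB, hcu]
    simp only [map_add, map_neg, map_mul, Complex.conj_ofReal]
    linear_combination ((u.im : ℂ) * conj (B 0)) * hI2
  have pY1 : conj (A1 T) + Complex.I * conj (B1 T) =
      conj u * (conj (A1 0) + Complex.I * conj (B1 0)) := by
    rw [h.pA1, h.pB1, hcu]
    simp only [map_add, map_neg, map_mul, Complex.conj_ofReal]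
    linear_combination ((u.im : ℂ) * conj (B1 0)) * hI2
  have key := SKep_core hT hcu1 hcu2 hexpT hS hD hD1 hS1
    (by
      change (A T + Complex.I * B T) + (conj (A T) + Complex.I * conj (B T)) =
        conj u * ((A 0 + Complex.I * B 0) + (conj (A 0) + Complex.I * conj (B 0)))
      rw [pX, pY]
      ring)
    (by
      change (A1 T + Complex.I * B1 T) + (conj (A1 T) + Complex.I * conj (B1 T)) =
        conj u * ((A1 0 + Complex.I * B1 0) + (conj (A1 0) + Complex.I * conj (B1 0)))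
      rw [pX1, pY1]
      ring)
    (by
      change (A T + Complex.I * B T) - (conj (A T) + Complex.I * conj (B T)) =
        conj u * ((A 0 + Complex.I * B 0) - (conj (A 0) + Complex.I * conj (B 0)))
      rw [pX, pY]
      ring)
    (by
      change (A1 T + Complex.I * B1 T) - (conj (A1 T) + Complex.I * conj (B1 T)) =
        conj u * ((A1 0 + Complex.I * B1 0) - (conj (A1 0) + Complex.I * conj (B1 0)))
      rw [pX1, pY1]
      ring)
  set σ : ℂ := (A 0 + Complex.I * B 0) + (conj (A 0) + Complex.I * conj (B 0)) with hσ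
  have fin : ∀ t ∈ Icc 0 T,
      A t + Complex.I * B t =
        -3 * (-σ / 2) * Complex.exp (-(Complex.I * (Ω : ℂ) * (t : ℂ))) ∧
      conj (A t) + Complex.I * conj (B t) =
        (-σ / 2) * Complex.exp (-(Complex.I * (Ω : ℂ) * (t : ℂ))) ∧
      A1 t + Complex.I * B1 t =
        3 * Complex.I * (Ω : ℂ) * (-σ / 2) * Complex.exp (-(Complex.I * (Ω : ℂ) * (t : ℂ))) ∧
      conj (A1 t) + Complex.I * conj (B1 t) =
        -(Complex.I * (Ω : ℂ) * (-σ / 2) * Complex.exp (-(Complex.I * (Ω : ℂ) * (t : ℂ)))) := by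
    intro t ht
    obtain ⟨k1, k2, k3, k4⟩ := key t ht
    have k1' : (A t + Complex.I * B t) + (conj (A t) + Complex.I * conj (B t)) =
      σ * Complex.exp (-(Complex.I * (Ω : ℂ) * (t : ℂ))) := k1
    have k2' : (A1 t + Complex.I * B1 t) + (conj (A1 t) + Complex.I * conj (B1 t)) =
      -(Complex.I * (Ω : ℂ)) * ((A t + Complex.I * B t) + (conj (A t) + Complex.I * conj (B t))) :=
      k2
    have k3' : (A t + Complex.I * B t) - (conj (A t) + Complex.I * conj (B t)) =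
      2 * ((A t + Complex.I * B t) + (conj (A t) + Complex.I * conj (B t))) := k3
    have k4' : (A1 t + Complex.I * B1 t) - (conj (A1 t) + Complex.I * conj (B1 t)) =
      -(2 * Complex.I * (Ω : ℂ)) *
        ((A t + Complex.I * B t) + (conj (A t) + Complex.I * conj (B t))) := k4
    rw [k1'] at k2' k3' k4'
    refine ⟨?_, ?_, ?_, ?_⟩
    · linear_combination (1 / 2 : ℂ) * k1' + (1 / 2 : ℂ) * k3'
    · linear_combination (1 / 2 : ℂ) * k1' - (1 / 2 : ℂ) * k3'
    · linear_combination (1 / 2 : ℂ) * k2' + (1 / 2 : ℂ) * k4'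
    · linear_combination (1 / 2 : ℂ) * k2' - (1 / 2 : ℂ) * k4'
  refine ⟨-σ / 2, ?_, fin⟩
  intro hβ
  obtain ⟨f1, f2, f3, f4⟩ := fin 0 h0m
  rw [hβ] at f1 f2 f3 f4
  simp only [mul_zero, zero_mul, neg_zero] at f1 f2 f3 f4
  have z : ∀ p q : ℂ, p + Complex.I * q = 0 → conj p + Complex.I * conj q = 0 → p = 0 ∧ q = 0 := by
    intro p q h1 h2
    have h3 := congrArg conj h2
    simp only [map_add, map_mul, Complex.conj_conj, Complex.conj_I, map_zero] at h3
    have h4 : p = 0 := by linear_combination (1 / 2 : ℂ) * h1 + (1 / 2 : ℂ) * h3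
    refine ⟨h4, ?_⟩
    rw [h4, zero_add] at h1
    exact (mul_eq_zero.1 h1).resolve_left Complex.I_ne_zero
  obtain ⟨zA, zB⟩ := z _ _ f1 f2
  obtain ⟨zA1, zB1⟩ := z _ _ f3 f4
  rcases hne with h1 | h1 | h1 | h1
  · exact h1 zA
  · exact h1 zA1
  · exact h1 zB
  · exact h1 zB1

end Pool.Agent.MP_5027f4_cont
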