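import Pool.Agent.Lib_MP_5027f4_cont.SDefs
import Pool.Agent.Lib_MP_5027f4_cont.DJac

/-!
PIECE [SLim] (MP_5027f4_mp, block S).  Limits of solutions and Jacobi fields.
-/

open Set Filter Topology Metric Polynomial
open scoped ComplexConjugate ContDiff
open Pool.Agent.MP_5027f4_mp

namespace Pool.Agent.MP_5027f4_cont

/-- the field together with its linearization on two vectors -/
private noncomputable def slimW {E : Type*} [NormedAddCommGroup E] [NormedSpace ℝ E] (V : E → E)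
    (p : E × E × E) : E × E × E := (V p.1, fderiv ℝ V p.1 p.2.1, fderiv ℝ V p.1 p.2.2)

private theorem slimW_contDiffOn {E : Type*} [NormedAddCommGroup E] [NormedSpace ℝ E]
    {V : E → E} {𝒪 : Set E} (h𝒪 : IsOpen 𝒪) (hV : ContDiffOn ℝ 2 V 𝒪) :
    ContDiffOn ℝ 1 (slimW V) (𝒪 ×ˢ (univ : Set (E × E))) := by
  have h1 : ContDiffOn ℝ 1 (fderiv ℝ V) 𝒪 := hV.fderiv_of_isOpen h𝒪 (by norm_num)
  have hfst : ContDiffOn ℝ 1 (fun p : E × E × E => p.1) (𝒪 ×ˢ (univ : Set (E × E))) :=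
    contDiff_fst.contDiffOn
  have hmaps : MapsTo (fun p : E × E × E => p.1) (𝒪 ×ˢ (univ : Set (E × E))) 𝒪 :=
    fun p hp => hp.1
  have h2 := h1.comp hfst hmaps
  have h3 := (hV.of_le (by norm_num : (1 : WithTop ℕ∞) ≤ 2)).comp hfst hmaps
  have h4 : ContDiffOn ℝ 1 (fun p : E × E × E => p.2.1) (𝒪 ×ˢ (univ : Set (E × E))) :=
    (contDiff_snd.fst).contDiffOn
  have h5 : ContDiffOn ℝ 1 (fun p : E × E × E => p.2.2) (𝒪 ×ˢ (univ : Set (E × E))) :=
    (contDiff_snd.snd).contDiffOn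
  exact h3.prodMk ((h2.clm_apply h4).prodMk (h2.clm_apply h5))

private theorem slim_split {E : Type*} [NormedAddCommGroup E] [NormedSpace ℝ E]
    {V : E → E} {𝒪 : Set E} {T : ℝ} {Z : ℝ → E × E × E}
    (hZ : Solves (slimW V) (𝒪 ×ˢ (univ : Set (E × E))) (Icc 0 T) Z) :
    Solves V 𝒪 (Icc 0 T) (fun t => (Z t).1) ∧
      Jac V (fun t => (Z t).1) (fun t => (Z t).2.1) T ∧
      Jac V (fun t => (Z t).1) (fun t => (Z t).2.2) T := by
  refine ⟨fun t ht => ⟨(hZ t ht).1.1, ?_⟩, fun t ht => ?_, fun t ht => ?_⟩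
  · exact (hasFDerivAt_fst (𝕜 := ℝ) (p := Z t)).comp_hasDerivWithinAt t (hZ t ht).2
  · have h1 := (hasFDerivAt_snd (𝕜 := ℝ) (p := Z t)).comp_hasDerivWithinAt t (hZ t ht).2
    exact (hasFDerivAt_fst (𝕜 := ℝ) (p := (Z t).2)).comp_hasDerivWithinAt t h1
  · have h1 := (hasFDerivAt_snd (𝕜 := ℝ) (p := Z t)).comp_hasDerivWithinAt t (hZ t ht).2
    exact (hasFDerivAt_snd (𝕜 := ℝ) (p := (Z t).2)).comp_hasDerivWithinAt t h1

/-- Proof.  `W (x, a, b) = (V x, fderiv V x a, fderiv V x b)` is of class `C¹` on the open set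
`𝒪 ×ˢ univ` (`ContDiffOn.fderiv_of_isOpen`, bilinear evaluation).  `djac_flow` gives the fundamental
solution `𝒜` along `X`; `A t = 𝒜 t a₀`, `B t = 𝒜 t b₀`.  Then `(X, A, B)` solves `W` on `[0, T]`, and
`exists_near_forward` (Flow.lean) gives for every `ε > 0` a `δ > 0` such that solutions of `W` with initial
values `δ`-close to `(X 0, a₀, b₀)` exist on `[0, T]` and stay `ε`-close.  Choose for each `n` some solution
with the initial value `(x n, a n, b n)` if there is one (on `[0, T]`, arbitrary otherwise); by uniqueness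
(`Solves.eqOn_of_eq` for `W`) it is the one given by `exists_near_forward` as soon as the initial value is
`δ`-close.  So it exists for all large `n` and the convergence is uniform on `[0, T]`.  A solution of `W`
is a solution of `V` together with two Jacobi fields (components of the derivative). -/
theorem ode_lim {E : Type*} [NormedAddCommGroup E] [NormedSpace ℝ E] [FiniteDimensional ℝ E]
    {V : E → E} {𝒪 : Set E} (h𝒪 : IsOpen 𝒪) (hV : ContDiffOn ℝ 2 V 𝒪) {X : ℝ → E} {T : ℝ}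
    (hT : 0 ≤ T) (hX : Solves V 𝒪 (Icc 0 T) X) {x a b : ℕ → E} {a₀ b₀ : E}
    (hx : Tendsto x atTop (𝓝 (X 0))) (ha : Tendsto a atTop (𝓝 a₀))
    (hb : Tendsto b atTop (𝓝 b₀)) :
    ∃ (A B : ℝ → E) (Y C D : ℕ → ℝ → E), Jac V X A T ∧ Jac V X B T ∧ A 0 = a₀ ∧ B 0 = b₀ ∧
      (∀ᶠ n in atTop, Solves V 𝒪 (Icc 0 T) (Y n) ∧ Y n 0 = x n ∧ Jac V (Y n) (C n) T ∧
        C n 0 = a n ∧ Jac V (Y n) (D n) T ∧ D n 0 = b n) ∧
      TendstoUniformlyOn (fun n t => (Y n t, C n t, D n t)) (fun t => (X t, A t, B t)) atTop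
        (Icc 0 T) := by
  classical
  have hΩ : IsOpen (𝒪 ×ˢ (univ : Set (E × E))) := h𝒪.prod isOpen_univ
  have hWc := slimW_contDiffOn h𝒪 hV
  obtain ⟨𝒜, φ, h𝒜0, h𝒜, -, -⟩ := djac_flow h𝒪 hV hT hX
  have hJ : ∀ c : E, Jac V X (fun t => 𝒜 t c) T := by
    intro c t ht
    have := (h𝒜 t ht).clm_apply (hasDerivWithinAt_const t (Icc 0 T) c)
    simpa using this
  have hXW : Solves (slimW V) (𝒪 ×ˢ (univ : Set (E × E))) (Icc 0 T)
      (fun t => (X t, 𝒜 t a₀, 𝒜 t b₀)) := fun t ht =>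
    ⟨⟨(hX t ht).1, mem_univ _⟩, (hX t ht).2.prodMk ((hJ a₀ t ht).prodMk (hJ b₀ t ht))⟩
  -- choose solutions
  have hch : ∀ n, ∃ Z : ℝ → E × E × E,
      (∃ y, Solves (slimW V) (𝒪 ×ˢ (univ : Set (E × E))) (Icc 0 T) y ∧ y 0 = (x n, a n, b n)) →
      (Solves (slimW V) (𝒪 ×ˢ (univ : Set (E × E))) (Icc 0 T) Z ∧ Z 0 = (x n, a n, b n)) := by
    intro n
    by_cases h : ∃ y, Solves (slimW V) (𝒪 ×ˢ (univ : Set (E × E))) (Icc 0 T) y ∧
        y 0 = (x n, a n, b n)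
    · obtain ⟨y, hy⟩ := h
      exact ⟨y, fun _ => hy⟩
    · exact ⟨fun _ => 0, fun h' => absurd h' h⟩
  choose Z hZ using hch
  have hlim : Tendsto (fun n => (x n, a n, b n)) atTop (𝓝 (X 0, 𝒜 0 a₀, 𝒜 0 b₀)) := by
    rw [h𝒜0]
    exact hx.prodMk_nhds (ha.prodMk_nhds hb)
  have key : ∀ ε > 0, ∀ᶠ n in atTop,
      (Solves (slimW V) (𝒪 ×ˢ (univ : Set (E × E))) (Icc 0 T) (Z n) ∧
        Z n 0 = (x n, a n, b n)) ∧
      ∀ t ∈ Icc 0 T, dist (X t, 𝒜 t a₀, 𝒜 t b₀) (Z n t) < ε := by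
    intro ε hε
    obtain ⟨δ, hδ, hnear⟩ := exists_near_forward hΩ hWc hT hXW hε
    filter_upwards [hlim.eventually (ball_mem_nhds _ hδ)] with n hn
    obtain ⟨y, hy0, hy, hyd⟩ := hnear (x n, a n, b n) hn
    obtain ⟨h1, h2⟩ := hZ n ⟨y, hy, hy0⟩
    refine ⟨⟨h1, h2⟩, fun t ht => ?_⟩
    have h3 := h1.eqOn_of_eq hΩ hWc hy (h2.trans hy0.symm) ht
    rw [h3, dist_comm]
    exact hyd t ht
  refine ⟨fun t => 𝒜 t a₀, fun t => 𝒜 t b₀, fun n t => (Z n t).1, fun n t => (Z n t).2.1,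
    fun n t => (Z n t).2.2, hJ a₀, hJ b₀, ?_, ?_, ?_, ?_⟩
  · show 𝒜 0 a₀ = a₀
    rw [h𝒜0]
    rfl
  · show 𝒜 0 b₀ = b₀
    rw [h𝒜0]
    rfl
  · filter_upwards [key 1 one_pos] with n hn
    obtain ⟨⟨h1, h2⟩, -⟩ := hn
    obtain ⟨h3, h4, h5⟩ := slim_split h1
    refine ⟨h3, ?_, h4, ?_, h5, ?_⟩
    · show (Z n 0).1 = x n
      rw [h2]
    · show (Z n 0).2.1 = a n
      rw [h2]
    · show (Z n 0).2.2 = b n
      rw [h2]
  · rw [Metric.tendstoUniformlyOn_iff]
    intro ε hε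
    filter_upwards [key ε hε] with n hn t ht
    exact hn.2 t ht

/-- Proof.  The image `K` of `[0, T]` under `(X, A, B)` is a compact subset of the open set
`𝒪 ×ˢ univ`; `H` is continuous there, so `H ∘ (Y n, C n, D n)` converges uniformly on `[0, T]` to
`H ∘ (X, A, B)` (uniform continuity of `H` near `K`, e.g. on a compact thickening of `K`; or pointwise
convergence plus a uniform bound and dominated convergence); so the integrals converge. -/
theorem int_lim {E : Type*} [NormedAddCommGroup E] [NormedSpace ℝ E] [FiniteDimensional ℝ E]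
    {𝒪 : Set E} (h𝒪 : IsOpen 𝒪) {T : ℝ} (hT : 0 ≤ T) {H : E × E × E → ℂ}
    (hH : ContinuousOn H (𝒪 ×ˢ (univ : Set (E × E)))) {Y C D : ℕ → ℝ → E} {X A B : ℝ → E}
    (hXc : ContinuousOn X (Icc 0 T)) (hAc : ContinuousOn A (Icc 0 T))
    (hBc : ContinuousOn B (Icc 0 T)) (hXO : ∀ t ∈ Icc 0 T, X t ∈ 𝒪)
    (hYc : ∀ᶠ n in atTop, ContinuousOn (fun t => (Y n t, C n t, D n t)) (Icc 0 T))
    (hu : TendstoUniformlyOn (fun n t => (Y n t, C n t, D n t)) (fun t => (X t, A t, B t)) atTop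
      (Icc 0 T)) (h0 : ∀ᶠ n in atTop, ∫ t in (0 : ℝ)..T, H (Y n t, C n t, D n t) = 0) :
    ∫ t in (0 : ℝ)..T, H (X t, A t, B t) = 0 := by
  have hΩ : IsOpen (𝒪 ×ˢ (univ : Set (E × E))) := h𝒪.prod isOpen_univ
  have hGc : ContinuousOn (fun t => (X t, A t, B t)) (Icc 0 T) := hXc.prodMk (hAc.prodMk hBc)
  have hK : IsCompact ((fun t => (X t, A t, B t)) '' Icc 0 T) :=
    isCompact_Icc.image_of_continuousOn hGc
  have hKΩ : (fun t => (X t, A t, B t)) '' Icc 0 T ⊆ 𝒪 ×ˢ (univ : Set (E × E)) := by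
    rintro _ ⟨t, ht, rfl⟩
    exact ⟨hXO t ht, mem_univ _⟩
  obtain ⟨δ, hδ, hsub⟩ := hK.exists_cthickening_subset_open hΩ hKΩ
  have hcomp : IsCompact (cthickening δ ((fun t => (X t, A t, B t)) '' Icc 0 T)) :=
    hK.cthickening
  have hunif := hcomp.uniformContinuousOn_of_continuous (hH.mono hsub)
  rw [Metric.uniformContinuousOn_iff] at hunif
  rw [Metric.tendstoUniformlyOn_iff] at hu
  have hmain : ∀ ε > 0, ‖∫ t in (0 : ℝ)..T, H (X t, A t, B t)‖ ≤ ε * T := by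
    intro ε hε
    obtain ⟨η, hη, hun⟩ := hunif ε hε
    have hev := hu (min η δ) (lt_min hη hδ)
    obtain ⟨n, ⟨hn1, hn2⟩, hn3⟩ := ((hev.and hYc).and h0).exists
    have hmemX : ∀ t ∈ Icc 0 T, (X t, A t, B t) ∈
        cthickening δ ((fun t => (X t, A t, B t)) '' Icc 0 T) := fun t ht =>
      self_subset_cthickening _ ⟨t, ht, rfl⟩
    have hmemY : ∀ t ∈ Icc 0 T, (Y n t, C n t, D n t) ∈
        cthickening δ ((fun t => (X t, A t, B t)) '' Icc 0 T) := by
      intro t ht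
      apply thickening_subset_cthickening
      rw [mem_thickening_iff]
      refine ⟨(X t, A t, B t), ⟨t, ht, rfl⟩, ?_⟩
      rw [dist_comm]
      exact (hn1 t ht).trans_le (min_le_right _ _)
    have hc1 : ContinuousOn (fun t => H (X t, A t, B t)) (Icc 0 T) :=
      hH.comp hGc fun t ht => hsub (hmemX t ht)
    have hc2 : ContinuousOn (fun t => H (Y n t, C n t, D n t)) (Icc 0 T) :=
      hH.comp hn2 fun t ht => hsub (hmemY t ht)
    have hi1 : IntervalIntegrable (fun t => H (X t, A t, B t)) MeasureTheory.volume 0 T := by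
      apply ContinuousOn.intervalIntegrable
      rwa [uIcc_of_le hT]
    have hi2 : IntervalIntegrable (fun t => H (Y n t, C n t, D n t)) MeasureTheory.volume 0 T := by
      apply ContinuousOn.intervalIntegrable
      rwa [uIcc_of_le hT]
    have h1 : ∫ t in (0 : ℝ)..T, H (X t, A t, B t) =
        ∫ t in (0 : ℝ)..T, (H (X t, A t, B t) - H (Y n t, C n t, D n t)) := by
      rw [intervalIntegral.integral_sub hi1 hi2, hn3, sub_zero]
    rw [h1]
    have h2 := intervalIntegral.norm_integral_le_of_norm_le_const (a := 0) (b := T) (C := ε)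
      (f := fun t => H (X t, A t, B t) - H (Y n t, C n t, D n t)) (fun t ht => by
        rw [uIoc_of_le hT] at ht
        have ht' : t ∈ Icc 0 T := ⟨ht.1.le, ht.2⟩
        have h3 := hun _ (hmemX t ht') _ (hmemY t ht') ((hn1 t ht').trans_le (min_le_left _ _))
        rw [dist_eq_norm] at h3
        exact h3.le)
    rwa [sub_zero, abs_of_nonneg hT] at h2
  have h3 : ‖∫ t in (0 : ℝ)..T, H (X t, A t, B t)‖ ≤ 0 := by
    refine le_of_forall_pos_le_add fun ε hε => ?_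
    have h4 := hmain (ε / (T + 1)) (by positivity)
    have h5 : ε / (T + 1) * T ≤ ε := by
      rw [div_mul_eq_mul_div, div_le_iff₀ (by positivity)]
      nlinarith
    linarith
  exact norm_le_zero_iff.1 h3

end Pool.Agent.MP_5027f4_cont
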