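import Pool.Agent.Lib_MP_5027f4_cont.SRot
import Pool.Agent.Lib_MP_5027f4_cont.LinNFa

/-!
PIECE [SNon] (MP_5027f4_mp, block S).  The homographic part of the limit eigenvector is not zero.
-/

open Set Filter Topology Metric Polynomial
open scoped ComplexConjugate ContDiff
open Pool.Agent.MP_5027f4_mp
open Pool.Agent.MP_5027f4_ell (Tri Shape cc coord Mt sg sm Nn Gz epsf kapf vf Bs IsFund Mat hf F1 F2)

namespace Pool.Agent.MP_5027f4_cont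

private theorem snon_zc_ne {z₀ : ℂ} (h : z₀ ≠ 0) (Ω t : ℝ) : zc z₀ Ω t ≠ 0 :=
  mul_ne_zero h (Complex.exp_ne_zero _)

private theorem snon_norm_zc (z₀ : ℂ) (Ω t : ℝ) : ‖zc z₀ Ω t‖ = ‖z₀‖ := by
  unfold zc
  rw [norm_mul, Complex.norm_exp_ofReal_mul_I, mul_one]

private theorem snon_mem {S : Shape} {z₀ : ℂ} (h : z₀ ≠ 0) (Ω : ℝ) (v v1 : ℝ → ℂ) (t : ℝ) :
    Xc z₀ Ω v v1 t ∈ SD S := mem_SD_zero S (p := ((zc z₀ Ω t, (Ω : ℂ) * Complex.I * zc z₀ Ω t),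
      (v t, v1 t))) (snon_zc_ne h Ω t)

private theorem snon_fst {S : Shape} {z₀ : ℂ} (h : z₀ ≠ 0) {Ω T : ℝ} {v v1 : ℝ → ℂ}
    {A : ℝ → ℝ × V4} (hA : Jac (VS S) (Xc z₀ Ω v v1) A T) (hA0 : (A 0).1 = 0) :
    ∀ t ∈ Icc 0 T, (A t).1 = 0 := by
  have hd : ∀ t ∈ Icc 0 T, HasDerivWithinAt (fun t => (A t).1) 0 (Icc 0 T) t := by
    intro t ht
    have h1 := (ContinuousLinearMap.fst ℝ ℝ V4).hasFDerivAt.comp_hasDerivWithinAt t (hA t ht)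
    refine h1.congr_deriv ?_
    exact fderiv_VS_fst (snon_mem h Ω v v1 t) (A t)
  have hc : ContinuousOn (fun t => (A t).1) (Icc 0 T) := fun t ht => (hd t ht).continuousWithinAt
  intro t ht
  have := constant_of_has_deriv_right_zero hc (fun x hx => ?_) t ht
  · rw [this, hA0]
  · exact (hd x (Ico_subset_Icc_self hx)).mono_of_mem_nhdsWithin
      (Icc_mem_nhdsGE_of_mem hx)

private theorem snon_jac {S : Shape} (hS : S.Good) {z₀ : ℂ} (h : z₀ ≠ 0) {Ω T : ℝ} {v v1 : ℝ → ℂ}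
    {A : ℝ → ℝ × V4} (hA : Jac (VS S) (Xc z₀ Ω v v1) A T) (hA0 : (A 0).1 = 0) :
    ∀ t ∈ Icc 0 T,
      HasDerivWithinAt (fun t => (A t).2.1.1) ((fun t => (A t).2.1.2) t) (Icc 0 T) t ∧
      HasDerivWithinAt (fun t => (A t).2.1.2) (LN S.M 1 (zc z₀ Ω t) (A t).2.1.1) (Icc 0 T) t ∧
      HasDerivWithinAt (fun t => (A t).2.2.1) ((fun t => (A t).2.2.2) t) (Icc 0 T) t ∧
      HasDerivWithinAt (fun t => (A t).2.2.2) (LN S.M S.s (zc z₀ Ω t) (A t).2.2.1 +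
        LD S.M S.s (zc z₀ Ω t) (v t) (A t).2.1.1) (Icc 0 T) t := by
  intro t ht
  have hz := snon_zc_ne h Ω t
  have h0 := snon_fst h hA hA0 t ht
  have hd := hA t ht
  have hAt : A t = ((0 : ℝ), (A t).2) := Prod.ext h0 rfl
  have key : fderiv ℝ (VS S) (Xc z₀ Ω v v1 t) (A t) = (0, (((A t).2.1.2,
      LN S.M 1 (zc z₀ Ω t) (A t).2.1.1), ((A t).2.2.2, LN S.M S.s (zc z₀ Ω t) (A t).2.2.1 +
        LD S.M S.s (zc z₀ Ω t) (v t) (A t).2.1.1))) := by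
    conv_lhs => rw [hAt]
    have hm := snon_mem (S := S) h Ω v v1 t
    unfold Xc at hm ⊢
    rw [fderiv_VS hm (A t).2, fderiv_gs_zero hS (p := ((zc z₀ Ω t, (Ω : ℂ) * Complex.I *
      zc z₀ Ω t), (v t, v1 t))) hz (A t).2]
  rw [key] at hd
  have hs := (ContinuousLinearMap.snd ℝ ℝ V4).hasFDerivAt.comp_hasDerivWithinAt t hd
  have hs1 := (ContinuousLinearMap.fst ℝ (ℂ × ℂ) (ℂ × ℂ)).hasFDerivAt.comp_hasDerivWithinAt t hs
  have hs2 := (ContinuousLinearMap.snd ℝ (ℂ × ℂ) (ℂ × ℂ)).hasFDerivAt.comp_hasDerivWithinAt t hs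
  exact ⟨(ContinuousLinearMap.fst ℝ ℂ ℂ).hasFDerivAt.comp_hasDerivWithinAt t hs1,
    (ContinuousLinearMap.snd ℝ ℂ ℂ).hasFDerivAt.comp_hasDerivWithinAt t hs1,
    (ContinuousLinearMap.fst ℝ ℂ ℂ).hasFDerivAt.comp_hasDerivWithinAt t hs2,
    (ContinuousLinearMap.snd ℝ ℂ ℂ).hasFDerivAt.comp_hasDerivWithinAt t hs2⟩

private theorem snon_LN (M : ℝ) {z : ℂ} (hz : z ≠ 0) (b : ℂ) :
    ‖LN M 1 z b‖ ≤ |M / ‖z‖ ^ 3| * 2 * ‖b‖ := by
  unfold LN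
  rw [norm_mul, Complex.norm_real, Real.norm_eq_abs, mul_assoc]
  refine mul_le_mul_of_nonneg_left ?_ (abs_nonneg _)
  refine (norm_add_le _ _).trans ?_
  have h1 : ‖b / 2‖ = ‖b‖ / 2 := by
    rw [norm_div]
    norm_num
  have h2 : ‖(((3 / 2 * 1 : ℝ) : ℂ)) * (z / conj z * conj b)‖ = 3 / 2 * ‖b‖ := by
    rw [norm_mul, norm_mul, norm_div, Complex.norm_conj, Complex.norm_conj,
      div_self (norm_ne_zero_iff.2 hz), one_mul, Complex.norm_real]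
    norm_num
  rw [h1, h2]
  linarith

private theorem snon_unique {M Ω T : ℝ} {z₀ : ℂ} (h : z₀ ≠ 0) {a a1 : ℝ → ℂ}
    (ha : ∀ t ∈ Icc 0 T, HasDerivWithinAt a (a1 t) (Icc 0 T) t)
    (ha1 : ∀ t ∈ Icc 0 T, HasDerivWithinAt a1 (LN M 1 (zc z₀ Ω t) (a t)) (Icc 0 T) t)
    (h0 : a 0 = 0) (h1 : a1 0 = 0) : ∀ t ∈ Icc 0 T, a t = 0 := by
  have hd : ∀ t ∈ Icc 0 T, HasDerivWithinAt (fun t => (a t, a1 t))
      (a1 t, LN M 1 (zc z₀ Ω t) (a t)) (Icc 0 T) t := fun t ht => (ha t ht).prodMk (ha1 t ht)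
  have hc : ContinuousOn (fun t => (a t, a1 t)) (Icc 0 T) := fun t ht =>
    (hd t ht).continuousWithinAt
  have hb := norm_le_gronwallBound_of_norm_deriv_right_le (f := fun t => (a t, a1 t))
    (f' := fun t => (a1 t, LN M 1 (zc z₀ Ω t) (a t))) (δ := 0)
    (K := 1 + |M / ‖z₀‖ ^ 3| * 2) (ε := 0) (a := 0) (b := T) hc
    (fun x hx => (hd x (Ico_subset_Icc_self hx)).mono_of_mem_nhdsWithin
      (Icc_mem_nhdsGE_of_mem hx)) (by simp [h0, h1]) (fun x _ => by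
        have hn := snon_LN M (snon_zc_ne h Ω x) (a x)
        rw [snon_norm_zc] at hn
        have e1 : ‖a x‖ ≤ ‖(a x, a1 x)‖ := norm_fst_le (a x, a1 x)
        have e2 : ‖a1 x‖ ≤ ‖(a x, a1 x)‖ := norm_snd_le (a x, a1 x)
        have e3 : 0 ≤ |M / ‖z₀‖ ^ 3| := abs_nonneg _
        have e4 := mul_le_mul_of_nonneg_left e1 (mul_nonneg e3 zero_le_two)
        have e5 : 0 ≤ ‖(a x, a1 x)‖ := norm_nonneg _
        have e6 := mul_nonneg (mul_nonneg e3 zero_le_two) e5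
        rw [Prod.norm_mk]
        refine max_le ?_ ?_
        · change ‖a1 x‖ ≤ (1 + |M / ‖z₀‖ ^ 3| * 2) * ‖(a x, a1 x)‖ + 0
          linarith
        · change ‖LN M 1 (zc z₀ Ω x) (a x)‖ ≤ (1 + |M / ‖z₀‖ ^ 3| * 2) * ‖(a x, a1 x)‖ + 0
          linarith)
  intro t ht
  have h2 := hb t ht
  rw [gronwallBound_ε0_δ0] at h2
  have h3 : ‖a t‖ ≤ 0 := (norm_fst_le (a t, a1 t)).trans h2
  exact norm_le_zero_iff.1 h3

private theorem snon_lsol {S : Shape} (hS : S.Good) {z₀ : ℂ} (h : z₀ ≠ 0) {Ω T : ℝ}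
    {v v1 : ℝ → ℂ} {A : ℝ → ℝ × V4} (hA : Jac (VS S) (Xc z₀ Ω v v1) A T) (hA0 : (A 0).1 = 0)
    (hA1 : (A 0).2.1 = 0) :
    LSol S.M S.s T (zc z₀ Ω) (fun t => (A t).2.2.1) (fun t => (A t).2.2.2) := by
  have J := snon_jac hS h hA hA0
  have hz := snon_unique (M := S.M) (Ω := Ω) h (fun t ht => (J t ht).1) (fun t ht => (J t ht).2.1)
    (by rw [hA1]; rfl) (by show (A 0).2.1.2 = 0; rw [hA1]; rfl)
  intro t ht
  obtain ⟨-, -, h3, h4⟩ := J t ht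
  refine ⟨h3, h4.congr_deriv ?_⟩
  rw [hz t ht]
  simp [LD]

/-- Proof.  By contradiction: `(A 0).2.1 = 0`, `(B 0).2.1 = 0`.  `(A t).1 = 0` on `[0, T]`
(`fderiv_VS_fst`; `Xc` is in `SD S` by `mem_SD_zero`).  By `fderiv_VS` and `fderiv_gs_zero` the components
`a = (A t).2.1.1`, `a₁ = (A t).2.1.2` satisfy `a' = a₁`, `a₁' = LN M 1 (zc t) a`, with `a 0 = a₁ 0 = 0`: uniqueness for
the linear equation (e.g. `|LN M 1 z a| ≤ 2 Ω² |a|`, Gronwall; or as in the proof of `exists_mono`,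
MBlk.lean) gives `a = a₁ = 0` on `[0, T]`.  So `LD M s z v 0 = 0` and the components `c = (A t).2.2.1`,
`c₁ = (A t).2.2.2` satisfy `LSol S.M S.s T (zc z₀ Ω) c c₁`; the same for `d, d₁` (from `B`).  `hBm`, `pA`, `pB`:
`Bm (c 0, c₁ 0) = u.re (c 0, c₁ 0) + u.im (d 0, d₁ 0)`, `Bm (d 0, d₁ 0) = - u.im (c 0, c₁ 0) + u.re (d 0, d₁ 0)`
(`u⁻¹ u = 1`).  By `hne` one of the two vectors is nonzero, and `root_of_plane` (LinNFa.lean) with
`l = conj u` (`l.re = u.re`, `l.im = - u.im`) contradicts `hev`. -/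
theorem zpart_ne {S : Shape} (hS : S.Good) {Ω T : ℝ} {z₀ u : ℂ} (hT : 0 < T) (hΩ : Ω ≠ 0)
    (hμ : Ω ^ 2 * ‖z₀‖ ^ 3 = S.M) (hu : ‖u‖ = 1) {v v1 : ℝ → ℂ} {A B : ℝ → ℝ × V4}
    (hA : Jac (VS S) (Xc z₀ Ω v v1) A T) (hB : Jac (VS S) (Xc z₀ Ω v v1) B T)
    (hA0 : (A 0).1 = 0) (hB0 : (B 0).1 = 0)
    (pA : (A T).2 = u • (u.re • (A 0).2 + u.im • (B 0).2))
    (pB : (B T).2 = u • (-(u.im • (A 0).2) + u.re • (B 0).2))
    {Bm : (ℂ × ℂ) →L[ℝ] (ℂ × ℂ)} (hBm : IsMono S.M S.s T (zc z₀ Ω) u Bm)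
    (hev : ((cp Bm).map (algebraMap ℝ ℂ)).eval (conj u) ≠ 0)
    (hne : (A 0).2 ≠ 0 ∨ (B 0).2 ≠ 0) : (A 0).2.1 ≠ 0 ∨ (B 0).2.1 ≠ 0 := by
  have hz0 : z₀ ≠ 0 := by
    rintro rfl
    have := hS.Mpos
    rw [← hμ] at this
    simp at this
  by_contra hcon
  rw [not_or, not_not, not_not] at hcon
  obtain ⟨hA1, hB1⟩ := hcon
  have hu0 : u ≠ 0 := by
    rintro rfl
    rw [norm_zero] at hu
    exact zero_ne_one hu
  have e1 := hBm _ _ (snon_lsol hS hz0 hA hA0 hA1)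
  have e2 := hBm _ _ (snon_lsol hS hz0 hB hB0 hB1)
  apply hev
  refine root_of_plane Bm (x := (A 0).2.2) (y := (B 0).2.2) ?_ ?_ ?_
  · rcases hne with h1 | h1
    · left
      intro h2
      exact h1 (Prod.ext hA1 h2)
    · right
      intro h2
      exact h1 (Prod.ext hB1 h2)
  · have h1 : Bm (A 0).2.2 = (u⁻¹ * (A T).2.2.1, u⁻¹ * (A T).2.2.2) := e1
    rw [h1, pA]
    refine Prod.ext ?_ ?_
    · show u⁻¹ * (u * ((u.re : ℂ) * (A 0).2.2.1 + (u.im : ℂ) * (B 0).2.2.1)) =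
        (((conj u).re : ℂ)) * (A 0).2.2.1 - (((conj u).im : ℂ)) * (B 0).2.2.1
      rw [inv_mul_cancel_left₀ hu0, Complex.conj_re, Complex.conj_im]
      push_cast
      ring
    · show u⁻¹ * (u * ((u.re : ℂ) * (A 0).2.2.2 + (u.im : ℂ) * (B 0).2.2.2)) =
        (((conj u).re : ℂ)) * (A 0).2.2.2 - (((conj u).im : ℂ)) * (B 0).2.2.2
      rw [inv_mul_cancel_left₀ hu0, Complex.conj_re, Complex.conj_im]
      push_cast
      ring
  · have h1 : Bm (B 0).2.2 = (u⁻¹ * (B T).2.2.1, u⁻¹ * (B T).2.2.2) := e2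
    rw [h1, pB]
    refine Prod.ext ?_ ?_
    · show u⁻¹ * (u * (-((u.im : ℂ) * (A 0).2.2.1) + (u.re : ℂ) * (B 0).2.2.1)) =
        (((conj u).im : ℂ)) * (A 0).2.2.1 + (((conj u).re : ℂ)) * (B 0).2.2.1
      rw [inv_mul_cancel_left₀ hu0, Complex.conj_re, Complex.conj_im]
      push_cast
      ring
    · show u⁻¹ * (u * (-((u.im : ℂ) * (A 0).2.2.2) + (u.re : ℂ) * (B 0).2.2.2)) =
        (((conj u).im : ℂ)) * (A 0).2.2.2 + (((conj u).re : ℂ)) * (B 0).2.2.2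
      rw [inv_mul_cancel_left₀ hu0, Complex.conj_re, Complex.conj_im]
      push_cast
      ring

end Pool.Agent.MP_5027f4_cont
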