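import Pool.Agent.Lib_MP_5027f4_cont.MBlk

/-!
PIECE [SPer] (MP_5027f4_mp, block S).  The normal block if all normal modes are periodic; the
homographic block has the eigenvalue `1`.
-/

open Set Filter Topology Metric Polynomial
open scoped ComplexConjugate ContDiff
open Pool.Agent.MP_5027f4_mp

namespace Pool.Agent.MP_5027f4_cont

/-- circular Kepler orbits -/
private theorem sper_ksol {M T μ : ℝ} {z₀ : ℂ} (hz₀ : z₀ ≠ 0) (hμ : μ ^ 2 * ‖z₀‖ ^ 3 = M) :
    KSol M T (fun t => z₀ * Complex.exp ((μ * t : ℝ) * Complex.I))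
      (fun t => (μ : ℂ) * Complex.I * (z₀ * Complex.exp ((μ * t : ℝ) * Complex.I))) := by
  intro t ht
  have hr : ‖z₀‖ ≠ 0 := norm_ne_zero_iff.2 hz₀
  have hn : ‖z₀ * Complex.exp ((μ * t : ℝ) * Complex.I)‖ = ‖z₀‖ := by
    rw [norm_mul, Complex.norm_exp_ofReal_mul_I, mul_one]
  have hd : HasDerivAt (fun t : ℝ => z₀ * Complex.exp ((μ * t : ℝ) * Complex.I))
      ((μ : ℂ) * Complex.I * (z₀ * Complex.exp ((μ * t : ℝ) * Complex.I))) t := by
    have h1 : HasDerivAt (fun t : ℝ => ((μ * t : ℝ) : ℂ) * Complex.I) ((μ : ℂ) * Complex.I) t := by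
      have h2 : HasDerivAt (fun t : ℝ => μ * t) μ t := by
        simpa using (hasDerivAt_id t).const_mul μ
      exact (h2.ofReal_comp).mul_const Complex.I
    have h3 := (h1.cexp).const_mul z₀
    refine h3.congr_deriv ?_
    ring
  refine ⟨mul_ne_zero hz₀ (Complex.exp_ne_zero _), hd.hasDerivWithinAt, ?_⟩
  have h4 := (hd.const_mul ((μ : ℂ) * Complex.I)).hasDerivWithinAt (s := Icc 0 T)
  refine h4.congr_deriv ?_
  rw [hn]
  have h5 : (((‖z₀‖ ^ 3 : ℝ)) : ℂ) ≠ 0 := by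
    exact_mod_cast pow_ne_zero 3 hr
  rw [eq_div_iff h5, ← hμ]
  push_cast
  have h6 : Complex.I * Complex.I = -1 := Complex.I_mul_I
  linear_combination ((μ : ℂ) ^ 2 * z₀ * Complex.exp ((μ : ℂ) * t * Complex.I) *
    (‖z₀‖ : ℂ) ^ 3) * h6

private theorem sper_ln (M : ℝ) {Z : ℂ} (hZ : Z ≠ 0) :
    Complex.I * (-(M : ℂ) * Z / ((‖Z‖ ^ 3 : ℝ) : ℂ)) = LN M 1 Z (Complex.I * Z) := by
  have hc0 : conj Z ≠ 0 := (_root_.map_ne_zero _).mpr hZ
  have hn : ((‖Z‖ : ℝ) : ℂ) ≠ 0 := by exact_mod_cast norm_ne_zero_iff.2 hZ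
  unfold LN
  rw [map_mul, Complex.conj_I]
  push_cast
  field_simp
  ring

/-- a closed oscillation -/
private theorem sper_osc {T ν : ℝ} (hT : 0 < T) (hν : ν ≠ 0) {W W1 : ℝ → ℂ}
    (h : ∀ t ∈ Icc 0 T, HasDerivWithinAt W (W1 t) (Icc 0 T) t)
    (h1 : ∀ t ∈ Icc 0 T, HasDerivWithinAt W1 (-(ν : ℂ) ^ 2 * W t) (Icc 0 T) t)
    (he : Complex.exp (Complex.I * ((ν * T : ℝ) : ℂ)) = 1) : W T = W 0 ∧ W1 T = W1 0 := by
  have hI : Complex.I * Complex.I = -1 := Complex.I_mul_I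
  have hexp : ∀ (c : ℂ) (t : ℝ), HasDerivAt (fun t : ℝ => Complex.exp (c * (t : ℂ)))
      (c * Complex.exp (c * (t : ℂ))) t := by
    intro c t
    have h2 : HasDerivAt (fun t : ℝ => c * (t : ℂ)) (c * 1) t :=
      ((hasDerivAt_id t).ofReal_comp).const_mul c
    refine h2.cexp.congr_deriv ?_
    ring
  have key : ∀ c : ℂ, c * c = -(ν : ℂ) ^ 2 → Complex.exp (c * (T : ℂ)) = 1 →
      W1 T - c * W T = W1 0 - c * W 0 := by
    intro c hc hcT
    have hd : ∀ t ∈ Icc 0 T, HasDerivWithinAt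
        (fun t => (W1 t - c * W t) * Complex.exp (c * (t : ℂ))) 0 (Icc 0 T) t := by
      intro t ht
      have h2 := ((h1 t ht).sub ((h t ht).const_mul c)).mul (hexp c t).hasDerivWithinAt
      refine h2.congr_deriv ?_
      simp only [Pi.sub_apply]
      linear_combination (-(W t) * Complex.exp (c * (t : ℂ))) * hc
    have h3 := constant_of_derivWithin_zero (fun t ht => (hd t ht).differentiableWithinAt)
      (fun t ht => (hd t (Ico_subset_Icc_self ht)).derivWithin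
        (uniqueDiffOn_Icc hT t (Ico_subset_Icc_self ht))) T (right_mem_Icc.2 hT.le)
    simp only [hcT, Complex.ofReal_zero, mul_zero, Complex.exp_zero, mul_one] at h3
    exact h3
  have e1 : Complex.exp (((ν : ℂ) * Complex.I) * (T : ℂ)) = 1 := by
    rw [← he]
    congr 1
    push_cast
    ring
  have e2 : Complex.exp ((-((ν : ℂ) * Complex.I)) * (T : ℂ)) = 1 := by
    rw [neg_mul, Complex.exp_neg, e1, inv_one]
  have k1 := key ((ν : ℂ) * Complex.I) (by linear_combination ((ν : ℂ) ^ 2) * hI) e1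
  have k2 := key (-((ν : ℂ) * Complex.I)) (by linear_combination ((ν : ℂ) ^ 2) * hI) e2
  have hνc : (ν : ℂ) ≠ 0 := by exact_mod_cast hν
  have hne : (ν : ℂ) * Complex.I ≠ 0 := mul_ne_zero hνc Complex.I_ne_zero
  constructor
  · have h4 : ((ν : ℂ) * Complex.I) * (W T - W 0) = 0 := by
      linear_combination (k2 - k1) / 2
    exact sub_eq_zero.1 ((mul_eq_zero.1 h4).resolve_left hne)
  · linear_combination (k1 + k2) / 2

/-- the second component of the linear equation in the rotating frame -/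
private noncomputable def sperF (μ s : ℝ) (V V1 : ℂ) : ℂ :=
  -2 * (Complex.I * (μ : ℂ)) * V1 + (μ : ℂ) ^ 2 * (3 / 2 * V + 3 / 2 * (s : ℂ) * conj V)

private theorem sperF_deriv {μ s T t : ℝ} {V V1 : ℝ → ℂ} {v v1 : ℂ}
    (h : HasDerivWithinAt V v (Icc 0 T) t) (h1 : HasDerivWithinAt V1 v1 (Icc 0 T) t) :
    HasDerivWithinAt (fun t => sperF μ s (V t) (V1 t)) (sperF μ s v v1) (Icc 0 T) t := by
  have hc : HasDerivWithinAt (fun t => conj (V t)) (conj v) (Icc 0 T) t := by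
    have h2 := (Complex.conjCLE : ℂ →L[ℝ] ℂ).hasFDerivAt.comp_hasDerivWithinAt t h
    exact h2
  exact (h1.const_mul _).add (((h.const_mul (3 / 2 : ℂ)).add
    (hc.const_mul (3 / 2 * (s : ℂ)))).const_mul ((μ : ℂ) ^ 2))

private theorem sperF_four {μ s r : ℝ} (hres : r ^ 4 - r ^ 2 + 9 / 4 * (1 - s ^ 2) = 0)
    {V0 V1 V2 V3 V4 : ℂ} (h2 : V2 = sperF μ s V0 V1) (h3 : V3 = sperF μ s V1 V2)
    (h4 : V4 = sperF μ s V2 V3) :
    V4 = -(μ : ℂ) ^ 2 * V2 - (r : ℂ) ^ 2 * (1 - (r : ℂ) ^ 2) * (μ : ℂ) ^ 4 * V0 := by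
  have hI : Complex.I * Complex.I = -1 := Complex.I_mul_I
  have hresc : (r : ℂ) ^ 4 - (r : ℂ) ^ 2 + 9 / 4 * (1 - (s : ℂ) ^ 2) = 0 := by
    have h := congrArg (fun x : ℝ => (x : ℂ)) hres
    push_cast at h
    exact h
  have h2c : conj V2 = 2 * (Complex.I * (μ : ℂ)) * conj V1 +
      (μ : ℂ) ^ 2 * (3 / 2 * conj V0 + 3 / 2 * (s : ℂ) * V0) := by
    rw [h2]
    unfold sperF
    simp only [map_add, map_mul, map_pow, map_neg, Complex.conj_I, Complex.conj_ofReal,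
      Complex.conj_conj, map_div₀, map_ofNat]
    ring
  unfold sperF at h2 h3 h4
  linear_combination h4 + (3 / 2 * (μ : ℂ) ^ 2 * (s : ℂ)) * h2c +
    (-(2 * (Complex.I * (μ : ℂ)))) * h3 - (3 / 2 * (μ : ℂ) ^ 2) * h2 +
    (4 * (μ : ℂ) ^ 2 * V2) * hI - ((μ : ℂ) ^ 4 * V0) * hresc

/-- Proof.  Let `z t = z₀ e^{i μ t}`, `|z t| = |z₀|`, `M / |z|³ = μ²`, and let `(b, b₁)` be a solution of
`LSol M s T z`.  In the rotating frame `V = b / z`, `V₁ = b₁ / z - i μ V`: `V' = V₁`,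
`V₁' = V₂ := - 2 i μ V₁ + μ² ((3 / 2) V + (3 / 2) s conj V)`, and `V₂' = V₃ := - 2 i μ V₂ + μ² ((3 / 2) V₁ +
(3 / 2) s conj V₁)`, `V₃' = V₄ := - 2 i μ V₃ + μ² ((3 / 2) V₂ + (3 / 2) s conj V₂)`, and pure algebra (eliminate
`conj V`, `conj V₁`, `conj V₂` with the conjugate equations) gives
`V₄ + μ² V₂ + (9 / 4) (1 - s²) μ⁴ V = 0`, where `(9 / 4) (1 - s²) = r² (1 - r²)` by `hres`.
Put `ρ = √(1 - r²)`, `ρ² = 1 - r²`, `W = V₂ + μ² r² V`, `W' = V₃ + μ² r² V₁`, `W'' = - μ² ρ² W`.  So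
`(W' + i μ ρ W) e^{- i μ ρ t}` and `(W' - i μ ρ W) e^{i μ ρ t}` are constant on `[0, T]`, and by `h2`
`W T = W 0`, `W' T = W' 0` (`ρ ≠ 0`, `μ ≠ 0`).  In the same way (with `r`, `h1`) for
`Z = V₂ + μ² ρ² V`, `Z'' = - μ² r² Z`.  The difference `W - Z = μ² (2 r² - 1) V`: so `V T = V 0`,
`V₁ T = V₁ 0` (`hr2`).  Hence `b T = z T V T = u z₀ V 0 = u b 0` and `b₁ T = u b₁ 0`:
`B (b 0, b₁ 0) = (b 0, b₁ 0)`, and by `exists_lsol` (MBlk.lean; `circ_ksol` in MNo.lean shows that the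
circular orbit is a `KSol`, copy that proof) `B = id`.  So `cp B` is the characteristic polynomial of the
identity of a real space of dimension `4`. -/
theorem circ_per {M T μ s r : ℝ} {z₀ u : ℂ} (hM : 0 < M) (hT : 0 < T)
    (hμ : μ ^ 2 * ‖z₀‖ ^ 3 = M) (hu : u = Complex.exp ((μ * T : ℝ) * Complex.I))
    {B : (ℂ × ℂ) →L[ℝ] (ℂ × ℂ)}
    (hB : IsMono M s T (fun t => z₀ * Complex.exp ((μ * t : ℝ) * Complex.I)) u B)
    (hr : 0 < r) (hr1 : r < 1) (hr2 : r ^ 2 ≠ 1 / 2)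
    (hres : r ^ 4 - r ^ 2 + 9 / 4 * (1 - s ^ 2) = 0)
    (h1 : Complex.exp (Complex.I * ((r * μ * T : ℝ) : ℂ)) = 1)
    (h2 : Complex.exp (Complex.I * ((Real.sqrt (1 - r ^ 2) * μ * T : ℝ) : ℂ)) = 1) :
    cp B = (X - 1) ^ 4 := by
  have hμ0 : μ ≠ 0 := by
    rintro rfl
    rw [zero_pow two_ne_zero, zero_mul] at hμ
    exact hM.ne hμ
  have hz₀ : z₀ ≠ 0 := by
    rintro rfl
    rw [norm_zero, zero_pow three_ne_zero, mul_zero] at hμ
    exact hM.ne hμ
  have hnz : ‖z₀‖ ≠ 0 := norm_ne_zero_iff.2 hz₀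
  have hu0 : u ≠ 0 := by
    rw [hu]
    exact Complex.exp_ne_zero _
  have hr1' : 0 < 1 - r ^ 2 := by nlinarith
  have hρ2 : Real.sqrt (1 - r ^ 2) ^ 2 = 1 - r ^ 2 := Real.sq_sqrt hr1'.le
  have hρ0 : Real.sqrt (1 - r ^ 2) ≠ 0 := (Real.sqrt_pos.2 hr1').ne'
  have hI : Complex.I * Complex.I = -1 := Complex.I_mul_I
  -- the rotating frame
  obtain ⟨g, hg⟩ : ∃ g : ℝ → ℂ, g = fun t : ℝ =>
      z₀⁻¹ * Complex.exp ((-((μ : ℂ) * Complex.I)) * (t : ℂ)) := ⟨_, rfl⟩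
  have hgd : ∀ t : ℝ, HasDerivAt g (-(Complex.I * (μ : ℂ)) * g t) t := by
    intro t
    have h3 : HasDerivAt (fun t : ℝ => (-((μ : ℂ) * Complex.I)) * (t : ℂ))
        ((-((μ : ℂ) * Complex.I)) * 1) t := ((hasDerivAt_id t).ofReal_comp).const_mul _
    rw [hg]
    refine (h3.cexp.const_mul z₀⁻¹).congr_deriv ?_
    ring
  have hzg : ∀ t : ℝ, z₀ * Complex.exp ((μ * t : ℝ) * Complex.I) * g t = 1 := by
    intro t
    rw [hg]
    have h3 : Complex.exp (((μ * t : ℝ) : ℂ) * Complex.I) *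
        Complex.exp ((-((μ : ℂ) * Complex.I)) * (t : ℂ)) = 1 := by
      rw [← Complex.exp_add, ← Complex.exp_zero]
      congr 1
      push_cast
      ring
    simp only
    calc z₀ * Complex.exp ((μ * t : ℝ) * Complex.I) *
        (z₀⁻¹ * Complex.exp ((-((μ : ℂ) * Complex.I)) * (t : ℂ)))
        = (z₀ * z₀⁻¹) * (Complex.exp (((μ * t : ℝ) : ℂ) * Complex.I) *
          Complex.exp ((-((μ : ℂ) * Complex.I)) * (t : ℂ))) := by push_cast; ring
      _ = 1 := by rw [h3, mul_inv_cancel₀ hz₀, mul_one]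
  have hfix : ∀ b b1, LSol M s T (fun t => z₀ * Complex.exp ((μ * t : ℝ) * Complex.I)) b b1 →
      b T = u * b 0 ∧ b1 T = u * b1 0 := by
    intro b b1 hb
    obtain ⟨V, hV⟩ : ∃ V : ℝ → ℂ, V = fun t => b t * g t := ⟨_, rfl⟩
    obtain ⟨V1, hV1⟩ : ∃ V1 : ℝ → ℂ, V1 = fun t => b1 t * g t - Complex.I * (μ : ℂ) * V t :=
      ⟨_, rfl⟩
    have dV : ∀ t ∈ Icc 0 T, HasDerivWithinAt V (V1 t) (Icc 0 T) t := by
      intro t ht
      have h3 := (hb t ht).1.mul (hgd t).hasDerivWithinAt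
      have h4 : HasDerivWithinAt V (b1 t * g t + b t * (-(Complex.I * (μ : ℂ)) * g t))
          (Icc 0 T) t := by
        rw [hV]
        exact h3
      refine h4.congr_deriv ?_
      rw [hV1, hV]
      ring
    have dV1 : ∀ t ∈ Icc 0 T, HasDerivWithinAt V1 (sperF μ s (V t) (V1 t)) (Icc 0 T) t := by
      intro t ht
      have h3 := ((hb t ht).2.mul (hgd t).hasDerivWithinAt).sub
        ((dV t ht).const_mul (Complex.I * (μ : ℂ)))
      have h4 : HasDerivWithinAt V1 (LN M s (z₀ * Complex.exp ((μ * t : ℝ) * Complex.I)) (b t) *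
          g t + b1 t * (-(Complex.I * (μ : ℂ)) * g t) - Complex.I * (μ : ℂ) * V1 t)
          (Icc 0 T) t := by
        rw [hV1] at h3 ⊢
        exact h3
      refine h4.congr_deriv ?_
      have hn : ‖z₀ * Complex.exp ((μ * t : ℝ) * Complex.I)‖ = ‖z₀‖ := by
        rw [norm_mul, Complex.norm_exp_ofReal_mul_I, mul_one]
      have hM' : M / ‖z₀‖ ^ 3 = μ ^ 2 := by
        rw [← hμ]
        field_simp
      have hz := hzg t
      have hzc := congrArg conj hz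
      rw [map_mul, map_one] at hzc
      have hcz : conj (z₀ * Complex.exp ((μ * t : ℝ) * Complex.I)) ≠ 0 := by
        intro h0
        rw [h0, zero_mul] at hzc
        exact zero_ne_one hzc
      have hdiv : z₀ * Complex.exp ((μ * t : ℝ) * Complex.I) /
          conj (z₀ * Complex.exp ((μ * t : ℝ) * Complex.I)) =
          z₀ * Complex.exp ((μ * t : ℝ) * Complex.I) * conj (g t) := by
        rw [div_eq_iff hcz]
        linear_combination (-(z₀ * Complex.exp ((μ * t : ℝ) * Complex.I))) * hzc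
      unfold LN sperF
      rw [hn, hM', hdiv]
      rw [hV1, hV]
      simp only [map_mul, Complex.ofReal_mul, Complex.ofReal_div, Complex.ofReal_ofNat,
        Complex.ofReal_pow] at hz ⊢
      linear_combination ((μ : ℂ) ^ 2 * (3 / 2 * (s : ℂ)) * conj (g t) * conj (b t)) * hz -
        ((μ : ℂ) ^ 2 * (b t) * g t) * hI
    obtain ⟨V2, hV2⟩ : ∃ V2 : ℝ → ℂ, V2 = fun t => sperF μ s (V t) (V1 t) := ⟨_, rfl⟩
    obtain ⟨V3, hV3⟩ : ∃ V3 : ℝ → ℂ, V3 = fun t => sperF μ s (V1 t) (V2 t) := ⟨_, rfl⟩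
    have dV1' : ∀ t ∈ Icc 0 T, HasDerivWithinAt V1 (V2 t) (Icc 0 T) t := by
      intro t ht
      rw [hV2]
      exact dV1 t ht
    have dV2 : ∀ t ∈ Icc 0 T, HasDerivWithinAt V2 (V3 t) (Icc 0 T) t := by
      intro t ht
      rw [hV3]
      have h3 := sperF_deriv (μ := μ) (s := s) (dV t ht) (dV1' t ht)
      rw [hV2]
      rw [hV2] at h3
      exact h3
    have dV3 : ∀ t ∈ Icc 0 T, HasDerivWithinAt V3 (sperF μ s (V2 t) (V3 t)) (Icc 0 T) t := by
      intro t ht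
      have h3 := sperF_deriv (μ := μ) (s := s) (dV1' t ht) (dV2 t ht)
      rw [hV3]
      rw [hV3] at h3
      exact h3
    have h4 : ∀ t, sperF μ s (V2 t) (V3 t) = -(μ : ℂ) ^ 2 * V2 t -
        (r : ℂ) ^ 2 * (1 - (r : ℂ) ^ 2) * (μ : ℂ) ^ 4 * V t := fun t =>
      sperF_four hres (congrFun hV2 t) (congrFun hV3 t) rfl
    have hρc : ((Real.sqrt (1 - r ^ 2) : ℝ) : ℂ) ^ 2 = 1 - (r : ℂ) ^ 2 := by
      exact_mod_cast congrArg (fun x : ℝ => (x : ℂ)) hρ2
    -- the two oscillations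
    have o1 := sper_osc (ν := Real.sqrt (1 - r ^ 2) * μ) hT (mul_ne_zero hρ0 hμ0)
      (W := fun t => V2 t + (μ : ℂ) ^ 2 * (r : ℂ) ^ 2 * V t)
      (W1 := fun t => V3 t + (μ : ℂ) ^ 2 * (r : ℂ) ^ 2 * V1 t)
      (fun t ht => (dV2 t ht).add ((dV t ht).const_mul _))
      (fun t ht => by
        refine ((dV3 t ht).add ((dV1' t ht).const_mul _)).congr_deriv ?_
        rw [h4]
        push_cast
        linear_combination (-(μ : ℂ) ^ 2 * (V2 t + (μ : ℂ) ^ 2 * (r : ℂ) ^ 2 * V t)) * (-hρc))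
      h2
    have o2 := sper_osc (ν := r * μ) hT (mul_ne_zero hr.ne' hμ0)
      (W := fun t => V2 t + (μ : ℂ) ^ 2 * (1 - (r : ℂ) ^ 2) * V t)
      (W1 := fun t => V3 t + (μ : ℂ) ^ 2 * (1 - (r : ℂ) ^ 2) * V1 t)
      (fun t ht => (dV2 t ht).add ((dV t ht).const_mul _))
      (fun t ht => by
        refine ((dV3 t ht).add ((dV1' t ht).const_mul _)).congr_deriv ?_
        rw [h4]
        push_cast
        ring)
      h1
    have hk : (μ : ℂ) ^ 2 * (2 * (r : ℂ) ^ 2 - 1) ≠ 0 := by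
      have h5 : μ ^ 2 * (2 * r ^ 2 - 1) ≠ 0 := by
        refine mul_ne_zero (pow_ne_zero 2 hμ0) fun h6 => hr2 ?_
        linarith
      exact_mod_cast h5
    have eV : V T = V 0 := by
      refine sub_eq_zero.1 ((mul_eq_zero.1 ?_).resolve_left hk)
      have a1 := o1.1
      have a2 := o2.1
      linear_combination a1 - a2
    have eV1 : V1 T = V1 0 := by
      refine sub_eq_zero.1 ((mul_eq_zero.1 ?_).resolve_left hk)
      have a1 := o1.2
      have a2 := o2.2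
      linear_combination a1 - a2
    have hgT : u * g T = g 0 := by
      have a1 := hzg T
      have a2 := hzg 0
      rw [← hu] at a1
      simp only [mul_zero, Complex.ofReal_zero, zero_mul, Complex.exp_zero, mul_one] at a2
      have a3 : z₀ * (u * g T) = z₀ * g 0 := by
        rw [a2, ← mul_assoc, a1]
      exact mul_left_cancel₀ hz₀ a3
    have hg0 : g T ≠ 0 := by
      intro h0
      have a1 := hzg T
      rw [h0, mul_zero] at a1
      exact zero_ne_one a1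
    have eb : b T = u * b 0 := by
      have a1 : b T * g T = b 0 * g 0 := by
        have a2 := eV
        rw [hV] at a2
        exact a2
      refine mul_right_cancel₀ hg0 ?_
      rw [a1, ← hgT]
      ring
    have eb1 : b1 T = u * b1 0 := by
      have a1 : b1 T * g T = b1 0 * g 0 := by
        have a2 := eV1
        rw [hV1] at a2
        simp only at a2
        rw [eV] at a2
        exact sub_left_injective a2
      refine mul_right_cancel₀ hg0 ?_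
      rw [a1, ← hgT]
      ring
    exact ⟨eb, eb1⟩
  have hK : KSol M T (fun t => z₀ * Complex.exp ((μ * t : ℝ) * Complex.I))
      (fun t => (μ : ℂ) * Complex.I * (z₀ * Complex.exp ((μ * t : ℝ) * Complex.I))) :=
    sper_ksol hz₀ hμ
  have hid : ∀ p : ℂ × ℂ, B p = p := by
    intro p
    obtain ⟨b, b1, hb, hb0, hb1⟩ := exists_lsol (s := s) hT.le hK p
    have h3 := hB b b1 hb
    obtain ⟨e1, e2⟩ := hfix b b1 hb
    rw [e1, e2, inv_mul_cancel_left₀ hu0, inv_mul_cancel_left₀ hu0, hb0, hb1] at h3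
    exact h3
  have hone : ((B : (ℂ × ℂ) →L[ℝ] (ℂ × ℂ)) : (ℂ × ℂ) →ₗ[ℝ] (ℂ × ℂ)) = 1 :=
    LinearMap.ext fun p => hid p
  unfold cp
  rw [hone, LinearMap.charpoly_one, Module.finrank_prod, Complex.finrank_real_complex]


/-- Proof.  `z t = z₀ e^{i μ t}`, `M / |z|³ = μ²`.  `a = i z`, `a₁ = i (i μ z) = - μ z` satisfy `LSol M 1 T z a a₁`:
`a' = a₁`, `a₁' = - i μ² z`, and `LN M 1 z (i z) = μ² (i z / 2 - (3 / 2) i z) = - i μ² z`.  So
`A (a 0, a₁ 0) = u⁻¹ (a T, a₁ T) = (a 0, a₁ 0)`, a fixed vector `≠ 0`: `1` is a root of `cp A` (e.g. `root_of_plane`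
of LinNFa.lean with `l = 1`, `y = 0`, or `LinearMap.charpoly` and eigenvalues). -/
theorem circ_one {M T μ : ℝ} {z₀ u : ℂ} (hM : 0 < M) (hT : 0 < T)
    (hμ : μ ^ 2 * ‖z₀‖ ^ 3 = M) (hu : u = Complex.exp ((μ * T : ℝ) * Complex.I))
    {A : (ℂ × ℂ) →L[ℝ] (ℂ × ℂ)}
    (hA : IsMono M 1 T (fun t => z₀ * Complex.exp ((μ * t : ℝ) * Complex.I)) u A) :
    (cp A).eval 1 = 0 := by
  have hz₀ : z₀ ≠ 0 := by
    rintro rfl
    rw [norm_zero, zero_pow three_ne_zero, mul_zero] at hμ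
    exact hM.ne hμ
  have hu0 : u ≠ 0 := by
    rw [hu]
    exact Complex.exp_ne_zero _
  have hI : Complex.I * Complex.I = -1 := Complex.I_mul_I
  have hK := sper_ksol (T := T) hz₀ hμ
  have hL : LSol M 1 T (fun t => z₀ * Complex.exp ((μ * t : ℝ) * Complex.I))
      (fun t => Complex.I * (z₀ * Complex.exp ((μ * t : ℝ) * Complex.I)))
      (fun t => Complex.I * ((μ : ℂ) * Complex.I * (z₀ * Complex.exp ((μ * t : ℝ) * Complex.I)))) := by
    intro t ht
    obtain ⟨h0, h1, h2⟩ := hK t ht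
    exact ⟨h1.const_mul Complex.I, (h2.const_mul Complex.I).congr_deriv (sper_ln M h0)⟩
  have h3 := hA _ _ hL
  have hexp0 : Complex.exp ((μ * (0 : ℝ) : ℝ) * Complex.I) = 1 := by
    rw [mul_zero, Complex.ofReal_zero, zero_mul, Complex.exp_zero]
  have hfix : A (Complex.I * z₀, Complex.I * ((μ : ℂ) * Complex.I * z₀)) =
      (Complex.I * z₀, Complex.I * ((μ : ℂ) * Complex.I * z₀)) := by
    simp only [hexp0, mul_one, ← hu] at h3
    rw [h3]
    refine Prod.ext ?_ ?_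
    · show u⁻¹ * (Complex.I * (z₀ * u)) = Complex.I * z₀
      field_simp
    · show u⁻¹ * (Complex.I * ((μ : ℂ) * Complex.I * (z₀ * u))) =
        Complex.I * ((μ : ℂ) * Complex.I * z₀)
      field_simp
  have hne : (Complex.I * z₀, Complex.I * ((μ : ℂ) * Complex.I * z₀)) ≠ (0 : ℂ × ℂ) := by
    intro h0
    exact mul_ne_zero Complex.I_ne_zero hz₀ (congrArg Prod.fst h0)
  have hev : Module.End.HasEigenvalue (A : (ℂ × ℂ) →ₗ[ℝ] (ℂ × ℂ)) 1 := by
    refine Module.End.hasEigenvalue_of_hasEigenvector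
      (x := (Complex.I * z₀, Complex.I * ((μ : ℂ) * Complex.I * z₀))) ?_
    refine ⟨Module.End.mem_eigenspace_iff.2 ?_, hne⟩
    rw [one_smul]
    exact hfix
  exact (Module.End.hasEigenvalue_iff_isRoot_charpoly _ _).1 hev


end Pool.Agent.MP_5027f4_cont
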