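import Pool.Agent.Lib_MP_5027f4_cont.SDefs
import Pool.Agent.Lib_MP_5027f4_cont.MNo

/-!
PIECE [SSeq] (MP_5027f4_mp, block S).  The sequence of relative periodic orbits in scaled coordinates.
-/

open Set Filter Topology Metric Polynomial
open scoped ComplexConjugate ContDiff
open Pool.Agent.MP_5027f4_mp
open Pool.Agent.MP_5027f4_ell (Tri Shape cc coord Mt sg sm Nn Gz epsf kapf vf Bs IsFund Mat hf F1 F2)

namespace Pool.Agent.MP_5027f4_cont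

variable {m : Fin 3 → ℝ} {ϖ : ℂ} {S : Shape} {d : Fin 3 → ℂ}
  {e : ((ℂ × ℂ) × (ℂ × ℂ)) ≃L[ℝ] comSub m}

open Complex in
/-- the eccentricity vector is constant along a Kepler solution -/
private lemma sseq_eps {M : ℝ} (hM : 0 < M) {z z1 : ℝ → ℂ} {D : Set ℝ} {t : ℝ} (h0 : z t ≠ 0)
    (hz : HasDerivWithinAt z (z1 t) D t)
    (hz1 : HasDerivWithinAt z1 (-(M : ℂ) * z t / ((‖z t‖ ^ 3 : ℝ) : ℂ)) D t) :
    HasDerivWithinAt (fun t => epsf M (z t) (z1 t)) 0 D t := by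
  have hr : 0 < ‖z t‖ := norm_pos_iff.mpr h0
  have hrC : (‖z t‖ : ℂ) ≠ 0 := ofReal_ne_zero.mpr hr.ne'
  have hMC : (M : ℂ) ≠ 0 := ofReal_ne_zero.mpr hM.ne'
  have dr : HasDerivWithinAt (fun t => (‖z t‖ : ℂ)) (((conj (z t) * z1 t).re / ‖z t‖ : ℝ) : ℂ) D t :=
    (MP_5027f4_ell.hasDerivWithinAt_norm' hz h0).ofReal_comp
  have hRG : conj (z t) * z1 t = ((conj (z t) * z1 t).re : ℂ) + (Gz (z t) (z1 t) : ℂ) * I := by
    rw [Gz]
    exact (re_add_im _).symm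
  have hzz : conj (z t) * z t = (‖z t‖ : ℂ) ^ 2 := by
    rw [← normSq_eq_conj_mul_self, normSq_eq_norm_sq]
    push_cast
    rfl
  have dG : HasDerivWithinAt (fun t => Gz (z t) (z1 t)) 0 D t := by
    have h := MP_5027f4_ell.hasDerivWithinAt_im'
      ((MP_5027f4_ell.hasDerivWithinAt_conj' hz).mul hz1)
    refine h.congr_deriv ?_
    have e1 : conj (z t) * (-(M : ℂ) * z t / ((‖z t‖ ^ 3 : ℝ) : ℂ)) = ((-M / ‖z t‖ : ℝ) : ℂ) := by
      push_cast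
      rw [show conj (z t) * (-(M : ℂ) * z t / (‖z t‖ : ℂ) ^ 3) =
        -(M : ℂ) * (conj (z t) * z t) / (‖z t‖ : ℂ) ^ 3 by ring, hzz]
      field_simp
    rw [e1, add_im, ← normSq_eq_conj_mul_self, ofReal_im, ofReal_im, add_zero]
  have dGC : HasDerivWithinAt (fun t => (Gz (z t) (z1 t) : ℂ)) ((0 : ℝ) : ℂ) D t := dG.ofReal_comp
  set R : ℝ := (conj (z t) * z1 t).re with hR
  set G : ℝ := Gz (z t) (z1 t) with hGdef
  set r : ℝ := ‖z t‖ with hrdef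
  have hz1' : z1 t = ((R : ℂ) + (G : ℂ) * I) * z t / (r : ℂ) ^ 2 := by
    rw [eq_div_iff (pow_ne_zero 2 hrC), ← hzz, ← hRG]
    ring
  have d1 : HasDerivWithinAt (fun t => z t / (‖z t‖ : ℂ))
      (((G / r ^ 2 : ℝ) : ℂ) * (I * (z t / (r : ℂ)))) D t := by
    refine HasDerivWithinAt.congr_deriv (f := fun t => z t / (‖z t‖ : ℂ)) (hz.div dr hrC)
      (Eq.symm ?_)
    simp only [← hrdef]
    conv_rhs => rw [hz1']
    push_cast
    field_simp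
    ring
  refine HasDerivWithinAt.congr_deriv (f := fun t => epsf M (z t) (z1 t))
    ((((dGC.const_mul (-I)).mul hz1).sub (d1.const_mul (M : ℂ))).div_const (M : ℂ)) ?_
  push_cast
  field_simp
  ring

private lemma sseq_const {E : Type*} [NormedAddCommGroup E] [NormedSpace ℝ E] {T : ℝ}
    {f : ℝ → E} (h : ∀ t ∈ Icc 0 T, HasDerivWithinAt f 0 (Icc 0 T) t) {t : ℝ}
    (ht : t ∈ Icc 0 T) : f t = f 0 := by
  have h0 : (0 : ℝ) ∈ Icc 0 T := ⟨le_rfl, ht.1.trans ht.2⟩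
  have h1 := Convex.norm_image_sub_le_of_norm_hasDerivWithin_le (C := 0) (f' := fun _ => (0 : E))
    h (by simp) (convex_Icc 0 T) h0 ht
  rw [zero_mul] at h1
  exact sub_eq_zero.mp (norm_le_zero_iff.mp h1)

private lemma sseq_rot {M : ℝ} {u z z1 : ℂ} (hu : ‖u‖ = 1) :
    epsf M (u * z) (u * z1) = u * epsf M z z1 := by
  have h1 : Gz (u * z) (u * z1) = Gz z z1 := by
    unfold Gz
    have h2 : conj (u * z) * (u * z1) = conj z * z1 := by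
      have h3 : conj u * u = 1 := by
        rw [← Complex.normSq_eq_conj_mul_self, Complex.normSq_eq_norm_sq, hu]
        simp
      rw [map_mul]
      linear_combination (conj z * z1) * h3
    rw [h2]
  unfold epsf
  rw [h1, norm_mul, hu, one_mul]
  ring

/-- Proof.  The solution is `x t = e ((z t, z₁ t), 0)` by `hom_stay` (MHom.lean) with a `KSol`; the
eccentricity vector is constant along it: `epsf (z T) (z₁ T) = epsf (z 0) (z₁ 0)` (`mla_kep`, `mla_const` in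
MLinkA.lean, private there, for `G > 0`: copy; for `G < 0` conjugate; or differentiate
`epsf M z z₁ = (- i G z₁ - M z / |z|) / M` directly, `G = Im (conj z z₁)` is constant; no sign of `G` is needed
then).  As `x T = Ψ y = u • y`, `z T = u z`, `z₁ T = u z₁` (`IsCo.smul`, injectivity of `e`), and
`epsf M (u z) (u z₁) = u epsf M z z₁` (`|u| = 1`).  So `(u - 1) epsf = 0`. -/
theorem hom_circ (hm : ∀ a, 0 < m a) (hϖ : ϖ ^ 2 + ϖ + 1 = 0) (hTr : Tri m ϖ S d)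
    (he : IsCo m ϖ d e) {T : ℝ} (hT : 0 < T) {u : ℂ} (hu : ‖u‖ = 1) (hu1 : u ≠ 1) {z z1 : ℂ}
    {Ψ : comSub m → comSub m} (hΨ : CMap m T (e ((z, z1), 0)) Ψ)
    (hfix : Ψ (e ((z, z1), 0)) = u • e ((z, z1), 0)) : epsf (Mt m) z z1 = 0 := by
  have hM : 0 < Mt m := MP_5027f4_ell.Mt_pos hm
  obtain ⟨x, hx, hx0, hxT⟩ := hΨ.cl.self_of_nhds
  obtain ⟨Z, Z1, hK, hZ0, hZ10, hstay⟩ := hom_stay hm hϖ hTr he hT.le hx hx0
  have hTm : T ∈ Icc 0 T := ⟨hT.le, le_rfl⟩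
  have h1 := hstay T hTm
  rw [hxT, hfix, ← he.smul] at h1
  have h2 : (u • ((z, z1), (0 : ℂ × ℂ)) : (ℂ × ℂ) × (ℂ × ℂ)) = ((Z T, Z1 T), 0) :=
    e.injective (Subtype.ext h1)
  have h3 : u * z = Z T := congrArg (fun p : (ℂ × ℂ) × (ℂ × ℂ) => p.1.1) h2
  have h4 : u * z1 = Z1 T := congrArg (fun p : (ℂ × ℂ) × (ℂ × ℂ) => p.1.2) h2
  have h5 : epsf (Mt m) (Z T) (Z1 T) = epsf (Mt m) (Z 0) (Z1 0) :=
    sseq_const (f := fun t => epsf (Mt m) (Z t) (Z1 t))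
      (fun t ht => sseq_eps hM (hK t ht).1 (hK t ht).2.1 (hK t ht).2.2) hTm
  rw [← h3, ← h4, hZ0, hZ10, sseq_rot hu] at h5
  have h6 : (u - 1) * epsf (Mt m) z z1 = 0 := by linear_combination h5
  rcases mul_eq_zero.1 h6 with h | h
  · exact absurd (sub_eq_zero.1 h) hu1
  · exact h

private lemma sseq_sc {ε : ℝ} (hε : 0 < ε) (q : V4) : sc ε (q.1, ε⁻¹ • q.2) = q := by
  rw [sc_apply]
  refine Prod.ext rfl ?_
  change ε • (ε⁻¹ • q.2) = q.2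
  rw [smul_smul, mul_inv_cancel₀ hε.ne', one_smul]

private lemma sseq_step (hm : ∀ a, 0 < m a) (hϖ : ϖ ^ 2 + ϖ + 1 = 0) (hTr : Tri m ϖ S d)
    (he : IsCo m ϖ d e) {T Ω : ℝ} (hT : 0 < T) (hΩ : Ω ≠ 0) {z₀ : ℂ} (hz₀ : z₀ ≠ 0)
    (hμ : Ω ^ 2 * ‖z₀‖ ^ 3 = Mt m) {u : ℂ} (hu : ‖u‖ = 1) (hu1 : u ≠ 1)
    {Ψ : comSub m → comSub m} {χ : ℝ[X]} (hχ : (χ.map (algebraMap ℝ ℂ)).eval (conj u) = 0) {c : ℝ}
    (hc1 : c ≠ (muE m (e ((z₀, (Ω : ℂ) * Complex.I * z₀), 0))).2)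
    (hc2 : c ≠ -(muE m (e ((z₀, (Ω : ℂ) * Complex.I * z₀), 0))).2)
    {y : comSub m} (hy0 : (e.symm y).1.1 ≠ 0) (hCM : CMap m T y Ψ) (hfix : u⁻¹ • Ψ y = y)
    (hmu : muE m y = ((muE m (e ((z₀, (Ω : ℂ) * Complex.I * z₀), 0))).1, c))
    (hcp : cp (fderiv ℝ (fun y => u⁻¹ • Ψ y) y) = χ) :
    ∃ (ε : ℝ) (p a b : V4), 0 < ε ∧ e (sc ε p) = y ∧ ‖p.2‖ = 1 ∧ max ‖a‖ ‖b‖ = 1 ∧
      CMap m T (e (sc ε p)) Ψ ∧
      Ψ (e (sc ε p)) = u • e (sc ε p) ∧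
      fderiv ℝ Ψ (e (sc ε p)) (e (sc ε a)) = u • e (sc ε (u.re • a + u.im • b)) ∧
      fderiv ℝ Ψ (e (sc ε p)) (e (sc ε b)) = u • e (sc ε (-(u.im • a) + u.re • b)) := by
  have hu0 : u ≠ 0 := by
    intro h
    rw [h, norm_zero] at hu
    exact zero_ne_one hu
  have hfix' : Ψ y = u • y := by
    rw [← hfix, smul_smul, mul_inv_cancel₀ hu0, one_smul, hfix]
  set q : V4 := e.symm y with hq
  have hey : e q = y := e.apply_symm_apply y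
  have hq2 : q.2 ≠ 0 := by
    intro h2
    have hq' : q = ((q.1.1, q.1.2), 0) := by rw [← h2]
    have hyq : y = e ((q.1.1, q.1.2), 0) := by rw [← hq', hey]
    have h3 : epsf (Mt m) q.1.1 q.1.2 = 0 := by
      refine hom_circ hm hϖ hTr he hT hu hu1 (Ψ := Ψ) ?_ ?_
      · rw [← hyq]; exact hCM
      · rw [← hyq]; exact hfix'
    have h4 := ecc_sq (z := q.1.1) (z1 := q.1.2) hm hϖ hTr he hz₀ hΩ hμ hy0 (c := c)
      (by rw [← hyq]; exact hmu)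
    obtain ⟨_, h5, h6⟩ := h4
    rw [h3, norm_zero] at h6
    have h7 : c ^ 2 = (muE m (e ((z₀, (Ω : ℂ) * Complex.I * z₀), 0))).2 ^ 2 := by
      have h8 : c ^ 2 / (muE m (e ((z₀, (Ω : ℂ) * Complex.I * z₀), 0))).2 ^ 2 = 1 := by linarith
      rw [div_eq_one_iff_eq (pow_ne_zero 2 h5)] at h8
      exact h8
    rcases sq_eq_sq_iff_eq_or_eq_neg.1 h7 with h | h
    · exact hc1 h
    · exact hc2 h
  have hε : 0 < ‖q.2‖ := norm_pos_iff.2 hq2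
  set ε : ℝ := ‖q.2‖ with hεdef
  obtain ⟨x, y', hxy, hDx, hDy⟩ := exists_plane (fderiv ℝ (fun y => u⁻¹ • Ψ y) y) (l := conj u)
    (by rw [hcp]; exact hχ)
  have hder : ∀ v, fderiv ℝ Ψ y v = u • fderiv ℝ (fun y => u⁻¹ • Ψ y) y v := by
    intro v
    have h1 : HasFDerivAt (fun y => u⁻¹ • Ψ y) (u⁻¹ • fderiv ℝ Ψ y) y :=
      hCM.an.differentiableAt.hasFDerivAt.const_smul u⁻¹
    rw [h1.fderiv]
    change _ = u • (u⁻¹ • fderiv ℝ Ψ y v)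
    rw [smul_smul, mul_inv_cancel₀ hu0, one_smul]
  rw [Complex.conj_re, Complex.conj_im] at hDx hDy
  set a1 : V4 := ((e.symm x).1, ε⁻¹ • (e.symm x).2) with ha1
  set b1 : V4 := ((e.symm y').1, ε⁻¹ • (e.symm y').2) with hb1
  have hea : e (sc ε a1) = x := by rw [ha1, sseq_sc hε, e.apply_symm_apply]
  have heb : e (sc ε b1) = y' := by rw [hb1, sseq_sc hε, e.apply_symm_apply]
  have hMpos : 0 < max ‖a1‖ ‖b1‖ := by
    rcases hxy with h | h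
    · refine lt_max_of_lt_left (norm_pos_iff.2 ?_)
      intro h0
      apply h
      rw [← hea, h0, map_zero, map_zero]
    · refine lt_max_of_lt_right (norm_pos_iff.2 ?_)
      intro h0
      apply h
      rw [← heb, h0, map_zero, map_zero]
  set μ : ℝ := max ‖a1‖ ‖b1‖ with hμdef
  have hp : e (sc ε (q.1, ε⁻¹ • q.2)) = y := by rw [sseq_sc hε, hey]
  refine ⟨ε, (q.1, ε⁻¹ • q.2), μ⁻¹ • a1, μ⁻¹ • b1, hε, hp, ?_, ?_, ?_, ?_, ?_, ?_⟩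
  · change ‖ε⁻¹ • q.2‖ = 1
    rw [norm_smul, Real.norm_of_nonneg (inv_nonneg.2 hε.le), ← hεdef, inv_mul_cancel₀ hε.ne']
  · rw [norm_smul, norm_smul, Real.norm_of_nonneg (inv_nonneg.2 hMpos.le),
      ← mul_max_of_nonneg _ _ (inv_nonneg.2 hMpos.le), ← hμdef, inv_mul_cancel₀ hMpos.ne']
  · rw [hp]; exact hCM
  · rw [hp]; exact hfix'
  · rw [hp]
    have h1 : e (sc ε (u.re • μ⁻¹ • a1 + u.im • μ⁻¹ • b1)) =
        μ⁻¹ • (u.re • x + u.im • y') := by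
      simp only [map_add, map_smul, hea, heb, smul_add]
      rw [smul_comm μ⁻¹ u.re, smul_comm μ⁻¹ u.im]
    rw [h1, map_smul, map_smul, hea, map_smul, hder, hDx]
    rw [smul_comm u μ⁻¹]
    congr 2
    rw [neg_smul, sub_neg_eq_add]
  · rw [hp]
    have h1 : e (sc ε (-(u.im • μ⁻¹ • a1) + u.re • μ⁻¹ • b1)) =
        μ⁻¹ • (-(u.im • x) + u.re • y') := by
      simp only [map_add, map_neg, map_smul, hea, heb, smul_add, smul_neg]
      rw [smul_comm μ⁻¹ u.re, smul_comm μ⁻¹ u.im]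
    rw [h1, map_smul, map_smul, heb, map_smul, hder, hDy]
    rw [smul_comm u μ⁻¹]
    congr 2
    rw [neg_smul]

/-- Proof.  Let `y₀ = e ((z₀, i Ω z₀), 0)`, `c₀` its angular momentum (`c₀ ≠ 0` by `ecc_sq`, MNo.lean).
For `j : ℕ` use `hacc` with `𝒱 = ball y₀ (1 / (j + 1)) ∩ {y | CMap m T y Ψ}` (`CMap.near`) and
`hcn.eventually_ne`: there are `n` with `cn n ≠ - c₀` and `y = y_j` as in `hacc`.  Write
`y = e ((z, z₁), (w, w₁))`.  Then `(w, w₁) ≠ 0`: else `hom_circ` gives `epsf = 0`, so `cn n ^ 2 = c₀ ^ 2` by `ecc_sq`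
(`z ≠ 0`: for `j` large, `z` is near `z₀`), and `cn n ≠ c₀` (`hne`), `cn n ≠ - c₀`, contradiction.  Let
`ε_j = ‖(w, w₁)‖ > 0`, `p_j = ((z, z₁), ε_j⁻¹ • (w, w₁))`; `e (sc ε_j p_j) = y_j`, `p_j.1 → (z₀, i Ω z₀)`, `ε_j → 0`
(continuity of `e.symm`).  `exists_plane` (LinNFa.lean) for `D = fderiv (u⁻¹ • Ψ) y_j` and `l = conj u`
(`cp D = χ`, `hχ`) gives `x, y' ≠ (0, 0)` with `D x = u.re • x + u.im • y'`, `D y' = - u.im • x + u.re • y'`; put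
`a = (sc ε_j)⁻¹ (e.symm x)`, i.e. `a = ((e.symm x).1, ε_j⁻¹ • (e.symm x).2)`, `b` in the same way and divide both by
`max ‖a‖ ‖b‖ > 0`.  So `max ‖a_j‖ ‖b_j‖ = 1`, `‖p_j.2‖ = 1`.  The sequence
`(p_j.2, a_j, b_j)` is bounded in a finite-dimensional space: take a convergent subsequence
(`tendsto_subseq_of_bounded` or `IsCompact.tendsto_subseq`); `‖w‖ = 1`, `max ‖a₀‖ ‖b₀‖ = 1` in the limit.  The
derivative of `Ψ` is `u •` the derivative of `u⁻¹ • Ψ`. -/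
theorem exists_seq (hm : ∀ a, 0 < m a) (hϖ : ϖ ^ 2 + ϖ + 1 = 0) (hTr : Tri m ϖ S d)
    (he : IsCo m ϖ d e) {T Ω : ℝ} (hT : 0 < T) (hΩ : Ω ≠ 0) {z₀ : ℂ} (hz₀ : z₀ ≠ 0)
    (hμ : Ω ^ 2 * ‖z₀‖ ^ 3 = Mt m) {u : ℂ} (hu : ‖u‖ = 1) (hu1 : u ≠ 1)
    {Ψ : comSub m → comSub m} (hΨ : CMap m T (e ((z₀, (Ω : ℂ) * Complex.I * z₀), 0)) Ψ)
    {χ : ℝ[X]} (hχ : (χ.map (algebraMap ℝ ℂ)).eval (conj u) = 0) {cn : ℕ → ℝ}
    (hcn : Tendsto cn atTop (𝓝 (muE m (e ((z₀, (Ω : ℂ) * Complex.I * z₀), 0))).2))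
    (hne : ∀ n, cn n ≠ (muE m (e ((z₀, (Ω : ℂ) * Complex.I * z₀), 0))).2)
    (hacc : ∀ 𝒱 ∈ 𝓝 (e ((z₀, (Ω : ℂ) * Complex.I * z₀), 0)), ∃ᶠ n in atTop, ∃ y ∈ 𝒱,
      u⁻¹ • Ψ y = y ∧ muE m y = ((muE m (e ((z₀, (Ω : ℂ) * Complex.I * z₀), 0))).1, cn n) ∧
      cp (fderiv ℝ (fun y => u⁻¹ • Ψ y) y) = χ) :
    ∃ (ε : ℕ → ℝ) (p a b : ℕ → V4) (w : ℂ × ℂ) (a₀ b₀ : V4),
      (∀ n, 0 < ε n) ∧ Tendsto ε atTop (𝓝 0) ∧
      Tendsto p atTop (𝓝 ((z₀, (Ω : ℂ) * Complex.I * z₀), w)) ∧ w ≠ 0 ∧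
      Tendsto a atTop (𝓝 a₀) ∧ Tendsto b atTop (𝓝 b₀) ∧ (a₀ ≠ 0 ∨ b₀ ≠ 0) ∧
      ∀ n, CMap m T (e (sc (ε n) (p n))) Ψ ∧
        Ψ (e (sc (ε n) (p n))) = u • e (sc (ε n) (p n)) ∧
        fderiv ℝ Ψ (e (sc (ε n) (p n))) (e (sc (ε n) (a n))) =
          u • e (sc (ε n) (u.re • a n + u.im • b n)) ∧
        fderiv ℝ Ψ (e (sc (ε n) (p n))) (e (sc (ε n) (b n))) =
          u • e (sc (ε n) (-(u.im • a n) + u.re • b n)) := by
  set y₀ : comSub m := e ((z₀, (Ω : ℂ) * Complex.I * z₀), 0) with hy₀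
  set c₀ : ℝ := (muE m y₀).2 with hc₀
  have hc₀0 : c₀ ≠ 0 :=
    (ecc_sq (c := c₀) (z := z₀) (z1 := (Ω : ℂ) * Complex.I * z₀) hm hϖ hTr he hz₀ hΩ hμ hz₀
      rfl).2.1
  have hcne : c₀ ≠ -c₀ := by
    intro h
    apply hc₀0
    linarith
  have hstep : ∀ j : ℕ, ∃ (ε : ℝ) (p a b : V4), 0 < ε ∧ dist (e (sc ε p)) y₀ < 1 / ((j : ℝ) + 1) ∧
      ‖p.2‖ = 1 ∧ max ‖a‖ ‖b‖ = 1 ∧ CMap m T (e (sc ε p)) Ψ ∧
      Ψ (e (sc ε p)) = u • e (sc ε p) ∧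
      fderiv ℝ Ψ (e (sc ε p)) (e (sc ε a)) = u • e (sc ε (u.re • a + u.im • b)) ∧
      fderiv ℝ Ψ (e (sc ε p)) (e (sc ε b)) = u • e (sc ε (-(u.im • a) + u.re • b)) := by
    intro j
    have hj : (0 : ℝ) < 1 / ((j : ℝ) + 1) := by positivity
    have hV1 : ball y₀ (1 / ((j : ℝ) + 1)) ∈ 𝓝 y₀ := ball_mem_nhds _ hj
    have hV2 : {y | CMap m T y Ψ} ∈ 𝓝 y₀ := hΨ.near
    have hV3 : {y : comSub m | (e.symm y).1.1 ≠ 0} ∈ 𝓝 y₀ := by
      have hcont : Continuous fun y : comSub m => (e.symm y).1.1 :=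
        continuous_fst.comp (continuous_fst.comp e.symm.continuous)
      have hval : (e.symm y₀).1.1 ≠ 0 := by
        rw [hy₀, e.symm_apply_apply]
        exact hz₀
      exact hcont.continuousAt.eventually_ne hval
    have hfr := hacc _ (inter_mem (inter_mem hV1 hV2) hV3)
    obtain ⟨n, ⟨y, ⟨⟨hy1, hy2⟩, hy3⟩, hfx, hmu, hcp⟩, hcn'⟩ :=
      (hfr.and_eventually (hcn.eventually_ne hcne)).exists
    obtain ⟨ε, p, a, b, h1, h2, h3, h4, h5, h6, h7, h8⟩ :=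
      sseq_step hm hϖ hTr he hT hΩ hz₀ hμ hu hu1 (Ψ := Ψ) hχ (hne n) hcn' hy3 hy2 hfx hmu hcp
    exact ⟨ε, p, a, b, h1, by rw [h2]; exact hy1, h3, h4, h5, h6, h7, h8⟩
  choose ε p a b hε hd hp2 hab hCM hfx hda hdb using hstep
  have hlim : Tendsto (fun j => e (sc (ε j) (p j))) atTop (𝓝 y₀) := by
    rw [tendsto_iff_dist_tendsto_zero]
    exact squeeze_zero (fun j => dist_nonneg) (fun j => (hd j).le)
      tendsto_one_div_add_atTop_nhds_zero_nat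
  have hlim2 : Tendsto (fun j => sc (ε j) (p j)) atTop
      (𝓝 ((z₀, (Ω : ℂ) * Complex.I * z₀), (0 : ℂ × ℂ))) := by
    have h := (e.symm.continuous.tendsto y₀).comp hlim
    rw [hy₀, e.symm_apply_apply] at h
    refine h.congr fun j => ?_
    exact e.symm_apply_apply _
  have hl1 : Tendsto (fun j => (p j).1) atTop (𝓝 (z₀, (Ω : ℂ) * Complex.I * z₀)) :=
    (continuous_fst.tendsto _).comp hlim2
  have hl2 : Tendsto (fun j => ε j • (p j).2) atTop (𝓝 (0 : ℂ × ℂ)) :=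
    (continuous_snd.tendsto _).comp hlim2
  have hl3 : Tendsto ε atTop (𝓝 0) := by
    have h := hl2.norm
    rw [norm_zero] at h
    refine h.congr fun j => ?_
    rw [norm_smul, hp2 j, mul_one, Real.norm_of_nonneg (hε j).le]
  have hbd : ∀ j, ((p j).2, (a j, b j)) ∈ closedBall (0 : (ℂ × ℂ) × (V4 × V4)) 1 := by
    intro j
    rw [mem_closedBall, dist_zero_right]
    refine max_le (hp2 j).le ?_
    change max ‖a j‖ ‖b j‖ ≤ 1
    exact (hab j).le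
  obtain ⟨L, -, φ, hφ, hL⟩ := tendsto_subseq_of_bounded isBounded_closedBall hbd
  have hφt := hφ.tendsto_atTop
  have hw : Tendsto (fun j => (p (φ j)).2) atTop (𝓝 L.1) :=
    (continuous_fst.tendsto _).comp hL
  have ha : Tendsto (fun j => a (φ j)) atTop (𝓝 L.2.1) :=
    ((continuous_fst.comp continuous_snd).tendsto _).comp hL
  have hb : Tendsto (fun j => b (φ j)) atTop (𝓝 L.2.2) :=
    ((continuous_snd.comp continuous_snd).tendsto _).comp hL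
  refine ⟨fun j => ε (φ j), fun j => p (φ j), fun j => a (φ j), fun j => b (φ j), L.1, L.2.1, L.2.2,
    fun j => hε _, hl3.comp hφt, ?_, ?_, ha, hb, ?_, fun j => ⟨hCM _, hfx _, hda _, hdb _⟩⟩
  · exact (hl1.comp hφt).prodMk_nhds hw
  · intro h0
    have h1 := hw.norm
    simp only [hp2] at h1
    have h2 : ‖L.1‖ = 1 := (tendsto_nhds_unique h1 tendsto_const_nhds)
    rw [h0, norm_zero] at h2
    exact zero_ne_one h2
  · by_contra hcon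
    push Not at hcon
    have h1 := ha.norm.max hb.norm
    simp only [hab] at h1
    have h2 : max ‖L.2.1‖ ‖L.2.2‖ = 1 := tendsto_nhds_unique h1 tendsto_const_nhds
    rw [hcon.1, hcon.2, norm_zero, max_self] at h2
    exact zero_ne_one h2

end Pool.Agent.MP_5027f4_cont
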