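import Pool.Agent.Lib_MP_5027f4_cont.QDefs
import Pool.Agent.Lib_MP_5027f4_cont.MDefs

/-!
PIECE [SSpec] (MP_5027f4_mp, block S).  The rotation factor is a simple multiplier.
-/

open Set Filter Topology Metric Polynomial
open scoped ComplexConjugate ContDiff
open Pool.Agent.MP_5027f4_mp

namespace Pool.Agent.MP_5027f4_cont

private theorem sspec_aux {P Q : ℂ[X]} {a b c d : ℂ}
    (h : (X - 1) ^ 4 * ((X - C a) * ((X - C b) * ((X - C c) * (X - C d)))) = P * Q)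
    (h1 : a ≠ 1) (hab : a ≠ b) (hac : a ≠ c) (had : a ≠ d) (hA : P.eval a = 0) :
    Q.eval a ≠ 0 := by
  intro hB
  obtain ⟨A', rfl⟩ := dvd_iff_isRoot.2 hA
  obtain ⟨B', rfl⟩ := dvd_iff_isRoot.2 hB
  have h2 : (X - C a) * ((X - 1) ^ 4 * ((X - C b) * ((X - C c) * (X - C d)))) =
      (X - C a) * ((X - C a) * (A' * B')) := by
    linear_combination h
  have h3 := mul_left_cancel₀ (X_sub_C_ne_zero a) h2
  have h4 := congrArg (eval a) h3
  simp only [eval_mul, eval_pow, eval_sub, eval_X, eval_one, eval_C, sub_self, zero_mul] at h4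
  exact mul_ne_zero (pow_ne_zero _ (sub_ne_zero.2 h1)) (mul_ne_zero (sub_ne_zero.2 hab)
    (mul_ne_zero (sub_ne_zero.2 hac) (sub_ne_zero.2 had))) h4

/-- Proof.  `u` is a root of `(X - 1)^4 q`, `u ≠ 1`, so it is a root of `q`: with `Roots2 q l₁ l₂`,
`u ∈ {l₁, l₁⁻¹, l₂, l₂⁻¹}`, so `u² ≠ 1` by `NonRes2`.  `cA` is real, so `cA (conj u) = 0`
(`Polynomial.eval_map`, `Polynomial.hom_eval₂` with `starRingEnd ℂ`).  The four roots of `q` are distinct
(`NonRes2`, `l⁻¹ = conj l`), so `conj u` is a simple root of the product `(X - 1)^4 q = cA cB`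
(derivative at `conj u` nonzero, `conj u ≠ 1`); if `cB (conj u) = 0` then the derivative of the product
vanishes at `conj u`. -/
theorem spec_simple {q cA cB : ℝ[X]} (h : (X - 1) ^ 4 * q = cA * cB) (hq : Ell2 q) {u : ℂ}
    (hu1 : u ≠ 1) (hA : (cA.map (algebraMap ℝ ℂ)).eval u = 0) :
    u ^ 2 ≠ 1 ∧ (cA.map (algebraMap ℝ ℂ)).eval (conj u) = 0 ∧
      (cB.map (algebraMap ℝ ℂ)).eval (conj u) ≠ 0 := by
  obtain ⟨l₁, l₂, n1, n2, ⟨r1, r2, r3, r4⟩, hr⟩ := hq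
  have hm : (X - 1) ^ 4 * ((X - C l₁) * (X - C l₁⁻¹) * ((X - C l₂) * (X - C l₂⁻¹))) =
      cA.map (algebraMap ℝ ℂ) * cB.map (algebraMap ℝ ℂ) := by
    rw [← hr, ← Polynomial.map_mul, ← h, Polynomial.map_mul, Polynomial.map_pow,
      Polynomial.map_sub, Polynomial.map_X, Polynomial.map_one]
  have z1 : l₁ ≠ 0 := by
    rintro rfl
    rw [norm_zero] at n1
    exact zero_ne_one n1
  have z2 : l₂ ≠ 0 := by
    rintro rfl
    rw [norm_zero] at n2
    exact zero_ne_one n2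
  have c1 : conj l₁ = l₁⁻¹ := (Complex.inv_eq_conj n1).symm
  have c2 : conj l₂ = l₂⁻¹ := (Complex.inv_eq_conj n2).symm
  have c1' : conj l₁⁻¹ = l₁ := by rw [← c1, Complex.conj_conj]
  have c2' : conj l₂⁻¹ = l₂ := by rw [← c2, Complex.conj_conj]
  have f1 : l₁ ≠ l₁⁻¹ := fun h0 => r1 (by
    rw [sq]
    nth_rewrite 2 [h0]
    exact mul_inv_cancel₀ z1)
  have f2 : l₂ ≠ l₂⁻¹ := fun h0 => r2 (by
    rw [sq]
    nth_rewrite 2 [h0]
    exact mul_inv_cancel₀ z2)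
  have f4 : l₁⁻¹ ≠ l₂⁻¹ := fun h0 => r3 (inv_injective h0)
  have f5 : l₁ ≠ l₂⁻¹ := fun h0 => r4 (by rw [h0, inv_mul_cancel₀ z2])
  have f6 : l₁⁻¹ ≠ l₂ := fun h0 => r4 (by rw [← h0, mul_inv_cancel₀ z1])
  have hu : u = l₁ ∨ u = l₁⁻¹ ∨ u = l₂ ∨ u = l₂⁻¹ := by
    have h4 := congrArg (eval u) hm
    simp only [eval_mul, eval_pow, eval_sub, eval_X, eval_one, eval_C, hA, zero_mul] at h4
    have h5 := (mul_eq_zero.1 h4).resolve_left (pow_ne_zero _ (sub_ne_zero.2 hu1))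
    rcases mul_eq_zero.1 h5 with h6 | h6
    · rcases mul_eq_zero.1 h6 with h7 | h7
      · exact Or.inl (sub_eq_zero.1 h7)
      · exact Or.inr (Or.inl (sub_eq_zero.1 h7))
    · rcases mul_eq_zero.1 h6 with h7 | h7
      · exact Or.inr (Or.inr (Or.inl (sub_eq_zero.1 h7)))
      · exact Or.inr (Or.inr (Or.inr (sub_eq_zero.1 h7)))
  have hconj : (cA.map (algebraMap ℝ ℂ)).eval (conj u) = 0 := by
    rw [Polynomial.eval_map_algebraMap] at hA ⊢
    rw [Polynomial.aeval_conj, hA, map_zero]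
  have hv1 : conj u ≠ 1 := by
    intro h0
    apply hu1
    rw [← Complex.conj_conj u, h0, map_one]
  refine ⟨?_, hconj, ?_⟩
  · rcases hu with rfl | rfl | rfl | rfl
    · exact r1
    · intro h0
      rw [inv_pow, inv_eq_one] at h0
      exact r1 h0
    · exact r2
    · intro h0
      rw [inv_pow, inv_eq_one] at h0
      exact r2 h0
  · rcases hu with rfl | rfl | rfl | rfl
    · rw [c1] at hconj hv1 ⊢
      refine sspec_aux (b := u) (c := l₂) (d := l₂⁻¹) ?_ hv1 f1.symm f6 f4 hconj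
      rw [← hm]
      ring
    · rw [c1'] at hconj hv1 ⊢
      refine sspec_aux (b := l₁⁻¹) (c := l₂) (d := l₂⁻¹) ?_ hv1 f1 r3 f5 hconj
      rw [← hm]
      ring
    · rw [c2] at hconj hv1 ⊢
      refine sspec_aux (b := u) (c := l₁) (d := l₁⁻¹) ?_ hv1 f2.symm f5.symm f4.symm hconj
      rw [← hm]
      ring
    · rw [c2'] at hconj hv1 ⊢
      refine sspec_aux (b := l₂⁻¹) (c := l₁) (d := l₁⁻¹) ?_ hv1 f2 r3.symm f6.symm hconj
      rw [← hm]
      ring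

end Pool.Agent.MP_5027f4_cont
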