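import Pool.Agent.Lib_MP_5027f4_cont.SFin
import Pool.Agent.Lib_MP_5027f4_cont.SNon
import Pool.Agent.Lib_MP_5027f4_cont.SSeq
import Pool.Agent.Lib_MP_5027f4_cont.SPer
import Pool.Agent.Lib_MP_5027f4_cont.SSpec
import Pool.Agent.Lib_MP_5027f4_cont.SBack
import Pool.Agent.Lib_MP_5027f4_cont.SCon
import Pool.Agent.Lib_MP_5027f4_cont.SLim

/-!
# No accumulation of relative periodic orbits at an equilateral relative equilibrium (block S)
-/

open Set Filter Topology Metric Polynomial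
open scoped ComplexConjugate ContDiff
open Pool.Agent.MP_5027f4_mp
open Pool.Agent.MP_5027f4_ell (Tri Shape cc coord Mt sg sm Nn Gz epsf kapf vf Bs IsFund Mat hf F1 F2)

namespace Pool.Agent.MP_5027f4_cont

variable {m : Fin 3 → ℝ} {ϖ : ℂ} {S : Shape} {d : Fin 3 → ℂ}
  {e : ((ℂ × ℂ) × (ℂ × ℂ)) ≃L[ℝ] comSub m}

theorem sc_injective {ε : ℝ} (hε : ε ≠ 0) : Function.Injective (sc ε) := by
  intro p q h
  rw [sc_apply, sc_apply, Prod.mk.injEq] at h
  exact Prod.ext h.1 (smul_right_injective _ hε h.2)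

theorem sc_smul (ε : ℝ) (u : ℂ) (p : V4) : sc ε (u • p) = u • sc ε p := by
  rw [sc_apply, sc_apply]
  refine Prod.ext rfl ?_
  change ε • (u • p.2) = u • (ε • p.2)
  rw [smul_comm]

theorem zc_zero (z₀ : ℂ) (Ω : ℝ) : zc z₀ Ω 0 = z₀ := by simp [zc]

theorem zc_ne {z₀ : ℂ} (hz₀ : z₀ ≠ 0) (Ω t : ℝ) : zc z₀ Ω t ≠ 0 :=
  mul_ne_zero hz₀ (Complex.exp_ne_zero _)

/-- the limit curve is a solution of the scaled system at `ε = 0` -/
theorem solves_Xc {S : Shape} (hS : S.Good) {Ω T : ℝ} {z₀ : ℂ} (hz₀ : z₀ ≠ 0)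
    (hμ : Ω ^ 2 * ‖z₀‖ ^ 3 = S.M) {v v1 : ℝ → ℂ} (hv : LSol S.M S.s T (zc z₀ Ω) v v1) :
    Solves (VS S) (SD S) (Icc 0 T) (Xc z₀ Ω v v1) := by
  have hks : KSol S.M T (zc z₀ Ω) (fun t => (Ω : ℂ) * Complex.I * zc z₀ Ω t) := circ_ksol hz₀ hμ
  intro t ht
  have hz : zc z₀ Ω t ≠ 0 := zc_ne hz₀ Ω t
  refine ⟨mem_SD_zero S hz, ?_⟩
  have h1 : VS S (Xc z₀ Ω v v1 t) = (0, (((Ω : ℂ) * Complex.I * zc z₀ Ω t,
      -((S.M : ℂ) * cub (zc z₀ Ω t))), (v1 t, LN S.M S.s (zc z₀ Ω t) (v t)))) := by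
    change ((0 : ℝ), gs S 0 ((zc z₀ Ω t, (Ω : ℂ) * Complex.I * zc z₀ Ω t), (v t, v1 t))) = _
    rw [gs_zero hS (p := ((zc z₀ Ω t, (Ω : ℂ) * Complex.I * zc z₀ Ω t), (v t, v1 t))) hz]
  rw [h1]
  obtain ⟨-, hk1, hk2⟩ := hks t ht
  have hk2' : HasDerivWithinAt (fun t => (Ω : ℂ) * Complex.I * zc z₀ Ω t)
      (-((S.M : ℂ) * cub (zc z₀ Ω t))) (Icc 0 T) t := by
    refine hk2.congr_deriv ?_
    unfold cub
    ring
  exact (hasDerivWithinAt_const t (Icc 0 T) (0 : ℝ)).prodMk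
    ((hk1.prodMk hk2').prodMk ((hv t ht).1.prodMk (hv t ht).2))

/-- **The case of rotation number different from one.** -/
theorem special_contra (hm : ∀ a, 0 < m a) (hϖ : ϖ ^ 2 + ϖ + 1 = 0) (hTr : Tri m ϖ S d)
    (he : IsCo m ϖ d e) {T Ω : ℝ} (hT : 0 < T) (hΩ : Ω ≠ 0) {z₀ : ℂ} (hz₀ : z₀ ≠ 0)
    (hμ : Ω ^ 2 * ‖z₀‖ ^ 3 = Mt m) {u : ℂ} (hue : u = Complex.exp ((Ω * T : ℝ) * Complex.I))
    (hu2 : u ^ 2 ≠ 1) {r : ℝ} {k : ℤ} (hr : 0 < r) (hr1 : r < 1) (hr2 : r ≠ 1 / 2)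
    (hres : r ^ 4 - r ^ 2 + 9 / 4 * (1 - sm m ^ 2) = 0) (hper : r * (Ω * T) = 2 * Real.pi * k)
    (hnr : Complex.exp (Complex.I * ((Real.sqrt (1 - r ^ 2) * Ω * T : ℝ) : ℂ)) ≠ 1)
    {Ψ : comSub m → comSub m} (hΨ : CMap m T (e ((z₀, (Ω : ℂ) * Complex.I * z₀), 0)) Ψ)
    {χ : ℝ[X]} (hχ : (χ.map (algebraMap ℝ ℂ)).eval (conj u) = 0) {cn : ℕ → ℝ}
    (hcn : Tendsto cn atTop (𝓝 (muE m (e ((z₀, (Ω : ℂ) * Complex.I * z₀), 0))).2))
    (hne : ∀ n, cn n ≠ (muE m (e ((z₀, (Ω : ℂ) * Complex.I * z₀), 0))).2)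
    (hacc : ∀ 𝒱 ∈ 𝓝 (e ((z₀, (Ω : ℂ) * Complex.I * z₀), 0)), ∃ᶠ n in atTop, ∃ y ∈ 𝒱,
      u⁻¹ • Ψ y = y ∧ muE m y = ((muE m (e ((z₀, (Ω : ℂ) * Complex.I * z₀), 0))).1, cn n) ∧
      cp (fderiv ℝ (fun y => u⁻¹ • Ψ y) y) = χ)
    {Bm : (ℂ × ℂ) →L[ℝ] (ℂ × ℂ)} (hBm : IsMono (Mt m) (sm m) T
      (fun t => z₀ * Complex.exp ((Ω * t : ℝ) * Complex.I)) u Bm)
    (hev : ((cp Bm).map (algebraMap ℝ ℂ)).eval (conj u) ≠ 0) : False := by
  have hu : ‖u‖ = 1 := by rw [hue, Complex.norm_exp_ofReal_mul_I]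
  have hu1 : u ≠ 1 := by
    rintro rfl
    exact hu2 (one_pow 2)
  obtain ⟨ε, p, a, b, w, a₀, b₀, hε, hε0, hp, hw, ha, hb, hab, hall⟩ :=
    exists_seq hm hϖ hTr he hT hΩ hz₀ hμ hu hu1 hΨ hχ hcn hne hacc
  have hS : S.Good := hTr.good
  have hSM : S.M = Mt m := hTr.hM
  have hSs : S.s = sm m := hTr.hs
  have hM0 : S.M ≠ 0 := hS.Mpos.ne'
  have hμ' : Ω ^ 2 * ‖z₀‖ ^ 3 = S.M := by rw [hSM]; exact hμ
  have hks : KSol S.M T (zc z₀ Ω) (fun t => (Ω : ℂ) * Complex.I * zc z₀ Ω t) := circ_ksol hz₀ hμ'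
  obtain ⟨v, v1, hv, hv0, hv10⟩ := exists_lsol (s := S.s) hT.le hks w
  have hX := solves_Xc hS hz₀ hμ' hv
  have hX0 : Xc z₀ Ω v v1 0 = (0, ((z₀, (Ω : ℂ) * Complex.I * z₀), w)) := by
    unfold Xc
    rw [zc_zero, hv0, hv10]
  have hx : Tendsto (fun n => ((ε n, p n) : ℝ × V4)) atTop (𝓝 (Xc z₀ Ω v v1 0)) := by
    rw [hX0]
    exact hε0.prodMk_nhds hp
  have ha' : Tendsto (fun n => ((0, a n) : ℝ × V4)) atTop (𝓝 (0, a₀)) :=
    tendsto_const_nhds.prodMk_nhds ha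
  have hb' : Tendsto (fun n => ((0, b n) : ℝ × V4)) atTop (𝓝 (0, b₀)) :=
    tendsto_const_nhds.prodMk_nhds hb
  obtain ⟨A, B, Y, C, D, hA, hB, hA0, hB0, hev1, hunif⟩ :=
    ode_lim (isOpen_SD S) (contDiffOn_VS S) hT.le hX hx ha' hb'
  have hTm : T ∈ Icc 0 T := ⟨hT.le, le_rfl⟩
  -- the endpoint relations
  have hend : ∀ᶠ n in atTop, (Y n T).2 = u • p n ∧ (C n T).2 = u • (u.re • a n + u.im • b n) ∧
      (D n T).2 = u • (-(u.im • a n) + u.re • b n) ∧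
      ∫ t in (0 : ℝ)..T, Hc S (Y n t, C n t, D n t) = 0 := by
    filter_upwards [hev1] with n hn
    obtain ⟨hY, hY0, hC, hC0, hD, hD0⟩ := hn
    obtain ⟨hcm, hfix, hfa, hfb⟩ := hall n
    have hY01 : (Y n 0).1 = ε n := by rw [hY0]
    have hY02 : (Y n 0).2 = p n := by rw [hY0]
    have hC01 : (C n 0).1 = 0 := by rw [hC0]
    have hC02 : (C n 0).2 = a n := by rw [hC0]
    have hD01 : (D n 0).1 = 0 := by rw [hD0]
    have hD02 : (D n 0).2 = b n := by rw [hD0]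
    have hcm' : CMap m T (e (sc (ε n) (Y n 0).2)) Ψ := by rw [hY02]; exact hcm
    obtain ⟨hc1, hc2⟩ := cmap_sc hm hϖ hTr he hT hY hY01 hC hC01 hcm'
    obtain ⟨-, hd2⟩ := cmap_sc hm hϖ hTr he hT hY hY01 hD hD01 hcm'
    have hinj : ∀ p q : V4, e (sc (ε n) p) = e (sc (ε n) q) → p = q := fun p q h =>
      sc_injective (hε n).ne' (e.injective h)
    have hsm : ∀ p : V4, u • e (sc (ε n) p) = e (sc (ε n) (u • p)) := fun p => by
      rw [sc_smul, he.smul]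
    have r1 : (Y n T).2 = u • p n := by
      apply hinj
      rw [← hc1, hY02, hfix, hsm]
    have r2 : (C n T).2 = u • (u.re • a n + u.im • b n) := by
      apply hinj
      rw [← hc2, hY02, hC02, hfa, hsm]
    have r3 : (D n T).2 = u • (-(u.im • a n) + u.re • b n) := by
      apply hinj
      rw [← hd2, hY02, hD02, hfb, hsm]
    refine ⟨r1, r2, r3, ?_⟩
    refine int_id hM0 hT.le (hε n).ne' hu hY hY01 hC hC01 hD hD01 ?_ ?_ ?_
    · rw [r1, hY02]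
    · rw [r2, hC02, hD02]
    · rw [r3, hC02, hD02]
  -- the limit of the identity
  have hcX : ContinuousOn (Xc z₀ Ω v v1) (Icc 0 T) := fun t ht => (hX t ht).2.continuousWithinAt
  have hint : ∫ t in (0 : ℝ)..T, Hc S (Xc z₀ Ω v v1 t, A t, B t) = 0 := by
    refine int_lim (isOpen_SD S) hT.le (continuousOn_Hc S) hcX
      (fun t ht => (hA t ht).continuousWithinAt) (fun t ht => (hB t ht).continuousWithinAt)
      (fun t ht => (hX t ht).1) (Y := Y) (C := C) (D := D) ?_ hunif ?_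
    · filter_upwards [hev1] with n hn t ht
      exact ((hn.1 t ht).2.continuousWithinAt).prodMk
        (((hn.2.2.1 t ht).continuousWithinAt).prodMk ((hn.2.2.2.2.1 t ht).continuousWithinAt))
    · exact hend.mono fun n hn => hn.2.2.2
  -- limits at the endpoint
  have hlim : Tendsto (fun n => (Y n T, C n T, D n T)) atTop (𝓝 (Xc z₀ Ω v v1 T, A T, B T)) :=
    hunif.tendsto_at hTm
  have hlY : Tendsto (fun n => (Y n T).2) atTop (𝓝 (Xc z₀ Ω v v1 T).2) :=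
    (continuous_snd.tendsto _).comp ((continuous_fst.tendsto _).comp hlim)
  have hlC : Tendsto (fun n => (C n T).2) atTop (𝓝 (A T).2) :=
    (continuous_snd.tendsto _).comp ((continuous_fst.tendsto _).comp
      ((continuous_snd.tendsto _).comp hlim))
  have hlD : Tendsto (fun n => (D n T).2) atTop (𝓝 (B T).2) :=
    (continuous_snd.tendsto _).comp ((continuous_snd.tendsto _).comp
      ((continuous_snd.tendsto _).comp hlim))
  have hA02 : (A 0).2 = a₀ := by rw [hA0]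
  have hB02 : (B 0).2 = b₀ := by rw [hB0]
  have pX : (Xc z₀ Ω v v1 T).2 = u • ((z₀, (Ω : ℂ) * Complex.I * z₀), w) := by
    refine tendsto_nhds_unique hlY (((hp.const_smul u)).congr' ?_)
    exact hend.mono fun n hn => hn.1.symm
  have pA : (A T).2 = u • (u.re • (A 0).2 + u.im • (B 0).2) := by
    rw [hA02, hB02]
    refine tendsto_nhds_unique hlC
      ((((ha.const_smul u.re).add (hb.const_smul u.im)).const_smul u).congr' ?_)
    exact hend.mono fun n hn => hn.2.1.symm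
  have pB : (B T).2 = u • (-(u.im • (A 0).2) + u.re • (B 0).2) := by
    rw [hA02, hB02]
    refine tendsto_nhds_unique hlD
      ((((ha.const_smul u.im).neg.add (hb.const_smul u.re)).const_smul u).congr' ?_)
    exact hend.mono fun n hn => hn.2.2.1.symm
  have pv : v T = u * v 0 := by
    rw [hv0]
    exact congrArg (fun p : V4 => p.2.1) pX
  have pv1 : v1 T = u * v1 0 := by
    rw [hv10]
    exact congrArg (fun p : V4 => p.2.2) pX
  have hA01 : (A 0).1 = 0 := by rw [hA0]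
  have hB01 : (B 0).1 = 0 := by rw [hB0]
  have hRot := rot_of hS hT hΩ hμ' hue hv hA hB hA01 hB01 pv pv1 pA pB hint
  have hnz := zpart_ne hS hT hΩ hμ' hu hA hB hA01 hB01 pA pB (Bm := Bm)
    (by rw [hSM, hSs]; exact hBm) hev (by rw [hA02, hB02]; exact hab)
  rw [hSs] at hRot
  refine rot_contra hT hΩ hr hr1 hr2 hres hue hu2 hper hnr hRot ?_ ?_
  · rw [zc_zero]
    by_contra hcon
    push Not at hcon
    obtain ⟨e1, e2⟩ := hcon
    have e3 : v 0 = 0 := by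
      rcases div_eq_zero_iff.1 e1 with h | h
      · exact h
      · exact absurd h hz₀
    rw [e3] at e2
    simp only [zero_div, mul_zero, sub_zero] at e2
    have e4 : v1 0 = 0 := by
      rcases div_eq_zero_iff.1 e2 with h | h
      · exact h
      · exact absurd h hz₀
    exact hw (Prod.ext (by rw [← hv0, e3]; rfl) (by rw [← hv10, e4]; rfl))
  · rw [zc_zero]
    by_contra hcon
    push Not at hcon
    obtain ⟨e1, e2, e3, e4⟩ := hcon
    have hdiv : ∀ x : ℂ, x / z₀ = 0 → x = 0 := by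
      intro x hx
      rcases div_eq_zero_iff.1 hx with h | h
      · exact h
      · exact absurd h hz₀
    have a1 := hdiv _ e1
    have b1 := hdiv _ e3
    rw [e1, mul_zero, sub_zero] at e2
    rw [e3, mul_zero, sub_zero] at e4
    have a2 := hdiv _ e2
    have b2 := hdiv _ e4
    rcases hnz with h | h
    · exact h (Prod.ext a1 a2)
    · exact h (Prod.ext b1 b2)

/-- the hypotheses on the frequencies at an equilateral relative equilibrium -/
theorem freq_facts {s r Ω T : ℝ} {u : ℂ} {k : ℤ} (hT : 0 < T) (hΩ : Ω ≠ 0) (hs0 : 0 ≤ s)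
    (hs1 : s < 1) (hue : u = Complex.exp ((Ω * T : ℝ) * Complex.I)) (hu1 : u ≠ 1) {N : ℕ}
    (hN : 0 < N) (huN : u ^ N = 1) (hres : r ^ 4 - r ^ 2 + 9 / 4 * (1 - s ^ 2) = 0)
    (hper : r * (Ω * T) = 2 * Real.pi * k) (hr : 0 < r) :
    r < 1 ∧ r ≠ 1 / 2 ∧ r ^ 2 ≠ 1 / 2 := by
  have hs2 : s ^ 2 < 1 := by nlinarith
  have hr1 : r < 1 := by
    by_contra hcon
    push Not at hcon
    nlinarith [sq_nonneg r, mul_nonneg (sq_nonneg r) (sub_nonneg.2 (by nlinarith : (1 : ℝ) ≤ r ^ 2))]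
  refine ⟨hr1, ?_, ?_⟩
  · rintro rfl
    apply hu1
    rw [hue]
    have h1 : Ω * T = 2 * (2 * Real.pi * k) := by linarith
    have h2 : ((Ω * T : ℝ) : ℂ) * Complex.I = ((2 * k : ℤ) : ℂ) * (2 * (Real.pi : ℂ) * Complex.I) := by
      rw [h1]
      push_cast
      ring
    rw [h2, Complex.exp_int_mul_two_pi_mul_I]
  · intro h2
    rw [hue, ← Complex.exp_nat_mul] at huN
    obtain ⟨j, hj⟩ := Complex.exp_eq_one_iff.1 huN
    have h3 : (N : ℝ) * (Ω * T) = 2 * Real.pi * j := by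
      have h4 : ((N : ℝ) * (Ω * T) : ℂ) = (2 * Real.pi * j : ℂ) := by
        have h5 : (N : ℂ) * (((Ω * T : ℝ) : ℂ)) * Complex.I = (2 * Real.pi * j : ℂ) * Complex.I := by
          linear_combination hj
        have h6 := mul_right_cancel₀ Complex.I_ne_zero h5
        push_cast at h6 ⊢
        exact h6
      exact_mod_cast h4
    have hΩT : Ω * T ≠ 0 := mul_ne_zero hΩ hT.ne'
    have hπ : Real.pi ≠ 0 := Real.pi_ne_zero
    have hj0 : (j : ℝ) ≠ 0 := by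
      intro h0
      rw [h0, mul_zero] at h3
      rcases mul_eq_zero.1 h3 with h | h
      · exact hN.ne' (by exact_mod_cast h)
      · exact hΩT h
    -- `r = k N / j`
    have h4 : r * j = k * N := by
      have h5 : 2 * Real.pi * (r * j) = 2 * Real.pi * (k * N) := by
        calc 2 * Real.pi * (r * j) = r * (2 * Real.pi * j) := by ring
          _ = r * ((N : ℝ) * (Ω * T)) := by rw [h3]
          _ = (r * (Ω * T)) * N := by ring
          _ = 2 * Real.pi * (k * N) := by rw [hper]; ring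
      exact mul_left_cancel₀ (mul_ne_zero two_ne_zero hπ) h5
    have h6 : r = (((k * N : ℚ) / j : ℚ) : ℝ) := by
      push_cast
      rw [eq_div_iff hj0]
      exact_mod_cast h4
    set c : ℚ := (k * N : ℚ) / j with hc
    rw [h6] at h2
    have h7 : (c : ℝ) ^ 2 * 2 = 1 := by rw [h2]; norm_num
    have h8 : c ^ 2 * 2 = 1 := by exact_mod_cast h7
    have h9 : (2 * (c : ℝ)) ^ 2 = 2 := by nlinarith
    have h10 : |2 * (c : ℝ)| = Real.sqrt 2 := by
      rw [← Real.sqrt_sq_eq_abs, h9]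
    have h11 : Irrational (Real.sqrt 2) := irrational_sqrt_two
    apply h11
    refine ⟨|2 * c|, ?_⟩
    rw [← h10]
    push_cast
    rfl

end Pool.Agent.MP_5027f4_cont
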