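import Pool.Agent.Lib_MP_5027f4_cont.SZer

/-!
PIECE [SRot] (MP_5027f4_mp, block S).  Limit data in the rotating frame.
-/

open Set Filter Topology Metric Polynomial
open scoped ComplexConjugate ContDiff
open Pool.Agent.MP_5027f4_mp
open Pool.Agent.MP_5027f4_ell (Tri Shape cc coord Mt sg sm Nn Gz epsf kapf vf Bs IsFund Mat hf F1 F2)

namespace Pool.Agent.MP_5027f4_cont

/-- the circular orbit -/
noncomputable def zc (z₀ : ℂ) (Ω t : ℝ) : ℂ := z₀ * Complex.exp ((Ω * t : ℝ) * Complex.I)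

/-- the limit solution -/
noncomputable def Xc (z₀ : ℂ) (Ω : ℝ) (v v1 : ℝ → ℂ) (t : ℝ) : ℝ × V4 :=
  (0, ((zc z₀ Ω t, (Ω : ℂ) * Complex.I * zc z₀ Ω t), (v t, v1 t)))


private theorem sr_zc_ne {z₀ : ℂ} (h : z₀ ≠ 0) (Ω t : ℝ) : zc z₀ Ω t ≠ 0 :=
  mul_ne_zero h (Complex.exp_ne_zero _)

private theorem sr_norm_zc (z₀ : ℂ) (Ω t : ℝ) : ‖zc z₀ Ω t‖ = ‖z₀‖ := by
  unfold zc
  rw [norm_mul, Complex.norm_exp_ofReal_mul_I, mul_one]

private theorem sr_hasDeriv_zc (z₀ : ℂ) (Ω t : ℝ) :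
    HasDerivAt (fun t : ℝ => zc z₀ Ω t) (Complex.I * (Ω : ℂ) * zc z₀ Ω t) t := by
  have h1 : HasDerivAt (fun t : ℝ => ((Ω * t : ℝ) : ℂ) * Complex.I) ((Ω : ℂ) * Complex.I) t := by
    have h2 : HasDerivAt (fun t : ℝ => Ω * t) Ω t := by
      simpa using (hasDerivAt_id t).const_mul Ω
    have h3 := h2.ofReal_comp
    exact h3.mul_const Complex.I
  have h4 := (h1.cexp).const_mul z₀
  unfold zc
  refine h4.congr_deriv ?_
  ring

private theorem sr_rot {z₀ : ℂ} (h : z₀ ≠ 0) {Ω T t : ℝ} {f f1 : ℝ → ℂ} {g : ℂ}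
    (hf : HasDerivWithinAt f (f1 t) (Icc 0 T) t) (hf1 : HasDerivWithinAt f1 g (Icc 0 T) t) :
    HasDerivWithinAt (fun t => f t / zc z₀ Ω t)
      (f1 t / zc z₀ Ω t - Complex.I * (Ω : ℂ) * (f t / zc z₀ Ω t)) (Icc 0 T) t ∧
    HasDerivWithinAt (fun t => f1 t / zc z₀ Ω t - Complex.I * (Ω : ℂ) * (f t / zc z₀ Ω t))
      (-(2 * Complex.I * (Ω : ℂ) *
        (f1 t / zc z₀ Ω t - Complex.I * (Ω : ℂ) * (f t / zc z₀ Ω t))) +
        (g / zc z₀ Ω t + (Ω : ℂ) ^ 2 * (f t / zc z₀ Ω t))) (Icc 0 T) t := by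
  have hq := sr_zc_ne h Ω t
  have hd := (sr_hasDeriv_zc z₀ Ω t).hasDerivWithinAt (s := Icc 0 T)
  have h1 : HasDerivWithinAt (fun t => f t / zc z₀ Ω t)
      (f1 t / zc z₀ Ω t - Complex.I * (Ω : ℂ) * (f t / zc z₀ Ω t)) (Icc 0 T) t := by
    refine (hf.fun_div hd hq).congr_deriv ?_
    field_simp
  refine ⟨h1, ?_⟩
  have h2 := hf1.fun_div hd hq
  have h3 := h2.fun_sub (h1.const_mul (Complex.I * (Ω : ℂ)))
  refine h3.congr_deriv ?_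
  have hI : Complex.I ^ 2 = -1 := Complex.I_sq
  field_simp
  linear_combination (- (Ω : ℂ) ^ 2 * f t) * hI

private theorem sr_LN {z₀ : ℂ} (h : z₀ ≠ 0) {Ω M s t : ℝ} (hμ : Ω ^ 2 * ‖z₀‖ ^ 3 = M) (w : ℂ) :
    LN M s (zc z₀ Ω t) w / zc z₀ Ω t =
      (Ω : ℂ) ^ 2 * (w / zc z₀ Ω t / 2 + 3 / 2 * (s : ℂ) * conj (w / zc z₀ Ω t)) := by
  have hq := sr_zc_ne h Ω t
  have hcq : conj (zc z₀ Ω t) ≠ 0 := (_root_.map_ne_zero _).2 hq
  have hn : ‖z₀‖ ≠ 0 := norm_ne_zero_iff.2 h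
  unfold LN
  rw [sr_norm_zc, ← hμ, mul_div_assoc (Ω ^ 2), div_self (pow_ne_zero 3 hn), mul_one, map_div₀]
  push_cast
  field_simp

private theorem sr_LD {z₀ : ℂ} (h : z₀ ≠ 0) {Ω M s t : ℝ} (hμ : Ω ^ 2 * ‖z₀‖ ^ 3 = M) (v a : ℂ) :
    LD M s (zc z₀ Ω t) v a / zc z₀ Ω t =
      (Ω : ℂ) ^ 2 * (-(3 / 4) * (a / zc z₀ Ω t + conj (a / zc z₀ Ω t)) * (v / zc z₀ Ω t) -
        3 / 4 * (s : ℂ) * (a / zc z₀ Ω t + 5 * conj (a / zc z₀ Ω t)) * conj (v / zc z₀ Ω t)) := by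
  have hq := sr_zc_ne h Ω t
  have hn : ‖z₀‖ ≠ 0 := norm_ne_zero_iff.2 h
  unfold LD
  rw [sr_norm_zc, ← hμ, mul_div_assoc (Ω ^ 2), div_self (pow_ne_zero 3 hn), mul_one]
  push_cast
  rw [mul_assoc, mul_assoc, mul_div_assoc, mul_div_cancel_left₀ _ hq]

private theorem sr_mem {S : Shape} {z₀ : ℂ} (h : z₀ ≠ 0) (Ω : ℝ) (v v1 : ℝ → ℂ) (t : ℝ) :
    Xc z₀ Ω v v1 t ∈ SD S := mem_SD_zero S (p := ((zc z₀ Ω t, (Ω : ℂ) * Complex.I * zc z₀ Ω t),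
      (v t, v1 t))) (sr_zc_ne h Ω t)

private theorem sr_fst {S : Shape} {z₀ : ℂ} (h : z₀ ≠ 0) {Ω T : ℝ} {v v1 : ℝ → ℂ}
    {A : ℝ → ℝ × V4} (hA : Jac (VS S) (Xc z₀ Ω v v1) A T) (hA0 : (A 0).1 = 0) :
    ∀ t ∈ Icc 0 T, (A t).1 = 0 := by
  have hd : ∀ t ∈ Icc 0 T, HasDerivWithinAt (fun t => (A t).1) 0 (Icc 0 T) t := by
    intro t ht
    have h1 := (ContinuousLinearMap.fst ℝ ℝ V4).hasFDerivAt.comp_hasDerivWithinAt t (hA t ht)
    refine h1.congr_deriv ?_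
    exact fderiv_VS_fst (sr_mem h Ω v v1 t) (A t)
  have hc : ContinuousOn (fun t => (A t).1) (Icc 0 T) := fun t ht => (hd t ht).continuousWithinAt
  intro t ht
  have := constant_of_has_deriv_right_zero hc (fun x hx => ?_) t ht
  · rw [this, hA0]
  · exact (hd x (Ico_subset_Icc_self hx)).mono_of_mem_nhdsWithin
      (Icc_mem_nhdsGE_of_mem hx)

private theorem sr_jac {S : Shape} (hS : S.Good) {z₀ : ℂ} (h : z₀ ≠ 0) {Ω T : ℝ} {v v1 : ℝ → ℂ}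
    {A : ℝ → ℝ × V4} (hA : Jac (VS S) (Xc z₀ Ω v v1) A T) (hA0 : (A 0).1 = 0) :
    ∀ t ∈ Icc 0 T,
      HasDerivWithinAt (fun t => (A t).2.1.1) ((fun t => (A t).2.1.2) t) (Icc 0 T) t ∧
      HasDerivWithinAt (fun t => (A t).2.1.2) (LN S.M 1 (zc z₀ Ω t) (A t).2.1.1) (Icc 0 T) t ∧
      HasDerivWithinAt (fun t => (A t).2.2.1) ((fun t => (A t).2.2.2) t) (Icc 0 T) t ∧
      HasDerivWithinAt (fun t => (A t).2.2.2) (LN S.M S.s (zc z₀ Ω t) (A t).2.2.1 +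
        LD S.M S.s (zc z₀ Ω t) (v t) (A t).2.1.1) (Icc 0 T) t := by
  intro t ht
  have hz := sr_zc_ne h Ω t
  have h0 := sr_fst h hA hA0 t ht
  have hd := hA t ht
  have hAt : A t = ((0 : ℝ), (A t).2) := Prod.ext h0 rfl
  have key : fderiv ℝ (VS S) (Xc z₀ Ω v v1 t) (A t) = (0, (((A t).2.1.2,
      LN S.M 1 (zc z₀ Ω t) (A t).2.1.1), ((A t).2.2.2, LN S.M S.s (zc z₀ Ω t) (A t).2.2.1 +
        LD S.M S.s (zc z₀ Ω t) (v t) (A t).2.1.1))) := by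
    conv_lhs => rw [hAt]
    have hm := sr_mem (S := S) h Ω v v1 t
    unfold Xc at hm ⊢
    rw [fderiv_VS hm (A t).2, fderiv_gs_zero hS (p := ((zc z₀ Ω t, (Ω : ℂ) * Complex.I *
      zc z₀ Ω t), (v t, v1 t))) hz (A t).2]
  rw [key] at hd
  have hs := (ContinuousLinearMap.snd ℝ ℝ V4).hasFDerivAt.comp_hasDerivWithinAt t hd
  have hs1 := (ContinuousLinearMap.fst ℝ (ℂ × ℂ) (ℂ × ℂ)).hasFDerivAt.comp_hasDerivWithinAt t hs
  have hs2 := (ContinuousLinearMap.snd ℝ (ℂ × ℂ) (ℂ × ℂ)).hasFDerivAt.comp_hasDerivWithinAt t hs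
  exact ⟨(ContinuousLinearMap.fst ℝ ℂ ℂ).hasFDerivAt.comp_hasDerivWithinAt t hs1,
    (ContinuousLinearMap.snd ℝ ℂ ℂ).hasFDerivAt.comp_hasDerivWithinAt t hs1,
    (ContinuousLinearMap.fst ℝ ℂ ℂ).hasFDerivAt.comp_hasDerivWithinAt t hs2,
    (ContinuousLinearMap.snd ℝ ℂ ℂ).hasFDerivAt.comp_hasDerivWithinAt t hs2⟩

/-- Proof.  Put `q = zc z₀ Ω t`, `q' = i Ω q`, `|q| = |z₀|`, `M / |q|³ = Ω²`, `q (T) = u z₀`.
Derivative of `f / q`: `f' / q - i Ω f / q`.  Rotating velocities are `f₁ / q - i Ω f / q`; their derivative is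
`f₁' / q - i Ω f₁ / q - i Ω (f₁ / q - i Ω f / q) = f₁' / q - 2 i Ω (rotating velocity) + Ω² f / q`.  For the four
cases `f₁' = LN M s q v`, `LN M 1 q a`, `LN M s q c + LD M s q v a` (`Jac`, `fderiv_VS`, `fderiv_gs_zero`;
`(A t).1 = 0` as in SBack: `fderiv_VS_fst`), `LN M s q w / q = Ω² (w / q / 2 + (3 / 2) s conj (w / q))`.  The
periodicity conditions: divide by `q (T) = u z₀`.  The integral: by `fderiv_pbf_zero`
`Hc S (X t, A t, B t) = i Ω (q / |q|) (Gf … + i Gf …)`, `q / |q| = (z₀ / |z₀|) exp (i Ω t)`: divide by the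
constant `i Ω z₀ / |z₀|`. -/
theorem rot_of {S : Shape} (hS : S.Good) {Ω T : ℝ} {z₀ u : ℂ} (hT : 0 < T) (hΩ : Ω ≠ 0)
    (hμ : Ω ^ 2 * ‖z₀‖ ^ 3 = S.M) (hu : u = Complex.exp ((Ω * T : ℝ) * Complex.I))
    {v v1 : ℝ → ℂ} {A B : ℝ → ℝ × V4} (hv : LSol S.M S.s T (zc z₀ Ω) v v1)
    (hA : Jac (VS S) (Xc z₀ Ω v v1) A T) (hB : Jac (VS S) (Xc z₀ Ω v v1) B T)
    (hA0 : (A 0).1 = 0) (hB0 : (B 0).1 = 0) (pv : v T = u * v 0) (pv1 : v1 T = u * v1 0)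
    (pA : (A T).2 = u • (u.re • (A 0).2 + u.im • (B 0).2))
    (pB : (B T).2 = u • (-(u.im • (A 0).2) + u.re • (B 0).2))
    (hint : ∫ t in (0 : ℝ)..T, Hc S (Xc z₀ Ω v v1 t, A t, B t) = 0) :
    RotD S.s Ω T u (fun t => v t / zc z₀ Ω t)
      (fun t => v1 t / zc z₀ Ω t - Complex.I * (Ω : ℂ) * (v t / zc z₀ Ω t))
      (fun t => (A t).2.1.1 / zc z₀ Ω t)
      (fun t => (A t).2.1.2 / zc z₀ Ω t - Complex.I * (Ω : ℂ) * ((A t).2.1.1 / zc z₀ Ω t))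
      (fun t => (B t).2.1.1 / zc z₀ Ω t)
      (fun t => (B t).2.1.2 / zc z₀ Ω t - Complex.I * (Ω : ℂ) * ((B t).2.1.1 / zc z₀ Ω t))
      (fun t => (A t).2.2.1 / zc z₀ Ω t)
      (fun t => (A t).2.2.2 / zc z₀ Ω t - Complex.I * (Ω : ℂ) * ((A t).2.2.1 / zc z₀ Ω t))
      (fun t => (B t).2.2.1 / zc z₀ Ω t)
      (fun t => (B t).2.2.2 / zc z₀ Ω t - Complex.I * (Ω : ℂ) * ((B t).2.2.1 / zc z₀ Ω t)) := by
  have hz0 : z₀ ≠ 0 := by
    rintro rfl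
    have := hS.Mpos
    rw [← hμ] at this
    simp at this
  have hu0 : u ≠ 0 := by rw [hu]; exact Complex.exp_ne_zero _
  have hqT : zc z₀ Ω T = u * z₀ := by rw [hu]; unfold zc; ring
  have hq0 : zc z₀ Ω 0 = z₀ := by unfold zc; simp
  have JA := sr_jac hS hz0 hA hA0
  have JB := sr_jac hS hz0 hB hB0
  have hLN : ∀ (s t : ℝ) (w : ℂ), _ := fun s t w => sr_LN (s := s) (t := t) hz0 hμ w
  have hLD : ∀ (s t : ℝ) (v a : ℂ), _ := fun s t v a => sr_LD (s := s) (t := t) hz0 hμ v a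
  have e1 : ∀ x y : ℂ, x = u * y → x / zc z₀ Ω T = y / zc z₀ Ω 0 := by
    intro x y hxy
    rw [hxy, hqT, hq0, mul_div_mul_left _ _ hu0]
  have eA : ∀ x a b : ℂ, x = u * ((u.re : ℂ) * a + (u.im : ℂ) * b) → x / zc z₀ Ω T =
      (u.re : ℂ) * (a / zc z₀ Ω 0) + (u.im : ℂ) * (b / zc z₀ Ω 0) := by
    intro x a b hxy
    rw [e1 _ _ hxy]; ring
  have eB : ∀ x a b : ℂ, x = u * (-((u.im : ℂ) * a) + (u.re : ℂ) * b) → x / zc z₀ Ω T =
      -((u.im : ℂ) * (a / zc z₀ Ω 0)) + (u.re : ℂ) * (b / zc z₀ Ω 0) := by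
    intro x a b hxy
    rw [e1 _ _ hxy]; ring
  have pA11 : (A T).2.1.1 = u * ((u.re : ℂ) * (A 0).2.1.1 + (u.im : ℂ) * (B 0).2.1.1) := by
    rw [pA]; simp only [Prod.smul_fst, Prod.smul_snd, Prod.fst_add, Prod.snd_add, smul_eq_mul,
      Complex.real_smul]
  have pA12 : (A T).2.1.2 = u * ((u.re : ℂ) * (A 0).2.1.2 + (u.im : ℂ) * (B 0).2.1.2) := by
    rw [pA]; simp only [Prod.smul_fst, Prod.smul_snd, Prod.fst_add, Prod.snd_add, smul_eq_mul,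
      Complex.real_smul]
  have pA21 : (A T).2.2.1 = u * ((u.re : ℂ) * (A 0).2.2.1 + (u.im : ℂ) * (B 0).2.2.1) := by
    rw [pA]; simp only [Prod.smul_fst, Prod.smul_snd, Prod.fst_add, Prod.snd_add, smul_eq_mul,
      Complex.real_smul]
  have pA22 : (A T).2.2.2 = u * ((u.re : ℂ) * (A 0).2.2.2 + (u.im : ℂ) * (B 0).2.2.2) := by
    rw [pA]; simp only [Prod.smul_fst, Prod.smul_snd, Prod.fst_add, Prod.snd_add, smul_eq_mul,
      Complex.real_smul]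
  have pB11 : (B T).2.1.1 = u * (-((u.im : ℂ) * (A 0).2.1.1) + (u.re : ℂ) * (B 0).2.1.1) := by
    rw [pB]; simp only [Prod.smul_fst, Prod.smul_snd, Prod.fst_add, Prod.snd_add, smul_eq_mul,
      Complex.real_smul, Prod.fst_neg, Prod.snd_neg]
  have pB12 : (B T).2.1.2 = u * (-((u.im : ℂ) * (A 0).2.1.2) + (u.re : ℂ) * (B 0).2.1.2) := by
    rw [pB]; simp only [Prod.smul_fst, Prod.smul_snd, Prod.fst_add, Prod.snd_add, smul_eq_mul,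
      Complex.real_smul, Prod.fst_neg, Prod.snd_neg]
  have pB21 : (B T).2.2.1 = u * (-((u.im : ℂ) * (A 0).2.2.1) + (u.re : ℂ) * (B 0).2.2.1) := by
    rw [pB]; simp only [Prod.smul_fst, Prod.smul_snd, Prod.fst_add, Prod.snd_add, smul_eq_mul,
      Complex.real_smul, Prod.fst_neg, Prod.snd_neg]
  have pB22 : (B T).2.2.2 = u * (-((u.im : ℂ) * (A 0).2.2.2) + (u.re : ℂ) * (B 0).2.2.2) := by
    rw [pB]; simp only [Prod.smul_fst, Prod.smul_snd, Prod.fst_add, Prod.snd_add, smul_eq_mul,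
      Complex.real_smul, Prod.fst_neg, Prod.snd_neg]
  refine
    { dV := fun t ht => (sr_rot hz0 (hv t ht).1 (hv t ht).2).1
      dV1 := fun t ht => (sr_rot hz0 (hv t ht).1 (hv t ht).2).2.congr_deriv ?_
      dA := fun t ht => (sr_rot hz0 (JA t ht).1 (JA t ht).2.1).1
      dA1 := fun t ht => (sr_rot hz0 (JA t ht).1 (JA t ht).2.1).2.congr_deriv ?_
      dB := fun t ht => (sr_rot hz0 (JB t ht).1 (JB t ht).2.1).1
      dB1 := fun t ht => (sr_rot hz0 (JB t ht).1 (JB t ht).2.1).2.congr_deriv ?_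
      dC := fun t ht => (sr_rot hz0 (JA t ht).2.2.1 (JA t ht).2.2.2).1
      dC1 := fun t ht => (sr_rot hz0 (JA t ht).2.2.1 (JA t ht).2.2.2).2.congr_deriv ?_
      dD := fun t ht => (sr_rot hz0 (JB t ht).2.2.1 (JB t ht).2.2.2).1
      dD1 := fun t ht => (sr_rot hz0 (JB t ht).2.2.1 (JB t ht).2.2.2).2.congr_deriv ?_
      pV := e1 _ _ pv
      pV1 := ?_
      pA := eA _ _ _ pA11
      pA1 := ?_
      pB := eB _ _ _ pB11
      pB1 := ?_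
      pC := eA _ _ _ pA21
      pC1 := ?_
      pD := eB _ _ _ pB21
      pD1 := ?_
      int := ?_ }
  · rw [hLN]; ring
  · simp only [hLN]; push_cast; ring
  · simp only [hLN]; push_cast; ring
  · simp only [add_div, hLN, hLD]; ring
  · simp only [add_div, hLN, hLD]; ring
  · rw [e1 _ _ pv, e1 _ _ pv1]
  · simp only [eA _ _ _ pA11, eA _ _ _ pA12]; ring
  · simp only [eB _ _ _ pB11, eB _ _ _ pB12]; ring
  · simp only [eA _ _ _ pA21, eA _ _ _ pA22]; ring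
  · simp only [eB _ _ _ pB21, eB _ _ _ pB22]; ring
  · have hn : ((‖z₀‖ : ℝ) : ℂ) ≠ 0 := by exact_mod_cast norm_ne_zero_iff.2 hz0
    have hc : Complex.I * (Ω : ℂ) * (z₀ / ((‖z₀‖ : ℝ) : ℂ)) ≠ 0 :=
      mul_ne_zero (mul_ne_zero Complex.I_ne_zero (by exact_mod_cast hΩ)) (div_ne_zero hz0 hn)
    have hfun : (fun t : ℝ => Hc S (Xc z₀ Ω v v1 t, A t, B t)) = fun t : ℝ =>
        Complex.I * (Ω : ℂ) * (z₀ / ((‖z₀‖ : ℝ) : ℂ)) *
        (Complex.exp (Complex.I * (Ω : ℂ) * (t : ℂ)) *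
        (Gf S.s Ω ((A t).2.1.1 / zc z₀ Ω t) ((A t).2.1.2 / zc z₀ Ω t -
            Complex.I * (Ω : ℂ) * ((A t).2.1.1 / zc z₀ Ω t)) (v t / zc z₀ Ω t)
            ((A t).2.2.1 / zc z₀ Ω t) +
          Complex.I * Gf S.s Ω ((B t).2.1.1 / zc z₀ Ω t) ((B t).2.1.2 / zc z₀ Ω t -
            Complex.I * (Ω : ℂ) * ((B t).2.1.1 / zc z₀ Ω t)) (v t / zc z₀ Ω t)
            ((B t).2.2.1 / zc z₀ Ω t))) := by
      funext t
      have hz := sr_zc_ne hz0 Ω t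
      unfold Hc Xc
      simp only
      rw [fderiv_pbf_zero hS hΩ hz, fderiv_pbf_zero hS hΩ hz, sr_norm_zc]
      have hz' : zc z₀ Ω t / ((‖z₀‖ : ℝ) : ℂ) =
          z₀ / ((‖z₀‖ : ℝ) : ℂ) * Complex.exp (Complex.I * (Ω : ℂ) * (t : ℂ)) := by
        have : Complex.I * (Ω : ℂ) * (t : ℂ) = ((Ω * t : ℝ) : ℂ) * Complex.I := by
          push_cast; ring
        rw [this]
        unfold zc
        ring
      rw [hz']
      ring
    rw [hfun, intervalIntegral.integral_const_mul] at hint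
    exact (mul_eq_zero.1 hint).resolve_left hc

end Pool.Agent.MP_5027f4_cont
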