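import Pool.Agent.Lib_MP_5027f4_cont.SSm
import Pool.Agent.Lib_MP_5027f4_cont.MFld

/-!
PIECE [SSc] (MP_5027f4_mp, block S).  The three-body field in the scaled coordinates.
-/

open Set Filter Topology Metric Polynomial
open scoped ComplexConjugate ContDiff
open Pool.Agent.MP_5027f4_mp
open Pool.Agent.MP_5027f4_ell (Tri Shape cc coord Mt sg sm Nn Gz epsf kapf vf Bs IsFund Mat hf F1 F2)

namespace Pool.Agent.MP_5027f4_cont

variable {m : Fin 3 → ℝ} {ϖ : ℂ} {S : Shape} {d : Fin 3 → ℂ}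
  {e : ((ℂ × ℂ) × (ℂ × ℂ)) ≃L[ℝ] comSub m}

private theorem ssc_co (hm : ∀ a, 0 < m a) (hϖ : ϖ ^ 2 + ϖ + 1 = 0) (hT : Tri m ϖ S d)
    (he : IsCo m ϖ d e) {z z1 w w1 : ℂ} (hz : z ≠ 0) :
    fld₀ m (e ((z, z1), (w, w1))) =
      e ((z1, z / ((‖z‖ ^ 3 : ℝ) : ℂ) * Pool.Agent.MP_5027f4_ell.F1 S (w / z)),
        (w1, z / ((‖z‖ ^ 3 : ℝ) : ℂ) * Pool.Agent.MP_5027f4_ell.F2 S (w / z))) := by
  apply Subtype.ext
  rw [he]
  show fld m ((e ((z, z1), (w, w1)) : comSub m) : Ph) = _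
  rw [he]
  refine Prod.ext ?_ ?_
  · rfl
  · funext a
    have h1 := Pool.Agent.MP_5027f4_ell.coords_eq hm hT
      (acc m (fun a => cc m ϖ a * z + d a * w)) (sum_acc m _) a
    obtain ⟨h2, h3⟩ := Pool.Agent.MP_5027f4_ell.coord_acc hm hϖ hT z w hz
    rw [h2, h3] at h1
    exact h1

private theorem ssc_split (ε : ℝ) (p : V4) :
    sc ε p = ((p.1.1, p.1.2), ((ε : ℂ) * p.2.1, (ε : ℂ) * p.2.2)) := by
  rw [sc_apply]
  refine Prod.ext rfl (Prod.ext ?_ ?_)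
  · show ε • p.2.1 = (ε : ℂ) * p.2.1
    rw [Complex.real_smul]
  · show ε • p.2.2 = (ε : ℂ) * p.2.2
    rw [Complex.real_smul]

/-- Proof.  The sides of the triangle `e (sc ε p)` are `c_k (z + δ_k ε v) = c_k z (1 + ε δ_k v / z)`, `c_k` the
sides of `cc m ϖ` (`Tri.d0`, `d1`, `d2`, `MP_5027f4_ell.cc_diff`), nonzero because `nE ε (δ_k v / z) > 0`
(`nE_eq`). -/
theorem noColl_sc (hϖ : ϖ ^ 2 + ϖ + 1 = 0) (hT : Tri m ϖ S d) (he : IsCo m ϖ d e) {ε : ℝ} {p : V4}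
    (h : (ε, p) ∈ SD S) : e (sc ε p) ∈ noColl₀ m := by
  obtain ⟨hz, hn⟩ := h
  replace hz : p.1.1 ≠ 0 := hz
  replace hn : ∀ k, 0 < nE ε (S.δ k * (p.2.1 / p.1.1)) := hn
  obtain ⟨h0, h1, h2⟩ := Pool.Agent.MP_5027f4_ell.cc_diff m hϖ
  have hϖ0 : ϖ ≠ 0 := by
    rintro rfl
    norm_num at hϖ
  have hne : ∀ k, (1 : ℂ) + (ε : ℂ) * (S.δ k * (p.2.1 / p.1.1)) ≠ 0 := by
    intro k hk
    have h3 := hn k
    rw [nE_eq, hk] at h3
    simp at h3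
  show ((e (sc ε p) : comSub m) : Ph) ∈ noColl
  rw [he, ssc_split]
  have key : ∀ a b : Fin 3, ∀ k, d a - d b = S.δ k * (cc m ϖ a - cc m ϖ b) →
      cc m ϖ a - cc m ϖ b ≠ 0 →
      cc m ϖ a * p.1.1 + d a * ((ε : ℂ) * p.2.1) ≠ cc m ϖ b * p.1.1 + d b * ((ε : ℂ) * p.2.1) := by
    intro a b k hd hab h
    have h3 : (cc m ϖ a - cc m ϖ b) *
        (p.1.1 * (1 + (ε : ℂ) * (S.δ k * (p.2.1 / p.1.1)))) = 0 := by
      have h4 : p.1.1 * (1 + (ε : ℂ) * (S.δ k * (p.2.1 / p.1.1))) =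
          p.1.1 + S.δ k * ((ε : ℂ) * p.2.1) := by
        field_simp
      rw [h4]
      linear_combination h - (ε : ℂ) * p.2.1 * hd
    rcases mul_eq_zero.1 h3 with h4 | h4
    · exact hab h4
    · rcases mul_eq_zero.1 h4 with h5 | h5
      · exact hz h5
      · exact hne k h5
  have k01 : cc m ϖ 0 - cc m ϖ 1 ≠ 0 := by rw [h0]; exact one_ne_zero
  have k12 : cc m ϖ 1 - cc m ϖ 2 ≠ 0 := by rw [h1]; exact hϖ0
  have k20 : cc m ϖ 2 - cc m ϖ 0 ≠ 0 := by rw [h2]; exact pow_ne_zero 2 hϖ0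
  have q01 := key 0 1 0 hT.d0 k01
  have q12 := key 1 2 1 hT.d1 k12
  have q20 := key 2 0 2 hT.d2 k20
  intro a b hab
  show cc m ϖ a * p.1.1 + d a * ((ε : ℂ) * p.2.1) ≠ cc m ϖ b * p.1.1 + d b * ((ε : ℂ) * p.2.1)
  fin_cases a <;> fin_cases b <;>
    first | exact absurd rfl hab | assumption | exact q01.symm | exact q12.symm | exact q20.symm

/-- Proof.  `mfld_co` in MFld.lean (private there: copy it; it follows from `MP_5027f4_ell.coord_acc`,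
`coords_eq`, `sum_acc`) with `w = ε v`: the two forces are `cub z * F1 S (ε v / z)`,
`cub z * F2 S (ε v / z)`, and by `hf_scale`, `hf1_eq`, `Σ p = M`, `Σ p δ = 0`:
`F1 S (ε v / z) = - M - ε² Σ p_k hf2 ε (δ_k v / z)`, `F2 S (ε v / z) = - ε Σ p_k conj δ_k hf1 ε (δ_k v / z)`. -/
theorem fld_sc (hm : ∀ a, 0 < m a) (hϖ : ϖ ^ 2 + ϖ + 1 = 0) (hT : Tri m ϖ S d)
    (he : IsCo m ϖ d e) {ε : ℝ} {p : V4} (h : (ε, p) ∈ SD S) :
    fld₀ m (e (sc ε p)) = e (sc ε (gs S ε p)) := by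
  obtain ⟨hz, hn⟩ := h
  replace hz : p.1.1 ≠ 0 := hz
  replace hn : ∀ k, 0 < nE ε (S.δ k * (p.2.1 / p.1.1)) := hn
  rw [ssc_split ε p, ssc_co hm hϖ hT he hz, ssc_split]
  have harg : ∀ k, S.δ k * ((ε : ℂ) * p.2.1 / p.1.1) = (ε : ℂ) * (S.δ k * (p.2.1 / p.1.1)) := by
    intro k
    ring
  have hG := hT.good
  have hs1 : (∑ k, (S.p k : ℂ)) = (S.M : ℂ) := by
    rw [← hG.sum_p]
    push_cast
    rfl
  have hs2 := hG.sum_pδ
  have hs3 := congrArg (starRingEnd ℂ) hG.sum_pδ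
  simp only [map_sum, map_mul, Complex.conj_ofReal, map_zero] at hs3
  have hF1 : Pool.Agent.MP_5027f4_ell.F1 S ((ε : ℂ) * p.2.1 / p.1.1) =
      -(S.M : ℂ) - (ε : ℂ) ^ 2 * ∑ k, (S.p k : ℂ) * hf2 ε (S.δ k * (p.2.1 / p.1.1)) := by
    unfold Pool.Agent.MP_5027f4_ell.F1
    have h1 : ∀ k, (S.p k : ℂ) * Pool.Agent.MP_5027f4_ell.hf (S.δ k * ((ε : ℂ) * p.2.1 / p.1.1)) =
        (S.p k : ℂ) + ((S.p k : ℂ) * S.δ k) * (-((ε : ℂ) * (p.2.1 / p.1.1) / 2)) +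
          ((S.p k : ℂ) * conj (S.δ k)) * (-((ε : ℂ) * (3 / 2 * conj (p.2.1 / p.1.1)))) +
          (ε : ℂ) ^ 2 * ((S.p k : ℂ) * hf2 ε (S.δ k * (p.2.1 / p.1.1))) := by
      intro k
      rw [harg, hf_scale (hn k), hf1_eq (hn k), map_mul]
      ring
    rw [Finset.sum_congr rfl fun k _ => h1 k, Finset.sum_add_distrib, Finset.sum_add_distrib,
      Finset.sum_add_distrib, ← Finset.sum_mul, ← Finset.sum_mul, ← Finset.mul_sum, hs1, hs2, hs3]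
    ring
  have hF2 : Pool.Agent.MP_5027f4_ell.F2 S ((ε : ℂ) * p.2.1 / p.1.1) =
      -((ε : ℂ) * ∑ k, (S.p k : ℂ) * conj (S.δ k) * hf1 ε (S.δ k * (p.2.1 / p.1.1))) := by
    unfold Pool.Agent.MP_5027f4_ell.F2
    have h1 : ∀ k, (S.p k : ℂ) * conj (S.δ k) *
        Pool.Agent.MP_5027f4_ell.hf (S.δ k * ((ε : ℂ) * p.2.1 / p.1.1)) =
        (S.p k : ℂ) * conj (S.δ k) +
          (ε : ℂ) * ((S.p k : ℂ) * conj (S.δ k) * hf1 ε (S.δ k * (p.2.1 / p.1.1))) := by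
      intro k
      rw [harg, hf_scale (hn k)]
      ring
    rw [Finset.sum_congr rfl fun k _ => h1 k, Finset.sum_add_distrib, ← Finset.mul_sum, hs3]
    ring
  have hcub : p.1.1 / ((‖p.1.1‖ ^ 3 : ℝ) : ℂ) = cub p.1.1 := rfl
  rw [hF1, hF2, hcub]
  congr 1
  refine Prod.ext (Prod.ext rfl ?_) (Prod.ext rfl ?_)
  · show cub p.1.1 * (-(S.M : ℂ) -
        (ε : ℂ) ^ 2 * ∑ k, (S.p k : ℂ) * hf2 ε (S.δ k * (p.2.1 / p.1.1))) =
      -((S.M : ℂ) * cub p.1.1) + (ε : ℂ) ^ 2 * Fb S ε p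
    unfold Fb
    ring
  · show cub p.1.1 * (-((ε : ℂ) *
        ∑ k, (S.p k : ℂ) * conj (S.δ k) * hf1 ε (S.δ k * (p.2.1 / p.1.1)))) =
      (ε : ℂ) * (-(cub p.1.1 *
        ∑ k, (S.p k : ℂ) * conj (S.δ k) * hf1 ε (S.δ k * (p.2.1 / p.1.1))))
    ring

/-- Proof.  `fld_sc` holds for all `q` near `p` (`isOpen_SD`); differentiate both sides at `p`: the left
side is `fld₀ m ∘ (e ∘ sc ε)`, `fld₀ m` is differentiable at `e (sc ε p)` (`contDiffOn_fld₀`,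
`noColl_sc`), the right side `(e ∘ sc ε) ∘ gs S ε`. -/
theorem fderiv_fld_sc (hm : ∀ a, 0 < m a) (hϖ : ϖ ^ 2 + ϖ + 1 = 0) (hT : Tri m ϖ S d)
    (he : IsCo m ϖ d e) {ε : ℝ} {p : V4} (h : (ε, p) ∈ SD S) (a : V4) :
    fderiv ℝ (fld₀ m) (e (sc ε p)) (e (sc ε a)) = e (sc ε (fderiv ℝ (gs S ε) p a)) := by
  have hpair : ContDiff ℝ 3 (fun q : V4 => ((ε, q) : ℝ × V4)) := contDiff_const.prodMk contDiff_id
  have hgs : ContDiffAt ℝ 3 (gs S ε) p := by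
    have h1 : ContDiffAt ℝ 3 (fun X : ℝ × V4 => gs S X.1 X.2) (ε, p) :=
      (contDiffOn_gs S).contDiffAt ((isOpen_SD S).mem_nhds h)
    exact h1.comp p hpair.contDiffAt
  have hgd : HasFDerivAt (gs S ε) (fderiv ℝ (gs S ε) p) p :=
    (hgs.differentiableAt (by norm_num)).hasFDerivAt
  have hd : HasFDerivAt (fld₀ m) (fderiv ℝ (fld₀ m) (e (sc ε p))) (e (sc ε p)) :=
    (((contDiffOn_fld₀ m).contDiffAt ((isOpen_noColl₀ m).mem_nhds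
      (noColl_sc hϖ hT he h))).differentiableAt (by norm_num)).hasFDerivAt
  set L : V4 →L[ℝ] comSub m := (e : ((ℂ × ℂ) × (ℂ × ℂ)) →L[ℝ] comSub m).comp (sc ε) with hL
  have hLa : ∀ q, L q = e (sc ε q) := fun q => rfl
  have hd' : HasFDerivAt (fld₀ m) (fderiv ℝ (fld₀ m) (e (sc ε p))) (L p) := hd
  have h1 : HasFDerivAt (fun q => fld₀ m (L q)) ((fderiv ℝ (fld₀ m) (e (sc ε p))).comp L) p :=
    HasFDerivAt.comp p hd' L.hasFDerivAt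
  have h2 : HasFDerivAt (fun q => L (gs S ε q)) (L.comp (fderiv ℝ (gs S ε) p)) p :=
    L.hasFDerivAt.comp p hgd
  have hev : (fun q => fld₀ m (L q)) =ᶠ[𝓝 p] fun q => L (gs S ε q) := by
    have h3 : ∀ᶠ q in 𝓝 p, (ε, q) ∈ SD S :=
      hpair.continuous.continuousAt.eventually_mem ((isOpen_SD S).mem_nhds h)
    filter_upwards [h3] with q hq
    exact fld_sc hm hϖ hT he hq
  have h4 := (h1.congr_of_eventuallyEq hev.symm).unique h2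
  have h5 := congrArg (fun A : V4 →L[ℝ] comSub m => A a) h4
  exact h5

end Pool.Agent.MP_5027f4_cont
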