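import Pool.Agent.Lib_MP_5027f4_cont.SHf

/-!
PIECE [SSm] (MP_5027f4_mp, block S).  Smoothness of the scaled vector field.
-/

open Set Filter Topology Metric Polynomial
open scoped ComplexConjugate ContDiff
open Pool.Agent.MP_5027f4_mp
open Pool.Agent.MP_5027f4_ell (Tri Shape cc coord Mt sg sm Nn Gz epsf kapf vf Bs IsFund Mat hf F1 F2)

namespace Pool.Agent.MP_5027f4_cont

/-- Proof.  On the open set `z ≠ 0` the functions `(ε, p) ↦ nE ε (δ_k v / z)` are continuous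
(`continuous_nE`). -/
theorem isOpen_SD (S : Shape) : IsOpen (SD S) := by
  rw [isOpen_iff_mem_nhds]
  rintro X ⟨h1, h2⟩
  have c1 : ContinuousAt (fun Y : ℝ × V4 => Y.2.1.1) X := by fun_prop
  have c2 : ∀ k, ContinuousAt
      (fun Y : ℝ × V4 => nE Y.1 (S.δ k * (Y.2.2.1 / Y.2.1.1))) X := by
    intro k
    have h3 : ContinuousAt (fun Y : ℝ × V4 => (Y.1, S.δ k * (Y.2.2.1 / Y.2.1.1))) X := by
      refine ContinuousAt.prodMk (by fun_prop) (continuousAt_const.mul (ContinuousAt.div ?_ c1 h1))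
      fun_prop
    exact continuous_nE.continuousAt.comp (f := fun Y : ℝ × V4 =>
      (Y.1, S.δ k * (Y.2.2.1 / Y.2.1.1))) h3
  have e1 : ∀ᶠ Y in 𝓝 X, Y.2.1.1 ≠ 0 := c1.eventually_ne h1
  have e2 : ∀ᶠ Y in 𝓝 X, ∀ k, 0 < nE Y.1 (S.δ k * (Y.2.2.1 / Y.2.1.1)) :=
    eventually_all.2 fun k => (c2 k).eventually (lt_mem_nhds (h2 k))
  filter_upwards [e1, e2] with Y h3 h4 using ⟨h3, h4⟩

private theorem cz {n : WithTop ℕ∞} (X : ℝ × V4) :
    ContDiffAt ℝ n (fun Y : ℝ × V4 => Y.2.1.1) X := by fun_prop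
private theorem cz1 {n : WithTop ℕ∞} (X : ℝ × V4) :
    ContDiffAt ℝ n (fun Y : ℝ × V4 => Y.2.1.2) X := by fun_prop
private theorem cv {n : WithTop ℕ∞} (X : ℝ × V4) :
    ContDiffAt ℝ n (fun Y : ℝ × V4 => Y.2.2.1) X := by fun_prop
private theorem cv1 {n : WithTop ℕ∞} (X : ℝ × V4) :
    ContDiffAt ℝ n (fun Y : ℝ × V4 => Y.2.2.2) X := by fun_prop
private theorem ce {n : WithTop ℕ∞} (X : ℝ × V4) :
    ContDiffAt ℝ n (fun Y : ℝ × V4 => Y.1) X := by fun_prop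

private theorem cofr {n : WithTop ℕ∞} {f : ℝ × V4 → ℝ} {X : ℝ × V4} (h : ContDiffAt ℝ n f X) :
    ContDiffAt ℝ n (fun Y => ((f Y : ℝ) : ℂ)) X :=
  (Complex.ofRealCLM.contDiff.contDiffAt (x := f X)).comp X h

private theorem cconj {n : WithTop ℕ∞} {f : ℝ × V4 → ℂ} {X : ℝ × V4} (h : ContDiffAt ℝ n f X) :
    ContDiffAt ℝ n (fun Y => conj (f Y)) X :=
  (Complex.conjCLE.contDiff.contDiffAt (x := f X)).comp X h

private theorem cim {n : WithTop ℕ∞} {f : ℝ × V4 → ℂ} {X : ℝ × V4} (h : ContDiffAt ℝ n f X) :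
    ContDiffAt ℝ n (fun Y => (f Y).im) X :=
  (Complex.imCLM.contDiff.contDiffAt (x := f X)).comp X h

private theorem cinv {n : WithTop ℕ∞} {f : ℝ × V4 → ℂ} {X : ℝ × V4} (h : ContDiffAt ℝ n f X)
    (h0 : f X ≠ 0) : ContDiffAt ℝ n (fun Y => (f Y)⁻¹) X :=
  h.inv h0

private theorem cdiv {n : WithTop ℕ∞} {f g : ℝ × V4 → ℂ} {X : ℝ × V4} (h : ContDiffAt ℝ n f X)
    (h' : ContDiffAt ℝ n g X) (h0 : g X ≠ 0) : ContDiffAt ℝ n (fun Y => f Y / g Y) X := by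
  have e : (fun Y => f Y / g Y) = fun Y => f Y * (g Y)⁻¹ := by
    funext Y; exact div_eq_mul_inv _ _
  rw [e]
  exact h.mul (cinv h' h0)

private theorem ccub {X : ℝ × V4} (h : X.2.1.1 ≠ 0) :
    ContDiffAt ℝ 3 (fun Y : ℝ × V4 => cub Y.2.1.1) X := by
  unfold cub
  refine cdiv (cz X) (cofr (((cz X).norm ℝ h).pow 3)) ?_
  have h1 : ‖X.2.1.1‖ ^ 3 ≠ 0 := pow_ne_zero 3 (norm_ne_zero_iff.2 h)
  exact Complex.ofReal_ne_zero.2 h1

private theorem carg (S : Shape) {X : ℝ × V4} (h : X.2.1.1 ≠ 0) (k : Fin 3) :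
    ContDiffAt ℝ 3 (fun Y : ℝ × V4 => (Y.1, S.δ k * (Y.2.2.1 / Y.2.1.1))) X :=
  (ce X).prodMk (contDiffAt_const.mul (cdiv (cv X) (cz X) h))

private theorem chf1 (S : Shape) {X : ℝ × V4} (h : X ∈ SD S) (k : Fin 3) :
    ContDiffAt ℝ 3 (fun Y : ℝ × V4 => hf1 Y.1 (S.δ k * (Y.2.2.1 / Y.2.1.1))) X :=
  ContDiffAt.comp X (g := fun q : ℝ × ℂ => hf1 q.1 q.2)
    (f := fun Y : ℝ × V4 => (Y.1, S.δ k * (Y.2.2.1 / Y.2.1.1))) (contDiffAt_hf1 (h.2 k))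
    (carg S h.1 k)

private theorem chf2 (S : Shape) {X : ℝ × V4} (h : X ∈ SD S) (k : Fin 3) :
    ContDiffAt ℝ 3 (fun Y : ℝ × V4 => hf2 Y.1 (S.δ k * (Y.2.2.1 / Y.2.1.1))) X :=
  ContDiffAt.comp X (g := fun q : ℝ × ℂ => hf2 q.1 q.2)
    (f := fun Y : ℝ × V4 => (Y.1, S.δ k * (Y.2.2.1 / Y.2.1.1))) (contDiffAt_hf2 (h.2 k))
    (carg S h.1 k)

private theorem cFb (S : Shape) {X : ℝ × V4} (h : X ∈ SD S) :
    ContDiffAt ℝ 3 (fun Y : ℝ × V4 => Fb S Y.1 Y.2) X := by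
  unfold Fb
  refine ((ccub h.1).mul (ContDiffAt.sum fun k _ => contDiffAt_const.mul (chf2 S h k))).neg

private theorem cgs (S : Shape) {X : ℝ × V4} (h : X ∈ SD S) :
    ContDiffAt ℝ 3 (fun Y : ℝ × V4 => gs S Y.1 Y.2) X := by
  unfold gs
  refine ((cz1 X).prodMk ((contDiffAt_const.mul (ccub h.1)).neg.add
    (((cofr (ce X)).pow 2).mul (cFb S h)))).prodMk ((cv1 X).prodMk
    ((ccub h.1).mul (ContDiffAt.sum fun k _ => contDiffAt_const.mul (chf1 S h k))).neg)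

/-- Proof.  Every component is composed of `contDiffAt_hf1`, `contDiffAt_hf2`, of `v / z`, `z / |z|³`
(smooth for `z ≠ 0`: `ContDiffAt.norm`) and of linear maps. -/
theorem contDiffOn_gs (S : Shape) : ContDiffOn ℝ 3 (fun X : ℝ × V4 => gs S X.1 X.2) (SD S) :=
  fun _ h => (cgs S h).contDiffWithinAt

theorem contDiffOn_VS (S : Shape) : ContDiffOn ℝ 2 (VS S) (SD S) := by
  have h : ContDiffOn ℝ 3 (VS S) (SD S) := contDiffOn_const.prodMk (contDiffOn_gs S)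
  exact h.of_le (by norm_num)

private theorem cpbf (S : Shape) {X : ℝ × V4} (h : X ∈ SD S) :
    ContDiffAt ℝ 3 (fun Y : ℝ × V4 => pbf S Y.1 Y.2) X := by
  have hG : ContDiffAt ℝ 3 (fun Y : ℝ × V4 => Gz Y.2.1.1 Y.2.1.2) X := by
    unfold Gz
    exact cim ((cconj (cz X)).mul (cz1 X))
  unfold pbf
  exact contDiffAt_const.mul (((cofr (cim ((cconj (cz X)).mul (cFb S h)))).mul (cz1 X)).add
    ((cofr hG).mul (cFb S h)))

/-- Proof.  As `contDiffOn_gs`; `S.M` in the denominator is a constant. -/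
theorem contDiffOn_pbf (S : Shape) : ContDiffOn ℝ 2 (fun X : ℝ × V4 => pbf S X.1 X.2) (SD S) := by
  have h : ContDiffOn ℝ 3 (fun X : ℝ × V4 => pbf S X.1 X.2) (SD S) :=
    fun _ h => (cpbf S h).contDiffWithinAt
  exact h.of_le (by norm_num)

private theorem hasFD {F : Type*} [NormedAddCommGroup F] [NormedSpace ℝ F]
    {f : ℝ × V4 → F} {X : ℝ × V4} (h : DifferentiableAt ℝ f X) :
    HasFDerivAt (fun p => f (X.1, p)) ((fderiv ℝ f X).comp (ContinuousLinearMap.inr ℝ ℝ V4)) X.2 := by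
  have h1 : HasFDerivAt (fun p : V4 => (X.1, p)) (ContinuousLinearMap.inr ℝ ℝ V4) X.2 :=
    hasFDerivAt_prodMk_right X.1 X.2
  exact HasFDerivAt.comp X.2 (f := fun p : V4 => (X.1, p)) (g := f) h.hasFDerivAt h1

/-- Proof.  For `(ε, p) ∈ SD S`: `fderiv (pbf S ε) p a = fderiv (fun X => pbf S X.1 X.2) (ε, p) (0, a)`
(chain rule with `p ↦ (ε, p)`), and the derivative is continuous (`contDiffOn_pbf`,
`ContDiffOn.continuousOn_fderiv_of_isOpen`). -/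
theorem continuousOn_Hc (S : Shape) :
    ContinuousOn (Hc S) ((SD S) ×ˢ (univ : Set ((ℝ × V4) × (ℝ × V4)))) := by
  have hc : ContinuousOn (fderiv ℝ fun X : ℝ × V4 => pbf S X.1 X.2) (SD S) :=
    (contDiffOn_pbf S).continuousOn_fderiv_of_isOpen (isOpen_SD S) (by norm_num)
  have hc1 : ContinuousOn (fun Y : (ℝ × V4) × (ℝ × V4) × (ℝ × V4) =>
      fderiv ℝ (fun X : ℝ × V4 => pbf S X.1 X.2) Y.1)
      ((SD S) ×ˢ (univ : Set ((ℝ × V4) × (ℝ × V4)))) :=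
    hc.comp continuousOn_fst fun Y h => h.1
  have hF : ContinuousOn (fun Y : (ℝ × V4) × (ℝ × V4) × (ℝ × V4) =>
      fderiv ℝ (fun X : ℝ × V4 => pbf S X.1 X.2) Y.1 ((0 : ℝ), Y.2.1.2) +
      Complex.I * fderiv ℝ (fun X : ℝ × V4 => pbf S X.1 X.2) Y.1 ((0 : ℝ), Y.2.2.2))
      ((SD S) ×ˢ (univ : Set ((ℝ × V4) × (ℝ × V4)))) := by
    refine (hc1.clm_apply ?_).add (continuousOn_const.mul (hc1.clm_apply ?_))
    · exact Continuous.continuousOn (by fun_prop)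
    · exact Continuous.continuousOn (by fun_prop)
  refine hF.congr ?_
  rintro ⟨X, A, B⟩ ⟨h, -⟩
  have h1 := (hasFD ((cpbf S h).differentiableAt (by norm_num))).fderiv
  have h2 : fderiv ℝ (pbf S X.1) X.2 =
      (fderiv ℝ (fun X : ℝ × V4 => pbf S X.1 X.2) X).comp (ContinuousLinearMap.inr ℝ ℝ V4) := h1
  show fderiv ℝ (pbf S X.1) X.2 A.2 + Complex.I * fderiv ℝ (pbf S X.1) X.2 B.2 = _
  rw [h2]
  rfl

/-- Proof.  Chain rule: `VS S (ε, p) = (0, gs S ε p)`, `p ↦ (ε, p)` has the derivative `a ↦ (0, a)`. -/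
theorem fderiv_VS {S : Shape} {ε : ℝ} {p : V4} (h : (ε, p) ∈ SD S) (a : V4) :
    fderiv ℝ (VS S) (ε, p) (0, a) = (0, fderiv ℝ (gs S ε) p a) := by
  have hd : DifferentiableAt ℝ (fun Y : ℝ × V4 => gs S Y.1 Y.2) (ε, p) :=
    (cgs S h).differentiableAt (by norm_num)
  have h1 := (hasFD hd).fderiv
  have h2 : fderiv ℝ (gs S ε) p =
      (fderiv ℝ (fun X : ℝ × V4 => gs S X.1 X.2) (ε, p)).comp (ContinuousLinearMap.inr ℝ ℝ V4) := h1
  have h3 : HasFDerivAt (VS S) ((0 : ℝ × V4 →L[ℝ] ℝ).prod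
      (fderiv ℝ (fun X : ℝ × V4 => gs S X.1 X.2) (ε, p))) (ε, p) :=
    (hasFDerivAt_const (0 : ℝ) (ε, p)).prodMk hd.hasFDerivAt
  rw [h3.fderiv, h2]
  rfl

/-- the first component of `fderiv (VS S)` vanishes -/
theorem fderiv_VS_fst {S : Shape} {X : ℝ × V4} (h : X ∈ SD S) (A : ℝ × V4) :
    (fderiv ℝ (VS S) X A).1 = 0 := by
  have hd : DifferentiableAt ℝ (fun Y : ℝ × V4 => gs S Y.1 Y.2) X :=
    (cgs S h).differentiableAt (by norm_num)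
  have h3 : HasFDerivAt (VS S) ((0 : ℝ × V4 →L[ℝ] ℝ).prod
      (fderiv ℝ (fun X : ℝ × V4 => gs S X.1 X.2) X)) X :=
    (hasFDerivAt_const (0 : ℝ) X).prodMk hd.hasFDerivAt
  rw [h3.fderiv]
  rfl

end Pool.Agent.MP_5027f4_cont
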