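import Pool.Agent.Lib_MP_5027f4_cont.SSm

/-!
PIECE [SZer] (MP_5027f4_mp, block S).  The scaled system at `ε = 0`.
-/

open Set Filter Topology Metric Polynomial
open scoped ComplexConjugate ContDiff
open Pool.Agent.MP_5027f4_mp
open Pool.Agent.MP_5027f4_ell (Tri Shape cc coord Mt sg sm Nn Gz epsf kapf vf Bs IsFund Mat hf F1 F2)

namespace Pool.Agent.MP_5027f4_cont

theorem mem_SD_zero (S : Shape) {p : V4} (hz : p.1.1 ≠ 0) : ((0 : ℝ), p) ∈ SD S := by
  refine ⟨hz, fun k => ?_⟩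
  simp [nE]

private theorem szer_pn {S : Shape} (hS : S.Good) :
    (∑ k, (S.p k : ℂ) * (conj (S.δ k) * S.δ k)) = S.M := by
  rw [← hS.sum_pn]
  push_cast
  refine Finset.sum_congr rfl fun k _ => ?_
  rw [← Complex.normSq_eq_conj_mul_self, Complex.normSq_eq_norm_sq]
  push_cast
  ring

private theorem szer_pc {S : Shape} (hS : S.Good) :
    (∑ k, (S.p k : ℂ) * conj (S.δ k) ^ 2) = S.M * S.s := by
  have h4 := congrArg (starRingEnd ℂ) hS.sum_pδ2
  simpa only [map_sum, map_mul, map_pow, Complex.conj_ofReal] using h4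

private theorem szer_sum1 {S : Shape} (hS : S.Good) (V : ℂ) :
    ∑ k, (S.p k : ℂ) * conj (S.δ k) * hf1 0 (S.δ k * V) =
      -((S.M : ℂ) * (V / 2 + 3 / 2 * (S.s : ℂ) * conj V)) := by
  have h5 : ∑ k, (S.p k : ℂ) * conj (S.δ k) * hf1 0 (S.δ k * V) =
      (∑ k, (S.p k : ℂ) * (conj (S.δ k) * S.δ k)) * (-(V / 2)) +
        (∑ k, (S.p k : ℂ) * conj (S.δ k) ^ 2) * (-(3 / 2 * conj V)) := by
    rw [Finset.sum_mul, Finset.sum_mul, ← Finset.sum_add_distrib]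
    refine Finset.sum_congr rfl fun k _ => ?_
    rw [hf1_zero, map_mul]
    ring
  rw [h5, szer_pn hS, szer_pc hS]
  ring

private theorem szer_sum2 {S : Shape} (hS : S.Good) (V : ℂ) :
    ∑ k, (S.p k : ℂ) * hf2 0 (S.δ k * V) = (S.M : ℂ) * kap0 S.s V := by
  have h5 : ∑ k, (S.p k : ℂ) * hf2 0 (S.δ k * V) =
      (∑ k, (S.p k : ℂ) * S.δ k ^ 2) * (3 / 8 * V ^ 2) +
      (∑ k, (S.p k : ℂ) * (conj (S.δ k) * S.δ k)) * (3 / 4 * (V * conj V)) +
        (∑ k, (S.p k : ℂ) * conj (S.δ k) ^ 2) * (15 / 8 * conj V ^ 2) := by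
    rw [Finset.sum_mul, Finset.sum_mul, Finset.sum_mul, ← Finset.sum_add_distrib,
      ← Finset.sum_add_distrib]
    refine Finset.sum_congr rfl fun k _ => ?_
    rw [hf2_zero, map_mul]
    ring
  rw [h5, szer_pn hS, szer_pc hS, hS.sum_pδ2, kap0]
  ring

/-- Proof.  `hf1_zero`, `Σ p |δ|² = M`, `Σ p δ² = M s` (take the conjugate): the force is
`cub z * M (V / 2 + (3 / 2) s conj V)`, `V = v / z`. -/
theorem gs_zero {S : Shape} (hS : S.Good) {p : V4} (hz : p.1.1 ≠ 0) :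
    gs S 0 p = ((p.1.2, -((S.M : ℂ) * cub p.1.1)), (p.2.2, LN S.M S.s p.1.1 p.2.1)) := by
  have hzn : (‖p.1.1‖ : ℂ) ≠ 0 := Complex.ofReal_ne_zero.2 (norm_pos_iff.2 hz).ne'
  have hzc : conj p.1.1 ≠ 0 := (_root_.map_ne_zero _).2 hz
  unfold gs
  rw [szer_sum1 hS]
  refine Prod.ext (Prod.ext rfl ?_) (Prod.ext rfl ?_)
  · simp
  · simp only [cub, LN, map_div₀]
    push_cast
    field_simp

private theorem szer_n {z a : ℂ} (hz : z ≠ 0) :
    HasDerivAt (fun t : ℝ => ‖z + t * a‖) (‖z‖ * (a / z).re) 0 := by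
  have hid : HasDerivAt (fun t : ℝ => t * (a / z).re) (a / z).re 0 := by
    simpa using (hasDerivAt_id (0 : ℝ)).mul_const (a / z).re
  have hid2 : HasDerivAt (fun t : ℝ => t * (a / z).im) (a / z).im 0 := by
    simpa using (hasDerivAt_id (0 : ℝ)).mul_const (a / z).im
  have hn : HasDerivAt (fun t : ℝ => (1 + t * (a / z).re) ^ 2 + (t * (a / z).im) ^ 2)
      (2 * (a / z).re) 0 := by
    have h1 := ((hid.const_add 1).pow 2).add (hid2.pow 2)
    refine h1.congr_deriv ?_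
    simp
  have h1 : (fun t : ℝ => ‖z + t * a‖) = fun t : ℝ => ‖z‖ *
      Real.sqrt ((1 + t * (a / z).re) ^ 2 + (t * (a / z).im) ^ 2) := by
    funext t
    have h2 : z + t * a = z * (1 + t * (a / z)) := by
      field_simp
    rw [h2, norm_mul, Complex.norm_def (1 + t * (a / z)), Complex.normSq_apply]
    congr 2
    simp only [Complex.add_re, Complex.one_re, Complex.re_ofReal_mul, Complex.add_im,
      Complex.one_im, Complex.im_ofReal_mul]
    ring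
  rw [h1]
  have h2 := (hn.sqrt (by simp)).const_mul ‖z‖
  refine h2.congr_deriv ?_
  simp

private theorem szer_lin (c a : ℂ) : HasDerivAt (fun t : ℝ => c + t * a) a 0 := by
  have hid : HasDerivAt (fun t : ℝ => (t : ℂ)) 1 0 := Complex.ofRealCLM.hasDerivAt
  simpa using (hid.mul_const a).const_add c

private theorem szer_conj (c a : ℂ) :
    HasDerivAt (fun t : ℝ => conj (c + t * a)) (conj a) 0 := by
  have h : (fun t : ℝ => conj (c + t * a)) = fun t : ℝ => conj c + t * conj a := by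
    funext t
    simp
  rw [h]
  exact szer_lin _ _

private theorem szer_cube {z a : ℂ} (hz : z ≠ 0) :
    HasDerivAt (fun t : ℝ => ((‖z + t * a‖ ^ 3 : ℝ) : ℂ))
      (3 * ((‖z‖ ^ 3 : ℝ) : ℂ) * ((a / z).re : ℂ)) 0 := by
  have h := ((szer_n (a := a) hz).pow 3).ofReal_comp
  refine h.congr_deriv ?_
  simp
  ring

private theorem szer_re (x : ℂ) : (x.re : ℂ) = (x + conj x) / 2 := by
  rw [Complex.re_eq_add_conj]

private theorem szer_cub {z a : ℂ} (hz : z ≠ 0) (M : ℝ) :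
    HasDerivAt (fun t : ℝ => -((M : ℂ) * cub (z + t * a))) (LN M 1 z a) 0 := by
  have hzn : (‖z‖ : ℂ) ≠ 0 := Complex.ofReal_ne_zero.2 (norm_pos_iff.2 hz).ne'
  have hzc : conj z ≠ 0 := (_root_.map_ne_zero _).2 hz
  have h := (((szer_lin z a).div (szer_cube (a := a) hz) (by simpa using hz)).const_mul
    (M : ℂ)).neg
  unfold cub
  refine h.congr_deriv ?_
  simp only [szer_re, LN, map_div₀, Complex.ofReal_zero, zero_mul, add_zero]
  push_cast
  field_simp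
  ring

private theorem szer_LN {z a v b : ℂ} (hz : z ≠ 0) (M s : ℝ) :
    HasDerivAt (fun t : ℝ => LN M s (z + t * a) (v + t * b)) (LN M s z b + LD M s z v a) 0 := by
  have hzn : (‖z‖ : ℂ) ≠ 0 := Complex.ofReal_ne_zero.2 (norm_pos_iff.2 hz).ne'
  have hzc : conj z ≠ 0 := (_root_.map_ne_zero _).2 hz
  have h1 : HasDerivAt (fun t : ℝ => ((M / ‖z + t * a‖ ^ 3 : ℝ) : ℂ))
      (-(3 * ((M / ‖z‖ ^ 3 : ℝ) : ℂ) * ((a / z).re : ℂ))) 0 := by
    have h := (((szer_n (a := a) hz).pow 3).fun_inv (by simpa using hz)).const_mul M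
    have h2 := h.ofReal_comp
    have h3 : (fun t : ℝ => ((M / ‖z + t * a‖ ^ 3 : ℝ) : ℂ)) =
        fun t : ℝ => ((M * (‖z + t * a‖ ^ 3)⁻¹ : ℝ) : ℂ) := by
      funext t
      rw [div_eq_mul_inv]
    rw [h3]
    refine h2.congr_deriv ?_
    simp only [Complex.ofReal_zero, zero_mul, add_zero]
    push_cast
    field_simp
    simp
    ring
  have h2 : HasDerivAt (fun t : ℝ => (z + t * a) / conj (z + t * a))
      ((a * conj z - z * conj a) / conj z ^ 2) 0 := by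
    refine ((szer_lin z a).div (szer_conj z a) (by simpa using hz)).congr_deriv ?_
    simp
  have h3 := h1.fun_mul (((szer_lin v b).div_const 2).fun_add ((h2.fun_mul
    (szer_conj v b)).const_mul (((3 / 2 * s : ℝ) : ℂ))))
  unfold LN
  refine h3.congr_deriv ?_
  simp only [szer_re, LD, map_div₀, Complex.ofReal_zero, zero_mul, add_zero]
  push_cast
  field_simp
  ring

/-- Proof.  By `gs_zero` (valid near `p`), it suffices to differentiate `cub z = z / |z|³`: the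
derivative of `- M cub z` is `LN M 1 z a` (see `fderiv_fld_co` in MFld.lean), and `LN M s z v =
M |z|⁻³ (v / 2 + (3 / 2) s (z / conj z) conj v)`: linear in `v`, and the derivative in `z` in the direction `a`,
with `α = a / z`: `d |z|⁻³ = - (3 / 2) |z|⁻³ (α + conj α)`, `d (z / conj z) = (z / conj z) (α - conj α)`;
this is `LD M s z v a`. -/
theorem fderiv_gs_zero {S : Shape} (hS : S.Good) {p : V4} (hz : p.1.1 ≠ 0) (a : V4) :
    fderiv ℝ (gs S 0) p a = ((a.1.2, LN S.M 1 p.1.1 a.1.1),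
      (a.2.2, LN S.M S.s p.1.1 a.2.1 + LD S.M S.s p.1.1 p.2.1 a.1.1)) := by
  have hc : ContDiffAt ℝ 3 (gs S 0) p :=
    ((contDiffOn_gs S).contDiffAt ((isOpen_SD S).mem_nhds (mem_SD_zero S hz))).comp p
      (contDiffAt_const.prodMk contDiffAt_id)
  have hd : DifferentiableAt ℝ (gs S 0) p := hc.differentiableAt (by norm_num)
  have h1 : HasDerivAt (fun t : ℝ => gs S 0 (p + t • a)) (fderiv ℝ (gs S 0) p a) 0 :=
    hd.hasFDerivAt.hasLineDerivAt a
  have hev : ∀ᶠ t : ℝ in 𝓝 0, p.1.1 + t * a.1.1 ≠ 0 := by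
    have h5 : ContinuousAt (fun t : ℝ => p.1.1 + t * a.1.1) 0 := by fun_prop
    exact h5.eventually_ne (by simpa using hz)
  have h2 : HasDerivAt (fun t : ℝ => (((p.1.2 + t * a.1.2, -((S.M : ℂ) * cub (p.1.1 + t * a.1.1))),
      (p.2.2 + t * a.2.2, LN S.M S.s (p.1.1 + t * a.1.1) (p.2.1 + t * a.2.1))) : V4))
      ((a.1.2, LN S.M 1 p.1.1 a.1.1),
      (a.2.2, LN S.M S.s p.1.1 a.2.1 + LD S.M S.s p.1.1 p.2.1 a.1.1)) 0 :=
    ((szer_lin _ _).prodMk (szer_cub hz _)).prodMk ((szer_lin _ _).prodMk (szer_LN hz _ _))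
  have h3 : HasDerivAt (fun t : ℝ => gs S 0 (p + t • a)) ((a.1.2, LN S.M 1 p.1.1 a.1.1),
      (a.2.2, LN S.M S.s p.1.1 a.2.1 + LD S.M S.s p.1.1 p.2.1 a.1.1)) 0 := by
    refine h2.congr_of_eventuallyEq ?_
    filter_upwards [hev] with t ht
    have h4 : (p + t • a).1.1 ≠ 0 := by
      simpa using ht
    rw [gs_zero hS h4]
    simp
  exact h1.unique h3

/-- Proof.  `hf2_zero`, the relations of `Shape.Good`: `Fb S 0 p = - M cub z kap0 s V`, `V = v / z`, and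
`conj z Fb = - (M / |z|) kap0 s V`. -/
theorem pbf_zero {S : Shape} (hS : S.Good) {p : V4} (hz : p.1.1 ≠ 0) :
    pbf S 0 p = Complex.I / (‖p.1.1‖ : ℂ) * (((kap0 S.s (p.2.1 / p.1.1)).im : ℂ) * p.1.2 +
      ((Gz p.1.1 p.1.2 / ‖p.1.1‖ ^ 2 : ℝ) : ℂ) * p.1.1 * kap0 S.s (p.2.1 / p.1.1)) := by
  have hzp : (0 : ℝ) < ‖p.1.1‖ := norm_pos_iff.2 hz
  have hzn : (‖p.1.1‖ : ℂ) ≠ 0 := Complex.ofReal_ne_zero.2 hzp.ne'
  have hM : (S.M : ℂ) ≠ 0 := Complex.ofReal_ne_zero.2 hS.Mpos.ne'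
  have hF : Fb S 0 p = -(cub p.1.1 * ((S.M : ℂ) * kap0 S.s (p.2.1 / p.1.1))) := by
    rw [Fb, szer_sum2 hS]
  have h1 : conj p.1.1 * p.1.1 = ((‖p.1.1‖ ^ 2 : ℝ) : ℂ) := by
    rw [Complex.conj_mul']
    push_cast
    rfl
  have h2 : conj p.1.1 * Fb S 0 p = ((-(S.M / ‖p.1.1‖) : ℝ) : ℂ) * kap0 S.s (p.2.1 / p.1.1) := by
    rw [hF, cub]
    have h3 : conj p.1.1 * -(p.1.1 / ((‖p.1.1‖ ^ 3 : ℝ) : ℂ) *
        ((S.M : ℂ) * kap0 S.s (p.2.1 / p.1.1))) = -((conj p.1.1 * p.1.1) /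
        ((‖p.1.1‖ ^ 3 : ℝ) : ℂ) * ((S.M : ℂ) * kap0 S.s (p.2.1 / p.1.1))) := by ring
    rw [h3, h1]
    push_cast
    field_simp
  unfold pbf
  rw [h2, Complex.im_ofReal_mul, hF, cub]
  push_cast
  field_simp
  ring

private theorem szer_kap {V : ℝ → ℂ} {V' : ℂ} {V0 : ℂ} (s : ℝ) (hV : HasDerivAt V V' 0)
    (h0 : V 0 = V0) :
    HasDerivAt (fun t => kap0 s (V t)) (dkap0 s V0 V') 0 := by
  have hc : HasDerivAt (fun t => conj (V t)) (conj V') 0 :=
    Complex.conjCLE.toContinuousLinearMap.hasFDerivAt.comp_hasDerivAt 0 hV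
  unfold kap0
  have h := (((hV.fun_pow 2).const_mul (3 / 8 * (s : ℂ))).fun_add
    ((hV.fun_mul hc).const_mul (3 / 4))).fun_add ((hc.fun_pow 2).const_mul (15 / 8 * (s : ℂ)))
  refine h.congr_deriv ?_
  simp only [h0, dkap0]
  ring

/-- Proof.  Differentiate `pbf_zero` (valid near `p`).  With `α = a.1.1 / z`, `α₁ = a.1.2 / z - i Ω α`,
`V = v / z`, `γ = a.2.1 / z`, `κ = kap0 s V`: `d |z|⁻¹ = - |z|⁻¹ Re α`, `Gz / |z|² = Im (z₁ / z) = Ω`,
`d (Gz / |z|²) = Im (a.1.2 / z - z₁ a.1.1 / z²) = Im α₁`, `dV = γ - V α`, `dκ = dkap0 s V dV`.  So the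
derivative is `(i / |z|) (- Re α (Im κ i Ω z + Ω z κ) + Im dκ i Ω z + Im κ z (α₁ + i Ω α) + Im α₁ z κ +
Ω z α κ + Ω z dκ)`, which is the right side. -/
theorem fderiv_pbf_zero {S : Shape} (hS : S.Good) {Ω : ℝ} (hΩ : Ω ≠ 0) {z v v1 : ℂ} (hz : z ≠ 0)
    (a : V4) :
    fderiv ℝ (pbf S 0) ((z, (Ω : ℂ) * Complex.I * z), (v, v1)) a =
      Complex.I * (Ω : ℂ) * (z / (‖z‖ : ℂ)) * Gf S.s Ω (a.1.1 / z)
        (a.1.2 / z - Complex.I * (Ω : ℂ) * (a.1.1 / z)) (v / z) (a.2.1 / z) := by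
  have hzp : (0 : ℝ) < ‖z‖ := norm_pos_iff.2 hz
  have hzn : (‖z‖ : ℂ) ≠ 0 := Complex.ofReal_ne_zero.2 hzp.ne'
  have hzc : conj z ≠ 0 := (_root_.map_ne_zero _).2 hz
  have hΩc : (Ω : ℂ) ≠ 0 := Complex.ofReal_ne_zero.2 hΩ
  have hc : ContDiffAt ℝ 2 (pbf S 0) ((z, (Ω : ℂ) * Complex.I * z), (v, v1)) :=
    ((contDiffOn_pbf S).contDiffAt ((isOpen_SD S).mem_nhds (mem_SD_zero S hz))).comp _
      (contDiffAt_const.prodMk contDiffAt_id)
  have hd : DifferentiableAt ℝ (pbf S 0) ((z, (Ω : ℂ) * Complex.I * z), (v, v1)) :=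
    hc.differentiableAt (by norm_num)
  have h1 := hd.hasFDerivAt.hasLineDerivAt a
  obtain ⟨⟨a0, a1⟩, b0, b1⟩ := a
  have h1' : HasDerivAt (fun t : ℝ => pbf S 0 (((z, (Ω : ℂ) * Complex.I * z), (v, v1)) +
      t • (((a0, a1), (b0, b1)) : V4)))
      (fderiv ℝ (pbf S 0) ((z, (Ω : ℂ) * Complex.I * z), (v, v1)) ((a0, a1), (b0, b1))) 0 := h1
  have hev : ∀ᶠ t : ℝ in 𝓝 0, z + t * a0 ≠ 0 := by
    have h5 : ContinuousAt (fun t : ℝ => z + t * a0) 0 := by fun_prop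
    exact h5.eventually_ne (by simpa using hz)
  have hV : HasDerivAt (fun t : ℝ => (v + t * b0) / (z + t * a0))
      (b0 / z - v / z * (a0 / z)) 0 := by
    refine ((szer_lin v b0).div (szer_lin z a0) (by simpa using hz)).congr_deriv ?_
    simp only [Complex.ofReal_zero, zero_mul, add_zero]
    field_simp
  have hK := szer_kap S.s hV (V0 := v / z) (by simp)
  have hKi : HasDerivAt (fun t : ℝ => ((kap0 S.s ((v + t * b0) / (z + t * a0))).im : ℂ))
      (((dkap0 S.s (v / z) (b0 / z - v / z * (a0 / z))).im : ℝ) : ℂ) 0 := by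
    have h2 : HasDerivAt (fun t : ℝ => (kap0 S.s ((v + t * b0) / (z + t * a0))).im)
        (dkap0 S.s (v / z) (b0 / z - v / z * (a0 / z))).im 0 :=
      Complex.imCLM.hasFDerivAt.comp_hasDerivAt 0 hK
    exact h2.ofReal_comp
  have hN : HasDerivAt (fun t : ℝ => Complex.I / ((‖z + t * a0‖ : ℝ) : ℂ))
      (-(Complex.I / (‖z‖ : ℂ) * ((a0 / z).re : ℂ))) 0 := by
    have h2 := (hasDerivAt_const (0 : ℝ) Complex.I).div (szer_n (a := a0) hz).ofReal_comp
      (by simpa using hz)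
    refine h2.congr_deriv ?_
    simp only [Complex.ofReal_zero, zero_mul, add_zero]
    push_cast
    field_simp
    ring
  have hcz : conj z * z = ((‖z‖ ^ 2 : ℝ) : ℂ) := by
    rw [Complex.conj_mul']
    push_cast
    rfl
  have hG : HasDerivAt (fun t : ℝ => Gz (z + t * a0) ((Ω : ℂ) * Complex.I * z + t * a1) /
      ‖z + t * a0‖ ^ 2) (a1 / z - Complex.I * (Ω : ℂ) * (a0 / z)).im 0 := by
    have h2 : HasDerivAt (fun t : ℝ => Gz (z + t * a0) ((Ω : ℂ) * Complex.I * z + t * a1))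
        (conj a0 * ((Ω : ℂ) * Complex.I * z) + conj z * a1).im 0 := by
      have h3 := (szer_conj z a0).fun_mul (szer_lin ((Ω : ℂ) * Complex.I * z) a1)
      have h4 := Complex.imCLM.hasFDerivAt.comp_hasDerivAt (0 : ℝ) h3
      refine (show HasDerivAt (fun t : ℝ => Gz (z + t * a0)
        ((Ω : ℂ) * Complex.I * z + t * a1)) _ 0 from h4).congr_deriv ?_
      simp
    have h3 := h2.fun_div ((szer_n (a := a0) hz).fun_pow 2) (by simpa using hz)
    refine h3.congr_deriv ?_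
    have e1 : conj a0 * ((Ω : ℂ) * Complex.I * z) =
        ((‖z‖ ^ 2 * Ω : ℝ) : ℂ) * (Complex.I * conj (a0 / z)) := by
      rw [Complex.ofReal_mul, ← hcz, map_div₀]
      field_simp
    have e2 : conj z * a1 = ((‖z‖ ^ 2 : ℝ) : ℂ) * (a1 / z) := by
      rw [← hcz]
      field_simp
    have e3 : Gz z ((Ω : ℂ) * Complex.I * z) = ‖z‖ ^ 2 * Ω := by
      have e4 : conj z * ((Ω : ℂ) * Complex.I * z) = ((‖z‖ ^ 2 * Ω : ℝ) : ℂ) * Complex.I := by
        rw [Complex.ofReal_mul, ← hcz]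
        ring
      rw [Gz, e4, Complex.im_ofReal_mul]
      simp
    have e5 : (a1 / z - Complex.I * (Ω : ℂ) * (a0 / z)).im = (a1 / z).im - Ω * (a0 / z).re := by
      simp [Complex.mul_im]
    rw [e5, Complex.add_im, e1, e2, Complex.im_ofReal_mul, Complex.im_ofReal_mul]
    simp only [Complex.ofReal_zero, zero_mul, add_zero, e3, Complex.mul_im, Complex.I_re,
      Complex.I_im, Complex.conj_re, Complex.conj_im]
    field_simp
    ring
  have h2 := hN.fun_mul ((hKi.fun_mul (szer_lin ((Ω : ℂ) * Complex.I * z) a1)).fun_add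
    ((hG.ofReal_comp.fun_mul (szer_lin z a0)).fun_mul hK))
  have h3 := h2.congr_of_eventuallyEq (f₁ := fun t : ℝ => pbf S 0
      (((z, (Ω : ℂ) * Complex.I * z), (v, v1)) + t • (((a0, a1), (b0, b1)) : V4))) (by
    filter_upwards [hev] with t ht
    have h4 : (((z, (Ω : ℂ) * Complex.I * z), (v, v1)) +
      t • (((a0, a1), (b0, b1)) : V4)).1.1 ≠ 0 := by
      simpa using ht
    rw [pbf_zero hS h4]
    simp)
  rw [h1'.unique h3]
  have e3 : Gz z ((Ω : ℂ) * Complex.I * z) = ‖z‖ ^ 2 * Ω := by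
    have e4 : conj z * ((Ω : ℂ) * Complex.I * z) = ((‖z‖ ^ 2 * Ω : ℝ) : ℂ) * Complex.I := by
      rw [Complex.ofReal_mul, ← hcz]
      ring
    rw [Gz, e4, Complex.im_ofReal_mul]
    simp
  have e6 : ‖z‖ ^ 2 * Ω / ‖z‖ ^ 2 = Ω := by
    field_simp
  simp only [Complex.ofReal_zero, zero_mul, add_zero, e3, e6, Gf]
  generalize (kap0 S.s (v / z)).im = k1
  generalize kap0 S.s (v / z) = k2
  generalize (dkap0 S.s (v / z) (b0 / z - v / z * (a0 / z))).im = k3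
  generalize dkap0 S.s (v / z) (b0 / z - v / z * (a0 / z)) = k4
  generalize (a1 / z - Complex.I * (Ω : ℂ) * (a0 / z)).im = k5
  generalize (a0 / z).re = k6
  push_cast
  field_simp
  ring

end Pool.Agent.MP_5027f4_cont
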