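import Pool.Agent.Lib_MP_5027f4_cont.HomApi

/-!
PIECE [ShearA] (MP_5027f4_mp, T1).  Polynomial symplectic maps: cubes and compositions.
-/

open Set Filter Topology Metric Polynomial Asymptotics
open scoped ComplexConjugate ContDiff

namespace Pool.Agent.MP_5027f4_cont

/-- `χ` is the cubic generating function of a globally invertible analytic symplectic map. -/
def ShearGood (χ : ℂ × ℂ → ℝ) : Prop :=
  ∃ ψ ψ' : ℂ × ℂ → ℂ × ℂ, ContDiff ℝ ω ψ ∧ ContDiff ℝ ω ψ' ∧ (∀ z, ψ' (ψ z) = z) ∧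
    (∀ z, ψ (ψ' z) = z) ∧ (∀ z ξ η, os (fderiv ℝ ψ z ξ) (fderiv ℝ ψ z η) = os ξ η) ∧
    ∃ Q : ℂ × ℂ → ℂ × ℂ, HG 2 Q ∧ (∀ z η, os η (Q z) = fderiv ℝ χ z η) ∧
      (fun z => ψ z - z - Q z) =O[𝓝 0] (fun z => ‖z‖ ^ 3)

/-- the linear form `z ↦ os z v` -/
private noncomputable def sa_L (v : ℂ × ℂ) : (ℂ × ℂ) →L[ℝ] ℝ :=
  Complex.imCLM.comp
    (((ContinuousLinearMap.mul ℝ ℂ v.1).comp
        ((Complex.conjCLE : ℂ →L[ℝ] ℂ).comp (ContinuousLinearMap.fst ℝ ℂ ℂ))) +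
      ((ContinuousLinearMap.mul ℝ ℂ v.2).comp
        ((Complex.conjCLE : ℂ →L[ℝ] ℂ).comp (ContinuousLinearMap.snd ℝ ℂ ℂ))))

private theorem sa_L_apply (v z : ℂ × ℂ) : sa_L v z = os z v := by
  simp [sa_L, os]
  ring

private theorem sa_self (v : ℂ × ℂ) : os v v = 0 := by
  simp [os]
  ring

private theorem sa_anti (v w : ℂ × ℂ) : os v w = -os w v := by
  simp [os]
  ring

private theorem sa_add_left (a b v : ℂ × ℂ) : os (a + b) v = os a v + os b v := by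
  rw [← sa_L_apply, ← sa_L_apply, ← sa_L_apply, map_add]

private theorem sa_smul_left (s : ℝ) (a v : ℂ × ℂ) : os (s • a) v = s * os a v := by
  rw [← sa_L_apply, ← sa_L_apply, map_smul, smul_eq_mul]

private theorem sa_add_right (a b v : ℂ × ℂ) : os v (a + b) = os v a + os v b := by
  rw [sa_anti, sa_add_left, sa_anti v a, sa_anti v b]
  ring

private theorem sa_smul_right (s : ℝ) (a v : ℂ × ℂ) : os v (s • a) = s * os v a := by
  rw [sa_anti, sa_smul_left, sa_anti v a]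
  ring

private theorem sa_contDiff (c : ℝ) (v : ℂ × ℂ) :
    ContDiff ℝ ω (fun z : ℂ × ℂ => z + (c * os z v ^ 2) • v) := by
  have h : (fun z : ℂ × ℂ => z + (c * os z v ^ 2) • v) =
      fun z => z + (c * sa_L v z ^ 2) • v := by
    funext z
    rw [sa_L_apply]
  rw [h]
  exact contDiff_id.add ((contDiff_const.mul ((sa_L v).contDiff.pow 2)).smul contDiff_const)

private theorem sa_fderiv (c : ℝ) (v z ξ : ℂ × ℂ) :
    fderiv ℝ (fun z : ℂ × ℂ => z + (c * os z v ^ 2) • v) z ξ =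
      ξ + (2 * c * os z v * os ξ v) • v := by
  have h : (fun z : ℂ × ℂ => z + (c * os z v ^ 2) • v) =
      fun z => z + (c * sa_L v z ^ 2) • v := by
    funext z
    rw [sa_L_apply]
  rw [h]
  have h1 : HasFDerivAt (fun z => sa_L v z) (sa_L v) z := (sa_L v).hasFDerivAt
  have h2 := ((h1.pow 2).const_mul c).smul_const v
  have h3 := (hasFDerivAt_id z).add h2
  have h4 : fderiv ℝ (fun z => z + (c * sa_L v z ^ 2) • v) z = _ := h3.fderiv
  rw [h4]
  simp only [ContinuousLinearMap.add_apply, ContinuousLinearMap.coe_id', id_eq,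
    ContinuousLinearMap.smulRight_apply, ContinuousLinearMap.smul_apply, smul_eq_mul,
    sa_L_apply]
  congr 2
  norm_num
  ring

private theorem sa_inv (c : ℝ) (v z : ℂ × ℂ) :
    (fun z : ℂ × ℂ => z + (-c * os z v ^ 2) • v) (z + (c * os z v ^ 2) • v) = z := by
  change (z + (c * os z v ^ 2) • v) + (-c * os (z + (c * os z v ^ 2) • v) v ^ 2) • v = z
  rw [sa_add_left, sa_smul_left, sa_self, mul_zero, add_zero, add_assoc, ← add_smul]
  have : c * os z v ^ 2 + -c * os z v ^ 2 = 0 := by ring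
  rw [this, zero_smul, add_zero]

/-- Proof.  `ψ z = z + 3 a (os z v) ^ 2 • v`, `ψ' z = z - 3 a (os z v) ^ 2 • v` (as `os v v = 0`,
`os (ψ z) v = os z v`), symplectic by a direct computation:
`os (ξ + s v) (η + t v) = os ξ η + t os ξ v + s os v η` with `s = 6 a (os z v) (os ξ v)`,
`t = 6 a (os z v) (os η v)`; `Q z = 3 a (os z v) ^ 2 • v`, `os η (Q z) = 3 a (os z v) ^ 2 os η v`. -/
theorem shearGood_cube (a : ℝ) (v : ℂ × ℂ) : ShearGood (fun z => a * os z v ^ 3) := by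
  refine ⟨fun z => z + ((3 * a) * os z v ^ 2) • v, fun z => z + (-(3 * a) * os z v ^ 2) • v,
    sa_contDiff _ v, sa_contDiff _ v, fun z => sa_inv (3 * a) v z, fun z => ?_, fun z ξ η => ?_,
    fun z => ((3 * a) * os z v ^ 2) • v, ?_, fun z η => ?_, ?_⟩
  · have := sa_inv (-(3 * a)) v z
    rw [neg_neg] at this
    exact this
  · rw [sa_fderiv, sa_fderiv, sa_add_left, sa_add_right, sa_smul_left, sa_add_right,
      sa_smul_right, sa_smul_right, sa_self, sa_anti v η]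
    ring
  · have h := HG.of_bilin ((sa_L v).smulRight ((sa_L v).smulRight ((3 * a) • v)))
    have e : (fun z : ℂ × ℂ => ((3 * a) * os z v ^ 2) • v) =
        fun z => (sa_L v).smulRight ((sa_L v).smulRight ((3 * a) • v)) z z := by
      funext z
      simp only [ContinuousLinearMap.smulRight_apply, ContinuousLinearMap.smul_apply,
        sa_L_apply, smul_smul]
      congr 1
      ring
    rw [e]
    exact h
  · rw [sa_smul_right]
    have h : (fun z : ℂ × ℂ => a * os z v ^ 3) = fun z => a * sa_L v z ^ 3 := by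
      funext z
      rw [sa_L_apply]
    rw [h]
    have h1 : HasFDerivAt (fun z => sa_L v z) (sa_L v) z := (sa_L v).hasFDerivAt
    have h2 := (h1.pow 3).const_mul a
    rw [h2.fderiv]
    simp only [ContinuousLinearMap.smul_apply, smul_eq_mul, sa_L_apply]
    norm_num
    ring
  · have e : (fun z : ℂ × ℂ => z + ((3 * a) * os z v ^ 2) • v - z - ((3 * a) * os z v ^ 2) • v) =
        fun _ => 0 := by
      funext z
      abel
    rw [e]
    exact isBigO_zero _ _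

private theorem sa_HG_zero : HG 2 (fun _ : ℂ × ℂ => (0 : ℂ × ℂ)) := ⟨0, fun _ => rfl⟩

theorem shearGood_zero : ShearGood (fun _ => 0) := by
  refine ⟨id, id, contDiff_id, contDiff_id, fun _ => rfl, fun _ => rfl, fun z ξ η => ?_,
    fun _ => 0, sa_HG_zero, fun z η => ?_, ?_⟩
  · rw [fderiv_id]
    rfl
  · have h : os η 0 = 0 := by simp [os]
    rw [h]
    simp
  · have e : (fun z : ℂ × ℂ => id z - z - 0) = fun _ => 0 := by
      funext z
      simp
    rw [e]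
    exact isBigO_zero _ _

private theorem sa_pow_zero {f : ℂ × ℂ → ℂ × ℂ} {n : ℕ} (hn : n ≠ 0)
    (h : f =O[𝓝 0] (fun z => ‖z‖ ^ n)) : f 0 = 0 := by
  obtain ⟨C, hC⟩ := h.bound
  have h1 := hC.self_of_nhds
  simp only [norm_zero, zero_pow hn, mul_zero] at h1
  exact norm_le_zero_iff.1 h1

/-- Proof.  Compose: `ψ = ψ₁ ∘ ψ₂`, `ψ' = ψ'₂ ∘ ψ'₁`, `Q = Q₁ + Q₂`;
`ψ₁ (ψ₂ z) = ψ₂ z + Q₁ (ψ₂ z) + O(‖ψ₂ z‖³)`, `ψ₂ z = z + Q₂ z + O(‖z‖³)`,
`Q₁ (ψ₂ z) - Q₁ z = O(‖z‖ ‖ψ₂ z - z‖) = O(‖z‖³)`. -/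
theorem ShearGood.add {χ₁ χ₂ : ℂ × ℂ → ℝ} (d₁ : Differentiable ℝ χ₁) (d₂ : Differentiable ℝ χ₂)
    (h₁ : ShearGood χ₁) (h₂ : ShearGood χ₂) : ShearGood (fun z => χ₁ z + χ₂ z) := by
  obtain ⟨ψ₁, ψ₁', a1, a2, a3, a4, a5, Q₁, a6, a7, a8⟩ := h₁
  obtain ⟨ψ₂, ψ₂', b1, b2, b3, b4, b5, Q₂, b6, b7, b8⟩ := h₂
  have hωn : (ω : WithTop ℕ∞) ≠ 0 := by simp
  have hd1 : Differentiable ℝ ψ₁ := a1.differentiable hωn
  have hd2 : Differentiable ℝ ψ₂ := b1.differentiable hωn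
  refine ⟨fun z => ψ₁ (ψ₂ z), fun z => ψ₂' (ψ₁' z), a1.comp b1, b2.comp a2, fun z => ?_,
    fun z => ?_, fun z ξ η => ?_, fun z => Q₁ z + Q₂ z, a6.add b6, fun z η => ?_, ?_⟩
  · change ψ₂' (ψ₁' (ψ₁ (ψ₂ z))) = z
    rw [a3, b3]
  · change ψ₁ (ψ₂ (ψ₂' (ψ₁' z))) = z
    rw [b4, a4]
  · have h := fderiv_comp (g := ψ₁) (f := ψ₂) z (hd1 _) (hd2 z)
    have h' : fderiv ℝ (fun z => ψ₁ (ψ₂ z)) z = (fderiv ℝ ψ₁ (ψ₂ z)).comp (fderiv ℝ ψ₂ z) := h
    rw [h', ContinuousLinearMap.comp_apply, ContinuousLinearMap.comp_apply, a5, b5]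
  · rw [sa_add_right, a7, b7]
    have h : fderiv ℝ (fun z => χ₁ z + χ₂ z) z = fderiv ℝ χ₁ z + fderiv ℝ χ₂ z :=
      fderiv_fun_add (d₁ z) (d₂ z)
    rw [h]
    rfl
  · -- the remainder
    obtain ⟨C₂, hC₂, hQ₂⟩ := b6.bound
    have hQ20 : Q₂ 0 = 0 := by
      have := hQ₂ 0
      simp only [norm_zero, zero_pow (two_ne_zero), mul_zero] at this
      exact norm_le_zero_iff.1 this
    have h20 : ψ₂ 0 = 0 := by
      have := sa_pow_zero (three_ne_zero) b8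
      rw [hQ20, sub_zero, sub_zero] at this
      exact this
    have ht : Tendsto ψ₂ (𝓝 0) (𝓝 0) := by
      have := hd2.continuous.tendsto 0
      rwa [h20] at this
    have hlin : ψ₂ =O[𝓝 0] (fun z => ‖z‖) := by
      have h := (hd2 0).isBigO_sub
      rw [h20] at h
      simp only [sub_zero] at h
      exact h.norm_right
    have hQ2O : Q₂ =O[𝓝 0] (fun z => ‖z‖ ^ 2) := by
      refine IsBigO.of_bound C₂ (Eventually.of_forall fun z => ?_)
      rw [Real.norm_of_nonneg (by positivity)]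
      exact hQ₂ z
    have h32 : (fun z : ℂ × ℂ => ‖z‖ ^ 3) =O[𝓝 0] (fun z => ‖z‖ ^ 2) := by
      refine IsBigO.of_bound 1 ?_
      filter_upwards [Metric.ball_mem_nhds (0 : ℂ × ℂ) one_pos] with z hz
      rw [mem_ball_zero_iff] at hz
      rw [Real.norm_of_nonneg (by positivity), Real.norm_of_nonneg (by positivity), one_mul]
      exact pow_le_pow_of_le_one (norm_nonneg _) hz.le (by norm_num)
    have hquad : (fun z => ψ₂ z - z) =O[𝓝 0] (fun z => ‖z‖ ^ 2) := by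
      have e : (fun z => ψ₂ z - z) = fun z => (ψ₂ z - z - Q₂ z) + Q₂ z := by
        funext z
        abel
      rw [e]
      exact (b8.trans h32).add hQ2O
    have hA : (fun z => ψ₁ (ψ₂ z) - ψ₂ z - Q₁ (ψ₂ z)) =O[𝓝 0] (fun z => ‖z‖ ^ 3) := by
      have h := a8.comp_tendsto ht
      have h' : (fun z => ψ₁ (ψ₂ z) - ψ₂ z - Q₁ (ψ₂ z)) =O[𝓝 0] (fun z => ‖ψ₂ z‖ ^ 3) := h
      exact h'.trans (hlin.norm_left.pow 3)
    obtain ⟨g, hg⟩ := HG.two a6
    have hB : (fun z => Q₁ (ψ₂ z) - Q₁ z) =O[𝓝 0] (fun z => ‖z‖ ^ 3) := by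
      have e : (fun z => Q₁ (ψ₂ z) - Q₁ z) =
          fun z => g (ψ₂ z - z) (ψ₂ z) + g z (ψ₂ z - z) := by
        funext z
        rw [hg, hg, map_sub, map_sub, ContinuousLinearMap.sub_apply]
        abel
      rw [e]
      have hz1 : (fun z : ℂ × ℂ => z) =O[𝓝 0] (fun z => ‖z‖) := (isBigO_refl _ _).norm_right
      have e3 : (fun z : ℂ × ℂ => ‖z‖ ^ 3) = fun z => ‖z‖ ^ 2 * ‖z‖ := by
        funext z
        ring
      have e3' : (fun z : ℂ × ℂ => ‖z‖ ^ 3) = fun z => ‖z‖ * ‖z‖ ^ 2 := by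
        funext z
        ring
      refine IsBigO.add ?_ ?_
      · have h1 : (fun z => g (ψ₂ z - z) (ψ₂ z)) =O[𝓝 0] (fun z => ‖ψ₂ z - z‖ * ‖ψ₂ z‖) := by
          refine IsBigO.of_bound ‖g‖ (Eventually.of_forall fun z => ?_)
          rw [norm_mul, norm_norm, norm_norm, ← mul_assoc]
          exact g.le_opNorm₂ _ _
        rw [e3]
        exact h1.trans (hquad.norm_left.mul hlin.norm_left)
      · have h1 : (fun z => g z (ψ₂ z - z)) =O[𝓝 0] (fun z => ‖z‖ * ‖ψ₂ z - z‖) := by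
          refine IsBigO.of_bound ‖g‖ (Eventually.of_forall fun z => ?_)
          rw [norm_mul, norm_norm, norm_norm, ← mul_assoc]
          exact g.le_opNorm₂ _ _
        rw [e3']
        exact h1.trans (hz1.norm_left.mul hquad.norm_left)
    have e : (fun z => ψ₁ (ψ₂ z) - z - (Q₁ z + Q₂ z)) =
        fun z => (ψ₁ (ψ₂ z) - ψ₂ z - Q₁ (ψ₂ z)) + (Q₁ (ψ₂ z) - Q₁ z) + (ψ₂ z - z - Q₂ z) := by
      funext z
      abel
    rw [e]
    exact (hA.add hB).add b8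

end Pool.Agent.MP_5027f4_cont
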