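import Pool.Agent.Lib_MP_5027f4_cont.Defs

/-!
PIECE [SolA] (MP_5027f4_mp, T1).  Elementary properties of solutions on open intervals.
-/

open Set Filter Topology Metric
open scoped ContDiff

namespace Pool.Agent.MP_5027f4_cont

variable {E : Type*} [NormedAddCommGroup E] [NormedSpace ℝ E] {f : E → E} {S S' : ℝ}
  {c c' : ℝ → E}

theorem SolA_mem {a b s : ℝ} (ha : a < 0) (hb : 0 < b) (haS : a < S) (hSb : S < b)
    (hs : s ∈ uIcc 0 S) : s ∈ Ioo a b := by
  rw [mem_uIcc] at hs
  constructor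
  · rcases hs with hs | hs <;> linarith [hs.1, hs.2]
  · rcases hs with hs | hs <;> linarith [hs.1, hs.2]

theorem SolOn.hasDerivAt (h : SolOn f S c) {s : ℝ} (hs : s ∈ uIcc 0 S) :
    HasDerivAt c (f (c s)) s := by
  obtain ⟨a, b, ha, hb, haS, hSb, h⟩ := h
  exact h s (SolA_mem ha hb haS hSb hs)

theorem SolOn.continuousOn (h : SolOn f S c) : ContinuousOn c (uIcc 0 S) :=
  fun _ hs => (h.hasDerivAt hs).continuousAt.continuousWithinAt

theorem SolOn.restrict (h : SolOn f S c) {s : ℝ} (hs : s ∈ uIcc 0 S) : SolOn f s c := by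
  obtain ⟨a, b, ha, hb, haS, hSb, h⟩ := h
  have hs' := SolA_mem ha hb haS hSb hs
  exact ⟨a, b, ha, hb, hs'.1, hs'.2, h⟩

/-- slightly longer times -/
theorem SolOn.eventually (h : SolOn f S c) : ∀ᶠ s in 𝓝 S, SolOn f s c := by
  obtain ⟨a, b, ha, hb, haS, hSb, h⟩ := h
  filter_upwards [Ioo_mem_nhds haS hSb] with s hs
  exact ⟨a, b, ha, hb, hs.1, hs.2, h⟩

theorem SolOn.shift (h : SolOn f S c) {s : ℝ} (hs : s ∈ uIcc 0 S) :
    SolOn f (S - s) (fun r => c (s + r)) := by
  obtain ⟨a, b, ha, hb, haS, hSb, h⟩ := h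
  have hs' := SolA_mem ha hb haS hSb hs
  refine ⟨a - s, b - s, by linarith [hs'.1], by linarith [hs'.2], by linarith, by linarith,
    fun r hr => ?_⟩
  exact (h (s + r) ⟨by linarith [hr.1], by linarith [hr.2]⟩).comp_const_add s r

theorem SolOn.symm (h : SolOn f S c) : SolOn f (-S) (fun r => c (S + r)) := by
  obtain ⟨a, b, ha, hb, haS, hSb, h⟩ := h
  refine ⟨a - S, b - S, by linarith, by linarith, by linarith, by linarith,
    fun r hr => ?_⟩
  exact (h (S + r) ⟨by linarith [hr.1], by linarith [hr.2]⟩).comp_const_add S r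

/-- Uniqueness (Picard-Lindelöf; `f` is locally Lipschitz: `ContDiffAt.exists_lipschitzOnWith`,
`ODE_solution_unique_of_eventually`, connectedness as in `Solves.eq_of_eq` of
`Lib_MP_5027f4_mp/Flow.lean`, for an open interval). -/
theorem SolOn.unique_Ioo (hf : ContDiff ℝ 1 f) {a b t₀ : ℝ}
    (h : ∀ s ∈ Ioo a b, HasDerivAt c (f (c s)) s) (h' : ∀ s ∈ Ioo a b, HasDerivAt c' (f (c' s)) s)
    (ht : t₀ ∈ Ioo a b) (h0 : c t₀ = c' t₀) : ∀ s ∈ Ioo a b, c s = c' s := by
  have hloc : ∀ t ∈ Ioo a b, c t = c' t → c =ᶠ[𝓝 t] c' := by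
    intro t ht h1
    obtain ⟨K, s, hs, hK⟩ := (hf.contDiffAt (x := c t)).exists_lipschitzOnWith
    have hI : ∀ᶠ u in 𝓝 t, u ∈ Ioo a b := Ioo_mem_nhds ht.1 ht.2
    have h2 : ∀ᶠ u in 𝓝 t, c u ∈ s := (h t ht).continuousAt.eventually_mem hs
    have h3 : ∀ᶠ u in 𝓝 t, c' u ∈ s := by
      apply (h' t ht).continuousAt.eventually_mem
      rw [← h1]
      exact hs
    exact ODE_solution_unique_of_eventually (v := fun _ => f) (s := fun _ => s)
      (Filter.Eventually.of_forall fun _ => hK)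
      ((hI.and h2).mono fun u hu => ⟨h u hu.1, hu.2⟩)
      ((hI.and h3).mono fun u hu => ⟨h' u hu.1, hu.2⟩) h1
  have hsub : Ioo a b ⊆ interior {t | c t = c' t} := by
    apply isPreconnected_Ioo.subset_of_closure_inter_subset isOpen_interior
    · exact ⟨t₀, ht, mem_interior_iff_mem_nhds.mpr (hloc t₀ ht h0)⟩
    · rintro t ⟨ht1, ht2⟩
      rw [mem_interior_iff_mem_nhds]
      apply hloc t ht2
      have hfr : ∃ᶠ u in 𝓝 t, c u = c' u :=
        (mem_closure_iff_frequently.mp ht1).mono fun u hu =>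
          (interior_subset hu : u ∈ {t | c t = c' t})
      by_contra hne
      have h3 : ∀ᶠ u in 𝓝 t, ¬ c u = c' u := by
        have hc : ContinuousAt (fun u => (c u, c' u)) t :=
          (h t ht2).continuousAt.prodMk (h' t ht2).continuousAt
        exact hc.eventually ((isOpen_ne_fun continuous_fst continuous_snd).mem_nhds hne)
      exact hfr h3
  intro s hs
  exact (interior_subset (hsub hs) : s ∈ {t | c t = c' t})

theorem SolOn.unique (hf : ContDiff ℝ 1 f) (h : SolOn f S c) (h' : SolOn f S c')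
    (h0 : c 0 = c' 0) : ∀ s ∈ uIcc 0 S, c s = c' s := by
  obtain ⟨a, b, ha, hb, haS, hSb, h⟩ := h
  obtain ⟨a', b', ha', hb', haS', hSb', h'⟩ := h'
  intro s hs
  refine SolOn.unique_Ioo hf (a := max a a') (b := min b b') (t₀ := 0)
    (fun r hr => h r ⟨(le_max_left _ _).trans_lt hr.1, hr.2.trans_le (min_le_left _ _)⟩)
    (fun r hr => h' r ⟨(le_max_right _ _).trans_lt hr.1, hr.2.trans_le (min_le_right _ _)⟩)
    ⟨max_lt ha ha', lt_min hb hb'⟩ h0 s ?_
  exact SolA_mem (max_lt ha ha') (lt_min hb hb') (max_lt haS haS') (lt_min hSb hSb') hs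

/-- Concatenation for arbitrary signs.  Proof: `c` solves on `Ioo a b`, `s ↦ c' (s - S)` solves on
`Ioo (a' + S) (b' + S)`, both contain `S`, and the two functions agree on the intersection
(`SolOn.unique_Ioo`).  The function which is `c` on `Ioo a b` and `c' (· - S)` elsewhere solves on
the union, an open interval containing `0, S, S + S'`. -/
theorem SolOn.trans (hf : ContDiff ℝ 1 f) (h : SolOn f S c) (h' : SolOn f S' c')
    (h0 : c' 0 = c S) : ∃ c'', SolOn f (S + S') c'' ∧ (∀ s ∈ uIcc 0 S, c'' s = c s) ∧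
      ∀ s ∈ uIcc 0 S', c'' (S + s) = c' s := by
  classical
  obtain ⟨a, b, ha, hb, haS, hSb, h⟩ := h
  obtain ⟨a', b', ha', hb', haS', hSb', h'⟩ := h'
  have hd : ∀ s ∈ Ioo (a' + S) (b' + S),
      HasDerivAt (fun r => c' (r - S)) (f (c' (s - S))) s := by
    intro s hs
    exact (h' (s - S) ⟨by linarith [hs.1], by linarith [hs.2]⟩).comp_sub_const s S
  have hagree : ∀ s ∈ Ioo (max a (a' + S)) (min b (b' + S)), c s = c' (s - S) := by
    refine SolOn.unique_Ioo hf (t₀ := S)
      (fun r hr => h r ⟨(le_max_left _ _).trans_lt hr.1, hr.2.trans_le (min_le_left _ _)⟩)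
      (fun r hr => hd r ⟨(le_max_right _ _).trans_lt hr.1, hr.2.trans_le (min_le_right _ _)⟩)
      ⟨max_lt haS (by linarith), lt_min hSb (by linarith)⟩ (by simp [h0])
  have hagree' : ∀ s ∈ Ioo a b, s ∈ Ioo (a' + S) (b' + S) → c s = c' (s - S) := by
    intro s hs hs'
    exact hagree s ⟨max_lt hs.1 hs'.1, lt_min hs.2 hs'.2⟩
  set e : ℝ → E := fun s => if s ∈ Ioo a b then c s else c' (s - S) with he
  have he1 : ∀ s ∈ Ioo a b, e s = c s := fun s hs => by simp only [he]; rw [if_pos hs]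
  have he2 : ∀ s ∈ Ioo (a' + S) (b' + S), e s = c' (s - S) := by
    intro s hs
    by_cases hs' : s ∈ Ioo a b
    · rw [he1 s hs', hagree' s hs' hs]
    · simp only [he]
      rw [if_neg hs']
  have hde1 : ∀ s ∈ Ioo a b, HasDerivAt e (f (e s)) s := by
    intro s hs
    rw [he1 s hs]
    refine (h s hs).congr_of_eventuallyEq ?_
    filter_upwards [Ioo_mem_nhds hs.1 hs.2] with r hr
    exact he1 r hr
  have hde2 : ∀ s ∈ Ioo (a' + S) (b' + S), HasDerivAt e (f (e s)) s := by
    intro s hs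
    rw [he2 s hs]
    refine (hd s hs).congr_of_eventuallyEq ?_
    filter_upwards [Ioo_mem_nhds hs.1 hs.2] with r hr
    exact he2 r hr
  refine ⟨e, ⟨min a (a' + S), max b (b' + S), ?_, ?_, ?_, ?_, ?_⟩, ?_, ?_⟩
  · exact (min_le_left _ _).trans_lt ha
  · exact hb.trans_le (le_max_left _ _)
  · refine (min_le_right _ _).trans_lt ?_
    linarith
  · refine lt_of_lt_of_le ?_ (le_max_right _ _)
    linarith
  · intro s hs
    by_cases h1 : s ∈ Ioo a b
    · exact hde1 s h1
    · apply hde2 s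
      rw [mem_Ioo, not_and_or, not_lt, not_lt] at h1
      rcases h1 with h1 | h1
      · have h2 : a' + S < s := by
          rcases min_lt_iff.mp hs.1 with h3 | h3
          · linarith
          · exact h3
        exact ⟨h2, by linarith⟩
      · have h2 : s < b' + S := by
          rcases lt_max_iff.mp hs.2 with h3 | h3
          · linarith
          · exact h3
        exact ⟨by linarith, h2⟩
  · intro s hs
    exact he1 s (SolA_mem ha hb haS hSb hs)
  · intro s hs
    have hs' := SolA_mem ha' hb' haS' hSb' hs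
    rw [he2 (S + s) ⟨by linarith [hs'.1], by linarith [hs'.2]⟩]
    simp

/-- local existence (`IsPicardLindelof`, `ContDiffAt.exists_forall_mem_closedBall_exists_eq_forall_mem_Ioo_hasDerivAt₀` or similar) -/
theorem SolOn.exists_local [CompleteSpace E] (hf : ContDiff ℝ 1 f) (x : E) :
    ∃ c, SolOn f 0 c ∧ c 0 = x := by
  obtain ⟨α, hα, ε, hε, h⟩ :=
    (hf.contDiffAt (x := x)).exists_forall_mem_closedBall_exists_eq_forall_mem_Ioo_hasDerivAt₀ 0
  refine ⟨α, ⟨0 - ε, 0 + ε, by linarith, by linarith, by linarith, by linarith, h⟩, hα⟩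

end Pool.Agent.MP_5027f4_cont
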