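import Pool.Agent.Lib_MP_5027f4_cont.Defs

/-!
PIECE [TraceB] (MP_5027f4_mp, T1).  Algebra: a derivative in `sp` which is a coboundary.
-/

open Set Filter Topology Metric Polynomial Asymptotics
open scoped ComplexConjugate ContDiff

namespace Pool.Agent.MP_5027f4_cont

private theorem tb_os_antisymm (ξ η : ℂ × ℂ) : os ξ η = - os η ξ := by
  simp only [os, Complex.add_im, Complex.mul_im, Complex.conj_re, Complex.conj_im]
  ring

private theorem tb_os_add_right (ξ η ζ : ℂ × ℂ) : os ξ (η + ζ) = os ξ η + os ξ ζ := by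
  simp only [os, Prod.fst_add, Prod.snd_add, mul_add, Complex.add_im]
  ring

private theorem tb_os_sub_right (ξ η ζ : ℂ × ℂ) : os ξ (η - ζ) = os ξ η - os ξ ζ := by
  simp only [os, Prod.fst_sub, Prod.snd_sub, mul_sub, Complex.add_im, Complex.sub_im]
  ring

private theorem tb_os_add_left (ξ η ζ : ℂ × ℂ) : os (ξ + η) ζ = os ξ ζ + os η ζ := by
  simp only [os, Prod.fst_add, Prod.snd_add, map_add, add_mul, Complex.add_im]
  ring

private theorem tb_nondeg (v : ℂ × ℂ) (h : ∀ ξ, os ξ v = 0) : v = 0 := by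
  have h1 := h (1, 0)
  have h2 := h (Complex.I, 0)
  have h3 := h (0, 1)
  have h4 := h (0, Complex.I)
  simp [os] at h1 h2 h3 h4
  exact Prod.ext (Complex.ext h2 h1) (Complex.ext h4 h3)

/-- Proof.  `A` is invertible (`os` is nondegenerate).  Put `S = A⁻¹ A'`; `hA'` says
`os (Sξ) η + os ξ (Sη) = 0`.  Let `K` be the linear map with `os ξ (K η) = -(g₂ ξ η + g₂ η ξ)` (`os` is
nondegenerate), so `os ζ (K ζ) = -2 g₂ ζ ζ` and `os (Kξ) η = - os ξ (Kη)`.  `h4` says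
`os ζ (Sζ) = os (Aζ) (K A ζ) - os ζ (Kζ) = os ζ ((A⁻¹ K A - K) ζ)`; the forms `os ξ (S η)` and
`os ξ ((A⁻¹KA - K) η)` are symmetric, so they agree (polarization) and `S = A⁻¹ K A - K`,
`A' = A S = K A - A K`.  Take `H = -K`. -/
theorem coboundary_of_quadratic (A A' : (ℂ × ℂ) →L[ℝ] (ℂ × ℂ))
    (hA : ∀ ξ η, os (A ξ) (A η) = os ξ η) (hA' : ∀ ξ η, os (A' ξ) (A η) + os (A ξ) (A' η) = 0)
    (g₂ : (ℂ × ℂ) →L[ℝ] (ℂ × ℂ) →L[ℝ] ℝ)
    (h4 : ∀ ζ, os (A ζ) (A' ζ) = -2 * (g₂ (A ζ) (A ζ) - g₂ ζ ζ)) :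
    ∃ H : (ℂ × ℂ) →L[ℝ] (ℂ × ℂ), A' = A.comp H - H.comp A := by
  set f : (ℂ × ℂ) →L[ℝ] (ℂ × ℂ) →L[ℝ] ℝ := -(g₂.flip + g₂) with hf
  have hfv : ∀ η ξ, f η ξ = -(g₂ ξ η + g₂ η ξ) := by
    intro η ξ
    simp [hf]
  let K₀ : (ℂ × ℂ) →ₗ[ℝ] (ℂ × ℂ) :=
    { toFun := fun η =>
        ((⟨-f η (Complex.I, 0), f η (1, 0)⟩ : ℂ), (⟨-f η (0, Complex.I), f η (0, 1)⟩ : ℂ))
      map_add' := by
        intro x y
        refine Prod.ext (Complex.ext ?_ ?_) (Complex.ext ?_ ?_) <;>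
          simp only [map_add, add_apply, Prod.fst_add, Prod.snd_add,
            Complex.add_re, Complex.add_im] <;> ring
      map_smul' := by
        intro c x
        refine Prod.ext (Complex.ext ?_ ?_) (Complex.ext ?_ ?_) <;>
          simp only [map_smul, smul_apply, Prod.smul_fst, Prod.smul_snd,
            Complex.real_smul, Complex.mul_re, Complex.mul_im, Complex.ofReal_re,
            Complex.ofReal_im, smul_eq_mul, RingHom.id_apply] <;> ring }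
  let K : (ℂ × ℂ) →L[ℝ] (ℂ × ℂ) := LinearMap.toContinuousLinearMap K₀
  have hKv : ∀ η, K η =
      ((⟨-f η (Complex.I, 0), f η (1, 0)⟩ : ℂ), (⟨-f η (0, Complex.I), f η (0, 1)⟩ : ℂ)) :=
    fun η => rfl
  have hK : ∀ ξ η, os ξ (K η) = f η ξ := by
    intro ξ η
    have hξ : ξ = ξ.1.re • ((1 : ℂ), (0 : ℂ)) + ξ.1.im • (Complex.I, (0 : ℂ)) +
        ξ.2.re • ((0 : ℂ), (1 : ℂ)) + ξ.2.im • ((0 : ℂ), Complex.I) := by
      refine Prod.ext (Complex.ext ?_ ?_) (Complex.ext ?_ ?_) <;> simp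
    have h1 : f η ξ = ξ.1.re * f η (1, 0) + ξ.1.im * f η (Complex.I, 0) +
        ξ.2.re * f η (0, 1) + ξ.2.im * f η (0, Complex.I) := by
      conv_lhs => rw [hξ]
      simp only [map_add, map_smul, smul_eq_mul]
    rw [h1, hKv]
    simp only [os, Complex.add_im, Complex.mul_im, Complex.conj_re, Complex.conj_im]
    ring
  have hKs : ∀ ξ η, os ξ (K η) = os η (K ξ) := by
    intro ξ η
    rw [hK, hK, hfv, hfv]
    ring
  have hKd : ∀ ζ, os ζ (K ζ) = -2 * g₂ ζ ζ := by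
    intro ζ
    rw [hK, hfv]
    ring
  -- `A` is surjective
  have hinj : Function.Injective (A : (ℂ × ℂ) →ₗ[ℝ] (ℂ × ℂ)) := by
    rw [injective_iff_map_eq_zero]
    intro v hv
    have hv' : A v = 0 := hv
    apply tb_nondeg
    intro ξ
    rw [← hA ξ v, hv']
    simp [os]
  have hsurj : Function.Surjective (A : (ℂ × ℂ) →ₗ[ℝ] (ℂ × ℂ)) :=
    LinearMap.injective_iff_surjective.mp hinj
  let D : (ℂ × ℂ) →L[ℝ] (ℂ × ℂ) := A' - (K.comp A - A.comp K)
  have hDv : ∀ ζ, D ζ = A' ζ - (K (A ζ) - A (K ζ)) := fun ζ => rfl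
  have hdiag : ∀ ζ, os (A ζ) (D ζ) = 0 := by
    intro ζ
    rw [hDv, tb_os_sub_right, tb_os_sub_right, h4, hKd, hA, hKd]
    ring
  have hsymm : ∀ ξ η, os (A ξ) (D η) = os (A η) (D ξ) := by
    intro ξ η
    rw [hDv, hDv, tb_os_sub_right, tb_os_sub_right, tb_os_sub_right, tb_os_sub_right, hA, hA,
      hKs (A ξ) (A η), hKs ξ η]
    have h1 := hA' ξ η
    rw [tb_os_antisymm (A' ξ) (A η)] at h1
    linarith
  have hpol : ∀ ξ η, os (A ξ) (D η) = 0 := by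
    intro ξ η
    have h1 := hdiag (ξ + η)
    rw [map_add, map_add, tb_os_add_left, tb_os_add_right, tb_os_add_right, hdiag, hdiag,
      hsymm η ξ] at h1
    linarith
  have hD0 : ∀ η, D η = 0 := by
    intro η
    apply tb_nondeg
    intro ξ
    obtain ⟨w, hw⟩ := hsurj ξ
    have hw' : A w = ξ := hw
    rw [← hw']
    exact hpol w η
  refine ⟨-K, ?_⟩
  refine ContinuousLinearMap.ext fun ζ => ?_
  have h1 := hD0 ζ
  rw [hDv, sub_eq_zero] at h1
  rw [h1]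
  simp only [sub_apply, ContinuousLinearMap.comp_apply,
    neg_apply, map_neg]
  abel

end Pool.Agent.MP_5027f4_cont
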