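import Pool.Agent.Lib_MP_5027f4_cont.Defs

/-!
PIECE [Volt] (MP_5027f4_mp, T1).  Volterra operators on `C([0, 1], E)`.
-/

open Set Filter Topology Metric
open scoped ContDiff

namespace Pool.Agent.MP_5027f4_cont

variable {E : Type*} [NormedAddCommGroup E] [NormedSpace ℝ E] [CompleteSpace E]

theorem volt_cont_proj (x : C(unitInterval, E)) :
    Continuous (fun t : ℝ => x (projIcc 0 1 zero_le_one t)) :=
  x.continuous.comp continuous_projIcc

/-- the integral operator -/
theorem exists_intOp : ∃ J : C(unitInterval, E) →L[ℝ] C(unitInterval, E),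
    ∀ x (τ : unitInterval), J x τ = ∫ t in (0 : ℝ)..τ, x (projIcc 0 1 zero_le_one t) := by
  have hint : ∀ (x : C(unitInterval, E)) (a b : ℝ), IntervalIntegrable
      (fun t : ℝ => x (projIcc 0 1 zero_le_one t)) MeasureTheory.volume a b :=
    fun x a b => (volt_cont_proj x).intervalIntegrable a b
  have hcont : ∀ x : C(unitInterval, E), Continuous (fun τ : unitInterval =>
      ∫ t in (0 : ℝ)..τ, x (projIcc 0 1 zero_le_one t)) := fun x =>
    (intervalIntegral.continuous_primitive (hint x) 0).comp continuous_subtype_val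
  let L : C(unitInterval, E) →ₗ[ℝ] C(unitInterval, E) :=
    { toFun := fun x => ⟨_, hcont x⟩
      map_add' := by
        intro x y
        ext τ
        exact intervalIntegral.integral_add (hint x 0 τ) (hint y 0 τ)
      map_smul' := by
        intro c x
        ext τ
        exact intervalIntegral.integral_smul c _ }
  have hL : ∀ x (τ : unitInterval), L x τ = ∫ t in (0 : ℝ)..τ, x (projIcc 0 1 zero_le_one t) :=
    fun x τ => rfl
  refine ⟨L.mkContinuous 1 ?_, fun x τ => hL x τ⟩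
  intro x
  rw [one_mul]
  refine (ContinuousMap.norm_le _ (norm_nonneg x)).2 ?_
  intro τ
  rw [hL]
  have h1 : ‖∫ t in (0 : ℝ)..τ, x (projIcc 0 1 zero_le_one t)‖ ≤ ‖x‖ * |(τ : ℝ) - 0| :=
    intervalIntegral.norm_integral_le_of_norm_le_const
      (fun t _ => ContinuousMap.norm_coe_le_norm x _)
  refine h1.trans ?_
  have h2 : |(τ : ℝ) - 0| ≤ 1 := by
    rw [sub_zero, abs_of_nonneg τ.2.1]
    exact τ.2.2
  calc ‖x‖ * |(τ : ℝ) - 0| ≤ ‖x‖ * 1 := by gcongr
    _ = ‖x‖ := mul_one _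

/-- the bound on the iterates -/
theorem volt_pow_bound (J : C(unitInterval, E) →L[ℝ] C(unitInterval, E))
    (hJ : ∀ x (τ : unitInterval), J x τ = ∫ t in (0 : ℝ)..τ, x (projIcc 0 1 zero_le_one t))
    (B : C(unitInterval, E) →L[ℝ] C(unitInterval, E)) (C : ℝ) (hC : 0 ≤ C)
    (hB : ∀ y t, ‖B y t‖ ≤ C * ‖y t‖) (n : ℕ) (y : C(unitInterval, E)) (τ : unitInterval) :
    ‖((J ∘L B) ^ n) y τ‖ ≤ C ^ n * (τ : ℝ) ^ n / (n.factorial : ℝ) * ‖y‖ := by
  induction n generalizing τ with
  | zero =>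
    simp only [pow_zero, Nat.factorial_zero, Nat.cast_one, mul_one, div_one, one_mul]
    exact ContinuousMap.norm_coe_le_norm y τ
  | succ n ih =>
    rw [pow_succ']
    have e1 : ((J ∘L B) * (J ∘L B) ^ n) y = J (B (((J ∘L B) ^ n) y)) := rfl
    rw [e1, hJ]
    set z : C(unitInterval, E) := ((J ∘L B) ^ n) y with hz
    have hτ0 : (0 : ℝ) ≤ τ := τ.2.1
    have hbd : ∀ t ∈ Set.Ioc (0 : ℝ) τ,
        ‖(B z) (projIcc 0 1 zero_le_one t)‖ ≤
          C * (C ^ n * t ^ n / (n.factorial : ℝ) * ‖y‖) := by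
      intro t ht
      have htm : t ∈ Set.Icc (0 : ℝ) 1 := ⟨ht.1.le, ht.2.trans τ.2.2⟩
      have hp : projIcc 0 1 zero_le_one t = (⟨t, htm⟩ : unitInterval) :=
        projIcc_of_mem zero_le_one htm
      rw [hp]
      refine (hB z _).trans ?_
      exact mul_le_mul_of_nonneg_left (ih ⟨t, htm⟩) hC
    have hgint : IntervalIntegrable
        (fun t : ℝ => C * (C ^ n * t ^ n / (n.factorial : ℝ) * ‖y‖)) MeasureTheory.volume 0 τ := by
      apply Continuous.intervalIntegrable
      fun_prop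
    have hmain := intervalIntegral.norm_integral_le_of_norm_le
      (f := fun t : ℝ => (B z) (projIcc 0 1 zero_le_one t))
      (g := fun t : ℝ => C * (C ^ n * t ^ n / (n.factorial : ℝ) * ‖y‖)) hτ0
      (MeasureTheory.ae_of_all _ hbd) hgint
    refine hmain.trans (le_of_eq ?_)
    have e2 : (fun t : ℝ => C * (C ^ n * t ^ n / (n.factorial : ℝ) * ‖y‖)) =
        fun t : ℝ => (C ^ (n + 1) / (n.factorial : ℝ) * ‖y‖) * t ^ n := by
      funext t
      rw [pow_succ]
      ring
    rw [e2, intervalIntegral.integral_const_mul, integral_pow]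
    have hf : ((n + 1).factorial : ℝ) = ((n : ℝ) + 1) * (n.factorial : ℝ) := by
      rw [Nat.factorial_succ]
      push_cast
      ring
    rw [hf]
    have h0 : (n.factorial : ℝ) ≠ 0 := by positivity
    have h1 : ((n : ℝ) + 1) ≠ 0 := by positivity
    have h2 : (0 : ℝ) ^ (n + 1) = 0 := zero_pow (Nat.succ_ne_zero n)
    rw [h2]
    field_simp
    ring

/-- `1 - J B` is invertible when `B` is local.

Proof.  `V = J B` satisfies `‖(V ^ n y) τ‖ ≤ C ^ n * τ ^ n / n! * ‖y‖` (induction on `n`), so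
`‖V ^ n‖ ≤ C ^ n / n! < 1` for some `n`; `1 - V ^ n` is invertible
(`ContinuousLinearMap` Neumann series, `Units.oneSub`), and
`1 - V ^ n = (1 - V) * (1 + V + ... + V ^ (n - 1))` with commuting factors, so `1 - V` is
invertible. -/
theorem volterra_equiv (J : C(unitInterval, E) →L[ℝ] C(unitInterval, E))
    (hJ : ∀ x (τ : unitInterval), J x τ = ∫ t in (0 : ℝ)..τ, x (projIcc 0 1 zero_le_one t))
    (B : C(unitInterval, E) →L[ℝ] C(unitInterval, E)) (C : ℝ)
    (hB : ∀ y t, ‖B y t‖ ≤ C * ‖y t‖) :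
    ∃ Q : C(unitInterval, E) ≃L[ℝ] C(unitInterval, E), ∀ y, Q y = y - J (B y) := by
  have hB' : ∀ y t, ‖B y t‖ ≤ |C| * ‖y t‖ := fun y t =>
    (hB y t).trans (mul_le_mul_of_nonneg_right (le_abs_self C) (norm_nonneg _))
  set V : C(unitInterval, E) →L[ℝ] C(unitInterval, E) := J ∘L B with hV
  obtain ⟨n, hn⟩ : ∃ n : ℕ, |C| ^ n / (n.factorial : ℝ) < 1 :=
    ((FloorSemiring.tendsto_pow_div_factorial_atTop |C|).eventually
      (gt_mem_nhds one_pos)).exists
  have hnorm : ‖V ^ n‖ < 1 := by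
    refine lt_of_le_of_lt (ContinuousLinearMap.opNorm_le_bound _ (by positivity) ?_) hn
    intro y
    refine (ContinuousMap.norm_le _ (by positivity)).2 ?_
    intro τ
    refine (volt_pow_bound J hJ B |C| (abs_nonneg C) hB' n y τ).trans ?_
    have hτ : (τ : ℝ) ^ n ≤ 1 := pow_le_one₀ τ.2.1 τ.2.2
    have : |C| ^ n * (τ : ℝ) ^ n ≤ |C| ^ n := by
      calc |C| ^ n * (τ : ℝ) ^ n ≤ |C| ^ n * 1 := by gcongr
        _ = |C| ^ n := mul_one _
    gcongr
  have hu : IsUnit (1 - V ^ n) := (Units.oneSub (V ^ n) hnorm).isUnit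
  have hfac : (1 - V) * (∑ i ∈ Finset.range n, V ^ i) = 1 - V ^ n := mul_neg_geom_sum V n
  have hcomm : Commute (1 - V) (∑ i ∈ Finset.range n, V ^ i) := by
    apply Commute.sum_right
    intro i _
    exact ((Commute.one_left _).sub_left ((Commute.refl V).pow_right i))
  rw [← hfac] at hu
  obtain ⟨hu1, _⟩ := hcomm.isUnit_mul_iff.1 hu
  obtain ⟨u, hu2⟩ := hu1
  refine ⟨ContinuousLinearEquiv.ofUnit u, ?_⟩
  intro y
  have : (ContinuousLinearEquiv.ofUnit u) y = (u : C(unitInterval, E) →L[ℝ] C(unitInterval, E)) y :=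
    rfl
  rw [this, hu2]
  rfl

end Pool.Agent.MP_5027f4_cont
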