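import Pool.Agent.Lib_MP_5027f4_cont.QDefs
import Pool.Agent.Lib_MP_5027f4_cont.QShift

/-!
# Bifurcation of periodic points with drift, two degrees of freedom: definitions

Theorem T4 (MP_5027f4_mp): near a Lyapunov stable relative periodic orbit no relative periodic orbit
is strongly stable.  The files `W*.lean` treat a double multiplier of definite Krein sign.
-/

open Set Filter Topology Metric Polynomial
open scoped ComplexConjugate ContDiff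

namespace Pool.Agent.MP_5027f4_cont

open QShiftAux (osB osB_apply)

/-- the Euclidean norm of `ℂ × ℂ` -/
noncomputable def nW (w : ℂ × ℂ) : ℝ := Real.sqrt (‖w.1‖ ^ 2 + ‖w.2‖ ^ 2)

theorem nW_sq (w : ℂ × ℂ) : nW w ^ 2 = ‖w.1‖ ^ 2 + ‖w.2‖ ^ 2 := Real.sq_sqrt (by positivity)

theorem nW_nonneg (w : ℂ × ℂ) : 0 ≤ nW w := Real.sqrt_nonneg _

theorem norm_le_nW (w : ℂ × ℂ) : ‖w‖ ≤ nW w := by
  have h1 : ‖w.1‖ ≤ nW w := by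
    refine Real.le_sqrt_of_sq_le ?_
    nlinarith [sq_nonneg ‖w.2‖]
  have h2 : ‖w.2‖ ≤ nW w := by
    refine Real.le_sqrt_of_sq_le ?_
    nlinarith [sq_nonneg ‖w.1‖]
  rw [Prod.norm_def]
  exact max_le h1 h2

theorem nW_le (w : ℂ × ℂ) : nW w ≤ 2 * ‖w‖ := by
  have h1 : ‖w.1‖ ≤ ‖w‖ := norm_fst_le w
  have h2 : ‖w.2‖ ≤ ‖w‖ := norm_snd_le w
  refine Real.sqrt_le_iff.2 ⟨by positivity, ?_⟩
  nlinarith [norm_nonneg w.1, norm_nonneg w.2, norm_nonneg w]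

theorem os_I_self (w : ℂ × ℂ) : os w (Complex.I * w.1, Complex.I * w.2) = nW w ^ 2 := by
  rw [nW_sq, ← Complex.normSq_eq_norm_sq, ← Complex.normSq_eq_norm_sq, Complex.normSq_apply,
    Complex.normSq_apply]
  unfold os
  simp

/-- the one-form `A dc + os (F, dw + dF / 2)` on `ℝ × (ℂ × ℂ)` -/
noncomputable def vp4 (F : ℝ × (ℂ × ℂ) → ℂ × ℂ) (A : ℝ × (ℂ × ℂ) → ℝ) (p : ℝ × (ℂ × ℂ)) :
    ℝ × (ℂ × ℂ) →L[ℝ] ℝ :=
  A p • ContinuousLinearMap.fst ℝ ℝ (ℂ × ℂ) +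
    (osB (F p)).comp (ContinuousLinearMap.snd ℝ ℝ (ℂ × ℂ) + (2⁻¹ : ℝ) • fderiv ℝ F p)

theorem vp4_apply (F : ℝ × (ℂ × ℂ) → ℂ × ℂ) (A : ℝ × (ℂ × ℂ) → ℝ) (p e : ℝ × (ℂ × ℂ)) :
    vp4 F A p e = A p * e.1 + os (F p) (e.2 + (2⁻¹ : ℝ) • fderiv ℝ F p e) := by
  have h : os (F p) (e.2 + (2⁻¹ : ℝ) • fderiv ℝ F p e) =
      osB (F p) (e.2 + (2⁻¹ : ℝ) • fderiv ℝ F p e) := rfl
  rw [h]
  rfl

/-- the closedness condition of `vp4 F A` -/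
def KeyForm4 (F : ℝ × (ℂ × ℂ) → ℂ × ℂ) (A : ℝ × (ℂ × ℂ) → ℝ) : Prop :=
  ∀ᶠ p in 𝓝 (0 : ℝ × (ℂ × ℂ)), ∀ e e' : ℝ × (ℂ × ℂ),
    fderiv ℝ A p e * e'.1 - fderiv ℝ A p e' * e.1 +
      (os e.2 (fderiv ℝ F p e') + os (fderiv ℝ F p e) e'.2 +
        os (fderiv ℝ F p e) (fderiv ℝ F p e')) = 0

end Pool.Agent.MP_5027f4_cont
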