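import Pool.Agent.Lib_MP_5027f4_cont.WLin

/-!
# Normal form of a symplectic map with a definite double multiplier
-/

open Set Filter Topology Metric Polynomial
open scoped ComplexConjugate ContDiff

namespace Pool.Agent.MP_5027f4_cont

/-- a double multiplier of definite sign is semisimple -/
theorem KDef.semisimple {A : (ℂ × ℂ) →L[ℝ] (ℂ × ℂ)} (hs : ∀ ξ η, os (A ξ) (A η) = os ξ η)
    (h : KDef A) {t : ℝ} (hcp : cp A = (X ^ 2 - C t * X + 1) * (X ^ 2 - C t * X + 1))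
    (w : ℂ × ℂ) : A (A w) = t • A w - w := by
  -- Cayley-Hamilton
  have hCH : aeval (A : (ℂ × ℂ) →ₗ[ℝ] (ℂ × ℂ)) (cp A) = 0 :=
    LinearMap.aeval_self_charpoly (A : (ℂ × ℂ) →ₗ[ℝ] (ℂ × ℂ))
  rw [hcp] at hCH
  set N : (ℂ × ℂ) →ₗ[ℝ] (ℂ × ℂ) := aeval (A : (ℂ × ℂ) →ₗ[ℝ] (ℂ × ℂ)) (X ^ 2 - C t * X + 1 : ℝ[X])
    with hN
  have hNv : ∀ v : ℂ × ℂ, N v = A (A v) - t • A v + v := by
    intro v
    rw [hN]
    simp only [map_add, map_sub, map_mul, map_pow, aeval_X, aeval_C, map_one]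
    simp [pow_two, Algebra.algebraMap_eq_smul_one]
  have hNN : ∀ v : ℂ × ℂ, N (N v) = 0 := by
    intro v
    have h1 := congrArg (fun L : (ℂ × ℂ) →ₗ[ℝ] (ℂ × ℂ) => L v) hCH
    simp only [map_mul] at h1
    exact h1
  set u := N w with hu
  have hu2 : A (A u) = t • A u - u := by
    have h1 := hNN w
    rw [← hu, hNv] at h1
    have h2 : A (A u) = t • A u - u := by
      rw [← sub_eq_zero]
      rw [← h1]
      abel
    exact h2
  have hQ : os u (A u) = 0 := by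
    have h1 : os u (A u) = os (A (A w)) (A u) - t * os (A w) (A u) + os w (A u) := by
      have h3 : os u (A u) = os (A (A w) - t • A w + w) (A u) :=
        congrArg (fun z => os z (A u)) (hNv w)
      rw [h3, wf_add_left, wf_sub_left, wf_smul_left]
    have h2 : os (A w) u = t * os (A w) (A u) - os (A w) (A (A u)) := by
      rw [hu2, wf_sub_right, wf_smul_right]
      ring
    rw [hs, hs] at h1
    rw [hs, hs] at h2
    linarith
  have hu0 := h.ne hQ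
  rw [hu, hNv] at hu0
  rw [← sub_eq_zero, ← hu0]
  abel

/-- a symplectic frame adapted to `A` -/
theorem frame_conj (A : (ℂ × ℂ) →L[ℝ] (ℂ × ℂ)) {μ : ℂ} {e₁ f₁ e₂ f₂ : ℂ × ℂ}
    (ef₁ : os e₁ f₁ = 1) (ef₂ : os e₂ f₂ = 1) (c1 : os e₁ e₂ = 0) (c2 : os e₁ f₂ = 0)
    (c3 : os f₁ e₂ = 0) (c4 : os f₁ f₂ = 0)
    (Ae₁ : A e₁ = μ.re • e₁ + μ.im • f₁) (Af₁ : A f₁ = μ.re • f₁ - μ.im • e₁)
    (Ae₂ : A e₂ = μ.re • e₂ + μ.im • f₂) (Af₂ : A f₂ = μ.re • f₂ - μ.im • e₂) :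
    ∃ L : (ℂ × ℂ) ≃L[ℝ] (ℂ × ℂ), (∀ ξ η, os (L ξ) (L η) = os ξ η) ∧
      ∀ ξ, L (A ξ) = μ • L ξ := by
  have c1' : os e₂ e₁ = 0 := by rw [lnf_os_swap, c1, neg_zero]
  have c2' : os f₂ e₁ = 0 := by rw [lnf_os_swap, c2, neg_zero]
  have c3' : os e₂ f₁ = 0 := by rw [lnf_os_swap, c3, neg_zero]
  have c4' : os f₂ f₁ = 0 := by rw [lnf_os_swap, c4, neg_zero]
  have g1 : os f₁ e₁ = -1 := by rw [lnf_os_swap, ef₁]
  have g2 : os f₂ e₂ = -1 := by rw [lnf_os_swap, ef₂]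
  have hsym : ∀ z w : ℂ × ℂ, os (lnfFrm e₁ f₁ e₂ f₂ z) (lnfFrm e₁ f₁ e₂ f₂ w) = os z w := by
    intro z w
    rw [lnf_frm_apply, lnf_frm_apply]
    have h1 : z.1.re • e₁ + z.1.im • f₁ + (z.2.re • e₂ + z.2.im • f₂) =
        (1 : ℝ) • (z.1.re • e₁ + z.1.im • f₁) + (1 : ℝ) • (z.2.re • e₂ + z.2.im • f₂) := by module
    have h2 : w.1.re • e₁ + w.1.im • f₁ + (w.2.re • e₂ + w.2.im • f₂) =
        (1 : ℝ) • (w.1.re • e₁ + w.1.im • f₁) + (1 : ℝ) • (w.2.re • e₂ + w.2.im • f₂) := by module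
    rw [h1, h2, lnf_os_lin, lnf_os_lin, lnf_os_lin, lnf_os_lin, lnf_os_lin, c1, c2, c3, c4, c1', c2', c3', c4', g1, g2,
      ef₁, ef₂, lnf_os_self, lnf_os_self, lnf_os_self, lnf_os_self]
    simp only [os, Complex.add_im, Complex.mul_im, Complex.conj_re, Complex.conj_im]
    ring
  have hinj : Function.Injective (lnfFrm e₁ f₁ e₂ f₂) := by
    rw [← LinearMap.ker_eq_bot, LinearMap.ker_eq_bot']
    intro z hz
    apply lnf_os_nondeg
    intro y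
    rw [← hsym, hz]
    simp [os]
  set Li := (LinearEquiv.ofInjectiveEndo (lnfFrm e₁ f₁ e₂ f₂) hinj).toContinuousLinearEquiv with hLi
  have hLia : ∀ z, Li z = lnfFrm e₁ f₁ e₂ f₂ z := fun z => rfl
  have hcomm : ∀ z, A (Li z) = Li (μ • z) := by
    intro z
    rw [hLia, hLia, lnf_frm_apply, lnf_frm_apply]
    simp only [map_add, map_smul, Ae₁, Af₁, Ae₂, Af₂, Prod.smul_fst, Prod.smul_snd, smul_eq_mul,
      Complex.mul_re, Complex.mul_im]
    module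
  refine ⟨Li.symm, ?_, ?_⟩
  · intro ξ η
    rw [← hsym, ← hLia, ← hLia, Li.apply_symm_apply, Li.apply_symm_apply]
  · intro ξ
    rw [ContinuousLinearEquiv.symm_apply_eq, ← hcomm, Li.apply_symm_apply]

/-- **Normal form.** -/
theorem KDef.normal {A : (ℂ × ℂ) →L[ℝ] (ℂ × ℂ)} (hs : ∀ ξ η, os (A ξ) (A η) = os ξ η)
    (h : KDef A) {t : ℝ} (ht : |t| < 2) (hq : ∀ w, A (A w) = t • A w - w) :
    ∃ (L : (ℂ × ℂ) ≃L[ℝ] (ℂ × ℂ)) (μ : ℂ), ‖μ‖ = 1 ∧ 2 * μ.re = t ∧ μ.im ≠ 0 ∧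
      (∀ ξ η, os (L ξ) (L η) = os ξ η) ∧ ∀ ξ, L (A ξ) = μ • L ξ := by
  obtain ⟨b, hb, hbt⟩ : ∃ b : ℝ, 0 < b ∧ b ^ 2 = 1 - t ^ 2 / 4 := by
    have h1 : 0 < 1 - t ^ 2 / 4 := by
      have := abs_lt.1 ht
      nlinarith
    exact ⟨Real.sqrt (1 - t ^ 2 / 4), Real.sqrt_pos.2 h1, Real.sq_sqrt h1.le⟩
  obtain ⟨β, hβ2, hβ⟩ : ∃ β : ℝ, β ^ 2 = 1 - t ^ 2 / 4 ∧ ∀ v, v ≠ 0 → 0 < os v (A v) / β := by
    rcases h with h | h
    · exact ⟨b, hbt, fun v hv => div_pos (h v hv) hb⟩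
    · refine ⟨-b, by rw [neg_sq, hbt], fun v hv => ?_⟩
      have := h v hv
      exact div_pos_of_neg_of_neg this (by linarith)
  have hβ0 : β ≠ 0 := by
    intro h0
    have h1 := hβ ((1 : ℂ), (0 : ℂ)) (by simp)
    rw [h0, div_zero] at h1
    exact lt_irrefl _ h1
  -- the complex structure
  set J : (ℂ × ℂ) →L[ℝ] (ℂ × ℂ) := β⁻¹ • (A - (t / 2) • ContinuousLinearMap.id ℝ (ℂ × ℂ)) with hJ
  have hJa : ∀ v, J v = β⁻¹ • (A v - (t / 2) • v) := fun v => rfl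
  have hAJ : ∀ v, A v = (t / 2) • v + β • J v := by
    intro v
    rw [hJa, smul_smul, mul_inv_cancel₀ hβ0, one_smul]
    abel
  have hJJ : ∀ v, J (J v) = -v := by
    intro v
    have e1 : A (J v) = β⁻¹ • (A (A v) - (t / 2) • A v) := by
      rw [hJa, map_smul, map_sub, map_smul]
    rw [hJa (J v), e1, hJa v, hq]
    have e2 : β⁻¹ * β⁻¹ * (t ^ 2 / 4 - 1) = -1 := by
      rw [show t ^ 2 / 4 - 1 = -β ^ 2 by rw [hβ2]; ring]
      field_simp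
    have e3 : β⁻¹ • (β⁻¹ • (t • A v - v - (t / 2) • A v) - (t / 2) • β⁻¹ • (A v - (t / 2) • v)) =
        (β⁻¹ * β⁻¹ * (t ^ 2 / 4 - 1)) • v := by module
    rw [e3, e2]
    module
  have hadj : ∀ v w, os (A v) w + os v (A w) = t * os v w := by
    intro v w
    have h2 : os (A v) w = t * os (A v) (A w) - os (A v) (A (A w)) := by
      rw [hq, wf_sub_right, wf_smul_right]
      ring
    rw [hs, hs] at h2
    linarith
  have hJs : ∀ v w, os (J v) (J w) = os v w := by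
    intro v w
    rw [hJa, hJa, wf_smul_left, wf_smul_right, wf_sub_left, wf_sub_right, wf_sub_right,
      wf_smul_left, wf_smul_left, wf_smul_right, wf_smul_right, hs]
    have e1 : β⁻¹ * β⁻¹ * (1 - t ^ 2 / 4) = 1 := by
      rw [← hβ2]
      field_simp
    have e2 := hadj v w
    calc _ = β⁻¹ * β⁻¹ * (os v w - t / 2 * (os (A v) w + os v (A w)) + t ^ 2 / 4 * os v w) := by
          ring
      _ = (β⁻¹ * β⁻¹ * (1 - t ^ 2 / 4)) * os v w := by rw [e2]; ring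
      _ = os v w := by rw [e1, one_mul]
  have hJp : ∀ v, v ≠ 0 → 0 < os v (J v) := by
    intro v hv
    rw [hJa, wf_smul_right, wf_sub_right, wf_smul_right, wf_self, mul_zero, sub_zero,
      inv_mul_eq_div]
    exact hβ v hv
  -- normalized vectors
  have hnorm : ∀ v, v ≠ 0 → ∃ r : ℝ, r ≠ 0 ∧ os (r • v) (J (r • v)) = 1 := by
    intro v hv
    have h1 := hJp v hv
    refine ⟨(Real.sqrt (os v (J v)))⁻¹, inv_ne_zero (Real.sqrt_pos.2 h1).ne', ?_⟩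
    rw [map_smul, wf_smul_left, wf_smul_right]
    have h2 : Real.sqrt (os v (J v)) * Real.sqrt (os v (J v)) = os v (J v) :=
      Real.mul_self_sqrt h1.le
    have h3 := (Real.sqrt_pos.2 h1).ne'
    field_simp
    rw [sq, h2]
  obtain ⟨r₁, -, hr₁⟩ := hnorm ((1 : ℂ), (0 : ℂ)) (by simp)
  set e₁ := r₁ • (((1 : ℂ), (0 : ℂ)) : ℂ × ℂ) with he₁
  set f₁ := J e₁ with hf₁
  have ef₁ : os e₁ f₁ = 1 := hr₁
  have fe₁ : os f₁ e₁ = -1 := by rw [wf_anti, ef₁]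
  -- a vector outside of the first plane
  obtain ⟨v, hv⟩ : ∃ v : ℂ × ℂ, v ∉ Submodule.span ℝ (Set.range ![e₁, f₁]) := by
    by_contra hcon
    push Not at hcon
    have h1 : Submodule.span ℝ (Set.range ![e₁, f₁]) = ⊤ := by
      rw [eq_top_iff]
      exact fun x _ => hcon x
    have h2 : Module.finrank ℝ (Submodule.span ℝ (Set.range ![e₁, f₁])) ≤ 2 := by
      have := finrank_range_le_card (R := ℝ) ![e₁, f₁]
      simpa [Set.finrank] using this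
    rw [h1, finrank_top] at h2
    have h3 : Module.finrank ℝ (ℂ × ℂ) = 4 := by
      simp [Complex.finrank_real_complex]
    omega
  set v' := v - os v f₁ • e₁ + os v e₁ • f₁ with hv'
  have hv'0 : v' ≠ 0 := by
    intro h0
    apply hv
    have h1 : v = os v f₁ • e₁ + (-os v e₁) • f₁ := by
      have : v - os v f₁ • e₁ + os v e₁ • f₁ = 0 := h0
      rw [neg_smul, ← sub_eq_add_neg]
      rw [← sub_eq_zero, ← this]
      abel
    rw [h1]
    refine Submodule.add_mem _ (Submodule.smul_mem _ _ (Submodule.subset_span ⟨0, rfl⟩))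
      (Submodule.smul_mem _ _ (Submodule.subset_span ⟨1, rfl⟩))
  have k1 : os v' e₁ = 0 := by
    rw [hv', wf_add_left, wf_sub_left, wf_smul_left (os v f₁) e₁ e₁,
      wf_smul_left (os v e₁) f₁ e₁, wf_self, fe₁]
    ring
  have k2 : os v' f₁ = 0 := by
    rw [hv', wf_add_left, wf_sub_left, wf_smul_left (os v f₁) e₁ f₁,
      wf_smul_left (os v e₁) f₁ f₁, wf_self, ef₁]
    ring
  obtain ⟨r₂, -, hr₂⟩ := hnorm v' hv'0
  set e₂ := r₂ • v' with he₂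
  set f₂ := J e₂ with hf₂
  have ef₂ : os e₂ f₂ = 1 := hr₂
  have m1 : os e₂ e₁ = 0 := by rw [he₂, wf_smul_left, k1, mul_zero]
  have m2 : os e₂ f₁ = 0 := by rw [he₂, wf_smul_left, k2, mul_zero]
  have c1 : os e₁ e₂ = 0 := by rw [wf_anti, m1, neg_zero]
  have c3 : os f₁ e₂ = 0 := by rw [wf_anti, m2, neg_zero]
  have c4 : os f₁ f₂ = 0 := by rw [hf₁, hf₂, hJs, c1]
  have c2 : os e₁ f₂ = 0 := by
    have h1 := hJs e₁ f₂
    rw [← h1, hf₂, hJJ, wf_neg_right, ← hf₁, c3, neg_zero]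
  set μ : ℂ := ⟨t / 2, β⟩ with hμ
  obtain ⟨L, hL, hLA⟩ := frame_conj A (μ := μ) ef₁ ef₂ c1 c2 c3 c4 (hAJ e₁)
    (by rw [hAJ f₁, hf₁, hJJ]; change _ = (t / 2) • J e₁ - β • e₁; module)
    (hAJ e₂) (by rw [hAJ f₂, hf₂, hJJ]; change _ = (t / 2) • J e₂ - β • e₂; module)
  refine ⟨L, μ, ?_, by rw [hμ]; ring, hβ0, hL, hLA⟩
  have e5 : ‖μ‖ ^ 2 = 1 := by
    rw [← Complex.normSq_eq_norm_sq, Complex.normSq_apply, hμ]
    simp only
    nlinarith
  exact (pow_eq_one_iff_of_nonneg (norm_nonneg _) two_ne_zero).1 e5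

end Pool.Agent.MP_5027f4_cont
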