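import Pool.Agent.Lib_MP_5027f4_cont.WDefs

/-!
# Powers of a family of linear maps with a double multiplier
-/

open Set Filter Topology Metric Polynomial
open scoped ComplexConjugate ContDiff

namespace Pool.Agent.MP_5027f4_cont

theorem wp_pow {A : ℝ → (ℂ × ℂ) →L[ℝ] (ℂ × ℂ)} {A' : (ℂ × ℂ) →L[ℝ] (ℂ × ℂ)} {μ β : ℂ}
    {Γ : ℂ × ℂ → ℂ × ℂ} (hd : HasDerivAt A A' 0) (h0 : ∀ z : ℂ × ℂ, A 0 z = μ • z)
    (hβ : ∀ w, A' w = β • w + Γ w) (hΓ : ∀ w, Γ (μ • w) = conj μ • Γ w) (n : ℕ) :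
    (∀ w : ℂ × ℂ, (A 0 ^ n) w = μ ^ n • w) ∧
    ∃ (D : (ℂ × ℂ) →L[ℝ] (ℂ × ℂ)) (a S : ℂ), HasDerivAt (fun c => A c ^ n) D 0 ∧
      (∀ w, D w = a • w + S • Γ w) ∧ μ * a = n * β * μ ^ n ∧
      (μ - conj μ) * S = μ ^ n - conj μ ^ n := by
  have hΓn : ∀ (n : ℕ) (w : ℂ × ℂ), Γ (μ ^ n • w) = conj μ ^ n • Γ w := by
    intro n
    induction n with
    | zero => intro w; simp
    | succ n ih =>
      intro w
      rw [pow_succ', mul_smul, hΓ, ih, smul_smul, ← pow_succ']
  induction n with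
  | zero =>
    refine ⟨fun w => by simp, 0, 0, 0, ?_, by simp, by simp, by simp⟩
    simp only [pow_zero]
    exact hasDerivAt_const _ _
  | succ n ih =>
    obtain ⟨ih0, D, a, S, hD, hw, ha, hS⟩ := ih
    have e : ∀ w : ℂ × ℂ, (A 0 ^ (n + 1)) w = μ ^ (n + 1) • w := by
      intro w
      rw [pow_succ', mul_apply_eq_comp, ih0, h0, smul_smul, ← pow_succ']
    refine ⟨e, A' * A 0 ^ n + A 0 * D, β * μ ^ n + μ * a, conj μ ^ n + μ * S, ?_, ?_, ?_, ?_⟩
    · have h1 := hd.mul hD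
      refine h1.congr_of_eventuallyEq (Filter.Eventually.of_forall fun c => ?_)
      exact pow_succ' _ _
    · intro w
      rw [add_apply, mul_apply_eq_comp, mul_apply_eq_comp, ih0, hβ, h0, hw, hΓn]
      module
    · push_cast
      rw [mul_add, ha]
      ring
    · rw [mul_add, ← mul_assoc, mul_comm (μ - conj μ) μ, mul_assoc, hS]
      ring

/-- A family with a persistent semisimple double multiplier, at a root of unity. -/
theorem dbl_alpha {A : ℝ → (ℂ × ℂ) →L[ℝ] (ℂ × ℂ)} {A' : (ℂ × ℂ) →L[ℝ] (ℂ × ℂ)} {μ : ℂ}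
    {t : ℝ → ℝ} {t' : ℝ} (hd : HasDerivAt A A' 0) (ht : HasDerivAt t t' 0)
    (hq : ∀ᶠ c in 𝓝 (0 : ℝ), ∀ w, A c (A c w) = t c • A c w - w)
    (h0 : ∀ z : ℂ × ℂ, A 0 z = μ • z) (h1 : ‖μ‖ = 1) (hne : μ ^ 2 ≠ 1) {n : ℕ} (hμ : μ ^ n = 1)
    (w : ℂ × ℂ) : HasDerivAt (fun c : ℝ => (A c ^ n) w)
      (((-(n * t') / (2 * μ.im) : ℝ) : ℂ) * Complex.I * w.1,
        ((-(n * t') / (2 * μ.im) : ℝ) : ℂ) * Complex.I * w.2) 0 := by
  have hn1 : conj μ * μ = 1 := by
    rw [Complex.conj_mul', h1]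
    simp
  have hsub : μ - conj μ ≠ 0 := by
    intro h
    apply hne
    have h' : μ = conj μ := sub_eq_zero.1 h
    rw [sq]
    nth_rewrite 1 [h']
    exact hn1
  -- the value of `t` at `0`
  have ht0 : ((t 0 : ℝ) : ℂ) = μ + conj μ := by
    have h2 := hq.self_of_nhds (1, 0)
    rw [h0, h0] at h2
    have h3 := congrArg Prod.fst h2
    simp only [Prod.smul_fst, Prod.fst_sub, smul_eq_mul, mul_one, Complex.real_smul] at h3
    have hμ0 : μ ≠ 0 := by
      intro h
      rw [h, norm_zero] at h1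
      exact zero_ne_one h1
    apply mul_right_cancel₀ hμ0
    rw [add_mul, hn1]
    linear_combination -h3
  -- the derivative of the quadratic relation
  have hap : ∀ z : ℂ × ℂ, HasDerivAt (fun c => A c z) (A' z) 0 := by
    intro z
    have h := hd.clm_apply (hasDerivAt_const (0 : ℝ) z)
    simpa using h
  have hrel : ∀ w : ℂ × ℂ, A' (μ • w) = t' • (μ • w) + conj μ • A' w := by
    intro w
    have e1 : HasDerivAt (fun c => A c (A c w)) (A' (A 0 w) + A 0 (A' w)) 0 :=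
      hd.clm_apply (hap w)
    have e2 : HasDerivAt (fun c => t c • A c w - w) (t 0 • A' w + t' • A 0 w) 0 :=
      (ht.smul (hap w)).sub_const w
    have e3 := e1.unique (e2.congr_of_eventuallyEq (hq.mono fun c hc => hc w))
    rw [h0, h0] at e3
    have e4 : t 0 • A' w = (μ + conj μ) • A' w := by
      rw [← ht0, Complex.coe_smul]
    rw [e4] at e3
    have e5 : A' (μ • w) = (μ + conj μ) • A' w + t' • (μ • w) - μ • A' w :=
      eq_sub_of_add_eq e3
    rw [e5]
    module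
  set β : ℂ := t' * μ / (μ - conj μ) with hβ
  have hβe : β * (μ - conj μ) = t' * μ := by
    rw [hβ, div_mul_cancel₀ _ hsub]
  obtain ⟨-, D, a, S, hD, hw, ha, hS⟩ := wp_pow (A := A) (A' := A') (μ := μ) (β := β)
    (Γ := fun w => A' w - β • w) hd h0 (fun w => by simp) (fun w => by
      change A' (μ • w) - β • (μ • w) = conj μ • (A' w - β • w)
      rw [hrel]
      have e1 : t' • (μ • w) = (β * (μ - conj μ)) • w := by
        rw [hβe, mul_smul, Complex.coe_smul]
      rw [e1]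
      module) n
  have hμc : conj μ ^ n = 1 := by
    rw [← map_pow, hμ, map_one]
  have hS0 : S = 0 := by
    rw [hμ, hμc, sub_self, mul_eq_zero] at hS
    exact hS.resolve_left hsub
  have hmc : μ - conj μ = 2 * (μ.im : ℂ) * Complex.I := by
    apply Complex.ext <;> simp
    ring
  have him : (μ.im : ℂ) ≠ 0 := by
    intro h
    apply hsub
    rw [hmc, h]
    simp
  have haI : a = ((-(n * t') / (2 * μ.im) : ℝ) : ℂ) * Complex.I := by
    rw [hμ, mul_one] at ha
    have h2 : a = n * (conj μ * β) := by linear_combination (conj μ) * ha - a * hn1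
    have h3 : conj μ * β * (μ - conj μ) = t' := by
      rw [mul_assoc, hβe]
      linear_combination (t' : ℂ) * hn1
    have h4 : a * (μ - conj μ) = n * t' := by
      rw [h2]
      linear_combination (n : ℂ) * h3
    apply mul_right_cancel₀ hsub
    rw [h4, hmc]
    push_cast
    field_simp
    ring_nf
    simp
  have h3 := hD.clm_apply (hasDerivAt_const (0 : ℝ) w)
  refine h3.congr_deriv ?_
  rw [map_zero, add_zero, hw, hS0, haI]
  simp
  rfl

end Pool.Agent.MP_5027f4_cont
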