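import Pool.Agent.Lib_MP_5027f4_cont.WEst
import Pool.Agent.Lib_MP_5027f4_cont.WMin

/-!
# Bifurcation of periodic points with drift, definite double multiplier
-/

open Set Filter Topology Metric Polynomial
open scoped ComplexConjugate ContDiff

namespace Pool.Agent.MP_5027f4_cont

variable {P : ℝ × (ℂ × ℂ) → ℂ × ℂ} {a : ℝ × (ℂ × ℂ) → ℝ}

theorem key_form4 (h : Fam P a) : KeyForm4 (fun p => P p - p.2) a := by
  have hPd : ∀ᶠ p in 𝓝 (0 : ℝ × (ℂ × ℂ)), DifferentiableAt ℝ P p :=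
    h.anP.eventually_analyticAt.mono fun p hp => hp.differentiableAt
  filter_upwards [hPd, h.symp, h.rel] with p h1 h3 h4
  intro e e'
  have eF : ∀ e : ℝ × (ℂ × ℂ), fderiv ℝ (fun p => P p - p.2) p e = fderiv ℝ P p e - e.2 := by
    intro e
    have h5 : fderiv ℝ (fun p : ℝ × (ℂ × ℂ) => P p - p.2) p = _ :=
      (h1.hasFDerivAt.sub hasFDerivAt_snd).fderiv
    rw [h5]
    rfl
  have sp : ∀ e : ℝ × (ℂ × ℂ), e = e.1 • ((1 : ℝ), (0 : ℂ × ℂ)) + (0, e.2) := by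
    intro e
    ext <;> simp
  have kP : ∀ e : ℝ × (ℂ × ℂ), fderiv ℝ P p e = e.1 • fderiv ℝ P p (1, 0) + dz P p e.2 := by
    intro e
    conv_lhs => rw [sp e]
    rw [map_add, map_smul]
    rfl
  have ka : ∀ e : ℝ × (ℂ × ℂ), fderiv ℝ a p e =
      e.1 * fderiv ℝ a p (1, 0) - os (dz P p e.2) (fderiv ℝ P p (1, 0)) := by
    intro e
    conv_lhs => rw [sp e]
    rw [map_add, map_smul, h4, smul_eq_mul]
    ring
  have h5 := h3 e.2 e'.2
  rw [eF, eF, ka e, ka e', kP e, kP e']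
  have h6 := wf_anti (fderiv ℝ P p (1, 0)) (dz P p e'.2)
  simp only [sub_eq_add_neg, wf_add_right, wf_add_left, wf_smul_left, wf_smul_right, wf_neg_left,
    wf_neg_right, wf_self]
  linear_combination h5 + e.1 * h6

/-- If the linear part at the fixed point is the identity and rotates with nonzero speed `α`, there
are fixed points near `0` with nonzero displacement. -/
theorem alpha_zero4 (h : Fam P a) (h0 : ∀ z : ℂ × ℂ, dz P 0 z = z) {α : ℝ}
    (h1 : ∀ w : ℂ × ℂ, HasDerivAt (fun c : ℝ => dz P (c, 0) w)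
      ((α : ℂ) * Complex.I * w.1, (α : ℂ) * Complex.I * w.2) 0)
    (hnd : ∀ᶠ q in 𝓝 (0 : ℝ × (ℂ × ℂ)), P q = q.2 → a q = 0) : α = 0 := by
  set F : ℝ × (ℂ × ℂ) → ℂ × ℂ := fun p => P p - p.2 with hFdef
  have hF : AnalyticAt ℝ F 0 := h.anP.sub analyticAt_snd
  have hc0 : Tendsto (fun c : ℝ => ((c, 0) : ℝ × (ℂ × ℂ))) (𝓝 0) (𝓝 0) := by
    have : ContinuousAt (fun c : ℝ => ((c, 0) : ℝ × (ℂ × ℂ))) 0 := by fun_prop
    exact this.tendsto
  have hF0 : ∀ᶠ c in 𝓝 (0 : ℝ), F (c, 0) = 0 := by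
    filter_upwards [h.P0] with c h3
    rw [hFdef]
    simp only [h3, sub_self]
  have hdF : ∀ᶠ p in 𝓝 (0 : ℝ × (ℂ × ℂ)), ∀ δ : ℂ × ℂ, fderiv ℝ F p (0, δ) = dz P p δ - δ := by
    filter_upwards [h.anP.eventually_analyticAt] with p h2 δ
    have h5 : fderiv ℝ F p = _ := (h2.differentiableAt.hasFDerivAt.sub hasFDerivAt_snd).fderiv
    rw [h5]
    rfl
  have hF1 : ∀ δ : ℂ × ℂ, fderiv ℝ F 0 (0, δ) = 0 := by
    intro δ
    rw [hdF.self_of_nhds δ, h0, sub_self]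
  have hF2 : ∀ δ : ℂ × ℂ, HasDerivAt (fun c : ℝ => fderiv ℝ F (c, 0) (0, δ))
      ((α : ℂ) * Complex.I * δ.1, (α : ℂ) * Complex.I * δ.2) 0 := by
    intro δ
    refine ((h1 δ).sub_const δ).congr_of_eventuallyEq ?_
    filter_upwards [hc0.eventually hdF] with c h2
    exact h2 δ
  have hk : KeyForm4 F a := key_form4 h
  obtain ⟨σ, hσ0, hσ⟩ := exists_sigma4 hF h.ana hk
  obtain ⟨r, hr, H, g1, g2, g3, g4, g5, hH⟩ := est_all4 hF h.ana hF0 h.a0 hF1 hF2 hk hσ0 hσ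
  by_contra hα
  -- a small derivative of `F` in the second variable
  have hsm : ∀ᶠ p in 𝓝 (0 : ℝ × (ℂ × ℂ)),
      ‖(fderiv ℝ F p).comp (ContinuousLinearMap.inr ℝ ℝ (ℂ × ℂ))‖ < 1 := by
    have e1 : ContinuousAt (fun p => (fderiv ℝ F p).comp (ContinuousLinearMap.inr ℝ ℝ (ℂ × ℂ))) 0 :=
      hF.fderiv.continuousAt.clm_comp continuousAt_const
    have e2 : (fderiv ℝ F 0).comp (ContinuousLinearMap.inr ℝ ℝ (ℂ × ℂ)) = 0 := by
      refine ContinuousLinearMap.ext fun z => ?_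
      exact hF1 z
    have e3 := e1.norm
    rw [ContinuousAt, e2, norm_zero] at e3
    exact e3.eventually (gt_mem_nhds one_pos)
  obtain ⟨δ, hδ, hδg⟩ := g1 (|α| / 4) (by positivity)
  obtain ⟨ε₁, hε₁, hball⟩ := Metric.eventually_nhds_iff_ball.1 (hsm.and hnd)
  -- the Euclidean norm
  set e := WithLp.prodContinuousLinearEquiv 2 ℝ ℂ ℂ with he
  have hen : ∀ w : WithLp 2 (ℂ × ℂ), nW (e w) = ‖w‖ := fun w =>
    (WithLp.prod_norm_eq_of_L2 w).symm
  have hle : ∀ w : WithLp 2 (ℂ × ℂ), ‖e w‖ ≤ ‖w‖ := fun w => by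
    rw [← hen]
    exact norm_le_nW _
  set T : ℝ × WithLp 2 (ℂ × ℂ) →L[ℝ] ℝ × (ℂ × ℂ) :=
    (ContinuousLinearMap.fst ℝ ℝ (WithLp 2 (ℂ × ℂ))).prod
      ((e : WithLp 2 (ℂ × ℂ) →L[ℝ] ℂ × ℂ).comp
        (ContinuousLinearMap.snd ℝ ℝ (WithLp 2 (ℂ × ℂ)))) with hT
  have hTa : ∀ q, T q = (q.1, e q.2) := fun q => rfl
  have hTn : ∀ q, ‖T q‖ ≤ ‖q‖ := fun q => by
    rw [hTa, Prod.norm_def, Prod.norm_def]
    exact max_le_max le_rfl (hle _)
  have hsq : ∀ w : WithLp 2 (ℂ × ℂ), ‖e w‖ ^ 2 ≤ ‖w‖ ^ 2 := fun w =>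
    pow_le_pow_left₀ (norm_nonneg _) (hle w) 2
  obtain ⟨c, w, hc, hw, hw0, hcrit⟩ := wminmax (W := WithLp 2 (ℂ × ℂ)) (σ := fun q => σ (T q))
    (ϖ := fun q => (vp4 F a (T q)).comp T) (r := r) (H := H) (α := -α) hr (neg_ne_zero.2 hα)
    (fun q hq => (g5 (T q) ((hTn q).trans_lt hq)).comp q T.hasFDerivAt)
    (by
      have h2 : ContinuousOn (fun q => vp4 F a (T q)) (ball 0 r) := by
        refine g4.comp T.continuous.continuousOn fun q hq => ?_
        rw [mem_ball_zero_iff] at hq ⊢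
        exact (hTn q).trans_lt hq
      exact h2.clm_comp continuousOn_const)
    (by
      intro η hη
      obtain ⟨δ', hδ', h2⟩ := g1 η hη
      refine ⟨δ', hδ', fun c w hc hw => ?_⟩
      have h3 := h2 c (e w) hc ((hle w).trans_lt hw)
      rw [hen] at h3
      exact h3.trans (mul_le_mul_of_nonneg_left (hsq w) hη.le))
    (by
      intro c c' w hc hc' hw
      refine (g2 c c' (e w) hc hc' ((hle w).trans_lt hw)).trans ?_
      exact mul_le_mul_of_nonneg_right (mul_le_mul_of_nonneg_left (hsq w) hH) (abs_nonneg _))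
    (by
      intro w hw
      refine (g3 (e w) ((hle w).trans_lt hw)).trans ?_
      exact mul_le_mul_of_nonneg_left (pow_le_pow_left₀ (norm_nonneg _) (hle w) 3) hH)
    (lt_min hε₁ hδ)
  have hwε : ‖e w‖ < ε₁ := (hle w).trans_lt (hw.trans_le (min_le_left _ _))
  have hmem : ((c, e w) : ℝ × (ℂ × ℂ)) ∈ ball 0 ε₁ := by
    rw [mem_ball_zero_iff, Prod.norm_def]
    exact max_lt (lt_of_lt_of_le hc (min_le_left _ _)) hwε
  obtain ⟨k1, k3⟩ := hball _ hmem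
  have hcrit' : ∀ v : ℂ × ℂ, vp4 F a (c, e w) (0, v) = 0 := by
    intro v
    have h2 := hcrit (e.symm v)
    have h3 : (T (0, e.symm v)) = (0, v) := by
      rw [hTa, ContinuousLinearEquiv.apply_symm_apply]
    change vp4 F a (T (c, w)) (T (0, e.symm v)) = 0 at h2
    rw [h3] at h2
    exact h2
  have hF00 : F (c, e w) = 0 := by
    by_contra hne
    set f := F (c, e w) with hf
    have e1 := hcrit' (Complex.I * f.1, Complex.I * f.2)
    rw [vp4_apply] at e1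
    set D := (fderiv ℝ F (c, e w)).comp (ContinuousLinearMap.inr ℝ ℝ (ℂ × ℂ)) with hD
    have e2 : fderiv ℝ F (c, e w) (0, (Complex.I * f.1, Complex.I * f.2)) =
        D (Complex.I * f.1, Complex.I * f.2) := rfl
    rw [e2, ← hf] at e1
    have e8 : ‖((Complex.I * f.1, Complex.I * f.2) : ℂ × ℂ)‖ = ‖f‖ := by
      rw [Prod.norm_def, Prod.norm_def, norm_mul, norm_mul, Complex.norm_I, one_mul, one_mul]
    have hfp : 0 < ‖f‖ := norm_pos_iff.2 hne
    have e3 : ‖D (Complex.I * f.1, Complex.I * f.2)‖ ≤ ‖D‖ * ‖f‖ := by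
      have := D.le_opNorm (Complex.I * f.1, Complex.I * f.2)
      rwa [e8] at this
    have e4 : os f (Complex.I * f.1, Complex.I * f.2) = nW f ^ 2 := os_I_self f
    have e5 : |os f ((2⁻¹ : ℝ) • D (Complex.I * f.1, Complex.I * f.2))| ≤ ‖D‖ * ‖f‖ ^ 2 := by
      rw [wf_smul_right, abs_mul]
      have h2 := wf_norm f (D (Complex.I * f.1, Complex.I * f.2))
      have h3 : |(2⁻¹ : ℝ)| = 2⁻¹ := by norm_num
      rw [h3]
      have h4 : 2 * ‖f‖ * ‖D (Complex.I * f.1, Complex.I * f.2)‖ ≤ 2 * ‖f‖ * (‖D‖ * ‖f‖) :=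
        mul_le_mul_of_nonneg_left e3 (by positivity)
      nlinarith
    rw [wf_add_right, e4] at e1
    have e6 : ‖f‖ ^ 2 ≤ nW f ^ 2 := pow_le_pow_left₀ (norm_nonneg _) (norm_le_nW f) 2
    have e7 := abs_le.1 e5
    have e9 : ‖D‖ * ‖f‖ ^ 2 < 1 * ‖f‖ ^ 2 := mul_lt_mul_of_pos_right k1 (by positivity)
    simp only [mul_zero, zero_add] at e1
    linarith [e7.1, e7.2]
  -- the periodic point has no displacement
  have hper : P (c, e w) = e w := sub_eq_zero.1 hF00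
  have hA00 : a (c, e w) = 0 := k3 hper
  have hval : vp4 F a (c, e w) (1, 0) = 0 := by
    rw [vp4_apply, hA00, hF00, wf_zero_left]
    simp
  have hfin := hδg c (e w) (lt_of_lt_of_le hc (min_le_right _ _))
    ((hle w).trans_lt (hw.trans_le (min_le_right _ _)))
  rw [hval, hen] at hfin
  have hwpos : 0 < ‖w‖ ^ 2 := by
    have := norm_pos_iff.2 hw0
    positivity
  have hαpos : 0 < |α| := abs_pos.2 hα
  have e1 : |0 - -α * ‖w‖ ^ 2 / 2| = |α| * ‖w‖ ^ 2 / 2 := by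
    have : 0 - -α * ‖w‖ ^ 2 / 2 = α * (‖w‖ ^ 2 / 2) := by ring
    rw [this, abs_mul, abs_of_pos (by positivity : (0 : ℝ) < ‖w‖ ^ 2 / 2)]
    ring
  rw [e1] at hfin
  have e2 : |α| / 4 * ‖e w‖ ^ 2 ≤ |α| / 4 * ‖w‖ ^ 2 :=
    mul_le_mul_of_nonneg_left (hsq w) (by positivity)
  nlinarith [mul_pos hαpos hwpos]

end Pool.Agent.MP_5027f4_cont
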