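import Pool.Agent.Lib_MP_5027f4_cont.QLoc
import Pool.Agent.Lib_MP_5027f4_cont.WSig
import Pool.Agent.Lib_MP_5027f4_cont.WPow
import Pool.Agent.Lib_MP_5027f4_cont.WNorm

/-!
# Constancy of the multipliers, definite Krein form
-/

open Set Filter Topology Metric Polynomial
open scoped ComplexConjugate ContDiff

namespace Pool.Agent.MP_5027f4_cont

variable {P : ℝ × (ℂ × ℂ) → ℂ × ℂ} {a : ℝ × (ℂ × ℂ) → ℝ}

/-- at a root of unity a persistent definite double multiplier does not move -/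
theorem dbl_root (h : Fam P a) (hnd : NoDrift P a) {A : ℝ → (ℂ × ℂ) →L[ℝ] (ℂ × ℂ)}
    {A' : (ℂ × ℂ) →L[ℝ] (ℂ × ℂ)} (hA : ∀ᶠ c in 𝓝 (0 : ℝ), dz P (c, 0) = A c)
    (hd : HasDerivAt A A' 0) {t : ℝ → ℝ} {t' : ℝ} (ht : HasDerivAt t t' 0)
    (hq : ∀ᶠ c in 𝓝 (0 : ℝ), ∀ w, A c (A c w) = t c • A c w - w) (hK : KDef (A 0))
    (ht2 : |t 0| < 2) {l : ℂ} (hl : ‖l‖ = 1) (hlt : 2 * l.re = t 0) {n : ℕ} (hn : 0 < n)
    (hln : l ^ n = 1) : t' = 0 := by
  have hc0 : Tendsto (fun c : ℝ => ((c, 0) : ℝ × (ℂ × ℂ))) (𝓝 0) (𝓝 0) := by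
    have : ContinuousAt (fun c : ℝ => ((c, 0) : ℝ × (ℂ × ℂ))) 0 := by fun_prop
    exact this.tendsto
  have hs : ∀ᶠ c in 𝓝 (0 : ℝ), ∀ ξ η, os (A c ξ) (A c η) = os ξ η := by
    filter_upwards [hc0.eventually h.symp, hA] with c h2 h3 ξ η
    rw [← h3]
    exact h2 ξ η
  obtain ⟨L, μ, hμ1, hμt, hμi, hL, hLA⟩ := hK.normal hs.self_of_nhds ht2 hq.self_of_nhds
  obtain ⟨hF, hFd⟩ := h.conj L hL
  have hN := hnd.conj L
  set P₁ : ℝ × (ℂ × ℂ) → ℂ × ℂ := fun q => L (P (q.1, L.symm q.2)) with hP₁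
  set a₁ : ℝ × (ℂ × ℂ) → ℝ := fun q => a (q.1, L.symm q.2) with ha₁
  set A₁ : ℝ → (ℂ × ℂ) →L[ℝ] (ℂ × ℂ) := fun c =>
    (L : (ℂ × ℂ) →L[ℝ] (ℂ × ℂ)).comp ((A c).comp (L.symm : (ℂ × ℂ) →L[ℝ] (ℂ × ℂ))) with hA₁
  have hA₁a : ∀ c w, A₁ c w = L (A c (L.symm w)) := fun c w => rfl
  have hA₁e : ∀ᶠ c in 𝓝 (0 : ℝ), dz P₁ (c, 0) = A₁ c := by
    filter_upwards [hFd, hA] with c h2 h3
    refine ContinuousLinearMap.ext fun ξ => ?_
    rw [h2 ξ, h3]
    rfl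
  have hd₁ : HasDerivAt A₁ ((L : (ℂ × ℂ) →L[ℝ] (ℂ × ℂ)).comp
      (A'.comp (L.symm : (ℂ × ℂ) →L[ℝ] (ℂ × ℂ)))) 0 := by
    have e1 : HasDerivAt (fun c => (A c).comp (L.symm : (ℂ × ℂ) →L[ℝ] (ℂ × ℂ)))
        (A'.comp (L.symm : (ℂ × ℂ) →L[ℝ] (ℂ × ℂ)) + (A 0).comp 0) 0 :=
      hd.clm_comp (hasDerivAt_const (0 : ℝ) (L.symm : (ℂ × ℂ) →L[ℝ] (ℂ × ℂ)))
    have e2 : HasDerivAt A₁ ((0 : (ℂ × ℂ) →L[ℝ] (ℂ × ℂ)).comp
        ((A 0).comp (L.symm : (ℂ × ℂ) →L[ℝ] (ℂ × ℂ))) +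
        (L : (ℂ × ℂ) →L[ℝ] (ℂ × ℂ)).comp (A'.comp (L.symm : (ℂ × ℂ) →L[ℝ] (ℂ × ℂ)) +
          (A 0).comp 0)) 0 :=
      (hasDerivAt_const (0 : ℝ) (L : (ℂ × ℂ) →L[ℝ] (ℂ × ℂ))).clm_comp e1
    refine e2.congr_deriv ?_
    refine ContinuousLinearMap.ext fun x => ?_
    simp
  have h0₁ : ∀ z : ℂ × ℂ, A₁ 0 z = μ • z := by
    intro z
    have := hLA (L.symm z)
    rw [hA₁a, this, L.apply_symm_apply]
  have hq₁ : ∀ᶠ c in 𝓝 (0 : ℝ), ∀ w, A₁ c (A₁ c w) = t c • A₁ c w - w := by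
    filter_upwards [hq] with c h2 w
    rw [hA₁a, hA₁a, L.symm_apply_apply, h2, map_sub, map_smul, L.apply_symm_apply]
  have hμn : μ ^ n = 1 := by
    have e1 : l.re * l.re + l.im * l.im = 1 := by
      rw [← Complex.normSq_apply, Complex.normSq_eq_norm_sq, hl, one_pow]
    have e2 : μ.re * μ.re + μ.im * μ.im = 1 := by
      rw [← Complex.normSq_apply, Complex.normSq_eq_norm_sq, hμ1, one_pow]
    have e3 : μ.re = l.re := by linarith
    have e4 : (μ.im - l.im) * (μ.im + l.im) = 0 := by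
      rw [e3] at e2
      linarith
    rcases mul_eq_zero.1 e4 with h4 | h4
    · have : μ = l := Complex.ext e3 (by linarith)
      rw [this, hln]
    · have : μ = conj l := Complex.ext (by rw [Complex.conj_re, e3]) (by
        rw [Complex.conj_im]
        linarith)
      rw [this, ← map_pow, hln, map_one]
  have hμ2 : μ ^ 2 ≠ 1 := by
    intro h2
    have h3 : (μ - 1) * (μ + 1) = 0 := by linear_combination h2
    rcases mul_eq_zero.1 h3 with h4 | h4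
    · apply hμi
      rw [sub_eq_zero.1 h4, Complex.one_im]
    · apply hμi
      rw [eq_neg_of_add_eq_zero_left h4]
      simp
  have hder := dbl_alpha (A := A₁) hd₁ ht hq₁ h0₁ hμ1 hμ2 (n := n) hμn
  -- the iterated family
  have hFn := hF.iter n
  have hdn := hF.dz_iter n
  have hdn' : ∀ᶠ c in 𝓝 (0 : ℝ), dz (itP P₁ n) (c, 0) = A₁ c ^ n := by
    filter_upwards [hdn, hA₁e] with c h2 h3
    rw [h2, h3]
  have hpow : ∀ (k : ℕ) (z : ℂ × ℂ), (A₁ 0 ^ k) z = μ ^ k • z := by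
    intro k
    induction k with
    | zero => intro z; simp
    | succ k ih =>
      intro z
      have : (A₁ 0 ^ (k + 1)) z = (A₁ 0 ^ k) (A₁ 0 z) := by
        rw [pow_succ]
        rfl
      rw [this, ih, h0₁, smul_smul, pow_succ]
  have hd0 : ∀ z : ℂ × ℂ, dz (itP P₁ n) 0 z = z := by
    intro z
    have e1 : ((0, 0) : ℝ × (ℂ × ℂ)) = 0 := rfl
    have e2 := hdn'.self_of_nhds
    rw [e1] at e2
    rw [e2, hpow, hμn, one_smul]
  have hz := alpha_zero4 hFn hd0 (fun w => (hder w).congr_of_eventuallyEq (by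
    filter_upwards [hdn'] with c h2
    rw [h2])) (hN n)
  have h3 : 2 * μ.im ≠ 0 := mul_ne_zero two_ne_zero hμi
  rw [div_eq_zero_iff] at hz
  rcases hz with h4 | h4
  · rw [neg_eq_zero, mul_eq_zero] at h4
    rcases h4 with h5 | h5
    · exact absurd (Nat.cast_eq_zero.1 h5) hn.ne'
    · exact h5
  · exact absurd h4 h3

/-- a nonconstant continuous function with values in `(-2, 2)` takes the value `2 cos (2 π p / n)` -/
theorem rat_hit {t : ℝ → ℝ} {a b : ℝ} (hab : a ≤ b) (ht : ContinuousOn t (Icc a b))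
    (h2 : ∀ c ∈ Icc a b, |t c| < 2) (hne : t a ≠ t b) :
    ∃ c ∈ Icc a b, ∃ n : ℕ, 0 < n ∧ ∃ l : ℂ, ‖l‖ = 1 ∧ 2 * l.re = t c ∧ l ^ n = 1 := by
  set x : ℝ → ℝ := fun c => Real.arccos (t c / 2) / (2 * Real.pi) with hx
  have hxc : ContinuousOn x (Icc a b) := by
    refine ContinuousOn.div_const (Real.continuous_arccos.comp_continuousOn (ht.div_const 2)) _
  have hxne : x a ≠ x b := by
    intro h
    apply hne
    have h3 : Real.arccos (t a / 2) = Real.arccos (t b / 2) := by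
      have hp : (2 * Real.pi) ≠ 0 := by positivity
      exact (div_left_inj' hp).1 h
    have ha := abs_lt.1 (h2 a (left_mem_Icc.2 hab))
    have hb := abs_lt.1 (h2 b (right_mem_Icc.2 hab))
    have h4 := Real.arccos_injOn (show t a / 2 ∈ Icc (-1 : ℝ) 1 from
      ⟨by linarith [ha.1], by linarith [ha.2]⟩)
      (show t b / 2 ∈ Icc (-1 : ℝ) 1 from ⟨by linarith [hb.1], by linarith [hb.2]⟩) h3
    linarith
  have hlt : min (x a) (x b) < max (x a) (x b) := min_lt_max.2 hxne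
  obtain ⟨r, hr1, hr2⟩ := exists_rat_btwn hlt
  have hiv := intermediate_value_uIcc (by rwa [uIcc_of_le hab] : ContinuousOn x (uIcc a b))
  obtain ⟨c, hc, hcr⟩ := hiv (show (r : ℝ) ∈ uIcc (x a) (x b) from ⟨hr1.le, hr2.le⟩)
  rw [uIcc_of_le hab] at hc
  obtain ⟨g1, g2, g3⟩ := rat_arg (h2 c hc)
  refine ⟨c, hc, r.den, r.den_pos, _, g1, g2, (g3 r.den).1 ⟨r.num, ?_⟩⟩
  change (r.den : ℝ) * x c = r.num
  rw [hcr]
  have h5 : (r.den : ℚ) * r = r.num := Rat.den_mul_eq_num r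
  exact_mod_cast h5

/-- the real variable part of `cp_const4` -/
theorem two_const {T₁ T₂ : ℝ → ℝ} {a b : ℝ} (h₁ : ContDiffOn ℝ 1 T₁ (Ioo a b))
    (h₂ : ContDiffOn ℝ 1 T₂ (Ioo a b))
    (hb : ∀ c ∈ Ioo a b, 2 * (T₂ c + 4) - T₁ c ^ 2 = 0 → |T₁ c / 2| < 2)
    (hD : ∀ c ∈ Ioo a b, 2 * (T₂ c + 4) - T₁ c ^ 2 ≠ 0 → deriv T₁ c = 0 ∧ deriv T₂ c = 0)
    (hroot : ∀ c ∈ Ioo a b, (∀ᶠ c' in 𝓝 c, 2 * (T₂ c' + 4) - T₁ c' ^ 2 = 0) →
      ∀ n : ℕ, 0 < n → ∀ l : ℂ, ‖l‖ = 1 → 2 * l.re = T₁ c / 2 → l ^ n = 1 → deriv T₁ c = 0)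
    {c : ℝ} (hc : c ∈ Ioo a b) : deriv T₁ c = 0 ∧ deriv T₂ c = 0 := by
  have d₁ : ∀ c ∈ Ioo a b, HasDerivAt T₁ (deriv T₁ c) c := fun c hc =>
    ((h₁.differentiableOn one_ne_zero).differentiableAt (isOpen_Ioo.mem_nhds hc)).hasDerivAt
  have d₂ : ∀ c ∈ Ioo a b, HasDerivAt T₂ (deriv T₂ c) c := fun c hc =>
    ((h₂.differentiableOn one_ne_zero).differentiableAt (isOpen_Ioo.mem_nhds hc)).hasDerivAt
  have k₁ : ContinuousOn (deriv T₁) (Ioo a b) := h₁.continuousOn_deriv_of_isOpen isOpen_Ioo le_rfl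
  have k₂ : ContinuousOn (deriv T₂) (Ioo a b) := h₂.continuousOn_deriv_of_isOpen isOpen_Ioo le_rfl
  have c₁ : ContinuousAt (deriv T₁) c := k₁.continuousAt (isOpen_Ioo.mem_nhds hc)
  have c₂ : ContinuousAt (deriv T₂) c := k₂.continuousAt (isOpen_Ioo.mem_nhds hc)
  by_cases hev : ∀ᶠ c' in 𝓝 c, 2 * (T₂ c' + 4) - T₁ c' ^ 2 = 0
  · have hz : deriv T₁ c = 0 := by
      by_contra hne
      have e1 : ∀ᶠ c' in 𝓝 c, deriv T₁ c' ≠ 0 := c₁.eventually_ne hne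
      obtain ⟨η, hη, hηb⟩ := Metric.eventually_nhds_iff_ball.1
        ((hev.eventually_nhds.and e1).and (isOpen_Ioo.mem_nhds hc))
      have hsub : ∀ x ∈ Icc c (c + η / 2), x ∈ ball c η := by
        intro x hx
        rw [Metric.mem_ball, Real.dist_eq, abs_lt]
        exact ⟨by linarith [hx.1], by linarith [hx.2]⟩
      have hle : c < c + η / 2 := by linarith
      have hT : T₁ c ≠ T₁ (c + η / 2) := by
        intro he
        obtain ⟨x, hx, hx0⟩ := exists_deriv_eq_zero (f := T₁) hle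
          (fun y hy => ((d₁ y (hηb y (hsub y hy)).2).continuousAt.continuousWithinAt)) he
        exact (hηb x (hsub x (Ioo_subset_Icc_self hx))).1.2 hx0
      obtain ⟨x, hx, n, hn, l, g1, g2, g3⟩ := rat_hit (t := fun y => T₁ y / 2) hle.le
        (fun y hy =>
          ((d₁ y (hηb y (hsub y hy)).2).continuousAt.div_const 2).continuousWithinAt)
        (fun y hy => hb y (hηb y (hsub y hy)).2 (hηb y (hsub y hy)).1.1.self_of_nhds)
        (fun he => hT (by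
          have : T₁ c / 2 = T₁ (c + η / 2) / 2 := he
          linarith))
      have h3 := hηb x (hsub x hx)
      exact h3.1.2 (hroot x h3.2 h3.1.1 n hn l g1 g2 g3)
    refine ⟨hz, ?_⟩
    have e2 : HasDerivAt (fun c' => 2 * (T₂ c' + 4) - T₁ c' ^ 2)
        (2 * deriv T₂ c - 2 * T₁ c * deriv T₁ c) c := by
      refine (((((d₂ c hc).add_const (4 : ℝ)).const_mul (2 : ℝ))).sub
        ((d₁ c hc).pow 2)).congr_deriv ?_
      simp
    have e3 : HasDerivAt (fun c' => 2 * (T₂ c' + 4) - T₁ c' ^ 2) 0 c :=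
      (hasDerivAt_const c (0 : ℝ)).congr_of_eventuallyEq hev
    have e4 := e2.unique e3
    rw [hz] at e4
    linarith
  · have hfr : ∃ᶠ c' in 𝓝 c, 2 * (T₂ c' + 4) - T₁ c' ^ 2 ≠ 0 := Filter.not_eventually.1 hev
    have hfr2 : ∃ᶠ c' in 𝓝 c, deriv T₁ c' = 0 ∧ deriv T₂ c' = 0 := by
      refine (hfr.and_eventually (isOpen_Ioo.mem_nhds hc)).mono fun x hx => ?_
      exact hD x hx.2 hx.1
    constructor
    · by_contra hne
      exact hfr2 ((c₁.eventually_ne hne).mono fun x hx hx' => hx hx'.1)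
    · by_contra hne
      exact hfr2 ((c₂.eventually_ne hne).mono fun x hx hx' => hx hx'.2)

/-- **The multipliers are constant** (definite Krein form). -/
theorem cp_const4 {zs : ℝ → ℂ × ℂ} {c₀ : ℝ}
    (hP : AnalyticAt ℝ P (c₀, zs c₀)) (ha : AnalyticAt ℝ a (c₀, zs c₀)) (hz : AnalyticAt ℝ zs c₀)
    (hfix : ∀ᶠ c in 𝓝 c₀, P (c, zs c) = zs c) (ha0 : ∀ᶠ c in 𝓝 c₀, a (c, zs c) = 0)
    (hsymp : ∀ᶠ q in 𝓝 (c₀, zs c₀), ∀ ξ η, os (dz P q ξ) (dz P q η) = os ξ η)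
    (hrel : ∀ᶠ q in 𝓝 (c₀, zs c₀), ∀ ξ : ℂ × ℂ,
      fderiv ℝ a q (0, ξ) = -os (dz P q ξ) (fderiv ℝ P q (1, 0)))
    (hbd : ∃ r > 0, ∃ δ : ℝ, ∀ (c : ℝ) (n : ℕ) (z : ℕ → ℂ × ℂ), |c - c₀| < r →
      (∀ j ≤ n, ‖z j - zs c₀‖ < r) → (∀ j < n, z (j + 1) = P (c, z j)) →
      |∑ j ∈ Finset.range n, a (c, z j)| ≤ δ)
    (hK : KDef (dz P (c₀, zs c₀))) :
    ∀ᶠ c in 𝓝 c₀, cp (dz P (c, zs c)) = cp (dz P (c₀, zs c₀)) := by
  set A : ℝ → (ℂ × ℂ) →L[ℝ] (ℂ × ℂ) := fun c => dz P (c, zs c) with hAdef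
  have hzz : AnalyticAt ℝ (fun c : ℝ => (c, zs c)) c₀ := analyticAt_id.prod hz
  have hzt : Tendsto (fun c : ℝ => (c, zs c)) (𝓝 c₀) (𝓝 (c₀, zs c₀)) := hzz.continuousAt.tendsto
  have hdzan : ∀ c, AnalyticAt ℝ P (c, zs c) → AnalyticAt ℝ zs c → AnalyticAt ℝ A c := by
    intro c h1 h2
    have e1 : AnalyticAt ℝ (fun c : ℝ => fderiv ℝ P (c, zs c)) c :=
      AnalyticAt.comp (g := fderiv ℝ P) (f := fun c : ℝ => (c, zs c)) h1.fderiv
        (analyticAt_id.prod h2)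
    have e2 : AnalyticAt ℝ (fun B : (ℝ × (ℂ × ℂ)) →L[ℝ] (ℂ × ℂ) =>
        B.comp (ContinuousLinearMap.inr ℝ ℝ (ℂ × ℂ))) (fderiv ℝ P (c, zs c)) :=
      ((ContinuousLinearMap.compL ℝ (ℂ × ℂ) (ℝ × (ℂ × ℂ)) (ℂ × ℂ)).flip
        (ContinuousLinearMap.inr ℝ ℝ (ℂ × ℂ))).analyticAt _
    exact AnalyticAt.comp (g := fun B : (ℝ × (ℂ × ℂ)) →L[ℝ] (ℂ × ℂ) =>
        B.comp (ContinuousLinearMap.inr ℝ ℝ (ℂ × ℂ))) (f := fun c : ℝ => fderiv ℝ P (c, zs c))
        e2 e1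
  have hA : AnalyticAt ℝ A c₀ := hdzan c₀ hP hz
  obtain ⟨r, hr, δ, hδ⟩ := hbd
  -- all local properties hold at the nearby parameters
  have hall : ∀ᶠ c in 𝓝 c₀, AnalyticAt ℝ P (c, zs c) ∧ AnalyticAt ℝ a (c, zs c) ∧
      AnalyticAt ℝ zs c ∧ (∀ᶠ c' in 𝓝 c, P (c', zs c') = zs c') ∧
      (∀ᶠ c' in 𝓝 c, a (c', zs c') = 0) ∧
      (∀ᶠ q in 𝓝 (c, zs c), ∀ ξ η, os (dz P q ξ) (dz P q η) = os ξ η) ∧
      (∀ᶠ q in 𝓝 (c, zs c), ∀ ξ : ℂ × ℂ,
        fderiv ℝ a q (0, ξ) = -os (dz P q ξ) (fderiv ℝ P q (1, 0))) ∧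
      |c - c₀| < r / 2 ∧ ‖zs c - zs c₀‖ < r / 2 ∧ KDef (A c) := by
    have e1 : ∀ᶠ c in 𝓝 c₀, |c - c₀| < r / 2 := by
      have := Metric.ball_mem_nhds c₀ (half_pos hr)
      filter_upwards [this] with c hc
      rwa [Metric.mem_ball, Real.dist_eq] at hc
    have e2 : ∀ᶠ c in 𝓝 c₀, ‖zs c - zs c₀‖ < r / 2 := by
      have := hz.continuousAt.tendsto.eventually (Metric.ball_mem_nhds (zs c₀) (half_pos hr))
      filter_upwards [this] with c hc
      rwa [dist_eq_norm] at hc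
    exact (hzt.eventually hP.eventually_analyticAt).and
      ((hzt.eventually ha.eventually_analyticAt).and (hz.eventually_analyticAt.and
        (hfix.eventually_nhds.and (ha0.eventually_nhds.and
          ((hzt.eventually hsymp.eventually_nhds).and
            ((hzt.eventually hrel.eventually_nhds).and (e1.and (e2.and
              (KDef.open hA.continuousAt hK)))))))))
  obtain ⟨ε₁, hε₁, hε₁b⟩ := Metric.eventually_nhds_iff_ball.1 hall
  have hloc : ∀ c ∈ Ioo (c₀ - ε₁) (c₀ + ε₁), c ∈ ball c₀ ε₁ := by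
    intro c hc
    rw [Metric.mem_ball, Real.dist_eq, abs_lt]
    exact ⟨by linarith [hc.1], by linarith [hc.2]⟩
  -- symplectic near every parameter
  have hsy : ∀ c ∈ Ioo (c₀ - ε₁) (c₀ + ε₁), ∀ ξ η, os (A c ξ) (A c η) = os ξ η := by
    intro c hc ξ η
    obtain ⟨h1, h2, h3, h4, h5, h6, h7, h8, h9, h10⟩ := hε₁b c (hloc c hc)
    exact h6.self_of_nhds ξ η
  have hAan : ∀ c ∈ Ioo (c₀ - ε₁) (c₀ + ε₁), AnalyticAt ℝ A c := by
    intro c hc
    obtain ⟨h1, h2, h3, -⟩ := hε₁b c (hloc c hc)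
    exact hdzan c h1 h3
  set T₁ : ℝ → ℝ := fun c => tr1 (A c) with hT₁
  set T₂ : ℝ → ℝ := fun c => tr1 ((A c).comp (A c)) with hT₂
  have hT₁a : ∀ c ∈ Ioo (c₀ - ε₁) (c₀ + ε₁), ContDiffAt ℝ 1 T₁ c := by
    intro c hc
    exact ContDiffAt.comp (g := fun B : (ℂ × ℂ) →L[ℝ] (ℂ × ℂ) => trL B)
      (f := A) c trL.contDiff.contDiffAt (hAan c hc).contDiffAt
  have hT₂a : ∀ c ∈ Ioo (c₀ - ε₁) (c₀ + ε₁), ContDiffAt ℝ 1 T₂ c := by
    intro c hc
    exact ContDiffAt.comp (g := fun B : (ℂ × ℂ) →L[ℝ] (ℂ × ℂ) => trL B)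
      (f := fun c => (A c).comp (A c)) c trL.contDiff.contDiffAt
      ((hAan c hc).contDiffAt.clm_comp (hAan c hc).contDiffAt)
  have hcpT : ∀ c ∈ Ioo (c₀ - ε₁) (c₀ + ε₁), cp (A c) = X ^ 4 - C (T₁ c) * X ^ 3 +
      C ((T₁ c ^ 2 - T₂ c) / 2) * X ^ 2 - C (T₁ c) * X + 1 := fun c hc => cp_newton (A c) (hsy c hc)
  have hbdc : ∀ c ∈ Ioo (c₀ - ε₁) (c₀ + ε₁), ∃ r > 0, ∃ δ : ℝ, ∀ (c' : ℝ) (n : ℕ)
      (z : ℕ → ℂ × ℂ), |c' - c| < r → (∀ j ≤ n, ‖z j - zs c‖ < r) →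
      (∀ j < n, z (j + 1) = P (c', z j)) → |∑ j ∈ Finset.range n, a (c', z j)| ≤ δ := by
    intro c hc
    obtain ⟨h1, h2, h3, h4, h5, h6, h7, h8, h9, h10⟩ := hε₁b c (hloc c hc)
    refine ⟨r / 2, half_pos hr, δ, fun c' m z hc' hz1 hz2 => ?_⟩
    refine hδ c' m z ?_ (fun j hj => ?_) hz2
    · calc |c' - c₀| = |(c' - c) + (c - c₀)| := by ring_nf
        _ ≤ |c' - c| + |c - c₀| := abs_add_le _ _
        _ < r / 2 + r / 2 := add_lt_add hc' h8
        _ = r := by ring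
    · calc ‖z j - zs c₀‖ = ‖(z j - zs c) + (zs c - zs c₀)‖ := by rw [sub_add_sub_cancel]
        _ ≤ ‖z j - zs c‖ + ‖zs c - zs c₀‖ := norm_add_le _ _
        _ < r / 2 + r / 2 := add_lt_add (hz1 j hj) h9
        _ = r := by ring
  have key : ∀ c ∈ Ioo (c₀ - ε₁) (c₀ + ε₁), deriv T₁ c = 0 ∧ deriv T₂ c = 0 := by
    intro c hc
    refine two_const (fun c hc => (hT₁a c hc).contDiffWithinAt)
      (fun c hc => (hT₂a c hc).contDiffWithinAt) ?_ ?_ ?_ hc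
    · -- the bound
      intro c hc h0
      obtain ⟨-, -, -, -, -, -, -, -, -, h10⟩ := hε₁b c (hloc c hc)
      obtain ⟨s₁, s₂, b₁, b₂, g1, g2, g3⟩ := h10.factor (hsy c hc)
      have h0' : dsc (A c) = 0 := h0
      rw [g3] at h0'
      have h5 : s₁ = s₂ := by
        have := pow_eq_zero_iff (two_ne_zero) |>.1 h0'
        linarith
      have h6 : T₁ c / 2 = s₁ := by
        change tr1 (A c) / 2 = s₁
        rw [g2, ← h5]
        ring
      rw [h6]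
      exact b₁
    · -- two different pairs
      intro c hc hne
      obtain ⟨h1, h2, h3, h4, h5, h6, h7, h8, h9, h10⟩ := hε₁b c (hloc c hc)
      obtain ⟨s₁, s₂, b₁, b₂, g1, g2, g3⟩ := h10.factor (hsy c hc)
      have hss : s₁ ≠ s₂ := by
        intro he
        apply hne
        change dsc (A c) = 0
        rw [g3, he]
        ring
      have sq : ∀ s : ℝ, |s| < 2 → s ^ 2 ≤ 4 := by
        intro s hs
        have := abs_lt.1 hs
        nlinarith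
      have hell : Ell2 (cp (dz P (c, zs c))) :=
        ⟨eoL 1 s₁, eoL 1 s₂, eoL_norm (by norm_num) (sq s₁ b₁), eoL_norm (by norm_num) (sq s₂ b₂),
          nonRes2_of (eoL_norm (by norm_num) (sq s₁ b₁)) (eoL_norm (by norm_num) (sq s₂ b₂))
            (eoL_re _ _) (eoL_re _ _) b₁ b₂ hss,
          roots2_of g1 (eoL_norm (by norm_num) (sq s₁ b₁)) (eoL_norm (by norm_num) (sq s₂ b₂))
            (eoL_re _ _) (eoL_re _ _)⟩
      have hcc := cp_const2 h1 h2 h3 h4 h5 h6 h7 (hbdc c hc) hell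
      have hco : ∀ᶠ c' in 𝓝 c, T₁ c' = T₁ c ∧ T₂ c' = T₂ c := by
        filter_upwards [hcc, isOpen_Ioo.mem_nhds hc] with c' h' hc'
        have e1 : cp (A c') = cp (A c) := h'
        rw [hcpT c' hc', hcpT c hc] at e1
        have c3 := congrArg (fun p : ℝ[X] => p.coeff 3) e1
        have c2 := congrArg (fun p : ℝ[X] => p.coeff 2) e1
        simp only [coeff_add, coeff_sub, coeff_C_mul, coeff_X_pow, coeff_X, coeff_one] at c3 c2
        norm_num at c3 c2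
        refine ⟨c3, ?_⟩
        rw [c3] at c2
        linarith
      constructor
      · have e1 : HasDerivAt T₁ 0 c := (hasDerivAt_const c (T₁ c)).congr_of_eventuallyEq
          (hco.mono fun x hx => hx.1)
        exact e1.deriv
      · have e1 : HasDerivAt T₂ 0 c := (hasDerivAt_const c (T₂ c)).congr_of_eventuallyEq
          (hco.mono fun x hx => hx.2)
        exact e1.deriv
    · -- a persistent double pair
      intro c hc hev n hn l hl hlt hln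
      obtain ⟨h1, h2, h3, h4, h5, h6, h7, h8, h9, h10⟩ := hε₁b c (hloc c hc)
      obtain ⟨P', a', hF, hN, hdz⟩ := fam_shift h1 h2 h3 h4 h5 h6 h7 (hbdc c hc)
      have hAc := (hAan c hc).differentiableAt.hasDerivAt
      have hAs : HasDerivAt (fun s : ℝ => A (c + s)) (deriv A c) 0 := by
        have e1 : HasDerivAt A (deriv A c) (c + 0) := by rw [add_zero]; exact hAc
        exact e1.comp_const_add c 0
      have hTs : HasDerivAt (fun s : ℝ => T₁ (c + s) / 2) (deriv T₁ c / 2) 0 := by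
        have e1 : HasDerivAt T₁ (deriv T₁ c) (c + 0) := by
          rw [add_zero]
          exact ((hT₁a c hc).differentiableAt one_ne_zero).hasDerivAt
        exact (e1.comp_const_add c 0).div_const 2
      have hsh : Tendsto (fun s : ℝ => c + s) (𝓝 0) (𝓝 c) := by
        have : ContinuousAt (fun s : ℝ => c + s) 0 := by fun_prop
        have h' := this.tendsto
        simp only [add_zero] at h'
        exact h'
      have hquad : ∀ c' ∈ Ioo (c₀ - ε₁) (c₀ + ε₁), 2 * (T₂ c' + 4) - T₁ c' ^ 2 = 0 →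
          |T₁ c' / 2| < 2 ∧ ∀ w, A c' (A c' w) = (T₁ c' / 2) • A c' w - w := by
        intro c' hc' h0
        obtain ⟨-, -, -, -, -, -, -, -, -, k10⟩ := hε₁b c' (hloc c' hc')
        obtain ⟨s₁, s₂, b₁, b₂, g1, g2, g3⟩ := k10.factor (hsy c' hc')
        have h0' : dsc (A c') = 0 := h0
        rw [g3] at h0'
        have h5 : s₁ = s₂ := by
          have := pow_eq_zero_iff (two_ne_zero) |>.1 h0'
          linarith
        have h6 : T₁ c' / 2 = s₁ := by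
          change tr1 (A c') / 2 = s₁
          rw [g2, ← h5]
          ring
        rw [h6]
        refine ⟨b₁, fun w => k10.semisimple (hsy c' hc') (t := s₁) ?_ w⟩
        rw [g1, ← h5]
      have hq : ∀ᶠ s in 𝓝 (0 : ℝ), ∀ w, A (c + s) (A (c + s) w) =
          (T₁ (c + s) / 2) • A (c + s) w - w := by
        filter_upwards [hsh.eventually hev, hsh.eventually (isOpen_Ioo.mem_nhds hc)] with s e1 e2
        exact (hquad _ e2 e1).2
      have := dbl_root hF hN (A := fun s => A (c + s)) (A' := deriv A c) hdz hAs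
        (t := fun s => T₁ (c + s) / 2) (t' := deriv T₁ c / 2) hTs hq
        (by simp only [add_zero]; exact h10)
        (by simp only [add_zero]; exact (hquad c hc hev.self_of_nhds).1) hl
        (by simp only [add_zero]; exact hlt) hn hln
      linarith
  -- the traces are constant
  have hmem0 : c₀ ∈ Ioo (c₀ - ε₁) (c₀ + ε₁) := ⟨by linarith, by linarith⟩
  have hcst : ∀ {t : ℝ → ℝ}, (∀ c ∈ Ioo (c₀ - ε₁) (c₀ + ε₁), DifferentiableAt ℝ t c) →
      (∀ c ∈ Ioo (c₀ - ε₁) (c₀ + ε₁), deriv t c = 0) →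
      ∀ c ∈ Ioo (c₀ - ε₁) (c₀ + ε₁), t c = t c₀ := by
    intro t hd h0 c hc
    have hconv : Convex ℝ (Ioo (c₀ - ε₁) (c₀ + ε₁)) := convex_Ioo _ _
    exact hconv.is_const_of_fderivWithin_eq_zero (𝕜 := ℝ)
      (fun x hx => (hd x hx).differentiableWithinAt)
      (fun x hx => by
        rw [fderivWithin_of_isOpen isOpen_Ioo hx]
        refine ContinuousLinearMap.ext_ring ?_
        have := h0 x hx
        rw [← fderiv_apply_one_eq_deriv] at this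
        simpa using this) hc hmem0
  have k₁ := hcst (fun c hc => ((hT₁a c hc).differentiableAt one_ne_zero)) (fun c hc => (key c hc).1)
  have k₂ := hcst (fun c hc => ((hT₂a c hc).differentiableAt one_ne_zero)) (fun c hc => (key c hc).2)
  filter_upwards [Ioo_mem_nhds hmem0.1 hmem0.2] with c hc
  change cp (A c) = cp (A c₀)
  rw [hcpT c hc, hcpT c₀ hmem0, k₁ c hc, k₂ c hc]

end Pool.Agent.MP_5027f4_cont
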