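import Pool.Agent.Lib_MP_5027f4_cont.LocalThm
import Pool.Agent.Lib_MP_5027f4_cont.WLoc

/-!
# Families of fixed points, definite double multiplier (abstract part, MP_5027f4_mp, T4)
-/

open Set Filter Topology Metric Polynomial Asymptotics
open scoped ComplexConjugate ContDiff

namespace Pool.Agent.MP_5027f4_cont

/-- the characteristic polynomial of a double pair of multipliers `l, conj l`, `t = 2 Re l` -/
noncomputable def dq (t : ℝ) : ℝ[X] := (X ^ 2 - C t * X + 1) * (X ^ 2 - C t * X + 1)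

theorem dq_eval_one {t : ℝ} (ht : |t| < 2) : (dq t).eval 1 ≠ 0 := by
  have h1 := abs_lt.1 ht
  have h2 : (dq t).eval 1 = (2 - t) * (2 - t) := by
    unfold dq
    simp only [eval_mul, eval_add, eval_sub, eval_pow, eval_X, eval_C, eval_one]
    ring
  rw [h2]
  have : (2 - t) ≠ 0 := by linarith
  exact mul_ne_zero this this

variable {E : Type*} [NormedAddCommGroup E] [NormedSpace ℝ E]

/-- `M² - t M + 1` -/
def nq (t : ℝ) (M : E →L[ℝ] E) (v : E) : E := M (M v) - t • M v + v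

theorem nq_add (t : ℝ) (M : E →L[ℝ] E) (v w : E) : nq t M (v + w) = nq t M v + nq t M w := by
  unfold nq
  simp only [map_add, smul_add]
  abel

/-- the Krein form `v ↦ om v (M v)` is definite on the kernel of `(M² - t M + 1)²` -/
def KrE (om : E →L[ℝ] E →L[ℝ] ℝ) (M : E →L[ℝ] E) (t : ℝ) : Prop :=
  (∀ v, v ≠ 0 → nq t M (nq t M v) = 0 → 0 < om v (M v)) ∨
    (∀ v, v ≠ 0 → nq t M (nq t M v) = 0 → om v (M v) < 0)

variable [FiniteDimensional ℝ E]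
  {om : E →L[ℝ] E →L[ℝ] ℝ} {x₀ : E} {G : (ℝ × ℝ) × E → E} {μ : E → ℝ × ℝ}
  {Θ : (ℝ × ℝ) × (ℝ × ℝ) × (ℂ × ℂ) → E} {Ξ : E → (ℝ × ℝ) × (ℝ × ℝ) × (ℂ × ℂ)} {Φ : E → E}
  {b : (ℝ × ℝ) × (ℂ × ℂ) → ℝ × ℝ} {P : (ℝ × ℝ) × (ℂ × ℂ) → ℂ × ℂ}

/-- The Krein form of the reduced return map is definite if that of the return map is. -/
theorem kdef_of (hC : DChart om x₀ G μ Θ Ξ) (hR : RetMap (μ x₀) Θ Φ b P)
    (hΦ : AnalyticAt ℝ Φ x₀) (hΦ0 : Φ x₀ = x₀) {t : ℝ} (ht : |t| < 2)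
    (hcp : cp (dz P (μ x₀, 0)) = dq t) (hK : KrE om (fderiv ℝ Φ x₀) t) :
    KDef (dz P (μ x₀, 0)) := by
  set p₀ : (ℝ × ℝ) × (ℝ × ℝ) × (ℂ × ℂ) := (0, μ x₀, 0) with hp₀
  set A := dz P (μ x₀, 0) with hA
  set D := fderiv ℝ Θ p₀ with hD
  set M := fderiv ℝ Φ x₀ with hM
  have hbase : Θ p₀ = x₀ := hC.base
  -- the map `τ`
  set τ : (ℝ × ℝ) × (ℝ × ℝ) × (ℂ × ℂ) → (ℝ × ℝ) × (ℝ × ℝ) × (ℂ × ℂ) :=
    fun q => (q.1 + b q.2, q.2.1, P q.2) with hτ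
  have hτp : τ p₀ = p₀ := by
    simp only [hτ, hp₀, hR.b0, hR.P0, add_zero]
  have hfst : HasFDerivAt (fun q : (ℝ × ℝ) × (ℝ × ℝ) × (ℂ × ℂ) => q.1)
      (ContinuousLinearMap.fst ℝ (ℝ × ℝ) ((ℝ × ℝ) × (ℂ × ℂ))) p₀ := hasFDerivAt_fst
  have hsn : HasFDerivAt (fun q : (ℝ × ℝ) × (ℝ × ℝ) × (ℂ × ℂ) => q.2)
      (ContinuousLinearMap.snd ℝ (ℝ × ℝ) ((ℝ × ℝ) × (ℂ × ℂ))) p₀ := hasFDerivAt_snd
  have hk : HasFDerivAt (fun q : (ℝ × ℝ) × (ℝ × ℝ) × (ℂ × ℂ) => q.2.1)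
      ((ContinuousLinearMap.fst ℝ (ℝ × ℝ) (ℂ × ℂ)).comp
        (ContinuousLinearMap.snd ℝ (ℝ × ℝ) ((ℝ × ℝ) × (ℂ × ℂ)))) p₀ :=
    (hasFDerivAt_fst (𝕜 := ℝ) (p := p₀.2)).comp p₀ hsn
  have hbτ : HasFDerivAt (fun q : (ℝ × ℝ) × (ℝ × ℝ) × (ℂ × ℂ) => b q.2)
      ((fderiv ℝ b p₀.2).comp (ContinuousLinearMap.snd ℝ (ℝ × ℝ) ((ℝ × ℝ) × (ℂ × ℂ)))) p₀ :=
    HasFDerivAt.comp p₀ hR.anb.differentiableAt.hasFDerivAt hsn
  have hPτ : HasFDerivAt (fun q : (ℝ × ℝ) × (ℝ × ℝ) × (ℂ × ℂ) => P q.2)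
      ((fderiv ℝ P p₀.2).comp (ContinuousLinearMap.snd ℝ (ℝ × ℝ) ((ℝ × ℝ) × (ℂ × ℂ)))) p₀ :=
    HasFDerivAt.comp p₀ hR.anP.differentiableAt.hasFDerivAt hsn
  have hτd := (hfst.add hbτ).prodMk (hk.prodMk hPτ)
  set N := (ContinuousLinearMap.fst ℝ (ℝ × ℝ) ((ℝ × ℝ) × (ℂ × ℂ)) +
      (fderiv ℝ b p₀.2).comp (ContinuousLinearMap.snd ℝ (ℝ × ℝ) ((ℝ × ℝ) × (ℂ × ℂ)))).prod
    (((ContinuousLinearMap.fst ℝ (ℝ × ℝ) (ℂ × ℂ)).comp
        (ContinuousLinearMap.snd ℝ (ℝ × ℝ) ((ℝ × ℝ) × (ℂ × ℂ)))).prod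
      ((fderiv ℝ P p₀.2).comp (ContinuousLinearMap.snd ℝ (ℝ × ℝ) ((ℝ × ℝ) × (ℂ × ℂ))))) with hN
  have hτN : HasFDerivAt τ N p₀ := hτd
  have hΘd : HasFDerivAt Θ D p₀ := hC.an.differentiableAt.hasFDerivAt
  have hΦd : HasFDerivAt Φ M (Θ p₀) := by
    rw [hbase]
    exact hΦ.differentiableAt.hasFDerivAt
  have hconj : ∀ δ, M (D δ) = D (N δ) := by
    have h1 : HasFDerivAt (fun q => Φ (Θ q)) (M.comp D) p₀ := HasFDerivAt.comp p₀ hΦd hΘd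
    have hΘd' : HasFDerivAt Θ D (τ p₀) := by rw [hτp]; exact hΘd
    have h2 : HasFDerivAt (fun q => Θ (τ q)) (D.comp N) p₀ := HasFDerivAt.comp p₀ hΘd' hτN
    have h3 : HasFDerivAt (fun q => Φ (Θ q)) (D.comp N) p₀ := h2.congr_of_eventuallyEq hR.eq
    intro δ
    exact congrArg (fun L : ((ℝ × ℝ) × (ℝ × ℝ) × (ℂ × ℂ)) →L[ℝ] E => L δ) (h1.unique h3)
  have hinj : ∀ δ, D δ = 0 → δ = 0 := by
    intro δ hδ
    have hXd : HasFDerivAt Ξ (fderiv ℝ Ξ x₀) (Θ p₀) := by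
      rw [hbase]
      exact hC.anX.differentiableAt.hasFDerivAt
    have h1 : HasFDerivAt (fun q => Ξ (Θ q)) ((fderiv ℝ Ξ x₀).comp D) p₀ :=
      HasFDerivAt.comp p₀ hXd hΘd
    have h2 : HasFDerivAt (fun q => Ξ (Θ q)) (ContinuousLinearMap.id ℝ _) p₀ :=
      (hasFDerivAt_id p₀).congr_of_eventuallyEq hC.left
    have h3 := congrArg (fun L : ((ℝ × ℝ) × (ℝ × ℝ) × (ℂ × ℂ)) →L[ℝ] _ => L δ) (h1.unique h2)
    simp only [ContinuousLinearMap.comp_apply, ContinuousLinearMap.id_apply, hδ, map_zero] at h3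
    exact h3.symm
  have hdarb : ∀ δ δ', om (D δ) (D δ') = Om δ δ' := hC.darb.self_of_nhds
  have hNa : ∀ (γ : ℝ × ℝ) (ζ : ℂ × ℂ), N (γ, 0, ζ) = (γ + fderiv ℝ b (μ x₀, 0) (0, ζ), 0, A ζ) :=
    fun γ ζ => rfl
  -- Cayley-Hamilton
  have hCH : ∀ ζ, nq t A (nq t A ζ) = 0 := by
    intro ζ
    have h0 : aeval (A : (ℂ × ℂ) →ₗ[ℝ] (ℂ × ℂ)) (cp A) = 0 :=
      LinearMap.aeval_self_charpoly (A : (ℂ × ℂ) →ₗ[ℝ] (ℂ × ℂ))
    rw [hcp, dq, map_mul] at h0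
    have h1 : ∀ v : ℂ × ℂ, aeval (A : (ℂ × ℂ) →ₗ[ℝ] (ℂ × ℂ)) (X ^ 2 - C t * X + 1 : ℝ[X]) v =
        nq t A v := by
      intro v
      unfold nq
      simp only [map_add, map_sub, map_mul, map_pow, aeval_X, aeval_C, map_one]
      simp [pow_two, Algebra.algebraMap_eq_smul_one]
    have h2 := congrArg (fun L : (ℂ × ℂ) →ₗ[ℝ] (ℂ × ℂ) => L ζ) h0
    rw [← h1, ← h1]
    exact h2
  have hq2 : ∀ ζ, ∃ g : ℝ × ℝ, nq t N (nq t N (0, 0, ζ)) = (g, 0, 0) := by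
    have h1 : ∀ (γ : ℝ × ℝ) (ζ : ℂ × ℂ), ∃ g : ℝ × ℝ, nq t N (γ, 0, ζ) = (g, 0, nq t A ζ) := by
      intro γ ζ
      refine ⟨(nq t N (γ, 0, ζ)).1, ?_⟩
      refine Prod.ext rfl (Prod.ext ?_ ?_)
      · change (N (N (γ, 0, ζ)) - t • N (γ, 0, ζ) + (γ, 0, ζ)).2.1 = 0
        rw [hNa, hNa]
        simp
      · change (N (N (γ, 0, ζ)) - t • N (γ, 0, ζ) + (γ, 0, ζ)).2.2 = nq t A ζ
        rw [hNa, hNa]
        rfl
    intro ζ
    obtain ⟨g, hg⟩ := h1 0 ζ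
    obtain ⟨g', hg'⟩ := h1 g (nq t A ζ)
    exact ⟨g', by rw [hg, hg', hCH]⟩
  have hq1 : ∀ γ : ℝ × ℝ, nq t N (γ, 0, 0) = ((2 - t) • γ, 0, 0) := by
    intro γ
    have h1 : N (γ, 0, 0) = (γ, 0, 0) := by
      have h0 : fderiv ℝ b (μ x₀, 0) ((0, 0) : (ℝ × ℝ) × (ℂ × ℂ)) = 0 := map_zero _
      rw [hNa, h0, map_zero, add_zero]
    unfold nq
    rw [h1, h1]
    refine Prod.ext ?_ (Prod.ext ?_ ?_)
    · change γ - t • γ + γ = (2 - t) • γ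
      module
    · simp
    · simp
  have h2t : (2 - t) ≠ 0 := by
    have := abs_lt.1 ht
    linarith
  have hD2 : ∀ δ, nq t M (D δ) = D (nq t N δ) := by
    intro δ
    unfold nq
    rw [hconj, hconj, map_add, map_sub, map_smul]
  have key : ∀ ζ : ℂ × ℂ, ζ ≠ 0 → ∃ v : E, v ≠ 0 ∧ nq t M (nq t M v) = 0 ∧
      om v (M v) = os ζ (A ζ) := by
    intro ζ hζ
    obtain ⟨g, hg⟩ := hq2 ζ
    set γ : ℝ × ℝ := -(((2 - t)⁻¹ * (2 - t)⁻¹) • g) with hγ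
    refine ⟨D (γ, 0, ζ), fun h0 => ?_, ?_, ?_⟩
    · have := hinj _ h0
      exact hζ (congrArg (fun p : (ℝ × ℝ) × (ℝ × ℝ) × (ℂ × ℂ) => p.2.2) this)
    · have h1 : ((γ, 0, ζ) : (ℝ × ℝ) × (ℝ × ℝ) × (ℂ × ℂ)) = (γ, 0, 0) + (0, 0, ζ) := by
        simp
      rw [hD2, hD2, h1, nq_add, nq_add, hg, hq1, hq1]
      have h2 : (2 - t) • (2 - t) • γ + g = 0 := by
        rw [hγ, smul_neg, smul_neg, smul_smul, smul_smul]
        have : (2 - t) * (2 - t) * ((2 - t)⁻¹ * (2 - t)⁻¹) = 1 := by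
          field_simp
        rw [this, one_smul]
        simp
      have h3 : (((2 - t) • (2 - t) • γ, 0, 0) + (g, 0, 0) :
          (ℝ × ℝ) × (ℝ × ℝ) × (ℂ × ℂ)) = 0 := by
        refine Prod.ext ?_ (Prod.ext ?_ ?_)
        · exact h2
        · simp
        · simp
      rw [h3, map_zero]
    · rw [hconj, hdarb, hNa]
      simp [Om, dot]
  rcases hK with hK | hK
  · refine Or.inl fun ζ hζ => ?_
    obtain ⟨v, h1, h2, h3⟩ := key ζ hζ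
    rw [← h3]
    exact hK v h1 h2
  · refine Or.inr fun ζ hζ => ?_
    obtain ⟨v, h1, h2, h3⟩ := key ζ hζ
    rw [← h3]
    exact hK v h1 h2

/-- **Local family.** A fixed point with bounded drift and a definite double multiplier belongs
to a family of fixed points on the level of the first momentum, with constant characteristic
polynomial. -/
theorem local_family4 (hdim : Module.finrank ℝ E = 8) (halt : ∀ x, om x x = 0)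
    (hnd : ∀ x, (∀ y, om x y = 0) → x = 0) (hA : LocAct om x₀ G μ) (hΦ : AnalyticAt ℝ Φ x₀)
    (hΦ0 : Φ x₀ = x₀) (hcomm : ∀ᶠ p : (ℝ × ℝ) × E in 𝓝 (0, x₀), Φ (G p) = G (p.1, Φ p.2))
    (hmu : ∀ᶠ y in 𝓝 x₀, μ (Φ y) = μ y)
    (hs : ∀ᶠ y in 𝓝 x₀, ∀ ξ η : E, om (fderiv ℝ Φ y ξ) (fderiv ℝ Φ y η) = om ξ η)
    (hbd : BD x₀ G Φ) {t : ℝ} (ht2 : |t| < 2)
    (hq : cp (fderiv ℝ Φ x₀) = (X - 1) ^ 4 * dq t) (hK : KrE om (fderiv ℝ Φ x₀) t) :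
    ∀ 𝒱 ∈ 𝓝 x₀, ∀ᶠ c in 𝓝 (μ x₀).2, ∃ y ∈ 𝒱, Φ y = y ∧ μ y = ((μ x₀).1, c) ∧
      cp (fderiv ℝ Φ y) = (X - 1) ^ 4 * dq t := by
  obtain ⟨Θ, Ξ, hC⟩ := exists_chart hdim halt hnd hA
  obtain ⟨b, P, hR⟩ := exists_ret hC hΦ hΦ0 hcomm hmu
  have hcpb := cp_base hC hR hΦ hΦ0 hq
  have h1 : (cp (dz P (μ x₀, 0))).eval 1 ≠ 0 := by
    rw [hcpb]
    exact dq_eval_one ht2
  obtain ⟨zs, hzs, hz0, hfix, -⟩ := exists_fix hR.anP hR.P0 h1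
  have hbdc := bdc_of_bd hC hR hbd
  have hd := drift_fix hbdc hzs.continuousAt hz0 hfix
  have hsymp := ret_symp hC hR hΦ hs
  have htime := time_const hR.anb hR.anP hR.b0 hzs hz0 hfix hd hsymp
  refine fixed_of_coord hC hR hΦ hΦ0 hzs.continuousAt hz0 hfix htime ?_
  -- the curve in the parameter `c`
  set h₀ := (μ x₀).1 with hh₀
  set c₀ := (μ x₀).2 with hc₀
  have hμe : ((h₀, c₀) : ℝ × ℝ) = μ x₀ := rfl
  have hz00 : zs (h₀, c₀) = 0 := by rw [hμe, hz0]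
  have hk : Tendsto (fun c : ℝ => (h₀, c)) (𝓝 c₀) (𝓝 (μ x₀)) := by
    have : ContinuousAt (fun c : ℝ => (h₀, c)) c₀ := by fun_prop
    simpa using this.tendsto
  have hzk : Tendsto (fun c : ℝ => zs (h₀, c)) (𝓝 c₀) (𝓝 0) := by
    rw [← hz0]
    exact hzs.continuousAt.tendsto.comp hk
  -- symplecticity in the transversal directions
  have hs2 : ∀ᶠ q : (ℝ × ℝ) × (ℂ × ℂ) in 𝓝 (μ x₀, 0), ∀ ξ η,
      os (dz P q ξ) (dz P q η) = os ξ η := by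
    filter_upwards [hsymp] with q hq ξ η
    have h2 := hq (0, ξ) (0, η)
    simpa [dot, dz] using h2
  have hrel2 : ∀ᶠ q : (ℝ × ℝ) × (ℂ × ℂ) in 𝓝 (μ x₀, 0), ∀ ξ : ℂ × ℂ,
      (fderiv ℝ b q (0, ξ)).2 = -os (dz P q ξ) (fderiv ℝ P q ((0, 1), 0)) := by
    filter_upwards [hsymp] with q hq ξ
    have h2 := hq (0, ξ) ((0, 1), 0)
    have h3 : os ξ (0 : ℂ × ℂ) = 0 := by simp [os]
    simp only [dot, h3] at h2
    have h4 : dz P q ξ = fderiv ℝ P q (0, ξ) := rfl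
    rw [h4]
    simp at h2
    linarith
  -- maps in the variables `(c, z)`
  set ι : ℝ × (ℂ × ℂ) → (ℝ × ℝ) × (ℂ × ℂ) := fun q => ((h₀, q.1), q.2) with hι
  have hιan : ∀ q, AnalyticAt ℝ ι q := fun q =>
    (analyticAt_const.prod analyticAt_fst).prod analyticAt_snd
  have hιd : ∀ q, HasFDerivAt ι (((0 : (ℝ × (ℂ × ℂ)) →L[ℝ] ℝ).prod
      (ContinuousLinearMap.fst ℝ ℝ (ℂ × ℂ))).prod (ContinuousLinearMap.snd ℝ ℝ (ℂ × ℂ))) q :=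
    fun q => ((hasFDerivAt_const h₀ q).prodMk hasFDerivAt_fst).prodMk hasFDerivAt_snd
  have hι0 : ι (c₀, zs (h₀, c₀)) = (μ x₀, 0) := by
    rw [hz00]
  set P' : ℝ × (ℂ × ℂ) → ℂ × ℂ := fun q => P (ι q) with hP'
  set a' : ℝ × (ℂ × ℂ) → ℝ := fun q => (b (ι q)).2 with ha'
  have hdP' : ∀ q, DifferentiableAt ℝ P (ι q) → ∀ δ : ℝ × (ℂ × ℂ),
      fderiv ℝ P' q δ = fderiv ℝ P (ι q) ((0, δ.1), δ.2) := by
    intro q hq δ
    have h2 : HasFDerivAt P' _ q := hq.hasFDerivAt.comp q (hιd q)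
    rw [h2.fderiv]
    rfl
  have hda' : ∀ q, DifferentiableAt ℝ b (ι q) → ∀ δ : ℝ × (ℂ × ℂ),
      fderiv ℝ a' q δ = (fderiv ℝ b (ι q) ((0, δ.1), δ.2)).2 := by
    intro q hq δ
    have h2 : HasFDerivAt (fun q => b (ι q)) _ q := hq.hasFDerivAt.comp q (hιd q)
    have h3 := h2.snd
    rw [ha', h3.fderiv]
    rfl
  have hdz : ∀ q, DifferentiableAt ℝ P (ι q) → dz P' q = dz P (ι q) := by
    intro q hq
    refine ContinuousLinearMap.ext fun ξ => ?_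
    change fderiv ℝ P' q (0, ξ) = fderiv ℝ P (ι q) (0, ξ)
    rw [hdP' q hq]
    rfl
  have hιt : Tendsto ι (𝓝 (c₀, zs (h₀, c₀))) (𝓝 (μ x₀, 0)) := by
    rw [← hι0]
    exact (hιan (c₀, zs (h₀, c₀))).continuousAt.tendsto
  have hPb : AnalyticAt ℝ P (ι (c₀, zs (h₀, c₀))) := by rw [hι0]; exact hR.anP
  have hbb : AnalyticAt ℝ b (ι (c₀, zs (h₀, c₀))) := by rw [hι0]; exact hR.anb
  have hPan : AnalyticAt ℝ P' (c₀, zs (h₀, c₀)) :=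
    AnalyticAt.comp (g := P) (f := ι) (x := (c₀, zs (h₀, c₀))) hPb (hιan _)
  have haan : AnalyticAt ℝ a' (c₀, zs (h₀, c₀)) := by
    have h2 : AnalyticAt ℝ (fun q => b (ι q)) (c₀, zs (h₀, c₀)) :=
      AnalyticAt.comp (g := b) (f := ι) (x := (c₀, zs (h₀, c₀))) hbb (hιan _)
    exact (ContinuousLinearMap.snd ℝ ℝ ℝ).analyticAt _ |>.comp h2
  have hzan : AnalyticAt ℝ (fun c => zs (h₀, c)) c₀ := by
    have h2 : AnalyticAt ℝ zs (h₀, c₀) := by rw [hμe]; exact hzs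
    exact AnalyticAt.comp (g := zs) (f := fun c : ℝ => ((h₀, c) : ℝ × ℝ)) (x := c₀) h2
      (analyticAt_const.prod analyticAt_id)
  have hand : ∀ᶠ q in 𝓝 (c₀, zs (h₀, c₀)), AnalyticAt ℝ P (ι q) :=
    hιt.eventually hR.anP.eventually_analyticAt
  have hbnd : ∀ᶠ q in 𝓝 (c₀, zs (h₀, c₀)), AnalyticAt ℝ b (ι q) :=
    hιt.eventually hR.anb.eventually_analyticAt
  obtain ⟨r, hr, δ, hδ⟩ := hbdc
  have hconst := cp_const4 (P := P') (a := a') (zs := fun c => zs (h₀, c)) (c₀ := c₀) hPan haan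
    hzan (hk.eventually hfix)
    (by
      filter_upwards [htime] with c h2
      change (b ((h₀, c), zs (h₀, c))).2 = 0
      rw [h2]
      rfl)
    (by
      filter_upwards [hιt.eventually hs2, hand] with q h2 h3 ξ η
      rw [hdz q h3.differentiableAt]
      exact h2 ξ η)
    (by
      filter_upwards [hιt.eventually hrel2, hand, hbnd] with q h2 h3 h4 ξ
      rw [hdz q h3.differentiableAt, hdP' q h3.differentiableAt, hda' q h4.differentiableAt]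
      exact h2 ξ)
    ⟨r, hr, δ, fun c n z hc hz1 hz2 => by
      refine hδ (h₀, c) n z ?_ (fun j hj => ?_) hz2
      · have h2 : ((h₀, c) : ℝ × ℝ) - μ x₀ = (0, c - c₀) := by
          rw [← hμe, Prod.mk_sub_mk, sub_self]
        rw [h2, Prod.norm_def, norm_zero, max_eq_right (norm_nonneg _), Real.norm_eq_abs]
        exact hc
      · have h2 := hz1 j hj
        rwa [hz00, sub_zero] at h2⟩
    (by
      rw [hdz _ hPb.differentiableAt, hι0]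
      exact kdef_of hC hR hΦ hΦ0 ht2 hcpb hK)
  have hcurve : Tendsto (fun c : ℝ => (c, zs (h₀, c))) (𝓝 c₀) (𝓝 (c₀, zs (h₀, c₀))) :=
    tendsto_id.prodMk_nhds hzan.continuousAt.tendsto
  filter_upwards [hconst, hcurve.eventually hand] with c h2 h3
  rw [hdz _ h3.differentiableAt, hdz _ hPb.differentiableAt, hι0, hcpb] at h2
  exact h2

end Pool.Agent.MP_5027f4_cont
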