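import Pool.Agent.Lib_MP_5027f4_cont.WMain
import Pool.Agent.Lib_MP_5027f4_cont.PFull

/-!
# The monodromy extended by zero and its Krein form
-/

open Set Polynomial
open scoped ComplexConjugate
open Pool.Agent.MP_5027f4_mp

namespace Pool.Agent.MP_5027f4_cont

variable {m : Fin 3 → ℝ}

/-- the restriction of an extended monodromy -/
theorem monF_restrict (hm : ∀ a, 0 < m a) {T : ℝ} (hT : 0 < T) {x : ℝ → Ph}
    (hx : Solves (fld m) (frame m) (Icc 0 T) x) {u : ℂ} (hu : ‖u‖ = 1) {M : Ph →ₗ[ℝ] Ph}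
    (hM : IsMonF m x T u M) {p : ℂ[X]} (hp : M.charpoly.map (algebraMap ℝ ℂ) = X ^ 4 * p) :
    ∃ M' : comSub m →ₗ[ℝ] comSub m, IsMon m x T u M' ∧ M'.charpoly.map (algebraMap ℝ ℂ) = p ∧
      ∀ v : comSub m, M (v : Ph) = ((M' v : comSub m) : Ph) := by
  have hu0 : u ≠ 0 := by
    rintro rfl
    simp at hu
  have hJ0 : ∀ J : ℝ → Ph, IsJacobi m x T J → J 0 ∈ comSub m ∧ J T ∈ comSub m := fun J hJ =>
    ⟨⟨(hJ 0 ⟨le_rfl, hT.le⟩).1, (hJ 0 ⟨le_rfl, hT.le⟩).2.1⟩,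
      ⟨(hJ T ⟨hT.le, le_rfl⟩).1, (hJ T ⟨hT.le, le_rfl⟩).2.1⟩⟩
  obtain ⟨hM1, hM2⟩ := hM
  have hmem : ∀ v : comSub m, M (v : Ph) ∈ comSub m := by
    intro v
    obtain ⟨J, hJ, hJv⟩ := exists_jacobi hT.le hx v
    have h1 := hM1 J hJ
    have h2 : M (v : Ph) = u⁻¹ • J T := by
      rw [h1, smul_smul, inv_mul_cancel₀ hu0, one_smul, hJv]
    rw [h2]
    exact (comSub m).smul_mem _ (hJ0 J hJ).2
  let M' : comSub m →ₗ[ℝ] comSub m :=
    { toFun := fun v => ⟨M (v : Ph), hmem v⟩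
      map_add' := fun v w => Subtype.ext (by
        change M ((v : Ph) + (w : Ph)) = M v + M w
        rw [map_add])
      map_smul' := fun c v => Subtype.ext (by
        change M (c • (v : Ph)) = c • M v
        rw [map_smul]) }
  refine ⟨M', fun J h hJ => hM1 J hJ, ?_, fun v => rfl⟩
  have h3 := charpoly_ext hm (M := M) (M' := M') (fun v => rfl) hM2
  rw [h3, Polynomial.map_mul, Polynomial.map_pow, Polynomial.map_X] at hp
  exact mul_left_cancel₀ (pow_ne_zero 4 Polynomial.X_ne_zero) hp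

/-- `M² v - t M v + v` -/
noncomputable def nqF (M : Ph →ₗ[ℝ] Ph) (t : ℝ) (v : Ph) : Ph := M (M v) - t • M v + v

/-- the Krein form of the restriction -/
theorem krM_of {M : Ph →ₗ[ℝ] Ph} {M' : comSub m →ₗ[ℝ] comSub m}
    (hMM : ∀ v : comSub m, M (v : Ph) = ((M' v : comSub m) : Ph)) {t : ℝ}
    (h : (∀ v, v ≠ 0 → nqF M t (nqF M t v) = 0 → 0 < oP m v (M v)) ∨
      (∀ v, v ≠ 0 → nqF M t (nqF M t v) = 0 → oP m v (M v) < 0)) : KrM m M' t := by
  have h1 : ∀ v : comSub m, nqF M t (v : Ph) =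
      ((M' (M' v) - t • M' v + v : comSub m) : Ph) := by
    intro v
    unfold nqF
    rw [hMM, hMM]
    rfl
  have key : ∀ v : comSub m, nqF M t (nqF M t (v : Ph)) =
      ((M' (M' (M' (M' v) - t • M' v + v)) - t • M' (M' (M' v) - t • M' v + v) +
        (M' (M' v) - t • M' v + v) : comSub m) : Ph) := by
    intro v
    rw [h1, h1]
  rcases h with h | h
  · refine Or.inl fun v hv h0 => ?_
    have h2 := h (v : Ph) (fun h3 => hv (Subtype.ext h3)) (by rw [key, h0]; rfl)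
    rwa [hMM] at h2
  · refine Or.inr fun v hv h0 => ?_
    have h2 := h (v : Ph) (fun h3 => hv (Subtype.ext h3)) (by rw [key, h0]; rfl)
    rwa [hMM] at h2

end Pool.Agent.MP_5027f4_cont
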