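import Pool.Agent.Lib_MP_5027f4_cont.WDefs

/-!
# The primitive of the one-form `vp4 F A`
-/

open Set Filter Topology Metric Polynomial
open scoped ComplexConjugate ContDiff

namespace Pool.Agent.MP_5027f4_cont

open QShiftAux (osB osB_apply)

theorem wf_add_right (ξ η ζ : ℂ × ℂ) : os ξ (η + ζ) = os ξ η + os ξ ζ := by
  rw [← osB_apply, map_add]
  rfl

theorem wf_add_left (ξ η ζ : ℂ × ℂ) : os (ξ + η) ζ = os ξ ζ + os η ζ := by
  rw [← osB_apply, map_add]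
  rfl

theorem wf_smul_right (t : ℝ) (ξ η : ℂ × ℂ) : os ξ (t • η) = t * os ξ η := by
  rw [← osB_apply, map_smul]
  rfl

theorem wf_smul_left (t : ℝ) (ξ η : ℂ × ℂ) : os (t • ξ) η = t * os ξ η := by
  rw [← osB_apply, map_smul]
  rfl

theorem wf_neg_right (ξ η : ℂ × ℂ) : os ξ (-η) = -os ξ η := by
  rw [← osB_apply, map_neg]
  rfl

theorem wf_neg_left (ξ η : ℂ × ℂ) : os (-ξ) η = -os ξ η := by
  rw [← osB_apply, map_neg]
  rfl

theorem wf_sub_right (ξ η ζ : ℂ × ℂ) : os ξ (η - ζ) = os ξ η - os ξ ζ := by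
  rw [← osB_apply, map_sub]
  rfl

theorem wf_sub_left (ξ η ζ : ℂ × ℂ) : os (ξ - η) ζ = os ξ ζ - os η ζ := by
  rw [← osB_apply, map_sub]
  rfl

theorem wf_anti (ξ η : ℂ × ℂ) : os ξ η = -os η ξ := by
  unfold os
  simp
  ring

theorem wf_self (ξ : ℂ × ℂ) : os ξ ξ = 0 := by
  have := wf_anti ξ ξ
  linarith

theorem wf_zero_right (ξ : ℂ × ℂ) : os ξ 0 = 0 := by
  rw [← osB_apply, map_zero]

theorem wf_zero_left (ξ : ℂ × ℂ) : os 0 ξ = 0 := by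
  rw [wf_anti, wf_zero_right, neg_zero]

theorem wf_norm (a b : ℂ × ℂ) : |os a b| ≤ 2 * ‖a‖ * ‖b‖ := by
  unfold os
  refine (Complex.abs_im_le_norm _).trans ((norm_add_le _ _).trans ?_)
  rw [norm_mul, norm_mul, RCLike.norm_conj, RCLike.norm_conj]
  have h1 : ‖a.1‖ ≤ ‖a‖ := norm_fst_le a
  have h2 : ‖a.2‖ ≤ ‖a‖ := norm_snd_le a
  have h3 : ‖b.1‖ ≤ ‖b‖ := norm_fst_le b
  have h4 : ‖b.2‖ ≤ ‖b‖ := norm_snd_le b
  have h5 : ‖a.1‖ * ‖b.1‖ ≤ ‖a‖ * ‖b‖ := mul_le_mul h1 h3 (norm_nonneg _) (norm_nonneg _)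
  have h6 : ‖a.2‖ * ‖b.2‖ ≤ ‖a‖ * ‖b‖ := mul_le_mul h2 h4 (norm_nonneg _) (norm_nonneg _)
  linarith

/-- derivative of `os (u p) (v p)` -/
theorem wf_deriv {u v : ℝ × (ℂ × ℂ) → ℂ × ℂ} {u' v' : ℝ × (ℂ × ℂ) →L[ℝ] ℂ × ℂ} {p : ℝ × (ℂ × ℂ)}
    (hu : HasFDerivAt u u' p) (hv : HasFDerivAt v v' p) :
    ∃ L : ℝ × (ℂ × ℂ) →L[ℝ] ℝ, HasFDerivAt (fun p => os (u p) (v p)) L p ∧
      ∀ e, L e = os (u' e) (v p) + os (u p) (v' e) := by
  have h1 : HasFDerivAt (fun p => osB (u p)) (osB.comp u') p := osB.hasFDerivAt.comp p hu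
  have h2 := h1.clm_apply hv
  refine ⟨_, h2, fun e => ?_⟩
  simp only [_root_.add_apply, ContinuousLinearMap.comp_apply,
    ContinuousLinearMap.flip_apply, osB_apply]
  ring

theorem exists_sigma4 {F : ℝ × (ℂ × ℂ) → ℂ × ℂ} {A : ℝ × (ℂ × ℂ) → ℝ} (hF : AnalyticAt ℝ F 0)
    (hA : AnalyticAt ℝ A 0) (hk : KeyForm4 F A) :
    ∃ σ : ℝ × (ℂ × ℂ) → ℝ, σ 0 = 0 ∧
      ∀ᶠ p in 𝓝 (0 : ℝ × (ℂ × ℂ)), HasFDerivAt σ (vp4 F A p) p := by
  -- differentiability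
  have hdiff : ∀ p, AnalyticAt ℝ F p → AnalyticAt ℝ A p → DifferentiableAt ℝ (vp4 F A) p := by
    intro p hFp hAp
    have h1 : DifferentiableAt ℝ (fun p => osB (F p)) p :=
      osB.differentiableAt.comp p hFp.differentiableAt
    have h2 : DifferentiableAt ℝ (fun p => ContinuousLinearMap.snd ℝ ℝ (ℂ × ℂ) +
        (2⁻¹ : ℝ) • fderiv ℝ F p) p := by
      have h2' : DifferentiableAt ℝ (fun p => (2⁻¹ : ℝ) • fderiv ℝ F p) p :=
        hFp.fderiv.differentiableAt.const_smul (2⁻¹ : ℝ)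
      exact (differentiableAt_const _).add h2'
    exact (hAp.differentiableAt.smul_const _).add (h1.clm_comp h2)
  -- the derivative
  have hder : ∀ p, AnalyticAt ℝ F p → AnalyticAt ℝ A p → ∀ e e' : ℝ × (ℂ × ℂ),
      fderiv ℝ (vp4 F A) p e e' = fderiv ℝ A p e * e'.1 +
        (os (fderiv ℝ F p e) (e'.2 + (2⁻¹ : ℝ) • fderiv ℝ F p e') +
          os (F p) ((2⁻¹ : ℝ) • fderiv ℝ (fderiv ℝ F) p e e')) := by
    intro p hFp hAp e e'
    have h0 := ((ContinuousLinearMap.apply ℝ ℝ e').hasFDerivAt.comp p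
      (hdiff p hFp hAp).hasFDerivAt)
    have h2 : HasFDerivAt (fun p => fderiv ℝ F p e')
        ((ContinuousLinearMap.apply ℝ (ℂ × ℂ) e').comp (fderiv ℝ (fderiv ℝ F) p)) p :=
      (ContinuousLinearMap.apply ℝ (ℂ × ℂ) e').hasFDerivAt.comp p
        hFp.fderiv.differentiableAt.hasFDerivAt
    obtain ⟨L, hL, hLe⟩ := wf_deriv hFp.differentiableAt.hasFDerivAt
      ((h2.const_smul (2⁻¹ : ℝ)).const_add e'.2)
    have h5 := (hAp.differentiableAt.hasFDerivAt.mul_const e'.1).add hL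
    have h6 : ((ContinuousLinearMap.apply ℝ ℝ e') ∘ vp4 F A) = ((fun p => A p * e'.1) +
        (fun p => os (F p) (e'.2 + (2⁻¹ : ℝ) • fderiv ℝ F p e'))) := by
      funext p
      exact vp4_apply F A p e'
    rw [h6] at h0
    have h7 := h0.unique h5
    have h8 := congrArg (fun L : (ℝ × (ℂ × ℂ)) →L[ℝ] ℝ => L e) h7
    have h9 : fderiv ℝ (vp4 F A) p e e' = ((ContinuousLinearMap.apply ℝ ℝ e').comp
      (fderiv ℝ (vp4 F A) p)) e := rfl
    rw [h9]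
    refine h8.trans ?_
    have h10 : ((e'.1 • fderiv ℝ A p + L : (ℝ × (ℂ × ℂ)) →L[ℝ] ℝ)) e =
        e'.1 * fderiv ℝ A p e + L e := rfl
    rw [h10, hLe, mul_comm]
    rfl
  -- closedness
  obtain ⟨ε, hε, hball⟩ := Metric.eventually_nhds_iff_ball.1
    ((hF.eventually_analyticAt.and hA.eventually_analyticAt).and hk)
  have hdo : DifferentiableOn ℝ (vp4 F A) (Metric.ball (0 : ℝ × (ℂ × ℂ)) ε) := fun p hp =>
    (hdiff p (hball p hp).1.1 (hball p hp).1.2).differentiableWithinAt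
  obtain ⟨f, hf⟩ := (convex_ball (0 : ℝ × (ℂ × ℂ)) ε).exists_forall_hasFDerivAt_of_fderiv_symmetric
    Metric.isOpen_ball hdo
    (by
      intro p hp e e'
      obtain ⟨⟨hFp, hAp⟩, hkp⟩ := hball p hp
      have hs : fderiv ℝ (fderiv ℝ F) p e e' = fderiv ℝ (fderiv ℝ F) p e' e :=
        (hFp.contDiffAt (n := 2)).isSymmSndFDerivAt (by simp) e e'
      have h1 := hkp e e'
      rw [hder p hFp hAp e e', hder p hFp hAp e' e, hs]
      simp only [wf_add_right, wf_smul_right]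
      rw [wf_anti (fderiv ℝ F p e') e.2, wf_anti (fderiv ℝ F p e') (fderiv ℝ F p e)]
      linarith)
  refine ⟨fun p => f p - f 0, sub_self _, ?_⟩
  filter_upwards [Metric.ball_mem_nhds (0 : ℝ × (ℂ × ℂ)) hε] with p hp
  exact (hf p hp).sub_const _

end Pool.Agent.MP_5027f4_cont
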