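import Pool.Agent.Lib_MP_5027f4_cont.WForm
import Pool.Agent.Lib_MP_5027f4_cont.QEll
import Pool.Agent.Lib_MP_5027f4_cont.LinNF
import Pool.Agent.Lib_MP_5027f4_cont.LinNFa
import Pool.Agent.Lib_MP_5027f4_cont.HomDefs
import Pool.Agent.Lib_MP_5027f4_cont.KFac

/-!
# Symplectic maps with a definite Krein form
-/

open Set Filter Topology Metric Polynomial
open scoped ComplexConjugate ContDiff

namespace Pool.Agent.MP_5027f4_cont

/-- the Krein form `v ↦ os (v, A v)` is definite -/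
def KDef (A : (ℂ × ℂ) →L[ℝ] (ℂ × ℂ)) : Prop :=
  (∀ v, v ≠ 0 → 0 < os v (A v)) ∨ (∀ v, v ≠ 0 → os v (A v) < 0)

theorem KDef.ne {A : (ℂ × ℂ) →L[ℝ] (ℂ × ℂ)} (h : KDef A) {v : ℂ × ℂ} (hv : os v (A v) = 0) :
    v = 0 := by
  by_contra hne
  rcases h with h | h
  · have := h v hne
    rw [hv] at this
    exact lt_irrefl _ this
  · have := h v hne
    rw [hv] at this
    exact lt_irrefl _ this

theorem KDef.ne2 {A : (ℂ × ℂ) →L[ℝ] (ℂ × ℂ)} (h : KDef A) {v w : ℂ × ℂ}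
    (hvw : os v (A v) + os w (A w) = 0) : v = 0 ∧ w = 0 := by
  have key : v = 0 := by
    by_contra hne
    by_cases hw : w = 0
    · rw [hw, map_zero, wf_zero_left, add_zero] at hvw
      exact hne (h.ne hvw)
    · rcases h with h | h
      · have := h v hne
        have := h w hw
        linarith
      · have := h v hne
        have := h w hw
        linarith
  refine ⟨key, ?_⟩
  rw [key, map_zero, wf_zero_left, zero_add] at hvw
  exact h.ne hvw

/-- definiteness is an open condition -/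
theorem KDef.open {A : ℝ → (ℂ × ℂ) →L[ℝ] (ℂ × ℂ)} {c₀ : ℝ} (hA : ContinuousAt A c₀)
    (h : KDef (A c₀)) : ∀ᶠ c in 𝓝 c₀, KDef (A c) := by
  -- a positive minimum on the unit sphere
  have hpos : ∀ B : (ℂ × ℂ) →L[ℝ] (ℂ × ℂ), (∀ v, v ≠ 0 → 0 < os v (B v)) →
      ∃ m > 0, ∀ v, m * ‖v‖ ^ 2 ≤ os v (B v) := by
    intro B hB
    have hcont : Continuous fun v : ℂ × ℂ => os v (B v) := by
      have h1 : Continuous fun v : ℂ × ℂ => QShiftAux.osB v (B v) :=
        QShiftAux.osB.continuous.clm_apply B.continuous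
      exact h1
    obtain ⟨v₀, hv₀, hmin⟩ := (isCompact_sphere (0 : ℂ × ℂ) 1).exists_isMinOn
      ⟨((1 : ℂ), (0 : ℂ)), by simp⟩ hcont.continuousOn
    have hv₀n : v₀ ≠ 0 := by
      intro h0
      rw [h0] at hv₀
      simp at hv₀
    refine ⟨os v₀ (B v₀), hB v₀ hv₀n, fun v => ?_⟩
    by_cases hv : v = 0
    · rw [hv, norm_zero, map_zero, wf_zero_left]
      simp
    · have hvn : 0 < ‖v‖ := norm_pos_iff.2 hv
      have h1 : ‖v‖⁻¹ • v ∈ sphere (0 : ℂ × ℂ) 1 := by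
        rw [mem_sphere_zero_iff_norm, norm_smul, norm_inv, norm_norm, inv_mul_cancel₀ hvn.ne']
      have h2 : os v₀ (B v₀) ≤ os (‖v‖⁻¹ • v) (B (‖v‖⁻¹ • v)) := hmin h1
      rw [map_smul, wf_smul_left, wf_smul_right] at h2
      calc os v₀ (B v₀) * ‖v‖ ^ 2 ≤ (‖v‖⁻¹ * (‖v‖⁻¹ * os v (B v))) * ‖v‖ ^ 2 :=
            mul_le_mul_of_nonneg_right h2 (by positivity)
        _ = os v (B v) := by field_simp
  have hper : ∀ B : ℝ → (ℂ × ℂ) →L[ℝ] (ℂ × ℂ), ContinuousAt B c₀ →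
      (∀ v, v ≠ 0 → 0 < os v (B c₀ v)) → ∀ᶠ c in 𝓝 c₀, ∀ v, v ≠ 0 → 0 < os v (B c v) := by
    intro B hBc hB
    obtain ⟨m, hm, hmv⟩ := hpos (B c₀) hB
    have h1 : ∀ᶠ c in 𝓝 c₀, ‖B c - B c₀‖ < m / 2 := by
      have := Metric.tendsto_nhds.1 hBc.tendsto (m / 2) (by positivity)
      filter_upwards [this] with c hc
      rwa [dist_eq_norm] at hc
    filter_upwards [h1] with c hc v hv
    have hvn : 0 < ‖v‖ := norm_pos_iff.2 hv
    have h2 : B c v = B c₀ v + (B c - B c₀) v := by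
      rw [sub_apply]
      abel
    rw [h2, wf_add_right]
    have h3 := wf_norm v ((B c - B c₀) v)
    have h4 : ‖(B c - B c₀) v‖ ≤ ‖B c - B c₀‖ * ‖v‖ := (B c - B c₀).le_opNorm v
    have h5 : 2 * ‖v‖ * ‖(B c - B c₀) v‖ ≤ 2 * ‖v‖ * (‖B c - B c₀‖ * ‖v‖) :=
      mul_le_mul_of_nonneg_left h4 (by positivity)
    have h6 : 2 * ‖v‖ * (‖B c - B c₀‖ * ‖v‖) < m * ‖v‖ ^ 2 := by
      have : ‖B c - B c₀‖ * ‖v‖ ^ 2 < m / 2 * ‖v‖ ^ 2 :=
        mul_lt_mul_of_pos_right hc (by positivity)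
      nlinarith
    have h7 := (abs_le.1 h3).1
    have h8 := hmv v
    linarith
  rcases h with h | h
  · filter_upwards [hper A hA h] with c hc
    exact Or.inl hc
  · have h2 := hper (fun c => -A c) hA.neg (fun v hv => by
      have := h v hv
      rw [neg_apply, wf_neg_right]
      linarith)
    filter_upwards [h2] with c hc
    refine Or.inr fun v hv => ?_
    have := hc v hv
    rw [neg_apply, wf_neg_right] at this
    linarith

/-- the multipliers of a map with a definite Krein form are on the unit circle and not real -/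
theorem KDef.root {A : (ℂ × ℂ) →L[ℝ] (ℂ × ℂ)} (hs : ∀ ξ η, os (A ξ) (A η) = os ξ η) (h : KDef A)
    {l : ℂ} (hl : ((cp A).map (algebraMap ℝ ℂ)).eval l = 0) : ‖l‖ = 1 ∧ l.im ≠ 0 := by
  obtain ⟨x, y, hxy, hx, hy⟩ := exists_plane A hl
  have e1 : os x (A x) = -(l.im * os x y) := by
    rw [hx, sub_eq_add_neg, wf_add_right, wf_neg_right, wf_smul_right, wf_smul_right, wf_self]
    ring
  have e2 : os y (A y) = -(l.im * os x y) := by
    rw [hy, wf_add_right, wf_smul_right, wf_smul_right, wf_self, wf_anti y x]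
    ring
  have e3 : os (A x) (A y) = (l.re ^ 2 + l.im ^ 2) * os x y := by
    rw [hx, hy, sub_eq_add_neg, wf_add_left, wf_neg_left, wf_add_right, wf_add_right, wf_smul_left,
      wf_smul_left, wf_smul_left, wf_smul_left, wf_smul_right, wf_smul_right, wf_smul_right,
      wf_smul_right, wf_self, wf_self, wf_anti y x]
    ring
  have hne : l.im * os x y ≠ 0 := by
    intro h0
    have h1 := h.ne2 (v := x) (w := y) (by rw [e1, e2, h0]; simp)
    rcases hxy with h2 | h2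
    · exact h2 h1.1
    · exact h2 h1.2
  refine ⟨?_, left_ne_zero_of_mul hne⟩
  have h0 : os x y ≠ 0 := right_ne_zero_of_mul hne
  rw [hs] at e3
  have e4 : l.re ^ 2 + l.im ^ 2 = 1 := by
    have : (l.re ^ 2 + l.im ^ 2 - 1) * os x y = 0 := by linarith
    rcases mul_eq_zero.1 this with h | h
    · linarith
    · exact absurd h h0
  have e5 : ‖l‖ ^ 2 = 1 := by
    rw [← Complex.normSq_eq_norm_sq, Complex.normSq_apply]
    linarith
  exact (pow_eq_one_iff_of_nonneg (norm_nonneg _) two_ne_zero).1 e5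

/-- the discriminant -/
noncomputable def dsc (A : (ℂ × ℂ) →L[ℝ] (ℂ × ℂ)) : ℝ :=
  2 * (tr1 (A.comp A) + 4) - tr1 A ^ 2

/-- factorization of the characteristic polynomial -/
theorem KDef.factor {A : (ℂ × ℂ) →L[ℝ] (ℂ × ℂ)} (hs : ∀ ξ η, os (A ξ) (A η) = os ξ η)
    (h : KDef A) : ∃ s₁ s₂ : ℝ, |s₁| < 2 ∧ |s₂| < 2 ∧
      cp A = (X ^ 2 - C s₁ * X + 1) * (X ^ 2 - C s₂ * X + 1) ∧ tr1 A = s₁ + s₂ ∧
      dsc A = (s₁ - s₂) ^ 2 := by
  have hcp := cp_newton A hs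
  obtain ⟨l₁, l₂, hz1, hz2, hfac⟩ := exists_factor (tr1 A) ((tr1 A ^ 2 - tr1 (A.comp A)) / 2)
  rw [← hcp] at hfac
  have r₁ : ((cp A).map (algebraMap ℝ ℂ)).eval l₁ = 0 := by
    rw [hfac]; simp
  have r₂ : ((cp A).map (algebraMap ℝ ℂ)).eval l₂ = 0 := by
    rw [hfac]; simp
  obtain ⟨n₁, i₁⟩ := h.root hs r₁
  obtain ⟨n₂, i₂⟩ := h.root hs r₂
  have hlt : ∀ l : ℂ, ‖l‖ = 1 → l.im ≠ 0 → |2 * l.re| < 2 := by
    intro l hl hi
    have e1 : l.re * l.re + l.im * l.im = 1 := by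
      rw [← Complex.normSq_apply, Complex.normSq_eq_norm_sq, hl, one_pow]
    have e2 : 0 < l.im * l.im := mul_self_pos.2 hi
    rw [abs_lt]
    constructor <;> nlinarith
  have hq : cp A = (X ^ 2 - C (2 * l₁.re) * X + 1) * (X ^ 2 - C (2 * l₂.re) * X + 1) := by
    apply Polynomial.map_injective (algebraMap ℝ ℂ) (algebraMap ℝ ℂ).injective
    rw [hfac, eo_factor n₁, eo_factor n₂]
    simp only [Polynomial.map_sub, Polynomial.map_add, Polynomial.map_mul, Polynomial.map_pow,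
      map_X, map_C, Polynomial.map_one, Complex.coe_algebraMap]
  have hexp : (X ^ 2 - C (2 * l₁.re) * X + 1) * (X ^ 2 - C (2 * l₂.re) * X + 1) =
      (X ^ 4 - C (2 * l₁.re + 2 * l₂.re) * X ^ 3 + C (2 * l₁.re * (2 * l₂.re) + 2) * X ^ 2 -
        C (2 * l₁.re + 2 * l₂.re) * X + 1 : ℝ[X]) := by
    have h9 : (C (2 : ℝ) : ℝ[X]) = 2 := rfl
    simp only [map_add, map_mul, h9]
    ring
  have hc := hcp.symm.trans (hq.trans hexp)
  have c3 := congrArg (fun p : ℝ[X] => p.coeff 3) hc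
  have c2 := congrArg (fun p : ℝ[X] => p.coeff 2) hc
  simp only [coeff_add, coeff_sub, coeff_C_mul, coeff_X_pow, coeff_X, coeff_one] at c3 c2
  norm_num at c3 c2
  refine ⟨2 * l₁.re, 2 * l₂.re, hlt l₁ n₁ i₁, hlt l₂ n₂ i₂, hq, by linarith, ?_⟩
  unfold dsc
  have h1 : tr1 A = 2 * l₁.re + 2 * l₂.re := by linarith
  have h2 : tr1 (A.comp A) = tr1 A ^ 2 - 2 * (2 * l₁.re * (2 * l₂.re) + 2) := by linarith
  rw [h2, h1]
  ring

end Pool.Agent.MP_5027f4_cont
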