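import Pool.Agent.Lib_MP_5027f4_cont.SEnd
import Pool.Agent.Lib_MP_5027f4_cont.WFam

/-!
# Strongly stable relative periodic orbits near Lyapunov stable ones
-/

open Set Filter Topology Metric Polynomial
open scoped ComplexConjugate ContDiff
open Pool.Agent.MP_5027f4_mp
open Pool.Agent.MP_5027f4_ell (Tri Shape cc coord Mt sg sm Nn Gz epsf kapf vf Bs IsFund IsCofund Mat)

namespace Pool.Agent.MP_5027f4_cont

variable {m : Fin 3 → ℝ} {ϖ : ℂ} {Sh : Shape} {d : Fin 3 → ℂ}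
  {e : ((ℂ × ℂ) × (ℂ × ℂ)) ≃L[ℝ] comSub m}

/-- **Relative equilibria at the end of the family**, if the rotation is not a multiplier. -/
theorem noREqG (hm : ∀ a, 0 < m a) {T : ℝ} (hT : 0 < T) {u : ℂ} (hu : ‖u‖ = 1) {q : ℝ[X]}
    (hq : ∀ l : ℂ, (q.map (algebraMap ℝ ℂ)).eval l = 0 → ‖l‖ = 1) (hq1 : q.eval 1 ≠ 0)
    (hqu : u = 1 ∨ (q.map (algebraMap ℝ ℂ)).eval u ≠ 0) :
    NoREq m T u ((X - 1) ^ 4 * q) := by
  rintro S X₀ X₁ Φ cn hS hLM hend hcp hc0 - hcn hne hacc ⟨Ω, hΩ⟩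
  have hm0 : ∀ a, m a ≠ 0 := fun a => (hm a).ne'
  have hM : MM m ≠ 0 := (MM_pos hm).ne'
  have hre : IsRE m Ω (pE m X₀) := ⟨pE_noColl hM hm0 hLM.nc0, hΩ⟩
  obtain ⟨h1, h2⟩ := hre.eqs
  -- roots
  have hroots : ∀ l : ℂ, (((X - 1) ^ 4 * q : ℝ[X]).map (algebraMap ℝ ℂ)).eval l = 0 → ‖l‖ = 1 := by
    intro l hl
    simp only [Polynomial.map_mul, Polynomial.map_pow, Polynomial.map_sub, Polynomial.map_X,
      Polynomial.map_one, eval_mul, eval_pow, eval_sub, eval_X, eval_one] at hl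
    rcases mul_eq_zero.1 hl with h | h
    · have : l = 1 := sub_eq_zero.1 (pow_eq_zero_iff (by norm_num) |>.1 h)
      rw [this, norm_one]
    · exact hq _ h
  rcases re_classify hm hre.1 (pE m X₀).2.1 h2 with ⟨r, hr, heq, hΩr⟩ | ⟨e', he', x', hx'⟩
  swap
  · -- collinear
    obtain ⟨s, hs, hev⟩ := euler_ev hm hre he' hx'
    have hroot := root_of_ev hm hT hu hLM hend hre hev
    rw [hcp] at hroot
    have hnorm := hroots _ hroot
    rw [Complex.norm_exp] at hnorm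
    have h3 : ((s : ℂ) * (T : ℂ)).re = 0 := Real.exp_eq_one_iff _ |>.1 hnorm
    rw [Complex.re_mul_ofReal, Complex.ofReal_re] at h3
    rcases mul_eq_zero.1 h3 with h4 | h4
    · exact hs h4
    · exact hT.ne' h4
  -- equilateral
  have hΩ0 : Ω ≠ 0 := by
    rintro rfl
    have := MM_pos hm
    rw [← hΩr] at this
    simp at this
  obtain ⟨ϖ, Sh, d, e, z₀, hϖ, hTr, he, hz₀r, hy₀⟩ := lag_setup hm hre hr heq
  have hz₀ : z₀ ≠ 0 := by
    rw [← norm_ne_zero_iff, hz₀r]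
    exact hr.ne'
  have hμ : Ω ^ 2 * ‖z₀‖ ^ 3 = Mt m := by rw [hz₀r, hΩr]; rfl
  have hMt : 0 < Mt m := MP_5027f4_ell.Mt_pos hm
  -- the classical solution
  have hcl : Solves (fld m) (frame m) (Icc 0 T)
      (fun t => Complex.exp (t * Ω * Complex.I) • ((pE m X₀ : comSub m) : Ph)) :=
    hre.solves.mono (subset_univ _)
  have hX : ((pE m X₀ : comSub m) : Ph) =
      (fun t : ℝ => Complex.exp (t * Ω * Complex.I) • ((pE m X₀ : comSub m) : Ph)) 0 := by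
    simp
  have hΨ := cmap_of_lm hm hT hcl hLM hX
  set Ψ : comSub m → comSub m := fun y => Φ (T, y) with hΨdef
  -- the rotation factor
  have hy0 : pE m X₀ ≠ 0 := by
    intro h
    apply hre.1 0 1 (by decide)
    rw [h]
    rfl
  have hue : u = Complex.exp ((Ω * T : ℝ) * Complex.I) := by
    obtain ⟨x, hx, hx0, hxT⟩ := hΨ.cl.self_of_nhds
    have hcl' : Solves (fld m) noColl (Icc 0 T)
        (fun t => Complex.exp (t * Ω * Complex.I) • ((pE m X₀ : comSub m) : Ph)) :=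
      fun t ht => ⟨frame_subset m (hcl t ht).1, (hcl t ht).2⟩
    have hx' : Solves (fld m) noColl (Icc 0 T) x :=
      fun t ht => ⟨frame_subset m (hx t ht).1, (hx t ht).2⟩
    have h3 := (hcl'.eqOn_of_eq isOpen_noColl (contDiffOn_fld m) hx' (by rw [hx0]; simp))
      ⟨hT.le, le_rfl⟩
    simp only at h3
    rw [hxT] at h3
    have h4 : Complex.exp (T * Ω * Complex.I) • pE m X₀ = Ψ (pE m X₀) := Subtype.ext h3
    obtain ⟨-, hfix⟩ := ret_fix hm hLM hu hend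
    have h5 : u⁻¹ • Ψ (pE m X₀) = pE m X₀ := hfix
    have hu0 : u ≠ 0 := by
      rintro rfl
      simp at hu
    have h6 : Ψ (pE m X₀) = u • pE m X₀ := by
      rw [← h5, smul_smul, mul_inv_cancel₀ hu0, one_smul, h5]
    rw [h6] at h4
    have h7 : Complex.exp (T * Ω * Complex.I) = u := smul_left_injective ℂ hy0 h4
    rw [← h7]
    congr 1
    push_cast
    ring
  -- the blocks
  have hks : KSol (Mt m) T (fun t => z₀ * Complex.exp ((Ω * t : ℝ) * Complex.I))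
      (fun t => (Ω : ℂ) * Complex.I * (z₀ * Complex.exp ((Ω * t : ℝ) * Complex.I))) :=
    circ_ksol hz₀ hμ
  obtain ⟨A, hA⟩ := exists_mono (M := Mt m) (s := 1) hT.le hks u
  obtain ⟨B, hB⟩ := exists_mono (M := Mt m) (s := sm m) hT.le hks u
  have hz00 : z₀ * Complex.exp ((Ω * 0 : ℝ) * Complex.I) = z₀ := by simp
  have hD : ∀ p, fderiv ℝ (fun y => u⁻¹ • Ψ y) (pE m X₀) (e p) = e (A p.1, B p.2) := by
    intro p
    have h3 := blk hm hϖ hTr he hT (u := u) hks (Ψ := Ψ) (by rw [hz00, ← hy₀]; exact hΨ)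
      hA hB p
    rwa [hz00, ← hy₀] at h3
  have hcpAB : (X - 1) ^ 4 * q = cp A * cp B := by
    rw [← hcp]
    exact cp_blk e hD
  obtain ⟨hA1, hA2⟩ := circ_hom hMt hT hμ hue hA
  by_cases hu1 : u = 1
  · -- rotation number one
    have hAp := hA2 hu1
    have hBq : cp B = q := by
      rw [hAp] at hcpAB
      exact (cancel_pow hcpAB).symm
    have hu1' : ∀ y, (fun y => u⁻¹ • Ψ y) y = Ψ y := by
      intro y
      simp only [hu1, inv_one, one_smul]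
    have hfun : (fun y => u⁻¹ • Ψ y) = Ψ := funext hu1'
    have hret : ret Φ T u = Ψ := hfun
    rw [hret] at hacc
    rw [hfun] at hD
    rw [hy₀] at hΨ hD hcn hne hacc
    refine hom_contra hm hϖ hTr he hT hΩ0 hz₀ hμ hΨ hD (by rw [hBq]; exact hq1)
      (χ := (X - 1) ^ 4 * q) ?_ hcn hne hacc
    intro h
    have h3 : ((X - 1 : ℝ[X]) ^ 4) ≠ 0 := by
      refine pow_ne_zero 4 ?_
      have := Polynomial.X_sub_C_ne_zero (1 : ℝ)
      simpa using this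
    rcases mul_eq_zero.1 h with h | h
    · exact h3 h
    · exact hq1 (by rw [h, eval_zero])
  · -- rotation number different from one
    have hqu' := hqu.resolve_left hu1
    have h3 := congrArg (fun p : ℝ[X] => (p.map (algebraMap ℝ ℂ)).eval u) hcpAB
    simp only [Polynomial.map_mul, Polynomial.map_pow, Polynomial.map_sub, Polynomial.map_X,
      Polynomial.map_one, eval_mul, eval_pow, eval_sub, eval_X, eval_one, hA1, zero_mul] at h3
    rcases mul_eq_zero.1 h3 with h4 | h4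
    · exact hu1 (sub_eq_zero.1 (pow_eq_zero_iff (by norm_num) |>.1 h4))
    · exact hqu' h4

/-- the Krein form of a monodromy is definite -/
def KrM (m : Fin 3 → ℝ) (M : comSub m →ₗ[ℝ] comSub m) (t : ℝ) : Prop :=
  (∀ v : comSub m, v ≠ 0 → M (M (M (M v) - t • M v + v)) - t • M (M (M v) - t • M v + v) +
      (M (M v) - t • M v + v) = 0 → 0 < oP m v (M v)) ∨
    (∀ v : comSub m, v ≠ 0 → M (M (M (M v) - t • M v + v)) - t • M (M (M v) - t • M v + v) +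
      (M (M v) - t • M v + v) = 0 → oP m v (M v) < 0)

/-- The linearized return map is the monodromy. -/
theorem ret_monodromy (hm : ∀ a, 0 < m a) {T S : ℝ} (hT : 0 < T) {y : ℝ → Ph} {X₀ X₁ : Up}
    {Φ : ℝ × comSub m → comSub m}
    (hy : Solves (fld m) (frame m) (Icc 0 T) y) (hΦ : LM m T S X₀ X₁ Φ)
    (hX : ((pE m X₀ : comSub m) : Ph) = y 0) {u : ℂ} (hu : ‖u‖ = 1)
    {M : comSub m →ₗ[ℝ] comSub m} (hM : IsMon m y T u M) (v : comSub m) :
    fderiv ℝ (ret Φ T u) (pE m X₀) v = M v := by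
  have hu0 : u ≠ 0 := by
    rw [← norm_ne_zero_iff, hu]
    exact one_ne_zero
  have hd2 : HasFDerivAt (fun p => Φ (T, p)) ((fderiv ℝ Φ (T, pE m X₀)).comp
      (ContinuousLinearMap.inr ℝ ℝ (comSub m))) (pE m X₀) := by
    have h1 : HasFDerivAt (fun p : comSub m => ((T, p) : ℝ × comSub m))
        (ContinuousLinearMap.inr ℝ ℝ (comSub m)) (pE m X₀) :=
      hasFDerivAt_prodMk_right T (pE m X₀)
    exact hΦ.an.differentiableAt.hasFDerivAt.comp (pE m X₀) h1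
  have hd3 : HasFDerivAt (ret Φ T u) (u⁻¹ • ((fderiv ℝ Φ (T, pE m X₀)).comp
      (ContinuousLinearMap.inr ℝ ℝ (comSub m)))) (pE m X₀) := hd2.const_smul u⁻¹
  rw [hd3.fderiv]
  obtain ⟨J, hJ, hJ0⟩ := exists_jacobi hT.le hy v
  have h0 : J 0 ∈ comSub m := by
    rw [hJ0]
    exact v.2
  have h1 := LM.jacobi hm hT hy hΦ hX hJ h0
  have h2 := hM J h0 hJ
  have h3 : (⟨J 0, h0⟩ : comSub m) = v := Subtype.ext hJ0
  rw [h3] at h1 h2
  apply Subtype.ext
  show u⁻¹ • ((fderiv ℝ Φ (T, pE m X₀) (0, v) : comSub m) : Ph) = (M v : Ph)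
  rw [h1, h2, smul_smul, inv_mul_cancel₀ hu0, one_smul]

/-- the core: no relative equilibrium at the end of the family (`hRE`) -/
theorem coreq4 (hm : ∀ a, 0 < m a) {x : ℝ → Ph} (hx : Solves (fld m) (frame m) univ x) {P : ℝ}
    (hP : 0 < P) (hper : ∀ t, x (t + P) = x t) (hst : LyapunovStable m (range x))
    (hnc : ¬ ∀ a b t, ‖(x t).1 a - (x t).1 b‖ = ‖(x 0).1 a - (x 0).1 b‖) :
    ∃ U, IsOpen U ∧ range x ⊆ U ∧ ∀ (y : ℝ → Ph) (T : ℝ) (u : ℂ), 0 < T → ‖u‖ = 1 →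
      Solves (fld m) (frame m) (Icc 0 T) y → y 0 ∈ U → y T = u • y 0 →
      ∀ M : comSub m →ₗ[ℝ] comSub m, IsMon m y T u M → ∀ t : ℝ, |t| < 2 →
        M.charpoly = (X - 1) ^ 4 * dq t → KrM m M t → ¬ NoREq m T u ((X - 1) ^ 4 * dq t) := by
  obtain ⟨U, hU, hxU, hbd⟩ := bd_of_stable hm hx hP hper hst hnc
  obtain ⟨W, hW, hxW, hWn⟩ := exists_nonRE hm hx hnc
  refine ⟨U ∩ W, hU.inter hW, subset_inter hxU hxW,
    fun y T u hT hu hy hyUW hyT M hM t ht2 hq hKr hRE => ?_⟩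
  obtain ⟨hy0, hyW⟩ := hyUW
  have hm0 : ∀ a, m a ≠ 0 := fun a => (hm a).ne'
  have hMM : MM m ≠ 0 := (MM_pos hm).ne'
  have h0mem : (0 : ℝ) ∈ Icc 0 T := ⟨le_rfl, hT.le⟩
  have hfr := (hy 0 h0mem).1
  have hneg := energy_neg hm hT hu hy hyT
  -- lift to the regularized problem
  obtain ⟨X₀, hn0, hX0⟩ := exists_lift hMM hm0 (y := ⟨y 0, hfr.2⟩) hfr.1
  have hX : ((pE m X₀ : comSub m) : Ph) = y 0 := by rw [hX0]
  obtain ⟨S, hS, c, hc, hc0, hcn, hcy, hcT⟩ := exists_lift_run hm hT hy hn0 hX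
  have hen : (muE m (pE m X₀)).1 = energy m (y 0) := by
    simp only [muE, hX]
  have hrun : Run m (muE m (pE m X₀)).1 S X₀ T (c S) := by
    rw [hen]
    exact ⟨c, hc, hc0, rfl, hcT⟩
  have hn1 : Nonc (c S) := hcn S ⟨hS.le, le_rfl⟩
  have hend : pE m (c S) = u • pE m X₀ := by
    apply Subtype.ext
    rw [hcy S ⟨hS.le, le_rfl⟩, hcT, hyT]
    change u • y 0 = u • ((pE m X₀ : comSub m) : Ph)
    rw [hX]
  obtain ⟨Φ, hLM⟩ := exists_LM hm hrun hn0 hn1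
  obtain ⟨φ, hφ⟩ := exists_LM hm (Run.zero m (muE m (pE m X₀)).1 X₀) hn0 hn0
  have hBD := hbd y T u hT hu hy hy0 hyT S X₀ (c S) Φ φ hX hLM hφ hend
  have hcp : cp (fderiv ℝ (ret Φ T u) (pE m X₀)) = (X - 1) ^ 4 * dq t := by
    rw [cp_monodromy hm hT hy hLM hX hu hM, hq]
  have hMv := ret_monodromy hm hT hy hLM hX hu hM
  have hKE : KrE (omE m) (fderiv ℝ (ret Φ T u) (pE m X₀)) t := by
    unfold KrE nq
    simp only [hMv, omE_apply]
    exact hKr
  have hnr : ¬ ∃ μ : ℝ, fld₀ m (pE m X₀) = ((μ : ℂ) * Complex.I) • pE m X₀ := by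
    rintro ⟨μ, hμ⟩
    refine hWn _ hyW ⟨μ, ?_⟩
    have h1 : ((fld₀ m (pE m X₀) : comSub m) : Ph) =
        ((((μ : ℂ) * Complex.I) • pE m X₀ : comSub m) : Ph) := by rw [hμ]
    have h2 : fld m ((pE m X₀ : comSub m) : Ph) =
        ((μ : ℂ) * Complex.I) • ((pE m X₀ : comSub m) : Ph) := h1
    rwa [hX] at h2
  obtain ⟨han, hfix⟩ := ret_fix hm hLM hu hend
  obtain ⟨𝒱, h𝒱, hgood⟩ := good_near hm hLM hS hu
  have hfam := local_family4 (finrank_comSub hm) (omE_self (m := m)) (omE_nondeg hm)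
    (locAct hm hφ hnr) han hfix (ret_comm hm hLM hφ hu hend) (ret_mu hm hLM hu)
    (ret_symp_E hm hLM hu) hBD ht2 hcp hKE 𝒱 h𝒱
  obtain ⟨e, he⟩ : ∃ e : ℝ, (muE m (pE m X₀)).1 = -e := ⟨-(muE m (pE m X₀)).1, by ring⟩
  have he0 : 0 < e := by
    have : -e < 0 := by rw [← he, hen]; exact hneg
    linarith
  refine no_goodq hm he0 hT hu (dq_eval_one ht2) hRE (c₁ := (muE m (pE m X₀)).2) ?_
  filter_upwards [hfam] with c' hc'
  obtain ⟨z, h1, h2, h3, h4⟩ := hc'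
  exact hgood z h1 h2 _ _ _ (by rw [h3, he]) h4

/-- **Theorem T4 for all masses**: no definite double multiplier. -/
theorem main5 (hm : ∀ a, 0 < m a) {x : ℝ → Ph}
    (hx : Solves (fld m) (frame m) univ x) {P : ℝ} (hP : 0 < P) (hper : ∀ t, x (t + P) = x t)
    (hst : LyapunovStable m (range x))
    (hnc : ¬ ∀ a b t, ‖(x t).1 a - (x t).1 b‖ = ‖(x 0).1 a - (x 0).1 b‖) :
    ∃ U, IsOpen U ∧ range x ⊆ U ∧ ∀ y : ℝ → Ph, Solves (fld m) (frame m) univ y → y 0 ∈ U →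
      ∀ T > 0, ∀ u : ℂ, ‖u‖ = 1 → (∀ t, y (t + T) = u • y t) → ∀ M, IsMon m y T u M →
        ∀ l₁ l₂ : ℂ, ‖l₁‖ = 1 → l₁ ^ 2 ≠ 1 → (l₁ = l₂ ∨ l₁ * l₂ = 1) → Mult M l₁ l₂ →
          (u = 1 ∨ (l₁ ≠ u ∧ l₁ * u ≠ 1)) → ¬ KrM m M (2 * l₁.re) := by
  obtain ⟨U₁, hU₁, hxU₁, hcore⟩ := coreq4 hm hx hP hper hst hnc
  refine ⟨U₁, hU₁, hxU₁, fun y hy hy0 T hT u hu hyu M hM l₁ l₂ h1 hl1 hll hMl hul hKr => ?_⟩
  have hy' : Solves (fld m) (frame m) (Icc 0 T) y := hy.mono (subset_univ _)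
  have hyT : y T = u • y 0 := by
    have := hyu 0
    rwa [zero_add] at this
  have hl0 : l₁ ≠ 0 := by
    rintro rfl
    simp at h1
  have ht2 : |2 * l₁.re| < 2 := by
    have := eo_lt_one h1 hl1
    exact abs_lt_of_sq_lt_sq (by linarith) (by norm_num)
  have hdq : (dq (2 * l₁.re)).map (algebraMap ℝ ℂ) =
      (X - C l₁) * (X - C l₁⁻¹) * ((X - C l₁) * (X - C l₁⁻¹)) := by
    rw [dq, eo_factor h1]
    simp only [Polynomial.map_sub, Polynomial.map_add, Polynomial.map_mul, Polynomial.map_pow,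
      map_X, map_C, Polynomial.map_one, Complex.coe_algebraMap]
  have hMq : M.charpoly = (X - 1) ^ 4 * dq (2 * l₁.re) := by
    apply Polynomial.map_injective (algebraMap ℝ ℂ) (algebraMap ℝ ℂ).injective
    have h3 : M.charpoly.map (algebraMap ℝ ℂ) = _ := hMl
    rw [h3, Polynomial.map_mul, Polynomial.map_pow, Polynomial.map_sub, Polynomial.map_X,
      Polynomial.map_one, hdq]
    rcases hll with rfl | h4
    · rfl
    · have h5 : l₂ = l₁⁻¹ := eq_inv_of_mul_eq_one_right h4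
      rw [h5, inv_inv]
      ring
  have hev : ∀ w : ℂ, ((dq (2 * l₁.re)).map (algebraMap ℝ ℂ)).eval w = 0 → w = l₁ ∨ w = l₁⁻¹ := by
    intro w hw
    rw [hdq] at hw
    simp only [eval_mul, eval_sub, eval_X, eval_C] at hw
    rcases mul_eq_zero.1 hw with h | h <;> rcases mul_eq_zero.1 h with h | h
    · exact Or.inl (sub_eq_zero.1 h)
    · exact Or.inr (sub_eq_zero.1 h)
    · exact Or.inl (sub_eq_zero.1 h)
    · exact Or.inr (sub_eq_zero.1 h)
  refine hcore y T u hT hu hy' hy0 hyT M hM (2 * l₁.re) ht2 hMq hKr (noREqG hm hT hu ?_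
    (dq_eval_one ht2) ?_)
  · intro l hl
    rcases hev l hl with h | h
    · rw [h, h1]
    · rw [h, norm_inv, h1, inv_one]
  · rcases hul with h | ⟨h2, h3⟩
    · exact Or.inl h
    · refine Or.inr fun h4 => ?_
      rcases hev u h4 with h | h
      · exact h2 h.symm
      · exact h3 (by rw [h, mul_inv_cancel₀ hl0])

end Pool.Agent.MP_5027f4_cont
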